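import Pool.Agent.T2H01.SE.Stm1

/-!
# The vortex action does not depend on the vacuum
-/

set_option autoImplicit false
set_option linter.unusedSectionVars false

noncomputable section

open MeasureTheory Matrix
open scoped Matrix.Norms.Frobenius

namespace T2H01.SE

open T2H02.TT

namespace PkgInv

variable {N L : ℕ} [NeZero L]

lemma vc_conj (g P Q : SU N) (l : Lk L) :
    gau (fun _ => g) (vc P Q : Cf N L) l = vc (g * P * g⁻¹) (g * Q * g⁻¹) l := by
  simp only [gau, vc, vac]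
  split_ifs <;> simp_all

lemma vset_sub (hVA : S_VA) {k : ℕ} (hN : 2 ≤ N) (g P Q : SU N) :
    vset L k P Q ⊆ vset L k (g * P * g⁻¹) (g * Q * g⁻¹) := by
  rintro e ⟨n, U, X, hn, h0, hX, rfl⟩
  refine ⟨n, U, gau (fun _ => g) X, hn, h0, fun l hl => ?_, ?_⟩
  · rw [← vc_conj]
    simp only [gau]
    rw [hX l hl]
  · unfold EE
    refine Finset.sum_congr rfl fun τ _ => ?_
    exact ((hVA N k L hN).2.2.2.2.2.1 (fun _ => g) (fun _ _ => 0) (dl 0 n) X τ).1.symm

end PkgInv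

open PkgInv in
/-- all vacua have the same vortex action -/
theorem SS_inv (hA2 : S_A2) (hVA : S_VA) (N k L : ℕ) [NeZero L] (hN : 2 ≤ N) (hk : Nat.Coprime k N)
    (P Q P' Q' : SU N) (h : PQ k P Q) (h' : PQ k P' Q') : SS L k P Q = SS L k P' Q' := by
  obtain ⟨g, rfl, rfl⟩ := hA2 N k hN hk P Q P' Q' h h'
  have h1 : vset L k P Q ⊆ vset L k (g * P * g⁻¹) (g * Q * g⁻¹) := vset_sub hVA hN g P Q
  have h2 : vset L k (g * P * g⁻¹) (g * Q * g⁻¹) ⊆ vset L k P Q := by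
    have h3 : vset L k (g * P * g⁻¹) (g * Q * g⁻¹) ⊆ _ :=
      vset_sub hVA hN g⁻¹ (g * P * g⁻¹) (g * Q * g⁻¹)
    have e : ∀ P : SU N, g⁻¹ * (g * P * g⁻¹) * (g⁻¹)⁻¹ = P := fun P => by group
    rwa [e, e] at h3
  rw [SS, SS, Set.Subset.antisymm h1 h2]

end T2H01.SE
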