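import Pool.Agent.T2H01.SE.Stm7

/-!
# Package DG : the dilute gas of vortices (final assembly)
-/

set_option autoImplicit false

noncomputable section

open MeasureTheory Matrix Filter
open scoped Matrix.Norms.Frobenius

namespace T2H01.SE.PkgDG

open T2H02.TT T2H01.SE

/-! ### roots of unity -/

lemma om_zero (N : ℕ) : om N 0 = 1 := by simp [om]

lemma om_norm (N k : ℕ) : ‖om N k‖ = 1 := by
  have e : (2 * Real.pi * Complex.I * k / N : ℂ) = ((2 * Real.pi * k / N : ℝ) : ℂ) * Complex.I := by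
    push_cast; ring
  unfold om
  rw [e, Complex.norm_exp_ofReal_mul_I]

lemma om_re (N k : ℕ) : (om N k).re = Real.cos (2 * Real.pi * k / N) := by
  have e : (2 * Real.pi * Complex.I * k / N : ℂ) = ((2 * Real.pi * k / N : ℝ) : ℂ) * Complex.I := by
    push_cast; ring
  unfold om
  rw [e, Complex.exp_ofReal_mul_I_re]

lemma om_mul (N c n : ℕ) : om N (c * n) = om N n ^ c := by
  unfold om
  rw [← Complex.exp_nat_mul]
  congr 1
  push_cast
  ring

lemma om_powN {N : ℕ} (hN : N ≠ 0) (n : ℕ) : om N n ^ N = 1 := by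
  unfold om
  rw [← Complex.exp_nat_mul]
  have hN' : (N : ℂ) ≠ 0 := Nat.cast_ne_zero.2 hN
  have e : (N : ℂ) * (2 * Real.pi * Complex.I * n / N) = n * (2 * Real.pi * Complex.I) := by
    field_simp
  rw [e, Complex.exp_nat_mul_two_pi_mul_I]

lemma om_ne_one {N n : ℕ} (hN : N ≠ 0) (hn : ¬ N ∣ n) : om N n ≠ 1 := by
  intro h
  unfold om at h
  obtain ⟨k, hk⟩ := Complex.exp_eq_one_iff.1 h
  have hN' : (N : ℂ) ≠ 0 := Nat.cast_ne_zero.2 hN
  have hpi : (2 * Real.pi * Complex.I : ℂ) ≠ 0 := Complex.two_pi_I_ne_zero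
  have h1 : (n : ℂ) = (k : ℂ) * N := by
    have h2 : (2 * Real.pi * Complex.I : ℂ) * n = (2 * Real.pi * Complex.I) * (k * N) := by
      rw [div_eq_iff hN'] at hk
      rw [hk]; ring
    exact mul_left_cancel₀ hpi h2
  have h3 : (n : ℤ) = k * N := by exact_mod_cast h1
  exact hn (Int.natCast_dvd_natCast.1 ⟨k, by rw [h3]; ring⟩)

lemma sum_om {N n : ℕ} (hN : N ≠ 0) (hn : ¬ N ∣ n) : ∑ c ∈ Finset.range N, om N (c * n) = 0 := by
  simp_rw [om_mul]
  have h := geom_sum_mul (om N n) N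
  rw [om_powN hN, sub_self] at h
  rcases mul_eq_zero.1 h with h | h
  · exact h
  · exact absurd (sub_eq_zero.1 h) (om_ne_one hN hn)

lemma om_red {N : ℕ} (hN : N ≠ 0) (c n : ℕ) : om N (c * n) = om N (c % N * n) := by
  rw [om_mul, om_mul]
  conv_lhs => rw [← Nat.mod_add_div c N, pow_add, pow_mul, om_powN hN, one_pow, mul_one]

lemma cos_red {N : ℕ} (hN : N ≠ 0) (c n : ℕ) :
    Real.cos (2 * Real.pi * (c * n) / N) = Real.cos (2 * Real.pi * ((c % N : ℕ) * n) / N) := by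
  have h1 := om_re N (c * n)
  have h2 := om_re N (c % N * n)
  rw [← om_red hN, h1] at h2
  push_cast at h2 ⊢
  exact h2

/-! ### one torus -/

/-- the weights of the flux sectors of one torus -/
lemma scale (hUL : S_UL) {N : ℕ} (hN : 2 ≤ N) (z : ℕ → ℝ) (hz : ∀ n, 0 < z n) (Y : ℝ) (X : ℕ → ℝ)
    (hY : (N : ℝ) * Y = ∑ n ∈ Finset.range N, z n)
    (hX : ∀ c, (N : ℂ) * (X c : ℂ) = ∑ n ∈ Finset.range N, om N (c * n) * (z n : ℂ)) (u : ℝ)
    (hlow : ∀ c, Real.exp (-u) * Y ≤ X c) (hu : u ≤ 1 / 8) :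
    ∃ p : ℕ → ℝ, (∀ n, 0 < p n) ∧ ∑ n ∈ Finset.Ico 1 N, p n ≤ u ∧
      ∀ c : ℕ, |Real.log (X c / Y) +
        ∑ n ∈ Finset.Ico 1 N, p n * (1 - Real.cos (2 * Real.pi * (c * n) / N))| ≤
          8 * (∑ n ∈ Finset.Ico 1 N, p n) ^ 2 := by
  have hN0 : N ≠ 0 := by omega
  have hNr : (0 : ℝ) < N := Nat.cast_pos.2 (by omega)
  have hZ : 0 < ∑ n ∈ Finset.range N, z n :=
    Finset.sum_pos (fun n _ => hz n) ⟨0, Finset.mem_range.2 (by omega)⟩
  have hY0 : 0 < Y := by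
    rw [← hY] at hZ
    exact (mul_pos_iff_of_pos_left hNr).1 hZ
  have hX0 : ∀ c, 0 < X c := fun c => lt_of_lt_of_le (mul_pos (Real.exp_pos _) hY0) (hlow c)
  set Z : ℝ := ∑ n ∈ Finset.range N, z n with hZdef
  have hps : ∑ n ∈ Finset.range N, z n / Z = 1 := by
    rw [← Finset.sum_div, div_self hZ.ne']
  have hcx : ∀ c, ∑ n ∈ Finset.range N, om N (c * n) * ((z n / Z : ℝ) : ℂ) = ((X c / Y : ℝ) : ℂ) := by
    intro c
    have h1 : ∑ n ∈ Finset.range N, om N (c * n) * ((z n / Z : ℝ) : ℂ) =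
        (∑ n ∈ Finset.range N, om N (c * n) * (z n : ℂ)) / (Z : ℂ) := by
      rw [Finset.sum_div]
      refine Finset.sum_congr rfl fun n _ => ?_
      push_cast
      ring
    rw [h1, ← hX, ← hY]
    have hNc : (N : ℂ) ≠ 0 := Nat.cast_ne_zero.2 hN0
    have hYc : (Y : ℂ) ≠ 0 := Complex.ofReal_ne_zero.2 hY0.ne'
    push_cast
    field_simp
  have hsplit : ∑ n ∈ Finset.range N, z n / Z = z 0 / Z + ∑ n ∈ Finset.Ico 1 N, z n / Z := by
    rw [Finset.range_eq_Ico, Finset.sum_eq_sum_Ico_succ_bot (by omega : 0 < N)]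
  have hsumc : ∑ c ∈ Finset.range N, X c / Y = N * (z 0 / Z) := by
    have h1 : ∑ c ∈ Finset.range N, ((X c / Y : ℝ) : ℂ) = (N : ℂ) * ((z 0 / Z : ℝ) : ℂ) := by
      simp_rw [← hcx]
      rw [Finset.sum_comm]
      simp_rw [← Finset.sum_mul]
      rw [Finset.range_eq_Ico, Finset.sum_eq_sum_Ico_succ_bot (by omega : 0 < N)]
      rw [Finset.sum_eq_zero (s := Finset.Ico (0 + 1) N), add_zero]
      · congr 1
        simp [om_zero]
      · intro n hn
        rw [Finset.mem_Ico] at hn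
        rw [← Finset.range_eq_Ico, sum_om hN0, zero_mul]
        intro hd
        exact absurd (Nat.le_of_dvd (by omega) hd) (by omega)
    exact_mod_cast h1
  refine ⟨fun n => z n / Z, fun n => div_pos (hz n) hZ, ?_, ?_⟩
  · have h1 : (N : ℝ) * (1 - u) ≤ ∑ c ∈ Finset.range N, X c / Y := by
      have h2 : ∀ c ∈ Finset.range N, 1 - u ≤ X c / Y := by
        intro c _
        rw [le_div_iff₀ hY0]
        refine le_trans ?_ (hlow c)
        have := Real.add_one_le_exp (-u)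
        exact mul_le_mul_of_nonneg_right (by linarith) hY0.le
      have h3 := Finset.card_nsmul_le_sum _ _ _ h2
      rwa [Finset.card_range, nsmul_eq_mul] at h3
    rw [hsumc] at h1
    have h2 := le_of_mul_le_mul_left h1 hNr
    linarith
  · intro c
    have hq8 : ∑ n ∈ Finset.Ico 1 N, z n / Z ≤ 1 / 8 := by
      refine le_trans ?_ hu
      have h1 : (N : ℝ) * (1 - u) ≤ ∑ c ∈ Finset.range N, X c / Y := by
        have h2 : ∀ c ∈ Finset.range N, 1 - u ≤ X c / Y := by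
          intro c _
          rw [le_div_iff₀ hY0]
          refine le_trans ?_ (hlow c)
          have := Real.add_one_le_exp (-u)
          exact mul_le_mul_of_nonneg_right (by linarith) hY0.le
        have h3 := Finset.card_nsmul_le_sum _ _ _ h2
        rwa [Finset.card_range, nsmul_eq_mul] at h3
      rw [hsumc] at h1
      have h2 := le_of_mul_le_mul_left h1 hNr
      linarith
    have h := hUL N c (fun n => z n / Z) hN (fun n => (div_pos (hz n) hZ).le) hps hq8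
    rw [hcx, Complex.norm_real, Real.norm_eq_abs, abs_of_pos (div_pos (hX0 c) hY0)] at h
    exact h

/-! ### fixed coupling -/

theorem fixed (hUJ : S_UJ) (hUK : S_UK) (hUL : S_UL) {N : ℕ} (hN : 2 ≤ N)
    {x : ℕ → ℕ → ℕ → ℝ} {y : ℕ → ℕ → ℝ} {z : ℕ → ℕ → ℕ → ℝ} {C₀ C m : ℝ} (hm : 0 < m)
    (hy : ∀ a b, 0 < y a b ∧ y a b = y b a ∧ Real.exp (-C₀ * (a * b)) ≤ y a b ∧ y a b ≤ 1)
    (h1 : ∀ c a b j : ℕ, Even a → 2 ≤ a → 2 ≤ b → 1 ≤ j → x c (a * j) b ≤ x c a b ^ j)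
    (h2 : ∀ c a b : ℕ, Even a → 2 ≤ a → 2 ≤ b → x c (a + 2) b ^ 2 ≤ x c a b * x c (a + 4) b)
    (hx0 : ∀ a b, x 0 a b = y a b) (hsym : ∀ c a b, x c a b = x c b a)
    (hdb : ∀ a b : ℕ, 10 ≤ a → 10 ≤ b → y a b ^ 2 ≤ y (2 * a) b *
      Real.exp (b * Real.exp (C - m * (min a b : ℕ))))
    (hz : ∀ n a b, 0 < z n a b)
    (hTQ : ∀ c a b : ℕ, Even a → 2 ≤ a → 2 ≤ b →
      (N : ℂ) * (x c a b : ℂ) = ∑ n ∈ Finset.range N, om N (c * n) * (z n a b : ℂ))
    {a₁ K : ℕ} {s₁ s τ η' : ℝ}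
    (hup : ∀ a b : ℕ, a₁ ≤ a → a₁ ≤ b → x 1 a b ≤ Real.exp (-(s₁ * (a * b))) * y a b)
    (hlo : ∀ f : ℝ, (∀ a b : ℕ, Even a → Even b → 2 ≤ a → 2 ≤ b →
        Real.exp (-(f * (a * b))) ≤ y a b) →
      ∀ c a b : ℕ, Even a → Even b → 2 ≤ a → 2 ≤ b → Real.exp (-((s + f) * (a * b))) ≤ x c a b)
    (ha₁ : Even a₁) (ha10 : 10 ≤ a₁) (hτ : 2 * Real.exp (C - m * a₁) ≤ τ)
    (hs₁ : 0 < s₁) (hη' : 0 < η') (hη1 : η' ≤ 1) (hc1 : 2 * N * τ ≤ s₁)
    (hc2 : 2 * N * (s + τ) ≤ s₁ * (1 + η') ^ K)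
    (hq : (s + τ) * (((2 ^ K * a₁ : ℕ) : ℝ) * ((2 ^ K * a₁ : ℕ) : ℝ)) ≤ 1 / 8) :
    ∃ ζ : ℕ → ℝ, (∀ n, 0 < ζ n) ∧ s₁ / 3 ≤ ∑ n ∈ Finset.Ico 1 N, ζ n ∧
      ∑ n ∈ Finset.Ico 1 N, ζ n ≤ s + τ ∧
      ∀ c A B : ℕ, Even A → Even B → 2 ^ K * a₁ ≤ A → 2 ^ K * a₁ ≤ B →
        |Real.log (x c A B / y A B) / (A * B) +
          ∑ n ∈ Finset.Ico 1 N, ζ n * (1 - Real.cos (2 * Real.pi * (c * n) / N))| ≤
        (24 * N * η' + 8 * ((s + τ) * (((2 ^ K * a₁ : ℕ) : ℝ) * ((2 ^ K * a₁ : ℕ) : ℝ)))) *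
          (∑ n ∈ Finset.Ico 1 N, ζ n) + 2 * τ := by
  have hN0 : N ≠ 0 := by omega
  have hNr : (0 : ℝ) < N := Nat.cast_pos.2 (by omega)
  have hτ0 : 0 ≤ τ := le_trans (by positivity) hτ
  obtain ⟨f, hf1, hf2⟩ := hUJ y C₀ C m hm hy
    (fun a b j ha h2a h2b hj => by
      have := h1 0 a b j ha h2a h2b hj
      rwa [hx0, hx0] at this)
    (fun a b ha h2a h2b => by
      have := h2 0 a b ha h2a h2b
      rwa [hx0, hx0, hx0] at this) hdb
  have hy0 : ∀ a b, 0 < y a b := fun a b => (hy a b).1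
  have hsumz : ∀ a b : ℕ, Even a → 2 ≤ a → 2 ≤ b →
      (N : ℝ) * y a b = ∑ n ∈ Finset.range N, z n a b := by
    intro a b ha h2a h2b
    have h := hTQ 0 a b ha h2a h2b
    rw [hx0] at h
    have e : ∀ n ∈ Finset.range N, om N (0 * n) * (z n a b : ℂ) = (z n a b : ℂ) := fun n _ => by
      rw [Nat.zero_mul, om_zero, one_mul]
    rw [Finset.sum_congr rfl e] at h
    exact_mod_cast h
  have hxlo := hlo f hf1
  have hxpos : ∀ c a b : ℕ, Even a → Even b → 2 ≤ a → 2 ≤ b → 0 < x c a b :=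
    fun c a b ha hb h2a h2b => lt_of_lt_of_le (Real.exp_pos _) (hxlo c a b ha hb h2a h2b)
  have hxy : ∀ c a b : ℕ, Even a → 2 ≤ a → 2 ≤ b → x c a b ≤ y a b := by
    intro c a b ha h2a h2b
    have h := hTQ c a b ha h2a h2b
    have h3 : (N : ℝ) * |x c a b| ≤ N * y a b := by
      calc (N : ℝ) * |x c a b| = ‖(N : ℂ) * (x c a b : ℂ)‖ := by
            rw [norm_mul, Complex.norm_natCast, Complex.norm_real, Real.norm_eq_abs]
        _ = ‖∑ n ∈ Finset.range N, om N (c * n) * (z n a b : ℂ)‖ := by rw [h]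
        _ ≤ ∑ n ∈ Finset.range N, ‖om N (c * n) * (z n a b : ℂ)‖ := norm_sum_le _ _
        _ = ∑ n ∈ Finset.range N, z n a b := by
            refine Finset.sum_congr rfl fun n _ => ?_
            rw [norm_mul, om_norm, one_mul, Complex.norm_real, Real.norm_eq_abs,
              abs_of_pos (hz n a b)]
        _ = N * y a b := (hsumz a b ha h2a h2b).symm
    exact (le_abs_self _).trans (le_of_mul_le_mul_left h3 hNr)
  -- the upper bound of `y`
  have hyup : ∀ a b : ℕ, Even a → Even b → a₁ ≤ a → a₁ ≤ b →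
      y a b ≤ Real.exp (-(f * (a * b)) + τ * (a * b)) := by
    intro a b ha hb h1a h1b
    refine (hf2 a b ha hb (by omega) (by omega)).trans (Real.exp_le_exp.2 ?_)
    have hmin : (a₁ : ℝ) ≤ ((min a b : ℕ) : ℝ) := Nat.cast_le.2 (le_min h1a h1b)
    have h3 : 2 * Real.exp (C - m * (min a b : ℕ)) ≤ τ := by
      refine le_trans ?_ hτ
      have : Real.exp (C - m * (min a b : ℕ)) ≤ Real.exp (C - m * a₁) :=
        Real.exp_le_exp.2 (by nlinarith)
      linarith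
    have h4 : (0 : ℝ) ≤ (a : ℝ) * b := by positivity
    have := mul_le_mul_of_nonneg_right h3 h4
    linarith
  have hE : ∀ c a b : ℕ, Even a → Even b → a₁ ≤ a → a₁ ≤ b →
      Real.exp (-((s + τ) * (a * b))) * y a b ≤ x c a b := by
    intro c a b ha hb h1a h1b
    calc Real.exp (-((s + τ) * (a * b))) * y a b ≤
        Real.exp (-((s + τ) * (a * b))) * Real.exp (-(f * (a * b)) + τ * (a * b)) :=
          mul_le_mul_of_nonneg_left (hyup a b ha hb h1a h1b) (Real.exp_pos _).le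
      _ = Real.exp (-((s + f) * (a * b))) := by
          rw [← Real.exp_add]; congr 1; ring
      _ ≤ x c a b := hxlo c a b ha hb (by omega) (by omega)
  have hK := hUK N K a₁ x y f τ s₁ (s + τ) η' hN ha₁ (by omega) hτ0 hs₁ hη' hη1 hc1 hc2
    (fun c a b ha hb h1a h1b => ⟨hy0 a b, hxpos c a b ha hb (by omega) (by omega),
      hxy c a b ha (by omega) (by omega), hsym c a b, (hy a b).2.1⟩)
    (fun c a b j ha _ h1a h1b hj => h1 c a b j ha (by omega) (by omega) hj)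
    (fun c a b ha _ h1a h1b => h2 c a b ha (by omega) (by omega))
    (fun a b ha hb h1a h1b => ⟨hf1 a b ha hb (by omega) (by omega), hyup a b ha hb h1a h1b⟩)
    hE (fun a b _ _ h1a h1b => hup a b h1a h1b)
  -- the scale `a₂`
  set a₂ : ℕ := 2 ^ K * a₁ with ha₂def
  have ha₂e : Even a₂ := ha₁.mul_left _
  have ha₂ge : a₁ ≤ a₂ := Nat.le_mul_of_pos_left _ (by positivity)
  have ha₂r : (0 : ℝ) < (a₂ : ℝ) * a₂ := by
    have : (0 : ℝ) < a₂ := Nat.cast_pos.2 (by omega)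
    positivity
  obtain ⟨p, hp0, hpq, hpc⟩ := scale hUL hN (fun n => z n a₂ a₂) (fun n => hz n a₂ a₂) (y a₂ a₂)
    (fun c => x c a₂ a₂) (hsumz a₂ a₂ ha₂e (by omega) (by omega))
    (fun c => hTQ c a₂ a₂ ha₂e (by omega) (by omega)) ((s + τ) * (a₂ * a₂))
    (fun c => hE c a₂ a₂ ha₂e ha₂e ha₂ge ha₂ge) hq
  set q : ℝ := ∑ n ∈ Finset.Ico 1 N, p n with hqdef
  have hq0 : 0 ≤ q := Finset.sum_nonneg fun n _ => (hp0 n).le
  have hsum : ∑ n ∈ Finset.Ico 1 N, p n / ((a₂ : ℝ) * a₂) = q / ((a₂ : ℝ) * a₂) := by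
    rw [← Finset.sum_div]
  set Z : ℝ := q / ((a₂ : ℝ) * a₂) with hZdef
  have hZ0 : 0 ≤ Z := by positivity
  have ha₂0 : (a₂ : ℝ) ≠ 0 := Nat.cast_ne_zero.2 (by omega)
  -- the exponents at the scale `a₂`
  set G : ℕ → ℝ := fun c => ∑ n ∈ Finset.Ico 1 N, p n / ((a₂ : ℝ) * a₂) *
    (1 - Real.cos (2 * Real.pi * (c * n) / N)) with hG
  set W : ℕ → ℝ := fun c => Real.log (y a₂ a₂ / x c a₂ a₂) / ((a₂ : ℝ) * a₂) with hW
  have hWG : ∀ c, |W c - G c| ≤ 8 * q * Z := by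
    intro c
    have h := hpc c
    have e1 : Real.log (x c a₂ a₂ / y a₂ a₂) = - Real.log (y a₂ a₂ / x c a₂ a₂) := by
      rw [← Real.log_inv, inv_div]
    have e2 : W c - G c = -((Real.log (x c a₂ a₂ / y a₂ a₂) + ∑ n ∈ Finset.Ico 1 N,
        p n * (1 - Real.cos (2 * Real.pi * (c * n) / N))) / ((a₂ : ℝ) * a₂)) := by
      simp only [hW, hG]
      rw [e1, add_div, Finset.sum_div]
      have : ∀ n ∈ Finset.Ico 1 N, p n / ((a₂ : ℝ) * a₂) *
          (1 - Real.cos (2 * Real.pi * (c * n) / N)) =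
          p n * (1 - Real.cos (2 * Real.pi * (c * n) / N)) / ((a₂ : ℝ) * a₂) := fun n _ => by ring
      rw [Finset.sum_congr rfl this]
      ring
    rw [e2, abs_neg, abs_div, abs_of_pos ha₂r, div_le_iff₀ ha₂r]
    refine h.trans (le_of_eq ?_)
    rw [hZdef]
    field_simp
  have hG2 : ∀ c, G c ≤ 2 * Z := by
    intro c
    rw [← hsum, Finset.mul_sum]
    refine Finset.sum_le_sum fun n _ => ?_
    have h3 : 0 ≤ p n / ((a₂ : ℝ) * a₂) := div_nonneg (hp0 n).le ha₂r.le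
    have h4 := Real.neg_one_le_cos (2 * Real.pi * (c * n) / N)
    nlinarith
  have hq8 : 8 * q ≤ 1 := by linarith [hpq.trans hq]
  have hW3 : ∀ c, W c ≤ 3 * Z := by
    intro c
    have h3 := (abs_le.1 (hWG c)).2
    have h4 := hG2 c
    have h5 : 8 * q * Z ≤ 1 * Z := mul_le_mul_of_nonneg_right hq8 hZ0
    linarith
  refine ⟨fun n => p n / ((a₂ : ℝ) * a₂), fun n => div_pos (hp0 n) ha₂r, ?_, ?_, ?_⟩
  · rw [hsum]
    have h3 : s₁ ≤ W 1 := by
      simp only [hW]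
      rw [le_div_iff₀ ha₂r, Real.le_log_iff_exp_le (div_pos (hy0 _ _)
        (hxpos 1 a₂ a₂ ha₂e ha₂e (by omega) (by omega))), le_div_iff₀
        (hxpos 1 a₂ a₂ ha₂e ha₂e (by omega) (by omega))]
      have h4 := hup a₂ a₂ ha₂ge ha₂ge
      calc Real.exp (s₁ * (a₂ * a₂)) * x 1 a₂ a₂ ≤
          Real.exp (s₁ * (a₂ * a₂)) * (Real.exp (-(s₁ * (a₂ * a₂))) * y a₂ a₂) :=
            mul_le_mul_of_nonneg_left h4 (Real.exp_pos _).le
        _ = y a₂ a₂ := by
            rw [← mul_assoc, ← Real.exp_add, add_neg_cancel, Real.exp_zero, one_mul]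
    linarith [hW3 1]
  · rw [hsum, hZdef, div_le_iff₀ ha₂r]
    exact hpq
  · -- all sides
    have main : ∀ c A B : ℕ, c < N → Even A → Even B → a₂ ≤ A → a₂ ≤ B →
        |Real.log (x c A B / y A B) / (A * B) + G c| ≤
        (24 * N * η' + 8 * ((s + τ) * ((a₂ : ℝ) * a₂))) * Z + 2 * τ := by
      intro c A B hc hA hB hA2 hB2
      have h3 := hK A B a₂ a₂ hA hB ha₂e ha₂e hA2 hB2 le_rfl le_rfl c hc
      have h4 : ∑ c' ∈ Finset.range N, Real.log (y a₂ a₂ / x c' a₂ a₂) / ((a₂ : ℝ) * a₂) ≤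
          N * (3 * Z) := by
        have := Finset.sum_le_card_nsmul (Finset.range N) W (3 * Z) (fun c' _ => hW3 c')
        rwa [Finset.card_range, nsmul_eq_mul] at this
      have h5 := hWG c
      have e1 : Real.log (x c A B / y A B) = - Real.log (y A B / x c A B) := by
        rw [← Real.log_inv, inv_div]
      have e2 : Real.log (x c A B / y A B) / (A * B) + G c =
          -(Real.log (y A B / x c A B) / (A * B) - W c) - (W c - G c) := by
        rw [e1]; ring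
      rw [e2]
      have h6 : |-(Real.log (y A B / x c A B) / (A * B) - W c) - (W c - G c)| ≤
          |Real.log (y A B / x c A B) / (A * B) - W c| + |W c - G c| := by
        refine (abs_sub _ _).trans ?_
        rw [abs_neg]
      have h7 : |Real.log (y A B / x c A B) / (A * B) - W c| ≤ 8 * η' * (N * (3 * Z)) + 2 * τ := by
        refine h3.trans ?_
        have := mul_le_mul_of_nonneg_left h4 (show 0 ≤ 8 * η' by positivity)
        linarith
      have h8 : 8 * q * Z ≤ 8 * ((s + τ) * ((a₂ : ℝ) * a₂)) * Z :=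
        mul_le_mul_of_nonneg_right (mul_le_mul_of_nonneg_left hpq (by norm_num)) hZ0
      calc _ ≤ _ := h6
        _ ≤ (8 * η' * (N * (3 * Z)) + 2 * τ) + 8 * ((s + τ) * ((a₂ : ℝ) * a₂)) * Z :=
            add_le_add h7 (h5.trans h8)
        _ = _ := by ring
    intro c A B hA hB hA2 hB2
    rw [hsum]
    have hc : c % N < N := Nat.mod_lt _ (by omega)
    have h3 := main (c % N) A B hc hA hB hA2 hB2
    have e1 : x (c % N) A B = x c A B := by
      have q1 := hTQ c A B hA (by omega) (by omega)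
      have q2 := hTQ (c % N) A B hA (by omega) (by omega)
      have q3 : ∀ n ∈ Finset.range N, om N (c * n) * (z n A B : ℂ) =
          om N (c % N * n) * (z n A B : ℂ) := fun n _ => by rw [om_red hN0]
      rw [Finset.sum_congr rfl q3, ← q2] at q1
      have hNc : (N : ℂ) ≠ 0 := Nat.cast_ne_zero.2 hN0
      exact_mod_cast (mul_left_cancel₀ hNc q1).symm
    have e2 : G (c % N) = ∑ n ∈ Finset.Ico 1 N, p n / ((a₂ : ℝ) * a₂) *
        (1 - Real.cos (2 * Real.pi * (c * n) / N)) := by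
      simp only [hG]
      refine Finset.sum_congr rfl fun n _ => ?_
      rw [cos_red hN0 c n]
    rw [e1, e2] at h3
    exact h3

/-! ### the constants -/

lemma ev_exp {κ : ℝ} (hκ : 0 < κ) (M : ℝ) : ∀ᶠ β : ℝ in atTop, M ≤ Real.exp (κ * β) :=
  (Real.tendsto_exp_atTop.comp (tendsto_id.const_mul_atTop hκ)).eventually_ge_atTop M

lemma ev_lin {κ : ℝ} (hκ : 0 < κ) (M : ℝ) : ∀ᶠ β : ℝ in atTop, M ≤ κ * β :=
  (tendsto_id.const_mul_atTop hκ).eventually_ge_atTop M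

lemma ev_exp_lin {κ m : ℝ} (hκ : 0 < κ) (hm : 0 < m) (D : ℝ) :
    ∀ᶠ β : ℝ in atTop, D * β ≤ m * Real.exp (κ * β) := by
  filter_upwards [ev_lin (show 0 < m * κ ^ 2 / 2 by positivity) D, eventually_ge_atTop 0]
    with β h1 h2
  have h3 := Real.quadratic_le_exp_of_nonneg (show 0 ≤ κ * β by positivity)
  have h4 : (κ * β) ^ 2 / 2 ≤ Real.exp (κ * β) := by nlinarith [mul_nonneg hκ.le h2]
  calc D * β ≤ m * κ ^ 2 / 2 * β * β := mul_le_mul_of_nonneg_right h1 h2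
    _ = m * ((κ * β) ^ 2 / 2) := by ring
    _ ≤ m * Real.exp (κ * β) := mul_le_mul_of_nonneg_left h4 hm.le

lemma numbers {N : ℕ} (hN : 2 ≤ N) {S ε η : ℝ} (hS : 0 < S) (hε : 0 < ε) (hη : 0 < η) :
    ∃ ρ η' κ : ℝ, 0 < ρ ∧ 0 < η' ∧ η' ≤ 1 ∧ η' ≤ η / (100 * N) ∧ 0 < κ ∧
      ∀ C m M : ℝ, 0 < m → ∀ᶠ β : ℝ in atTop, ∃ a₁ K : ℕ, Even a₁ ∧ 10 ≤ a₁ ∧ M ≤ a₁ ∧
        2 * N * (2 * Real.exp (C * β - m * a₁)) ≤ Real.exp (-β * (S + ρ)) ∧
        2 * N * (Real.exp (-β * (S - ρ)) + 2 * Real.exp (C * β - m * a₁)) ≤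
          Real.exp (-β * (S + ρ)) * (1 + η') ^ K ∧
        (Real.exp (-β * (S - ρ)) + 2 * Real.exp (C * β - m * a₁)) *
          (((2 ^ K * a₁ : ℕ) : ℝ) * ((2 ^ K * a₁ : ℕ) : ℝ)) ≤ 1 / 8 ∧
        8 * ((Real.exp (-β * (S - ρ)) + 2 * Real.exp (C * β - m * a₁)) *
          (((2 ^ K * a₁ : ℕ) : ℝ) * ((2 ^ K * a₁ : ℕ) : ℝ))) ≤ η / 4 ∧
        Real.exp (-β * (S + ε)) ≤ Real.exp (-β * (S + ρ)) / 3 ∧
        Real.exp (-β * (S - ρ)) + 2 * Real.exp (C * β - m * a₁) ≤ Real.exp (-β * (S - ε)) ∧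
        ((2 ^ K * a₁ : ℕ) : ℝ) ≤ Real.exp (ε * β) ∧
        2 * (2 * Real.exp (C * β - m * a₁)) ≤ η / 4 * (Real.exp (-β * (S + ρ)) / 3) := by
  have hNr : (0 : ℝ) < N := Nat.cast_pos.2 (by omega)
  set κ : ℝ := min ε (S / 16) / 4 with hκdef
  have hκ : 0 < κ := by positivity
  have hκε : 4 * κ ≤ ε := by
    have := min_le_left ε (S / 16)
    rw [hκdef]; linarith
  have hκS : 64 * κ ≤ S := by
    have := min_le_right ε (S / 16)
    rw [hκdef]; linarith
  set η' : ℝ := min 1 (η / (100 * N)) with hη'def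
  have hη' : 0 < η' := by positivity
  have hη1 : η' ≤ 1 := min_le_left _ _
  set ℓ : ℝ := Real.log (1 + η') with hℓdef
  have hℓ : 0 < ℓ := Real.log_pos (by linarith)
  have hℓ1 : ℓ ≤ 1 := by
    have := Real.log_le_sub_one_of_pos (show 0 < 1 + η' by linarith)
    rw [hℓdef]; linarith
  set ρ : ℝ := κ * ℓ / 4 with hρdef
  have hρ : 0 < ρ := by positivity
  have hρκ : ρ ≤ κ / 4 := by
    rw [hρdef]; nlinarith
  have hρε : 0 < ε - ρ := by linarith
  refine ⟨ρ, η', κ, hρ, hη', hη1, min_le_right _ _, hκ, fun C m M hm => ?_⟩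
  set Mx : ℝ := 2 * N + 48 / η + 1 with hMx
  have hMxpos : 0 < Mx := by positivity
  filter_upwards [eventually_ge_atTop (1 : ℝ), ev_exp hκ 10, ev_exp hκ M,
    ev_lin (show 0 < κ * ℓ / 2 by positivity) (Real.log (4 * N) + ℓ),
    ev_exp_lin hκ hm (C + S + ρ + 1), ev_exp one_pos (2 * Mx),
    ev_exp (show 0 < S / 2 by positivity) (2 * (8 + 32 / η)), ev_lin hρε (Real.log 3),
    ev_lin hρε (Real.log 2)] with β e1 e10 eM e4 e5 e6 e7 e8 e9
  have hβ : 0 < β := by linarith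
  set E : ℝ := Real.exp (κ * β) with hE
  have hE0 : 0 < E := Real.exp_pos _
  set a₁ : ℕ := 2 * ⌈E⌉₊ with ha₁
  set K : ℕ := ⌊κ * β / Real.log 2⌋₊ with hKdef
  have hlog2 : 0 < Real.log 2 := Real.log_pos (by norm_num)
  have hlog21 : Real.log 2 ≤ 1 := by
    have := Real.log_le_sub_one_of_pos (show (0 : ℝ) < 2 by norm_num)
    linarith
  have ha₁lo : 2 * E ≤ a₁ := by
    rw [ha₁]; push_cast
    linarith [Nat.le_ceil E]
  have ha₁up : (a₁ : ℝ) ≤ 4 * E := by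
    rw [ha₁]; push_cast
    have := (Nat.ceil_lt_add_one hE0.le).le
    linarith
  have hKle : (K : ℝ) ≤ κ * β / Real.log 2 := Nat.floor_le (by positivity)
  have hKge : κ * β / Real.log 2 - 1 ≤ K := by
    have := Nat.lt_floor_add_one (κ * β / Real.log 2)
    rw [hKdef]; linarith
  have h2K : (2 : ℝ) ^ K ≤ E := by
    rw [← Real.exp_log (show (0 : ℝ) < 2 by norm_num), ← Real.exp_nat_mul, hE]
    apply Real.exp_le_exp.2
    rwa [le_div_iff₀ hlog2] at hKle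
  have ha₂ : ((2 ^ K * a₁ : ℕ) : ℝ) ≤ Real.exp (3 * κ * β) := by
    push_cast
    calc (2 : ℝ) ^ K * a₁ ≤ E * (4 * E) :=
          mul_le_mul h2K ha₁up (Nat.cast_nonneg _) hE0.le
      _ ≤ E * (E * E) := by
          apply mul_le_mul_of_nonneg_left _ hE0.le
          nlinarith
      _ = Real.exp (3 * κ * β) := by
          rw [hE, ← Real.exp_add, ← Real.exp_add]; congr 1; ring
  have ha₂sq : ((2 ^ K * a₁ : ℕ) : ℝ) * ((2 ^ K * a₁ : ℕ) : ℝ) ≤ Real.exp (6 * κ * β) := by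
    calc _ ≤ Real.exp (3 * κ * β) * Real.exp (3 * κ * β) :=
          mul_le_mul ha₂ ha₂ (Nat.cast_nonneg _) (Real.exp_pos _).le
      _ = _ := by rw [← Real.exp_add]; congr 1; ring
  set s₁ : ℝ := Real.exp (-β * (S + ρ)) with hs₁
  set s : ℝ := Real.exp (-β * (S - ρ)) with hs
  have hs₁0 : 0 < s₁ := Real.exp_pos _
  have hs0 : 0 < s := Real.exp_pos _
  have hs₁s : s₁ ≤ s := Real.exp_le_exp.2 (by nlinarith)
  -- the error `τ`
  have hτ1 : 2 * Real.exp (C * β - m * a₁) ≤ s₁ / Mx := by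
    have h1 : C * β - m * a₁ ≤ -β * (S + ρ) + -(1 * β) := by
      have : m * (2 * E) ≤ m * a₁ := mul_le_mul_of_nonneg_left ha₁lo hm.le
      have h5 : 0 ≤ m * E := by positivity
      linarith
    have h2 := Real.exp_le_exp.2 h1
    rw [Real.exp_add, Real.exp_neg (1 * β)] at h2
    have h3 : (Real.exp (1 * β))⁻¹ ≤ (2 * Mx)⁻¹ := inv_anti₀ (by positivity) e6
    calc 2 * Real.exp (C * β - m * a₁) ≤ 2 * (s₁ * (Real.exp (1 * β))⁻¹) := by linarith
      _ ≤ 2 * (s₁ * (2 * Mx)⁻¹) := by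
          have := mul_le_mul_of_nonneg_left h3 hs₁0.le
          linarith
      _ = s₁ / Mx := by field_simp
  set τ : ℝ := 2 * Real.exp (C * β - m * a₁) with hτdef
  have hτ0 : 0 < τ := by positivity
  have hτM : τ * Mx ≤ s₁ := by rwa [le_div_iff₀ hMxpos] at hτ1
  have hτN : 2 * N * τ ≤ s₁ := by
    have h1 : 0 ≤ τ * (48 / η + 1) := by positivity
    have h2 : τ * Mx = 2 * N * τ + τ * (48 / η + 1) := by rw [hMx]; ring
    linarith
  have hττ : τ ≤ s₁ := by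
    have h1 : 0 ≤ τ * (2 * N + 48 / η) := by positivity
    have h2 : τ * Mx = τ + τ * (2 * N + 48 / η) := by rw [hMx]; ring
    linarith
  have hτη : 48 * τ ≤ η * s₁ := by
    have h1 : τ * (48 / η) ≤ s₁ := by
      have h1 : 0 ≤ τ * (2 * N + 1) := by positivity
      have h2 : τ * Mx = τ * (48 / η) + τ * (2 * N + 1) := by rw [hMx]; ring
      linarith
    have h2 := mul_le_mul_of_nonneg_left h1 hη.le
    have h3 : η * (τ * (48 / η)) = 48 * τ := by field_simp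
    linarith
  have hsτ : s + τ ≤ 2 * s := by linarith
  have hpw : Real.exp ((κ * β / Real.log 2 - 1) * ℓ) ≤ (1 + η') ^ K := by
    have h1 : (1 + η') ^ K = Real.exp (K * ℓ) := by
      rw [hℓdef, Real.exp_nat_mul, Real.exp_log (by linarith)]
    rw [h1]
    exact Real.exp_le_exp.2 (mul_le_mul_of_nonneg_right hKge hℓ.le)
  have hq8 : (s + τ) * (((2 ^ K * a₁ : ℕ) : ℝ) * ((2 ^ K * a₁ : ℕ) : ℝ)) ≤ (8 + 32 / η)⁻¹ := by
    calc (s + τ) * (((2 ^ K * a₁ : ℕ) : ℝ) * ((2 ^ K * a₁ : ℕ) : ℝ)) ≤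
        (2 * s) * Real.exp (6 * κ * β) :=
          mul_le_mul hsτ ha₂sq (by positivity) (by positivity)
      _ = 2 * Real.exp (-β * (S - ρ) + 6 * κ * β) := by
          rw [hs, mul_assoc, ← Real.exp_add]
      _ ≤ 2 * Real.exp (-(S / 2 * β)) := by
          have : -β * (S - ρ) + 6 * κ * β ≤ -(S / 2 * β) := by
            have h1 : 0 ≤ (S / 2 - ρ - 6 * κ) * β := mul_nonneg (by linarith) hβ.le
            linarith
          linarith [Real.exp_le_exp.2 this]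
      _ ≤ 2 * (2 * (8 + 32 / η))⁻¹ := by
          rw [Real.exp_neg]
          have := inv_anti₀ (show 0 < 2 * (8 + 32 / η) by positivity) e7
          linarith
      _ = (8 + 32 / η)⁻¹ := by field_simp
  have hinv1 : (8 + 32 / η)⁻¹ ≤ 1 / 8 := by
    rw [one_div]
    exact inv_anti₀ (by norm_num) (by have : 0 < 32 / η := by positivity
                                      linarith)
  have hinv2 : (8 + 32 / η)⁻¹ ≤ η / 32 := by
    have h1 : (32 / η)⁻¹ = η / 32 := by rw [inv_div]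
    rw [← h1]
    exact inv_anti₀ (by positivity) (by linarith)
  refine ⟨a₁, K, ⟨⌈E⌉₊, by rw [ha₁]; ring⟩, ?_, ?_, hτN, ?_, hq8.trans hinv1, ?_, ?_, ?_, ?_, ?_⟩
  · have : (10 : ℝ) ≤ a₁ := by linarith
    exact_mod_cast this
  · linarith
  · have h4N : (0 : ℝ) < 4 * N := by positivity
    calc 2 * N * (s + τ) ≤ 4 * N * s := by nlinarith
      _ = Real.exp (Real.log (4 * N) + -β * (S - ρ)) := by
          rw [Real.exp_add, Real.exp_log h4N]
      _ ≤ Real.exp (-β * (S + ρ) + (κ * β / Real.log 2 - 1) * ℓ) := by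
          apply Real.exp_le_exp.2
          have h1 : κ * β * ℓ ≤ κ * β / Real.log 2 * ℓ := by
            apply mul_le_mul_of_nonneg_right _ hℓ.le
            rw [le_div_iff₀ hlog2]
            exact mul_le_of_le_one_right (by positivity) hlog21
          have h2 : ρ * β = κ * ℓ / 4 * β := by rw [hρdef]
          nlinarith
      _ = s₁ * Real.exp ((κ * β / Real.log 2 - 1) * ℓ) := by rw [Real.exp_add]
      _ ≤ s₁ * (1 + η') ^ K := mul_le_mul_of_nonneg_left hpw hs₁0.le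
  · linarith [hq8.trans hinv2]
  · rw [le_div_iff₀ (by norm_num : (0 : ℝ) < 3)]
    calc Real.exp (-β * (S + ε)) * 3 = Real.exp (-β * (S + ε) + Real.log 3) := by
          rw [Real.exp_add, Real.exp_log (by norm_num)]
      _ ≤ s₁ := Real.exp_le_exp.2 (by nlinarith)
  · calc s + τ ≤ 2 * s := hsτ
      _ = Real.exp (Real.log 2 + -β * (S - ρ)) := by
          rw [Real.exp_add, Real.exp_log (by norm_num)]
      _ ≤ Real.exp (-β * (S - ε)) := Real.exp_le_exp.2 (by nlinarith)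
  · refine ha₂.trans (Real.exp_le_exp.2 ?_)
    nlinarith
  · linarith

/-! ### the tori -/

section inst

variable (N L : ℕ) [NeZero L] (k : ℕ) (β : ℝ) (P Q : SU N)

/-- free partition function (total function) -/
def yy (a b : ℕ) : ℝ :=
  if h : a ≠ 0 ∧ b ≠ 0 then
    haveI : NeZero a := ⟨h.1⟩
    haveI : NeZero b := ⟨h.2⟩
    TY N L k β P Q ∅ a b
  else 1

/-- charged partition function (total function) -/
def xx (c a b : ℕ) : ℝ :=
  if h : a ≠ 0 ∧ b ≠ 0 then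
    haveI : NeZero a := ⟨h.1⟩
    haveI : NeZero b := ⟨h.2⟩
    ‖TZc N L k β P Q c false false a b‖
  else 1

/-- twisted partition function (total function) -/
def zz (n a b : ℕ) : ℝ :=
  if h : a ≠ 0 ∧ b ≠ 0 then
    haveI : NeZero a := ⟨h.1⟩
    haveI : NeZero b := ⟨h.2⟩
    TZ N L k β n a b
  else 1

lemma yy_eq (a b : ℕ) [ha : NeZero a] [hb : NeZero b] : yy N L k β P Q a b = TY N L k β P Q ∅ a b :=
  dif_pos ⟨ha.out, hb.out⟩

lemma xx_eq (c a b : ℕ) [ha : NeZero a] [hb : NeZero b] :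
    xx N L k β P Q c a b = ‖TZc N L k β P Q c false false a b‖ :=
  dif_pos ⟨ha.out, hb.out⟩

lemma zz_eq (n a b : ℕ) [ha : NeZero a] [hb : NeZero b] : zz N L k β n a b = TZ N L k β n a b :=
  dif_pos ⟨ha.out, hb.out⟩

lemma yy_one {a b : ℕ} (h : ¬ (a ≠ 0 ∧ b ≠ 0)) : yy N L k β P Q a b = 1 := dif_neg h

lemma xx_one (c : ℕ) {a b : ℕ} (h : ¬ (a ≠ 0 ∧ b ≠ 0)) : xx N L k β P Q c a b = 1 := dif_neg h

lemma zz_one (n : ℕ) {a b : ℕ} (h : ¬ (a ≠ 0 ∧ b ≠ 0)) : zz N L k β n a b = 1 := dif_neg h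

end inst

theorem main (hSP : S_SP) (hTQ : S_TQ) (hTU : S_TU) (hUH : S_UH) (hTS : S_TS) (hUB : S_UB)
    (hUG : S_UG) (hUI : S_UI) (hUJ : S_UJ) (hUK : S_UK) (hUL : S_UL) (hUM : S_UM) (hUN : S_UN) :
    S_DG := by
  intro N k L _ hN hk P Q hPQ ε η hε hη
  have hN0 : N ≠ 0 := by omega
  have hNr : (0 : ℝ) < N := Nat.cast_pos.2 (by omega)
  obtain ⟨hS, -⟩ := hSP N k L hN hk P Q hPQ
  set S : ℝ := SS L k P Q with hSdef
  obtain ⟨ρ, η', κ, hρ, hη', hη1, hη2, hκ, hnum⟩ := numbers hN hS hε hη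
  obtain ⟨C₀, hC₀, hUN'⟩ := hUN N k L hN P Q
  obtain ⟨m, C₂, β₂, hm, hC₂, hβ₂, hUG'⟩ := hUG N k L hN hk P Q hPQ
  obtain ⟨mU, βU, hβU, hTU'⟩ := hTU N k L hN hk P Q hPQ ρ hρ
  obtain ⟨KH, βH, hKH, hβH, hUH'⟩ := hUH N k L hN hk P Q hPQ ρ hρ
  have key := hnum C₂ m mU hm
  obtain ⟨β₀, hβ₀⟩ := eventually_atTop.1 (key.and ((eventually_ge_atTop (1 : ℝ)).and
    ((eventually_ge_atTop β₂).and ((eventually_ge_atTop βU).and (eventually_ge_atTop βH)))))
  refine ⟨β₀, fun β hβ => ?_⟩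
  obtain ⟨⟨a₁, K, ha₁e, ha10, haM, hc1, hc2, hq1, hq2, hz1, hz2, ha₂ε, hτη⟩, hb1, hb2, hbU, hbH⟩ :=
    hβ₀ β hβ
  have hb0 : 0 ≤ β := by linarith
  have haU : mU ≤ a₁ := by exact_mod_cast haM
  -- symmetry and comparison with the charge zero
  have hx0' : ∀ (a b : ℕ) [NeZero a] [NeZero b],
      ‖TZc N L k β P Q 0 false false a b‖ = TY N L k β P Q ∅ a b := by
    intro a b _ _
    obtain ⟨h1, h2, -, -⟩ := hUN' β hb1 a b
    rw [h1, Complex.norm_real, Real.norm_eq_abs,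
      abs_of_pos (lt_of_lt_of_le (Real.exp_pos _) h2)]
  have hsym : ∀ c a b, xx N L k β P Q c a b = xx N L k β P Q c b a := by
    intro c a b
    by_cases h : a ≠ 0 ∧ b ≠ 0
    · haveI : NeZero a := ⟨h.1⟩
      haveI : NeZero b := ⟨h.2⟩
      rw [xx_eq, xx_eq]
      exact hTS N k L hN P Q β hb0 c false false a b
    · rw [xx_one _ _ _ _ _ _ _ h, xx_one _ _ _ _ _ _ _ (fun h' => h ⟨h'.2, h'.1⟩)]
  have hx0 : ∀ a b, xx N L k β P Q 0 a b = yy N L k β P Q a b := by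
    intro a b
    by_cases h : a ≠ 0 ∧ b ≠ 0
    · haveI : NeZero a := ⟨h.1⟩
      haveI : NeZero b := ⟨h.2⟩
      rw [xx_eq, yy_eq, hx0']
    · rw [xx_one _ _ _ _ _ _ _ h, yy_one _ _ _ _ _ _ h]
  have hy : ∀ a b, 0 < yy N L k β P Q a b ∧ yy N L k β P Q a b = yy N L k β P Q b a ∧
      Real.exp (-(C₀ * β) * (a * b)) ≤ yy N L k β P Q a b ∧ yy N L k β P Q a b ≤ 1 := by
    intro a b
    have hs : yy N L k β P Q a b = yy N L k β P Q b a := by rw [← hx0, ← hx0, hsym]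
    by_cases h : a ≠ 0 ∧ b ≠ 0
    · haveI : NeZero a := ⟨h.1⟩
      haveI : NeZero b := ⟨h.2⟩
      obtain ⟨-, h2, h3, -⟩ := hUN' β hb1 a b
      refine ⟨?_, hs, ?_, ?_⟩
      · rw [yy_eq]; exact lt_of_lt_of_le (Real.exp_pos _) h2
      · rw [yy_eq, neg_mul]; exact h2
      · rw [yy_eq]; exact h3
    · refine ⟨?_, hs, ?_, ?_⟩
      · rw [yy_one _ _ _ _ _ _ h]; exact one_pos
      · rw [yy_one _ _ _ _ _ _ h]
        have : (a : ℝ) * b = 0 := by
          by_cases ha : a = 0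
          · rw [ha]; simp
          · have hb : b = 0 := by
              by_contra hb
              exact h ⟨ha, hb⟩
            rw [hb]; simp
        rw [this, mul_zero, Real.exp_zero]
      · rw [yy_one _ _ _ _ _ _ h]
  have h1 : ∀ c a b j : ℕ, Even a → 2 ≤ a → 2 ≤ b → 1 ≤ j →
      xx N L k β P Q c (a * j) b ≤ xx N L k β P Q c a b ^ j := by
    intro c a b j ha h2a h2b hj
    haveI : NeZero a := ⟨by omega⟩
    haveI : NeZero b := ⟨by omega⟩
    haveI : NeZero (a * j) := ⟨Nat.mul_ne_zero (by omega) (by omega)⟩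
    rw [xx_eq, xx_eq]
    exact (hUB N k L hN hk P Q hPQ β hb0 c b h2b).1 a j ha
  have h2 : ∀ c a b : ℕ, Even a → 2 ≤ a → 2 ≤ b → xx N L k β P Q c (a + 2) b ^ 2 ≤
      xx N L k β P Q c a b * xx N L k β P Q c (a + 4) b := by
    intro c a b ha h2a h2b
    haveI : NeZero a := ⟨by omega⟩
    haveI : NeZero b := ⟨by omega⟩
    haveI : NeZero (a + 2) := ⟨by omega⟩
    haveI : NeZero (a + 4) := ⟨by omega⟩
    rw [xx_eq, xx_eq, xx_eq]
    exact (hUB N k L hN hk P Q hPQ β hb0 c b h2b).2 a (a + 2) (a + 4) ha rfl rfl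
  have hdb : ∀ a b : ℕ, 10 ≤ a → 10 ≤ b → yy N L k β P Q a b ^ 2 ≤ yy N L k β P Q (2 * a) b *
      Real.exp (b * Real.exp (C₂ * β - m * (min a b : ℕ))) := by
    intro a b h10a h10b
    haveI : NeZero a := ⟨by omega⟩
    haveI : NeZero b := ⟨by omega⟩
    haveI : NeZero (2 * a) := ⟨by omega⟩
    rw [yy_eq, yy_eq]
    exact hUG' β hb2 a b h10a h10b
  have hz : ∀ n a b, 0 < zz N L k β n a b := by
    intro n a b
    by_cases h : a ≠ 0 ∧ b ≠ 0
    · haveI : NeZero a := ⟨h.1⟩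
      haveI : NeZero b := ⟨h.2⟩
      rw [zz_eq]
      exact (hUN' β hb1 a b).2.2.2 n
    · rw [zz_one _ _ _ _ _ h]; exact one_pos
  have hTQ' : ∀ c a b : ℕ, Even a → 2 ≤ a → 2 ≤ b →
      (N : ℂ) * (xx N L k β P Q c a b : ℂ) =
        ∑ n ∈ Finset.range N, om N (c * n) * (zz N L k β n a b : ℂ) := by
    intro c a b ha h2a h2b
    haveI : NeZero a := ⟨by omega⟩
    haveI : NeZero b := ⟨by omega⟩
    rw [xx_eq, ← hUM N k L hN hk P Q hPQ β hb0 c a b h2b ha,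
      hTQ N k L hN P Q β hb0 c a b h2a h2b]
    exact Finset.sum_congr rfl fun n _ => by rw [zz_eq]
  have hsumz : ∀ (a b : ℕ) [NeZero a] [NeZero b], 2 ≤ a → 2 ≤ b →
      ∑ n ∈ Finset.range N, TZ N L k β n a b = N * TY N L k β P Q ∅ a b := by
    intro a b _ _ h2a h2b
    have h := hTQ N k L hN P Q β hb0 0 a b h2a h2b
    rw [(hUN' β hb1 a b).1] at h
    have e : ∀ n ∈ Finset.range N, om N (0 * n) * (TZ N L k β n a b : ℂ) =
        (TZ N L k β n a b : ℂ) := fun n _ => by rw [Nat.zero_mul, om_zero, one_mul]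
    rw [Finset.sum_congr rfl e] at h
    exact_mod_cast h.symm
  have hup : ∀ a b : ℕ, a₁ ≤ a → a₁ ≤ b → xx N L k β P Q 1 a b ≤
      Real.exp (-(Real.exp (-β * (S + ρ)) * (a * b))) * yy N L k β P Q a b := by
    intro a b h1a h1b
    haveI : NeZero a := ⟨by omega⟩
    haveI : NeZero b := ⟨by omega⟩
    rw [xx_eq, yy_eq]
    have h3 := hTU' β hbU a b (haU.trans h1a) (haU.trans h1b)
    have h4 := hTQ N k L hN P Q β hb0 1 a b (by omega) (by omega)
    simp only [Nat.one_mul] at h4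
    rw [← h4, hsumz a b (by omega) (by omega), norm_mul, Complex.norm_natCast] at h3
    have h5 : (N : ℝ) * ‖TZc N L k β P Q 1 false false a b‖ ≤
        N * (Real.exp (-(Real.exp (-β * (S + ρ)) * (a * b))) * TY N L k β P Q ∅ a b) := by
      refine h3.trans (le_of_eq ?_)
      ring
    exact le_of_mul_le_mul_left h5 hNr
  have hlo : ∀ f : ℝ, (∀ a b : ℕ, Even a → Even b → 2 ≤ a → 2 ≤ b →
        Real.exp (-(f * (a * b))) ≤ yy N L k β P Q a b) →
      ∀ c a b : ℕ, Even a → Even b → 2 ≤ a → 2 ≤ b →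
        Real.exp (-((Real.exp (-β * (S - ρ)) + f) * (a * b))) ≤ xx N L k β P Q c a b := by
    intro f hf c a b ha hb h2a h2b
    haveI : NeZero a := ⟨by omega⟩
    haveI : NeZero b := ⟨by omega⟩
    rw [xx_eq]
    refine hUI N k L hN hk P Q hPQ β hb1 (Real.exp (-β * (S - ρ))) f ⌈KH * β⌉₊ c
      (Real.exp_pos _).le ?_ ?_ a b ha hb
    · intro i j hi hj
      exact hUH' β hbH c i j ((Nat.le_ceil _).trans (Nat.cast_le.2 hi))
        ((Nat.le_ceil _).trans (Nat.cast_le.2 hj))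
    · intro a' b' _ _ ha' hb'
      have n1 : a' ≠ 0 := NeZero.ne a'
      have n2 : b' ≠ 0 := NeZero.ne b'
      have m1 : 2 ≤ a' := by
        obtain ⟨r, hr⟩ := ha'
        omega
      have m2 : 2 ≤ b' := by
        obtain ⟨r, hr⟩ := hb'
        omega
      rw [hx0', ← yy_eq]
      exact hf a' b' ha' hb' m1 m2
  obtain ⟨ζ, hζ0, hζ1, hζ2, hζ3⟩ := fixed hUJ hUK hUL hN hm hy h1 h2 hx0 hsym hdb hz hTQ' hup hlo
    ha₁e ha10 le_rfl (Real.exp_pos _) hη' hη1 hc1 hc2 hq1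
  refine ⟨ζ, hζ0, hz1.trans hζ1, hζ2.trans hz2, ?_⟩
  intro c A B _ _ hA hB hεA hεB
  set Z : ℝ := ∑ n ∈ Finset.Ico 1 N, ζ n with hZdef
  have hA2 : 2 ^ K * a₁ ≤ A := by exact_mod_cast ha₂ε.trans hεA
  have hB2 : 2 ^ K * a₁ ≤ B := by exact_mod_cast ha₂ε.trans hεB
  have ha₂ge : a₁ ≤ 2 ^ K * a₁ := Nat.le_mul_of_pos_left _ (by positivity)
  have h2A : 2 ≤ A := by omega
  have h2B : 2 ≤ B := by omega
  have h3 := hζ3 c A B hA hB hA2 hB2
  have hAB : (0 : ℝ) < (A : ℝ) * B := by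
    have : (0 : ℝ) < A := Nat.cast_pos.2 (by omega)
    have : (0 : ℝ) < B := Nat.cast_pos.2 (by omega)
    positivity
  -- the quotient
  have hquot : ‖∑ n ∈ Finset.range N, om N (c * n) * (TZ N L k β n A B : ℂ)‖ /
      ∑ n ∈ Finset.range N, TZ N L k β n A B = xx N L k β P Q c A B / yy N L k β P Q A B := by
    rw [← hTQ N k L hN P Q β hb0 c A B h2A h2B, hsumz A B h2A h2B, norm_mul, Complex.norm_natCast,
      xx_eq, yy_eq, mul_div_mul_left _ _ hNr.ne']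
  rw [hquot]
  set G : ℝ := ∑ n ∈ Finset.Ico 1 N, ζ n * (1 - Real.cos (2 * Real.pi * (c * n) / N)) with hG
  set Lg : ℝ := Real.log (xx N L k β P Q c A B / yy N L k β P Q A B) with hLg
  have hZ0 : 0 ≤ Z := Finset.sum_nonneg fun n _ => (hζ0 n).le
  have hbound : |Lg / (A * B) + G| ≤ η * Z := by
    refine h3.trans ?_
    have q1 : 24 * N * η' ≤ η / 4 := by
      have : η' * (100 * N) ≤ η := by rwa [le_div_iff₀ (by positivity)] at hη2
      linarith
    have q2 := add_le_add q1 hq2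
    have q3 := mul_le_mul_of_nonneg_right q2 hZ0
    have q4 := mul_le_mul_of_nonneg_left hζ1 (show 0 ≤ η / 4 by positivity)
    have q5 : 0 ≤ η * Z := by positivity
    linarith
  have e : Lg + A * B * G = (A * B) * (Lg / (A * B) + G) := by
    field_simp
  rw [e, abs_mul, abs_of_pos hAB]
  have := mul_le_mul_of_nonneg_left hbound hAB.le
  linarith

end T2H01.SE.PkgDG

namespace T2H01.SE

theorem pDG : S_DG' := fun hSP hTQ hTU hUH hTS hUB hUG hUI hUJ hUK hUL hUM hUN =>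
  PkgDG.main hSP hTQ hTU hUH hTS hUB hUG hUI hUJ hUK hUL hUM hUN

end T2H01.SE
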