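import Pool.Agent.T2H01.SE.Stm2

/-!
# Package MA : removal of a site from the domain
-/

set_option autoImplicit false
set_option linter.unusedSectionVars false

noncomputable section

open MeasureTheory Matrix
open scoped Matrix.Norms.Frobenius

namespace T2H01.SE

open T2H02.TT

namespace PkgMA

section

variable {N L : ℕ} [NeZero L]

/-- links which touch `Λ` only in `a` -/
def Jx (L : ℕ) [NeZero L] (Λ : Finset Pl) (a : Pl) : Finset (Lk L) :=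
  (Frl L {a}).filter fun l => ∀ b ∈ st l, b ≠ a → b ∉ Λ

/-- terms which contain a link of `Jx` -/
def Tx (L : ℕ) [NeZero L] (Λ : Finset Pl) (a : Pl) : Finset Tm :=
  (tml {a}).filter fun τ => ∃ l ∈ (spt τ : Finset (Lk L)), l ∈ Jx L Λ a

/-- those which touch `Λ` without `a` -/
def Ty (L : ℕ) [NeZero L] (Λ : Finset Pl) (a : Pl) : Finset Tm :=
  (Tx L Λ a).filter fun τ => ∃ b ∈ cor τ, b ≠ a ∧ b ∈ Λ

/-- product of weights -/
def Dx (k : ℕ) (β : ℝ) (T : Finset Tm) (X : Cf N L) : ℝ := ∏ τ ∈ T, wt k β τ X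

/-- the function `κ` -/
def kap (k : ℕ) (β : ℝ) (P Q : SU N) (Λ : Finset Pl) (a : Pl) (X : Cf N L) : ℝ :=
  Dx k β (Ty L Λ a) (glue (Jx L Λ a) (vc P Q) X) /
    ∫ ζ, Dx k β (Tx L Λ a) (glue (Jx L Λ a) ζ X) ∂(pm N L)

lemma nb1 {a b : Pl} (h : near 1 a b) : b ∈ Nb 1 a := by
  unfold Nb
  rw [Finset.mem_product, Finset.mem_Icc, Finset.mem_Icc]
  obtain ⟨h1, h2⟩ := h
  rw [abs_le] at h1 h2
  push_cast
  refine ⟨⟨?_, ?_⟩, ⟨?_, ?_⟩⟩ <;> linarith [h1.1, h1.2, h2.1, h2.2]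

lemma mem_Frl1 (a : Pl) (l : Lk L) : l ∈ Frl L {a} ↔ a ∈ st l := by
  rw [mem_Frl]
  constructor
  · rintro ⟨b, hb, h⟩
    rw [Finset.mem_singleton] at h
    exact h ▸ hb
  · intro h
    exact ⟨a, h, Finset.mem_singleton_self a⟩

lemma mem_tml1 (a : Pl) (τ : Tm) : τ ∈ tml {a} ↔ a ∈ cor τ := by
  rw [mem_tml]
  constructor
  · rintro ⟨b, hb, h⟩
    rw [Finset.mem_singleton] at h
    exact h ▸ hb
  · intro h
    exact ⟨a, h, Finset.mem_singleton_self a⟩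

lemma Jx_congr (Λ Λ' : Finset Pl) (a : Pl) (h : ∀ b ∈ Nb 1 a, b ∈ Λ ↔ b ∈ Λ') :
    Jx L Λ a = Jx L Λ' a := by
  unfold Jx
  refine Finset.filter_congr fun l hl => ?_
  rw [mem_Frl1] at hl
  refine forall_congr' fun b => forall_congr' fun hb => ?_
  rw [h b (nb1 (diam_st l a hl b hb))]

lemma Tx_congr (Λ Λ' : Finset Pl) (a : Pl) (h : ∀ b ∈ Nb 1 a, b ∈ Λ ↔ b ∈ Λ') :
    Tx L Λ a = Tx L Λ' a := by
  unfold Tx
  rw [Jx_congr Λ Λ' a h]

lemma Ty_congr (Λ Λ' : Finset Pl) (a : Pl) (h : ∀ b ∈ Nb 1 a, b ∈ Λ ↔ b ∈ Λ') :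
    Ty L Λ a = Ty L Λ' a := by
  unfold Ty
  rw [Tx_congr Λ Λ' a h]
  refine Finset.filter_congr fun τ hτ => ?_
  have hτ' : a ∈ cor τ := (mem_tml1 a τ).1 (Finset.mem_filter.1 hτ).1
  refine exists_congr fun b => and_congr_right fun hb => ?_
  rw [h b (nb1 (diam_cor τ a hτ' b hb))]

lemma kap_congr (k : ℕ) (β : ℝ) (P Q : SU N) (Λ Λ' : Finset Pl) (a : Pl)
    (h : ∀ b ∈ Nb 1 a, b ∈ Λ ↔ b ∈ Λ') :
    (kap k β P Q Λ a : Cf N L → ℝ) = kap k β P Q Λ' a := by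
  funext X
  unfold kap
  rw [Jx_congr Λ Λ' a h, Tx_congr Λ Λ' a h, Ty_congr Λ Λ' a h]

lemma Tx_sub (Λ : Finset Pl) (a : Pl) : Tx L Λ a ⊆ tml {a} := Finset.filter_subset _ _

lemma Ty_sub (Λ : Finset Pl) (a : Pl) : Ty L Λ a ⊆ tml {a} :=
  (Finset.filter_subset _ _).trans (Tx_sub Λ a)

lemma Dx_loc (k : ℕ) (β : ℝ) (T : Finset Tm) (X Y : Cf N L)
    (h : ∀ τ ∈ T, ∀ l ∈ (spt τ : Finset (Lk L)), X l = Y l) : Dx k β T X = Dx k β T Y :=
  Finset.prod_congr rfl fun τ hτ => wt_loc k β τ X Y (h τ hτ)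

lemma keyx (Λ : Finset Pl) (a : Pl) (X Y : Cf N L)
    (h : ∀ l : Lk L, (∀ b ∈ st l, b ∈ Nb 1 a) → X l = Y l) (ζ : Cf N L) (τ : Tm)
    (hτ : τ ∈ tml {a}) (l : Lk L) (hl : l ∈ (spt τ : Finset (Lk L))) :
    glue (Jx L Λ a) ζ X l = glue (Jx L Λ a) ζ Y l := by
  rw [mem_tml1] at hτ
  unfold glue
  by_cases hj : l ∈ Jx L Λ a
  · rw [if_pos hj, if_pos hj]
  · rw [if_neg hj, if_neg hj]
    refine h l fun b hb => ?_
    exact nb1 (diam_cor τ a hτ b ((cor_iff (L := L) τ b).2 ⟨l, hl, hb⟩))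

lemma Dxy (k : ℕ) (β : ℝ) (Λ : Finset Pl) (a : Pl) (X Y : Cf N L)
    (h : ∀ l : Lk L, (∀ b ∈ st l, b ∈ Nb 1 a) → X l = Y l) (T : Finset Tm) (hT : T ⊆ tml {a})
    (ζ : Cf N L) : Dx k β T (glue (Jx L Λ a) ζ X) = Dx k β T (glue (Jx L Λ a) ζ Y) :=
  Dx_loc k β T (glue (Jx L Λ a) ζ X) (glue (Jx L Λ a) ζ Y)
    fun τ hτ => keyx Λ a X Y h ζ τ (hT hτ)

lemma kap_dep (k : ℕ) (β : ℝ) (P Q : SU N) (Λ : Finset Pl) (a : Pl) :
    Sys.dep {l : Lk L | ∀ b ∈ st l, b ∈ Nb 1 a} (kap k β P Q Λ a) := by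
  intro X Y h
  have e3 : (fun ζ : Cf N L => Dx k β (Tx L Λ a) (glue (Jx L Λ a) ζ X)) =
      fun ζ : Cf N L => Dx k β (Tx L Λ a) (glue (Jx L Λ a) ζ Y) :=
    funext fun ζ => Dxy k β Λ a X Y h _ (Tx_sub Λ a) ζ
  unfold kap
  rw [e3, Dxy k β Λ a X Y h _ (Ty_sub Λ a) (vc P Q)]

lemma glue_meas (J : Finset (Lk L)) :
    Measurable fun p : Cf N L × Cf N L => glue J p.1 p.2 := by
  refine measurable_pi_lambda _ fun l => ?_
  unfold glue
  by_cases h : l ∈ J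
  · simp only [if_pos h]
    exact (measurable_pi_apply l).comp measurable_fst
  · simp only [if_neg h]
    exact (measurable_pi_apply l).comp measurable_snd

lemma Dx_meas (k : ℕ) (β : ℝ) (T : Finset Tm) :
    Measurable (Dx k β T : Cf N L → ℝ) := by
  unfold Dx
  exact Finset.measurable_prod _ fun τ _ => (wt_cont k β τ).measurable

lemma Ex_meas (k : ℕ) (β : ℝ) (T : Finset Tm) (J : Finset (Lk L)) :
    Measurable fun X : Cf N L => ∫ ζ, Dx k β T (glue J ζ X) ∂(pm N L) := by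
  have h : StronglyMeasurable (Function.uncurry fun (X ζ : Cf N L) => Dx k β T (glue J ζ X)) := by
    refine Measurable.stronglyMeasurable ?_
    exact (Dx_meas k β T).comp ((glue_meas J).comp measurable_swap)
  exact h.integral_prod_right.measurable

lemma kap_meas (k : ℕ) (β : ℝ) (P Q : SU N) (Λ : Finset Pl) (a : Pl) :
    Measurable (kap k β P Q Λ a : Cf N L → ℝ) := by
  unfold kap
  refine Measurable.div ?_ (Ex_meas k β _ _)
  exact (Dx_meas k β _).comp ((glue_meas (Jx L Λ a)).comp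
    (measurable_const.prodMk measurable_id))

lemma tml1_card (a : Pl) : (tml {a}).card ≤ 16 := by
  unfold tml
  refine (Finset.card_filter_le _ _).trans ?_
  rw [Finset.card_product]
  have h1 : (({a} : Finset Pl) ∪ ({a} : Finset Pl).image (fun x => x - (1, 0)) ∪
      ({a} : Finset Pl).image (fun x => x - (0, 1)) ∪
      ({a} : Finset Pl).image (fun x => x - (1, 1))).card ≤ 4 := by
    refine (Finset.card_union_le _ _).trans ?_
    refine le_trans (Nat.add_le_add_right (Finset.card_union_le _ _) _) ?_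
    refine le_trans (Nat.add_le_add_right (Nat.add_le_add_right (Finset.card_union_le _ _) _) _) ?_
    simp
  have h2 : (Finset.univ : Finset (Fin 4)).card = 4 := by simp
  rw [h2]
  omega

lemma Dx_bd (k : ℕ) (β c : ℝ) (hβ : 0 ≤ β) (hN : 0 < N) (hc : 0 ≤ c)
    (hw : ∀ (τ : Tm) (X : Cf N L), Real.exp (-c) ≤ wt k β τ X) (a : Pl) (T : Finset Tm)
    (hT : T ⊆ tml {a}) (X : Cf N L) :
    Real.exp (-(16 * c)) ≤ Dx k β T X ∧ Dx k β T X ≤ 1 := by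
  constructor
  · have h1 : (Real.exp (-c)) ^ T.card ≤ Dx k β T X := by
      unfold Dx
      rw [← Finset.prod_const]
      exact Finset.prod_le_prod (fun _ _ => (Real.exp_pos _).le) fun τ _ => hw τ X
    refine le_trans ?_ h1
    have h2 : T.card ≤ 16 := (Finset.card_le_card hT).trans (tml1_card a)
    have h3 : Real.exp (-(16 * c)) = (Real.exp (-c)) ^ 16 := by
      rw [← Real.exp_nat_mul]
      congr 1
      push_cast
      ring
    rw [h3]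
    exact pow_le_pow_of_le_one (Real.exp_pos _).le (Real.exp_le_one_iff.2 (by linarith)) h2
  · unfold Dx
    exact Finset.prod_le_one (fun τ _ => (wt_pos k β τ X hN).le) fun τ _ => wt_le k β hβ τ X hN

lemma Ex_bd (k : ℕ) (β c : ℝ) (hβ : 0 ≤ β) (hN : 0 < N) (hc : 0 ≤ c)
    (hw : ∀ (τ : Tm) (X : Cf N L), Real.exp (-c) ≤ wt k β τ X) (a : Pl) (T : Finset Tm)
    (hT : T ⊆ tml {a}) (J : Finset (Lk L)) (X : Cf N L) :
    Real.exp (-(16 * c)) ≤ ∫ ζ, Dx k β T (glue J ζ X) ∂(pm N L) ∧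
      ∫ ζ, Dx k β T (glue J ζ X) ∂(pm N L) ≤ 1 := by
  have hm : Measurable fun ζ : Cf N L => Dx k β T (glue J ζ X) :=
    (Dx_meas k β T).comp ((glue_meas J).comp (measurable_id.prodMk measurable_const))
  have hi : Integrable (fun ζ : Cf N L => Dx k β T (glue J ζ X)) (pm N L) := by
    refine Integrable.of_bound hm.aestronglyMeasurable 1 (Filter.Eventually.of_forall fun ζ => ?_)
    have h := Dx_bd k β c hβ hN hc hw a T hT (glue J ζ X)
    rw [Real.norm_eq_abs, abs_of_nonneg ((Real.exp_pos _).le.trans h.1)]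
    exact h.2
  constructor
  · calc Real.exp (-(16 * c)) = ∫ _ζ : Cf N L, Real.exp (-(16 * c)) ∂(pm N L) := by
          rw [integral_const]; simp
      _ ≤ _ := integral_mono (integrable_const _) hi fun ζ =>
          (Dx_bd k β c hβ hN hc hw a T hT (glue J ζ X)).1
  · calc _ ≤ ∫ _ζ : Cf N L, (1 : ℝ) ∂(pm N L) := integral_mono hi (integrable_const _) fun ζ =>
          (Dx_bd k β c hβ hN hc hw a T hT (glue J ζ X)).2
      _ = 1 := by rw [integral_const]; simp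

lemma kap_bd (k : ℕ) (β c : ℝ) (hβ : 0 ≤ β) (hN : 0 < N) (hc : 0 ≤ c)
    (hw : ∀ (τ : Tm) (X : Cf N L), Real.exp (-c) ≤ wt k β τ X) (P Q : SU N) (Λ : Finset Pl)
    (a : Pl) (X : Cf N L) :
    Real.exp (-(16 * c)) ≤ kap k β P Q Λ a X ∧ kap k β P Q Λ a X ≤ Real.exp (16 * c) := by
  have h1 := Dx_bd k β c hβ hN hc hw a (Ty L Λ a) (Ty_sub Λ a) (glue (Jx L Λ a) (vc P Q) X)
  have h2 := Ex_bd k β c hβ hN hc hw a (Tx L Λ a) (Tx_sub Λ a) (Jx L Λ a) X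
  have h3 : 0 < Real.exp (-(16 * c)) := Real.exp_pos _
  have h4 := h3.trans_le h2.1
  unfold kap
  constructor
  · rw [le_div_iff₀ h4]
    calc Real.exp (-(16 * c)) * _ ≤ Real.exp (-(16 * c)) * 1 :=
          mul_le_mul_of_nonneg_left h2.2 h3.le
      _ ≤ _ := by rw [mul_one]; exact h1.1
  · rw [div_le_iff₀ h4]
    calc _ ≤ (1 : ℝ) := h1.2
      _ = Real.exp (16 * c) * Real.exp (-(16 * c)) := by
          rw [← Real.exp_add, add_neg_cancel, Real.exp_zero]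
      _ ≤ _ := mul_le_mul_of_nonneg_left h2.1 (Real.exp_pos _).le

lemma mem_Jx (Λ : Finset Pl) (a : Pl) (ha : a ∈ Λ) (l : Lk L) :
    l ∈ Jx L Λ a ↔ l ∈ Frl L Λ ∧ l ∉ Frl L (Λ.erase a) := by
  unfold Jx
  rw [Finset.mem_filter, mem_Frl1, mem_Frl, mem_Frl]
  constructor
  · rintro ⟨h1, h2⟩
    refine ⟨⟨a, h1, ha⟩, ?_⟩
    rintro ⟨b, hb, hb'⟩
    rw [Finset.mem_erase] at hb'
    exact h2 b hb hb'.1 hb'.2
  · rintro ⟨⟨c, hc, hc'⟩, h2⟩
    have hca : c = a := by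
      by_contra hne
      exact h2 ⟨c, hc, Finset.mem_erase.2 ⟨hne, hc'⟩⟩
    subst hca
    refine ⟨hc, fun b hb hne hbΛ => h2 ⟨b, hb, Finset.mem_erase.2 ⟨hne, hbΛ⟩⟩⟩

lemma Frl_erase_sub (Λ : Finset Pl) (a : Pl) (l : Lk L) (h : l ∈ Frl L (Λ.erase a)) :
    l ∈ Frl L Λ := by
  rw [mem_Frl] at h ⊢
  obtain ⟨b, hb, hb'⟩ := h
  exact ⟨b, hb, (Finset.mem_erase.1 hb').2⟩

lemma set_id (Λ : Finset Pl) (a : Pl) :
    tml (Λ.erase a) \ Ty L Λ a = tml Λ \ Tx L Λ a := by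
  ext τ
  have h0 : τ ∈ tml (Λ.erase a) ↔ ∃ b ∈ cor τ, b ≠ a ∧ b ∈ Λ := by
    rw [mem_tml]
    refine exists_congr fun b => and_congr_right fun _ => ?_
    rw [Finset.mem_erase]
  have h1 : τ ∈ Ty L Λ a ↔ τ ∈ Tx L Λ a ∧ τ ∈ tml (Λ.erase a) := by
    unfold Ty
    rw [Finset.mem_filter, h0]
  have h2 : τ ∈ tml Λ → τ ∉ tml (Λ.erase a) → τ ∈ Tx L Λ a := by
    intro h3 h4
    rw [mem_tml] at h3
    obtain ⟨c, hc, hc'⟩ := h3
    have hca : c = a := by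
      by_contra hne
      exact h4 (h0.2 ⟨c, hc, hne, hc'⟩)
    subst hca
    unfold Tx
    rw [Finset.mem_filter, mem_tml1]
    refine ⟨hc, ?_⟩
    obtain ⟨l, hl, hcl⟩ := (cor_iff (L := L) τ c).1 hc
    refine ⟨l, hl, ?_⟩
    unfold Jx
    rw [Finset.mem_filter, mem_Frl1]
    refine ⟨hcl, fun b hb hne hbΛ => ?_⟩
    exact h4 (h0.2 ⟨b, (cor_iff (L := L) τ b).2 ⟨l, hl, hb⟩, hne, hbΛ⟩)
  have h3 : τ ∈ tml (Λ.erase a) → τ ∈ tml Λ := by
    intro h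
    obtain ⟨b, hb, _, hb'⟩ := h0.1 h
    exact (mem_tml _ _).2 ⟨b, hb, hb'⟩
  rw [Finset.mem_sdiff, Finset.mem_sdiff, h1]
  constructor
  · rintro ⟨h4, h5⟩
    exact ⟨h3 h4, fun h6 => h5 ⟨h6, h4⟩⟩
  · rintro ⟨h4, h5⟩
    by_cases h6 : τ ∈ tml (Λ.erase a)
    · exact ⟨h6, fun h7 => h5 h7.1⟩
    · exact absurd (h2 h4 h6) h5

lemma Ty_sub' (Λ : Finset Pl) (a : Pl) : Ty L Λ a ⊆ tml (Λ.erase a) := by
  intro τ hτ
  unfold Ty at hτ
  obtain ⟨b, hb, h1, h2⟩ := (Finset.mem_filter.1 hτ).2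
  exact (mem_tml _ _).2 ⟨b, hb, Finset.mem_erase.2 ⟨h1, h2⟩⟩

lemma Tx_sub' (Λ : Finset Pl) (a : Pl) (ha : a ∈ Λ) : Tx L Λ a ⊆ tml Λ := by
  intro τ hτ
  have := (mem_tml1 a τ).1 (Tx_sub Λ a hτ)
  exact (mem_tml _ _).2 ⟨a, this, ha⟩

/-- terms outside `Tx` do not see the links of `Jx` -/
lemma Dx_out (k : ℕ) (β : ℝ) (Λ : Finset Pl) (a : Pl) (ζ X : Cf N L) :
    Dx k β (tml Λ \ Tx L Λ a) (glue (Jx L Λ a) ζ X) = Dx k β (tml Λ \ Tx L Λ a) X := by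
  refine Dx_loc k β _ _ _ fun τ hτ l hl => ?_
  rw [Finset.mem_sdiff] at hτ
  unfold glue
  rw [if_neg]
  intro hj
  apply hτ.2
  unfold Tx
  rw [Finset.mem_filter]
  refine ⟨?_, l, hl, hj⟩
  rw [mem_tml1]
  have : a ∈ st l := by
    unfold Jx at hj
    exact (mem_Frl1 a l).1 (Finset.mem_filter.1 hj).1
  exact (cor_iff (L := L) τ a).2 ⟨l, hl, this⟩

lemma glue_glue (J : Finset (Lk L)) (ζ ξ X : Cf N L) : glue J ζ (glue J ξ X) = glue J ζ X := by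
  funext l
  unfold glue
  split_ifs <;> rfl

lemma kap_glue (k : ℕ) (β : ℝ) (P Q : SU N) (Λ : Finset Pl) (a : Pl) (ξ X : Cf N L) :
    kap k β P Q Λ a (glue (Jx L Λ a) ξ X) = kap k β P Q Λ a X := by
  unfold kap
  simp only [glue_glue]

lemma main_id (h2 : S_F2) (k : ℕ) (β c : ℝ) (hβ : 0 ≤ β) (hN : 0 < N) (hc : 0 ≤ c)
    (hw : ∀ (τ : Tm) (X : Cf N L), Real.exp (-c) ≤ wt k β τ X) (P Q : SU N) (Λ : Finset Pl)
    (a : Pl) (ha : a ∈ Λ) :
    ∫ ξ, kap k β P Q Λ a (glue (Frl L Λ) ξ (vc P Q)) * Dx k β (tml Λ) (glue (Frl L Λ) ξ (vc P Q))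
      ∂(pm N L) =
    ∫ ξ, Dx k β (tml (Λ.erase a)) (glue (Frl L (Λ.erase a)) ξ (vc P Q)) ∂(pm N L) := by
  have hg : Measurable fun ξ : Cf N L => glue (Frl L Λ) ξ (vc P Q) :=
    (glue_meas _).comp (measurable_id.prodMk measurable_const)
  have hD1 : ∀ (T : Finset Tm) (X : Cf N L), 0 ≤ Dx k β T X ∧ Dx k β T X ≤ 1 := fun T X =>
    ⟨Finset.prod_nonneg fun τ _ => (wt_pos k β τ X hN).le,
      Finset.prod_le_one (fun τ _ => (wt_pos k β τ X hN).le) fun τ _ => wt_le k β hβ τ X hN⟩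
  have hmeas : Measurable fun ξ : Cf N L => kap k β P Q Λ a (glue (Frl L Λ) ξ (vc P Q)) *
      Dx k β (tml Λ) (glue (Frl L Λ) ξ (vc P Q)) :=
    ((kap_meas k β P Q Λ a).comp hg).mul ((Dx_meas k β _).comp hg)
  have hb : ∃ K : ℝ, ∀ ξ : Cf N L, |kap k β P Q Λ a (glue (Frl L Λ) ξ (vc P Q)) *
      Dx k β (tml Λ) (glue (Frl L Λ) ξ (vc P Q))| ≤ K := by
    refine ⟨Real.exp (16 * c), fun ξ => ?_⟩
    have e1 := kap_bd k β c hβ hN hc hw P Q Λ a (glue (Frl L Λ) ξ (vc P Q))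
    have e2 := hD1 (tml Λ) (glue (Frl L Λ) ξ (vc P Q))
    have e3 := (Real.exp_pos (-(16 * c))).le.trans e1.1
    rw [abs_of_nonneg (mul_nonneg e3 e2.1)]
    calc _ ≤ Real.exp (16 * c) * 1 := mul_le_mul e1.2 e2.2 e2.1 (Real.exp_pos _).le
      _ = _ := mul_one _
  rw [h2 (Lk L) (SU N) (hm N) (Jx L Λ a) _ hmeas hb]
  refine integral_congr_ae (Filter.Eventually.of_forall fun η => ?_)
  beta_reduce
  have hglue : ∀ ξ : Cf N L, glue (Frl L Λ) (glue (Jx L Λ a) ξ η) (vc P Q) =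
      glue (Jx L Λ a) ξ (glue (Frl L Λ) η (vc P Q)) := by
    intro ξ
    funext l
    have hJ := mem_Jx Λ a ha l
    unfold glue
    by_cases h1 : l ∈ Jx L Λ a
    · rw [if_pos (hJ.1 h1).1, if_pos h1, if_pos h1]
    · rw [if_neg h1, if_neg h1]
  have hglue' : glue (Frl L (Λ.erase a)) η (vc P Q) =
      glue (Jx L Λ a) (vc P Q) (glue (Frl L Λ) η (vc P Q)) := by
    funext l
    have hJ := mem_Jx Λ a ha l
    unfold glue
    by_cases h1 : l ∈ Jx L Λ a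
    · rw [if_neg (hJ.1 h1).2, if_pos h1]
    · rw [if_neg h1]
      by_cases h2 : l ∈ Frl L (Λ.erase a)
      · rw [if_pos h2, if_pos (Frl_erase_sub Λ a l h2)]
      · rw [if_neg h2]
        by_cases h3 : l ∈ Frl L Λ
        · exact absurd (hJ.2 ⟨h3, h2⟩) h1
        · rw [if_neg h3]
  simp only [hglue, kap_glue]
  rw [hglue']
  obtain ⟨X, hX⟩ : ∃ X : Cf N L, X = glue (Frl L Λ) η (vc P Q) := ⟨_, rfl⟩
  rw [← hX]
  have hsplit : ∀ Y : Cf N L, Dx k β (tml Λ) Y = Dx k β (tml Λ \ Tx L Λ a) Y * Dx k β (Tx L Λ a) Y :=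
    fun Y => (Finset.prod_sdiff (Tx_sub' Λ a ha)).symm
  have hsplit' : ∀ Y : Cf N L, Dx k β (tml (Λ.erase a)) Y =
      Dx k β (tml Λ \ Tx L Λ a) Y * Dx k β (Ty L Λ a) Y := fun Y => by
    rw [← set_id]
    exact (Finset.prod_sdiff (Ty_sub' Λ a)).symm
  rw [hsplit', Dx_out]
  simp only [hsplit, Dx_out]
  have e1 : (fun ξ : Cf N L => kap k β P Q Λ a X *
      (Dx k β (tml Λ \ Tx L Λ a) X * Dx k β (Tx L Λ a) (glue (Jx L Λ a) ξ X))) =
      fun ξ => (kap k β P Q Λ a X * Dx k β (tml Λ \ Tx L Λ a) X) *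
        Dx k β (Tx L Λ a) (glue (Jx L Λ a) ξ X) := by
    funext ξ
    ring
  rw [e1, integral_const_mul]
  have h4 := (Real.exp_pos _).trans_le
    (Ex_bd k β c hβ hN hc hw a (Tx L Λ a) (Tx_sub Λ a) (Jx L Λ a) X).1
  unfold kap
  field_simp

end

end PkgMA

theorem pMA (h2 : S_F2) (h5 : S_F5) (h3 : S_G3) (_hVL : S_VL) : S_MA := by
  intro N k L _ hN _ P Q _
  obtain ⟨C₀, hC₀, -, hen, hwt⟩ := h3 N k L hN
  have hN0 : 0 < N := by omega
  have hN1 : (1 : ℝ) ≤ N := by exact_mod_cast (by omega : 1 ≤ N)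
  have hlog : 0 ≤ Real.log N := Real.log_nonneg hN1
  refine ⟨16 * (C₀ + Real.log N) + 1, by nlinarith, fun β hβ hβ1 => ?_⟩
  have hc : 0 ≤ (C₀ + Real.log N) * β := by positivity
  have hw : ∀ (τ : Tm) (X : Cf N L), Real.exp (-((C₀ + Real.log N) * β)) ≤ wt k β τ X := by
    intro τ X
    refine le_trans ?_ (hwt β X τ hβ).1
    have e1 : Real.exp (-β * en k X τ) / N = Real.exp (-β * en k X τ - Real.log N) := by
      rw [Real.exp_sub, Real.exp_log (by linarith)]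
    rw [e1]
    refine Real.exp_le_exp.2 ?_
    have e2 := mul_le_mul_of_nonneg_left (hen X τ) hβ
    nlinarith
  refine ⟨fun Λ a => PkgMA.kap k β P Q Λ a, fun Λ a => PkgMA.kap_meas k β P Q Λ a,
    fun Λ a X => ?_, fun Λ a => PkgMA.kap_dep k β P Q Λ a,
    fun Λ Λ' a h => PkgMA.kap_congr k β P Q Λ Λ' a h, fun Λ a ha => ?_⟩
  · have h := PkgMA.kap_bd k β _ hβ hN0 hc hw P Q Λ a X
    constructor
    · refine le_trans (Real.exp_le_exp.2 ?_) h.1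
      nlinarith
    · refine le_trans h.2 (Real.exp_le_exp.2 ?_)
      nlinarith
  · have hnum : ∀ Λ : Finset Pl, ZZ k β (L := L) P Q Λ =
        (sysS N L k β hN hβ).num (hm N) Λ (fun _ => 1) (vc P Q) := by
      intro Λ
      unfold ZZ Sys.num
      refine integral_congr_ae (Filter.Eventually.of_forall fun ξ => ?_)
      show _ = 1 * ∏ τ ∈ tml Λ, wt k β τ _
      rw [one_mul]
      rfl
    have hpos : 0 < ZZ k β (L := L) P Q Λ := by
      rw [hnum]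
      exact (h5 _ _ _ (sysS N L k β hN hβ) (hm N) Λ).1 _
    refine ⟨hpos, ?_⟩
    have e1 : ZZ k β (L := L) P Q (Λ.erase a) =
        (sysS N L k β hN hβ).num (hm N) Λ (PkgMA.kap k β P Q Λ a) (vc P Q) := by
      have := PkgMA.main_id h2 k β _ hβ hN0 hc hw P Q Λ a ha
      exact this.symm
    rw [e1]
    unfold Sys.ker
    rw [← hnum]
    field_simp

end T2H01.SE
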