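import Pool.Agent.T2H01.SE.Stm2
import Pool.Agent.T2H02.TT.P1

/-!
# Package PC : decay in domains with cold walls (helper13)
-/

set_option autoImplicit false
set_option linter.unusedSectionVars false
set_option linter.unusedVariables false

noncomputable section

open MeasureTheory Matrix
open scoped Matrix.Norms.Frobenius

namespace T2H01.SE.PkgPC

open T2H02.TT

/-- decay for the kernels of an abstract system, from the coupling theorem for its coarse graining -/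
lemma decay (h3 : S_F3) (h5 : S_F5) (hX : S_X) {ι Tm X : Type} [DecidableEq ι] [DecidableEq Tm]
    [MeasurableSpace X] (S : Sys ι Tm X) (μ : Measure X) [IsProbabilityMeasure μ]
    (g : Tm → (ι → X) → Prop) (hgm : ∀ τ, MeasurableSet {ω | g τ ω})
    (hgl : ∀ τ ω ω', (∀ i ∈ S.sp τ, ω i = ω' i) → (g τ ω ↔ g τ ω'))
    {β c K : ℝ} {M : ℕ} (hβ1 : 1 < β) (hc : 0 < c) (hK : 1 ≤ K) (hM : 0 < M)
    (hMK : (M : ℝ) ≤ K * Real.log β) {p δ q : ℝ} (hp : 0 < p) (hδ : 0 < δ) (hq : 0 < q)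
    (hδq : δ ≤ q ^ 2) (hpq : p ≤ q ^ 32) (hq2 : 48 * q ≤ 1 / 2) (hqc : 48 * q ≤ β ^ (-c))
    (hbad : ∀ b η, (coa S M hM).ker μ (Nb 2 b) (fun ω => ind (Bad (coa S M hM) g b ω)) η ≤ p)
    (hins : ∀ b, ∀ Λ ⊆ Nb 2 b, b ∈ Λ → ∀ η η' : ι → X,
      (∀ i, (∀ a ∈ (coa S M hM).bl i, a ∈ Nb 2 b ∧ a ∉ Λ) → η i = η' i) →
      (∀ τ ∈ (coa S M hM).tms (Nb 1 b), (∀ a ∈ (coa S M hM).bt τ, a ∈ Nb 1 b ∧ a ∉ Λ) → g τ η) →
      ∀ F : (ι → X) → ℝ, Measurable F → (∀ ω, 0 ≤ F ω ∧ F ω ≤ 1) →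
        Sys.dep {i | ∀ a ∈ (coa S M hM).bl i, (a ∈ Nb 2 b ∧ a ∉ Λ) ∨ a = b} F →
        (coa S M hM).ker μ Λ F η ≤ (coa S M hM).ker μ Λ F η' + δ)
    (A Λ : Finset Pl) (n : ℕ) (hA : ∀ a ∈ A, Nb n a ⊆ Λ) (f : (ι → X) → ℝ) (hf : Measurable f)
    (hf1 : ∀ ω, |f ω| ≤ 1) (hfd : Sys.dep {i | ∀ a ∈ S.bl i, a ∈ A} f) (η η' : ι → X) :
    |S.ker μ Λ f η - S.ker μ Λ f η'| ≤
      6 * A.card * β ^ (2 * c) * Real.exp (-(c / (3 * K)) * n) := by
  have hβ0 : 0 < β := by linarith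
  have hcard : (0 : ℝ) ≤ A.card := Nat.cast_nonneg _
  rcases Finset.eq_empty_or_nonempty A with hAe | hAne
  · -- the function is constant
    subst hAe
    have hconst : ∀ ω ω', f ω = f ω' := by
      intro ω ω'
      refine hfd ω ω' fun i hi => ?_
      obtain ⟨a, ha⟩ := S.bl_ne i
      exact absurd (hi a ha) (Finset.notMem_empty _)
    have hfc : f = fun _ => f η := funext fun ω => hconst ω η
    obtain ⟨-, hcst, -⟩ := h5 ι Tm X S μ Λ
    rw [hfc, hcst, hcst]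
    simp
  have hA1 : (1 : ℝ) ≤ A.card := by exact_mod_cast hAne.card_pos
  rcases Nat.lt_or_ge n M with hnM | hnM
  · -- small `n`
    obtain ⟨-, -, -, -, hbd, -⟩ := h5 ι Tm X S μ Λ
    have e1 := hbd 1 f hf hf1 η
    have e2 := hbd 1 f hf hf1 η'
    have e3 : |S.ker μ Λ f η - S.ker μ Λ f η'| ≤ 2 := by
      rw [abs_le] at e1 e2 ⊢
      constructor <;> linarith
    have hl : 0 < Real.log β := Real.log_pos hβ1
    have hnr : (n : ℝ) ≤ K * Real.log β := by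
      have : (n : ℝ) ≤ M := by exact_mod_cast hnM.le
      linarith
    have e4 : 1 ≤ β ^ (2 * c) * Real.exp (-(c / (3 * K)) * n) := by
      rw [Real.rpow_def_of_pos hβ0, ← Real.exp_add]
      refine Real.one_le_exp ?_
      have : c / (3 * K) * n ≤ c / (3 * K) * (K * Real.log β) :=
        mul_le_mul_of_nonneg_left hnr (by positivity)
      have e5 : c / (3 * K) * (K * Real.log β) = c * Real.log β / 3 := by
        field_simp
      rw [e5] at this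
      have : 0 < c * Real.log β := by positivity
      linarith
    calc |S.ker μ Λ f η - S.ker μ Λ f η'| ≤ 2 := e3
      _ ≤ 6 * 1 * 1 := by norm_num
      _ ≤ 6 * A.card * (β ^ (2 * c) * Real.exp (-(c / (3 * K)) * n)) :=
          mul_le_mul (by linarith) e4 zero_le_one (by positivity)
      _ = _ := by ring
  -- large `n`
  obtain ⟨n', hn'⟩ : ∃ n', n' = n / M - 1 := ⟨_, rfl⟩
  obtain ⟨A', hA'⟩ : ∃ A', A' = A.image (blk M) := ⟨_, rfl⟩
  obtain ⟨Λ', hΛ'⟩ : ∃ Λ', Λ' = A'.biUnion (Nb n') := ⟨_, rfl⟩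
  have hsub : sit M Λ' ⊆ Λ := by
    rw [hΛ', hA', hn']
    exact PkgP1.sit_sub hM hnM A Λ hA
  have key := hX ι Tm X (coa S M hM) μ g p δ q hgm hgl
    hbad hins hp hδ hq hδq hpq hq2 A' Λ' n'
    (fun a ha => by
      rw [hΛ']
      exact Finset.subset_biUnion_of_mem (Nb n') ha)
    f hf hf1
    (fun ω ω' h => hfd ω ω' fun i hi => h i (by
      intro a ha
      obtain ⟨b, hb, rfl⟩ := Finset.mem_image.1 ha
      rw [hA']
      exact Finset.mem_image_of_mem _ (hi b hb)))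
  obtain ⟨B, hB⟩ : ∃ B : ℝ, B = 6 * A.card * β ^ (2 * c) * Real.exp (-(c / (3 * K)) * n) := ⟨_, rfl⟩
  have hkey : ∀ ω ω', S.ker μ (sit M Λ') f ω ≤ S.ker μ (sit M Λ') f ω' + B := by
    intro ω ω'
    have h6 := key ω ω'
    rw [coa_ker, coa_ker] at h6
    have h7 : (A'.card : ℝ) ≤ A.card := by
      rw [hA']
      exact_mod_cast Finset.card_image_le
    have h8 := PkgP1.rate hβ1 hc hK hM hMK hq hqc hnM
    rw [← hn'] at h8
    have h9 : 6 * (A'.card : ℝ) * (48 * q) ^ (n' / 3) ≤ B := by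
      calc 6 * (A'.card : ℝ) * (48 * q) ^ (n' / 3) ≤
            6 * A.card * (β ^ (2 * c) * Real.exp (-(c / (3 * K)) * n)) :=
            mul_le_mul (by linarith) h8 (by positivity) (by positivity)
        _ = B := by rw [hB]; ring
    have := (abs_le.1 (h6.trans h9)).2
    linarith
  -- consistency
  have hΔ := h5 ι Tm X S μ (sit M Λ')
  obtain ⟨-, -, -, hmea, hbd, -⟩ := hΔ
  have hgm' : Measurable (S.ker μ (sit M Λ') f) := hmea f hf ⟨1, hf1⟩
  have hgb : ∃ K, ∀ ω, |S.ker μ (sit M Λ') f ω| ≤ K := ⟨1, fun ω => hbd 1 f hf hf1 ω⟩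
  have hcons : ∀ ω, S.ker μ Λ f ω = S.ker μ Λ (S.ker μ (sit M Λ') f) ω := by
    intro ω
    have := h3 ι Tm X S μ (sit M Λ') Λ hsub f hf ⟨1, hf1⟩ (fun _ => 1)
      measurable_const ⟨1, fun _ => by simp⟩ (fun _ _ _ => rfl) ω
    simpa using this
  rw [hcons η, hcons η', ← hB, abs_le]
  have g1 := PkgP1.osc h5 S μ Λ _ hgm' hgb B hkey η η'
  have g2 := PkgP1.osc h5 S μ Λ _ hgm' hgb B hkey η' η
  constructor <;> linarith

/-- the kernel depends only on the values of the function on its configurations -/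
lemma ker_congr {ι Tm X : Type} [DecidableEq ι] [DecidableEq Tm] [MeasurableSpace X]
    (S : Sys ι Tm X) (μ : Measure X) (Λ : Finset Pl) (f g : (ι → X) → ℝ) (η : ι → X)
    (h : ∀ ξ, f (glue (S.Fr Λ) ξ η) = g (glue (S.Fr Λ) ξ η)) : S.ker μ Λ f η = S.ker μ Λ g η := by
  unfold Sys.ker Sys.num
  simp only [h]

theorem main (h3 : S_F3) (h5 : S_F5) (hX : S_X) (hZ : S_ZD) : S_PC := by
  intro N k L _ hN hk P Q hPQ
  obtain ⟨c, K, β₀, hc, hK, hβ₀, HZ⟩ := hZ N k L hN hk P Q hPQ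
  refine ⟨c / (3 * K), 2 * c, β₀, by positivity, by positivity, hβ₀, ?_⟩
  intro β hβ hββ Ω Δ A n hΔ hA f hf hf1 hfd η η' hη
  have hβ1 : 1 < β := by linarith
  have hN0 : 0 < N := by omega
  obtain ⟨M, hM, ε, p, δ, q, hMK, hp, hδ, hq, hδq, hpq, hq2, hqc, HΩ⟩ := HZ β hβ hββ
  obtain ⟨hbad, hins⟩ := HΩ Ω
  obtain ⟨Λ, hΛ⟩ : ∃ Λ, Λ = Δ ∪ A.biUnion (Nb n) := ⟨_, rfl⟩
  have hΛΩ : Λ ∩ Ω = Δ := by
    ext a
    rw [hΛ, Finset.mem_inter, Finset.mem_union, Finset.mem_biUnion]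
    constructor
    · rintro ⟨h | ⟨b, hb, h⟩, h2⟩
      · exact h
      · exact hA b hb a h h2
    · intro h
      exact ⟨Or.inl h, hΔ h⟩
  have hf'm : Measurable fun X : Lv L Ω → SU N => f (xt P Q Ω X) := hf.comp (xt_meas P Q Ω)
  have hmain := decay h3 h5 hX (frz N L k β hN hβ P Q Ω) (hm N)
    (fun τ X => en k (xt P Q Ω X) τ ≤ ε)
    (fun τ => measurableSet_le ((en_cont k τ hN0).measurable.comp (xt_meas P Q Ω))
      measurable_const)
    (fun τ ω ω' h => by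
      have e : en k (xt P Q Ω ω) τ = en k (xt P Q Ω ω') τ := by
        refine en_loc k τ _ _ fun l hl => ?_
        by_cases hh : l ∈ Frl L Ω
        · rw [xt_of_mem P Q Ω _ l hh, xt_of_mem P Q Ω _ l hh]
          exact h ⟨l, hh⟩ (Finset.mem_filter.2 ⟨Finset.mem_univ _, hl⟩)
        · rw [xt_of_not P Q Ω _ l hh, xt_of_not P Q Ω _ l hh]
      rw [e])
    hβ1 hc hK hM hMK hp hδ hq hδq hpq hq2 hqc hbad hins A Λ n
    (fun a ha => by
      rw [hΛ]
      exact (Finset.subset_biUnion_of_mem (Nb n) ha).trans Finset.subset_union_right)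
    (fun X => f (xt P Q Ω X)) hf'm (fun X => hf1 _)
    (fun ω ω' h => hfd _ _ fun l hl => by
      by_cases hh : l ∈ Frl L Ω
      · rw [xt_of_mem P Q Ω _ l hh, xt_of_mem P Q Ω _ l hh]
        refine h ⟨l, hh⟩ fun a ha => ?_
        have ha' := Finset.mem_filter.1 (show a ∈ (st l).filter (· ∈ Ω) from ha)
        exact hl a ha'.1 ha'.2
      · rw [xt_of_not P Q Ω _ l hh, xt_of_not P Q Ω _ l hh])
    (rs Ω η) (rs Ω η')
  have hconv : ∀ ω : Cf N L, (∀ l, l ∉ Frl L Ω → ω l = vc P Q l) →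
      (frz N L k β hN hβ P Q Ω).ker (hm N) Λ (fun X => f (xt P Q Ω X)) (rs Ω ω) =
        (sysS N L k β hN hβ).ker (hm N) Δ f ω := by
    intro ω hω
    rw [frz_ker k β hN hβ P Q Ω Λ _ hf'm, hΛΩ, xt_rs P Q Ω ω hω]
    refine ker_congr _ _ _ _ _ _ fun ξ => ?_
    rw [xt_rs]
    intro l hl
    have hl' : l ∉ Frl L Δ := fun h => by
      obtain ⟨a, h1, h2⟩ := (mem_Frl _ _).1 h
      exact hl ((mem_Frl _ _).2 ⟨a, h1, hΔ h2⟩)
    show glue (Frl L Δ) ξ ω l = _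
    unfold glue
    rw [if_neg hl', hω l hl]
  rw [hconv η fun l hl => (hη l hl).1, hconv η' fun l hl => (hη l hl).2] at hmain
  exact hmain

end T2H01.SE.PkgPC

namespace T2H01.SE

open T2H02.TT

theorem pPC (h3 : S_F3) (h5 : S_F5) (hX : S_X) (hZ : S_ZD) : S_PC := PkgPC.main h3 h5 hX hZ

end T2H01.SE
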