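import Pool.Agent.T2H01.SE.Stm2

/-!
# Package RA : real analysis, log-convexity
-/

set_option autoImplicit false

noncomputable section

namespace T2H01.SE

namespace PkgRA

/-- the ratios of a log-convex sequence do not decrease -/
lemma ratio (f : ℕ → ℝ) (J : ℕ) (hJ : 1 ≤ J) (h0 : 0 < f J) (h1 : 0 < f (J + 1))
    (hc : ∀ i, 1 ≤ i → f i ^ 2 ≤ f (i - 1) * f (i + 1)) :
    ∀ k : ℕ, 0 < f (J + k) ∧ f (J + 1) * f (J + k) ≤ f (J + k + 1) * f J := by
  intro k
  induction k with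
  | zero => exact ⟨h0, by simp [mul_comm]⟩
  | succ k ih =>
    obtain ⟨hp, hr⟩ := ih
    have hp' : 0 < f (J + k + 1) := by
      have h2 : 0 < f (J + k + 1) * f J := lt_of_lt_of_le (mul_pos h1 hp) hr
      exact (pos_iff_pos_of_mul_pos h2).mpr h0
    have hcc := hc (J + k + 1) (by omega)
    have e1 : J + k + 1 - 1 = J + k := by omega
    rw [e1] at hcc
    refine ⟨hp', ?_⟩
    have e2 : J + (k + 1) = J + k + 1 := by omega
    rw [e2]
    have h3 : f (J + k) * (f (J + 1) * f (J + k + 1)) ≤ f (J + k) * (f (J + k + 1 + 1) * f J) := by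
      calc f (J + k) * (f (J + 1) * f (J + k + 1))
          = f (J + k + 1) * (f (J + 1) * f (J + k)) := by ring
        _ ≤ f (J + k + 1) * (f (J + k + 1) * f J) := mul_le_mul_of_nonneg_left hr hp'.le
        _ = f (J + k + 1) ^ 2 * f J := by ring
        _ ≤ (f (J + k) * f (J + k + 1 + 1)) * f J := mul_le_mul_of_nonneg_right hcc h0.le
        _ = f (J + k) * (f (J + k + 1 + 1) * f J) := by ring
    exact le_of_mul_le_mul_left h3 hp

/-- the comparison for one value of the second variable -/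
lemma comp (f g : ℕ → ℝ) (J : ℕ) (hJ : 1 ≤ J) (α U : ℝ) (hU : 0 ≤ U)
    (hg : ∀ i, 0 < g i) (hfg : f J ≤ g J)
    (hc : ∀ i, 1 ≤ i → f i ^ 2 ≤ f (i - 1) * f (i + 1))
    (hy : ∀ i', J ≤ i' → g (i' + 1) * g J ≤ g i' * g (J + 1) * Real.exp U)
    (h0 : Real.exp (-α) * g J ≤ f J) (h1 : Real.exp (-α) * g (J + 1) ≤ f (J + 1)) :
    ∀ k : ℕ, Real.exp (-((k + 1) * (α + U))) * g (J + k) ≤ f (J + k) := by
  have hp0 : 0 < f J := lt_of_lt_of_le (mul_pos (Real.exp_pos _) (hg J)) h0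
  have hp1 : 0 < f (J + 1) := lt_of_lt_of_le (mul_pos (Real.exp_pos _) (hg _)) h1
  have hr := ratio f J hJ hp0 hp1 hc
  intro k
  induction k with
  | zero =>
    have h2 : Real.exp (-(((0 : ℕ) + 1 : ℝ) * (α + U))) ≤ Real.exp (-α) := by
      apply Real.exp_le_exp.mpr
      push_cast
      linarith
    calc _ ≤ Real.exp (-α) * g J := mul_le_mul_of_nonneg_right h2 (hg J).le
      _ ≤ f J := h0
  | succ k ih =>
    have e2 : J + (k + 1) = J + k + 1 := by omega
    rw [e2]
    have hrk := (hr k).2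
    have hpk1 : 0 < f (J + k + 1) := by
      have := (hr (k + 1)).1
      rwa [e2] at this
    have hyk := hy (J + k) (by omega)
    have key : Real.exp (-((((k + 1 : ℕ) : ℝ) + 1) * (α + U))) * g (J + k + 1) * g J ≤
        f (J + k + 1) * g J := by
      calc Real.exp (-((((k + 1 : ℕ) : ℝ) + 1) * (α + U))) * g (J + k + 1) * g J
          = Real.exp (-((((k + 1 : ℕ) : ℝ) + 1) * (α + U))) * (g (J + k + 1) * g J) := by ring
        _ ≤ Real.exp (-((((k + 1 : ℕ) : ℝ) + 1) * (α + U))) *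
            (g (J + k) * g (J + 1) * Real.exp U) :=
          mul_le_mul_of_nonneg_left hyk (Real.exp_pos _).le
        _ = (Real.exp (-α) * g (J + 1)) * (Real.exp (-((k + 1) * (α + U))) * g (J + k)) := by
          have : Real.exp (-((((k + 1 : ℕ) : ℝ) + 1) * (α + U))) * Real.exp U =
              Real.exp (-α) * Real.exp (-((k + 1) * (α + U))) := by
            rw [← Real.exp_add, ← Real.exp_add]
            congr 1
            push_cast
            ring
          calc _ = (Real.exp (-((((k + 1 : ℕ) : ℝ) + 1) * (α + U))) * Real.exp U) *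
                (g (J + k) * g (J + 1)) := by ring
            _ = _ := by rw [this]; ring
        _ ≤ f (J + 1) * f (J + k) :=
          mul_le_mul h1 ih (mul_nonneg (Real.exp_pos _).le (hg _).le) hp1.le
        _ ≤ f (J + k + 1) * f J := hrk
        _ ≤ f (J + k + 1) * g J := mul_le_mul_of_nonneg_left hfg hpk1.le
    exact le_of_mul_le_mul_right key (hg J)

/-- `exp (-2 A) ≤ 1 - A` for `0 ≤ A ≤ 1/2` -/
lemma exp_le (A : ℝ) (h0 : 0 ≤ A) (h1 : A ≤ 1 / 2) : Real.exp (-(2 * A)) ≤ 1 - A := by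
  have h2 : 1 + A ≤ Real.exp A := by linarith [Real.add_one_le_exp A]
  have h3 : 0 < 1 - A := by linarith
  have h4 : (1 + A + A ^ 2 + A ^ 2 * 0) ≤ Real.exp (2 * A) := by
    have : Real.exp (2 * A) = Real.exp A * Real.exp A := by
      rw [← Real.exp_add]; ring_nf
    rw [this]
    nlinarith
  rw [Real.exp_neg]
  have h5 : 1 ≤ (1 - A) * Real.exp (2 * A) := by
    have h6 : (1 + A) * (1 + A) ≤ Real.exp (2 * A) := by
      have : Real.exp (2 * A) = Real.exp A * Real.exp A := by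
        rw [← Real.exp_add]; ring_nf
      rw [this]
      exact mul_le_mul h2 h2 (by linarith) (Real.exp_pos _).le
    have h7 : (1 - A) * ((1 + A) * (1 + A)) ≤ (1 - A) * Real.exp (2 * A) :=
      mul_le_mul_of_nonneg_left h6 h3.le
    have h8 : 1 ≤ (1 - A) * ((1 + A) * (1 + A)) := by
      nlinarith [mul_nonneg h0 (sub_nonneg.mpr h1), mul_nonneg h0 h0,
        mul_nonneg (mul_nonneg h0 h0) (sub_nonneg.mpr h1)]
    linarith
  rw [inv_le_iff_one_le_mul₀ (Real.exp_pos _)]
  exact h5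

end PkgRA

open PkgRA in
theorem pRA : S_RA := by
  intro x y J b u hJ hb hu hxy hlc hgr hA hA2 i j hi hj
  set A : ℝ := 2 * (4 * J + 7) ^ 2 * b with hAdef
  have hA0 : 0 ≤ A := by positivity
  have hexp := exp_le A hA0 hA2
  have hc0 : (0 : ℝ) ≤ 2 * A := by linarith
  -- base values
  have base : ∀ i j, J ≤ i → J ≤ j → i ≤ J + 1 → j ≤ J + 1 →
      Real.exp (-(2 * A)) * y i j ≤ x i j := fun i j h1 h2 h3 h4 =>
    (mul_le_mul_of_nonneg_right hexp (hxy i j).2.1.le).trans (hA i j h1 h2 h3 h4)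
  have hJ7 : (0 : ℝ) ≤ u * (4 * J + 7) := by positivity
  -- first application
  have first : ∀ j, J ≤ j → j ≤ J + 1 → ∀ k : ℕ,
      Real.exp (-((k + 1) * (2 * A + u * (4 * J + 7)))) * y (J + k) j ≤ x (J + k) j := by
    intro j h1 h2 k
    have h3 : u * (4 * (j : ℝ) + 3) ≤ u * (4 * J + 7) := by
      apply mul_le_mul_of_nonneg_left _ hu
      have : (j : ℝ) ≤ J + 1 := by exact_mod_cast h2
      linarith
    exact comp (fun i => x i j) (fun i => y i j) J hJ (2 * A) (u * (4 * J + 7)) hJ7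
      (fun i => (hxy i j).2.1) (hxy J j).2.2.1 (fun i hi => hlc i j hi)
      (fun i' hi' => (hgr J i' j le_rfl hi').trans
        (mul_le_mul_of_nonneg_left (Real.exp_le_exp.mpr h3)
          (mul_nonneg (hxy i' j).2.1.le (hxy (J + 1) j).2.1.le)))
      (base J j le_rfl h1 (by omega) h2) (base (J + 1) j (by omega) h1 le_rfl h2) k
  obtain ⟨k, rfl⟩ := Nat.exists_eq_add_of_le hi
  obtain ⟨m, rfl⟩ := Nat.exists_eq_add_of_le hj
  -- second application
  have second := comp (fun i => x i (J + m)) (fun i => y i (J + m)) J hJ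
    ((m + 1) * (2 * A + u * (4 * J + 7))) (u * (4 * ((J + m : ℕ) : ℝ) + 3)) (by positivity)
    (fun i => (hxy i _).2.1) (hxy J _).2.2.1 (fun i hi => hlc i _ hi)
    (fun i' hi' => hgr J i' _ le_rfl hi')
    (by
      have := first J le_rfl (by omega) m
      rw [(hxy (J + m) J).2.2.2.1, (hxy (J + m) J).2.2.2.2] at this
      exact this)
    (by
      have := first (J + 1) (by omega) le_rfl m
      rw [(hxy (J + m) (J + 1)).2.2.2.1, (hxy (J + m) (J + 1)).2.2.2.2] at this
      exact this) k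
  refine le_trans (mul_le_mul_of_nonneg_right (Real.exp_le_exp.mpr ?_)
    (hxy (J + k) (J + m)).2.1.le) second
  have hcA : 4 * (4 * (J : ℝ) + 7) ^ 2 * b = 2 * A := by rw [hAdef]; ring
  rw [hcA]
  push_cast
  have hk : (0 : ℝ) ≤ k := Nat.cast_nonneg k
  have hm : (0 : ℝ) ≤ m := Nat.cast_nonneg m
  have hJr : (1 : ℝ) ≤ J := by exact_mod_cast hJ
  have a1 : (0 : ℝ) ≤ k + 1 := by linarith
  have a2 : (k : ℝ) + 1 ≤ 4 * (J + k) + 3 := by linarith
  have a3 : (m : ℝ) + 1 ≤ 4 * (J + m) + 3 := by linarith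
  have a4 : (0 : ℝ) ≤ 4 * (J + m) + 3 := by linarith
  have b1 : ((k : ℝ) + 1) * (m + 1) ≤ (4 * (J + k) + 3) * (4 * (J + m) + 3) :=
    mul_le_mul a2 a3 (by linarith) (by linarith)
  have b2 : ((k : ℝ) + 1) * (4 * (J + m) + 3) ≤ (4 * (J + k) + 3) * (4 * (J + m) + 3) :=
    mul_le_mul_of_nonneg_right a2 a4
  have b3 : (2 * A + u * (4 * J + 7)) * (((k : ℝ) + 1) * (m + 1)) ≤
      (2 * A + u * (4 * J + 7)) * ((4 * (J + k) + 3) * (4 * (J + m) + 3)) :=
    mul_le_mul_of_nonneg_left b1 (by linarith)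
  have b4 : u * (((k : ℝ) + 1) * (4 * (J + m) + 3)) ≤
      u * ((4 * (J + k) + 3) * (4 * (J + m) + 3)) :=
    mul_le_mul_of_nonneg_left b2 hu
  have b5 : u * ((4 * ((J : ℝ) + k) + 3) * (4 * (J + m) + 3)) ≤
      u * (4 * J + 7) * ((4 * (J + k) + 3) * (4 * (J + m) + 3)) := by
    have : u * 1 ≤ u * (4 * J + 7) := mul_le_mul_of_nonneg_left (by linarith) hu
    have c1 : (0 : ℝ) ≤ (4 * (J + k) + 3) * (4 * (J + m) + 3) := by positivity
    calc _ = u * 1 * ((4 * ((J : ℝ) + k) + 3) * (4 * (J + m) + 3)) := by ring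
      _ ≤ _ := mul_le_mul_of_nonneg_right this c1
  nlinarith [b3, b4, b5]

end T2H01.SE
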