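import Pool.Agent.T2H01.SE.Stm2
import Pool.Agent.T2H02.TT.F

/-!
# Package RC : abstract reflection inequality
-/

set_option autoImplicit false
set_option linter.unusedSectionVars false
set_option linter.unusedVariables false

noncomputable section

open MeasureTheory Matrix
open scoped Matrix.Norms.Frobenius

namespace T2H01.SE

open T2H02.TT

namespace PkgRC

variable {ι X : Type} [DecidableEq ι] [MeasurableSpace X]

theorem int_bddC {α : Type} [MeasurableSpace α] {ν : Measure α} [IsProbabilityMeasure ν]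
    {f : α → ℂ} (hf : Measurable f) {K : ℝ} (hb : ∀ ω, ‖f ω‖ ≤ K) : Integrable f ν :=
  Integrable.of_bound hf.aestronglyMeasurable K (Filter.Eventually.of_forall hb)

theorem int_bdd {α : Type} [MeasurableSpace α] {ν : Measure α} [IsProbabilityMeasure ν]
    {f : α → ℝ} (hf : Measurable f) {K : ℝ} (hb : ∀ ω, |f ω| ≤ K) : Integrable f ν :=
  Integrable.of_bound hf.aestronglyMeasurable K (Filter.Eventually.of_forall hb)

/-- F2 for complex functions -/
theorem F2C (μ : Measure X) [IsProbabilityMeasure μ] (J : Finset ι) {f : (ι → X) → ℂ}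
    (hf : Measurable f) {K : ℝ} (hb : ∀ ω, ‖f ω‖ ≤ K) :
    ∫ ω, f ω ∂(Measure.infinitePi fun _ : ι => μ) =
      ∫ η, (∫ ξ, f (glue J ξ η) ∂(Measure.infinitePi fun _ : ι => μ))
        ∂(Measure.infinitePi fun _ : ι => μ) := by
  conv_lhs => rw [← PkgF.map_glue μ J]
  rw [integral_map (PkgF.meas_glue J).aemeasurable hf.aestronglyMeasurable]
  rw [integral_prod (fun p : (ι → X) × (ι → X) => f (glue J p.2 p.1))]
  exact int_bddC (hf.comp (PkgF.meas_glue J)) (fun ω => hb _)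

theorem meas_int (μ : Measure X) [IsProbabilityMeasure μ] (J : Finset ι) {f : (ι → X) → ℂ}
    (hf : Measurable f) :
    Measurable fun x => ∫ ζ, f (glue J ζ x) ∂(Measure.infinitePi fun _ : ι => μ) :=
  ((hf.comp (PkgF.meas_glue J)).stronglyMeasurable.integral_prod_right'
    (ν := Measure.infinitePi fun _ : ι => μ)).measurable

theorem norm_int_le {α : Type} [MeasurableSpace α] {ν : Measure α} [IsProbabilityMeasure ν]
    {f : α → ℂ} (hb : ∀ ω, ‖f ω‖ ≤ 1) : ‖∫ ω, f ω ∂ν‖ ≤ 1 := by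
  have h := norm_integral_le_of_norm_le_const (μ := ν) (C := 1) (Filter.Eventually.of_forall hb)
  simpa using h

/-- Cauchy-Schwarz -/
theorem cs {α : Type} [MeasurableSpace α] {ν : Measure α} [IsProbabilityMeasure ν]
    {w a b : α → ℝ} (hw : Measurable w) (ha : Measurable a) (hb : Measurable b)
    (hw0 : ∀ x, 0 ≤ w x ∧ w x ≤ 1) (ha0 : ∀ x, 0 ≤ a x ∧ a x ≤ 1) (hb0 : ∀ x, 0 ≤ b x ∧ b x ≤ 1) :
    (∫ x, w x * a x * b x ∂ν) ^ 2 ≤ (∫ x, w x * a x ^ 2 ∂ν) * ∫ x, w x * b x ^ 2 ∂ν := by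
  have hI : ∀ u v : α → ℝ, Measurable u → Measurable v → (∀ x, 0 ≤ u x ∧ u x ≤ 1) →
      (∀ x, 0 ≤ v x ∧ v x ≤ 1) → Integrable (fun x => w x * u x * v x) ν := by
    intro u v hu hv hu0 hv0
    refine int_bdd (K := 1) ((hw.mul hu).mul hv) fun x => ?_
    have h1 := hw0 x
    have h2 := hu0 x
    have h3 := hv0 x
    rw [abs_of_nonneg (mul_nonneg (mul_nonneg h1.1 h2.1) h3.1)]
    exact mul_le_one₀ (mul_le_one₀ h1.2 h2.1 h2.2) h3.1 h3.2
  have h1 := hI a a ha ha ha0 ha0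
  have h2 := hI b b hb hb hb0 hb0
  have h3 := hI a b ha hb ha0 hb0
  have key : ∀ t : ℝ, 0 ≤ (∫ x, w x * a x * a x ∂ν) * (t * t) +
      (-2 * ∫ x, w x * a x * b x ∂ν) * t + ∫ x, w x * b x * b x ∂ν := by
    intro t
    have h4 : 0 ≤ ∫ x, w x * (t * a x - b x) ^ 2 ∂ν :=
      integral_nonneg fun x => mul_nonneg (hw0 x).1 (sq_nonneg _)
    have h5 : ∫ x, w x * (t * a x - b x) ^ 2 ∂ν =
        (∫ x, w x * a x * a x ∂ν) * (t * t) +
          (-2 * ∫ x, w x * a x * b x ∂ν) * t + ∫ x, w x * b x * b x ∂ν := by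
      have e : (fun x => w x * (t * a x - b x) ^ 2) =
          fun x => (t * t) * (w x * a x * a x) + (-2 * t) * (w x * a x * b x) +
            w x * b x * b x := by
        funext x
        ring
      have i1 : Integrable (fun x => (t * t) * (w x * a x * a x)) ν := h1.const_mul _
      have i2 : Integrable (fun x => (-2 * t) * (w x * a x * b x)) ν := h3.const_mul _
      have i3 : Integrable (fun x => (t * t) * (w x * a x * a x) + (-2 * t) * (w x * a x * b x)) ν :=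
        i1.add i2
      rw [e, integral_add i3 h2, integral_add i1 i2, integral_const_mul, integral_const_mul]
      ring
    rw [← h5]
    exact h4
  have h6 := discrim_le_zero key
  unfold discrim at h6
  have e1 : ∫ x, w x * a x ^ 2 ∂ν = ∫ x, w x * a x * a x ∂ν := by
    congr 1
    funext x
    ring
  have e2 : ∫ x, w x * b x ^ 2 ∂ν = ∫ x, w x * b x * b x ∂ν := by
    congr 1
    funext x
    ring
  rw [e1, e2]
  nlinarith [h6]

end PkgRC

open PkgRC

theorem pRC : S_RC := by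
  intro ι X _ _ μ _ J₀ J₁ J₂ Φ₀ Φ₁ Φ₂ η hm0 hb0 hm hJ12 hJ0 hd0 hd12 hstar Z hZ
  have hhm : Measurable fun ξ : ι → X => glue J₀ ξ η := PkgF.meas_glue_left J₀ η
  obtain ⟨A, hA⟩ : ∃ A : Fin 2 → (ι → X) → ℂ, A = fun i ξ =>
    ∫ ζ, Φ₁ i (glue (J₁ i) ζ (glue J₀ ξ η)) ∂(Measure.infinitePi fun _ : ι => μ) := ⟨_, rfl⟩
  have hAm : ∀ i, Measurable (A i) := by
    intro i
    rw [hA]
    exact (meas_int μ (J₁ i) (hm i).1).comp hhm
  have hAb : ∀ i ξ, ‖A i ξ‖ ≤ 1 := by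
    intro i ξ
    rw [hA]
    exact norm_int_le fun ζ => (hm i).2.2.1 _
  have hΦ₀ : ∀ i ζ x, Φ₀ (glue (J₁ i) ζ x) = Φ₀ x ∧ Φ₀ (glue (J₂ i) ζ x) = Φ₀ x := by
    intro i ζ x
    refine ⟨hd0 i _ _ fun l hl => ?_, hd0 i _ _ fun l hl => ?_⟩
    · unfold glue
      rw [if_neg hl.1]
    · unfold glue
      rw [if_neg hl.2]
  have key : ∀ i j, Z i j = ∫ ξ, ((Φ₀ (glue J₀ ξ η) : ℝ) : ℂ) * A i ξ * star (A j ξ)
      ∂(Measure.infinitePi fun _ : ι => μ) := by
    intro i j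
    obtain ⟨B, hB⟩ : ∃ B : (ι → X) → ℂ, B = fun x =>
      ∫ ζ, Φ₂ j (glue (J₂ j) ζ x) ∂(Measure.infinitePi fun _ : ι => μ) := ⟨_, rfl⟩
    have hBm : Measurable B := by
      rw [hB]
      exact meas_int μ (J₂ j) (hm j).2.1
    have hBb : ∀ x, ‖B x‖ ≤ 1 := by
      intro x
      rw [hB]
      exact norm_int_le fun ζ => (hm j).2.2.2 _
    have hgm : ∀ J : Finset ι, Measurable fun ξ : ι → X => glue J ξ η := fun J =>
      PkgF.meas_glue_left J η
    have hΦb : ∀ x, ‖((Φ₀ x : ℝ) : ℂ)‖ ≤ 1 := by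
      intro x
      rw [Complex.norm_real, Real.norm_eq_abs, abs_of_nonneg (hb0 x).1]
      exact (hb0 x).2
    have hΦm : Measurable fun x => ((Φ₀ x : ℝ) : ℂ) := Complex.measurable_ofReal.comp hm0
    -- first step
    rw [hZ, F2C μ (J₂ j) (K := 1)]
    rotate_left
    · exact ((hΦm.comp (hgm _)).mul ((hm i).1.comp (hgm _))).mul ((hm j).2.1.comp (hgm _))
    · intro ω
      rw [norm_mul, norm_mul]
      exact mul_le_one₀ (mul_le_one₀ (hΦb _) (norm_nonneg _) ((hm i).2.2.1 _)) (norm_nonneg _)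
        ((hm j).2.2.2 _)
    have e1 : ∀ ξ : ι → X, (∫ ζ, ((Φ₀ (glue (J₀ ∪ J₁ i ∪ J₂ j) (glue (J₂ j) ζ ξ) η) : ℝ) : ℂ) *
        Φ₁ i (glue (J₀ ∪ J₁ i ∪ J₂ j) (glue (J₂ j) ζ ξ) η) *
        Φ₂ j (glue (J₀ ∪ J₁ i ∪ J₂ j) (glue (J₂ j) ζ ξ) η)
          ∂(Measure.infinitePi fun _ : ι => μ)) =
        ((Φ₀ (glue (J₀ ∪ J₁ i) ξ η) : ℝ) : ℂ) * Φ₁ i (glue (J₀ ∪ J₁ i) ξ η) *
          B (glue (J₀ ∪ J₁ i) ξ η) := by
      intro ξ
      rw [hB]
      simp only []
      rw [← integral_const_mul]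
      congr 1
      funext ζ
      have e : glue (J₀ ∪ J₁ i ∪ J₂ j) (glue (J₂ j) ζ ξ) η =
          glue (J₂ j) ζ (glue (J₀ ∪ J₁ i) ξ η) := by
        funext l
        unfold glue
        by_cases h2 : l ∈ J₂ j
        · rw [if_pos (Finset.mem_union_right _ h2), if_pos h2, if_pos h2]
        · rw [if_neg h2, if_neg h2]
          by_cases h3 : l ∈ J₀ ∪ J₁ i
          · rw [if_pos (Finset.mem_union_left _ h3), if_pos h3]
          · rw [if_neg h3, if_neg (by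
              rw [Finset.mem_union]
              exact fun h => h.elim h3 h2)]
      rw [e, (hΦ₀ j ζ _).2]
      have e' : Φ₁ i (glue (J₂ j) ζ (glue (J₀ ∪ J₁ i) ξ η)) = Φ₁ i (glue (J₀ ∪ J₁ i) ξ η) := by
        refine (hd12 i j).1 _ _ fun l hl => ?_
        unfold glue
        rw [if_neg hl]
      rw [e']
    simp only [e1]
    -- second step
    rw [F2C μ (J₁ i) (K := 1) (f := fun ξ => ((Φ₀ (glue (J₀ ∪ J₁ i) ξ η) : ℝ) : ℂ) *
      Φ₁ i (glue (J₀ ∪ J₁ i) ξ η) * B (glue (J₀ ∪ J₁ i) ξ η))]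
    rotate_left
    · exact ((hΦm.comp (hgm _)).mul ((hm i).1.comp (hgm _))).mul (hBm.comp (hgm _))
    · intro ω
      rw [norm_mul, norm_mul]
      exact mul_le_one₀ (mul_le_one₀ (hΦb _) (norm_nonneg _) ((hm i).2.2.1 _)) (norm_nonneg _)
        (hBb _)
    congr 1
    funext ξ
    have e2 : ∀ ζ : ι → X, glue (J₀ ∪ J₁ i) (glue (J₁ i) ζ ξ) η =
        glue (J₁ i) ζ (glue J₀ ξ η) := by
      intro ζ
      funext l
      unfold glue
      by_cases h2 : l ∈ J₁ i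
      · rw [if_pos (Finset.mem_union_right _ h2), if_pos h2, if_pos h2]
      · rw [if_neg h2, if_neg h2]
        by_cases h3 : l ∈ J₀
        · rw [if_pos (Finset.mem_union_left _ h3), if_pos h3]
        · rw [if_neg h3, if_neg (by
            rw [Finset.mem_union]
            exact fun h => h.elim h3 h2)]
    have e3 : ∀ ζ : ι → X, B (glue (J₁ i) ζ (glue J₀ ξ η)) = B (glue J₀ ξ η) := by
      intro ζ
      rw [hB]
      simp only []
      congr 1
      funext ζ'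
      refine (hd12 i j).2 _ _ fun l hl => ?_
      have hl' : l ∉ J₁ i := hl
      unfold glue
      rw [if_neg hl']
    have e4 : B (glue J₀ ξ η) = star (A j ξ) := by
      rw [hB, hA]
      exact hstar j ξ
    simp only [e2, e3, (hΦ₀ i _ _).1]
    rw [integral_mul_const, integral_const_mul, e4, hA]
  -- Cauchy-Schwarz
  obtain ⟨w, hw⟩ : ∃ w : (ι → X) → ℝ, w = fun ξ => Φ₀ (glue J₀ ξ η) := ⟨_, rfl⟩
  have hwm : Measurable w := by rw [hw]; exact hm0.comp hhm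
  have hw0 : ∀ ξ, 0 ≤ w ξ ∧ w ξ ≤ 1 := by intro ξ; rw [hw]; exact hb0 _
  have hd : ∀ i, ‖Z i i‖ = ∫ ξ, w ξ * ‖A i ξ‖ ^ 2 ∂(Measure.infinitePi fun _ : ι => μ) := by
    intro i
    have h1 : Z i i = ((∫ ξ, w ξ * ‖A i ξ‖ ^ 2 ∂(Measure.infinitePi fun _ : ι => μ) : ℝ) : ℂ) := by
      rw [key, ← integral_complex_ofReal]
      congr 1
      funext ξ
      rw [hw]
      have e : A i ξ * star (A i ξ) = ((‖A i ξ‖ ^ 2 : ℝ) : ℂ) := by
        rw [Complex.star_def, Complex.mul_conj, Complex.normSq_eq_norm_sq]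
      rw [mul_assoc, e]
      push_cast
      rfl
    rw [h1, Complex.norm_real, Real.norm_eq_abs, abs_of_nonneg]
    exact integral_nonneg fun ξ => mul_nonneg (hw0 ξ).1 (sq_nonneg _)
  have ho : ‖Z 0 1‖ ≤ ∫ ξ, w ξ * ‖A 0 ξ‖ * ‖A 1 ξ‖ ∂(Measure.infinitePi fun _ : ι => μ) := by
    rw [key]
    refine (norm_integral_le_integral_norm _).trans (le_of_eq ?_)
    congr 1
    funext ξ
    rw [norm_mul, norm_mul, norm_star, Complex.norm_real, Real.norm_eq_abs, hw,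
      abs_of_nonneg (hb0 _).1]
  rw [hd, hd]
  refine (pow_le_pow_left₀ (norm_nonneg _) ho 2).trans ?_
  exact cs hwm (hAm 0).norm (hAm 1).norm hw0 (fun ξ => ⟨norm_nonneg _, hAb 0 ξ⟩)
    (fun ξ => ⟨norm_nonneg _, hAb 1 ξ⟩)

end T2H01.SE
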