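import Pool.Agent.T2H01.SE.Stm2
import Pool.Agent.T2H02.TT.SY
import Pool.Agent.T2H02.TT.ZL

/-!
# Package RT: translations, exchange of the directions
-/

set_option autoImplicit false
set_option linter.unusedSectionVars false

noncomputable section

open MeasureTheory Matrix
open scoped Matrix.Norms.Frobenius

namespace T2H01.SE

open T2H02.TT

namespace PkgRT

variable {N L : ℕ} [NeZero L]

/-- the product measure is invariant under permutations of the links -/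
lemma int_perm (σ : Lk L ≃ Lk L) (Φ : Cf N L → ℂ) :
    ∫ X, Φ (fun l => X (σ l)) ∂(pm N L) = ∫ X, Φ X ∂(pm N L) := by
  have h := Measure.infinitePi_map_piCongrLeft (X := fun _ : Lk L => SU N) (fun _ : Lk L => hm N)
    σ.symm
  have h2 : ∀ X : Cf N L, (MeasurableEquiv.piCongrLeft (fun _ : Lk L => SU N) σ.symm) X =
      fun l => X (σ l) := by
    intro X
    funext l
    obtain ⟨l', rfl⟩ := σ.symm.surjective l
    rw [MeasurableEquiv.coe_piCongrLeft]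
    have := Equiv.piCongrLeft_apply_apply (fun _ : Lk L => SU N) σ.symm X l'
    rw [this, Equiv.apply_symm_apply]
  have h3 : ∫ X, Φ X ∂(pm N L) = ∫ X, Φ X ∂(Measure.map
      (MeasurableEquiv.piCongrLeft (fun _ : Lk L => SU N) σ.symm)
      (Measure.infinitePi fun _ : Lk L => hm N)) := by rw [h]
  rw [h3, integral_map_equiv]
  refine integral_congr_ae (Filter.Eventually.of_forall fun X => ?_)
  simp only
  rw [h2]

/-- the integrand -/
def FF (k : ℕ) (β : ℝ) (c : ℕ) (U : Finset Pl) (X : Cf N L) : ℂ :=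
  (∏ τ ∈ (tml U).filter (fun τ => τ.2 ≠ 3), (Real.exp (-β * en1 k X τ) : ℂ)) *
    ∏ τ ∈ (tml U).filter (fun τ => τ.2 = 3), wch N β c τ.1 X

lemma Zc_eq (k : ℕ) (β : ℝ) (c : ℕ) (U : Finset Pl) (η : Cf N L) :
    Zc k β c U η = ∫ ξ, FF k β c U (glue (Frl L U) ξ η) ∂(pm N L) := rfl

/-- the general principle -/
lemma Zc_of (k : ℕ) (β : ℝ) (c : ℕ) (U U' : Finset Pl) (P Q : SU N) (σ : Lk L ≃ Lk L)
    (φ : Tm ≃ Tm) (s : ℂ →+* ℂ) (hs : ∀ f : Cf N L → ℂ, ∫ X, s (f X) ∂(pm N L) =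
      s (∫ X, f X ∂(pm N L))) (hn : ∀ z, ‖s z‖ = ‖z‖) (hr : ∀ r : ℝ, s (r : ℂ) = r)
    (hl : ∀ l, l ∈ Frl L U ↔ σ l ∈ Frl L U') (hv : ∀ l, vc P Q (σ l) = (vc P Q l : SU N))
    (hφ : ∀ τ, τ ∈ tml U ↔ φ τ ∈ tml U') (h3 : ∀ τ, (φ τ).2 = 3 ↔ τ.2 = 3)
    (he : ∀ (X : Cf N L) τ, τ.2 ≠ 3 → en1 k X (φ τ) = en1 k (fun l => X (σ l)) τ)
    (hw : ∀ (X : Cf N L) τ, τ.2 = 3 → wch N β c (φ τ).1 X = s (wch N β c τ.1 (fun l => X (σ l)))) :
    ‖Zc k β c U' (vc P Q : Cf N L)‖ = ‖Zc k β c U (vc P Q : Cf N L)‖ := by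
  have key : ∀ X : Cf N L, FF k β c U' X = s (FF k β c U (fun l => X (σ l))) := by
    intro X
    unfold FF
    rw [map_mul, map_prod, map_prod]
    congr 1
    · symm
      refine Finset.prod_nbij' (fun τ => φ τ) (fun τ => φ.symm τ) ?_ ?_ ?_ ?_ ?_
      · intro τ hτ
        rw [Finset.mem_filter] at hτ ⊢
        exact ⟨(hφ τ).1 hτ.1, fun h => hτ.2 ((h3 τ).1 h)⟩
      · intro τ hτ
        rw [Finset.mem_filter] at hτ ⊢
        refine ⟨(hφ _).2 (by rw [Equiv.apply_symm_apply]; exact hτ.1), fun h => hτ.2 ?_⟩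
        have := (h3 (φ.symm τ)).2 h
        rwa [Equiv.apply_symm_apply] at this
      · intro τ _; exact φ.symm_apply_apply τ
      · intro τ _; exact φ.apply_symm_apply τ
      · intro τ hτ
        rw [Finset.mem_filter] at hτ
        rw [hr, he X τ hτ.2]
    · symm
      refine Finset.prod_nbij' (fun τ => φ τ) (fun τ => φ.symm τ) ?_ ?_ ?_ ?_ ?_
      · intro τ hτ
        rw [Finset.mem_filter] at hτ ⊢
        exact ⟨(hφ τ).1 hτ.1, (h3 τ).2 hτ.2⟩
      · intro τ hτ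
        rw [Finset.mem_filter] at hτ ⊢
        refine ⟨(hφ _).2 (by rw [Equiv.apply_symm_apply]; exact hτ.1), ?_⟩
        refine (h3 (φ.symm τ)).1 ?_
        rw [Equiv.apply_symm_apply]; exact hτ.2
      · intro τ _; exact φ.symm_apply_apply τ
      · intro τ _; exact φ.apply_symm_apply τ
      · intro τ hτ
        rw [Finset.mem_filter] at hτ
        rw [hw X τ hτ.2]
  have hg : ∀ ξ : Cf N L, (fun l => glue (Frl L U') ξ (vc P Q) (σ l)) =
      glue (Frl L U) (fun l => ξ (σ l)) (vc P Q) := by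
    intro ξ
    funext l
    unfold glue
    by_cases h : l ∈ Frl L U
    · rw [if_pos h, if_pos ((hl l).1 h)]
    · rw [if_neg h, if_neg (fun h' => h ((hl l).2 h')), hv]
  have h1 : Zc k β c U' (vc P Q : Cf N L) = s (Zc k β c U (vc P Q : Cf N L)) := by
    rw [Zc_eq, Zc_eq, ← int_perm σ (fun ξ => FF k β c U (glue (Frl L U) ξ (vc P Q))), ← hs]
    refine integral_congr_ae (Filter.Eventually.of_forall fun ξ => ?_)
    simp only
    rw [key, hg]
  rw [h1, hn]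

lemma st_tr (v : Pl) (l : Lk L) (a : Pl) : a + v ∈ st (PkgSY.tr L v l) ↔ a ∈ st l := by
  rw [mem_st, mem_st]
  unfold PkgSY.tr
  simp only [Equiv.coe_fn_mk]
  rw [add_left_inj, add_right_comm, add_left_inj]

/-- translation of terms -/
def ttr (v : Pl) : Tm ≃ Tm where
  toFun τ := (τ.1 + v, τ.2)
  invFun τ := (τ.1 - v, τ.2)
  left_inv τ := by simp
  right_inv τ := by simp

lemma cor_ttr (v : Pl) (τ : Tm) (a : Pl) : a + v ∈ cor (ttr v τ) ↔ a ∈ cor τ := by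
  obtain ⟨x, i⟩ := τ
  unfold ttr
  simp only [Equiv.coe_fn_mk]
  fin_cases i
  · change a + v ∈ cor (x + v, 0) ↔ a ∈ cor (x, 0)
    rw [mem_cor0, mem_cor0, add_left_inj]
  · change a + v ∈ cor (x + v, 1) ↔ a ∈ cor (x, 1)
    rw [mem_cor1, mem_cor1, add_left_inj, add_right_comm, add_left_inj]
  · change a + v ∈ cor (x + v, 2) ↔ a ∈ cor (x, 2)
    rw [mem_cor2, mem_cor2, add_left_inj, add_right_comm, add_left_inj]
  · change a + v ∈ cor (x + v, 3) ↔ a ∈ cor (x, 3)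
    rw [mem_cor3, mem_cor3, add_left_inj, add_right_comm x v (1, 0), add_left_inj,
      add_right_comm x v (0, 1), add_left_inj, add_right_comm x v (1, 1), add_left_inj]

lemma mem_rc (a b x : Pl) : x ∈ rc a b ↔ (a.1 ≤ x.1 ∧ x.1 ≤ b.1) ∧ a.2 ≤ x.2 ∧ x.2 ≤ b.2 := by
  unfold rc
  rw [Finset.mem_product, Finset.mem_Icc, Finset.mem_Icc]

lemma rc_tr (a b v x : Pl) : x + v ∈ rc (a + v) (b + v) ↔ x ∈ rc a b := by
  rw [mem_rc, mem_rc]
  simp only [Prod.fst_add, Prod.snd_add, add_le_add_iff_right]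

lemma rc_sw (a b x : Pl) : x.swap ∈ rc a.swap b.swap ↔ x ∈ rc a b := by
  rw [mem_rc, mem_rc]
  simp only [Prod.fst_swap, Prod.snd_swap]
  tauto

lemma Frl_tr (a b v : Pl) (l : Lk L) :
    l ∈ Frl L (rc a b) ↔ PkgSY.tr L v l ∈ Frl L (rc (a + v) (b + v)) := by
  rw [mem_Frl, mem_Frl]
  constructor
  · rintro ⟨x, h1, h2⟩
    exact ⟨x + v, (st_tr v l x).2 h1, (rc_tr a b v x).2 h2⟩
  · rintro ⟨x, h1, h2⟩
    refine ⟨x - v, (st_tr v l _).1 (by rwa [sub_add_cancel]), (rc_tr a b v _).1 (by rwa [sub_add_cancel])⟩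

lemma tml_tr (a b v : Pl) (τ : Tm) :
    τ ∈ tml (rc a b) ↔ ttr v τ ∈ tml (rc (a + v) (b + v)) := by
  rw [mem_tml, mem_tml]
  constructor
  · rintro ⟨x, h1, h2⟩
    exact ⟨x + v, (cor_ttr v τ x).2 h1, (rc_tr a b v x).2 h2⟩
  · rintro ⟨x, h1, h2⟩
    refine ⟨x - v, (cor_ttr v τ _).1 (by rwa [sub_add_cancel]), (rc_tr a b v _).1 (by rwa [sub_add_cancel])⟩

lemma eP_tr (v x : Pl) (z : ℂ) (X : Cf N L) :
    eP X z (x + v) = eP (fun l => X (PkgSY.tr L v l)) z x := by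
  unfold eP df
  simp only [nx0, nx1, PkgSY.tr, Equiv.coe_fn_mk, add_right_comm x v]

lemma en1_tr (k : ℕ) (v : Pl) (X : Cf N L) (τ : Tm) :
    en1 k X (ttr v τ) = en1 k (fun l => X (PkgSY.tr L v l)) τ := by
  obtain ⟨x, i⟩ := τ
  unfold ttr
  simp only [Equiv.coe_fn_mk]
  fin_cases i
  · change eV k X (x + v) = eV k _ x
    unfold eV df
    simp only [nx2, nx3, PkgSY.tr, Equiv.coe_fn_mk]
  · change eK X (x + v) 0 = eK _ x 0
    unfold eK df
    simp only [nx0, nx2, nx3, PkgSY.tr, Equiv.coe_fn_mk, add_right_comm x v]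
  · change eK X (x + v) 1 = eK _ x 1
    unfold eK df
    simp only [nx1, nx2, nx3, PkgSY.tr, Equiv.coe_fn_mk, add_right_comm x v]
  · exact eP_tr v x 1 X

lemma st_rf (l : Lk L) (a : Pl) : a.swap ∈ st (PkgSY.rf L l) ↔ a ∈ st l := by
  obtain ⟨⟨x, y⟩, i⟩ := l
  obtain ⟨a1, a2⟩ := a
  obtain ⟨x1, x2⟩ := x
  rw [mem_st, mem_st]
  unfold PkgSY.rf
  simp only [Equiv.coe_fn_mk]
  fin_cases i <;> simp [PkgSY.s01, pe] <;> tauto

/-- exchange of directions for terms -/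
def tsw : Tm ≃ Tm where
  toFun τ := (τ.1.swap, PkgSY.sk τ.2)
  invFun τ := (τ.1.swap, PkgSY.sk τ.2)
  left_inv τ := by simp [PkgSY.sk_sk]
  right_inv τ := by simp [PkgSY.sk_sk]

lemma cor_tsw (τ : Tm) (a : Pl) : a.swap ∈ cor (tsw τ) ↔ a ∈ cor τ := by
  have := PkgSY.cor_sk τ.1 τ.2 a.swap
  rwa [Prod.swap_swap] at this

lemma Frl_rf (a b : Pl) (l : Lk L) :
    l ∈ Frl L (rc a b) ↔ PkgSY.rf L l ∈ Frl L (rc a.swap b.swap) := by
  rw [mem_Frl, mem_Frl]
  constructor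
  · rintro ⟨x, h1, h2⟩
    exact ⟨x.swap, (st_rf l x).2 h1, (rc_sw a b x).2 h2⟩
  · rintro ⟨x, h1, h2⟩
    exact ⟨x.swap, (st_rf l _).1 (by rwa [Prod.swap_swap]), (rc_sw a b _).1 (by rwa [Prod.swap_swap])⟩

lemma tml_sw (a b : Pl) (τ : Tm) : τ ∈ tml (rc a b) ↔ tsw τ ∈ tml (rc a.swap b.swap) := by
  rw [mem_tml, mem_tml]
  constructor
  · rintro ⟨x, h1, h2⟩
    exact ⟨x.swap, (cor_tsw τ x).2 h1, (rc_sw a b x).2 h2⟩
  · rintro ⟨x, h1, h2⟩
    exact ⟨x.swap, (cor_tsw τ _).1 (by rwa [Prod.swap_swap]), (rc_sw a b _).1 (by rwa [Prod.swap_swap])⟩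

lemma eP_rf (x : Pl) (m : ℕ) (X : Cf N L) :
    eP X (om N m) x.swap = eP (fun l => X (PkgSY.rf L l)) (star (om N m)) x := by
  have hs0 : PkgSY.s01 0 = 1 := rfl
  have hs1 : PkgSY.s01 1 = 0 := rfl
  unfold eP df
  simp only [nx0, nx1, PkgSY.rf, Equiv.coe_fn_mk, hs0, hs1, PkgSY.sw01, PkgSY.sw10]
  refine Finset.sum_congr rfl fun y _ => ?_
  congr 2
  set A := (X ((x.swap, y), 0) : Mt N) * (X ((x.swap + (1, 0), y), 1) : Mt N)
  set B := (X ((x.swap, y), 1) : Mt N) * (X ((x.swap + (0, 1), y), 0) : Mt N)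
  have h1 : A - om N m • B = -(om N m • (B - star (om N m) • A)) := by
    rw [smul_sub, smul_smul, PkgZL.om_star', one_smul, neg_sub]
  rw [h1, norm_neg, norm_smul, PkgZL.om_norm, one_mul]

lemma wch_rf (hN : N ≠ 0) (β : ℝ) (c : ℕ) (x : Pl) (X : Cf N L) :
    wch N β c x.swap X = star (wch N β c x (fun l => X (PkgSY.rf L l))) := by
  have : NeZero N := ⟨hN⟩
  set σ : Fin N ≃ Fin N := Equiv.neg (Fin N) with hσ
  have h : ∀ m : Fin N, om N (σ m) = star (om N m) := by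
    intro m
    have h1 : ((σ m : Fin N) : ℕ) = (N - (m : ℕ)) % N := by
      rw [hσ, Equiv.neg_apply, Fin.val_neg']
    have h2 : om N (N - (m : ℕ)) * om N m = 1 := by
      rw [← PkgZL.om_add, Nat.sub_add_cancel m.2.le]
      have := PkgZL.om_mul_self hN 1
      rwa [mul_one] at this
    rw [h1, PkgZL.om_mod hN]
    calc om N (N - (m : ℕ)) = om N (N - (m : ℕ)) * (om N m * star (om N m)) := by
          rw [PkgZL.om_star', mul_one]
      _ = star (om N m) := by rw [← mul_assoc, h2, one_mul]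
  unfold wch
  rw [star_div₀, star_natCast, star_sum, ← Equiv.sum_comp σ]
  congr 1
  refine Finset.sum_congr rfl fun m _ => ?_
  rw [star_mul', star_pow, eP_rf, h, star_star]
  congr 1
  rw [Complex.star_def, Complex.conj_ofReal]

lemma vc_rf (P Q : SU N) (l : Lk L) : vc P Q (PkgSY.rf L l) = (vc P Q l : SU N) := by
  obtain ⟨⟨x, y⟩, i⟩ := l
  unfold PkgSY.rf
  simp only [Equiv.coe_fn_mk]
  fin_cases i <;> simp [vc, PkgSY.s01]

end PkgRT

open PkgRT in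
theorem pRT : S_RT := by
  intro N k L _ hN P Q β hβ c a b
  refine ⟨fun v => ?_, ?_⟩
  · refine Zc_of k β c (rc a b) (rc (a + v) (b + v)) P Q (PkgSY.tr L v) (ttr v) (RingHom.id ℂ)
      (fun f => rfl) (fun z => rfl) (fun r => rfl) (Frl_tr a b v) (fun l => rfl) (tml_tr a b v)
      (fun τ => Iff.rfl) (fun X τ _ => en1_tr k v X τ) ?_
    intro X τ _
    show wch N β c (τ.1 + v) X = wch N β c τ.1 _
    unfold wch
    simp only [eP_tr]
  · refine Zc_of k β c (rc a b) (rc a.swap b.swap) P Q (PkgSY.rf L) tsw (starRingEnd ℂ)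
      (fun f => integral_conj) (fun z => RCLike.norm_conj z) (fun r => Complex.conj_ofReal r)
      (Frl_rf a b) (vc_rf P Q) (tml_sw a b) ?_ (fun X τ _ => PkgSY.en1_sk k X τ.1 τ.2) ?_
    · intro τ
      show PkgSY.sk τ.2 = 3 ↔ τ.2 = 3
      generalize τ.2 = i
      revert i
      decide
    · intro X τ _
      exact wch_rf (by omega) β c τ.1 X

end T2H01.SE
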