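import Pool.Agent.T2H01.SE.Stm2
import Pool.Agent.T2H02.TT.RP
import Pool.Agent.T2H02.TT.OA

/-!
# Package RX: reflection inequality for the partition functions with electric charge
-/

set_option autoImplicit false
set_option linter.unusedSectionVars false

noncomputable section

open MeasureTheory Matrix
open scoped Matrix.Norms.Frobenius

namespace T2H01.SE

open T2H02.TT

namespace PkgRX

open PkgRP

variable {N L : ℕ} [NeZero L]

/-- all weights -/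
def gw (k : ℕ) (β : ℝ) (c : ℕ) (τ : Tm) (X : Cf N L) : ℂ :=
  if τ.2 = 3 then wch N β c τ.1 X else (Real.exp (-β * en1 k X τ) : ℂ)

lemma Zc_eq (k : ℕ) (β : ℝ) (c : ℕ) (U : Finset Pl) (η : Cf N L) :
    Zc k β c U η = ∫ ξ, ∏ τ ∈ tml U, gw k β c τ (glue (Frl L U) ξ η) ∂(pm N L) := by
  unfold Zc
  refine integral_congr_ae (Filter.Eventually.of_forall fun ξ => ?_)
  show (∏ τ ∈ (tml U).filter (fun τ => τ.2 ≠ 3),
      (Real.exp (-β * en1 k (glue (Frl L U) ξ η) τ) : ℂ)) *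
    ∏ τ ∈ (tml U).filter (fun τ => τ.2 = 3), wch N β c τ.1 (glue (Frl L U) ξ η) =
      ∏ τ ∈ tml U, gw k β c τ (glue (Frl L U) ξ η)
  rw [← Finset.prod_filter_mul_prod_filter_not (tml U) (fun τ => τ.2 = 3), mul_comm]
  congr 1
  · refine Finset.prod_congr rfl fun τ hτ => ?_
    rw [gw, if_pos (Finset.mem_filter.1 hτ).2]
  · refine Finset.prod_congr rfl fun τ hτ => ?_
    rw [gw, if_neg (Finset.mem_filter.1 hτ).2]

lemma gw_meas (k : ℕ) (β : ℝ) (c : ℕ) (τ : Tm) : Measurable fun X : Cf N L => gw k β c τ X := by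
  unfold gw
  split_ifs
  · exact PkgOA.wch_meas β c τ.1
  · exact Complex.measurable_ofReal.comp (measurable_const.mul (en1_cont k τ).measurable).exp

lemma gw_norm (hN : 0 < N) (k : ℕ) {β : ℝ} (hβ : 0 ≤ β) (c : ℕ) (τ : Tm) (X : Cf N L) :
    ‖gw k β c τ X‖ ≤ 1 := by
  unfold gw
  split_ifs
  · exact PkgOA.wch_norm_le hN hβ c τ.1 X
  · rw [Complex.norm_real, Real.norm_eq_abs, Real.abs_exp]
    refine Real.exp_le_one_iff.2 ?_
    have := en1_nonneg k X τ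
    nlinarith

lemma gw_loc (k : ℕ) (β : ℝ) (c : ℕ) (τ : Tm) (X Y : Cf N L)
    (h : ∀ l ∈ (spt τ : Finset (Lk L)), X l = Y l) : gw k β c τ X = gw k β c τ Y := by
  unfold gw
  split_ifs with h3
  · unfold wch
    obtain ⟨x, i⟩ := τ
    obtain rfl : i = 3 := h3
    have e : ∀ z : ℂ, eP X z x = eP Y z x := fun z => eP_loc z x X Y h
    simp only [e]
  · rw [en1_loc k τ X Y h]

/-! ### reflection of the weights -/

lemma sum_star (hN : N ≠ 0) (F : ℂ → ℂ) :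
    ∑ m : Fin N, F (star (om N m)) = ∑ m : Fin N, F (om N m) := by
  have : NeZero N := ⟨hN⟩
  set σ : Fin N ≃ Fin N := Equiv.neg (Fin N) with hσ
  have h : ∀ m : Fin N, om N (σ m) = star (om N m) := by
    intro m
    have h1 : ((σ m : Fin N) : ℕ) = (N - (m : ℕ)) % N := by
      rw [hσ, Equiv.neg_apply, Fin.val_neg']
    have h2 : om N (N - (m : ℕ)) * om N m = 1 := by
      rw [← PkgOA.om_add, Nat.sub_add_cancel m.2.le]
      exact PkgOA.om_self N (Nat.pos_of_ne_zero hN)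
    rw [h1, PkgOA.om_mod N (Nat.pos_of_ne_zero hN)]
    calc om N (N - (m : ℕ)) = om N (N - (m : ℕ)) * (om N m * star (om N m)) := by
          rw [mul_comm (om N m), PkgOA.om_star_mul, mul_one]
      _ = star (om N m) := by rw [← mul_assoc, h2, one_mul]
  rw [← Equiv.sum_comp σ]
  exact Finset.sum_congr rfl fun m _ => by rw [h m, star_star]

lemma nrm_swapz (z : ℂ) (hz : ‖z‖ = 1) (A B C D : SU N) :
    ‖((A⁻¹ : SU N) : Mt N) * (C : Mt N) - z • ((B : Mt N) * ((D⁻¹ : SU N) : Mt N))‖ =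
      ‖(A : Mt N) * (B : Mt N) - star z • ((C : Mt N) * (D : Mt N))‖ := by
  have hz2 : z * star z = 1 := by
    rw [Complex.star_def, Complex.mul_conj, Complex.normSq_eq_norm_sq, hz]
    norm_num
  rw [← nrm_mul_left A, ← nrm_mul_right D]
  have e : (A : Mt N) * (((A⁻¹ : SU N) : Mt N) * (C : Mt N) - z • ((B : Mt N) * ((D⁻¹ : SU N) : Mt N))) *
      (D : Mt N) = (-z) • ((A : Mt N) * (B : Mt N) - star z • ((C : Mt N) * (D : Mt N))) := by
    rw [su_inv, su_inv, Matrix.mul_sub, Matrix.sub_mul, ← Matrix.mul_assoc,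
      su_mul', Matrix.one_mul, smul_sub, smul_smul, neg_mul, hz2, neg_smul, neg_smul, one_smul,
      Matrix.mul_smul, Matrix.smul_mul, Matrix.mul_assoc (A : Mt N), Matrix.mul_assoc (B : Mt N),
      su_mul, Matrix.mul_one]
    abel
  rw [e, norm_smul, norm_neg, hz, one_mul]

lemma eP_rf (X : Cf N L) (z : ℂ) (hz : ‖z‖ = 1) (x1 x2 : ℤ) :
    eP (rf X) z (x1, x2) = eP X (star z) (-x1 - 1, x2) := by
  unfold eP
  refine Finset.sum_congr rfl fun y _ => ?_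
  have a1 : rf X (((x1, x2), y), 0) = (X (((-x1 - 1, x2), y), 0))⁻¹ := by
    rw [rf_eq, if_pos rfl]; simp [lr]
  have a2 : rf X (nx ((x1, x2), y) 0, 1) = X (((-x1 - 1, x2), y), 1) := by
    rw [rf_eq, if_neg (show (1 : Fin 4) ≠ 0 by decide), nx0]
    simp only [lr, Prod.mk_add_mk]
    rw [if_neg (show (1 : Fin 4) ≠ 0 by decide), show (-(x1 + 1) : ℤ) = -x1 - 1 by ring, add_zero]
  have a3 : rf X (((x1, x2), y), 1) = X (nx ((-x1 - 1, x2), y) 0, 1) := by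
    rw [rf_eq, if_neg (show (1 : Fin 4) ≠ 0 by decide), nx0]
    simp only [lr, Prod.mk_add_mk]
    rw [if_neg (show (1 : Fin 4) ≠ 0 by decide), show (-x1 - 1 + 1 : ℤ) = -x1 by ring, add_zero]
  have a4 : rf X (nx ((x1, x2), y) 1, 0) = (X (nx ((-x1 - 1, x2), y) 1, 0))⁻¹ := by
    rw [rf_eq, if_pos rfl]
    congr 2
    simp [lr, nx, pe]
  unfold df
  rw [a1, a2, a3, a4]
  rw [nrm_swapz z hz]

lemma wch_rf (hN : N ≠ 0) (β : ℝ) (c : ℕ) (x1 x2 : ℤ) (X : Cf N L) :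
    star (wch N β c (x1, x2) (rf X)) = wch N β c (-x1 - 1, x2) X := by
  unfold wch
  rw [Complex.star_def, map_div₀, map_sum, Complex.conj_natCast]
  refine congrArg (fun t : ℂ => t / (N : ℂ)) ?_
  rw [← sum_star hN (fun z => z ^ c * (Real.exp (-β * eP X z (-x1 - 1, x2)) : ℂ))]
  refine Finset.sum_congr rfl fun m _ => ?_
  rw [map_mul, map_pow, Complex.conj_ofReal, eP_rf X _ (PkgOA.om_norm N m), Complex.star_def]

lemma gw_rf (hN : N ≠ 0) (k : ℕ) (β : ℝ) (c : ℕ) (τ : Tm) (X : Cf N L) :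
    star (gw k β c τ (rf X)) = gw k β c (rt τ) X := by
  obtain ⟨⟨x1, x2⟩, i⟩ := τ
  by_cases h : i = 3
  · subst h
    rw [gw, if_pos rfl, wch_rf hN]
    rw [gw]
    simp [rt]
  · have h2 : (rt ((x1, x2), i)).2 ≠ 3 := by
      unfold rt
      split_ifs <;> exact h
    rw [gw, if_neg h, gw, if_neg h2, en1_rf, Complex.star_def, Complex.conj_ofReal]

/-! ### the geometry -/

lemma mem_rc (a p q : Pl) : a ∈ rc p q ↔ p.1 ≤ a.1 ∧ a.1 ≤ q.1 ∧ p.2 ≤ a.2 ∧ a.2 ≤ q.2 := by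
  rw [rc, Finset.mem_product, Finset.mem_Icc, Finset.mem_Icc]
  tauto

/-- all sites over `x.1 = 0` -/
def z0 (S : Finset Pl) : Prop := ∀ a ∈ S, a.1 = 0
/-- all sites over `x.1 ≥ 0`, not all over `x.1 = 0` -/
def zp (S : Finset Pl) : Prop := (∀ a ∈ S, 0 ≤ a.1) ∧ ∃ a ∈ S, 0 < a.1
/-- all sites over `x.1 ≤ 0`, not all over `x.1 = 0` -/
def zm (S : Finset Pl) : Prop := (∀ a ∈ S, a.1 ≤ 0) ∧ ∃ a ∈ S, a.1 < 0

lemma key (S : Finset Pl) (hS : ∀ a ∈ S, ∀ b ∈ S, near 1 a b) (y y' : ℤ) (r s : ℕ) :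
    (∃ a ∈ S, a ∈ rc (-r, y) (s, y')) ↔ (z0 S ∧ ∃ a ∈ S, a ∈ rc (0, y) (0, y')) ∨
      (zp S ∧ ∃ a ∈ S, a ∈ rc (0, y) (s, y')) ∨
      (zm S ∧ ∃ a ∈ S, (-a.1, a.2) ∈ rc (0, y) (r, y')) := by
  simp only [mem_rc]
  have tri : z0 S ∨ zp S ∨ zm S := by
    by_cases hp : ∃ a ∈ S, 0 < a.1
    · obtain ⟨a, ha, h0⟩ := hp
      refine Or.inr (Or.inl ⟨fun b hb => ?_, a, ha, h0⟩)
      have h1 := (hS a ha b hb).1
      rw [abs_le] at h1
      omega
    · by_cases hm : ∃ a ∈ S, a.1 < 0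
      · obtain ⟨a, ha, h0⟩ := hm
        refine Or.inr (Or.inr ⟨fun b hb => ?_, a, ha, h0⟩)
        have h1 := (hS a ha b hb).1
        rw [abs_le] at h1
        omega
      · refine Or.inl fun a ha => ?_
        push Not at hp hm
        have h1 := hp a ha
        have h2 := hm a ha
        omega
  constructor
  · rintro ⟨a, ha, h1, h2, h3, h4⟩
    rcases tri with t | t | t
    · refine Or.inl ⟨t, a, ha, ?_⟩
      have := t a ha
      refine ⟨?_, ?_, h3, h4⟩ <;> omega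
    · refine Or.inr (Or.inl ⟨t, a, ha, ?_⟩)
      have := t.1 a ha
      exact ⟨this, h2, h3, h4⟩
    · refine Or.inr (Or.inr ⟨t, a, ha, ?_⟩)
      have := t.1 a ha
      refine ⟨?_, ?_, h3, h4⟩ <;> omega
  · rintro (⟨_, a, ha, h1, h2, h3, h4⟩ | ⟨_, a, ha, h1, h2, h3, h4⟩ | ⟨_, a, ha, h1, h2, h3, h4⟩) <;>
      exact ⟨a, ha, by omega, by omega, h3, h4⟩

/-- the right half of the box -/
def bx (y y' : ℤ) (n : ℕ) : Finset Pl := rc (0, y) (n, y')

/-- terms over `x.1 = 0` -/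
def T0 (B : Finset Pl) : Finset Tm := (tml B).filter fun τ => ∀ a ∈ cor τ, a.1 = 0

/-- terms over `x.1 ≥ 0` -/
def Tp (B : Finset Pl) : Finset Tm :=
  (tml B).filter fun τ => (∀ a ∈ cor τ, 0 ≤ a.1) ∧ ∃ a ∈ cor τ, 0 < a.1

/-- links over `x.1 = 0` -/
def J0 (L : ℕ) [NeZero L] (B : Finset Pl) : Finset (Lk L) :=
  (Frl L B).filter fun l => ∀ a ∈ st l, a.1 = 0

lemma mem_T0 (B : Finset Pl) (τ : Tm) : τ ∈ T0 B ↔ z0 (cor τ) ∧ ∃ a ∈ cor τ, a ∈ B := by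
  rw [T0, Finset.mem_filter, mem_tml, and_comm]
  rfl

lemma mem_Tp (B : Finset Pl) (τ : Tm) : τ ∈ Tp B ↔ zp (cor τ) ∧ ∃ a ∈ cor τ, a ∈ B := by
  rw [Tp, Finset.mem_filter, mem_tml, and_comm]
  rfl

lemma mem_J0 (B : Finset Pl) (l : Lk L) : l ∈ J0 L B ↔ z0 (st l) ∧ ∃ a ∈ st l, a ∈ B := by
  rw [J0, Finset.mem_filter, mem_Frl, and_comm]
  rfl

lemma mem_Jp (B : Finset Pl) (l : Lk L) : l ∈ Jp L B ↔ zp (st l) ∧ ∃ a ∈ st l, a ∈ B := by
  rw [Jp, Finset.mem_filter, mem_Frl, and_comm]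
  rfl

lemma mem_imt (B : Finset Pl) (τ : Tm) : τ ∈ (Tp B).image rt ↔ rt τ ∈ Tp B := by
  rw [Finset.mem_image]
  constructor
  · rintro ⟨τ', h, rfl⟩
    rwa [rt_rt]
  · intro h
    exact ⟨_, h, rt_rt τ⟩

lemma refl_iff (S S' : Finset Pl) (h : ∀ a : Pl, a ∈ S' ↔ (-a.1, a.2) ∈ S) (B : Finset Pl) :
    (zp S' ∧ ∃ a ∈ S', a ∈ B) ↔ (zm S ∧ ∃ a ∈ S, (-a.1, a.2) ∈ B) := by
  have h' : ∀ a : Pl, (-a.1, a.2) ∈ S' ↔ a ∈ S := fun a => by rw [h]; simp
  constructor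
  · rintro ⟨⟨h1, a, ha, h2⟩, b, hb, h3⟩
    refine ⟨⟨fun e he => ?_, (-a.1, a.2), (h a).1 ha, ?_⟩, (-b.1, b.2), (h b).1 hb, by simpa using h3⟩
    · have := h1 _ ((h' e).2 he)
      simpa using this
    · simpa using h2
  · rintro ⟨⟨h1, a, ha, h2⟩, b, hb, h3⟩
    refine ⟨⟨fun e he => ?_, (-a.1, a.2), (h' a).2 ha, ?_⟩, (-b.1, b.2), (h' b).2 hb, h3⟩
    · have := h1 _ ((h e).1 he)
      simpa using this
    · simpa using h2

lemma tml_split (y y' : ℤ) (r s : ℕ) : tml (rc (-r, y) (s, y')) =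
    T0 (bx y y' 0) ∪ Tp (bx y y' s) ∪ (Tp (bx y y' r)).image rt := by
  ext τ
  rw [Finset.mem_union, Finset.mem_union, mem_imt, mem_T0, mem_Tp, mem_Tp, mem_tml,
    key _ (diam_cor τ), refl_iff (cor τ) (cor (rt τ)) (mem_cor_rt τ), or_assoc]
  simp only [bx, Nat.cast_zero]

lemma Frl_split (y y' : ℤ) (r s : ℕ) : Frl L (rc (-r, y) (s, y')) =
    J0 L (bx y y' 0) ∪ Jp L (bx y y' s) ∪ Jm L (bx y y' r) := by
  ext l
  have h1 : l ∈ Jm L (bx y y' r) ↔ lr L l ∈ Jp L (bx y y' r) := by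
    rw [← mem_Jm, lr_lr]
  rw [Finset.mem_union, Finset.mem_union, h1, mem_J0, mem_Jp, mem_Jp, mem_Frl,
    key _ (diam_st l), refl_iff (st l) (st (lr L l)) (mem_st_lr l), or_assoc]
  simp only [bx, Nat.cast_zero]

lemma z0_zp (S : Finset Pl) (h : z0 S) : ¬ zp S := by
  rintro ⟨_, a, ha, h0⟩
  rw [h a ha] at h0
  exact lt_irrefl _ h0

lemma z0_zm (S : Finset Pl) (h : z0 S) : ¬ zm S := by
  rintro ⟨_, a, ha, h0⟩
  rw [h a ha] at h0
  exact lt_irrefl _ h0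

lemma zp_zm (S : Finset Pl) (h : zp S) : ¬ zm S := by
  rintro ⟨_, a, ha, h0⟩
  have := h.1 a ha
  omega

lemma Jm_zm (B : Finset Pl) (l : Lk L) (h : l ∈ Jm L B) : zm (st l) := by
  have h1 : lr L l ∈ Jp L B := by rw [← mem_Jm, lr_lr]; exact h
  rw [mem_Jp, refl_iff (st l) (st (lr L l)) (mem_st_lr l)] at h1
  exact h1.1

/-- the product of the weights on the right -/
def Ps (k : ℕ) (β : ℝ) (c : ℕ) (B : Finset Pl) (X : Cf N L) : ℂ := ∏ τ ∈ Tp B, gw k β c τ X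

/-- the product of the weights in the middle -/
def P0 (k : ℕ) (β : ℝ) (B : Finset Pl) (X : Cf N L) : ℝ := ∏ τ ∈ T0 B, Real.exp (-β * en1 k X τ)

lemma T0_ne (B : Finset Pl) (τ : Tm) (h : τ ∈ T0 B) : τ.2 ≠ 3 := by
  intro h3
  obtain ⟨x, i⟩ := τ
  obtain rfl : i = 3 := h3
  rw [mem_T0] at h
  have h1 := h.1 x ((mem_cor3 _ _).2 (Or.inl rfl))
  have h2 := h.1 (x + (1, 0)) ((mem_cor3 _ _).2 (Or.inr (Or.inl rfl)))
  simp only [Prod.fst_add] at h2
  omega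

lemma P0_eq (k : ℕ) (β : ℝ) (c : ℕ) (B : Finset Pl) (X : Cf N L) :
    ((P0 k β B X : ℝ) : ℂ) = ∏ τ ∈ T0 B, gw k β c τ X := by
  unfold P0
  rw [Complex.ofReal_prod]
  refine Finset.prod_congr rfl fun τ hτ => ?_
  rw [gw, if_neg (T0_ne B τ hτ)]

lemma prod_split (hN : N ≠ 0) (k : ℕ) (β : ℝ) (c : ℕ) (y y' : ℤ) (r s : ℕ) (X : Cf N L) :
    ∏ τ ∈ tml (rc (-r, y) (s, y')), gw k β c τ X =
      ((P0 k β (bx y y' 0) X : ℝ) : ℂ) * Ps k β c (bx y y' s) X *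
        star (Ps k β c (bx y y' r) (rf X)) := by
  have d1 : Disjoint (T0 (bx y y' 0)) (Tp (bx y y' s)) := by
    rw [Finset.disjoint_left]
    intro τ h1 h2
    rw [mem_T0] at h1
    rw [mem_Tp] at h2
    exact z0_zp _ h1.1 h2.1
  have d2 : Disjoint (T0 (bx y y' 0) ∪ Tp (bx y y' s)) ((Tp (bx y y' r)).image rt) := by
    rw [Finset.disjoint_left]
    intro τ h1 h2
    rw [mem_imt, mem_Tp, refl_iff (cor τ) (cor (rt τ)) (mem_cor_rt τ)] at h2
    rw [Finset.mem_union, mem_T0, mem_Tp] at h1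
    rcases h1 with h1 | h1
    · exact z0_zm _ h1.1 h2.1
    · exact zp_zm _ h1.1 h2.1
  have hinj : ∀ a ∈ Tp (bx y y' r), ∀ b ∈ Tp (bx y y' r), rt a = rt b → a = b := by
    intro a _ b _ h
    rw [← rt_rt a, h, rt_rt]
  have e : ∏ τ ∈ (Tp (bx y y' r)).image rt, gw k β c τ X =
      star (Ps k β c (bx y y' r) (rf X)) := by
    rw [Finset.prod_image hinj, Ps, Complex.star_def, map_prod]
    exact Finset.prod_congr rfl fun τ _ => (gw_rf hN k β c τ X).symm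
  rw [tml_split, Finset.prod_union d2, Finset.prod_union d1, ← P0_eq k β c, e]
  rfl

lemma Ps_loc (k : ℕ) (β : ℝ) (c : ℕ) (B : Finset Pl) (X Y : Cf N L)
    (h : ∀ l, (∀ a ∈ st l, 0 ≤ a.1) → X l = Y l) : Ps k β c B X = Ps k β c B Y := by
  unfold Ps
  refine Finset.prod_congr rfl fun τ hτ => gw_loc k β c τ X Y fun l hl => h l fun a ha => ?_
  rw [mem_Tp] at hτ
  exact hτ.1.1 a ((cor_iff τ a).2 ⟨l, hl, ha⟩)

lemma Ps_meas (k : ℕ) (β : ℝ) (c : ℕ) (B : Finset Pl) :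
    Measurable fun X : Cf N L => Ps k β c B X :=
  Finset.measurable_prod _ fun τ _ => gw_meas k β c τ

lemma Ps_norm (hN : 0 < N) (k : ℕ) {β : ℝ} (hβ : 0 ≤ β) (c : ℕ) (B : Finset Pl) (X : Cf N L) :
    ‖Ps k β c B X‖ ≤ 1 :=
  PkgOA.prod_norm_le _ _ fun τ _ => gw_norm hN k hβ c τ X

lemma rf_vc (P Q : SU N) : rf (vc P Q : Cf N L) = vc P Q := by
  funext l
  obtain ⟨⟨⟨x1, x2⟩, y⟩, i⟩ := l
  unfold rf vc
  by_cases h : i = 0
  · subst h
    simp
  · simp [h]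

lemma rf_mid (P Q : SU N) (B : Finset Pl) (ξ : Cf N L) :
    rf (glue (J0 L B) ξ (vc P Q)) = glue (J0 L B) ξ (vc P Q) := by
  funext l
  by_cases h : z0 (st l)
  · exact rf_zero _ l h
  · have h1 : l ∉ J0 L B := fun h2 => h ((mem_J0 _ _).1 h2).1
    have h2 : lr L l ∉ J0 L B := by
      intro h3
      apply h
      intro a ha
      have h4 : (-a.1, a.2) ∈ st (lr L l) := by rw [mem_st_lr]; simpa using ha
      have := ((mem_J0 _ _).1 h3).1 _ h4
      simpa using this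
    have h3 := congrFun (rf_vc P Q : rf (vc P Q : Cf N L) = vc P Q) l
    rw [rf_eq] at h3 ⊢
    unfold glue
    rw [if_neg h1, if_neg h2]
    exact h3

lemma int_rfC (Φ : Cf N L → ℂ) : ∫ X, Φ (rf X) ∂(pm N L) = ∫ X, Φ X ∂(pm N L) := by
  have h := integral_map_equiv (μ := pm N L) (erf N L) Φ
  have h2 : (pm N L).map (erf N L) = pm N L := map_rf
  rw [h2] at h
  exact h.symm

end PkgRX

open PkgRX PkgRP in
theorem pRX (hRC : S_RC) : S_RX := by
  intro N k L _ hN P Q β hβ c y y' _ r s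
  have hN0 : 0 < N := by omega
  have hN1 : N ≠ 0 := by omega
  set n : Fin 2 → ℕ := ![s, r] with hn
  have h := hRC (Lk L) (SU N) (hm N) (J0 L (bx y y' 0)) (fun i => Jp L (bx y y' (n i)))
    (fun i => Jm L (bx y y' (n i))) (fun X => P0 k β (bx y y' 0) X)
    (fun i X => Ps k β c (bx y y' (n i)) X) (fun i X => star (Ps k β c (bx y y' (n i)) (rf X)))
    (vc P Q)
    (Finset.measurable_prod _ fun τ _ => (measurable_const.mul (en1_cont k τ).measurable).exp)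
    (fun X => ⟨Finset.prod_nonneg fun τ _ => (Real.exp_pos _).le,
      Finset.prod_le_one (fun τ _ => (Real.exp_pos _).le) fun τ _ => Real.exp_le_one_iff.2 (by
        have := en1_nonneg k X τ
        nlinarith)⟩)
    (fun i => ⟨Ps_meas k β c _, (Complex.continuous_conj.measurable).comp ((Ps_meas k β c _).comp rf_meas),
      fun X => Ps_norm hN0 k hβ c _ X, fun X => by
        rw [norm_star]
        exact Ps_norm hN0 k hβ c _ _⟩)
    (fun i j => by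
      rw [Finset.disjoint_left]
      intro l h1 h2
      exact zp_zm _ ((mem_Jp _ _).1 h1).1 (Jm_zm _ _ h2))
    (fun i => ⟨by
      rw [Finset.disjoint_left]
      intro l h1 h2
      exact z0_zp _ ((mem_J0 _ _).1 h1).1 ((mem_Jp _ _).1 h2).1, by
      rw [Finset.disjoint_left]
      intro l h1 h2
      exact z0_zm _ ((mem_J0 _ _).1 h1).1 (Jm_zm _ _ h2)⟩)
    (fun i ω ω' hω => by
      unfold P0
      refine Finset.prod_congr rfl fun τ hτ => ?_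
      rw [en1_loc k τ ω ω']
      intro l hl
      have h0 : z0 (st l) := fun a ha => ((mem_T0 _ _).1 hτ).1 a ((cor_iff τ a).2 ⟨l, hl, ha⟩)
      exact hω l ⟨fun h1 => z0_zp _ h0 ((mem_Jp _ _).1 h1).1, fun h1 => z0_zm _ h0 (Jm_zm _ _ h1)⟩)
    (fun i j => ⟨fun ω ω' hω => Ps_loc k β c _ _ _ fun l hl => hω l fun h1 => by
      obtain ⟨a, ha, h0⟩ := (Jm_zm _ _ h1).2
      have := hl a ha
      omega, fun ω ω' hω => by
      refine congrArg star (Ps_loc k β c _ _ _ fun l hl => ?_)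
      rw [rf_eq, rf_eq, hω (lr L l) fun h1 => ?_]
      obtain ⟨a, ha, h0⟩ := ((mem_Jp _ _).1 h1).1.2
      rw [mem_st_lr] at ha
      have := hl _ ha
      simp only at this
      omega⟩)
    (fun i ξ => by
      set g : Cf N L := glue (J0 L (bx y y' 0)) ξ (vc P Q) with hg
      have hg2 : rf g = g := rf_mid P Q _ ξ
      have e1 : ∀ ζ : Cf N L, star (Ps k β c (bx y y' (n i)) (rf (glue (Jm L (bx y y' (n i))) ζ g))) =
          star (Ps k β c (bx y y' (n i)) (glue (Jp L (bx y y' (n i))) (rf ζ) g)) := by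
        intro ζ
        rw [rf_glue, hg2]
      simp only [e1]
      rw [int_rfC (fun ζ : Cf N L => star (Ps k β c (bx y y' (n i)) (glue (Jp L (bx y y' (n i))) ζ g)))]
      exact integral_conj)
    (fun i j => ∫ ξ, ((P0 k β (bx y y' 0) (glue (J0 L (bx y y' 0) ∪ Jp L (bx y y' (n i)) ∪
        Jm L (bx y y' (n j))) ξ (vc P Q)) : ℝ) : ℂ) *
      Ps k β c (bx y y' (n i)) (glue (J0 L (bx y y' 0) ∪ Jp L (bx y y' (n i)) ∪
        Jm L (bx y y' (n j))) ξ (vc P Q)) *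
      star (Ps k β c (bx y y' (n j)) (rf (glue (J0 L (bx y y' 0) ∪ Jp L (bx y y' (n i)) ∪
        Jm L (bx y y' (n j))) ξ (vc P Q)))) ∂(pm N L)) (fun i j => rfl)
  have e : ∀ i j : Fin 2, Zc k β c (rc (-(n j : ℤ), y) (n i, y')) (vc P Q : Cf N L) =
      ∫ ξ, ((P0 k β (bx y y' 0) (glue (J0 L (bx y y' 0) ∪ Jp L (bx y y' (n i)) ∪
        Jm L (bx y y' (n j))) ξ (vc P Q)) : ℝ) : ℂ) *
      Ps k β c (bx y y' (n i)) (glue (J0 L (bx y y' 0) ∪ Jp L (bx y y' (n i)) ∪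
        Jm L (bx y y' (n j))) ξ (vc P Q)) *
      star (Ps k β c (bx y y' (n j)) (rf (glue (J0 L (bx y y' 0) ∪ Jp L (bx y y' (n i)) ∪
        Jm L (bx y y' (n j))) ξ (vc P Q)))) ∂(pm N L) := by
    intro i j
    rw [Zc_eq, Frl_split]
    exact integral_congr_ae (Filter.Eventually.of_forall fun ξ => prod_split hN1 k β c y y' _ _ _)
  simp only [← e] at h
  have hn0 : n 0 = s := rfl
  have hn1 : n 1 = r := rfl
  rw [hn0, hn1, mul_comm] at h
  exact h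

end T2H01.SE
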