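import Pool.Agent.T2H01.SE.Stm2
import Pool.Agent.T2H02.TT.DT

/-!
# Package SP: the vortex action is positive
-/

set_option autoImplicit false
set_option linter.unusedSectionVars false

noncomputable section

open MeasureTheory Matrix
open scoped Matrix.Norms.Frobenius

namespace T2H01.SE

open T2H02.TT

namespace PkgSP

open T2H02.TT.PkgDT

variable {N L : ℕ} [NeZero L]

/-! ### combinatorics of rectangles -/

lemma tele (F : ℤ → ℤ) (a b : ℤ) (h : a ≤ b) :
    ∑ i ∈ Finset.Icc a b, (F (i + 1) - F i) = F (b + 1) - F a := by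
  induction b, h using Int.leInduction with
  | base => simp
  | succ b hb ih =>
    have h1 : Finset.Icc a (b + 1) = insert (b + 1) (Finset.Icc a b) := by
      ext i
      simp only [Finset.mem_insert, Finset.mem_Icc]
      omega
    rw [h1, Finset.sum_insert (by simp), ih]
    ring

lemma mem_rc (a b x : Pl) : x ∈ rc a b ↔ (a.1 ≤ x.1 ∧ x.1 ≤ b.1) ∧ (a.2 ≤ x.2 ∧ x.2 ≤ b.2) := by
  rw [rc, Finset.mem_product, Finset.mem_Icc, Finset.mem_Icc]

lemma cl_rc (a b : Pl) (h1 : a.1 ≤ b.1) (h2 : a.2 ≤ b.2) : cl (rc a b) = rc (a - (1, 1)) b := by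
  ext x
  rw [mem_cl, mem_rc]
  simp only [mem_cor3, Prod.fst_sub, Prod.snd_sub]
  constructor
  · rintro ⟨c, rfl | rfl | rfl | rfl, hc⟩ <;> rw [mem_rc] at hc <;>
      (try simp only [Prod.fst_add, Prod.snd_add] at hc) <;> omega
  · intro h
    by_cases k1 : x.1 < a.1
    · by_cases k2 : x.2 < a.2
      · refine ⟨x + (1, 1), by tauto, ?_⟩
        rw [mem_rc]; simp only [Prod.fst_add, Prod.snd_add]; omega
      · refine ⟨x + (1, 0), by tauto, ?_⟩
        rw [mem_rc]; simp only [Prod.fst_add, Prod.snd_add]; omega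
    · by_cases k2 : x.2 < a.2
      · refine ⟨x + (0, 1), by tauto, ?_⟩
        rw [mem_rc]; simp only [Prod.fst_add, Prod.snd_add]; omega
      · refine ⟨x, by tauto, ?_⟩
        rw [mem_rc]; omega

/-- the total curl of a function which vanishes outside the rectangle -/
lemma ring_sum (a b : Pl) (h1 : a.1 ≤ b.1) (h2 : a.2 ≤ b.2) (δ : Pl → Fin 4 → ℤ)
    (h : ∀ x, ∀ m : Fin 4, (m = 0 ∨ m = 1) → x ∉ rc a b → x + pe m ∉ rc a b → δ x m = 0) :
    ∑ x ∈ cl (rc a b), (δ x 1 + δ (x + (0, 1)) 0 - δ x 0 - δ (x + (1, 0)) 1) = 0 := by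
  rw [cl_rc a b h1 h2]
  have e1 : ∑ x ∈ rc (a - (1, 1)) b, (δ (x + (0, 1)) 0 - δ x 0) = 0 := by
    rw [rc, Finset.sum_product]
    refine Finset.sum_eq_zero fun i hi => ?_
    rw [Finset.mem_Icc] at hi
    simp only [Prod.fst_sub, Prod.snd_sub] at hi ⊢
    have h3 := tele (fun j => δ (i, j) 0) (a.2 - 1) b.2 (by omega)
    have h4 : ∀ j : ℤ, ((i, j) : Pl) + (0, 1) = (i, j + 1) := by
      intro j; simp
    simp only [h4]
    rw [h3]
    have hp : (pe 0 : Pl) = (1, 0) := rfl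
    rw [h (i, b.2 + 1) 0 (Or.inl rfl), h (i, a.2 - 1) 0 (Or.inl rfl)]
    · simp
    all_goals
      rw [mem_rc]
      simp only [hp, Prod.mk_add_mk]
      omega
  have e2 : ∑ x ∈ rc (a - (1, 1)) b, (δ (x + (1, 0)) 1 - δ x 1) = 0 := by
    rw [rc, Finset.sum_product_right]
    refine Finset.sum_eq_zero fun i hi => ?_
    rw [Finset.mem_Icc] at hi
    simp only [Prod.fst_sub, Prod.snd_sub] at hi ⊢
    have h3 := tele (fun j => δ (j, i) 1) (a.1 - 1) b.1 (by omega)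
    have h4 : ∀ j : ℤ, ((j, i) : Pl) + (1, 0) = (j + 1, i) := by
      intro j; simp
    simp only [h4]
    rw [h3]
    have hp : (pe 1 : Pl) = (0, 1) := rfl
    rw [h (b.1 + 1, i) 1 (Or.inr rfl), h (a.1 - 1, i) 1 (Or.inr rfl)]
    · simp
    all_goals
      rw [mem_rc]
      simp only [hp, Prod.mk_add_mk]
      omega
  have e3 : ∑ x ∈ rc (a - (1, 1)) b, (δ x 1 + δ (x + (0, 1)) 0 - δ x 0 - δ (x + (1, 0)) 1) =
      ∑ x ∈ rc (a - (1, 1)) b, (δ (x + (0, 1)) 0 - δ x 0) -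
        ∑ x ∈ rc (a - (1, 1)) b, (δ (x + (1, 0)) 1 - δ x 1) := by
    rw [← Finset.sum_sub_distrib]
    refine Finset.sum_congr rfl fun x _ => ?_
    ring
  rw [e3, e1, e2, sub_zero]

/-! ### the plaquette equation -/

lemma cen_coe (ν : ℕ) (g : SU N) : ((cen N ν * g : SU N) : Mt N) = om N ν • (g : Mt N) := by
  rw [PkgD.cmul]
  show (om N ν • (1 : Mt N)) * (g : Mt N) = _
  rw [smul_mul_assoc, one_mul]

lemma plaq (hN : 2 ≤ N) {c s ε : ℝ} (h : ∀ a b : ℕ, om N a ≠ om N b → c ≤ ‖om N a - om N b‖)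
    (G : Ph N L → Tor L → SU N) (X : Cf N L) (x : Pl) (hs : Real.sqrt (2 * ε) + 4 * s < c)
    (ν n1 n2 n3 n4 : ℕ)
    (h1 : ∀ y, ‖(gl G X x 0 y : Mt N) - om N n1 • (1 : Mt N)‖ ≤ s)
    (h2 : ∀ y, ‖(gl G X (x + pe 0) 1 y : Mt N) - om N n2 • (1 : Mt N)‖ ≤ s)
    (h3 : ∀ y, ‖(gl G X x 1 y : Mt N) - om N n3 • (1 : Mt N)‖ ≤ s)
    (h4 : ∀ y, ‖(gl G X (x + pe 1) 0 y : Mt N) - om N n4 • (1 : Mt N)‖ ≤ s)
    (h5 : eP X (om N ν) x ≤ ε) : om N n1 * om N n2 = om N ν * om N n3 * om N n4 := by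
  have hN0 : N ≠ 0 := by omega
  have h3' : ‖((cen N ν * gl G X x 1 0 : SU N) : Mt N) - (om N ν * om N n3) • (1 : Mt N)‖ ≤ s := by
    rw [cen_coe, mul_smul, ← smul_sub, norm_smul, PkgD.om_norm, one_mul]
    exact h3 0
  have hy := four hN (gl G X x 0 0) (gl G X (x + pe 0) 1 0) (cen N ν * gl G X x 1 0)
    (gl G X (x + pe 1) 0 0) (om N n1) (om N n2) (om N ν * om N n3) (om N n4) (PkgD.om_norm _ _)
    (by rw [norm_mul, PkgD.om_norm, PkgD.om_norm, one_mul]) (h1 0) (h2 0) h3' (h4 0)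
    (t := Real.sqrt (2 * ε)) (by
      have e1 : gl G X x 0 0 * gl G X (x + pe 0) 1 0 =
          G (pt X x) 0 * (X ((x, 0), 0) * X ((x + pe 0, 0), 1)) *
            (G (pt X (x + pe 0 + pe 1)) 0)⁻¹ := by
        simp only [gl]
        group
      have e2 : gl G X x 1 0 * gl G X (x + pe 1) 0 0 =
          G (pt X x) 0 * (X ((x, 0), 1) * X ((x + pe 1, 0), 0)) *
            (G (pt X (x + pe 0 + pe 1)) 0)⁻¹ := by
        rw [show x + pe 0 + pe 1 = x + pe 1 + pe 0 by abel]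
        simp only [gl]
        group
      rw [mul_assoc (cen N ν), cen_coe, e1, e2]
      have e3 : ((G (pt X x) 0 * (X ((x, 0), 0) * X ((x + pe 0, 0), 1)) *
            (G (pt X (x + pe 0 + pe 1)) 0)⁻¹ : SU N) : Mt N) -
          om N ν • ((G (pt X x) 0 * (X ((x, 0), 1) * X ((x + pe 1, 0), 0)) *
            (G (pt X (x + pe 0 + pe 1)) 0)⁻¹ : SU N) : Mt N) =
          (G (pt X x) 0 : Mt N) * df X (om N ν) (x, 0) 0 1 *
            (((G (pt X (x + pe 0 + pe 1)) 0)⁻¹ : SU N) : Mt N) := by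
        unfold df
        rw [nxm (Or.inl rfl), nxm (Or.inr rfl)]
        simp only [PkgD.cmul]
        rw [mul_sub, sub_mul, mul_smul_comm, smul_mul_assoc]
      rw [e3, PkgD.nr, PkgD.nl]
      apply Real.le_sqrt_of_sq_le
      have e4 : ‖df X (om N ν) (x, 0) 0 1‖ ^ 2 / 2 ≤ eP X (om N ν) x := by
        unfold eP
        exact Finset.single_le_sum (f := fun y : Tor L => ‖df X (om N ν) (x, y) 0 1‖ ^ 2 / 2)
          (fun y _ => by positivity) (Finset.mem_univ 0)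
      linarith)
  by_contra hne
  rw [← PkgJ.om_add hN0, ← PkgJ.om_add hN0, ← PkgJ.om_add hN0] at hne hy
  have := h _ _ hne
  linarith

/-- configurations of small energy have no flux -/
lemma core (k : ℕ) (hN : 2 ≤ N) (P Q : SU N)
    (hoz : (∀ a b : ℤ, oz N (a + b) = oz N a * oz N b) ∧ (∀ a : ℤ, oz N a = 1 ↔ (N : ℤ) ∣ a) ∧
      (∀ n : ℕ, oz N (n : ℤ) = om N n) ∧ (∀ a : ℤ, ‖oz N a‖ = 1) ∧
      (∀ a b : ℤ, (N : ℤ) ∣ a - b → oz N a = oz N b))
    {C1 C2 : ℝ} (hC1 : 0 < C1) (hC2 : 0 < C2)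
    (h1 : ∀ φ : Ph N L, ∃ g : Tor L → SU N, dst (act g φ) (vac P Q) ≤ C1 * VV k φ)
    (h2 : ∀ (φ ψ : Ph N L) (U : Tor L → SU N) (e : ℝ), dst φ (vac P Q) ≤ e →
      dst ψ (vac P Q) ≤ e →
      ∑ y, ∑ j, ‖(U y : Mt N) * (ψ y j : Mt N) - (φ y j : Mt N) * (U (tsh y j) : Mt N)‖ ^ 2 ≤ e →
      ∃ m : Fin N, ∑ y, ‖(U y : Mt N) - om N m • (1 : Mt N)‖ ^ 2 ≤ C2 * e) :
    ∃ ε : ℝ, 0 < ε ∧ ∀ (n : ℤ) (U : Finset Pl) (X : Cf N L),
      (∀ l, l ∉ Frl L U → X l = vc P Q l) → (∀ τ, enf k (dl 0 n) X τ ≤ ε) → (N : ℤ) ∣ n := by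
  classical
  have hN0 : N ≠ 0 := by omega
  obtain ⟨c, hc, -, hgap⟩ := PkgDT.gap hN
  choose g hg using h1
  set G : Ph N L → Tor L → SU N := fun φ => if φ = vac P Q then 1 else g φ with hGdef
  have hGv : G (vac P Q) = 1 := if_pos rfl
  have hG : ∀ φ : Ph N L, dst (act (G φ) φ) (vac P Q) ≤ C1 * VV k φ := by
    intro φ
    by_cases h : φ = vac P Q
    · rw [h, hGv]
      have h3 : act (1 : Tor L → SU N) (vac P Q) = vac P Q := by
        funext y j
        simp [act]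
      rw [h3]
      have h4 : dst (vac P Q : Ph N L) (vac P Q) = 0 := by
        unfold dst
        simp
      rw [h4]
      refine mul_nonneg hC1.le ?_
      unfold VV
      exact Finset.sum_nonneg fun y _ => by positivity
    · have : G φ = g φ := if_neg h
      rw [this]
      exact hg φ
  set K : ℝ := C2 * (C1 + 2) with hK
  have hKp : 0 < K := by positivity
  set M : ℝ := Real.sqrt 2 + 4 * Real.sqrt K with hM
  have hMp : 0 < M := by positivity
  set r : ℝ := c / (2 * M) with hr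
  have hrp : 0 < r := by positivity
  refine ⟨r ^ 2, by positivity, ?_⟩
  intro n U X hX hE
  have hpt : ∀ x : Pl, x ∉ U → pt X x = vac P Q := by
    intro x hx
    funext y j
    unfold pt
    rw [hX]
    · fin_cases j <;> simp [vc]
    · intro hF
      obtain ⟨d, hd, hdU⟩ := (mem_Frl _ _).1 hF
      rw [mem_st] at hd
      have hd' : d = x := by
        rcases hd with rfl | rfl
        · rfl
        · split_ifs <;> simp [pe, h00]
      rw [hd'] at hdU
      exact hx hdU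
  have hV : ∀ x, eV k X x ≤ r ^ 2 := fun x => by
    have := hE (x, 0)
    simpa [enf, en1] using this
  have hEK : ∀ x, ∀ m : Fin 4, (m = 0 ∨ m = 1) → eK X x m ≤ r ^ 2 := by
    intro x m hm
    rcases hm with rfl | rfl
    · have := hE (x, 1)
      simpa [enf, en1] using this
    · have := hE (x, 2)
      simpa [enf, en1] using this
  have hlink : ∀ x, ∀ m : Fin 4, (m = 0 ∨ m = 1) →
      ∃ i : Fin N, ∑ y, ‖(gl G X x m y : Mt N) - om N i • (1 : Mt N)‖ ^ 2 ≤ K * r ^ 2 := by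
    intro x m hm
    have b : ∀ z : Pl, dst (act (G (pt X z)) (pt X z)) (vac P Q) ≤ (C1 + 2) * r ^ 2 := by
      intro z
      have h3 := hV z
      rw [PkgG1.eV_eq] at h3
      have h4 := hG (pt X z)
      nlinarith [sq_nonneg r]
    have := h2 _ _ (gl G X x m) ((C1 + 2) * r ^ 2) (b x) (b (x + pe m)) (by
      rw [eK_sum G X x hm]
      have := hEK x m hm
      nlinarith [sq_nonneg r])
    rw [hK, mul_assoc]
    exact this
  set j : Pl → Fin 4 → ℕ := fun x m => if ∀ y, gl G X x m y = 1 then 0 else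
    if h : ∃ i : Fin N, ∑ y, ‖(gl G X x m y : Mt N) - om N i • (1 : Mt N)‖ ^ 2 ≤ K * r ^ 2
    then (h.choose : ℕ) else 0 with hj
  have hjs : ∀ x, ∀ m : Fin 4, (m = 0 ∨ m = 1) → ∀ y,
      ‖(gl G X x m y : Mt N) - om N (j x m) • (1 : Mt N)‖ ≤ Real.sqrt K * r := by
    intro x m hm y
    by_cases h3 : ∀ y, gl G X x m y = 1
    · have h4 : j x m = 0 := if_pos h3
      rw [h4, h3 y, PkgLL.om_zero, one_smul, PkgD.cone, sub_self, norm_zero]
      positivity
    · have h5 := hlink x m hm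
      have h4 : j x m = (h5.choose : ℕ) := by
        rw [hj]
        simp only
        rw [if_neg h3, dif_pos h5]
      rw [h4]
      have h6 := h5.choose_spec
      have h7 : ‖(gl G X x m y : Mt N) - om N (h5.choose : ℕ) • (1 : Mt N)‖ ^ 2 ≤ K * r ^ 2 :=
        (Finset.single_le_sum (f := fun y => ‖(gl G X x m y : Mt N) -
          om N (h5.choose : ℕ) • (1 : Mt N)‖ ^ 2) (fun y _ => by positivity)
          (Finset.mem_univ y)).trans h6
      have h8 : (Real.sqrt K * r) ^ 2 = K * r ^ 2 := by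
        rw [mul_pow, Real.sq_sqrt hKp.le]
      exact abs_le_of_sq_le_sq' (by rw [h8]; exact h7) (by positivity) |>.2
  have hs : Real.sqrt (2 * r ^ 2) + 4 * (Real.sqrt K * r) < c := by
    rw [Real.sqrt_mul (by norm_num), Real.sqrt_sq hrp.le]
    have h3 : Real.sqrt 2 * r + 4 * (Real.sqrt K * r) = M * r := by
      rw [hM]; ring
    rw [h3, hr]
    have h4 : M * (c / (2 * M)) = c / 2 := by
      field_simp
    rw [h4]
    linarith
  -- the plaquette equations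
  have hcell : ∀ x : Pl, (N : ℤ) ∣ dl 0 n x +
      ((j x 1 : ℤ) + j (x + (0, 1)) 0 - j x 0 - j (x + (1, 0)) 1) := by
    intro x
    set ν := ((dl 0 n x) % N).toNat with hν
    have hν' : ((ν : ℕ) : ℤ) = (dl 0 n x) % N :=
      Int.toNat_of_nonneg (Int.emod_nonneg _ (by exact_mod_cast hN0))
    have hν2 : oz N (dl 0 n x) = om N ν := by
      rw [← hoz.2.2.1 ν, hν']
      refine hoz.2.2.2.2 _ _ ?_
      exact Int.dvd_self_sub_emod
    have h5 : eP X (om N ν) x ≤ r ^ 2 := by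
      have := hE (x, 3)
      rw [← hν2]
      simpa [enf] using this
    have h6 := plaq hN (fun a b hab => (hgap a b hab).2) G X x hs ν (j x 0) (j (x + pe 0) 1)
      (j x 1) (j (x + pe 1) 0) (hjs x 0 (Or.inl rfl)) (hjs _ 1 (Or.inr rfl))
      (hjs x 1 (Or.inr rfl)) (hjs _ 0 (Or.inl rfl)) h5
    have hp0 : (pe 0 : Pl) = (1, 0) := rfl
    have hp1 : (pe 1 : Pl) = (0, 1) := rfl
    rw [hp0, hp1] at h6
    rw [← hoz.2.1]
    have h7 : oz N ((j x 0 : ℤ) + j (x + (1, 0)) 1) ≠ 0 := by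
      rw [← norm_ne_zero_iff, hoz.2.2.2.1]
      norm_num
    apply mul_right_cancel₀ h7
    rw [← hoz.1, one_mul, show dl 0 n x +
      ((j x 1 : ℤ) + j (x + (0, 1)) 0 - j x 0 - j (x + (1, 0)) 1) +
        ((j x 0 : ℤ) + j (x + (1, 0)) 1) = dl 0 n x + j x 1 + j (x + (0, 1)) 0 by ring,
      hoz.1, hoz.1, hoz.1, hν2, hoz.2.2.1, hoz.2.2.1, hoz.2.2.1, hoz.2.2.1, h6]
  -- a large square
  obtain ⟨R, hR⟩ : ∃ R : ℕ, ∀ u ∈ U, |u.1| ≤ R ∧ |u.2| ≤ R := by
    refine ⟨U.sup fun u => (|u.1| + |u.2|).toNat, fun u hu => ?_⟩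
    have h3 := Finset.le_sup (f := fun u : Pl => (|u.1| + |u.2|).toNat) hu
    have h4 := abs_nonneg u.1
    have h5 := abs_nonneg u.2
    omega
  have hsum := ring_sum (-(R : ℤ), -(R : ℤ)) ((R : ℤ), (R : ℤ)) (by simp) (by simp)
    (fun x m => (j x m : ℤ)) (by
      intro x m hm hx hx'
      have hnU : ∀ z : Pl, z ∉ rc (-(R : ℤ), -(R : ℤ)) ((R : ℤ), (R : ℤ)) → z ∉ U := by
        intro z hz hzU
        apply hz
        obtain ⟨k1, k2⟩ := hR z hzU
        rw [abs_le] at k1 k2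
        rw [mem_rc]
        exact ⟨⟨k1.1, k1.2⟩, k2.1, k2.2⟩
      have h3 : ∀ y, gl G X x m y = 1 := by
        intro y
        unfold gl
        rw [hpt x (hnU x hx), hpt _ (hnU _ hx'), hGv]
        have h4 : X ((x, y), m) = 1 := by
          rw [hX]
          · rcases hm with rfl | rfl <;> simp [vc]
          · intro hF
            obtain ⟨d, hd, hdU⟩ := (mem_Frl _ _).1 hF
            rw [mem_st] at hd
            rcases hd with rfl | rfl
            · exact hnU _ hx hdU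
            · exact hnU _ hx' hdU
        rw [h4]
        simp
      have h4 : j x m = 0 := if_pos h3
      rw [h4]
      rfl)
  have h0 : (0 : Pl) ∈ cl (rc (-(R : ℤ), -(R : ℤ)) ((R : ℤ), (R : ℤ))) := by
    rw [mem_cl]
    refine ⟨0, (mem_cor3 0 0).2 (Or.inl rfl), ?_⟩
    rw [mem_rc]
    simp
  have h3 : (N : ℤ) ∣ ∑ x ∈ cl (rc (-(R : ℤ), -(R : ℤ)) ((R : ℤ), (R : ℤ))), (dl 0 n x +
      ((j x 1 : ℤ) + j (x + (0, 1)) 0 - j x 0 - j (x + (1, 0)) 1)) :=
    Finset.dvd_sum fun x _ => hcell x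
  rw [Finset.sum_add_distrib, hsum, add_zero] at h3
  have h4 : ∑ x ∈ cl (rc (-(R : ℤ), -(R : ℤ)) ((R : ℤ), (R : ℤ))), dl 0 n x = n := by
    unfold dl
    rw [Finset.sum_ite_eq' _ 0, if_pos h0]
  rwa [h4] at h3

end PkgSP

open PkgSP in
theorem pSP (hD1 : S_D1) (hJ : S_J) (hVA : S_VA) (hVL : S_VL) : S_SP := by
  intro N k L _ hN hk P Q hPQ
  obtain ⟨hz1, hz2, hz3, hz4, hz5, -, -, -⟩ := hVA N k L hN
  obtain ⟨-, hV, -⟩ := hVL N k L hN hk P Q hPQ
  obtain ⟨C1, hC1, h1⟩ := hD1 N k L hN hk P Q hPQ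
  obtain ⟨C2, hC2, h2⟩ := hJ N k L hN hk P Q hPQ
  obtain ⟨ε, hε, hcore⟩ := core k hN P Q ⟨hz1, hz2, hz3, hz4, hz5⟩ hC1 hC2 h1 h2
  have hbdd : BddBelow (vset L k P Q) := by
    refine ⟨0, ?_⟩
    rintro e ⟨m, V, Y, -, -, -, rfl⟩
    exact Finset.sum_nonneg fun τ _ => enf_nonneg _ _ _ _
  have hmem : EE k (dl 0 1) {0} (vc P Q : Cf N L) ∈ vset L k P Q := by
    refine ⟨1, {0}, vc P Q, ?_, Finset.mem_singleton_self _, fun l _ => rfl, rfl⟩
    intro h
    have := Int.le_of_dvd one_pos h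
    omega
  have h0U : ∀ U : Finset Pl, (0 : Pl) ∈ U → ((0 : Pl), (3 : Fin 4)) ∈ tml U := fun U h =>
    (mem_tml _ _).2 ⟨0, (mem_cor3 0 0).2 (Or.inl rfl), h⟩
  constructor
  · refine lt_of_lt_of_le hε (le_csInf ⟨_, hmem⟩ ?_)
    rintro e ⟨n, U, X, hn, hU, hX, rfl⟩
    by_contra hlt
    push Not at hlt
    apply hn
    refine hcore n U X hX fun τ => ?_
    by_cases hτ : τ ∈ tml U
    · have : enf k (dl 0 n) X τ ≤ EE k (dl 0 n) U X :=
        Finset.single_le_sum (f := fun τ => enf k (dl 0 n) X τ)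
          (fun τ _ => enf_nonneg _ _ _ _) hτ
      linarith
    · have h3 : enf k (dl 0 n) X τ = enf k (dl 0 n) (vc P Q : Cf N L) τ := by
        refine enf_loc k _ _ τ _ _ ?_ (fun _ => rfl)
        intro l hl
        refine hX l fun hF => hτ ?_
        obtain ⟨b, hb, hbU⟩ := (mem_Frl U l).1 hF
        exact (mem_tml _ _).2 ⟨b, (cor_iff (L := L) τ b).2 ⟨l, hl, hb⟩, hbU⟩
      rw [h3, hV]
      · exact hε.le
      · intro h4
        unfold dl
        split_ifs with h5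
        · exfalso
          apply hτ
          rw [show τ = ((0 : Pl), (3 : Fin 4)) from Prod.ext h5 h4]
          exact h0U U hU
        · exact dvd_zero _
  · refine (csInf_le hbdd hmem).trans ?_
    unfold EE
    rw [Finset.sum_eq_single ((0 : Pl), (3 : Fin 4))]
    · have h3 : enf k (dl 0 1) (vc P Q : Cf N L) ((0 : Pl), (3 : Fin 4)) =
          eP (vc P Q : Cf N L) (oz N 1) 0 := by
        simp [enf, dl]
      rw [h3]
      unfold eP
      have h4 : ∀ y : Tor L, ‖df (vc P Q : Cf N L) (oz N 1) (0, y) 0 1‖ ^ 2 / 2 ≤ 2 * N := by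
        intro y
        have h5 : df (vc P Q : Cf N L) (oz N 1) (0, y) 0 1 = (1 - oz N 1) • (1 : Mt N) := by
          unfold df vc
          simp [sub_smul]
        rw [h5, norm_smul, PkgE.norm_one_mt, mul_pow, Real.sq_sqrt (Nat.cast_nonneg _)]
        have h6 : ‖1 - oz N 1‖ ≤ 2 := by
          refine (norm_sub_le _ _).trans ?_
          rw [hz4, norm_one]
          norm_num
        have h7 : ‖1 - oz N 1‖ ^ 2 ≤ 4 := by nlinarith [norm_nonneg (1 - oz N 1)]
        have h8 : (0 : ℝ) ≤ N := Nat.cast_nonneg _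
        nlinarith
      refine (Finset.sum_le_sum fun y _ => h4 y).trans ?_
      rw [Finset.sum_const, Finset.card_univ, nsmul_eq_mul, Fintype.card_prod, ZMod.card]
      push_cast
      nlinarith
    · intro τ _ hτ
      refine hV _ _ fun h4 => ?_
      unfold dl
      split_ifs with h5
      · exact absurd (Prod.ext h5 h4) hτ
      · exact dvd_zero _
    · intro h
      exact absurd (h0U {0} (Finset.mem_singleton_self _)) h

end T2H01.SE
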