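import Pool.Agent.T2H01.SE.Stm4

/-!
# Package TA : a kernel inequality
-/

set_option autoImplicit false

noncomputable section

open MeasureTheory

namespace T2H01.SE.PkgTA

variable {Y : Type} [MeasurableSpace Y] (ν : Measure Y) [IsProbabilityMeasure ν]

/-- iterated kernels -/
def J (K : Y → Y → ℂ) : ℕ → Y → Y → ℂ
  | 0 => K
  | m + 1 => fun x y => ∫ z, K x z * J K m z y ∂ν

lemma J_meas (K : Y → Y → ℂ) (hK : Measurable (Function.uncurry K)) (m : ℕ) :
    Measurable (Function.uncurry (J ν K m)) := by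
  induction m with
  | zero => exact hK
  | succ m ih =>
    have h1 : Measurable (fun p : (Y × Y) × Y => K p.1.1 p.2 * J ν K m p.2 p.1.2) := by
      apply Measurable.mul
      · exact hK.comp (by fun_prop : Measurable (fun p : (Y × Y) × Y => (p.1.1, p.2)))
      · exact ih.comp (by fun_prop : Measurable (fun p : (Y × Y) × Y => (p.2, p.1.2)))
    have h2 := (h1.stronglyMeasurable).integral_prod_right' (ν := ν)
    exact h2.measurable

lemma J_bdd (K : Y → Y → ℂ) (hb : ∀ x y, ‖K x y‖ ≤ 1) (m : ℕ) : ∀ x y, ‖J ν K m x y‖ ≤ 1 := by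
  induction m with
  | zero => exact hb
  | succ m ih =>
    intro x y
    show ‖∫ z, K x z * J ν K m z y ∂ν‖ ≤ 1
    have h1 : ∀ z, ‖K x z * J ν K m z y‖ ≤ 1 := by
      intro z
      rw [norm_mul]
      exact mul_le_one₀ (hb x z) (norm_nonneg _) (ih z y)
    have h2 := norm_integral_le_of_norm_le_const (μ := ν) (Filter.Eventually.of_forall h1)
    simpa using h2

/-- integrability of bounded measurable functions -/
lemma integ {Z : Type*} [MeasurableSpace Z] (μ : Measure Z) [IsFiniteMeasure μ] (f : Z → ℂ) (hf : Measurable f)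
    (C : ℝ) (hb : ∀ z, ‖f z‖ ≤ C) : Integrable f μ :=
  Integrable.of_bound hf.aestronglyMeasurable C (Filter.Eventually.of_forall hb)

lemma J_meas1 (K : Y → Y → ℂ) (hK : Measurable (Function.uncurry K)) (m : ℕ) (y : Y) :
    Measurable (fun x => J ν K m x y) :=
  (J_meas ν K hK m).comp (by fun_prop : Measurable (fun x : Y => (x, y)))

lemma J_meas2 (K : Y → Y → ℂ) (hK : Measurable (Function.uncurry K)) (m : ℕ) (x : Y) :
    Measurable (fun y => J ν K m x y) :=
  (J_meas ν K hK m).comp (by fun_prop : Measurable (fun y : Y => (x, y)))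

lemma J_comp (K : Y → Y → ℂ) (hK : Measurable (Function.uncurry K)) (hb : ∀ x y, ‖K x y‖ ≤ 1)
    (q : ℕ) : ∀ p : ℕ, ∀ x y, J ν K (p + q + 1) x y = ∫ z, J ν K p x z * J ν K q z y ∂ν := by
  intro p
  induction p with
  | zero =>
    intro x y
    rw [Nat.zero_add]
    rfl
  | succ p ih =>
    intro x y
    have e : p + 1 + q + 1 = (p + q + 1) + 1 := by ring
    rw [e]
    show ∫ w, K x w * J ν K (p + q + 1) w y ∂ν = ∫ z, (∫ w, K x w * J ν K p w z ∂ν) * J ν K q z y ∂ν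
    simp_rw [ih]
    have h1 : ∀ w, K x w * ∫ z, J ν K p w z * J ν K q z y ∂ν =
        ∫ z, K x w * (J ν K p w z * J ν K q z y) ∂ν := fun w => (integral_const_mul _ _).symm
    have h2 : ∀ z, (∫ w, K x w * J ν K p w z ∂ν) * J ν K q z y =
        ∫ w, K x w * (J ν K p w z * J ν K q z y) ∂ν := by
      intro z
      rw [← integral_mul_const]
      congr 1
      funext w
      ring
    simp_rw [h1, h2]
    rw [integral_integral_swap]
    apply integ (ν.prod ν) _ _ 1
    · rintro ⟨w, z⟩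
      simp only [Function.uncurry]
      rw [norm_mul, norm_mul]
      exact mul_le_one₀ (hb _ _) (by positivity)
        (mul_le_one₀ (J_bdd ν K hb p _ _) (norm_nonneg _) (J_bdd ν K hb q _ _))
    · have a1 : Measurable (fun p : Y × Y => K x p.1) :=
        (hK.comp (by fun_prop : Measurable (fun p : Y × Y => (x, p.1))))
      have a2 : Measurable (fun r : Y × Y => J ν K p r.1 r.2) :=
        ((J_meas ν K hK p).comp (by fun_prop : Measurable (fun p : Y × Y => (p.1, p.2))))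
      have a3 : Measurable (fun r : Y × Y => J ν K q r.2 y) :=
        ((J_meas ν K hK q).comp (by fun_prop : Measurable (fun p : Y × Y => (p.2, y))))
      exact a1.mul (a2.mul a3)

lemma J_herm (K : Y → Y → ℂ) (hK : Measurable (Function.uncurry K)) (hb : ∀ x y, ‖K x y‖ ≤ 1)
    (hh : ∀ x y, K y x = star (K x y)) (m : ℕ) : ∀ x y, J ν K m y x = star (J ν K m x y) := by
  induction m with
  | zero => exact hh
  | succ m ih =>
    intro x y
    have h1 := J_comp ν K hK hb 0 m x y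
    rw [Nat.add_zero] at h1
    rw [h1]
    show ∫ z, K y z * J ν K m z x ∂ν = star (∫ z, J ν K m x z * K z y ∂ν)
    have h2 : star (∫ z, J ν K m x z * K z y ∂ν) = ∫ z, star (J ν K m x z * K z y) ∂ν := by
      exact (integral_conj (f := fun z => J ν K m x z * K z y) (μ := ν)).symm
    rw [h2]
    congr 1
    funext z
    rw [star_mul', ih x z, ← hh z y]
    ring

/-- Cauchy-Schwarz -/
lemma cs (u v : Y → ℂ) (hu : Measurable u) (hv : Measurable v) (bu : ∀ y, ‖u y‖ ≤ 1) (bv : ∀ y, ‖v y‖ ≤ 1) :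
    ‖∫ y, u y * v y ∂ν‖ ^ 2 ≤ (∫ y, ‖u y‖ ^ 2 ∂ν) * ∫ y, ‖v y‖ ^ 2 ∂ν := by
  have mu : Measurable (fun y => ‖u y‖) := hu.norm
  have mv : Measurable (fun y => ‖v y‖) := hv.norm
  have ib : ∀ f : Y → ℝ, Measurable f → (∀ y, |f y| ≤ 1) → Integrable f ν := fun f hf hb =>
    Integrable.of_bound hf.aestronglyMeasurable 1 (Filter.Eventually.of_forall hb)
  have i1 : Integrable (fun y => ‖u y‖ ^ 2) ν := ib _ (mu.pow_const 2) (fun y => by
    rw [abs_of_nonneg (by positivity)]; exact pow_le_one₀ (norm_nonneg _) (bu y))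
  have i2 : Integrable (fun y => ‖v y‖ ^ 2) ν := ib _ (mv.pow_const 2) (fun y => by
    rw [abs_of_nonneg (by positivity)]; exact pow_le_one₀ (norm_nonneg _) (bv y))
  have i3 : Integrable (fun y => ‖u y‖ * ‖v y‖) ν := ib _ (mu.mul mv) (fun y => by
    rw [abs_of_nonneg (by positivity)]; exact mul_le_one₀ (bu y) (norm_nonneg _) (bv y))
  have h1 : ‖∫ y, u y * v y ∂ν‖ ≤ ∫ y, ‖u y‖ * ‖v y‖ ∂ν := by
    refine (norm_integral_le_integral_norm _).trans (le_of_eq ?_)
    congr 1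
    funext y
    rw [norm_mul]
  have h2 : ∀ t : ℝ, 0 ≤ (∫ y, ‖v y‖ ^ 2 ∂ν) * (t * t) + (-2 * ∫ y, ‖u y‖ * ‖v y‖ ∂ν) * t +
      ∫ y, ‖u y‖ ^ 2 ∂ν := by
    intro t
    have h3 : 0 ≤ ∫ y, (‖u y‖ - t * ‖v y‖) ^ 2 ∂ν := integral_nonneg (fun y => sq_nonneg _)
    have h4 : ∫ y, (‖u y‖ - t * ‖v y‖) ^ 2 ∂ν = (∫ y, ‖v y‖ ^ 2 ∂ν) * (t * t) +
        (-2 * ∫ y, ‖u y‖ * ‖v y‖ ∂ν) * t + ∫ y, ‖u y‖ ^ 2 ∂ν := by
      have : (fun y => (‖u y‖ - t * ‖v y‖) ^ 2) = fun y => (‖v y‖ ^ 2 * (t * t) +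
          (‖u y‖ * ‖v y‖) * (-2 * t)) + ‖u y‖ ^ 2 := by
        funext y; ring
      rw [this, integral_add, integral_add, integral_mul_const, integral_mul_const]
      · ring
      · exact i2.mul_const _
      · exact i3.mul_const _
      · exact (i2.mul_const _).add (i3.mul_const _)
      · exact i1
    rw [← h4]; exact h3
  have h5 := discrim_le_zero h2
  unfold discrim at h5
  have h6 : (∫ y, ‖u y‖ * ‖v y‖ ∂ν) ^ 2 ≤ (∫ y, ‖u y‖ ^ 2 ∂ν) * ∫ y, ‖v y‖ ^ 2 ∂ν := by nlinarith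
  exact (pow_le_pow_left₀ (norm_nonneg _) h1 2).trans h6

/-- the frozen iterated kernel -/
lemma frozen_bound (K : Y → Y → ℂ) (hK : Measurable (Function.uncurry K)) (hb : ∀ x y, ‖K x y‖ ≤ 1)
    (hh : ∀ x y, K y x = star (K x y)) (v₀ : Y) (h j s : ℕ) :
    ‖J ν K ((2 * (h + 1)) * j + s + 1) v₀ v₀‖ ≤ ‖∫ x, J ν K (2 * h + 1) x x ∂ν‖ ^ j := by
  set τ : ℝ := ∫ x, ∫ z, ‖J ν K h x z‖ ^ 2 ∂ν ∂ν with hτ
  have hτ0 : 0 ≤ τ := integral_nonneg (fun x => integral_nonneg (fun z => by positivity))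
  have htr : ∫ x, J ν K (2 * h + 1) x x ∂ν = (τ : ℂ) := by
    have h1 : ∀ x, J ν K (2 * h + 1) x x = ((∫ z, ‖J ν K h x z‖ ^ 2 ∂ν : ℝ) : ℂ) := by
      intro x
      rw [two_mul, J_comp ν K hK hb h h x x, ← integral_complex_ofReal]
      congr 1
      funext z
      rw [J_herm ν K hK hb hh h x z]
      rw [show star (J ν K h x z) = (starRingEnd ℂ) (J ν K h x z) from rfl, Complex.mul_conj,
        Complex.normSq_eq_norm_sq]
    simp_rw [h1]
    rw [integral_complex_ofReal]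
  rw [htr, Complex.norm_real, Real.norm_eq_abs, abs_of_nonneg hτ0]
  -- the L2 norms
  have hN : ∀ q, ∫ y, ‖J ν K (h + q + 1) y v₀‖ ^ 2 ∂ν ≤ τ * ∫ y, ‖J ν K q y v₀‖ ^ 2 ∂ν := by
    intro q
    rw [hτ, ← integral_mul_const]
    have hm : Measurable (fun r : Y × Y => ‖J ν K h r.1 r.2‖ ^ 2) :=
      (((J_meas ν K hK h).comp (by fun_prop : Measurable (fun p : Y × Y => (p.1, p.2)))).norm).pow_const 2
    have hm2 : Measurable (fun x => ∫ z, ‖J ν K h x z‖ ^ 2 ∂ν) :=
      (hm.stronglyMeasurable.integral_prod_right' (ν := ν)).measurable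
    have hB : ∀ q y, ‖J ν K q y v₀‖ ^ 2 ≤ 1 := fun q y =>
      pow_le_one₀ (norm_nonneg _) (J_bdd ν K hb q _ _)
    have hB2 : ∀ x z, ‖J ν K h x z‖ ^ 2 ≤ 1 := fun x z =>
      pow_le_one₀ (norm_nonneg _) (J_bdd ν K hb h _ _)
    apply integral_mono
    · refine Integrable.of_bound (((J_meas1 ν K hK (h + q + 1) v₀).norm).pow_const 2).aestronglyMeasurable 1
        (Filter.Eventually.of_forall fun y => ?_)
      rw [Real.norm_eq_abs, abs_of_nonneg (by positivity)]
      exact hB _ _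
    · apply Integrable.mul_const
      refine Integrable.of_bound hm2.aestronglyMeasurable 1 (Filter.Eventually.of_forall fun y => ?_)
      have := norm_integral_le_of_norm_le_const (μ := ν) (f := fun z => ‖J ν K h y z‖ ^ 2) (C := 1)
        (Filter.Eventually.of_forall fun z => by
          rw [Real.norm_eq_abs, abs_of_nonneg (by positivity)]; exact hB2 _ _)
      simpa using this
    · intro x
      simp only
      rw [J_comp ν K hK hb q h x v₀]
      exact cs ν _ _ (J_meas2 ν K hK h x) (J_meas1 ν K hK q v₀) (fun y => J_bdd ν K hb h _ _)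
        (fun y => J_bdd ν K hb q _ _)
  have hN1 : ∀ q, ∫ y, ‖J ν K q y v₀‖ ^ 2 ∂ν ≤ 1 := by
    intro q
    have := norm_integral_le_of_norm_le_const (μ := ν) (f := fun y => ‖J ν K q y v₀‖ ^ 2) (C := 1)
        (Filter.Eventually.of_forall fun z => by
          rw [Real.norm_eq_abs, abs_of_nonneg (by positivity)]
          exact pow_le_one₀ (norm_nonneg _) (J_bdd ν K hb q _ _))
    have h2 : ‖∫ y, ‖J ν K q y v₀‖ ^ 2 ∂ν‖ ≤ 1 := by simpa using this
    exact (le_abs_self _).trans h2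
  have hN2 : ∀ i q, ∫ y, ‖J ν K ((h + 1) * i + q) y v₀‖ ^ 2 ∂ν ≤ τ ^ i := by
    intro i
    induction i with
    | zero => intro q; simpa using hN1 q
    | succ i ih =>
      intro q
      have e : (h + 1) * (i + 1) + q = h + ((h + 1) * i + q) + 1 := by ring
      rw [e, pow_succ']
      exact (hN _).trans (mul_le_mul_of_nonneg_left (ih q) hτ0)
  -- last step
  have hlast : ‖J ν K ((2 * (h + 1)) * j + s + 1) v₀ v₀‖ ^ 2 ≤ (τ ^ j) ^ 2 := by
    have e : (2 * (h + 1)) * j + s + 1 = 0 + ((h + 1) * (2 * j) + s) + 1 := by ring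
    rw [e, J_comp ν K hK hb _ 0 v₀ v₀]
    have h1 := cs ν (fun z => J ν K 0 v₀ z) (fun z => J ν K ((h + 1) * (2 * j) + s) z v₀)
      (J_meas2 ν K hK 0 v₀) (J_meas1 ν K hK _ v₀) (fun y => J_bdd ν K hb 0 _ _)
      (fun y => J_bdd ν K hb _ _ _)
    refine h1.trans ?_
    have h2 : ∫ y, ‖J ν K 0 v₀ y‖ ^ 2 ∂ν ≤ 1 := by
      have := norm_integral_le_of_norm_le_const (μ := ν) (f := fun y => ‖J ν K 0 v₀ y‖ ^ 2) (C := 1)
          (Filter.Eventually.of_forall fun z => by
            rw [Real.norm_eq_abs, abs_of_nonneg (by positivity)]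
            exact pow_le_one₀ (norm_nonneg _) (J_bdd ν K hb 0 _ _))
      have h2 : ‖∫ y, ‖J ν K 0 v₀ y‖ ^ 2 ∂ν‖ ≤ 1 := by simpa using this
      exact (le_abs_self _).trans h2
    have h3 := hN2 (2 * j) s
    have h4 : 0 ≤ ∫ y, ‖J ν K ((h + 1) * (2 * j) + s) y v₀‖ ^ 2 ∂ν :=
      integral_nonneg (fun y => by positivity)
    calc _ ≤ 1 * ∫ y, ‖J ν K ((h + 1) * (2 * j) + s) y v₀‖ ^ 2 ∂ν :=
          mul_le_mul_of_nonneg_right h2 h4
      _ ≤ τ ^ (2 * j) := by rw [one_mul]; exact h3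
      _ = (τ ^ j) ^ 2 := by rw [← pow_mul, mul_comm]
  exact le_of_sq_le_sq hlast (pow_nonneg hτ0 j)


/-! ### cyclic integrals -/

/-- path product of `V : Fin (m+1) → Y`, closed by `y` -/
def path (K : Y → Y → ℂ) (m : ℕ) (V : Fin (m + 1) → Y) (y : Y) : ℂ :=
  (∏ i : Fin m, K (V i.castSucc) (V i.succ)) * K (V (Fin.last m)) y

lemma path_meas (K : Y → Y → ℂ) (hK : Measurable (Function.uncurry K)) (m : ℕ) :
    Measurable (fun p : (Fin (m + 1) → Y) × Y => path K m p.1 p.2) := by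
  unfold path
  apply Measurable.mul
  · apply Finset.measurable_prod
    intro i _
    exact hK.comp (by fun_prop : Measurable (fun p : (Fin (m + 1) → Y) × Y => (p.1 i.castSucc, p.1 i.succ)))
  · exact hK.comp (by fun_prop : Measurable (fun p : (Fin (m + 1) → Y) × Y => (p.1 (Fin.last m), p.2)))

lemma path_bdd (K : Y → Y → ℂ) (hb : ∀ x y, ‖K x y‖ ≤ 1) (m : ℕ) (V : Fin (m + 1) → Y) (y : Y) :
    ‖path K m V y‖ ≤ 1 := by
  unfold path
  rw [norm_mul, norm_prod]
  exact mul_le_one₀ (Finset.prod_le_one (fun _ _ => norm_nonneg _) (fun _ _ => hb _ _)) (norm_nonneg _) (hb _ _)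

lemma path_cons (K : Y → Y → ℂ) (m : ℕ) (x z : Y) (W : Fin m → Y) (y : Y) :
    path K (m + 1) (Fin.cons x (Fin.cons z W)) y = K x z * path K m (Fin.cons z W) y := by
  unfold path
  rw [Fin.prod_univ_succ, ← mul_assoc]
  rfl

lemma cons_meas (m : ℕ) : Measurable (fun p : Y × (Fin m → Y) => (Fin.cons p.1 p.2 : Fin (m + 1) → Y)) := by
  apply measurable_pi_lambda
  intro i
  refine Fin.cases ?_ (fun i => ?_) i
  · simpa using measurable_fst
  · simp only [Fin.cons_succ]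
    fun_prop

/-- splitting off the first coordinate -/
lemma pi_succ (m : ℕ) (F : (Fin (m + 1) → Y) → ℂ) (hF : Measurable F) (C : ℝ) (hb : ∀ V, ‖F V‖ ≤ C) :
    ∫ V : Fin (m + 1) → Y, F V ∂(Measure.pi fun _ => ν) =
      ∫ x, ∫ W : Fin m → Y, F (Fin.cons x W) ∂(Measure.pi fun _ => ν) ∂ν := by
  have hmp := measurePreserving_piFinSuccAbove (n := m) (fun _ : Fin (m + 1) => ν) 0
  have h1 := hmp.symm.integral_comp' (g := F)
  rw [← h1, integral_prod]
  · congr 1
    funext x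
    congr 1
    funext W
    congr 1
    exact Fin.insertNth_zero' x W
  · apply integ _ _ _ C
    · intro z; exact hb _
    · exact hF.comp (MeasurableEquiv.measurable _)

lemma path_int (K : Y → Y → ℂ) (hK : Measurable (Function.uncurry K)) (hb : ∀ x y, ‖K x y‖ ≤ 1) (m : ℕ) :
    ∀ x y, ∫ W : Fin m → Y, path K m (Fin.cons x W) y ∂(Measure.pi fun _ => ν) = J ν K m x y := by
  induction m with
  | zero =>
    intro x y
    have : ∀ W : Fin 0 → Y, path K 0 (Fin.cons x W) y = K x y := by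
      intro W
      simp [path]
    simp_rw [this]
    simp [J]
  | succ m ih =>
    intro x y
    have hm1 : Measurable (fun W : Fin (m + 1) → Y => path K (m + 1) (Fin.cons x W) y) := by
      have h2 : Measurable (fun W : Fin (m + 1) → Y => (Fin.cons x W : Fin (m + 1 + 1) → Y)) :=
        (cons_meas (m + 1)).comp (by fun_prop : Measurable (fun W : Fin (m + 1) → Y => (x, W)))
      exact (path_meas K hK (m + 1)).comp (h2.prodMk (measurable_const (a := y)))
    rw [pi_succ ν m (fun W => path K (m + 1) (Fin.cons x W) y) hm1 1 (fun V => path_bdd K hb _ _ _)]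
    show _ = ∫ z, K x z * J ν K m z y ∂ν
    congr 1
    funext z
    simp_rw [path_cons]
    rw [integral_const_mul, ih]

/-- the cyclic product -/
def cyc (K : Y → Y → ℂ) (M : ℕ) [NeZero M] (V : Fin M → Y) : ℂ := ∏ t, K (V t) (V (t + 1))

lemma cyc_eq (K : Y → Y → ℂ) (m : ℕ) (V : Fin (m + 1) → Y) :
    cyc K (m + 1) V = path K m V (V 0) := by
  unfold cyc path
  rw [Fin.prod_univ_castSucc]
  congr 1
  · apply Finset.prod_congr rfl
    intro i _
    rw [Fin.coeSucc_eq_succ]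
  · rw [Fin.last_add_one]

lemma cyc_int (K : Y → Y → ℂ) (hK : Measurable (Function.uncurry K)) (hb : ∀ x y, ‖K x y‖ ≤ 1) (m : ℕ) :
    ∫ V : Fin (m + 1) → Y, cyc K (m + 1) V ∂(Measure.pi fun _ => ν) = ∫ x, J ν K m x x ∂ν := by
  simp_rw [cyc_eq]
  rw [pi_succ ν m (fun V => path K m V (V 0)) ?_ 1 (fun V => path_bdd K hb _ _ _)]
  · congr 1
    funext x
    simp only [Fin.cons_zero]
    exact path_int ν K hK hb m x x
  · exact (path_meas K hK m).comp (by fun_prop : Measurable (fun V : Fin (m + 1) → Y => (V, V 0)))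

lemma fro_int (K : Y → Y → ℂ) (hK : Measurable (Function.uncurry K)) (hb : ∀ x y, ‖K x y‖ ≤ 1) (v₀ : Y) (m : ℕ) :
    ∫ V : Fin (m + 1) → Y, cyc K (m + 1) (Function.update V 0 v₀) ∂(Measure.pi fun _ => ν) = J ν K m v₀ v₀ := by
  simp_rw [cyc_eq]
  have hmu : Measurable (fun V : Fin (m + 1) → Y => Function.update V 0 v₀) :=
    measurable_pi_lambda _ (fun i => by
      by_cases h : i = 0
      · subst h; simp
      · simp [Function.update_of_ne h]
        fun_prop)
  rw [pi_succ ν m (fun V => path K m (Function.update V 0 v₀) (Function.update V 0 v₀ 0)) ?_ 1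
    (fun V => path_bdd K hb _ _ _)]
  · have : ∀ x : Y, ∫ W : Fin m → Y, path K m (Function.update (Fin.cons x W : Fin (m + 1) → Y) 0 v₀)
        (Function.update (Fin.cons x W : Fin (m + 1) → Y) 0 v₀ 0) ∂(Measure.pi fun _ => ν) = J ν K m v₀ v₀ := by
      intro x
      simp only [Fin.update_cons_zero, Function.update_self]
      exact path_int ν K hK hb m v₀ v₀
    simp_rw [this]
    simp
  · exact (path_meas K hK m).comp (Measurable.prodMk hmu ((measurable_pi_apply 0).comp hmu))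

/-- from the weights to the kernel -/
lemma cyc_kernel (a : Y → ℝ) (b : Y → Y → ℂ) (ha : ∀ y, 0 ≤ a y) (M : ℕ) [NeZero M] (V : Fin M → Y) :
    ∏ t, ((a (V t) : ℂ) * b (V t) (V (t + 1))) =
      cyc (fun x y => (Real.sqrt (a x) : ℂ) * b x y * (Real.sqrt (a y) : ℂ)) M V := by
  unfold cyc
  rw [Finset.prod_mul_distrib, Finset.prod_mul_distrib, Finset.prod_mul_distrib]
  have h1 : ∏ t : Fin M, (Real.sqrt (a (V (t + 1))) : ℂ) = ∏ t : Fin M, (Real.sqrt (a (V t)) : ℂ) :=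
    Equiv.prod_comp (Equiv.addRight (1 : Fin M)) (fun t => (Real.sqrt (a (V t)) : ℂ))
  rw [h1]
  have h2 : ∏ t : Fin M, (a (V t) : ℂ) = (∏ t : Fin M, (Real.sqrt (a (V t)) : ℂ)) *
      ∏ t : Fin M, (Real.sqrt (a (V t)) : ℂ) := by
    rw [← Finset.prod_mul_distrib]
    apply Finset.prod_congr rfl
    intro t _
    rw [← Complex.ofReal_mul, Real.mul_self_sqrt (ha _)]
  rw [h2]
  ring

theorem main (a : Y → ℝ) (b : Y → Y → ℂ) (v₀ : Y) (hma : Measurable a) (hmb : Measurable (Function.uncurry b))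
    (ha : ∀ y, 0 ≤ a y ∧ a y ≤ 1) (hb : ∀ y y', ‖b y y'‖ ≤ 1 ∧ b y' y = star (b y y'))
    (n j s : ℕ) [hn : NeZero n] [hM : NeZero (n * j + s)] (hev : Even n) (hs : 2 ≤ s) :
    ‖∫ V : Fin (n * j + s) → Y, (∏ t, ((a (Function.update V 0 v₀ t) : ℂ) *
        b (Function.update V 0 v₀ t) (Function.update V 0 v₀ (t + 1))))
          ∂(Measure.pi fun _ => ν)‖ ≤
      ‖∫ V : Fin n → Y, (∏ t, ((a (V t) : ℂ) * b (V t) (V (t + 1)))) ∂(Measure.pi fun _ => ν)‖ ^ j := by
  set K : Y → Y → ℂ := fun x y => (Real.sqrt (a x) : ℂ) * b x y * (Real.sqrt (a y) : ℂ) with hKdef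
  have ha0 : ∀ y, 0 ≤ a y := fun y => (ha y).1
  have hsq : ∀ y, ‖(Real.sqrt (a y) : ℂ)‖ ≤ 1 := by
    intro y
    rw [Complex.norm_real, Real.norm_eq_abs, abs_of_nonneg (Real.sqrt_nonneg _)]
    exact Real.sqrt_le_one.mpr (ha y).2
  have hK : Measurable (Function.uncurry K) := by
    have h1 : Measurable (fun p : Y × Y => (Real.sqrt (a p.1) : ℂ)) := by fun_prop
    have h2 : Measurable (fun p : Y × Y => (Real.sqrt (a p.2) : ℂ)) := by fun_prop
    have h3 : Measurable (fun p : Y × Y => b p.1 p.2) := hmb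
    exact (h1.mul h3).mul h2
  have hKb : ∀ x y, ‖K x y‖ ≤ 1 := by
    intro x y
    rw [hKdef]
    simp only [norm_mul]
    exact mul_le_one₀ (mul_le_one₀ (hsq x) (norm_nonneg _) (hb x y).1) (norm_nonneg _) (hsq y)
  have hKh : ∀ x y, K y x = star (K x y) := by
    intro x y
    rw [hKdef]
    simp only [star_mul']
    rw [(hb x y).2]
    have hc : ∀ r : ℝ, star (r : ℂ) = (r : ℂ) := fun r => Complex.conj_ofReal r
    rw [hc, hc]
    ring
  simp_rw [cyc_kernel a b ha0]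
  obtain ⟨h', hh'⟩ := hev
  obtain ⟨h, rfl⟩ : ∃ h, h' = h + 1 := ⟨h' - 1, by have := hn.out; omega⟩
  obtain ⟨s', rfl⟩ : ∃ s', s = s' + 2 := ⟨s - 2, by omega⟩
  have hfb := frozen_bound ν K hK hKb hKh v₀ h j s'
  have e1 : ∀ (M : ℕ) (inst : NeZero M), M = (2 * (h + 1)) * j + s' + 1 + 1 →
      ∫ V : Fin M → Y, cyc K M (Function.update V 0 v₀) ∂(Measure.pi fun _ => ν) =
        J ν K ((2 * (h + 1)) * j + s' + 1) v₀ v₀ := by
    intro M inst hM'
    subst hM'
    exact fro_int ν K hK hKb v₀ _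
  have e2 : ∀ (M : ℕ) (inst : NeZero M), M = 2 * h + 1 + 1 →
      ∫ V : Fin M → Y, cyc K M V ∂(Measure.pi fun _ => ν) = ∫ x, J ν K (2 * h + 1) x x ∂ν := by
    intro M inst hM'
    subst hM'
    exact cyc_int ν K hK hKb _
  rw [e1 _ hM (by rw [hh']; ring), e2 _ hn (by rw [hh']; ring)]
  exact hfb

end T2H01.SE.PkgTA

namespace T2H01.SE

theorem pTA : S_TA := by
  intro Y _ ν _ a b v₀ hma hmb ha _ hb n j s hn hM hev hs
  exact PkgTA.main ν a b v₀ hma hmb ha hb n j s hev hs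

end T2H01.SE
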