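import Pool.Agent.T2H01.SE.Stm4
import Pool.Agent.T2H01.SE.RX
import Pool.Agent.T2H01.SE.RT

/-!
# Package TB: the transfer matrix of the torus in the direction 0
-/

set_option autoImplicit false
set_option linter.unusedSectionVars false

noncomputable section

open MeasureTheory Matrix
open scoped Matrix.Norms.Frobenius

namespace T2H01.SE

open T2H02.TT

namespace PkgTB

open PkgRX

/-- configurations of one column -/
abbrev Wc (N B L : ℕ) := (ZMod B × Tor L) × Fin 4 → SU N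

section

variable {N A B L : ℕ} [NeZero A] [NeZero B] [NeZero L]

/-- the product measure -/
def mw (N B L : ℕ) [NeZero B] [NeZero L] : Measure (Wc N B L) := Measure.pi fun _ => hm N

instance : IsProbabilityMeasure (mw N B L) := by unfold mw; infer_instance

/-- a configuration of the torus from its columns and the links between them -/
def Phi (Z : (ZMod A → Wc N B L) × (ZMod A → Wc N B L)) : TC N A B L := fun l =>
  if l.2 = 0 then Z.2 l.1.1.1 ((l.1.1.2, l.1.2), l.2) else Z.1 l.1.1.1 ((l.1.1.2, l.1.2), l.2)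

lemma Phi_meas : Measurable (Phi : _ → TC N A B L) := by
  rw [measurable_pi_iff]
  intro l
  unfold Phi
  split_ifs
  · exact (measurable_pi_apply _).comp ((measurable_pi_apply _).comp measurable_snd)
  · exact (measurable_pi_apply _).comp ((measurable_pi_apply _).comp measurable_fst)

lemma map_Phi : ((Measure.pi fun _ : ZMod A => mw N B L).prod
    (Measure.pi fun _ : ZMod A => mw N B L)).map Phi =
      Measure.infinitePi fun _ : TL A B L => hm N := by
  rw [Measure.infinitePi_eq_pi]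
  symm
  apply Measure.pi_eq
  intro s hs
  rw [Measure.map_apply Phi_meas (MeasurableSet.univ_pi hs)]
  have h1 : (Phi : _ → TC N A B L) ⁻¹' (Set.pi Set.univ s) =
      (Set.pi Set.univ fun t : ZMod A => Set.pi Set.univ fun l : (ZMod B × Tor L) × Fin 4 =>
        if l.2 = 0 then Set.univ else s (((t, l.1.1), l.1.2), l.2)) ×ˢ
      (Set.pi Set.univ fun t : ZMod A => Set.pi Set.univ fun l : (ZMod B × Tor L) × Fin 4 =>
        if l.2 = 0 then s (((t, l.1.1), l.1.2), l.2) else Set.univ) := by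
    ext Z
    simp only [Set.mem_preimage, Set.mem_pi, Set.mem_univ, true_implies, Set.mem_prod]
    constructor
    · intro h
      constructor
      · intro t l
        split_ifs with h0
        · trivial
        · have := h (((t, l.1.1), l.1.2), l.2)
          unfold Phi at this
          rw [if_neg h0] at this
          exact this
      · intro t l
        split_ifs with h0
        · have := h (((t, l.1.1), l.1.2), l.2)
          unfold Phi at this
          rw [if_pos h0] at this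
          exact this
        · trivial
    · rintro ⟨h1, h2⟩ l
      unfold Phi
      split_ifs with h0
      · have := h2 l.1.1.1 ((l.1.1.2, l.1.2), l.2)
        rw [if_pos h0] at this
        exact this
      · have := h1 l.1.1.1 ((l.1.1.2, l.1.2), l.2)
        rw [if_neg h0] at this
        exact this
  rw [h1, Measure.prod_prod, Measure.pi_pi, Measure.pi_pi, ← Finset.prod_mul_distrib]
  simp only [mw, Measure.pi_pi, ← Finset.prod_mul_distrib]
  rw [Fintype.prod_prod_type, Fintype.prod_prod_type, Fintype.prod_prod_type]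
  refine Finset.prod_congr rfl fun t _ => ?_
  rw [Fintype.prod_prod_type, Fintype.prod_prod_type]
  refine Finset.prod_congr rfl fun b _ => Finset.prod_congr rfl fun y _ =>
    Finset.prod_congr rfl fun m _ => ?_
  split_ifs <;> simp

/-- plane configuration with the column `V` over `0`, the links `U` from it, and the column `V'` -/
def pl (V U V' : Wc N B L) : Cf N L := fun l =>
  if l.1.1.1 = 0 then (if l.2 = 0 then U (((l.1.1.2 : ZMod B), l.1.2), l.2)
    else V (((l.1.1.2 : ZMod B), l.1.2), l.2)) else V' (((l.1.1.2 : ZMod B), l.1.2), l.2)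

lemma gw_tr (k : ℕ) (β : ℝ) (c : ℕ) (v x : Pl) (i : Fin 4) (X : Cf N L) :
    gw k β c (x + v, i) X = gw k β c (x, i) (fun l => X (PkgSY.tr L v l)) := by
  unfold gw
  by_cases h : i = 3
  · rw [if_pos h, if_pos h]
    unfold wch
    simp only [PkgRT.eP_tr]
  · rw [if_neg h, if_neg h]
    have := PkgRT.en1_tr k v X (x, i)
    rw [← this]
    rfl

/-- links of a term at `(0, q)` -/
lemma spt_cases (q : ℤ) (i : Fin 4) (l : Lk L) (h : l ∈ spt (((0 : ℤ), q), i)) :
    l.1.1.1 = 0 ∨ (l.1.1.1 = 1 ∧ l.2 ≠ 0) := by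
  fin_cases i
  · rcases (mem_spt0 _ _).1 h with ⟨y, rfl | rfl⟩ <;> simp
  · rcases (mem_spt1 _ _).1 h with ⟨y, rfl | rfl | rfl | rfl | rfl⟩ <;> simp
  · rcases (mem_spt2 _ _).1 h with ⟨y, rfl | rfl | rfl | rfl | rfl⟩ <;> simp
  · rcases (mem_spt3 _ _).1 h with ⟨y, rfl | rfl | rfl | rfl⟩ <;> simp

lemma spt_cases' (q : ℤ) (i : Fin 4) (hi : i = 0 ∨ i = 2) (l : Lk L)
    (h : l ∈ spt (((0 : ℤ), q), i)) : l.1.1.1 = 0 ∧ l.2 ≠ 0 := by
  rcases hi with rfl | rfl
  · rcases (mem_spt0 _ _).1 h with ⟨y, rfl | rfl⟩ <;> simp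
  · rcases (mem_spt2 _ _).1 h with ⟨y, rfl | rfl | rfl | rfl | rfl⟩ <;> simp

lemma gw_per (k : ℕ) (β : ℝ) (c : ℕ) (p q : ℤ) (i : Fin 4)
    (Z : (ZMod A → Wc N B L) × (ZMod A → Wc N B L)) :
    gw k β c ((p, q), i) (per (Phi Z)) =
      gw k β c ((0, q), i) (pl (Z.1 (p : ZMod A)) (Z.2 (p : ZMod A)) (Z.1 ((p : ZMod A) + 1))) := by
  have h : ((p, q) : Pl) = (0, q) + (p, 0) := by ext <;> simp
  rw [h, gw_tr]
  refine gw_loc k β c _ _ _ fun l hl => ?_
  obtain ⟨⟨⟨x1, x2⟩, y⟩, m⟩ := l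
  rcases spt_cases q i _ hl with h1 | ⟨h1, h2⟩
  · obtain rfl : x1 = 0 := h1
    simp only [PkgSY.tr, Equiv.coe_fn_mk, per, Phi, pl, Prod.mk_add_mk, zero_add, add_zero, if_true]
  · obtain rfl : x1 = 1 := h1
    have h2' : m ≠ 0 := h2
    simp only [PkgSY.tr, Equiv.coe_fn_mk, per, Phi, pl, Prod.mk_add_mk, add_zero, if_neg h2',
      one_ne_zero, if_false]
    rw [Int.cast_add, Int.cast_one, add_comm]

lemma gw_col (k : ℕ) (β : ℝ) (c : ℕ) (q : ℤ) (i : Fin 4) (hi : i = 0 ∨ i = 2)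
    (V U V' U₁ V₁ : Wc N B L) : gw k β c ((0, q), i) (pl V U V') = gw k β c ((0, q), i) (pl V U₁ V₁) := by
  refine gw_loc k β c _ _ _ fun l hl => ?_
  obtain ⟨h1, h2⟩ := spt_cases' q i hi l hl
  unfold pl
  rw [if_pos h1, if_pos h1, if_neg h2, if_neg h2]

/-- product of the weights in a column -/
def a0 (k : ℕ) (β : ℝ) (V : Wc N B L) : ℝ := ∏ q ∈ Finset.Ico 0 (B : ℤ),
  (Real.exp (-β * en1 k (pl V V V) ((0, q), 0)) * Real.exp (-β * en1 k (pl V V V) ((0, q), 2)))

/-- product of the weights between the columns -/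
def w0 (k : ℕ) (β : ℝ) (c : ℕ) (V U V' : Wc N B L) : ℂ := ∏ q ∈ Finset.Ico 0 (B : ℤ),
  (gw k β c ((0, q), 1) (pl V U V') * gw k β c ((0, q), 3) (pl V U V'))

lemma prod_ZMod (F : ZMod A → ℂ) :
    ∏ p ∈ Finset.Ico 0 (A : ℤ), F (p : ZMod A) = ∏ t : ZMod A, F t := by
  refine Finset.prod_nbij' (fun p => (p : ZMod A)) (fun t => (t.val : ℤ)) (fun p _ => Finset.mem_univ _)
    (fun t _ => ?_) (fun p hp => ?_) (fun t _ => ?_) (fun p _ => rfl)
  · rw [Finset.mem_Ico]
    exact ⟨by positivity, by exact_mod_cast ZMod.val_lt t⟩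
  · rw [Finset.mem_Ico] at hp
    rw [ZMod.val_intCast, Int.emod_eq_of_lt hp.1 hp.2]
  · rw [Int.cast_natCast, ZMod.natCast_zmod_val]

lemma Wt_per (k : ℕ) (β : ℝ) (c : ℕ) (Z : (ZMod A → Wc N B L) × (ZMod A → Wc N B L)) :
    Wt k β c A B (per (Phi Z)) =
      ∏ t : ZMod A, ((a0 k β (Z.1 t) : ℂ) * w0 k β c (Z.1 t) (Z.2 t) (Z.1 (t + 1))) := by
  unfold Wt fdm
  rw [Finset.prod_product, ← prod_ZMod]
  refine Finset.prod_congr rfl fun p _ => ?_
  unfold a0 w0
  rw [Complex.ofReal_prod, ← Finset.prod_mul_distrib]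
  refine Finset.prod_congr rfl fun q _ => ?_
  have e3 : wch N β c (p, q) (per (Phi Z)) = gw k β c ((p, q), 3) (per (Phi Z)) := by
    rw [gw, if_pos rfl]
  have e : ∀ i : Fin 4, i ≠ 3 → ∀ (x : Pl) (X : Cf N L),
      (Real.exp (-β * en1 k X (x, i)) : ℂ) = gw k β c (x, i) X := by
    intro i hi x X
    rw [gw, if_neg hi]
  have hs : ∀ f : Fin 4 → ℂ, ∏ i ∈ ({0, 1, 2} : Finset (Fin 4)), f i = f 0 * (f 1 * f 2) := by
    intro f
    rw [Finset.prod_insert (by decide), Finset.prod_insert (by decide), Finset.prod_singleton]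
  rw [hs, e3, e 0 (by decide), e 1 (by decide), e 2 (by decide), Complex.ofReal_mul,
    e 0 (by decide), e 2 (by decide), gw_per, gw_per, gw_per, gw_per,
    gw_col k β c q 0 (Or.inl rfl) _ _ _ (Z.1 (p : ZMod A)) (Z.1 (p : ZMod A)),
    gw_col k β c q 2 (Or.inr rfl) _ _ _ (Z.1 (p : ZMod A)) (Z.1 (p : ZMod A))]
  ring

/-- the vacuum column -/
def v0 (P Q : SU N) (B L : ℕ) [NeZero L] : Wc N B L := fun l => vc P Q ((0, l.1.2), l.2)

open Classical in
/-- freezing of the row `0` -/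
def fz (P Q : SU N) (v : Bool) (V : Wc N B L) : Wc N B L := fun l =>
  if v = true ∧ l.1.1 = 0 ∧ l.2 ≠ 1 then v0 P Q B L l else V l

/-- freezing of the column `0` -/
def frc (P Q : SU N) (u : Bool) (V : ZMod A → Wc N B L) : ZMod A → Wc N B L :=
  if u = true then Function.update V 0 (v0 P Q B L) else V

lemma dvd_iff (n : ℕ) (q : ℤ) : (n : ℤ) ∣ q ↔ (q : ZMod n) = 0 :=
  (ZMod.intCast_zmod_eq_zero_iff_dvd q n).symm

lemma vc_v0 (P Q : SU N) (x : Pl) (y : Tor L) (b : ZMod B) (m : Fin 4) :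
    (vc P Q ((x, y), m) : SU N) = v0 P Q B L ((b, y), m) := by
  unfold v0 vc
  rfl

lemma fzp_per (P Q : SU N) (u v : Bool) (hA : u = true → 2 ≤ A) (hB : 2 ≤ B)
    (Z : (ZMod A → Wc N B L) × (ZMod A → Wc N B L)) :
    fzp P Q u v A B (per (Phi Z)) = per (Phi (A := A)
      (fun t => fz P Q v (frc P Q u Z.1 t), fun t => fz P Q v (Z.2 t))) := by
  funext l
  obtain ⟨⟨⟨p, q⟩, y⟩, m⟩ := l
  have hfr : frc P Q u Z.1 (p : ZMod A) = if u = true ∧ (A : ℤ) ∣ p then v0 P Q B L else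
      Z.1 (p : ZMod A) := by
    unfold frc
    by_cases hu : u = true
    · rw [if_pos hu, Function.update_apply]
      by_cases hp : (A : ℤ) ∣ p
      · rw [if_pos ((dvd_iff A p).1 hp), if_pos ⟨hu, hp⟩]
      · rw [if_neg (fun h => hp ((dvd_iff A p).2 h)), if_neg (fun h => hp h.2)]
    · rw [if_neg hu, if_neg (fun h => hu h.1)]
  have hfz : ∀ W : Wc N B L, fz P Q v W (((q : ZMod B), y), m) =
      if v = true ∧ (B : ℤ) ∣ q ∧ m ≠ 1 then v0 P Q B L (((q : ZMod B), y), m) else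
        W (((q : ZMod B), y), m) := by
    intro W
    unfold fz
    by_cases hc : v = true ∧ (B : ℤ) ∣ q ∧ m ≠ 1
    · rw [if_pos hc, if_pos ⟨hc.1, (dvd_iff B q).1 hc.2.1, hc.2.2⟩]
    · rw [if_neg hc, if_neg (fun h => hc ⟨h.1, (dvd_iff B q).2 h.2.1, h.2.2⟩)]
  have hA1 : u = true → (A : ℤ) ∣ p → ¬ (A : ℤ) ∣ p + 1 := by
    intro hu h1 h2
    have h3 : (A : ℤ) ∣ 1 := (dvd_add_right h1).1 h2
    have h4 := Int.le_of_dvd one_pos h3
    have := hA hu
    omega
  have hB1 : (B : ℤ) ∣ q → ¬ (B : ℤ) ∣ q + 1 := by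
    intro h1 h2
    have h3 : (B : ℤ) ∣ 1 := (dvd_add_right h1).1 h2
    have h4 := Int.le_of_dvd one_pos h3
    omega
  have hL : fzp P Q u v A B (per (Phi Z)) (((p, q), y), m) =
      if (u = true ∧ (A : ℤ) ∣ p ∧ m ≠ 0) ∨ (v = true ∧ (B : ℤ) ∣ q ∧ m ≠ 1) then
        v0 P Q B L (((q : ZMod B), y), m) else Phi Z ((((p : ZMod A), (q : ZMod B)), y), m) := by
    unfold fzp
    have hc : (∀ a ∈ st ((((p, q) : Pl), y), m), fzs u v A B a) ↔
        ((u = true ∧ (A : ℤ) ∣ p ∧ m ≠ 0) ∨ (v = true ∧ (B : ℤ) ∣ q ∧ m ≠ 1)) := by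
      have hst : (∀ a ∈ st ((((p, q) : Pl), y), m), fzs u v A B a) ↔
          fzs u v A B (p, q) ∧ fzs u v A B ((p, q) + pe m) := by
        simp only [st, Finset.mem_insert, Finset.mem_singleton, forall_eq_or_imp, forall_eq]
      rw [hst]
      unfold fzs
      fin_cases m
      · simp [pe]
        tauto
      · simp [pe]
        tauto
      · simp [pe]
      · simp [pe]
    by_cases h : (u = true ∧ (A : ℤ) ∣ p ∧ m ≠ 0) ∨ (v = true ∧ (B : ℤ) ∣ q ∧ m ≠ 1)
    · rw [if_pos (hc.2 h), if_pos h]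
      exact vc_v0 P Q _ _ _ _
    · rw [if_neg (fun h' => h (hc.1 h')), if_neg h]
      rfl
  rw [hL]
  unfold per
  change _ = Phi (A := A) (fun t => fz P Q v (frc P Q u Z.1 t), fun t => fz P Q v (Z.2 t))
    ((((p : ZMod A), (q : ZMod B)), y), m)
  unfold Phi
  simp only [hfz, hfr]
  by_cases h0 : m = 0
  · subst h0
    simp
  · simp only [h0, if_false, ne_eq, not_false_eq_true, and_true]
    by_cases h1 : v = true ∧ (B : ℤ) ∣ q ∧ m ≠ 1
    · rw [if_pos (Or.inr h1), if_pos h1]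
    · rw [if_neg h1]
      by_cases h2 : u = true ∧ (A : ℤ) ∣ p
      · rw [if_pos (Or.inl h2), if_pos h2]
      · rw [if_neg (by tauto), if_neg h2]


/-! ### measurability -/

lemma pl_meas {α : Type*} [MeasurableSpace α] {f g h : α → Wc N B L} (hf : Measurable f)
    (hg : Measurable g) (hh : Measurable h) : Measurable fun x => pl (f x) (g x) (h x) := by
  rw [measurable_pi_iff]
  intro l
  unfold pl
  split_ifs
  · exact (measurable_pi_apply _).comp hg
  · exact (measurable_pi_apply _).comp hf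
  · exact (measurable_pi_apply _).comp hh

lemma fz_meas (P Q : SU N) (v : Bool) : Measurable (fz P Q v : Wc N B L → Wc N B L) := by
  rw [measurable_pi_iff]
  intro l
  unfold fz
  split_ifs
  · exact measurable_const
  · exact measurable_pi_apply _

lemma a0_meas (k : ℕ) (β : ℝ) : Measurable (a0 k β : Wc N B L → ℝ) := by
  unfold a0
  refine Finset.measurable_prod _ fun q _ => ?_
  exact (((measurable_const.mul ((en1_cont k _).measurable.comp
    (pl_meas measurable_id measurable_id measurable_id)))).exp).mul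
    (((measurable_const.mul ((en1_cont k _).measurable.comp
      (pl_meas measurable_id measurable_id measurable_id)))).exp)

lemma w0_meas {α : Type*} [MeasurableSpace α] (k : ℕ) (β : ℝ) (c : ℕ) {f g h : α → Wc N B L}
    (hf : Measurable f) (hg : Measurable g) (hh : Measurable h) :
    Measurable fun x => w0 k β c (f x) (g x) (h x) := by
  unfold w0
  exact Finset.measurable_prod _ fun q _ =>
    ((gw_meas k β c _).comp (pl_meas hf hg hh)).mul ((gw_meas k β c _).comp (pl_meas hf hg hh))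

lemma w0_norm (hN : 0 < N) (k : ℕ) {β : ℝ} (hβ : 0 ≤ β) (c : ℕ) (V U V' : Wc N B L) :
    ‖w0 k β c V U V'‖ ≤ 1 := by
  unfold w0
  refine PkgOA.prod_norm_le _ _ fun q _ => ?_
  rw [norm_mul]
  exact mul_le_one₀ (gw_norm hN k hβ c _ _) (norm_nonneg _) (gw_norm hN k hβ c _ _)

lemma exp_le (k : ℕ) {β : ℝ} (hβ : 0 ≤ β) (τ : Tm) (X : Cf N L) :
    Real.exp (-β * en1 k X τ) ≤ 1 := by
  refine Real.exp_le_one_iff.2 ?_
  have := en1_nonneg k X τ
  nlinarith

lemma a0_bd (k : ℕ) {β : ℝ} (hβ : 0 ≤ β) (V : Wc N B L) : 0 ≤ a0 k β V ∧ a0 k β V ≤ 1 := by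
  unfold a0
  constructor
  · exact Finset.prod_nonneg fun q _ => by positivity
  · exact Finset.prod_le_one (fun q _ => by positivity) fun q _ =>
      mul_le_one₀ (exp_le k hβ _ _) (Real.exp_pos _).le (exp_le k hβ _ _)

lemma Wt_meas (k : ℕ) (β : ℝ) (c : ℕ) : Measurable (Wt k β c A B : Cf N L → ℂ) := by
  unfold Wt
  refine Finset.measurable_prod _ fun x _ => Measurable.mul (Finset.measurable_prod _ fun i _ => ?_)
    (PkgOA.wch_meas β c x)
  exact Complex.measurable_ofReal.comp (measurable_const.mul (en1_cont k _).measurable).exp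

lemma Wt_norm (hN : 0 < N) (k : ℕ) {β : ℝ} (hβ : 0 ≤ β) (c : ℕ) (X : Cf N L) :
    ‖Wt k β c A B X‖ ≤ 1 := by
  unfold Wt
  refine PkgOA.prod_norm_le _ _ fun x _ => ?_
  rw [norm_mul]
  refine mul_le_one₀ (PkgOA.prod_norm_le _ _ fun i _ => ?_) (norm_nonneg _)
    (PkgOA.wch_norm_le hN hβ c x X)
  rw [Complex.norm_real, Real.norm_eq_abs, Real.abs_exp]
  exact exp_le k hβ _ _

lemma per_meas : Measurable (per : TC N A B L → Cf N L) := by
  rw [measurable_pi_iff]
  intro l
  exact measurable_pi_apply _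

lemma fzp_meas (P Q : SU N) (u v : Bool) :
    Measurable (fzp P Q u v A B : Cf N L → Cf N L) := by
  rw [measurable_pi_iff]
  intro l
  unfold fzp
  split_ifs
  · exact measurable_const
  · exact measurable_pi_apply _

/-! ### the integral over the links between the columns -/

/-- weight of a column -/
def a1 (k : ℕ) (β : ℝ) (P Q : SU N) (v : Bool) (V : Wc N B L) : ℝ := a0 k β (fz P Q v V)

/-- integral over the links between two columns -/
def b1 (k : ℕ) (β : ℝ) (c : ℕ) (P Q : SU N) (v : Bool) (V V' : Wc N B L) : ℂ :=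
  ∫ U, w0 k β c (fz P Q v V) (fz P Q v U) (fz P Q v V') ∂(mw N B L)

lemma TZc_eq (hN : 0 < N) (k : ℕ) {β : ℝ} (hβ : 0 ≤ β) (P Q : SU N) (c : ℕ) (u v : Bool)
    (hA : u = true → 2 ≤ A) (hB : 2 ≤ B) :
    TZc N L k β P Q c u v A B = ∫ V : ZMod A → Wc N B L,
      ∏ t, ((a1 k β P Q v (frc P Q u V t) : ℂ) *
        b1 k β c P Q v (frc P Q u V t) (frc P Q u V (t + 1))) ∂(Measure.pi fun _ => mw N B L) := by
  have hm : Measurable fun X : TC N A B L => Wt k β c A B (fzp P Q u v A B (per X)) :=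
    (Wt_meas k β c).comp ((fzp_meas P Q u v).comp per_meas)
  unfold TZc
  rw [← map_Phi, integral_map Phi_meas.aemeasurable hm.aestronglyMeasurable, integral_prod _ ?_]
  · refine integral_congr_ae (Filter.Eventually.of_forall fun V => ?_)
    simp only
    have e1 : ∀ U : ZMod A → Wc N B L, Wt k β c A B (fzp P Q u v A B (per (Phi (V, U)))) =
        ∏ t : ZMod A, ((a1 k β P Q v (frc P Q u V t) : ℂ) *
          w0 k β c (fz P Q v (frc P Q u V t)) (fz P Q v (U t)) (fz P Q v (frc P Q u V (t + 1)))) := by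
      intro U
      rw [fzp_per P Q u v hA hB, Wt_per]
      rfl
    simp only [e1]
    rw [integral_fintype_prod_eq_prod (fun (t : ZMod A) (U : Wc N B L) =>
      (a1 k β P Q v (frc P Q u V t) : ℂ) *
          w0 k β c (fz P Q v (frc P Q u V t)) (fz P Q v U) (fz P Q v (frc P Q u V (t + 1))))]
    refine Finset.prod_congr rfl fun t _ => ?_
    rw [integral_const_mul]
    rfl
  · refine Integrable.of_bound (hm.comp Phi_meas).aestronglyMeasurable 1
      (Filter.Eventually.of_forall fun Z => ?_)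
    exact Wt_norm hN k hβ c _

/-! ### reflection -/

lemma pl_rf (V U V' : Wc N B L) (q : ℤ) (i : Fin 4) (l : Lk L) (hl : l ∈ spt (((0 : ℤ), q), i)) :
    rf (pl V U V') (PkgSY.tr L (-1, 0) l) = pl V' U⁻¹ V l := by
  obtain ⟨⟨⟨x1, x2⟩, y⟩, m⟩ := l
  rcases spt_cases q i _ hl with h1 | ⟨h1, h2⟩
  · obtain rfl : x1 = 0 := h1
    by_cases h0 : m = 0
    · subst h0
      simp [PkgSY.tr, rf, pl]
    · simp [PkgSY.tr, rf, pl, h0]
  · obtain rfl : x1 = 1 := h1
    have h2' : m ≠ 0 := h2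
    simp [PkgSY.tr, rf, pl, h2']

lemma gw_refl (hN : N ≠ 0) (k : ℕ) (β : ℝ) (c : ℕ) (q : ℤ) (i : Fin 4) (hi : i = 1 ∨ i = 3)
    (V U V' : Wc N B L) : gw k β c ((0, q), i) (pl V' U⁻¹ V) =
      star (gw k β c ((0, q), i) (pl V U V')) := by
  have h1 : PkgRP.rt (((-1 : ℤ), q), i) = ((0, q), i) := by
    unfold PkgRP.rt
    rw [if_pos hi]
    simp
  have h3 := gw_rf hN k β c (((-1 : ℤ), q), i) (pl V U V')
  rw [h1] at h3
  rw [← h3, star_star]
  have h2 : (((-1 : ℤ), q) : Pl) = (0, q) + (-1, 0) := by ext <;> simp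
  rw [h2, gw_tr]
  exact (gw_loc k β c _ _ _ fun l hl => pl_rf V U V' q i l hl).symm

lemma w0_refl (hN : N ≠ 0) (k : ℕ) (β : ℝ) (c : ℕ) (V U V' : Wc N B L) :
    w0 k β c V' U⁻¹ V = star (w0 k β c V U V') := by
  unfold w0
  rw [Complex.star_def, map_prod]
  refine Finset.prod_congr rfl fun q _ => ?_
  rw [map_mul, gw_refl hN k β c q 1 (Or.inl rfl), gw_refl hN k β c q 3 (Or.inr rfl)]
  rfl

lemma pl_fz (P Q : SU N) (v : Bool) (V U V' : Wc N B L) :
    pl V (fz P Q v U⁻¹) V' = pl V (fz P Q v U)⁻¹ V' := by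
  funext l
  unfold pl
  by_cases h : l.1.1.1 = 0
  · rw [if_pos h, if_pos h]
    by_cases h0 : l.2 = 0
    · rw [if_pos h0, if_pos h0, Pi.inv_apply]
      unfold fz
      split_ifs with hc
      · simp [v0, vc, h0]
      · rfl
    · rw [if_neg h0, if_neg h0]
  · rw [if_neg h, if_neg h]

lemma mp_inv : MeasurePreserving (fun U : Wc N B L => U⁻¹) (mw N B L) (mw N B L) := by
  have h : MeasurePreserving (fun g : SU N => g⁻¹) (hm N) (hm N) :=
    ⟨measurable_inv, PkgRP.hm_invm N⟩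
  exact measurePreserving_pi (fun _ => hm N) (fun _ => hm N) (fun _ => h)

lemma b1_refl (hN : N ≠ 0) (k : ℕ) (β : ℝ) (c : ℕ) (P Q : SU N) (v : Bool) (V V' : Wc N B L) :
    b1 k β c P Q v V' V = star (b1 k β c P Q v V V') := by
  unfold b1
  have hm : Measurable fun U : Wc N B L => w0 k β c (fz P Q v V') (fz P Q v U) (fz P Q v V) :=
    w0_meas k β c measurable_const (fz_meas P Q v) measurable_const
  have e1 : ∫ U : Wc N B L, w0 k β c (fz P Q v V') (fz P Q v U) (fz P Q v V) ∂(mw N B L) =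
      ∫ U : Wc N B L, w0 k β c (fz P Q v V') (fz P Q v U⁻¹) (fz P Q v V) ∂(mw N B L) := by
    have h := (mp_inv (N := N) (B := B) (L := L)).map_eq
    conv_lhs => rw [← h]
    exact integral_map mp_inv.measurable.aemeasurable hm.aestronglyMeasurable
  rw [e1]
  have e2 : ∀ U : Wc N B L, w0 k β c (fz P Q v V') (fz P Q v U⁻¹) (fz P Q v V) =
      star (w0 k β c (fz P Q v V) (fz P Q v U) (fz P Q v V')) := by
    intro U
    rw [← w0_refl hN]
    unfold w0
    simp only [pl_fz]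
  simp only [e2]
  exact integral_conj

lemma b1_norm (hN : 0 < N) (k : ℕ) {β : ℝ} (hβ : 0 ≤ β) (c : ℕ) (P Q : SU N) (v : Bool)
    (V V' : Wc N B L) : ‖b1 k β c P Q v V V'‖ ≤ 1 := by
  unfold b1
  refine (norm_integral_le_of_norm_le_const (C := 1)
    (Filter.Eventually.of_forall fun U => w0_norm hN k hβ c _ _ _)).trans ?_
  simp

lemma b1_meas (k : ℕ) (β : ℝ) (c : ℕ) (P Q : SU N) (v : Bool) :
    Measurable (Function.uncurry (b1 k β c P Q v : Wc N B L → Wc N B L → ℂ)) := by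
  have h : Measurable fun p : (Wc N B L × Wc N B L) × Wc N B L =>
      w0 k β c (fz P Q v p.1.1) (fz P Q v p.2) (fz P Q v p.1.2) :=
    w0_meas k β c ((fz_meas P Q v).comp (measurable_fst.comp measurable_fst))
      ((fz_meas P Q v).comp measurable_snd) ((fz_meas P Q v).comp (measurable_snd.comp measurable_fst))
  exact (h.stronglyMeasurable.integral_prod_right' (ν := mw N B L)).measurable

lemma a1_v0 (hVL : S_VL) (hN : 2 ≤ N) (k : ℕ) (hk : Nat.Coprime k N) (β : ℝ) (P Q : SU N)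
    (hPQ : PQ k P Q) (v : Bool) : a1 k β P Q v (v0 P Q B L) = 1 := by
  have h0 := (hVL N k L hN hk P Q hPQ).2.2
  have e1 : fz P Q v (v0 P Q B L) = v0 P Q B L := by
    funext l
    unfold fz
    split_ifs <;> rfl
  have e2 : pl (v0 P Q B L) (v0 P Q B L) (v0 P Q B L) = (vc P Q : Cf N L) := by
    funext l
    unfold pl v0
    split_ifs with h1 h2
    · unfold vc
      rfl
    · unfold vc
      rfl
    · unfold vc
      rfl
  unfold a1 a0
  rw [e1, e2]
  refine Finset.prod_eq_one fun q _ => ?_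
  have e3 : en1 k (vc P Q : Cf N L) (((0 : ℤ), q), 0) = 0 := h0 (((0 : ℤ), q), 0)
  have e4 : en1 k (vc P Q : Cf N L) (((0 : ℤ), q), 2) = 0 := h0 (((0 : ℤ), q), 2)
  rw [e3, e4]
  simp

end

/-- from `ZMod A` to `Fin A` -/
lemma toFin {Y : Type} [MeasurableSpace Y] (ν : Measure Y) (A : ℕ) [NeZero A] (F : Y → Y → ℂ)
    (y₀ : Y) :
    (∫ V : ZMod A → Y, ∏ t, F (V t) (V (t + 1)) ∂(Measure.pi fun _ => ν) =
      ∫ V : Fin A → Y, ∏ t, F (V t) (V (t + 1)) ∂(Measure.pi fun _ => ν)) ∧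
    (∫ V : ZMod A → Y, ∏ t, F (Function.update V 0 y₀ t) (Function.update V 0 y₀ (t + 1))
        ∂(Measure.pi fun _ => ν) =
      ∫ V : Fin A → Y, ∏ t, F (Function.update V 0 y₀ t) (Function.update V 0 y₀ (t + 1))
        ∂(Measure.pi fun _ => ν)) := by
  cases A with
  | zero => exact absurd rfl (NeZero.ne 0)
  | succ n => exact ⟨rfl, rfl⟩

end PkgTB

open PkgTB in
theorem pTB (hTA : S_TA) (hVL : S_VL) : S_TB := by
  intro N k L _ hN hk P Q hPQ β hβ c v B _ a j s _ _ hB ha hs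
  have hN0 : 0 < N := by omega
  have hn : 0 < a := Nat.pos_of_ne_zero (NeZero.ne a)
  have hA : 2 ≤ a * j + s := by omega
  have h := hTA (Wc N B L) (mw N B L) (a1 k β P Q v) (b1 k β c P Q v) (v0 P Q B L)
    ((a0_meas k β).comp (fz_meas P Q v)) (b1_meas k β c P Q v)
    (fun y => a0_bd k hβ _) (a1_v0 hVL hN k hk β P Q hPQ v)
    (fun y y' => ⟨b1_norm hN0 k hβ c P Q v y y', b1_refl (by omega) k β c P Q v y y'⟩)
    a j s ha hs
  have e1 := TZc_eq (A := a * j + s) (B := B) (L := L) hN0 k hβ P Q c true v (fun _ => hA) hB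
  have e2 := TZc_eq (A := a) (B := B) (L := L) hN0 k hβ P Q c false v (fun h => by simp at h) hB
  have f1 := (toFin (mw N B L) (a * j + s)
    (fun V V' => (a1 k β P Q v V : ℂ) * b1 k β c P Q v V V') (v0 P Q B L)).2
  have f2 := (toFin (mw N B L) a
    (fun V V' => (a1 k β P Q v V : ℂ) * b1 k β c P Q v V V') (v0 P Q B L)).1
  have g1 : ∀ V : ZMod (a * j + s) → Wc N B L, frc P Q true V = Function.update V 0 (v0 P Q B L) :=
    fun V => by unfold frc; rw [if_pos rfl]
  have g2 : ∀ V : ZMod a → Wc N B L, frc P Q false V = V := fun V => by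
    unfold frc; rw [if_neg (by simp)]
  simp only [g1] at e1
  simp only [g2] at e2
  rw [e1, e2]
  rw [f1, f2]
  exact h

end T2H01.SE
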