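import Pool.Agent.T2H01.SE.Stm4

/-!
# Package TD : the torus with a frozen column and a frozen row is a box with cold walls
-/

set_option autoImplicit false
set_option linter.unusedSectionVars false

noncomputable section

open MeasureTheory Matrix
open scoped Matrix.Norms.Frobenius

namespace T2H01.SE.PkgTD

open T2H02.TT

/-- coordinates along an injective family of indices -/
lemma map_inj {ι κ X : Type} [MeasurableSpace X] (μ : Measure X) [IsProbabilityMeasure μ]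
    (f : κ → ι) (hf : Function.Injective f) :
    (Measure.infinitePi fun _ : ι => μ).map (fun (ω : ι → X) (k : κ) => ω (f k)) =
      Measure.infinitePi fun _ : κ => μ := by
  classical
  apply Measure.eq_infinitePi
  intro s t ht
  have hm : Measurable fun (ω : ι → X) (k : κ) => ω (f k) :=
    measurable_pi_lambda _ fun k => measurable_pi_apply (f k)
  rw [Measure.map_apply hm (MeasurableSet.pi s.countable_toSet fun i _ => ht i)]
  let t' : ι → Set X := fun i => if h : ∃ k, f k = i then t h.choose else Set.univ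
  have ht' : ∀ k, t' (f k) = t k := by
    intro k
    have h : ∃ k', f k' = f k := ⟨k, rfl⟩
    show (if h : ∃ k', f k' = f k then t h.choose else Set.univ) = t k
    rw [dif_pos h, hf h.choose_spec]
  have hpre : (fun (ω : ι → X) (k : κ) => ω (f k)) ⁻¹' Set.pi s t =
      Set.pi (s.image f) t' := by
    ext ω
    simp only [Set.mem_preimage, Set.mem_pi, Finset.mem_coe, Finset.mem_image,
      forall_exists_index, and_imp, forall_apply_eq_imp_iff₂, ht']
  rw [hpre, Measure.infinitePi_pi, Finset.prod_image fun a _ b _ h => hf h]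
  · exact Finset.prod_congr rfl fun k _ => by rw [ht']
  · intro i hi
    obtain ⟨k, _, rfl⟩ := Finset.mem_image.1 hi
    rw [ht']
    exact ht k

variable {N L : ℕ} [NeZero L]

/-- projection of the links of the plane lattice to the torus -/
def pj (A B : ℕ) (l : Lk L) : TL A B L :=
  ((((l.1.1.1 : ZMod A), (l.1.1.2 : ZMod B)), l.1.2), l.2)

lemma per_eq {A B : ℕ} (X : TC N A B L) (l : Lk L) : per X l = X (pj A B l) := rfl

/-- the box -/
abbrev bx (A B : ℕ) : Finset Pl := rc (1, 1) ((A : ℤ) - 1, (B : ℤ) - 1)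

lemma mem_bx (A B : ℕ) (x : Pl) : x ∈ bx A B ↔
    (1 ≤ x.1 ∧ x.1 ≤ (A : ℤ) - 1) ∧ (1 ≤ x.2 ∧ x.2 ≤ (B : ℤ) - 1) := by
  unfold bx rc
  rw [Finset.mem_product, Finset.mem_Icc, Finset.mem_Icc]

lemma mem_fdm (A B : ℕ) (x : Pl) : x ∈ fdm A B ↔
    (0 ≤ x.1 ∧ x.1 < (A : ℤ)) ∧ (0 ≤ x.2 ∧ x.2 < (B : ℤ)) := by
  unfold fdm
  rw [Finset.mem_product, Finset.mem_Ico, Finset.mem_Ico]

lemma pe_bd (m : Fin 4) : (0 ≤ (pe m).1 ∧ (pe m).1 ≤ 1) ∧ (0 ≤ (pe m).2 ∧ (pe m).2 ≤ 1) := by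
  fin_cases m <;> simp [pe]

lemma st_mem (l : Lk L) (a : Pl) : a ∈ st l ↔ a = l.1.1 ∨ a = l.1.1 + pe l.2 := by
  unfold st
  rw [Finset.mem_insert, Finset.mem_singleton]

lemma base_bd {A B : ℕ} {l : Lk L} (hl : l ∈ Frl L (bx A B)) :
    (0 ≤ l.1.1.1 ∧ l.1.1.1 < (A : ℤ)) ∧ (0 ≤ l.1.1.2 ∧ l.1.1.2 < (B : ℤ)) := by
  obtain ⟨a, h1, h2⟩ := (mem_Frl _ _).1 hl
  rw [mem_bx] at h2
  rw [st_mem] at h1
  have := pe_bd l.2
  rcases h1 with rfl | rfl
  · omega
  · simp only [Prod.fst_add, Prod.snd_add] at h2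
    omega

lemma pj_inj {A B : ℕ} : Function.Injective fun l : Lv L (bx A B) => pj A B l.1 := by
  rintro ⟨l, hl⟩ ⟨l', hl'⟩ h
  simp only at h
  have h1 := base_bd hl
  have h2 := base_bd hl'
  unfold pj at h
  simp only [Prod.mk.injEq] at h
  obtain ⟨⟨⟨e1, e2⟩, e3⟩, e4⟩ := h
  rw [ZMod.intCast_eq_intCast_iff] at e1 e2
  have f1 : l.1.1.1 = l'.1.1.1 := by
    have := e1
    unfold Int.ModEq at this
    rwa [Int.emod_eq_of_lt h1.1.1 h1.1.2, Int.emod_eq_of_lt h2.1.1 h2.1.2] at this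
  have f2 : l.1.1.2 = l'.1.1.2 := by
    have := e2
    unfold Int.ModEq at this
    rwa [Int.emod_eq_of_lt h1.2.1 h1.2.2, Int.emod_eq_of_lt h2.2.1 h2.2.2] at this
  rw [Subtype.mk.injEq]
  exact Prod.ext (Prod.ext (Prod.ext f1 f2) e3) e4

/-- the frozen periodic configuration agrees with the box configuration over the fundamental domain -/
lemma fzp_eq {A B : ℕ} (P Q : SU N) (X : TC N A B L) {x : Pl}
    (hx : x ∈ fdm A B) (i : Fin 4) (l : Lk L) (hl : l ∈ (spt (x, i) : Finset (Lk L))) :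
    fzp P Q true true A B (per X) l = xt P Q (bx A B) (rs (bx A B) (per X)) l := by
  have hcor : ∀ a ∈ st l, a ∈ cor (x, i) := fun a ha => (cor_iff (L := L) (x, i) a).2 ⟨l, hl, ha⟩
  rw [mem_fdm] at hx
  have hbd : ∀ a ∈ st l, (0 ≤ a.1 ∧ a.1 ≤ (A : ℤ)) ∧ (0 ≤ a.2 ∧ a.2 ≤ (B : ℤ)) := by
    intro a ha
    have h1 := hcor a ha
    have h2 : (x.1 ≤ a.1 ∧ a.1 ≤ x.1 + 1) ∧ (x.2 ≤ a.2 ∧ a.2 ≤ x.2 + 1) := by
      unfold cor at h1
      fin_cases i <;> simp at h1
      · rw [h1]; omega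
      · rcases h1 with rfl | rfl <;> simp
      · rcases h1 with rfl | rfl <;> simp
      · rcases h1 with rfl | rfl | rfl | rfl <;> simp
    omega
  by_cases h : l ∈ Frl L (bx A B)
  · rw [xt_of_mem P Q _ _ l h]
    unfold fzp
    rw [if_neg]
    · rfl
    · intro hc
      obtain ⟨a, h1, h2⟩ := (mem_Frl _ _).1 h
      have h3 := hc a h1
      rw [mem_bx] at h2
      unfold fzs at h3
      rcases h3 with ⟨-, h3⟩ | ⟨-, h3⟩
      · have := Int.le_of_dvd (by omega) h3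
        omega
      · have := Int.le_of_dvd (by omega) h3
        omega
  · rw [xt_of_not P Q _ _ l h]
    unfold fzp
    rw [if_pos]
    intro a ha
    have h1 := hbd a ha
    have h2 : a ∉ bx A B := fun h2 => h ((mem_Frl _ _).2 ⟨a, ha, h2⟩)
    rw [mem_bx] at h2
    unfold fzs
    by_cases h3 : a.1 = 0
    · exact Or.inl ⟨rfl, h3 ▸ dvd_zero _⟩
    by_cases h4 : a.1 = A
    · exact Or.inl ⟨rfl, h4 ▸ dvd_refl _⟩
    by_cases h5 : a.2 = 0
    · exact Or.inr ⟨rfl, h5 ▸ dvd_zero _⟩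
    by_cases h6 : a.2 = B
    · exact Or.inr ⟨rfl, h6 ▸ dvd_refl _⟩
    omega

lemma wch_loc (β : ℝ) (c : ℕ) (x : Pl) (X Y : Cf N L)
    (h : ∀ l ∈ (spt (x, 3) : Finset (Lk L)), X l = Y l) : wch N β c x X = wch N β c x Y := by
  unfold wch
  congr 1
  exact Finset.sum_congr rfl fun m _ => by rw [eP_loc _ x X Y h]

lemma en1_locT (k : ℕ) (τ : Tm) (X Y : Cf N L) (h : ∀ l ∈ (spt τ : Finset (Lk L)), X l = Y l) :
    en1 k X τ = en1 k Y τ := T2H02.TT.en1_loc k τ X Y h

lemma Wt_congr (k : ℕ) (β : ℝ) (c A B : ℕ) (X Y : Cf N L)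
    (h : ∀ x ∈ fdm A B, ∀ i, ∀ l ∈ (spt (x, i) : Finset (Lk L)), X l = Y l) :
    Wt k β c A B X = Wt k β c A B Y := by
  unfold Wt
  refine Finset.prod_congr rfl fun x hx => ?_
  have h1 : wch N β c x X = wch N β c x Y := wch_loc β c x X Y (h x hx 3)
  have h2 : ∀ i, en1 k X (x, i) = en1 k Y (x, i) := fun i => en1_locT k (x, i) X Y (h x hx i)
  rw [h1]
  simp only [h2]

/-- the integrand of the box -/
def FF (k : ℕ) (β : ℝ) (c : ℕ) (U : Finset Pl) (X : Cf N L) : ℂ :=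
  (∏ τ ∈ (tml U).filter (fun τ => τ.2 ≠ 3), (Real.exp (-β * en1 k X τ) : ℂ)) *
    ∏ τ ∈ (tml U).filter (fun τ => τ.2 = 3), wch N β c τ.1 X

lemma Zc_eq (k : ℕ) (β : ℝ) (c : ℕ) (U : Finset Pl) (η : Cf N L) :
    Zc k β c U η = ∫ ξ, FF k β c U (glue (Frl L U) ξ η) ∂(pm N L) := rfl

lemma FF_meas (k : ℕ) (β : ℝ) (c : ℕ) (U : Finset Pl) :
    Measurable (FF k β c U : Cf N L → ℂ) := by
  refine Continuous.measurable ?_
  unfold FF wch
  refine Continuous.mul ?_ ?_
  · refine continuous_finsetProd _ fun τ _ => ?_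
    exact Complex.continuous_ofReal.comp (continuous_const.mul (T2H02.TT.en1_cont k τ)).rexp
  · refine continuous_finsetProd _ fun τ _ => ?_
    refine Continuous.div_const (continuous_finsetSum _ fun m _ => ?_) _
    exact continuous_const.mul
      (Complex.continuous_ofReal.comp (continuous_const.mul (eP_cont _ _)).rexp)

/-- terms of the box are over the fundamental domain -/
lemma tml_fdm {A B : ℕ} {τ : Tm} (h : τ ∈ tml (bx A B)) : τ.1 ∈ fdm A B := by
  obtain ⟨a, h1, h2⟩ := (mem_tml _ _).1 h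
  rw [mem_bx] at h2
  rw [mem_fdm]
  obtain ⟨x, i⟩ := τ
  have h3 : (x.1 ≤ a.1 ∧ a.1 ≤ x.1 + 1) ∧ (x.2 ≤ a.2 ∧ a.2 ≤ x.2 + 1) := by
    unfold cor at h1
    fin_cases i <;> simp at h1
    · rw [h1]; omega
    · rcases h1 with rfl | rfl <;> simp
    · rcases h1 with rfl | rfl <;> simp
    · rcases h1 with rfl | rfl | rfl | rfl <;> simp
  simp only
  omega

/-- all cells over the fundamental domain touch the box -/
lemma cell_mem {A B : ℕ} (hA : 2 ≤ A) (hB : 2 ≤ B) {x : Pl} (hx : x ∈ fdm A B) :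
    ((x, 3) : Tm) ∈ tml (bx A B) := by
  rw [mem_fdm] at hx
  have hA' : (2 : ℤ) ≤ A := by exact_mod_cast hA
  have hB' : (2 : ℤ) ≤ B := by exact_mod_cast hB
  rw [mem_tml]
  refine ⟨(if x.1 = 0 then x.1 + 1 else x.1, if x.2 = 0 then x.2 + 1 else x.2), ?_, ?_⟩
  · unfold cor
    obtain ⟨x1, x2⟩ := x
    by_cases h1 : x1 = 0 <;> by_cases h2 : x2 = 0 <;> simp [h1, h2]
  · rw [mem_bx]
    simp only
    split_ifs <;> omega

/-- the weights over the fundamental domain are those of the box -/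
lemma Wt_eq {A B : ℕ} (hA : 2 ≤ A) (hB : 2 ≤ B) (k : ℕ) (β : ℝ) (c : ℕ) (P Q : SU N)
    (hV : ∀ τ : Tm, τ.2 ≠ 3 → en1 k (vc P Q : Cf N L) τ = 0)
    (X : Lv L (bx A B) → SU N) :
    Wt k β c A B (xt P Q (bx A B) X) = FF k β c (bx A B) (xt P Q (bx A B) X) := by
  obtain ⟨Y, hY⟩ : ∃ Y, Y = xt P Q (bx A B) X := ⟨_, rfl⟩
  rw [← hY]
  have hvac : ∀ τ : Tm, τ ∉ tml (bx A B) → τ.2 ≠ 3 → en1 k Y τ = 0 := by
    intro τ hτ h3
    rw [← hV τ h3]
    refine en1_locT k τ _ _ fun l hl => ?_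
    rw [hY]
    refine xt_of_not P Q _ _ l fun h => hτ ?_
    obtain ⟨a, h1, h2⟩ := (mem_Frl _ _).1 h
    exact (mem_tml _ _).2 ⟨a, (cor_iff (L := L) τ a).2 ⟨l, hl, h1⟩, h2⟩
  unfold Wt FF
  rw [Finset.prod_mul_distrib]
  congr 1
  · rw [← Finset.prod_product' (fdm A B) ({0, 1, 2} : Finset (Fin 4))
      (fun x i => (Real.exp (-β * en1 k Y (x, i)) : ℂ))]
    symm
    refine Finset.prod_subset ?_ ?_
    · intro τ hτ
      rw [Finset.mem_filter] at hτ
      rw [Finset.mem_product]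
      refine ⟨tml_fdm hτ.1, ?_⟩
      obtain ⟨x, i⟩ := τ
      have := hτ.2
      fin_cases i <;> simp_all
    · intro τ hτ hτ'
      rw [Finset.mem_product] at hτ
      have h3 : τ.2 ≠ 3 := by
        intro h
        rw [h] at hτ
        have := hτ.2
        simp at this
      rw [Finset.mem_filter, not_and_or] at hτ'
      rcases hτ' with h | h
      · rw [hvac τ h h3]
        simp
      · exact absurd h3 h
  · symm
    refine Finset.prod_bij (fun τ _ => τ.1) ?_ ?_ ?_ ?_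
    · intro τ hτ
      exact tml_fdm (Finset.mem_filter.1 hτ).1
    · intro τ hτ τ' hτ' h
      exact Prod.ext h ((Finset.mem_filter.1 hτ).2.trans (Finset.mem_filter.1 hτ').2.symm)
    · intro x hx
      exact ⟨(x, 3), Finset.mem_filter.2 ⟨cell_mem hA hB hx, rfl⟩, rfl⟩
    · intro τ hτ
      rfl

end T2H01.SE.PkgTD

namespace T2H01.SE

open T2H02.TT PkgTD

theorem pTD (hVL : S_VL) : S_TD := by
  intro N k L _ hN hk P Q hPQ β hβ c A B _ _ hA hB
  have hV : ∀ τ : Tm, τ.2 ≠ 3 → en1 k (vc P Q : Cf N L) τ = 0 := by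
    intro τ h3
    have h := (hVL N k L hN hk P Q hPQ).2.2 τ
    rw [← h]
    unfold en1 en
    split_ifs with h0 h1 h2
    · rfl
    · rfl
    · rfl
    · exfalso
      obtain ⟨x, i⟩ := τ
      fin_cases i <;> simp_all
  have h1 : TZc N L k β P Q c true true A B =
      ∫ X : TC N A B L, FF k β c (bx A B) (xt P Q (bx A B) (rs (bx A B) (per X)))
        ∂(Measure.infinitePi fun _ => hm N) := by
    unfold TZc
    refine integral_congr_ae (Filter.Eventually.of_forall fun X => ?_)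
    simp only
    rw [← Wt_eq hA hB k β c P Q hV]
    exact Wt_congr k β c A B _ _ fun x hx i l hl => fzp_eq P Q X hx i l hl
  have h2 : Zc k β c (bx A B) (vc P Q : Cf N L) =
      ∫ ξ, FF k β c (bx A B) (xt P Q (bx A B) (rs (bx A B) ξ)) ∂(pm N L) := by
    rw [Zc_eq]
    refine integral_congr_ae (Filter.Eventually.of_forall fun ξ => ?_)
    simp only
    have h3 : glue (Frl L (bx A B)) ξ (vc P Q) = xt P Q (bx A B) (rs (bx A B) ξ) := by
      funext l
      unfold glue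
      by_cases h : l ∈ Frl L (bx A B)
      · rw [if_pos h, xt_of_mem P Q _ _ l h]; rfl
      · rw [if_neg h, xt_of_not P Q _ _ l h]
    rw [h3]
  have hFm : Measurable fun Y : Lv L (bx A B) → SU N => FF k β c (bx A B) (xt P Q (bx A B) Y) :=
    (FF_meas k β c (bx A B)).comp (xt_meas P Q (bx A B))
  have hpj : Measurable fun (X : TC N A B L) (l : Lv L (bx A B)) => X (pj A B l.1) :=
    measurable_pi_lambda _ fun l => measurable_pi_apply _
  rw [h1]
  show _ = Zc k β c (bx A B) (vc P Q : Cf N L)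
  rw [h2]
  have e1 : ∫ ξ, FF k β c (bx A B) (xt P Q (bx A B) (rs (bx A B) ξ)) ∂(pm N L) =
      ∫ Y, FF k β c (bx A B) (xt P Q (bx A B) Y) ∂(Measure.infinitePi fun _ : Lv L (bx A B) =>
        hm N) := by
    rw [← map_rs (bx A B), integral_map (rs_meas (bx A B)).aemeasurable hFm.aestronglyMeasurable]
  have e2 : ∫ X : TC N A B L, FF k β c (bx A B) (xt P Q (bx A B) (rs (bx A B) (per X)))
        ∂(Measure.infinitePi fun _ => hm N) =
      ∫ Y, FF k β c (bx A B) (xt P Q (bx A B) Y) ∂(Measure.infinitePi fun _ : Lv L (bx A B) =>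
        hm N) := by
    rw [← map_inj (hm N) (fun l : Lv L (bx A B) => pj A B l.1) pj_inj,
      integral_map hpj.aemeasurable hFm.aestronglyMeasurable]
    rfl
  rw [e1, e2]

end T2H01.SE
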