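import Pool.Agent.T2H01.SE.Stm2
import Pool.Agent.T2H02.TT.OA

/-!
# Package ZT : partition functions with electric charge
-/

set_option autoImplicit false
set_option linter.unusedSectionVars false
set_option linter.unusedVariables false

noncomputable section

open MeasureTheory Matrix
open scoped Matrix.Norms.Frobenius

namespace T2H01.SE

open T2H02.TT

namespace PkgZT

variable {N L : ℕ} [NeZero L]

lemma meas_glue' (J : Finset (Lk L)) (η : Cf N L) : Measurable fun ξ : Cf N L => glue J ξ η := by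
  refine measurable_pi_iff.2 fun l => ?_
  unfold glue
  split_ifs
  · exact measurable_pi_apply l
  · exact measurable_const

lemma wch_zero (k : ℕ) (β : ℝ) (v : Pl) (X : Cf N L) :
    wch N β 0 v X = ((wt k β (v, 3) X : ℝ) : ℂ) := by
  unfold wch wt
  simp

lemma en_eq (k : ℕ) (X : Cf N L) (τ : Tm) (h : τ.2 ≠ 3) : en k X τ = en1 k X τ := by
  obtain ⟨x, i⟩ := τ
  unfold en en1
  simp only at h ⊢
  fin_cases i <;> first | rfl | exact absurd rfl h

lemma wt_eq (k : ℕ) (β : ℝ) (X : Cf N L) (τ : Tm) (h : τ.2 ≠ 3) :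
    wt k β τ X = Real.exp (-β * en1 k X τ) := by
  unfold wt
  rw [if_neg h, en_eq k X τ h]

/-- the integrand -/
def Ic (k : ℕ) (β : ℝ) (c : ℕ) (U : Finset Pl) (X : Cf N L) : ℂ :=
  (∏ τ ∈ (tml U).filter (fun τ => τ.2 ≠ 3), (Real.exp (-β * en1 k X τ) : ℂ)) *
    ∏ τ ∈ (tml U).filter (fun τ => τ.2 = 3), wch N β c τ.1 X

lemma Ic_zero (k : ℕ) (β : ℝ) (U : Finset Pl) (X : Cf N L) :
    Ic k β 0 U X = ((∏ τ ∈ tml U, wt k β τ X : ℝ) : ℂ) := by
  unfold Ic
  have h1 := Finset.prod_filter_mul_prod_filter_not (tml U) (fun τ : Tm => τ.2 = 3)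
    (fun τ => wt k β τ X)
  rw [← h1]
  push_cast
  rw [mul_comm]
  congr 1
  · refine Finset.prod_congr rfl fun τ hτ => ?_
    obtain ⟨v, i⟩ := τ
    have : i = 3 := (Finset.mem_filter.1 hτ).2
    subst this
    exact wch_zero k β v X
  · refine Finset.prod_congr rfl fun τ hτ => ?_
    rw [wt_eq k β X τ (Finset.mem_filter.1 hτ).2]
    push_cast
    rfl

lemma norm_wch_le (hN : 0 < N) (k : ℕ) (β : ℝ) (c : ℕ) (v : Pl) (X : Cf N L) :
    ‖wch N β c v X‖ ≤ wt k β (v, 3) X := by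
  unfold wch wt
  rw [if_pos rfl, norm_div, Complex.norm_natCast]
  gcongr
  refine (norm_sum_le _ _).trans ?_
  refine Finset.sum_le_sum fun m _ => ?_
  rw [norm_mul, norm_pow, PkgOA.om_norm, one_pow, one_mul, Complex.norm_real, Real.norm_eq_abs,
    abs_of_pos (Real.exp_pos _)]

lemma norm_Ic_le (hN : 0 < N) (k : ℕ) (β : ℝ) (c : ℕ) (U : Finset Pl) (X : Cf N L) :
    ‖Ic k β c U X‖ ≤ ∏ τ ∈ tml U, wt k β τ X := by
  unfold Ic
  have h1 := Finset.prod_filter_mul_prod_filter_not (tml U) (fun τ : Tm => τ.2 = 3)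
    (fun τ => wt k β τ X)
  rw [← h1, mul_comm, norm_mul, norm_prod, norm_prod]
  refine mul_le_mul ?_ ?_ (Finset.prod_nonneg fun _ _ => norm_nonneg _)
    (Finset.prod_nonneg fun τ _ => (wt_pos k β τ X hN).le)
  · refine Finset.prod_le_prod (fun _ _ => norm_nonneg _) fun τ hτ => ?_
    obtain ⟨v, i⟩ := τ
    have : i = 3 := (Finset.mem_filter.1 hτ).2
    subst this
    exact norm_wch_le hN k β c v X
  · refine Finset.prod_le_prod (fun _ _ => norm_nonneg _) fun τ hτ => ?_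
    rw [wt_eq k β X τ (Finset.mem_filter.1 hτ).2, Complex.norm_real, Real.norm_eq_abs,
      abs_of_pos (Real.exp_pos _)]

lemma Zc_eq (k : ℕ) (β : ℝ) (c : ℕ) (U : Finset Pl) (η : Cf N L) :
    Zc k β c U η = ∫ ξ, Ic k β c U (glue (Frl L U) ξ η) ∂(pm N L) := rfl

lemma Zc_zero (k : ℕ) (β : ℝ) (U : Finset Pl) (η : Cf N L) :
    Zc k β 0 U η = ((∫ ξ, ∏ τ ∈ tml U, wt k β τ (glue (Frl L U) ξ η) ∂(pm N L) : ℝ) : ℂ) := by
  rw [Zc_eq, ← integral_complex_ofReal]
  exact integral_congr_ae (Filter.Eventually.of_forall fun ξ => Ic_zero k β U _)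

lemma wprod_int (hN : 0 < N) (k : ℕ) {β : ℝ} (hβ : 0 ≤ β) (U : Finset Pl) (η : Cf N L) :
    Integrable (fun ξ : Cf N L => ∏ τ ∈ tml U, wt k β τ (glue (Frl L U) ξ η)) (pm N L) := by
  have hmeas : Measurable fun ξ : Cf N L => ∏ τ ∈ tml U, wt k β τ (glue (Frl L U) ξ η) :=
    Finset.measurable_prod _ fun τ _ => (wt_cont k β τ).measurable.comp (meas_glue' (Frl L U) η)
  refine Integrable.of_bound hmeas.aestronglyMeasurable 1 (Filter.Eventually.of_forall fun ξ => ?_)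
  rw [Real.norm_eq_abs, abs_of_nonneg (Finset.prod_nonneg fun τ _ => (wt_pos k β τ _ hN).le)]
  exact Finset.prod_le_one (fun τ _ => (wt_pos k β τ _ hN).le) fun τ _ => wt_le k β hβ τ _ hN

lemma norm_Zc_le (hN : 0 < N) (k : ℕ) {β : ℝ} (hβ : 0 ≤ β) (c : ℕ) (U : Finset Pl) (η : Cf N L) :
    ‖Zc k β c U η‖ ≤ ‖Zc k β 0 U η‖ := by
  rw [Zc_zero, Complex.norm_real, Real.norm_eq_abs]
  refine le_trans ?_ (le_abs_self _)
  rw [Zc_eq]
  exact norm_integral_le_of_norm_le (wprod_int hN k hβ U η)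
    (Filter.Eventually.of_forall fun ξ => norm_Ic_le hN k β c U _)

/-! ### expansion over the fluxes -/

/-- extension by zero -/
def ex (U : Finset Pl) (s : {x // x ∈ cl U} → Fin N) : Pl → ℤ := fun x =>
  if h : x ∈ cl U then ((s ⟨x, h⟩ : ℕ) : ℤ) else 0

lemma prod_kind3 {M : Type} [CommMonoid M] (U : Finset Pl) (f : Pl → M) :
    ∏ τ ∈ (tml U).filter (fun τ => τ.2 = 3), f τ.1 = ∏ x ∈ cl U, f x := by
  rw [cl, Finset.prod_image]
  intro τ hτ τ' hτ' h
  have h1 : τ.2 = 3 := (Finset.mem_filter.1 hτ).2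
  have h2 : τ'.2 = 3 := (Finset.mem_filter.1 hτ').2
  exact Prod.ext h (h1.trans h2.symm)

lemma EE_split (k : ℕ) (s : Pl → ℤ) (U : Finset Pl) (X : Cf N L) :
    EE k s U X = (∑ τ ∈ (tml U).filter (fun τ => τ.2 ≠ 3), en1 k X τ) +
      ∑ x ∈ cl U, eP X (oz N (s x)) x := by
  unfold EE
  have h1 := Finset.sum_filter_add_sum_filter_not (tml U) (fun τ : Tm => τ.2 = 3)
    (fun τ => enf k s X τ)
  rw [← h1, add_comm]
  congr 1
  · refine Finset.sum_congr rfl fun τ hτ => ?_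
    unfold enf
    rw [if_neg (Finset.mem_filter.1 hτ).2]
  · have h2 : ∑ τ ∈ (tml U).filter (fun τ => τ.2 = 3), enf k s X τ =
        ∑ τ ∈ (tml U).filter (fun τ => τ.2 = 3), (fun x => eP X (oz N (s x)) x) τ.1 := by
      refine Finset.sum_congr rfl fun τ hτ => ?_
      unfold enf
      rw [if_pos (Finset.mem_filter.1 hτ).2]
    rw [h2]
    exact prod_kind3 (M := Multiplicative ℝ) U (fun x => eP X (oz N (s x)) x)

lemma oz_mul_nat (hadd : ∀ a b : ℤ, oz N (a + b) = oz N a * oz N b) (h0 : oz N 0 = 1) (a : ℤ)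
    (c : ℕ) : oz N (c * a) = oz N a ^ c := by
  induction c with
  | zero => simpa using h0
  | succ c ih =>
    rw [show ((c + 1 : ℕ) : ℤ) * a = c * a + a by push_cast; ring, hadd, ih, pow_succ]

lemma oz_sum (hadd : ∀ a b : ℤ, oz N (a + b) = oz N a * oz N b) (h0 : oz N 0 = 1) {ι : Type}
    (S : Finset ι) (f : ι → ℤ) : oz N (∑ i ∈ S, f i) = ∏ i ∈ S, oz N (f i) := by
  classical
  induction S using Finset.induction_on with
  | empty => simpa using h0
  | insert i S hi ih => rw [Finset.sum_insert hi, Finset.prod_insert hi, hadd, ih]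

lemma fin_sum [NeZero N] {ι : Type} (S : Finset ι) (f : ι → Fin N) :
    (N : ℤ) ∣ ∑ i ∈ S, ((f i : ℕ) : ℤ) - (((∑ i ∈ S, f i : Fin N) : ℕ) : ℤ) := by
  classical
  induction S using Finset.induction_on with
  | empty => simp
  | insert i S hi ih =>
    rw [Finset.sum_insert hi, Finset.sum_insert hi, Fin.val_add]
    have h1 : (N : ℤ) ∣ (((f i : ℕ) + ((∑ i ∈ S, f i : Fin N) : ℕ) : ℕ) : ℤ) -
        ((((f i : ℕ) + ((∑ i ∈ S, f i : Fin N) : ℕ)) % N : ℕ) : ℤ) := by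
      have := Nat.div_add_mod ((f i : ℕ) + ((∑ i ∈ S, f i : Fin N) : ℕ)) N
      refine ⟨(((f i : ℕ) + ((∑ i ∈ S, f i : Fin N) : ℕ)) / N : ℕ), ?_⟩
      have h2 : (((f i : ℕ) + ((∑ i ∈ S, f i : Fin N) : ℕ) : ℕ) : ℤ) =
        (N : ℤ) * ((((f i : ℕ) + ((∑ i ∈ S, f i : Fin N) : ℕ)) / N : ℕ) : ℤ) +
          ((((f i : ℕ) + ((∑ i ∈ S, f i : Fin N) : ℕ)) % N : ℕ) : ℤ) := by
        exact_mod_cast this.symm
      rw [h2]
      ring
    have h3 := dvd_add ih h1
    have h5 : ((f i : ℕ) : ℤ) + ∑ i ∈ S, ((f i : ℕ) : ℤ) -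
        ((((f i : ℕ) + ((∑ i ∈ S, f i : Fin N) : ℕ)) % N : ℕ) : ℤ) =
        ∑ i ∈ S, ((f i : ℕ) : ℤ) - (((∑ i ∈ S, f i : Fin N) : ℕ) : ℤ) +
          ((((f i : ℕ) + ((∑ i ∈ S, f i : Fin N) : ℕ) : ℕ) : ℤ) -
            ((((f i : ℕ) + ((∑ i ∈ S, f i : Fin N) : ℕ)) % N : ℕ) : ℤ)) := by
      rw [Nat.cast_add (f i : ℕ)]
      abel
    rw [h5]
    exact h3

/-- averaging over a finite group -/
lemma group_sum {G ι : Type} [AddCommGroup G] [Fintype G] [Fintype ι] [DecidableEq ι]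
    (i₀ : ι) (g : G → ℂ) :
    (Fintype.card G : ℂ) * ∑ s : ι → G, g (∑ i, s i) =
      (Fintype.card G : ℂ) ^ Fintype.card ι * ∑ t : G, g t := by
  have h1 : ∀ t : G, ∑ s : ι → G, g (∑ i, s i) = ∑ s : ι → G, g (∑ i, s i + t) := by
    intro t
    rw [← Equiv.sum_comp (Equiv.addRight (Pi.single i₀ t : ι → G)) (fun s : ι → G => g (∑ i, s i))]
    refine Finset.sum_congr rfl fun s _ => ?_
    congr 1
    simp only [Equiv.coe_addRight, Pi.add_apply, Finset.sum_add_distrib]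
    congr 1
    simp
  have h2 : (Fintype.card G : ℂ) * ∑ s : ι → G, g (∑ i, s i) =
      ∑ t : G, ∑ s : ι → G, g (∑ i, s i + t) := by
    rw [← Finset.sum_congr rfl fun t _ => h1 t, Finset.sum_const, Finset.card_univ, nsmul_eq_mul]
  rw [h2, Finset.sum_comm]
  have h3 : ∀ s : ι → G, ∑ t : G, g (∑ i, s i + t) = ∑ t : G, g t := fun s =>
    Equiv.sum_comp (Equiv.addLeft (∑ i, s i)) g
  rw [Finset.sum_congr rfl fun s _ => h3 s, Finset.sum_const, Finset.card_univ, nsmul_eq_mul,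
    Fintype.card_fun]
  push_cast
  rfl

lemma Ic_expand (hadd : ∀ a b : ℤ, oz N (a + b) = oz N a * oz N b) (h0 : oz N 0 = 1)
    (hom : ∀ n : ℕ, oz N (n : ℤ) = om N n) (k : ℕ) (β : ℝ) (c : ℕ) (U : Finset Pl) (X : Cf N L) :
    Ic k β c U X = (1 / (N : ℂ) ^ (cl U).card) * ∑ s : {x // x ∈ cl U} → Fin N,
      oz N (c * ∑ x, ((s x : ℕ) : ℤ)) * (Real.exp (-β * EE k (ex U s) U X) : ℂ) := by
  unfold Ic
  rw [prod_kind3 U (fun x => wch N β c x X), ← Finset.prod_coe_sort (cl U)]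
  unfold wch
  rw [Finset.prod_div_distrib, Finset.prod_const, Finset.prod_univ_sum, Finset.card_univ,
    Fintype.card_coe, Fintype.piFinset_univ, one_div, div_eq_mul_inv, mul_comm _ ((N : ℂ) ^ _)⁻¹,
    mul_left_comm, Finset.mul_sum]
  congr 1
  refine Finset.sum_congr rfl fun s _ => ?_
  rw [EE_split, mul_add, Real.exp_add, Finset.prod_mul_distrib]
  have h1 : ∏ x : {x // x ∈ cl U}, om N (s x) ^ c = oz N (c * ∑ x, ((s x : ℕ) : ℤ)) := by
    rw [oz_mul_nat hadd h0, oz_sum hadd h0, Finset.prod_pow]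
    exact congrArg (· ^ c) (Finset.prod_congr rfl fun x _ => (hom _).symm)
  rw [h1]
  have h2 : (∏ x : {x // x ∈ cl U}, (Real.exp (-β * eP X (om N (s x)) x) : ℂ)) =
      (Real.exp (-β * ∑ x ∈ cl U, eP X (oz N (ex U s x)) x) : ℂ) := by
    rw [Finset.mul_sum, Real.exp_sum, ← Finset.prod_coe_sort (cl U)]
    push_cast
    refine Finset.prod_congr rfl fun x _ => ?_
    have h3 : ex U s x = ((s x : ℕ) : ℤ) := by
      unfold ex
      rw [dif_pos x.2]
    rw [h3, hom]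
  rw [h2]
  have h4 : (∏ τ ∈ (tml U).filter (fun τ => τ.2 ≠ 3), (Real.exp (-β * en1 k X τ) : ℂ)) =
      (Real.exp (-β * ∑ τ ∈ (tml U).filter (fun τ => τ.2 ≠ 3), en1 k X τ) : ℂ) := by
    rw [Finset.mul_sum, Real.exp_sum]
    push_cast
    rfl
  rw [h4]
  push_cast
  ring

lemma Ef_int (k : ℕ) {β : ℝ} (hβ : 0 ≤ β) (s : Pl → ℤ) (U : Finset Pl) (η : Cf N L) :
    Integrable (fun ξ : Cf N L => (Real.exp (-β * EE k s U (glue (Frl L U) ξ η)) : ℂ)) (pm N L) := by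
  have hm : Measurable fun X : Cf N L => (Real.exp (-β * EE k s U X) : ℂ) := by
    unfold EE
    exact (Complex.continuous_ofReal.comp ((continuous_const.mul
      (continuous_finsetSum _ fun τ _ => enf_cont k s τ)).rexp)).measurable
  refine Integrable.of_bound (hm.comp (meas_glue' (Frl L U) η)).aestronglyMeasurable 1
    (Filter.Eventually.of_forall fun ξ => ?_)
  refine PkgOA.exp_norm_le hβ ?_
  exact Finset.sum_nonneg fun τ _ => enf_nonneg k s _ τ

lemma Zc_expand (hadd : ∀ a b : ℤ, oz N (a + b) = oz N a * oz N b) (h0 : oz N 0 = 1)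
    (hom : ∀ n : ℕ, oz N (n : ℤ) = om N n) (k : ℕ) {β : ℝ} (hβ : 0 ≤ β) (c : ℕ) (U : Finset Pl)
    (η : Cf N L) :
    Zc k β c U η = (1 / (N : ℂ) ^ (cl U).card) * ∑ s : {x // x ∈ cl U} → Fin N,
      oz N (c * ∑ x, ((s x : ℕ) : ℤ)) * (Zf k β (ex U s) U η : ℂ) := by
  rw [Zc_eq]
  simp only [Ic_expand hadd h0 hom]
  rw [integral_const_mul, integral_finsetSum]
  · congr 1
    refine Finset.sum_congr rfl fun s _ => ?_
    rw [integral_const_mul]
    congr 1
    rw [integral_complex_ofReal]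
    rfl
  · intro s _
    exact (Ef_int k hβ (ex U s) U η).const_mul _

end PkgZT

open PkgZT in
theorem pZT (hVA : S_VA) (hVS : S_VS) : S_ZT := by
  intro N k L _ hN β hβ
  obtain ⟨hadd, hone, hom, -, hper, -, -, -⟩ := hVA N k L hN
  have hN0 : 0 < N := by omega
  have : NeZero N := ⟨by omega⟩
  have hNC : (N : ℂ) ≠ 0 := by exact_mod_cast hN0.ne'
  have h0 : oz N 0 = 1 := (hone 0).2 (dvd_zero _)
  refine ⟨?_, ?_, fun c U η => norm_Zc_le hN0 k hβ c U η⟩
  · intro c a b h1 h2 η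
    obtain ⟨g, hg⟩ : ∃ g : Fin N → ℂ, g = fun n : Fin N => oz N (c * ((n : ℕ) : ℤ)) *
      (Zf k β (dl a ((n : ℕ) : ℤ)) (rc a b) η : ℂ) := ⟨_, rfl⟩
    have ha : a ∈ cl (rc a b) := by
      rw [mem_cl]
      refine ⟨a, by simp [cor], ?_⟩
      rw [rc, Finset.mem_product, Finset.mem_Icc, Finset.mem_Icc]
      exact ⟨⟨le_rfl, h1⟩, ⟨le_rfl, h2⟩⟩
    rw [Zc_expand hadd h0 hom k hβ]
    have h3 : ∀ s : {x // x ∈ cl (rc a b)} → Fin N,
        oz N (c * ∑ x, ((s x : ℕ) : ℤ)) * (Zf k β (ex (rc a b) s) (rc a b) η : ℂ) = g (∑ x, s x) := by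
      intro s
      have h4 := fin_sum Finset.univ s
      have e1 : oz N (c * ∑ x, ((s x : ℕ) : ℤ)) = oz N (c * (((∑ x, s x : Fin N) : ℕ) : ℤ)) := by
        refine hper _ _ ?_
        rw [← mul_sub]
        exact Dvd.dvd.mul_left h4 _
      have e2 : Zf k β (ex (rc a b) s) (rc a b) η =
          Zf k β (dl a (((∑ x, s x : Fin N) : ℕ) : ℤ)) (rc a b) η := by
        refine hVS N k L hN β hβ a b h1 h2 _ _ η ?_
        rw [Finset.sum_sub_distrib]
        have h5 : ∑ x ∈ cl (rc a b), ex (rc a b) s x = ∑ x, ((s x : ℕ) : ℤ) := by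
          rw [← Finset.sum_coe_sort (cl (rc a b))]
          refine Finset.sum_congr rfl fun x _ => ?_
          unfold ex
          rw [dif_pos x.2]
        have h6 : ∑ x ∈ cl (rc a b), dl a (((∑ x, s x : Fin N) : ℕ) : ℤ) x =
            (((∑ x, s x : Fin N) : ℕ) : ℤ) := by
          unfold dl
          rw [Finset.sum_ite_eq' (cl (rc a b)) a, if_pos ha]
        rw [h5, h6]
        exact h4
      rw [e1, e2, hg]
    rw [Finset.sum_congr rfl fun s _ => h3 s]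
    have h7 := group_sum (G := Fin N) (⟨a, ha⟩ : {x // x ∈ cl (rc a b)}) g
    rw [Fintype.card_fin, Fintype.card_coe] at h7
    rw [mul_left_comm, h7, ← mul_assoc, one_div, inv_mul_cancel₀ (pow_ne_zero _ hNC), one_mul,
      Finset.sum_range (fun n => om N (c * n) * (Zf k β (dl a n) (rc a b) η : ℂ))]
    refine Finset.sum_congr rfl fun n _ => ?_
    have e1 : oz N (c * ((n : ℕ) : ℤ)) = om N (c * (n : ℕ)) := by
      rw [← hom]
      push_cast
      rfl
    rw [hg, ← e1]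
  · intro P Q U
    rw [Zc_zero]
    rfl

end T2H01.SE
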