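import Pool.Agent.T2H01.SE.Stm4
import Pool.Agent.T2H01.SE.RT
import Pool.Agent.T2H01.SE.ZT
import Pool.Agent.T2H02.TT.F

/-!
# Package TE : boundary conditions cost at most `exp (C β #boundary)`
-/

set_option autoImplicit false
set_option linter.unusedSectionVars false
set_option linter.unusedVariables false

noncomputable section

open MeasureTheory Matrix
open scoped Matrix.Norms.Frobenius

namespace T2H01.SE

open T2H02.TT

namespace PkgTE

lemma wt_low (hG3 : S_G3) (N k L : ℕ) [NeZero L] (hN : 2 ≤ N) :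
    ∃ K : ℝ, 0 ≤ K ∧ ∀ (β : ℝ), 1 ≤ β → ∀ (τ : Tm) (X : Cf N L),
      1 ≤ Real.exp (K * β) * wt k β τ X := by
  obtain ⟨C, hC, -, h2, h3⟩ := hG3 N k L hN
  have hlog : 0 ≤ Real.log N := Real.log_natCast_nonneg N
  refine ⟨C + Real.log N, by linarith, ?_⟩
  intro β hβ τ X
  have hN0 : (0 : ℝ) < N := by exact_mod_cast (by omega : 0 < N)
  have h4 := (h3 β X τ (by linarith)).1
  have h5 := h2 X τ
  refine le_trans ?_ (mul_le_mul_of_nonneg_left h4 (Real.exp_pos _).le)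
  have h7 : (1 : ℝ) / N = Real.exp (-Real.log N) := by
    rw [Real.exp_neg, Real.exp_log hN0, one_div]
  rw [div_eq_mul_one_div, h7, ← Real.exp_add, ← Real.exp_add]
  refine Real.one_le_exp ?_
  have h8 : 0 ≤ β * (C - en k X τ) := mul_nonneg (by linarith) (by linarith)
  have h9 : 0 ≤ Real.log N * (β - 1) := mul_nonneg hlog (by linarith)
  nlinarith

variable {N L : ℕ} [NeZero L]

lemma cmp (k : ℕ) {β E : ℝ} (hN : 0 < N) (hβ : 0 ≤ β)
    (hE : ∀ (τ : Tm) (X : Cf N L), 1 ≤ E * wt k β τ X)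
    (hE1 : 1 ≤ E) (S T T₀ : Finset Tm) (hST : S ⊆ T) (X Y : Cf N L)
    (h : ∀ τ ∈ T, τ ∉ T₀ → τ ∈ S ∧ ∀ l ∈ (spt τ : Finset (Lk L)), X l = Y l) :
    ∏ τ ∈ S, wt k β τ X ≤ E ^ T₀.card * ∏ τ ∈ T, wt k β τ Y := by
  classical
  have h1 : ∏ τ ∈ S, wt k β τ X = ∏ τ ∈ T, if τ ∈ S then wt k β τ X else 1 := by
    rw [Finset.prod_ite_mem, Finset.inter_eq_right.2 hST]
  rw [h1]
  calc ∏ τ ∈ T, (if τ ∈ S then wt k β τ X else 1)
      ≤ ∏ τ ∈ T, ((if τ ∈ T₀ then E else 1) * wt k β τ Y) := by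
        refine Finset.prod_le_prod (fun τ _ => ?_) fun τ hτ => ?_
        · split_ifs
          · exact (wt_pos k β τ X hN).le
          · exact zero_le_one
        · by_cases h0 : τ ∈ T₀
          · rw [if_pos h0]
            refine le_trans ?_ (hE τ Y)
            split_ifs
            · exact wt_le k β hβ τ X hN
            · exact le_rfl
          · obtain ⟨hS, hl⟩ := h τ hτ h0
            rw [if_neg h0, if_pos hS, one_mul, wt_loc k β τ X Y hl]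
    _ = (∏ τ ∈ T, if τ ∈ T₀ then E else 1) * ∏ τ ∈ T, wt k β τ Y := Finset.prod_mul_distrib
    _ ≤ E ^ T₀.card * ∏ τ ∈ T, wt k β τ Y := by
        refine mul_le_mul_of_nonneg_right ?_
          (Finset.prod_nonneg fun τ _ => (wt_pos k β τ Y hN).le)
        rw [Finset.prod_ite_mem, Finset.prod_const]
        exact pow_le_pow_right₀ hE1 (Finset.card_le_card Finset.inter_subset_right)

lemma cor_box (τ : Tm) (a : Pl) (h : a ∈ cor τ) :
    (a.1 = τ.1.1 ∨ a.1 = τ.1.1 + 1) ∧ (a.2 = τ.1.2 ∨ a.2 = τ.1.2 + 1) := by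
  obtain ⟨x, i⟩ := τ
  fin_cases i
  · rcases (mem_cor0 x a).1 h with rfl
    simp
  · rcases (mem_cor1 x a).1 h with rfl | rfl <;> simp
  · rcases (mem_cor2 x a).1 h with rfl | rfl <;> simp
  · rcases (mem_cor3 x a).1 h with rfl | rfl | rfl | rfl <;> simp

/-! ### first part -/

lemma Wt_zero (k : ℕ) (β : ℝ) (A B : ℕ) (X : Cf N L) :
    Wt k β 0 A B X =
      ((∏ τ ∈ fdm A B ×ˢ (Finset.univ : Finset (Fin 4)), wt k β τ X : ℝ) : ℂ) := by
  unfold Wt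
  rw [Finset.prod_product]
  push_cast
  refine Finset.prod_congr rfl fun x _ => ?_
  rw [PkgZT.wch_zero k, Fin.prod_univ_four, Finset.prod_insert (by decide),
    Finset.prod_insert (by decide), Finset.prod_singleton,
    PkgZT.wt_eq k β X (x, 0) (by simp), PkgZT.wt_eq k β X (x, 1) (by simp),
    PkgZT.wt_eq k β X (x, 2) (by simp)]
  push_cast
  ring

lemma fzp_ff (P Q : SU N) (A B : ℕ) (X : Cf N L) : fzp P Q false false A B X = X := by
  funext l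
  unfold fzp
  rw [if_neg]
  intro h
  have := h l.1.1 ((mem_st l _).2 (Or.inl rfl))
  unfold fzs at this
  simp at this

lemma fzp_meas (P Q : SU N) (u v : Bool) (A B : ℕ) [NeZero A] [NeZero B] :
    Measurable fun X : TC N A B L => fzp P Q u v A B (per X) := by
  refine measurable_pi_lambda _ fun l => ?_
  unfold fzp
  split_ifs
  · exact measurable_const
  · exact measurable_pi_apply _

/-- the integrand of `TZc` for the charge `0` -/
def FT (k : ℕ) (β : ℝ) (P Q : SU N) (u v : Bool) (A B : ℕ) [NeZero A] [NeZero B]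
    (X : TC N A B L) : ℝ :=
  ∏ τ ∈ fdm A B ×ˢ (Finset.univ : Finset (Fin 4)), wt k β τ (fzp P Q u v A B (per X))

lemma FT_int (k : ℕ) {β : ℝ} (hN : 0 < N) (hβ : 0 ≤ β) (P Q : SU N) (u v : Bool) (A B : ℕ)
    [NeZero A] [NeZero B] :
    Integrable (FT (L := L) k β P Q u v A B) (Measure.infinitePi fun _ => hm N) := by
  have hmeas : Measurable (FT (L := L) k β P Q u v A B) :=
    Finset.measurable_prod _ fun τ _ => (wt_cont k β τ).measurable.comp (fzp_meas P Q u v A B)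
  refine Integrable.of_bound hmeas.aestronglyMeasurable 1 (Filter.Eventually.of_forall fun X => ?_)
  unfold FT
  rw [Real.norm_eq_abs, abs_of_nonneg (Finset.prod_nonneg fun τ _ => (wt_pos k β τ _ hN).le)]
  exact Finset.prod_le_one (fun τ _ => (wt_pos k β τ _ hN).le) fun τ _ => wt_le k β hβ τ _ hN

lemma TZc_zero (k : ℕ) (β : ℝ) (hN : 0 < N) (P Q : SU N) (u v : Bool) (A B : ℕ)
    [NeZero A] [NeZero B] :
    ‖TZc N L k β P Q 0 u v A B‖ =
      ∫ X, FT (L := L) k β P Q u v A B X ∂(Measure.infinitePi fun _ => hm N) := by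
  have h1 : TZc N L k β P Q 0 u v A B =
      ((∫ X, FT (L := L) k β P Q u v A B X ∂(Measure.infinitePi fun _ => hm N) : ℝ) : ℂ) := by
    unfold TZc
    rw [← integral_complex_ofReal]
    exact integral_congr_ae (Filter.Eventually.of_forall fun X => Wt_zero k β A B _)
  rw [h1, Complex.norm_real, Real.norm_eq_abs, abs_of_nonneg]
  exact integral_nonneg fun X => Finset.prod_nonneg fun τ _ => (wt_pos k β τ _ hN).le

/-- corners of the terms near the frozen column or row -/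
def bdx (A B : ℕ) : Finset Pl :=
  (({0, (A : ℤ) - 1} : Finset ℤ) ×ˢ Finset.Ico 0 (B : ℤ)) ∪
    (Finset.Ico 0 (A : ℤ) ×ˢ ({0, (B : ℤ) - 1} : Finset ℤ))

lemma bdx_card (A B : ℕ) : (bdx A B).card ≤ 2 * B + A * 2 := by
  unfold bdx
  refine (Finset.card_union_le _ _).trans ?_
  rw [Finset.card_product, Finset.card_product, Int.card_Ico, Int.card_Ico]
  have h1 : ({0, (A : ℤ) - 1} : Finset ℤ).card ≤ 2 := Finset.card_le_two
  have h2 : ({0, (B : ℤ) - 1} : Finset ℤ).card ≤ 2 := Finset.card_le_two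
  have h3 : ((B : ℤ) - 0).toNat = B := by simp
  have h4 : ((A : ℤ) - 0).toNat = A := by simp
  rw [h3, h4]
  exact Nat.add_le_add (Nat.mul_le_mul_right _ h1) (Nat.mul_le_mul_left _ h2)

lemma dvd_end (A : ℕ) (m x : ℤ) (hx : 0 ≤ x) (hx' : x < A) (hm : m = x ∨ m = x + 1)
    (hd : (A : ℤ) ∣ m) : x = 0 ∨ x = (A : ℤ) - 1 := by
  by_cases h0 : m = 0
  · left; omega
  · have h1 : 0 < m := by omega
    have h2 := Int.le_of_dvd h1 hd
    right
    omega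

lemma fz_near (A B : ℕ) (τ : Tm) (hτ : τ.1 ∈ fdm A B) (l : Lk L)
    (hl : l ∈ (spt τ : Finset (Lk L))) (h : ∀ a ∈ st l, fzs true true A B a) :
    τ.1 ∈ bdx A B := by
  have ha : l.1.1 ∈ st l := (mem_st l _).2 (Or.inl rfl)
  have h1 := h _ ha
  have h2 : l.1.1 ∈ cor τ := (cor_iff τ _).2 ⟨l, hl, ha⟩
  obtain ⟨h3, h4⟩ := cor_box τ _ h2
  unfold fdm at hτ
  rw [Finset.mem_product, Finset.mem_Ico, Finset.mem_Ico] at hτ
  unfold bdx
  rw [Finset.mem_union, Finset.mem_product, Finset.mem_product, Finset.mem_Ico, Finset.mem_Ico,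
    Finset.mem_insert, Finset.mem_singleton, Finset.mem_insert, Finset.mem_singleton]
  unfold fzs at h1
  rcases h1 with ⟨-, h1⟩ | ⟨-, h1⟩
  · exact Or.inl ⟨dvd_end A _ _ hτ.1.1 hτ.1.2 h3 h1, hτ.2⟩
  · exact Or.inr ⟨hτ.1, dvd_end B _ _ hτ.2.1 hτ.2.2 h4 h1⟩

lemma first (k : ℕ) {β E : ℝ} (hN : 0 < N) (hβ : 0 ≤ β)
    (hE : ∀ (τ : Tm) (X : Cf N L), 1 ≤ E * wt k β τ X) (hE1 : 1 ≤ E) (P Q : SU N) (A B : ℕ)
    [NeZero A] [NeZero B] :
    ‖TZc N L k β P Q 0 false false A B‖ ≤ E ^ (8 * (A + B)) *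
      ‖TZc N L k β P Q 0 true true A B‖ := by
  rw [TZc_zero k β hN, TZc_zero k β hN, ← integral_const_mul]
  refine integral_mono (FT_int k hN hβ P Q false false A B)
    ((FT_int k hN hβ P Q true true A B).const_mul _) fun X => ?_
  have h1 := cmp k hN hβ hE hE1 (fdm A B ×ˢ (Finset.univ : Finset (Fin 4)))
    (fdm A B ×ˢ (Finset.univ : Finset (Fin 4))) (bdx A B ×ˢ (Finset.univ : Finset (Fin 4)))
    (Finset.Subset.refl _) (fzp P Q false false A B (per X)) (fzp P Q true true A B (per X)) (by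
      intro τ hτ h0
      refine ⟨hτ, fun l hl => ?_⟩
      rw [fzp_ff]
      unfold fzp
      rw [if_neg]
      intro h
      rw [Finset.mem_product] at hτ h0
      exact h0 ⟨fz_near A B τ hτ.1 l hl h, Finset.mem_univ _⟩)
  show FT k β P Q false false A B X ≤ _ * FT k β P Q true true A B X
  unfold FT
  refine h1.trans (mul_le_mul_of_nonneg_right ?_
    (Finset.prod_nonneg fun τ _ => (wt_pos k β τ _ hN).le))
  refine pow_le_pow_right₀ hE1 ?_
  rw [Finset.card_product, Finset.card_univ, Fintype.card_fin]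
  have := bdx_card A B
  omega

/-! ### second part -/

lemma card_tml (U : Finset Pl) : (tml U).card ≤ 16 * U.card := by
  unfold tml
  refine (Finset.card_filter_le _ _).trans ?_
  rw [Finset.card_product, Finset.card_univ, Fintype.card_fin]
  have h1 := Finset.card_union_le (U ∪ U.image (fun x => x - (1, 0)) ∪ U.image (fun x => x - (0, 1)))
    (U.image (fun x => x - (1, 1)))
  have h2 := Finset.card_union_le (U ∪ U.image (fun x => x - (1, 0))) (U.image (fun x => x - (0, 1)))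
  have h3 := Finset.card_union_le U (U.image (fun x => x - (1, 0)))
  have h4 : (U.image (fun x => x - (1, 0))).card ≤ U.card := Finset.card_image_le
  have h5 : (U.image (fun x => x - (0, 1))).card ≤ U.card := Finset.card_image_le
  have h6 : (U.image (fun x => x - (1, 1))).card ≤ U.card := Finset.card_image_le
  omega

lemma ZZ_mono (k : ℕ) {β E : ℝ} (hN : 0 < N) (hβ : 0 ≤ β)
    (hE : ∀ (τ : Tm) (X : Cf N L), 1 ≤ E * wt k β τ X) (hE1 : 1 ≤ E) (P Q : SU N)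
    (Λ' Λ : Finset Pl) (hΛ : Λ' ⊆ Λ) :
    ZZ k β (L := L) P Q Λ' ≤ E ^ (16 * (Λ \ Λ').card) * ZZ k β (L := L) P Q Λ := by
  unfold ZZ
  rw [← integral_const_mul]
  refine integral_mono (PkgZT.wprod_int hN k hβ Λ' _)
    ((PkgZT.wprod_int hN k hβ Λ _).const_mul _) fun ξ => ?_
  have hsub : tml Λ' ⊆ tml Λ := by
    intro τ hτ
    rw [mem_tml] at hτ ⊢
    obtain ⟨a, h1, h2⟩ := hτ
    exact ⟨a, h1, hΛ h2⟩
  have h1 := cmp k hN hβ hE hE1 (tml Λ') (tml Λ) (tml (Λ \ Λ')) hsub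
    (glue (Frl L Λ') ξ (vc P Q)) (glue (Frl L Λ) ξ (vc P Q)) (by
      intro τ hτ h0
      have key : ∀ a ∈ cor τ, a ∈ Λ → a ∈ Λ' := by
        intro a ha haΛ
        by_contra hc
        exact h0 ((mem_tml _ _).2 ⟨a, ha, Finset.mem_sdiff.2 ⟨haΛ, hc⟩⟩)
      rw [mem_tml] at hτ
      refine ⟨?_, fun l hl => ?_⟩
      · rw [mem_tml]
        obtain ⟨a, h2, h3⟩ := hτ
        exact ⟨a, h2, key a h2 h3⟩
      · have hiff : l ∈ Frl L Λ ↔ l ∈ Frl L Λ' := by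
          rw [mem_Frl, mem_Frl]
          constructor
          · rintro ⟨a, h2, h3⟩
            exact ⟨a, h2, key a ((cor_iff τ a).2 ⟨l, hl, h2⟩) h3⟩
          · rintro ⟨a, h2, h3⟩
            exact ⟨a, h2, hΛ h3⟩
        unfold glue
        simp only [hiff])
  refine h1.trans (mul_le_mul_of_nonneg_right ?_
    (Finset.prod_nonneg fun τ _ => (wt_pos k β τ _ hN).le))
  exact pow_le_pow_right₀ hE1 (card_tml _)

lemma ZZ_union (k : ℕ) {β : ℝ} (hN : 0 < N) (hβ : 0 ≤ β) (P Q : SU N)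
    (Λ₁ Λ₂ : Finset Pl) (hfar : ∀ a ∈ Λ₁, ∀ b ∈ Λ₂, ¬ near 1 a b) :
    ZZ k β (L := L) P Q (Λ₁ ∪ Λ₂) = ZZ k β (L := L) P Q Λ₁ * ZZ k β (L := L) P Q Λ₂ := by
  classical
  set F₁ : Cf N L → ℝ := fun ξ => ∏ τ ∈ tml Λ₁, wt k β τ (glue (Frl L Λ₁) ξ (vc P Q)) with hF₁
  set F₂ : Cf N L → ℝ := fun ξ => ∏ τ ∈ tml Λ₂, wt k β τ (glue (Frl L Λ₂) ξ (vc P Q)) with hF₂
  have hno : ∀ τ, τ ∈ tml Λ₁ → τ ∉ tml Λ₂ := by
    intro τ h1 h2
    obtain ⟨a, ha, ha'⟩ := (mem_tml _ _).1 h1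
    obtain ⟨b, hb, hb'⟩ := (mem_tml _ _).1 h2
    exact hfar a ha' b hb' (diam_cor τ a ha b hb)
  have hnl : ∀ l, l ∈ Frl L Λ₁ → l ∉ Frl L Λ₂ := by
    intro l h1 h2
    obtain ⟨a, ha, ha'⟩ := (mem_Frl _ _).1 h1
    obtain ⟨b, hb, hb'⟩ := (mem_Frl _ _).1 h2
    exact hfar a ha' b hb' (diam_st l a ha b hb)
  have hU : tml (Λ₁ ∪ Λ₂) = tml Λ₁ ∪ tml Λ₂ := by
    ext τ
    rw [Finset.mem_union, mem_tml, mem_tml, mem_tml]
    constructor
    · rintro ⟨a, h1, h2⟩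
      rcases Finset.mem_union.1 h2 with h2 | h2
      · exact Or.inl ⟨a, h1, h2⟩
      · exact Or.inr ⟨a, h1, h2⟩
    · rintro (⟨a, h1, h2⟩ | ⟨a, h1, h2⟩)
      · exact ⟨a, h1, Finset.mem_union_left _ h2⟩
      · exact ⟨a, h1, Finset.mem_union_right _ h2⟩
  have hprod : ∀ ξ : Cf N L, ∏ τ ∈ tml (Λ₁ ∪ Λ₂), wt k β τ (glue (Frl L (Λ₁ ∪ Λ₂)) ξ (vc P Q)) =
      F₁ ξ * F₂ ξ := by
    intro ξ
    have hA : ∏ τ ∈ tml Λ₁, wt k β τ (glue (Frl L (Λ₁ ∪ Λ₂)) ξ (vc P Q)) = F₁ ξ := by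
      rw [hF₁]
      refine Finset.prod_congr rfl fun τ hτ => wt_loc k β τ _ _ fun l hl => ?_
      have hiff : l ∈ Frl L (Λ₁ ∪ Λ₂) ↔ l ∈ Frl L Λ₁ := by
        rw [mem_Frl, mem_Frl]
        constructor
        · rintro ⟨a, h1, h2⟩
          rcases Finset.mem_union.1 h2 with h2 | h2
          · exact ⟨a, h1, h2⟩
          · exact absurd ((mem_tml _ _).2 ⟨a, (cor_iff τ a).2 ⟨l, hl, h1⟩, h2⟩) (hno τ hτ)
        · rintro ⟨a, h1, h2⟩
          exact ⟨a, h1, Finset.mem_union_left _ h2⟩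
      unfold glue
      simp only [hiff]
    have hB : ∏ τ ∈ tml Λ₂, wt k β τ (glue (Frl L (Λ₁ ∪ Λ₂)) ξ (vc P Q)) = F₂ ξ := by
      rw [hF₂]
      refine Finset.prod_congr rfl fun τ hτ => wt_loc k β τ _ _ fun l hl => ?_
      have hiff : l ∈ Frl L (Λ₁ ∪ Λ₂) ↔ l ∈ Frl L Λ₂ := by
        rw [mem_Frl, mem_Frl]
        constructor
        · rintro ⟨a, h1, h2⟩
          rcases Finset.mem_union.1 h2 with h2 | h2
          · exact absurd hτ (hno τ ((mem_tml _ _).2 ⟨a, (cor_iff τ a).2 ⟨l, hl, h1⟩, h2⟩))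
          · exact ⟨a, h1, h2⟩
        · rintro ⟨a, h1, h2⟩
          exact ⟨a, h1, Finset.mem_union_right _ h2⟩
      unfold glue
      simp only [hiff]
    rw [hU, Finset.prod_union (Finset.disjoint_left.2 hno)]
    rw [hA, hB]
  have h1g : ∀ ξ η : Cf N L, F₁ (glue (Frl L Λ₁) ξ η) = F₁ ξ := by
    intro ξ η
    have : glue (Frl L Λ₁) (glue (Frl L Λ₁) ξ η) (vc P Q) = glue (Frl L Λ₁) ξ (vc P Q) := by
      funext l
      unfold glue
      by_cases h : l ∈ Frl L Λ₁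
      · simp only [if_pos h]
      · simp only [if_neg h]
    simp only [hF₁, this]
  have h2g : ∀ ξ η : Cf N L, F₂ (glue (Frl L Λ₁) ξ η) = F₂ η := by
    intro ξ η
    have : glue (Frl L Λ₂) (glue (Frl L Λ₁) ξ η) (vc P Q) = glue (Frl L Λ₂) η (vc P Q) := by
      funext l
      unfold glue
      by_cases h : l ∈ Frl L Λ₂
      · have h' : l ∉ Frl L Λ₁ := fun h' => hnl l h' h
        simp only [if_pos h, if_neg h']
      · simp only [if_neg h]
    simp only [hF₂, this]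
  have hm : ∀ Λ : Finset Pl, Measurable fun ξ : Cf N L =>
      ∏ τ ∈ tml Λ, wt k β τ (glue (Frl L Λ) ξ (vc P Q)) := fun Λ =>
    Finset.measurable_prod _ fun τ _ => (wt_cont k β τ).measurable.comp
      (PkgZT.meas_glue' (Frl L Λ) _)
  have hb : ∀ (Λ : Finset Pl) (ξ : Cf N L),
      |∏ τ ∈ tml Λ, wt k β τ (glue (Frl L Λ) ξ (vc P Q))| ≤ 1 := by
    intro Λ ξ
    rw [abs_of_nonneg (Finset.prod_nonneg fun τ _ => (wt_pos k β τ _ hN).le)]
    exact Finset.prod_le_one (fun τ _ => (wt_pos k β τ _ hN).le) fun τ _ => wt_le k β hβ τ _ hN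
  have h3 := pF2 (Lk L) (SU N) (T2H02.TT.hm N) (Frl L Λ₁) (fun ξ => F₁ ξ * F₂ ξ)
    ((hm Λ₁).mul (hm Λ₂)) ⟨1, fun ξ => by
      rw [abs_mul]
      exact mul_le_one₀ (hb Λ₁ ξ) (abs_nonneg _) (hb Λ₂ ξ)⟩
  show ∫ ξ, (∏ τ ∈ tml (Λ₁ ∪ Λ₂), wt k β τ (glue (Frl L (Λ₁ ∪ Λ₂)) ξ (vc P Q))) ∂(pm N L) =
    (∫ ξ, F₁ ξ ∂(pm N L)) * ∫ ξ, F₂ ξ ∂(pm N L)
  rw [integral_congr_ae (Filter.Eventually.of_forall hprod)]
  refine h3.trans ?_
  have h4 : ∀ η : Cf N L, ∫ ξ, F₁ (glue (Frl L Λ₁) ξ η) * F₂ (glue (Frl L Λ₁) ξ η) ∂(pm N L) =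
      (∫ ξ, F₁ ξ ∂(pm N L)) * F₂ η := by
    intro η
    simp only [h1g, h2g]
    exact integral_mul_const _ _
  rw [integral_congr_ae (Filter.Eventually.of_forall h4), integral_const_mul]

lemma ZZ_empty (k : ℕ) (β : ℝ) (P Q : SU N) : ZZ k β (L := L) P Q ∅ = 1 := by
  unfold ZZ
  have : tml ∅ = ∅ := by
    ext τ
    rw [mem_tml]
    simp
  rw [this]
  simp

lemma ZZ_nonneg (k : ℕ) (β : ℝ) (hN : 0 < N) (P Q : SU N) (Λ : Finset Pl) :
    0 ≤ ZZ k β (L := L) P Q Λ :=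
  integral_nonneg fun ξ => Finset.prod_nonneg fun τ _ => (wt_pos k β τ _ hN).le

lemma ZZ_biUnion {ι : Type} [DecidableEq ι] (k : ℕ) {β : ℝ} (hN : 0 < N) (hβ : 0 ≤ β)
    (P Q : SU N) (bx : ι → Finset Pl)
    (hfar : ∀ s s' : ι, s ≠ s' → ∀ a ∈ bx s, ∀ b ∈ bx s', ¬ near 1 a b) (S : Finset ι) :
    ZZ k β (L := L) P Q (S.biUnion bx) = ∏ s ∈ S, ZZ k β (L := L) P Q (bx s) := by
  induction S using Finset.induction_on with
  | empty => rw [Finset.biUnion_empty, ZZ_empty, Finset.prod_empty]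
  | insert s S hs ih =>
    rw [Finset.biUnion_insert, Finset.prod_insert hs, ← ih]
    refine ZZ_union k hN hβ P Q _ _ ?_
    intro a ha b hb
    obtain ⟨s', hs', hb'⟩ := Finset.mem_biUnion.1 hb
    exact hfar s s' (fun h => hs (h ▸ hs')) a ha b hb'

lemma wt_tr (k : ℕ) (β : ℝ) (v : Pl) (X : Cf N L) (τ : Tm) :
    wt k β (PkgRT.ttr v τ) X = wt k β τ (fun l => X (PkgSY.tr L v l)) := by
  by_cases h : τ.2 = 3
  · obtain ⟨x, i⟩ := τ
    simp only at h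
    subst h
    show wt k β (x + v, 3) X = wt k β (x, 3) _
    unfold wt
    simp only [if_pos]
    refine congrArg (· / (N : ℝ)) (Finset.sum_congr rfl fun m _ => ?_)
    rw [PkgRT.eP_tr]
  · rw [PkgZT.wt_eq k β _ τ h, PkgZT.wt_eq k β _ (PkgRT.ttr v τ) h, PkgRT.en1_tr]

lemma ZZ_tr (k : ℕ) (β : ℝ) (P Q : SU N) (a b v : Pl) :
    ZZ k β (L := L) P Q (rc (a + v) (b + v)) = ZZ k β (L := L) P Q (rc a b) := by
  unfold ZZ
  rw [← PkgSY.int_perm (PkgSY.tr L v) (fun ξ => ∏ τ ∈ tml (rc a b),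
    wt k β τ (glue (Frl L (rc a b)) ξ (vc P Q)))]
  refine integral_congr_ae (Filter.Eventually.of_forall fun ξ => ?_)
  simp only
  symm
  refine Finset.prod_nbij' (fun τ => PkgRT.ttr v τ) (fun τ => (PkgRT.ttr v).symm τ) ?_ ?_ ?_ ?_ ?_
  · intro τ hτ
    exact (PkgRT.tml_tr a b v τ).1 hτ
  · intro τ hτ
    exact (PkgRT.tml_tr a b v _).2 (by rw [Equiv.apply_symm_apply]; exact hτ)
  · intro τ _; exact (PkgRT.ttr v).symm_apply_apply τ
  · intro τ _; exact (PkgRT.ttr v).apply_symm_apply τ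
  · intro τ hτ
    rw [wt_tr]
    congr 1
    funext l
    unfold glue
    have := PkgRT.Frl_tr (L := L) a b v l
    by_cases h : l ∈ Frl L (rc a b)
    · rw [if_pos h, if_pos (this.1 h)]
    · rw [if_neg h, if_neg (fun h' => h (this.2 h'))]
      rfl

/-- the small boxes -/
def bx (a b : ℕ) (s : ℕ × ℕ) : Finset Pl :=
  rc (((1 : ℤ), (1 : ℤ)) + ((a : ℤ) * s.1, (b : ℤ) * s.2))
    (((a : ℤ) - 1, (b : ℤ) - 1) + ((a : ℤ) * s.1, (b : ℤ) * s.2))

lemma mem_bx (a b : ℕ) (s : ℕ × ℕ) (x : Pl) : x ∈ bx a b s ↔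
    (1 + (a : ℤ) * s.1 ≤ x.1 ∧ x.1 ≤ (a : ℤ) - 1 + (a : ℤ) * s.1) ∧
      1 + (b : ℤ) * s.2 ≤ x.2 ∧ x.2 ≤ (b : ℤ) - 1 + (b : ℤ) * s.2 := by
  unfold bx
  rw [PkgRT.mem_rc]
  rfl

lemma sep (a : ℕ) (p p' : ℕ) (h : p < p') (x y : ℤ) (hx : x ≤ (a : ℤ) - 1 + (a : ℤ) * p)
    (hy : 1 + (a : ℤ) * p' ≤ y) : 2 ≤ y - x := by
  have h1 : (p : ℤ) + 1 ≤ p' := by exact_mod_cast h
  have h2 : (a : ℤ) * (p + 1) ≤ (a : ℤ) * p' := mul_le_mul_of_nonneg_left h1 (by positivity)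
  linarith

lemma sep' (a : ℕ) (p p' : ℕ) (h : p ≠ p') (x y : ℤ) (hx : x ≤ (a : ℤ) - 1 + (a : ℤ) * p)
    (hx' : 1 + (a : ℤ) * p ≤ x) (hy : 1 + (a : ℤ) * p' ≤ y)
    (hy' : y ≤ (a : ℤ) - 1 + (a : ℤ) * p') : ¬ |x - y| ≤ 1 := by
  rw [abs_le]
  rintro ⟨h1, h2⟩
  rcases lt_or_gt_of_ne h with h3 | h3
  · have := sep a p p' h3 x y hx hy
    linarith
  · have := sep a p' p h3 y x hy' hx'
    linarith

lemma bx_far (a b : ℕ) (s s' : ℕ × ℕ) (h : s ≠ s') : ∀ x ∈ bx a b s, ∀ y ∈ bx a b s',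
    ¬ near 1 x y := by
  intro x hx y hy hn
  rw [mem_bx] at hx hy
  obtain ⟨n1, n2⟩ := hn
  by_cases h1 : s.1 = s'.1
  · have h2 : s.2 ≠ s'.2 := fun h2 => h (Prod.ext h1 h2)
    exact sep' b s.2 s'.2 h2 x.2 y.2 hx.2.2 hx.2.1 hy.2.1 hy.2.2 n2
  · exact sep' a s.1 s'.1 h1 x.1 y.1 hx.1.2 hx.1.1 hy.1.1 hy.1.2 n1

lemma bx_card (a b : ℕ) (ha : 1 ≤ a) (hb : 1 ≤ b) (s : ℕ × ℕ) :
    (bx a b s).card = (a - 1) * (b - 1) := by
  unfold bx rc
  rw [Finset.card_product, Int.card_Icc, Int.card_Icc]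
  congr 1
  · simp only [Prod.fst_add]
    omega
  · simp only [Prod.snd_add]
    omega

lemma bx_sub (a b i j : ℕ) (s : ℕ × ℕ) (hs : s ∈ Finset.range i ×ˢ Finset.range j) :
    bx a b s ⊆ rc (1, 1) ((a : ℤ) * i + 3, (b : ℤ) * j + 3) := by
  intro x hx
  rw [mem_bx] at hx
  rw [Finset.mem_product, Finset.mem_range, Finset.mem_range] at hs
  rw [PkgRT.mem_rc]
  have h1 : ((s.1 : ℤ)) + 1 ≤ i := by exact_mod_cast hs.1
  have h2 : ((s.2 : ℤ)) + 1 ≤ j := by exact_mod_cast hs.2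
  have h3 : (a : ℤ) * (s.1 + 1) ≤ (a : ℤ) * i := mul_le_mul_of_nonneg_left h1 (by positivity)
  have h4 : (b : ℤ) * (s.2 + 1) ≤ (b : ℤ) * j := mul_le_mul_of_nonneg_left h2 (by positivity)
  have h5 : 0 ≤ (a : ℤ) * s.1 := by positivity
  have h6 : 0 ≤ (b : ℤ) * s.2 := by positivity
  obtain ⟨⟨g1, g2⟩, g3, g4⟩ := hx
  refine ⟨⟨?_, ?_⟩, ?_, ?_⟩
  · show (1 : ℤ) ≤ x.1; linarith
  · show x.1 ≤ (a : ℤ) * i + 3; linarith
  · show (1 : ℤ) ≤ x.2; linarith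
  · show x.2 ≤ (b : ℤ) * j + 3; linarith

lemma card_big (a b i j : ℕ) (ha : 1 ≤ a) (hb : 1 ≤ b) :
    (rc (1, 1) ((a : ℤ) * i + 3, (b : ℤ) * j + 3) \
      (Finset.range i ×ˢ Finset.range j).biUnion (bx a b)).card ≤
      3 * ((a + b) * (i * j) + (a * i + 4) + (b * j + 4)) := by
  have hsub : (Finset.range i ×ˢ Finset.range j).biUnion (bx a b) ⊆
      rc (1, 1) ((a : ℤ) * i + 3, (b : ℤ) * j + 3) :=
    Finset.biUnion_subset.2 fun s hs => bx_sub a b i j s hs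
  have h1 : ((Finset.range i ×ˢ Finset.range j).biUnion (bx a b)).card =
      (i * j) * ((a - 1) * (b - 1)) := by
    rw [Finset.card_biUnion]
    · rw [Finset.sum_congr rfl fun s _ => bx_card a b ha hb s, Finset.sum_const,
        Finset.card_product, Finset.card_range, Finset.card_range, smul_eq_mul]
    · intro s _ s' _ hne
      refine Finset.disjoint_left.2 fun x hx hy => ?_
      exact bx_far a b s s' hne x hx x hy (by unfold near; simp)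
  have h2 : (rc (1, 1) ((a : ℤ) * i + 3, (b : ℤ) * j + 3)).card = (a * i + 3) * (b * j + 3) := by
    unfold rc
    rw [Finset.card_product, Int.card_Icc, Int.card_Icc]
    congr 1
    · push_cast; omega
    · push_cast; omega
  rw [Finset.card_sdiff_of_subset hsub, h1, h2]
  obtain ⟨a, rfl⟩ : ∃ a', a = a' + 1 := ⟨a - 1, by omega⟩
  obtain ⟨b, rfl⟩ : ∃ b', b = b' + 1 := ⟨b - 1, by omega⟩
  simp only [Nat.add_sub_cancel]
  rw [Nat.sub_le_iff_le_add]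
  nlinarith [Nat.zero_le (a * i), Nat.zero_le (b * j), Nat.zero_le (i * j),
    Nat.zero_le (a * (i * j)), Nat.zero_le (b * (i * j))]

lemma second (k : ℕ) {β E : ℝ} (hN : 0 < N) (hβ : 0 ≤ β)
    (hE : ∀ (τ : Tm) (X : Cf N L), 1 ≤ E * wt k β τ X) (hE1 : 1 ≤ E) (P Q : SU N)
    (a b i j : ℕ) (ha : 1 ≤ a) (hb : 1 ≤ b) :
    ZZ k β (L := L) P Q (rc (1, 1) ((a : ℤ) - 1, (b : ℤ) - 1)) ^ (i * j) ≤
      E ^ (48 * ((a + b) * (i * j) + (a * i + 4) + (b * j + 4))) *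
        ZZ k β (L := L) P Q (rc (1, 1) ((a : ℤ) * i + 3, (b : ℤ) * j + 3)) := by
  have h1 : ZZ k β (L := L) P Q ((Finset.range i ×ˢ Finset.range j).biUnion (bx a b)) =
      ZZ k β (L := L) P Q (rc (1, 1) ((a : ℤ) - 1, (b : ℤ) - 1)) ^ (i * j) := by
    rw [ZZ_biUnion k hN hβ P Q (bx a b) (fun s s' h => bx_far a b s s' h)]
    have h2 : ∀ s : ℕ × ℕ, ZZ k β (L := L) P Q (bx a b s) =
        ZZ k β (L := L) P Q (rc (1, 1) ((a : ℤ) - 1, (b : ℤ) - 1)) := by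
      intro s
      exact ZZ_tr k β P Q _ _ _
    rw [Finset.prod_congr rfl fun s _ => h2 s, Finset.prod_const, Finset.card_product,
      Finset.card_range, Finset.card_range]
  rw [← h1]
  refine (ZZ_mono k hN hβ hE hE1 P Q _ (rc (1, 1) ((a : ℤ) * i + 3, (b : ℤ) * j + 3))
    (Finset.biUnion_subset.2 fun s hs => bx_sub a b i j s hs)).trans ?_
  refine mul_le_mul_of_nonneg_right (pow_le_pow_right₀ hE1 ?_) (ZZ_nonneg k β hN P Q _)
  have := card_big a b i j ha hb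
  omega

end PkgTE

open PkgTE in
theorem pTE : S_G3 → S_VL → S_TD → S_TE := by
  intro hG3 _ _ N k L _ hN hk P Q hPQ
  obtain ⟨K, hK0, hK⟩ := wt_low hG3 N k L hN
  have hN' : 0 < N := by omega
  refine ⟨1 + 48 * K, by linarith, fun β hβ => ?_⟩
  have hβ0 : 0 ≤ β := by linarith
  have hE1 : 1 ≤ Real.exp (K * β) := Real.one_le_exp (mul_nonneg hK0 hβ0)
  have hE : ∀ (τ : Tm) (X : Cf N L), 1 ≤ Real.exp (K * β) * wt k β τ X := hK β hβ
  refine ⟨fun A B _ _ _ _ => ?_, fun a b i j ha hb _ _ => ?_⟩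
  · refine (first k hN' hβ0 hE hE1 P Q A B).trans
      (mul_le_mul_of_nonneg_right ?_ (norm_nonneg _))
    rw [← Real.exp_nat_mul]
    refine Real.exp_le_exp.2 ?_
    push_cast
    have h1 : 0 ≤ K * β * ((A : ℝ) + B) := by positivity
    have h2 : 0 ≤ β * ((A : ℝ) + B) := by positivity
    nlinarith
  · refine (second k hN' hβ0 hE hE1 P Q a b i j (by omega) (by omega)).trans
      (mul_le_mul_of_nonneg_right ?_ (ZZ_nonneg k β hN' P Q _))
    rw [← Real.exp_nat_mul]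
    refine Real.exp_le_exp.2 ?_
    push_cast
    have h1 : (0 : ℝ) ≤ ((a : ℝ) + b) * (i * j) + (a * i + 4) + (b * j + 4) := by positivity
    have h2 : 0 ≤ β * (((a : ℝ) + b) * (i * j) + (a * i + 4) + (b * j + 4)) :=
      mul_nonneg hβ0 h1
    nlinarith

end T2H01.SE
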