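import Pool.Agent.T2H01.SE.Stm4

/-!
# Package TG : from boxes to the torus
-/

set_option autoImplicit false
set_option linter.unusedSectionVars false

noncomputable section

open MeasureTheory Matrix
open scoped Matrix.Norms.Frobenius

namespace T2H01.SE.PkgTG

open T2H02.TT

variable {N L : ℕ} [NeZero L]

lemma ZZ_nonneg (k : ℕ) (β : ℝ) (hN : 2 ≤ N) (P Q : SU N) (U : Finset Pl) :
    0 ≤ ZZ k β (L := L) P Q U := by
  unfold ZZ
  exact integral_nonneg fun ξ => Finset.prod_nonneg fun τ _ => (wt_pos k β τ _ (by omega)).le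

/-- the limit `i → ∞` -/
lemma limit (t z x y K₁ K₂ : ℝ) (hz : 0 < z) (ht : 0 ≤ t) (n₀ : ℕ)
    (hK₁ : 0 ≤ K₁) (hK₂ : 0 ≤ K₂) (hxy : x = y)
    (h : ∀ n : ℕ, n₀ ≤ n → Real.exp (-(x * ((2 * n : ℕ) : ℝ) ^ 2) - K₁ * ((2 * n : ℕ) : ℝ) - K₂) *
      z ^ ((2 * n) * (2 * n)) ≤ t ^ ((2 * n) * (2 * n))) :
    Real.exp (-y) * z ≤ t := by
  subst hxy
  by_contra hcon
  push Not at hcon
  have ht0 : 0 < t := by
    rcases ht.lt_or_eq with h0 | h0
    · exact h0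
    · exfalso
      have h1 := h (n₀ + 1) (by omega)
      rw [← h0, zero_pow (by positivity)] at h1
      have : 0 < Real.exp (-(x * ((2 * (n₀ + 1) : ℕ) : ℝ) ^ 2) - K₁ * ((2 * (n₀ + 1) : ℕ) : ℝ) - K₂) *
        z ^ ((2 * (n₀ + 1)) * (2 * (n₀ + 1))) := by positivity
      linarith
  obtain ⟨δ, hδ⟩ : ∃ δ, δ = -x + Real.log z - Real.log t := ⟨_, rfl⟩
  have hδ0 : 0 < δ := by
    have h1 := Real.log_lt_log ht0 hcon
    rw [Real.log_mul (Real.exp_pos _).ne' hz.ne', Real.log_exp] at h1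
    linarith
  obtain ⟨m, hm⟩ := exists_nat_ge ((K₁ + K₂) / δ + 1)
  have hn := h (max n₀ m + 1) (by have := le_max_left n₀ m; omega)
  obtain ⟨i, hi⟩ : ∃ i : ℕ, i = 2 * (max n₀ m + 1) := ⟨_, rfl⟩
  rw [← hi] at hn
  have him : (m : ℝ) ≤ i := by
    have : m ≤ i := by have := le_max_right n₀ m; omega
    exact_mod_cast this
  have hi1 : (1 : ℝ) ≤ i := by
    have : 1 ≤ i := by omega
    exact_mod_cast this
  have h2 := Real.log_le_log (by positivity) hn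
  rw [Real.log_mul (Real.exp_pos _).ne' (by positivity), Real.log_exp, Real.log_pow, Real.log_pow] at h2
  push_cast at h2
  have h3 : (i : ℝ) ^ 2 * δ ≤ (K₁ + K₂) * i := by
    rw [hδ]
    nlinarith
  have h4 : (i : ℝ) * δ ≤ K₁ + K₂ := by
    have h5 : (i : ℝ) * (i * δ) ≤ i * (K₁ + K₂) := by nlinarith
    exact le_of_mul_le_mul_left h5 (by linarith)
  have h6 : (K₁ + K₂) / δ + 1 ≤ i := hm.trans him
  have h7 : (i : ℝ) ≤ (K₁ + K₂) / δ := by
    rw [le_div_iff₀ hδ0]; exact h4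
  linarith

end T2H01.SE.PkgTG

namespace T2H01.SE

open T2H02.TT

theorem pTG (hTB : S_TB) (hTS : S_TS) (hTD : S_TD) (hTE : S_TE) (hZT : S_ZT) (hRT : S_RT) :
    S_TG := by
  intro N k L _ hN hk P Q hPQ
  obtain ⟨C, hC, hTE'⟩ := hTE N k L hN hk P Q hPQ
  refine ⟨2 * C, by linarith, ?_⟩
  intro β hβ η J hη hH a b _ _ ha hb
  obtain ⟨hE1, hE2⟩ := hTE' β hβ
  have hβ0 : 0 ≤ β := by linarith
  have ha2 : 2 ≤ a := by
    have h1 : a ≠ 0 := NeZero.ne a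
    obtain ⟨r, hr⟩ := ha
    omega
  have hb2 : 2 ≤ b := by
    have h1 : b ≠ 0 := NeZero.ne b
    obtain ⟨r, hr⟩ := hb
    omega
  obtain ⟨-, hZT2, -⟩ := hZT N k L hN β hβ0
  have hRT' := hRT N k L hN P Q β hβ0
  -- partition functions of charge zero
  have hZnorm : ∀ U : Finset Pl, ‖Zc k β 0 U (vc P Q : Cf N L)‖ = ZZ k β (L := L) P Q U := by
    intro U
    rw [hZT2 P Q U, Complex.norm_real, Real.norm_eq_abs, abs_of_nonneg (PkgTG.ZZ_nonneg k β hN P Q U)]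
  obtain ⟨t, ht⟩ : ∃ t, t = ‖TZc N L k β P Q 1 false false a b‖ := ⟨_, rfl⟩
  obtain ⟨z, hz⟩ : ∃ z, z = ZZ k β (L := L) P Q (rc (1, 1) ((a : ℤ) - 1, (b : ℤ) - 1)) := ⟨_, rfl⟩
  have hz0 : 0 ≤ z := by rw [hz]; exact PkgTG.ZZ_nonneg k β hN P Q _
  have ht0 : 0 ≤ t := by rw [ht]; exact norm_nonneg _
  -- the torus of charge zero
  have h1 : ‖TZc N L k β P Q 0 false false a b‖ ≤ Real.exp (C * β * (a + b)) * z := by
    have h2 := hE1 a b ha2 hb2
    rw [hTD N k L hN hk P Q hPQ β hβ0 0 a b ha2 hb2, hZnorm, ← hz] at h2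
    exact h2
  -- the chain of inequalities
  have h3 : ∀ n : ℕ, J + 1 ≤ n → Real.exp (-((η * (a * b) + C * β * (a + b)) * ((2 * n : ℕ) : ℝ) ^ 2) -
      (3 * η * (a + b) + C * β * (a + b)) * ((2 * n : ℕ) : ℝ) - (9 * η + 8 * C * β)) *
      z ^ ((2 * n) * (2 * n)) ≤ t ^ ((2 * n) * (2 * n)) := by
    intro n hn
    obtain ⟨i, hi⟩ : ∃ i : ℕ, i = 2 * n := ⟨_, rfl⟩
    rw [← hi]
    obtain ⟨a', ha'⟩ := ha
    obtain ⟨b', hb'⟩ := hb
    have : NeZero (a * i + 4) := ⟨by omega⟩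
    have : NeZero (b * i + 4) := ⟨by omega⟩
    have hap : a * i = 4 * (a' * n) := by rw [ha', hi]; ring
    have hbp : b * i = 4 * (b' * n) := by rw [hb', hi]; ring
    have k1 := hTB N k L hN hk P Q hPQ β hβ0 1 true (b * i + 4) a i 4 (by omega) ⟨a', ha'⟩ (by norm_num)
    have k2 := hTS N k L hN P Q β hβ0 1 false true a (b * i + 4)
    have k3 := hTB N k L hN hk P Q hPQ β hβ0 1 false a b i 4 ha2 ⟨b', hb'⟩ (by norm_num)
    have k4 := hTS N k L hN P Q β hβ0 1 false false b a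
    have k5 : ‖TZc N L k β P Q 1 true true (a * i + 4) (b * i + 4)‖ ≤ t ^ (i * i) := by
      refine k1.trans ?_
      rw [k2, ht, ← k4, pow_mul]
      exact pow_le_pow_left₀ (norm_nonneg _) k3 i
    rw [hTD N k L hN hk P Q hPQ β hβ0 1 (a * i + 4) (b * i + 4) (by omega) (by omega)] at k5
    have e1 : rc (1, 1) (((a * i + 4 : ℕ) : ℤ) - 1, ((b * i + 4 : ℕ) : ℤ) - 1) =
        rc (0 + (1, 1)) ((4 * ((a' * n : ℕ) : ℤ) + 2, 4 * ((b' * n : ℕ) : ℤ) + 2) + (1, 1)) := by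
      congr 1
      rw [Prod.mk_add_mk, Prod.mk.injEq, hap, hbp]
      push_cast
      constructor <;> ring
    rw [e1, (hRT' 1 0 (4 * ((a' * n : ℕ) : ℤ) + 2, 4 * ((b' * n : ℕ) : ℤ) + 2)).1 (1, 1)] at k5
    have ha1 : 1 ≤ a' := by omega
    have hb1 : 1 ≤ b' := by omega
    have k6 := hH (a' * n) (b' * n) (by nlinarith) (by nlinarith)
    have k7 := hE2 a b i i ha2 hb2 (by omega) (by omega)
    rw [← hz] at k7
    have e2 : rc (1, 1) ((a : ℤ) * i + 3, (b : ℤ) * i + 3) =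
        rc (0 + (1, 1)) ((4 * ((a' * n : ℕ) : ℤ) + 2, 4 * ((b' * n : ℕ) : ℤ) + 2) + (1, 1)) := by
      rw [← e1]
      congr 1
      push_cast
      rw [Prod.mk.injEq]
      constructor <;> ring
    rw [← hZnorm (rc (1, 1) ((a : ℤ) * i + 3, (b : ℤ) * i + 3)), e2,
      (hRT' 0 0 (4 * ((a' * n : ℕ) : ℤ) + 2, 4 * ((b' * n : ℕ) : ℤ) + 2)).1 (1, 1), hZnorm] at k7
    refine le_trans ?_ (k6.trans k5)
    obtain ⟨W, hW⟩ : ∃ W, W = ZZ k β (L := L) P Q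
      (rc 0 (4 * ((a' * n : ℕ) : ℤ) + 2, 4 * ((b' * n : ℕ) : ℤ) + 2)) := ⟨_, rfl⟩
    rw [← hW] at k7 ⊢
    have hW0 : 0 ≤ W := by rw [hW]; exact PkgTG.ZZ_nonneg k β hN P Q _
    have haR : (4 : ℝ) * ((a' * n : ℕ) : ℝ) = a * i := by exact_mod_cast hap.symm
    have hbR : (4 : ℝ) * ((b' * n : ℕ) : ℝ) = b * i := by exact_mod_cast hbp.symm
    rw [haR, hbR]
    have e3 : Real.exp (-((η * (a * b) + C * β * (a + b)) * (i : ℝ) ^ 2) -
        (3 * η * (a + b) + C * β * (a + b)) * (i : ℝ) - (9 * η + 8 * C * β)) =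
        Real.exp (-(η * ((a * i + 3) * (b * i + 3)))) *
          (Real.exp (C * β * ((a + b) * (i * i) + (a * i + 4) + (b * i + 4))))⁻¹ := by
      rw [← Real.exp_neg, ← Real.exp_add]
      congr 1
      ring
    rw [e3, mul_assoc]
    refine mul_le_mul_of_nonneg_left ?_ (Real.exp_pos _).le
    rw [inv_mul_le_iff₀ (Real.exp_pos _)]
    exact k7
  -- conclusion
  have h4 : Real.exp (-(η * (a * b) + C * β * (a + b))) * z ≤ t := by
    rcases hz0.lt_or_eq with hz1 | hz1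
    · exact PkgTG.limit t z _ _ _ _ hz1 ht0 (J + 1) (by positivity) (by positivity) rfl h3
    · rw [← hz1, mul_zero]; exact ht0
  rw [← ht]
  calc Real.exp (-(η * (a * b)) - 2 * C * β * (a + b)) * ‖TZc N L k β P Q 0 false false a b‖
      ≤ Real.exp (-(η * (a * b)) - 2 * C * β * (a + b)) * (Real.exp (C * β * (a + b)) * z) := by gcongr
    _ = Real.exp (-(η * (a * b) + C * β * (a + b))) * z := by
        rw [← mul_assoc, ← Real.exp_add]
        congr 2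
        ring
    _ ≤ t := h4

end T2H01.SE
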