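import Pool.Agent.T2H01.SE.Defs

/-!
# The joint system of links and fluxes
-/

set_option autoImplicit false
set_option linter.unusedSectionVars false

noncomputable section

open MeasureTheory Matrix
open scoped Matrix.Norms.Frobenius ENNReal

namespace T2H01.SE

open T2H02.TT

variable {N L : ℕ} [NeZero L]

lemma enf_nonneg (k : ℕ) (s : Pl → ℤ) (X : Cf N L) (τ : Tm) : 0 ≤ enf k s X τ := by
  unfold enf
  split_ifs
  · exact eP_nonneg _ _ _
  · exact en1_nonneg _ _ _

lemma enf_cont (k : ℕ) (s : Pl → ℤ) (τ : Tm) : Continuous fun X : Cf N L => enf k s X τ := by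
  unfold enf
  split_ifs
  · exact eP_cont _ _
  · exact en1_cont _ _

lemma enf_loc (k : ℕ) (s s' : Pl → ℤ) (τ : Tm) (X Y : Cf N L)
    (h : ∀ l ∈ (spt τ : Finset (Lk L)), X l = Y l) (hs : τ.2 = 3 → s τ.1 = s' τ.1) :
    enf k s X τ = enf k s' Y τ := by
  unfold enf
  split_ifs with h3
  · rw [hs h3]
    obtain ⟨x, i⟩ := τ
    obtain rfl : i = 3 := h3
    exact eP_loc _ x X Y h
  · exact en1_loc k τ X Y h

lemma lk_meas : Measurable (lk : Cj N L → Cf N L) :=
  measurable_pi_lambda _ fun l => measurable_fst.comp (measurable_pi_apply (Sum.inl l))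

/-- sites touched by a variable -/
def blJ : Ix L → Finset Pl := Sum.elim st fun x => cor (x, 3)

/-- variables of a term -/
def spJ (τ : Tm) : Finset (Ix L) :=
  (spt τ).image Sum.inl ∪ (if τ.2 = 3 then {Sum.inr τ.1} else ∅)

/-- variables touching `Λ` -/
def FrJ (L : ℕ) [NeZero L] (Λ : Finset Pl) : Finset (Ix L) :=
  (Frl L Λ).image Sum.inl ∪ (cl Λ).image Sum.inr

lemma mem_cl (Λ : Finset Pl) (x : Pl) : x ∈ cl Λ ↔ ∃ a ∈ cor (x, 3), a ∈ Λ := by
  rw [cl, Finset.mem_image]
  constructor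
  · rintro ⟨⟨y, i⟩, h, rfl⟩
    rw [Finset.mem_filter] at h
    obtain ⟨h1, rfl⟩ := h
    exact (mem_tml _ _).1 h1
  · intro h
    exact ⟨(x, 3), Finset.mem_filter.2 ⟨(mem_tml _ _).2 h, rfl⟩, rfl⟩

lemma mem_FrJ (Λ : Finset Pl) (i : Ix L) : i ∈ FrJ L Λ ↔ ∃ a ∈ blJ i, a ∈ Λ := by
  rw [FrJ, Finset.mem_union, Finset.mem_image, Finset.mem_image]
  rcases i with l | x
  · constructor
    · rintro (⟨l', h, h'⟩ | ⟨x', h, h'⟩)
      · obtain rfl := Sum.inl.inj h'
        exact (mem_Frl _ _).1 h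
      · cases h'
    · intro h
      exact Or.inl ⟨l, (mem_Frl _ _).2 h, rfl⟩
  · constructor
    · rintro (⟨l', h, h'⟩ | ⟨x', h, h'⟩)
      · cases h'
      · obtain rfl := Sum.inr.inj h'
        exact (mem_cl _ _).1 h
    · intro h
      exact Or.inr ⟨x, (mem_cl _ _).2 h, rfl⟩

lemma spJ_inl (τ : Tm) (l : Lk L) : (Sum.inl l : Ix L) ∈ spJ τ ↔ l ∈ (spt τ : Finset (Lk L)) := by
  rw [spJ, Finset.mem_union, Finset.mem_image]
  constructor
  · rintro (⟨l', h, h'⟩ | h)
    · obtain rfl := Sum.inl.inj h'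
      exact h
    · split_ifs at h
      · simp at h
      · simp at h
  · intro h
    exact Or.inl ⟨l, h, rfl⟩

lemma spJ_inr (τ : Tm) (x : Pl) : (Sum.inr x : Ix L) ∈ spJ τ ↔ τ = (x, 3) := by
  rw [spJ, Finset.mem_union, Finset.mem_image]
  constructor
  · rintro (⟨l', h, h'⟩ | h)
    · cases h'
    · split_ifs at h with h3
      · rw [Finset.mem_singleton] at h
        exact Prod.ext (Sum.inr.inj h).symm h3
      · simp at h
  · rintro rfl
    right
    simp

lemma cor_iffJ (τ : Tm) (a : Pl) : a ∈ cor τ ↔ ∃ i ∈ (spJ τ : Finset (Ix L)), a ∈ blJ i := by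
  constructor
  · intro h
    obtain ⟨l, hl, ha⟩ := (cor_iff (L := L) τ a).1 h
    exact ⟨Sum.inl l, (spJ_inl τ l).2 hl, ha⟩
  · rintro ⟨i, hi, ha⟩
    rcases i with l | x
    · exact (cor_iff (L := L) τ a).2 ⟨l, (spJ_inl τ l).1 hi, ha⟩
    · rw [spJ_inr] at hi
      subst hi
      exact ha

lemma wJ_meas (k : ℕ) (β : ℝ) (τ : Tm) :
    Measurable fun ω : Cj N L => Real.exp (-β * enf k (fx ω) (lk ω) τ) := by
  have key : Measurable fun ω : Cj N L => enf k (fx ω) (lk ω) τ := by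
    unfold enf
    split_ifs with h3
    · have h1 : (fun ω : Cj N L => eP (lk ω) (oz N (fx ω τ.1)) τ.1) =
          fun ω => ∑ m : Fin N, if (ω (Sum.inr τ.1)).2 = m then eP (lk ω) (oz N ((m : ℕ) : ℤ)) τ.1
            else 0 := by
        funext ω
        rw [Finset.sum_ite_eq Finset.univ]
        simp [fx]
      rw [h1]
      refine Finset.measurable_sum _ fun m _ => ?_
      refine Measurable.ite ?_ ?_ measurable_const
      · exact (measurable_snd.comp (measurable_pi_apply (Sum.inr τ.1))) (measurableSet_singleton m)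
      · exact (eP_cont _ _).measurable.comp lk_meas
    · exact (en1_cont k τ).measurable.comp lk_meas
  exact (measurable_const.mul key).exp

/-- the joint system -/
def sysJ (N L : ℕ) [NeZero L] (k : ℕ) (β : ℝ) (hβ : 0 ≤ β) : Sys (Ix L) Tm (Vr N) where
  bl := blJ
  bt := cor
  sp := spJ
  w := fun τ ω => Real.exp (-β * enf k (fx ω) (lk ω) τ)
  Fr := FrJ L
  tms := tml
  mem_Fr := mem_FrJ
  mem_tms := mem_tml
  bt_iff := cor_iffJ
  diam_bt := diam_cor
  diam_bl := fun i => by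
    rcases i with l | x
    · exact diam_st l
    · exact diam_cor (x, 3)
  bl_ne := fun i => by
    rcases i with l | x
    · exact ⟨l.1.1, by show l.1.1 ∈ st l; rw [mem_st]; exact Or.inl rfl⟩
    · exact ⟨x, (mem_cor3 x x).2 (Or.inl rfl)⟩
  w_pos := fun τ ω => Real.exp_pos _
  w_le := fun τ ω => by
    rw [Real.exp_le_one_iff]
    have := mul_nonneg hβ (enf_nonneg k (fx ω) (lk ω) τ)
    linarith
  w_meas := fun τ => wJ_meas k β τ
  w_loc := fun τ X Y h => by
    have h1 : enf k (fx X) (lk X) τ = enf k (fx Y) (lk Y) τ := by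
      refine enf_loc k _ _ τ _ _ (fun l hl => ?_) fun h3 => ?_
      · unfold lk
        rw [h (Sum.inl l) ((spJ_inl τ l).2 hl)]
      · unfold fx
        rw [h (Sum.inr τ.1) ((spJ_inr τ τ.1).2 (Prod.ext rfl h3))]
    simp only [h1]

end T2H01.SE
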