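import Pool.Agent.T2H01.SE.Stm4
import Pool.Agent.T2H01.SE.SysJ
import Pool.Agent.T2H01.SE.ZT
import Pool.Agent.T2H02.TT.F

/-!
# Package TP : integration over the box in the torus
-/

set_option autoImplicit false
set_option linter.unusedSectionVars false
set_option linter.unusedVariables false

noncomputable section

open MeasureTheory Matrix
open scoped Matrix.Norms.Frobenius

namespace T2H01.SE

open T2H02.TT

namespace PkgTP

/-! ### product measures -/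

lemma map_inj {ι κ X : Type} [MeasurableSpace X] (μ : Measure X) [IsProbabilityMeasure μ]
    (φ : ι → κ) (hφ : Function.Injective φ) :
    (Measure.infinitePi fun _ : κ => μ).map (fun (Y : κ → X) (i : ι) => Y (φ i)) =
      Measure.infinitePi fun _ : ι => μ := by
  classical
  apply Measure.eq_infinitePi
  intro s t ht
  rw [Measure.map_apply (measurable_pi_lambda _ fun i => measurable_pi_apply (φ i))
    (MeasurableSet.pi s.countable_toSet (fun i _ => ht i))]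
  have h1 : (fun (Y : κ → X) (i : ι) => Y (φ i)) ⁻¹' (Set.pi (s : Set ι) t) =
      Set.pi ((s.map ⟨φ, hφ⟩ : Finset κ) : Set κ)
        (fun j => if h : ∃ i, φ i = j then t h.choose else Set.univ) := by
    ext Y
    simp only [Set.mem_preimage, Set.mem_pi, Finset.mem_coe, Finset.mem_map,
      Function.Embedding.coeFn_mk]
    constructor
    · rintro h j ⟨i, hi, rfl⟩
      have hex : ∃ i', φ i' = φ i := ⟨i, rfl⟩
      rw [dif_pos hex, hφ hex.choose_spec]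
      exact h i hi
    · intro h i hi
      have hex : ∃ i', φ i' = φ i := ⟨i, rfl⟩
      have := h (φ i) ⟨i, hi, rfl⟩
      rwa [dif_pos hex, hφ hex.choose_spec] at this
  rw [h1, Measure.infinitePi_pi, Finset.prod_map]
  · refine Finset.prod_congr rfl fun i _ => ?_
    have hex : ∃ i', φ i' = φ i := ⟨i, rfl⟩
    show μ (if h : ∃ i', φ i' = φ i then t h.choose else Set.univ) = _
    rw [dif_pos hex, hφ hex.choose_spec]
  · intro j _
    split_ifs
    · exact ht _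
    · exact MeasurableSet.univ

section

variable {N A B L : ℕ} [NeZero A] [NeZero B] [NeZero L]

/-- projection of the links on the torus -/
def pj (A B : ℕ) {L : ℕ} (l : Lk L) : TL A B L :=
  ((((l.1.1.1 : ZMod A), (l.1.1.2 : ZMod B)), l.1.2), l.2)

lemma per_apply (X : TC N A B L) (l : Lk L) : per X l = X (pj A B l) := rfl

lemma per_meas : Measurable (per : TC N A B L → Cf N L) :=
  measurable_pi_lambda _ fun l => measurable_pi_apply _

lemma mem_fdm (x : Pl) : x ∈ fdm A B ↔ (0 ≤ x.1 ∧ x.1 < A) ∧ 0 ≤ x.2 ∧ x.2 < B := by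
  rw [fdm, Finset.mem_product, Finset.mem_Ico, Finset.mem_Ico]

lemma mem_box (x : Pl) : x ∈ rc (1, 1) ((A : ℤ) - 1, (B : ℤ) - 1) ↔
    (1 ≤ x.1 ∧ x.1 ≤ (A : ℤ) - 1) ∧ 1 ≤ x.2 ∧ x.2 ≤ (B : ℤ) - 1 := by
  rw [rc, Finset.mem_product, Finset.mem_Icc, Finset.mem_Icc]

/-- the position of the links of the free set -/
lemma Frl_pos (l : Lk L) (h : l ∈ Frl L (rc (1, 1) ((A : ℤ) - 1, (B : ℤ) - 1))) :
    (0 ≤ l.1.1.1 ∧ l.1.1.1 < A) ∧ (0 ≤ l.1.1.2 ∧ l.1.1.2 < B) ∧ (l.1.1.1 = 0 → l.2 = 0) ∧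
      (l.1.1.2 = 0 → l.2 = 1) := by
  obtain ⟨a, ha, hb⟩ := (mem_Frl _ _).1 h
  rw [mem_box] at hb
  rw [mem_st] at ha
  obtain ⟨⟨⟨x1, x2⟩, y⟩, i⟩ := l
  obtain ⟨a1, a2⟩ := a
  simp only at ha hb ⊢
  rcases ha with ha | ha
  · obtain ⟨rfl, rfl⟩ := Prod.mk.inj ha
    exact ⟨⟨by omega, by omega⟩, ⟨by omega, by omega⟩, by omega, by omega⟩
  · fin_cases i
    · have h1 : ((a1, a2) : Pl) = (x1 + 1, x2 + 0) := ha
      obtain ⟨rfl, rfl⟩ := Prod.mk.inj h1
      exact ⟨⟨by omega, by omega⟩, ⟨by omega, by omega⟩, fun _ => rfl, by omega⟩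
    · have h1 : ((a1, a2) : Pl) = (x1 + 0, x2 + 1) := ha
      obtain ⟨rfl, rfl⟩ := Prod.mk.inj h1
      exact ⟨⟨by omega, by omega⟩, ⟨by omega, by omega⟩, by omega, fun _ => rfl⟩
    · have h1 : ((a1, a2) : Pl) = (x1 + 0, x2 + 0) := ha
      obtain ⟨rfl, rfl⟩ := Prod.mk.inj h1
      exact ⟨⟨by omega, by omega⟩, ⟨by omega, by omega⟩, by omega, by omega⟩
    · have h1 : ((a1, a2) : Pl) = (x1 + 0, x2 + 0) := ha
      obtain ⟨rfl, rfl⟩ := Prod.mk.inj h1
      exact ⟨⟨by omega, by omega⟩, ⟨by omega, by omega⟩, by omega, by omega⟩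

/-- the position of the links of the terms over the fundamental domain -/
lemma spt_pos (τ : Tm) (hτ : τ.1 ∈ fdm A B) (l : Lk L) (h : l ∈ (spt τ : Finset (Lk L))) :
    (0 ≤ l.1.1.1 ∧ l.1.1.1 ≤ A) ∧ (0 ≤ l.1.1.2 ∧ l.1.1.2 ≤ B) ∧ (l.1.1.1 = A → l.2 ≠ 0) ∧
      (l.1.1.2 = B → l.2 ≠ 1) := by
  obtain ⟨⟨x1, x2⟩, i⟩ := τ
  rw [mem_fdm] at hτ
  simp only at hτ
  obtain ⟨⟨h1, h2⟩, h3, h4⟩ := hτ
  fin_cases i
  · obtain ⟨y, rfl | rfl⟩ := (mem_spt0 _ _).1 h
    all_goals simp only []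
    all_goals refine ⟨⟨by omega, by omega⟩, ⟨by omega, by omega⟩, fun _ => ?_, fun _ => ?_⟩
    all_goals first | decide | omega
  · obtain ⟨y, rfl | rfl | rfl | rfl | rfl⟩ := (mem_spt1 _ _).1 h
    all_goals simp only [Prod.mk_add_mk]
    all_goals refine ⟨⟨by omega, by omega⟩, ⟨by omega, by omega⟩, fun _ => ?_, fun _ => ?_⟩
    all_goals first | decide | omega
  · obtain ⟨y, rfl | rfl | rfl | rfl | rfl⟩ := (mem_spt2 _ _).1 h
    all_goals simp only [Prod.mk_add_mk]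
    all_goals refine ⟨⟨by omega, by omega⟩, ⟨by omega, by omega⟩, fun _ => ?_, fun _ => ?_⟩
    all_goals first | decide | omega
  · obtain ⟨y, rfl | rfl | rfl | rfl⟩ := (mem_spt3 _ _).1 h
    all_goals simp only [Prod.mk_add_mk]
    all_goals refine ⟨⟨by omega, by omega⟩, ⟨by omega, by omega⟩, fun _ => ?_, fun _ => ?_⟩
    all_goals first | decide | omega

lemma cast_eq (n : ℕ) (a b : ℤ) (h : (a : ZMod n) = (b : ZMod n)) (ha : 0 ≤ a) (ha' : a ≤ n)
    (hb : 0 ≤ b) (hb' : b < n) : a = b ∨ (a = n ∧ b = 0) := by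
  rw [ZMod.intCast_eq_intCast_iff_dvd_sub] at h
  obtain ⟨c, hc⟩ := h
  have h1 : c = 0 ∨ c = -1 := by
    have h2 : (n : ℤ) * c < (n : ℤ) * 1 := by rw [← hc]; omega
    have h3 : (n : ℤ) * (-2) < (n : ℤ) * c := by rw [← hc]; omega
    have hn : (0 : ℤ) < n := by omega
    have h4 := lt_of_mul_lt_mul_left h2 hn.le
    have h5 := lt_of_mul_lt_mul_left h3 hn.le
    omega
  rcases h1 with rfl | rfl
  · left; omega
  · right; omega

/-- links of the terms over the fundamental domain which project on a free link are free -/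
lemma pj_mem (l l' : Lk L) (hl : (0 ≤ l.1.1.1 ∧ l.1.1.1 ≤ A) ∧ (0 ≤ l.1.1.2 ∧ l.1.1.2 ≤ B) ∧
    (l.1.1.1 = A → l.2 ≠ 0) ∧ (l.1.1.2 = B → l.2 ≠ 1))
    (hl' : l' ∈ Frl L (rc (1, 1) ((A : ℤ) - 1, (B : ℤ) - 1))) (h : pj A B l = pj A B l') :
    l = l' := by
  obtain ⟨p1, p2, p3, p4⟩ := Frl_pos l' hl'
  obtain ⟨q1, q2, q3, q4⟩ := hl
  obtain ⟨⟨⟨x1, x2⟩, y⟩, i⟩ := l
  obtain ⟨⟨⟨x1', x2'⟩, y'⟩, i'⟩ := l'
  unfold pj at h
  simp only [Prod.mk.injEq] at h
  obtain ⟨⟨⟨h1, h2⟩, h3⟩, h4⟩ := h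
  simp only at p1 p2 p3 p4 q1 q2 q3 q4
  subst h3 h4
  have e1 : x1 = x1' := by
    rcases cast_eq A x1 x1' h1 q1.1 q1.2 p1.1 p1.2 with e | ⟨e, e'⟩
    · exact e
    · exact absurd (p3 e') (q3 e)
  have e2 : x2 = x2' := by
    rcases cast_eq B x2 x2' h2 q2.1 q2.2 p2.1 p2.2 with e | ⟨e, e'⟩
    · exact e
    · exact absurd (p4 e') (q4 e)
  subst e1 e2
  rfl

lemma pj_inj (l l' : Lk L) (hl : l ∈ Frl L (rc (1, 1) ((A : ℤ) - 1, (B : ℤ) - 1)))
    (hl' : l' ∈ Frl L (rc (1, 1) ((A : ℤ) - 1, (B : ℤ) - 1))) (h : pj A B l = pj A B l') :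
    l = l' := by
  obtain ⟨p1, p2, p3, p4⟩ := Frl_pos l hl
  exact pj_mem l l' ⟨⟨p1.1, p1.2.le⟩, ⟨p2.1, p2.2.le⟩, fun h => absurd h p1.2.ne,
    fun h => absurd h p2.2.ne⟩ hl' h

/-- the free links of the torus -/
def JJ (A B L : ℕ) [NeZero A] [NeZero B] [NeZero L] : Finset (TL A B L) :=
  (Frl L (rc (1, 1) ((A : ℤ) - 1, (B : ℤ) - 1))).image (pj A B)

lemma glue_per (τ : Tm) (hτ : τ.1 ∈ fdm A B) (X Y : TC N A B L) (l : Lk L)
    (h : l ∈ (spt τ : Finset (Lk L))) :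
    per (glue (JJ A B L) Y X) l =
      glue (Frl L (rc (1, 1) ((A : ℤ) - 1, (B : ℤ) - 1))) (per Y) (per X) l := by
  rw [per_apply]
  unfold glue
  by_cases hl : l ∈ Frl L (rc (1, 1) ((A : ℤ) - 1, (B : ℤ) - 1))
  · have h1 : pj A B l ∈ JJ A B L := Finset.mem_image_of_mem _ hl
    rw [if_pos hl, if_pos h1]
    rfl
  · rw [if_neg hl, if_neg]
    · rfl
    · intro hh
      obtain ⟨l', h1, h2⟩ := Finset.mem_image.1 hh
      have := pj_mem l l' (spt_pos τ hτ l h) h1 h2.symm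
      exact hl (this ▸ h1)

lemma not_Frl (U : Finset Pl) (τ : Tm) (hτ : τ ∉ tml U) (l : Lk L)
    (h : l ∈ (spt τ : Finset (Lk L))) : l ∉ Frl L U := by
  intro hl
  obtain ⟨a, h1, h2⟩ := (mem_Frl _ _).1 hl
  exact hτ ((mem_tml _ _).2 ⟨a, (cor_iff (L := L) τ a).2 ⟨l, h, h1⟩, h2⟩)

lemma tml_sub (τ : Tm) (h : τ ∈ tml (rc (1, 1) ((A : ℤ) - 1, (B : ℤ) - 1))) : τ.1 ∈ fdm A B := by
  obtain ⟨a, h1, h2⟩ := (mem_tml _ _).1 h
  rw [mem_box] at h2
  rw [mem_fdm]
  obtain ⟨⟨x1, x2⟩, i⟩ := τ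
  obtain ⟨a1, a2⟩ := a
  simp only at h2 ⊢
  fin_cases i
  · have := (mem_cor0 _ _).1 h1
    obtain ⟨rfl, rfl⟩ := Prod.mk.inj this
    omega
  · rcases (mem_cor1 _ _).1 h1 with e | e
    · obtain ⟨rfl, rfl⟩ := Prod.mk.inj e
      omega
    · rw [Prod.mk_add_mk] at e
      obtain ⟨rfl, rfl⟩ := Prod.mk.inj e
      omega
  · rcases (mem_cor2 _ _).1 h1 with e | e
    · obtain ⟨rfl, rfl⟩ := Prod.mk.inj e
      omega
    · rw [Prod.mk_add_mk] at e
      obtain ⟨rfl, rfl⟩ := Prod.mk.inj e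
      omega
  · rcases (mem_cor3 _ _).1 h1 with e | e | e | e
    · obtain ⟨rfl, rfl⟩ := Prod.mk.inj e
      omega
    · rw [Prod.mk_add_mk] at e
      obtain ⟨rfl, rfl⟩ := Prod.mk.inj e
      omega
    · rw [Prod.mk_add_mk] at e
      obtain ⟨rfl, rfl⟩ := Prod.mk.inj e
      omega
    · rw [Prod.mk_add_mk] at e
      obtain ⟨rfl, rfl⟩ := Prod.mk.inj e
      omega

lemma mem_bdt (τ : Tm) : τ ∈ bdt A B ↔
    τ.1 ∈ fdm A B ∧ τ ∉ tml (rc (1, 1) ((A : ℤ) - 1, (B : ℤ) - 1)) := by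
  rw [bdt, Finset.mem_filter, Finset.mem_product]
  simp only [Finset.mem_univ, and_true]

lemma bdt_kind (hA : 2 ≤ A) (hB : 2 ≤ B) (τ : Tm) (h : τ ∈ bdt A B) : τ.2 ≠ 3 := by
  obtain ⟨h1, h2⟩ := (mem_bdt τ).1 h
  intro h3
  apply h2
  rw [mem_fdm] at h1
  obtain ⟨⟨x1, x2⟩, i⟩ := τ
  obtain rfl : i = 3 := h3
  simp only at h1
  rw [mem_tml]
  have e : ∃ u v : ℤ, (u = 0 ∨ u = 1) ∧ (v = 0 ∨ v = 1) ∧ 1 ≤ x1 + u ∧ x1 + u ≤ (A : ℤ) - 1 ∧
      1 ≤ x2 + v ∧ x2 + v ≤ (B : ℤ) - 1 := by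
    by_cases hx : x1 = 0 <;> by_cases hy : x2 = 0
    · exact ⟨1, 1, by omega, by omega, by omega, by omega, by omega, by omega⟩
    · exact ⟨1, 0, by omega, by omega, by omega, by omega, by omega, by omega⟩
    · exact ⟨0, 1, by omega, by omega, by omega, by omega, by omega, by omega⟩
    · exact ⟨0, 0, by omega, by omega, by omega, by omega, by omega, by omega⟩
  obtain ⟨u, v, hu, hv, e1, e2, e3, e4⟩ := e
  refine ⟨(x1 + u, x2 + v), ?_, ?_⟩
  · rw [mem_cor3]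
    rcases hu with rfl | rfl <;> rcases hv with rfl | rfl <;>
      simp only [Prod.mk_add_mk, add_zero, true_or, or_true]
  · rw [mem_box]
    exact ⟨⟨e1, e2⟩, e3, e4⟩

/-- splitting of the terms over the fundamental domain -/
lemma prod_split {M : Type} [CommMonoid M] (f : Tm → M) :
    ∏ x ∈ fdm A B, ∏ i : Fin 4, f (x, i) =
      (∏ τ ∈ bdt A B, f τ) * ∏ τ ∈ tml (rc (1, 1) ((A : ℤ) - 1, (B : ℤ) - 1)), f τ := by
  rw [← Finset.prod_product']
  rw [← Finset.prod_filter_mul_prod_filter_not (fdm A B ×ˢ Finset.univ)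
    (fun τ => τ ∉ tml (rc (1, 1) ((A : ℤ) - 1, (B : ℤ) - 1))) f]
  congr 1
  refine Finset.prod_congr ?_ fun _ _ => rfl
  ext τ
  rw [Finset.mem_filter, Finset.mem_product, not_not]
  constructor
  · exact fun h => h.2
  · exact fun h => ⟨⟨tml_sub τ h, Finset.mem_univ _⟩, h⟩

/-! ### the integral -/

/-- extension of the values of the free links -/
def xg (U : Finset Pl) (η : Cf N L) (z : {l : Lk L // l ∈ Frl L U} → SU N) : Cf N L := fun l =>
  if h : l ∈ Frl L U then z ⟨l, h⟩ else η l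

lemma xg_meas (U : Finset Pl) (η : Cf N L) : Measurable (xg U η) := by
  refine measurable_pi_lambda _ fun l => ?_
  unfold xg
  split_ifs
  · exact measurable_pi_apply _
  · exact measurable_const

lemma xg_eq (U : Finset Pl) (η ξ : Cf N L) : xg U η (fun l => ξ l.1) = glue (Frl L U) ξ η := by
  funext l
  unfold xg glue
  split_ifs <;> rfl

lemma per_int {E : Type} [NormedAddCommGroup E] [NormedSpace ℝ E] [MeasurableSpace E]
    [BorelSpace E] [SecondCountableTopology E] (F : Cf N L → E) (hF : Measurable F) (η : Cf N L) :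
    ∫ Y : TC N A B L, F (glue (Frl L (rc (1, 1) ((A : ℤ) - 1, (B : ℤ) - 1))) (per Y) η)
        ∂(Measure.infinitePi fun _ => hm N) =
      ∫ ξ, F (glue (Frl L (rc (1, 1) ((A : ℤ) - 1, (B : ℤ) - 1))) ξ η) ∂(pm N L) := by
  have h1 := map_inj (hm N)
    (fun l : {l : Lk L // l ∈ Frl L (rc (1, 1) ((A : ℤ) - 1, (B : ℤ) - 1))} => pj A B l.1)
    (fun l l' h => Subtype.ext (pj_inj l.1 l'.1 l.2 l'.2 h))
  have h2 := map_inj (hm N)
    (fun l : {l : Lk L // l ∈ Frl L (rc (1, 1) ((A : ℤ) - 1, (B : ℤ) - 1))} => l.1)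
    (fun l l' h => Subtype.ext h)
  have hG : Measurable fun z => F (xg (rc (1, 1) ((A : ℤ) - 1, (B : ℤ) - 1)) η z) :=
    hF.comp (xg_meas _ η)
  have e1 : ∫ Y : TC N A B L, F (glue (Frl L (rc (1, 1) ((A : ℤ) - 1, (B : ℤ) - 1))) (per Y) η)
        ∂(Measure.infinitePi fun _ => hm N) =
      ∫ z, F (xg (rc (1, 1) ((A : ℤ) - 1, (B : ℤ) - 1)) η z)
        ∂(Measure.infinitePi fun _ => hm N) := by
    rw [← h1, integral_map (measurable_pi_lambda _ fun i => measurable_pi_apply _).aemeasurable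
      hG.aestronglyMeasurable]
    refine integral_congr_ae (Filter.Eventually.of_forall fun Y => ?_)
    show F _ = F _
    rw [← xg_eq]
    rfl
  have e2 : ∫ ξ, F (glue (Frl L (rc (1, 1) ((A : ℤ) - 1, (B : ℤ) - 1))) ξ η) ∂(pm N L) =
      ∫ z, F (xg (rc (1, 1) ((A : ℤ) - 1, (B : ℤ) - 1)) η z)
        ∂(Measure.infinitePi fun _ => hm N) := by
    rw [← h2, integral_map (measurable_pi_lambda _ fun i => measurable_pi_apply _).aemeasurable
      hG.aestronglyMeasurable]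
    refine integral_congr_ae (Filter.Eventually.of_forall fun ξ => ?_)
    show F _ = F _
    rw [← xg_eq]
  rw [e1, e2]

lemma F2gen {E : Type} [NormedAddCommGroup E] [NormedSpace ℝ E] [MeasurableSpace E]
    [BorelSpace E] [SecondCountableTopology E] {ι X : Type} [DecidableEq ι] [MeasurableSpace X]
    (μ : Measure X) [IsProbabilityMeasure μ] (J : Finset ι) (f : (ι → X) → E)
    (hf : Measurable f) (hb : ∃ K : ℝ, ∀ ω, ‖f ω‖ ≤ K) :
    ∫ ω, f ω ∂(Measure.infinitePi fun _ : ι => μ) =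
      ∫ η, (∫ ξ, f (glue J ξ η) ∂(Measure.infinitePi fun _ : ι => μ))
        ∂(Measure.infinitePi fun _ : ι => μ) := by
  obtain ⟨K, hK⟩ := hb
  conv_lhs => rw [← PkgF.map_glue μ J]
  rw [integral_map (PkgF.meas_glue J).aemeasurable hf.aestronglyMeasurable]
  rw [integral_prod (fun p : (ι → X) × (ι → X) => f (glue J p.2 p.1))]
  exact Integrable.of_bound (hf.comp (PkgF.meas_glue J)).aestronglyMeasurable K
    (Filter.Eventually.of_forall fun ω => hK _)

lemma main {E : Type} [NormedAddCommGroup E] [NormedSpace ℝ E] [MeasurableSpace E]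
    [BorelSpace E] [SecondCountableTopology E] (W : Cf N L → ℝ) (F : Cf N L → E)
    (hWm : Measurable W) (hFm : Measurable F) (hWb : ∀ X, |W X| ≤ 1) (hFb : ∀ X, ‖F X‖ ≤ 1)
    (hW : ∀ X Y : TC N A B L, W (per (glue (JJ A B L) Y X)) = W (per X))
    (hF : ∀ X Y : TC N A B L, F (per (glue (JJ A B L) Y X)) =
      F (glue (Frl L (rc (1, 1) ((A : ℤ) - 1, (B : ℤ) - 1))) (per Y) (per X))) :
    ∫ X : TC N A B L, W (per X) • F (per X) ∂(Measure.infinitePi fun _ => hm N) =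
      ∫ X : TC N A B L, W (per X) •
        (∫ ξ, F (glue (Frl L (rc (1, 1) ((A : ℤ) - 1, (B : ℤ) - 1))) ξ (per X)) ∂(pm N L))
          ∂(Measure.infinitePi fun _ => hm N) := by
  rw [F2gen (hm N) (JJ A B L) (fun X : TC N A B L => W (per X) • F (per X))
    ((hWm.comp per_meas).smul (hFm.comp per_meas)) ⟨1, fun X => by
      rw [norm_smul, Real.norm_eq_abs]
      exact mul_le_one₀ (hWb _) (norm_nonneg _) (hFb _)⟩]
  refine integral_congr_ae (Filter.Eventually.of_forall fun X => ?_)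
  beta_reduce
  rw [← per_int (A := A) (B := B) F hFm (per X), ← integral_smul]
  refine integral_congr_ae (Filter.Eventually.of_forall fun Y => ?_)
  beta_reduce
  rw [hW, hF]

/-- the boundary weight -/
def Wb (k : ℕ) (β : ℝ) (A B : ℕ) (X : Cf N L) : ℝ := Real.exp (-β * ∑ τ ∈ bdt A B, en1 k X τ)

lemma Wb_meas (k : ℕ) (β : ℝ) : Measurable (Wb k β A B : Cf N L → ℝ) := by
  unfold Wb
  exact ((continuous_const.mul (continuous_finsetSum _ fun τ _ => en1_cont k τ)).rexp).measurable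

lemma exp_bd (β : ℝ) (hβ : 0 ≤ β) (s : ℝ) (hs : 0 ≤ s) : |Real.exp (-β * s)| ≤ 1 := by
  rw [abs_of_pos (Real.exp_pos _)]
  exact Real.exp_le_one_iff.2 (by nlinarith)

lemma Wb_bd (k : ℕ) (β : ℝ) (hβ : 0 ≤ β) (X : Cf N L) : |Wb k β A B X| ≤ 1 :=
  exp_bd β hβ _ (Finset.sum_nonneg fun τ _ => en1_nonneg k X τ)

lemma Wb_loc (k : ℕ) (β : ℝ) (X Y : TC N A B L) :
    Wb k β A B (per (glue (JJ A B L) Y X)) = Wb k β A B (per X) := by
  have e : ∑ τ ∈ bdt A B, en1 k (per (glue (JJ A B L) Y X)) τ = ∑ τ ∈ bdt A B, en1 k (per X) τ := by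
    refine Finset.sum_congr rfl fun τ hτ => ?_
    obtain ⟨h1, h2⟩ := (mem_bdt τ).1 hτ
    refine en1_loc k τ _ _ fun l hl => ?_
    rw [glue_per τ h1 X Y l hl]
    unfold glue
    rw [if_neg (not_Frl _ τ h2 l hl)]
  unfold Wb
  rw [e]

lemma wch_meas (β : ℝ) (c : ℕ) (x : Pl) : Measurable fun X : Cf N L => wch N β c x X := by
  unfold wch
  refine Continuous.measurable ?_
  refine Continuous.div_const (continuous_finsetSum _ fun m _ => continuous_const.mul ?_) _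
  exact Complex.continuous_ofReal.comp (continuous_const.mul (eP_cont _ _)).rexp

lemma wch_loc (β : ℝ) (c : ℕ) (x : Pl) (X Y : Cf N L)
    (h : ∀ l ∈ (spt (x, 3) : Finset (Lk L)), X l = Y l) : wch N β c x X = wch N β c x Y := by
  unfold wch
  congr 1
  refine Finset.sum_congr rfl fun m _ => ?_
  rw [eP_loc (om N m) x X Y h]

lemma Ic_meas (k : ℕ) (β : ℝ) (c : ℕ) (U : Finset Pl) :
    Measurable fun X : Cf N L => PkgZT.Ic k β c U X := by
  unfold PkgZT.Ic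
  refine Measurable.mul (Finset.measurable_prod _ fun τ _ => ?_)
    (Finset.measurable_prod _ fun τ _ => wch_meas β c τ.1)
  exact (Complex.continuous_ofReal.comp (continuous_const.mul (en1_cont k τ)).rexp).measurable

lemma Ic_loc (k : ℕ) (β : ℝ) (c : ℕ) (U : Finset Pl) (X Y : Cf N L)
    (h : ∀ τ ∈ tml U, ∀ l ∈ (spt τ : Finset (Lk L)), X l = Y l) :
    PkgZT.Ic k β c U X = PkgZT.Ic k β c U Y := by
  have e1 : (∏ τ ∈ (tml U).filter (fun τ => τ.2 ≠ 3), (Real.exp (-β * en1 k X τ) : ℂ)) =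
      ∏ τ ∈ (tml U).filter (fun τ => τ.2 ≠ 3), (Real.exp (-β * en1 k Y τ) : ℂ) := by
    refine Finset.prod_congr rfl fun τ hτ => ?_
    rw [en1_loc k τ X Y (h τ (Finset.mem_filter.1 hτ).1)]
  have e2 : (∏ τ ∈ (tml U).filter (fun τ => τ.2 = 3), wch N β c τ.1 X) =
      ∏ τ ∈ (tml U).filter (fun τ => τ.2 = 3), wch N β c τ.1 Y := by
    refine Finset.prod_congr rfl fun τ hτ => ?_
    obtain ⟨h1, h2⟩ := Finset.mem_filter.1 hτ
    obtain ⟨x, i⟩ := τ
    obtain rfl : i = 3 := h2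
    exact wch_loc β c x X Y (h (x, 3) h1)
  unfold PkgZT.Ic
  rw [e1, e2]

lemma Ic_bd (hN : 0 < N) (k : ℕ) (β : ℝ) (hβ : 0 ≤ β) (c : ℕ) (U : Finset Pl) (X : Cf N L) :
    ‖PkgZT.Ic k β c U X‖ ≤ 1 :=
  (PkgZT.norm_Ic_le hN k β c U X).trans
    (Finset.prod_le_one (fun τ _ => (wt_pos k β τ _ hN).le) fun τ _ => wt_le k β hβ τ _ hN)

lemma fzp_id (P Q : SU N) (X : Cf N L) : fzp P Q false false A B X = X := by
  funext l
  unfold fzp
  rw [if_neg]
  intro h
  have := h l.1.1 ((mem_st l _).2 (Or.inl rfl))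
  unfold fzs at this
  simp at this

/-- the weight of all the terms over the fundamental domain -/
lemma Wt_eq (hA : 2 ≤ A) (hB : 2 ≤ B) (k : ℕ) (β : ℝ) (c : ℕ) (X : Cf N L) :
    Wt k β c A B X = (Wb k β A B X : ℂ) *
      PkgZT.Ic k β c (rc (1, 1) ((A : ℤ) - 1, (B : ℤ) - 1)) X := by
  set h : Tm → ℂ := fun τ => if τ.2 = 3 then wch N β c τ.1 X else
    (Real.exp (-β * en1 k X τ) : ℂ) with hh
  have e1 : Wt k β c A B X = ∏ x ∈ fdm A B, ∏ i : Fin 4, h (x, i) := by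
    unfold Wt
    refine Finset.prod_congr rfl fun x _ => ?_
    rw [Fin.prod_univ_four, hh]
    simp only [Finset.prod_insert, Finset.mem_insert, Finset.mem_singleton, Finset.prod_singleton,
      Fin.reduceEq, or_self, not_false_eq_true, if_false, if_true]
    ring
  have e2 : ∏ τ ∈ bdt A B, h τ = (Wb k β A B X : ℂ) := by
    unfold Wb
    rw [Finset.mul_sum, Real.exp_sum, Complex.ofReal_prod]
    refine Finset.prod_congr rfl fun τ hτ => ?_
    rw [hh]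
    exact if_neg (bdt_kind hA hB τ hτ)
  have e3 : ∏ τ ∈ tml (rc (1, 1) ((A : ℤ) - 1, (B : ℤ) - 1)), h τ =
      PkgZT.Ic k β c (rc (1, 1) ((A : ℤ) - 1, (B : ℤ) - 1)) X := by
    unfold PkgZT.Ic
    rw [← Finset.prod_filter_mul_prod_filter_not (tml (rc (1, 1) ((A : ℤ) - 1, (B : ℤ) - 1)))
      (fun τ : Tm => τ.2 = 3) h, mul_comm]
    refine congrArg₂ (· * ·) ?_ ?_
    · refine Finset.prod_congr rfl fun τ hτ => ?_
      rw [hh]
      exact if_neg (Finset.mem_filter.1 hτ).2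
    · refine Finset.prod_congr rfl fun τ hτ => ?_
      rw [hh]
      exact if_pos (Finset.mem_filter.1 hτ).2
  rw [e1, prod_split, e2, e3]

end

end PkgTP

open PkgTP in
theorem pTP (hF2 : S_F2) (hTW : S_TW) : S_TP := by
  intro N k L _ hN P Q β hβ A B _ _ hA hB
  have hN0 : 0 < N := by omega
  constructor
  · intro n
    have h1 := main (A := A) (B := B) (Wb k β A B : Cf N L → ℝ)
      (fun X => Real.exp (-β * EE k (dl 0 n) (rc (1, 1) ((A : ℤ) - 1, (B : ℤ) - 1)) X))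
      (Wb_meas k β) (by
        unfold EE
        exact ((continuous_const.mul
          (continuous_finsetSum _ fun τ _ => enf_cont k _ τ)).rexp).measurable)
      (Wb_bd k β hβ) (fun X => by
        rw [Real.norm_eq_abs]
        exact exp_bd β hβ _ (Finset.sum_nonneg fun τ _ => enf_nonneg k _ X τ))
      (Wb_loc k β) (fun X Y => by
        have e : EE k (dl 0 n) (rc (1, 1) ((A : ℤ) - 1, (B : ℤ) - 1)) (per (glue (JJ A B L) Y X)) =
            EE k (dl 0 n) (rc (1, 1) ((A : ℤ) - 1, (B : ℤ) - 1))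
              (glue (Frl L (rc (1, 1) ((A : ℤ) - 1, (B : ℤ) - 1))) (per Y) (per X)) := by
          unfold EE
          refine Finset.sum_congr rfl fun τ hτ => ?_
          exact enf_loc k _ _ τ _ _ (glue_per τ (tml_sub τ hτ) X Y) fun _ => rfl
        rw [e])
    unfold TZ
    refine Eq.trans ?_ h1
    refine integral_congr_ae (Filter.Eventually.of_forall fun X => ?_)
    beta_reduce
    rw [hTW N k L hN n A B X, smul_eq_mul, Wb, ← Real.exp_add, ← mul_add]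
    have h2 := prod_split (A := A) (B := B) (M := Multiplicative ℝ)
      (fun τ => Multiplicative.ofAdd (enf k (dl 0 n) (per X) τ))
    have h3 : ∑ x ∈ fdm A B, ∑ i : Fin 4, enf k (dl 0 n) (per X) (x, i) =
        (∑ τ ∈ bdt A B, enf k (dl 0 n) (per X) τ) +
          ∑ τ ∈ tml (rc (1, 1) ((A : ℤ) - 1, (B : ℤ) - 1)), enf k (dl 0 n) (per X) τ := h2
    have h4 : ∑ τ ∈ bdt A B, enf k (dl 0 n) (per X) τ = ∑ τ ∈ bdt A B, en1 k (per X) τ := by
      refine Finset.sum_congr rfl fun τ hτ => ?_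
      unfold enf
      rw [if_neg (bdt_kind hA hB τ hτ)]
    rw [h3, h4]
    rfl
  · intro c
    have h1 := main (A := A) (B := B) (Wb k β A B : Cf N L → ℝ)
      (fun X => PkgZT.Ic k β c (rc (1, 1) ((A : ℤ) - 1, (B : ℤ) - 1)) X)
      (Wb_meas k β) (Ic_meas k β c _) (Wb_bd k β hβ) (fun X => Ic_bd hN0 k β hβ c _ X)
      (Wb_loc k β) (fun X Y =>
        Ic_loc k β c _ _ _ fun τ hτ => glue_per τ (tml_sub τ hτ) X Y)
    have h2 : ∫ X : TC N A B L, (Real.exp (-β * ∑ τ ∈ bdt A B, en1 k (per X) τ) : ℂ) *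
        Zc k β c (rc (1, 1) ((A : ℤ) - 1, (B : ℤ) - 1)) (per X)
          ∂(Measure.infinitePi fun _ => hm N) = ∫ X : TC N A B L, Wb k β A B (per X) •
        (∫ ξ, PkgZT.Ic k β c (rc (1, 1) ((A : ℤ) - 1, (B : ℤ) - 1))
          (glue (Frl L (rc (1, 1) ((A : ℤ) - 1, (B : ℤ) - 1))) ξ (per X)) ∂(pm N L))
          ∂(Measure.infinitePi fun _ => hm N) := by
      refine integral_congr_ae (Filter.Eventually.of_forall fun X => ?_)
      beta_reduce
      rw [Complex.real_smul]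
      rfl
    rw [h2, ← h1]
    unfold TZc
    refine integral_congr_ae (Filter.Eventually.of_forall fun X => ?_)
    beta_reduce
    rw [fzp_id, Wt_eq hA hB, Complex.real_smul]

end T2H01.SE
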