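import Pool.Agent.T2H01.SE.Stm4
import Pool.Agent.T2H01.SE.RT

/-!
# Package TS: exchange of the directions of the torus
-/

set_option autoImplicit false
set_option linter.unusedSectionVars false

noncomputable section

open MeasureTheory Matrix
open scoped Matrix.Norms.Frobenius

namespace T2H01.SE

open T2H02.TT

namespace PkgTS

/-- the product measure is invariant under bijections of the index sets -/
lemma int_perm {N : ℕ} {ι κ : Type*} (σ : ι ≃ κ) (Φ : (ι → SU N) → ℂ) :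
    ∫ X : κ → SU N, Φ (fun l => X (σ l)) ∂(Measure.infinitePi fun _ => hm N) =
      ∫ X : ι → SU N, Φ X ∂(Measure.infinitePi fun _ => hm N) := by
  have h := Measure.infinitePi_map_piCongrLeft (X := fun _ : ι => SU N) (fun _ : ι => hm N)
    σ.symm
  have h2 : ∀ X : κ → SU N, (MeasurableEquiv.piCongrLeft (fun _ : ι => SU N) σ.symm) X =
      fun l => X (σ l) := by
    intro X
    funext l
    obtain ⟨l', rfl⟩ := σ.symm.surjective l
    rw [MeasurableEquiv.coe_piCongrLeft]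
    have := Equiv.piCongrLeft_apply_apply (fun _ : ι => SU N) σ.symm X l'
    rw [this, Equiv.apply_symm_apply]
  have h3 : ∫ X, Φ X ∂(Measure.infinitePi fun _ : ι => hm N) = ∫ X, Φ X ∂(Measure.map
      (MeasurableEquiv.piCongrLeft (fun _ : ι => SU N) σ.symm)
      (Measure.infinitePi fun _ : κ => hm N)) := by rw [h]
  rw [h3, integral_map_equiv]
  refine integral_congr_ae (Filter.Eventually.of_forall fun X => ?_)
  simp only
  rw [h2]

/-- exchange of the directions -/
def sw (A B L : ℕ) : TL A B L ≃ TL B A L where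
  toFun l := ((l.1.1.swap, l.1.2), PkgSY.s01 l.2)
  invFun l := ((l.1.1.swap, l.1.2), PkgSY.s01 l.2)
  left_inv l := by simp [PkgSY.s01_s01]
  right_inv l := by simp [PkgSY.s01_s01]

variable {N A B L : ℕ} [NeZero A] [NeZero B] [NeZero L]

lemma per_sw (X : TC N B A L) :
    per (fun l => X (sw A B L l)) = fun l => per X (PkgSY.rf L l) := rfl

lemma fzs_sw (u v : Bool) (a : Pl) : fzs v u B A a.swap ↔ fzs u v A B a := by
  unfold fzs
  rw [or_comm]
  rfl

lemma fzp_sw (P Q : SU N) (u v : Bool) (Y : Cf N L) :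
    fzp P Q u v A B (fun l => Y (PkgSY.rf L l)) = fun l => fzp P Q v u B A Y (PkgSY.rf L l) := by
  funext l
  unfold fzp
  have h : (∀ a ∈ st (PkgSY.rf L l), fzs v u B A a) ↔ ∀ a ∈ st l, fzs u v A B a := by
    constructor
    · intro h a ha
      exact (fzs_sw u v a).1 (h a.swap ((PkgRT.st_rf l a).2 ha))
    · intro h a ha
      have h1 := h a.swap ((PkgRT.st_rf l a.swap).1 (by rwa [Prod.swap_swap]))
      have h2 := (fzs_sw (A := A) (B := B) u v a.swap).2 h1
      rwa [Prod.swap_swap] at h2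
  by_cases h1 : ∀ a ∈ st l, fzs u v A B a
  · rw [if_pos h1, if_pos (h.2 h1), PkgRT.vc_rf]
  · rw [if_neg h1, if_neg (fun h2 => h1 (h.1 h2))]

lemma mem_fdm (A B : ℕ) (x : Pl) : x ∈ fdm A B ↔ (0 ≤ x.1 ∧ x.1 < A) ∧ 0 ≤ x.2 ∧ x.2 < B := by
  unfold fdm
  rw [Finset.mem_product, Finset.mem_Ico, Finset.mem_Ico]

lemma prod012 (f : Fin 4 → ℂ) : ∏ i ∈ ({0, 1, 2} : Finset (Fin 4)), f i = f 0 * f 1 * f 2 := by
  rw [Finset.prod_insert (by decide), Finset.prod_insert (by decide), Finset.prod_singleton, mul_assoc]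

set_option maxHeartbeats 400000 in
lemma cell_sw (hN : N ≠ 0) (k : ℕ) (β : ℝ) (c : ℕ) (Y : Cf N L) (x : Pl) :
    (∏ i ∈ ({0, 1, 2} : Finset (Fin 4)),
      (Real.exp (-β * en1 k (fun l => Y (PkgSY.rf L l)) (x, i)) : ℂ)) *
        wch N β c x (fun l => Y (PkgSY.rf L l)) =
      starRingEnd ℂ ((∏ i ∈ ({0, 1, 2} : Finset (Fin 4)),
        (Real.exp (-β * en1 k Y (x.swap, i)) : ℂ)) * wch N β c x.swap Y) := by
  have h0 : en1 k (fun l => Y (PkgSY.rf L l)) (x, 0) = en1 k Y (x.swap, 0) :=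
    (PkgSY.en1_sk k Y x 0).symm
  have h1 : en1 k (fun l => Y (PkgSY.rf L l)) (x, 1) = en1 k Y (x.swap, 2) :=
    (PkgSY.en1_sk k Y x 1).symm
  have h2 : en1 k (fun l => Y (PkgSY.rf L l)) (x, 2) = en1 k Y (x.swap, 1) :=
    (PkgSY.en1_sk k Y x 2).symm
  have h3 : starRingEnd ℂ (wch N β c x.swap Y) = wch N β c x (fun l => Y (PkgSY.rf L l)) := by
    rw [PkgRT.wch_rf hN]
    exact Complex.conj_conj _
  rw [(starRingEnd ℂ).map_mul, h3, prod012, prod012, h0, h1, h2]
  rw [(starRingEnd ℂ).map_mul, (starRingEnd ℂ).map_mul]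
  rw [Complex.conj_ofReal, Complex.conj_ofReal, Complex.conj_ofReal]
  generalize wch N β c x (fun l => Y (PkgSY.rf L l)) = w
  ring

set_option maxHeartbeats 400000 in
lemma Wt_sw (hN : N ≠ 0) (k : ℕ) (β : ℝ) (c : ℕ) (Y : Cf N L) :
    Wt k β c A B (fun l => Y (PkgSY.rf L l)) = starRingEnd ℂ (Wt k β c B A Y) := by
  unfold Wt
  rw [map_prod]
  refine Finset.prod_nbij' (fun x => x.swap) (fun x => x.swap) ?_ ?_ ?_ ?_ ?_
  · intro x hx
    rw [mem_fdm] at hx ⊢
    exact ⟨hx.2, hx.1⟩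
  · intro x hx
    rw [mem_fdm] at hx ⊢
    exact ⟨hx.2, hx.1⟩
  · intro x _; exact Prod.swap_swap x
  · intro x _; exact Prod.swap_swap x
  · intro x _
    exact cell_sw hN k β c Y x

end PkgTS

open PkgTS in
theorem pTS : S_TS := by
  intro N k L _ hN P Q β hβ c u v A B _ _
  unfold TZc
  rw [← int_perm (sw A B L)]
  have h : ∀ X : TC N B A L, Wt k β c A B (fzp P Q u v A B (per fun l => X (sw A B L l))) =
      starRingEnd ℂ (Wt k β c B A (fzp P Q v u B A (per X))) := by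
    intro X
    rw [per_sw, fzp_sw, Wt_sw (by omega)]
  simp only [h]
  rw [integral_conj]
  exact RCLike.norm_conj _

end T2H01.SE
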