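import Pool.Agent.T2H01.SE.Stm4
import Pool.Agent.T2H02.TT.Model

/-!
# Package TW: the Wilson action of the torus
-/

set_option autoImplicit false
set_option linter.unusedSectionVars false

noncomputable section

open MeasureTheory Matrix
open scoped Matrix.Norms.Frobenius

namespace T2H01.SE

open T2H02.TT

namespace PkgTW

/-- reduction modulo `(A, B)` -/
def cs (A B : ℕ) (x : Pl) : ZMod A × ZMod B := ((x.1 : ZMod A), (x.2 : ZMod B))

lemma sum_zmod (A : ℕ) [NeZero A] (f : ZMod A → ℝ) :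
    ∑ a : ZMod A, f a = ∑ x ∈ Finset.Ico (0 : ℤ) A, f (x : ZMod A) := by
  symm
  refine Finset.sum_nbij' (fun x : ℤ => (x : ZMod A)) (fun a : ZMod A => (a.val : ℤ)) ?_ ?_ ?_ ?_ ?_
  · intro x _; exact Finset.mem_univ _
  · intro a _
    rw [Finset.mem_Ico]
    exact ⟨by positivity, by exact_mod_cast ZMod.val_lt a⟩
  · intro x hx
    rw [Finset.mem_Ico] at hx
    show (((x : ZMod A)).val : ℤ) = x
    rw [ZMod.val_intCast, Int.emod_eq_of_lt hx.1 hx.2]
  · intro a _
    show (((a.val : ℤ)) : ZMod A) = a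
    push_cast
    exact ZMod.natCast_zmod_val a
  · intro x _; rfl

lemma cs_inj {A B : ℕ} [NeZero A] [NeZero B] {x : Pl} (hx : x ∈ fdm A B) : cs A B x = 0 ↔ x = 0 := by
  rw [fdm, Finset.mem_product, Finset.mem_Ico, Finset.mem_Ico] at hx
  constructor
  · intro h
    have h1 : ((x.1 : ℤ) : ZMod A) = 0 := congrArg Prod.fst h
    have h2 : ((x.2 : ℤ) : ZMod B) = 0 := congrArg Prod.snd h
    rw [ZMod.intCast_zmod_eq_zero_iff_dvd] at h1 h2
    have e1 := Int.eq_zero_of_dvd_of_nonneg_of_lt hx.1.1 hx.1.2 h1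
    have e2 := Int.eq_zero_of_dvd_of_nonneg_of_lt hx.2.1 hx.2.2 h2
    exact Prod.ext e1 e2
  · rintro rfl
    simp [cs]

lemma sum_tp {A B L : ℕ} [NeZero A] [NeZero B] [NeZero L] (F : TP A B L → ℝ) :
    ∑ p : TP A B L, F p = ∑ x ∈ fdm A B, ∑ y : Tor L, F (cs A B x, y) := by
  rw [Fintype.sum_prod_type, Fintype.sum_prod_type, fdm, Finset.sum_product, sum_zmod A]
  refine Finset.sum_congr rfl fun a _ => ?_
  exact sum_zmod B _

section

variable {N A B L : ℕ} [NeZero A] [NeZero B] [NeZero L]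

lemma tnx_cs (x : Pl) (y : Tor L) (i : Fin 4) :
    tnx ((cs A B x, y) : TP A B L) i = (cs A B (nx (x, y) i).1, (nx (x, y) i).2) := by
  fin_cases i <;> simp [tnx, nx, cs, pe]

lemma tpl_per (X : TC N A B L) (x : Pl) (y : Tor L) (i j : Fin 4) :
    tpl X (cs A B x, y) i j = plq (per X) (x, y) i j := by
  unfold tpl plq
  rw [tnx_cs, tnx_cs]
  rfl

lemma oz_unit (N : ℕ) (a : ℤ) : star (oz N a) * oz N a = 1 := by
  rw [Complex.star_def, ← Complex.normSq_eq_conj_mul_self, Complex.normSq_eq_norm_sq, oz,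
    show 2 * (Real.pi : ℂ) * Complex.I * a / N = ((2 * Real.pi * a / N : ℝ) : ℂ) * Complex.I by
      push_cast; ring, Complex.norm_exp_ofReal_mul_I]
  norm_num

lemma term (k : ℕ) (n : ℤ) (X : TC N A B L) (x : Pl) (hx : x ∈ fdm A B) :
    ∑ y : Tor L, (∑ i : Fin 4, ∑ j : Fin 4,
      if i < j then (N : ℝ) - (star (ttw N k n ((cs A B x, y) : TP A B L) i j) *
        (tpl X (cs A B x, y) i j : Mt N).trace).re else 0) =
      ∑ i : Fin 4, enf k (dl 0 n) (per X) (x, i) := by
  have hd : ∀ (z : ℂ), star z * z = 1 → ∀ p i j,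
      (N : ℝ) - (star z * (plq (per X) p i j : Mt N).trace).re =
      ‖df (per X) z p i j‖ ^ 2 / 2 := fun z hz p i j => (df_plq (per X) z hz p i j).symm
  have htw : ∀ y : Tor L, star (tw N k y) * tw N k y = 1 := by
    intro y
    unfold tw
    split_ifs
    · exact om_star N k
    · simp
  have hone : star (1 : ℂ) * 1 = 1 := by simp
  have t23 : ∀ y : Tor L, ttw N k n ((cs A B x, y) : TP A B L) 2 3 = tw N k y := by
    intro y
    simp [ttw, tw]
  have t01 : ∀ y : Tor L, ttw N k n ((cs A B x, y) : TP A B L) 0 1 = oz N (dl 0 n x) := by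
    intro y
    by_cases h : x = 0
    · have h' := (cs_inj hx).2 h
      unfold ttw dl
      rw [if_pos ⟨rfl, rfl, h'⟩, if_pos h]
    · have h' : ¬ cs A B x = 0 := fun h2 => h ((cs_inj hx).1 h2)
      simp [ttw, dl, h', h, oz]
  have t02 : ∀ y : Tor L, ttw N k n ((cs A B x, y) : TP A B L) 0 2 = 1 := fun y => by simp [ttw]
  have t03 : ∀ y : Tor L, ttw N k n ((cs A B x, y) : TP A B L) 0 3 = 1 := fun y => by simp [ttw]
  have t12 : ∀ y : Tor L, ttw N k n ((cs A B x, y) : TP A B L) 1 2 = 1 := fun y => by simp [ttw]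
  have t13 : ∀ y : Tor L, ttw N k n ((cs A B x, y) : TP A B L) 1 3 = 1 := fun y => by simp [ttw]
  simp only [Fin.sum_univ_four]
  simp only [Fin.isValue, lt_self_iff_false, if_false, zero_add, add_zero,
    (by decide : (0 : Fin 4) < 1), (by decide : (0 : Fin 4) < 2), (by decide : (0 : Fin 4) < 3),
    (by decide : (1 : Fin 4) < 2), (by decide : (1 : Fin 4) < 3), (by decide : (2 : Fin 4) < 3),
    (by decide : ¬ (1 : Fin 4) < 0), (by decide : ¬ (2 : Fin 4) < 0), (by decide : ¬ (3 : Fin 4) < 0),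
    (by decide : ¬ (2 : Fin 4) < 1), (by decide : ¬ (3 : Fin 4) < 1), (by decide : ¬ (3 : Fin 4) < 2),
    if_true]
  simp only [t01, t02, t03, t12, t13, t23, tpl_per, hd _ hone, hd _ (htw _), hd _ (oz_unit N _)]
  simp only [enf, en1, eV, eK, eP]
  simp (decide := true) only [if_true, if_false]
  simp only [Finset.sum_add_distrib]
  ring

end

end PkgTW

/-- **package TW** -/
theorem pTW : S_TW := by
  intro N k L _ _ n A B _ _ X
  unfold tact
  rw [PkgTW.sum_tp]
  exact Finset.sum_congr rfl fun x hx => PkgTW.term k n X x hx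

end T2H01.SE
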