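import Pool.Agent.T2H01.SE.Stm6
import Pool.Agent.T2H01.SE.TA

/-!
# Package UA : two more kernel inequalities
-/

set_option autoImplicit false

noncomputable section

open MeasureTheory

namespace T2H01.SE.PkgUA

open T2H01.SE.PkgTA

variable {Y : Type} [MeasurableSpace Y] (ν : Measure Y) [IsProbabilityMeasure ν]

/-- the square of the Hilbert-Schmidt norm of the iterated kernel -/
def tau (K : Y → Y → ℂ) (p : ℕ) : ℝ := ∫ x, ∫ z, ‖J ν K p x z‖ ^ 2 ∂ν ∂ν

lemma tau_nonneg (K : Y → Y → ℂ) (p : ℕ) : 0 ≤ tau ν K p :=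
  integral_nonneg (fun x => integral_nonneg (fun z => by positivity))

lemma tau_eq (K : Y → Y → ℂ) (hK : Measurable (Function.uncurry K)) (hb : ∀ x y, ‖K x y‖ ≤ 1)
    (hh : ∀ x y, K y x = star (K x y)) (h : ℕ) :
    ∫ x, J ν K (2 * h + 1) x x ∂ν = (tau ν K h : ℂ) := by
  have h1 : ∀ x, J ν K (2 * h + 1) x x = ((∫ z, ‖J ν K h x z‖ ^ 2 ∂ν : ℝ) : ℂ) := by
    intro x
    rw [two_mul, J_comp ν K hK hb h h x x, ← integral_complex_ofReal]
    congr 1
    funext z
    rw [J_herm ν K hK hb hh h x z]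
    rw [show star (J ν K h x z) = (starRingEnd ℂ) (J ν K h x z) from rfl, Complex.mul_conj,
      Complex.normSq_eq_norm_sq]
  simp_rw [h1]
  rw [integral_complex_ofReal]
  rfl

/-- the Hilbert-Schmidt norm as an integral over the product -/
lemma tau_prod (K : Y → Y → ℂ) (hK : Measurable (Function.uncurry K)) (hb : ∀ x y, ‖K x y‖ ≤ 1)
    (p : ℕ) : tau ν K p = ∫ w : Y × Y, ‖J ν K p w.1 w.2‖ ^ 2 ∂(ν.prod ν) := by
  unfold tau
  rw [integral_prod]
  refine Integrable.of_bound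
    (((J_meas ν K hK p).norm).pow_const 2).aestronglyMeasurable 1
    (Filter.Eventually.of_forall fun w => ?_)
  rw [Real.norm_eq_abs, abs_of_nonneg (by positivity)]
  exact pow_le_one₀ (norm_nonneg _) (J_bdd ν K hb p _ _)

lemma tau_prod' (K : Y → Y → ℂ) (hK : Measurable (Function.uncurry K)) (hb : ∀ x y, ‖K x y‖ ≤ 1)
    (p : ℕ) : tau ν K p = ∫ w : Y × Y, ‖J ν K p w.2 w.1‖ ^ 2 ∂(ν.prod ν) := by
  rw [tau_prod ν K hK hb p]
  exact (integral_prod_swap (μ := ν) (ν := ν) (fun w : Y × Y => ‖J ν K p w.1 w.2‖ ^ 2)).symm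

lemma ib {Z : Type} [MeasurableSpace Z] (μ : Measure Z) [IsProbabilityMeasure μ] (f : Z → ℝ)
    (hf : Measurable f) (h0 : ∀ z, 0 ≤ f z) (h1 : ∀ z, f z ≤ 1) : Integrable f μ :=
  Integrable.of_bound hf.aestronglyMeasurable 1 (Filter.Eventually.of_forall fun z => by
    rw [Real.norm_eq_abs, abs_of_nonneg (h0 z)]; exact h1 z)

/-- submultiplicativity -/
lemma tau_sub (K : Y → Y → ℂ) (hK : Measurable (Function.uncurry K)) (hb : ∀ x y, ‖K x y‖ ≤ 1)
    (p q : ℕ) : tau ν K (p + q + 1) ≤ tau ν K p * tau ν K q := by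
  have e1 : tau ν K p * tau ν K q = ∫ w : Y × Y, (∫ z, ‖J ν K p w.1 z‖ ^ 2 ∂ν) *
      (∫ z, ‖J ν K q z w.2‖ ^ 2 ∂ν) ∂(ν.prod ν) := by
    rw [integral_prod_mul (f := fun x => ∫ z, ‖J ν K p x z‖ ^ 2 ∂ν)
      (g := fun y => ∫ z, ‖J ν K q z y‖ ^ 2 ∂ν)]
    congr 1
    rw [tau_prod' ν K hK hb q, integral_prod]
    refine ib _ _ (((J_meas ν K hK q).comp measurable_swap).norm.pow_const 2)
      (fun z => by positivity) (fun z => pow_le_one₀ (norm_nonneg _) (J_bdd ν K hb q _ _))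
  rw [e1, tau_prod ν K hK hb]
  have m1 : Measurable (fun x => ∫ z, ‖J ν K p x z‖ ^ 2 ∂ν) :=
    ((((J_meas ν K hK p).norm).pow_const 2).stronglyMeasurable.integral_prod_right'
      (ν := ν)).measurable
  have m2 : Measurable (fun y => ∫ z, ‖J ν K q z y‖ ^ 2 ∂ν) :=
    (((((J_meas ν K hK q).comp measurable_swap).norm).pow_const 2).stronglyMeasurable.integral_prod_right'
      (ν := ν)).measurable
  have b1 : ∀ f : Y → ℝ, (∀ z, 0 ≤ f z) → (∀ z, f z ≤ 1) → ∫ z, f z ∂ν ≤ 1 := by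
    intro f h0 h1
    have := norm_integral_le_of_norm_le_const (μ := ν) (f := f) (C := 1)
      (Filter.Eventually.of_forall fun z => by
        rw [Real.norm_eq_abs, abs_of_nonneg (h0 z)]; exact h1 z)
    have h2 : ‖∫ z, f z ∂ν‖ ≤ 1 := by simpa using this
    exact (le_abs_self _).trans h2
  apply integral_mono
  · refine ib _ _ (((J_meas ν K hK (p + q + 1)).norm).pow_const 2)
      (fun z => by positivity) (fun z => pow_le_one₀ (norm_nonneg _) (J_bdd ν K hb _ _ _))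
  · refine ib _ _ ((m1.comp measurable_fst).mul (m2.comp measurable_snd))
      (fun z => mul_nonneg (integral_nonneg fun _ => by positivity)
        (integral_nonneg fun _ => by positivity)) (fun z => ?_)
    refine mul_le_one₀ (b1 _ (fun _ => by positivity) fun _ =>
      pow_le_one₀ (norm_nonneg _) (J_bdd ν K hb _ _ _)) (integral_nonneg fun _ => by positivity)
      (b1 _ (fun _ => by positivity) fun _ =>
      pow_le_one₀ (norm_nonneg _) (J_bdd ν K hb _ _ _))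
  · intro w
    simp only
    rw [J_comp ν K hK hb q p w.1 w.2]
    exact cs ν _ _ (J_meas2 ν K hK p w.1) (J_meas1 ν K hK q w.2) (fun y => J_bdd ν K hb p _ _)
      (fun y => J_bdd ν K hb q _ _)

lemma tau_pow (K : Y → Y → ℂ) (hK : Measurable (Function.uncurry K)) (hb : ∀ x y, ‖K x y‖ ≤ 1)
    (h i : ℕ) : tau ν K (h + (h + 1) * i) ≤ tau ν K h ^ (i + 1) := by
  induction i with
  | zero => simp
  | succ i ih =>
    have e : h + (h + 1) * (i + 1) = h + (h + (h + 1) * i) + 1 := by ring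
    rw [e, pow_succ']
    exact (tau_sub ν K hK hb _ _).trans (mul_le_mul_of_nonneg_left ih (tau_nonneg ν K h))

/-- log-convexity -/
lemma tau_lc (K : Y → Y → ℂ) (hK : Measurable (Function.uncurry K)) (hb : ∀ x y, ‖K x y‖ ≤ 1)
    (hh : ∀ x y, K y x = star (K x y)) (h : ℕ) :
    tau ν K (h + 1) ^ 2 ≤ tau ν K h * tau ν K (h + 2) := by
  have h1 : (tau ν K (h + 1) : ℂ) = ∫ w : Y × Y, J ν K h w.1 w.2 * J ν K (h + 2) w.2 w.1
      ∂(ν.prod ν) := by
    rw [← tau_eq ν K hK hb hh (h + 1), integral_prod]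
    · congr 1
      funext x
      have e : 2 * (h + 1) + 1 = h + (h + 2) + 1 := by ring
      rw [e, J_comp ν K hK hb (h + 2) h x x]
    · apply integ _ _ _ 1
      · intro w
        rw [norm_mul]
        exact mul_le_one₀ (J_bdd ν K hb _ _ _) (norm_nonneg _) (J_bdd ν K hb _ _ _)
      · exact (J_meas ν K hK h).mul ((J_meas ν K hK (h + 2)).comp measurable_swap)
  have h2 := cs (ν.prod ν) (fun w => J ν K h w.1 w.2) (fun w => J ν K (h + 2) w.2 w.1)
    (J_meas ν K hK h) ((J_meas ν K hK (h + 2)).comp measurable_swap)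
    (fun y => J_bdd ν K hb _ _ _) (fun y => J_bdd ν K hb _ _ _)
  rw [← h1, ← tau_prod ν K hK hb, ← tau_prod' ν K hK hb, Complex.norm_real, Real.norm_eq_abs,
    sq_abs] at h2
  exact h2

theorem main (a : Y → ℝ) (b : Y → Y → ℂ) (hma : Measurable a)
    (hmb : Measurable (Function.uncurry b))
    (ha : ∀ y, 0 ≤ a y ∧ a y ≤ 1) (hb : ∀ y y', ‖b y y'‖ ≤ 1 ∧ b y' y = star (b y y')) :
    (∀ (n j : ℕ) [NeZero n] [NeZero (n * j)], Even n →
      ‖SE.cyc ν a b (n * j)‖ ≤ ‖SE.cyc ν a b n‖ ^ j) ∧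
    (∀ (p q r : ℕ) [NeZero p] [NeZero q] [NeZero r], Even p → q = p + 2 → r = p + 4 →
      ‖SE.cyc ν a b q‖ ^ 2 ≤ ‖SE.cyc ν a b p‖ * ‖SE.cyc ν a b r‖) := by
  set K : Y → Y → ℂ := fun x y => (Real.sqrt (a x) : ℂ) * b x y * (Real.sqrt (a y) : ℂ) with hKdef
  have ha0 : ∀ y, 0 ≤ a y := fun y => (ha y).1
  have hsq : ∀ y, ‖(Real.sqrt (a y) : ℂ)‖ ≤ 1 := by
    intro y
    rw [Complex.norm_real, Real.norm_eq_abs, abs_of_nonneg (Real.sqrt_nonneg _)]
    exact Real.sqrt_le_one.mpr (ha y).2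
  have hK : Measurable (Function.uncurry K) := by
    have h1 : Measurable (fun p : Y × Y => (Real.sqrt (a p.1) : ℂ)) := by fun_prop
    have h2 : Measurable (fun p : Y × Y => (Real.sqrt (a p.2) : ℂ)) := by fun_prop
    have h3 : Measurable (fun p : Y × Y => b p.1 p.2) := hmb
    exact (h1.mul h3).mul h2
  have hKb : ∀ x y, ‖K x y‖ ≤ 1 := by
    intro x y
    rw [hKdef]
    simp only [norm_mul]
    exact mul_le_one₀ (mul_le_one₀ (hsq x) (norm_nonneg _) (hb x y).1) (norm_nonneg _) (hsq y)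
  have hKh : ∀ x y, K y x = star (K x y) := by
    intro x y
    rw [hKdef]
    simp only [star_mul']
    rw [(hb x y).2]
    have hc : ∀ r : ℝ, star (r : ℂ) = (r : ℂ) := fun r => Complex.conj_ofReal r
    rw [hc, hc]
    ring
  have e2 : ∀ (M : ℕ) (inst : NeZero M) (h : ℕ), M = 2 * h + 1 + 1 →
      ‖SE.cyc ν a b M‖ = tau ν K h := by
    intro M inst h hM'
    subst hM'
    unfold SE.cyc
    simp_rw [cyc_kernel a b ha0]
    rw [cyc_int ν K hK hKb _, tau_eq ν K hK hKb hKh, Complex.norm_real, Real.norm_eq_abs,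
      abs_of_nonneg (tau_nonneg ν K h)]
  constructor
  · intro n j hn hnj hev
    obtain ⟨h', hh'⟩ := hev
    obtain ⟨h, rfl⟩ : ∃ h, h' = h + 1 := ⟨h' - 1, by have := hn.out; omega⟩
    obtain ⟨i, rfl⟩ : ∃ i, j = i + 1 := by
      refine ⟨j - 1, ?_⟩
      have := hnj.out
      have h1 : j ≠ 0 := fun h => this (by rw [h, mul_zero])
      omega
    rw [e2 _ hnj (h + (h + 1) * i) (by rw [hh']; ring), e2 _ hn h (by rw [hh']; ring)]
    exact tau_pow ν K hK hKb h i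
  · intro p q r hp hq hr hev hqp hrp
    obtain ⟨h', hh'⟩ := hev
    obtain ⟨h, rfl⟩ : ∃ h, h' = h + 1 := ⟨h' - 1, by have := hp.out; omega⟩
    rw [e2 _ hq (h + 1) (by rw [hqp, hh']; ring), e2 _ hp h (by rw [hh']; ring),
      e2 _ hr (h + 2) (by rw [hrp, hh']; ring)]
    exact tau_lc ν K hK hKb hKh h

end T2H01.SE.PkgUA

namespace T2H01.SE

theorem pUA : S_UA := by
  intro Y _ ν _ a b hma hmb ha hb
  exact PkgUA.main ν a b hma hmb ha hb

end T2H01.SE
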