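import Pool.Agent.T2H01.SE.Stm1

/-!
# Package VC : configurations of small energy
-/

set_option autoImplicit false
set_option linter.unusedSectionVars false

noncomputable section

open MeasureTheory Matrix
open scoped Matrix.Norms.Frobenius

namespace T2H01.SE

open T2H02.TT

namespace PkgVC

variable {N L : ℕ} [NeZero L]

lemma mem_Nb' (r : ℕ) (a b : Pl) : b ∈ Nb r a ↔ |b.1 - a.1| ≤ r ∧ |b.2 - a.2| ≤ r := by
  unfold Nb
  rw [Finset.mem_product, Finset.mem_Icc, Finset.mem_Icc, abs_le, abs_le]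
  constructor
  · rintro ⟨⟨h1, h2⟩, h3, h4⟩
    exact ⟨⟨by linarith, by linarith⟩, by linarith, by linarith⟩
  · rintro ⟨⟨h1, h2⟩, h3, h4⟩
    exact ⟨⟨by linarith, by linarith⟩, by linarith, by linarith⟩

/-! ### links of the ring -/

lemma not_Frl_of_rlk {U : Finset Pl} {l : Lk L} (h : l ∈ rlk L U) : l ∉ Frl L U := by
  rw [rlk, Finset.mem_filter] at h
  rw [mem_Frl]
  rintro ⟨a, ha, haU⟩
  exact (Finset.mem_sdiff.1 (h.2 a ha)).2 haU

lemma rlk_of {U : Finset Pl} {τ : Tm} {l : Lk L} (hτ : τ ∈ tml U)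
    (hl : l ∈ (spt τ : Finset (Lk L))) (hU : l ∉ Frl L U) : l ∈ rlk L U := by
  have h1 : ∀ a ∈ st l, a ∈ pls U \ U := by
    intro a ha
    rw [Finset.mem_sdiff]
    refine ⟨?_, fun h => hU ((mem_Frl _ _).2 ⟨a, ha, h⟩)⟩
    obtain ⟨b, hb, hbU⟩ := (mem_tml _ _).1 hτ
    have ha' : a ∈ cor τ := (cor_iff (L := L) τ a).2 ⟨l, hl, ha⟩
    rw [pls, Finset.mem_biUnion]
    refine ⟨b, hbU, ?_⟩
    rw [mem_Nb']
    have := diam_cor τ a ha' b hb
    exact_mod_cast this
  rw [rlk, Finset.mem_filter]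
  refine ⟨?_, h1⟩
  rw [mem_Frl]
  have h0 : l.1.1 ∈ st l := (mem_st l _).2 (Or.inl rfl)
  exact ⟨l.1.1, h0, h1 _ h0⟩

lemma tml_card (x : Pl) : (tml {x}).card ≤ 16 := by
  have h : tml {x} ⊆ ({x, x - (1, 0), x - (0, 1), x - (1, 1)} : Finset Pl) ×ˢ
      (Finset.univ : Finset (Fin 4)) := by
    intro τ hτ
    rw [mem_tml] at hτ
    obtain ⟨a, ha, hax⟩ := hτ
    rw [Finset.mem_singleton] at hax
    subst hax
    rw [Finset.mem_product]
    refine ⟨?_, Finset.mem_univ _⟩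
    obtain ⟨z, i⟩ := τ
    simp only [Finset.mem_insert, Finset.mem_singleton]
    fin_cases i
    · exact Or.inl ((mem_cor0 z a).1 ha).symm
    · rcases (mem_cor1 z a).1 ha with h | h
      · exact Or.inl h.symm
      · right; left; rw [h]; simp
    · rcases (mem_cor2 z a).1 ha with h | h
      · exact Or.inl h.symm
      · right; right; left; rw [h]; simp
    · rcases (mem_cor3 z a).1 ha with h | h | h | h
      · exact Or.inl h.symm
      · right; left; rw [h]; simp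
      · right; right; left; rw [h]; simp
      · right; right; right; rw [h]; simp
  refine (Finset.card_le_card h).trans ?_
  rw [Finset.card_product, Finset.card_univ, Fintype.card_fin]
  have h4 : ({x, x - (1, 0), x - (0, 1), x - (1, 1)} : Finset Pl).card ≤ 4 := Finset.card_le_four
  omega

lemma cnt_tm (T : Finset Tm) (l : Lk L) :
    ((T.filter fun τ => l ∈ (spt τ : Finset (Lk L))).card : ℝ) ≤ 16 := by
  have h1 : (T.filter fun τ => l ∈ (spt τ : Finset (Lk L))) ⊆ tml {l.1.1} := by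
    intro τ hτ
    rw [Finset.mem_filter] at hτ
    rw [mem_tml]
    exact ⟨l.1.1, (cor_iff (L := L) τ _).2 ⟨l, hτ.2, (mem_st l _).2 (Or.inl rfl)⟩,
      Finset.mem_singleton_self _⟩
  exact_mod_cast (Finset.card_le_card h1).trans (tml_card _)

/-- every link is in at most 16 terms -/
lemma sum_sum (T : Finset Tm) (R : Finset (Lk L)) (g : Lk L → ℝ) (hg : ∀ l, 0 ≤ g l)
    (h0 : ∀ τ ∈ T, ∀ l ∈ (spt τ : Finset (Lk L)), l ∉ R → g l = 0) :
    ∑ τ ∈ T, ∑ l ∈ (spt τ : Finset (Lk L)), g l ≤ 16 * ∑ l ∈ R, g l := by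
  have h1 : ∀ τ ∈ T, ∑ l ∈ (spt τ : Finset (Lk L)), g l =
      ∑ l ∈ R, if l ∈ (spt τ : Finset (Lk L)) then g l else 0 := by
    intro τ hτ
    rw [← Finset.sum_filter]
    symm
    refine Finset.sum_subset_zero_on_sdiff ?_ ?_ ?_
    · intro l hl
      exact (Finset.mem_filter.1 hl).2
    · intro l hl
      rw [Finset.mem_sdiff, Finset.mem_filter] at hl
      exact h0 τ hτ l hl.1 fun h => hl.2 ⟨h, hl.1⟩
    · intro l _
      rfl
  rw [Finset.sum_congr rfl h1, Finset.sum_comm, Finset.mul_sum]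
  refine Finset.sum_le_sum fun l _ => ?_
  rw [← Finset.sum_filter, Finset.sum_const, nsmul_eq_mul]
  exact mul_le_mul_of_nonneg_right (cnt_tm T l) (hg l)

/-- the general bound -/
lemma EE_le {k : ℕ} {P Q : SU N} {C₀ : ℝ} (hC₀ : 1 ≤ C₀)
    (hL : ∀ (ρ : ℝ), 0 < ρ → ∀ (s : Pl → ℤ) (τ : Tm) (X Y : Cf N L),
      enf k s Y τ ≤ (1 + ρ) * enf k s X τ +
        (1 + 1 / ρ) * C₀ * ∑ l ∈ (spt τ : Finset (Lk L)), ‖(Y l : Mt N) - (X l : Mt N)‖ ^ 2)
    (s : Pl → ℤ) (U : Finset Pl) (Z σ : Cf N L) (hZ : ∀ l, l ∉ Frl L U → Z l = vc P Q l)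
    (h0 : ∀ τ ∈ tml U, (∃ l ∈ (spt τ : Finset (Lk L)), l ∉ Frl L U) → enf k s Z τ = 0) :
    EE k s U (glue (Frl L U) Z σ) ≤ EE k s U Z + 32 * C₀ * rD P Q σ U := by
  obtain ⟨X, hX⟩ : ∃ X, X = glue (Frl L U) Z σ := ⟨_, rfl⟩
  have hX1 : ∀ l, l ∈ Frl L U → X l = Z l := fun l hl => by rw [hX]; exact if_pos hl
  have hX2 : ∀ l, l ∉ Frl L U → X l = σ l := fun l hl => by rw [hX]; exact if_neg hl
  rw [← hX]
  have key : ∀ τ ∈ tml U, enf k s X τ ≤ enf k s Z τ +
      2 * C₀ * ∑ l ∈ (spt τ : Finset (Lk L)), ‖(X l : Mt N) - (Z l : Mt N)‖ ^ 2 := by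
    intro τ hτ
    by_cases hc : ∃ l ∈ (spt τ : Finset (Lk L)), l ∉ Frl L U
    · have h1 := hL 1 one_pos s τ Z X
      rw [h0 τ hτ hc] at h1 ⊢
      norm_num at h1 ⊢
      exact h1
    · push Not at hc
      rw [enf_loc k s s τ X Z (fun l hl => hX1 l (hc l hl)) fun _ => rfl]
      have : 0 ≤ 2 * C₀ * ∑ l ∈ (spt τ : Finset (Lk L)), ‖(X l : Mt N) - (Z l : Mt N)‖ ^ 2 := by
        positivity
      linarith
  have h1 := Finset.sum_le_sum key
  rw [Finset.sum_add_distrib, ← Finset.mul_sum] at h1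
  have h2 := sum_sum (tml U) (rlk L U) (fun l => ‖(X l : Mt N) - (Z l : Mt N)‖ ^ 2)
    (fun l => by positivity) (by
      intro τ hτ l hl hR
      have hF : l ∈ Frl L U := by
        by_contra hF
        exact hR (rlk_of hτ hl hF)
      show ‖(X l : Mt N) - (Z l : Mt N)‖ ^ 2 = 0
      rw [hX1 l hF, sub_self, norm_zero]
      norm_num)
  have h3 : ∑ l ∈ rlk L U, ‖(X l : Mt N) - (Z l : Mt N)‖ ^ 2 = rD P Q σ U := by
    unfold rD
    refine Finset.sum_congr rfl fun l hl => ?_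
    have hF := not_Frl_of_rlk hl
    rw [hX2 l hF, hZ l hF]
  rw [h3] at h2
  have h4 : 0 ≤ 2 * C₀ := by linarith
  have h5 := mul_le_mul_of_nonneg_left h2 h4
  unfold EE
  linarith

/-! ### translations -/

lemma nx_shf (v x : Pl) (y : Tor L) (i : Fin 4) :
    nx (x + v, y) i = ((nx (x, y) i).1 + v, (nx (x, y) i).2) := by
  unfold nx
  simp only [Prod.mk.injEq]
  exact ⟨by abel, trivial⟩

lemma df_shf (v : Pl) (X : Cf N L) (z : ℂ) (x : Pl) (y : Tor L) (i j : Fin 4) :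
    df (shf v X) z (x, y) i j = df X z (x + v, y) i j := by
  unfold df shf
  simp only [nx_shf]

lemma cor_shf (v x a : Pl) (i : Fin 4) : a + v ∈ cor (x + v, i) ↔ a ∈ cor (x, i) := by
  have e : ∀ u : Pl, a + v = x + v + u ↔ a = x + u := by
    intro u
    rw [show x + v + u = x + u + v by abel]
    exact add_left_inj v
  have e0 : a + v = x + v ↔ a = x := add_left_inj v
  fin_cases i
  · change a + v ∈ cor (x + v, 0) ↔ a ∈ cor (x, 0)
    rw [mem_cor0, mem_cor0, e0]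
  · change a + v ∈ cor (x + v, 1) ↔ a ∈ cor (x, 1)
    rw [mem_cor1, mem_cor1, e0, e]
  · change a + v ∈ cor (x + v, 2) ↔ a ∈ cor (x, 2)
    rw [mem_cor2, mem_cor2, e0, e]
  · change a + v ∈ cor (x + v, 3) ↔ a ∈ cor (x, 3)
    rw [mem_cor3, mem_cor3, e0, e, e, e]

lemma enf_shf (k : ℕ) (s s' : Pl → ℤ) (v : Pl) (X : Cf N L) (x : Pl) (i : Fin 4)
    (hs : s x = s' (x + v)) : enf k s (shf v X) (x, i) = enf k s' X (x + v, i) := by
  unfold enf en1 eP eV eK
  simp only [df_shf, hs]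

lemma exists_Nb (U : Finset Pl) : ∃ K : ℕ, U ⊆ Nb K 0 := by
  refine ⟨U.sup fun x => x.1.natAbs + x.2.natAbs, fun x hx => ?_⟩
  have h := Finset.le_sup (f := fun x : Pl => x.1.natAbs + x.2.natAbs) hx
  rw [mem_Nb']
  have h1 : ((x.1.natAbs + x.2.natAbs : ℕ) : ℤ) ≤
      ((U.sup fun x : Pl => x.1.natAbs + x.2.natAbs : ℕ) : ℤ) := by exact_mod_cast h
  push_cast at h1
  simp only [Prod.fst_zero, Prod.snd_zero, sub_zero]
  constructor
  · have := abs_nonneg x.2
    linarith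
  · have := abs_nonneg x.1
    linarith

end PkgVC

open PkgVC

theorem pVC (hVL : S_VL) : S_VC := by
  intro N k L _ hN hk P Q hPQ
  obtain ⟨⟨C₀, hC₀, hL⟩, hV, -⟩ := hVL N k L hN hk P Q hPQ
  refine ⟨32 * C₀, by linarith, ?_, ?_⟩
  · intro U σ
    have h1 := EE_le (P := P) (Q := Q) hC₀ hL (fun _ => 0) U (vc P Q) σ (fun _ _ => rfl)
      (fun τ _ _ => hV _ τ fun _ => dvd_zero _)
    have h2 : EE k (fun _ => 0) U (vc P Q : Cf N L) = 0 :=
      Finset.sum_eq_zero fun τ _ => hV _ τ fun _ => dvd_zero _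
    rw [h2, zero_add] at h1
    exact h1
  · intro ρ hρ
    have hne : (vset L k P Q).Nonempty := by
      refine ⟨_, 1, {0}, vc P Q, ?_, Finset.mem_singleton_self _, fun _ _ => rfl, rfl⟩
      intro h
      have := Int.le_of_dvd one_pos h
      omega
    obtain ⟨e, he, hlt⟩ := exists_lt_of_csInf_lt hne
      (show sInf (vset L k P Q) < SS L k P Q + ρ by unfold SS; linarith)
    obtain ⟨n, U₀, X₀, hn, h0, hoff, rfl⟩ := he
    obtain ⟨K', hK'⟩ := exists_Nb U₀
    refine ⟨K' + 2, n, hn, fun U c hU σ => ⟨glue (Frl L U) (shf (-c) X₀) σ, fun l hl => if_neg hl, ?_⟩⟩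
    have hin : ∀ (a b : Pl), a ∈ U₀ → near 1 b (a + c) → b ∈ U := by
      intro a b ha hb
      apply hU
      have h1 := hK' ha
      rw [mem_Nb'] at h1 ⊢
      obtain ⟨h1a, h1b⟩ := h1
      obtain ⟨h2a, h2b⟩ := hb
      rw [abs_le] at h1a h1b h2a h2b
      simp only [Prod.fst_zero, Prod.snd_zero, sub_zero, Prod.fst_add, Prod.snd_add] at *
      push_cast
      rw [abs_le, abs_le]
      refine ⟨⟨?_, ?_⟩, ?_, ?_⟩ <;>
        linarith [h1a.1, h1a.2, h1b.1, h1b.2, h2a.1, h2a.2, h2b.1, h2b.2]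
    have hvc : ∀ l : Lk L, (vc P Q : Cf N L) ((l.1.1 + -c, l.1.2), l.2) = vc P Q l := fun _ => rfl
    -- terms not touching `U₀` have no energy
    have hout : ∀ τ : Tm, τ ∉ tml U₀ → enf k (dl 0 n) X₀ τ = 0 := by
      intro τ hτ
      rw [enf_loc k (dl 0 n) (dl 0 n) τ X₀ (vc P Q) (fun l hl => hoff l fun h => ?_) fun _ => rfl]
      · refine hV _ τ fun h3 => ?_
        have : τ.1 ≠ 0 := by
          intro hx
          apply hτ
          rw [mem_tml]
          refine ⟨0, ?_, h0⟩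
          obtain ⟨x, i⟩ := τ
          simp only at hx h3
          subst hx h3
          exact (mem_cor3 _ _).2 (Or.inl rfl)
        rw [dl, if_neg this]
        exact dvd_zero _
      · obtain ⟨a, ha, haU⟩ := (mem_Frl _ _).1 h
        exact hτ ((mem_tml _ _).2 ⟨a, (cor_iff (L := L) τ a).2 ⟨l, hl, ha⟩, haU⟩)
    have htr : ∀ τ : Tm, enf k (dl c n) (shf (-c) X₀) τ = enf k (dl 0 n) X₀ (τ.1 + -c, τ.2) := by
      rintro ⟨x, i⟩
      refine enf_shf k _ _ (-c) X₀ x i ?_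
      unfold dl
      by_cases h : x = c
      · rw [if_pos h, if_pos (by rw [h, add_neg_cancel])]
      · rw [if_neg h, if_neg (fun h' => h (by rw [← sub_eq_zero, sub_eq_add_neg]; exact h'))]
    have hZ : ∀ l, l ∉ Frl L U → shf (-c) X₀ l = vc P Q l := by
      intro l hl
      rw [← hvc l]
      refine hoff _ fun h => hl ?_
      obtain ⟨a, ha, haU⟩ := (mem_Frl _ _).1 h
      rw [mem_Frl]
      refine ⟨a + c, ?_, hin a _ haU (by unfold near; simp)⟩
      rw [mem_st] at ha ⊢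
      rcases ha with h | h
      · left; rw [h]; simp
      · right; rw [h]; simp only; abel
    have h1 := EE_le (P := P) (Q := Q) hC₀ hL (dl c n) U (shf (-c) X₀) σ hZ (by
      rintro τ hτ ⟨l, hl, hlU⟩
      rw [htr]
      refine hout _ fun h => hlU ?_
      obtain ⟨a, ha, haU⟩ := (mem_tml _ _).1 h
      have ha' : a + c ∈ cor τ := by
        have := (cor_shf c (τ.1 + -c) a τ.2).2 ha
        rw [neg_add_cancel_right] at this
        exact this
      have hb : l.1.1 ∈ st l := (mem_st l _).2 (Or.inl rfl)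
      have hb' : l.1.1 ∈ cor τ := (cor_iff (L := L) τ _).2 ⟨l, hl, hb⟩
      exact (mem_Frl _ _).2 ⟨l.1.1, hb, hin a _ haU (diam_cor τ _ hb' _ ha')⟩)
    refine h1.trans ?_
    have h2 : EE k (dl c n) U (shf (-c) X₀) = EE k (dl 0 n) U₀ X₀ := by
      unfold EE
      have hinj : Function.Injective fun τ : Tm => ((τ.1 + c, τ.2) : Tm) := by
        rintro ⟨x, i⟩ ⟨x', i'⟩ h
        simp only [Prod.mk.injEq, add_left_inj] at h
        exact Prod.ext h.1 h.2
      have hsub : (tml U₀).image (fun τ : Tm => ((τ.1 + c, τ.2) : Tm)) ⊆ tml U := by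
        intro τ hτ
        rw [Finset.mem_image] at hτ
        obtain ⟨τ', hτ', rfl⟩ := hτ
        obtain ⟨a, ha, haU⟩ := (mem_tml _ _).1 hτ'
        rw [mem_tml]
        exact ⟨a + c, (cor_shf c τ'.1 a τ'.2).2 ha, hin a _ haU (by unfold near; simp)⟩
      rw [← Finset.sum_subset hsub, Finset.sum_image fun a _ b _ h => hinj h]
      · refine Finset.sum_congr rfl fun τ _ => ?_
        rw [htr]
        simp only [add_neg_cancel_right]
      · intro τ _ hτ
        rw [htr]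
        refine hout _ fun h => hτ ?_
        rw [Finset.mem_image]
        exact ⟨_, h, by simp⟩
    rw [h2]
    linarith

end T2H01.SE
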