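import Pool.Agent.T2H01.SE.Stm6
import Pool.Agent.T2H01.SE.TP
import Pool.Agent.T2H01.SE.VC

/-!
# Package UC : conditioning on the torus with frozen sites
-/

set_option autoImplicit false
set_option linter.unusedSectionVars false
set_option linter.unusedVariables false

noncomputable section

open MeasureTheory Matrix
open scoped Matrix.Norms.Frobenius

namespace T2H01.SE

open T2H02.TT

namespace PkgUC

open PkgTP

variable {N A B L : ℕ} [NeZero A] [NeZero B] [NeZero L]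

lemma mem_Nb (r : ℕ) (b a : Pl) : a ∈ Nb r b ↔
    (b.1 - r ≤ a.1 ∧ a.1 ≤ b.1 + r) ∧ b.2 - r ≤ a.2 ∧ a.2 ≤ b.2 + r := by
  rw [Nb, Finset.mem_product, Finset.mem_Icc, Finset.mem_Icc]

/-! ### periods -/

/-- the periods -/
def pd (A B : ℕ) (i j : ℤ) : Pl := ((A : ℤ) * i, (B : ℤ) * j)

lemma pd_fst (i j : ℤ) : (pd A B i j).1 = (A : ℤ) * i := rfl
lemma pd_snd (i j : ℤ) : (pd A B i j).2 = (B : ℤ) * j := rfl

lemma cast_iff (n : ℕ) (a b : ℤ) (h : (a : ZMod n) = (b : ZMod n)) : ∃ i : ℤ, a = b + n * i := by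
  rw [ZMod.intCast_eq_intCast_iff_dvd_sub] at h
  obtain ⟨c, hc⟩ := h
  exact ⟨-c, by rw [mul_neg, ← hc]; ring⟩

lemma pj_eq (l l' : Lk L) (h : pj A B l = pj A B l') :
    ∃ i j : ℤ, l.1.1 = l'.1.1 + pd A B i j ∧ l.1.2 = l'.1.2 ∧ l.2 = l'.2 := by
  obtain ⟨⟨⟨x1, x2⟩, y⟩, m⟩ := l
  obtain ⟨⟨⟨x1', x2'⟩, y'⟩, m'⟩ := l'
  unfold pj at h
  simp only [Prod.mk.injEq] at h
  obtain ⟨⟨⟨h1, h2⟩, h3⟩, h4⟩ := h
  obtain ⟨i, hi⟩ := cast_iff A x1 x1' h1
  obtain ⟨j, hj⟩ := cast_iff B x2 x2' h2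
  exact ⟨i, j, Prod.ext hi hj, h3, h4⟩

lemma pj_pd (l : Lk L) (i j : ℤ) : pj A B ((l.1.1 + pd A B i j, l.1.2), l.2) = pj A B l := by
  unfold pj pd
  simp

lemma st_shift (l : Lk L) (v a : Pl) : a + v ∈ st (((l.1.1 + v, l.1.2), l.2) : Lk L) ↔ a ∈ st l := by
  rw [mem_st, mem_st]
  simp only
  rw [show l.1.1 + v + pe l.2 = (l.1.1 + pe l.2) + v by abel, add_left_inj, add_left_inj]

lemma mul_small (n r : ℕ) (h : 2 * r + 4 ≤ n) (i a b c : ℤ) (hab : a = b + n * i)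
    (h1 : c - (r + 1 : ℕ) ≤ a ∧ a ≤ c + (r + 1 : ℕ)) (h2 : c - (r + 1 : ℕ) ≤ b ∧ b ≤ c + (r + 1 : ℕ)) :
    i = 0 := by
  push_cast at h1 h2
  have hn : (2 * r + 4 : ℤ) ≤ n := by exact_mod_cast h
  by_contra hi
  rcases lt_or_gt_of_ne hi with hi | hi
  · have h3 : (n : ℤ) * i ≤ n * (-1) := mul_le_mul_of_nonneg_left (by omega) (by omega)
    omega
  · have h3 : (n : ℤ) * 1 ≤ n * i := mul_le_mul_of_nonneg_left (by omega) (by omega)
    omega

/-- near `s` the projection is injective -/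
lemma pj_injN (s : Pl) (r : ℕ) (hA : 2 * r + 4 ≤ A) (hB : 2 * r + 4 ≤ B) (l l' : Lk L)
    (hl : l.1.1 ∈ Nb (r + 1) s) (hl' : l'.1.1 ∈ Nb (r + 1) s) (h : pj A B l = pj A B l') :
    l = l' := by
  obtain ⟨i, j, h1, h2, h3⟩ := pj_eq l l' h
  rw [mem_Nb] at hl hl'
  have e1 : i = 0 := mul_small A r hA i _ _ s.1 (congrArg Prod.fst h1) hl.1 hl'.1
  have e2 : j = 0 := mul_small B r hB j _ _ s.2 (congrArg Prod.snd h1) hl.2 hl'.2
  subst e1 e2
  have h4 : pd A B 0 0 = 0 := by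
    unfold pd
    simp
  rw [h4, add_zero] at h1
  exact Prod.ext (Prod.ext h1 h2) h3

lemma near_Nb (s a b : Pl) (r : ℕ) (ha : a ∈ Nb r s) (h : near 1 a b) : b ∈ Nb (r + 1) s := by
  rw [mem_Nb] at ha ⊢
  obtain ⟨h1, h2⟩ := h
  rw [abs_le] at h1 h2
  push_cast
  omega

lemma Frl_Nb (s : Pl) (r : ℕ) (Δ : Finset Pl) (hΔ : ∀ a ∈ Δ, a ∈ Nb r s) (l : Lk L)
    (h : l ∈ Frl L Δ) : ∀ b ∈ st l, b ∈ Nb (r + 1) s := by
  obtain ⟨a, h1, h2⟩ := (mem_Frl _ _).1 h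
  exact fun b hb => near_Nb s a b r (hΔ a h2) (diam_st l a h1 b hb)

lemma tml_Nb (s : Pl) (r : ℕ) (Δ : Finset Pl) (hΔ : ∀ a ∈ Δ, a ∈ Nb r s) (τ : Tm)
    (h : τ ∈ tml Δ) : ∀ b ∈ cor τ, b ∈ Nb (r + 1) s := by
  obtain ⟨a, h1, h2⟩ := (mem_tml _ _).1 h
  exact fun b hb => near_Nb s a b r (hΔ a h2) (diam_cor τ a h1 b hb)

lemma spt_cor (τ : Tm) (l : Lk L) (h : l ∈ (spt τ : Finset (Lk L))) (a : Pl) (ha : a ∈ st l) :
    a ∈ cor τ := (cor_iff (L := L) τ a).2 ⟨l, h, ha⟩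

lemma self_st (l : Lk L) : l.1.1 ∈ st l := (mem_st l _).2 (Or.inl rfl)

/-- the free links of the torus -/
def JU (A B : ℕ) [NeZero A] [NeZero B] (L : ℕ) [NeZero L] (Δ : Finset Pl) : Finset (TL A B L) :=
  (Frl L Δ).image (pj A B)

lemma JU_iff (s : Pl) (r : ℕ) (hA : 2 * r + 4 ≤ A) (hB : 2 * r + 4 ≤ B) (Δ : Finset Pl)
    (hΔ : ∀ a ∈ Δ, a ∈ Nb r s) (l : Lk L) (hl : l.1.1 ∈ Nb (r + 1) s) :
    pj A B l ∈ JU A B L Δ ↔ l ∈ Frl L Δ := by
  constructor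
  · intro h
    obtain ⟨l', h1, h2⟩ := Finset.mem_image.1 h
    have h3 := pj_injN s r hA hB l l' hl (Frl_Nb s r Δ hΔ l' h1 _ (self_st l')) h2.symm
    exact h3 ▸ h1
  · exact fun h => Finset.mem_image_of_mem _ h

/-- a term one of whose links projects on a free link is a translate of a term which touches `Δ` -/
lemma JU_term (Δ : Finset Pl) (τ : Tm) (l : Lk L) (hl : l ∈ (spt τ : Finset (Lk L)))
    (h : pj A B l ∈ JU A B L Δ) : ∃ i j : ℤ, (τ.1 + pd A B i j, τ.2) ∈ tml Δ := by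
  obtain ⟨l', h1, h2⟩ := Finset.mem_image.1 h
  obtain ⟨i, j, e1, e2, e3⟩ := pj_eq l' l h2
  obtain ⟨a, h3, h4⟩ := (mem_Frl _ _).1 h1
  refine ⟨i, j, (mem_tml _ _).2 ⟨a, ?_, h4⟩⟩
  have e4 : l' = (((l.1.1 + pd A B i j, l.1.2), l.2) : Lk L) := Prod.ext (Prod.ext e1 e2) e3
  have h5 : a - pd A B i j ∈ st l := by
    rw [← st_shift l (pd A B i j), sub_add_cancel, ← e4]
    exact h3
  have h6 := spt_cor τ l hl _ h5
  obtain ⟨x, m⟩ := τ
  rw [← PkgVC.cor_shf (pd A B i j), sub_add_cancel] at h6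
  exact h6

/-! ### periodic configurations -/

lemma vc_shift (P Q : SU N) (l : Lk L) (v : Pl) :
    (vc P Q : Cf N L) ((l.1.1 + v, l.1.2), l.2) = vc P Q l := rfl

lemma fzF_per (P Q : SU N) (F : Set Pl) (hF : pse A B F) (X : TC N A B L) (l : Lk L) (i j : ℤ) :
    fzF P Q F (per X) ((l.1.1 + pd A B i j, l.1.2), l.2) = fzF P Q F (per X) l := by
  have e : (∀ a ∈ st (((l.1.1 + pd A B i j, l.1.2), l.2) : Lk L), a ∈ F) ↔ ∀ a ∈ st l, a ∈ F := by
    constructor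
    · intro h a ha
      exact (hF a i j).1 (h _ ((st_shift l (pd A B i j) a).2 ha))
    · intro h a ha
      have h1 : a - pd A B i j ∈ st l := by
        rw [← st_shift l (pd A B i j), sub_add_cancel]
        exact ha
      have h2 := (hF (a - pd A B i j) i j).2 (h _ h1)
      have h3 : a - pd A B i j + ((A : ℤ) * i, (B : ℤ) * j) = a := sub_add_cancel _ _
      rwa [h3] at h2
  unfold fzF
  by_cases h : ∀ a ∈ st l, a ∈ F
  · rw [if_pos h, if_pos (e.2 h)]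
    rfl
  · rw [if_neg h, if_neg fun hh => h (e.1 hh), per_apply, per_apply, pj_pd]

lemma wt_shf (k : ℕ) (β : ℝ) (v x : Pl) (m : Fin 4) (X : Cf N L) :
    wt k β (x, m) (shf v X) = wt k β (x + v, m) X := by
  unfold wt en eV eK eP
  simp only [PkgVC.df_shf]

lemma wt_pd (k : ℕ) (β : ℝ) (P Q : SU N) (F : Set Pl) (hF : pse A B F) (X : TC N A B L) (x : Pl)
    (m : Fin 4) (i j : ℤ) :
    wt k β (x + pd A B i j, m) (fzF P Q F (per X)) = wt k β (x, m) (fzF P Q F (per X)) := by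
  rw [← wt_shf]
  congr 1
  funext l
  exact fzF_per P Q F hF X l i j

lemma fzF_meas (P Q : SU N) (F : Set Pl) : Measurable (fzF P Q F : Cf N L → Cf N L) := by
  refine measurable_pi_lambda _ fun l => ?_
  unfold fzF
  split_ifs
  · exact measurable_const
  · exact measurable_pi_apply l

/-! ### reduction to the fundamental domain -/

/-- the representative in the fundamental domain -/
def red (A B : ℕ) (x : Pl) : Pl := (x.1 % (A : ℤ), x.2 % (B : ℤ))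

lemma red_eq (x : Pl) : red A B x = x + pd A B (-(x.1 / (A : ℤ))) (-(x.2 / (B : ℤ))) := by
  unfold red pd
  refine Prod.ext ?_ ?_
  · show x.1 % (A : ℤ) = x.1 + (A : ℤ) * (-(x.1 / (A : ℤ)))
    rw [Int.emod_def]
    ring
  · show x.2 % (B : ℤ) = x.2 + (B : ℤ) * (-(x.2 / (B : ℤ)))
    rw [Int.emod_def]
    ring

lemma red_mem (x : Pl) : red A B x ∈ fdm A B := by
  have hA : (0 : ℤ) < A := by exact_mod_cast Nat.pos_of_ne_zero (NeZero.ne A)
  have hB : (0 : ℤ) < B := by exact_mod_cast Nat.pos_of_ne_zero (NeZero.ne B)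
  rw [mem_fdm]
  exact ⟨⟨Int.emod_nonneg _ hA.ne', Int.emod_lt_of_pos _ hA⟩,
    Int.emod_nonneg _ hB.ne', Int.emod_lt_of_pos _ hB⟩

lemma red_pd (x : Pl) (i j : ℤ) : red A B (x + pd A B i j) = red A B x := by
  unfold red pd
  refine Prod.ext ?_ ?_
  · exact Int.add_mul_emod_self_left x.1 A i
  · exact Int.add_mul_emod_self_left x.2 B j

lemma red_fdm (x : Pl) (h : x ∈ fdm A B) : red A B x = x := by
  rw [mem_fdm] at h
  exact Prod.ext (Int.emod_eq_of_lt h.1.1 h.1.2) (Int.emod_eq_of_lt h.2.1 h.2.2)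

lemma red_inj (s : Pl) (r : ℕ) (hA : 2 * r + 4 ≤ A) (hB : 2 * r + 4 ≤ B) (x x' : Pl)
    (hx : x ∈ Nb (r + 1) s) (hx' : x' ∈ Nb (r + 1) s) (h : red A B x = red A B x') : x = x' := by
  rw [mem_Nb] at hx hx'
  have h1 : x.1 % (A : ℤ) = x'.1 % (A : ℤ) := congrArg Prod.fst h
  have h2 : x.2 % (B : ℤ) = x'.2 % (B : ℤ) := congrArg Prod.snd h
  have key : ∀ (n : ℕ) (a b c : ℤ), 2 * r + 4 ≤ n → a % (n : ℤ) = b % (n : ℤ) →
      (c - (r + 1 : ℕ) ≤ a ∧ a ≤ c + (r + 1 : ℕ)) → (c - (r + 1 : ℕ) ≤ b ∧ b ≤ c + (r + 1 : ℕ)) →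
      a = b := by
    intro n a b c hn hab ha hb
    obtain ⟨d, hd⟩ := Int.ModEq.dvd (show b ≡ a [ZMOD (n : ℤ)] from hab.symm)
    have e : d = 0 := mul_small n r hn d a b c (by linarith) ha hb
    rw [e, mul_zero] at hd
    linarith
  exact Prod.ext (key A _ _ s.1 hA h1 hx.1 hx'.1) (key B _ _ s.2 hB h2 hx.2 hx'.2)

/-- reduction of the terms -/
def rdt (A B : ℕ) (τ : Tm) : Tm := (red A B τ.1, τ.2)

/-- the other terms -/
def rst (k : ℕ) (β : ℝ) (A B : ℕ) (Δ : Finset Pl) (Y : Cf N L) : ℝ :=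
  ∏ τ ∈ (fdm A B ×ˢ Finset.univ) \ (tml Δ).image (rdt A B), wt k β τ Y

lemma wfd_split (s : Pl) (r : ℕ) (hA : 2 * r + 4 ≤ A) (hB : 2 * r + 4 ≤ B) (Δ : Finset Pl)
    (hΔ : ∀ a ∈ Δ, a ∈ Nb r s) (k : ℕ) (β : ℝ) (P Q : SU N) (F : Set Pl) (hF : pse A B F)
    (X : TC N A B L) :
    wfd k β A B (fzF P Q F (per X)) = rst k β A B Δ (fzF P Q F (per X)) *
      ∏ τ ∈ tml Δ, wt k β τ (fzF P Q F (per X)) := by
  have h1 : (tml Δ).image (rdt A B) ⊆ fdm A B ×ˢ Finset.univ := by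
    intro τ hτ
    obtain ⟨τ', -, rfl⟩ := Finset.mem_image.1 hτ
    exact Finset.mem_product.2 ⟨red_mem _, Finset.mem_univ _⟩
  unfold wfd rst
  rw [← Finset.prod_product', ← Finset.prod_sdiff h1]
  congr 1
  rw [Finset.prod_image]
  · refine Finset.prod_congr rfl fun τ _ => ?_
    obtain ⟨x, m⟩ := τ
    unfold rdt
    simp only
    rw [red_eq, wt_pd k β P Q F hF]
  · intro τ hτ τ' hτ' h
    have e1 : red A B τ.1 = red A B τ'.1 := (Prod.mk.inj h).1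
    have e2 : τ.2 = τ'.2 := (Prod.mk.inj h).2
    refine Prod.ext (red_inj s r hA hB _ _ ?_ ?_ e1) e2
    · exact tml_Nb s r Δ hΔ τ hτ _ (self_cor τ)
    · exact tml_Nb s r Δ hΔ τ' hτ' _ (self_cor τ')

/-! ### gluing -/

lemma glue_N (s : Pl) (r : ℕ) (hA : 2 * r + 4 ≤ A) (hB : 2 * r + 4 ≤ B) (Δ : Finset Pl)
    (F : Set Pl) (hΔ : ∀ a ∈ Δ, a ∈ Nb r s ∧ a ∉ F) (P Q : SU N) (X Y : TC N A B L) (l : Lk L)
    (hl : ∀ a ∈ st l, a ∈ Nb (r + 1) s) :
    fzF P Q F (per (glue (JU A B L Δ) Y X)) l =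
      glue (Frl L Δ) (per Y) (fzF P Q F (per X)) l := by
  have h0 := JU_iff s r hA hB Δ (fun a ha => (hΔ a ha).1) l (hl _ (self_st l))
  by_cases h : l ∈ Frl L Δ
  · obtain ⟨a, h1, h2⟩ := (mem_Frl _ _).1 h
    have h3 : ¬ ∀ a ∈ st l, a ∈ F := fun hh => (hΔ a h2).2 (hh a h1)
    unfold fzF
    rw [if_neg h3, per_apply]
    unfold glue
    rw [if_pos (h0.2 h), if_pos h]
    rfl
  · have h4 : glue (Frl L Δ) (per Y) (fzF P Q F (per X)) l = fzF P Q F (per X) l := if_neg h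
    rw [h4]
    unfold fzF
    by_cases h3 : ∀ a ∈ st l, a ∈ F
    · rw [if_pos h3, if_pos h3]
    · rw [if_neg h3, if_neg h3, per_apply, per_apply]
      exact if_neg fun hh => h (h0.1 hh)

lemma rst_loc (k : ℕ) (β : ℝ) (Δ : Finset Pl) (F : Set Pl) (P Q : SU N) (X Y : TC N A B L) :
    rst k β A B Δ (fzF P Q F (per (glue (JU A B L Δ) Y X))) =
      rst k β A B Δ (fzF P Q F (per X)) := by
  unfold rst
  refine Finset.prod_congr rfl fun τ hτ => ?_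
  refine wt_loc k β τ _ _ fun l hl => ?_
  have h0 : pj A B l ∉ JU A B L Δ := by
    intro h
    obtain ⟨i, j, h1⟩ := JU_term Δ τ l hl h
    obtain ⟨h2, h3⟩ := Finset.mem_sdiff.1 hτ
    apply h3
    refine Finset.mem_image.2 ⟨_, h1, ?_⟩
    unfold rdt
    simp only
    rw [red_pd, red_fdm _ (Finset.mem_product.1 h2).1]
  unfold fzF
  by_cases h3 : ∀ a ∈ st l, a ∈ F
  · rw [if_pos h3, if_pos h3]
  · rw [if_neg h3, if_neg h3, per_apply, per_apply]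
    exact if_neg h0

lemma per_intU (s : Pl) (r : ℕ) (hA : 2 * r + 4 ≤ A) (hB : 2 * r + 4 ≤ B) (Δ : Finset Pl)
    (hΔ : ∀ a ∈ Δ, a ∈ Nb r s) (F : Cf N L → ℝ) (hF : Measurable F) (η : Cf N L) :
    ∫ Y : TC N A B L, F (glue (Frl L Δ) (per Y) η) ∂(Measure.infinitePi fun _ => hm N) =
      ∫ ξ, F (glue (Frl L Δ) ξ η) ∂(pm N L) := by
  have h1 := map_inj (hm N) (fun l : {l : Lk L // l ∈ Frl L Δ} => pj A B l.1)
    (fun l l' h => Subtype.ext (pj_injN s r hA hB l.1 l'.1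
      (Frl_Nb s r Δ hΔ l.1 l.2 _ (self_st _)) (Frl_Nb s r Δ hΔ l'.1 l'.2 _ (self_st _)) h))
  have h2 := map_inj (hm N) (fun l : {l : Lk L // l ∈ Frl L Δ} => l.1)
    (fun l l' h => Subtype.ext h)
  have hG : Measurable fun z => F (xg Δ η z) := hF.comp (xg_meas _ η)
  have e1 : ∫ Y : TC N A B L, F (glue (Frl L Δ) (per Y) η) ∂(Measure.infinitePi fun _ => hm N) =
      ∫ z, F (xg Δ η z) ∂(Measure.infinitePi fun _ => hm N) := by
    rw [← h1, integral_map (measurable_pi_lambda _ fun i => measurable_pi_apply _).aemeasurable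
      hG.aestronglyMeasurable]
    refine integral_congr_ae (Filter.Eventually.of_forall fun Y => ?_)
    show F _ = F _
    rw [← xg_eq]
    rfl
  have e2 : ∫ ξ, F (glue (Frl L Δ) ξ η) ∂(pm N L) =
      ∫ z, F (xg Δ η z) ∂(Measure.infinitePi fun _ => hm N) := by
    rw [← h2, integral_map (measurable_pi_lambda _ fun i => measurable_pi_apply _).aemeasurable
      hG.aestronglyMeasurable]
    refine integral_congr_ae (Filter.Eventually.of_forall fun ξ => ?_)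
    show F _ = F _
    rw [← xg_eq]
  rw [e1, e2]

lemma wfd_meas (k : ℕ) (β : ℝ) : Measurable (wfd k β A B : Cf N L → ℝ) := by
  unfold wfd
  exact Finset.measurable_prod _ fun x _ => Finset.measurable_prod _ fun i _ =>
    (wt_cont k β (x, i)).measurable

lemma wfd_bd (hN : 0 < N) (k : ℕ) (β : ℝ) (hβ : 0 ≤ β) (X : Cf N L) : |wfd k β A B X| ≤ 1 := by
  unfold wfd
  rw [abs_of_nonneg (Finset.prod_nonneg fun x _ => Finset.prod_nonneg fun i _ =>
    (wt_pos k β _ _ hN).le)]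
  exact Finset.prod_le_one (fun x _ => Finset.prod_nonneg fun i _ => (wt_pos k β _ _ hN).le)
    fun x _ => Finset.prod_le_one (fun i _ => (wt_pos k β _ _ hN).le)
      fun i _ => wt_le k β hβ _ _ hN

/-- integration over the free variables -/
lemma cond (hN : 2 ≤ N) (s : Pl) (r : ℕ) (hA : 2 * r + 4 ≤ A) (hB : 2 * r + 4 ≤ B) (Δ : Finset Pl)
    (F : Set Pl) (hF : pse A B F) (hΔ : ∀ a ∈ Δ, a ∈ Nb r s ∧ a ∉ F) (k : ℕ) (β : ℝ) (hβ : 0 ≤ β)
    (P Q : SU N) (f : Cf N L → ℝ) (hf : Measurable f) (hb : ∃ K, ∀ X, |f X| ≤ K)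
    (hd : Sys.dep {l | ∀ a ∈ st l, a ∈ Nb (r + 1) s} f) :
    ∫ X : TC N A B L, f (fzF P Q F (per X)) * wfd k β A B (fzF P Q F (per X))
        ∂(Measure.infinitePi fun _ => hm N) =
      ∫ X : TC N A B L, rst k β A B Δ (fzF P Q F (per X)) *
        (sysS N L k β hN hβ).num (hm N) Δ f (fzF P Q F (per X))
          ∂(Measure.infinitePi fun _ => hm N) := by
  obtain ⟨K, hK⟩ := hb
  have hN0 : 0 < N := by omega
  have hY : Measurable fun X : TC N A B L => fzF P Q F (per X) := (fzF_meas P Q F).comp per_meas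
  rw [F2gen (hm N) (JU A B L Δ)
    (fun X : TC N A B L => f (fzF P Q F (per X)) * wfd k β A B (fzF P Q F (per X)))
    ((hf.comp hY).mul ((wfd_meas k β).comp hY)) ⟨K, fun X => by
      rw [Real.norm_eq_abs, abs_mul]
      have h1 := hK (fzF P Q F (per X))
      have h2 := wfd_bd (A := A) (B := B) hN0 k β hβ (fzF P Q F (per X))
      have h3 := abs_nonneg (f (fzF P Q F (per X)))
      nlinarith⟩]
  refine integral_congr_ae (Filter.Eventually.of_forall fun X => ?_)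
  beta_reduce
  unfold Sys.num
  have hG : Measurable fun Z : Cf N L => f Z * (sysS N L k β hN hβ).W Δ Z :=
    hf.mul (PkgF.W_meas (sysS N L k β hN hβ) Δ)
  rw [show (∫ ξ, f (glue ((sysS N L k β hN hβ).Fr Δ) ξ (fzF P Q F (per X))) *
      (sysS N L k β hN hβ).W Δ (glue ((sysS N L k β hN hβ).Fr Δ) ξ (fzF P Q F (per X)))
        ∂(Measure.infinitePi fun _ => hm N)) = _ from
    (per_intU (A := A) (B := B) s r hA hB Δ (fun a ha => (hΔ a ha).1) _ hG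
      (fzF P Q F (per X))).symm, ← integral_const_mul]
  refine integral_congr_ae (Filter.Eventually.of_forall fun Y => ?_)
  beta_reduce
  have e1 : f (fzF P Q F (per (glue (JU A B L Δ) Y X))) =
      f (glue (Frl L Δ) (per Y) (fzF P Q F (per X))) :=
    hd _ _ fun l hl => glue_N s r hA hB Δ F hΔ P Q X Y l hl
  have e2 : ∏ τ ∈ tml Δ, wt k β τ (fzF P Q F (per (glue (JU A B L Δ) Y X))) =
      (sysS N L k β hN hβ).W Δ (glue (Frl L Δ) (per Y) (fzF P Q F (per X))) := by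
    refine Finset.prod_congr rfl fun τ hτ => ?_
    refine wt_loc k β τ _ _ fun l hl => ?_
    refine glue_N s r hA hB Δ F hΔ P Q X Y l fun a ha => ?_
    exact tml_Nb s r Δ (fun a ha => (hΔ a ha).1) τ hτ a (spt_cor τ l hl a ha)
  rw [wfd_split s r hA hB Δ (fun a ha => (hΔ a ha).1) k β P Q F hF, rst_loc, e1, e2]
  ring

end PkgUC

open PkgUC in
theorem pUC (hF2 : S_F2) : S_UC := by
  intro N k L _ hN P Q β hβ A B _ _ F hF s r hA hB Δ hΔ f hf hb hd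
  rw [cond hN s r hA hB Δ F hF hΔ k β hβ P Q f hf hb hd]
  obtain ⟨K, hK⟩ := hb
  have hm1 := PkgF.ker_meas (sysS N L k β hN hβ) (hm N) Δ hf
  have hb1 := PkgF.ker_bdd (sysS N L k β hN hβ) (hm N) Δ K hf hK
  have hd1 := PkgF.ker_dep (sysS N L k β hN hβ) (hm N) Δ _ f hd
  have hd2 : Sys.dep {l | ∀ a ∈ st l, a ∈ Nb (r + 1) s}
      ((sysS N L k β hN hβ).ker (hm N) Δ f) := by
    intro X Y hXY
    refine hd1 X Y fun l hl => hXY l ?_
    obtain ⟨-, h | ⟨τ, h1, h2⟩⟩ := hl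
    · exact h
    · exact fun a ha => tml_Nb s r Δ (fun a ha => (hΔ a ha).1) τ h1 a (spt_cor τ l h2 a ha)
  have h3 := cond (A := A) (B := B) hN s r hA hB Δ F hF hΔ k β hβ P Q _ hm1 ⟨K, hb1⟩ hd2
  rw [h3]
  refine integral_congr_ae (Filter.Eventually.of_forall fun X => ?_)
  beta_reduce
  rw [PkgF.num_ker]

end T2H01.SE
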