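import Pool.Agent.T2H01.SE.Stm6
import Pool.Agent.T2H01.SE.MA
import Pool.Agent.T2H02.TT.F

/-!
# Package UD : freezing one more site of the torus
-/

set_option autoImplicit false
set_option linter.unusedSectionVars false
set_option linter.unusedVariables false

noncomputable section

open MeasureTheory Matrix
open scoped Matrix.Norms.Frobenius

namespace T2H01.SE

open T2H02.TT

namespace PkgUD

open PkgMA (Dx)

lemma map_inj {ι κ X : Type} [MeasurableSpace X] (μ : Measure X) [IsProbabilityMeasure μ]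
    (φ : ι → κ) (hφ : Function.Injective φ) :
    (Measure.infinitePi fun _ : κ => μ).map (fun (Y : κ → X) (i : ι) => Y (φ i)) =
      Measure.infinitePi fun _ : ι => μ := by
  classical
  apply Measure.eq_infinitePi
  intro s t ht
  rw [Measure.map_apply (measurable_pi_lambda _ fun i => measurable_pi_apply (φ i))
    (MeasurableSet.pi s.countable_toSet (fun i _ => ht i))]
  have h1 : (fun (Y : κ → X) (i : ι) => Y (φ i)) ⁻¹' (Set.pi (s : Set ι) t) =
      Set.pi ((s.map ⟨φ, hφ⟩ : Finset κ) : Set κ)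
        (fun j => if h : ∃ i, φ i = j then t h.choose else Set.univ) := by
    ext Y
    simp only [Set.mem_preimage, Set.mem_pi, Finset.mem_coe, Finset.mem_map,
      Function.Embedding.coeFn_mk]
    constructor
    · rintro h j ⟨i, hi, rfl⟩
      have hex : ∃ i', φ i' = φ i := ⟨i, rfl⟩
      rw [dif_pos hex, hφ hex.choose_spec]
      exact h i hi
    · intro h i hi
      have hex : ∃ i', φ i' = φ i := ⟨i, rfl⟩
      have := h (φ i) ⟨i, hi, rfl⟩
      rwa [dif_pos hex, hφ hex.choose_spec] at this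
  rw [h1, Measure.infinitePi_pi, Finset.prod_map]
  · refine Finset.prod_congr rfl fun i _ => ?_
    have hex : ∃ i', φ i' = φ i := ⟨i, rfl⟩
    show μ (if h : ∃ i', φ i' = φ i then t h.choose else Set.univ) = _
    rw [dif_pos hex, hφ hex.choose_spec]
  · intro j _
    split_ifs
    · exact ht _
    · exact MeasurableSet.univ


section

variable {N L : ℕ} [NeZero L]

lemma nx_shf (v x : Pl) (y : Tor L) (i : Fin 4) :
    nx (x + v, y) i = ((nx (x, y) i).1 + v, (nx (x, y) i).2) := by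
  unfold nx
  simp only [Prod.mk.injEq]
  exact ⟨by abel, trivial⟩

lemma df_shf (v : Pl) (X : Cf N L) (z : ℂ) (x : Pl) (y : Tor L) (i j : Fin 4) :
    df (shf v X) z (x, y) i j = df X z (x + v, y) i j := by
  unfold df shf
  simp only [nx_shf]

lemma cor_shf (v x a : Pl) (i : Fin 4) : a + v ∈ cor (x + v, i) ↔ a ∈ cor (x, i) := by
  have e : ∀ u : Pl, a + v = x + v + u ↔ a = x + u := by
    intro u
    rw [show x + v + u = x + u + v by abel]
    exact add_left_inj v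
  have e0 : a + v = x + v ↔ a = x := add_left_inj v
  fin_cases i
  · change a + v ∈ cor (x + v, 0) ↔ a ∈ cor (x, 0)
    rw [mem_cor0, mem_cor0, e0]
  · change a + v ∈ cor (x + v, 1) ↔ a ∈ cor (x, 1)
    rw [mem_cor1, mem_cor1, e0, e]
  · change a + v ∈ cor (x + v, 2) ↔ a ∈ cor (x, 2)
    rw [mem_cor2, mem_cor2, e0, e]
  · change a + v ∈ cor (x + v, 3) ↔ a ∈ cor (x, 3)
    rw [mem_cor3, mem_cor3, e0, e, e, e]


section

variable {A B : ℕ} [NeZero A] [NeZero B]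

/-- projection of the links on the torus -/
def pj (A B : ℕ) {L : ℕ} (l : Lk L) : TL A B L :=
  ((((l.1.1.1 : ZMod A), (l.1.1.2 : ZMod B)), l.1.2), l.2)

lemma per_apply (X : TC N A B L) (l : Lk L) : per X l = X (pj A B l) := rfl

lemma per_meas : Measurable (per : TC N A B L → Cf N L) :=
  measurable_pi_lambda _ fun l => measurable_pi_apply _

lemma mem_fdm (x : Pl) : x ∈ fdm A B ↔ (0 ≤ x.1 ∧ x.1 < A) ∧ 0 ≤ x.2 ∧ x.2 < B := by
  rw [fdm, Finset.mem_product, Finset.mem_Ico, Finset.mem_Ico]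


end

lemma wt_shf (k : ℕ) (β : ℝ) (v : Pl) (X : Cf N L) (x : Pl) (i : Fin 4) :
    wt k β (x, i) (shf v X) = wt k β (x + v, i) X := by
  unfold wt en eP eV eK
  simp only [df_shf]

/-- periodic configurations -/
def prd (A B : ℕ) (Y : Cf N L) : Prop := ∀ i j : ℤ, shf ((A : ℤ) * i, (B : ℤ) * j) Y = Y

lemma wt_prd {A B : ℕ} (k : ℕ) (β : ℝ) (Y : Cf N L) (h : prd A B Y) (x : Pl) (m : Fin 4)
    (i j : ℤ) : wt k β (x + ((A : ℤ) * i, (B : ℤ) * j), m) Y = wt k β (x, m) Y := by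
  rw [← wt_shf, h i j]

lemma per_prd {A B : ℕ} [NeZero A] [NeZero B] (X : TC N A B L) : prd A B (per X) := by
  intro i j
  funext l
  unfold shf
  rw [per_apply, per_apply]
  unfold pj
  simp only [Prod.fst_add, Prod.snd_add]
  push_cast
  simp

lemma vc_shf (P Q : SU N) (l : Lk L) (v : Pl) :
    vc P Q (((l.1.1 + v, l.1.2), l.2) : Lk L) = vc P Q l := rfl

lemma mem_st_shf (l : Lk L) (v a : Pl) :
    a + v ∈ st (((l.1.1 + v, l.1.2), l.2) : Lk L) ↔ a ∈ st l := by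
  rw [mem_st, mem_st]
  simp only
  rw [add_left_inj, show l.1.1 + v + pe l.2 = (l.1.1 + pe l.2) + v by abel, add_left_inj]

lemma fzF_prd {A B : ℕ} (P Q : SU N) (F : Set Pl) (hF : pse A B F) (Y : Cf N L) (h : prd A B Y) :
    prd A B (fzF P Q F Y) := by
  intro i j
  funext l
  unfold shf
  set v : Pl := ((A : ℤ) * i, (B : ℤ) * j) with hv
  have e1 : Y (((l.1.1 + v, l.1.2), l.2) : Lk L) = Y l := congrFun (h i j) l
  have e2 : (∀ a ∈ st (((l.1.1 + v, l.1.2), l.2) : Lk L), a ∈ F) ↔ ∀ a ∈ st l, a ∈ F := by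
    constructor
    · intro hh a ha
      exact (hF a i j).1 (hh (a + v) ((mem_st_shf l v a).2 ha))
    · intro hh a ha
      have h1 : a - v ∈ st l := by
        rw [← mem_st_shf l v, sub_add_cancel]
        exact ha
      have h2 := (hF (a - v) i j).2 (hh _ h1)
      rwa [← hv, sub_add_cancel] at h2
  unfold fzF
  by_cases h3 : ∀ a ∈ st l, a ∈ F
  · rw [if_pos (e2.2 h3), if_pos h3]
    rfl
  · rw [if_neg (fun h4 => h3 (e2.1 h4)), if_neg h3, e1]

lemma adp_prd {A B : ℕ} (F : Set Pl) (hF : pse A B F) (s : Pl) : pse A B (adp A B F s) := by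
  intro a i j
  unfold adp
  simp only [Set.mem_union, Set.mem_ofPred_eq]
  rw [hF a i j]
  refine or_congr Iff.rfl ⟨?_, ?_⟩
  · rintro ⟨i', j', h⟩
    refine ⟨i' - i, j' - j, ?_⟩
    rw [Prod.ext_iff] at h ⊢
    simp only [Prod.fst_add, Prod.snd_add] at h ⊢
    constructor <;> linarith [h.1, h.2]
  · rintro ⟨i', j', h⟩
    refine ⟨i' + i, j' + j, ?_⟩
    rw [Prod.ext_iff] at h ⊢
    simp only [Prod.fst_add, Prod.snd_add] at h ⊢
    constructor <;> linarith [h.1, h.2]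

/-- the term touches a translate of `s` -/
def tch (A B : ℕ) (s : Pl) (τ : Tm) : Prop := ∃ i j : ℤ, s + ((A : ℤ) * i, (B : ℤ) * j) ∈ cor τ

open Classical in
/-- the terms over the fundamental domain which touch a translate of `s` -/
def Ts (A B : ℕ) (s : Pl) : Finset Tm := (fdm A B ×ˢ Finset.univ).filter fun τ => tch A B s τ

open Classical in
/-- the other ones -/
def To (A B : ℕ) (s : Pl) : Finset Tm := (fdm A B ×ˢ Finset.univ).filter fun τ => ¬ tch A B s τ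

lemma mem_Ts (A B : ℕ) (s : Pl) (τ : Tm) : τ ∈ Ts A B s ↔ τ.1 ∈ fdm A B ∧ tch A B s τ := by
  classical
  unfold Ts
  rw [Finset.mem_filter, Finset.mem_product]
  simp only [Finset.mem_univ, and_true]

lemma mul_close (n : ℕ) (d c : ℤ) (h : d = n * c) (h1 : |d| < n) : c = 0 := by
  by_contra hc
  have h2 : 1 ≤ |c| := Int.one_le_abs hc
  have h3 : |d| = n * |c| := by
    rw [h, abs_mul, Nat.abs_cast]
  have h4 : (0 : ℤ) ≤ n := Int.natCast_nonneg n
  nlinarith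

lemma cor_close (τ : Tm) (a : Pl) (h : a ∈ cor τ) : (τ.1.1 ≤ a.1 ∧ a.1 ≤ τ.1.1 + 1) ∧
    (τ.1.2 ≤ a.2 ∧ a.2 ≤ τ.1.2 + 1) := by
  obtain ⟨⟨x1, x2⟩, i⟩ := τ
  obtain ⟨a1, a2⟩ := a
  fin_cases i
  · have := (mem_cor0 _ _).1 h
    obtain ⟨rfl, rfl⟩ := Prod.mk.inj this
    simp
  · rcases (mem_cor1 _ _).1 h with e | e
    · obtain ⟨rfl, rfl⟩ := Prod.mk.inj e
      simp
    · rw [Prod.mk_add_mk] at e
      obtain ⟨rfl, rfl⟩ := Prod.mk.inj e
      simp
  · rcases (mem_cor2 _ _).1 h with e | e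
    · obtain ⟨rfl, rfl⟩ := Prod.mk.inj e
      simp
    · rw [Prod.mk_add_mk] at e
      obtain ⟨rfl, rfl⟩ := Prod.mk.inj e
      simp
  · rcases (mem_cor3 _ _).1 h with e | e | e | e
    · obtain ⟨rfl, rfl⟩ := Prod.mk.inj e
      simp
    · rw [Prod.mk_add_mk] at e
      obtain ⟨rfl, rfl⟩ := Prod.mk.inj e
      simp
    · rw [Prod.mk_add_mk] at e
      obtain ⟨rfl, rfl⟩ := Prod.mk.inj e
      simp
    · rw [Prod.mk_add_mk] at e
      obtain ⟨rfl, rfl⟩ := Prod.mk.inj e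
      simp

lemma prod_Ts {A B : ℕ} [NeZero A] [NeZero B] (hA : 8 ≤ A) (hB : 8 ≤ B) (k : ℕ) (β : ℝ) (s : Pl)
    (Y : Cf N L) (hY : prd A B Y) :
    ∏ τ ∈ Ts A B s, wt k β τ Y = Dx k β (tml {s}) Y := by
  symm
  unfold PkgMA.Dx
  have hA0 : (0 : ℤ) < A := by omega
  have hB0 : (0 : ℤ) < B := by omega
  have key : ∀ τ : Tm, (((τ.1.1 % A, τ.1.2 % B) : Pl) + ((A : ℤ) * (τ.1.1 / A),
      (B : ℤ) * (τ.1.2 / B)) : Pl) = τ.1 := by
    intro τ
    ext
    · simp only [Prod.fst_add]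
      exact Int.emod_add_mul_ediv _ _
    · simp only [Prod.snd_add]
      exact Int.emod_add_mul_ediv _ _
  refine Finset.prod_nbij (fun τ => (((τ.1.1 % A, τ.1.2 % B) : Pl), τ.2)) ?_ ?_ ?_ ?_
  · intro τ hτ
    rw [PkgMA.mem_tml1] at hτ
    rw [mem_Ts]
    refine ⟨?_, ?_⟩
    · rw [mem_fdm]
      exact ⟨⟨Int.emod_nonneg _ hA0.ne', Int.emod_lt_of_pos _ hA0⟩,
        Int.emod_nonneg _ hB0.ne', Int.emod_lt_of_pos _ hB0⟩
    · refine ⟨-(τ.1.1 / A), -(τ.1.2 / B), ?_⟩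
      rw [← cor_shf ((A : ℤ) * (τ.1.1 / A), (B : ℤ) * (τ.1.2 / B)), key τ]
      have e : s + ((A : ℤ) * -(τ.1.1 / A), (B : ℤ) * -(τ.1.2 / B)) +
          ((A : ℤ) * (τ.1.1 / A), (B : ℤ) * (τ.1.2 / B)) = s := by
        ext
        · simp only [Prod.fst_add]; ring
        · simp only [Prod.snd_add]; ring
      rw [e]
      exact hτ
  · intro τ hτ τ' hτ' he
    rw [Finset.mem_coe, PkgMA.mem_tml1] at hτ hτ'
    have c1 := cor_close τ s hτ
    have c2 := cor_close τ' s hτ'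
    simp only [Prod.mk.injEq] at he
    obtain ⟨⟨h1, h2⟩, h3⟩ := he
    have e1 : τ.1.1 - τ'.1.1 = A * (τ.1.1 / A - τ'.1.1 / A) := by
      have a1 := Int.emod_add_mul_ediv τ.1.1 A
      have a2 := Int.emod_add_mul_ediv τ'.1.1 A
      rw [mul_sub]
      linarith
    have e2 : τ.1.2 - τ'.1.2 = B * (τ.1.2 / B - τ'.1.2 / B) := by
      have a1 := Int.emod_add_mul_ediv τ.1.2 B
      have a2 := Int.emod_add_mul_ediv τ'.1.2 B
      rw [mul_sub]
      linarith
    have f1 := mul_close A _ _ e1 (by rw [abs_lt]; constructor <;> omega)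
    have f2 := mul_close B _ _ e2 (by rw [abs_lt]; constructor <;> omega)
    rw [f1, mul_zero, sub_eq_zero] at e1
    rw [f2, mul_zero, sub_eq_zero] at e2
    exact Prod.ext (Prod.ext e1 e2) h3
  · intro τ hτ
    rw [Finset.mem_coe] at hτ
    rw [mem_Ts, mem_fdm] at hτ
    obtain ⟨⟨⟨p1, p2⟩, p3, p4⟩, i, j, hij⟩ := hτ
    refine ⟨(τ.1 - ((A : ℤ) * i, (B : ℤ) * j), τ.2), ?_, ?_⟩
    · rw [Finset.mem_coe, PkgMA.mem_tml1, ← cor_shf ((A : ℤ) * i, (B : ℤ) * j),
        sub_add_cancel]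
      exact hij
    · simp only [Prod.fst_sub, Prod.snd_sub]
      have q1 : (τ.1.1 - (A : ℤ) * i) % A = τ.1.1 := by
        rw [Int.sub_mul_emod_self_left, Int.emod_eq_of_lt p1 p2]
      have q2 : (τ.1.2 - (B : ℤ) * j) % B = τ.1.2 := by
        rw [Int.sub_mul_emod_self_left, Int.emod_eq_of_lt p3 p4]
      rw [q1, q2]
  · intro τ hτ
    have h := wt_prd k β Y hY ((τ.1.1 % A, τ.1.2 % B) : Pl) τ.2 (τ.1.1 / A) (τ.1.2 / B)
    rw [key τ] at h
    exact h

lemma wfd_split {A B : ℕ} [NeZero A] [NeZero B] (hA : 8 ≤ A) (hB : 8 ≤ B) (k : ℕ) (β : ℝ) (s : Pl)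
    (Y : Cf N L) (hY : prd A B Y) :
    wfd k β A B Y = Dx k β (To A B s) Y * Dx k β (tml {s}) Y := by
  classical
  unfold wfd
  rw [← Finset.prod_product' (fdm A B) Finset.univ (fun x i => wt k β (x, i) Y),
    ← prod_Ts hA hB k β s Y hY]
  unfold PkgMA.Dx Ts To
  rw [mul_comm]
  exact (Finset.prod_filter_mul_prod_filter_not _ _ _).symm

open Classical in
/-- the links which become frozen -/
def Js (L : ℕ) [NeZero L] (F : Set Pl) (s : Pl) : Finset (Lk L) :=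
  (Frl L {s}).filter fun l => ∀ a ∈ st l, a ∈ F ∪ {s}

lemma mem_Js (F : Set Pl) (s : Pl) (l : Lk L) :
    l ∈ Js L F s ↔ s ∈ st l ∧ ∀ a ∈ st l, a ∈ F ∪ {s} := by
  classical
  unfold Js
  rw [Finset.mem_filter, PkgMA.mem_Frl1]

lemma Js_congr (F F' : Set Pl) (s : Pl) (h : ∀ a ∈ Nb 1 s, a ∈ F ↔ a ∈ F') :
    Js L F s = Js L F' s := by
  ext l
  rw [mem_Js, mem_Js]
  refine and_congr_right fun h1 => ?_
  refine forall_congr' fun a => forall_congr' fun ha => ?_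
  rw [Set.mem_union, Set.mem_union, h a (PkgMA.nb1 (diam_st l s h1 a ha))]

/-- links of the terms touching `s` -/
def lks (s : Pl) (l : Lk L) : Prop := ∀ a ∈ st l, a ∈ Nb 1 s

lemma lks_of (s : Pl) (τ : Tm) (hτ : τ ∈ tml {s}) (l : Lk L) (hl : l ∈ (spt τ : Finset (Lk L))) :
    lks s l := by
  intro a ha
  rw [PkgMA.mem_tml1] at hτ
  exact PkgMA.nb1 (diam_cor τ s hτ a ((cor_iff (L := L) τ a).2 ⟨l, hl, ha⟩))

lemma lks_Js (F : Set Pl) (s : Pl) (l : Lk L) (h : l ∈ Js L F s) : lks s l := by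
  intro a ha
  exact PkgMA.nb1 (diam_st l s ((mem_Js F s l).1 h).1 a ha)

lemma lks_pos (s : Pl) (l : Lk L) (h : lks s l) : (s.1 - 1 ≤ l.1.1.1 ∧ l.1.1.1 ≤ s.1 + 1) ∧
    (s.2 - 1 ≤ l.1.1.2 ∧ l.1.1.2 ≤ s.2 + 1) := by
  have h1 := h l.1.1 ((mem_st l _).2 (Or.inl rfl))
  unfold Nb at h1
  rw [Finset.mem_product, Finset.mem_Icc, Finset.mem_Icc] at h1
  simpa using h1

lemma kpf_eq (k : ℕ) (β : ℝ) (P Q : SU N) (F : Set Pl) (s : Pl) (X : Cf N L) :
    kpf k β P Q F s X = Dx k β (tml {s}) (fzF P Q (F ∪ {s}) X) /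
      ∫ ζ, Dx k β (tml {s}) (glue (Js L F s) ζ (fzF P Q (F ∪ {s}) X)) ∂(pm N L) := by
  unfold kpf PkgMA.Dx
  refine congrArg (fun b : ℝ => (∏ τ ∈ tml {s}, wt k β τ (fzF P Q (F ∪ {s}) X)) / b) ?_
  refine integral_congr_ae (Filter.Eventually.of_forall fun ζ => ?_)
  beta_reduce
  refine Finset.prod_congr rfl fun τ _ => ?_
  refine congrArg (wt k β τ) ?_
  funext l
  unfold glue
  by_cases h : l ∈ Js L F s
  · rw [if_pos h, if_pos ((mem_Js F s l).1 h)]
  · rw [if_neg h, if_neg (fun h' => h ((mem_Js F s l).2 h'))]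

lemma fzF_meas (P Q : SU N) (F : Set Pl) : Measurable (fzF P Q F : Cf N L → Cf N L) := by
  refine measurable_pi_lambda _ fun l => ?_
  unfold fzF
  by_cases h : ∀ a ∈ st l, a ∈ F
  · simp only [if_pos h]
    exact measurable_const
  · simp only [if_neg h]
    exact measurable_pi_apply l

lemma kpf_meas (k : ℕ) (β : ℝ) (P Q : SU N) (F : Set Pl) (s : Pl) :
    Measurable (kpf k β P Q F s : Cf N L → ℝ) := by
  have e : (kpf k β P Q F s : Cf N L → ℝ) = fun X => Dx k β (tml {s}) (fzF P Q (F ∪ {s}) X) /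
      ∫ ζ, Dx k β (tml {s}) (glue (Js L F s) ζ (fzF P Q (F ∪ {s}) X)) ∂(pm N L) :=
    funext fun X => kpf_eq k β P Q F s X
  rw [e]
  exact ((PkgMA.Dx_meas k β _).comp (fzF_meas P Q _)).div
    ((PkgMA.Ex_meas k β (tml {s}) (Js L F s)).comp (fzF_meas P Q _))

lemma kpf_bd (k : ℕ) (β c : ℝ) (hβ : 0 ≤ β) (hN : 0 < N) (hc : 0 ≤ c)
    (hw : ∀ (τ : Tm) (X : Cf N L), Real.exp (-c) ≤ wt k β τ X) (P Q : SU N) (F : Set Pl)
    (s : Pl) (X : Cf N L) :
    Real.exp (-(16 * c)) ≤ kpf k β P Q F s X ∧ kpf k β P Q F s X ≤ Real.exp (16 * c) := by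
  have h1 := PkgMA.Dx_bd k β c hβ hN hc hw s (tml {s}) subset_rfl (fzF P Q (F ∪ {s}) X)
  have h2 := PkgMA.Ex_bd k β c hβ hN hc hw s (tml {s}) subset_rfl (Js L F s)
    (fzF P Q (F ∪ {s}) X)
  have h3 : 0 < Real.exp (-(16 * c)) := Real.exp_pos _
  have h4 := h3.trans_le h2.1
  rw [kpf_eq]
  constructor
  · rw [le_div_iff₀ h4]
    calc Real.exp (-(16 * c)) * _ ≤ Real.exp (-(16 * c)) * 1 :=
          mul_le_mul_of_nonneg_left h2.2 h3.le
      _ ≤ _ := by rw [mul_one]; exact h1.1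
  · rw [div_le_iff₀ h4]
    calc _ ≤ (1 : ℝ) := h1.2
      _ = Real.exp (16 * c) * Real.exp (-(16 * c)) := by
          rw [← Real.exp_add, add_neg_cancel, Real.exp_zero]
      _ ≤ _ := mul_le_mul_of_nonneg_left h2.1 (Real.exp_pos _).le

/-- `kpf` depends only on `Js` and on the values of the frozen configuration near `s` -/
lemma kpf_ext (k : ℕ) (β : ℝ) (P Q : SU N) (F F' : Set Pl) (s : Pl) (X X' : Cf N L)
    (hJ : Js L F s = Js L F' s)
    (h : ∀ l : Lk L, lks s l → fzF P Q (F ∪ {s}) X l = fzF P Q (F' ∪ {s}) X' l) :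
    kpf k β P Q F s X = kpf k β P Q F' s X' := by
  rw [kpf_eq, kpf_eq, hJ]
  have e1 : Dx k β (tml {s}) (fzF P Q (F ∪ {s}) X) =
      Dx k β (tml {s}) (fzF P Q (F' ∪ {s}) X') :=
    PkgMA.Dx_loc k β _ _ _ fun τ hτ l hl => h l (lks_of s τ hτ l hl)
  have e2 : (fun ζ => Dx k β (tml {s}) (glue (Js L F' s) ζ (fzF P Q (F ∪ {s}) X))) =
      fun ζ => Dx k β (tml {s}) (glue (Js L F' s) ζ (fzF P Q (F' ∪ {s}) X')) := by
    funext ζ
    refine PkgMA.Dx_loc k β _ _ _ fun τ hτ l hl => ?_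
    unfold glue
    rw [h l (lks_of s τ hτ l hl)]
  rw [e1, e2]

lemma fzF_congr (P Q : SU N) (F F' : Set Pl) (X X' : Cf N L) (l : Lk L)
    (h : ∀ a ∈ st l, a ∈ F ↔ a ∈ F') (hX : X l = X' l) : fzF P Q F X l = fzF P Q F' X' l := by
  unfold fzF
  have e : (∀ a ∈ st l, a ∈ F) ↔ ∀ a ∈ st l, a ∈ F' :=
    forall_congr' fun a => forall_congr' fun ha => h a ha
  by_cases h1 : ∀ a ∈ st l, a ∈ F
  · rw [if_pos h1, if_pos (e.1 h1)]
  · rw [if_neg h1, if_neg (fun h2 => h1 (e.2 h2)), hX]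

lemma kpf_dep (k : ℕ) (β : ℝ) (P Q : SU N) (F : Set Pl) (s : Pl) :
    Sys.dep {l : Lk L | ∀ a ∈ st l, a ∈ Nb 1 s} (kpf k β P Q F s) := by
  intro X Y h
  exact kpf_ext k β P Q F F s X Y rfl fun l hl =>
    fzF_congr P Q _ _ X Y l (fun _ _ => Iff.rfl) (h l hl)

lemma kpf_congr (k : ℕ) (β : ℝ) (P Q : SU N) (F F' : Set Pl) (s : Pl)
    (h : ∀ a ∈ Nb 1 s, a ∈ F ↔ a ∈ F') :
    (kpf k β P Q F s : Cf N L → ℝ) = kpf k β P Q F' s := by
  funext X
  refine kpf_ext k β P Q F F' s X X (Js_congr F F' s h) fun l hl =>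
    fzF_congr P Q _ _ X X l (fun a ha => ?_) rfl
  rw [Set.mem_union, Set.mem_union, h a (hl a ha)]

/-! ### the torus -/

variable {A B : ℕ} [NeZero A] [NeZero B]

/-- the links of the torus which become frozen -/
def JT (A B L : ℕ) [NeZero A] [NeZero B] [NeZero L] (F : Set Pl) (s : Pl) : Finset (TL A B L) :=
  (Js L F s).image (pj A B)

lemma pj_eq (l l' : Lk L) (h : pj A B l = pj A B l') : ∃ i j : ℤ,
    l = (((l'.1.1 + ((A : ℤ) * i, (B : ℤ) * j), l'.1.2), l'.2) : Lk L) := by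
  unfold pj at h
  simp only [Prod.mk.injEq] at h
  obtain ⟨⟨⟨h1, h2⟩, h3⟩, h4⟩ := h
  rw [eq_comm, ZMod.intCast_eq_intCast_iff_dvd_sub] at h1 h2
  obtain ⟨i, hi⟩ := h1
  obtain ⟨j, hj⟩ := h2
  refine ⟨i, j, ?_⟩
  refine Prod.ext (Prod.ext (Prod.ext ?_ ?_) h3) h4
  · simp only [Prod.fst_add]; linarith
  · simp only [Prod.snd_add]; linarith

lemma pj_close (hA : 8 ≤ A) (hB : 8 ≤ B) (s : Pl) (l l' : Lk L) (h : lks s l) (h' : lks s l')
    (he : pj A B l = pj A B l') : l = l' := by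
  obtain ⟨i, j, hij⟩ := pj_eq l l' he
  have c1 := lks_pos s l h
  have c2 := lks_pos s l' h'
  have e1 : l.1.1.1 - l'.1.1.1 = A * i := by
    rw [hij]; simp only [Prod.fst_add]; ring
  have e2 : l.1.1.2 - l'.1.1.2 = B * j := by
    rw [hij]; simp only [Prod.snd_add]; ring
  have f1 := mul_close A _ _ e1 (by rw [abs_lt]; constructor <;> omega)
  have f2 := mul_close B _ _ e2 (by rw [abs_lt]; constructor <;> omega)
  rw [hij, f1, f2]
  have e0 : (((A : ℤ) * 0, (B : ℤ) * 0) : Pl) = 0 := by simp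
  rw [e0, add_zero]

lemma JT_iff (hA : 8 ≤ A) (hB : 8 ≤ B) (F : Set Pl) (s : Pl) (l : Lk L) (h : lks s l) :
    pj A B l ∈ JT A B L F s ↔ l ∈ Js L F s := by
  unfold JT
  constructor
  · intro h1
    obtain ⟨l', h2, h3⟩ := Finset.mem_image.1 h1
    rw [pj_close hA hB s l l' h (lks_Js F s l' h2) h3.symm]
    exact h2
  · exact fun h1 => Finset.mem_image_of_mem _ h1

lemma mem_To (s : Pl) (τ : Tm) (h : τ ∈ To A B s) : ¬ tch A B s τ := by
  classical
  unfold To at h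
  exact (Finset.mem_filter.1 h).2

lemma JT_not (F : Set Pl) (s : Pl) (τ : Tm) (h : ¬ tch A B s τ) (l : Lk L)
    (hl : l ∈ (spt τ : Finset (Lk L))) : pj A B l ∉ JT A B L F s := by
  intro h1
  unfold JT at h1
  obtain ⟨l', h2, h3⟩ := Finset.mem_image.1 h1
  obtain ⟨i, j, hij⟩ := pj_eq l l' h3.symm
  apply h
  refine ⟨i, j, ?_⟩
  rw [cor_iff (L := L)]
  refine ⟨l, hl, ?_⟩
  rw [hij, mem_st_shf]
  exact ((mem_Js F s l').1 h2).1

lemma adp_near (hA : 8 ≤ A) (hB : 8 ≤ B) (F : Set Pl) (s a : Pl) (ha : a ∈ Nb 1 s) :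
    a ∈ adp A B F s ↔ a ∈ F ∪ {s} := by
  unfold adp
  rw [Set.mem_union, Set.mem_union, Set.mem_ofPred_eq, Set.mem_singleton_iff]
  refine or_congr Iff.rfl ⟨?_, ?_⟩
  · rintro ⟨i, j, h⟩
    unfold Nb at ha
    rw [Finset.mem_product, Finset.mem_Icc, Finset.mem_Icc] at ha
    push_cast at ha
    have e1 : a.1 - s.1 = A * i := by rw [h]; simp only [Prod.fst_add]; ring
    have e2 : a.2 - s.2 = B * j := by rw [h]; simp only [Prod.snd_add]; ring
    have f1 := mul_close A _ _ e1 (by rw [abs_lt]; constructor <;> omega)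
    have f2 := mul_close B _ _ e2 (by rw [abs_lt]; constructor <;> omega)
    rw [f1, mul_zero, sub_eq_zero] at e1
    rw [f2, mul_zero, sub_eq_zero] at e2
    exact Prod.ext e1 e2
  · rintro rfl
    refine ⟨0, 0, ?_⟩
    simp

lemma adp_far (F : Set Pl) (s : Pl) (τ : Tm) (h : ¬ tch A B s τ) (l : Lk L)
    (hl : l ∈ (spt τ : Finset (Lk L))) (a : Pl) (ha : a ∈ st l) :
    a ∈ adp A B F s ↔ a ∈ F := by
  unfold adp
  rw [Set.mem_union, Set.mem_ofPred_eq]
  refine ⟨?_, Or.inl⟩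
  rintro (h1 | ⟨i, j, rfl⟩)
  · exact h1
  · exact absurd ⟨i, j, (cor_iff (L := L) τ _).2 ⟨l, hl, ha⟩⟩ h

lemma wfd_bd (k : ℕ) (β : ℝ) (hβ : 0 ≤ β) (hN : 0 < N) (X : Cf N L) :
    0 < wfd k β A B X ∧ wfd k β A B X ≤ 1 := by
  unfold wfd
  constructor
  · exact Finset.prod_pos fun x _ => Finset.prod_pos fun i _ => wt_pos k β _ X hN
  · refine Finset.prod_le_one (fun x _ => Finset.prod_nonneg fun i _ => (wt_pos k β _ X hN).le)
      fun x _ => Finset.prod_le_one (fun i _ => (wt_pos k β _ X hN).le)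
        fun i _ => wt_le k β hβ _ X hN

lemma wfd_low (k : ℕ) (β c : ℝ)
    (hw : ∀ (τ : Tm) (X : Cf N L), Real.exp (-c) ≤ wt k β τ X) (X : Cf N L) :
    ∏ x ∈ fdm A B, ∏ i : Fin 4, Real.exp (-c) ≤ wfd k β A B X := by
  unfold wfd
  refine Finset.prod_le_prod (fun x _ => Finset.prod_nonneg fun i _ => (Real.exp_pos _).le)
    fun x _ => Finset.prod_le_prod (fun i _ => (Real.exp_pos _).le) fun i _ => hw _ X

lemma wfd_meas (k : ℕ) (β : ℝ) : Measurable (wfd k β A B : Cf N L → ℝ) := by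
  unfold wfd
  exact Finset.measurable_prod _ fun x _ => Finset.measurable_prod _ fun i _ =>
    (wt_cont k β _).measurable

lemma fzF_pos (P Q : SU N) (F : Set Pl) (X : Cf N L) (l : Lk L) (h : ∀ a ∈ st l, a ∈ F) :
    fzF P Q F X l = vc P Q l := if_pos h

lemma fzF_neg (P Q : SU N) (F : Set Pl) (X : Cf N L) (l : Lk L) (h : ¬ ∀ a ∈ st l, a ∈ F) :
    fzF P Q F X l = X l := if_neg h

lemma TY_pos (k : ℕ) (β c : ℝ) (hβ : 0 ≤ β) (hN : 0 < N)
    (hw : ∀ (τ : Tm) (X : Cf N L), Real.exp (-c) ≤ wt k β τ X) (P Q : SU N) (F : Set Pl) :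
    0 < TY N L k β P Q F A B := by
  have h0 : 0 < ∏ x ∈ fdm A B, ∏ i : Fin 4, Real.exp (-c) :=
    Finset.prod_pos fun x _ => Finset.prod_pos fun i _ => Real.exp_pos _
  refine lt_of_lt_of_le h0 ?_
  have hme : Measurable fun X : TC N A B L => wfd k β A B (fzF P Q F (per X)) :=
    (wfd_meas k β).comp ((fzF_meas P Q F).comp per_meas)
  have hi : Integrable (fun X : TC N A B L => wfd k β A B (fzF P Q F (per X)))
      (Measure.infinitePi fun _ => hm N) := by
    refine PkgF.integrable_bdd hme ⟨1, fun X => ?_⟩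
    have h := wfd_bd (A := A) (B := B) k β hβ hN (fzF P Q F (per X))
    rw [abs_of_pos h.1]
    exact h.2
  unfold TY
  calc ∏ x ∈ fdm A B, ∏ i : Fin 4, Real.exp (-c) =
        ∫ _X : TC N A B L, (∏ x ∈ fdm A B, ∏ i : Fin 4, Real.exp (-c))
          ∂(Measure.infinitePi fun _ => hm N) := by
          rw [integral_const]; simp
    _ ≤ _ := integral_mono (integrable_const _) hi fun X => wfd_low k β c hw _

/-- extension of the values of the links in `J` -/
def xj (J : Finset (Lk L)) (η : Cf N L) (z : {l : Lk L // l ∈ J} → SU N) : Cf N L := fun l =>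
  if h : l ∈ J then z ⟨l, h⟩ else η l

lemma xj_meas (J : Finset (Lk L)) (η : Cf N L) : Measurable (xj J η) := by
  refine measurable_pi_lambda _ fun l => ?_
  unfold xj
  split_ifs
  · exact measurable_pi_apply _
  · exact measurable_const

lemma xj_eq (J : Finset (Lk L)) (η ξ : Cf N L) : xj J η (fun l => ξ l.1) = glue J ξ η := by
  funext l
  unfold xj glue
  split_ifs <;> rfl

lemma JT_int (hA : 8 ≤ A) (hB : 8 ≤ B) (G : Cf N L → ℝ) (hG : Measurable G) (F : Set Pl) (s : Pl)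
    (η : Cf N L) :
    ∫ Y : TC N A B L, G (glue (Js L F s) (per Y) η) ∂(Measure.infinitePi fun _ => hm N) =
      ∫ ξ, G (glue (Js L F s) ξ η) ∂(pm N L) := by
  have h1 := map_inj (hm N) (fun l : {l : Lk L // l ∈ Js L F s} => pj A B l.1)
    (fun l l' h => Subtype.ext (pj_close hA hB s l.1 l'.1 (lks_Js F s _ l.2) (lks_Js F s _ l'.2) h))
  have h2 := map_inj (hm N) (fun l : {l : Lk L // l ∈ Js L F s} => l.1)
    (fun l l' h => Subtype.ext h)
  have hG' : Measurable fun z => G (xj (Js L F s) η z) := hG.comp (xj_meas _ η)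
  have e1 : ∫ Y : TC N A B L, G (glue (Js L F s) (per Y) η) ∂(Measure.infinitePi fun _ => hm N) =
      ∫ z, G (xj (Js L F s) η z) ∂(Measure.infinitePi fun _ => hm N) := by
    rw [← h1, integral_map (measurable_pi_lambda _ fun i => measurable_pi_apply _).aemeasurable
      hG'.aestronglyMeasurable]
    refine integral_congr_ae (Filter.Eventually.of_forall fun Y => ?_)
    show G _ = G _
    rw [← xj_eq]
    rfl
  have e2 : ∫ ξ, G (glue (Js L F s) ξ η) ∂(pm N L) =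
      ∫ z, G (xj (Js L F s) η z) ∂(Measure.infinitePi fun _ => hm N) := by
    rw [← h2, integral_map (measurable_pi_lambda _ fun i => measurable_pi_apply _).aemeasurable
      hG'.aestronglyMeasurable]
    refine integral_congr_ae (Filter.Eventually.of_forall fun ξ => ?_)
    show G _ = G _
    rw [← xj_eq]
  rw [e1, e2]

lemma main_id (hF2 : S_F2) (hA : 8 ≤ A) (hB : 8 ≤ B) (k : ℕ) (β c : ℝ) (hβ : 0 ≤ β) (hN : 0 < N)
    (hc : 0 ≤ c) (hw : ∀ (τ : Tm) (X : Cf N L), Real.exp (-c) ≤ wt k β τ X) (P Q : SU N)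
    (F : Set Pl) (hF : pse A B F) (s : Pl) (hs : s ∉ F) :
    TY N L k β P Q (adp A B F s) A B = ∫ X : TC N A B L,
        kpf k β P Q F s (fzF P Q F (per X)) * wfd k β A B (fzF P Q F (per X))
          ∂(Measure.infinitePi fun _ => hm N) := by
  symm
  have hmeas : Measurable fun X : TC N A B L =>
      kpf k β P Q F s (fzF P Q F (per X)) * wfd k β A B (fzF P Q F (per X)) :=
    ((kpf_meas k β P Q F s).comp ((fzF_meas P Q F).comp per_meas)).mul
      ((wfd_meas k β).comp ((fzF_meas P Q F).comp per_meas))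
  have hb : ∃ K : ℝ, ∀ X : TC N A B L,
      |kpf k β P Q F s (fzF P Q F (per X)) * wfd k β A B (fzF P Q F (per X))| ≤ K := by
    refine ⟨Real.exp (16 * c), fun X => ?_⟩
    have e1 := kpf_bd k β c hβ hN hc hw P Q F s (fzF P Q F (per X))
    have e2 := wfd_bd (A := A) (B := B) k β hβ hN (fzF P Q F (per X))
    have e3 := (Real.exp_pos (-(16 * c))).le.trans e1.1
    rw [abs_of_nonneg (mul_nonneg e3 e2.1.le)]
    calc _ ≤ Real.exp (16 * c) * 1 := mul_le_mul e1.2 e2.2 e2.1.le (Real.exp_pos _).le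
      _ = _ := mul_one _
  rw [hF2 (TL A B L) (SU N) (hm N) (JT A B L F s) _ hmeas hb]
  unfold TY
  refine integral_congr_ae (Filter.Eventually.of_forall fun η => ?_)
  beta_reduce
  have hst : ∀ l : Lk L, (∀ a ∈ st l, a ∈ F ∪ {s}) → ¬ (∀ a ∈ st l, a ∈ F) → s ∈ st l := by
    intro l h1 h2
    push Not at h2
    obtain ⟨a, ha, haF⟩ := h2
    rcases h1 a ha with h3 | h3
    · exact absurd h3 haF
    · rw [Set.mem_singleton_iff] at h3
      exact h3 ▸ ha
  have hgl : ∀ (ξ : TC N A B L) (l : Lk L), lks s l → l ∉ Js L F s →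
      per (glue (JT A B L F s) ξ η) l = per η l := by
    intro ξ l h1 h2
    rw [per_apply, per_apply]
    unfold glue
    rw [if_neg (fun h => h2 ((JT_iff hA hB F s l h1).1 h))]
  have hK : ∀ ξ : TC N A B L, kpf k β P Q F s (fzF P Q F (per (glue (JT A B L F s) ξ η))) =
      kpf k β P Q F s (per η) := by
    intro ξ
    refine kpf_ext k β P Q F F s _ _ rfl fun l hl => ?_
    by_cases h1 : ∀ a ∈ st l, a ∈ F ∪ {s}
    · rw [fzF_pos P Q _ _ l h1, fzF_pos P Q _ _ l h1]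
    · rw [fzF_neg P Q _ _ l h1, fzF_neg P Q _ _ l h1,
        fzF_neg P Q _ _ l (fun h2 => h1 fun a ha => Or.inl (h2 a ha))]
      exact hgl ξ l hl (fun h2 => h1 ((mem_Js F s l).1 h2).2)
  have hW : ∀ ξ : TC N A B L, wfd k β A B (fzF P Q F (per (glue (JT A B L F s) ξ η))) =
      Dx k β (To A B s) (fzF P Q F (per η)) *
        Dx k β (tml {s}) (glue (Js L F s) (per ξ) (fzF P Q (F ∪ {s}) (per η))) := by
    intro ξ
    rw [wfd_split hA hB k β s _ (fzF_prd P Q F hF _ (per_prd _))]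
    refine congrArg₂ (fun a b : ℝ => a * b) ?_ ?_
    · refine PkgMA.Dx_loc k β _ _ _ fun τ hτ l hl => ?_
      refine fzF_congr P Q F F _ _ l (fun _ _ => Iff.rfl) ?_
      rw [per_apply, per_apply]
      unfold glue
      rw [if_neg (JT_not F s τ (mem_To s τ hτ) l hl)]
    · refine PkgMA.Dx_loc k β _ _ _ fun τ hτ l hl => ?_
      have hl' := lks_of s τ hτ l hl
      by_cases h1 : l ∈ Js L F s
      · have h2 := (mem_Js F s l).1 h1
        rw [fzF_neg P Q F _ l (fun h => hs (h s h2.1)), per_apply]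
        unfold glue
        rw [if_pos ((JT_iff hA hB F s l hl').2 h1), if_pos h1, per_apply]
      · have e1 : glue (Js L F s) (per ξ) (fzF P Q (F ∪ {s}) (per η)) l =
            fzF P Q (F ∪ {s}) (per η) l := by
          unfold glue
          rw [if_neg h1]
        rw [e1]
        by_cases h2 : ∀ a ∈ st l, a ∈ F
        · rw [fzF_pos P Q F _ l h2, fzF_pos P Q (F ∪ {s}) _ l (fun a ha => Or.inl (h2 a ha))]
        · have h3 : ¬ ∀ a ∈ st l, a ∈ F ∪ {s} := fun h3 =>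
            h1 ((mem_Js F s l).2 ⟨hst l h3 h2, h3⟩)
          rw [fzF_neg P Q F _ l h2, fzF_neg P Q _ _ l h3]
          exact hgl ξ l hl' h1
  have hR : wfd k β A B (fzF P Q (adp A B F s) (per η)) =
      Dx k β (To A B s) (fzF P Q F (per η)) *
        Dx k β (tml {s}) (fzF P Q (F ∪ {s}) (per η)) := by
    rw [wfd_split hA hB k β s _ (fzF_prd P Q _ (adp_prd F hF s) _ (per_prd _))]
    refine congrArg₂ (fun a b : ℝ => a * b) ?_ ?_
    · refine PkgMA.Dx_loc k β _ _ _ fun τ hτ l hl => ?_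
      exact fzF_congr P Q _ _ _ _ l (fun a ha => adp_far F s τ (mem_To s τ hτ) l hl a ha) rfl
    · refine PkgMA.Dx_loc k β _ _ _ fun τ hτ l hl => ?_
      exact fzF_congr P Q _ _ _ _ l
        (fun a ha => adp_near hA hB F s a (lks_of s τ hτ l hl a ha)) rfl
  simp only [hK, hW]
  rw [hR]
  have e1 : (fun ξ : TC N A B L => kpf k β P Q F s (per η) *
      (Dx k β (To A B s) (fzF P Q F (per η)) *
        Dx k β (tml {s}) (glue (Js L F s) (per ξ) (fzF P Q (F ∪ {s}) (per η))))) =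
      fun ξ => (kpf k β P Q F s (per η) * Dx k β (To A B s) (fzF P Q F (per η))) *
        Dx k β (tml {s}) (glue (Js L F s) (per ξ) (fzF P Q (F ∪ {s}) (per η))) := by
    funext ξ
    ring
  rw [e1, integral_const_mul, JT_int hA hB _ (PkgMA.Dx_meas k β _) F s, kpf_eq]
  have h4 := (Real.exp_pos _).trans_le
    (PkgMA.Ex_bd k β c hβ hN hc hw s (tml {s}) subset_rfl (Js L F s)
      (fzF P Q (F ∪ {s}) (per η))).1
  field_simp

end

end PkgUD

open PkgUD in
theorem pUD (hF2 : S_F2) (hG3 : S_G3) (_hVL : S_VL) : S_UD := by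
  intro N k L _ hN _ P Q _
  obtain ⟨C₀, hC₀, -, hen, hwt⟩ := hG3 N k L hN
  have hN0 : 0 < N := by omega
  have hN1 : (1 : ℝ) ≤ N := by exact_mod_cast (by omega : 1 ≤ N)
  have hlog : 0 ≤ Real.log N := Real.log_nonneg hN1
  refine ⟨16 * (C₀ + Real.log N) + 1, by nlinarith, fun β hβ1 F s hs => ?_⟩
  have hβ : 0 ≤ β := by linarith
  have hc : 0 ≤ (C₀ + Real.log N) * β := by positivity
  have hw : ∀ (τ : Tm) (X : Cf N L), Real.exp (-((C₀ + Real.log N) * β)) ≤ wt k β τ X := by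
    intro τ X
    refine le_trans ?_ (hwt β X τ hβ).1
    have e1 : Real.exp (-β * en k X τ) / N = Real.exp (-β * en k X τ - Real.log N) := by
      rw [Real.exp_sub, Real.exp_log (by linarith)]
    rw [e1]
    refine Real.exp_le_exp.2 ?_
    have e2 := mul_le_mul_of_nonneg_left (hen X τ) hβ
    nlinarith
  refine ⟨kpf_meas k β P Q F s, fun X => ?_, kpf_dep k β P Q F s,
    fun F' h => kpf_congr k β P Q F F' s h, fun A B _ _ hA hB hF => ⟨?_, ?_⟩⟩
  · have h := kpf_bd k β _ hβ hN0 hc hw P Q F s X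
    constructor
    · refine le_trans (Real.exp_le_exp.2 ?_) h.1
      nlinarith
    · refine le_trans h.2 (Real.exp_le_exp.2 ?_)
      nlinarith
  · exact TY_pos k β _ hβ hN0 hw P Q F
  · exact main_id hF2 hA hB k β _ hβ hN0 hc hw P Q F hF s hs

end T2H01.SE
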