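import Pool.Agent.T2H01.SE.Stm6

/-!
# Package UE : the cost of freezing a site is local
-/

set_option autoImplicit false
set_option linter.unusedSectionVars false

noncomputable section

open MeasureTheory Matrix
open scoped Matrix.Norms.Frobenius

namespace T2H01.SE.PkgUE

open T2H02.TT

lemma mem_Nb (r : ℕ) (a b : Pl) : b ∈ Nb r a ↔ (a.1 - r ≤ b.1 ∧ b.1 ≤ a.1 + r) ∧
    (a.2 - r ≤ b.2 ∧ b.2 ≤ a.2 + r) := by
  unfold Nb
  rw [Finset.mem_product, Finset.mem_Icc, Finset.mem_Icc]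

lemma card_Nb1 (a : Pl) : (Nb 1 a).card = 9 := by
  unfold Nb
  rw [Finset.card_product, Int.card_Icc, Int.card_Icc]
  have h1 : (a.1 + ((1 : ℕ) : ℤ) + 1 - (a.1 - ((1 : ℕ) : ℤ))).toNat = 3 := by
    have : a.1 + ((1 : ℕ) : ℤ) + 1 - (a.1 - ((1 : ℕ) : ℤ)) = 3 := by push_cast; ring
    rw [this]; rfl
  have h2 : (a.2 + ((1 : ℕ) : ℤ) + 1 - (a.2 - ((1 : ℕ) : ℤ))).toNat = 3 := by
    have : a.2 + ((1 : ℕ) : ℤ) + 1 - (a.2 - ((1 : ℕ) : ℤ)) = 3 := by push_cast; ring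
    rw [this]; rfl
  rw [h1, h2]

lemma meas_fz {N A B L : ℕ} [NeZero A] [NeZero B] [NeZero L] (P Q : SU N) (F : Set Pl) :
    Measurable fun X : TC N A B L => fzF P Q F (per X) := by
  rw [measurable_pi_iff]
  intro l
  unfold fzF per
  by_cases h : ∀ a ∈ st l, a ∈ F
  · simp only [if_pos h]
    exact measurable_const
  · simp only [if_neg h]
    exact measurable_pi_apply _

lemma meas_wfd {N L : ℕ} [NeZero L] (k : ℕ) (β : ℝ) (A B : ℕ) :
    Measurable (wfd k β A B : Cf N L → ℝ) := by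
  unfold wfd
  refine Finset.measurable_fun_prod _ fun x _ => Finset.measurable_fun_prod _ fun i _ => ?_
  exact (wt_cont k β (x, i)).measurable

lemma wfd_bd {N L : ℕ} [NeZero L] (k : ℕ) (β : ℝ) (hβ : 0 ≤ β) (hN : 2 ≤ N) (A B : ℕ)
    (X : Cf N L) : 0 ≤ wfd k β A B X ∧ wfd k β A B X ≤ 1 := by
  unfold wfd
  have h0 : ∀ x ∈ fdm A B, 0 ≤ ∏ i : Fin 4, wt k β (x, i) X := fun x _ =>
    Finset.prod_nonneg fun i _ => (wt_pos k β (x, i) X (by omega)).le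
  refine ⟨Finset.prod_nonneg h0, Finset.prod_le_one h0 fun x _ => ?_⟩
  exact Finset.prod_le_one (fun i _ => (wt_pos k β (x, i) X (by omega)).le)
    fun i _ => wt_le k β hβ (x, i) X (by omega)

/-- the kernel is nearly constant -/
lemma near_vc (h5 : S_F5) {N k L : ℕ} [NeZero L] (hN : 2 ≤ N) (P Q : SU N)
    {m κ β C : ℝ} (hβ : 0 ≤ β)
    (hPC : ∀ (Ω Δ A : Finset Pl) (n : ℕ), Δ ⊆ Ω → (∀ a ∈ A, ∀ b ∈ Nb n a, b ∈ Ω → b ∈ Δ) →
      ∀ f : Cf N L → ℝ, Measurable f → (∀ X, |f X| ≤ 1) →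
      Sys.dep {l | ∀ a ∈ st l, a ∈ Ω → a ∈ A} f →
      ∀ η η' : Cf N L, (∀ l, l ∉ Frl L Ω → η l = vc P Q l ∧ η' l = vc P Q l) →
        |(sysS N L k β hN hβ).ker (hm N) Δ f η - (sysS N L k β hN hβ).ker (hm N) Δ f η'| ≤
        6 * A.card * β ^ κ * Real.exp (-m * n))
    {F : Set Pl} {s : Pl} {r : ℕ} (hr : 2 ≤ r) (Δ Ω : Finset Pl)
    (hΔ : ∀ a, a ∈ Δ ↔ a ∈ Nb r s ∧ a ∉ F) (hΩ : ∀ a, a ∈ Ω ↔ a ∈ Nb (r + 1) s ∧ a ∉ F)
    (f : Cf N L → ℝ) (hf : Measurable f)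
    (hf1 : ∀ X, Real.exp (-C * β) ≤ f X ∧ f X ≤ Real.exp (C * β))
    (hfd : Sys.dep {l | ∀ b ∈ st l, b ∈ Nb 1 s} f) (Y : Cf N L) :
    |(sysS N L k β hN hβ).ker (hm N) Δ f (fzF P Q F Y) -
      (sysS N L k β hN hβ).ker (hm N) Δ f (vc P Q)| ≤
        Real.exp (C * β) * (54 * β ^ κ * Real.exp (-m * (r - 1 : ℕ))) := by
  classical
  obtain ⟨S, hS⟩ : ∃ S, S = sysS N L k β hN hβ := ⟨_, rfl⟩
  obtain ⟨η, hη⟩ : ∃ η : Cf N L, η = fun l => if l ∈ Frl L Ω then fzF P Q F Y l else vc P Q l :=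
    ⟨_, rfl⟩
  have hr1 : ((r + 1 : ℕ) : ℤ) = r + 1 := by push_cast; rfl
  have hr2 : ((r - 1 : ℕ) : ℤ) = r - 1 := by
    push_cast [Nat.cast_sub (by omega : 1 ≤ r)]; ring
  have h1 : (sysS N L k β hN hβ).ker (hm N) Δ f (fzF P Q F Y) =
      (sysS N L k β hN hβ).ker (hm N) Δ f η := by
    rw [← hS]
    refine (h5 _ _ _ S (hm N) Δ).2.2.2.2.2.2 _ f hfd _ _ fun l hl => ?_
    rw [hη]
    simp only
    by_cases hlΩ : l ∈ Frl L Ω
    · rw [if_pos hlΩ]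
    · rw [if_neg hlΩ]
      have hst : ∀ a ∈ st l, a ∈ Nb (r + 1) s := by
        intro a ha
        rcases hl.2 with h2 | ⟨τ, hτ, hlτ⟩
        · have h3 := h2 a ha
          rw [mem_Nb] at h3 ⊢
          rw [hr1]
          push_cast at h3
          omega
        · rw [hS] at hτ hlτ
          have hτ' : τ ∈ tml Δ := hτ
          have hlτ' : l ∈ (spt τ : Finset (Lk L)) := hlτ
          rw [mem_tml] at hτ'
          obtain ⟨c, hc, hcΔ⟩ := hτ'
          have hca := diam_cor τ a ((cor_iff (L := L) τ a).2 ⟨l, hlτ', ha⟩) c hc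
          have h3 := ((hΔ c).1 hcΔ).1
          rw [mem_Nb] at h3 ⊢
          rw [hr1]
          unfold near at hca
          rw [abs_le, abs_le] at hca
          omega
      unfold fzF
      rw [if_pos]
      intro a ha
      by_contra hna
      apply hlΩ
      rw [mem_Frl]
      exact ⟨a, ha, (hΩ a).2 ⟨hst a ha, hna⟩⟩
  rw [h1]
  have hE : 0 < Real.exp (C * β) := Real.exp_pos _
  obtain ⟨g, hg⟩ : ∃ g : Cf N L → ℝ, g = fun X => (Real.exp (C * β))⁻¹ * f X := ⟨_, rfl⟩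
  have hgm : Measurable g := by rw [hg]; exact measurable_const.mul hf
  have hg1 : ∀ X, |g X| ≤ 1 := by
    intro X
    rw [hg]
    simp only
    rw [abs_mul, abs_of_pos (inv_pos.2 hE), inv_mul_le_iff₀ hE, mul_one, abs_le]
    have := (hf1 X).1
    have h0 := Real.exp_pos (-C * β)
    exact ⟨by linarith, (hf1 X).2⟩
  have hsub : Δ ⊆ Ω := by
    intro a ha
    rw [hΔ, mem_Nb] at ha
    rw [hΩ, mem_Nb, hr1]
    refine ⟨?_, ha.2⟩
    have := ha.1
    omega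
  have hnb : ∀ a ∈ Nb 1 s, ∀ b ∈ Nb (r - 1) a, b ∈ Ω → b ∈ Δ := by
    intro a ha b hb hbΩ
    rw [hΔ]
    refine ⟨?_, ((hΩ b).1 hbΩ).2⟩
    rw [mem_Nb] at ha hb ⊢
    rw [hr2] at hb
    push_cast at ha
    omega
  have hgd : Sys.dep {l | ∀ b ∈ st l, b ∈ Ω → b ∈ Nb 1 s} g := by
    intro ω ω' h
    rw [hg]
    simp only
    rw [hfd ω ω' fun i hi => h i fun b hb _ => hi b hb]
  have h := hPC Ω Δ (Nb 1 s) (r - 1) hsub hnb g hgm hg1 hgd η (vc P Q) fun l hl => ⟨by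
    rw [hη]
    simp only
    rw [if_neg hl], rfl⟩
  rw [card_Nb1, ← hS] at h
  have hfg : f = fun X => Real.exp (C * β) * g X := by
    funext X
    rw [hg]
    simp only
    rw [mul_inv_cancel_left₀ hE.ne']
  have hlin : ∀ η, S.ker (hm N) Δ f η = Real.exp (C * β) * S.ker (hm N) Δ g η := by
    intro η
    conv_lhs => rw [hfg]
    exact ((h5 _ _ _ S (hm N) Δ).2.2.1 g g hgm ⟨1, hg1⟩ hgm ⟨1, hg1⟩ η).2.2 _
  rw [← hS, hlin, hlin, ← mul_sub, abs_mul, abs_of_pos hE]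
  refine mul_le_mul_of_nonneg_left (h.trans (le_of_eq ?_)) hE.le
  push_cast
  ring

/-- integration of the bounds -/
lemma integ {N A B L : ℕ} [NeZero A] [NeZero B] [NeZero L] (k : ℕ) (β : ℝ) (hβ : 0 ≤ β)
    (hN : 2 ≤ N) (P Q : SU N) (F : Set Pl) (g : Cf N L → ℝ) (hg : Measurable g) (K lo hi : ℝ)
    (hK : ∀ X, |g X| ≤ K) (hlo : ∀ X, lo ≤ g (fzF P Q F X)) (hhi : ∀ X, g (fzF P Q F X) ≤ hi) :
    lo * TY N L k β P Q F A B ≤ ∫ X : TC N A B L, g (fzF P Q F (per X)) *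
        wfd k β A B (fzF P Q F (per X)) ∂(Measure.infinitePi fun _ => hm N) ∧
    ∫ X : TC N A B L, g (fzF P Q F (per X)) *
        wfd k β A B (fzF P Q F (per X)) ∂(Measure.infinitePi fun _ => hm N) ≤
      hi * TY N L k β P Q F A B := by
  have hm1 : Measurable fun X : TC N A B L => wfd k β A B (fzF P Q F (per X)) :=
    (meas_wfd k β A B).comp (meas_fz P Q F)
  have hm2 : Measurable fun X : TC N A B L => g (fzF P Q F (per X)) := hg.comp (meas_fz P Q F)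
  have hi1 : Integrable (fun X : TC N A B L => wfd k β A B (fzF P Q F (per X)))
      (Measure.infinitePi fun _ => hm N) := by
    refine Integrable.of_bound hm1.aestronglyMeasurable 1 (Filter.Eventually.of_forall fun X => ?_)
    obtain ⟨h0, h1⟩ := wfd_bd k β hβ hN A B (fzF P Q F (per X) : Cf N L)
    rw [Real.norm_eq_abs, abs_of_nonneg h0]
    exact h1
  have hi2 : Integrable (fun X : TC N A B L => g (fzF P Q F (per X)) *
      wfd k β A B (fzF P Q F (per X))) (Measure.infinitePi fun _ => hm N) := by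
    refine Integrable.of_bound (hm2.mul hm1).aestronglyMeasurable K
      (Filter.Eventually.of_forall fun X => ?_)
    obtain ⟨h0, h1⟩ := wfd_bd k β hβ hN A B (fzF P Q F (per X) : Cf N L)
    rw [Real.norm_eq_abs, abs_mul, abs_of_nonneg h0]
    have h2 := hK (fzF P Q F (per X))
    calc |g (fzF P Q F (per X))| * wfd k β A B (fzF P Q F (per X)) ≤ K * 1 :=
          mul_le_mul h2 h1 h0 (le_trans (abs_nonneg _) h2)
      _ = K := mul_one K
  unfold TY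
  constructor
  · rw [← integral_const_mul]
    refine integral_mono (hi1.const_mul lo) hi2 fun X => ?_
    exact mul_le_mul_of_nonneg_right (hlo _) (wfd_bd k β hβ hN A B _).1
  · rw [← integral_const_mul]
    refine integral_mono hi2 (hi1.const_mul hi) fun X => ?_
    exact mul_le_mul_of_nonneg_right (hhi _) (wfd_bd k β hβ hN A B _).1

/-- the real analysis at the end -/
lemma fin_real {x x' z z' g0 e E u : ℝ} (hz : 0 < z) (hz' : 0 < z') (h1 : x ≤ (g0 + e) * z)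
    (h2 : (g0 - e) * z' ≤ x') (h3 : E * z' ≤ x') (hE : 0 < E) (he : 0 ≤ e)
    (hu : 2 * e ≤ E * u) : x * z' ≤ x' * z * Real.exp u := by
  have hu0 : 0 ≤ u := by
    by_contra hcon
    push Not at hcon
    nlinarith
  have hx' : 0 < x' := lt_of_lt_of_le (mul_pos hE hz') h3
  have h4 : (g0 + e) * z' ≤ x' * (1 + u) := by
    have h5 : 2 * e * z' ≤ x' * u := by
      calc 2 * e * z' ≤ E * u * z' := mul_le_mul_of_nonneg_right hu hz'.le
        _ = (E * z') * u := by ring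
        _ ≤ x' * u := mul_le_mul_of_nonneg_right h3 hu0
    nlinarith
  calc x * z' ≤ (g0 + e) * z * z' := mul_le_mul_of_nonneg_right h1 hz'.le
    _ = (g0 + e) * z' * z := by ring
    _ ≤ x' * (1 + u) * z := mul_le_mul_of_nonneg_right h4 hz.le
    _ = x' * z * (1 + u) := by ring
    _ ≤ x' * z * Real.exp u := by
        refine mul_le_mul_of_nonneg_left ?_ (mul_pos hx' hz).le
        have := Real.add_one_le_exp u
        linarith

end T2H01.SE.PkgUE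

namespace T2H01.SE

open T2H02.TT PkgUE

theorem pUE (h5 : S_F5) (hUC : S_UC) (hUD : S_UD) (hPC : S_PC) : S_UE := by
  intro N k L _ hN hk P Q hPQ
  obtain ⟨C, hC, hD⟩ := hUD N k L hN hk P Q hPQ
  obtain ⟨m, κ, β₀, hmp, hκ, hβ₀, hP⟩ := hPC N k L hN hk P Q hPQ
  refine ⟨m, 108 + κ + 2 * C + m, β₀, hmp, by linarith, hβ₀.le, ?_⟩
  intro β hβ A B A' B' _ _ _ _ r hr hA hB hA' hB' F F' s hF hF' hs hFF
  classical
  have hβ1 : 1 ≤ β := by linarith
  have hβ0 : 0 ≤ β := by linarith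
  have hr1 : ((r + 1 : ℕ) : ℤ) = r + 1 := by push_cast; rfl
  have hs' : s ∉ F' := by
    rw [← hFF s (by rw [mem_Nb]; omega)]
    exact hs
  have hP' := hP β hβ0 hβ
  obtain ⟨d1, d2, d3, d4, d5⟩ := hD β hβ1 F s hs
  obtain ⟨-, -, -, -, d5'⟩ := hD β hβ1 F' s hs'
  have hkk : (kpf k β P Q F s : Cf N L → ℝ) = kpf k β P Q F' s := d4 F' fun a ha => by
    apply hFF
    rw [mem_Nb] at ha ⊢
    rw [hr1]
    push_cast at ha
    omega
  rw [← hkk] at d5'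
  obtain ⟨z0, zx⟩ := d5 A B (by omega) (by omega) hF
  obtain ⟨z0', zx'⟩ := d5' A' B' (by omega) (by omega) hF'
  obtain ⟨f, hf⟩ : ∃ f : Cf N L → ℝ, f = kpf k β P Q F s := ⟨_, rfl⟩
  rw [← hf] at d1 d2 d3 zx zx'
  obtain ⟨Δ, hΔd⟩ : ∃ Δ : Finset Pl, Δ = (Nb r s).filter fun a => a ∉ F := ⟨_, rfl⟩
  obtain ⟨Ω, hΩd⟩ : ∃ Ω : Finset Pl, Ω = (Nb (r + 1) s).filter fun a => a ∉ F := ⟨_, rfl⟩
  have hΔ : ∀ a, a ∈ Δ ↔ a ∈ Nb r s ∧ a ∉ F := fun a => by rw [hΔd, Finset.mem_filter]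
  have hΩ : ∀ a, a ∈ Ω ↔ a ∈ Nb (r + 1) s ∧ a ∉ F := fun a => by rw [hΩd, Finset.mem_filter]
  have hsubNb : ∀ a ∈ Nb r s, a ∈ Nb (r + 1) s := by
    intro a ha
    rw [mem_Nb] at ha ⊢
    rw [hr1]
    omega
  have hΔ' : ∀ a, a ∈ Δ ↔ a ∈ Nb r s ∧ a ∉ F' := fun a => by
    rw [hΔ]
    refine and_congr_right fun ha => ?_
    rw [hFF a (hsubNb a ha)]
  have hΩ' : ∀ a, a ∈ Ω ↔ a ∈ Nb (r + 1) s ∧ a ∉ F' := fun a => by
    rw [hΩ]
    refine and_congr_right fun ha => ?_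
    rw [hFF a ha]
  have hfK : ∀ X, |f X| ≤ Real.exp (C * β) := fun X => by
    rw [abs_le]
    have := (d2 X).1
    have h0 := Real.exp_pos (-C * β)
    have h1 := Real.exp_pos (C * β)
    exact ⟨by linarith, (d2 X).2⟩
  have hdep : Sys.dep {l | ∀ a ∈ st l, a ∈ Nb (r + 1) s} f := by
    intro ω ω' h
    refine d3 ω ω' fun l hl => h l fun a ha => ?_
    have := hl a ha
    rw [mem_Nb] at this ⊢
    rw [hr1]
    push_cast at this
    omega
  have u1 := hUC N k L hN P Q β hβ0 A B F hF s r hA hB Δ (fun a ha => (hΔ a).1 ha) f d1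
    ⟨_, hfK⟩ hdep
  have u2 := hUC N k L hN P Q β hβ0 A' B' F' hF' s r hA' hB' Δ (fun a ha => (hΔ' a).1 ha) f d1
    ⟨_, hfK⟩ hdep
  rw [u1] at zx
  rw [u2] at zx'
  obtain ⟨g, hg⟩ : ∃ g : Cf N L → ℝ, g = (sysS N L k β hN hβ0).ker (hm N) Δ f := ⟨_, rfl⟩
  obtain ⟨e, he⟩ : ∃ e : ℝ, e = Real.exp (C * β) * (54 * β ^ κ * Real.exp (-m * (r - 1 : ℕ))) :=
    ⟨_, rfl⟩
  have n1 := fun Y => near_vc h5 hN P Q hβ0 hP' hr Δ Ω hΔ hΩ f d1 d2 d3 Y
  have n2 := fun Y => near_vc h5 hN P Q hβ0 hP' hr Δ Ω hΔ' hΩ' f d1 d2 d3 Y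
  rw [← hg] at zx zx'
  simp only [← hg, ← he] at n1 n2
  have hgm : Measurable g := by
    rw [hg]
    exact (h5 _ _ _ (sysS N L k β hN hβ0) (hm N) Δ).2.2.2.1 f d1 ⟨_, hfK⟩
  have hgK : ∀ X, |g X| ≤ Real.exp (C * β) := by
    rw [hg]
    exact (h5 _ _ _ (sysS N L k β hN hβ0) (hm N) Δ).2.2.2.2.1 _ f d1 hfK
  have hglo : ∀ X, Real.exp (-C * β) ≤ g X := by
    intro X
    rw [hg, ← (h5 _ _ _ (sysS N L k β hN hβ0) (hm N) Δ).2.1 (Real.exp (-C * β)) X]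
    exact ((h5 _ _ _ (sysS N L k β hN hβ0) (hm N) Δ).2.2.1 _ _ measurable_const
      ⟨_, fun _ => le_rfl⟩ d1 ⟨_, hfK⟩ X).1 fun ξ => (d2 _).1
  have i1 := (integ (A := A) (B := B) k β hβ0 hN P Q F g hgm _ (g (vc P Q) - e) (g (vc P Q) + e)
    hgK (fun X => by have := (abs_le.1 (n1 X)).1; linarith)
    (fun X => by have := (abs_le.1 (n1 X)).2; linarith)).2
  have i2 := (integ (A := A') (B := B') k β hβ0 hN P Q F' g hgm _ (g (vc P Q) - e)
    (g (vc P Q) + e) hgK (fun X => by have := (abs_le.1 (n2 X)).1; linarith)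
    (fun X => by have := (abs_le.1 (n2 X)).2; linarith)).1
  have i3 := (integ (A := A') (B := B') k β hβ0 hN P Q F' g hgm _ (Real.exp (-C * β))
    (Real.exp (C * β)) hgK (fun X => hglo _) (fun X => (le_abs_self _).trans (hgK _))).1
  rw [← zx] at i1
  rw [← zx'] at i2 i3
  have he0 : 0 ≤ e := by rw [he]; positivity
  refine fin_real z0 z0' i1 i2 i3 (Real.exp_pos _) he0 ?_
  -- the numbers
  have hb0 : 0 < β := by linarith
  have e108 : (108 : ℝ) ≤ Real.exp (108 * β) := by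
    have := Real.add_one_le_exp (108 * β)
    nlinarith
  have ek : β ^ κ ≤ Real.exp (κ * β) := by
    rw [Real.rpow_def_of_pos hb0]
    refine Real.exp_le_exp.2 ?_
    have := Real.log_le_sub_one_of_pos hb0
    nlinarith
  have eq1 : ((r - 1 : ℕ) : ℝ) = (r : ℝ) - 1 := by
    push_cast [Nat.cast_sub (by omega : 1 ≤ r)]; ring
  rw [he, eq1]
  calc 2 * (Real.exp (C * β) * (54 * β ^ κ * Real.exp (-m * ((r : ℝ) - 1))))
      = Real.exp (C * β) * (108 * β ^ κ * Real.exp (-m * ((r : ℝ) - 1))) := by ring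
    _ ≤ Real.exp (C * β) * (Real.exp (108 * β) * Real.exp (κ * β) *
          Real.exp (-m * ((r : ℝ) - 1))) := by gcongr
    _ = Real.exp (C * β + (108 * β + κ * β + -m * ((r : ℝ) - 1))) := by
        rw [Real.exp_add, Real.exp_add, Real.exp_add]
    _ ≤ Real.exp (-C * β + ((108 + κ + 2 * C + m) * β - m * r)) := by
        refine Real.exp_le_exp.2 ?_
        nlinarith
    _ = Real.exp (-C * β) * Real.exp ((108 + κ + 2 * C + m) * β - m * r) := Real.exp_add _ _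

end T2H01.SE
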