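import Pool.Agent.T2H01.SE.Stm6
import Pool.Agent.T2H01.SE.TB

/-!
# Package UF: two frozen columns decouple
-/

set_option autoImplicit false
set_option linter.unusedSectionVars false

noncomputable section

open MeasureTheory Matrix
open scoped Matrix.Norms.Frobenius

namespace T2H01.SE

open T2H02.TT

namespace PkgUF

lemma prod_val {M : Type*} [CommMonoid M] (n : ℕ) [NeZero n] (H : ℕ → M) :
    ∏ t : ZMod n, H t.val = ∏ i ∈ Finset.range n, H i := by
  refine Finset.prod_nbij' (fun t => t.val) (fun i => (i : ZMod n)) (fun t _ => ?_)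
    (fun i _ => Finset.mem_univ _) (fun t _ => ?_) (fun i hi => ?_) (fun t _ => rfl)
  · exact Finset.mem_range.2 (ZMod.val_lt t)
  · exact ZMod.natCast_zmod_val t
  · exact ZMod.val_natCast_of_lt (Finset.mem_range.1 hi)

lemma prod_two {M : Type*} [CommMonoid M] (a : ℕ) [NeZero a] [NeZero (2 * a)]
    (G : ZMod (2 * a) → M) :
    ∏ u : ZMod (2 * a), G u = (∏ t : ZMod a, G ((t.val : ℕ) : ZMod (2 * a))) *
      ∏ t : ZMod a, G ((t.val + a : ℕ) : ZMod (2 * a)) := by
  have h1 : ∏ u : ZMod (2 * a), G u = ∏ u : ZMod (2 * a), G ((u.val : ℕ) : ZMod (2 * a)) :=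
    Finset.prod_congr rfl fun u _ => by rw [ZMod.natCast_zmod_val]
  rw [h1, prod_val (2 * a) (fun i => G ((i : ℕ) : ZMod (2 * a))),
    prod_val a (fun i => G ((i : ℕ) : ZMod (2 * a))),
    prod_val a (fun i => G ((i + a : ℕ) : ZMod (2 * a)))]
  have h2 := Finset.prod_range_add (fun i : ℕ => G ((i : ℕ) : ZMod (2 * a))) a a
  rw [← two_mul] at h2
  rw [h2]
  congr 1
  exact Finset.prod_congr rfl fun i _ => by rw [add_comm]

section

variable {N a b L : ℕ} [NeZero a] [NeZero b] [NeZero L] [NeZero (2 * a)]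

/-- two tori side by side -/
def Psi (Z : TC N a b L × TC N a b L) : TC N (2 * a) b L := fun l =>
  if l.1.1.1.val < a then Z.1 ((((l.1.1.1.val : ZMod a), l.1.1.2), l.1.2), l.2)
  else Z.2 ((((l.1.1.1.val : ZMod a), l.1.1.2), l.1.2), l.2)

lemma Psi_meas : Measurable (Psi : _ → TC N (2 * a) b L) := by
  rw [measurable_pi_iff]
  intro l
  unfold Psi
  split_ifs
  · exact (measurable_pi_apply _).comp measurable_fst
  · exact (measurable_pi_apply _).comp measurable_snd

lemma val1 (t : ZMod a) : (((t.val : ℕ) : ZMod (2 * a))).val = t.val :=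
  ZMod.val_natCast_of_lt (by have := ZMod.val_lt t; omega)

lemma val2 (t : ZMod a) : (((t.val + a : ℕ) : ZMod (2 * a))).val = t.val + a :=
  ZMod.val_natCast_of_lt (by have := ZMod.val_lt t; omega)

lemma map_Psi : ((Measure.infinitePi fun _ : TL a b L => hm N).prod
    (Measure.infinitePi fun _ : TL a b L => hm N)).map Psi =
      Measure.infinitePi fun _ : TL (2 * a) b L => hm N := by
  rw [Measure.infinitePi_eq_pi, Measure.infinitePi_eq_pi]
  symm
  apply Measure.pi_eq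
  intro s hs
  rw [Measure.map_apply Psi_meas (MeasurableSet.univ_pi hs)]
  have h1 : (Psi : _ → TC N (2 * a) b L) ⁻¹' (Set.pi Set.univ s) =
      (Set.pi Set.univ fun l : TL a b L =>
        s (((((l.1.1.1.val : ℕ) : ZMod (2 * a)), l.1.1.2), l.1.2), l.2)) ×ˢ
      (Set.pi Set.univ fun l : TL a b L =>
        s (((((l.1.1.1.val + a : ℕ) : ZMod (2 * a)), l.1.1.2), l.1.2), l.2)) := by
    ext Z
    simp only [Set.mem_preimage, Set.mem_pi, Set.mem_univ, true_implies, Set.mem_prod]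
    constructor
    · intro h
      constructor
      · rintro ⟨⟨⟨t, b'⟩, y⟩, m⟩
        have h2 := h (((((t.val : ℕ) : ZMod (2 * a)), b'), y), m)
        unfold Psi at h2
        simp only [val1] at h2
        rw [if_pos (ZMod.val_lt t), ZMod.natCast_zmod_val] at h2
        exact h2
      · rintro ⟨⟨⟨t, b'⟩, y⟩, m⟩
        have h2 := h (((((t.val + a : ℕ) : ZMod (2 * a)), b'), y), m)
        unfold Psi at h2
        simp only [val2] at h2
        have e : ((t.val + a : ℕ) : ZMod a) = t := by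
          rw [Nat.cast_add, ZMod.natCast_self, add_zero, ZMod.natCast_zmod_val]
        rw [if_neg (by omega), e] at h2
        exact h2
    · rintro ⟨h1, h2⟩ ⟨⟨⟨u, b'⟩, y⟩, m⟩
      unfold Psi
      by_cases hu : u.val < a
      · simp only [if_pos hu]
        have h3 := h1 ((((u.val : ZMod a), b'), y), m)
        have e : (((((u.val : ℕ) : ZMod a)).val : ℕ) : ZMod (2 * a)) = u := by
          rw [ZMod.val_natCast_of_lt hu, ZMod.natCast_zmod_val]
        change Z.1 ((((u.val : ZMod a), b'), y), m) ∈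
          s (((((((((u.val : ℕ) : ZMod a)).val : ℕ) : ZMod (2 * a)), b'), y), m)) at h3
        rw [e] at h3
        exact h3
      · simp only [if_neg hu]
        have h3 := h2 ((((u.val : ZMod a), b'), y), m)
        have h4 : ((u.val : ℕ) : ZMod a) = ((u.val - a : ℕ) : ZMod a) := by
          conv_lhs => rw [show u.val = (u.val - a) + a by omega]
          rw [Nat.cast_add, ZMod.natCast_self, add_zero]
        have h5 : (u.val - a : ℕ) < a := by
          have := ZMod.val_lt u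
          omega
        have h6 : (((u.val : ℕ) : ZMod a)).val + a = u.val := by
          rw [h4, ZMod.val_natCast_of_lt h5]
          omega
        have e : ((((((u.val : ℕ) : ZMod a)).val + a : ℕ)) : ZMod (2 * a)) = u := by
          rw [h6, ZMod.natCast_zmod_val]
        change Z.2 ((((u.val : ZMod a), b'), y), m) ∈
          s ((((((((((u.val : ℕ) : ZMod a)).val + a : ℕ)) : ZMod (2 * a)), b'), y), m)) at h3
        rw [e] at h3
        exact h3
  rw [h1, Measure.prod_prod, Measure.pi_pi, Measure.pi_pi]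
  rw [Fintype.prod_prod_type, Fintype.prod_prod_type, Fintype.prod_prod_type,
    Fintype.prod_prod_type, Fintype.prod_prod_type, Fintype.prod_prod_type,
    Fintype.prod_prod_type, Fintype.prod_prod_type, Fintype.prod_prod_type]
  exact (prod_two a (fun u : ZMod (2 * a) => ∏ b' : ZMod b, ∏ y : Tor L, ∏ m : Fin 4,
    hm N (s (((u, b'), y), m)))).symm

/-! ### the weights -/

lemma wt_tr (k : ℕ) (β : ℝ) (v x : Pl) (i : Fin 4) (X : Cf N L) :
    wt k β (x + v, i) X = wt k β (x, i) (fun l => X (PkgSY.tr L v l)) := by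
  unfold wt
  by_cases h : i = 3
  · rw [if_pos h, if_pos h]
    simp only [PkgRT.eP_tr]
  · rw [if_neg h, if_neg h]
    have h1 := PkgRT.en1_tr k v X (x, i)
    have h2 : ∀ (z : Pl) (Y : Cf N L), en k Y (z, i) = en1 k Y (z, i) := by
      intro z Y
      unfold en en1
      by_cases h0 : i = 0
      · simp [h0]
      · by_cases h1 : i = 1
        · simp [h1]
        · by_cases h2 : i = 2
          · simp [h2]
          · exfalso
            omega
    rw [h2, h2, ← h1]
    rfl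

lemma spt_cases (p q : ℤ) (i : Fin 4) (l : Lk L) (h : l ∈ spt ((p, q), i)) :
    l.1.1.1 = p ∨ (l.1.1.1 = p + 1 ∧ l.2 ≠ 0) := by
  fin_cases i
  · rcases (mem_spt0 _ _).1 h with ⟨y, rfl | rfl⟩ <;> simp
  · rcases (mem_spt1 _ _).1 h with ⟨y, rfl | rfl | rfl | rfl | rfl⟩ <;> simp
  · rcases (mem_spt2 _ _).1 h with ⟨y, rfl | rfl | rfl | rfl | rfl⟩ <;> simp
  · rcases (mem_spt3 _ _).1 h with ⟨y, rfl | rfl | rfl | rfl⟩ <;> simp

/-- the frozen columns -/
abbrev Fc (a : ℕ) : Set Pl := {x | (a : ℤ) ∣ x.1}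

lemma st_fro (m : Fin 4) (hm : m ≠ 0) (x1 x2 : ℤ) (y : Tor L) (h : (a : ℤ) ∣ x1) :
    ∀ z ∈ st ((((x1, x2) : Pl), y), m), z ∈ Fc a := by
  intro z hz
  rw [mem_st] at hz
  have h1 : (pe m).1 = 0 := by
    unfold pe
    fin_cases m
    · exact absurd rfl hm
    · simp
    · simp
    · simp
  rcases hz with rfl | rfl
  · exact h
  · change (a : ℤ) ∣ x1 + (pe m).1
    rw [h1, add_zero]
    exact h

lemma half1 (P Q : SU N) (Z : TC N a b L × TC N a b L) (l : Lk L) (h0 : 0 ≤ l.1.1.1)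
    (h1 : l.1.1.1 ≤ a) (h2 : l.1.1.1 = a → l.2 ≠ 0) :
    fzF P Q (Fc a) (per (Psi Z)) l = fzF P Q (Fc a) (per Z.1) l := by
  obtain ⟨⟨⟨x1, x2⟩, y⟩, m⟩ := l
  simp only at h0 h1 h2
  unfold fzF
  by_cases hf : ∀ z ∈ st ((((x1, x2) : Pl), y), m), z ∈ Fc a
  · rw [if_pos hf, if_pos hf]
  · rw [if_neg hf, if_neg hf]
    have hx : x1 < a := by
      rcases lt_or_eq_of_le h1 with h | h
      · exact h
      · exact absurd (st_fro m (h2 h) x1 x2 y (by rw [h])) hf
    obtain ⟨n, rfl⟩ := Int.eq_ofNat_of_zero_le h0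
    have hn : n < a := by exact_mod_cast hx
    have e : (((n : ℕ) : ZMod (2 * a))).val = n := ZMod.val_natCast_of_lt (by omega)
    unfold per Psi
    simp only [Int.cast_natCast]
    rw [e, if_pos hn]

lemma half2 (P Q : SU N) (Z : TC N a b L × TC N a b L) (l : Lk L) (h0 : 0 ≤ l.1.1.1)
    (h1 : l.1.1.1 ≤ a) (h2 : l.1.1.1 = a → l.2 ≠ 0) :
    fzF P Q (Fc a) (per (Psi Z)) (PkgSY.tr L (a, 0) l) = fzF P Q (Fc a) (per Z.2) l := by
  obtain ⟨⟨⟨x1, x2⟩, y⟩, m⟩ := l
  simp only at h0 h1 h2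
  have htr : PkgSY.tr L (a, 0) ((((x1, x2) : Pl), y), m) = ((((x1 + a, x2) : Pl), y), m) := by
    simp only [PkgSY.tr, Equiv.coe_fn_mk, Prod.mk_add_mk, add_zero]
  have hc : (∀ z ∈ st ((((x1 + a, x2) : Pl), y), m), z ∈ Fc a) ↔
      ∀ z ∈ st ((((x1, x2) : Pl), y), m), z ∈ Fc a := by
    constructor
    · intro h z hz
      have h3 := h (z + ((a : ℤ), (0 : ℤ))) ?_
      · change (a : ℤ) ∣ z.1
        have h4 : (a : ℤ) ∣ z.1 + a := h3
        exact (dvd_add_left (dvd_refl _)).1 h4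
      · rw [mem_st] at hz ⊢
        rcases hz with rfl | rfl
        · left
          ext <;> simp
        · right
          ext
          · simp
            ring
          · simp
    · intro h z hz
      have h3 := h (z - ((a : ℤ), (0 : ℤ))) ?_
      · change (a : ℤ) ∣ z.1
        have h4 : (a : ℤ) ∣ z.1 - a := h3
        have h5 := dvd_add h4 (dvd_refl (a : ℤ))
        rwa [sub_add_cancel] at h5
      · rw [mem_st] at hz ⊢
        rcases hz with rfl | rfl
        · left
          ext <;> simp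
        · right
          ext
          · simp
            ring
          · simp
  rw [htr]
  unfold fzF
  by_cases hf : ∀ z ∈ st ((((x1, x2) : Pl), y), m), z ∈ Fc a
  · rw [if_pos (hc.2 hf), if_pos hf]
    rfl
  · rw [if_neg (fun h => hf (hc.1 h)), if_neg hf]
    have hx : x1 < a := by
      rcases lt_or_eq_of_le h1 with h | h
      · exact h
      · exact absurd (st_fro m (h2 h) x1 x2 y (by rw [h])) hf
    obtain ⟨n, rfl⟩ := Int.eq_ofNat_of_zero_le h0
    have hn : n < a := by exact_mod_cast hx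
    have e : (((n + a : ℕ) : ZMod (2 * a))).val = n + a := ZMod.val_natCast_of_lt (by omega)
    have e2 : (((n : ℕ) : ℤ) + (a : ℤ) : ℤ) = ((n + a : ℕ) : ℤ) := by push_cast; ring
    unfold per Psi
    simp only [e2, Int.cast_natCast]
    rw [e, if_neg (by omega), Nat.cast_add, ZMod.natCast_self, add_zero]

lemma wfd_half1 (k : ℕ) (β : ℝ) (P Q : SU N) (Z : TC N a b L × TC N a b L) (p q : ℤ)
    (h0 : 0 ≤ p) (h1 : p < a) (i : Fin 4) :
    wt k β ((p, q), i) (fzF P Q (Fc a) (per (Psi Z))) =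
      wt k β ((p, q), i) (fzF P Q (Fc a) (per Z.1)) := by
  refine wt_loc k β _ _ _ fun l hl => ?_
  rcases spt_cases p q i l hl with h | ⟨h, h'⟩
  · exact half1 P Q Z l (by omega) (by omega) (by omega)
  · exact half1 P Q Z l (by omega) (by omega) (fun _ => h')

lemma wfd_half2 (k : ℕ) (β : ℝ) (P Q : SU N) (Z : TC N a b L × TC N a b L) (p q : ℤ)
    (h0 : 0 ≤ p) (h1 : p < a) (i : Fin 4) :
    wt k β ((p + (a : ℤ), q), i) (fzF P Q (Fc a) (per (Psi Z))) =
      wt k β ((p, q), i) (fzF P Q (Fc a) (per Z.2)) := by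
  have h : ((p + (a : ℤ), q) : Pl) = (p, q) + ((a : ℤ), 0) := by ext <;> simp
  rw [h, wt_tr]
  refine wt_loc k β _ _ _ fun l hl => ?_
  rcases spt_cases p q i l hl with h | ⟨h, h'⟩
  · exact half2 P Q Z l (by omega) (by omega) (by omega)
  · exact half2 P Q Z l (by omega) (by omega) (fun _ => h')

lemma prod_half (n : ℕ) (f : ℤ → ℝ) : ∏ p ∈ Finset.Ico (0 : ℤ) ((2 * n : ℕ) : ℤ), f p =
    (∏ p ∈ Finset.Ico (0 : ℤ) (n : ℤ), f p) * ∏ p ∈ Finset.Ico (0 : ℤ) (n : ℤ), f (p + n) := by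
  have hu : Finset.Ico (0 : ℤ) ((2 * n : ℕ) : ℤ) =
      Finset.Ico 0 (n : ℤ) ∪ Finset.Ico (0 + (n : ℤ)) ((n : ℤ) + n) := by
    ext x
    rw [Finset.mem_union, Finset.mem_Ico, Finset.mem_Ico, Finset.mem_Ico]
    push_cast
    omega
  rw [hu, Finset.prod_union, Finset.prod_Ico_add' f 0 (n : ℤ) (n : ℤ)]
  rw [zero_add]
  exact Finset.Ico_disjoint_Ico_consecutive _ _ _

lemma wfd_Psi (k : ℕ) (β : ℝ) (P Q : SU N) (Z : TC N a b L × TC N a b L) :
    wfd k β (2 * a) b (fzF P Q (Fc a) (per (Psi Z))) =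
      wfd k β a b (fzF P Q (Fc a) (per Z.1)) * wfd k β a b (fzF P Q (Fc a) (per Z.2)) := by
  have e1 : wfd k β (2 * a) b (fzF P Q (Fc a) (per (Psi Z))) =
      ∏ p ∈ Finset.Ico (0 : ℤ) ((2 * a : ℕ) : ℤ), ∏ q ∈ Finset.Ico (0 : ℤ) (b : ℤ),
        ∏ i : Fin 4, wt k β ((p, q), i) (fzF P Q (Fc a) (per (Psi Z))) := by
    unfold wfd fdm
    rw [Finset.prod_product]
  have e2 : ∀ Y : Cf N L, wfd k β a b Y =
      ∏ p ∈ Finset.Ico (0 : ℤ) (a : ℤ), ∏ q ∈ Finset.Ico (0 : ℤ) (b : ℤ),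
        ∏ i : Fin 4, wt k β ((p, q), i) Y := by
    intro Y
    unfold wfd fdm
    rw [Finset.prod_product]
  rw [e1, e2, e2, prod_half]
  have f1 : ∀ p ∈ Finset.Ico (0 : ℤ) (a : ℤ), (∏ q ∈ Finset.Ico (0 : ℤ) (b : ℤ),
      ∏ i : Fin 4, wt k β ((p, q), i) (fzF P Q (Fc a) (per (Psi Z)))) =
      ∏ q ∈ Finset.Ico (0 : ℤ) (b : ℤ),
        ∏ i : Fin 4, wt k β ((p, q), i) (fzF P Q (Fc a) (per Z.1)) := by
    intro p hp
    rw [Finset.mem_Ico] at hp
    exact Finset.prod_congr rfl fun q _ => Finset.prod_congr rfl fun i _ =>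
      wfd_half1 k β P Q Z p q hp.1 hp.2 i
  have f2 : ∀ p ∈ Finset.Ico (0 : ℤ) (a : ℤ), (∏ q ∈ Finset.Ico (0 : ℤ) (b : ℤ),
      ∏ i : Fin 4, wt k β ((p + (a : ℤ), q), i) (fzF P Q (Fc a) (per (Psi Z)))) =
      ∏ q ∈ Finset.Ico (0 : ℤ) (b : ℤ),
        ∏ i : Fin 4, wt k β ((p, q), i) (fzF P Q (Fc a) (per Z.2)) := by
    intro p hp
    rw [Finset.mem_Ico] at hp
    exact Finset.prod_congr rfl fun q _ => Finset.prod_congr rfl fun i _ =>
      wfd_half2 k β P Q Z p q hp.1 hp.2 i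
  rw [Finset.prod_congr rfl f1, Finset.prod_congr rfl f2]

lemma wfd_meas (k : ℕ) (β : ℝ) (A B : ℕ) : Measurable (wfd k β A B : Cf N L → ℝ) := by
  unfold wfd
  exact Finset.measurable_prod _ fun x _ => Finset.measurable_prod _ fun i _ =>
    (wt_cont k β (x, i)).measurable

lemma fzF_meas (P Q : SU N) (F : Set Pl) : Measurable (fzF P Q F : Cf N L → Cf N L) := by
  rw [measurable_pi_iff]
  intro l
  unfold fzF
  split_ifs
  · exact measurable_const
  · exact measurable_pi_apply _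

end

end PkgUF

open PkgUF in
theorem pUF : S_UF := by
  intro N k L _ hN P Q β hβ a b _ _ _ ha hb
  have hme : Measurable fun X : TC N (2 * a) b L => wfd k β (2 * a) b (fzF P Q (Fc a) (per X)) :=
    (wfd_meas k β _ _).comp ((fzF_meas P Q _).comp PkgTB.per_meas)
  change ∫ X : TC N (2 * a) b L, wfd k β (2 * a) b (fzF P Q (Fc a) (per X))
      ∂(Measure.infinitePi fun _ => hm N) =
    (∫ X : TC N a b L, wfd k β a b (fzF P Q (Fc a) (per X)) ∂(Measure.infinitePi fun _ => hm N)) ^ 2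
  rw [← map_Psi, integral_map Psi_meas.aemeasurable hme.aestronglyMeasurable]
  simp only [wfd_Psi]
  rw [integral_prod_mul (fun X : TC N a b L => wfd k β a b (fzF P Q (Fc a) (per X)))
    (fun X : TC N a b L => wfd k β a b (fzF P Q (Fc a) (per X))), sq]

end T2H01.SE
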