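import Pool.Agent.T2H01.SE.Stm6

/-!
# Package UG : doubling the torus
-/

set_option autoImplicit false
set_option linter.unusedSectionVars false
set_option linter.unusedVariables false

noncomputable section

open MeasureTheory Matrix
open scoped Matrix.Norms.Frobenius

namespace T2H01.SE

open T2H02.TT

namespace PkgUG

/-- the part of the columns `≡ c mod A` below the height `t` (modulo `B`) -/
def line (A B : ℕ) (c t : ℤ) : Set Pl := {x | (A : ℤ) ∣ x.1 - c ∧ x.2 % (B : ℤ) < t}

lemma line_zero (A B : ℕ) (hB : 0 < B) (c : ℤ) : line A B c 0 = ∅ := by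
  ext x
  simp only [line, Set.mem_ofPred_eq, Set.mem_empty_iff_false, iff_false, not_and, not_lt]
  intro _
  exact Int.emod_nonneg _ (by omega)

lemma line_full (A B : ℕ) (hB : 0 < B) (c : ℤ) : line A B c B = {x : Pl | (A : ℤ) ∣ x.1 - c} := by
  ext x
  simp only [line, Set.mem_ofPred_eq, and_iff_left_iff_imp]
  intro _
  exact Int.emod_lt_of_pos _ (by omega)

lemma line_pse (A B : ℕ) (c t : ℤ) : pse A B (line A B c t) := by
  intro x i j
  simp only [line, Set.mem_ofPred_eq, Prod.fst_add, Prod.snd_add, Int.add_mul_emod_self_left]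
  have h : (A : ℤ) ∣ x.1 + (A : ℤ) * i - c ↔ (A : ℤ) ∣ x.1 - c := by
    have : x.1 + (A : ℤ) * i - c = (x.1 - c) + (A : ℤ) * i := by ring
    rw [this]
    exact dvd_add_left (dvd_mul_right _ _)
  rw [h]

lemma pse_union {A B : ℕ} {F G : Set Pl} (hF : pse A B F) (hG : pse A B G) : pse A B (F ∪ G) := by
  intro x i j
  rw [Set.mem_union, Set.mem_union, hF x i j, hG x i j]

lemma pse_empty (A B : ℕ) : pse A B ∅ := by
  intro x i j
  simp

lemma line_succ (A B : ℕ) (F : Set Pl) (c : ℤ) (t : ℕ) (ht : t < B) :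
    adp A B (F ∪ line A B c t) (c, (t : ℤ)) = F ∪ line A B c ((t + 1 : ℕ) : ℤ) := by
  ext x
  unfold adp
  rw [Set.mem_union, Set.mem_union, Set.mem_union, or_assoc]
  refine or_congr Iff.rfl ?_
  simp only [line, Set.mem_ofPred_eq]
  constructor
  · rintro (⟨h1, h2⟩ | ⟨i, j, h⟩)
    · exact ⟨h1, by push_cast; omega⟩
    · have e1 : x.1 = c + (A : ℤ) * i := by rw [h]; rfl
      have e2 : x.2 = (t : ℤ) + (B : ℤ) * j := by rw [h]; rfl
      refine ⟨⟨i, by rw [e1]; ring⟩, ?_⟩
      rw [e2, Int.add_mul_emod_self_left, Int.emod_eq_of_lt (by positivity) (by exact_mod_cast ht)]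
      push_cast
      omega
  · rintro ⟨h1, h2⟩
    by_cases h3 : x.2 % (B : ℤ) < t
    · exact Or.inl ⟨h1, h3⟩
    · right
      obtain ⟨i, hi⟩ := h1
      refine ⟨i, x.2 / B, ?_⟩
      have h4 : x.2 % (B : ℤ) = t := by push_cast at h2; omega
      have h5 := Int.emod_add_mul_ediv x.2 B
      rw [h4] at h5
      refine Prod.ext ?_ ?_
      · show x.1 = c + (A : ℤ) * i
        omega
      · show x.2 = (t : ℤ) + (B : ℤ) * (x.2 / B)
        exact h5.symm

lemma mem_Nb (r : ℕ) (s x : Pl) : x ∈ Nb r s ↔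
    (s.1 - r ≤ x.1 ∧ x.1 ≤ s.1 + r) ∧ s.2 - r ≤ x.2 ∧ x.2 ≤ s.2 + r := by
  unfold Nb
  rw [Finset.mem_product, Finset.mem_Icc, Finset.mem_Icc]

lemma dvd_small (A : ℕ) (x : ℤ) (h : |x| < A) : (A : ℤ) ∣ x ↔ x = 0 := by
  constructor
  · intro hd
    exact Int.eq_zero_of_abs_lt_dvd hd h
  · rintro rfl
    exact dvd_zero _

/-- the abstract chain of inequalities -/
lemma chain (u v : ℕ → ℝ) (E : ℝ) (n : ℕ) (hu : ∀ t ≤ n, 0 < u t) (hv : ∀ t ≤ n, 0 < v t)
    (hE : 0 < E) (h : ∀ t < n, u (t + 1) * v t ≤ v (t + 1) * u t * E) :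
    u n * v 0 ≤ v n * u 0 * E ^ n := by
  have key : ∀ t ≤ n, u t * v 0 ≤ v t * u 0 * E ^ t := by
    intro t
    induction t with
    | zero => intro _; rw [pow_zero, mul_one, mul_comm]
    | succ t ih =>
      intro ht
      have h1 := ih (by omega)
      have h2 := h t (by omega)
      have h3 := hv t (by omega)
      have h4 := hv (t + 1) ht
      have h5 := hv 0 (by omega)
      have h6 : (u (t + 1) * v 0) * v t ≤ (v (t + 1) * u 0 * E ^ (t + 1)) * v t := by
        calc (u (t + 1) * v 0) * v t = (u (t + 1) * v t) * v 0 := by ring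
          _ ≤ (v (t + 1) * u t * E) * v 0 := mul_le_mul_of_nonneg_right h2 h5.le
          _ = (v (t + 1) * E) * (u t * v 0) := by ring
          _ ≤ (v (t + 1) * E) * (v t * u 0 * E ^ t) :=
              mul_le_mul_of_nonneg_left h1 (mul_pos h4 hE).le
          _ = (v (t + 1) * u 0 * E ^ (t + 1)) * v t := by ring
      exact le_of_mul_le_mul_right h6 h3
  exact key n le_rfl

lemma comb {X Y d g e : ℝ} (hX : 0 < X) (hd : 0 < d) (he : 0 < e) (h1 : g * X ≤ d * Y * e)
    (h2 : d ^ 2 * X ≤ d * g * e) : X ^ 2 ≤ Y * (e * e) := by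
  have key : d ^ 2 * X ^ 2 ≤ d ^ 2 * (Y * (e * e)) := by
    calc d ^ 2 * X ^ 2 = (d ^ 2 * X) * X := by ring
      _ ≤ (d * g * e) * X := mul_le_mul_of_nonneg_right h2 hX.le
      _ = (d * e) * (g * X) := by ring
      _ ≤ (d * e) * (d * Y * e) := mul_le_mul_of_nonneg_left h1 (by positivity)
      _ = d ^ 2 * (Y * (e * e)) := by ring
  exact le_of_mul_le_mul_left key (by positivity)

lemma fin_exp (m C β : ℝ) (r M b : ℕ) (hm : 0 < m) (hβ1 : 1 ≤ β) (hr2 : M ≤ 2 * r + 7) :
    Real.exp (Real.exp (C * β - m * r)) ^ b * Real.exp (Real.exp (C * β - m * r)) ^ b ≤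
      Real.exp (b * Real.exp ((C + 1 + 4 * m) * β - m / 2 * (M : ℕ))) := by
  rw [← Real.exp_nat_mul, ← Real.exp_add]
  refine Real.exp_le_exp.2 ?_
  have h8 : 2 * Real.exp (C * β - m * r) ≤
      Real.exp ((C + 1 + 4 * m) * β - m / 2 * (M : ℕ)) := by
    have h9 : (2 : ℝ) ≤ Real.exp 1 := by
      have := Real.add_one_le_exp (1 : ℝ)
      linarith
    calc 2 * Real.exp (C * β - m * r) ≤ Real.exp 1 * Real.exp (C * β - m * r) :=
          mul_le_mul_of_nonneg_right h9 (Real.exp_pos _).le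
      _ = Real.exp (1 + (C * β - m * r)) := by rw [← Real.exp_add]
      _ ≤ _ := by
        refine Real.exp_le_exp.2 ?_
        have h10 : (M : ℝ) ≤ 2 * r + 7 := by exact_mod_cast hr2
        have h11 : m * (M : ℝ) ≤ m * (2 * r + 7) := mul_le_mul_of_nonneg_left h10 hm.le
        have h12 : m * 1 ≤ m * β := mul_le_mul_of_nonneg_left hβ1 hm.le
        nlinarith
  have h13 : (0 : ℝ) ≤ b := Nat.cast_nonneg b
  calc (b : ℝ) * Real.exp (C * β - m * r) + b * Real.exp (C * β - m * r) =
        b * (2 * Real.exp (C * β - m * r)) := by ring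
    _ ≤ _ := mul_le_mul_of_nonneg_left h8 h13

end PkgUG

open PkgUG in
theorem pUG (hUE : S_UE) (hUF : S_UF) (hUD : S_UD) : S_UG := by
  intro N k L _ hN hk P Q hPQ
  obtain ⟨m, C, β₀, hm, hC, hβ₀, h1⟩ := hUE N k L hN hk P Q hPQ
  obtain ⟨C', _, h2⟩ := hUD N k L hN hk P Q hPQ
  refine ⟨m / 2, C + 1 + 4 * m, β₀, by positivity, by linarith, hβ₀, ?_⟩
  intro β hβ a b _ _ _ ha hb
  have hβ1 : 1 ≤ β := le_trans hβ₀ hβ
  -- positivity
  have pos : ∀ (F : Set Pl) (A B : ℕ) [NeZero A] [NeZero B], ((1 : ℤ), (0 : ℤ)) ∉ F → 8 ≤ A →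
      8 ≤ B → pse A B F → 0 < TY N L k β P Q F A B := by
    intro F A B _ _ hF hA hB hp
    exact ((h2 β hβ1 F _ hF).2.2.2.2 A B hA hB hp).1
  set M : ℕ := min a b with hM
  have hMa : M ≤ a := min_le_left a b
  have hMb : M ≤ b := min_le_right a b
  have hM10 : 10 ≤ M := le_min ha hb
  obtain ⟨r, hr, hr1, hr2⟩ : ∃ r : ℕ, 2 ≤ r ∧ 2 * r + 4 ≤ M ∧ M ≤ 2 * r + 7 :=
    ⟨M / 2 - 3, by omega, by omega, by omega⟩
  set E : ℝ := Real.exp (Real.exp (C * β - m * r)) with hE
  have hE0 : 0 < E := Real.exp_pos _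
  have hra : (r : ℤ) + 1 < a := by omega
  -- the two stages
  have stage : ∀ (F₀ : Set Pl) (c : ℤ), pse (2 * a) b F₀ → ((1 : ℤ), (0 : ℤ)) ∉ F₀ →
      ¬ (a : ℤ) ∣ 1 - c → (∀ x : Pl, |x.1 - c| < a → x ∉ F₀) →
      TY N L k β P Q (F₀ ∪ line (2 * a) b c (b : ℤ)) (2 * a) b * TY N L k β P Q ∅ a b ≤
        TY N L k β P Q (line a b c (b : ℤ)) a b * TY N L k β P Q F₀ (2 * a) b * E ^ b := by
    intro F₀ c hp hF₀ hc hx
    have h2c : ¬ ((2 * a : ℕ) : ℤ) ∣ 1 - c := fun h => hc (dvd_trans ⟨2, by push_cast; ring⟩ h)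
    have hb0 : 0 < b := by omega
    have := chain (fun t => TY N L k β P Q (F₀ ∪ line (2 * a) b c (t : ℤ)) (2 * a) b)
      (fun t => TY N L k β P Q (∅ ∪ line a b c (t : ℤ)) a b) E b
      (fun t _ => pos _ _ _ (by
        rintro (h | h)
        · exact hF₀ h
        · exact h2c h.1) (by omega) (by omega) (pse_union hp (line_pse _ _ _ _)))
      (fun t _ => pos _ _ _ (by
        rintro (h | h)
        · exact h
        · exact hc h.1) (by omega) (by omega) (pse_union (pse_empty _ _) (line_pse _ _ _ _)))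
      hE0 (fun t ht => by
        have h3 := h1 β hβ (2 * a) b a b r hr (by omega) (by omega) (by omega) (by omega)
          (F₀ ∪ line (2 * a) b c (t : ℤ)) (∅ ∪ line a b c (t : ℤ)) (c, (t : ℤ))
          (pse_union hp (line_pse _ _ _ _)) (pse_union (pse_empty _ _) (line_pse _ _ _ _))
          (by
            rintro (h | h)
            · exact hx _ (by simp; omega) h
            · have h4 := h.2
              simp only at h4
              rw [Int.emod_eq_of_lt (by positivity) (by exact_mod_cast ht)] at h4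
              exact lt_irrefl _ h4)
          (by
            intro x hxN
            rw [mem_Nb] at hxN
            have h5 : |x.1 - c| < (a : ℤ) := by
              rw [abs_lt]
              obtain ⟨⟨g1, g2⟩, -⟩ := hxN
              simp only at g1 g2
              push_cast at g1 g2
              omega
            have h6 : |x.1 - c| < ((2 * a : ℕ) : ℤ) := by push_cast; omega
            rw [Set.mem_union, Set.mem_union]
            simp only [line, Set.mem_ofPred_eq, Set.mem_empty_iff_false, false_or]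
            rw [dvd_small _ _ h5, dvd_small _ _ h6]
            have h7 := hx x h5
            tauto)
        rw [line_succ _ _ _ _ _ ht, line_succ _ _ _ _ _ ht] at h3
        exact h3)
    simp only [Nat.cast_zero, line_zero _ _ hb0, Set.union_empty, Set.empty_union] at this
    exact this
  have hb0 : 0 < b := by omega
  have n1 : ¬ (a : ℤ) ∣ 1 := fun h => by
    have := Int.le_of_dvd one_pos h
    omega
  have n2 : ¬ ((2 * a : ℕ) : ℤ) ∣ 1 := fun h => by
    have := Int.le_of_dvd one_pos h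
    push_cast at this
    omega
  -- first stage
  have s1 := stage ∅ 0 (pse_empty _ _) (by simp) (by simpa using n1) (by simp)
  have s2 := stage (line (2 * a) b 0 (b : ℤ)) a (line_pse _ _ _ _)
    (fun h => n2 (by simpa using h.1)) (by
      intro h
      have : (a : ℤ) ∣ 1 := by
        have h3 := dvd_add h (dvd_refl (a : ℤ))
        simpa using h3
      exact n1 this) (by
      intro x hx h
      rw [abs_lt] at hx
      obtain ⟨i, hi⟩ := h.1
      push_cast at hi
      have h3 : 0 < 2 * (a : ℤ) * i := by linarith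
      have h4 : 2 * (a : ℤ) * i < 2 * a := by linarith
      have h5 : 0 < i := by
        by_contra hc
        push Not at hc
        nlinarith
      nlinarith)
  -- the sets
  have e1 : line a b 0 (b : ℤ) = {x : Pl | (a : ℤ) ∣ x.1} := by
    rw [line_full a b hb0]
    simp
  have e2 : line a b (a : ℤ) (b : ℤ) = {x : Pl | (a : ℤ) ∣ x.1} := by
    rw [line_full a b hb0]
    ext x
    simp
  have e3 : line (2 * a) b 0 (b : ℤ) ∪ line (2 * a) b (a : ℤ) (b : ℤ) =
      {x : Pl | (a : ℤ) ∣ x.1} := by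
    rw [line_full _ b hb0, line_full _ b hb0]
    ext x
    simp only [Set.mem_union, Set.mem_ofPred_eq, sub_zero]
    constructor
    · rintro (h | h)
      · exact dvd_trans ⟨2, by push_cast; ring⟩ h
      · have h3 : (a : ℤ) ∣ x.1 - a := dvd_trans ⟨2, by push_cast; ring⟩ h
        simpa using h3
    · rintro ⟨i, hi⟩
      rcases Int.even_or_odd' i with ⟨j, hj | hj⟩
      · left
        exact ⟨j, by rw [hi, hj]; push_cast; ring⟩
      · right
        exact ⟨j, by rw [hi, hj]; push_cast; ring⟩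
  rw [Set.empty_union, e1] at s1
  rw [e3, e2] at s2
  have hf := hUF N k L hN P Q β (by linarith) a b (by omega) (by omega)
  rw [hf] at s2
  have hX0 : 0 < TY N L k β P Q ∅ a b :=
    pos _ _ _ (by simp) (by omega) (by omega) (pse_empty _ _)
  have hd0 : 0 < TY N L k β P Q {x : Pl | (a : ℤ) ∣ x.1} a b := by
    refine pos _ _ _ n1 (by omega) (by omega) ?_
    rw [← e1]
    exact line_pse _ _ _ _
  have hY0 : 0 < TY N L k β P Q ∅ (2 * a) b :=
    pos _ _ _ (by simp) (by omega) (by omega) (pse_empty _ _)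
  have key := comb hX0 hd0 (pow_pos hE0 b) s1 s2
  exact key.trans (mul_le_mul_of_nonneg_left (fin_exp m C β r M b hm hβ1 hr2) hY0.le)

end T2H01.SE
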