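import Pool.Agent.T2H01.SE.Stm6
import Pool.Agent.T2H01.SE.TX

/-!
# Package UH : the lower bound in boxes for all charges
-/

set_option autoImplicit false

noncomputable section

open MeasureTheory Matrix
open scoped Matrix.Norms.Frobenius

namespace T2H01.SE

open T2H02.TT

open PkgTX in
/-- boxes with cold walls, lower bound for all charges -/
theorem pUH (hVP : S_VP) (hZT : S_ZT) (hRX : S_RX) (hRT : S_RT) (hMB : S_MB) (hRA : S_RA)
    (hMA : S_MA) (hSP : S_SP) : S_UH := by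
  intro N k L _ hN hk P Q hPQ ρ hρ
  have hS : 0 < SS L k P Q := (hSP N k L hN hk P Q hPQ).1
  set S := SS L k P Q with hSdef
  set r : ℝ := min ρ S with hrdef
  have hr : 0 < r := lt_min hρ hS
  have hrρ : r ≤ ρ := min_le_left _ _
  have hrS : r ≤ S := min_le_right _ _
  obtain ⟨β1, hβ1, hV⟩ := hVP N k L hN hk P Q hPQ (r / 2) (by positivity)
  obtain ⟨m, C, β2, hm, hC, hβ2, hB⟩ := hMB N k L hN hk P Q hPQ
  obtain ⟨C', hC', hA⟩ := hMA N k L hN hk P Q hPQ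
  set K₁ : ℝ := (C + S + 1) / (4 * m) with hK1
  have hK1pos : 0 < K₁ := by positivity
  set G : ℝ := 4 * K₁ + 11 with hG
  have hG1 : 1 ≤ G := by rw [hG]; linarith
  refine ⟨max 1 K₁, max (max β1 β2) (576 * G ^ 2 / r ^ 3), le_max_left _ _,
    le_trans hβ1 ((le_max_left _ _).trans (le_max_left _ _)), ?_⟩
  intro β hβ c i j hi hj
  have hb1 : β1 ≤ β := ((le_max_left _ _).trans (le_max_left _ _)).trans hβ
  have hb2 : β2 ≤ β := ((le_max_right _ _).trans (le_max_left _ _)).trans hβ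
  have hb3 : 576 * G ^ 2 / r ^ 3 ≤ β := (le_max_right _ _).trans hβ
  have hβ1' : (1 : ℝ) ≤ β := hβ1.trans hb1
  have hβpos : 0 < β := by linarith
  have hβ0 : (0 : ℝ) ≤ β := hβpos.le
  have hNpos : (0 : ℝ) < N := by
    have : 0 < N := by omega
    exact_mod_cast this
  obtain ⟨kap, -, -, -, -, hkap⟩ := hA β hβ0 hβ1'
  have hZpos : ∀ (Λ : Finset Pl) (a : Pl), a ∈ Λ → 0 < ZZ k β (L := L) P Q Λ := fun Λ a ha =>
    (hkap Λ a ha).1
  obtain ⟨hZ1, hZ2, hZ3⟩ := hZT N k L hN β hβ0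
  have hRTc := fun (c : ℕ) (a b : Pl) => hRT N k L hN P Q β hβ0 c a b
  -- nonempty boxes
  have hmem : ∀ (a b : Pl), a.1 ≤ b.1 → a.2 ≤ b.2 → a ∈ rc a b := by
    intro a b h1 h2
    simp only [rc, Finset.mem_product, Finset.mem_Icc]
    omega
  have hZZn : ∀ (a b : Pl), a.1 ≤ b.1 → a.2 ≤ b.2 →
      ‖Zc k β 0 (rc a b) (vc P Q : Cf N L)‖ = ZZ k β (L := L) P Q (rc a b) := by
    intro a b h1 h2
    rw [hZ2 P Q (rc a b), Complex.norm_real, Real.norm_eq_abs,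
      abs_of_pos (hZpos _ a (hmem a b h1 h2))]
  -- constants
  set J : ℕ := ⌈K₁ * β⌉₊ with hJ
  have hJ1 : 1 ≤ J := by
    rw [hJ]
    exact Nat.one_le_ceil_iff.mpr (by positivity)
  have hJup : (J : ℝ) ≤ K₁ * β + 1 := (Nat.ceil_lt_add_one (by positivity)).le
  have hJlo : K₁ * β ≤ J := Nat.le_ceil _
  have hGJ : 4 * (J : ℝ) + 7 ≤ G * β := by
    rw [hG]
    nlinarith
  set b : ℝ := Real.exp (-β * (S - r / 2)) with hb
  have hbpos : 0 < b := Real.exp_pos _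
  set u : ℝ := 4 * Real.exp (C * β - m * (4 * J + 2)) with hu
  have hupos : 0 ≤ u := by positivity
  have hub : u ≤ 4 * b := by
    rw [hu, hb]
    have h1 : (C + S + 1) * β ≤ m * (4 * J + 2) := by
      have h2 : (C + S + 1) = 4 * m * K₁ := by
        rw [hK1]
        field_simp
      rw [h2]
      nlinarith [mul_le_mul_of_nonneg_left hJlo (by positivity : (0 : ℝ) ≤ 4 * m)]
    have h3 : C * β - m * (4 * J + 2) ≤ -β * (S - r / 2) := by
      nlinarith [mul_pos hβpos hr]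
    have := Real.exp_le_exp.mpr h3
    linarith
  have hbig := exp_big G r β hr hβpos hb3
  have hbexp : b * Real.exp (β * r / 2) = Real.exp (-β * (S - r)) := by
    rw [hb, ← Real.exp_add]
    congr 1
    ring
  have hble : b * Real.exp (β * r / 2) ≤ 1 := by
    rw [hbexp]
    apply Real.exp_le_one_iff.mpr
    nlinarith
  have hJ7sq : (4 * (J : ℝ) + 7) ^ 2 ≤ G ^ 2 * β ^ 2 := by
    have h0 : (0 : ℝ) ≤ 4 * (J : ℝ) + 7 := by positivity
    calc (4 * (J : ℝ) + 7) ^ 2 ≤ (G * β) ^ 2 := pow_le_pow_left₀ h0 hGJ 2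
      _ = _ := by ring
  have hsmall : 2 * (4 * (J : ℝ) + 7) ^ 2 * b ≤ 1 / 2 := by
    have h1 : (12 * G ^ 2 * β ^ 2) * b ≤ 1 :=
      (mul_le_mul_of_nonneg_right hbig hbpos.le).trans (by rw [mul_comm]; exact hble)
    have h2 : 2 * (4 * (J : ℝ) + 7) ^ 2 * b ≤ 2 * (G ^ 2 * β ^ 2) * b :=
      mul_le_mul_of_nonneg_right (by linarith) hbpos.le
    nlinarith
  -- the partition functions
  let x : ℕ → ℕ → ℝ := fun i j =>
    (N : ℝ) * ‖Zc k β c (rc 0 (4 * (i : ℤ) + 2, 4 * (j : ℤ) + 2)) (vc P Q : Cf N L)‖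
  let y : ℕ → ℕ → ℝ := fun i j =>
    (N : ℝ) * ZZ k β (L := L) P Q (rc 0 (4 * (i : ℤ) + 2, 4 * (j : ℤ) + 2))
  have hp1 : ∀ i : ℕ, (0 : ℤ) ≤ 4 * (i : ℤ) + 2 := fun i => by omega
  have hyn : ∀ i j, y i j =
      (N : ℝ) * ‖Zc k β 0 (rc 0 (4 * (i : ℤ) + 2, 4 * (j : ℤ) + 2)) (vc P Q : Cf N L)‖ := by
    intro i j
    show (N : ℝ) * _ = _
    rw [hZZn _ _ (hp1 i) (hp1 j)]
  have H1 : ∀ i j, 0 ≤ x i j ∧ 0 < y i j ∧ x i j ≤ y i j ∧ x i j = x j i ∧ y i j = y j i := by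
    intro i j
    refine ⟨by positivity, mul_pos hNpos (hZpos _ _ (hmem 0 _ (hp1 i) (hp1 j))), ?_, ?_, ?_⟩
    · rw [hyn]
      exact mul_le_mul_of_nonneg_left (hZ3 c _ _) hNpos.le
    · have := (hRTc c 0 (4 * (j : ℤ) + 2, 4 * (i : ℤ) + 2)).2
      show (N : ℝ) * _ = (N : ℝ) * _
      rw [← this]
      rfl
    · have := (hRTc 0 0 (4 * (j : ℤ) + 2, 4 * (i : ℤ) + 2)).2
      rw [hyn, hyn, ← this]
      rfl
  -- translations
  have tr : ∀ (c : ℕ) (p q : ℤ) (j : ℕ),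
      ‖Zc k β c (rc (-p, 0) (q, 4 * (j : ℤ) + 2)) (vc P Q : Cf N L)‖ =
        ‖Zc k β c (rc 0 (p + q, 4 * (j : ℤ) + 2)) (vc P Q : Cf N L)‖ := by
    intro c p q j
    have h := (hRTc c (-p, 0) (q, 4 * (j : ℤ) + 2)).1 (p, 0)
    rw [← h]
    have e1 : ((-p, 0) : Pl) + (p, 0) = 0 := by
      ext <;> simp
    have e2 : ((q, 4 * (j : ℤ) + 2) : Pl) + (p, 0) = (p + q, 4 * (j : ℤ) + 2) := by
      ext
      · simp [add_comm]
      · simp
    rw [e1, e2]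
  have H2 : ∀ i j, 1 ≤ i → x i j ^ 2 ≤ x (i - 1) j * x (i + 1) j := by
    intro i j hi
    have h := hRX N k L hN P Q β hβ0 c 0 (4 * (j : ℤ) + 2) (hp1 j) (2 * i - 1) (2 * i + 3)
    rw [tr, tr, tr] at h
    have e1 : ((2 * i - 1 : ℕ) : ℤ) + ((2 * i + 3 : ℕ) : ℤ) = 4 * (i : ℤ) + 2 := by omega
    have e2 : ((2 * i - 1 : ℕ) : ℤ) + ((2 * i - 1 : ℕ) : ℤ) = 4 * ((i - 1 : ℕ) : ℤ) + 2 := by omega
    have e3 : ((2 * i + 3 : ℕ) : ℤ) + ((2 * i + 3 : ℕ) : ℤ) = 4 * ((i + 1 : ℕ) : ℤ) + 2 := by omega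
    rw [e1, e2, e3] at h
    show ((N : ℝ) * _) ^ 2 ≤ ((N : ℝ) * _) * ((N : ℝ) * _)
    rw [mul_pow]
    calc _ ≤ (N : ℝ) ^ 2 * (_ * _) := mul_le_mul_of_nonneg_left h (by positivity)
      _ = _ := by ring
  have H3 : ∀ i i' j, J ≤ i → i ≤ i' →
      y (i' + 1) j * y i j ≤ y i' j * y (i + 1) j * Real.exp (u * (4 * j + 3)) := by
    intro i i' j hJi hii
    have h := hB β hb2 0 (4 * (j : ℤ) + 2) (4 * i + 2) (4 * i' + 2) (hp1 j) (by omega) (by omega)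
      (rc (1, 0) (4, 4 * (j : ℤ) + 2)) (by
        intro a ha
        simp only [rc, Finset.mem_product, Finset.mem_Icc] at ha
        exact ha.1.1)
    rw [rc_union, rc_union, rc_card] at h
    have zt : ∀ (p : ℕ) (q : ℤ), 0 ≤ q → ZZ k β (L := L) P Q (rc (-(p : ℤ), 0) (q, 4 * (j : ℤ) + 2)) =
        ‖Zc k β 0 (rc 0 ((p : ℤ) + q, 4 * (j : ℤ) + 2)) (vc P Q : Cf N L)‖ := by
      intro p q hq
      rw [← tr, hZZn]
      · show -(p : ℤ) ≤ q
        omega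
      · exact hp1 j
    rw [zt _ 4 (by norm_num), zt _ 4 (by norm_num), zt _ 0 le_rfl, zt _ 0 le_rfl] at h
    have e1 : ((4 * i' + 2 : ℕ) : ℤ) + 4 = 4 * ((i' + 1 : ℕ) : ℤ) + 2 := by push_cast; ring
    have e2 : ((4 * i + 2 : ℕ) : ℤ) + 4 = 4 * ((i + 1 : ℕ) : ℤ) + 2 := by push_cast; ring
    have e3 : ((4 * i' + 2 : ℕ) : ℤ) + 0 = 4 * (i' : ℤ) + 2 := by push_cast; ring
    have e4 : ((4 * i + 2 : ℕ) : ℤ) + 0 = 4 * (i : ℤ) + 2 := by push_cast; ring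
    rw [e1, e2, e3, e4] at h
    have hexp : Real.exp (((4 * (4 * j + 3) : ℕ) : ℝ) * Real.exp (C * β - m * ((4 * i + 2 : ℕ) : ℝ))) ≤
        Real.exp (u * (4 * j + 3)) := by
      apply Real.exp_le_exp.mpr
      have h1 : Real.exp (C * β - m * ((4 * i + 2 : ℕ) : ℝ)) ≤
          Real.exp (C * β - m * (4 * J + 2)) := by
        apply Real.exp_le_exp.mpr
        have : (J : ℝ) ≤ i := by exact_mod_cast hJi
        push_cast
        nlinarith
      have h2 : ((4 * (4 * j + 3) : ℕ) : ℝ) = 4 * (4 * (j : ℝ) + 3) := by push_cast; ring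
      rw [h2, hu]
      have h3 : (0 : ℝ) ≤ 4 * (4 * (j : ℝ) + 3) := by positivity
      calc _ ≤ 4 * (4 * (j : ℝ) + 3) * Real.exp (C * β - m * (4 * J + 2)) :=
            mul_le_mul_of_nonneg_left h1 h3
        _ = _ := by ring
    rw [hyn, hyn, hyn, hyn]
    set Z1 := ‖Zc k β 0 (rc 0 (4 * ((i' + 1 : ℕ) : ℤ) + 2, 4 * (j : ℤ) + 2)) (vc P Q : Cf N L)‖
    set Z2 := ‖Zc k β 0 (rc 0 (4 * (i : ℤ) + 2, 4 * (j : ℤ) + 2)) (vc P Q : Cf N L)‖
    set Z3 := ‖Zc k β 0 (rc 0 (4 * (i' : ℤ) + 2, 4 * (j : ℤ) + 2)) (vc P Q : Cf N L)‖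
    set Z4 := ‖Zc k β 0 (rc 0 (4 * ((i + 1 : ℕ) : ℤ) + 2, 4 * (j : ℤ) + 2)) (vc P Q : Cf N L)‖
    have hZ34 : 0 ≤ Z3 * Z4 := mul_nonneg (norm_nonneg _) (norm_nonneg _)
    have h' : Z1 * Z2 ≤ Z3 * Z4 * Real.exp (u * (4 * j + 3)) :=
      h.trans (mul_le_mul_of_nonneg_left hexp hZ34)
    calc (N : ℝ) * Z1 * (N * Z2) = (N : ℝ) ^ 2 * (Z1 * Z2) := by ring
      _ ≤ (N : ℝ) ^ 2 * (Z3 * Z4 * Real.exp (u * (4 * j + 3))) :=
        mul_le_mul_of_nonneg_left h' (by positivity)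
      _ = _ := by ring
  have H4 : ∀ i j, J ≤ i → J ≤ j → i ≤ J + 1 → j ≤ J + 1 →
      (1 - 2 * (4 * J + 7) ^ 2 * b) * y i j ≤ x i j := by
    intro i j _ _ hi hj
    have hv := hV β hb1 i j
    have e0 := hZ1 0 0 (4 * (i : ℤ) + 2, 4 * (j : ℤ) + 2) (hp1 i) (hp1 j) (vc P Q)
    have e1 := hZ1 c 0 (4 * (i : ℤ) + 2, 4 * (j : ℤ) + 2) (hp1 i) (hp1 j) (vc P Q)
    rw [hZ2 P Q] at e0
    simp only [zero_mul, om_zero', one_mul] at e0 e1
    set F : ℕ → ℝ := fun n => Zf k β (dl 0 (n : ℤ)) (rc 0 (4 * (i : ℤ) + 2, 4 * (j : ℤ) + 2))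
      (vc P Q : Cf N L) with hF
    have hF0 : ∀ n, 0 ≤ F n := fun n => Zf_nonneg _ _ _ _ _
    have hy : y i j = ∑ n ∈ Finset.range N, F n := by
      have : ((y i j : ℝ) : ℂ) = ((∑ n ∈ Finset.range N, F n : ℝ) : ℂ) := by
        show (((N : ℝ) * _ : ℝ) : ℂ) = _
        push_cast
        exact e0
      exact_mod_cast this
    have hsplit : ∑ n ∈ Finset.range N, F n = F 0 + ∑ n ∈ Finset.Ico 1 N, F n := by
      rw [Finset.range_eq_Ico, Finset.sum_eq_sum_Ico_succ_bot (by omega)]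
    have hx : F 0 - ∑ n ∈ Finset.Ico 1 N, F n ≤ x i j := by
      have h1 : x i j = ‖∑ n ∈ Finset.range N, om N (c * n) * (F n : ℂ)‖ := by
        show (N : ℝ) * _ = _
        rw [← e1, norm_mul, Complex.norm_natCast]
      rw [h1, Finset.range_eq_Ico, Finset.sum_eq_sum_Ico_succ_bot (by omega : 0 < N)]
      have h2 : ‖∑ n ∈ Finset.Ico (0 + 1) N, om N (c * n) * (F n : ℂ)‖ ≤ ∑ n ∈ Finset.Ico 1 N, F n := by
        refine (norm_sum_le _ _).trans (Finset.sum_le_sum fun n _ => ?_)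
        rw [norm_mul, om_norm', one_mul, Complex.norm_real, Real.norm_eq_abs, abs_of_nonneg (hF0 n)]
      have h3 : ‖om N (c * 0) * (F 0 : ℂ)‖ = F 0 := by
        rw [norm_mul, om_norm', one_mul, Complex.norm_real, Real.norm_eq_abs, abs_of_nonneg (hF0 0)]
      have h4 := norm_sub_norm_le (om N (c * 0) * (F 0 : ℂ)) (-∑ n ∈ Finset.Ico (0 + 1) N, om N (c * n) * (F n : ℂ))
      rw [norm_neg, sub_neg_eq_add, h3] at h4
      linarith
    have hvi : ∑ n ∈ Finset.Ico 1 N, F n ≤ (4 * (J : ℝ) + 7) ^ 2 * b * y i j := by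
      have hir : (4 * (i : ℝ) + 3) ≤ 4 * J + 7 := by
        have : (i : ℝ) ≤ J + 1 := by exact_mod_cast hi
        linarith
      have hjr : (4 * (j : ℝ) + 3) ≤ 4 * J + 7 := by
        have : (j : ℝ) ≤ J + 1 := by exact_mod_cast hj
        linarith
      have h1 : (4 * (i : ℝ) + 3) * (4 * j + 3) ≤ (4 * (J : ℝ) + 7) ^ 2 := by
        rw [sq]
        exact mul_le_mul hir hjr (by positivity) (by positivity)
      rw [hy]
      refine hv.trans ?_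
      have h2 : 0 ≤ ∑ n ∈ Finset.range N, F n := Finset.sum_nonneg fun n _ => hF0 n
      apply mul_le_mul_of_nonneg_right _ h2
      exact mul_le_mul_of_nonneg_right h1 hbpos.le
    have : F 0 - ∑ n ∈ Finset.Ico 1 N, F n = y i j - 2 * ∑ n ∈ Finset.Ico 1 N, F n := by
      rw [hy, hsplit]
      ring
    rw [this] at hx
    nlinarith
  have fin := hRA x y J b u hJ1 hbpos.le hupos H1 H2 H3 H4 hsmall i j
    (Nat.ceil_le.mpr (le_trans (mul_le_mul_of_nonneg_right (le_max_right _ _) hβ0) hi))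
    (Nat.ceil_le.mpr (le_trans (mul_le_mul_of_nonneg_right (le_max_right _ _) hβ0) hj))
  have hD : 4 * (4 * (J : ℝ) + 7) ^ 2 * b + 2 * u * (4 * J + 7) ≤ Real.exp (-β * (S - ρ)) := by
    have h1 : Real.exp (-β * (S - r)) ≤ Real.exp (-β * (S - ρ)) := by
      apply Real.exp_le_exp.mpr
      nlinarith
    refine le_trans ?_ h1
    rw [← hbexp]
    have hGb1 : 1 ≤ G * β := by nlinarith
    have h2 : 4 * (4 * (J : ℝ) + 7) ^ 2 * b ≤ 4 * (G ^ 2 * β ^ 2) * b :=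
      mul_le_mul_of_nonneg_right (by linarith) hbpos.le
    have h3 : 2 * u * (4 * J + 7) ≤ 8 * (G ^ 2 * β ^ 2) * b := by
      have h4 : 2 * u * (4 * J + 7) ≤ (8 * b) * (G * β) :=
        mul_le_mul (by linarith) hGJ (by positivity) (by positivity)
      have h5 : (8 * b) * (G * β) ≤ (8 * b) * (G ^ 2 * β ^ 2) := by
        apply mul_le_mul_of_nonneg_left _ (by positivity)
        nlinarith
      linarith
    have h6 : b * (12 * G ^ 2 * β ^ 2) ≤ b * Real.exp (β * r / 2) :=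
      mul_le_mul_of_nonneg_left hbig hbpos.le
    linarith
  have hc0 : (0 : ℝ) ≤ (4 * (i : ℝ) + 3) * (4 * j + 3) := by positivity
  have hfin2 : Real.exp (-(Real.exp (-β * (S - ρ)) * ((4 * i + 3) * (4 * j + 3)))) * y i j ≤ x i j := by
    refine le_trans (mul_le_mul_of_nonneg_right (Real.exp_le_exp.mpr ?_) (H1 i j).2.1.le) fin
    have := mul_le_mul_of_nonneg_right hD hc0
    linarith
  have hfin3 : (N : ℝ) * (Real.exp (-(Real.exp (-β * (S - ρ)) * ((4 * i + 3) * (4 * j + 3)))) *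
      ZZ k β (L := L) P Q (rc 0 (4 * (i : ℤ) + 2, 4 * (j : ℤ) + 2))) ≤
      (N : ℝ) * ‖Zc k β c (rc 0 (4 * (i : ℤ) + 2, 4 * (j : ℤ) + 2)) (vc P Q : Cf N L)‖ := by
    calc _ = Real.exp (-(Real.exp (-β * (S - ρ)) * ((4 * i + 3) * (4 * j + 3)))) * y i j := by
          show _ = _ * ((N : ℝ) * _)
          ring
      _ ≤ x i j := hfin2
  exact le_of_mul_le_mul_left hfin3 hNpos

end T2H01.SE
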