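import Pool.Agent.T2H01.SE.Stm6
import Pool.Agent.T2H01.SE.TG

/-!
# Package UI : lower bound of the charged torus
-/

set_option autoImplicit false
set_option linter.unusedSectionVars false

noncomputable section

open MeasureTheory Matrix
open scoped Matrix.Norms.Frobenius

namespace T2H01.SE

open T2H02.TT

theorem pUI (hTB : S_TB) (hTS : S_TS) (hTD : S_TD) (hTE : S_TE) (hZT : S_ZT) (hRT : S_RT) :
    S_UI := by
  intro N k L _ hN hk P Q hPQ β hβ η f J c hη hH hf a b _ _ ha hb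
  obtain ⟨C, hC, hTE'⟩ := hTE N k L hN hk P Q hPQ
  obtain ⟨hE1, -⟩ := hTE' β hβ
  have hβ0 : 0 ≤ β := by linarith
  have ha2 : 2 ≤ a := by
    have h1 : a ≠ 0 := NeZero.ne a
    obtain ⟨r, hr⟩ := ha
    omega
  have hb2 : 2 ≤ b := by
    have h1 : b ≠ 0 := NeZero.ne b
    obtain ⟨r, hr⟩ := hb
    omega
  obtain ⟨-, hZT2, -⟩ := hZT N k L hN β hβ0
  have hRT' := hRT N k L hN P Q β hβ0
  have hZnorm : ∀ U : Finset Pl, ‖Zc k β 0 U (vc P Q : Cf N L)‖ = ZZ k β (L := L) P Q U := by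
    intro U
    rw [hZT2 P Q U, Complex.norm_real, Real.norm_eq_abs, abs_of_nonneg (PkgTG.ZZ_nonneg k β hN P Q U)]
  obtain ⟨t, ht⟩ : ∃ t, t = ‖TZc N L k β P Q c false false a b‖ := ⟨_, rfl⟩
  have ht0 : 0 ≤ t := by rw [ht]; exact norm_nonneg _
  have h3 : ∀ n : ℕ, J + 1 ≤ n → Real.exp (-(((η + f) * (a * b)) * ((2 * n : ℕ) : ℝ) ^ 2) -
      (3 * η * (a + b) + C * β * (a + b) + 4 * |f| * (a + b)) * ((2 * n : ℕ) : ℝ) -
        (9 * η + 8 * C * β + 16 * |f|)) *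
      1 ^ ((2 * n) * (2 * n)) ≤ t ^ ((2 * n) * (2 * n)) := by
    intro n hn
    obtain ⟨i, hi⟩ : ∃ i : ℕ, i = 2 * n := ⟨_, rfl⟩
    rw [← hi, one_pow, mul_one]
    obtain ⟨a', ha'⟩ := ha
    obtain ⟨b', hb'⟩ := hb
    have : NeZero (a * i + 4) := ⟨by omega⟩
    have : NeZero (b * i + 4) := ⟨by omega⟩
    have hap : a * i = 4 * (a' * n) := by rw [ha', hi]; ring
    have hbp : b * i = 4 * (b' * n) := by rw [hb', hi]; ring
    have k1 := hTB N k L hN hk P Q hPQ β hβ0 c true (b * i + 4) a i 4 (by omega) ⟨a', ha'⟩ (by norm_num)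
    have k2 := hTS N k L hN P Q β hβ0 c false true a (b * i + 4)
    have k3 := hTB N k L hN hk P Q hPQ β hβ0 c false a b i 4 ha2 ⟨b', hb'⟩ (by norm_num)
    have k4 := hTS N k L hN P Q β hβ0 c false false b a
    have k5 : ‖TZc N L k β P Q c true true (a * i + 4) (b * i + 4)‖ ≤ t ^ (i * i) := by
      refine k1.trans ?_
      rw [k2, ht, ← k4, pow_mul]
      exact pow_le_pow_left₀ (norm_nonneg _) k3 i
    rw [hTD N k L hN hk P Q hPQ β hβ0 c (a * i + 4) (b * i + 4) (by omega) (by omega)] at k5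
    have e1 : rc (1, 1) (((a * i + 4 : ℕ) : ℤ) - 1, ((b * i + 4 : ℕ) : ℤ) - 1) =
        rc (0 + (1, 1)) ((4 * ((a' * n : ℕ) : ℤ) + 2, 4 * ((b' * n : ℕ) : ℤ) + 2) + (1, 1)) := by
      congr 1
      rw [Prod.mk_add_mk, Prod.mk.injEq, hap, hbp]
      push_cast
      constructor <;> ring
    rw [e1, (hRT' c 0 (4 * ((a' * n : ℕ) : ℤ) + 2, 4 * ((b' * n : ℕ) : ℤ) + 2)).1 (1, 1)] at k5
    have ha1 : 1 ≤ a' := by omega
    have hb1 : 1 ≤ b' := by omega
    have k6 := hH (a' * n) (b' * n) (by nlinarith) (by nlinarith)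
    have k7 := hE1 (a * i + 4) (b * i + 4) (by omega) (by omega)
    rw [hTD N k L hN hk P Q hPQ β hβ0 0 (a * i + 4) (b * i + 4) (by omega) (by omega), e1,
      (hRT' 0 0 (4 * ((a' * n : ℕ) : ℤ) + 2, 4 * ((b' * n : ℕ) : ℤ) + 2)).1 (1, 1), hZnorm] at k7
    have k8 := hf (a * i + 4) (b * i + 4) ⟨2 * (a' * n) + 2, by omega⟩ ⟨2 * (b' * n) + 2, by omega⟩
    have k9 := k8.trans k7
    refine le_trans ?_ (k6.trans k5)
    obtain ⟨W, hW⟩ : ∃ W, W = ZZ k β (L := L) P Q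
      (rc 0 (4 * ((a' * n : ℕ) : ℤ) + 2, 4 * ((b' * n : ℕ) : ℤ) + 2)) := ⟨_, rfl⟩
    rw [← hW] at k9 ⊢
    have haR : (4 : ℝ) * ((a' * n : ℕ) : ℝ) = a * i := by exact_mod_cast hap.symm
    have hbR : (4 : ℝ) * ((b' * n : ℕ) : ℝ) = b * i := by exact_mod_cast hbp.symm
    rw [haR, hbR]
    push_cast at k9
    -- lower bound of `W`
    have k10 : Real.exp (-(f * ((a * i + 4) * (b * i + 4))) - C * β * (a * i + 4 + (b * i + 4))) ≤ W := by
      rw [sub_eq_add_neg, Real.exp_add, Real.exp_neg (C * β * (a * i + 4 + (b * i + 4))),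
        ← div_eq_mul_inv, div_le_iff₀ (Real.exp_pos _), mul_comm W]
      exact k9
    have hab : (0 : ℝ) ≤ (a + b) * i := by positivity
    have k11 : Real.exp (-(((η + f) * (a * b)) * (i : ℝ) ^ 2) -
        (3 * η * (a + b) + C * β * (a + b) + 4 * |f| * (a + b)) * (i : ℝ) -
          (9 * η + 8 * C * β + 16 * |f|)) ≤
        Real.exp (-(η * ((a * i + 3) * (b * i + 3)))) *
          Real.exp (-(f * ((a * i + 4) * (b * i + 4))) - C * β * (a * i + 4 + (b * i + 4))) := by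
      rw [← Real.exp_add]
      apply Real.exp_le_exp.2
      have h1 : f * ((a + b) * i) ≤ |f| * ((a + b) * i) :=
        mul_le_mul_of_nonneg_right (le_abs_self f) hab
      have h2 := le_abs_self f
      have e : -(η * ((a * i + 3) * (b * i + 3))) +
          (-(f * ((a * i + 4) * (b * i + 4))) - C * β * (a * i + 4 + (b * i + 4))) =
        -(((η + f) * (a * b)) * (i : ℝ) ^ 2) - 3 * η * (a + b) * i - C * β * (a + b) * i -
          4 * (f * ((a + b) * i)) - 9 * η - 8 * C * β - 16 * f := by ring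
      rw [e]
      nlinarith
    refine k11.trans ?_
    exact mul_le_mul_of_nonneg_left k10 (Real.exp_pos _).le
  have h4 := PkgTG.limit t 1 _ _ _ _ one_pos ht0 (J + 1) (by positivity) (by positivity) rfl h3
  rw [mul_one] at h4
  rw [← ht]
  exact h4

end T2H01.SE
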