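import Pool.Agent.T2H01.SE.Stm6

/-!
# Package UJ (project SE): free energy of the torus, pure real analysis
-/

set_option autoImplicit false

noncomputable section

namespace T2H01.SE

namespace UJ

/-- a concave sequence is nonnegative between two places where it is nonnegative -/
theorem seq_mid (e : ℕ → ℝ) (hc : ∀ k, 1 ≤ k → e k + e (k + 2) ≤ 2 * e (k + 1)) (p q r : ℕ)
    (hp : 1 ≤ p) (hpq : p ≤ q) (hqr : q ≤ r) (h1 : 0 ≤ e p) (h2 : 0 ≤ e r) : 0 ≤ e q := by
  have hanti : ∀ k l, 1 ≤ k → k ≤ l → e (l + 1) - e l ≤ e (k + 1) - e k := by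
    intro k l hk hkl
    induction l, hkl using Nat.le_induction with
    | base => exact le_rfl
    | succ l hl ih =>
      have h3 := hc l (by omega)
      have h4 : e (l + 1 + 1) = e (l + 2) := rfl
      rw [h4]
      linarith
  by_cases hd : 0 ≤ e (q + 1) - e q
  · have h3 : ∀ k, p ≤ k → k ≤ q → e p ≤ e k := by
      intro k hk
      induction k, hk using Nat.le_induction with
      | base => exact fun _ => le_rfl
      | succ k hk ih =>
        intro hkq
        have h3 := ih (by omega)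
        have h4 := hanti k q (by omega) (by omega)
        linarith
    exact h1.trans (h3 q hpq le_rfl)
  · push Not at hd
    have h3 : ∀ k, q ≤ k → e k ≤ e q := by
      intro k hk
      induction k, hk using Nat.le_induction with
      | base => exact le_rfl
      | succ k hk ih =>
        have h4 := hanti q k (by omega) hk
        linarith
    exact h2.trans (h3 r hqr)

/-- monotonicity of `d k / k` for concave `d` with `d (n j) ≥ j d n` -/
theorem seq_mono (d : ℕ → ℝ) (hc : ∀ k, 1 ≤ k → d k + d (k + 2) ≤ 2 * d (k + 1))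
    (hj : ∀ n j, 1 ≤ n → 1 ≤ j → j * d n ≤ d (n * j)) (n N : ℕ) (hn : 1 ≤ n) (hN : n ≤ N) :
    N * d n ≤ n * d N := by
  set e : ℕ → ℝ := fun k => n * d k - k * d n with he
  have hn0 : (0 : ℝ) < n := by exact_mod_cast hn
  have hpos : ∀ j, 1 ≤ j → 0 ≤ e (n * j) := by
    intro j hj1
    have h1 := mul_le_mul_of_nonneg_left (hj n j hn hj1) hn0.le
    simp only [he]
    push_cast
    linarith
  have hconc : ∀ k, 1 ≤ k → e k + e (k + 2) ≤ 2 * e (k + 1) := by
    intro k hk
    have h1 := mul_le_mul_of_nonneg_left (hc k hk) hn0.le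
    simp only [he]
    push_cast
    linarith
  have hq : 1 ≤ N / n := (Nat.one_le_div_iff (by omega)).2 hN
  have h1 : n * (N / n) ≤ N := Nat.mul_div_le N n
  have h2 : N ≤ n * (N / n + 1) := by
    have := Nat.div_add_mod N n
    have h3 := Nat.mod_lt N (show 0 < n by omega)
    rw [mul_add]
    omega
  have h3 : 1 ≤ n * (N / n) := Nat.mul_pos (by omega) (by omega)
  have h4 := seq_mid e hconc _ _ _ h3 h1 h2 (hpos _ hq) (hpos _ (by omega))
  simp only [he] at h4
  linarith

end UJ

open UJ in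
theorem pUJ : S_UJ := by
  intro y C₀ C m hm h0 h1 h2 h3
  set h : ℕ → ℕ → ℝ := fun a b => -Real.log (y a b) with hh
  have hpos : ∀ a b, 0 < y a b := fun a b => (h0 a b).1
  have hsym : ∀ a b, h a b = h b a := fun a b => by
    simp only [hh]
    rw [(h0 a b).2.1]
  have hub : ∀ a b, h a b ≤ C₀ * (a * b) := by
    intro a b
    have := (Real.le_log_iff_exp_le (hpos a b)).2 (h0 a b).2.2.1
    simp only [hh]
    linarith
  -- (h1)
  have k1 : ∀ a b j : ℕ, Even a → 2 ≤ a → 2 ≤ b → 1 ≤ j → j * h a b ≤ h (a * j) b := by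
    intro a b j ha ha2 hb hj
    have := Real.log_le_log (hpos _ _) (h1 a b j ha ha2 hb hj)
    rw [Real.log_pow] at this
    simp only [hh]
    linarith
  have k2 : ∀ a b : ℕ, Even a → 2 ≤ a → 2 ≤ b → h a b + h (a + 4) b ≤ 2 * h (a + 2) b := by
    intro a b ha ha2 hb
    have := Real.log_le_log (pow_pos (hpos _ _) 2) (h2 a b ha ha2 hb)
    rw [Real.log_pow, Real.log_mul (hpos _ _).ne' (hpos _ _).ne'] at this
    push_cast at this
    simp only [hh]
    linarith
  have k3 : ∀ a b : ℕ, 10 ≤ a → 10 ≤ b →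
      h (2 * a) b ≤ 2 * h a b + b * Real.exp (C - m * (min a b : ℕ)) := by
    intro a b ha hb
    have := Real.log_le_log (pow_pos (hpos _ _) 2) (h3 a b ha hb)
    rw [Real.log_pow, Real.log_mul (hpos _ _).ne' (Real.exp_pos _).ne', Real.log_exp] at this
    push_cast at this
    simp only [hh]
    push_cast
    linarith
  -- monotonicity in the first variable
  have mono : ∀ a A b : ℕ, Even a → Even A → 2 ≤ a → a ≤ A → 2 ≤ b → A * h a b ≤ a * h A b := by
    intro a A b ha hA ha2 haA hb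
    obtain ⟨n, rfl⟩ := ha
    obtain ⟨N, rfl⟩ := hA
    have := seq_mono (fun k => h (2 * k) b) (fun k hk => by
      have := k2 (2 * k) b ⟨k, by ring⟩ (by omega) hb
      exact this) (fun n j hn hj => by
      have := k1 (2 * n) b j ⟨n, by ring⟩ (by omega) hb hj
      rw [mul_assoc] at this
      exact this) n N (by omega) (by omega)
    simp only [two_mul] at this
    push_cast
    linarith
  -- doubling
  have dbl : ∀ (a b : ℕ), 10 ≤ a → 10 ≤ b → ∀ i : ℕ,
      h (2 ^ i * a) b ≤ 2 ^ i * h a b + (2 ^ i - 1) * (b * Real.exp (C - m * (min a b : ℕ))) := by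
    intro a b ha hb i
    induction i with
    | zero => simp
    | succ i ih =>
      have hle : a ≤ 2 ^ i * a := Nat.le_mul_of_pos_left a (by positivity)
      have h4 := k3 (2 ^ i * a) b (ha.trans hle) hb
      have h5 : Real.exp (C - m * (min (2 ^ i * a) b : ℕ)) ≤ Real.exp (C - m * (min a b : ℕ)) := by
        apply Real.exp_le_exp.2
        have h6 : ((min a b : ℕ) : ℝ) ≤ (min (2 ^ i * a) b : ℕ) := by
          exact_mod_cast min_le_min_right b hle
        have := mul_le_mul_of_nonneg_left h6 hm.le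
        linarith
      have h6 := mul_le_mul_of_nonneg_left h5 (show (0 : ℝ) ≤ b by positivity)
      have e1 : 2 ^ (i + 1) * a = 2 * (2 ^ i * a) := by ring
      rw [e1, pow_succ]
      linarith
  -- the bound for the large sides
  have big : ∀ (a b : ℕ), 10 ≤ a → 10 ≤ b → ∀ i j : ℕ,
      h (2 ^ i * a) (2 ^ j * b) ≤ 2 ^ i * 2 ^ j * (h a b +
        (a + b) * Real.exp (C - m * (min a b : ℕ))) := by
    intro a b ha hb i j
    have hle : a ≤ 2 ^ i * a := Nat.le_mul_of_pos_left a (by positivity)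
    have h4 := dbl b (2 ^ i * a) hb (ha.trans hle) j
    rw [hsym (2 ^ j * b), hsym b] at h4
    have h5 := dbl a b ha hb i
    have h6 : Real.exp (C - m * (min b (2 ^ i * a) : ℕ)) ≤ Real.exp (C - m * (min a b : ℕ)) := by
      apply Real.exp_le_exp.2
      have h6 : ((min a b : ℕ) : ℝ) ≤ (min b (2 ^ i * a) : ℕ) := by
        rw [min_comm b]
        exact_mod_cast min_le_min_right b hle
      have := mul_le_mul_of_nonneg_left h6 hm.le
      linarith
    set τ := Real.exp (C - m * (min a b : ℕ)) with hτ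
    have hτ0 : 0 < τ := Real.exp_pos _
    have hp : (1 : ℝ) ≤ 2 ^ i := one_le_pow₀ (by norm_num)
    have hq : (1 : ℝ) ≤ 2 ^ j := one_le_pow₀ (by norm_num)
    have ha0 : (0 : ℝ) ≤ a := by positivity
    have hb0 : (0 : ℝ) ≤ b := by positivity
    push_cast at h4
    set p : ℝ := 2 ^ i with hpd
    set q : ℝ := 2 ^ j with hqd
    have h7 : (q - 1) * (p * a * Real.exp (C - m * (min b (2 ^ i * a) : ℕ))) ≤ (q - 1) * (p * a * τ) := by
      apply mul_le_mul_of_nonneg_left _ (by linarith)
      apply mul_le_mul_of_nonneg_left _ (by positivity)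
      exact h6
    push_cast at h7
    have h8 : q * h (2 ^ i * a) b ≤ q * (p * h a b + (p - 1) * (b * τ)) :=
      mul_le_mul_of_nonneg_left h5 (by linarith)
    have h9 : (0 : ℝ) ≤ q * (b * τ) := by positivity
    have h10 : (0 : ℝ) ≤ p * a * τ := by positivity
    nlinarith [h4, h7, h8, h9, h10]
  -- the comparison
  have cmp : ∀ a b a' b' : ℕ, Even a → Even b → 10 ≤ a → 10 ≤ b → Even a' → Even b' → 2 ≤ a' →
      2 ≤ b' → h a' b' / (a' * b') ≤ h a b / (a * b) + 2 * Real.exp (C - m * (min a b : ℕ)) := by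
    intro a b a' b' ha hb ha10 hb10 ha' hb' ha2 hb2
    obtain ⟨i, hi⟩ : ∃ i, a' ≤ 2 ^ i * a :=
      ⟨a', (Nat.lt_two_pow_self).le.trans (Nat.le_mul_of_pos_right _ (by omega))⟩
    obtain ⟨j, hj⟩ : ∃ j, b' ≤ 2 ^ j * b :=
      ⟨b', (Nat.lt_two_pow_self).le.trans (Nat.le_mul_of_pos_right _ (by omega))⟩
    have e1 := mono a' (2 ^ i * a) b' ha' (ha.mul_left _) ha2 hi hb2
    have e2 := mono b' (2 ^ j * b) (2 ^ i * a) hb' (hb.mul_left _) hb2 hj (ha2.trans hi)
    rw [hsym b', hsym (2 ^ j * b)] at e2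
    have e3 := big a b ha10 hb10 i j
    set τ := Real.exp (C - m * (min a b : ℕ)) with hτ
    have hτ0 : 0 < τ := Real.exp_pos _
    push_cast at e1 e2
    have ha0 : (10 : ℝ) ≤ a := by exact_mod_cast ha10
    have hb0 : (10 : ℝ) ≤ b := by exact_mod_cast hb10
    have ha'0 : (2 : ℝ) ≤ a' := by exact_mod_cast ha2
    have hb'0 : (2 : ℝ) ≤ b' := by exact_mod_cast hb2
    have hp : (1 : ℝ) ≤ 2 ^ i := one_le_pow₀ (by norm_num)
    have hq : (1 : ℝ) ≤ 2 ^ j := one_le_pow₀ (by norm_num)
    set p : ℝ := 2 ^ i with hpd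
    set q : ℝ := 2 ^ j with hqd
    set H := h (2 ^ i * a) (2 ^ j * b) with hH
    set M := h (2 ^ i * a) b' with hM
    -- h a' b' / (a' b') ≤ M / (p a b') ≤ H / (p a q b)
    have f1 : h a' b' / (a' * b') ≤ M / (p * a * b') := by
      rw [div_le_div_iff₀ (by positivity) (by positivity)]
      have := mul_le_mul_of_nonneg_right e1 (show (0 : ℝ) ≤ b' by linarith)
      linarith
    have f2 : M / (p * a * b') ≤ H / (p * a * (q * b)) := by
      rw [div_le_div_iff₀ (by positivity) (by positivity)]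
      have := mul_le_mul_of_nonneg_right e2 (show (0 : ℝ) ≤ p * a by positivity)
      linarith
    have f3 : H / (p * a * (q * b)) ≤ h a b / (a * b) + (a + b) * τ / (a * b) := by
      rw [← add_div, div_le_div_iff₀ (by positivity) (by positivity)]
      have := mul_le_mul_of_nonneg_right e3 (show (0 : ℝ) ≤ a * b by positivity)
      linarith
    have f4 : ((a : ℝ) + b) * τ / (a * b) ≤ 2 * τ := by
      rw [div_le_iff₀ (by positivity)]
      have f5 : (a : ℝ) + b ≤ 2 * (a * b) := by nlinarith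
      have := mul_le_mul_of_nonneg_right f5 hτ0.le
      linarith
    linarith
  -- the supremum
  set S : Set ℝ := {x | ∃ a b : ℕ, Even a ∧ Even b ∧ 2 ≤ a ∧ 2 ≤ b ∧ x = h a b / (a * b)} with hS
  have hbdd : BddAbove S := by
    refine ⟨C₀, ?_⟩
    rintro x ⟨a, b, -, -, ha, hb, rfl⟩
    have ha0 : (2 : ℝ) ≤ a := by exact_mod_cast ha
    have hb0 : (2 : ℝ) ≤ b := by exact_mod_cast hb
    rw [div_le_iff₀ (by positivity)]
    exact hub a b
  have hne : S.Nonempty := ⟨_, 2, 2, ⟨1, rfl⟩, ⟨1, rfl⟩, le_rfl, le_rfl, rfl⟩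
  refine ⟨sSup S, fun a b ha hb ha2 hb2 => ?_, fun a b ha hb ha10 hb10 => ?_⟩
  · have ha0 : (2 : ℝ) ≤ a := by exact_mod_cast ha2
    have hb0 : (2 : ℝ) ≤ b := by exact_mod_cast hb2
    have h4 : h a b / (a * b) ≤ sSup S := le_csSup hbdd ⟨a, b, ha, hb, ha2, hb2, rfl⟩
    rw [div_le_iff₀ (by positivity)] at h4
    rw [← Real.le_log_iff_exp_le (hpos a b)]
    simp only [hh] at h4
    linarith
  · have ha0 : (10 : ℝ) ≤ a := by exact_mod_cast ha10
    have hb0 : (10 : ℝ) ≤ b := by exact_mod_cast hb10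
    have h4 : sSup S ≤ h a b / (a * b) + 2 * Real.exp (C - m * (min a b : ℕ)) := by
      apply csSup_le hne
      rintro x ⟨a', b', ha', hb', ha2, hb2, rfl⟩
      exact cmp a b a' b' ha hb ha10 hb10 ha' hb' ha2 hb2
    have h5 := mul_le_mul_of_nonneg_right h4 (show (0 : ℝ) ≤ a * b by positivity)
    rw [add_mul, div_mul_cancel₀ _ (by positivity)] at h5
    rw [← Real.log_le_iff_le_exp (hpos a b)]
    simp only [hh] at h5
    linarith

end T2H01.SE
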