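import Pool.Agent.T2H01.SE.Stm6

/-!
# Package UK: the area law at all scales
-/

set_option autoImplicit false

noncomputable section

namespace T2H01.SE

namespace PkgUK

lemma slope_right {h : ℕ → ℝ} (hc : ∀ n, h n + h (n + 2) ≤ 2 * h (n + 1)) (q k : ℕ) :
    h (q + k) - h q ≤ k * (h (q + 1) - h q) := by
  have hd : ∀ k, h (q + k + 1) - h (q + k) ≤ h (q + 1) - h q := by
    intro k
    induction k with
    | zero => simp
    | succ k ih =>
      have h1 := hc (q + k)
      have e1 : q + (k + 1) = q + k + 1 := rfl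
      have e2 : q + k + 1 + 1 = q + k + 2 := rfl
      rw [e1, e2]
      linarith
  induction k with
  | zero => simp
  | succ k ih =>
    have h1 := hd k
    have e : q + (k + 1) = q + k + 1 := rfl
    rw [e]
    push_cast
    linarith

lemma slope_left {h : ℕ → ℝ} (hc : ∀ n, h n + h (n + 2) ≤ 2 * h (n + 1)) (p k : ℕ) :
    (k : ℝ) * (h (p + k + 1) - h (p + k)) ≤ h (p + k) - h p := by
  induction k with
  | zero => simp
  | succ k ih =>
    have h1 := hc (p + k)
    have e1 : p + (k + 1) = p + k + 1 := rfl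
    have e2 : p + k + 1 + 1 = p + k + 2 := rfl
    rw [e1, e2]
    push_cast
    have h2 : ((k : ℝ) + 1) * (h (p + k + 2) - h (p + k + 1)) ≤
        ((k : ℝ) + 1) * (h (p + k + 1) - h (p + k)) :=
      mul_le_mul_of_nonneg_left (by linarith) (by positivity)
    linarith

lemma three {h : ℕ → ℝ} (hc : ∀ n, h n + h (n + 2) ≤ 2 * h (n + 1)) {p q r : ℕ} (hpq : p ≤ q)
    (hqr : q ≤ r) : ((r : ℝ) - q) * h p + ((q : ℝ) - p) * h r ≤ ((r : ℝ) - p) * h q := by
  obtain ⟨k, rfl⟩ := Nat.exists_eq_add_of_le hpq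
  obtain ⟨l, rfl⟩ := Nat.exists_eq_add_of_le hqr
  have h1 := mul_le_mul_of_nonneg_left (slope_left hc p k) (Nat.cast_nonneg l : (0 : ℝ) ≤ l)
  have h2 := mul_le_mul_of_nonneg_left (slope_right hc (p + k) l) (Nat.cast_nonneg k : (0 : ℝ) ≤ k)
  push_cast
  linarith

variable {a₁ : ℕ} {g : ℕ → ℝ}

lemma three' (he : Even a₁)
    (hc : ∀ a, Even a → a₁ ≤ a → g a + g (a + 4) ≤ 2 * g (a + 2)) {p q r : ℕ} (hp : Even p)
    (hq : Even q) (hr : Even r) (h1 : a₁ ≤ p) (hpq : p ≤ q) (hqr : q ≤ r) :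
    ((r : ℝ) - q) * g p + ((q : ℝ) - p) * g r ≤ ((r : ℝ) - p) * g q := by
  have key : ∀ n : ℕ, Even n → a₁ ≤ n → ∃ m, n = a₁ + 2 * m := by
    intro n hn hle
    obtain ⟨u, hu⟩ := hn
    obtain ⟨v, hv⟩ := he
    exact ⟨u - v, by omega⟩
  obtain ⟨p', rfl⟩ := key p hp h1
  obtain ⟨q', rfl⟩ := key q hq (by omega)
  obtain ⟨r', rfl⟩ := key r hr (by omega)
  have h2 := three (h := fun n => g (a₁ + 2 * n)) (fun n => by
    have := hc (a₁ + 2 * n) (he.add (even_two_mul n)) (by omega)
    simpa [mul_add, add_assoc] using this) (p := p') (q := q') (r := r') (by omega) (by omega)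
  push_cast
  linarith

lemma lft (he : Even a₁) (hc : ∀ a, Even a → a₁ ≤ a → g a + g (a + 4) ≤ 2 * g (a + 2))
    (hm : ∀ a j : ℕ, Even a → a₁ ≤ a → 1 ≤ j → (j : ℝ) * g a ≤ g (a * j)) {a A : ℕ} (ha : Even a)
    (hA : Even A) (h0 : 0 < a) (h1 : a₁ ≤ a) (hle : a ≤ A) : (A : ℝ) * g a ≤ a * g A := by
  set j := A / a with hj
  have hj1 : 1 ≤ j := (Nat.one_le_div_iff h0).2 hle
  have hj2 : a * j ≤ A := Nat.mul_div_le A a
  have hj3 : A ≤ a * (j + 1) := (Nat.lt_mul_div_succ A h0).le
  have h3 := three' he hc (p := a * j) (q := A) (r := a * (j + 1)) (ha.mul_right _) hA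
    (ha.mul_right _) (le_trans h1 (Nat.le_mul_of_pos_right a hj1)) hj2 hj3
  have h4 := hm a j ha h1 hj1
  have h5 := hm a (j + 1) ha h1 (by omega)
  have c2 : (0 : ℝ) ≤ (A : ℝ) - a * j := by
    have : ((a * j : ℕ) : ℝ) ≤ A := by exact_mod_cast hj2
    push_cast at this; linarith
  have c3 : (0 : ℝ) ≤ (a : ℝ) * (j + 1) - A := by
    have : ((A : ℕ) : ℝ) ≤ ((a * (j + 1) : ℕ) : ℝ) := by exact_mod_cast hj3
    push_cast at this; linarith
  have h6 := mul_le_mul_of_nonneg_left h4 c3
  have h7 := mul_le_mul_of_nonneg_left h5 c2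
  push_cast at h3 h7
  nlinarith

lemma rgt (he : Even a₁) (hc : ∀ a, Even a → a₁ ≤ a → g a + g (a + 4) ≤ 2 * g (a + 2))
    {a A : ℕ} (ha : Even a) (hA : Even A) (h1 : a₁ ≤ a) (hle : 2 * a ≤ A) :
    (a : ℝ) * g A ≤ ((A : ℝ) - a) * g (2 * a) - ((A : ℝ) - 2 * a) * g a := by
  have h3 := three' he hc (p := a) (q := 2 * a) (r := A) ha (even_two_mul a) hA h1 (by omega) hle
  push_cast at h3
  linarith

/-- the functions of two variables -/
structure Good (a₁ : ℕ) (w : ℕ → ℕ → ℝ) : Prop where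
  ev : Even a₁
  pos : 0 < a₁
  symm : ∀ a b, Even a → Even b → a₁ ≤ a → a₁ ≤ b → w a b = w b a
  conc : ∀ b, Even b → a₁ ≤ b → ∀ a, Even a → a₁ ≤ a → w a b + w (a + 4) b ≤ 2 * w (a + 2) b
  mul : ∀ b, Even b → a₁ ≤ b → ∀ a j : ℕ, Even a → a₁ ≤ a → 1 ≤ j → (j : ℝ) * w a b ≤ w (a * j) b

/-- density -/
def den (w : ℕ → ℕ → ℝ) (a b : ℕ) : ℝ := w a b / (a * b)

variable {w : ℕ → ℕ → ℝ}

lemma den_mono (hw : Good a₁ w) {a A b : ℕ} (ha : Even a) (hA : Even A) (hb : Even b)
    (h1 : a₁ ≤ a) (h2 : a ≤ A) (h3 : a₁ ≤ b) : den w a b ≤ den w A b := by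
  have hp := hw.pos
  have h := lft (g := fun n => w n b) hw.ev (hw.conc b hb h3) (hw.mul b hb h3) ha hA (by omega) h1 h2
  have pa : (0 : ℝ) < a := by exact_mod_cast (by omega : 0 < a)
  have pA : (0 : ℝ) < A := by exact_mod_cast (by omega : 0 < A)
  have pb : (0 : ℝ) < b := by exact_mod_cast (by omega : 0 < b)
  unfold den
  rw [div_le_div_iff₀ (by positivity) (by positivity)]
  have := mul_le_mul_of_nonneg_left h pb.le
  linarith

lemma den_up (hw : Good a₁ w) {a A b : ℕ} (ha : Even a) (hA : Even A) (hb : Even b)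
    (h1 : a₁ ≤ a) (h2 : 2 * a ≤ A) (h3 : a₁ ≤ b) :
    den w A b ≤ 2 * den w (2 * a) b - den w a b := by
  have hp := hw.pos
  have h := rgt (g := fun n => w n b) hw.ev (hw.conc b hb h3) ha hA h1 h2
  have hm := den_mono hw ha (even_two_mul a) hb h1 (by omega) h3
  have pa : (0 : ℝ) < a := by exact_mod_cast (by omega : 0 < a)
  have pA : (0 : ℝ) < A := by exact_mod_cast (by omega : 0 < A)
  have pb : (0 : ℝ) < b := by exact_mod_cast (by omega : 0 < b)
  have e1 : w A b = A * b * den w A b := by unfold den; field_simp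
  have e2 : w (2 * a) b = 2 * a * b * den w (2 * a) b := by unfold den; push_cast; field_simp
  have e3 : w a b = a * b * den w a b := by unfold den; field_simp
  rw [e1, e2, e3] at h
  have pab : (0 : ℝ) < a * b := by positivity
  have h4 : (A : ℝ) * den w A b ≤ ((A : ℝ) - a) * (2 * den w (2 * a) b) -
      ((A : ℝ) - 2 * a) * den w a b := by
    by_contra hcon
    push Not at hcon
    have := mul_lt_mul_of_pos_left hcon pab
    linarith
  have h5 : (A : ℝ) * den w A b ≤ A * (2 * den w (2 * a) b - den w a b) := by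
    nlinarith
  exact le_of_mul_le_mul_left h5 pA

lemma den_symm (hw : Good a₁ w) {a b : ℕ} (ha : Even a) (hb : Even b) (h1 : a₁ ≤ a)
    (h2 : a₁ ≤ b) : den w a b = den w b a := by
  unfold den
  rw [hw.symm a b ha hb h1 h2, mul_comm]

lemma den_two (hw : Good a₁ w) {a A B : ℕ} (ha : Even a) (hA : Even A) (hB : Even B)
    (h1 : a₁ ≤ a) (h2 : 2 * a ≤ A) (h3 : 2 * a ≤ B) :
    den w a a ≤ den w A B ∧
      den w A B ≤ den w a a + 4 * (den w (2 * a) (2 * a) - den w a a) := by
  have e2 : Even (2 * a) := even_two_mul a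
  have u1 := den_mono hw ha hA ha h1 (by omega) h1
  have u2 := den_mono hw ha hB hA h1 (by omega) (by omega : a₁ ≤ A)
  have s1 := den_symm hw ha hA h1 (by omega)
  have s2 := den_symm hw hB hA (by omega) (by omega)
  have u3 := den_up hw ha hB hA h1 h3 (by omega)
  have s3 := den_symm hw e2 hA (by omega) (by omega)
  have u4 := den_up hw ha hA e2 h1 h2 (by omega)
  have u5 := den_mono hw ha e2 ha h1 (by omega) h1
  have s5 := den_symm hw ha e2 h1 (by omega)
  constructor <;> linarith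

end PkgUK

open PkgUK in
theorem pUK : S_UK := by
  intro N K a₁ x y f τ s₁ s₂ η hN he ha₁ hτ hs₁ hη hη1 hNτ hpow hP h1 h2 h3 h4 h5 A B A' B' hA hB
    hA' hB' hKA hKB hKA' hKB' c hc
  set w : ℕ → ℕ → ℕ → ℝ := fun c a b => -Real.log (x c a b) - f * (a * b) with hw
  have good : ∀ c, Good a₁ (w c) := by
    intro c
    refine ⟨he, by omega, ?_, ?_, ?_⟩
    · intro a b ha hb h1' h2'
      simp only [hw]
      rw [(hP c a b ha hb h1' h2').2.2.2.1]
      ring
    · intro b hb hb1 a ha ha1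
      have p0 := (hP c a b ha hb ha1 hb1).2.1
      have e2 : Even (a + 2) := ha.add even_two
      have e4 : Even (a + 4) := ha.add (by decide)
      have p2 := (hP c (a + 2) b e2 hb (by omega) hb1).2.1
      have p4 := (hP c (a + 4) b e4 hb (by omega) hb1).2.1
      have h := Real.log_le_log (by positivity) (h2 c a b ha hb ha1 hb1)
      rw [Real.log_pow, Real.log_mul p0.ne' p4.ne'] at h
      simp only [hw]
      push_cast at h ⊢
      linarith
    · intro b hb hb1 a j ha ha1 hj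
      have pj := (hP c (a * j) b (ha.mul_right _) hb (le_trans ha1 (Nat.le_mul_of_pos_right a hj))
        hb1).2.1
      have h := Real.log_le_log pj (h1 c a b j ha hb ha1 hb1 hj)
      rw [Real.log_pow] at h
      simp only [hw]
      push_cast
      linarith
  -- the bounds of the densities
  have hu : ∀ c a b : ℕ, Even a → Even b → a₁ ≤ a → a₁ ≤ b →
      den (w c) a b ≤ Real.log (y a b / x c a b) / (a * b) ∧
        Real.log (y a b / x c a b) / (a * b) ≤ den (w c) a b + τ := by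
    intro c a b ha hb ha1 hb1
    obtain ⟨py, px, hxy, -, -⟩ := hP c a b ha hb ha1 hb1
    obtain ⟨hl, hr⟩ := h3 a b ha hb ha1 hb1
    have hl' := (Real.le_log_iff_exp_le py).2 hl
    have hr' := (Real.log_le_iff_le_exp py).2 hr
    have pa : (0 : ℝ) < a := by exact_mod_cast (by omega : 0 < a)
    have pb : (0 : ℝ) < b := by exact_mod_cast (by omega : 0 < b)
    have pab : (0 : ℝ) < a * b := by positivity
    rw [Real.log_div py.ne' px.ne']
    unfold den
    simp only [hw]
    constructor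
    · rw [div_le_div_iff_of_pos_right pab]
      linarith
    · rw [div_le_iff₀ pab, add_mul, div_mul_cancel₀ _ pab.ne']
      linarith
  have hu0 : ∀ c a b : ℕ, Even a → Even b → a₁ ≤ a → a₁ ≤ b →
      0 ≤ Real.log (y a b / x c a b) / (a * b) := by
    intro c a b ha hb ha1 hb1
    obtain ⟨py, px, hxy, -, -⟩ := hP c a b ha hb ha1 hb1
    refine div_nonneg (Real.log_nonneg ?_) (by positivity)
    rw [le_div_iff₀ px]
    linarith
  have hu2 : ∀ c a b : ℕ, Even a → Even b → a₁ ≤ a → a₁ ≤ b →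
      Real.log (y a b / x c a b) / (a * b) ≤ s₂ := by
    intro c a b ha hb ha1 hb1
    obtain ⟨py, px, hxy, -, -⟩ := hP c a b ha hb ha1 hb1
    have pa : (0 : ℝ) < a := by exact_mod_cast (by omega : 0 < a)
    have pb : (0 : ℝ) < b := by exact_mod_cast (by omega : 0 < b)
    have pab : (0 : ℝ) < a * b := by positivity
    rw [div_le_iff₀ pab, Real.log_div py.ne' px.ne']
    have h := Real.log_le_log (by positivity) (h4 c a b ha hb ha1 hb1)
    rw [Real.log_mul (Real.exp_pos _).ne' py.ne', Real.log_exp] at h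
    linarith
  have hu1 : ∀ a b : ℕ, Even a → Even b → a₁ ≤ a → a₁ ≤ b →
      s₁ ≤ Real.log (y a b / x 1 a b) / (a * b) := by
    intro a b ha hb ha1 hb1
    obtain ⟨py, px, hxy, -, -⟩ := hP 1 a b ha hb ha1 hb1
    have pa : (0 : ℝ) < a := by exact_mod_cast (by omega : 0 < a)
    have pb : (0 : ℝ) < b := by exact_mod_cast (by omega : 0 < b)
    have pab : (0 : ℝ) < a * b := by positivity
    rw [le_div_iff₀ pab, Real.log_div py.ne' px.ne']
    have h := Real.log_le_log px (h5 a b ha hb ha1 hb1)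
    rw [Real.log_mul (Real.exp_pos _).ne' py.ne', Real.log_exp] at h
    linarith
  set V : ℕ → ℝ := fun a => ∑ c ∈ Finset.range N, den (w c) a a with hV
  have Vlow : ∀ a, Even a → a₁ ≤ a → s₁ - N * τ ≤ V a := by
    intro a ha ha1
    have h1N : 1 ∈ Finset.range N := Finset.mem_range.2 (by omega)
    calc s₁ - N * τ = ∑ c ∈ Finset.range N, ((if c = 1 then s₁ else 0) - τ) := by
          rw [Finset.sum_sub_distrib, Finset.sum_ite_eq', if_pos h1N, Finset.sum_const,
            Finset.card_range, nsmul_eq_mul]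
      _ ≤ V a := by
          refine Finset.sum_le_sum fun c _ => ?_
          have h := (hu c a a ha ha ha1 ha1).2
          by_cases hc1 : c = 1
          · subst hc1
            have := hu1 a a ha ha ha1 ha1
            rw [if_pos rfl]
            linarith
          · have := hu0 c a a ha ha ha1 ha1
            rw [if_neg hc1]
            linarith
  have Vup : ∀ a, Even a → a₁ ≤ a → V a ≤ N * s₂ := by
    intro a ha ha1
    calc V a ≤ ∑ c ∈ Finset.range N, s₂ := Finset.sum_le_sum fun c _ =>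
          (hu c a a ha ha ha1 ha1).1.trans (hu2 c a a ha ha ha1 ha1)
      _ = N * s₂ := by rw [Finset.sum_const, Finset.card_range, nsmul_eq_mul]
  have hs12 : s₁ ≤ s₂ := (hu1 a₁ a₁ he he le_rfl le_rfl).trans (hu2 1 a₁ a₁ he he le_rfl le_rfl)
  have hN2 : (2 : ℝ) ≤ N := by exact_mod_cast hN
  have ev2 : ∀ i, Even (2 ^ i * a₁) := fun i => he.mul_left _
  have le2 : ∀ i, a₁ ≤ 2 ^ i * a₁ := fun i => Nat.le_mul_of_pos_left a₁ (by positivity)
  -- the good scale
  obtain ⟨i, hi, hVi⟩ : ∃ i < K, V (2 * (2 ^ i * a₁)) ≤ (1 + η) * V (2 ^ i * a₁) := by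
    by_contra hcon
    push Not at hcon
    have hge : ∀ i ≤ K, (1 + η) ^ i * V a₁ ≤ V (2 ^ i * a₁) := by
      intro i
      induction i with
      | zero => intro _; simp
      | succ i ih =>
        intro hi
        have h6 := ih (by omega)
        have h7 := hcon i (by omega)
        have h8 : 2 ^ (i + 1) * a₁ = 2 * (2 ^ i * a₁) := by ring
        rw [h8, pow_succ]
        have h9 := mul_le_mul_of_nonneg_left h6 (by linarith : (0 : ℝ) ≤ 1 + η)
        linarith
    have hVa := Vlow a₁ he le_rfl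
    rcases Nat.eq_zero_or_pos K with hK | hK
    · subst hK
      rw [pow_zero] at hpow
      nlinarith
    · obtain ⟨K', rfl⟩ : ∃ K', K = K' + 1 := ⟨K - 1, by omega⟩
      have h6 := hge K' (by omega)
      have h7 := hcon K' (by omega)
      have h8 : 2 ^ (K' + 1) * a₁ = 2 * (2 ^ K' * a₁) := by ring
      have h9 := Vup (2 ^ (K' + 1) * a₁) (ev2 _) (le2 _)
      rw [h8] at h9
      have h10 := mul_le_mul_of_nonneg_left h6 (by linarith : (0 : ℝ) ≤ 1 + η)
      have hp : (0 : ℝ) < (1 + η) ^ (K' + 1) := by positivity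
      have h11 : s₁ / 2 ≤ V a₁ := by linarith
      have h12 := mul_le_mul_of_nonneg_left h11 hp.le
      rw [pow_succ] at h12 hpow
      nlinarith
  set a := 2 ^ i * a₁ with hadef
  have hae : Even a := ev2 i
  have ha1 : a₁ ≤ a := le2 i
  have hV0 : 0 < V a := by
    have := Vlow a hae ha1
    linarith
  have ha2 : 2 * a ≤ 2 ^ K * a₁ := by
    have h6 : 2 * a = 2 ^ (i + 1) * a₁ := by rw [hadef]; ring
    rw [h6]
    exact Nat.mul_le_mul_right _ (Nat.pow_le_pow_right (by norm_num) (by omega))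
  have two := fun (c A B : ℕ) (hA : Even A) (hB : Even B) (h6 : 2 ^ K * a₁ ≤ A)
    (h7 : 2 ^ K * a₁ ≤ B) => den_two (good c) hae hA hB ha1 (ha2.trans h6) (ha2.trans h7)
  have hinc : den (w c) (2 * a) (2 * a) - den (w c) a a ≤ η * V a := by
    have h6 : ∑ c ∈ Finset.range N, (den (w c) (2 * a) (2 * a) - den (w c) a a) ≤ η * V a := by
      rw [Finset.sum_sub_distrib]
      have e : V (2 * a) = ∑ c ∈ Finset.range N, den (w c) (2 * a) (2 * a) := rfl
      have e' : V a = ∑ c ∈ Finset.range N, den (w c) a a := rfl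
      rw [← e, ← e']
      linarith
    refine le_trans ?_ h6
    refine Finset.single_le_sum (f := fun c => den (w c) (2 * a) (2 * a) - den (w c) a a)
      (fun c' _ => ?_) (Finset.mem_range.2 hc)
    have h7 := (den_two (good c') hae (even_two_mul a) (even_two_mul a) ha1 le_rfl le_rfl).1
    linarith
  have hVA' : V a ≤ ∑ c' ∈ Finset.range N, Real.log (y A' B' / x c' A' B') / (A' * B') := by
    refine Finset.sum_le_sum fun c' _ => ?_
    exact (two c' A' B' hA' hB' hKA' hKB').1.trans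
      (hu c' A' B' hA' hB' (le_trans (le2 K) hKA') (le_trans (le2 K) hKB')).1
  obtain ⟨t1, t2⟩ := two c A B hA hB hKA hKB
  obtain ⟨t3, t4⟩ := two c A' B' hA' hB' hKA' hKB'
  obtain ⟨r1, r2⟩ := hu c A B hA hB (le_trans (le2 K) hKA) (le_trans (le2 K) hKB)
  obtain ⟨r3, r4⟩ := hu c A' B' hA' hB' (le_trans (le2 K) hKA') (le_trans (le2 K) hKB')
  have h13 : η * V a ≤ η * (∑ c' ∈ Finset.range N, Real.log (y A' B' / x c' A' B') / (A' * B')) :=
    mul_le_mul_of_nonneg_left hVA' hη.le
  have h14 : 0 < η * V a := by positivity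
  rw [abs_le]
  constructor <;> linarith

end T2H01.SE
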