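import Pool.Agent.T2H01.SE.Stm6

/-!
# Package UL : small probabilities
-/

set_option autoImplicit false

noncomputable section

namespace T2H01.SE.PkgUL

open T2H02.TT

lemma om_zero (N : ℕ) : om N 0 = 1 := by simp [om]

lemma om_norm (N k : ℕ) : ‖om N k‖ = 1 := by
  have e : (2 * Real.pi * Complex.I * k / N : ℂ) = ((2 * Real.pi * k / N : ℝ) : ℂ) * Complex.I := by
    push_cast; ring
  unfold om
  rw [e, Complex.norm_exp_ofReal_mul_I]

lemma om_re (N k : ℕ) : (om N k).re = Real.cos (2 * Real.pi * k / N) := by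
  have e : (2 * Real.pi * Complex.I * k / N : ℂ) = ((2 * Real.pi * k / N : ℝ) : ℂ) * Complex.I := by
    push_cast; ring
  unfold om
  rw [e, Complex.exp_ofReal_mul_I_re]

theorem main : S_UL := by
  intro N c p hN hp hsum hq
  set q := ∑ n ∈ Finset.Ico 1 N, p n with hqdef
  have hq0 : 0 ≤ q := Finset.sum_nonneg fun n _ => hp n
  let v : ℂ := ∑ n ∈ Finset.Ico 1 N, (p n : ℂ) * (1 - om N (c * n))
  have hsplit : ∀ f : ℕ → ℂ, ∑ n ∈ Finset.range N, f n = f 0 + ∑ n ∈ Finset.Ico 1 N, f n := by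
    intro f
    rw [Finset.range_eq_Ico, Finset.sum_eq_sum_Ico_succ_bot (by omega : 0 < N)]
  have hsumC : (p 0 : ℂ) + ∑ n ∈ Finset.Ico 1 N, (p n : ℂ) = 1 := by
    rw [← hsplit fun n => (p n : ℂ)]
    exact_mod_cast hsum
  have hz : ∑ n ∈ Finset.range N, om N (c * n) * (p n : ℂ) = 1 + (-v) := by
    rw [hsplit, Nat.mul_zero, om_zero, one_mul]
    have : v = ∑ n ∈ Finset.Ico 1 N, (p n : ℂ) - ∑ n ∈ Finset.Ico 1 N, om N (c * n) * (p n : ℂ) := by
      show ∑ n ∈ Finset.Ico 1 N, (p n : ℂ) * (1 - om N (c * n)) = _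
      rw [← Finset.sum_sub_distrib]
      exact Finset.sum_congr rfl fun n _ => by ring
    rw [this, ← hsumC]
    ring
  have hv : ‖v‖ ≤ 2 * q := by
    calc ‖v‖ ≤ ∑ n ∈ Finset.Ico 1 N, ‖(p n : ℂ) * (1 - om N (c * n))‖ := norm_sum_le _ _
      _ ≤ ∑ n ∈ Finset.Ico 1 N, 2 * p n := by
          refine Finset.sum_le_sum fun n _ => ?_
          rw [norm_mul, Complex.norm_real, Real.norm_of_nonneg (hp n)]
          have : ‖1 - om N (c * n)‖ ≤ 2 := by
            calc ‖1 - om N (c * n)‖ ≤ ‖(1 : ℂ)‖ + ‖om N (c * n)‖ := norm_sub_le _ _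
              _ = 2 := by rw [om_norm, norm_one]; norm_num
          nlinarith [hp n]
      _ = 2 * q := by rw [hqdef, Finset.mul_sum]
  have hv4 : ‖v‖ ≤ 1 / 4 := by linarith
  have hre : v.re = ∑ n ∈ Finset.Ico 1 N, p n * (1 - Real.cos (2 * Real.pi * (c * n) / N)) := by
    show (∑ n ∈ Finset.Ico 1 N, (p n : ℂ) * (1 - om N (c * n))).re = _
    rw [Complex.re_sum]
    refine Finset.sum_congr rfl fun n _ => ?_
    rw [Complex.re_ofReal_mul, Complex.sub_re, Complex.one_re, om_re]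
    push_cast
    rfl
  rw [hz, ← hre, ← Complex.log_re]
  have h1 := Complex.norm_log_one_add_sub_self_le (z := -v) (by rw [norm_neg]; linarith)
  rw [norm_neg] at h1
  have h2 : |(Complex.log (1 + -v) - -v).re| ≤ ‖Complex.log (1 + -v) - -v‖ := Complex.abs_re_le_norm _
  have h3 : (Complex.log (1 + -v) - -v).re = (Complex.log (1 + -v)).re + v.re := by
    simp
  rw [h3] at h2
  have h4 : (1 - ‖v‖)⁻¹ ≤ 2 := by
    rw [inv_le_comm₀ (by linarith) (by norm_num)]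
    linarith
  have h5 : ‖v‖ ^ 2 ≤ (2 * q) ^ 2 := pow_le_pow_left₀ (norm_nonneg _) hv 2
  have h6 : ‖v‖ ^ 2 * (1 - ‖v‖)⁻¹ / 2 ≤ ‖v‖ ^ 2 := by
    have := mul_le_mul_of_nonneg_left h4 (sq_nonneg ‖v‖)
    linarith
  calc _ ≤ _ := h2
    _ ≤ _ := h1
    _ ≤ ‖v‖ ^ 2 := h6
    _ ≤ (2 * q) ^ 2 := h5
    _ ≤ 8 * q ^ 2 := by nlinarith [sq_nonneg q]

end T2H01.SE.PkgUL

theorem T2H01.SE.pUL : T2H01.SE.S_UL := T2H01.SE.PkgUL.main
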