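import Pool.Agent.T2H01.SE.Stm6
import Pool.Agent.T2H01.SE.TB

/-!
# Package UB : log-convexity and submultiplicativity of the partition function of the torus

`TZc .. c false false A B = cyc ν a b A` by the layering of `TB.lean`; then `S_UA`.
-/

set_option autoImplicit false
set_option linter.unusedSectionVars false

noncomputable section

open MeasureTheory Matrix
open scoped Matrix.Norms.Frobenius

namespace T2H01.SE

open T2H02.TT

namespace PkgUB

open PkgTB

lemma TZc_cyc {N L : ℕ} [NeZero L] (hN : 0 < N) (k : ℕ) {β : ℝ} (hβ : 0 ≤ β) (P Q : SU N) (c : ℕ)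
    (B : ℕ) [NeZero B] (hB : 2 ≤ B) (A : ℕ) [NeZero A] :
    TZc N L k β P Q c false false A B =
      cyc (mw N B L) (a1 k β P Q false) (b1 k β c P Q false) A := by
  have e2 := TZc_eq (A := A) (B := B) (L := L) hN k hβ P Q c false false (fun h => by simp at h) hB
  have f2 := (toFin (mw N B L) A
    (fun V V' => (a1 k β P Q false V : ℂ) * b1 k β c P Q false V V') (v0 P Q B L)).1
  have g2 : ∀ V : ZMod A → Wc N B L, frc P Q false V = V := fun V => by
    unfold frc; rw [if_neg (by simp)]
  simp only [g2] at e2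
  rw [e2, f2]
  rfl

end PkgUB

open PkgTB PkgUB in
theorem pUB (hUA : S_UA) : S_UB := by
  intro N k L _ hN hk P Q hPQ β hβ c B _ hB
  have hN0 : 0 < N := by omega
  obtain ⟨h1, h2⟩ := hUA (Wc N B L) (mw N B L) (a1 k β P Q false) (b1 k β c P Q false)
    ((a0_meas k β).comp (fz_meas P Q false)) (b1_meas k β c P Q false)
    (fun y => a0_bd k hβ _)
    (fun y y' => ⟨b1_norm hN0 k hβ c P Q false y y', b1_refl (by omega) k β c P Q false y y'⟩)
  constructor
  · intro A j _ _ hA
    rw [TZc_cyc hN0 k hβ P Q c B hB, TZc_cyc hN0 k hβ P Q c B hB]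
    exact h1 A j hA
  · intro A A' A'' _ _ _ hA hA' hA''
    rw [TZc_cyc hN0 k hβ P Q c B hB, TZc_cyc hN0 k hβ P Q c B hB, TZc_cyc hN0 k hβ P Q c B hB]
    exact h2 A A' A'' hA hA' hA''

end T2H01.SE
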