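import Pool.Agent.T2H01.SE.Stm7
import Pool.Agent.T2H01.SE.UA
import Pool.Agent.T2H01.SE.UB

/-!
# Package UM : the charged partition functions of an even torus are nonnegative
-/

set_option autoImplicit false
set_option linter.unusedSectionVars false

noncomputable section

open MeasureTheory Matrix
open scoped Matrix.Norms.Frobenius

namespace T2H01.SE

open T2H02.TT

namespace PkgUM

open PkgTA PkgUA

/-- the cyclic integral of even length is the square of a Hilbert-Schmidt norm -/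
lemma cyc_tau {Y : Type} [MeasurableSpace Y] (ν : Measure Y) [IsProbabilityMeasure ν]
    (a : Y → ℝ) (b : Y → Y → ℂ) (hma : Measurable a) (hmb : Measurable (Function.uncurry b))
    (ha : ∀ y, 0 ≤ a y ∧ a y ≤ 1) (hb : ∀ y y', ‖b y y'‖ ≤ 1 ∧ b y' y = star (b y y'))
    (M : ℕ) [inst : NeZero M] (hM : Even M) : SE.cyc ν a b M = (‖SE.cyc ν a b M‖ : ℂ) := by
  set K : Y → Y → ℂ := fun x y => (Real.sqrt (a x) : ℂ) * b x y * (Real.sqrt (a y) : ℂ) with hKdef
  have ha0 : ∀ y, 0 ≤ a y := fun y => (ha y).1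
  have hsq : ∀ y, ‖(Real.sqrt (a y) : ℂ)‖ ≤ 1 := by
    intro y
    rw [Complex.norm_real, Real.norm_eq_abs, abs_of_nonneg (Real.sqrt_nonneg _)]
    exact Real.sqrt_le_one.mpr (ha y).2
  have hK : Measurable (Function.uncurry K) := by
    have h1 : Measurable (fun p : Y × Y => (Real.sqrt (a p.1) : ℂ)) := by fun_prop
    have h2 : Measurable (fun p : Y × Y => (Real.sqrt (a p.2) : ℂ)) := by fun_prop
    have h3 : Measurable (fun p : Y × Y => b p.1 p.2) := hmb
    exact (h1.mul h3).mul h2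
  have hKb : ∀ x y, ‖K x y‖ ≤ 1 := by
    intro x y
    rw [hKdef]
    simp only [norm_mul]
    exact mul_le_one₀ (mul_le_one₀ (hsq x) (norm_nonneg _) (hb x y).1) (norm_nonneg _) (hsq y)
  have hKh : ∀ x y, K y x = star (K x y) := by
    intro x y
    rw [hKdef]
    simp only [star_mul']
    rw [(hb x y).2]
    have hc : ∀ r : ℝ, star (r : ℂ) = (r : ℂ) := fun r => Complex.conj_ofReal r
    rw [hc, hc]
    ring
  have e2 : ∀ (M : ℕ) (inst : NeZero M) (h : ℕ), M = 2 * h + 1 + 1 →
      SE.cyc ν a b M = (tau ν K h : ℂ) := by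
    intro M inst h hM'
    subst hM'
    unfold SE.cyc
    simp_rw [cyc_kernel a b ha0]
    rw [cyc_int ν K hK hKb _, tau_eq ν K hK hKb hKh]
  obtain ⟨h', hh'⟩ := hM
  obtain ⟨h, rfl⟩ : ∃ h, h' = h + 1 := ⟨h' - 1, by have := inst.out; omega⟩
  rw [e2 M inst h (by rw [hh']; ring), Complex.norm_real, Real.norm_eq_abs,
    abs_of_nonneg (tau_nonneg ν K h)]

end PkgUM

open PkgTB PkgUB PkgUM in
theorem pUM : S_UM := by
  intro N k L _ hN hk P Q hPQ β hβ c A B _ _ hB hA
  have hN0 : 0 < N := by omega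
  rw [TZc_cyc hN0 k hβ P Q c B hB]
  exact cyc_tau (mw N B L) (a1 k β P Q false) (b1 k β c P Q false)
    ((a0_meas k β).comp (fz_meas P Q false)) (b1_meas k β c P Q false)
    (fun y => a0_bd k hβ _)
    (fun y y' => ⟨b1_norm hN0 k hβ c P Q false y y', b1_refl (by omega) k β c P Q false y y'⟩)
    A hA

end T2H01.SE
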