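import Pool.Agent.T2H01.SE.Stm7
import Pool.Agent.T2H01.SE.TE
import Pool.Agent.T2H01.SE.TW

/-!
# Package UN : charge zero, bounds
-/

set_option autoImplicit false
set_option linter.unusedSectionVars false

noncomputable section

open MeasureTheory Matrix
open scoped Matrix.Norms.Frobenius

namespace T2H01.SE

open T2H02.TT

namespace PkgUN

variable {N L : ℕ} [NeZero L]

lemma fzF_empty (P Q : SU N) (X : Cf N L) : fzF P Q ∅ X = X := by
  funext l
  unfold fzF
  rw [if_neg]
  intro h
  exact h l.1.1 ((mem_st l _).2 (Or.inl rfl))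

lemma wfd_eq (k : ℕ) (β : ℝ) (A B : ℕ) (X : Cf N L) :
    wfd k β A B X = ∏ τ ∈ fdm A B ×ˢ (Finset.univ : Finset (Fin 4)), wt k β τ X := by
  unfold wfd
  rw [Finset.prod_product]

lemma per_meas (A B : ℕ) [NeZero A] [NeZero B] :
    Measurable fun X : TC N A B L => (per X : Cf N L) :=
  measurable_pi_lambda _ fun _ => measurable_pi_apply _

lemma fdm_card (A B : ℕ) : (fdm A B).card = A * B := by
  unfold fdm
  rw [Finset.card_product, Int.card_Ico, Int.card_Ico]
  simp

end PkgUN

open PkgUN in
theorem pUN (h3 : S_G3) : S_UN := by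
  intro N k L _ hN P Q
  have hN0 : 0 < N := by omega
  obtain ⟨K, hK, hKw⟩ := PkgTE.wt_low h3 N k L hN
  refine ⟨1 + 4 * K, by linarith, ?_⟩
  intro β hβ A B _ _
  have hβ0 : 0 ≤ β := by linarith
  have hTY : TY N L k β P Q ∅ A B =
      ∫ X : TC N A B L, ∏ τ ∈ fdm A B ×ˢ (Finset.univ : Finset (Fin 4)), wt k β τ (per X : Cf N L)
        ∂(Measure.infinitePi fun _ => hm N) := by
    unfold TY
    refine integral_congr_ae (Filter.Eventually.of_forall fun X => ?_)
    beta_reduce
    rw [fzF_empty, wfd_eq]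
  have hmeas : Measurable fun X : TC N A B L =>
      ∏ τ ∈ fdm A B ×ˢ (Finset.univ : Finset (Fin 4)), wt k β τ (per X : Cf N L) :=
    Finset.measurable_prod _ fun τ _ => (wt_cont k β τ).measurable.comp (per_meas A B)
  have h0 : ∀ X : TC N A B L,
      0 ≤ ∏ τ ∈ fdm A B ×ˢ (Finset.univ : Finset (Fin 4)), wt k β τ (per X : Cf N L) := fun X =>
    Finset.prod_nonneg fun τ _ => (wt_pos k β τ _ hN0).le
  have h1 : ∀ X : TC N A B L,
      ∏ τ ∈ fdm A B ×ˢ (Finset.univ : Finset (Fin 4)), wt k β τ (per X : Cf N L) ≤ 1 := fun X =>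
    Finset.prod_le_one (fun τ _ => (wt_pos k β τ _ hN0).le) fun τ _ => wt_le k β hβ0 τ _ hN0
  have hint : Integrable (fun X : TC N A B L =>
      ∏ τ ∈ fdm A B ×ˢ (Finset.univ : Finset (Fin 4)), wt k β τ (per X : Cf N L))
      (Measure.infinitePi fun _ => hm N) := by
    refine Integrable.of_bound hmeas.aestronglyMeasurable 1 (Filter.Eventually.of_forall fun X => ?_)
    rw [Real.norm_eq_abs, abs_of_nonneg (h0 X)]
    exact h1 X
  refine ⟨?_, ?_, ?_, ?_⟩
  · -- charge zero
    rw [hTY]
    unfold TZc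
    rw [← integral_complex_ofReal]
    refine integral_congr_ae (Filter.Eventually.of_forall fun X => ?_)
    beta_reduce
    rw [PkgTE.Wt_zero, PkgTE.fzp_ff]
  · -- lower bound
    rw [hTY]
    have hlow : ∀ X : TC N A B L, Real.exp (-((1 + 4 * K) * β * (A * B))) ≤
        ∏ τ ∈ fdm A B ×ˢ (Finset.univ : Finset (Fin 4)), wt k β τ (per X : Cf N L) := by
      intro X
      have e1 : ∀ τ ∈ fdm A B ×ˢ (Finset.univ : Finset (Fin 4)),
          Real.exp (-(K * β)) ≤ wt k β τ (per X : Cf N L) := by
        intro τ _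
        have := hKw β hβ τ (per X)
        rw [Real.exp_neg, inv_le_iff_one_le_mul₀' (Real.exp_pos _)]
        exact this
      have e2 := Finset.prod_le_prod (fun τ _ => (Real.exp_pos (-(K * β))).le) e1
      refine le_trans ?_ e2
      rw [Finset.prod_const, Finset.card_product, fdm_card, Finset.card_univ, Fintype.card_fin,
        ← Real.exp_nat_mul]
      refine Real.exp_le_exp.2 ?_
      push_cast
      have h5 : 0 ≤ β * ((A : ℝ) * B) := by positivity
      nlinarith
    calc Real.exp (-((1 + 4 * K) * β * (A * B)))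
        = ∫ _X : TC N A B L, Real.exp (-((1 + 4 * K) * β * (A * B)))
            ∂(Measure.infinitePi fun _ => hm N) := by
          rw [integral_const, probReal_univ, one_smul]
      _ ≤ _ := integral_mono (integrable_const _) hint hlow
  · -- upper bound
    rw [hTY]
    calc ∫ X : TC N A B L, ∏ τ ∈ fdm A B ×ˢ (Finset.univ : Finset (Fin 4)), wt k β τ (per X : Cf N L)
          ∂(Measure.infinitePi fun _ => hm N)
        ≤ ∫ _X : TC N A B L, (1 : ℝ) ∂(Measure.infinitePi fun _ => hm N) :=
          integral_mono hint (integrable_const _) h1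
      _ = 1 := by rw [integral_const, probReal_univ, one_smul]
  · -- positivity
    intro n
    unfold TZ
    have hact : ∀ X : TC N A B L, tact k n X =
        ∑ x ∈ fdm A B, ∑ i : Fin 4, enf k (dl 0 n) (per X) (x, i) := fun X =>
      pTW N k L hN n A B X
    simp_rw [hact]
    refine integral_exp_pos ?_
    have hm2 : Measurable fun X : TC N A B L =>
        ∑ x ∈ fdm A B, ∑ i : Fin 4, enf k (dl 0 n) (per X) (x, i) :=
      Finset.measurable_fun_sum _ fun x _ => Finset.measurable_fun_sum _ fun i _ =>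
        (enf_cont k (dl 0 n) (x, i)).measurable.comp (per_meas A B)
    refine Integrable.of_bound (hm2.const_mul (-β)).exp.aestronglyMeasurable 1
      (Filter.Eventually.of_forall fun X => ?_)
    rw [Real.norm_eq_abs, abs_of_pos (Real.exp_pos _)]
    refine Real.exp_le_one_iff.2 ?_
    have h6 : 0 ≤ ∑ x ∈ fdm A B, ∑ i : Fin 4, enf k (dl 0 n) (per X) (x, i) :=
      Finset.sum_nonneg fun x _ => Finset.sum_nonneg fun i _ => enf_nonneg _ _ _ _
    nlinarith [mul_nonneg hβ0 h6]

end T2H01.SE
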