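import Pool.Agent.T2H01.SE.Stm1
import Pool.Agent.T2H02.TT.J

/-!
# Package VA : algebra of the fluxes, gauge and centre invariance
-/

set_option autoImplicit false
set_option linter.unusedSectionVars false

noncomputable section

open MeasureTheory Matrix
open scoped Matrix.Norms.Frobenius

namespace T2H01.SE.PkgVA

open T2H02.TT T2H02.TT.PkgD T2H02.TT.PkgJ

lemma oz_add (N : ℕ) (a b : ℤ) : oz N (a + b) = oz N a * oz N b := by
  unfold oz
  rw [← Complex.exp_add]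
  congr 1
  push_cast
  ring

lemma oz_eq_one {N : ℕ} (hN : N ≠ 0) (a : ℤ) : oz N a = 1 ↔ (N : ℤ) ∣ a := by
  have hN' : (N : ℂ) ≠ 0 := Nat.cast_ne_zero.2 hN
  have h2 : (2 * Real.pi * Complex.I : ℂ) ≠ 0 := Complex.two_pi_I_ne_zero
  unfold oz
  rw [Complex.exp_eq_one_iff]
  constructor
  · rintro ⟨n, hn⟩
    refine ⟨n, ?_⟩
    rw [div_eq_iff hN'] at hn
    have h3 : (2 * Real.pi * Complex.I : ℂ) * a = (2 * Real.pi * Complex.I : ℂ) * ((N : ℂ) * n) := by
      rw [hn]; ring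
    have h4 := mul_left_cancel₀ h2 h3
    exact_mod_cast h4
  · rintro ⟨n, rfl⟩
    refine ⟨n, ?_⟩
    push_cast
    field_simp

lemma oz_nat (N n : ℕ) : oz N (n : ℤ) = om N n := by
  unfold oz om
  push_cast
  rfl

lemma norm_oz (N : ℕ) (a : ℤ) : ‖oz N a‖ = 1 := by
  unfold oz
  rw [show 2 * (Real.pi : ℂ) * Complex.I * a / N = ((2 * Real.pi * a / N : ℝ) : ℂ) * Complex.I by
    push_cast; ring, Complex.norm_exp_ofReal_mul_I]

lemma oz_congr {N : ℕ} (hN : N ≠ 0) (a b : ℤ) (h : (N : ℤ) ∣ a - b) : oz N a = oz N b := by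
  have h1 := (oz_eq_one hN (a - b)).2 h
  have h2 := oz_add N (a - b) b
  rw [sub_add_cancel, h1, one_mul] at h2
  exact h2

lemma exists_om {N : ℕ} (hN : N ≠ 0) (a : ℤ) : ∃ m : Fin N, oz N a = om N (m : ℕ) := by
  have hN' : (N : ℤ) ≠ 0 := by exact_mod_cast hN
  have hpos : (0 : ℤ) < N := by
    rcases Nat.pos_of_ne_zero hN with h
    exact_mod_cast h
  have h0 := Int.emod_nonneg a hN'
  have h1 := Int.emod_lt_of_pos a hpos
  refine ⟨⟨(a % N).toNat, by omega⟩, ?_⟩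
  rw [← oz_nat]
  refine oz_congr hN _ _ ?_
  simp only
  rw [Int.toNat_of_nonneg h0]
  exact Int.dvd_self_sub_emod

variable {N L : ℕ} [NeZero L]

lemma enf_of_ne (k : ℕ) (s : Pl → ℤ) (X : Cf N L) (τ : Tm) (h : τ.2 ≠ 3) :
    enf k s X τ = en k X τ := by
  unfold enf en1 en
  rw [if_neg h]
  obtain ⟨x, i⟩ := τ
  fin_cases i
  · rfl
  · rfl
  · rfl
  · exact absurd rfl h

lemma enf_three (k : ℕ) (s : Pl → ℤ) (X : Cf N L) (τ : Tm) (h : τ.2 = 3) :
    enf k s X τ = eP X (oz N (s τ.1)) τ.1 := by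
  unfold enf
  rw [if_pos h]

lemma enf_gau (k : ℕ) (g : Pt L → SU N) (s : Pl → ℤ) (X : Cf N L) (τ : Tm) :
    enf k s (gau g X) τ = enf k s X τ := by
  by_cases h : τ.2 = 3
  · rw [enf_three k s _ τ h, enf_three k s _ τ h, eP_gau]
  · rw [enf_of_ne k s _ τ h, enf_of_ne k s _ τ h, en_gau]

lemma eP_cmv_oz (z : Pl → Fin 4 → ℕ) (X : Cf N L) (x : Pl) (a : ℤ) :
    eP (cmv z X) (oz N a) x = eP X (oz N (a + crz z x)) x := by
  unfold eP
  refine Finset.sum_congr rfl fun y _ => ?_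
  have : df (cmv z X) (oz N a) (x, y) 0 1 = (cen N (z x 0 + z (x + (1, 0)) 1) : Mt N) *
      df X (oz N (a + crz z x)) (x, y) 0 1 := by
    unfold df
    rw [cmv_plane z X _ (Or.inl rfl), cmv_plane z X _ (Or.inr rfl), cmv_plane z X _ (Or.inr rfl),
      cmv_plane z X _ (Or.inl rfl), nx0, nx1]
    simp only [cmul, cen_coe, Matrix.smul_mul, Matrix.one_mul, Matrix.mul_smul, Matrix.mul_sub,
      smul_smul]
    simp only [← oz_nat, ← oz_add]
    congr 1
    · congr 2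
      push_cast
      ring
    · congr 2
      unfold crz
      push_cast
      ring
  rw [this, nl]

lemma enf_cmv {N L : ℕ} [NeZero L] (hN : N ≠ 0) (k : ℕ) (z : Pl → Fin 4 → ℕ) (s : Pl → ℤ)
    (X : Cf N L) (τ : Tm) :
    enf k s (cmv z X) τ = enf k (fun x => s x + crz z x) X τ := by
  by_cases h : τ.2 = 3
  · rw [enf_three k s _ τ h, enf_three k _ _ τ h, eP_cmv_oz]
  · rw [enf_of_ne k s _ τ h, enf_of_ne k _ _ τ h, en_cmv hN]

lemma en_le_enf {N L : ℕ} [NeZero L] (hN : N ≠ 0) (k : ℕ) (s : Pl → ℤ) (X : Cf N L) (τ : Tm) :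
    en k X τ ≤ enf k s X τ := by
  by_cases h : τ.2 = 3
  · rw [enf_three k s _ τ h]
    obtain ⟨m, hm⟩ := exists_om hN (s τ.1)
    rw [hm]
    obtain ⟨x, i⟩ := τ
    obtain rfl : i = 3 := h
    unfold en
    change (⨅ m : Fin N, eP X (om N m) x) ≤ _
    exact ciInf_le (Set.finite_range _).bddBelow m
  · rw [enf_of_ne k s _ τ h]

lemma EE_nonneg (k : ℕ) (s : Pl → ℤ) (U : Finset Pl) (X : Cf N L) : 0 ≤ EE k s U X :=
  Finset.sum_nonneg fun _ _ => enf_nonneg _ _ _ _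

lemma EE_cont (k : ℕ) (s : Pl → ℤ) (U : Finset Pl) : Continuous fun X : Cf N L => EE k s U X := by
  unfold EE
  exact continuous_finsetSum _ fun τ _ => enf_cont k s τ

lemma Zf_inv {N L : ℕ} [NeZero L] (hJM : S_JM) (hN : 2 ≤ N) (k : ℕ) (β : ℝ) (hβ : 0 ≤ β)
    (g : Pt L → SU N) (z : Pl → Fin 4 → ℕ) (s : Pl → ℤ) (U : Finset Pl) (η : Cf N L) :
    Zf k β s U (gau g (cmv z η)) = Zf k β (fun x => s x + crz z x) U η := by
  have hN0 : N ≠ 0 := by omega
  have hm : Measurable fun X : Cf N L => Real.exp (-β * EE k s U X) := by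
    have h2 : Continuous fun X : Cf N L => -β * EE k s U X := continuous_const.mul (EE_cont k s U)
    exact (Real.continuous_exp.comp h2).measurable
  have hb : ∃ K, ∀ X : Cf N L, |Real.exp (-β * EE k s U X)| ≤ K := by
    refine ⟨1, fun X => ?_⟩
    rw [abs_of_pos (Real.exp_pos _)]
    refine Real.exp_le_one_iff.2 ?_
    have := mul_nonneg hβ (EE_nonneg k s U X)
    linarith
  have h0 := hJM N L hN (Frl L U) (fun X => Real.exp (-β * EE k s U X)) hm hb η
  have h1 := h0.1 g z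
  have h3 : ∀ X : Cf N L, EE k s U (gau g (cmv z X)) = EE k (fun x => s x + crz z x) U X := by
    intro X
    unfold EE
    refine Finset.sum_congr rfl fun τ _ => ?_
    rw [enf_gau, enf_cmv hN0]
  simp only [h3] at h1
  unfold Zf
  exact h1.symm

end T2H01.SE.PkgVA

namespace T2H01.SE

open T2H02.TT PkgVA

theorem pVA (_hJI : S_JI) (hJM : S_JM) : S_VA := by
  intro N k L _ hN
  have hN0 : N ≠ 0 := by omega
  exact ⟨oz_add N, oz_eq_one hN0, oz_nat N, norm_oz N, oz_congr hN0,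
    fun g z s X τ => ⟨enf_gau k g s X τ, enf_cmv hN0 k z s X τ⟩,
    fun s X τ => en_le_enf hN0 k s X τ,
    fun β hβ g z s U η => Zf_inv hJM hN k β hβ g z s U η⟩

end T2H01.SE
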