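import Pool.Agent.T2H01.SE.Stm1

/-!
# Package VE: lower bound of the energy in the presence of a flux
-/

set_option autoImplicit false
set_option linter.unusedSectionVars false

noncomputable section

open MeasureTheory Matrix
open scoped Matrix.Norms.Frobenius

namespace T2H01.SE

open T2H02.TT

namespace PkgVE

variable {N L : ℕ} [NeZero L]

/-- translate of a configuration -/
def tX (v : Pl) (X : Cf N L) : Cf N L := fun l => X ((l.1.1 + v, l.1.2), l.2)

lemma nx_tr (v x : Pl) (y : Tor L) (i : Fin 4) :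
    nx (x + v, y) i = ((nx (x, y) i).1 + v, (nx (x, y) i).2) := by
  unfold nx
  simp only [Prod.mk.injEq]
  exact ⟨by abel, trivial⟩

lemma df_tX (v x : Pl) (y : Tor L) (z : ℂ) (i j : Fin 4) (X : Cf N L) :
    df (tX v X) z (x, y) i j = df X z (x + v, y) i j := by
  unfold df
  simp only [nx_tr]
  rfl

lemma enf_tX (k : ℕ) (s : Pl → ℤ) (v : Pl) (X : Cf N L) (τ : Tm) :
    enf k s (tX v X) τ = enf k (fun z => s (z - v)) X (τ.1 + v, τ.2) := by
  obtain ⟨x, i⟩ := τ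
  unfold enf en1 eV eK eP
  simp only [df_tX, add_sub_cancel_right]

lemma cor_tr (τ : Tm) (v b : Pl) : b + v ∈ cor (τ.1 + v, τ.2) ↔ b ∈ cor τ := by
  obtain ⟨x, i⟩ := τ
  have h : ∀ c : Pl, (b + v = x + v + c) ↔ (b = x + c) := by
    intro c
    rw [add_right_comm]
    exact add_left_inj v
  fin_cases i
  · change b + v ∈ cor (x + v, 0) ↔ b ∈ cor (x, 0)
    rw [mem_cor0, mem_cor0, add_left_inj]
  · change b + v ∈ cor (x + v, 1) ↔ b ∈ cor (x, 1)
    rw [mem_cor1, mem_cor1, add_left_inj, h]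
  · change b + v ∈ cor (x + v, 2) ↔ b ∈ cor (x, 2)
    rw [mem_cor2, mem_cor2, add_left_inj, h]
  · change b + v ∈ cor (x + v, 3) ↔ b ∈ cor (x, 3)
    rw [mem_cor3, mem_cor3, add_left_inj, h, h, h]

lemma mem_img (U : Finset Pl) (a b : Pl) : b ∈ U.image (fun x => x - a) ↔ b + a ∈ U := by
  rw [Finset.mem_image]
  constructor
  · rintro ⟨c, hc, rfl⟩
    simpa using hc
  · intro h
    exact ⟨b + a, h, by simp⟩

lemma tml_tr (U : Finset Pl) (a : Pl) (τ : Tm) :
    τ ∈ tml (U.image (fun x => x - a)) ↔ ((τ.1 + a, τ.2) : Tm) ∈ tml U := by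
  rw [mem_tml, mem_tml]
  constructor
  · rintro ⟨b, hb, hb'⟩
    exact ⟨b + a, (cor_tr τ a b).2 hb, (mem_img U a b).1 hb'⟩
  · rintro ⟨b, hb, hb'⟩
    refine ⟨b - a, (cor_tr τ a (b - a)).1 (by simpa using hb), (mem_img U a _).2 (by simpa using hb')⟩

lemma spt_fst (τ : Tm) (l : Lk L) (h : l ∈ (spt τ : Finset (Lk L))) :
    τ.1 = l.1.1 ∨ τ.1 = l.1.1 - (1, 0) ∨ τ.1 = l.1.1 - (0, 1) := by
  obtain ⟨x, i⟩ := τ
  fin_cases i
  · obtain ⟨y, rfl | rfl⟩ := (mem_spt0 x l).1 h <;> simp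
  · obtain ⟨y, rfl | rfl | rfl | rfl | rfl⟩ := (mem_spt1 x l).1 h <;> simp
  · obtain ⟨y, rfl | rfl | rfl | rfl | rfl⟩ := (mem_spt2 x l).1 h <;> simp
  · obtain ⟨y, rfl | rfl | rfl | rfl⟩ := (mem_spt3 x l).1 h <;> simp

lemma card_terms (T : Finset Tm) (l : Lk L) :
    (T.filter fun τ => l ∈ (spt τ : Finset (Lk L))).card ≤ 12 := by
  have h : (T.filter fun τ => l ∈ (spt τ : Finset (Lk L))) ⊆
      ({l.1.1, l.1.1 - (1, 0), l.1.1 - (0, 1)} : Finset Pl) ×ˢ (Finset.univ : Finset (Fin 4)) := by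
    intro τ hτ
    rw [Finset.mem_filter] at hτ
    rw [Finset.mem_product]
    refine ⟨?_, Finset.mem_univ _⟩
    have := spt_fst τ l hτ.2
    simp only [Finset.mem_insert, Finset.mem_singleton]
    exact this
  refine (Finset.card_le_card h).trans ?_
  rw [Finset.card_product, Finset.card_univ, Fintype.card_fin]
  have := Finset.card_le_three (a := l.1.1) (b := l.1.1 - (1, 0)) (c := l.1.1 - (0, 1))
  omega

lemma mem_Nb1 (a b : Pl) (h : near 1 b a) : b ∈ Nb 1 a := by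
  obtain ⟨h1, h2⟩ := h
  rw [abs_le] at h1 h2
  unfold Nb
  rw [Finset.mem_product, Finset.mem_Icc, Finset.mem_Icc]
  push_cast
  exact ⟨⟨by linarith, by linarith⟩, by linarith, by linarith⟩

lemma mem_rlk (U : Finset Pl) (τ : Tm) (hτ : τ ∈ tml U) (l : Lk L)
    (hl : l ∈ (spt τ : Finset (Lk L))) (hl' : l ∉ Frl L U) : l ∈ rlk L U := by
  have key : ∀ b ∈ st l, b ∈ pls U \ U := by
    intro b hb
    rw [Finset.mem_sdiff]
    refine ⟨?_, fun hbU => hl' ((mem_Frl _ _).2 ⟨b, hb, hbU⟩)⟩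
    obtain ⟨c, hc, hcU⟩ := (mem_tml _ _).1 hτ
    rw [pls, Finset.mem_biUnion]
    refine ⟨c, hcU, ?_⟩
    have hb' : b ∈ cor τ := (cor_iff τ b).2 ⟨l, hl, hb⟩
    exact mem_Nb1 c b (diam_cor τ b hb' c hc)
  rw [rlk, Finset.mem_filter]
  have h1 : l.1.1 ∈ st l := (mem_st l _).2 (Or.inl rfl)
  exact ⟨(mem_Frl _ _).2 ⟨l.1.1, h1, key _ h1⟩, key⟩

/-- the energy of the translate -/
lemma EE_tr (k : ℕ) (P Q : SU N) (hV : ∀ (s : Pl → ℤ) (τ : Tm), (τ.2 = 3 → (N : ℤ) ∣ s τ.1) →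
      enf k s (vc P Q : Cf N L) τ = 0)
    (U : Finset Pl) (a : Pl) (n : ℤ) (X : Cf N L) (ha : a ∈ cl U)
    (hX : ∀ l, l ∉ Frl L U → X l = vc P Q l) :
    EE k (dl 0 n) (insert 0 (U.image (fun x => x - a))) (tX a X) = EE k (dl a n) U X := by
  have hsub : tml (U.image (fun x => x - a)) ⊆ tml (insert 0 (U.image (fun x => x - a))) := by
    intro τ hτ
    obtain ⟨b, hb, hb'⟩ := (mem_tml _ _).1 hτ
    exact (mem_tml _ _).2 ⟨b, hb, Finset.mem_insert_of_mem hb'⟩
  have h0 : ((0 : Pl), (3 : Fin 4)) ∈ tml (U.image (fun x => x - a)) := by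
    rw [tml_tr]
    obtain ⟨b, hb, hb'⟩ := (mem_cl U a).1 ha
    refine (mem_tml _ _).2 ⟨b, ?_, hb'⟩
    simpa using hb
  unfold EE
  rw [← Finset.sum_subset hsub]
  · refine Finset.sum_bij (fun τ _ => ((τ.1 + a, τ.2) : Tm)) ?_ ?_ ?_ ?_
    · intro τ hτ
      exact (tml_tr U a τ).1 hτ
    · intro τ _ τ' _ h
      simp only [Prod.mk.injEq, add_left_inj] at h
      exact Prod.ext h.1 h.2
    · intro τ hτ
      refine ⟨(τ.1 - a, τ.2), (tml_tr U a _).2 (by simpa using hτ), by simp⟩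
    · intro τ _
      rw [enf_tX]
      congr 1
      funext z
      unfold dl
      simp only [sub_eq_zero]
  · intro τ _ hτ
    have h1 : enf k (dl 0 n) (tX a X) τ = enf k (dl 0 n) (vc P Q : Cf N L) τ := by
      refine enf_loc k _ _ τ _ _ ?_ (fun _ => rfl)
      intro l hl
      unfold tX
      rw [hX]
      · rfl
      · intro hF
        apply hτ
        obtain ⟨b, hb, hbU⟩ := (mem_Frl _ _).1 hF
        rw [mem_tml]
        refine ⟨b - a, ?_, (mem_img U a _).2 (by simpa using hbU)⟩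
        rw [cor_iff (L := L)]
        refine ⟨l, hl, ?_⟩
        rw [mem_st] at hb ⊢
        rcases hb with rfl | rfl
        · left; simp
        · right; simp only; abel
    rw [h1]
    refine hV _ _ fun h3 => ?_
    unfold dl
    split_ifs with h4
    · exfalso
      apply hτ
      have : τ = ((0 : Pl), (3 : Fin 4)) := Prod.ext h4 h3
      rw [this]
      exact h0
    · exact dvd_zero _

end PkgVE

open PkgVE in
theorem pVE (hVL : S_VL) : S_VE := by
  intro N k L _ hN hk P Q hPQ ρ hρ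
  obtain ⟨⟨C₀, hC₀, hL⟩, hV, -⟩ := hVL N k L hN hk P Q hPQ
  have h1ρ : 0 < 1 / ρ := by positivity
  refine ⟨(1 + 1 / ρ) * C₀ * 12, by nlinarith, ?_⟩
  intro U a n X ha hn
  set X' : Cf N L := glue (Frl L U) X (vc P Q) with hX'
  have hoff : ∀ l, l ∉ Frl L U → X' l = vc P Q l := by
    intro l hl
    rw [hX']
    unfold glue
    rw [if_neg hl]
  have hon : ∀ l, l ∈ Frl L U → X' l = X l := by
    intro l hl
    rw [hX']
    unfold glue
    rw [if_pos hl]
  -- the translate is in `vset`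
  have h1 : SS L k P Q ≤ EE k (dl a n) U X' := by
    rw [← EE_tr k P Q hV U a n X' ha hoff]
    refine csInf_le ⟨0, ?_⟩ ⟨n, insert 0 (U.image (fun x => x - a)), tX a X', hn,
      Finset.mem_insert_self _ _, ?_, rfl⟩
    · rintro e ⟨m, V, Y, -, -, -, rfl⟩
      exact Finset.sum_nonneg fun τ _ => enf_nonneg _ _ _ _
    · intro l hl
      unfold tX
      rw [hoff]
      · rfl
      · intro hF
        apply hl
        obtain ⟨b, hb, hbU⟩ := (mem_Frl _ _).1 hF
        rw [mem_Frl]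
        refine ⟨b - a, ?_, Finset.mem_insert_of_mem ((mem_img U a _).2 (by simpa using hbU))⟩
        rw [mem_st] at hb ⊢
        rcases hb with rfl | rfl
        · left; simp
        · right; simp only; abel
  -- comparison of the energies
  have h2 : EE k (dl a n) U X' ≤ (1 + ρ) * EE k (dl a n) U X +
      (1 + 1 / ρ) * C₀ * ∑ τ ∈ tml U, ∑ l ∈ (spt τ : Finset (Lk L)),
        ‖(X' l : Mt N) - (X l : Mt N)‖ ^ 2 := by
    unfold EE
    rw [Finset.mul_sum, Finset.mul_sum, ← Finset.sum_add_distrib]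
    exact Finset.sum_le_sum fun τ _ => hL ρ hρ (dl a n) τ X X'
  have h3 : ∑ τ ∈ tml U, ∑ l ∈ (spt τ : Finset (Lk L)), ‖(X' l : Mt N) - (X l : Mt N)‖ ^ 2 ≤
      12 * rD P Q X U := by
    have h4 : ∀ τ ∈ tml U, ∑ l ∈ (spt τ : Finset (Lk L)), ‖(X' l : Mt N) - (X l : Mt N)‖ ^ 2 ≤
        ∑ l ∈ rlk L U, if l ∈ (spt τ : Finset (Lk L)) then
          ‖(X l : Mt N) - (vc P Q l : Mt N)‖ ^ 2 else 0 := by
      intro τ hτ
      rw [← Finset.sum_filter]
      have h5 : ∑ l ∈ (spt τ : Finset (Lk L)), ‖(X' l : Mt N) - (X l : Mt N)‖ ^ 2 =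
          ∑ l ∈ (spt τ : Finset (Lk L)).filter (fun l => l ∉ Frl L U),
            ‖(X l : Mt N) - (vc P Q l : Mt N)‖ ^ 2 := by
        rw [Finset.sum_filter]
        refine Finset.sum_congr rfl fun l _ => ?_
        by_cases h : l ∈ Frl L U
        · rw [hon l h, sub_self, norm_zero, if_neg (not_not.2 h)]
          norm_num
        · rw [hoff l h, norm_sub_rev, if_pos h]
      rw [h5]
      refine Finset.sum_le_sum_of_subset_of_nonneg ?_ fun _ _ _ => by positivity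
      intro l hl
      rw [Finset.mem_filter] at hl ⊢
      exact ⟨mem_rlk U τ hτ l hl.1 hl.2, hl.1⟩
    refine (Finset.sum_le_sum h4).trans ?_
    rw [Finset.sum_comm, rD, Finset.mul_sum]
    refine Finset.sum_le_sum fun l _ => ?_
    rw [← Finset.sum_filter, Finset.sum_const, nsmul_eq_mul]
    refine mul_le_mul_of_nonneg_right ?_ (by positivity)
    exact_mod_cast card_terms (tml U) l
  have h6 : 0 ≤ (1 + 1 / ρ) * C₀ := by positivity
  calc SS L k P Q ≤ EE k (dl a n) U X' := h1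
    _ ≤ (1 + ρ) * EE k (dl a n) U X + (1 + 1 / ρ) * C₀ * _ := h2
    _ ≤ (1 + ρ) * EE k (dl a n) U X + (1 + 1 / ρ) * C₀ * (12 * rD P Q X U) := by
        have := mul_le_mul_of_nonneg_left h3 h6
        linarith
    _ = (1 + ρ) * EE k (dl a n) U X + (1 + 1 / ρ) * C₀ * 12 * rD P Q X U := by ring

end T2H01.SE
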