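import Pool.Agent.T2H01.SE.Stm1

/-!
# Package VF: fluxes and blocks in the joint system
-/

set_option autoImplicit false
set_option linter.unusedSectionVars false

noncomputable section

open MeasureTheory Matrix
open scoped Matrix.Norms.Frobenius

namespace T2H01.SE

open T2H02.TT

namespace PkgVF

variable {N L : ℕ} [NeZero L]

/-! ### combinatorics of rectangles -/

lemma tele (F : ℤ → ℤ) (a b : ℤ) (h : a ≤ b) :
    ∑ i ∈ Finset.Icc a b, (F (i + 1) - F i) = F (b + 1) - F a := by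
  induction b, h using Int.leInduction with
  | base => simp
  | succ b hb ih =>
    have h1 : Finset.Icc a (b + 1) = insert (b + 1) (Finset.Icc a b) := by
      ext i
      simp only [Finset.mem_insert, Finset.mem_Icc]
      omega
    rw [h1, Finset.sum_insert (by simp), ih]
    ring

lemma mem_rc (a b x : Pl) : x ∈ rc a b ↔ (a.1 ≤ x.1 ∧ x.1 ≤ b.1) ∧ (a.2 ≤ x.2 ∧ x.2 ≤ b.2) := by
  rw [rc, Finset.mem_product, Finset.mem_Icc, Finset.mem_Icc]

lemma cl_rc (a b : Pl) (h1 : a.1 ≤ b.1) (h2 : a.2 ≤ b.2) : cl (rc a b) = rc (a - (1, 1)) b := by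
  ext x
  rw [mem_cl, mem_rc]
  simp only [mem_cor3, Prod.fst_sub, Prod.snd_sub]
  constructor
  · rintro ⟨c, rfl | rfl | rfl | rfl, hc⟩ <;> rw [mem_rc] at hc <;>
      (try simp only [Prod.fst_add, Prod.snd_add] at hc) <;> omega
  · intro h
    by_cases k1 : x.1 < a.1
    · by_cases k2 : x.2 < a.2
      · refine ⟨x + (1, 1), by tauto, ?_⟩
        rw [mem_rc]; simp only [Prod.fst_add, Prod.snd_add]; omega
      · refine ⟨x + (1, 0), by tauto, ?_⟩
        rw [mem_rc]; simp only [Prod.fst_add, Prod.snd_add]; omega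
    · by_cases k2 : x.2 < a.2
      · refine ⟨x + (0, 1), by tauto, ?_⟩
        rw [mem_rc]; simp only [Prod.fst_add, Prod.snd_add]; omega
      · refine ⟨x, by tauto, ?_⟩
        rw [mem_rc]; omega

lemma mem_pls_rc (a b x : Pl) (h1 : a.1 ≤ b.1) (h2 : a.2 ≤ b.2) :
    x ∈ pls (rc a b) ↔ (a.1 - 1 ≤ x.1 ∧ x.1 ≤ b.1 + 1) ∧ (a.2 - 1 ≤ x.2 ∧ x.2 ≤ b.2 + 1) := by
  rw [pls, Finset.mem_biUnion]
  have hN : ∀ c : Pl, x ∈ Nb 1 c ↔
      (c.1 - 1 ≤ x.1 ∧ x.1 ≤ c.1 + 1) ∧ (c.2 - 1 ≤ x.2 ∧ x.2 ≤ c.2 + 1) := by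
    intro c
    unfold Nb
    rw [Finset.mem_product, Finset.mem_Icc, Finset.mem_Icc]
    push_cast
    exact Iff.rfl
  constructor
  · rintro ⟨c, hc, hx⟩
    rw [mem_rc] at hc
    rw [hN] at hx
    omega
  · intro h
    refine ⟨(max a.1 (min x.1 b.1), max a.2 (min x.2 b.2)), ?_, ?_⟩
    · rw [mem_rc]
      simp only
      omega
    · rw [hN]
      simp only
      omega

/-- links of the boundary of the rectangle `rc (a - (1,1)) (b + (1,1))` -/
lemma ring_sum (a b : Pl) (h1 : a.1 ≤ b.1) (h2 : a.2 ≤ b.2) (δ : Pl → Fin 4 → ℤ)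
    (h : ∀ x, ∀ m : Fin 4, (m = 0 ∨ m = 1) → x ∈ pls (rc a b) \ rc a b →
      x + pe m ∈ pls (rc a b) \ rc a b → δ x m = 0) :
    ∑ x ∈ cl (rc a b), (δ x 1 + δ (x + (0, 1)) 0 - δ x 0 - δ (x + (1, 0)) 1) = 0 := by
  rw [cl_rc a b h1 h2]
  have e1 : ∑ x ∈ rc (a - (1, 1)) b, (δ (x + (0, 1)) 0 - δ x 0) = 0 := by
    rw [rc, Finset.sum_product]
    refine Finset.sum_eq_zero fun i hi => ?_
    rw [Finset.mem_Icc] at hi
    simp only [Prod.fst_sub, Prod.snd_sub] at hi ⊢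
    have h3 := tele (fun j => δ (i, j) 0) (a.2 - 1) b.2 (by omega)
    have h4 : ∀ j : ℤ, ((i, j) : Pl) + (0, 1) = (i, j + 1) := by
      intro j; simp
    simp only [h4]
    rw [h3]
    have hp : (pe 0 : Pl) = (1, 0) := rfl
    rw [h (i, b.2 + 1) 0 (Or.inl rfl), h (i, a.2 - 1) 0 (Or.inl rfl)]
    · simp
    all_goals
      rw [Finset.mem_sdiff, mem_pls_rc a b _ h1 h2, mem_rc]
      simp only [hp, Prod.mk_add_mk]
      omega
  have e2 : ∑ x ∈ rc (a - (1, 1)) b, (δ (x + (1, 0)) 1 - δ x 1) = 0 := by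
    rw [rc, Finset.sum_product_right]
    refine Finset.sum_eq_zero fun i hi => ?_
    rw [Finset.mem_Icc] at hi
    simp only [Prod.fst_sub, Prod.snd_sub] at hi ⊢
    have h3 := tele (fun j => δ (j, i) 1) (a.1 - 1) b.1 (by omega)
    have h4 : ∀ j : ℤ, ((j, i) : Pl) + (1, 0) = (j + 1, i) := by
      intro j; simp
    simp only [h4]
    rw [h3]
    have hp : (pe 1 : Pl) = (0, 1) := rfl
    rw [h (b.1 + 1, i) 1 (Or.inr rfl), h (a.1 - 1, i) 1 (Or.inr rfl)]
    · simp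
    all_goals
      rw [Finset.mem_sdiff, mem_pls_rc a b _ h1 h2, mem_rc]
      simp only [hp, Prod.mk_add_mk]
      omega
  have e3 : ∑ x ∈ rc (a - (1, 1)) b, (δ x 1 + δ (x + (0, 1)) 0 - δ x 0 - δ (x + (1, 0)) 1) =
      ∑ x ∈ rc (a - (1, 1)) b, (δ (x + (0, 1)) 0 - δ x 0) -
        ∑ x ∈ rc (a - (1, 1)) b, (δ (x + (1, 0)) 1 - δ x 1) := by
    rw [← Finset.sum_sub_distrib]
    refine Finset.sum_congr rfl fun x _ => ?_
    ring
  rw [e3, e1, e2, sub_zero]

/-- the total curl is determined by the ring -/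
lemma crz_ring (G : Ph N L → Tor L → SU N) (a b : Pl) (h1 : a.1 ≤ b.1) (h2 : a.2 ≤ b.2)
    (X : Cf N L) :
    ∑ x ∈ cl (rc a b), crz (zz G X) x = ∑ x ∈ cl (rc a b), crz (zr G (rc a b) X) x := by
  rw [← sub_eq_zero, ← Finset.sum_sub_distrib]
  rw [← ring_sum a b h1 h2 (fun x m => (zz G X x m : ℤ) - (zr G (rc a b) X x m : ℤ))]
  · refine Finset.sum_congr rfl fun x _ => ?_
    unfold crz
    ring
  · intro x m hm hx hx'
    rw [zr, if_pos ⟨hm, hx, hx'⟩, sub_self]

/-- locality of the centre transformation of the ring -/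
lemma zr_loc (G : Ph N L → Tor L → SU N) (U : Finset Pl) (X Y : Cf N L)
    (h : ∀ l, l ∉ Frl L U → X l = Y l) : zr G U X = zr G U Y := by
  funext x m
  unfold zr
  by_cases hc : (m = 0 ∨ m = 1) ∧ x ∈ pls U \ U ∧ x + pe m ∈ pls U \ U
  · rw [if_pos hc, if_pos hc]
    obtain ⟨-, hx, hx'⟩ := hc
    rw [Finset.mem_sdiff] at hx hx'
    have hpt : ∀ x : Pl, x ∉ U → pt X x = pt Y x := by
      intro x hx
      funext y j
      unfold pt
      refine h _ fun hF => ?_
      obtain ⟨c, hc, hcU⟩ := (mem_Frl _ _).1 hF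
      rw [mem_st] at hc
      have hc' : c = x := by
        rcases hc with rfl | rfl
        · rfl
        · split_ifs <;> simp [pe, h00]
      rw [hc'] at hcU
      exact hx hcU
    have hl : ∀ y : Tor L, X ((x, y), m) = Y ((x, y), m) := by
      intro y
      refine h _ fun hF => ?_
      obtain ⟨c, hc, hcU⟩ := (mem_Frl _ _).1 hF
      rw [mem_st] at hc
      rcases hc with rfl | rfl
      · exact hx.2 hcU
      · exact hx'.2 hcU
    unfold zz
    simp only [hpt x hx.2, hpt _ hx'.2, hl]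
  · rw [if_neg hc, if_neg hc]

/-! ### periodic functions -/

lemma shift_sum {M : Type*} [AddCommGroup M] (N : ℕ) (F : ℤ → M) (hF : ∀ n, F (n + N) = F n)
    (s : ℤ) : ∑ n ∈ Finset.range N, F ((n : ℤ) + s) = ∑ n ∈ Finset.range N, F (n : ℤ) := by
  have h1 : ∀ t : ℤ, ∑ n ∈ Finset.range N, F ((n : ℤ) + (t + 1)) =
      ∑ n ∈ Finset.range N, F ((n : ℤ) + t) := by
    intro t
    have h2 := Finset.sum_range_succ (fun n : ℕ => F ((n : ℤ) + t)) N
    have h3 := Finset.sum_range_succ' (fun n : ℕ => F ((n : ℤ) + t)) N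
    rw [h2] at h3
    simp only [Nat.cast_add, Nat.cast_one, Nat.cast_zero, zero_add] at h3
    have h4 : F ((N : ℤ) + t) = F t := by rw [add_comm, hF]
    rw [h4] at h3
    have h5 := add_right_cancel h3
    rw [h5]
    refine Finset.sum_congr rfl fun n _ => ?_
    congr 1
    ring
  induction s using Int.induction_on with
  | zero => simp
  | succ i ih => rw [h1, ih]
  | pred i ih =>
    have := h1 (-(i : ℤ) - 1)
    rw [sub_add_cancel] at this
    rw [← this, ih]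

lemma ker_congr (k : ℕ) (β : ℝ) (hβ : 0 ≤ β) (U : Finset Pl) (f g : Cj N L → ℝ) (ω : Cj N L)
    (h : ∀ ξ, f (glue (FrJ L U) ξ ω) = g (glue (FrJ L U) ξ ω)) :
    (sysJ N L k β hβ).ker (mj N) U f ω = (sysJ N L k β hβ).ker (mj N) U g ω := by
  unfold Sys.ker Sys.num
  have h1 : ∀ ξ, f (glue ((sysJ N L k β hβ).Fr U) ξ ω) = g (glue ((sysJ N L k β hβ).Fr U) ξ ω) := h
  simp only [h1]

lemma lk_glue (U : Finset Pl) (ξ ω : Cj N L) (l : Lk L) (hl : l ∉ Frl L U) :
    lk (glue (FrJ L U) ξ ω) l = lk ω l := by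
  unfold lk glue
  rw [if_neg]
  rw [mem_FrJ]
  rintro ⟨c, hc, hcU⟩
  exact hl ((mem_Frl _ _).2 ⟨c, hc, hcU⟩)

lemma Zf_nonneg (k : ℕ) (β : ℝ) (s : Pl → ℤ) (U : Finset Pl) (η : Cf N L) :
    0 ≤ Zf k β s U η := integral_nonneg fun _ => (Real.exp_pos _).le

lemma mem_cl_self (a b : Pl) (h1 : a.1 ≤ b.1) (h2 : a.2 ≤ b.2) : a ∈ cl (rc a b) :=
  (mem_cl _ _).2 ⟨a, (mem_cor3 a a).2 (Or.inl rfl), (mem_rc _ _ _).2 ⟨⟨le_rfl, h1⟩, le_rfl, h2⟩⟩

lemma sum_dl (T : Finset Pl) (a : Pl) (n : ℤ) (h : a ∈ T) : ∑ x ∈ T, dl a n x = n := by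
  unfold dl
  rw [Finset.sum_ite_eq' T a, if_pos h]

/-- periodicity in the flux -/
lemma Zf_per (hVS : S_VS) (k : ℕ) (hN : 2 ≤ N) (β : ℝ) (hβ : 0 ≤ β) (a b : Pl) (h1 : a.1 ≤ b.1)
    (h2 : a.2 ≤ b.2) (η : Cf N L) (n : ℤ) :
    Zf k β (dl a (n + N)) (rc a b) η = Zf k β (dl a n) (rc a b) η := by
  refine hVS N k L hN β hβ a b h1 h2 _ _ η ?_
  rw [Finset.sum_sub_distrib, sum_dl _ _ _ (mem_cl_self a b h1 h2),
    sum_dl _ _ _ (mem_cl_self a b h1 h2)]
  simp

/-- change of frame -/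
lemma Zf_frame (hVA : S_VA) (hVS : S_VS) (k : ℕ) (hN : 2 ≤ N) (β : ℝ) (hβ : 0 ≤ β) (a b : Pl)
    (h1 : a.1 ≤ b.1) (h2 : a.2 ≤ b.2) (g : Pt L → SU N) (z : Pl → Fin 4 → ℕ) (X : Cf N L) (n : ℤ) :
    Zf k β (dl a n) (rc a b) X =
      Zf k β (dl a (n - ∑ x ∈ cl (rc a b), crz z x)) (rc a b) (gau g (cmv z X)) := by
  have h3 := (hVA N k L hN).2.2.2.2.2.2.2 β hβ g z (fun x => dl a n x - crz z x) (rc a b) X
  have h4 : (fun x => dl a n x - crz z x + crz z x) = dl a n := by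
    funext x
    ring
  rw [h4] at h3
  rw [← h3]
  refine hVS N k L hN β hβ a b h1 h2 _ _ _ ?_
  rw [Finset.sum_sub_distrib, Finset.sum_sub_distrib, sum_dl _ _ _ (mem_cl_self a b h1 h2),
    sum_dl _ _ _ (mem_cl_self a b h1 h2)]
  simp

end PkgVF

open PkgVF in
theorem pVF (hVA : S_VA) (hVR : S_VR) (hVG : S_VG) (hVJ : S_VJ) (hEG : S_EG) (hVS : S_VS) :
    S_VF := by
  intro N k L _ hN hk P Q hPQ ρ hρ
  obtain ⟨C, hC, hG0⟩ := hVG N k L hN hk P Q hPQ
  have hCpos : 0 < C := by linarith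
  have hoz := hVA N k L hN
  constructor
  · obtain ⟨⟨e, he, h1⟩, -⟩ := hVR N k L hN hk P Q hPQ (ρ / 2) (half_pos hρ)
    refine ⟨e / (2 * C), by positivity, fun K => ?_⟩
    obtain ⟨β₀, hβ₀, h⟩ := h1 K
    refine ⟨max β₀ (2 * Real.log N / ρ), le_max_of_le_left hβ₀, ?_⟩
    intro β hβ hββ ε hε G hG a b ha hb hKa hKb hcard ω hrE
    have hβ1 : β₀ ≤ β := (le_max_left _ _).trans hββ
    have hβ2 : 2 * Real.log N / ρ ≤ β := (le_max_right _ _).trans hββ
    set X := lk ω with hX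
    set z := zr G (rc a b) X with hz
    set σ := gau (gg G (rc a b) X) (cmv z X) with hσ
    set S := ∑ x ∈ cl (rc a b), crz z x with hS
    have hrD : rD P Q σ (rc a b) ≤ e := by
      refine ((hG0 ε hε G hG).2 (rc a b) X).trans ?_
      calc C * (rE k X (rc a b) + (pls (rc a b)).card * ε) ≤ C * (e / (2 * C) + e / (2 * C)) :=
            mul_le_mul_of_nonneg_left (add_le_add hrE hcard) hCpos.le
        _ = e := by field_simp; ring
    have hn := h β hβ1 a b ha hb hKa hKb σ hrD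
    have hker : (sysJ N L k β hβ).ker (mj N) (rc a b)
        (fun ω' => ind (¬ (N : ℤ) ∣ ∑ x ∈ cl (rc a b), fd G ω' x)) ω =
        (sysJ N L k β hβ).ker (mj N) (rc a b)
          (fun ω' => (fun n : ℤ => ind (¬ (N : ℤ) ∣ n - S)) (∑ x ∈ cl (rc a b), fx ω' x)) ω := by
      refine ker_congr k β hβ (rc a b) _ _ ω fun ξ => ?_
      simp only [fd]
      rw [Finset.sum_sub_distrib, crz_ring G a b ha hb,
        zr_loc G (rc a b) (lk (glue (FrJ L (rc a b)) ξ ω)) X fun l hl => lk_glue _ _ _ l hl]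
    rw [hker, (hVJ N k L hN β hβ).2 a b ha hb (fun n : ℤ => ind (¬ (N : ℤ) ∣ n - S)) ?_ ω]
    swap
    · intro n
      have : (N : ℤ) ∣ n + N - S ↔ (N : ℤ) ∣ n - S := by
        rw [show n + N - S = (n - S) + N by ring]
        exact dvd_add_self_right
      simp only [this]
    have hfr : ∀ n : ℤ, Zf k β (dl a n) (rc a b) X = Zf k β (dl a (n - S)) (rc a b) σ := fun n =>
      Zf_frame hVA hVS k hN β hβ a b ha hb _ z X n
    have hD : ∑ n ∈ Finset.range N, Zf k β (dl a n) (rc a b) X =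
        ∑ n ∈ Finset.range N, Zf k β (dl a n) (rc a b) σ := by
      simp only [hfr]
      exact shift_sum N (fun m => Zf k β (dl a m) (rc a b) σ)
        (fun m => Zf_per hVS k hN β hβ a b ha hb σ m) (-S)
    have hD0 : Zf k β (dl a 0) (rc a b) σ ≤ ∑ n ∈ Finset.range N, Zf k β (dl a n) (rc a b) σ := by
      have := Finset.single_le_sum (f := fun n : ℕ => Zf k β (dl a n) (rc a b) σ)
        (fun n _ => Zf_nonneg k β _ _ _) (Finset.mem_range.2 (by omega : 0 < N))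
      simpa using this
    set E := Real.exp (-β * (SS L k P Q - ρ / 2)) with hE
    have hEp : 0 < E := Real.exp_pos _
    have hnum : ∑ n ∈ Finset.range N, ind (¬ (N : ℤ) ∣ (n : ℤ) - S) * Zf k β (dl a n) (rc a b) X ≤
        N * (E * Zf k β (dl a 0) (rc a b) σ) := by
      have : ∀ n ∈ Finset.range N, ind (¬ (N : ℤ) ∣ (n : ℤ) - S) * Zf k β (dl a n) (rc a b) X ≤
          E * Zf k β (dl a 0) (rc a b) σ := by
        intro n _
        rw [hfr]
        unfold ind
        by_cases hd : (N : ℤ) ∣ (n : ℤ) - S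
        · rw [if_neg (not_not.2 hd), zero_mul]
          exact mul_nonneg hEp.le (Zf_nonneg _ _ _ _ _)
        · rw [if_pos hd, one_mul]
          exact hn _ hd
      refine (Finset.sum_le_sum this).trans ?_
      rw [Finset.sum_const, Finset.card_range, nsmul_eq_mul]
    have hD1 : 0 ≤ ∑ n ∈ Finset.range N, Zf k β (dl a n) (rc a b) X :=
      Finset.sum_nonneg fun n _ => Zf_nonneg _ _ _ _ _
    refine (div_le_of_le_mul₀ hD1 (c := N * E) (by positivity) ?_).trans ?_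
    · refine hnum.trans ?_
      rw [hD, mul_assoc]
      exact mul_le_mul_of_nonneg_left (mul_le_mul_of_nonneg_left hD0 hEp.le) (Nat.cast_nonneg _)
    · have hNpos : (0 : ℝ) < N := by
        have : 0 < N := by omega
        exact_mod_cast this
      have h5 : Real.log N ≤ β * (ρ / 2) := by
        rw [div_le_iff₀ hρ] at hβ2
        linarith
      have h6 : (N : ℝ) ≤ Real.exp (β * (ρ / 2)) := (Real.log_le_iff_le_exp hNpos).1 h5
      calc (N : ℝ) * E ≤ Real.exp (β * (ρ / 2)) * E := mul_le_mul_of_nonneg_right h6 hEp.le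
        _ = Real.exp (-β * (SS L k P Q - ρ)) := by
            rw [hE, ← Real.exp_add]
            congr 1
            ring
  · obtain ⟨-, K₁, h2⟩ := hVR N k L hN hk P Q hPQ ρ hρ
    refine ⟨K₁, fun K => ?_⟩
    obtain ⟨e, β₀, he, hβ₀, h⟩ := h2 K
    refine ⟨e / (2 * C), β₀, by positivity, hβ₀, ?_⟩
    intro β hβ hββ a b c ha hb hKa hKb hNb ω hrE
    set e' := e / (2 * C) with he'
    have he'p : 0 < e' := by positivity
    have hcp : (0 : ℝ) < (pls (rc a b)).card + 1 := by positivity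
    obtain ⟨G, hG⟩ := hEG N L hN P Q (e' / ((pls (rc a b)).card + 1)) (by positivity)
    set ε := e' / ((pls (rc a b)).card + 1) with hε
    have hεp : 0 ≤ ε := by positivity
    have hcard : (pls (rc a b)).card * ε ≤ e' := by
      rw [hε, mul_div_assoc', div_le_iff₀ hcp]
      nlinarith
    set X := lk ω with hX
    set z := zr G (rc a b) X with hz
    set σ := gau (gg G (rc a b) X) (cmv z X) with hσ
    set S := ∑ x ∈ cl (rc a b), crz z x with hS
    have hrD : rD P Q σ (rc a b) ≤ e := by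
      refine ((hG0 ε hεp G hG).2 (rc a b) X).trans ?_
      calc C * (rE k X (rc a b) + (pls (rc a b)).card * ε) ≤ C * (e / (2 * C) + e / (2 * C)) :=
            mul_le_mul_of_nonneg_left (add_le_add hrE hcard) hCpos.le
        _ = e := by field_simp; ring
    have hn := h β hββ a b c ha hb hKa hKb hNb σ hrD
    have hper : ∀ n : ℤ, oz N (n + N) = oz N n := fun n => hoz.2.2.2.2.1 _ _ (by simp)
    rw [(hVJ N k L hN β hβ).2 a b ha hb (fun n : ℤ => (oz N n).re) (fun n => by rw [hper]) ω,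
      (hVJ N k L hN β hβ).2 a b ha hb (fun n : ℤ => (oz N n).im) (fun n => by rw [hper]) ω]
    have hfr : ∀ n : ℤ, Zf k β (dl a n) (rc a b) X = Zf k β (dl a (n - S)) (rc a b) σ := fun n =>
      Zf_frame hVA hVS k hN β hβ a b ha hb _ z X n
    have hD : ∑ n ∈ Finset.range N, Zf k β (dl a n) (rc a b) X =
        ∑ n ∈ Finset.range N, Zf k β (dl a n) (rc a b) σ := by
      simp only [hfr]
      exact shift_sum N (fun m => Zf k β (dl a m) (rc a b) σ)
        (fun m => Zf_per hVS k hN β hβ a b ha hb σ m) (-S)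
    have hA : ∑ n ∈ Finset.range N, oz N (n : ℤ) * (Zf k β (dl a n) (rc a b) X : ℂ) =
        oz N S * ∑ n ∈ Finset.range N, om N n * (Zf k β (dl a n) (rc a b) σ : ℂ) := by
      have h7 := shift_sum N (fun m : ℤ => oz N m * (Zf k β (dl a m) (rc a b) σ : ℂ))
        (fun m => by
          rw [hper, Zf_per hVS k hN β hβ a b ha hb σ m]) (-S)
      have h8 : ∑ n ∈ Finset.range N, om N n * (Zf k β (dl a n) (rc a b) σ : ℂ) =
          ∑ n ∈ Finset.range N, oz N (n : ℤ) * (Zf k β (dl a n) (rc a b) σ : ℂ) :=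
        Finset.sum_congr rfl fun n _ => by rw [hoz.2.2.1 n]
      rw [h8, ← h7, Finset.mul_sum]
      refine Finset.sum_congr rfl fun n _ => ?_
      rw [hfr, ← mul_assoc, ← hoz.1, ← sub_eq_add_neg, add_sub_cancel]
    set A := ∑ n ∈ Finset.range N, oz N (n : ℤ) * (Zf k β (dl a n) (rc a b) X : ℂ) with hAdef
    have hre : ∑ n ∈ Finset.range N, (oz N (n : ℤ)).re * Zf k β (dl a n) (rc a b) X = A.re := by
      rw [hAdef, Complex.re_sum]
      refine Finset.sum_congr rfl fun n _ => ?_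
      simp
    have him : ∑ n ∈ Finset.range N, (oz N (n : ℤ)).im * Zf k β (dl a n) (rc a b) X = A.im := by
      rw [hAdef, Complex.im_sum]
      refine Finset.sum_congr rfl fun n _ => ?_
      simp
    rw [hre, him]
    set D := ∑ n ∈ Finset.range N, Zf k β (dl a n) (rc a b) X with hDdef
    have hnA : ‖A‖ ≤ (1 - Real.exp (-β * (SS L k P Q + ρ))) * D := by
      rw [hA, norm_mul, hoz.2.2.2.1, one_mul, hD]
      exact hn
    have hD1 : 0 ≤ D := Finset.sum_nonneg fun n _ => Zf_nonneg _ _ _ _ _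
    have h9 : (A.re / D) ^ 2 + (A.im / D) ^ 2 = (‖A‖ / D) ^ 2 := by
      rw [div_pow, div_pow, div_pow, ← add_div, Complex.sq_norm, Complex.normSq_apply]
      ring
    rw [h9]
    rcases hD1.eq_or_lt with h0 | h0
    · rw [← h0, div_zero, zero_pow two_ne_zero]
      exact sq_nonneg _
    · exact pow_le_pow_left₀ (div_nonneg (norm_nonneg A) hD1) ((div_le_iff₀ h0).2 hnA) 2

end T2H01.SE
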