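import Pool.Agent.T2H01.SE.Stm1
import Pool.Agent.T2H02.TT.DT

/-!
# Package VG : gauge fixing of a ring
-/

set_option autoImplicit false
set_option linter.unusedSectionVars false

noncomputable section

open MeasureTheory Matrix
open scoped Matrix.Norms.Frobenius

namespace T2H01.SE.PkgVG

open T2H02.TT T2H02.TT.PkgD T2H02.TT.PkgJ

variable {N L : ℕ} [NeZero L]

/-! ### the index of the nearest root of unity -/

/-- `m` is a nearest root -/
def NR (N : ℕ) (t : ℂ) (m : ℕ) : Prop :=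
  m < N ∧ ∀ m' < N, (star (om N m') * t).re ≤ (star (om N m) * t).re

lemma NR_ex (hN : 2 ≤ N) (t : ℂ) : ∃ m, NR N t m := by
  obtain ⟨m, hm, h⟩ := Finset.exists_max_image (Finset.range N) (fun m => (star (om N m) * t).re)
    ⟨0, Finset.mem_range.2 (by omega)⟩
  exact ⟨m, Finset.mem_range.1 hm, fun m' hm' => h m' (Finset.mem_range.2 hm')⟩

lemma nri_spec (hN : 2 ≤ N) (t : ℂ) : NR N t (nri N t) := by
  classical
  unfold nri
  have h : ∃ m, m < N ∧ ∀ m' < N, (star (om N m') * t).re ≤ (star (om N m) * t).re := NR_ex hN t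
  rw [dif_pos h]
  exact Nat.find_spec h

lemma nri_eq (hN : 2 ≤ N) (t : ℂ) (n : ℕ) : nri N t = n ↔ NR N t n ∧ ∀ m < n, ¬ NR N t m := by
  classical
  unfold nri
  have h : ∃ m, m < N ∧ ∀ m' < N, (star (om N m') * t).re ≤ (star (om N m) * t).re := NR_ex hN t
  rw [dif_pos h]
  exact Nat.find_eq_iff h

lemma NR_meas (N m : ℕ) : MeasurableSet {t : ℂ | NR N t m} := by
  unfold NR
  rw [Set.ofPred_and]
  refine MeasurableSet.inter (MeasurableSet.const _) ?_
  rw [Set.ofPred_forall]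
  refine MeasurableSet.iInter fun m' => ?_
  rw [Set.ofPred_forall]
  refine MeasurableSet.iInter fun _ => ?_
  refine measurableSet_le ?_ ?_ <;> fun_prop

lemma nri_meas (hN : 2 ≤ N) (n : ℕ) : MeasurableSet {t : ℂ | nri N t = n} := by
  have : {t : ℂ | nri N t = n} = {t | NR N t n} ∩ ⋂ m : ℕ, ⋂ _ : m < n, {t | NR N t m}ᶜ := by
    ext t
    simp only [Set.mem_ofPred_eq, nri_eq hN, Set.mem_inter_iff, Set.mem_iInter, Set.mem_compl_iff]
  rw [this]
  exact (NR_meas N n).inter (MeasurableSet.iInter fun m => MeasurableSet.iInter fun _ =>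
    (NR_meas N m).compl)

lemma om_sub (hN : N ≠ 0) {j : ℕ} (hj : j ≤ N) : om N (N - j) * om N j = 1 := by
  rw [← PkgJ.om_add hN, Nat.sub_add_cancel hj]
  have := PkgG1.om_mul_self hN 1
  rwa [mul_one] at this

lemma pt_meas (x : Pl) : Measurable fun X : Cf N L => pt X x :=
  measurable_pi_lambda _ fun _ => measurable_pi_lambda _ fun _ => measurable_pi_apply _

lemma tr_meas (G : Ph N L → Tor L → SU N) (hG : Measurable G) (x : Pl) (m : Fin 4) :
    Measurable fun X : Cf N L => ∑ y : Tor L,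
      ((G (pt X x) y * X ((x, y), m) * (G (pt X (x + pe m)) y)⁻¹ : SU N) : Mt N).trace := by
  refine Finset.measurable_sum _ fun y _ => ?_
  have h1 : ∀ z : Pl, Measurable fun X : Cf N L => G (pt X z) y := fun z =>
    (measurable_pi_apply y).comp (hG.comp (pt_meas z))
  have h2 : Measurable fun X : Cf N L => G (pt X x) y * X ((x, y), m) * (G (pt X (x + pe m)) y)⁻¹ :=
    ((h1 x).mul (measurable_pi_apply _)).mul (h1 _).inv
  have h3 : Continuous fun g : SU N => ((g : SU N) : Mt N).trace :=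
    continuous_subtype_val.matrix_trace
  exact h3.measurable.comp h2

lemma zz_meas (hN : 2 ≤ N) (G : Ph N L → Tor L → SU N) (hG : Measurable G) (x : Pl) (m : Fin 4)
    (n : ℕ) : MeasurableSet {X : Cf N L | zz G X x m = n} := by
  have h1 : Measurable fun t : ℂ => nri N t := measurable_to_countable' fun n => by
    exact nri_meas hN n
  have h2 : Measurable fun X : Cf N L => zz G X x m := by
    unfold zz
    exact measurable_const.sub (h1.comp (tr_meas G hG x m))
  exact h2 (measurableSet_singleton n)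

/-! ### the nearest root minimises the distance -/

lemma dist_sq (g : SU N) (z : ℂ) (hz : ‖z‖ = 1) :
    ‖(g : Mt N) - z • (1 : Mt N)‖ ^ 2 = 2 * N - 2 * (star z * (g : Mt N).trace).re := by
  have h1 : star z * z = 1 := by
    rw [Complex.star_def, ← Complex.normSq_eq_conj_mul_self, Complex.normSq_eq_norm_sq, hz]
    norm_num
  rw [PkgG1.fr_sq]
  have h2 : ((g : Mt N) - z • (1 : Mt N))ᴴ * ((g : Mt N) - z • (1 : Mt N)) =
      (1 : Mt N) + (1 : Mt N) - z • (g : Mt N)ᴴ - star z • (g : Mt N) := by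
    rw [conjTranspose_sub, conjTranspose_smul, conjTranspose_one, Matrix.sub_mul, Matrix.mul_sub,
      Matrix.mul_sub, PkgG1.su1, Matrix.mul_smul, Matrix.smul_mul, Matrix.smul_mul, Matrix.mul_smul,
      Matrix.mul_one, Matrix.one_mul, Matrix.one_mul, smul_smul, h1, one_smul]
    abel
  rw [h2]
  simp only [trace_sub, trace_add, trace_one, trace_smul, Fintype.card_fin, smul_eq_mul,
    trace_conjTranspose, Complex.sub_re, Complex.add_re, Complex.natCast_re]
  have h3 : (z * star (g : Mt N).trace).re = (star z * (g : Mt N).trace).re := by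
    rw [← Complex.conj_re (z * star (g : Mt N).trace)]
    congr 1
    simp
  rw [h3]
  ring

lemma sum_dist (U : Tor L → SU N) (z : ℂ) (hz : ‖z‖ = 1) :
    ∑ y, ‖(U y : Mt N) - z • (1 : Mt N)‖ ^ 2 =
      Fintype.card (Tor L) * (2 * N) - 2 * (star z * ∑ y, (U y : Mt N).trace).re := by
  simp only [dist_sq _ _ hz]
  rw [Finset.sum_sub_distrib, Finset.sum_const, Finset.card_univ, nsmul_eq_mul, ← Finset.mul_sum,
    ← Complex.re_sum, ← Finset.mul_sum]

lemma near_le (hN : 2 ≤ N) (G : Ph N L → Tor L → SU N) (X : Cf N L) (x : Pl) (m : Fin 4)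
    (n : Fin N) :
    ∑ y : Tor L, ‖((cen N (zz G X x m) * PkgDT.gl G X x m y : SU N) : Mt N) - 1‖ ^ 2 ≤
      ∑ y : Tor L, ‖(PkgDT.gl G X x m y : Mt N) - om N n • (1 : Mt N)‖ ^ 2 := by
  set t : ℂ := ∑ y : Tor L, ((PkgDT.gl G X x m y : SU N) : Mt N).trace with ht
  have hj := nri_spec hN t
  have hz : zz G X x m = N - nri N t := rfl
  have h1 : ∀ y, ‖((cen N (zz G X x m) * PkgDT.gl G X x m y : SU N) : Mt N) - 1‖ =
      ‖(PkgDT.gl G X x m y : Mt N) - om N (nri N t) • (1 : Mt N)‖ := by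
    intro y
    have e : ((cen N (zz G X x m) * PkgDT.gl G X x m y : SU N) : Mt N) - 1 =
        om N (zz G X x m) • ((PkgDT.gl G X x m y : Mt N) - om N (nri N t) • (1 : Mt N)) := by
      rw [smul_sub, smul_smul, hz, om_sub (by omega) hj.1.le, one_smul]
      congr 1
      rw [cmul]
      show (om N (N - nri N t) • (1 : Mt N)) * _ = _
      rw [smul_mul_assoc, one_mul]
    rw [e, norm_smul, PkgD.om_norm, one_mul]
  simp only [h1]
  rw [sum_dist _ _ (PkgD.om_norm _ _), sum_dist _ _ (PkgD.om_norm _ _)]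
  have := hj.2 n n.2
  rw [← ht]
  linarith

/-! ### the transformed configuration -/

lemma pt_cmv (z : Pl → Fin 4 → ℕ) (X : Cf N L) (x : Pl) : pt (cmv z X) x = pt X x := by
  funext y j
  unfold pt cmv
  fin_cases j <;> simp

lemma torus (P Q : SU N) (G : Ph N L → Tor L → SU N) (U : Finset Pl) (X : Cf N L) (x : Pl)
    (hx : x ∈ pls U \ U) :
    ∑ y : Tor L, (‖((gau (gg G U X) (cmv (zr G U X) X) ((x, y), 2) : SU N) : Mt N) -
        ((vc P Q ((x, y), 2) : SU N) : Mt N)‖ ^ 2 +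
      ‖((gau (gg G U X) (cmv (zr G U X) X) ((x, y), 3) : SU N) : Mt N) -
        ((vc P Q ((x, y), 3) : SU N) : Mt N)‖ ^ 2) =
      dst (act (G (pt X x)) (pt X x)) (vac P Q) := by
  have h1 : pt (gau (gg G U X) (cmv (zr G U X) X)) x = act (G (pt X x)) (pt X x) := by
    rw [PkgG1.pt_gau, pt_cmv]
    congr 1
    funext y
    simp only [gg]
    rw [if_pos hx]
  rw [← h1, ← PkgG1.pt_vc (L := L) P Q x]
  unfold dst
  refine Finset.sum_congr rfl fun y _ => ?_
  rw [Fin.sum_univ_two]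
  simp [pt]

lemma plane (P Q : SU N) (G : Ph N L → Tor L → SU N) (U : Finset Pl) (X : Cf N L) (x : Pl)
    {m : Fin 4} (hm : m = 0 ∨ m = 1) (hx : x ∈ pls U \ U) (hx' : x + pe m ∈ pls U \ U) (y : Tor L) :
    ((gau (gg G U X) (cmv (zr G U X) X) ((x, y), m) : SU N) : Mt N) -
        ((vc P Q ((x, y), m) : SU N) : Mt N) =
      ((cen N (zz G X x m) * PkgDT.gl G X x m y : SU N) : Mt N) - 1 := by
  have h1 : (vc P Q ((x, y), m) : SU N) = 1 := by
    unfold vc
    rcases hm with rfl | rfl <;> simp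
  have h2 : gau (gg G U X) (cmv (zr G U X) X) ((x, y), m) =
      cen N (zz G X x m) * PkgDT.gl G X x m y := by
    have e1 : gg G U X (x, y) = G (pt X x) y := by
      simp only [gg]
      rw [if_pos hx]
    have e2 : gg G U X (nx (x, y) m) = G (pt X (x + pe m)) y := by
      rw [PkgDT.nxm hm]
      simp only [gg]
      rw [if_pos hx']
    have e3 : cmv (zr G U X) X ((x, y), m) = cen N (zz G X x m) * X ((x, y), m) := by
      unfold cmv
      simp only
      rw [if_pos hm]
      unfold zr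
      rw [if_pos ⟨hm, hx, hx'⟩]
    have e4 : ∀ g : SU N, g * cen N (zz G X x m) = cen N (zz G X x m) * g := by
      intro g
      apply Subtype.ext
      show (g : Mt N) * (om N _ • (1 : Mt N)) = (om N _ • (1 : Mt N)) * (g : Mt N)
      rw [Matrix.mul_smul, Matrix.smul_mul, Matrix.mul_one, Matrix.one_mul]
    show gg G U X (x, y) * cmv (zr G U X) X ((x, y), m) * (gg G U X (nx (x, y) m))⁻¹ = _
    rw [e1, e2, e3, PkgDT.gl, ← mul_assoc (G (pt X x) y), e4]
    simp only [mul_assoc]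
  rw [h1, h2]
  rfl

/-! ### the terms of the ring -/

lemma mem_rng {U : Finset Pl} {τ : Tm} (h : ∀ a ∈ cor τ, a ∈ pls U \ U) : τ ∈ rng U := by
  rw [rng, Finset.mem_filter, mem_tml]
  have h0 : τ.1 ∈ cor τ := by
    obtain ⟨x, i⟩ := τ
    fin_cases i
    · exact (mem_cor0 _ _).2 rfl
    · exact (mem_cor1 _ _).2 (Or.inl rfl)
    · exact (mem_cor2 _ _).2 (Or.inl rfl)
    · exact (mem_cor3 _ _).2 (Or.inl rfl)
  exact ⟨⟨τ.1, h0, (Finset.mem_sdiff.1 (h _ h0)).1⟩, fun a ha => Finset.mem_sdiff.1 (h a ha)⟩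

lemma sum_le_rE (k : ℕ) (X : Cf N L) (U : Finset Pl) (A : Finset Pl) (φ : Pl → Tm)
    (hφ : Function.Injective φ) (h : ∀ x ∈ A, ∀ a ∈ cor (φ x), a ∈ pls U \ U) :
    ∑ x ∈ A, en k X (φ x) ≤ rE k X U := by
  rw [← Finset.sum_image (f := fun τ => en k X τ) (g := φ) (fun a _ b _ hab => hφ hab)]
  unfold rE
  refine Finset.sum_le_sum_of_subset_of_nonneg ?_ fun τ _ _ => en_nonneg _ _ _
  intro τ hτ
  obtain ⟨x, hx, rfl⟩ := Finset.mem_image.1 hτ
  exact mem_rng (h x hx)

lemma sum_split (U : Finset Pl) (f : Lk L → ℝ) (hf : ∀ l, 0 ≤ f l) :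
    ∑ l ∈ rlk L U, f l ≤ ∑ x ∈ pls U \ U, ((∑ y : Tor L, (f ((x, y), 2) + f ((x, y), 3))) +
      (if x + pe 0 ∈ pls U \ U then ∑ y : Tor L, f ((x, y), 0) else 0) +
      (if x + pe 1 ∈ pls U \ U then ∑ y : Tor L, f ((x, y), 1) else 0)) := by
  have h1 : rlk L U ⊆ (((pls U \ U) ×ˢ (Finset.univ : Finset (Tor L))) ×ˢ
      (Finset.univ : Finset (Fin 4))).filter fun l => l.1.1 + pe l.2 ∈ pls U \ U := by
    intro l hl
    rw [rlk, Finset.mem_filter] at hl
    rw [Finset.mem_filter, Finset.mem_product, Finset.mem_product]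
    exact ⟨⟨⟨hl.2 _ ((mem_st _ _).2 (Or.inl rfl)), Finset.mem_univ _⟩, Finset.mem_univ _⟩,
      hl.2 _ ((mem_st _ _).2 (Or.inr rfl))⟩
  refine (Finset.sum_le_sum_of_subset_of_nonneg h1 fun l _ _ => hf l).trans (le_of_eq ?_)
  rw [Finset.sum_filter, Finset.sum_product, Finset.sum_product]
  refine Finset.sum_congr rfl fun x hx => ?_
  simp only [Fin.sum_univ_four]
  have p2 : x + pe 2 = x := by simp [pe, h00]
  have p3 : x + pe 3 = x := by simp [pe, h00]
  have q2 : x + pe 2 ∈ pls U \ U := by rw [p2]; exact hx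
  have q3 : x + pe 3 ∈ pls U \ U := by rw [p3]; exact hx
  have e : ∀ y : Tor L, (if x + pe 0 ∈ pls U \ U then f ((x, y), 0) else 0) +
      (if x + pe 1 ∈ pls U \ U then f ((x, y), 1) else 0) +
      (if x + pe 2 ∈ pls U \ U then f ((x, y), 2) else 0) +
      (if x + pe 3 ∈ pls U \ U then f ((x, y), 3) else 0) = (f ((x, y), 2) + f ((x, y), 3)) +
      (if x + pe 0 ∈ pls U \ U then f ((x, y), 0) else 0) +
      (if x + pe 1 ∈ pls U \ U then f ((x, y), 1) else 0) := by
    intro y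
    rw [if_pos q2, if_pos q3]
    ring
  rw [Finset.sum_congr rfl fun y _ => e y, Finset.sum_add_distrib, Finset.sum_add_distrib]
  congr 1
  · congr 1
    split_ifs <;> simp
  · split_ifs <;> simp

end T2H01.SE.PkgVG

namespace T2H01.SE

open T2H02.TT T2H02.TT.PkgD T2H02.TT.PkgJ PkgVG

theorem pVG (hD1 : S_D1) (hJ : S_J) : S_VG := by
  intro N k L _ hN hk P Q hPQ
  obtain ⟨C1, hC1, h1⟩ := hD1 N k L hN hk P Q hPQ
  obtain ⟨C2, hC2, h2⟩ := hJ N k L hN hk P Q hPQ
  refine ⟨1 + C1 + 4 * C1 * C2 + 4 * C2, by nlinarith [mul_pos hC1 hC2], fun ε hε G hG => ?_⟩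
  refine ⟨zz_meas hN G hG.1, fun U X => ?_⟩
  set R := pls U \ U with hR
  have hT : ∀ x, dst (act (G (pt X x)) (pt X x)) (vac P Q) ≤ C1 * eV k X x + ε := by
    intro x
    obtain ⟨g, hg⟩ := h1 (pt X x)
    have := hG.2 (pt X x) g
    rw [PkgG1.eV_eq]
    linarith
  have hL : ∀ (x : Pl) (m : Fin 4), m = 0 ∨ m = 1 →
      ∑ y : Tor L, ‖((cen N (zz G X x m) * PkgDT.gl G X x m y : SU N) : Mt N) - 1‖ ^ 2 ≤
        C2 * (C1 * eV k X x + C1 * eV k X (x + pe m) + 2 * eK X x m + 2 * ε) := by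
    intro x m hm
    have a0 := eV_nonneg k X x
    have a1 := eV_nonneg k X (x + pe m)
    have a2 := eK_nonneg X x m
    have b0 := mul_nonneg hC1.le a0
    have b1 := mul_nonneg hC1.le a1
    obtain ⟨n, hn⟩ := h2 _ _ (PkgDT.gl G X x m)
      (C1 * eV k X x + C1 * eV k X (x + pe m) + 2 * eK X x m + 2 * ε)
      ((hT x).trans (by linarith)) ((hT (x + pe m)).trans (by linarith)) (by
        rw [PkgDT.eK_sum G X x hm]
        linarith)
    exact (near_le hN G X x m n).trans hn
  have hRc : (R.card : ℝ) * ε ≤ (pls U).card * ε :=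
    mul_le_mul_of_nonneg_right (by exact_mod_cast Finset.card_le_card Finset.sdiff_subset) hε
  unfold rD
  refine (sum_split U _ fun l => by positivity).trans ?_
  -- bound of every summand
  have key : ∀ x ∈ R, ((∑ y : Tor L, (‖((gau (gg G U X) (cmv (zr G U X) X) ((x, y), 2) : SU N) : Mt N) -
        ((vc P Q ((x, y), 2) : SU N) : Mt N)‖ ^ 2 +
      ‖((gau (gg G U X) (cmv (zr G U X) X) ((x, y), 3) : SU N) : Mt N) -
        ((vc P Q ((x, y), 3) : SU N) : Mt N)‖ ^ 2)) +
      (if x + pe 0 ∈ R then ∑ y : Tor L, ‖((gau (gg G U X) (cmv (zr G U X) X) ((x, y), 0) : SU N) : Mt N) -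
        ((vc P Q ((x, y), 0) : SU N) : Mt N)‖ ^ 2 else 0) +
      (if x + pe 1 ∈ R then ∑ y : Tor L, ‖((gau (gg G U X) (cmv (zr G U X) X) ((x, y), 1) : SU N) : Mt N) -
        ((vc P Q ((x, y), 1) : SU N) : Mt N)‖ ^ 2 else 0)) ≤
      (C1 * eV k X x + ε) +
      (if x + pe 0 ∈ R then
        C2 * (C1 * eV k X x + C1 * eV k X (x + pe 0) + 2 * eK X x 0 + 2 * ε) else 0) +
      (if x + pe 1 ∈ R then
        C2 * (C1 * eV k X x + C1 * eV k X (x + pe 1) + 2 * eK X x 1 + 2 * ε) else 0) := by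
    intro x hx
    refine add_le_add (add_le_add ?_ ?_) ?_
    · rw [torus P Q G U X x hx]
      exact hT x
    · split_ifs with h
      · simp only [plane P Q G U X x (Or.inl rfl) hx h]
        exact hL x 0 (Or.inl rfl)
      · exact le_rfl
    · split_ifs with h
      · simp only [plane P Q G U X x (Or.inr rfl) hx h]
        exact hL x 1 (Or.inr rfl)
      · exact le_rfl
  refine (Finset.sum_le_sum key).trans ?_
  rw [Finset.sum_add_distrib, Finset.sum_add_distrib, ← Finset.sum_filter, ← Finset.sum_filter]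
  -- the three sums of energies
  have s0 : ∑ x ∈ R, eV k X x ≤ rE k X U := by
    have := sum_le_rE k X U R (fun x => (x, 0)) (fun a b h => (Prod.ext_iff.1 h).1) (by
      intro x hx a ha
      rw [mem_cor0] at ha
      rw [ha]
      exact hx)
    simpa [en] using this
  have s1 : ∀ m : Fin 4, ∑ x ∈ R.filter (fun x => x + pe m ∈ R), eV k X x ≤ rE k X U := fun m =>
    (Finset.sum_le_sum_of_subset_of_nonneg (Finset.filter_subset _ _)
      fun x _ _ => eV_nonneg _ _ _).trans s0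
  have s2 : ∀ m : Fin 4, ∑ x ∈ R.filter (fun x => x + pe m ∈ R), eV k X (x + pe m) ≤ rE k X U := by
    intro m
    have := sum_le_rE k X U (R.filter (fun x => x + pe m ∈ R)) (fun x => (x + pe m, 0))
      (fun a b h => add_right_cancel (Prod.ext_iff.1 h).1) (by
      intro x hx a ha
      rw [mem_cor0] at ha
      rw [ha]
      exact (Finset.mem_filter.1 hx).2)
    simpa [en] using this
  have s3 : ∑ x ∈ R.filter (fun x => x + pe 0 ∈ R), eK X x 0 ≤ rE k X U := by
    have := sum_le_rE k X U (R.filter (fun x => x + pe 0 ∈ R)) (fun x => (x, 1))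
      (fun a b h => (Prod.ext_iff.1 h).1) (by
      intro x hx a ha
      rw [mem_cor1] at ha
      rcases ha with rfl | rfl
      · exact (Finset.mem_filter.1 hx).1
      · have h := (Finset.mem_filter.1 hx).2
        rwa [show (pe 0 : Pl) = (1, 0) by simp [pe]] at h)
    simpa [en] using this
  have s4 : ∑ x ∈ R.filter (fun x => x + pe 1 ∈ R), eK X x 1 ≤ rE k X U := by
    have := sum_le_rE k X U (R.filter (fun x => x + pe 1 ∈ R)) (fun x => (x, 2))
      (fun a b h => (Prod.ext_iff.1 h).1) (by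
      intro x hx a ha
      rw [mem_cor2] at ha
      rcases ha with rfl | rfl
      · exact (Finset.mem_filter.1 hx).1
      · have h := (Finset.mem_filter.1 hx).2
        rwa [show (pe 1 : Pl) = (0, 1) by simp [pe]] at h)
    simpa [en] using this
  have hE0 : 0 ≤ rE k X U := Finset.sum_nonneg fun τ _ => en_nonneg _ _ _
  have hc : ∀ m : Fin 4, ((R.filter (fun x => x + pe m ∈ R)).card : ℝ) * ε ≤ (pls U).card * ε :=
    fun m => (mul_le_mul_of_nonneg_right
      (by exact_mod_cast Finset.card_le_card (Finset.filter_subset _ _)) hε).trans hRc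
  have t0 : ∑ x ∈ R, (C1 * eV k X x + ε) ≤ C1 * rE k X U + (pls U).card * ε := by
    rw [Finset.sum_add_distrib, ← Finset.mul_sum, Finset.sum_const, nsmul_eq_mul]
    exact add_le_add (mul_le_mul_of_nonneg_left s0 hC1.le) hRc
  have t1 : ∀ m : Fin 4, ∑ x ∈ R.filter (fun x => x + pe m ∈ R), eK X x m ≤ rE k X U →
      ∑ x ∈ R.filter (fun x => x + pe m ∈ R),
        C2 * (C1 * eV k X x + C1 * eV k X (x + pe m) + 2 * eK X x m + 2 * ε) ≤
      C2 * (C1 * rE k X U + C1 * rE k X U + 2 * rE k X U + 2 * ((pls U).card * ε)) := by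
    intro m h
    rw [← Finset.mul_sum]
    refine mul_le_mul_of_nonneg_left ?_ hC2.le
    rw [Finset.sum_add_distrib, Finset.sum_add_distrib, Finset.sum_add_distrib, ← Finset.mul_sum,
      ← Finset.mul_sum, ← Finset.mul_sum, Finset.sum_const, nsmul_eq_mul]
    have u1 := mul_le_mul_of_nonneg_left (s1 m) hC1.le
    have u2 := mul_le_mul_of_nonneg_left (s2 m) hC1.le
    have u3 := hc m
    linarith
  have t2 := t1 0 s3
  have t3 := t1 1 s4
  have hp : 0 ≤ ((pls U).card : ℝ) * ε := by positivity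
  have q1 : 0 ≤ C1 * C2 * ((pls U).card * ε) := by positivity
  have q2 : 0 ≤ C1 * ((pls U).card * ε) := by positivity
  nlinarith [t0, t2, t3]

end T2H01.SE
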