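import Pool.Agent.T2H01.SE.Stm1
import Pool.Agent.T2H02.TT.H

/-!
# Package VH : a good ring exists with large probability (helper13)
-/

set_option autoImplicit false
set_option linter.unusedSectionVars false
set_option linter.unusedVariables false

noncomputable section

open MeasureTheory Matrix
open scoped Matrix.Norms.Frobenius

namespace T2H01.SE.PkgVH

open T2H02.TT T2H02.TT.PkgH

lemma mem_rc (a b x : Pl) :
    x ∈ rc a b ↔ (a.1 ≤ x.1 ∧ x.1 ≤ b.1) ∧ (a.2 ≤ x.2 ∧ x.2 ≤ b.2) := by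
  rw [rc, Finset.mem_product, Finset.mem_Icc, Finset.mem_Icc]

lemma mem_Qs (q x : Pl) (j : ℕ) : x ∈ Qs q j ↔
    (4 * q.1 - 4 * j ≤ x.1 ∧ x.1 ≤ 4 * q.1 + 4 * j + 2) ∧
    (4 * q.2 - 4 * j ≤ x.2 ∧ x.2 ≤ 4 * q.2 + 4 * j + 2) := by
  rw [Qs, mem_rc]

lemma pls_Qs (q x : Pl) (j : ℕ) (h : x ∈ pls (Qs q j)) :
    (4 * q.1 - 4 * j - 1 ≤ x.1 ∧ x.1 ≤ 4 * q.1 + 4 * j + 3) ∧
    (4 * q.2 - 4 * j - 1 ≤ x.2 ∧ x.2 ≤ 4 * q.2 + 4 * j + 3) := by
  obtain ⟨b, hb, h1, h2⟩ := (mem_pls _ _).1 h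
  obtain ⟨⟨h3, h4⟩, h5, h6⟩ := (mem_Qs q b j).1 hb
  rw [abs_le] at h1 h2
  refine ⟨⟨?_, ?_⟩, ?_, ?_⟩ <;> linarith [h1.1, h1.2, h2.1, h2.2]

lemma pls_sub (q : Pl) {i j : ℕ} (h : i < j) : pls (Qs q i) ⊆ Qs q j := by
  intro x hx
  obtain ⟨⟨h1, h2⟩, h3, h4⟩ := pls_Qs q x i hx
  rw [mem_Qs]
  have hij : (i : ℤ) + 1 ≤ j := by exact_mod_cast h
  refine ⟨⟨?_, ?_⟩, ?_, ?_⟩ <;> linarith

lemma sub_pls (U : Finset Pl) : U ⊆ pls U := fun a ha =>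
  (mem_pls U a).2 ⟨a, ha, by simp, by simp⟩

lemma rng_disj (q : Pl) {i j : ℕ} (h : i < j) : Disjoint (rng (Qs q i)) (rng (Qs q j)) := by
  rw [Finset.disjoint_left]
  intro τ h1 h2
  have e1 := (Finset.mem_filter.1 h1).2 τ.1 (fst_mem_cor τ)
  have e2 := (Finset.mem_filter.1 h2).2 τ.1 (fst_mem_cor τ)
  exact e2.2 (pls_sub q h e1.1)

/-- **the deterministic part** -/
lemma det {N L : ℕ} [NeZero L] (k : ℕ) (P Q : SU N) (hvc : ∀ τ : Tm, en k (vc P Q : Cf N L) τ = 0)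
    (Λ : Finset Pl) (q : Pl) (m : ℕ) (X : Cf N L) (hX : ∀ l, l ∉ Frl L Λ → X l = vc P Q l) :
    ∑ j ∈ Finset.Icc 1 m, rE k X (Qs q j) ≤ ∑ τ ∈ tml (pls (Qs q m) ∩ Λ), en k X τ := by
  classical
  have hd : Set.PairwiseDisjoint (↑(Finset.Icc 1 m)) (fun j : ℕ => rng (Qs q j)) := by
    intro i _ j _ hij
    rcases lt_or_gt_of_ne hij with h | h
    · exact rng_disj q h
    · exact (rng_disj q h).symm
  unfold rE
  rw [← Finset.sum_biUnion hd, ← Finset.sum_filter_ne_zero]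
  refine Finset.sum_le_sum_of_subset_of_nonneg ?_ fun τ _ _ => en_nonneg k X τ
  intro τ hτ
  rw [Finset.mem_filter, Finset.mem_biUnion] at hτ
  obtain ⟨⟨j, hj, hτj⟩, hne⟩ := hτ
  by_contra hnot
  apply hne
  rw [← hvc τ]
  refine en_loc k τ X _ fun l hl => hX l fun hl2 => hnot ?_
  obtain ⟨a, ha, haΛ⟩ := (mem_Frl Λ l).1 hl2
  have hac : a ∈ cor τ := (cor_iff τ a).2 ⟨l, hl, ha⟩
  have h1 := ((Finset.mem_filter.1 hτj).2 a hac).1
  rw [mem_tml]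
  refine ⟨a, hac, Finset.mem_inter.2 ⟨?_, haΛ⟩⟩
  have hjm : j ≤ m := (Finset.mem_Icc.1 hj).2
  rcases hjm.lt_or_eq with h | h
  · exact sub_pls _ (pls_sub q h h1)
  · rw [← h]; exact h1

lemma card_bal_le (q : Pl) (m R : ℕ) :
    (bal (R + 1) (pls (Qs q m))).card ≤ (8 * m + 7 + 2 * R) ^ 2 := by
  have hsub : bal (R + 1) (pls (Qs q m)) ⊆
      rc (4 * q.1 - 4 * m - 2 - R, 4 * q.2 - 4 * m - 2 - R)
        (4 * q.1 + 4 * m + 4 + R, 4 * q.2 + 4 * m + 4 + R) := by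
    intro a ha
    obtain ⟨b, hb, h1, h2⟩ := (mem_bal _ _ _).1 ha
    obtain ⟨⟨h3, h4⟩, h5, h6⟩ := pls_Qs q b m hb
    rw [abs_le] at h1 h2
    push_cast at h1 h2
    rw [mem_rc]
    refine ⟨⟨?_, ?_⟩, ?_, ?_⟩ <;> simp only <;> linarith [h1.1, h1.2, h2.1, h2.2]
  refine (Finset.card_le_card hsub).trans ?_
  rw [rc, Finset.card_product, Int.card_Icc, Int.card_Icc, sq]
  apply Nat.mul_le_mul <;> simp only <;> omega

lemma exists_R {θ C : ℝ} (h0 : 0 < θ) (h1 : θ < 1) (hC : 1 ≤ C) (M : ℕ) :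
    ∃ R : ℕ, θ ^ R * C * ((M + 2 * R : ℕ) : ℝ) ^ 2 ≤ 1 := by
  have ht := tendsto_pow_const_mul_const_pow_of_abs_lt_one 2 (r := θ)
    (by rw [abs_of_pos h0]; exact h1)
  have hC0 : 0 < C := by linarith
  have hpos : 0 < 1 / (C * ((M : ℝ) + 2) ^ 2) := by positivity
  obtain ⟨R, hR, hR1⟩ :=
    ((ht.eventually (gt_mem_nhds hpos)).and (Filter.eventually_ge_atTop 1)).exists
  refine ⟨R, ?_⟩
  have h2 : ((M + 2 * R : ℕ) : ℝ) ≤ ((M : ℝ) + 2) * R := by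
    push_cast
    have h3 : (1 : ℝ) ≤ R := by exact_mod_cast hR1
    nlinarith [Nat.cast_nonneg (α := ℝ) M]
  calc θ ^ R * C * ((M + 2 * R : ℕ) : ℝ) ^ 2 ≤ θ ^ R * C * (((M : ℝ) + 2) * R) ^ 2 := by gcongr
    _ = (C * ((M : ℝ) + 2) ^ 2) * ((R : ℝ) ^ 2 * θ ^ R) := by ring
    _ ≤ (C * ((M : ℝ) + 2) ^ 2) * (1 / (C * ((M : ℝ) + 2) ^ 2)) :=
        mul_le_mul_of_nonneg_left hR.le (by positivity)
    _ = 1 := by field_simp

lemma exists_beta (A : ℝ) (hA : 0 < A) (n : ℕ) : ∃ β₀ : ℝ, 1 ≤ β₀ ∧ ∀ β : ℝ, β₀ ≤ β →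
    A * β ^ n * Real.exp (-β) ≤ 1 := by
  have ht := Real.tendsto_pow_mul_exp_neg_atTop_nhds_zero n
  have hpos : 0 < 1 / A := by positivity
  obtain ⟨b, hb⟩ := (ht.eventually (gt_mem_nhds hpos)).exists_forall_of_atTop
  refine ⟨max 1 b, le_max_left _ _, fun β hβ => ?_⟩
  have h1 := hb β (le_trans (le_max_right _ _) hβ)
  calc A * β ^ n * Real.exp (-β) = A * (β ^ n * Real.exp (-β)) := by ring
    _ ≤ A * (1 / A) := mul_le_mul_of_nonneg_left h1.le hA.le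
    _ = 1 := by field_simp

lemma SS_nonneg {N L : ℕ} [NeZero L] (k : ℕ) (P Q : SU N) : 0 ≤ SS L k P Q := by
  refine Real.sInf_nonneg ?_
  rintro x ⟨n, U, X, -, -, -, rfl⟩
  exact Finset.sum_nonneg fun τ _ => enf_nonneg _ _ _ _

theorem main (hH : S_H) (h5 : S_F5) (hV : S_VL) : S_VH := by
  intro N k L _ hN hk P Q hPQ e he
  obtain ⟨-, -, hvc⟩ := hV N k L hN hk P Q hPQ
  obtain ⟨C, θ, D, hC, hθ0, hθ1, hH'⟩ := hH N k L hN hk
  have hSS : 0 ≤ SS L k P Q := SS_nonneg k P Q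
  obtain ⟨s, hs⟩ : ∃ s, s = SS L k P Q := ⟨_, rfl⟩
  rw [← hs] at hSS ⊢
  obtain ⟨m', hm'⟩ := exists_nat_ge ((1 + C * (s + 2)) / e)
  obtain ⟨m, hmd⟩ : ∃ m, m = m' + 1 := ⟨_, rfl⟩
  have hm1 : 1 ≤ m := by omega
  have hme : 1 + C * (s + 2) ≤ m * e := by
    have h1 : (1 + C * (s + 2)) / e ≤ m := by
      refine hm'.trans ?_
      rw [hmd]
      push_cast
      linarith
    rwa [div_le_iff₀ he] at h1
  obtain ⟨R, hR⟩ := exists_R hθ0 hθ1 hC (8 * m + 7)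
  obtain ⟨n₀, hn₀⟩ : ∃ n₀, n₀ = D * (8 * m + 7 + 2 * R) ^ 2 := ⟨_, rfl⟩
  have hC0 : 0 < C := by linarith
  obtain ⟨β₀, hβ₀1, hβ₀⟩ := exists_beta ((R + 1) * C ^ n₀) (by positivity) n₀
  refine ⟨m, β₀, hm1, hβ₀1, ?_⟩
  intro β hβ hββ Λ q
  have hβ1 : 1 ≤ β := hβ₀1.trans hββ
  have hcard := card_bal_le q m R
  obtain ⟨B, hB⟩ : ∃ B, B = pls (Qs q m) := ⟨_, rfl⟩
  rw [← hB] at hcard
  have hkey := hH' β hβ hβ1 Λ B R 0 (s + 2) le_rfl (by linarith) (vc P Q) fun τ _ => (hvc τ).le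
  have hmeas1 : Measurable fun X : Cf N L => ind (∀ j ∈ Finset.Icc 1 m, e < rE k X (Qs q j)) := by
    unfold ind
    refine Measurable.ite ?_ measurable_const measurable_const
    have h1 : {X : Cf N L | ∀ j ∈ Finset.Icc 1 m, e < rE k X (Qs q j)} =
        ⋂ j ∈ Finset.Icc 1 m, {X : Cf N L | e < rE k X (Qs q j)} := by
      ext X
      simp
    rw [h1]
    exact Finset.measurableSet_biInter _ fun j _ =>
      measurableSet_lt measurable_const (en_meas k hN _)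
  have hmono := ((h5 (Lk L) Tm (SU N) (sysS N L k β hN hβ) (hm N) Λ).2.2.1
    (fun X => ind (∀ j ∈ Finset.Icc 1 m, e < rE k X (Qs q j)))
    (fun X => ind (θ ^ R * C * (bal (R + 1) B).card + C * (bal (R + 1) B).card * 0 + C * (s + 2) ≤
        ∑ τ ∈ tml (B ∩ Λ), en k X τ))
    hmeas1 ⟨1, fun _ => ind_abs _⟩
    (ind_meas _ _ measurable_const (en_meas k hN _)) ⟨1, fun _ => ind_abs _⟩ (vc P Q)).1
  refine (hmono fun ξ => ?_).trans (hkey.trans ?_)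
  · obtain ⟨X, hX⟩ : ∃ X : Cf N L, X = glue ((sysS N L k β hN hβ).Fr Λ) ξ (vc P Q) := ⟨_, rfl⟩
    rw [← hX]
    by_cases hall : ∀ j ∈ Finset.Icc 1 m, e < rE k X (Qs q j)
    · rw [ind_true hall, ind_true]
      have hXv : ∀ l, l ∉ Frl L Λ → X l = vc P Q l := by
        intro l hl
        rw [hX]
        unfold glue
        exact if_neg hl
      have h1 := det k P Q hvc Λ q m X hXv
      rw [← hB] at h1
      refine le_trans ?_ h1
      have h2 : (m : ℝ) * e ≤ ∑ j ∈ Finset.Icc 1 m, rE k X (Qs q j) := by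
        have h3 := Finset.card_nsmul_le_sum (Finset.Icc 1 m) (fun j => rE k X (Qs q j)) e
          fun j hj => (hall j hj).le
        rw [Nat.card_Icc, nsmul_eq_mul] at h3
        simpa using h3
      have h4 : θ ^ R * C * ((bal (R + 1) B).card : ℝ) ≤ 1 := by
        refine le_trans ?_ hR
        refine mul_le_mul_of_nonneg_left ?_ (by positivity)
        exact_mod_cast hcard
      linarith
    · have h1 : ind (∀ j ∈ Finset.Icc 1 m, e < rE k X (Qs q j)) = 0 := by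
        unfold ind
        rw [if_neg hall]
      rw [h1]
      exact ind_nonneg _
  · have h1 : (C * β) ^ (D * (bal (R + 1) B).card) ≤ (C * β) ^ n₀ := by
      refine pow_le_pow_right₀ (by nlinarith) ?_
      rw [hn₀]
      exact Nat.mul_le_mul_left _ hcard
    calc (R + 1 : ℝ) * (Real.exp (-β * (s + 2)) * (C * β) ^ (D * (bal (R + 1) B).card)) ≤
          (R + 1) * (Real.exp (-β * (s + 2)) * (C * β) ^ n₀) := by gcongr
      _ = Real.exp (-β * (s + 1)) * ((R + 1) * C ^ n₀ * β ^ n₀ * Real.exp (-β)) := by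
          rw [show -β * (s + 2) = -β * (s + 1) + -β by ring, Real.exp_add, mul_pow]
          ring
      _ ≤ Real.exp (-β * (s + 1)) * 1 :=
          mul_le_mul_of_nonneg_left (hβ₀ β hββ) (Real.exp_pos _).le
      _ = Real.exp (-β * (s + 1)) := mul_one _

end T2H01.SE.PkgVH

namespace T2H01.SE

open T2H02.TT

theorem pVH (hH : S_H) (h5 : S_F5) (hV : S_VL) : S_VH := PkgVH.main hH h5 hV

end T2H01.SE
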