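import Pool.Agent.T2H01.SE.Stm1
import Pool.Agent.T2H02.TT.A

/-!
# Package VI : lower bound of the partition functions
-/

set_option autoImplicit false
set_option linter.unusedSectionVars false

noncomputable section

open MeasureTheory Matrix
open scoped Matrix.Norms.Frobenius

namespace T2H01.SE.PkgVI

open T2H02.TT

variable {N L : ℕ} [NeZero L]

lemma card_tml (U : Finset Pl) : (tml U).card ≤ 16 * U.card := by
  unfold tml
  refine (Finset.card_filter_le _ _).trans ?_
  rw [Finset.card_product, Finset.card_univ, Fintype.card_fin]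
  have h1 : (U.image (fun x : Pl => x - (1, 0))).card ≤ U.card := Finset.card_image_le
  have h2 : (U.image (fun x : Pl => x - (0, 1))).card ≤ U.card := Finset.card_image_le
  have h3 : (U.image (fun x : Pl => x - (1, 1))).card ≤ U.card := Finset.card_image_le
  have h4 := Finset.card_union_le (U ∪ U.image (fun x : Pl => x - (1, 0)) ∪
    U.image (fun x : Pl => x - (0, 1))) (U.image (fun x : Pl => x - (1, 1)))
  have h5 := Finset.card_union_le (U ∪ U.image (fun x : Pl => x - (1, 0)))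
    (U.image (fun x : Pl => x - (0, 1)))
  have h6 := Finset.card_union_le U (U.image (fun x : Pl => x - (1, 0)))
  omega

lemma card_Frl (U : Finset Pl) : (Frl L U).card ≤ 12 * L ^ 2 * U.card := by
  unfold Frl
  refine (Finset.card_filter_le _ _).trans ?_
  rw [Finset.card_product, Finset.card_product, Finset.card_univ, Finset.card_univ,
    Fintype.card_fin, Fintype.card_prod, ZMod.card]
  have h1 : (U.image (fun x : Pl => x - (1, 0))).card ≤ U.card := Finset.card_image_le
  have h2 : (U.image (fun x : Pl => x - (0, 1))).card ≤ U.card := Finset.card_image_le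
  have h5 := Finset.card_union_le (U ∪ U.image (fun x : Pl => x - (1, 0)))
    (U.image (fun x : Pl => x - (0, 1)))
  have h6 := Finset.card_union_le U (U.image (fun x : Pl => x - (1, 0)))
  have h7 : (U ∪ U.image (fun x : Pl => x - (1, 0)) ∪
    U.image (fun x : Pl => x - (0, 1))).card ≤ 3 * U.card := by omega
  calc (U ∪ U.image (fun x : Pl => x - (1, 0)) ∪
    U.image (fun x : Pl => x - (0, 1))).card * (L * L) * 4 ≤ 3 * U.card * (L * L) * 4 := by gcongr
    _ = 12 * L ^ 2 * U.card := by ring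

lemma card_spt (τ : Tm) : (spt τ : Finset (Lk L)).card ≤ 5 * L ^ 2 := by
  unfold spt
  refine (Finset.card_biUnion_le_card_mul _ _ 5 ?_).trans ?_
  · intro y _
    split_ifs
    · exact (Finset.card_le_two).trans (by norm_num)
    · exact Finset.card_le_five
    · exact Finset.card_le_five
    · exact (Finset.card_le_four).trans (by norm_num)
  · rw [Finset.card_univ, Fintype.card_prod, ZMod.card]
    exact le_of_eq (by ring)

lemma glue_meas (J : Finset (Lk L)) (η : Cf N L) :
    Measurable fun ξ : Cf N L => glue J ξ η := by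
  refine measurable_pi_iff.2 fun l => ?_
  unfold glue
  split_ifs
  · exact measurable_pi_apply l
  · exact measurable_const

lemma EE_cont (k : ℕ) (s : Pl → ℤ) (U : Finset Pl) : Continuous fun X : Cf N L => EE k s U X := by
  unfold EE
  exact continuous_finsetSum _ fun τ _ => enf_cont k s τ

lemma EE_nonneg (k : ℕ) (s : Pl → ℤ) (U : Finset Pl) (X : Cf N L) : 0 ≤ EE k s U X :=
  Finset.sum_nonneg fun τ _ => enf_nonneg k s X τ

/-- arithmetic at the end -/
lemma fin_ar {C c β K : ℝ} {D2 m n M2 : ℕ} (hc0 : 0 < c) (hC1 : 1 ≤ C)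
    (hCc : 1 / c ≤ C) (hCK : Real.exp K ≤ C) (hβ : 1 ≤ β) (hn : n ≤ M2 * m) :
    ((C * β) ^ ((1 + M2 * (D2 + 1)) * m))⁻¹ ≤ Real.exp (-(K * m)) * (c * (1 / β) ^ D2) ^ n := by
  have hβ0 : 0 < β := by linarith
  have hC0 : 0 < C := by linarith
  have hb : 1 ≤ C * β := one_le_mul_of_one_le_of_one_le hC1 hβ
  have e2 : (C * β) ^ m * ((C * β) ^ (D2 + 1)) ^ n ≤ (C * β) ^ ((1 + M2 * (D2 + 1)) * m) := by
    rw [← pow_mul, ← pow_add]
    refine pow_le_pow_right₀ hb ?_
    have : (D2 + 1) * n ≤ M2 * m * (D2 + 1) := by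
      rw [mul_comm]
      exact Nat.mul_le_mul_right _ hn
    calc m + (D2 + 1) * n ≤ m + M2 * m * (D2 + 1) := by omega
      _ = (1 + M2 * (D2 + 1)) * m := by ring
  have e3 : 1 ≤ (Real.exp (-K) * (C * β)) ^ m := by
    refine one_le_pow₀ ?_
    calc (1 : ℝ) = Real.exp (-K) * Real.exp K := by rw [← Real.exp_add]; simp
      _ ≤ Real.exp (-K) * C := mul_le_mul_of_nonneg_left hCK (Real.exp_pos _).le
      _ ≤ Real.exp (-K) * (C * β) :=
        mul_le_mul_of_nonneg_left (le_mul_of_one_le_right hC0.le hβ) (Real.exp_pos _).le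
  have e4 : 1 ≤ (c * (1 / β) ^ D2 * (C * β) ^ (D2 + 1)) ^ n := by
    refine one_le_pow₀ ?_
    have h1 : c * (1 / β) ^ D2 * (C * β) ^ (D2 + 1) = (c * C) * C ^ D2 * β := by
      rw [one_div, inv_pow, mul_pow, pow_succ, pow_succ]
      have : β ^ D2 ≠ 0 := by positivity
      field_simp
    rw [h1]
    have h2 : 1 ≤ c * C := by
      rw [div_le_iff₀ hc0] at hCc
      linarith
    have h3 : 1 ≤ C ^ D2 := one_le_pow₀ hC1
    calc (1 : ℝ) ≤ (c * C) * C ^ D2 := one_le_mul_of_one_le_of_one_le h2 h3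
      _ ≤ (c * C) * C ^ D2 * β := le_mul_of_one_le_right (by positivity) hβ
  have e5 : Real.exp (-(K * m)) = Real.exp (-K) ^ m := by
    rw [← Real.exp_nat_mul]
    congr 1
    ring
  rw [inv_le_iff_one_le_mul₀ (by positivity), e5]
  calc (1 : ℝ) ≤ (Real.exp (-K) * (C * β)) ^ m * (c * (1 / β) ^ D2 * (C * β) ^ (D2 + 1)) ^ n :=
        one_le_mul_of_one_le_of_one_le e3 e4
    _ = (Real.exp (-K) ^ m * (c * (1 / β) ^ D2) ^ n) * ((C * β) ^ m * ((C * β) ^ (D2 + 1)) ^ n) := by
        rw [mul_pow, mul_pow (c * (1 / β) ^ D2)]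
        ring
    _ ≤ _ := mul_le_mul_of_nonneg_left e2 (by positivity)

theorem pVI (h2 : S_G2) (hVL : S_VL) : S_VI := by
  intro N k L _ hN hk
  obtain ⟨P, Q, hPQ⟩ := pA1 N k hN hk
  obtain ⟨⟨CL, hCL, HL⟩, -, -⟩ := hVL N k L hN hk P Q hPQ
  obtain ⟨c, D2, hc0, -, H2⟩ := h2 N hN
  obtain ⟨K, hK⟩ : ∃ K : ℝ, K = 16 * (2 * CL * (5 * (L : ℝ) ^ 2)) := ⟨_, rfl⟩
  have hCL0 : 0 < CL := by linarith
  obtain ⟨C, hCa, hCb, hCc⟩ : ∃ C : ℝ, 1 ≤ C ∧ 1 / c ≤ C ∧ Real.exp K ≤ C :=
    ⟨max 1 (max (1 / c) (Real.exp K)), le_max_left _ _,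
      (le_max_left _ _).trans (le_max_right _ _), (le_max_right _ _).trans (le_max_right _ _)⟩
  refine ⟨C, 1 + 12 * L ^ 2 * (D2 + 1), hCa, fun β hβ1 s U η X0 hX0 => ?_⟩
  have hβ0 : 0 < β := by linarith
  let box : Set (Cf N L) := Set.pi (Frl L U : Set (Lk L)) fun l =>
    {g : SU N | ‖(g : Mt N) - (X0 l : Mt N)‖ ≤ 1 / β}
  have hballm : ∀ l : Lk L, MeasurableSet {g : SU N | ‖(g : Mt N) - (X0 l : Mt N)‖ ≤ 1 / β} := by
    intro l
    refine (isClosed_le ?_ continuous_const).measurableSet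
    exact (continuous_subtype_val.sub continuous_const).norm
  have hboxm : MeasurableSet box := MeasurableSet.pi (Finset.countable_toSet _) fun l _ => hballm l
  obtain ⟨w0, hw0d⟩ : ∃ w0 : ℝ, w0 = Real.exp (-(β + 1) * EE k s U X0) *
    Real.exp (-(K * U.card)) := ⟨_, rfl⟩
  have hw0 : 0 < w0 := by rw [hw0d]; positivity
  have hlow : ∀ ξ ∈ box, w0 ≤ Real.exp (-β * EE k s U (glue (Frl L U) ξ η)) := by
    intro ξ hξ
    have hr : ∀ l, ‖((glue (Frl L U) ξ η l : SU N) : Mt N) - (X0 l : Mt N)‖ ≤ 1 / β := by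
      intro l
      unfold glue
      split_ifs with h
      · exact hξ l h
      · rw [hX0 l h, sub_self, norm_zero]
        positivity
    have h4 : ∀ τ, β * enf k s (glue (Frl L U) ξ η) τ ≤ (β + 1) * enf k s X0 τ +
        2 * CL * (5 * (L : ℝ) ^ 2) := by
      intro τ
      have h5 := HL (1 / β) (by positivity) s τ X0 (glue (Frl L U) ξ η)
      have h6 : ∑ l ∈ (spt τ : Finset (Lk L)),
          ‖((glue (Frl L U) ξ η l : SU N) : Mt N) - (X0 l : Mt N)‖ ^ 2 ≤
          5 * (L : ℝ) ^ 2 * (1 / β) ^ 2 := by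
        calc _ ≤ ∑ l ∈ (spt τ : Finset (Lk L)), (1 / β) ^ 2 := Finset.sum_le_sum fun l _ =>
              pow_le_pow_left₀ (norm_nonneg _) (hr l) 2
          _ = ((spt τ : Finset (Lk L)).card : ℝ) * (1 / β) ^ 2 := by
              rw [Finset.sum_const, nsmul_eq_mul]
          _ ≤ 5 * (L : ℝ) ^ 2 * (1 / β) ^ 2 := by
              refine mul_le_mul_of_nonneg_right ?_ (by positivity)
              exact_mod_cast card_spt (L := L) τ
      have h7 : (1 + 1 / (1 / β)) * CL * ∑ l ∈ (spt τ : Finset (Lk L)),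
          ‖((glue (Frl L U) ξ η l : SU N) : Mt N) - (X0 l : Mt N)‖ ^ 2 ≤
          (1 + β) * CL * (5 * (L : ℝ) ^ 2 * (1 / β) ^ 2) := by
        rw [one_div_one_div]
        exact mul_le_mul_of_nonneg_left h6 (by positivity)
      have h8 := mul_le_mul_of_nonneg_left (h5.trans (add_le_add_right h7 _)) hβ0.le
      refine h8.trans ?_
      have h9 : β * ((1 + 1 / β) * enf k s X0 τ + (1 + β) * CL * (5 * (L : ℝ) ^ 2 * (1 / β) ^ 2)) =
          (β + 1) * enf k s X0 τ + (1 / β + 1) * (CL * (5 * (L : ℝ) ^ 2)) := by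
        field_simp
      rw [h9]
      have h10 : 1 / β + 1 ≤ 2 := by
        have : 1 / β ≤ 1 := (div_le_one hβ0).2 hβ1
        linarith
      have h11 : (1 / β + 1) * (CL * (5 * (L : ℝ) ^ 2)) ≤ 2 * (CL * (5 * (L : ℝ) ^ 2)) :=
        mul_le_mul_of_nonneg_right h10 (by positivity)
      linarith
    have h12 : β * EE k s U (glue (Frl L U) ξ η) ≤ (β + 1) * EE k s U X0 + K * U.card := by
      unfold EE
      rw [Finset.mul_sum, Finset.mul_sum]
      calc _ ≤ ∑ τ ∈ tml U, ((β + 1) * enf k s X0 τ + 2 * CL * (5 * (L : ℝ) ^ 2)) :=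
            Finset.sum_le_sum fun τ _ => h4 τ
        _ = ∑ τ ∈ tml U, (β + 1) * enf k s X0 τ +
            ((tml U).card : ℝ) * (2 * CL * (5 * (L : ℝ) ^ 2)) := by
            rw [Finset.sum_add_distrib, Finset.sum_const, nsmul_eq_mul]
        _ ≤ _ := by
            have h13 : ((tml U).card : ℝ) ≤ 16 * U.card := by exact_mod_cast card_tml U
            have h14 := mul_le_mul_of_nonneg_right h13
              (by positivity : 0 ≤ 2 * CL * (5 * (L : ℝ) ^ 2))
            rw [hK]
            linarith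
    rw [hw0d, ← Real.exp_add]
    refine Real.exp_le_exp.2 ?_
    linarith
  have hmeas : Measurable fun ξ : Cf N L =>
      Real.exp (-β * EE k s U (glue (Frl L U) ξ η)) :=
    (measurable_const.mul ((EE_cont k s U).measurable.comp (glue_meas (Frl L U) η))).exp
  have hint : Integrable (fun ξ : Cf N L => Real.exp (-β * EE k s U (glue (Frl L U) ξ η)))
      (pm N L) := by
    refine Integrable.of_bound hmeas.aestronglyMeasurable 1 (Filter.Eventually.of_forall fun ξ => ?_)
    rw [Real.norm_eq_abs, abs_of_pos (Real.exp_pos _), Real.exp_le_one_iff]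
    have := mul_nonneg hβ0.le (EE_nonneg k s U (glue (Frl L U) ξ η))
    linarith
  have hboxv : (c * (1 / β) ^ D2) ^ (Frl L U).card ≤ (pm N L).real box := by
    have h5 : (pm N L).real box = ∏ l ∈ Frl L U,
        (hm N).real {g : SU N | ‖(g : Mt N) - (X0 l : Mt N)‖ ≤ 1 / β} := by
      unfold Measure.real
      rw [show pm N L box = _ from Measure.infinitePi_pi (fun _ : Lk L => hm N)
        fun l _ => hballm l, ENNReal.toReal_prod]
    rw [h5, ← Finset.prod_const]
    refine Finset.prod_le_prod (fun l _ => by positivity) fun l _ => ?_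
    exact H2 (1 / β) (X0 l) (by positivity) ((div_le_one hβ0).2 hβ1)
  have hden : w0 * (c * (1 / β) ^ D2) ^ (Frl L U).card ≤ Zf k β s U η := by
    unfold Zf
    calc w0 * (c * (1 / β) ^ D2) ^ (Frl L U).card ≤ w0 * (pm N L).real box :=
          mul_le_mul_of_nonneg_left hboxv hw0.le
      _ = ∫ ξ : Cf N L, box.indicator (fun _ => w0) ξ ∂(pm N L) := by
          rw [integral_indicator_const _ hboxm, smul_eq_mul, mul_comm]
      _ ≤ ∫ ξ : Cf N L, Real.exp (-β * EE k s U (glue (Frl L U) ξ η)) ∂(pm N L) := by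
          refine integral_mono_of_nonneg (Filter.Eventually.of_forall fun ξ => ?_) hint
            (Filter.Eventually.of_forall fun ξ => ?_)
          · exact Set.indicator_nonneg (fun _ _ => hw0.le) ξ
          · by_cases hξ : ξ ∈ box
            · simp only [Set.indicator_of_mem hξ]
              exact hlow ξ hξ
            · simp only [Set.indicator_of_notMem hξ]
              exact (Real.exp_pos _).le
  refine le_trans ?_ hden
  have key := fin_ar (D2 := D2) (M2 := 12 * L ^ 2) hc0 hCa hCb hCc hβ1 (card_Frl (L := L) U)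
  calc Real.exp (-(β + 1) * EE k s U X0) * ((C * β) ^ ((1 + 12 * L ^ 2 * (D2 + 1)) * U.card))⁻¹
      ≤ Real.exp (-(β + 1) * EE k s U X0) *
        (Real.exp (-(K * U.card)) * (c * (1 / β) ^ D2) ^ (Frl L U).card) :=
        mul_le_mul_of_nonneg_left key (Real.exp_pos _).le
    _ = w0 * (c * (1 / β) ^ D2) ^ (Frl L U).card := by
        rw [hw0d]
        ring

end T2H01.SE.PkgVI

namespace T2H01.SE

/-- package VI -/
theorem pVI (h2 : T2H02.TT.S_G2) (hVL : S_VL) : S_VI := PkgVI.pVI h2 hVL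

end T2H01.SE
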