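import Pool.Agent.T2H01.SE.Stm1
import Pool.Agent.T2H02.TT.F

/-! Package VJ: the marginals of the joint system. -/

set_option autoImplicit false
set_option linter.unusedSectionVars false

noncomputable section

open MeasureTheory Matrix
open scoped Matrix.Norms.Frobenius ENNReal

namespace T2H01.SE

open T2H02.TT

namespace PkgVJ

variable {N L : ℕ} [NeZero L]

theorem unif_prob (hN : 0 < N) : IsProbabilityMeasure (unif N) := by
  constructor
  unfold unif
  rw [Measure.smul_apply, Measure.count_univ]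
  simp only [ENat.card_eq_coe_fintype_card, Fintype.card_fin, smul_eq_mul]
  have h1 : (((N : ℕ∞) : ENNReal)) = (N : ENNReal) := by simp
  rw [h1]
  exact ENNReal.inv_mul_cancel (by exact_mod_cast hN.ne') (ENNReal.natCast_ne_top N)

theorem mj_prob (hN : 0 < N) : IsProbabilityMeasure (mj N) := by
  have := unif_prob hN
  unfold mj
  infer_instance

theorem unif_singleton (m : Fin N) : unif N {m} = (N : ENNReal)⁻¹ := by
  unfold unif
  rw [Measure.smul_apply, Measure.count_singleton, smul_eq_mul, mul_one]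

/-- the law of the links -/
theorem map_lk (hN : 0 < N) :
    (Measure.infinitePi fun _ : Ix L => mj N).map (lk : Cj N L → Cf N L) = pm N L := by
  have := unif_prob hN
  have := mj_prob hN
  apply Measure.eq_infinitePi
  intro s t ht
  rw [Measure.map_apply lk_meas (MeasurableSet.pi s.countable_toSet (fun i _ => ht i))]
  have h1 : (lk : Cj N L → Cf N L) ⁻¹' (Set.pi s t) =
      Set.pi ((s.map ⟨Sum.inl, Sum.inl_injective⟩ : Finset (Ix L)) : Set (Ix L))
        (fun i => Sum.elim (fun l => Prod.fst ⁻¹' (t l)) (fun _ => Set.univ) i) := by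
    ext ω
    simp only [Set.mem_preimage, Set.mem_pi, Finset.mem_coe, Finset.mem_map, Function.Embedding.coeFn_mk]
    constructor
    · rintro h i ⟨l, hl, rfl⟩
      exact h l hl
    · intro h l hl
      exact h (Sum.inl l) ⟨l, hl, rfl⟩
  rw [h1, Measure.infinitePi_pi]
  · rw [Finset.prod_map]
    refine Finset.prod_congr rfl fun l _ => ?_
    simp only [Function.Embedding.coeFn_mk, Sum.elim_inl]
    have h2 : (Prod.fst ⁻¹' (t l) : Set (Vr N)) = (t l) ×ˢ Set.univ := by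
      ext p
      simp
    rw [h2, mj, Measure.prod_prod, measure_univ, mul_one]
  · intro i hi
    rw [Finset.mem_map] at hi
    obtain ⟨l, _, rfl⟩ := hi
    exact measurable_fst (ht l)

/-- the fluxes of the cells of `C` -/
def rs (C : Finset Pl) (ω : Cj N L) : C → Fin N := fun x => (ω (Sum.inr (x : Pl))).2

theorem rs_meas (C : Finset Pl) : Measurable (rs C : Cj N L → C → Fin N) :=
  measurable_pi_lambda _ fun x => measurable_snd.comp (measurable_pi_apply _)

/-- the law of the fluxes -/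
theorem prob_rs (hN : 0 < N) (C : Finset Pl) (t : C → Fin N) :
    (Measure.infinitePi fun _ : Ix L => mj N) {ω | rs C ω = t} = ((N : ENNReal)⁻¹) ^ C.card := by
  classical
  have := unif_prob hN
  have := mj_prob hN
  have h1 : {ω : Cj N L | rs C ω = t} =
      Set.pi ((C.map ⟨Sum.inr, Sum.inr_injective⟩ : Finset (Ix L)) : Set (Ix L))
        (fun i => Sum.elim (fun _ => Set.univ)
          (fun x => if h : x ∈ C then Prod.snd ⁻¹' {t ⟨x, h⟩} else Set.univ) i) := by
    ext ω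
    simp only [Set.mem_ofPred_eq, Set.mem_pi, Finset.mem_coe, Finset.mem_map, Function.Embedding.coeFn_mk]
    constructor
    · rintro h i ⟨x, hx, rfl⟩
      simp only [Sum.elim_inr, dif_pos hx, Set.mem_preimage, Set.mem_singleton_iff]
      exact congrFun h ⟨x, hx⟩
    · intro h
      funext ⟨x, hx⟩
      have := h (Sum.inr x) ⟨x, hx, rfl⟩
      simp only [Sum.elim_inr, dif_pos hx, Set.mem_preimage, Set.mem_singleton_iff] at this
      exact this
  rw [h1, Measure.infinitePi_pi]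
  · rw [Finset.prod_map]
    have h3 : ∀ x ∈ C, mj N (Sum.elim (fun _ => Set.univ)
          (fun x => if h : x ∈ C then Prod.snd ⁻¹' {t ⟨x, h⟩} else Set.univ)
          ((⟨Sum.inr, Sum.inr_injective⟩ : Pl ↪ Ix L) x)) = (N : ENNReal)⁻¹ := by
      intro x hx
      simp only [Function.Embedding.coeFn_mk, Sum.elim_inr, dif_pos hx]
      have h2 : (Prod.snd ⁻¹' {t ⟨x, hx⟩} : Set (Vr N)) = Set.univ ×ˢ {t ⟨x, hx⟩} := by
        ext p
        simp
      rw [h2, mj, Measure.prod_prod, measure_univ, one_mul, unif_singleton]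
    rw [Finset.prod_congr rfl h3, Finset.prod_const]
  · intro i hi
    rw [Finset.mem_map] at hi
    obtain ⟨x, hx, rfl⟩ := hi
    simp only [Function.Embedding.coeFn_mk, Sum.elim_inr, dif_pos hx]
    exact measurable_snd (measurableSet_singleton _)

/-- integration over the joint configurations -/
theorem int_joint (h2 : S_F2) (hN : 0 < N) (C : Finset Pl) (H : Cf N L → (C → Fin N) → ℝ)
    (hH : ∀ t, Measurable fun X => H X t) (hb : ∃ K, ∀ X t, |H X t| ≤ K) :
    ∫ ω, H (lk ω) (rs C ω) ∂(Measure.infinitePi fun _ : Ix L => mj N) =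
      ((N : ℝ) ^ C.card)⁻¹ * ∑ t : C → Fin N, ∫ X, H X t ∂(pm N L) := by
  classical
  have := unif_prob hN
  have := mj_prob hN
  obtain ⟨K, hK⟩ := hb
  have hind : ∀ t : C → Fin N, MeasurableSet {ω : Cj N L | rs C ω = t} := fun t =>
    rs_meas C (measurableSet_singleton t)
  have hm1 : ∀ t, Measurable fun ω : Cj N L => if rs C ω = t then H (lk ω) t else 0 := fun t =>
    Measurable.ite (hind t) ((hH t).comp lk_meas) measurable_const
  have hb1 : ∀ t, ∃ K, ∀ ω : Cj N L, |if rs C ω = t then H (lk ω) t else 0| ≤ K := by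
    intro t
    refine ⟨|K|, fun ω => ?_⟩
    split_ifs
    · exact (hK _ _).trans (le_abs_self K)
    · simp
  have e1 : (fun ω : Cj N L => H (lk ω) (rs C ω)) =
      fun ω => ∑ t : C → Fin N, if rs C ω = t then H (lk ω) t else 0 := by
    funext ω
    rw [Finset.sum_ite_eq Finset.univ]
    simp
  rw [e1, integral_finsetSum _ fun t _ => PkgF.integrable_bdd (hm1 t) (hb1 t), Finset.mul_sum]
  refine Finset.sum_congr rfl fun t _ => ?_
  rw [h2 (Ix L) (Vr N) (mj N) (C.map ⟨Sum.inr, Sum.inr_injective⟩) _ (hm1 t) (hb1 t)]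
  have e2 : ∀ η ξ : Cj N L, rs C (glue (C.map ⟨Sum.inr, Sum.inr_injective⟩) ξ η) = rs C ξ := by
    intro η ξ
    funext ⟨x, hx⟩
    have hmem : (Sum.inr x : Ix L) ∈ C.map ⟨Sum.inr, Sum.inr_injective⟩ := Finset.mem_map.2 ⟨x, hx, rfl⟩
    exact congrArg Prod.snd (if_pos hmem)
  have e3 : ∀ η ξ : Cj N L, lk (glue (C.map ⟨Sum.inr, Sum.inr_injective⟩) ξ η) = lk η := by
    intro η ξ
    funext l
    unfold lk glue
    rw [if_neg]
    intro h
    obtain ⟨x, _, hx⟩ := Finset.mem_map.1 h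
    cases hx
  have e4 : ∀ η : Cj N L, ∫ ξ, (if rs C (glue (C.map ⟨Sum.inr, Sum.inr_injective⟩) ξ η) = t then
      H (lk (glue (C.map ⟨Sum.inr, Sum.inr_injective⟩) ξ η)) t else 0)
        ∂(Measure.infinitePi fun _ : Ix L => mj N) = ((N : ℝ) ^ C.card)⁻¹ * H (lk η) t := by
    intro η
    have e5 : (fun ξ : Cj N L => if rs C (glue (C.map ⟨Sum.inr, Sum.inr_injective⟩) ξ η) = t then
        H (lk (glue (C.map ⟨Sum.inr, Sum.inr_injective⟩) ξ η)) t else 0) =
        Set.indicator {ξ : Cj N L | rs C ξ = t} (fun _ => H (lk η) t) := by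
      funext ξ
      rw [e2, e3, Set.indicator_apply]
      rfl
    rw [e5, integral_indicator_const _ (hind t), smul_eq_mul, measureReal_def, prob_rs hN]
    congr 1
    rw [ENNReal.toReal_pow, ENNReal.toReal_inv, ENNReal.toReal_natCast, inv_pow]
  simp only [e4]
  rw [integral_const_mul]
  congr 1
  rw [← map_lk hN, integral_map lk_meas.aemeasurable (hH t).aestronglyMeasurable]

/-- the fluxes given by `t` -/
def ext (C : Finset Pl) (t : C → Fin N) : Pl → ℤ := fun x => if h : x ∈ C then ((t ⟨x, h⟩ : ℕ) : ℤ) else 0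

theorem lk_glue (Λ : Finset Pl) (ξ ω : Cj N L) : lk (glue (FrJ L Λ) ξ ω) = glue (Frl L Λ) (lk ξ) (lk ω) := by
  funext l
  unfold lk glue
  have h : (Sum.inl l : Ix L) ∈ FrJ L Λ ↔ l ∈ Frl L Λ := by
    rw [mem_FrJ, mem_Frl]
    rfl
  by_cases hl : l ∈ Frl L Λ
  · rw [if_pos hl, if_pos (h.2 hl)]
  · rw [if_neg hl, if_neg (fun h' => hl (h.1 h'))]

theorem fx_glue (Λ : Finset Pl) (ξ ω : Cj N L) {x : Pl} (hx : x ∈ cl Λ) :
    fx (glue (FrJ L Λ) ξ ω) x = ext (cl Λ) (rs (cl Λ) ξ) x := by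
  unfold fx glue ext rs
  rw [dif_pos hx, if_pos]
  rw [mem_FrJ]
  exact (mem_cl Λ x).1 hx

theorem cl_of_tml {Λ : Finset Pl} {τ : Tm} (h : τ ∈ tml Λ) (h3 : τ.2 = 3) : τ.1 ∈ cl Λ := by
  unfold cl
  exact Finset.mem_image.2 ⟨τ, Finset.mem_filter.2 ⟨h, h3⟩, rfl⟩

theorem prod_exp (k : ℕ) (β : ℝ) (s : Pl → ℤ) (Λ : Finset Pl) (X : Cf N L) :
    ∏ τ ∈ tml Λ, Real.exp (-β * enf k s X τ) = Real.exp (-β * EE k s Λ X) := by
  unfold EE
  rw [← Real.exp_sum, Finset.mul_sum]

/-- the numerators of the joint system -/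
theorem num_joint (h2 : S_F2) (hN : 2 ≤ N) (k : ℕ) (β : ℝ) (hβ : 0 ≤ β) (Λ : Finset Pl)
    (Ψ : Cf N L → (cl Λ → Fin N) → ℝ) (hΨ : ∀ t, Measurable fun X => Ψ X t) (hb : ∃ K, ∀ X t, |Ψ X t| ≤ K)
    (F : Cj N L → ℝ) (ω : Cj N L)
    (hF : ∀ ξ, F (glue (FrJ L Λ) ξ ω) = Ψ (lk (glue (FrJ L Λ) ξ ω)) (rs (cl Λ) ξ)) :
    (sysJ N L k β hβ).num (mj N) Λ F ω = ((N : ℝ) ^ (cl Λ).card)⁻¹ * ∑ t : cl Λ → Fin N,
      ∫ X, Ψ (glue (Frl L Λ) X (lk ω)) t * Real.exp (-β * EE k (ext (cl Λ) t) Λ (glue (Frl L Λ) X (lk ω)))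
        ∂(pm N L) := by
  have hN0 : 0 < N := by omega
  unfold Sys.num
  have hgl : Measurable fun X : Cf N L => glue (Frl L Λ) X (lk ω) := PkgF.meas_glue_left _ _
  have hEE : ∀ s : Pl → ℤ, Continuous fun X : Cf N L => EE k s Λ X := fun s => by
    unfold EE
    exact continuous_finsetSum _ fun τ _ => enf_cont k s τ
  have hE0 : ∀ (s : Pl → ℤ) (X : Cf N L), 0 ≤ EE k s Λ X := fun s X =>
    Finset.sum_nonneg fun τ _ => enf_nonneg k s X τ
  rw [← int_joint h2 hN0 (cl Λ) (fun X t => Ψ (glue (Frl L Λ) X (lk ω)) t *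
    Real.exp (-β * EE k (ext (cl Λ) t) Λ (glue (Frl L Λ) X (lk ω))))]
  · congr 1
    funext ξ
    have e1 : (sysJ N L k β hβ).Fr Λ = FrJ L Λ := rfl
    rw [e1, hF ξ, lk_glue]
    congr 1
    unfold Sys.W
    have e2 : (sysJ N L k β hβ).tms Λ = tml Λ := rfl
    rw [e2, ← prod_exp]
    refine Finset.prod_congr rfl fun τ hτ => ?_
    show Real.exp (-β * enf k (fx (glue (FrJ L Λ) ξ ω)) (lk (glue (FrJ L Λ) ξ ω)) τ) = _
    rw [lk_glue, enf_loc k _ _ τ _ (glue (Frl L Λ) (lk ξ) (lk ω)) (fun _ _ => rfl)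
      (fun h3 => fx_glue Λ ξ ω (cl_of_tml hτ h3))]
  · intro t
    exact ((hΨ t).comp hgl).mul (Real.measurable_exp.comp (measurable_const.mul ((hEE _).measurable.comp hgl)))
  · obtain ⟨K, hK⟩ := hb
    refine ⟨K, fun X t => ?_⟩
    rw [abs_mul, abs_of_pos (Real.exp_pos _)]
    have h1 := hK (glue (Frl L Λ) X (lk ω)) t
    have h3 : Real.exp (-β * EE k (ext (cl Λ) t) Λ (glue (Frl L Λ) X (lk ω))) ≤ 1 := by
      rw [Real.exp_le_one_iff]
      have := mul_nonneg hβ (hE0 (ext (cl Λ) t) (glue (Frl L Λ) X (lk ω)))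
      linarith
    calc |Ψ (glue (Frl L Λ) X (lk ω)) t| * Real.exp (-β * EE k (ext (cl Λ) t) Λ (glue (Frl L Λ) X (lk ω)))
        ≤ |Ψ (glue (Frl L Λ) X (lk ω)) t| * 1 := mul_le_mul_of_nonneg_left h3 (abs_nonneg _)
      _ ≤ K := by rw [mul_one]; exact h1

/-- the average of the weights over the fluxes -/
theorem avg_wt (hN : 2 ≤ N) (k : ℕ) (β : ℝ) (Λ : Finset Pl) (X : Cf N L) :
    ((N : ℝ) ^ (cl Λ).card)⁻¹ * ∑ t : cl Λ → Fin N, Real.exp (-β * EE k (ext (cl Λ) t) Λ X) =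
      ∏ τ ∈ tml Λ, wt k β τ X := by
  classical
  have hNR : (N : ℝ) ≠ 0 := by
    have : 0 < N := by omega
    exact_mod_cast this.ne'
  -- split the terms
  have e1 : ∀ f : Tm → ℝ, ∏ τ ∈ tml Λ, f τ =
      (∏ τ ∈ (tml Λ).filter (fun τ => ¬ τ.2 = 3), f τ) * ∏ x : cl Λ, f ((x : Pl), 3) := by
    intro f
    rw [← Finset.prod_filter_mul_prod_filter_not (tml Λ) (fun τ => τ.2 = 3) f, mul_comm]
    congr 1
    have e2 : (tml Λ).filter (fun τ => τ.2 = 3) = (cl Λ).map ⟨fun x => (x, 3), fun a b h => (Prod.ext_iff.1 h).1⟩ := by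
      ext τ
      rw [Finset.mem_filter, Finset.mem_map]
      constructor
      · rintro ⟨h1, h2⟩
        exact ⟨τ.1, cl_of_tml h1 h2, Prod.ext rfl h2.symm⟩
      · rintro ⟨x, hx, rfl⟩
        refine ⟨?_, rfl⟩
        have h3 := (mem_cl Λ x).1 hx
        exact (mem_tml Λ _).2 h3
    rw [e2, Finset.prod_map, ← Finset.prod_coe_sort]
    rfl
  have e3 : ∀ t : cl Λ → Fin N, Real.exp (-β * EE k (ext (cl Λ) t) Λ X) =
      (∏ τ ∈ (tml Λ).filter (fun τ => ¬ τ.2 = 3), wt k β τ X) *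
        ∏ x : cl Λ, Real.exp (-β * eP X (om N (t x)) x) := by
    intro t
    rw [← prod_exp, e1]
    refine congrArg₂ (fun a b : ℝ => a * b) ?_ ?_
    · refine Finset.prod_congr rfl fun τ hτ => ?_
      have h3 := (Finset.mem_filter.1 hτ).2
      have h4 : en1 k X τ = en k X τ := by
        obtain ⟨y, i⟩ := τ
        fin_cases i
        · rfl
        · rfl
        · rfl
        · exact absurd rfl h3
      unfold wt enf
      rw [if_neg h3, if_neg h3, h4]
    · refine Finset.prod_congr rfl fun x _ => ?_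
      unfold enf
      rw [if_pos rfl]
      have h4 : oz N (ext (cl Λ) t (x : Pl)) = om N (t x) := by
        unfold ext
        rw [dif_pos x.2]
        unfold oz om
        push_cast
        rfl
      rw [h4]
  rw [Finset.sum_congr rfl fun t _ => e3 t, ← Finset.mul_sum, e1 fun τ => wt k β τ X]
  rw [mul_left_comm]
  congr 1
  have e5 : ∑ t : cl Λ → Fin N, ∏ x : cl Λ, Real.exp (-β * eP X (om N (t x)) x) =
      ∏ x : cl Λ, ∑ m : Fin N, Real.exp (-β * eP X (om N m) x) := by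
    rw [Finset.prod_univ_sum]
    rfl
  rw [e5]
  have e6 : ((N : ℝ) ^ (cl Λ).card)⁻¹ = ∏ _x : cl Λ, (N : ℝ)⁻¹ := by
    rw [Finset.prod_const, Finset.card_univ, Fintype.card_coe, inv_pow]
  rw [e6, ← Finset.prod_mul_distrib]
  refine Finset.prod_congr rfl fun x _ => ?_
  unfold wt
  rw [if_pos rfl, div_eq_inv_mul]

/-- sums over a period -/
theorem period_sum (hN : 0 < N) (h : ℤ → ℝ) (hp : ∀ n, h (n + N) = h n) (c : ℤ) :
    ∑ m : Fin N, h (((m : ℕ) : ℤ) + c) = ∑ n ∈ Finset.range N, h n := by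
  have e0 : ∀ c : ℤ, ∑ m : Fin N, h (((m : ℕ) : ℤ) + c) = ∑ n ∈ Finset.range N, h ((n : ℤ) + c) := fun c =>
    Fin.sum_univ_eq_sum_range (fun n => h ((n : ℤ) + c)) N
  have step : ∀ c : ℤ, ∑ n ∈ Finset.range N, h ((n : ℤ) + (c + 1)) = ∑ n ∈ Finset.range N, h ((n : ℤ) + c) := by
    intro c
    have h1 := Finset.sum_range_succ (fun n : ℕ => h ((n : ℤ) + c)) N
    have h2 := Finset.sum_range_succ' (fun n : ℕ => h ((n : ℤ) + c)) N
    rw [h1] at h2
    have h3 : h ((N : ℤ) + c) = h (((0 : ℕ) : ℤ) + c) := by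
      rw [add_comm, hp]
      simp
    rw [h3] at h2
    have h4 := add_right_cancel h2
    rw [h4]
    refine Finset.sum_congr rfl fun n _ => ?_
    congr 1
    push_cast
    ring
  rw [e0]
  induction c using Int.induction_on with
  | zero => simp
  | succ i ih => rw [step, ih]
  | pred i ih =>
    have := step (-(i : ℤ) - 1)
    rw [sub_add_cancel] at this
    rw [← this, ih]

/-- functions of the total flux -/
theorem sum_flux (hN : 0 < N) (C : Finset Pl) {a : Pl} (ha : a ∈ C) : ∃ K : ℝ, 0 < K ∧ ∀ h : ℤ → ℝ,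
    (∀ n, h (n + N) = h n) → ∑ t : C → Fin N, h (∑ x ∈ C, ext C t x) = K * ∑ n ∈ Finset.range N, h n := by
  classical
  have hne : Nonempty (Fin N) := ⟨⟨0, hN⟩⟩
  refine ⟨(Fintype.card ({x : C // x ≠ ⟨a, ha⟩} → Fin N) : ℝ), ?_, fun h hp => ?_⟩
  · exact_mod_cast Fintype.card_pos
  · have e1 : ∀ t : C → Fin N, ∑ x ∈ C, ext C t x = ∑ x : C, ((t x : ℕ) : ℤ) := by
      intro t
      rw [← Finset.sum_coe_sort]
      refine Finset.sum_congr rfl fun x _ => ?_
      unfold ext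
      rw [dif_pos x.2]
    rw [Finset.sum_congr rfl fun t _ => by rw [e1 t]]
    have e2 : ∑ t : C → Fin N, h (∑ x : C, ((t x : ℕ) : ℤ)) =
        ∑ p : Fin N × ({x : C // x ≠ ⟨a, ha⟩} → Fin N), h ((((p.1 : Fin N) : ℕ) : ℤ) +
          ∑ x : {x : C // x ≠ ⟨a, ha⟩}, ((p.2 x : ℕ) : ℤ)) := by
      refine Fintype.sum_equiv (Equiv.funSplitAt (⟨a, ha⟩ : C) (Fin N)) _ _ fun t => ?_
      congr 1
      rw [Fintype.sum_eq_add_sum_subtype_ne (fun x : C => ((t x : ℕ) : ℤ)) ⟨a, ha⟩]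
      rfl
    rw [e2, Fintype.sum_prod_type_right]
    have e3 : ∀ y : {x : C // x ≠ ⟨a, ha⟩} → Fin N, ∑ m : Fin N, h (((m : ℕ) : ℤ) +
        ∑ x : {x : C // x ≠ ⟨a, ha⟩}, ((y x : ℕ) : ℤ)) = ∑ n ∈ Finset.range N, h n := fun y =>
      period_sum hN h hp _
    rw [Finset.sum_congr rfl fun y _ => e3 y, Finset.sum_const, Finset.card_univ, nsmul_eq_mul]

end PkgVJ

open PkgVJ

theorem pVJ (h2 : S_F2) (hVS : S_VS) : S_VJ := by
  intro N k L _ hN β hβ
  have hN0 : 0 < N := by omega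
  have hNR : (N : ℝ) ≠ 0 := by exact_mod_cast hN0.ne'
  constructor
  · intro Λ f hf hb ω
    have key : ∀ g : Cf N L → ℝ, Measurable g → (∃ K, ∀ X, |g X| ≤ K) →
        (sysJ N L k β hβ).num (mj N) Λ (fun ω' => g (lk ω')) ω =
          (sysS N L k β hN hβ).num (hm N) Λ g (lk ω) := by
      intro g hg hgb
      rw [num_joint h2 hN k β hβ Λ (fun X _ => g X) (fun _ => hg)
        (by obtain ⟨K, hK⟩ := hgb; exact ⟨K, fun X _ => hK X⟩) (fun ω' => g (lk ω')) ω fun _ => rfl]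
      unfold Sys.num
      have hgl : Measurable fun X : Cf N L => glue (Frl L Λ) X (lk ω) := PkgF.meas_glue_left _ _
      have hint : ∀ t : cl Λ → Fin N, Integrable (fun X : Cf N L => g (glue (Frl L Λ) X (lk ω)) *
          Real.exp (-β * EE k (ext (cl Λ) t) Λ (glue (Frl L Λ) X (lk ω)))) (pm N L) := by
        intro t
        have hEE : Continuous fun X : Cf N L => EE k (ext (cl Λ) t) Λ X := by
          unfold EE
          exact continuous_finsetSum _ fun τ _ => enf_cont k _ τ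
        refine PkgF.integrable_bdd ((hg.comp hgl).mul (Real.measurable_exp.comp
          (measurable_const.mul (hEE.measurable.comp hgl)))) ?_
        obtain ⟨K, hK⟩ := hgb
        refine ⟨K, fun X => ?_⟩
        rw [abs_mul, abs_of_pos (Real.exp_pos _)]
        have h3 : Real.exp (-β * EE k (ext (cl Λ) t) Λ (glue (Frl L Λ) X (lk ω))) ≤ 1 := by
          rw [Real.exp_le_one_iff]
          have h0 : 0 ≤ EE k (ext (cl Λ) t) Λ (glue (Frl L Λ) X (lk ω)) :=
            Finset.sum_nonneg fun τ _ => enf_nonneg k (ext (cl Λ) t) (glue (Frl L Λ) X (lk ω)) τ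
          have := mul_nonneg hβ h0
          linarith
        calc |g (glue (Frl L Λ) X (lk ω))| *
            Real.exp (-β * EE k (ext (cl Λ) t) Λ (glue (Frl L Λ) X (lk ω)))
            ≤ |g (glue (Frl L Λ) X (lk ω))| * 1 := mul_le_mul_of_nonneg_left h3 (abs_nonneg _)
          _ ≤ K := by rw [mul_one]; exact hK _
      rw [← integral_finsetSum _ fun t _ => hint t, ← integral_const_mul]
      congr 1
      funext X
      rw [← Finset.mul_sum, mul_left_comm, avg_wt hN]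
      rfl
    unfold Sys.ker
    rw [key f hf hb, key (fun _ => 1) measurable_const ⟨1, fun _ => by simp⟩]
  · intro a b h1 h3 φ hφ ω
    have hacl : a ∈ cl (rc a b) := by
      rw [mem_cl]
      refine ⟨a, by rw [mem_cor3]; exact Or.inl rfl, ?_⟩
      unfold rc
      rw [Finset.mem_product, Finset.mem_Icc, Finset.mem_Icc]
      exact ⟨⟨le_rfl, h1⟩, le_rfl, h3⟩
    obtain ⟨K, hK, hsum⟩ := sum_flux hN0 (cl (rc a b)) hacl
    -- the partition functions depend only on the total flux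
    have hZ : ∀ t : cl (rc a b) → Fin N, Zf k β (ext (cl (rc a b)) t) (rc a b) (lk ω) =
        Zf k β (dl a (∑ x ∈ cl (rc a b), ext (cl (rc a b)) t x)) (rc a b) (lk ω) := by
      intro t
      refine hVS N k L hN β hβ a b h1 h3 _ _ (lk ω) ?_
      rw [Finset.sum_sub_distrib]
      have : ∑ x ∈ cl (rc a b), dl a (∑ x ∈ cl (rc a b), ext (cl (rc a b)) t x) x =
          ∑ x ∈ cl (rc a b), ext (cl (rc a b)) t x := by
        unfold dl
        rw [Finset.sum_ite_eq' (cl (rc a b)) a, if_pos hacl]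
      rw [this, sub_self]
      exact dvd_zero _
    have hZp : ∀ n : ℤ, Zf k β (dl a (n + N)) (rc a b) (lk ω) = Zf k β (dl a n) (rc a b) (lk ω) := by
      intro n
      refine hVS N k L hN β hβ a b h1 h3 _ _ (lk ω) ?_
      rw [Finset.sum_sub_distrib]
      unfold dl
      rw [Finset.sum_ite_eq' (cl (rc a b)) a, if_pos hacl, Finset.sum_ite_eq' (cl (rc a b)) a, if_pos hacl]
      exact ⟨1, by ring⟩
    have key : ∀ ψ : ℤ → ℝ, (∀ n, ψ (n + N) = ψ n) →
        (sysJ N L k β hβ).num (mj N) (rc a b) (fun ω' => ψ (∑ x ∈ cl (rc a b), fx ω' x)) ω =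
          ((N : ℝ) ^ (cl (rc a b)).card)⁻¹ * (K * ∑ n ∈ Finset.range N, ψ n *
            Zf k β (dl a n) (rc a b) (lk ω)) := by
      intro ψ hψ
      rw [num_joint h2 hN k β hβ (rc a b) (fun _ t => ψ (∑ x ∈ cl (rc a b), ext (cl (rc a b)) t x))
        (fun _ => measurable_const) ?_ _ ω fun ξ => ?_]
      · rw [← hsum (fun n => ψ n * Zf k β (dl a n) (rc a b) (lk ω)) fun n => by rw [hψ, hZp]]
        congr 1
        refine Finset.sum_congr rfl fun t _ => ?_
        rw [integral_const_mul, ← hZ t]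
        rfl
      · refine ⟨∑ t : cl (rc a b) → Fin N, |ψ (∑ x ∈ cl (rc a b), ext (cl (rc a b)) t x)|, fun _ t => ?_⟩
        exact Finset.single_le_sum (f := fun t : cl (rc a b) → Fin N =>
          |ψ (∑ x ∈ cl (rc a b), ext (cl (rc a b)) t x)|) (fun _ _ => abs_nonneg _) (Finset.mem_univ t)
      · show ψ _ = ψ _
        congr 1
        exact Finset.sum_congr rfl fun x hx => fx_glue _ ξ ω hx
    unfold Sys.ker
    have k1 := key (fun _ => 1) fun _ => rfl
    rw [key φ hφ]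
    have e7 : (sysJ N L k β hβ).num (mj N) (rc a b) (fun _ => 1) ω =
        ((N : ℝ) ^ (cl (rc a b)).card)⁻¹ * (K * ∑ n ∈ Finset.range N, Zf k β (dl a n) (rc a b) (lk ω)) := by
      rw [k1]
      simp only [one_mul]
    rw [e7]
    have hc : ((N : ℝ) ^ (cl (rc a b)).card)⁻¹ ≠ 0 := inv_ne_zero (pow_ne_zero _ hNR)
    rw [mul_div_mul_left _ _ hc, mul_div_mul_left _ _ hK.ne']

end T2H01.SE
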