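import Pool.Agent.T2H01.SE.Stm1
import Pool.Agent.T2H02.TT.G2

/-!
# Package VL: Lipschitz bound of the energies, energy of the vacuum
-/

set_option autoImplicit false
set_option linter.unusedSectionVars false

noncomputable section

open MeasureTheory Matrix
open scoped Matrix.Norms.Frobenius

namespace T2H01.SE

open T2H02.TT

namespace PkgVL

open T2H02.TT.PkgE (norm_mul_sub)

variable {N L : ℕ} [NeZero L]

lemma sq_bd {a b r ρ : ℝ} (hρ : 0 < ρ) (hb : 0 ≤ b) (h : b ≤ a + 4 * r) :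
    b ^ 2 ≤ (1 + ρ) * a ^ 2 + (1 + 1 / ρ) * (16 * r ^ 2) := by
  have h1 : b ^ 2 ≤ (a + 4 * r) ^ 2 := pow_le_pow_left₀ hb h 2
  refine h1.trans ?_
  have h2 : (1 + ρ) * a ^ 2 + (1 + 1 / ρ) * (16 * r ^ 2) - (a + 4 * r) ^ 2 =
      (ρ * a - 4 * r) ^ 2 / ρ := by
    field_simp
    ring
  have h3 : 0 ≤ (ρ * a - 4 * r) ^ 2 / ρ := by positivity
  linarith

lemma df_bd (X Y : Cf N L) {z : ℂ} (hz : ‖z‖ = 1) (p : Pt L) (i j : Fin 4) {S ρ : ℝ} (hρ : 0 < ρ)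
    (hS : 0 ≤ S)
    (h1 : ‖(Y (p, i) : Mt N) - (X (p, i) : Mt N)‖ ^ 2 ≤ S)
    (h2 : ‖(Y (nx p i, j) : Mt N) - (X (nx p i, j) : Mt N)‖ ^ 2 ≤ S)
    (h3 : ‖(Y (p, j) : Mt N) - (X (p, j) : Mt N)‖ ^ 2 ≤ S)
    (h4 : ‖(Y (nx p j, i) : Mt N) - (X (nx p j, i) : Mt N)‖ ^ 2 ≤ S) :
    ‖df Y z p i j‖ ^ 2 ≤ (1 + ρ) * ‖df X z p i j‖ ^ 2 + (1 + 1 / ρ) * (16 * S) := by
  have hr : Real.sqrt S ^ 2 = S := Real.sq_sqrt hS
  have k1 := Real.le_sqrt_of_sq_le h1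
  have k2 := Real.le_sqrt_of_sq_le h2
  have k3 := Real.le_sqrt_of_sq_le h3
  have k4 := Real.le_sqrt_of_sq_le h4
  have h5 : df Y z p i j = df X z p i j +
      ((((Y (p, i) * Y (nx p i, j) : SU N) : Mt N) - ((X (p, i) * X (nx p i, j) : SU N) : Mt N)) -
        z • (((Y (p, j) * Y (nx p j, i) : SU N) : Mt N) -
          ((X (p, j) * X (nx p j, i) : SU N) : Mt N))) := by
    unfold df
    change _ = _ + (((Y (p, i) : Mt N) * (Y (nx p i, j) : Mt N) -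
      (X (p, i) : Mt N) * (X (nx p i, j) : Mt N)) - z • ((Y (p, j) : Mt N) * (Y (nx p j, i) : Mt N) -
      (X (p, j) : Mt N) * (X (nx p j, i) : Mt N)))
    rw [smul_sub]
    abel
  have h6 := norm_mul_sub (Y (p, i)) (X (p, i)) (Y (nx p i, j)) (X (nx p i, j))
  have h7 := norm_mul_sub (Y (p, j)) (X (p, j)) (Y (nx p j, i)) (X (nx p j, i))
  have h8 : ‖df Y z p i j‖ ≤ ‖df X z p i j‖ + 4 * Real.sqrt S := by
    rw [h5]
    refine (norm_add_le _ _).trans ?_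
    have h9 := norm_sub_le (((Y (p, i) * Y (nx p i, j) : SU N) : Mt N) -
      ((X (p, i) * X (nx p i, j) : SU N) : Mt N)) (z • (((Y (p, j) * Y (nx p j, i) : SU N) : Mt N) -
          ((X (p, j) * X (nx p j, i) : SU N) : Mt N)))
    rw [norm_smul, hz, one_mul] at h9
    linarith
  have h9 := sq_bd hρ (norm_nonneg _) h8
  rw [hr] at h9
  exact h9

lemma oz_norm (N : ℕ) (a : ℤ) : ‖oz N a‖ = 1 := by
  rw [oz, show 2 * (Real.pi : ℂ) * Complex.I * a / N = ((2 * Real.pi * a / N : ℝ) : ℂ) * Complex.I by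
    push_cast; ring, Complex.norm_exp_ofReal_mul_I]

lemma oz_dvd {N : ℕ} (hN : 0 < N) {a : ℤ} (h : (N : ℤ) ∣ a) : oz N a = 1 := by
  obtain ⟨b, rfl⟩ := h
  have hN' : (N : ℂ) ≠ 0 := by exact_mod_cast hN.ne'
  rw [oz, Complex.exp_eq_one_iff]
  refine ⟨b, ?_⟩
  push_cast
  field_simp

lemma vc_pl (P Q : SU N) (p : Pt L) (i : Fin 4) (hi : i = 0 ∨ i = 1) : vc P Q (p, i) = 1 := by
  rcases hi with rfl | rfl <;> simp [vc]

lemma vc_to (P Q : SU N) (x x' : Pl) (y : Tor L) (j : Fin 4) (hj : j = 2 ∨ j = 3) :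
    (vc P Q ((x, y), j) : SU N) = vc P Q ((x', y), j) := by
  rcases hj with rfl | rfl <;> simp [vc]

lemma eV_vc {k : ℕ} {P Q : SU N} (h : VV k (vac P Q : Ph N L) = 0) (x : Pl) :
    eV k (vc P Q : Cf N L) x = 0 := by
  rw [← h]
  unfold eV VV df
  refine Finset.sum_congr rfl fun y _ => ?_
  rw [nx2, nx3]
  simp [vc]

lemma eK_vc (P Q : SU N) (x : Pl) (m : Fin 4) (hm : m = 0 ∨ m = 1) :
    eK (vc P Q : Cf N L) x m = 0 := by
  unfold eK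
  refine Finset.sum_eq_zero fun y _ => ?_
  have h1 : df (vc P Q : Cf N L) 1 (x, y) m 2 = 0 := by
    unfold df
    rw [vc_pl P Q _ m hm, vc_pl P Q _ m hm]
    rcases hm with rfl | rfl
    · rw [nx0, vc_to P Q (x + (1, 0)) x y 2 (Or.inl rfl)]
      simp
    · rw [nx1, vc_to P Q (x + (0, 1)) x y 2 (Or.inl rfl)]
      simp
  have h2 : df (vc P Q : Cf N L) 1 (x, y) m 3 = 0 := by
    unfold df
    rw [vc_pl P Q _ m hm, vc_pl P Q _ m hm]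
    rcases hm with rfl | rfl
    · rw [nx0, vc_to P Q (x + (1, 0)) x y 3 (Or.inr rfl)]
      simp
    · rw [nx1, vc_to P Q (x + (0, 1)) x y 3 (Or.inr rfl)]
      simp
  rw [h1, h2]
  simp

lemma eP_vc (P Q : SU N) (x : Pl) : eP (vc P Q : Cf N L) 1 x = 0 := by
  unfold eP
  refine Finset.sum_eq_zero fun y _ => ?_
  have h1 : df (vc P Q : Cf N L) 1 (x, y) 0 1 = 0 := by
    unfold df
    rw [vc_pl P Q _ 0 (Or.inl rfl), vc_pl P Q _ 0 (Or.inl rfl), vc_pl P Q _ 1 (Or.inr rfl),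
      vc_pl P Q _ 1 (Or.inr rfl)]
    simp
  rw [h1]
  simp

lemma part1 (k : ℕ) {ρ : ℝ} (hρ : 0 < ρ) (s : Pl → ℤ) (τ : Tm) (X Y : Cf N L) :
    enf k s Y τ ≤ (1 + ρ) * enf k s X τ + (1 + 1 / ρ) * (16 * Fintype.card (Tor L)) *
      ∑ l ∈ (spt τ : Finset (Lk L)), ‖(Y l : Mt N) - (X l : Mt N)‖ ^ 2 := by
  obtain ⟨S, hSd⟩ : ∃ S, S = ∑ l ∈ (spt τ : Finset (Lk L)), ‖(Y l : Mt N) - (X l : Mt N)‖ ^ 2 :=
    ⟨_, rfl⟩
  have hS : 0 ≤ S := by rw [hSd]; positivity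
  have hle : ∀ l ∈ (spt τ : Finset (Lk L)), ‖(Y l : Mt N) - (X l : Mt N)‖ ^ 2 ≤ S := fun l hl => by
    rw [hSd]
    exact Finset.single_le_sum (f := fun l => ‖(Y l : Mt N) - (X l : Mt N)‖ ^ 2)
      (fun l _ => by positivity) hl
  rw [← hSd]
  have hc : 0 < 1 + 1 / ρ := by positivity
  have hsum : ∀ (f g : Tor L → ℝ), (∀ y, f y ≤ (1 + ρ) * g y + (1 + 1 / ρ) * (16 * S)) →
      ∑ y, f y ≤ (1 + ρ) * ∑ y, g y + (1 + 1 / ρ) * (16 * Fintype.card (Tor L)) * S := by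
    intro f g h
    calc ∑ y, f y ≤ ∑ y, ((1 + ρ) * g y + (1 + 1 / ρ) * (16 * S)) :=
          Finset.sum_le_sum fun y _ => h y
      _ = _ := by
        rw [Finset.sum_add_distrib, ← Finset.mul_sum, Finset.sum_const, Finset.card_univ,
          nsmul_eq_mul]
        ring
  have hcS : 0 ≤ (1 + 1 / ρ) * (16 * S) := by positivity
  obtain ⟨x, i⟩ := τ
  fin_cases i
  · change eV k Y x ≤ (1 + ρ) * eV k X x + _
    have hm := fun (l : Lk L) hl => hle l ((mem_spt0 x l).2 hl)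
    refine hsum _ _ fun y => ?_
    have := df_bd X Y (PkgG2.tw_norm N k y) (x, y) 2 3 hρ hS (hm _ ⟨y, Or.inl rfl⟩)
      (by rw [nx2]; exact hm _ ⟨_, Or.inr rfl⟩) (hm _ ⟨y, Or.inr rfl⟩)
      (by rw [nx3]; exact hm _ ⟨_, Or.inl rfl⟩)
    linarith
  · change eK Y x 0 ≤ (1 + ρ) * eK X x 0 + _
    have hm := fun (l : Lk L) hl => hle l ((mem_spt1 x l).2 hl)
    refine hsum _ _ fun y => ?_
    have h1 := df_bd X Y (norm_one) (x, y) 0 2 hρ hS (hm _ ⟨y, by simp⟩)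
      (by rw [nx0]; exact hm _ ⟨y, by simp⟩) (hm _ ⟨y, by simp⟩)
      (by rw [nx2]; exact hm _ ⟨_, Or.inl rfl⟩)
    have h2 := df_bd X Y (norm_one) (x, y) 0 3 hρ hS (hm _ ⟨y, by simp⟩)
      (by rw [nx0]; exact hm _ ⟨y, by simp⟩) (hm _ ⟨y, by simp⟩)
      (by rw [nx3]; exact hm _ ⟨_, Or.inl rfl⟩)
    linarith
  · change eK Y x 1 ≤ (1 + ρ) * eK X x 1 + _
    have hm := fun (l : Lk L) hl => hle l ((mem_spt2 x l).2 hl)
    refine hsum _ _ fun y => ?_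
    have h1 := df_bd X Y (norm_one) (x, y) 1 2 hρ hS (hm _ ⟨y, by simp⟩)
      (by rw [nx1]; exact hm _ ⟨y, by simp⟩) (hm _ ⟨y, by simp⟩)
      (by rw [nx2]; exact hm _ ⟨_, Or.inl rfl⟩)
    have h2 := df_bd X Y (norm_one) (x, y) 1 3 hρ hS (hm _ ⟨y, by simp⟩)
      (by rw [nx1]; exact hm _ ⟨y, by simp⟩) (hm _ ⟨y, by simp⟩)
      (by rw [nx3]; exact hm _ ⟨_, Or.inl rfl⟩)
    linarith
  · change eP Y (oz N (s x)) x ≤ (1 + ρ) * eP X (oz N (s x)) x + _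
    have hm := fun (l : Lk L) hl => hle l ((mem_spt3 x l).2 hl)
    refine hsum _ _ fun y => ?_
    have := df_bd X Y (oz_norm N (s x)) (x, y) 0 1 hρ hS (hm _ ⟨y, by simp⟩)
      (by rw [nx0]; exact hm _ ⟨y, by simp⟩) (hm _ ⟨y, by simp⟩)
      (by rw [nx1]; exact hm _ ⟨y, by simp⟩)
    linarith

lemma part2 {k : ℕ} {P Q : SU N} (h : VV k (vac P Q : Ph N L) = 0) (hN : 0 < N) (s : Pl → ℤ)
    (τ : Tm) (hs : τ.2 = 3 → (N : ℤ) ∣ s τ.1) : enf k s (vc P Q : Cf N L) τ = 0 := by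
  obtain ⟨x, i⟩ := τ
  fin_cases i
  · exact eV_vc h x
  · exact eK_vc P Q x 0 (Or.inl rfl)
  · exact eK_vc P Q x 1 (Or.inr rfl)
  · change eP (vc P Q : Cf N L) (oz N (s x)) x = 0
    rw [oz_dvd hN (hs rfl)]
    exact eP_vc P Q x

lemma part3 {k : ℕ} {P Q : SU N} (h : VV k (vac P Q : Ph N L) = 0) (hN : 0 < N) (τ : Tm) :
    en k (vc P Q : Cf N L) τ = 0 := by
  obtain ⟨x, i⟩ := τ
  fin_cases i
  · exact eV_vc h x
  · exact eK_vc P Q x 0 (Or.inl rfl)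
  · exact eK_vc P Q x 1 (Or.inr rfl)
  · refine le_antisymm ?_ (en_nonneg _ _ _)
    change (⨅ m : Fin N, eP (vc P Q : Cf N L) (om N m) x) ≤ 0
    refine (PkgG2.inf_le _ x ⟨0, hN⟩).trans (le_of_eq ?_)
    have h0 : om N ((⟨0, hN⟩ : Fin N) : ℕ) = 1 := by simp [om]
    rw [h0]
    exact eP_vc P Q x

end PkgVL

theorem pVL (hB0 : S_B0) : S_VL := by
  intro N k L _ hN hk P Q hPQ
  have h0 := hB0 N k L hN hk P Q hPQ
  have hN0 : 0 < N := by omega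
  refine ⟨⟨16 * Fintype.card (Tor L), ?_, fun ρ hρ s τ X Y => PkgVL.part1 k hρ s τ X Y⟩,
    fun s τ hs => PkgVL.part2 h0 hN0 s τ hs, fun τ => PkgVL.part3 h0 hN0 τ⟩
  have h1 : (1 : ℝ) ≤ Fintype.card (Tor L) := by
    exact_mod_cast Nat.succ_le_of_lt (Fintype.card_pos)
  linarith

end T2H01.SE
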