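import Pool.Agent.T2H01.SE.Stm1

/-!
# Package VN : no flux inside good rings implies no total flux
-/

set_option autoImplicit false
set_option linter.unusedSectionVars false

noncomputable section

open MeasureTheory Matrix
open scoped Matrix.Norms.Frobenius

namespace T2H01.SE

namespace PkgVN

open T2H02.TT

lemma mem_rc (a b x : Pl) : x ∈ rc a b ↔ (a.1 ≤ x.1 ∧ x.1 ≤ b.1) ∧ (a.2 ≤ x.2 ∧ x.2 ≤ b.2) := by
  unfold rc
  rw [Finset.mem_product, Finset.mem_Icc, Finset.mem_Icc]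

lemma mem_cl (U : Finset Pl) (x : Pl) : x ∈ cl U ↔ ∃ a ∈ cor (x, 3), a ∈ U := by
  unfold cl
  rw [Finset.mem_image]
  constructor
  · rintro ⟨⟨y, i⟩, h, rfl⟩
    rw [Finset.mem_filter, mem_tml] at h
    obtain ⟨h1, h2⟩ := h
    simp only at h2
    subst h2
    exact h1
  · intro h
    exact ⟨(x, 3), Finset.mem_filter.2 ⟨(mem_tml _ _).2 h, rfl⟩, rfl⟩

lemma mem_cl_rc (a b x : Pl) (h1 : a.1 ≤ b.1) (h2 : a.2 ≤ b.2) :
    x ∈ cl (rc a b) ↔ (a.1 - 1 ≤ x.1 ∧ x.1 ≤ b.1) ∧ (a.2 - 1 ≤ x.2 ∧ x.2 ≤ b.2) := by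
  rw [mem_cl]
  constructor
  · rintro ⟨c, hc, hcU⟩
    rw [mem_cor3] at hc
    rw [mem_rc] at hcU
    obtain ⟨c1, c2⟩ := c
    obtain ⟨x1, x2⟩ := x
    simp only [Prod.mk.injEq, Prod.mk_add_mk] at hc hcU ⊢
    omega
  · intro h
    obtain ⟨x1, x2⟩ := x
    simp only at h
    by_cases e1 : a.1 ≤ x1 <;> by_cases e2 : a.2 ≤ x2
    · refine ⟨(x1, x2), (mem_cor3 _ _).2 (Or.inl rfl), (mem_rc _ _ _).2 ?_⟩
      simp only; omega
    · refine ⟨(x1, x2) + (0, 1), (mem_cor3 _ _).2 (Or.inr (Or.inr (Or.inl rfl))), (mem_rc _ _ _).2 ?_⟩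
      simp only [Prod.mk_add_mk]; omega
    · refine ⟨(x1, x2) + (1, 0), (mem_cor3 _ _).2 (Or.inr (Or.inl rfl)), (mem_rc _ _ _).2 ?_⟩
      simp only [Prod.mk_add_mk]; omega
    · refine ⟨(x1, x2) + (1, 1), (mem_cor3 _ _).2 (Or.inr (Or.inr (Or.inr rfl))), (mem_rc _ _ _).2 ?_⟩
      simp only [Prod.mk_add_mk]; omega

lemma mem_pls_rc (a b x : Pl) (h1 : a.1 ≤ b.1) (h2 : a.2 ≤ b.2) :
    x ∈ pls (rc a b) ↔ (a.1 - 1 ≤ x.1 ∧ x.1 ≤ b.1 + 1) ∧ (a.2 - 1 ≤ x.2 ∧ x.2 ≤ b.2 + 1) := by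
  unfold pls Nb
  rw [Finset.mem_biUnion]
  simp only [mem_rc, Finset.mem_product, Finset.mem_Icc, Nat.cast_one]
  constructor
  · rintro ⟨c, hc, h⟩
    omega
  · intro h
    refine ⟨(max a.1 (min x.1 b.1), max a.2 (min x.2 b.2)), ?_, ?_⟩ <;> simp only <;> omega

lemma fst_cor (τ : Tm) : τ.1 ∈ cor τ := by
  obtain ⟨x, i⟩ := τ
  fin_cases i
  · exact (mem_cor0 x x).2 rfl
  · exact (mem_cor1 x x).2 (Or.inl rfl)
  · exact (mem_cor2 x x).2 (Or.inl rfl)
  · exact (mem_cor3 x x).2 (Or.inl rfl)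

lemma mem_rng (U : Finset Pl) (τ : Tm) : τ ∈ rng U ↔ ∀ c ∈ cor τ, c ∈ pls U ∧ c ∉ U := by
  unfold rng
  rw [Finset.mem_filter, mem_tml]
  exact ⟨fun h => h.2, fun h => ⟨⟨τ.1, fst_cor τ, (h _ (fst_cor τ)).1⟩, h⟩⟩

/-- the site `c` is beyond the side `i` of the rectangle -/
def sd (a b : Pl) (i : Fin 4) (c : Pl) : Prop :=
  if i = 0 then c.1 = a.1 - 1 else if i = 1 then c.1 = b.1 + 1 else
    if i = 2 then c.2 = a.2 - 1 else c.2 = b.2 + 1

lemma rng_side (a b : Pl) (h1 : a.1 + 2 ≤ b.1) (h2 : a.2 + 2 ≤ b.2) (τ : Tm) (h : τ ∈ rng (rc a b)) :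
    ∃ i, ∀ c ∈ cor τ, sd a b i c := by
  rw [mem_rng] at h
  have key : ∀ c ∈ cor τ, ((a.1 - 1 ≤ c.1 ∧ c.1 ≤ b.1 + 1) ∧ (a.2 - 1 ≤ c.2 ∧ c.2 ≤ b.2 + 1)) ∧
      ¬ ((a.1 ≤ c.1 ∧ c.1 ≤ b.1) ∧ (a.2 ≤ c.2 ∧ c.2 ≤ b.2)) := by
    intro c hc
    have h3 := h c hc
    rw [mem_pls_rc a b c (by omega) (by omega), mem_rc] at h3
    exact h3
  obtain ⟨⟨x1, x2⟩, i⟩ := τ
  fin_cases i
  · have k1 := key (x1, x2) ((mem_cor0 _ _).2 rfl)
    simp only at k1
    have k2 : x1 = a.1 - 1 ∨ x1 = b.1 + 1 ∨ x2 = a.2 - 1 ∨ x2 = b.2 + 1 := by omega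
    rcases k2 with k2 | k2 | k2 | k2
    · refine ⟨0, fun c hc => ?_⟩
      rw [(mem_cor0 _ _).1 hc]; simpa [sd] using k2
    · refine ⟨1, fun c hc => ?_⟩
      rw [(mem_cor0 _ _).1 hc]; simpa [sd] using k2
    · refine ⟨2, fun c hc => ?_⟩
      rw [(mem_cor0 _ _).1 hc]; simpa [sd] using k2
    · refine ⟨3, fun c hc => ?_⟩
      rw [(mem_cor0 _ _).1 hc]; simpa [sd] using k2
  · have k1 := key (x1, x2) ((mem_cor1 _ _).2 (Or.inl rfl))
    have k2 := key ((x1, x2) + (1, 0)) ((mem_cor1 _ _).2 (Or.inr rfl))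
    simp only [Prod.mk_add_mk] at k1 k2
    have k3 : x2 = a.2 - 1 ∨ x2 = b.2 + 1 := by omega
    rcases k3 with k3 | k3
    · refine ⟨2, fun c hc => ?_⟩
      rcases (mem_cor1 _ _).1 hc with rfl | rfl <;> simpa [sd] using k3
    · refine ⟨3, fun c hc => ?_⟩
      rcases (mem_cor1 _ _).1 hc with rfl | rfl <;> simpa [sd] using k3
  · have k1 := key (x1, x2) ((mem_cor2 _ _).2 (Or.inl rfl))
    have k2 := key ((x1, x2) + (0, 1)) ((mem_cor2 _ _).2 (Or.inr rfl))
    simp only [Prod.mk_add_mk] at k1 k2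
    have k3 : x1 = a.1 - 1 ∨ x1 = b.1 + 1 := by omega
    rcases k3 with k3 | k3
    · refine ⟨0, fun c hc => ?_⟩
      rcases (mem_cor2 _ _).1 hc with rfl | rfl <;> simpa [sd] using k3
    · refine ⟨1, fun c hc => ?_⟩
      rcases (mem_cor2 _ _).1 hc with rfl | rfl <;> simpa [sd] using k3
  · exfalso
    have k1 := key (x1, x2) ((mem_cor3 _ _).2 (Or.inl rfl))
    have k2 := key ((x1, x2) + (1, 0)) ((mem_cor3 _ _).2 (Or.inr (Or.inl rfl)))
    have k3 := key ((x1, x2) + (0, 1)) ((mem_cor3 _ _).2 (Or.inr (Or.inr (Or.inl rfl))))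
    have k4 := key ((x1, x2) + (1, 1)) ((mem_cor3 _ _).2 (Or.inr (Or.inr (Or.inr rfl))))
    simp only [Prod.mk_add_mk] at k1 k2 k3 k4
    omega

section

variable {N L : ℕ} [NeZero L]

/-- the rectangle `rc c d` contains `rc a b` and has a good ring -/
def GG (k : ℕ) (X : Cf N L) (e : ℝ) (a b c d : Pl) : Prop :=
  ((c.1 ≤ a.1 ∧ c.2 ≤ a.2) ∧ (b.1 ≤ d.1 ∧ b.2 ≤ d.2)) ∧ rE k X (rc c d) ≤ e

/-- parity rectangles inside `rc a b` with good sides -/
structure Inv (k : ℕ) (X : Cf N L) (e : ℝ) (m : ℕ) (a b a' b' : Pl) : Prop where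
  le1 : a'.1 ≤ b'.1
  le2 : a'.2 ≤ b'.2
  p1 : (4 : ℤ) ∣ a'.1
  p2 : (4 : ℤ) ∣ a'.2
  q1 : (4 : ℤ) ∣ b'.1 - 2
  q2 : (4 : ℤ) ∣ b'.2 - 2
  sub : (a.1 ≤ a'.1 ∧ a.2 ≤ a'.2) ∧ (b'.1 ≤ b.1 ∧ b'.2 ≤ b.2)
  s1 : b'.1 - a'.1 ≤ 8 * m + 2
  s2 : b'.2 - a'.2 ≤ 8 * m + 2
  sl : a'.1 = a.1 ∨ ∃ c d, GG k X e a' b' c d ∧ c.1 = a'.1
  sr : b'.1 = b.1 ∨ ∃ c d, GG k X e a' b' c d ∧ d.1 = b'.1
  sb : a'.2 = a.2 ∨ ∃ c d, GG k X e a' b' c d ∧ c.2 = a'.2
  stp : b'.2 = b.2 ∨ ∃ c d, GG k X e a' b' c d ∧ d.2 = b'.2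

lemma GG.mono {k : ℕ} {X : Cf N L} {e : ℝ} {a b a' b' c d : Pl} (h : GG k X e a b c d)
    (h1 : a.1 ≤ a'.1) (h2 : a.2 ≤ a'.2) (h3 : b'.1 ≤ b.1) (h4 : b'.2 ≤ b.2) : GG k X e a' b' c d :=
  ⟨⟨⟨h.1.1.1.trans h1, h.1.1.2.trans h2⟩, h3.trans h.1.2.1, h4.trans h.1.2.2⟩, h.2⟩

lemma Inv.inter {k : ℕ} {X : Cf N L} {e : ℝ} {m : ℕ} {a b a1 b1 a2 b2 : Pl}
    (h : Inv k X e m a b a1 b1) (h' : Inv k X e m a b a2 b2) :
    (cl (rc a1 b1) ∩ cl (rc a2 b2) = ∅) ∨
      ∃ a' b', Inv k X e m a b a' b' ∧ cl (rc a1 b1) ∩ cl (rc a2 b2) = cl (rc a' b') := by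
  have hx : ∀ x, x ∈ cl (rc a1 b1) ∩ cl (rc a2 b2) ↔
      ((max a1.1 a2.1 - 1 ≤ x.1 ∧ x.1 ≤ min b1.1 b2.1) ∧
        (max a1.2 a2.2 - 1 ≤ x.2 ∧ x.2 ≤ min b1.2 b2.2)) := by
    intro x
    rw [Finset.mem_inter, mem_cl_rc _ _ _ h.le1 h.le2, mem_cl_rc _ _ _ h'.le1 h'.le2]
    omega
  have p1 := h.p1
  have p2 := h.p2
  have p3 := h.q1
  have p4 := h.q2
  have p1' := h'.p1
  have p2' := h'.p2
  have p3' := h'.q1
  have p4' := h'.q2
  by_cases hne : max a1.1 a2.1 ≤ min b1.1 b2.1 ∧ max a1.2 a2.2 ≤ min b1.2 b2.2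
  · right
    refine ⟨(max a1.1 a2.1, max a1.2 a2.2), (min b1.1 b2.1, min b1.2 b2.2), ?_, ?_⟩
    · have u1 := h.sub
      have u2 := h'.sub
      have v1 := h.s1
      have v2 := h.s2
      have v1' := h'.s1
      have v2' := h'.s2
      refine ⟨hne.1, hne.2, ?_, ?_, ?_, ?_, ?_, ?_, ?_, ?_, ?_, ?_, ?_⟩
      · simp only; omega
      · simp only; omega
      · simp only; omega
      · simp only; omega
      · simp only; omega
      · simp only; omega
      · simp only; omega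
      · simp only
        rcases le_total a1.1 a2.1 with hc | hc
        · rw [max_eq_right hc]
          exact h'.sl.imp id fun ⟨c, d, hg, hcd⟩ => ⟨c, d, hg.mono (by simp only; omega) (by simp only; omega)
            (by simp only; omega) (by simp only; omega), hcd⟩
        · rw [max_eq_left hc]
          exact h.sl.imp id fun ⟨c, d, hg, hcd⟩ => ⟨c, d, hg.mono (by simp only; omega) (by simp only; omega)
            (by simp only; omega) (by simp only; omega), hcd⟩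
      · simp only
        rcases le_total b1.1 b2.1 with hc | hc
        · rw [min_eq_left hc]
          exact h.sr.imp id fun ⟨c, d, hg, hcd⟩ => ⟨c, d, hg.mono (by simp only; omega) (by simp only; omega)
            (by simp only; omega) (by simp only; omega), hcd⟩
        · rw [min_eq_right hc]
          exact h'.sr.imp id fun ⟨c, d, hg, hcd⟩ => ⟨c, d, hg.mono (by simp only; omega) (by simp only; omega)
            (by simp only; omega) (by simp only; omega), hcd⟩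
      · simp only
        rcases le_total a1.2 a2.2 with hc | hc
        · rw [max_eq_right hc]
          exact h'.sb.imp id fun ⟨c, d, hg, hcd⟩ => ⟨c, d, hg.mono (by simp only; omega) (by simp only; omega)
            (by simp only; omega) (by simp only; omega), hcd⟩
        · rw [max_eq_left hc]
          exact h.sb.imp id fun ⟨c, d, hg, hcd⟩ => ⟨c, d, hg.mono (by simp only; omega) (by simp only; omega)
            (by simp only; omega) (by simp only; omega), hcd⟩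
      · simp only
        rcases le_total b1.2 b2.2 with hc | hc
        · rw [min_eq_left hc]
          exact h.stp.imp id fun ⟨c, d, hg, hcd⟩ => ⟨c, d, hg.mono (by simp only; omega) (by simp only; omega)
            (by simp only; omega) (by simp only; omega), hcd⟩
        · rw [min_eq_right hc]
          exact h'.stp.imp id fun ⟨c, d, hg, hcd⟩ => ⟨c, d, hg.mono (by simp only; omega) (by simp only; omega)
            (by simp only; omega) (by simp only; omega), hcd⟩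
    · ext x
      rw [hx, mem_cl_rc _ _ _ hne.1 hne.2]
  · left
    rw [Finset.eq_empty_iff_forall_notMem]
    intro x h3
    rw [hx] at h3
    apply hne
    omega

lemma en_zero {k : ℕ} {P Q : SU N} {X : Cf N L} {Λ : Finset Pl}
    (hX : ∀ l, l ∉ Frl L Λ → X l = vc P Q l) (hv : ∀ τ, en k (vc P Q : Cf N L) τ = 0) (τ : Tm)
    (h : ∀ c ∈ cor τ, c ∉ Λ) : en k X τ = 0 := by
  rw [en_loc k τ X (vc P Q) fun l hl => hX l ?_, hv]
  rw [mem_Frl]
  rintro ⟨c, hc, hcΛ⟩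
  exact h c ((cor_iff τ c).2 ⟨l, hl, hc⟩) hcΛ

lemma energy {k : ℕ} {P Q : SU N} {X : Cf N L} {e : ℝ} {m : ℕ} {a b a' b' : Pl} (he : 0 ≤ e)
    (hX : ∀ l, l ∉ Frl L (rc a b) → X l = vc P Q l) (hv : ∀ τ, en k (vc P Q : Cf N L) τ = 0)
    (h : Inv k X e m a b a' b') : rE k X (rc a' b') ≤ 4 * e := by
  classical
  have p1 := h.p1
  have p2 := h.p2
  have p3 := h.q1
  have p4 := h.q2
  have l1 := h.le1
  have l2 := h.le2
  have hS := h.sub
  -- every side
  have hside : ∀ i : Fin 4, (∀ c, sd a' b' i c → c ∈ pls (rc a' b') → c ∉ rc a b) ∨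
      ∃ R : Finset Pl, rE k X R ≤ e ∧ ∀ c, sd a' b' i c → c ∈ pls (rc a' b') → c ∈ pls R ∧ c ∉ R := by
    intro i
    fin_cases i
    · rcases h.sl with h3 | ⟨c, d, hg, h3⟩
      · left
        intro x hx hxp
        simp only [sd] at hx
        rw [mem_rc]
        simp at hx
        omega
      · right
        refine ⟨rc c d, hg.2, fun x hx hxp => ?_⟩
        have g := hg.1
        rw [mem_pls_rc _ _ _ h.le1 h.le2] at hxp
        simp [sd] at hx
        rw [mem_pls_rc _ _ _ (by omega) (by omega), mem_rc]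
        omega
    · rcases h.sr with h3 | ⟨c, d, hg, h3⟩
      · left
        intro x hx hxp
        simp [sd] at hx
        rw [mem_rc]
        omega
      · right
        refine ⟨rc c d, hg.2, fun x hx hxp => ?_⟩
        have g := hg.1
        rw [mem_pls_rc _ _ _ h.le1 h.le2] at hxp
        simp [sd] at hx
        rw [mem_pls_rc _ _ _ (by omega) (by omega), mem_rc]
        omega
    · rcases h.sb with h3 | ⟨c, d, hg, h3⟩
      · left
        intro x hx hxp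
        simp [sd] at hx
        rw [mem_rc]
        omega
      · right
        refine ⟨rc c d, hg.2, fun x hx hxp => ?_⟩
        have g := hg.1
        rw [mem_pls_rc _ _ _ h.le1 h.le2] at hxp
        simp [sd] at hx
        rw [mem_pls_rc _ _ _ (by omega) (by omega), mem_rc]
        omega
    · rcases h.stp with h3 | ⟨c, d, hg, h3⟩
      · left
        intro x hx hxp
        simp [sd] at hx
        rw [mem_rc]
        omega
      · right
        refine ⟨rc c d, hg.2, fun x hx hxp => ?_⟩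
        have g := hg.1
        rw [mem_pls_rc _ _ _ h.le1 h.le2] at hxp
        simp [sd] at hx
        rw [mem_pls_rc _ _ _ (by omega) (by omega), mem_rc]
        omega
  have hsum : ∀ i : Fin 4, ∑ τ ∈ (rng (rc a' b')).filter (fun τ => ∀ c ∈ cor τ, sd a' b' i c),
      en k X τ ≤ e := by
    intro i
    rcases hside i with h3 | ⟨R, hR, h3⟩
    · refine (Finset.sum_eq_zero fun τ hτ => ?_).le.trans he
      rw [Finset.mem_filter, mem_rng] at hτ
      exact en_zero hX hv τ fun c hc => h3 c (hτ.2 c hc) (hτ.1 c hc).1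
    · refine le_trans ?_ hR
      unfold rE
      refine Finset.sum_le_sum_of_subset_of_nonneg (fun τ hτ => ?_) fun τ _ _ => en_nonneg k X τ
      rw [Finset.mem_filter, mem_rng] at hτ
      rw [mem_rng]
      exact fun c hc => h3 c (hτ.2 c hc) (hτ.1 c hc).1
  have htot : rE k X (rc a' b') ≤ ∑ i : Fin 4,
      ∑ τ ∈ (rng (rc a' b')).filter (fun τ => ∀ c ∈ cor τ, sd a' b' i c), en k X τ := by
    unfold rE
    simp_rw [Finset.sum_filter]
    rw [Finset.sum_comm]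
    refine Finset.sum_le_sum fun τ hτ => ?_
    obtain ⟨i, hi⟩ := rng_side a' b' (by omega) (by omega) τ hτ
    have h4 : en k X τ = if ∀ c ∈ cor τ, sd a' b' i c then en k X τ else 0 := (if_pos hi).symm
    refine h4.le.trans ?_
    refine Finset.single_le_sum (f := fun j : Fin 4 => if ∀ c ∈ cor τ, sd a' b' j c then en k X τ else 0)
      (fun j _ => ?_) (Finset.mem_univ i)
    split_ifs
    · exact en_nonneg k X τ
    · exact le_rfl
  refine htot.trans ((Finset.sum_le_sum fun i _ => hsum i).trans ?_)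
  simp

end

end PkgVN

open PkgVN T2H02.TT in
theorem pVN (hVL : S_VL) : S_VN := by
  intro N k L _ hN hk P Q hPQ m e he a b hab1 hab2 ha1 ha2 hb1 hb2 X d hX hgood hW
  classical
  have hv : ∀ τ, en k (vc P Q : Cf N L) τ = 0 := (hVL N k L hN hk P Q hPQ).2.2
  choose! j hj using hgood
  set GD : Finset Pl → Prop := fun A => A = ∅ ∨ ∃ a' b', Inv k X e m a b a' b' ∧ A = cl (rc a' b') with hGD
  have hdiv : ∀ A, GD A → (N : ℤ) ∣ ∑ x ∈ A, d x := by
    rintro A (rfl | ⟨a', b', h, rfl⟩)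
    · simp
    · have hS := h.sub
      have l1 := h.le1
      have l2 := h.le2
      exact hW a' b' h.le1 h.le2 ((mem_rc _ _ _).2 (by omega)) ((mem_rc _ _ _).2 (by omega)) h.s1 h.s2
        (energy he hX hv h)
  have hint : ∀ A, GD A → ∀ B, GD B → GD (A ⊓ B) := by
    rintro A (rfl | ⟨a1, b1, h1, rfl⟩) B (rfl | ⟨a2, b2, h2, rfl⟩)
    · left; simp
    · left; simp
    · left; simp
    · exact h1.inter h2
  set lo : Pl → Pl := fun y => (max (4 * (y.1 / 4) - 4 * (j y : ℤ)) a.1, max (4 * (y.2 / 4) - 4 * (j y : ℤ)) a.2)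
    with hlo
  set hi : Pl → Pl := fun y => (min (4 * (y.1 / 4) + 4 * (j y : ℤ) + 2) b.1,
    min (4 * (y.2 / 4) + 4 * (j y : ℤ) + 2) b.2) with hhi
  have hInv : ∀ y ∈ rc a b, Inv k X e m a b (lo y) (hi y) := by
    intro y hy
    have hj1 := Finset.mem_Icc.1 (hj y hy).1
    have hj2 := (hj y hy).2
    rw [mem_rc] at hy
    have hG : GG k X e (lo y) (hi y) (4 * (y.1 / 4) - 4 * (j y : ℤ), 4 * (y.2 / 4) - 4 * (j y : ℤ))
        (4 * (y.1 / 4) + 4 * (j y : ℤ) + 2, 4 * (y.2 / 4) + 4 * (j y : ℤ) + 2) := by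
      refine ⟨?_, hj2⟩
      simp only [hlo, hhi]
      omega
    refine ⟨?_, ?_, ?_, ?_, ?_, ?_, ?_, ?_, ?_, ?_, ?_, ?_, ?_⟩
    · simp only [hlo, hhi]; omega
    · simp only [hlo, hhi]; omega
    · simp only [hlo]; omega
    · simp only [hlo]; omega
    · simp only [hhi]; omega
    · simp only [hhi]; omega
    · simp only [hlo, hhi]; omega
    · simp only [hlo, hhi]; omega
    · simp only [hlo, hhi]; omega
    · rcases le_total (4 * (y.1 / 4) - 4 * (j y : ℤ)) a.1 with hc | hc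
      · left; simp only [hlo]; exact max_eq_right hc
      · right; exact ⟨_, _, hG, by simp only [hlo]; exact (max_eq_left hc).symm⟩
    · rcases le_total (4 * (y.1 / 4) + 4 * (j y : ℤ) + 2) b.1 with hc | hc
      · right; exact ⟨_, _, hG, by simp only [hhi]; exact (min_eq_left hc).symm⟩
      · left; simp only [hhi]; exact min_eq_right hc
    · rcases le_total (4 * (y.2 / 4) - 4 * (j y : ℤ)) a.2 with hc | hc
      · left; simp only [hlo]; exact max_eq_right hc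
      · right; exact ⟨_, _, hG, by simp only [hlo]; exact (max_eq_left hc).symm⟩
    · rcases le_total (4 * (y.2 / 4) + 4 * (j y : ℤ) + 2) b.2 with hc | hc
      · right; exact ⟨_, _, hG, by simp only [hhi]; exact (min_eq_left hc).symm⟩
      · left; simp only [hhi]; exact min_eq_right hc
  have hunion : cl (rc a b) = (rc a b).biUnion fun y => cl (rc (lo y) (hi y)) := by
    ext x
    rw [mem_cl_rc _ _ _ hab1 hab2, Finset.mem_biUnion]
    constructor
    · intro h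
      have hy : ((max x.1 a.1, max x.2 a.2) : Pl) ∈ rc a b := by
        rw [mem_rc]; simp only; omega
      refine ⟨_, hy, ?_⟩
      have hI := hInv _ hy
      have hj1 := Finset.mem_Icc.1 (hj _ hy).1
      rw [mem_cl_rc _ _ _ hI.le1 hI.le2]
      simp only [hlo, hhi]
      omega
    · rintro ⟨y, hy, hx⟩
      have hI := hInv y hy
      have hS := hI.sub
      rw [mem_cl_rc _ _ _ hI.le1 hI.le2] at hx
      omega
  rw [hunion, Finset.inclusion_exclusion_sum_biUnion]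
  refine Finset.dvd_sum fun t _ => ?_
  rw [smul_eq_mul]
  refine Dvd.dvd.mul_left (hdiv _ ?_) _
  refine Finset.inf'_induction _ _ hint fun y hy => Or.inr ⟨lo y, hi y, hInv y ?_, rfl⟩
  exact (Finset.mem_powerset.1 (Finset.mem_filter.1 t.2).1) hy

end T2H01.SE
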