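import Pool.Agent.T2H01.SE.Stm2
import Pool.Agent.T2H01.SE.VG
import Pool.Agent.T2H01.SE.VJ
import Pool.Agent.T2H01.SE.VN
import Pool.Agent.T2H01.SE.VH

/-!
# Package VP : vortices in a box with cold walls
-/

set_option autoImplicit false
set_option linter.unusedSectionVars false

noncomputable section

open MeasureTheory Matrix
open scoped Matrix.Norms.Frobenius ENNReal

namespace T2H01.SE.PkgVP

open T2H02.TT

variable {N L : ℕ} [NeZero L]

lemma ind_nonneg (p : Prop) : 0 ≤ ind p := by unfold ind; split_ifs <;> norm_num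
lemma ind_le (p : Prop) : ind p ≤ 1 := by unfold ind; split_ifs <;> norm_num
lemma ind_abs (p : Prop) : |ind p| ≤ 1 := by
  rw [abs_of_nonneg (ind_nonneg p)]; exact ind_le p
lemma ind_true {p : Prop} (h : p) : ind p = 1 := by unfold ind; rw [if_pos h]
lemma ind_false {p : Prop} (h : ¬ p) : ind p = 0 := by unfold ind; rw [if_neg h]
lemma ind_meas {Y : Type} [MeasurableSpace Y] {p : Y → Prop} (h : MeasurableSet {x | p x}) :
    Measurable fun x => ind (p x) := by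
  unfold ind
  exact Measurable.ite h measurable_const measurable_const

/-! ### measurability -/

lemma fx_meas (x : Pl) : Measurable fun ω : Cj N L => fx ω x := by
  unfold fx
  have h1 : Measurable fun ω : Cj N L => (ω (Sum.inr x)).2 :=
    measurable_snd.comp (measurable_pi_apply (Sum.inr x))
  have h2 : Measurable fun m : Fin N => ((m : ℕ) : ℤ) := measurable_of_finite _
  exact h2.comp h1

lemma zz_meas (hN : 2 ≤ N) (G : Ph N L → Tor L → SU N) (hG : Measurable G) (x : Pl) (m : Fin 4) :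
    Measurable fun ω : Cj N L => (zz G (lk ω) x m : ℤ) := by
  have h1 : Measurable fun X : Cf N L => zz G X x m :=
    measurable_to_countable' fun n => PkgVG.zz_meas hN G hG x m n
  have h2 : Measurable fun n : ℕ => (n : ℤ) := measurable_from_top
  exact h2.comp (h1.comp lk_meas)

lemma fd_meas (hN : 2 ≤ N) (G : Ph N L → Tor L → SU N) (hG : Measurable G) (x : Pl) :
    Measurable fun ω : Cj N L => fd G ω x := by
  unfold fd crz
  exact (fx_meas x).sub ((((zz_meas hN G hG _ _).add (zz_meas hN G hG _ _)).sub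
    (zz_meas hN G hG _ _)).sub (zz_meas hN G hG _ _))

lemma dvd_meas (f : Pl → Cj N L → ℤ) (hf : ∀ x, Measurable (f x)) (A : Finset Pl) :
    MeasurableSet {ω : Cj N L | ¬ (N : ℤ) ∣ ∑ x ∈ A, f x ω} := by
  have h1 : Measurable fun ω : Cj N L => ∑ x ∈ A, f x ω := Finset.measurable_sum _ fun x _ => hf x
  exact h1 (show MeasurableSet {n : ℤ | ¬ (N : ℤ) ∣ n} from MeasurableSet.of_discrete)

lemma rE_meas (hN : 2 ≤ N) (k : ℕ) (U : Finset Pl) : Measurable fun ω : Cj N L => rE k (lk ω) U := by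
  unfold rE
  exact Finset.measurable_sum _ fun τ _ => (en_cont k τ (by omega)).measurable.comp lk_meas

/-! ### sums of functions -/

lemma ker_sum {ι Tm X A : Type} [DecidableEq ι] [DecidableEq Tm] [MeasurableSpace X]
    (h5 : S_F5) (S : Sys ι Tm X) (μ : Measure X) [IsProbabilityMeasure μ] (Λ : Finset Pl)
    (f : A → (ι → X) → ℝ) (hf : ∀ i, Measurable (f i)) (hb : ∀ i ω, |f i ω| ≤ 1) (B : ℝ)
    (η : ι → X) (s : Finset A) (hB : ∀ i ∈ s, S.ker μ Λ (f i) η ≤ B) :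
    S.ker μ Λ (fun ω => ∑ i ∈ s, f i ω) η ≤ s.card * B := by
  classical
  obtain ⟨-, hc, hlin, -⟩ := h5 ι Tm X S μ Λ
  induction s using Finset.induction_on with
  | empty =>
    simp only [Finset.sum_empty, Finset.card_empty, Nat.cast_zero, zero_mul]
    rw [hc 0 η]
  | insert i s hi ih =>
    have h1 : (fun ω => ∑ i' ∈ insert i s, f i' ω) = fun ω => f i ω + ∑ i' ∈ s, f i' ω := by
      funext ω
      rw [Finset.sum_insert hi]
    have h2 := (hlin (f i) (fun ω => ∑ i' ∈ s, f i' ω) (hf i) ⟨1, hb i⟩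
      (Finset.measurable_sum _ fun i' _ => hf i') ⟨s.card, fun ω => ?_⟩ η).2.1
    · rw [h1, h2, Finset.card_insert_of_notMem hi]
      push_cast
      have h3 := ih fun i' hi' => hB i' (Finset.mem_insert_of_mem hi')
      have h4 := hB i (Finset.mem_insert_self i s)
      linarith
    · refine (Finset.abs_sum_le_sum_abs _ _).trans ?_
      have := Finset.sum_le_card_nsmul s (fun i' => |f i' ω|) 1 fun i' _ => hb i' ω
      simpa using this

/-! ### the flux through the box -/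

lemma cl_rc (a b : Pl) (h1 : a.1 ≤ b.1) (h2 : a.2 ≤ b.2) :
    cl (rc a b) = Finset.Icc (a.1 - 1) b.1 ×ˢ Finset.Icc (a.2 - 1) b.2 := by
  ext x
  rw [PkgVN.mem_cl_rc a b x h1 h2, Finset.mem_product, Finset.mem_Icc, Finset.mem_Icc]

lemma tele (f : ℤ → ℤ) (p : ℤ) (n : ℕ) :
    ∑ u ∈ Finset.Icc p (p + n), (f (u + 1) - f u) = f (p + n + 1) - f p := by
  induction n with
  | zero => simp
  | succ n ih =>
    have h1 : Finset.Icc p (p + ((n + 1 : ℕ) : ℤ)) = insert (p + n + 1) (Finset.Icc p (p + n)) := by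
      ext x
      rw [Finset.mem_insert, Finset.mem_Icc, Finset.mem_Icc]
      push_cast
      omega
    rw [h1, Finset.sum_insert (by rw [Finset.mem_Icc]; omega), ih]
    push_cast
    ring_nf

lemma tele' (f : ℤ → ℤ) (p q : ℤ) (h : p ≤ q) :
    ∑ u ∈ Finset.Icc p q, (f (u + 1) - f u) = f (q + 1) - f p := by
  obtain ⟨n, rfl⟩ := Int.le.dest h
  exact tele f p n

lemma crz_sum (z : Pl → Fin 4 → ℕ) (a b : Pl) (h1 : a.1 ≤ b.1) (h2 : a.2 ≤ b.2) (c : ℕ)
    (hz1 : ∀ v, z (a.1 - 1, v) 1 = c) (hz2 : ∀ v, z (b.1 + 1, v) 1 = c)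
    (hz3 : ∀ u, z (u, a.2 - 1) 0 = c) (hz4 : ∀ u, z (u, b.2 + 1) 0 = c) :
    ∑ x ∈ cl (rc a b), crz z x = 0 := by
  rw [cl_rc a b h1 h2, Finset.sum_product]
  have e1 : ∀ u v : ℤ, crz z (u, v) = ((z (u, v + 1) 0 : ℤ) - z (u, v) 0) -
      ((z (u + 1, v) 1 : ℤ) - z (u, v) 1) := by
    intro u v
    unfold crz
    simp only [Prod.mk_add_mk, add_zero]
    ring
  simp only [e1, Finset.sum_sub_distrib (fun v => (z (_, v + 1) 0 : ℤ) - z (_, v) 0)]
  rw [Finset.sum_sub_distrib]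
  have k1 : ∀ u : ℤ, ∑ v ∈ Finset.Icc (a.2 - 1) b.2, ((z (u, v + 1) 0 : ℤ) - z (u, v) 0) = 0 := by
    intro u
    rw [tele' (fun v => (z (u, v) 0 : ℤ)) _ _ (by omega), hz3, hz4, sub_self]
  have k2 : ∑ u ∈ Finset.Icc (a.1 - 1) b.1, ∑ v ∈ Finset.Icc (a.2 - 1) b.2,
      ((z (u + 1, v) 1 : ℤ) - z (u, v) 1) = 0 := by
    rw [Finset.sum_comm]
    refine Finset.sum_eq_zero fun v _ => ?_
    rw [tele' (fun u => (z (u, v) 1 : ℤ)) _ _ (by omega), hz1, hz2, sub_self]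
  rw [k2, Finset.sum_eq_zero fun u _ => k1 u, sub_self]

lemma nri_pos (hN : 2 ≤ N) (t : ℝ) (ht : 0 ≤ t) : nri N (t : ℂ) = 0 := by
  rw [PkgVG.nri_eq hN]
  refine ⟨⟨by omega, fun m' _ => ?_⟩, fun m hm => absurd hm (Nat.not_lt_zero m)⟩
  have h0 : om N 0 = 1 := by simp [om]
  have h1 : ‖om N m'‖ = 1 := by
    rw [om, show 2 * (Real.pi : ℂ) * Complex.I * m' / N = ((2 * Real.pi * m' / N : ℝ) : ℂ) * Complex.I by
      push_cast; ring, Complex.norm_exp_ofReal_mul_I]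
  rw [h0, star_one, one_mul, Complex.re_mul_ofReal, Complex.ofReal_re]
  have h2 : (star (om N m')).re ≤ 1 := by
    refine (Complex.re_le_norm _).trans ?_
    rw [norm_star, h1]
  nlinarith

lemma zz_vac (hN : 2 ≤ N) (P Q : SU N) (G : Ph N L → Tor L → SU N) (Λ : Finset Pl) (X : Cf N L)
    (hX : ∀ l, l ∉ Frl L Λ → X l = vc P Q l) (x : Pl) (m : Fin 4) (hm : m = 0 ∨ m = 1)
    (h1 : x ∉ Λ) (h2 : x + pe m ∉ Λ) : zz G X x m = N := by
  have hpt : ∀ z : Pl, z ∉ Λ → pt X z = vac P Q := by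
    intro z hz
    funext y j
    unfold pt
    have hl : ((z, y), if j = 0 then (2 : Fin 4) else 3) ∉ Frl L Λ := by
      rw [mem_Frl]
      rintro ⟨c, hc, hc'⟩
      rw [mem_st] at hc
      have : c = z := by
        rcases hc with hc | hc
        · exact hc
        · rw [hc]
          split_ifs <;> simp [pe, h00]
      exact hz (this ▸ hc')
    rw [hX _ hl]
    fin_cases j
    · simp [vc]
    · simp [vc]
  have hlk : ∀ y, X ((x, y), m) = 1 := by
    intro y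
    have hl : (((x, y), m) : Lk L) ∉ Frl L Λ := by
      rw [mem_Frl]
      rintro ⟨c, hc, hc'⟩
      rw [mem_st] at hc
      rcases hc with hc | hc
      · rw [hc] at hc'; exact h1 hc'
      · rw [hc] at hc'; exact h2 hc'
    rw [hX _ hl]
    rcases hm with rfl | rfl <;> simp [vc]
  unfold zz
  rw [hpt x h1, hpt _ h2]
  have hs : ∑ y : Tor L, ((G (vac P Q) y * X ((x, y), m) * (G (vac P Q) y)⁻¹ : SU N) : Mt N).trace =
      ((((Fintype.card (Tor L) : ℕ) : ℝ) * N : ℝ) : ℂ) := by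
    simp only [hlk, mul_one, mul_inv_cancel]
    simp [Matrix.trace_one]
  rw [hs, nri_pos hN _ (by positivity), Nat.sub_zero]

lemma flux_box (hN : 2 ≤ N) (P Q : SU N) (G : Ph N L → Tor L → SU N) (a b : Pl) (h1 : a.1 ≤ b.1)
    (h2 : a.2 ≤ b.2) (ω : Cj N L) (hX : ∀ l, l ∉ Frl L (rc a b) → lk ω l = vc P Q l) :
    ∑ x ∈ cl (rc a b), fd G ω x = ∑ x ∈ cl (rc a b), fx ω x := by
  unfold fd
  rw [Finset.sum_sub_distrib]
  have : ∑ x ∈ cl (rc a b), crz (zz G (lk ω)) x = 0 := by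
    refine crz_sum _ a b h1 h2 N ?_ ?_ ?_ ?_
    · intro v
      refine zz_vac hN P Q G (rc a b) _ hX _ 1 (Or.inr rfl) ?_ ?_ <;>
        rw [PkgVN.mem_rc] <;> simp [pe]
    · intro v
      refine zz_vac hN P Q G (rc a b) _ hX _ 1 (Or.inr rfl) ?_ ?_ <;>
        rw [PkgVN.mem_rc] <;> simp [pe]
    · intro u
      refine zz_vac hN P Q G (rc a b) _ hX _ 0 (Or.inl rfl) ?_ ?_ <;>
        rw [PkgVN.mem_rc] <;> simp [pe]
    · intro u
      refine zz_vac hN P Q G (rc a b) _ hX _ 0 (Or.inl rfl) ?_ ?_ <;>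
        rw [PkgVN.mem_rc] <;> simp [pe]
  rw [this, sub_zero]

/-! ### the energy of a ring does not depend on the variables inside -/

lemma rE_dep (k : ℕ) (U : Finset Pl) (ω ω' : Cj N L)
    (h : ∀ i, i ∉ FrJ L U → ω i = ω' i) : rE k (lk ω) U = rE k (lk ω') U := by
  unfold rE
  refine Finset.sum_congr rfl fun τ hτ => en_loc k τ _ _ fun l hl => ?_
  rw [PkgVN.mem_rng] at hτ
  unfold lk
  rw [h (Sum.inl l)]
  rw [mem_FrJ]
  rintro ⟨c, hc, hc'⟩
  exact (hτ c ((cor_iff (L := L) τ c).2 ⟨l, hl, hc⟩)).2 hc'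

lemma card_pls (a b : Pl) (m : ℕ) (h1 : a.1 ≤ b.1) (h2 : a.2 ≤ b.2) (h3 : b.1 - a.1 ≤ 8 * m + 2)
    (h4 : b.2 - a.2 ≤ 8 * m + 2) : ((pls (rc a b)).card : ℝ) ≤ ((8 * m + 5) ^ 2 : ℕ) := by
  have hsub : pls (rc a b) ⊆ Finset.Icc (a.1 - 1) (b.1 + 1) ×ˢ Finset.Icc (a.2 - 1) (b.2 + 1) := by
    intro x hx
    rw [PkgVN.mem_pls_rc a b x h1 h2] at hx
    rw [Finset.mem_product, Finset.mem_Icc, Finset.mem_Icc]
    exact hx
  have := Finset.card_le_card hsub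
  rw [Finset.card_product, Int.card_Icc, Int.card_Icc] at this
  have h5 : (pls (rc a b)).card ≤ (8 * m + 5) ^ 2 := by
    refine this.trans ?_
    rw [sq]
    apply Nat.mul_le_mul <;> omega
  exact_mod_cast h5

theorem main (h3 : S_F3) (h5 : S_F5) (hEG : S_EG) (hJ : S_VJ) (hF : S_VF) (hH : S_VH) (hV : S_VN) :
    S_VP := by
  intro N k L _ hN hk P Q hPQ ρ hρ
  have hN0 : 0 < N := by omega
  have : NeZero N := ⟨hN0.ne'⟩
  have : IsProbabilityMeasure (mj N) := PkgVJ.mj_prob hN0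
  obtain ⟨s, hs⟩ : ∃ s, s = SS L k P Q := ⟨_, rfl⟩
  obtain ⟨⟨e, he, hFK⟩, -⟩ := hF N k L hN hk P Q hPQ (ρ / 2) (by linarith)
  obtain ⟨m, β₂, hm1, hβ₂, hH'⟩ := hH N k L hN hk P Q hPQ (e / 4) (by linarith)
  obtain ⟨β₁, hβ₁, hF'⟩ := hFK (8 * m + 2)
  obtain ⟨G, hG⟩ := hEG N L hN P Q (e / ((8 * m + 5) ^ 2 : ℕ)) (by positivity)
  -- the counting factor
  obtain ⟨β₃, hβ₃⟩ : ∃ β₃ : ℝ, ∀ β : ℝ, β₃ ≤ β →
      (1 + (8 * m + 3) ^ 2 : ℝ) * Real.exp (-β * (ρ / 2)) ≤ 1 := by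
    refine ⟨(1 + (8 * m + 3) ^ 2 : ℝ) / (ρ / 2), fun β hβ => ?_⟩
    have h1 : (1 + (8 * m + 3) ^ 2 : ℝ) ≤ β * (ρ / 2) := by
      rwa [div_le_iff₀ (by linarith)] at hβ
    have h2 : β * (ρ / 2) ≤ Real.exp (β * (ρ / 2)) := by
      have := Real.add_one_le_exp (β * (ρ / 2))
      linarith
    have h3 : Real.exp (-β * (ρ / 2)) = (Real.exp (β * (ρ / 2)))⁻¹ := by
      rw [← Real.exp_neg]; congr 1; ring
    rw [h3, ← div_eq_mul_inv, div_le_one (Real.exp_pos _)]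
    linarith
  refine ⟨max (max β₁ β₂) β₃, le_trans hβ₁ ((le_max_left _ _).trans (le_max_left _ _)), ?_⟩
  intro β hβ i j
  have hb1 : β₁ ≤ β := ((le_max_left _ _).trans (le_max_left _ _)).trans hβ
  have hb2 : β₂ ≤ β := ((le_max_right _ _).trans (le_max_left _ _)).trans hβ
  have hb3 : β₃ ≤ β := (le_max_right _ _).trans hβ
  have hβ1 : 1 ≤ β := hβ₁.trans hb1
  have hβ0 : 0 ≤ β := by linarith
  obtain ⟨b, hb⟩ : ∃ b : Pl, b = (4 * (i : ℤ) + 2, 4 * (j : ℤ) + 2) := ⟨_, rfl⟩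
  rw [← hb]
  have hbi : b.1 = 4 * (i : ℤ) + 2 := by rw [hb]
  have hbj : b.2 = 4 * (j : ℤ) + 2 := by rw [hb]
  have ha1 : (0 : Pl).1 ≤ b.1 := by rw [hbi, Prod.fst_zero]; omega
  have ha2 : (0 : Pl).2 ≤ b.2 := by rw [hbj, Prod.snd_zero]; omega
  obtain ⟨Λ, hΛ⟩ : ∃ Λ : Finset Pl, Λ = rc 0 b := ⟨_, rfl⟩
  have hcard : (Λ.card : ℝ) = (4 * i + 3) * (4 * j + 3) := by
    rw [hΛ, rc, Finset.card_product, Int.card_Icc, Int.card_Icc, hbi, hbj, Prod.fst_zero, Prod.snd_zero]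
    have e1 : (4 * (i : ℤ) + 2 + 1 - 0).toNat = 4 * i + 3 := by omega
    have e2 : (4 * (j : ℤ) + 2 + 1 - 0).toNat = 4 * j + 3 := by omega
    rw [e1, e2]
    push_cast
    ring
  obtain ⟨ω₀, hω₀⟩ : ∃ ω₀ : Cj N L, ω₀ = jn (vc P Q) fun _ => 0 := ⟨_, rfl⟩
  have hlk0 : lk ω₀ = (vc P Q : Cf N L) := by
    funext l
    rw [hω₀]
    rfl
  obtain ⟨S, hS⟩ : ∃ S, S = sysJ N L k β hβ0 := ⟨_, rfl⟩
  -- the main bound
  have key : S.ker (mj N) Λ (fun ω' => ind (¬ (N : ℤ) ∣ ∑ x ∈ cl Λ, fx ω' x)) ω₀ ≤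
      (4 * i + 3) * (4 * j + 3) * Real.exp (-β * (s - ρ)) := by
    obtain ⟨B, hB⟩ : ∃ B, B = Real.exp (-β * (s - ρ / 2)) := ⟨_, rfl⟩
    have hB0 : 0 < B := by rw [hB]; exact Real.exp_pos _
    -- the events
    obtain ⟨f₁, hf₁⟩ : ∃ f₁ : Pl → Cj N L → ℝ, f₁ = fun y ω =>
      ind (∀ j ∈ Finset.Icc 1 m, e / 4 < rE k (lk ω) (Qs (y.1 / 4, y.2 / 4) j)) := ⟨_, rfl⟩
    obtain ⟨g, hg⟩ : ∃ g : Pl × Pl → Cj N L → ℝ, g = fun p ω =>
      ind (¬ (N : ℤ) ∣ ∑ x ∈ cl (rc p.1 p.2), fd G ω x) := ⟨_, rfl⟩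
    obtain ⟨h, hh⟩ : ∃ h : Pl × Pl → Cj N L → ℝ, h = fun p ω =>
      ind (rE k (lk ω) (rc p.1 p.2) ≤ e) := ⟨_, rfl⟩
    obtain ⟨T, hT⟩ : ∃ T : Finset (Pl × Pl), T = (Λ ×ˢ Λ).filter fun p =>
      p.1.1 ≤ p.2.1 ∧ p.1.2 ≤ p.2.2 ∧ p.2.1 - p.1.1 ≤ 8 * (m : ℤ) + 2 ∧
        p.2.2 - p.1.2 ≤ 8 * (m : ℤ) + 2 := ⟨_, rfl⟩
    have mf₁ : ∀ y, Measurable (f₁ y) := by
      intro y
      rw [hf₁]
      refine ind_meas ?_
      have h1 : {ω : Cj N L | ∀ j ∈ Finset.Icc 1 m, e / 4 < rE k (lk ω) (Qs (y.1 / 4, y.2 / 4) j)} =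
          ⋂ j ∈ Finset.Icc 1 m, {ω : Cj N L | e / 4 < rE k (lk ω) (Qs (y.1 / 4, y.2 / 4) j)} := by
        ext X
        simp
      rw [h1]
      exact Finset.measurableSet_biInter _ fun j _ => measurableSet_lt measurable_const (rE_meas hN _ _)
    have mg : ∀ p, Measurable (g p) := by
      intro p
      rw [hg]
      exact ind_meas (dvd_meas (fun x ω => fd G ω x) (fun x => fd_meas hN G hG.1 x) _)
    have mh : ∀ p, Measurable (h p) := by
      intro p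
      rw [hh]
      exact ind_meas (measurableSet_le (rE_meas hN _ _) measurable_const)
    have bf₁ : ∀ y ω, |f₁ y ω| ≤ 1 := fun y ω => by rw [hf₁]; exact ind_abs _
    have bg : ∀ p ω, |g p ω| ≤ 1 := fun y ω => by rw [hg]; exact ind_abs _
    have bh : ∀ p ω, |h p ω| ≤ 1 := fun y ω => by rw [hh]; exact ind_abs _
    -- their probabilities
    have k1 : ∀ y ∈ Λ, S.ker (mj N) Λ (f₁ y) ω₀ ≤ B := by
      intro y _
      rw [hf₁, hS]
      refine ((hJ N k L hN β hβ0).1 Λ (fun X => ind (∀ j ∈ Finset.Icc 1 m, e / 4 <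
        rE k X (Qs (y.1 / 4, y.2 / 4) j))) ?_ ⟨1, fun X => ind_abs _⟩ ω₀).le.trans ?_
      · refine ind_meas ?_
        have h1 : {X : Cf N L | ∀ j ∈ Finset.Icc 1 m, e / 4 < rE k X (Qs (y.1 / 4, y.2 / 4) j)} =
            ⋂ j ∈ Finset.Icc 1 m, {X : Cf N L | e / 4 < rE k X (Qs (y.1 / 4, y.2 / 4) j)} := by
          ext X
          simp
        rw [h1]
        refine Finset.measurableSet_biInter _ fun j _ => measurableSet_lt measurable_const ?_
        unfold rE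
        exact Finset.measurable_sum _ fun τ _ => (en_cont k τ (by omega)).measurable
      · rw [hlk0]
        refine (hH' β hβ0 hb2 Λ (y.1 / 4, y.2 / 4)).trans ?_
        rw [hB, ← hs]
        apply Real.exp_le_exp.2
        nlinarith
    have k2 : ∀ p ∈ T, S.ker (mj N) Λ (fun ω => h p ω * g p ω) ω₀ ≤ B := by
      intro p hp
      rw [hT, Finset.mem_filter, Finset.mem_product] at hp
      obtain ⟨⟨hp1, hp2⟩, hp3, hp4, hp5, hp6⟩ := hp
      have hsub : rc p.1 p.2 ⊆ Λ := by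
        intro x hx
        rw [PkgVN.mem_rc] at hx
        rw [hΛ, PkgVN.mem_rc] at hp1 hp2 ⊢
        omega
      rw [h3 (Ix L) Tm (Vr N) S (mj N) (rc p.1 p.2) Λ hsub (g p) (mg p) ⟨1, bg p⟩ (h p) (mh p)
        ⟨1, bh p⟩ ?_ ω₀]
      · obtain ⟨-, hc, hlin, hm5, hbd, -⟩ := h5 (Ix L) Tm (Vr N) S (mj N) Λ
        obtain ⟨-, -, -, hm5', hbd', -⟩ := h5 (Ix L) Tm (Vr N) S (mj N) (rc p.1 p.2)
        have hmono := (hlin (fun ω => h p ω * S.ker (mj N) (rc p.1 p.2) (g p) ω) (fun _ => B)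
          ((mh p).mul (hm5' (g p) (mg p) ⟨1, bg p⟩)) ⟨1, fun ω => ?_⟩ measurable_const
          ⟨|B|, fun _ => le_rfl⟩ ω₀).1
        · refine (hmono fun ξ => ?_).trans (hc B ω₀).le
          obtain ⟨ω, hω⟩ : ∃ ω, ω = glue (S.Fr Λ) ξ ω₀ := ⟨_, rfl⟩
          rw [← hω]
          rw [hh]
          simp only
          by_cases hr : rE k (lk ω) (rc p.1 p.2) ≤ e
          · rw [ind_true hr, one_mul, hg, hS, hB, hs]
            refine hF' β hβ0 hb1 _ (by positivity) G hG p.1 p.2 hp3 hp4 ?_ ?_ ?_ ω hr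
            · push_cast; exact hp5
            · push_cast; exact hp6
            · have h7 := card_pls p.1 p.2 m hp3 hp4 hp5 hp6
              have h8 : (0 : ℝ) < ((8 * m + 5) ^ 2 : ℕ) := by positivity
              calc ((pls (rc p.1 p.2)).card : ℝ) * (e / ((8 * m + 5) ^ 2 : ℕ)) ≤
                    ((8 * m + 5) ^ 2 : ℕ) * (e / ((8 * m + 5) ^ 2 : ℕ)) := by gcongr
                _ = e := by field_simp
          · rw [ind_false hr, zero_mul]
            exact hB0.le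
        · rw [abs_mul]
          exact mul_le_one₀ (bh p ω) (abs_nonneg _) (hbd' 1 (g p) (mg p) (bg p) ω)
      · intro ω ω' hω
        rw [hh]
        simp only
        rw [rE_dep k (rc p.1 p.2) ω ω' fun i hi => hω i (by rw [hS]; exact hi)]
    -- the pointwise bound
    have k3 : ∀ ξ, ind (¬ (N : ℤ) ∣ ∑ x ∈ cl Λ, fx (glue (S.Fr Λ) ξ ω₀) x) ≤
        ∑ y ∈ Λ, f₁ y (glue (S.Fr Λ) ξ ω₀) +
          ∑ p ∈ T, h p (glue (S.Fr Λ) ξ ω₀) * g p (glue (S.Fr Λ) ξ ω₀) := by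
      intro ξ
      obtain ⟨ω, hω⟩ : ∃ ω, ω = glue (S.Fr Λ) ξ ω₀ := ⟨_, rfl⟩
      rw [← hω]
      have hX : ∀ l, l ∉ Frl L Λ → lk ω l = vc P Q l := by
        intro l hl
        have h1 : lk ω l = lk ω₀ l := by
          rw [hω, hS]
          unfold lk glue
          rw [if_neg]
          show Sum.inl l ∉ FrJ L Λ
          rw [mem_FrJ]
          intro h2
          exact hl ((mem_Frl _ _).2 h2)
        rw [h1, hlk0]
      have nf₁ : ∀ y, 0 ≤ f₁ y ω := fun y => by rw [hf₁]; exact ind_nonneg _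
      have ng : ∀ y, 0 ≤ g y ω := fun y => by rw [hg]; exact ind_nonneg _
      have nh : ∀ y, 0 ≤ h y ω := fun y => by rw [hh]; exact ind_nonneg _
      have n1 : 0 ≤ ∑ y ∈ Λ, f₁ y ω := Finset.sum_nonneg fun y _ => nf₁ y
      have n2 : 0 ≤ ∑ p ∈ T, h p ω * g p ω := Finset.sum_nonneg fun p _ => mul_nonneg (nh p) (ng p)
      by_cases c1 : (N : ℤ) ∣ ∑ x ∈ cl Λ, fx ω x
      · rw [ind_false (not_not_intro c1)]
        linarith
      by_cases c2 : ∃ y ∈ Λ, ∀ j ∈ Finset.Icc 1 m, e / 4 < rE k (lk ω) (Qs (y.1 / 4, y.2 / 4) j)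
      · obtain ⟨y, hy, c3⟩ := c2
        have h1 : f₁ y ω = 1 := by rw [hf₁]; exact ind_true c3
        have h2 := Finset.single_le_sum (f := fun y => f₁ y ω) (fun y _ => nf₁ y) hy
        rw [h1] at h2
        have := ind_le (¬ (N : ℤ) ∣ ∑ x ∈ cl Λ, fx ω x)
        linarith
      by_cases c3 : ∃ p ∈ T, rE k (lk ω) (rc p.1 p.2) ≤ e ∧ ¬ (N : ℤ) ∣ ∑ x ∈ cl (rc p.1 p.2), fd G ω x
      · obtain ⟨p, hp, c4, c5⟩ := c3
        have h1 : h p ω * g p ω = 1 := by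
          rw [hh, hg]
          simp only
          rw [ind_true c4, ind_true c5, one_mul]
        have h2 := Finset.single_le_sum (f := fun p => h p ω * g p ω)
          (fun p _ => mul_nonneg (nh p) (ng p)) hp
        rw [h1] at h2
        have := ind_le (¬ (N : ℤ) ∣ ∑ x ∈ cl Λ, fx ω x)
        linarith
      exfalso
      apply c1
      rw [hΛ, ← flux_box hN P Q G 0 b ha1 ha2 ω (by rw [← hΛ]; exact hX)]
      refine hV N k L hN hk P Q hPQ m (e / 4) (by linarith) 0 b ha1 ha2 (dvd_zero _) (dvd_zero _) ?_ ?_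
        (lk ω) (fun x => fd G ω x) (by rw [← hΛ]; exact hX) ?_ ?_
      · rw [hbi]; exact ⟨i, by ring⟩
      · rw [hbj]; exact ⟨j, by ring⟩
      · intro y hy
        by_contra hcon
        push Not at hcon
        exact c2 ⟨y, by rw [hΛ]; exact hy, hcon⟩
      · intro a' b' q1 q2 q3 q4 q5 q6 q7
        by_contra hcon
        refine c3 ⟨(a', b'), ?_, ?_, hcon⟩
        · rw [hT, Finset.mem_filter, Finset.mem_product]
          rw [← hΛ] at q3 q4
          exact ⟨⟨q3, q4⟩, q1, q2, q5, q6⟩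
        · linarith
    -- counting
    have hTc : (T.card : ℝ) ≤ Λ.card * (8 * m + 3) ^ 2 := by
      have h1 : T.card ≤ (Λ ×ˢ (Finset.Icc (0 : ℤ) (8 * m + 2) ×ˢ Finset.Icc (0 : ℤ) (8 * m + 2))).card := by
        refine Finset.card_le_card_of_injOn (fun p => (p.1, (p.2.1 - p.1.1, p.2.2 - p.1.2))) ?_ ?_
        · intro p hp
          rw [hT] at hp
          simp only [Finset.coe_filter, Set.mem_ofPred_eq, Finset.mem_product] at hp
          simp only [Finset.coe_product, Set.mem_prod, Finset.mem_coe, Finset.mem_Icc]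
          refine ⟨hp.1.1, ?_, ?_⟩ <;> omega
        · rintro ⟨⟨u1, u2⟩, v1, v2⟩ _ ⟨⟨w1, w2⟩, x1, x2⟩ _ heq
          simp only [Prod.mk.injEq] at heq ⊢
          omega
      rw [Finset.card_product, Finset.card_product, Int.card_Icc] at h1
      have h2 : (8 * (m : ℤ) + 2 + 1 - 0).toNat = 8 * m + 3 := by omega
      rw [h2] at h1
      have h3 : (T.card : ℝ) ≤ ((Λ.card * ((8 * m + 3) * (8 * m + 3)) : ℕ) : ℝ) := by exact_mod_cast h1
      refine h3.trans (le_of_eq ?_)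
      push_cast
      ring
    -- conclusion
    have s1 := ker_sum h5 S (mj N) Λ f₁ mf₁ bf₁ B ω₀ Λ k1
    have s2 := ker_sum h5 S (mj N) Λ (fun p ω => h p ω * g p ω) (fun p => (mh p).mul (mg p))
      (fun p ω => by rw [abs_mul]; exact mul_le_one₀ (bh p ω) (abs_nonneg _) (bg p ω)) B ω₀ T k2
    obtain ⟨-, -, hlin, -⟩ := h5 (Ix L) Tm (Vr N) S (mj N) Λ
    have M1 : Measurable fun ω => ∑ y ∈ Λ, f₁ y ω := Finset.measurable_sum _ fun y _ => mf₁ y
    have M2 : Measurable fun ω => ∑ p ∈ T, h p ω * g p ω :=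
      Finset.measurable_sum _ fun p _ => (mh p).mul (mg p)
    have b1 : ∀ ω, |∑ y ∈ Λ, f₁ y ω| ≤ Λ.card := by
      intro ω
      refine (Finset.abs_sum_le_sum_abs _ _).trans ?_
      have := Finset.sum_le_card_nsmul Λ (fun i' => |f₁ i' ω|) 1 fun i' _ => bf₁ i' ω
      simpa using this
    have b2 : ∀ ω, |∑ p ∈ T, h p ω * g p ω| ≤ T.card := by
      intro ω
      refine (Finset.abs_sum_le_sum_abs _ _).trans ?_
      have := Finset.sum_le_card_nsmul T (fun i' => |h i' ω * g i' ω|) 1 fun i' _ => by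
        rw [abs_mul]; exact mul_le_one₀ (bh i' ω) (abs_nonneg _) (bg i' ω)
      simpa using this
    have s3 := (hlin (fun ω => ∑ y ∈ Λ, f₁ y ω) (fun ω => ∑ p ∈ T, h p ω * g p ω) M1 ⟨_, b1⟩ M2
      ⟨_, b2⟩ ω₀).2.1
    have s4 := (hlin (fun ω' => ind (¬ (N : ℤ) ∣ ∑ x ∈ cl Λ, fx ω' x))
      (fun ω => ∑ y ∈ Λ, f₁ y ω + ∑ p ∈ T, h p ω * g p ω)
      (ind_meas (dvd_meas (fun x ω => fx ω x) (fun x => fx_meas x) _)) ⟨1, fun _ => ind_abs _⟩
      (M1.add M2) ⟨Λ.card + T.card, fun ω => (abs_add_le _ _).trans (add_le_add (b1 ω) (b2 ω))⟩ ω₀).1 k3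
    rw [s3] at s4
    have hBs : (1 + (8 * m + 3) ^ 2 : ℝ) * B ≤ Real.exp (-β * (s - ρ)) := by
      have h1 := hβ₃ β hb3
      have h2 : B = Real.exp (-β * (s - ρ)) * Real.exp (-β * (ρ / 2)) := by
        rw [hB, ← Real.exp_add]; congr 1; ring
      rw [h2, mul_left_comm]
      exact mul_le_of_le_one_right (Real.exp_pos _).le h1
    rw [← hcard]
    calc S.ker (mj N) Λ (fun ω' => ind (¬ (N : ℤ) ∣ ∑ x ∈ cl Λ, fx ω' x)) ω₀
        ≤ Λ.card * B + T.card * B := s4.trans (add_le_add s1 s2)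
      _ ≤ Λ.card * B + (Λ.card * (8 * m + 3) ^ 2) * B := by gcongr
      _ = Λ.card * ((1 + (8 * m + 3) ^ 2 : ℝ) * B) := by ring
      _ ≤ Λ.card * Real.exp (-β * (s - ρ)) := by gcongr
  have h0 := (hJ N k L hN β hβ0).2 0 b ha1 ha2 (fun n => ind (¬ (N : ℤ) ∣ n)) (fun n => by
    have : ((N : ℤ) ∣ n + N) ↔ (N : ℤ) ∣ n := by
      constructor
      · intro h; exact (Int.dvd_add_left (dvd_refl _)).1 h
      · intro h; exact dvd_add h (dvd_refl _)
    simp only [this]) ω₀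
  rw [← hΛ, ← hS, hlk0] at h0
  rw [h0] at key
  have hnum : ∑ n ∈ Finset.range N, ind (¬ (N : ℤ) ∣ (n : ℤ)) * Zf k β (dl 0 (n : ℤ)) Λ (vc P Q : Cf N L) =
      ∑ n ∈ Finset.Ico 1 N, Zf k β (dl 0 (n : ℤ)) Λ (vc P Q : Cf N L) := by
    rw [Finset.range_eq_Ico, ← Finset.sum_Ico_consecutive _ (Nat.zero_le 1) (by omega : 1 ≤ N)]
    rw [Nat.Ico_succ_singleton, Finset.sum_singleton]
    rw [ind_false (not_not_intro (by simp)), zero_mul, zero_add]
    refine Finset.sum_congr rfl fun n hn => ?_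
    rw [Finset.mem_Ico] at hn
    rw [ind_true, one_mul]
    intro hd
    have := Nat.le_of_dvd (by omega) (Int.natCast_dvd_natCast.1 hd)
    omega
  rw [hnum] at key
  have hZ : 0 ≤ ∑ n ∈ Finset.range N, Zf k β (dl 0 (n : ℤ)) Λ (vc P Q : Cf N L) := by
    refine Finset.sum_nonneg fun n _ => ?_
    unfold Zf
    exact integral_nonneg fun ξ => (Real.exp_pos _).le
  rw [← hΛ, ← hs]
  rcases hZ.lt_or_eq with hZ | hZ
  · rwa [div_le_iff₀ hZ] at key
  · rw [← hZ, mul_zero]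
    rw [hZ]
    refine Finset.sum_le_sum_of_subset_of_nonneg ?_ fun n _ _ => ?_
    · intro n hn
      rw [Finset.mem_Ico] at hn
      exact Finset.mem_range.2 hn.2
    · unfold Zf
      exact integral_nonneg fun ξ => (Real.exp_pos _).le

end T2H01.SE.PkgVP

namespace T2H01.SE

open T2H02.TT

theorem pVP (h3 : S_F3) (h5 : S_F5) (hEG : S_EG) (hJ : S_VJ) (hF : S_VF) (hH : S_VH) (hV : S_VN) :
    S_VP := PkgVP.main h3 h5 hEG hJ hF hH hV

end T2H01.SE
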