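import Pool.Agent.T2H01.SE.Stm1

/-!
# Package VS : the partition function depends on the total flux only
-/

set_option autoImplicit false
set_option linter.unusedSectionVars false
set_option linter.unusedVariables false

noncomputable section

open MeasureTheory Matrix
open scoped Matrix.Norms.Frobenius

namespace T2H01.SE

open T2H02.TT

namespace PkgVS

/-- residue -/
def rs (N : ℕ) (t : ℤ) : ℕ := (t % N).toNat

lemma dvd_rs {N : ℕ} (hN : 2 ≤ N) (t : ℤ) : (N : ℤ) ∣ (rs N t : ℤ) - t := by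
  have h1 : (0 : ℤ) ≤ t % N := Int.emod_nonneg t (by omega)
  rw [rs, Int.toNat_of_nonneg h1]
  exact ⟨-(t / N), by have := Int.emod_add_mul_ediv t N; linarith⟩

/-- sum of the upper part of a column -/
def up (b : Pl) (δ : Pl → ℤ) (i j : ℤ) : ℤ := ∑ j' ∈ Finset.Icc j b.2, δ (i, j')

/-- sum of the columns on the left -/
def lf (a b : Pl) (δ : Pl → ℤ) (i : ℤ) : ℤ :=
  ∑ i' ∈ Finset.Icc (a.1 - 1) (i - 1), up b δ i' (a.2 - 1)

lemma up_succ {b : Pl} {δ : Pl → ℤ} {i j : ℤ} (h : j ≤ b.2) :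
    up b δ i j = δ (i, j) + up b δ i (j + 1) := by
  rw [up, ← Finset.insert_Icc_add_one_left_eq_Icc h, Finset.sum_insert (by simp)]
  rfl

lemma up_zero {b : Pl} {δ : Pl → ℤ} {i j : ℤ} (h : b.2 < j) : up b δ i j = 0 := by
  rw [up, Finset.Icc_eq_empty (by omega), Finset.sum_empty]

lemma lf_zero (a b : Pl) (δ : Pl → ℤ) : lf a b δ (a.1 - 1) = 0 := by
  rw [lf, Finset.Icc_eq_empty (by omega), Finset.sum_empty]

lemma lf_succ {a b : Pl} {δ : Pl → ℤ} {i : ℤ} (h : a.1 - 1 ≤ i) :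
    lf a b δ (i + 1) = lf a b δ i + up b δ i (a.2 - 1) := by
  rw [lf, lf, show i + 1 - 1 = i by ring, ← Finset.insert_Icc_sub_one_right_eq_Icc h,
    Finset.sum_insert (by simp), add_comm]

/-- the central transformation -/
def zt (N : ℕ) (a b : Pl) (δ : Pl → ℤ) (x : Pl) (m : Fin 4) : ℕ :=
  if m = 0 then
    if a.1 - 1 ≤ x.1 ∧ x.1 ≤ b.1 ∧ a.2 ≤ x.2 ∧ x.2 ≤ b.2 then rs N (-up b δ x.1 x.2) else 0
  else if m = 1 then
    if x.2 = a.2 - 1 ∧ a.1 ≤ x.1 ∧ x.1 ≤ b.1 then rs N (-lf a b δ x.1) else 0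
  else 0

lemma mem_cl_rc {a b : Pl} (h1 : a.1 ≤ b.1) (h2 : a.2 ≤ b.2) (x : Pl) :
    x ∈ cl (rc a b) ↔ a.1 - 1 ≤ x.1 ∧ x.1 ≤ b.1 ∧ a.2 - 1 ≤ x.2 ∧ x.2 ≤ b.2 := by
  have hrc : ∀ w : Pl, w ∈ rc a b ↔ a.1 ≤ w.1 ∧ w.1 ≤ b.1 ∧ a.2 ≤ w.2 ∧ w.2 ≤ b.2 := by
    intro w
    rw [rc, Finset.mem_product, Finset.mem_Icc, Finset.mem_Icc]
    tauto
  rw [mem_cl]
  constructor
  · rintro ⟨w, hw, hwU⟩
    rw [mem_cor3] at hw
    rw [hrc] at hwU
    rcases hw with rfl | rfl | rfl | rfl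
    · omega
    all_goals
      simp at hwU
      omega
  · rintro ⟨h3, h4, h5, h6⟩
    by_cases e1 : a.1 ≤ x.1
    · by_cases e2 : a.2 ≤ x.2
      · exact ⟨x, (mem_cor3 _ _).2 (Or.inl rfl), (hrc _).2 ⟨e1, h4, e2, h6⟩⟩
      · refine ⟨x + (0, 1), (mem_cor3 _ _).2 (Or.inr (Or.inr (Or.inl rfl))), (hrc _).2 ?_⟩
        simp
        omega
    · by_cases e2 : a.2 ≤ x.2
      · refine ⟨x + (1, 0), (mem_cor3 _ _).2 (Or.inr (Or.inl rfl)), (hrc _).2 ?_⟩
        simp
        omega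
      · refine ⟨x + (1, 1), (mem_cor3 _ _).2 (Or.inr (Or.inr (Or.inr rfl))), (hrc _).2 ?_⟩
        simp
        omega

lemma sum_cl {a b : Pl} (h1 : a.1 ≤ b.1) (h2 : a.2 ≤ b.2) (δ : Pl → ℤ) :
    ∑ x ∈ cl (rc a b), δ x = lf a b δ (b.1 + 1) := by
  have h3 : cl (rc a b) = Finset.Icc (a.1 - 1) b.1 ×ˢ Finset.Icc (a.2 - 1) b.2 := by
    ext x
    rw [mem_cl_rc h1 h2, Finset.mem_product, Finset.mem_Icc, Finset.mem_Icc]
    tauto
  rw [h3, Finset.sum_product, lf, show b.1 + 1 - 1 = b.1 by ring]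
  rfl

lemma crz_zt {N : ℕ} (hN : 2 ≤ N) {a b : Pl} (h1 : a.1 ≤ b.1) (h2 : a.2 ≤ b.2) {δ : Pl → ℤ}
    (hδ : (N : ℤ) ∣ lf a b δ (b.1 + 1)) {x : Pl} (hx : x ∈ cl (rc a b)) :
    (N : ℤ) ∣ crz (zt N a b δ) x - δ x := by
  rw [mem_cl_rc h1 h2] at hx
  obtain ⟨h3, h4, h5, h6⟩ := hx
  obtain ⟨i, j⟩ := x
  simp only at h3 h4 h5 h6
  have e1 : ((i, j) : Pl) + (0, 1) = (i, j + 1) := by simp
  have e2 : ((i, j) : Pl) + (1, 0) = (i + 1, j) := by simp
  rw [crz, e1, e2]
  -- congruences of the four terms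
  by_cases hj : a.2 ≤ j
  · have k1 : zt N a b δ (i, j) 1 = 0 := by
      rw [zt, if_neg (by decide), if_pos rfl, if_neg (by simp only; omega)]
    have k2 : zt N a b δ (i + 1, j) 1 = 0 := by
      rw [zt, if_neg (by decide), if_pos rfl, if_neg (by simp only; omega)]
    have k3 : (N : ℤ) ∣ (zt N a b δ (i, j) 0 : ℤ) + up b δ i j := by
      rw [zt, if_pos rfl, if_pos ⟨h3, h4, hj, h6⟩]
      have := dvd_rs hN (-up b δ i j)
      rwa [sub_neg_eq_add] at this
    have k4 : (N : ℤ) ∣ (zt N a b δ (i, j + 1) 0 : ℤ) + up b δ i (j + 1) := by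
      rw [zt, if_pos rfl]
      by_cases h7 : j + 1 ≤ b.2
      · rw [if_pos ⟨h3, h4, by simp only; omega, h7⟩]
        have := dvd_rs hN (-up b δ i (j + 1))
        rwa [sub_neg_eq_add] at this
      · rw [if_neg (by simp only; omega), up_zero (by omega)]
        simp
    rw [k1, k2]
    have h8 := up_succ (δ := δ) (i := i) h6
    have h9 := dvd_sub k4 k3
    have h10 : ((0 : ℕ) : ℤ) + (zt N a b δ (i, j + 1) 0 : ℤ) - (zt N a b δ (i, j) 0 : ℤ) -
        ((0 : ℕ) : ℤ) - δ (i, j) = (zt N a b δ (i, j + 1) 0 : ℤ) + up b δ i (j + 1) -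
          ((zt N a b δ (i, j) 0 : ℤ) + up b δ i j) := by
      rw [h8]
      push_cast
      ring
    rw [h10]
    exact h9
  · have hj' : j = a.2 - 1 := by omega
    subst hj'
    have k1 : zt N a b δ (i, a.2 - 1) 0 = 0 := by
      rw [zt, if_pos rfl, if_neg (by simp only; omega)]
    have k2 : (N : ℤ) ∣ (zt N a b δ (i, a.2 - 1 + 1) 0 : ℤ) + up b δ i (a.2 - 1 + 1) := by
      rw [zt, if_pos rfl, if_pos ⟨h3, h4, by simp only; omega, by simp only; omega⟩]
      have := dvd_rs hN (-up b δ i (a.2 - 1 + 1))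
      rwa [sub_neg_eq_add] at this
    have k3 : (N : ℤ) ∣ (zt N a b δ (i, a.2 - 1) 1 : ℤ) + lf a b δ i := by
      rw [zt, if_neg (by decide), if_pos rfl]
      by_cases h7 : a.1 ≤ i
      · rw [if_pos ⟨rfl, h7, h4⟩]
        have := dvd_rs hN (-lf a b δ i)
        rwa [sub_neg_eq_add] at this
      · rw [if_neg (by simp only; omega), show i = a.1 - 1 by omega, lf_zero]
        simp
    have k4 : (N : ℤ) ∣ (zt N a b δ (i + 1, a.2 - 1) 1 : ℤ) + lf a b δ (i + 1) := by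
      rw [zt, if_neg (by decide), if_pos rfl]
      by_cases h7 : i + 1 ≤ b.1
      · rw [if_pos ⟨rfl, by simp only; omega, h7⟩]
        have := dvd_rs hN (-lf a b δ (i + 1))
        rwa [sub_neg_eq_add] at this
      · rw [if_neg (by simp only; omega), show i = b.1 by omega]
        simpa using hδ
    rw [k1]
    have h8 := up_succ (b := b) (δ := δ) (i := i) (j := a.2 - 1) (by omega)
    have h9 := lf_succ (b := b) (δ := δ) (a := a) h3
    have h11 := dvd_add (dvd_sub k3 k4) k2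
    have h10 : (zt N a b δ (i, a.2 - 1) 1 : ℤ) + (zt N a b δ (i, a.2 - 1 + 1) 0 : ℤ) -
        ((0 : ℕ) : ℤ) - (zt N a b δ (i + 1, a.2 - 1) 1 : ℤ) - δ (i, a.2 - 1) =
        (zt N a b δ (i, a.2 - 1) 1 : ℤ) + lf a b δ i - ((zt N a b δ (i + 1, a.2 - 1) 1 : ℤ) +
          lf a b δ (i + 1)) + ((zt N a b δ (i, a.2 - 1 + 1) 0 : ℤ) + up b δ i (a.2 - 1 + 1)) := by
      rw [h9, h8]
      push_cast
      ring
    rw [h10]
    exact h11

lemma cen_zero (N : ℕ) : cen N 0 = 1 := by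
  apply Subtype.ext
  change om N 0 • (1 : Mt N) = 1
  rw [om]
  simp

end PkgVS

open PkgVS in
theorem pVS (hVA : S_VA) : S_VS := by
  intro N k L _ hN β hβ a b h1 h2 s s' η hs
  obtain ⟨-, -, -, -, hoz, -, -, hinv⟩ := hVA N k L hN
  obtain ⟨δ, hδ⟩ : ∃ δ : Pl → ℤ, δ = fun x => s' x - s x := ⟨_, rfl⟩
  have hsum : (N : ℤ) ∣ lf a b δ (b.1 + 1) := by
    rw [← sum_cl h1 h2, hδ]
    have h3 : ∑ x ∈ cl (rc a b), (s' x - s x) = -∑ x ∈ cl (rc a b), (s x - s' x) := by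
      rw [← Finset.sum_neg_distrib]
      exact Finset.sum_congr rfl fun x _ => by ring
    rw [h3]
    exact (dvd_neg).2 hs
  obtain ⟨z, hz⟩ : ∃ z, z = zt N a b δ := ⟨_, rfl⟩
  -- the partition function is periodic in the fluxes
  have hper : ∀ t t' : Pl → ℤ, (∀ x ∈ cl (rc a b), (N : ℤ) ∣ t x - t' x) → ∀ ζ : Cf N L,
      Zf k β t (rc a b) ζ = Zf k β t' (rc a b) ζ := by
    intro t t' ht ζ
    unfold Zf
    have h3 : ∀ X : Cf N L, EE k t (rc a b) X = EE k t' (rc a b) X := by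
      intro X
      unfold EE
      refine Finset.sum_congr rfl fun τ hτ => ?_
      unfold enf
      split_ifs with h4
      · rw [hoz _ _ (ht τ.1 ?_)]
        rw [mem_cl]
        obtain ⟨c, hc, hcU⟩ := (mem_tml _ _).1 hτ
        refine ⟨c, ?_, hcU⟩
        rwa [← h4]
      · rfl
    simp only [h3]
  -- the central transformation
  have hmove : Zf k β s (rc a b) η = Zf k β (fun x => s x + crz z x) (rc a b) η := by
    rw [← hinv β hβ (fun _ => 1) z s (rc a b) η]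
    unfold Zf
    have h3 : ∀ ξ : Cf N L, glue (Frl L (rc a b)) ξ (gau (fun _ => 1) (cmv z η)) =
        glue (Frl L (rc a b)) ξ η := by
      intro ξ
      funext l
      unfold glue
      split_ifs with hl
      · rfl
      · unfold gau
        rw [one_mul, inv_one, mul_one]
        unfold cmv
        split_ifs with h4
        · have h5 : z l.1.1 l.2 = 0 := by
            rw [hz]
            by_contra hne
            apply hl
            rw [mem_Frl]
            have hrc : ∀ w : Pl, w ∈ rc a b ↔ a.1 ≤ w.1 ∧ w.1 ≤ b.1 ∧ a.2 ≤ w.2 ∧ w.2 ≤ b.2 := by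
              intro w
              rw [rc, Finset.mem_product, Finset.mem_Icc, Finset.mem_Icc]
              tauto
            rcases h4 with h4 | h4
            · rw [h4, zt, if_pos rfl] at hne
              have h6 : a.1 - 1 ≤ l.1.1.1 ∧ l.1.1.1 ≤ b.1 ∧ a.2 ≤ l.1.1.2 ∧ l.1.1.2 ≤ b.2 := by
                by_contra h7
                exact hne (if_neg h7)
              by_cases h7 : a.1 ≤ l.1.1.1
              · exact ⟨l.1.1, (mem_st _ _).2 (Or.inl rfl), (hrc _).2 ⟨h7, h6.2⟩⟩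
              · refine ⟨l.1.1 + pe l.2, (mem_st _ _).2 (Or.inr rfl), (hrc _).2 ?_⟩
                rw [h4]
                simp [pe]
                omega
            · rw [h4, zt, if_neg (by decide), if_pos rfl] at hne
              have h6 : l.1.1.2 = a.2 - 1 ∧ a.1 ≤ l.1.1.1 ∧ l.1.1.1 ≤ b.1 := by
                by_contra h7
                exact hne (if_neg h7)
              refine ⟨l.1.1 + pe l.2, (mem_st _ _).2 (Or.inr rfl), (hrc _).2 ?_⟩
              rw [h4]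
              simp [pe]
              omega
          rw [h5, cen_zero, one_mul]
        · rfl
    simp only [h3]
  rw [hmove]
  refine hper _ _ (fun x hx => ?_) η
  have h3 := crz_zt hN h1 h2 hsum hx
  have h4 : s x + crz z x - s' x = crz (zt N a b δ) x - δ x := by
    rw [hz, hδ]
    ring
  rw [h4]
  exact h3

end T2H01.SE
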