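import Pool.Agent.T2H01.SE.Stm3
import Pool.Agent.T2H01.SE.VJ

/-! Package WB: the blocks. -/

set_option autoImplicit false
set_option linter.unusedSectionVars false
set_option linter.unusedVariables false

noncomputable section

open MeasureTheory

namespace T2H01.SE

open T2H02.TT

namespace PkgWB

lemma SS_nonneg {N L : ℕ} [NeZero L] (k : ℕ) (P Q : SU N) : 0 ≤ SS L k P Q := by
  refine Real.sInf_nonneg ?_
  rintro x ⟨n, U, X, -, -, -, rfl⟩
  exact Finset.sum_nonneg fun τ _ => enf_nonneg _ _ _ _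

lemma mem_Nb (r : ℕ) (b a : Pl) : a ∈ Nb r b ↔
    (b.1 - r ≤ a.1 ∧ a.1 ≤ b.1 + r) ∧ (b.2 - r ≤ a.2 ∧ a.2 ≤ b.2 + r) := by
  unfold Nb
  rw [Finset.mem_product, Finset.mem_Icc, Finset.mem_Icc]

lemma Nb_mono {r s : ℕ} (h : r ≤ s) (b : Pl) : Nb r b ⊆ Nb s b := by
  intro a ha
  rw [mem_Nb] at ha ⊢
  omega

lemma near_of {r s t : ℕ} {b c a a' : Pl} (h : a ∈ Nb r b) (h' : a' ∈ Nb s c) (hn : near 1 a a')
    (ht : r + s + 1 ≤ t) : near t b c := by
  rw [mem_Nb] at h h'
  unfold near at *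
  rw [abs_le, abs_le] at *
  omega

lemma near_of2 {r s t : ℕ} {b c a a' a'' : Pl} (h : a ∈ Nb r b) (h' : a' ∈ Nb s c)
    (hn : near 1 a a'') (hn' : near 1 a'' a')
    (ht : r + s + 2 ≤ t) : near t b c := by
  rw [mem_Nb] at h h'
  unfold near at *
  rw [abs_le, abs_le] at *
  omega

section

variable {N L : ℕ} [NeZero L]

lemma fx_meas (x : Pl) : Measurable fun ω : Cj N L => fx ω x := by
  unfold fx
  have h1 : Measurable fun m : Fin N => (((m : ℕ) : ℤ)) := measurable_from_top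
  exact h1.comp (measurable_snd.comp (measurable_pi_apply (Sum.inr x)))

lemma oz_meas (B : Finset Pl) : Measurable fun ω : Cj N L => oz N (∑ x ∈ B, fx ω x) := by
  have h1 : Measurable (oz N) := measurable_from_top
  exact h1.comp (Finset.measurable_sum _ fun x _ => fx_meas x)

lemma rE_meas (hN : 0 < N) (k : ℕ) (U : Finset Pl) :
    Measurable fun ω : Cj N L => rE k (lk ω) U := by
  unfold rE
  exact Finset.measurable_sum _ fun τ _ => (en_cont k τ hN).measurable.comp lk_meas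

lemma mem_FrJ_inr (U : Finset Pl) (x : Pl) : (Sum.inr x : Ix L) ∈ FrJ L U ↔ x ∈ cl U := by
  rw [mem_FrJ, mem_cl]
  rfl

lemma mem_FrJ_inl (U : Finset Pl) (l : Lk L) : (Sum.inl l : Ix L) ∈ FrJ L U ↔ ∃ a ∈ st l, a ∈ U := by
  rw [mem_FrJ]
  rfl

/-- the energy of the ring depends on links near it -/
lemma rE_dep (k : ℕ) {K S t : ℕ} {b c : Pl} (hbc : ¬ near t b c) (ht : K + 1 + S + 2 ≤ t)
    (ω ω' : Cj N L) (h : ∀ i, i ∉ FrJ L (Nb S c) → ω i = ω' i) :
    rE k (lk ω) (Nb K b) = rE k (lk ω') (Nb K b) := by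
  unfold rE
  refine Finset.sum_congr rfl fun τ hτ => ?_
  refine en_loc k τ _ _ fun l hl => ?_
  unfold lk
  rw [h (Sum.inl l)]
  intro hi
  rw [mem_FrJ_inl] at hi
  obtain ⟨a', ha', hac⟩ := hi
  apply hbc
  rw [rng, Finset.mem_filter] at hτ
  have ha0 : l.1.1 ∈ cor τ := by
    rw [cor_iff (L := L)]
    exact ⟨l, hl, (mem_st _ _).2 (Or.inl rfl)⟩
  obtain ⟨h1, h2⟩ := hτ.2 _ ha0
  rw [pls, Finset.mem_biUnion] at h1
  obtain ⟨a, ha, ha2⟩ := h1
  have h3 : l.1.1 ∈ Nb (K + 1) b := by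
    rw [mem_Nb] at ha ha2 ⊢
    push_cast
    omega
  exact near_of h3 hac (diam_st l _ ((mem_st _ _).2 (Or.inl rfl)) _ ha') (by omega)

/-- different blocks have disjoint sets of cells -/
lemma cl_disj {K t : ℕ} {b c : Pl} (hbc : ¬ near t b c) (ht : K + K + 2 ≤ t) :
    Disjoint (cl (Nb K b)) (cl (Nb K c)) := by
  rw [Finset.disjoint_left]
  intro x h1 h2
  rw [mem_cl] at h1 h2
  obtain ⟨a, ha, hab⟩ := h1
  obtain ⟨a', ha', hac⟩ := h2
  exact hbc (near_of hab hac (diam_cor (x, 3) a ha a' ha') (by omega))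

end

lemma prod_oz {N : ℕ} (hadd : ∀ a b : ℤ, oz N (a + b) = oz N a * oz N b) (I : Finset Pl)
    (g : Pl → ℤ) : ∏ b ∈ I, oz N (g b) = oz N (∑ b ∈ I, g b) := by
  classical
  have hoz0 : oz N 0 = 1 := by simp [oz]
  induction I using Finset.induction_on with
  | empty => simp [hoz0]
  | insert a s ha ih =>
    rw [Finset.prod_insert ha, Finset.sum_insert ha, hadd, ih]

open PkgVJ in
theorem main (hWX : S_WX) (hWH : S_WH) (hVJ : S_VJ) (hVF : S_VF) (hVA : S_VA) : S_WB := by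
  intro N k L _ hN hk P Q hPQ ρ hρ
  obtain ⟨-, K, hK⟩ := hVF N k L hN hk P Q hPQ (ρ / 2) (by linarith)
  obtain ⟨e, β₁, he, hβ₁, h1⟩ := hK (2 * K)
  obtain ⟨R, β₂, hβ₂, h2⟩ := hWH N k L hN hk K e he
  obtain ⟨hadd, -, -, hnorm, -⟩ := hVA N k L hN
  refine ⟨K, K + R + 2, max (max β₁ β₂) (1 / ρ), le_max_of_le_left (le_max_of_le_left hβ₁),
    by omega, ?_⟩
  intro β hβ hββ D E hE I A G hGm hG1 hD hsep hA hGd
  have hb1 : β₁ ≤ β := ((le_max_left _ _).trans (le_max_left _ _)).trans hββ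
  have hb2 : β₂ ≤ β := ((le_max_right _ _).trans (le_max_left _ _)).trans hββ
  have hb3 : 1 / ρ ≤ β := (le_max_right _ _).trans hββ
  have hSS := SS_nonneg (L := L) k P Q
  have hN0 : 0 < N := by omega
  have := mj_prob hN0
  have hβρ : 1 ≤ β * ρ := by
    rw [div_le_iff₀ hρ] at hb3
    exact hb3
  obtain ⟨hVJ1, -⟩ := hVJ N k L hN β hβ
  have hκ0 : 0 ≤ Real.exp (-β * (SS L k P Q + ρ)) := (Real.exp_pos _).le
  have hκ1 : Real.exp (-β * (SS L k P Q + ρ)) ≤ 1 / 2 := by
    have h3 : Real.exp (-β * (SS L k P Q + ρ)) ≤ Real.exp (-1) := by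
      apply Real.exp_le_exp.2
      nlinarith [mul_nonneg hβ hSS]
    have h4 : Real.exp (-1) ≤ 1 / 2 := by
      rw [Real.exp_neg, inv_eq_one_div]
      apply one_div_le_one_div_of_le (by norm_num)
      have := Real.add_one_le_exp (1 : ℝ)
      linarith
    exact h3.trans h4
  set κ := Real.exp (-β * (SS L k P Q + ρ)) with hκ
  set B : Finset Pl := A \ I.biUnion (fun c => cl (Nb K c)) with hB
  have hsep' : ∀ b ∈ I, ∀ c ∈ I, b ≠ c → ¬ near ((2 * (K + R + 2) : ℕ) : ℤ) b c := by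
    intro b hb c hc hne
    have := hsep b hb c hc hne
    push_cast at this ⊢
    exact this
  have hfx : ∀ (U : Finset Pl) (C : Finset Pl), Disjoint C (cl U) → ∀ ω ω' : Cj N L,
      (∀ i ∈ {i | i ∉ FrJ L U}, ω i = ω' i) → oz N (∑ x ∈ C, fx ω x) = oz N (∑ x ∈ C, fx ω' x) := by
    intro U C hUC ω ω' h
    congr 1
    refine Finset.sum_congr rfl fun x hx => ?_
    unfold fx
    rw [h (Sum.inr x)]
    show Sum.inr x ∉ FrJ L U
    rw [mem_FrJ_inr]
    exact Finset.disjoint_left.1 hUC hx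
  have key := hWX (Ix L) Tm (Vr N) (sysJ N L k β hβ) (mj N) D E hE I (fun c => Nb K c)
    (fun c => Nb (K + R) c) (fun ω => G ω * oz N (∑ x ∈ B, fx ω x))
    (fun c ω => oz N (∑ x ∈ cl (Nb K c), fx ω x))
    (fun c ω => e < rE k (lk ω) (Nb K c)) κ hκ0 hκ1
    (fun b hb => ⟨(Nb_mono (by omega) b).trans (hD b hb), (Nb_mono (by omega) b).trans (hD b hb)⟩)
    (by
      intro b hb c hc hne
      rw [Finset.disjoint_left]
      intro τ h3 h4
      obtain ⟨a, ha, hab⟩ := ((sysJ N L k β hβ).mem_tms _ _).1 h3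
      obtain ⟨a', ha', hac⟩ := ((sysJ N L k β hβ).mem_tms _ _).1 h4
      exact hsep' b hb c hc hne (near_of hab hac ((sysJ N L k β hβ).diam_bt τ a ha a' ha')
        (by omega)))
    (hGm.mul (oz_meas B))
    (by
      intro ω
      rw [norm_mul, hnorm, mul_one]
      exact hG1 ω)
    (by
      intro b hb ω ω' h
      show G ω * _ = G ω' * _
      rw [hGd b hb ω ω' h, hfx (Nb K b) B ?_ ω ω' h]
      rw [Finset.disjoint_left]
      intro x hx hx2
      rw [hB, Finset.mem_sdiff] at hx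
      exact hx.2 (Finset.mem_biUnion.2 ⟨b, hb, hx2⟩))
    (by
      intro b hb
      refine ⟨oz_meas _, fun ω => (hnorm _).le, ?_⟩
      intro c hc hne ω ω' h
      exact hfx (Nb K c) _ (cl_disj (hsep' b hb c hc hne) (by omega)) ω ω' h)
    (by
      intro b hb
      refine ⟨measurableSet_lt measurable_const (rE_meas hN0 k _), ?_, ?_⟩
      · intro c hc hne ω ω' h
        show ind _ = ind _
        rw [rE_dep k (hsep' b hb c hc hne) (by omega) ω ω' h]
      · intro ω
        have h3 := hVJ1 (Nb (K + R) b) (fun X => ind (e < rE k X (Nb K b))) ?_ ?_ ω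
        · have h4 := h2 β hβ hb2 b (lk ω)
          calc _ = _ := h3
            _ ≤ 1 / 4 := h4
        · have h5 : MeasurableSet {X : Cf N L | e < rE k X (Nb K b)} := by
            refine measurableSet_lt measurable_const ?_
            unfold rE
            exact Finset.measurable_sum _ fun τ _ => (en_cont k τ hN0).measurable
          unfold ind
          exact Measurable.ite h5 measurable_const measurable_const
        · refine ⟨1, fun X => ?_⟩
          unfold ind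
          split_ifs <;> simp)
    (by
      intro b hb ω hbad
      have h3 := h1 β hβ hb1 (b.1 - K, b.2 - K) (b.1 + K, b.2 + K) b
        (by show b.1 - (K : ℤ) ≤ b.1 + K; omega) (by show b.2 - (K : ℤ) ≤ b.2 + K; omega)
        (by show b.1 + (K : ℤ) - (b.1 - K) ≤ ((2 * K : ℕ) : ℤ); push_cast; omega)
        (by show b.2 + (K : ℤ) - (b.2 - K) ≤ ((2 * K : ℕ) : ℤ); push_cast; omega)
        (fun a ha => ha) ω (not_lt.1 hbad)
      refine le_trans h3 ?_
      have h4 : κ ≤ Real.exp (-β * (SS L k P Q + ρ / 2)) := by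
        rw [hκ]
        apply Real.exp_le_exp.2
        nlinarith [mul_nonneg hβ hρ.le]
      have h5 : Real.exp (-β * (SS L k P Q + ρ / 2)) ≤ 1 := by
        rw [Real.exp_le_one_iff]
        nlinarith [mul_nonneg hβ hρ.le, mul_nonneg hβ hSS]
      exact pow_le_pow_left₀ (by linarith) (by linarith) 2)
  have hprod : ∀ ω : Cj N L, G ω * oz N (∑ x ∈ B, fx ω x) *
      ∏ b ∈ I, oz N (∑ x ∈ cl (Nb K b), fx ω x) = G ω * oz N (∑ x ∈ A, fx ω x) := by
    intro ω
    have h3 : ∏ b ∈ I, oz N (∑ x ∈ cl (Nb K b), fx ω x) =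
        oz N (∑ x ∈ I.biUnion (fun c => cl (Nb K c)), fx ω x) := by
      rw [Finset.sum_biUnion (fun b hb c hc hne => cl_disj (hsep' b hb c hc hne) (by omega))]
      exact prod_oz hadd I _
    rw [h3, mul_assoc, ← hadd]
    congr 2
    rw [hB, Finset.sum_sdiff]
    intro x hx
    obtain ⟨c, hc, hx2⟩ := Finset.mem_biUnion.1 hx
    exact hA c hc hx2
  simp only [hprod] at key
  refine key.trans (le_of_eq ?_)
  rw [neg_mul]

end PkgWB

theorem pWB (hWX : S_WX) (hWH : S_WH) (hVJ : S_VJ) (hVF : S_VF) (hVA : S_VA) : S_WB :=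
  PkgWB.main hWX hWH hVJ hVF hVA

end T2H01.SE
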