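import Pool.Agent.T2H01.SE.Stm3
import Pool.Agent.T2H01.SE.VJ

/-!
# Package WD : boxes with cold walls, upper bound
-/

set_option autoImplicit false

noncomputable section

open MeasureTheory Matrix
open scoped Matrix.Norms.Frobenius

namespace T2H01.SE

open T2H02.TT

namespace PkgWD

lemma oz_nat (N n : ℕ) : oz N (n : ℤ) = om N n := by
  simp [oz, om]

lemma oz_per (N : ℕ) (hN : 0 < N) (n : ℤ) : oz N (n + N) = oz N n := by
  unfold oz
  have hN' : (N : ℂ) ≠ 0 := by exact_mod_cast hN.ne'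
  have : (2 * Real.pi * Complex.I * ((n + N : ℤ) : ℂ) / N : ℂ) =
      2 * Real.pi * Complex.I * (n : ℂ) / N + 2 * Real.pi * Complex.I := by
    push_cast
    field_simp
  rw [this, Complex.exp_add, Complex.exp_two_pi_mul_I, mul_one]

lemma cl_mono {U V : Finset Pl} (h : U ⊆ V) : cl U ⊆ cl V := by
  intro x hx
  rw [mem_cl] at hx ⊢
  obtain ⟨a, ha, haU⟩ := hx
  exact ⟨a, ha, h haU⟩

lemma Nb_sub {K s : ℕ} (h : K ≤ s) (c : Pl) : Nb K c ⊆ Nb s c := by
  intro x hx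
  simp only [Nb, Finset.mem_product, Finset.mem_Icc] at hx ⊢
  have : (K : ℤ) ≤ s := by exact_mod_cast h
  omega

/-- the centres -/
def ctr (w : ℕ) (a : Pl) (p : ℕ × ℕ) : Pl :=
  (a.1 + (w : ℤ) * ((p.1 : ℤ) + 1), a.2 + (w : ℤ) * ((p.2 : ℤ) + 1))

lemma ctr_inj (w : ℕ) (hw : 0 < w) (a : Pl) : Function.Injective (ctr w a) := by
  intro p q h
  have h1 := congrArg Prod.fst h
  have h2 := congrArg Prod.snd h
  simp only [ctr] at h1 h2
  have hw' : (w : ℤ) ≠ 0 := by exact_mod_cast hw.ne'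
  have e1 : (p.1 : ℤ) + 1 = (q.1 : ℤ) + 1 := by
    apply mul_left_cancel₀ hw'
    linarith
  have e2 : (p.2 : ℤ) + 1 = (q.2 : ℤ) + 1 := by
    apply mul_left_cancel₀ hw'
    linarith
  apply Prod.ext
  · have : (p.1 : ℤ) = q.1 := by linarith
    exact_mod_cast this
  · have : (p.2 : ℤ) = q.2 := by linarith
    exact_mod_cast this

lemma far_of_ne (s : ℕ) (x y : ℤ) (t : ℤ) (h : x ≠ y) :
    ¬ |(t + ((2 * s + 1 : ℕ) : ℤ) * (x + 1)) - (t + ((2 * s + 1 : ℕ) : ℤ) * (y + 1))| ≤ 2 * s := by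
  intro hle
  have e : (t + ((2 * s + 1 : ℕ) : ℤ) * (x + 1)) - (t + ((2 * s + 1 : ℕ) : ℤ) * (y + 1)) =
      (2 * s + 1) * (x - y) := by push_cast; ring
  rw [e, abs_mul] at hle
  have h1 : (1 : ℤ) ≤ |x - y| := Int.one_le_abs (sub_ne_zero.2 h)
  have h2 : |(2 * s + 1 : ℤ)| = 2 * s + 1 := abs_of_nonneg (by positivity)
  rw [h2] at hle
  nlinarith

lemma Z_nonneg {N L : ℕ} [NeZero L] (k : ℕ) (β : ℝ) (s : Pl → ℤ) (U : Finset Pl) (η : Cf N L) :
    0 ≤ Zf k β s U η := by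
  unfold Zf
  exact integral_nonneg fun ξ => (Real.exp_pos _).le

/-- number of steps -/
lemma steps (w A : ℕ) (hw : 0 < w) (hA : 3 * w + 1 ≤ A) :
    ((A : ℝ) + 1) / (3 * w) ≤ ((A / w - 1 : ℕ) : ℝ) := by
  have h1 : 1 ≤ A / w := by
    rw [Nat.le_div_iff_mul_le hw]
    omega
  have h2 : A < (A / w + 1) * w := by
    have := Nat.lt_div_mul_add (a := A) hw
    have h3 : A / w * w + w = (A / w + 1) * w := by ring
    omega
  rw [Nat.cast_sub h1]
  have hw' : (0 : ℝ) < w := by exact_mod_cast hw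
  have h2' : (A : ℝ) < (((A / w : ℕ) : ℝ) + 1) * w := by exact_mod_cast h2
  have hA' : 3 * (w : ℝ) + 1 ≤ A := by exact_mod_cast hA
  rw [div_le_iff₀ (by positivity)]
  push_cast
  nlinarith

end PkgWD

open PkgWD

theorem pWD (hWK : S_WK) (hWB : S_WB) (hVJ : S_VJ) : S_WD := by
  intro N k L _ hN hk P Q hPQ ρ hρ
  obtain ⟨K, s, β₁, hβ₁, hKs, hW⟩ := hWB N k L hN hk P Q hPQ (ρ / 2) (by linarith)
  have hN0 : 0 < N := by omega
  have := PkgVJ.mj_prob (N := N) hN0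
  obtain ⟨w, hw⟩ : ∃ w : ℕ, w = 2 * s + 1 := ⟨_, rfl⟩
  have hw0 : 0 < w := by omega
  have hwR : (0 : ℝ) < w := by exact_mod_cast hw0
  refine ⟨3 * w + 1, max β₁ (36 * (w : ℝ) ^ 2 / ρ), le_trans hβ₁ (le_max_left _ _), ?_⟩
  intro β hβ a b hab1 hab2 η
  have hββ₁ : β₁ ≤ β := le_trans (le_max_left _ _) hβ
  have hββ₂ : 36 * (w : ℝ) ^ 2 / ρ ≤ β := le_trans (le_max_right _ _) hβ
  have hβ0 : 0 ≤ β := by linarith
  -- sides
  obtain ⟨A, hA⟩ : ∃ A : ℕ, b.1 - a.1 = A := Int.eq_ofNat_of_zero_le (by push_cast at hab1; omega)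
  obtain ⟨B, hB⟩ : ∃ B : ℕ, b.2 - a.2 = B := Int.eq_ofNat_of_zero_le (by push_cast at hab2; omega)
  have hA3 : 3 * w + 1 ≤ A := by
    have : ((3 * w + 1 : ℕ) : ℤ) ≤ A := by rw [← hA]; omega
    exact_mod_cast this
  have hB3 : 3 * w + 1 ≤ B := by
    have : ((3 * w + 1 : ℕ) : ℤ) ≤ B := by rw [← hB]; omega
    exact_mod_cast this
  have hab1' : a.1 ≤ b.1 := by omega
  have hab2' : a.2 ≤ b.2 := by omega
  have hcard : ((rc a b).card : ℝ) = ((A : ℝ) + 1) * ((B : ℝ) + 1) := by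
    unfold rc
    rw [Finset.card_product, Int.card_Icc, Int.card_Icc]
    have e1 : (b.1 + 1 - a.1).toNat = A + 1 := by omega
    have e2 : (b.2 + 1 - a.2).toNat = B + 1 := by omega
    rw [e1, e2]
    push_cast
    ring
  -- the centres
  obtain ⟨n₁, hn₁⟩ : ∃ n : ℕ, n = A / w - 1 := ⟨_, rfl⟩
  obtain ⟨n₂, hn₂⟩ : ∃ n : ℕ, n = B / w - 1 := ⟨_, rfl⟩
  obtain ⟨I, hI⟩ : ∃ I : Finset Pl, I = (Finset.range n₁ ×ˢ Finset.range n₂).image (ctr w a) :=
    ⟨_, rfl⟩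
  have hIcard : I.card = n₁ * n₂ := by
    rw [hI, Finset.card_image_of_injective _ (ctr_inj w hw0 a), Finset.card_product,
      Finset.card_range, Finset.card_range]
  have hstep1 := steps w A hw0 hA3
  have hstep2 := steps w B hw0 hB3
  have hIge : ((rc a b).card : ℝ) / (9 * w ^ 2) ≤ (I.card : ℝ) := by
    rw [hIcard, hcard]
    push_cast
    calc ((A : ℝ) + 1) * ((B : ℝ) + 1) / (9 * w ^ 2)
        = (((A : ℝ) + 1) / (3 * w)) * (((B : ℝ) + 1) / (3 * w)) := by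
          field_simp
          ring
      _ ≤ (n₁ : ℝ) * n₂ := by
          rw [← hn₁] at hstep1
          rw [← hn₂] at hstep2
          exact mul_le_mul hstep1 hstep2 (by positivity) (Nat.cast_nonneg _)
  have hin : ∀ (M n p : ℕ), n = M / w - 1 → p < n → (w : ℤ) * ((p : ℤ) + 1) + s ≤ M := by
    intro M n p hn hp
    have h1 : p + 2 ≤ M / w := by omega
    have h2 : (p + 2) * w ≤ M := (Nat.le_div_iff_mul_le hw0).1 h1
    have h3 : ((p : ℤ) + 2) * w ≤ M := by exact_mod_cast h2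
    have h4 : (w : ℤ) = 2 * s + 1 := by rw [hw]; push_cast; ring
    nlinarith
  have hNbD : ∀ c ∈ I, Nb s c ⊆ rc a b := by
    intro c hc x hx
    rw [hI, Finset.mem_image] at hc
    obtain ⟨p, hp, rfl⟩ := hc
    rw [Finset.mem_product, Finset.mem_range, Finset.mem_range] at hp
    have h1 := hin A n₁ p.1 hn₁ hp.1
    have h2 := hin B n₂ p.2 hn₂ hp.2
    simp only [Nb, ctr, Finset.mem_product, Finset.mem_Icc] at hx
    simp only [rc, Finset.mem_product, Finset.mem_Icc]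
    have h4 : (w : ℤ) = 2 * s + 1 := by rw [hw]; push_cast; ring
    have h5 : (w : ℤ) ≤ (w : ℤ) * ((p.1 : ℤ) + 1) := by nlinarith [Int.natCast_nonneg p.1]
    have h6 : (w : ℤ) ≤ (w : ℤ) * ((p.2 : ℤ) + 1) := by nlinarith [Int.natCast_nonneg p.2]
    generalize (w : ℤ) * ((p.1 : ℤ) + 1) = u at *
    generalize (w : ℤ) * ((p.2 : ℤ) + 1) = v at *
    omega
  have hfar : ∀ c ∈ I, ∀ c' ∈ I, c ≠ c' → ¬ near (2 * s) c c' := by
    intro c hc c' hc' hne hnear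
    rw [hI, Finset.mem_image] at hc hc'
    obtain ⟨p, -, rfl⟩ := hc
    obtain ⟨q, -, rfl⟩ := hc'
    have hpq : p ≠ q := fun h => hne (by rw [h])
    unfold near at hnear
    simp only [ctr] at hnear
    by_cases h1 : p.1 = q.1
    · have h2 : p.2 ≠ q.2 := fun h2 => hpq (Prod.ext h1 h2)
      exact far_of_ne s p.2 q.2 a.2 (by exact_mod_cast h2) (by rw [← hw]; exact hnear.2)
    · exact far_of_ne s p.1 q.1 a.1 (by exact_mod_cast h1) (by rw [← hw]; exact hnear.1)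
  -- the expectation
  set ω₀ : Cj N L := jn η (fun _ => ⟨0, hN0⟩) with hω₀
  have hlk : lk ω₀ = η := rfl
  set E : ((Cj N L) → ℝ) → ℝ := fun f => (sysJ N L k β hβ0).ker (mj N) (rc a b) f ω₀ with hE
  have hCns : Cns (sysJ N L k β hβ0) (mj N) (rc a b) E :=
    (hWK (Ix L) Tm (Vr N) (sysJ N L k β hβ0) (mj N)).1 (rc a b) ω₀
  have hmain := hW β hβ0 hββ₁ (rc a b) E hCns I (cl (rc a b)) (fun _ => 1) measurable_const
    (fun ω => by simp) hNbD hfar
    (fun c hc => cl_mono ((Nb_sub (by omega) c).trans (hNbD c hc)))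
    (fun c hc ω ω' _ => rfl)
  simp only [one_mul] at hmain
  obtain ⟨-, hJ⟩ := hVJ N k L hN β hβ0
  have hre : E (fun ω => (oz N (∑ x ∈ cl (rc a b), fx ω x)).re) =
      (∑ n ∈ Finset.range N, (oz N (n : ℤ)).re * Zf k β (dl a n) (rc a b) η) /
        ∑ n ∈ Finset.range N, Zf k β (dl a n) (rc a b) η :=
    hJ a b hab1' hab2' (fun n => (oz N n).re) (fun n => by rw [oz_per N hN0]) ω₀
  have him : E (fun ω => (oz N (∑ x ∈ cl (rc a b), fx ω x)).im) =
      (∑ n ∈ Finset.range N, (oz N (n : ℤ)).im * Zf k β (dl a n) (rc a b) η) /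
        ∑ n ∈ Finset.range N, Zf k β (dl a n) (rc a b) η :=
    hJ a b hab1' hab2' (fun n => (oz N n).im) (fun n => by rw [oz_per N hN0]) ω₀
  have hone : E (fun _ => 1) =
      (∑ n ∈ Finset.range N, 1 * Zf k β (dl a n) (rc a b) η) /
        ∑ n ∈ Finset.range N, Zf k β (dl a n) (rc a b) η :=
    hJ a b hab1' hab2' (fun _ => 1) (fun n => rfl) ω₀
  set Zs : ℝ := ∑ n ∈ Finset.range N, Zf k β (dl a n) (rc a b) η with hZs
  have hZs0 : 0 ≤ Zs := Finset.sum_nonneg fun n _ => Z_nonneg _ _ _ _ _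
  have hZne : Zs ≠ 0 := by
    intro h0
    rw [hCns.1, h0, div_zero] at hone
    norm_num at hone
  -- the sum
  set T : ℂ := ∑ n ∈ Finset.range N, om N n * (Zf k β (dl a n) (rc a b) η : ℂ)
    with hT
  have hTre : T.re = Zs * E (fun ω => (oz N (∑ x ∈ cl (rc a b), fx ω x)).re) := by
    rw [hre, mul_div_cancel₀ _ hZne, hT, Complex.re_sum]
    refine Finset.sum_congr rfl fun n _ => ?_
    rw [oz_nat, Complex.re_mul_ofReal]
  have hTim : T.im = Zs * E (fun ω => (oz N (∑ x ∈ cl (rc a b), fx ω x)).im) := by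
    rw [him, mul_div_cancel₀ _ hZne, hT, Complex.im_sum]
    refine Finset.sum_congr rfl fun n _ => ?_
    rw [oz_nat, Complex.im_mul_ofReal]
  have hTsq : ‖T‖ ^ 2 ≤ Zs ^ 2 * Real.exp (-Real.exp (-β * (SS L k P Q + ρ / 2)) * I.card) := by
    have e : ‖T‖ ^ 2 = Zs ^ 2 * ((E fun ω => (oz N (∑ x ∈ cl (rc a b), fx ω x)).re) ^ 2 +
        (E fun ω => (oz N (∑ x ∈ cl (rc a b), fx ω x)).im) ^ 2) := by
      rw [Complex.sq_norm, Complex.normSq_apply, hTre, hTim]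
      ring
    rw [e]
    exact mul_le_mul_of_nonneg_left hmain (sq_nonneg _)
  clear_value T Zs E
  -- exponents
  set κ : ℝ := Real.exp (-β * (SS L k P Q + ρ)) with hκ
  have hκ' : Real.exp (-β * (SS L k P Q + ρ / 2)) = κ * Real.exp (β * (ρ / 2)) := by
    rw [hκ, ← Real.exp_add]
    congr 1
    ring
  have hexp : 18 * (w : ℝ) ^ 2 ≤ Real.exp (β * (ρ / 2)) := by
    have h1 : 36 * (w : ℝ) ^ 2 ≤ β * ρ := (div_le_iff₀ hρ).1 hββ₂
    have h2 := Real.add_one_le_exp (β * (ρ / 2))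
    linarith
  have hκ0 : 0 < κ := Real.exp_pos _
  clear_value κ
  have hkey : 2 * (κ * (rc a b).card) ≤
      Real.exp (-β * (SS L k P Q + ρ / 2)) * I.card := by
    rw [hκ']
    have h1 : ((rc a b).card : ℝ) ≤ I.card * (9 * w ^ 2) := (div_le_iff₀ (by positivity)).1 hIge
    have hI0 : (0 : ℝ) ≤ I.card := by positivity
    calc 2 * (κ * (rc a b).card) ≤ 2 * (κ * (I.card * (9 * w ^ 2))) := by gcongr
      _ = κ * (18 * (w : ℝ) ^ 2) * I.card := by ring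
      _ ≤ κ * Real.exp (β * (ρ / 2)) * I.card := by gcongr
  have hfin : ‖T‖ ^ 2 ≤ (Real.exp (-(κ * (rc a b).card)) * Zs) ^ 2 := by
    refine hTsq.trans ?_
    rw [mul_pow, ← Real.exp_nat_mul, mul_comm (Real.exp _) (Zs ^ 2)]
    refine mul_le_mul_of_nonneg_left (Real.exp_le_exp.2 ?_) (sq_nonneg _)
    push_cast
    linarith
  exact le_of_sq_le_sq hfin (mul_nonneg (Real.exp_pos _).le hZs0)

end T2H01.SE
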