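import Pool.Agent.T2H01.SE.Stm3
import Pool.Agent.T2H01.SE.VJ

/-!
# Package WE: loops as expectations in the joint system
-/

set_option autoImplicit false
set_option linter.unusedSectionVars false

noncomputable section

open MeasureTheory Matrix
open scoped Matrix.Norms.Frobenius ENNReal

namespace T2H01.SE

open T2H02.TT

namespace PkgWE

open PkgVJ

variable {N L : ℕ} [NeZero L]

lemma oz_add (N : ℕ) (a b : ℤ) : oz N (a + b) = oz N a * oz N b := by
  unfold oz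
  rw [← Complex.exp_add]
  congr 1
  push_cast
  ring

lemma oz_zero (N : ℕ) : oz N 0 = 1 := by simp [oz]

lemma oz_sum {ι : Type} (N : ℕ) (s : Finset ι) (f : ι → ℤ) :
    oz N (∑ i ∈ s, f i) = ∏ i ∈ s, oz N (f i) := by
  classical
  induction s using Finset.induction_on with
  | empty => simp [oz_zero]
  | insert a s ha ih => rw [Finset.sum_insert ha, Finset.prod_insert ha, oz_add, ih]

lemma oz_nat (N m : ℕ) : oz N (m : ℤ) = om N m := by
  unfold oz om
  push_cast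
  rfl

lemma oz_mul_nat (N s m : ℕ) : oz N ((s : ℤ) * (m : ℤ)) = om N m ^ s := by
  unfold oz om
  rw [← Complex.exp_nat_mul]
  congr 1
  push_cast
  ring

lemma norm_oz (N : ℕ) (a : ℤ) : ‖oz N a‖ = 1 := by
  unfold oz
  rw [show 2 * (Real.pi : ℂ) * Complex.I * a / N = ((2 * Real.pi * a / N : ℝ) : ℂ) * Complex.I by
    push_cast; ring, Complex.norm_exp_ofReal_mul_I]

/-- cells of the plane terms of `T` -/
def pc (T : Finset Tm) : Finset Pl := (T.filter fun τ => τ.2 = 3).image Prod.fst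

lemma mem_pc (T : Finset Tm) (x : Pl) : x ∈ pc T ↔ (x, (3 : Fin 4)) ∈ T := by
  unfold pc
  rw [Finset.mem_image]
  constructor
  · rintro ⟨⟨y, i⟩, h, rfl⟩
    rw [Finset.mem_filter] at h
    obtain ⟨h1, rfl⟩ := h
    exact h1
  · intro h
    exact ⟨(x, 3), Finset.mem_filter.2 ⟨h, rfl⟩, rfl⟩

lemma prod_three {M : Type} [CommMonoid M] (T : Finset Tm) (f : Tm → M) :
    ∏ τ ∈ T.filter (fun τ => τ.2 = 3), f τ = ∏ x : pc T, f ((x : Pl), 3) := by
  have e2 : T.filter (fun τ => τ.2 = 3) =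
      (pc T).map ⟨fun x => (x, 3), fun a b h => (Prod.ext_iff.1 h).1⟩ := by
    ext τ
    rw [Finset.mem_filter, Finset.mem_map]
    constructor
    · rintro ⟨h1, h2⟩
      refine ⟨τ.1, (mem_pc T τ.1).2 ?_, Prod.ext rfl h2.symm⟩
      rw [← h2]
      exact h1
    · rintro ⟨x, hx, rfl⟩
      exact ⟨(mem_pc T x).1 hx, rfl⟩
  rw [e2, Finset.prod_map, ← Finset.prod_coe_sort]
  rfl

lemma prod_split {M : Type} [CommMonoid M] (T : Finset Tm) (f : Tm → M) :
    ∏ τ ∈ T, f τ = (∏ τ ∈ T.filter (fun τ => τ.2 ≠ 3), f τ) * ∏ x : pc T, f ((x : Pl), 3) := by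
  rw [← Finset.prod_filter_mul_prod_filter_not T (fun τ => τ.2 = 3) f, mul_comm, prod_three]

/-- the weight of the terms of `T` with the fluxes `t` -/
def Wt (k : ℕ) (β : ℝ) (T : Finset Tm) (t : pc T → Fin N) (X : Cf N L) : ℝ :=
  ∏ τ ∈ T, Real.exp (-β * enf k (ext (pc T) t) X τ)

lemma Wt_cont (k : ℕ) (β : ℝ) (T : Finset Tm) (t : pc T → Fin N) :
    Continuous (Wt k β T t : Cf N L → ℝ) := by
  unfold Wt
  exact continuous_finsetProd _ fun τ _ => (continuous_const.mul (enf_cont k _ τ)).rexp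

lemma Wt_nonneg (k : ℕ) (β : ℝ) (T : Finset Tm) (t : pc T → Fin N) (X : Cf N L) :
    0 ≤ Wt k β T t X := Finset.prod_nonneg fun _ _ => (Real.exp_pos _).le

lemma Wt_le (k : ℕ) (β : ℝ) (hβ : 0 ≤ β) (T : Finset Tm) (t : pc T → Fin N) (X : Cf N L) :
    Wt k β T t X ≤ 1 := by
  refine Finset.prod_le_one (fun _ _ => (Real.exp_pos _).le) fun τ _ => ?_
  rw [Real.exp_le_one_iff]
  have := mul_nonneg hβ (enf_nonneg k (ext (pc T) t) X τ)
  linarith

/-- the charges as averages over the fluxes -/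
lemma avg_wch (k : ℕ) (β : ℝ) (T : Finset Tm) (s : Pl → ℕ) (X : Cf N L) :
    (∏ τ ∈ T.filter (fun τ => τ.2 ≠ 3), (Real.exp (-β * en1 k X τ) : ℂ)) *
      ∏ τ ∈ T.filter (fun τ => τ.2 = 3), wch N β (s τ.1) τ.1 X =
    ((N : ℂ) ^ (pc T).card)⁻¹ * ∑ t : pc T → Fin N,
      oz N (∑ x : pc T, ((s x : ℕ) : ℤ) * ((t x : ℕ) : ℤ)) * ((Wt k β T t X : ℝ) : ℂ) := by
  classical
  have e3 : ∀ t : pc T → Fin N, ((Wt k β T t X : ℝ) : ℂ) =
      (∏ τ ∈ T.filter (fun τ => τ.2 ≠ 3), (Real.exp (-β * en1 k X τ) : ℂ)) *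
        ∏ x : pc T, (Real.exp (-β * eP X (om N (t x)) x) : ℂ) := by
    intro t
    unfold Wt
    rw [Complex.ofReal_prod, prod_split]
    refine congrArg₂ (fun a b : ℂ => a * b) ?_ ?_
    · refine Finset.prod_congr rfl fun τ hτ => ?_
      have h3 := (Finset.mem_filter.1 hτ).2
      unfold enf
      rw [if_neg h3]
    · refine Finset.prod_congr rfl fun x _ => ?_
      unfold enf
      rw [if_pos rfl]
      have h4 : oz N (ext (pc T) t (x : Pl)) = om N (t x) := by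
        unfold PkgVJ.ext
        rw [dif_pos x.2, oz_nat]
      rw [h4]
  have e4 : ∀ t : pc T → Fin N, oz N (∑ x : pc T, ((s x : ℕ) : ℤ) * ((t x : ℕ) : ℤ)) *
      ((Wt k β T t X : ℝ) : ℂ) =
      (∏ τ ∈ T.filter (fun τ => τ.2 ≠ 3), (Real.exp (-β * en1 k X τ) : ℂ)) *
        ∏ x : pc T, (om N (t x) ^ (s x) * (Real.exp (-β * eP X (om N (t x)) x) : ℂ)) := by
    intro t
    rw [e3, oz_sum, Finset.prod_mul_distrib, mul_left_comm]
    congr 2
    refine Finset.prod_congr rfl fun x _ => ?_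
    rw [oz_mul_nat]
  rw [Finset.sum_congr rfl fun t _ => e4 t, ← Finset.mul_sum, mul_left_comm]
  congr 1
  have e5 : ∑ t : pc T → Fin N, ∏ x : pc T,
      (om N (t x) ^ (s x) * (Real.exp (-β * eP X (om N (t x)) x) : ℂ)) =
      ∏ x : pc T, ∑ m : Fin N, (om N m ^ (s x) * (Real.exp (-β * eP X (om N m) x) : ℂ)) := by
    rw [Finset.prod_univ_sum]
    rfl
  have e6 : ((N : ℂ) ^ (pc T).card)⁻¹ = ∏ _x : pc T, (N : ℂ)⁻¹ := by
    rw [Finset.prod_const, Finset.card_univ, Fintype.card_coe, inv_pow]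
  rw [e5, e6, ← Finset.prod_mul_distrib, prod_three]
  refine Finset.prod_congr rfl fun x _ => ?_
  unfold wch
  rw [div_eq_inv_mul]

/-- integrals with charges -/
lemma int_charge (hOA : S_OA) (hN : 2 ≤ N) (k : ℕ) (β : ℝ) (hβ : 0 ≤ β) (T : Finset Tm)
    (s : Pl → ℕ) (G : Cf N L → ℂ) (hG : Measurable G) (hb : ∀ X, ‖G X‖ ≤ 1)
    (hs : ∀ x, (x, (3 : Fin 4)) ∉ T → s x = 0)
    (hc : ∀ (x : Pl) (n : ℕ) (X : Cf N L), G (mvh (x + (0, 1)) n X) =
      om N n ^ s x * (star (om N n)) ^ s (x + (0, 1)) * G X) :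
    ∫ X, G X * ∏ τ ∈ T, (Real.exp (-β * en1 k X τ) : ℂ) ∂(pm N L) =
      ((N : ℂ) ^ (pc T).card)⁻¹ * ∑ t : pc T → Fin N,
        ∫ X, G X * oz N (∑ x : pc T, ((s x : ℕ) : ℤ) * ((t x : ℕ) : ℤ)) *
          ((Wt k β T t X : ℝ) : ℂ) ∂(pm N L) := by
  rw [(hOA N k L hN β hβ T s G hG ⟨1, hb⟩ hs hc).1, ← integral_finsetSum, ← integral_const_mul]
  · refine integral_congr_ae (Filter.Eventually.of_forall fun X => ?_)
    show G X * _ * _ = _
    rw [mul_assoc, avg_wch, mul_left_comm, Finset.mul_sum]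
    simp only [mul_assoc]
  · intro t _
    refine Integrable.of_bound ?_ 1 (Filter.Eventually.of_forall fun X => ?_)
    · exact ((hG.mul_const _).mul
        (Complex.measurable_ofReal.comp (Wt_cont k β T t).measurable)).aestronglyMeasurable
    · rw [norm_mul, norm_mul, norm_oz, mul_one, Complex.norm_real, Real.norm_eq_abs,
        abs_of_nonneg (Wt_nonneg k β T t X)]
      exact mul_le_one₀ (hb X) (Wt_nonneg k β T t X) (Wt_le k β hβ T t X)

/-- integrals in the joint system -/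
lemma int_sysJ (h2 : S_F2) (hN : 2 ≤ N) (k : ℕ) (β : ℝ) (hβ : 0 ≤ β) (T : Finset Tm)
    (A : Finset Pl) (hA : ∀ x ∈ A, (x, (3 : Fin 4)) ∈ T) (φ : Cf N L → ℤ → ℝ)
    (hφ : ∀ n, Measurable fun X => φ X n) (hb : ∀ X n, |φ X n| ≤ 1) :
    ∫ ω, φ (lk ω) (∑ x ∈ A, fx ω x) * ∏ τ ∈ T, (sysJ N L k β hβ).w τ ω
        ∂(Measure.infinitePi fun _ : Ix L => mj N) =
      ((N : ℝ) ^ (pc T).card)⁻¹ * ∑ t : pc T → Fin N,
        ∫ X, φ X (∑ x ∈ A, PkgVJ.ext (pc T) t x) * Wt k β T t X ∂(pm N L) := by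
  rw [← int_joint h2 (by omega) (pc T)
    (fun X t => φ X (∑ x ∈ A, PkgVJ.ext (pc T) t x) * Wt k β T t X)]
  · refine integral_congr_ae (Filter.Eventually.of_forall fun ω => ?_)
    have hx : ∀ x ∈ pc T, fx ω x = PkgVJ.ext (pc T) (PkgVJ.rs (pc T) ω) x := by
      intro x hx
      unfold PkgVJ.ext PkgVJ.rs fx
      rw [dif_pos hx]
    have e1 : ∑ x ∈ A, fx ω x = ∑ x ∈ A, PkgVJ.ext (pc T) (PkgVJ.rs (pc T) ω) x :=
      Finset.sum_congr rfl fun x h => hx x ((mem_pc T x).2 (hA x h))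
    have e2 : ∏ τ ∈ T, (sysJ N L k β hβ).w τ ω = Wt k β T (PkgVJ.rs (pc T) ω) (lk ω) := by
      unfold Wt
      refine Finset.prod_congr rfl fun τ hτ => ?_
      have e3 : enf k (fx ω) (lk ω) τ = enf k (PkgVJ.ext (pc T) (PkgVJ.rs (pc T) ω)) (lk ω) τ := by
        refine enf_loc k _ _ τ _ (lk ω) (fun _ _ => rfl) (fun h3 => hx τ.1 ((mem_pc T τ.1).2 ?_))
        rw [← h3]
        exact hτ
      rw [← e3]
      rfl
    simp only
    rw [e1, e2]
  · intro t
    exact (hφ _).mul (Wt_cont k β T t).measurable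
  · refine ⟨1, fun X t => ?_⟩
    rw [abs_mul, abs_of_nonneg (Wt_nonneg k β T t X)]
    exact mul_le_one₀ (hb _ _) (Wt_nonneg k β T t X) (Wt_le k β hβ T t X)

end PkgWE

open PkgWE in
theorem pWE (h2 : S_F2) (hOA : S_OA) : S_WE := by
  classical
  intro N k L _ hN β hβ R A G hG hb hA hc
  set T := tin R with hT
  set c : ℝ := ((N : ℝ) ^ (pc T).card)⁻¹ with hcdef
  have hcC : ((N : ℂ) ^ (pc T).card)⁻¹ = ((c : ℝ) : ℂ) := by
    rw [hcdef]; push_cast; rfl
  -- the total flux in `A`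
  have hfl : ∀ t : pc T → Fin N, (∑ x : pc T, (((if (x : Pl) ∈ A then 1 else 0 : ℕ) : ℕ) : ℤ) *
      ((t x : ℕ) : ℤ)) = ∑ x ∈ A, PkgVJ.ext (pc T) t x := by
    intro t
    have h1 : ∑ x ∈ A, PkgVJ.ext (pc T) t x = ∑ x ∈ pc T, if x ∈ A then PkgVJ.ext (pc T) t x else 0 := by
      rw [← Finset.sum_filter]
      refine Finset.sum_congr ?_ fun _ _ => rfl
      ext x
      rw [Finset.mem_filter]
      exact ⟨fun h => ⟨(mem_pc T x).2 (hA x h), h⟩, fun h => h.2⟩
    rw [h1, ← Finset.sum_coe_sort (pc T) (fun x => if x ∈ A then PkgVJ.ext (pc T) t x else 0)]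
    refine Finset.sum_congr rfl fun x _ => ?_
    unfold PkgVJ.ext
    rw [dif_pos x.2]
    split_ifs
    · simp
    · simp
  -- numerator
  have hnum := int_charge hOA hN k β hβ T (fun x => if x ∈ A then 1 else 0) G hG hb
    (fun x hx => if_neg fun h => hx (hA x h)) hc
  simp only [hfl] at hnum
  rw [hcC] at hnum
  -- denominator
  have hden := int_charge hOA hN k β hβ T (fun _ => 0) (fun _ : Cf N L => (1 : ℂ))
    measurable_const (fun _ => by simp) (fun _ _ => rfl) (fun x n X => by simp)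
  have hden2 : ((∫ X : Cf N L, Real.exp (-β * wact k R X) ∂(pm N L) : ℝ) : ℂ) =
      ((c * ∑ t : pc T → Fin N, ∫ X, Wt k β T t X ∂(pm N L) : ℝ) : ℂ) := by
    rw [hcC] at hden
    rw [← integral_complex_ofReal]
    have e1 : ∀ X : Cf N L, ((Real.exp (-β * wact k R X) : ℝ) : ℂ) =
        1 * ∏ τ ∈ T, (Real.exp (-β * en1 k X τ) : ℂ) := by
      intro X
      rw [exp_wact, Complex.ofReal_prod, one_mul]
    simp only [e1]
    rw [hden]
    push_cast
    congr 1
    refine Finset.sum_congr rfl fun t _ => ?_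
    rw [← integral_complex_ofReal]
    refine integral_congr_ae (Filter.Eventually.of_forall fun X => ?_)
    simp [oz_zero]
  have hdenJ : ∫ ω, ∏ τ ∈ T, (sysJ N L k β hβ).w τ ω ∂(Measure.infinitePi fun _ : Ix L => mj N) =
      c * ∑ t : pc T → Fin N, ∫ X, Wt k β T t X ∂(pm N L) := by
    have := int_sysJ h2 hN k β hβ T A hA (fun (_ : Cf N L) _ => (1 : ℝ)) (fun _ => measurable_const)
      (fun _ _ => by simp)
    simpa only [one_mul] using this
  have hnumre := int_sysJ h2 hN k β hβ T A hA (fun X n => (G X * oz N n).re)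
    (fun n => Complex.measurable_re.comp (hG.mul_const _))
    (fun X n => (Complex.abs_re_le_norm _).trans (by rw [norm_mul, norm_oz, mul_one]; exact hb X))
  have hnumim := int_sysJ h2 hN k β hβ T A hA (fun X n => (G X * oz N n).im)
    (fun n => Complex.measurable_im.comp (hG.mul_const _))
    (fun X n => (Complex.abs_im_le_norm _).trans (by rw [norm_mul, norm_oz, mul_one]; exact hb X))
  have hwx : ∀ X : Cf N L, G X * ((Real.exp (-β * wact k R X) : ℝ) : ℂ) =
      G X * ∏ τ ∈ T, (Real.exp (-β * en1 k X τ) : ℂ) := by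
    intro X
    rw [exp_wact, Complex.ofReal_prod]
  unfold wexC Sys.ex
  simp only [hwx]
  rw [hdenJ, hnumre, hnumim]
  change (∫ X, G X * ∏ τ ∈ T, (Real.exp (-β * en1 k X τ) : ℂ) ∂(pm N L)) /
    ((∫ X : Cf N L, Real.exp (-β * wact k R X) ∂(pm N L) : ℝ) : ℂ) = _
  rw [hnum, hden2]
  rw [Complex.ofReal_div, Complex.ofReal_div, div_mul_eq_mul_div, ← add_div]
  congr 1
  rw [Complex.ofReal_mul, Complex.ofReal_mul, mul_assoc, ← mul_add]
  congr 1
  rw [Complex.ofReal_sum, Complex.ofReal_sum, Finset.sum_mul, ← Finset.sum_add_distrib]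
  refine Finset.sum_congr rfl fun t _ => ?_
  have hint : Integrable (fun X : Cf N L => G X * oz N (∑ x ∈ A, PkgVJ.ext (pc T) t x) *
      ((Wt k β T t X : ℝ) : ℂ)) (pm N L) := by
    refine Integrable.of_bound ?_ 1 (Filter.Eventually.of_forall fun X => ?_)
    · exact ((hG.mul_const _).mul
        (Complex.measurable_ofReal.comp (Wt_cont k β T t).measurable)).aestronglyMeasurable
    · rw [norm_mul, norm_mul, norm_oz, mul_one, Complex.norm_real, Real.norm_eq_abs,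
        abs_of_nonneg (Wt_nonneg k β T t X)]
      exact mul_le_one₀ (hb X) (Wt_nonneg k β T t X) (Wt_le k β hβ T t X)
  have h := integral_re_add_im (𝕜 := ℂ) hint
  rw [← h]
  congr 1
  · congr 1
    refine integral_congr_ae (Filter.Eventually.of_forall fun X => ?_)
    simp
  · congr 2
    refine integral_congr_ae (Filter.Eventually.of_forall fun X => ?_)
    simp

end T2H01.SE
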