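import Pool.Agent.T2H01.SE.Stm3
import Pool.Agent.T2H01.SE.VJ
import Pool.Agent.T2H02.TT.AR

/-! Package WF: Wilson loops. -/

set_option autoImplicit false
set_option linter.unusedSectionVars false

noncomputable section

open MeasureTheory Matrix
open scoped Matrix.Norms.Frobenius

namespace T2H01.SE

open T2H02.TT

namespace PkgWF

variable {N L : ℕ} [NeZero L]

lemma mem_Nb (r : ℕ) (a b : Pl) : b ∈ Nb r a ↔ |b.1 - a.1| ≤ r ∧ |b.2 - a.2| ≤ r := by
  unfold Nb
  rw [Finset.mem_product, Finset.mem_Icc, Finset.mem_Icc, abs_le, abs_le]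
  constructor
  · rintro ⟨⟨h1, h2⟩, h3, h4⟩
    exact ⟨⟨by linarith, by linarith⟩, by linarith, by linarith⟩
  · rintro ⟨⟨h1, h2⟩, h3, h4⟩
    exact ⟨⟨by linarith, by linarith⟩, by linarith, by linarith⟩

/-! ### the centres -/

/-- centres of blocks at distance `≥ d = 2 s + 1` in a rectangle with sides `a`, `b` -/
lemma centres (s a b : ℕ) (x : Pl) (ha : 9 * (2 * s + 1) ≤ a) (hb : 9 * (2 * s + 1) ≤ b) :
    ∃ I : Finset Pl, a * b ≤ (3 * (2 * s + 1)) ^ 2 * I.card ∧
      (∀ c ∈ I, (x.1 + (2 * s + 1) ≤ c.1 ∧ c.1 + 2 * (2 * s + 1) ≤ x.1 + a) ∧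
        (x.2 + (2 * s + 1) ≤ c.2 ∧ c.2 + 2 * (2 * s + 1) ≤ x.2 + b)) ∧
      (∀ c ∈ I, ∀ c' ∈ I, c ≠ c' → ¬ near (2 * s) c c') := by
  obtain ⟨d, hd⟩ : ∃ d : ℕ, d = 2 * s + 1 := ⟨_, rfl⟩
  rw [← hd] at ha hb ⊢
  have hd0 : 0 < d := by omega
  have hdz : (2 * (s : ℤ) + 1) = d := by rw [hd]; push_cast; ring
  have hdz' : (0 : ℤ) < d := by exact_mod_cast hd0
  obtain ⟨f, hf⟩ : ∃ f : ℕ × ℕ → Pl, f = fun s : ℕ × ℕ =>
    (x.1 + (d : ℤ) * (s.1 + 1), x.2 + (d : ℤ) * (s.2 + 1)) := ⟨_, rfl⟩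
  have hinj : Function.Injective f := by
    intro u v h
    rw [hf] at h
    simp only [Prod.mk.injEq, add_right_inj, mul_eq_mul_left_iff, add_left_inj, Nat.cast_inj] at h
    ext
    · rcases h.1 with h | h
      · exact h
      · omega
    · rcases h.2 with h | h
      · exact h
      · omega
  have hside : ∀ (m i : ℕ), i ∈ Finset.range (m / d - 2) → (d : ℤ) * ((i : ℤ) + 1) + 2 * d ≤ m := by
    intro m i hi
    rw [Finset.mem_range] at hi
    have h1 : i + 3 ≤ m / d := by omega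
    have h2 : d * (i + 3) ≤ m := (Nat.mul_le_mul_left d h1).trans (Nat.mul_div_le m d)
    have h3 : (d : ℤ) * ((i : ℤ) + 3) ≤ m := by exact_mod_cast h2
    linarith
  have hcount : ∀ m : ℕ, 9 * d ≤ m → m ≤ 3 * d * (m / d - 2) := by
    intro m hm
    have h1 : 9 ≤ m / d := (Nat.le_div_iff_mul_le hd0).2 hm
    have h2 : m < d * (m / d + 1) := Nat.lt_mul_div_succ m hd0
    obtain ⟨q, hq⟩ : ∃ q, m / d = q + 2 := ⟨m / d - 2, by omega⟩
    rw [hq] at h1 h2 ⊢
    have h3 : q + 2 - 2 = q := by omega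
    rw [h3]
    have h4 : d * (q + 2 + 1) ≤ 3 * d * q := by
      have h5 : q + 3 ≤ 3 * q := by omega
      calc d * (q + 2 + 1) ≤ d * (3 * q) := Nat.mul_le_mul_left d h5
        _ = 3 * d * q := by ring
    exact h2.le.trans h4
  refine ⟨(Finset.range (a / d - 2) ×ˢ Finset.range (b / d - 2)).image f, ?_, ?_, ?_⟩
  · rw [Finset.card_image_of_injective _ hinj, Finset.card_product, Finset.card_range,
      Finset.card_range]
    calc a * b ≤ (3 * d * (a / d - 2)) * (3 * d * (b / d - 2)) :=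
          Nat.mul_le_mul (hcount a ha) (hcount b hb)
      _ = _ := by ring
  · intro c hc
    rw [Finset.mem_image] at hc
    obtain ⟨⟨i, j⟩, hij, rfl⟩ := hc
    rw [Finset.mem_product] at hij
    have h1 := hside a i hij.1
    have h2 := hside b j hij.2
    have h3 : (0 : ℤ) ≤ (d : ℤ) * i := by positivity
    have h4 : (0 : ℤ) ≤ (d : ℤ) * j := by positivity
    rw [hf, hdz]
    simp only
    refine ⟨⟨?_, ?_⟩, ?_, ?_⟩ <;> linarith
  · intro c hc c' hc' hne hnear
    rw [Finset.mem_image] at hc hc'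
    obtain ⟨⟨i, j⟩, -, rfl⟩ := hc
    obtain ⟨⟨i', j'⟩, -, rfl⟩ := hc'
    apply hne
    unfold near at hnear
    rw [hf] at hnear ⊢
    simp only at hnear ⊢
    have key : ∀ (y : ℤ) (u v : ℕ), |(y + (d : ℤ) * (u + 1)) - (y + (d : ℤ) * (v + 1))| ≤ 2 * s →
        u = v := by
      intro y u v h
      have h1 : (y + (d : ℤ) * (u + 1)) - (y + (d : ℤ) * (v + 1)) = d * ((u : ℤ) - v) := by ring
      rw [h1, abs_mul, abs_of_pos hdz'] at h
      by_contra hne
      have h2 : 1 ≤ |(u : ℤ) - v| := Int.one_le_abs (by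
        intro h3
        apply hne
        have : (u : ℤ) = v := by linarith
        exact_mod_cast this)
      have h3 : (d : ℤ) * 1 ≤ d * |(u : ℤ) - v| := mul_le_mul_of_nonneg_left h2 hdz'.le
      linarith
    rw [key _ _ _ hnear.1, key _ _ _ hnear.2]

/-! ### the loop depends only on its links -/

lemma lin_congr_zero (X Y : Cf N L) (n : ℕ) : ∀ p : Pt L,
    (∀ k : ℕ, k < n → X ((p.1 + ((k : ℤ), 0), p.2), 0) = Y ((p.1 + ((k : ℤ), 0), p.2), 0)) →
      lin X 0 n p = lin Y 0 n p := by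
  induction n with
  | zero => intro p _; rfl
  | succ n ih =>
    intro p h
    unfold lin
    have h0 := h 0 (Nat.succ_pos n)
    simp only [Nat.cast_zero, h00, add_zero] at h0
    rw [show (p, (0 : Fin 4)) = ((p.1, p.2), 0) from rfl, h0, ih]
    intro k hk
    have h1 := h (k + 1) (by omega)
    have h2 : (nx p 0).1 + ((k : ℤ), (0 : ℤ)) = p.1 + (((k + 1 : ℕ) : ℤ), 0) := by
      rw [PkgAR.nx_zero, add_assoc]
      congr 1
      rw [Prod.mk_add_mk]
      push_cast
      rw [add_comm]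
    have h3 : (nx p 0).2 = p.2 := by rw [PkgAR.nx_zero]
    rw [h2, h3]
    exact h1

lemma lin_congr_one (X Y : Cf N L) (n : ℕ) : ∀ p : Pt L,
    (∀ k : ℕ, k < n → X ((p.1 + (0, (k : ℤ)), p.2), 1) = Y ((p.1 + (0, (k : ℤ)), p.2), 1)) →
      lin X 1 n p = lin Y 1 n p := by
  induction n with
  | zero => intro p _; rfl
  | succ n ih =>
    intro p h
    unfold lin
    have h0 := h 0 (Nat.succ_pos n)
    simp only [Nat.cast_zero, h00, add_zero] at h0
    rw [show (p, (1 : Fin 4)) = ((p.1, p.2), 1) from rfl, h0, ih]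
    intro k hk
    have h1 := h (k + 1) (by omega)
    have hn : nx p 1 = (p.1 + (0, 1), p.2) := by simp [nx, pe]
    have h2 : (nx p 1).1 + ((0 : ℤ), (k : ℤ)) = p.1 + (0, ((k + 1 : ℕ) : ℤ)) := by
      rw [hn, add_assoc]
      congr 1
      rw [Prod.mk_add_mk]
      push_cast
      rw [add_comm (1 : ℤ)]
    have h3 : (nx p 1).2 = p.2 := by rw [hn]
    rw [h2, h3]
    exact h1

/-- the loop does not depend on the links which touch a set inside the rectangle -/
lemma wlp_congr (x : Pl) (y : Tor L) (a b : ℕ) (B : Finset Pl)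
    (hB : ∀ v ∈ B, (x.1 < v.1 ∧ v.1 < x.1 + a) ∧ (x.2 < v.2 ∧ v.2 < x.2 + b)) (X Y : Cf N L)
    (h : ∀ l, l ∉ Frl L B → X l = Y l) : wlp X x y a b = wlp Y x y a b := by
  have h0 : ∀ (v : Pl) (y : Tor L), (v.2 = x.2 ∨ v.2 = x.2 + b) → X ((v, y), 0) = Y ((v, y), 0) := by
    intro v y hv
    apply h
    rw [mem_Frl]
    rintro ⟨u, hu, huB⟩
    have h1 := hB u huB
    rw [mem_st] at hu
    have h2 : u.2 = v.2 := by
      rcases hu with rfl | rfl
      · rfl
      · simp [pe]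
    omega
  have h1 : ∀ (v : Pl) (y : Tor L), (v.1 = x.1 ∨ v.1 = x.1 + a) → X ((v, y), 1) = Y ((v, y), 1) := by
    intro v y hv
    apply h
    rw [mem_Frl]
    rintro ⟨u, hu, huB⟩
    have h1 := hB u huB
    rw [mem_st] at hu
    have h2 : u.1 = v.1 := by
      rcases hu with rfl | rfl
      · rfl
      · simp [pe]
    omega
  unfold wlp loo
  rw [lin_congr_one X Y b (x, y) fun k _ => h1 _ _ (by left; simp),
    lin_congr_zero X Y a (x + (0, (b : ℤ)), y) fun k _ => h0 _ _ (by right; simp),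
    lin_congr_one X Y b (x + ((a : ℤ), 0), y) fun k _ => h1 _ _ (by right; simp),
    lin_congr_zero X Y a (x, y) fun k _ => h0 _ _ (by left; simp)]

/-! ### the last estimate -/

lemma last_bound {z S ρ β κ : ℝ} {p c D : ℕ} (hρ : 0 < ρ)
    (hκ : κ = Real.exp (-β * (S + ρ / 2))) (hD : p ≤ D * c) (hβ : 4 * D / ρ ≤ β)
    (h : z ^ 2 ≤ Real.exp (-κ * c)) : z ≤ Real.exp (-(Real.exp (-β * (S + ρ)) * p)) := by
  have h1 : z ^ 2 ≤ Real.exp (-κ * c / 2) ^ 2 := by
    rw [← Real.exp_nat_mul]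
    push_cast
    rw [show 2 * (-κ * c / 2) = -κ * c by ring]
    exact h
  have h2 : z ≤ Real.exp (-κ * c / 2) :=
    (abs_le_of_sq_le_sq' h1 (Real.exp_pos _).le).2
  refine h2.trans ?_
  rw [Real.exp_le_exp]
  have h3 : κ = Real.exp (-β * (S + ρ)) * Real.exp (β * ρ / 2) := by
    rw [hκ, ← Real.exp_add]
    congr 1
    ring
  have h4 : 2 * (D : ℝ) ≤ Real.exp (β * ρ / 2) := by
    have h5 : β * ρ / 2 + 1 ≤ Real.exp (β * ρ / 2) := Real.add_one_le_exp _
    have h6 : 4 * (D : ℝ) ≤ β * ρ := by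
      rwa [div_le_iff₀ hρ] at hβ
    linarith
  have h7 : (p : ℝ) ≤ D * c := by exact_mod_cast hD
  have h8 : (0 : ℝ) ≤ c := Nat.cast_nonneg c
  have h9 : 2 * (p : ℝ) ≤ Real.exp (β * ρ / 2) * c := by
    calc 2 * (p : ℝ) ≤ 2 * (D : ℝ) * c := by linarith
      _ ≤ _ := mul_le_mul_of_nonneg_right h4 h8
  have h10 : 0 < Real.exp (-β * (S + ρ)) := Real.exp_pos _
  have h11 : Real.exp (-β * (S + ρ)) * (2 * p) ≤
      Real.exp (-β * (S + ρ)) * (Real.exp (β * ρ / 2) * c) := mul_le_mul_of_nonneg_left h9 h10.le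
  rw [h3]
  linarith

/-- sites of a rectangle -/
lemma mem_rect (R : Finset Pl) (x : Pl) (a b : ℕ)
    (hR : ∀ i j : ℕ, i ≤ a → j ≤ b → x + ((i : ℤ), (j : ℤ)) ∈ R) (v : Pl)
    (h1 : x.1 ≤ v.1) (h2 : v.1 ≤ x.1 + a) (h3 : x.2 ≤ v.2) (h4 : v.2 ≤ x.2 + b) : v ∈ R := by
  obtain ⟨i, hi⟩ := Int.eq_ofNat_of_zero_le (show 0 ≤ v.1 - x.1 by omega)
  obtain ⟨j, hj⟩ := Int.eq_ofNat_of_zero_le (show 0 ≤ v.2 - x.2 by omega)
  have := hR i j (by omega) (by omega)
  convert this using 1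
  ext
  · simp only [Prod.fst_add]
    omega
  · simp only [Prod.snd_add]
    omega

end PkgWF

open PkgWF in
/-- package WF -/
theorem pWF (hWE : S_WE) (hWK : S_WK) (hWB : S_WB) : S_WF := by
  intro N k L _ hN hk P Q hPQ ρ hρ
  obtain ⟨K, s, β₁, hβ₁, hKs, hB⟩ := hWB N k L hN hk P Q hPQ (ρ / 2) (by positivity)
  obtain ⟨D₀, hD₀⟩ : ∃ D₀ : ℕ, D₀ = (3 * (2 * s + 1)) ^ 2 := ⟨_, rfl⟩
  refine ⟨9 * (2 * s + 1), max β₁ (4 * D₀ / ρ), hβ₁.trans (le_max_left _ _), ?_⟩
  intro β hβ R x y a b ha hb hR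
  have hββ₁ : β₁ ≤ β := (le_max_left _ _).trans hβ
  have hβD : 4 * D₀ / ρ ≤ β := (le_max_right _ _).trans hβ
  have hβ0 : 0 ≤ β := by linarith
  have : IsProbabilityMeasure (mj N) := PkgVJ.mj_prob (by omega)
  obtain ⟨I, hIcard, hIin, hInear⟩ := centres s a b x ha hb
  -- the sets
  set D : Finset Pl := Finset.Icc (x.1 + 1) (x.1 + a - 1) ×ˢ Finset.Icc (x.2 + 1) (x.2 + b - 1)
    with hD
  set A : Finset Pl := Finset.Ico x.1 (x.1 + a) ×ˢ Finset.Ico x.2 (x.2 + b) with hA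
  have hmA : ∀ v : Pl, v ∈ A ↔ (x.1 ≤ v.1 ∧ v.1 < x.1 + a) ∧ (x.2 ≤ v.2 ∧ v.2 < x.2 + b) := by
    intro v
    rw [hA, Finset.mem_product, Finset.mem_Ico, Finset.mem_Ico]
  have hmD : ∀ v : Pl, v ∈ D ↔ (x.1 + 1 ≤ v.1 ∧ v.1 ≤ x.1 + a - 1) ∧
      (x.2 + 1 ≤ v.2 ∧ v.2 ≤ x.2 + b - 1) := by
    intro v
    rw [hD, Finset.mem_product, Finset.mem_Icc, Finset.mem_Icc]
  have hKs' : (K : ℤ) + 2 ≤ s := by exact_mod_cast hKs
  -- WE
  have hwe := hWE N k L hN β hβ0 R A (fun X => wlp X x y a b)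
    (PkgAR.wlp_cont x y a b).measurable (fun X => PkgAR.wlp_le X x y a b)
    (by
      intro v hv
      rw [hmA] at hv
      rw [mem_tin]
      intro c hc
      rcases (mem_cor3 _ _).1 hc with rfl | rfl | rfl | rfl
      · exact mem_rect R x a b hR _ (by omega) (by omega) (by omega) (by omega)
      · exact mem_rect R x a b hR _ (by simp only [Prod.fst_add]; omega)
          (by simp only [Prod.fst_add]; omega) (by simp only [Prod.snd_add]; omega)
          (by simp only [Prod.snd_add]; omega)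
      · exact mem_rect R x a b hR _ (by simp only [Prod.fst_add]; omega)
          (by simp only [Prod.fst_add]; omega) (by simp only [Prod.snd_add]; omega)
          (by simp only [Prod.snd_add]; omega)
      · exact mem_rect R x a b hR _ (by simp only [Prod.fst_add]; omega)
          (by simp only [Prod.fst_add]; omega) (by simp only [Prod.snd_add]; omega)
          (by simp only [Prod.snd_add]; omega))
    (by
      intro v n X
      rw [PkgAR.wlp_mvh]
      unfold PkgAR.chg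
      simp only [hmA])
  -- WK
  have hcns := (hWK (Ix L) Tm (Vr N) (sysJ N L k β hβ0) (mj N)).2 D (tin R) (by
    intro τ hτ
    have h1 : ∃ v ∈ cor τ, v ∈ D := (mem_tml D τ).1 hτ
    obtain ⟨v, hv, hvD⟩ := h1
    rw [hmD] at hvD
    rw [mem_tin]
    intro w hw
    have h2 := diam_cor τ v hv w hw
    unfold near at h2
    rw [abs_le, abs_le] at h2
    exact mem_rect R x a b hR w (by omega) (by omega) (by omega) (by omega))
  -- WB
  have hwb := hB β hβ0 hββ₁ D _ hcns I A (fun ω => wlp (lk ω) x y a b)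
    ((PkgAR.wlp_cont x y a b).measurable.comp lk_meas) (fun ω => PkgAR.wlp_le _ x y a b)
    (by
      intro c hc v hv
      have h1 := hIin c hc
      rw [mem_Nb, abs_le, abs_le] at hv
      rw [hmD]
      omega)
    hInear
    (by
      intro c hc v hv
      have h1 := hIin c hc
      rw [mem_cl] at hv
      obtain ⟨u, hu, huN⟩ := hv
      rw [mem_Nb, abs_le, abs_le] at huN
      rw [hmA]
      rcases (mem_cor3 _ _).1 hu with rfl | rfl | rfl | rfl
      · omega
      · simp only [Prod.fst_add, Prod.snd_add] at huN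
        omega
      · simp only [Prod.fst_add, Prod.snd_add] at huN
        omega
      · simp only [Prod.fst_add, Prod.snd_add] at huN
        omega)
    (by
      intro c hc ω ω' hωω'
      have h1 := hIin c hc
      refine wlp_congr x y a b (Nb K c) (fun v hv => ?_) _ _ fun l hl => ?_
      · rw [mem_Nb, abs_le, abs_le] at hv
        omega
      · have h2 : (Sum.inl l : Ix L) ∉ FrJ L (Nb K c) := by
          rw [mem_FrJ]
          intro h3
          exact hl ((mem_Frl _ _).2 h3)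
        unfold lk
        rw [hωω' (Sum.inl l) h2])
  -- conclusion
  have hz : ‖wexC N L k β R (fun X => wlp X x y a b)‖ ^ 2 ≤
      Real.exp (-Real.exp (-β * (SS L k P Q + ρ / 2)) * I.card) := by
    rw [hwe]
    refine le_trans (le_of_eq ?_) hwb
    rw [← Complex.normSq_eq_norm_sq, Complex.normSq_add_mul_I]
  have hfin := last_bound (p := a * b) (c := I.card) (D := D₀) hρ rfl
    (by rw [hD₀]; exact hIcard) hβD hz
  refine hfin.trans (le_of_eq ?_)
  push_cast
  rfl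

end T2H01.SE
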