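import Pool.Agent.T2H01.SE.Stm2
import Pool.Agent.T2H01.SE.VH

/-!
# Package WH : good rings are likely (helper13)
-/

set_option autoImplicit false
set_option linter.unusedSectionVars false
set_option linter.unusedVariables false

noncomputable section

open MeasureTheory Matrix
open scoped Matrix.Norms.Frobenius

namespace T2H01.SE.PkgWH

open T2H02.TT T2H02.TT.PkgH

lemma mem_Nb (r : ℕ) (c a : Pl) : a ∈ Nb r c ↔
    (c.1 - r ≤ a.1 ∧ a.1 ≤ c.1 + r) ∧ (c.2 - r ≤ a.2 ∧ a.2 ≤ c.2 + r) := by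
  rw [Nb, Finset.mem_product, Finset.mem_Icc, Finset.mem_Icc]

lemma card_Nb (r : ℕ) (c : Pl) : (Nb r c).card = (2 * r + 1) ^ 2 := by
  rw [Nb, Finset.card_product, Int.card_Icc, Int.card_Icc, sq]
  congr 1 <;> omega

/-- squares -/
lemma clamp (u c : ℤ) (r s : ℕ) (h1 : c - (r + s : ℕ) ≤ u) (h2 : u ≤ c + (r + s : ℕ)) :
    ∃ v : ℤ, (c - r ≤ v ∧ v ≤ c + r) ∧ |u - v| ≤ s := by
  push_cast at h1 h2
  refine ⟨max (c - r) (min u (c + r)), ⟨le_max_left _ _, ?_⟩, ?_⟩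
  · refine max_le (by omega) (min_le_right _ _)
  · rw [abs_le]
    constructor <;> omega

lemma bal_Nb (r s : ℕ) (c : Pl) : bal s (Nb r c) = Nb (r + s) c := by
  ext a
  rw [mem_bal, mem_Nb]
  constructor
  · rintro ⟨b, hb, h1, h2⟩
    obtain ⟨⟨h3, h4⟩, h5, h6⟩ := (mem_Nb r c b).1 hb
    rw [abs_le] at h1 h2
    push_cast
    refine ⟨⟨?_, ?_⟩, ?_, ?_⟩ <;> linarith [h1.1, h1.2, h2.1, h2.2]
  · rintro ⟨⟨h1, h2⟩, h3, h4⟩
    obtain ⟨v, hv, hv'⟩ := clamp a.1 c.1 r s h1 h2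
    obtain ⟨w, hw, hw'⟩ := clamp a.2 c.2 r s h3 h4
    exact ⟨(v, w), (mem_Nb _ _ _).2 ⟨hv, hw⟩, hv', hw'⟩

lemma pls_Nb (r : ℕ) (c : Pl) : pls (Nb r c) = Nb (r + 1) c := bal_Nb r 1 c

theorem main (hH : S_H) (h5 : S_F5) : S_WH := by
  intro N k L _ hN hk K e he
  obtain ⟨C, θ, D, hC, hθ0, hθ1, hH'⟩ := hH N k L hN hk
  have hC0 : 0 < C := by linarith
  obtain ⟨R, hR⟩ := PkgVH.exists_R hθ0 hθ1 (le_max_left 1 (C * (2 / e))) (2 * K + 5)
  obtain ⟨n₀, hn₀⟩ : ∃ n₀, n₀ = D * (2 * K + 5 + 2 * R) ^ 2 := ⟨_, rfl⟩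
  obtain ⟨t, ht⟩ : ∃ t, t = e / (2 * C) := ⟨_, rfl⟩
  have ht0 : 0 < t := by rw [ht]; positivity
  obtain ⟨b₀, hb₀1, hb₀⟩ := PkgVH.exists_beta (4 * (R + 1) * (C / t) ^ n₀) (by positivity) n₀
  refine ⟨R + 2, max 1 (b₀ / t), le_max_left _ _, ?_⟩
  intro β hβ hββ c η
  have hβ1 : 1 ≤ β := (le_max_left _ _).trans hββ
  have hβt : b₀ ≤ β * t := by
    have := (le_max_right _ _).trans hββ
    rwa [div_le_iff₀ ht0] at this
  obtain ⟨Λ, hΛ⟩ : ∃ Λ, Λ = Nb (K + (R + 2)) c := ⟨_, rfl⟩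
  obtain ⟨B, hB⟩ : ∃ B, B = Nb (K + 1) c := ⟨_, rfl⟩
  have hbal : bal (R + 1) B = Λ := by
    rw [hB, bal_Nb, hΛ]
    congr 1
    omega
  have hcard : Λ.card = (2 * K + 5 + 2 * R) ^ 2 := by
    rw [hΛ, card_Nb]
    congr 1
    omega
  have hBΛ : B ∩ Λ = B := by
    rw [Finset.inter_eq_left, ← hbal]
    intro a ha
    exact (mem_bal _ _ _).2 ⟨a, ha, by simp; omega, by simp; omega⟩
  rw [← hΛ]
  have hkey := hH' β hβ hβ1 Λ B R 0 t le_rfl ht0.le η fun τ h => by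
    exfalso
    have h1 := h τ.1 (fst_mem_cor τ)
    rw [hbal] at h1
    exact h1.2 h1.1
  rw [hbal, hBΛ] at hkey
  have hmeas1 : Measurable fun X : Cf N L => ind (e < rE k X (Nb K c)) := by
    unfold ind
    exact Measurable.ite (measurableSet_lt measurable_const (en_meas k hN _))
      measurable_const measurable_const
  have hmono := ((h5 (Lk L) Tm (SU N) (sysS N L k β hN hβ) (hm N) Λ).2.2.1
    (fun X => ind (e < rE k X (Nb K c)))
    (fun X => ind (θ ^ R * C * Λ.card + C * Λ.card * 0 + C * t ≤ ∑ τ ∈ tml B, en k X τ))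
    hmeas1 ⟨1, fun _ => ind_abs _⟩
    (ind_meas _ _ measurable_const (en_meas k hN _)) ⟨1, fun _ => ind_abs _⟩ η).1
  refine (hmono fun ξ => ?_).trans (hkey.trans ?_)
  · obtain ⟨X, hX⟩ : ∃ X : Cf N L, X = glue ((sysS N L k β hN hβ).Fr Λ) ξ η := ⟨_, rfl⟩
    rw [← hX]
    by_cases hall : e < rE k X (Nb K c)
    · rw [ind_true hall, ind_true]
      have h1 : rE k X (Nb K c) ≤ ∑ τ ∈ tml B, en k X τ := by
        unfold rE
        refine Finset.sum_le_sum_of_subset_of_nonneg ?_ fun τ _ _ => en_nonneg k X τ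
        intro τ hτ
        have := (Finset.mem_filter.1 hτ).1
        rwa [pls_Nb, ← hB] at this
      have h2 : θ ^ R * C * (Λ.card : ℝ) ≤ e / 2 := by
        rw [hcard]
        have h3 : θ ^ R * (C * (2 / e)) * (((2 * K + 5 + 2 * R : ℕ) : ℝ)) ^ 2 ≤ 1 := by
          refine le_trans ?_ hR
          gcongr
          exact le_max_right _ _
        have h4 : θ ^ R * C * (((2 * K + 5 + 2 * R : ℕ) : ℝ)) ^ 2 =
            (θ ^ R * (C * (2 / e)) * (((2 * K + 5 + 2 * R : ℕ) : ℝ)) ^ 2) * (e / 2) := by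
          field_simp
        rw [Nat.cast_pow, h4]
        nlinarith
      have h5' : C * t = e / 2 := by
        rw [ht]
        field_simp
      linarith
    · have h1 : ind (e < rE k X (Nb K c)) = 0 := by
        unfold ind
        rw [if_neg hall]
      rw [h1]
      exact ind_nonneg _
  · rw [hcard, ← hn₀]
    have h1 := hb₀ (β * t) hβt
    have h2 : (4 * (R + 1) * (C / t) ^ n₀) * (β * t) ^ n₀ * Real.exp (-(β * t)) =
        4 * ((R + 1) * (Real.exp (-β * t) * (C * β) ^ n₀)) := by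
      rw [show -β * t = -(β * t) by ring, show C * β = (C / t) * (β * t) by field_simp, mul_pow]
      ring
    rw [h2] at h1
    linarith

end T2H01.SE.PkgWH

namespace T2H01.SE

open T2H02.TT

theorem pWH (hH : S_H) (h5 : S_F5) : S_WH := PkgWH.main hH h5

end T2H01.SE
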