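import Pool.Agent.T2H01.SE.Stm3
import Pool.Agent.T2H02.TT.F

/-! Package WK: consistent expectations. -/

set_option autoImplicit false
set_option linter.unusedSectionVars false

noncomputable section

open MeasureTheory

namespace T2H01.SE

open T2H02.TT

namespace PkgWK

section

variable {ι Tm X : Type} [DecidableEq ι] [DecidableEq Tm] [MeasurableSpace X]
  (S : Sys ι Tm X) (μ : Measure X) [IsProbabilityMeasure μ]

lemma pr_bd (T : Finset Tm) (ω : ι → X) : 0 < ∏ τ ∈ T, S.w τ ω ∧ ∏ τ ∈ T, S.w τ ω ≤ 1 :=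
  ⟨Finset.prod_pos fun τ _ => S.w_pos τ ω,
    Finset.prod_le_one (fun τ _ => (S.w_pos τ ω).le) fun τ _ => S.w_le τ ω⟩

lemma pr_meas (T : Finset Tm) : Measurable (fun ω : ι → X => ∏ τ ∈ T, S.w τ ω) :=
  Finset.measurable_prod _ fun τ _ => S.w_meas τ

lemma pr_int (T : Finset Tm) :
    Integrable (fun ω : ι → X => ∏ τ ∈ T, S.w τ ω) (Measure.infinitePi fun _ : ι => μ) :=
  PkgF.integrable_bdd (pr_meas S T) ⟨1, fun ω => by
    rw [abs_of_pos (pr_bd S T ω).1]; exact (pr_bd S T ω).2⟩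

lemma f_int (T : Finset Tm) (F : (ι → X) → ℝ) (hF : Measurable F) (hb : ∃ K, ∀ ω, |F ω| ≤ K) :
    Integrable (fun ω : ι → X => F ω * ∏ τ ∈ T, S.w τ ω) (Measure.infinitePi fun _ : ι => μ) := by
  obtain ⟨K, hK⟩ := hb
  refine PkgF.integrable_bdd (hF.mul (pr_meas S T)) ⟨K, fun ω => ?_⟩
  rw [abs_mul, abs_of_pos (pr_bd S T ω).1]
  have h2 := (pr_bd S T ω).2
  have h3 := (pr_bd S T ω).1
  have h4 := abs_nonneg (F ω)
  have h5 := hK ω
  nlinarith

lemma Z_pos (T : Finset Tm) :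
    0 < ∫ ω, ∏ τ ∈ T, S.w τ ω ∂(Measure.infinitePi fun _ : ι => μ) := by
  rw [integral_pos_iff_support_of_nonneg]
  · have : Function.support (fun ω : ι → X => ∏ τ ∈ T, S.w τ ω) = Set.univ := by
      ext ξ
      simp only [Function.mem_support, Set.mem_univ, iff_true]
      exact (pr_bd S T ξ).1.ne'
    rw [this, measure_univ]
    exact one_pos
  · intro ξ
    exact (pr_bd S T ξ).1.le
  · exact pr_int S μ T

end

end PkgWK

open PkgWK in
theorem pWK (hF3 : S_F3) (hF4 : S_F4) (hF5 : S_F5) : S_WK := by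
  intro ι Tm X _ _ _ S μ _
  refine ⟨fun Λ η => ⟨?_, ?_, ?_⟩, fun D T hT => ⟨?_, ?_, ?_⟩⟩
  · exact (hF5 ι Tm X S μ Λ).2.1 1 η
  · intro f g hf hfb hg hgb
    obtain ⟨h1, h2, h3⟩ := (hF5 ι Tm X S μ Λ).2.2.1 f g hf hfb hg hgb η
    exact ⟨fun h => h1 fun ξ => h _, h2, h3⟩
  · intro Δ hΔ f hf hfb h hh hhb hd
    exact hF3 ι Tm X S μ Δ Λ hΔ f hf hfb h hh hhb hd η
  · show S.ex μ T (fun _ => 1) = 1
    unfold Sys.ex
    simp only [one_mul]
    exact div_self (Z_pos S μ T).ne'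
  · intro f g hf hfb hg hgb
    refine ⟨fun h => ?_, ?_, fun c => ?_⟩
    · unfold Sys.ex
      refine div_le_div_of_nonneg_right ?_ (Z_pos S μ T).le
      exact integral_mono (f_int S μ T f hf hfb) (f_int S μ T g hg hgb) fun ω =>
        mul_le_mul_of_nonneg_right (h ω) (pr_bd S T ω).1.le
    · unfold Sys.ex
      rw [← add_div]
      congr 1
      rw [← integral_add (f_int S μ T f hf hfb) (f_int S μ T g hg hgb)]
      simp only [add_mul]
    · unfold Sys.ex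
      rw [← mul_div_assoc, ← integral_const_mul]
      simp only [mul_assoc]
  · intro Δ hΔ f hf hfb h hh hhb hd
    refine hF4 ι Tm X S μ Δ T (fun τ hτ => hT ?_) f hf hfb h hh hhb hd
    obtain ⟨a, h1, h2⟩ := (S.mem_tms _ _).1 hτ
    exact (S.mem_tms _ _).2 ⟨a, h1, hΔ h2⟩

end T2H01.SE
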