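import Pool.Agent.T2H01.SE.Stm2

/-!
# Package WX : products of fluxes of many blocks (abstract)
-/

set_option autoImplicit false
set_option linter.unusedSectionVars false

noncomputable section

open MeasureTheory Matrix
open scoped Matrix.Norms.Frobenius

namespace T2H01.SE

open T2H02.TT

namespace PkgWX

variable {ι Tm X : Type} [DecidableEq ι] [DecidableEq Tm] [MeasurableSpace X]

/-- a normalised monotone linear functional -/
def IsE (E : ((ι → X) → ℝ) → ℝ) : Prop :=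
  E (fun _ => 1) = 1 ∧
  (∀ f g : (ι → X) → ℝ, Measurable f → (∃ K, ∀ ω, |f ω| ≤ K) → Measurable g →
    (∃ K, ∀ ω, |g ω| ≤ K) → ((∀ ω, f ω ≤ g ω) → E f ≤ E g) ∧
      E (fun ω => f ω + g ω) = E f + E g ∧ ∀ c : ℝ, E (fun ω => c * f ω) = c * E f)

lemma bd_re {f : (ι → X) → ℂ} {K : ℝ} (hb : ∀ ω, ‖f ω‖ ≤ K) : ∃ K, ∀ ω, |(f ω).re| ≤ K :=
  ⟨K, fun ω => (Complex.abs_re_le_norm _).trans (hb ω)⟩

lemma bd_im {f : (ι → X) → ℂ} {K : ℝ} (hb : ∀ ω, ‖f ω‖ ≤ K) : ∃ K, ∀ ω, |(f ω).im| ≤ K :=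
  ⟨K, fun ω => (Complex.abs_im_le_norm _).trans (hb ω)⟩

lemma bd_norm {f : (ι → X) → ℂ} {K : ℝ} (hb : ∀ ω, ‖f ω‖ ≤ K) : ∃ K, ∀ ω, |‖f ω‖| ≤ K :=
  ⟨K, fun ω => by rw [abs_norm]; exact hb ω⟩

lemma bd_mul {f g : (ι → X) → ℝ} (hf : ∃ K, ∀ ω, |f ω| ≤ K) (hg : ∃ K, ∀ ω, |g ω| ≤ K) :
    ∃ K, ∀ ω, |f ω * g ω| ≤ K := by
  obtain ⟨K, hK⟩ := hf
  obtain ⟨K', hK'⟩ := hg
  refine ⟨|K| * |K'|, fun ω => ?_⟩
  rw [abs_mul]
  exact mul_le_mul ((hK ω).trans (le_abs_self K)) ((hK' ω).trans (le_abs_self K')) (abs_nonneg _)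
    (abs_nonneg _)

lemma bd_add {f g : (ι → X) → ℝ} (hf : ∃ K, ∀ ω, |f ω| ≤ K) (hg : ∃ K, ∀ ω, |g ω| ≤ K) :
    ∃ K, ∀ ω, |f ω + g ω| ≤ K := by
  obtain ⟨K, hK⟩ := hf
  obtain ⟨K', hK'⟩ := hg
  exact ⟨K + K', fun ω => (abs_add_le _ _).trans (add_le_add (hK ω) (hK' ω))⟩

lemma bd_const (c : ℝ) : ∃ K, ∀ ω : ι → X, |(fun _ => c) ω| ≤ K := ⟨|c|, fun _ => le_rfl⟩

lemma E_sq {E : ((ι → X) → ℝ) → ℝ} (hE : IsE E) (H : (ι → X) → ℂ) (hH : Measurable H) (K : ℝ)
    (hb : ∀ ω, ‖H ω‖ ≤ K) :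
    (E fun ω => (H ω).re) ^ 2 + (E fun ω => (H ω).im) ^ 2 ≤ (E fun ω => ‖H ω‖) ^ 2 := by
  have mre : Measurable fun ω => (H ω).re := Complex.measurable_re.comp hH
  have mim : Measurable fun ω => (H ω).im := Complex.measurable_im.comp hH
  have mn : Measurable fun ω => ‖H ω‖ := hH.norm
  have bre := bd_re hb
  have bim := bd_im hb
  have bn := bd_norm hb
  set a := E fun ω => (H ω).re with ha
  set b := E fun ω => (H ω).im with hb'
  set c := E fun ω => ‖H ω‖ with hc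
  set s := Real.sqrt (a ^ 2 + b ^ 2) with hs
  have hs0 : 0 ≤ s := Real.sqrt_nonneg _
  have hs2 : s ^ 2 = a ^ 2 + b ^ 2 := Real.sq_sqrt (by positivity)
  have hc0 : 0 ≤ c := by
    have h0 := (hE.2 (fun ω => 0 * ‖H ω‖) (fun ω => ‖H ω‖) (measurable_const.mul mn)
      (bd_mul (bd_const 0) bn) mn bn).1 (fun ω => by simp)
    have h1 := (hE.2 (fun ω => ‖H ω‖) (fun ω => ‖H ω‖) mn bn mn bn).2.2 0
    rw [h1] at h0
    simpa using h0
  have h1 : E (fun ω => a * (H ω).re + b * (H ω).im) = a * a + b * b := by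
    rw [(hE.2 (fun ω => a * (H ω).re) (fun ω => b * (H ω).im) (measurable_const.mul mre)
      (bd_mul (bd_const a) bre) (measurable_const.mul mim) (bd_mul (bd_const b) bim)).2.1,
      (hE.2 (fun ω => (H ω).re) (fun ω => (H ω).re) mre bre mre bre).2.2 a,
      (hE.2 (fun ω => (H ω).im) (fun ω => (H ω).im) mim bim mim bim).2.2 b]
  have h2 : E (fun ω => a * (H ω).re + b * (H ω).im) ≤ E (fun ω => s * ‖H ω‖) := by
    apply (hE.2 _ _ ((measurable_const.mul mre).add (measurable_const.mul mim))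
      (bd_add (bd_mul (bd_const a) bre) (bd_mul (bd_const b) bim)) (measurable_const.mul mn)
      (bd_mul (bd_const s) bn)).1
    intro ω
    have h3 : (a * (H ω).re + b * (H ω).im) ^ 2 ≤ (s * ‖H ω‖) ^ 2 := by
      rw [mul_pow, hs2, Complex.sq_norm, Complex.normSq_apply]
      nlinarith [sq_nonneg (a * (H ω).im - b * (H ω).re)]
    exact abs_le_of_sq_le_sq' h3 (mul_nonneg hs0 (norm_nonneg _)) |>.2
  rw [h1, (hE.2 (fun ω => ‖H ω‖) (fun ω => ‖H ω‖) mn bn mn bn).2.2 s] at h2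
  rw [← hs2]
  have h4 : s * s ≤ s * c := by nlinarith
  rcases hs0.eq_or_lt with h5 | h5
  · rw [← h5]
    simpa using sq_nonneg c
  · have h6 : s ≤ c := le_of_mul_le_mul_left h4 h5
    exact pow_le_pow_left₀ hs0 h6 2

lemma E_norm_le {E : ((ι → X) → ℝ) → ℝ} (hE : IsE E) (H : (ι → X) → ℂ) (hH : Measurable H) (K : ℝ)
    (hb : ∀ ω, ‖H ω‖ ≤ K) : 0 ≤ (E fun ω => ‖H ω‖) ∧ (E fun ω => ‖H ω‖) ≤ K := by
  have mn : Measurable fun ω => ‖H ω‖ := hH.norm
  have bn := bd_norm hb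
  have m1 : Measurable fun _ : ι → X => (1 : ℝ) := measurable_const
  constructor
  · have h0 := (hE.2 (fun ω => 0 * ‖H ω‖) (fun ω => ‖H ω‖) (measurable_const.mul mn)
      (bd_mul (bd_const 0) bn) mn bn).1 (fun ω => by simp)
    have h1 := (hE.2 (fun ω => ‖H ω‖) (fun ω => ‖H ω‖) mn bn mn bn).2.2 0
    rw [h1] at h0
    simpa using h0
  · have h0 := (hE.2 (fun ω => ‖H ω‖) (fun _ => K * 1) mn bn (measurable_const.mul m1)
      (bd_mul (bd_const K) (bd_const 1))).1 (fun ω => by simpa using hb ω)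
    have h1 := (hE.2 (fun _ => (1 : ℝ)) (fun _ => (1 : ℝ)) m1 (bd_const 1) m1 (bd_const 1)).2.2 K
    rw [h1, hE.1, mul_one] at h0
    exact h0

lemma add4 {E : ((ι → X) → ℝ) → ℝ} (hE : IsE E) (a b c d : (ι → X) → ℝ) (ma : Measurable a)
    (mb : Measurable b) (mc : Measurable c) (md : Measurable d) (ba : ∃ K, ∀ ω, |a ω| ≤ K)
    (bb : ∃ K, ∀ ω, |b ω| ≤ K) (bc : ∃ K, ∀ ω, |c ω| ≤ K) (bd : ∃ K, ∀ ω, |d ω| ≤ K) :
    E (fun ω => a ω * b ω + c ω * d ω) = E (fun ω => a ω * b ω) + E (fun ω => c ω * d ω) :=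
  (hE.2 (fun ω => a ω * b ω) (fun ω => c ω * d ω) (ma.mul mb) (bd_mul ba bb) (mc.mul md)
    (bd_mul bc bd)).2.1

/-- complex kernel -/
def kC (S : Sys ι Tm X) (μ : Measure X) (Δ : Finset Pl) (f : (ι → X) → ℂ) (ω : ι → X) : ℂ :=
  ⟨S.ker μ Δ (fun ω' => (f ω').re) ω, S.ker μ Δ (fun ω' => (f ω').im) ω⟩

lemma ker_isE (h5 : S_F5) (S : Sys ι Tm X) (μ : Measure X) [IsProbabilityMeasure μ] (Δ : Finset Pl)
    (ω : ι → X) : IsE (fun f => S.ker μ Δ f ω) := by
  obtain ⟨-, h2, h3, -⟩ := h5 ι Tm X S μ Δ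
  refine ⟨h2 1 ω, fun f g hf hfb hg hgb => ?_⟩
  obtain ⟨a1, a2, a3⟩ := h3 f g hf hfb hg hgb ω
  exact ⟨fun h => a1 (fun ξ => h _), a2, a3⟩

lemma kC_meas (h5 : S_F5) (S : Sys ι Tm X) (μ : Measure X) [IsProbabilityMeasure μ] (Δ : Finset Pl)
    (f : (ι → X) → ℂ) (hf : Measurable f) (K : ℝ) (hb : ∀ ω, ‖f ω‖ ≤ K) : Measurable (kC S μ Δ f) := by
  obtain ⟨-, -, -, h4, -⟩ := h5 ι Tm X S μ Δ
  have m1 := h4 _ (Complex.measurable_re.comp hf) (bd_re hb)
  have m2 := h4 _ (Complex.measurable_im.comp hf) (bd_im hb)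
  have e : kC S μ Δ f = fun ω => (S.ker μ Δ (fun ω' => (f ω').re) ω : ℂ)
      + (S.ker μ Δ (fun ω' => (f ω').im) ω : ℂ) * Complex.I := by
    funext ω
    apply Complex.ext <;> simp [kC]
  rw [e]
  exact (Complex.measurable_ofReal.comp m1).add ((Complex.measurable_ofReal.comp m2).mul_const _)

lemma kC_norm (h5 : S_F5) (S : Sys ι Tm X) (μ : Measure X) [IsProbabilityMeasure μ] (Δ : Finset Pl)
    (f : (ι → X) → ℂ) (hf : Measurable f) (hb : ∀ ω, ‖f ω‖ ≤ 1) (ω : ι → X) : ‖kC S μ Δ f ω‖ ≤ 1 := by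
  have hE := ker_isE h5 S μ Δ ω
  have h1 := E_sq hE f hf 1 hb
  have h2 := E_norm_le hE f hf 1 hb
  have h3 : ‖kC S μ Δ f ω‖ ^ 2 ≤ 1 ^ 2 := by
    rw [Complex.sq_norm, Complex.normSq_apply]
    have : (kC S μ Δ f ω).re * (kC S μ Δ f ω).re + (kC S μ Δ f ω).im * (kC S μ Δ f ω).im
        = (S.ker μ Δ (fun ω' => (f ω').re) ω) ^ 2 + (S.ker μ Δ (fun ω' => (f ω').im) ω) ^ 2 := by
      simp only [kC]; ring
    rw [this]
    refine h1.trans ?_
    exact pow_le_pow_left₀ h2.1 h2.2 2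
  exact le_of_sq_le_sq h3 (by norm_num)

/-- the kernel of a block does not depend on the variables of another block -/
lemma kC_dep (h5 : S_F5) (S : Sys ι Tm X) (μ : Measure X) [IsProbabilityMeasure μ] (Δ Δ' : Finset Pl)
    (hd : Disjoint (S.tms Δ) (S.tms Δ')) (f : (ι → X) → ℂ) (hf : depC {i | i ∉ S.Fr Δ'} f) :
    depC {i | i ∉ S.Fr Δ'} (kC S μ Δ f) := by
  obtain ⟨-, -, -, -, -, -, h7⟩ := h5 ι Tm X S μ Δ
  have key : ∀ g : (ι → X) → ℝ, Sys.dep {i | i ∉ S.Fr Δ'} g → Sys.dep {i | i ∉ S.Fr Δ'} (S.ker μ Δ g) := by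
    intro g hg ω ω' hω
    apply h7 _ g hg ω ω'
    rintro i ⟨hi1, hi2⟩
    apply hω
    rcases hi2 with hi2 | ⟨τ, hτ, hi2⟩
    · exact hi2
    · intro hi3
      rw [S.mem_Fr] at hi3
      obtain ⟨a, ha, haΔ⟩ := hi3
      have h1 : a ∈ S.bt τ := (S.bt_iff τ a).mpr ⟨i, hi2, ha⟩
      have h2 : τ ∈ S.tms Δ' := (S.mem_tms Δ' τ).mpr ⟨a, h1, haΔ⟩
      exact (Finset.disjoint_left.mp hd) hτ h2
  intro ω ω' hω
  have h1 := key (fun ω => (f ω).re) (fun ω ω' h => by simp only [hf ω ω' h]) ω ω' hω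
  have h2 := key (fun ω => (f ω).im) (fun ω ω' h => by simp only [hf ω ω' h]) ω ω' hω
  simp only [kC]
  rw [h1, h2]

/-- complex consistency -/
lemma cons (h5 : S_F5) {S : Sys ι Tm X} {μ : Measure X} [IsProbabilityMeasure μ] {D : Finset Pl}
    {E : ((ι → X) → ℝ) → ℝ} (hE : Cns S μ D E) (Δ : Finset Pl) (hΔ : Δ ⊆ D) (f h : (ι → X) → ℂ)
    (hf : Measurable f) (hfb : ∀ ω, ‖f ω‖ ≤ 1) (hh : Measurable h) (hhb : ∀ ω, ‖h ω‖ ≤ 1)
    (hd : depC {i | i ∉ S.Fr Δ} h) :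
    (E fun ω => (h ω * f ω).re) = (E fun ω => (h ω * kC S μ Δ f ω).re) ∧
    (E fun ω => (h ω * f ω).im) = (E fun ω => (h ω * kC S μ Δ f ω).im) := by
  have mfr : Measurable fun ω => (f ω).re := Complex.measurable_re.comp hf
  have mfi : Measurable fun ω => (f ω).im := Complex.measurable_im.comp hf
  have mhr : Measurable fun ω => (h ω).re := Complex.measurable_re.comp hh
  have mhi : Measurable fun ω => (h ω).im := Complex.measurable_im.comp hh
  have mhi' : Measurable fun ω => -(h ω).im := mhi.neg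
  have bfr := bd_re hfb
  have bfi := bd_im hfb
  have bhr := bd_re hhb
  have bhi := bd_im hhb
  have bhi' : ∃ K, ∀ ω, |(fun ω => -(h ω).im) ω| ≤ K := by
    obtain ⟨K, hK⟩ := bhi
    exact ⟨K, fun ω => by simpa using hK ω⟩
  obtain ⟨-, -, -, h4, h5', -⟩ := h5 ι Tm X S μ Δ
  have mkr := h4 _ mfr bfr
  have mki := h4 _ mfi bfi
  have bkr : ∃ K, ∀ ω, |S.ker μ Δ (fun ω' => (f ω').re) ω| ≤ K := by
    obtain ⟨K, hK⟩ := bfr
    exact ⟨K, h5' K _ mfr hK⟩
  have bki : ∃ K, ∀ ω, |S.ker μ Δ (fun ω' => (f ω').im) ω| ≤ K := by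
    obtain ⟨K, hK⟩ := bfi
    exact ⟨K, h5' K _ mfi hK⟩
  have dr : Sys.dep {i | i ∉ S.Fr Δ} (fun ω => (h ω).re) := fun ω ω' h' => by simp only [hd ω ω' h']
  have di : Sys.dep {i | i ∉ S.Fr Δ} (fun ω => (h ω).im) := fun ω ω' h' => by simp only [hd ω ω' h']
  have di' : Sys.dep {i | i ∉ S.Fr Δ} (fun ω => -(h ω).im) := fun ω ω' h' => by simp only [hd ω ω' h']
  constructor
  · have e1 : (fun ω => (h ω * f ω).re) = fun ω => (h ω).re * (f ω).re + (-(h ω).im) * (f ω).im := by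
      funext ω
      rw [Complex.mul_re]; ring
    have e2 : (fun ω => (h ω * kC S μ Δ f ω).re) = fun ω =>
        (h ω).re * S.ker μ Δ (fun ω' => (f ω').re) ω + (-(h ω).im) * S.ker μ Δ (fun ω' => (f ω').im) ω := by
      funext ω
      rw [Complex.mul_re]
      simp only [kC]; ring
    rw [e1, e2, add4 ⟨hE.1, hE.2.1⟩ _ _ _ _ mhr mfr mhi' mfi bhr bfr bhi' bfi,
      add4 ⟨hE.1, hE.2.1⟩ _ _ _ _ mhr mkr mhi' mki bhr bkr bhi' bki,
      hE.2.2 Δ hΔ _ mfr bfr _ mhr bhr dr, hE.2.2 Δ hΔ _ mfi bfi _ mhi' bhi' di']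
  · have e1 : (fun ω => (h ω * f ω).im) = fun ω => (h ω).re * (f ω).im + (h ω).im * (f ω).re := by
      funext ω
      rw [Complex.mul_im]
    have e2 : (fun ω => (h ω * kC S μ Δ f ω).im) = fun ω =>
        (h ω).re * S.ker μ Δ (fun ω' => (f ω').im) ω + (h ω).im * S.ker μ Δ (fun ω' => (f ω').re) ω := by
      funext ω
      rw [Complex.mul_im]
      simp only [kC]
    rw [e1, e2, add4 ⟨hE.1, hE.2.1⟩ _ _ _ _ mhr mfi mhi mfr bhr bfi bhi bfr,
      add4 ⟨hE.1, hE.2.1⟩ _ _ _ _ mhr mki mhi mkr bhr bki bhi bkr,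
      hE.2.2 Δ hΔ _ mfi bfi _ mhr bhr dr, hE.2.2 Δ hΔ _ mfr bfr _ mhi bhi di]

lemma prod_norm {β : Type} (J : Finset β) (F : β → ℂ) (h : ∀ b ∈ J, ‖F b‖ ≤ 1) :
    ‖∏ b ∈ J, F b‖ ≤ 1 := by
  rw [norm_prod]
  exact Finset.prod_le_one (fun _ _ => norm_nonneg _) h

end PkgWX

open PkgWX

theorem pWX (h5 : S_F5) : S_WX := by
  intro ι Tm X _ _ _ S μ _ D E hE I Δ Λ G F bad κ hκ0 hκ1 hD hdis hGm hGb hGd hF hbad hk
  have hIE : IsE E := ⟨hE.1, hE.2.1⟩
  classical
  -- step 1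
  have kn : ∀ b ∈ I, ∀ ω, ‖kC S μ (Δ b) (F b) ω‖ ≤ 1 :=
    fun b hb ω => kC_norm h5 S μ (Δ b) (F b) (hF b hb).1 (hF b hb).2.1 ω
  have km : ∀ b ∈ I, Measurable (kC S μ (Δ b) (F b)) :=
    fun b hb => kC_meas h5 S μ (Δ b) (F b) (hF b hb).1 1 (hF b hb).2.1
  have step1 : ∀ J : Finset Pl, J ⊆ I →
      (E fun ω => (G ω * ∏ b ∈ I, F b ω).re) =
        (E fun ω => (G ω * (∏ b ∈ J, kC S μ (Δ b) (F b) ω) * ∏ b ∈ I \ J, F b ω).re) ∧
      (E fun ω => (G ω * ∏ b ∈ I, F b ω).im) =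
        (E fun ω => (G ω * (∏ b ∈ J, kC S μ (Δ b) (F b) ω) * ∏ b ∈ I \ J, F b ω).im) := by
    intro J
    induction J using Finset.induction_on with
    | empty =>
      intro _
      simp
    | insert c J hcJ ih =>
      intro hJ
      have hcI : c ∈ I := hJ (Finset.mem_insert_self _ _)
      have hJI : J ⊆ I := fun b hb => hJ (Finset.mem_insert_of_mem hb)
      have hsd : I \ J = insert c (I \ insert c J) := by
        ext b
        simp only [Finset.mem_sdiff, Finset.mem_insert, not_or]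
        constructor
        · rintro ⟨h1, h2⟩
          by_cases h3 : b = c
          · exact Or.inl h3
          · exact Or.inr ⟨h1, h3, h2⟩
        · rintro (h1 | ⟨h1, h2, h3⟩)
          · rw [h1]; exact ⟨hcI, hcJ⟩
          · exact ⟨h1, h3⟩
      have hcn : c ∉ I \ insert c J := by simp
      set h : (ι → X) → ℂ := fun ω => G ω * (∏ b ∈ J, kC S μ (Δ b) (F b) ω) *
        ∏ b ∈ I \ insert c J, F b ω with hh
      have hhm : Measurable h := by
        refine (hGm.mul (Finset.measurable_prod _ fun b hb => km b (hJI hb))).mul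
          (Finset.measurable_prod _ fun b hb => (hF b (Finset.mem_sdiff.mp hb).1).1)
      have hhb : ∀ ω, ‖h ω‖ ≤ 1 := by
        intro ω
        rw [hh]
        simp only
        rw [norm_mul, norm_mul]
        have a1 := hGb ω
        have a2 := prod_norm J (fun b => kC S μ (Δ b) (F b) ω) (fun b hb => kn b (hJI hb) ω)
        have a3 := prod_norm (I \ insert c J) (fun b => F b ω)
          (fun b hb => (hF b (Finset.mem_sdiff.mp hb).1).2.1 ω)
        calc _ ≤ (1 : ℝ) * 1 * 1 := by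
              refine mul_le_mul (mul_le_mul a1 a2 (norm_nonneg _) (by norm_num)) a3 (norm_nonneg _)
                (by norm_num)
          _ = 1 := by norm_num
      have hhd : depC {i | i ∉ S.Fr (Δ c)} h := by
        intro ω ω' hω
        simp only [hh]
        rw [hGd c hcI ω ω' hω]
        congr 1
        · congr 1
          refine Finset.prod_congr rfl fun b hb => ?_
          have hbc : b ≠ c := fun hbc => hcJ (hbc ▸ hb)
          exact kC_dep h5 S μ (Δ b) (Δ c) (hdis b (hJI hb) c hcI hbc) (F b)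
            ((hF b (hJI hb)).2.2 c hcI hbc) ω ω' hω
        · refine Finset.prod_congr rfl fun b hb => ?_
          rw [Finset.mem_sdiff, Finset.mem_insert, not_or] at hb
          exact (hF b hb.1).2.2 c hcI hb.2.1 ω ω' hω
      have hc := cons h5 hE (Δ c) (hD c hcI).1 (F c) h (hF c hcI).1 (hF c hcI).2.1 hhm hhb hhd
      have e1 : ∀ ω, G ω * (∏ b ∈ J, kC S μ (Δ b) (F b) ω) * ∏ b ∈ I \ J, F b ω = h ω * F c ω := by
        intro ω
        rw [hsd, Finset.prod_insert hcn]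
        simp only [hh]
        ring
      have e2 : ∀ ω, G ω * (∏ b ∈ insert c J, kC S μ (Δ b) (F b) ω) * ∏ b ∈ I \ insert c J, F b ω
          = h ω * kC S μ (Δ c) (F c) ω := by
        intro ω
        rw [Finset.prod_insert hcJ]
        simp only [hh]
        ring
      obtain ⟨i1, i2⟩ := ih hJI
      constructor
      · rw [i1]
        simp only [e1, e2]
        exact hc.1
      · rw [i2]
        simp only [e1, e2]
        exact hc.2
  obtain ⟨s1, s2⟩ := step1 I (Finset.Subset.refl I)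
  rw [s1, s2]
  simp only [Finset.sdiff_self, Finset.prod_empty, mul_one]
  set H : (ι → X) → ℂ := fun ω => G ω * ∏ b ∈ I, kC S μ (Δ b) (F b) ω with hH
  have hHm : Measurable H := hGm.mul (Finset.measurable_prod _ fun b hb => km b hb)
  have hHb : ∀ ω, ‖H ω‖ ≤ 1 := by
    intro ω
    simp only [hH]
    rw [norm_mul]
    have a1 := hGb ω
    have a2 := prod_norm I (fun b => kC S μ (Δ b) (F b) ω) (fun b hb => kn b hb ω)
    calc _ ≤ (1 : ℝ) * 1 := mul_le_mul a1 a2 (norm_nonneg _) (by norm_num)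
      _ = 1 := by norm_num
  have hsq := E_sq hIE H hHm 1 hHb
  refine hsq.trans ?_
  -- step 3
  set v : Pl → (ι → X) → ℝ := fun b ω => 1 + 2 * κ * ind (bad b ω) with hv
  have hind : ∀ b ω, 0 ≤ ind (bad b ω) ∧ ind (bad b ω) ≤ 1 := by
    intro b ω
    unfold ind
    split_ifs <;> norm_num
  have hvb : ∀ b ω, 1 ≤ v b ω ∧ v b ω ≤ 2 := by
    intro b ω
    obtain ⟨i1, i2⟩ := hind b ω
    simp only [hv]
    constructor
    · nlinarith
    · nlinarith
  have hvm : ∀ b ∈ I, Measurable (v b) := by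
    intro b hb
    have : Measurable fun ω => ind (bad b ω) := by
      unfold ind
      exact Measurable.ite (hbad b hb).1 measurable_const measurable_const
    exact measurable_const.add (measurable_const.mul this)
  have hpt : ∀ ω, ‖H ω‖ ≤ (1 - κ) ^ I.card * ∏ b ∈ I, v b ω := by
    intro ω
    simp only [hH]
    rw [norm_mul, norm_prod, ← Finset.prod_const, ← Finset.prod_mul_distrib]
    calc _ ≤ 1 * ∏ b ∈ I, ‖kC S μ (Δ b) (F b) ω‖ :=
          mul_le_mul_of_nonneg_right (hGb ω) (Finset.prod_nonneg fun _ _ => norm_nonneg _)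
      _ = ∏ b ∈ I, ‖kC S μ (Δ b) (F b) ω‖ := one_mul _
      _ ≤ _ := by
          refine Finset.prod_le_prod (fun _ _ => norm_nonneg _) fun b hb => ?_
          by_cases hbb : bad b ω
          · refine (kn b hb ω).trans ?_
            simp only [hv, ind, if_pos hbb]
            nlinarith
          · have h1 := hk b hb ω hbb
            have h2 : ‖kC S μ (Δ b) (F b) ω‖ ^ 2 ≤ (1 - κ) ^ 2 := by
              rw [Complex.sq_norm, Complex.normSq_apply]
              simp only [kC]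
              nlinarith
            have h3 : ‖kC S μ (Δ b) (F b) ω‖ ≤ 1 - κ := le_of_sq_le_sq h2 (by linarith)
            simp only [hv, ind, if_neg hbb]
            linarith
  have hbprod : ∀ J : Finset Pl, ∃ K, ∀ ω, |∏ b ∈ J, v b ω| ≤ K := by
    intro J
    refine ⟨∏ b ∈ J, 2, fun ω => ?_⟩
    rw [Finset.abs_prod]
    refine Finset.prod_le_prod (fun _ _ => abs_nonneg _) fun b _ => ?_
    obtain ⟨i1, i2⟩ := hvb b ω
    rw [abs_of_nonneg (by linarith)]
    exact i2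
  have hmprod : ∀ J ⊆ I, Measurable fun ω => ∏ b ∈ J, v b ω :=
    fun J hJ => Finset.measurable_prod _ fun b hb => hvm b (hJ hb)
  -- step 4
  have step4 : ∀ J : Finset Pl, J ⊆ I → (E fun ω => ∏ b ∈ J, v b ω) ≤ (1 + κ / 2) ^ J.card := by
    intro J
    induction J using Finset.induction_on with
    | empty =>
      intro _
      simp [hE.1]
    | insert c J hcJ ih =>
      intro hJ
      have hcI : c ∈ I := hJ (Finset.mem_insert_self _ _)
      have hJI : J ⊆ I := fun b hb => hJ (Finset.mem_insert_of_mem hb)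
      have e1 : (fun ω => ∏ b ∈ insert c J, v b ω) = fun ω => (∏ b ∈ J, v b ω) * v c ω := by
        funext ω
        rw [Finset.prod_insert hcJ, mul_comm]
      have hd : Sys.dep {i | i ∉ S.Fr (Λ c)} fun ω => ∏ b ∈ J, v b ω := by
        intro ω ω' hω
        refine Finset.prod_congr rfl fun b hb => ?_
        have hbc : b ≠ c := fun hbc => hcJ (hbc ▸ hb)
        have := (hbad b (hJI hb)).2.1 c hcI hbc ω ω' hω
        simp only at this
        simp only [hv]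
        rw [this]
      have bvc : ∃ K, ∀ ω, |v c ω| ≤ K := ⟨2, fun ω => by
        obtain ⟨i1, i2⟩ := hvb c ω
        rw [abs_of_nonneg (by linarith)]
        exact i2⟩
      rw [e1, hE.2.2 (Λ c) (hD c hcI).2 _ (hvm c hcI) bvc _ (hmprod J hJI) (hbprod J) hd]
      obtain ⟨-, f2, f3, f4, f5, -⟩ := h5 ι Tm X S μ (Λ c)
      have mi : Measurable fun ω => ind (bad c ω) := by
        unfold ind
        exact Measurable.ite (hbad c hcI).1 measurable_const measurable_const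
      have bi : ∃ K, ∀ ω, |ind (bad c ω)| ≤ K := ⟨1, fun ω => by
        obtain ⟨i1, i2⟩ := hind c ω
        rw [abs_of_nonneg i1]
        exact i2⟩
      have hker : ∀ ω, S.ker μ (Λ c) (v c) ω ≤ 1 + κ / 2 := by
        intro ω
        have g1 := (f3 (fun _ => (1 : ℝ)) (fun ω => (2 * κ) * ind (bad c ω)) measurable_const
          (bd_const 1) (measurable_const.mul mi) (bd_mul (bd_const (2 * κ)) bi) ω).2.1
        have g2 := (f3 (fun ω => ind (bad c ω)) (fun ω => ind (bad c ω)) mi bi mi bi ω).2.2 (2 * κ)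
        have g3 := (hbad c hcI).2.2 ω
        have g4 : S.ker μ (Λ c) (v c) ω = 1 + 2 * κ * S.ker μ (Λ c) (fun ω' => ind (bad c ω')) ω := by
          rw [← g2, ← f2 1 ω, ← g1]
        rw [g4]
        nlinarith
      have mk := f4 (v c) (hvm c hcI) bvc
      have bk : ∃ K, ∀ ω, |S.ker μ (Λ c) (v c) ω| ≤ K := by
        obtain ⟨K, hK⟩ := bvc
        exact ⟨K, f5 K _ (hvm c hcI) hK⟩
      have mp := hmprod J hJI
      have bp := hbprod J
      have h6 := (hIE.2 (fun ω => (∏ b ∈ J, v b ω) * S.ker μ (Λ c) (v c) ω)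
        (fun ω => (1 + κ / 2) * ∏ b ∈ J, v b ω) (mp.mul mk) (bd_mul bp bk)
        (measurable_const.mul mp) (bd_mul (bd_const _) bp)).1 (fun ω => by
          rw [mul_comm (1 + κ / 2)]
          exact mul_le_mul_of_nonneg_left (hker ω)
            (Finset.prod_nonneg fun b _ => by linarith [(hvb b ω).1]))
      rw [(hIE.2 _ _ mp bp mp bp).2.2 (1 + κ / 2)] at h6
      refine h6.trans ?_
      rw [Finset.card_insert_of_notMem hcJ, pow_succ, mul_comm _ (1 + κ / 2)]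
      exact mul_le_mul_of_nonneg_left (ih hJI) (by linarith)
  have h7 : (E fun ω => ‖H ω‖) ≤ (1 - κ) ^ I.card * (1 + κ / 2) ^ I.card := by
    have mp := hmprod I (Finset.Subset.refl I)
    have bp := hbprod I
    have h8 := (hIE.2 (fun ω => ‖H ω‖) (fun ω => (1 - κ) ^ I.card * ∏ b ∈ I, v b ω) hHm.norm
      (bd_norm hHb) (measurable_const.mul mp) (bd_mul (bd_const _) bp)).1 hpt
    rw [(hIE.2 _ _ mp bp mp bp).2.2 _] at h8
    exact h8.trans (mul_le_mul_of_nonneg_left (step4 I (Finset.Subset.refl I))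
      (pow_nonneg (by linarith) _))
  have h9 := (E_norm_le hIE H hHm 1 hHb).1
  have h10 : (1 - κ) * (1 + κ / 2) ≤ Real.exp (-κ / 2) := by
    have h11 := Real.add_one_le_exp (-κ / 2)
    nlinarith [sq_nonneg κ]
  have h12 : (E fun ω => ‖H ω‖) ≤ Real.exp (-κ / 2) ^ I.card := by
    rw [← mul_pow] at h7
    exact h7.trans (pow_le_pow_left₀ (mul_nonneg (by linarith) (by linarith)) h10 _)
  calc (E fun ω => ‖H ω‖) ^ 2 ≤ (Real.exp (-κ / 2) ^ I.card) ^ 2 := pow_le_pow_left₀ h9 h12 2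
    _ = Real.exp (-κ * I.card) := by
        rw [← Real.exp_nat_mul, ← Real.exp_nat_mul]
        congr 1
        push_cast
        ring

end T2H01.SE
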