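import Pool.Agent.T2H01.SE.Stm9
import Pool.Agent.T2H02.TT.J

/-!
# Package XA : nonabelian Stokes estimate
-/

set_option autoImplicit false

noncomputable section

open MeasureTheory Matrix
open scoped Matrix.Norms.Frobenius

namespace T2H01.SE.PkgXA

open T2H02.TT T2H01.SE
open T2H02.TT.PkgD (cmul cone nl nr)
open T2H02.TT.PkgJ (nx_comm)

variable {N L : ℕ} [NeZero L]

omit [NeZero L] in
lemma mv_zero (i : Fin 4) (p : Pt L) : mv i 0 p = p := rfl

omit [NeZero L] in
lemma mv_succ (i : Fin 4) (n : ℕ) (p : Pt L) : mv i (n + 1) p = mv i n (nx p i) := rfl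

lemma mv_nx (i j : Fin 4) (n : ℕ) (p : Pt L) : nx (mv j n p) i = mv j n (nx p i) := by
  induction n generalizing p with
  | zero => rfl
  | succ n ih =>
    rw [mv_succ, mv_succ, ih, nx_comm]

lemma lin_zero (X : Cf N L) (i : Fin 4) (p : Pt L) : lin X i 0 p = 1 := rfl

lemma lin_succ (X : Cf N L) (i : Fin 4) (n : ℕ) (p : Pt L) :
    lin X i (n + 1) p = X (p, i) * lin X i n (nx p i) := rfl

omit [NeZero L] in
lemma prod_norm (z : Pt L → ℂ) (hz : ∀ p, ‖z p‖ = 1) (i j : Fin 4) (m n : ℕ) (p : Pt L) :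
    ‖∏ a ∈ Finset.range m, ∏ b ∈ Finset.range n, z (mv j b (mv i a p))‖ = 1 := by
  rw [norm_prod]
  refine Finset.prod_eq_one fun a _ => ?_
  rw [norm_prod]
  exact Finset.prod_eq_one fun b _ => hz _

/-- one row -/
lemma row (X : Cf N L) (z : Pt L → ℂ) (hz : ∀ p, ‖z p‖ = 1) (i j : Fin 4) (n : ℕ) (p : Pt L) :
    ‖(X (p, i) : Mt N) * (lin X j n (nx p i) : Mt N) -
      (∏ b ∈ Finset.range n, z (mv j b p)) •
        ((lin X j n p : Mt N) * (X (mv j n p, i) : Mt N))‖ ≤
      ∑ b ∈ Finset.range n, ‖df X (z (mv j b p)) (mv j b p) i j‖ := by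
  induction n generalizing p with
  | zero =>
    simp [lin_zero, mv_zero]
  | succ n ih =>
    have h := ih (nx p j)
    rw [Finset.prod_range_succ', Finset.sum_range_succ']
    simp only [mv_succ, mv_zero]
    have e : (X (p, i) : Mt N) * (lin X j (n + 1) (nx p i) : Mt N) -
        ((∏ b ∈ Finset.range n, z (mv j b (nx p j))) * z p) •
          ((lin X j (n + 1) p : Mt N) * (X (mv j n (nx p j), i) : Mt N)) =
        z p • ((X (p, j) : Mt N) * ((X (nx p j, i) : Mt N) * (lin X j n (nx (nx p j) i) : Mt N) -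
          (∏ b ∈ Finset.range n, z (mv j b (nx p j))) •
            ((lin X j n (nx p j) : Mt N) * (X (mv j n (nx p j), i) : Mt N)))) +
        df X (z p) p i j * (lin X j n (nx (nx p j) i) : Mt N) := by
      rw [lin_succ, lin_succ, cmul, cmul, nx_comm p i j]
      unfold df
      simp only [Matrix.mul_sub, Matrix.sub_mul, Matrix.mul_smul, Matrix.smul_mul, smul_sub,
        Matrix.mul_assoc, smul_smul]
      rw [mul_comm (z p)]
      abel
    rw [e]
    refine (norm_add_le _ _).trans ?_
    rw [norm_smul, hz, one_mul, nl, nr]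
    exact add_le_add h le_rfl

theorem main : S_XA := by
  intro N L _ X z hz i j m n p
  induction m generalizing p with
  | zero =>
    simp [lin_zero, mv_zero]
  | succ m ih =>
    have h1 := ih (nx p i)
    have h2 := row X z hz i j n p
    rw [Finset.prod_range_succ', Finset.sum_range_succ']
    simp only [mv_succ, mv_zero]
    set Z1 : ℂ := ∏ a ∈ Finset.range m, ∏ b ∈ Finset.range n, z (mv j b (mv i a (nx p i))) with hZ1
    have hZ1n : ‖Z1‖ = 1 := prod_norm z hz i j m n (nx p i)
    set Z2 : ℂ := ∏ b ∈ Finset.range n, z (mv j b p) with hZ2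
    rw [cmul] at h1 ⊢
    rw [cmul] at h1 ⊢
    rw [lin_succ, lin_succ, mv_nx, cmul, cmul]
    have e : (X (p, i) : Mt N) * (lin X i m (nx p i) : Mt N) * (lin X j n (mv i m (nx p i)) : Mt N) -
        (Z1 * Z2) • ((lin X j n p : Mt N) * ((X (mv j n p, i) : Mt N) *
          (lin X i m (mv j n (nx p i)) : Mt N))) =
        (X (p, i) : Mt N) * ((lin X i m (nx p i) : Mt N) * (lin X j n (mv i m (nx p i)) : Mt N) -
          Z1 • ((lin X j n (nx p i) : Mt N) * (lin X i m (mv j n (nx p i)) : Mt N))) +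
        Z1 • (((X (p, i) : Mt N) * (lin X j n (nx p i) : Mt N) -
          Z2 • ((lin X j n p : Mt N) * (X (mv j n p, i) : Mt N))) *
            (lin X i m (mv j n (nx p i)) : Mt N)) := by
      simp only [Matrix.mul_sub, Matrix.sub_mul, Matrix.mul_smul, Matrix.smul_mul, smul_sub,
        Matrix.mul_assoc, smul_smul]
      abel
    rw [e]
    refine (norm_add_le _ _).trans ?_
    rw [norm_smul, hZ1n, one_mul, nl, nr]
    exact add_le_add h1 h2

end T2H01.SE.PkgXA

namespace T2H01.SE

theorem pXA : S_XA := PkgXA.main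

end T2H01.SE
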