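import Pool.Agent.T2H01.SE.Stm9
import Pool.Agent.T2H01.SE.VA

/-!
# Package XB : the coarse lattice
-/

set_option autoImplicit false
set_option linter.unusedSectionVars false

noncomputable section

open MeasureTheory Matrix
open scoped Matrix.Norms.Frobenius

namespace T2H01.SE.PkgXB

open T2H02.TT T2H02.TT.PkgD T2H02.TT.PkgJ

/-! ### the torus with one point -/

lemma sub1 : Subsingleton (ZMod 1) := ZMod.subsingleton_iff.2 rfl

lemma sum1 (f : Tor 1 → ℝ) : ∑ y : Tor 1, f y = f 0 := by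
  have := sub1
  have hy : ∀ y : Tor 1, y = 0 := fun y => Subsingleton.elim _ _
  exact Finset.sum_eq_single (0 : Tor 1) (fun y _ h => absurd (hy y) h)
    (fun h => absurd (Finset.mem_univ _) h)

variable {N : ℕ}

/-- two holonomies as a configuration on the torus with one point -/
def p1 (A B : SU N) : Ph N 1 := fun _ j => if j = 0 then A else B

lemma VV_p1 (k : ℕ) (A B : SU N) : VV k (p1 A B) =
    ‖(A : Mt N) * (B : Mt N) - om N k • ((B : Mt N) * (A : Mt N))‖ ^ 2 / 2 := by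
  have := sub1
  rw [VV, sum1]
  have e2 : tw N k (0 : Tor 1) = om N k := by
    rw [tw, if_pos (Subsingleton.elim _ _)]
  rw [e2]
  simp [p1]

lemma vac_p1 (P Q : SU N) : (vac P Q : Ph N 1) = p1 P Q := by
  have := sub1
  funext y j
  have h1 : y.1 = -1 := Subsingleton.elim _ _
  have h2 : y.2 = -1 := Subsingleton.elim _ _
  rw [vac, if_pos h1, if_pos h2, p1]

lemma dst_p1 (A B P Q : SU N) : dst (p1 A B) (p1 P Q) =
    ‖(A : Mt N) - (P : Mt N)‖ ^ 2 + ‖(B : Mt N) - (Q : Mt N)‖ ^ 2 := by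
  rw [dst, sum1, Fin.sum_univ_two]
  simp [p1]

lemma act_p1 (g : Tor 1 → SU N) (A B : SU N) :
    act g (p1 A B) = p1 (g 0 * A * (g 0)⁻¹) (g 0 * B * (g 0)⁻¹) := by
  have := sub1
  funext y j
  rw [act, Subsingleton.elim (tsh y j) 0, Subsingleton.elim y 0, p1, p1]
  split_ifs <;> rfl

/-- the frame: D1 at `L = 1` -/
lemma frame (hD1 : S_D1) {k : ℕ} (hN : 2 ≤ N) (hk : Nat.Coprime k N) {P Q : SU N}
    (h : PQ k P Q) : ∃ C : ℝ, 0 < C ∧ ∀ (A B : SU N) (δ : ℝ),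
    ‖(A : Mt N) * (B : Mt N) - om N k • ((B : Mt N) * (A : Mt N))‖ ≤ δ →
    ∃ g : SU N, dst (p1 (g * A * g⁻¹) (g * B * g⁻¹)) (vac P Q) ≤ C * δ ^ 2 := by
  obtain ⟨C, hC, h1⟩ := hD1 N k 1 hN hk P Q h
  refine ⟨C, hC, fun A B δ hδ => ?_⟩
  obtain ⟨g, hg⟩ := h1 (p1 A B)
  refine ⟨g 0, ?_⟩
  rw [act_p1, VV_p1] at hg
  refine hg.trans ?_
  have h2 : ‖(A : Mt N) * (B : Mt N) - om N k • ((B : Mt N) * (A : Mt N))‖ ^ 2 ≤ δ ^ 2 :=
    pow_le_pow_left₀ (norm_nonneg _) hδ 2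
  have h3 : 0 ≤ ‖(A : Mt N) * (B : Mt N) - om N k • ((B : Mt N) * (A : Mt N))‖ ^ 2 := sq_nonneg _
  gcongr
  linarith

/-- the link: J at `L = 1` -/
lemma link (hJ : S_J) {k : ℕ} (hN : 2 ≤ N) (hk : Nat.Coprime k N) {P Q : SU N}
    (h : PQ k P Q) : ∃ C : ℝ, 0 < C ∧ ∀ (g g' A B A' B' U : SU N) (e : ℝ),
    dst (p1 (g * A * g⁻¹) (g * B * g⁻¹)) (vac P Q) ≤ e →
    dst (p1 (g' * A' * g'⁻¹) (g' * B' * g'⁻¹)) (vac P Q) ≤ e →
    ‖(A : Mt N) * (U : Mt N) - (U : Mt N) * (A' : Mt N)‖ ^ 2 +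
      ‖(B : Mt N) * (U : Mt N) - (U : Mt N) * (B' : Mt N)‖ ^ 2 ≤ e →
    ∃ m : Fin N, ‖((g * U * g'⁻¹ : SU N) : Mt N) - om N m • (1 : Mt N)‖ ^ 2 ≤ C * e := by
  obtain ⟨C, hC, h1⟩ := hJ N k 1 hN hk P Q h
  refine ⟨C, hC, fun g g' A B A' B' U e e1 e2 e3 => ?_⟩
  have key : ∀ X X' : SU N,
      ‖((g * U * g'⁻¹ : SU N) : Mt N) * ((g' * X' * g'⁻¹ : SU N) : Mt N) -
        ((g * X * g⁻¹ : SU N) : Mt N) * ((g * U * g'⁻¹ : SU N) : Mt N)‖ =
      ‖(X : Mt N) * (U : Mt N) - (U : Mt N) * (X' : Mt N)‖ := by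
    intro X X'
    have e4 : ((g * U * g'⁻¹ : SU N) : Mt N) * ((g' * X' * g'⁻¹ : SU N) : Mt N) -
        ((g * X * g⁻¹ : SU N) : Mt N) * ((g * U * g'⁻¹ : SU N) : Mt N) =
        (g : Mt N) * ((U : Mt N) * (X' : Mt N) - (X : Mt N) * (U : Mt N)) *
          ((g'⁻¹ : SU N) : Mt N) := by
      rw [← cmul, ← cmul]
      have a1 : (g * U * g'⁻¹ * (g' * X' * g'⁻¹) : SU N) = g * (U * X') * g'⁻¹ := by group
      have a2 : (g * X * g⁻¹ * (g * U * g'⁻¹) : SU N) = g * (X * U) * g'⁻¹ := by group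
      rw [a1, a2]
      simp only [cmul, Matrix.mul_sub, Matrix.sub_mul]
    rw [e4, nr, nl, norm_sub_rev]
  obtain ⟨m, hm⟩ := h1 (p1 (g * A * g⁻¹) (g * B * g⁻¹)) (p1 (g' * A' * g'⁻¹) (g' * B' * g'⁻¹))
    (fun _ => g * U * g'⁻¹) e e1 e2 (by
      rw [sum1, Fin.sum_univ_two]
      simp only [p1, if_pos, one_ne_zero, if_false]
      rw [key, key]
      exact e3)
  refine ⟨m, ?_⟩
  rw [sum1] at hm
  exact hm

/-! ### roots of unity -/

lemma sep (hN : N ≠ 0) : ∃ ε : ℝ, 0 < ε ∧ ∀ a : ℤ, ‖oz N a - 1‖ < ε → (N : ℤ) ∣ a := by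
  classical
  set S : Set ℂ := Set.range (fun m : Fin N => om N (m : ℕ)) \ {1} with hS
  have hfin : S.Finite := (Set.finite_range _).subset Set.sdiff_subset
  have hopen : IsOpen Sᶜ := hfin.isClosed.isOpen_compl
  have h1 : (1 : ℂ) ∈ Sᶜ := fun h => h.2 rfl
  obtain ⟨ε, hε, hb⟩ := Metric.isOpen_iff.1 hopen 1 h1
  refine ⟨ε, hε, fun a ha => ?_⟩
  have h2 : oz N a ∈ Metric.ball (1 : ℂ) ε := by
    rw [Metric.mem_ball, dist_eq_norm]
    exact ha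
  have h3 := hb h2
  by_contra h4
  apply h3
  obtain ⟨m, hm⟩ := PkgVA.exists_om hN a
  refine ⟨⟨m, hm.symm⟩, fun h5 => h4 ((PkgVA.oz_eq_one hN a).1 h5)⟩

lemma one_le_norm (hN : 2 ≤ N) : 1 ≤ ‖(1 : Mt N)‖ := by
  have h : ‖(1 : Mt N)‖₊ = NNReal.sqrt (Fintype.card (Fin N)) * ‖(1 : ℂ)‖₊ :=
    Matrix.frobenius_nnnorm_one
  have h2 : ‖(1 : Mt N)‖ = Real.sqrt N := by
    have h3 := congrArg NNReal.toReal h
    simpa using h3
  rw [h2, Real.one_le_sqrt]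
  exact_mod_cast (by omega : 1 ≤ N)

lemma two (V W : SU N) (c d : ℂ) (hd : ‖d‖ = 1) {r : ℝ}
    (h1 : ‖(V : Mt N) - c • (1 : Mt N)‖ ≤ r) (h2 : ‖(W : Mt N) - d • (1 : Mt N)‖ ≤ r) :
    ‖(V : Mt N) * (W : Mt N) - (c * d) • (1 : Mt N)‖ ≤ 2 * r := by
  have e : (V : Mt N) * (W : Mt N) - (c * d) • (1 : Mt N) =
      (V : Mt N) * ((W : Mt N) - d • (1 : Mt N)) + d • ((V : Mt N) - c • (1 : Mt N)) := by
    rw [Matrix.mul_sub, Matrix.mul_smul, Matrix.mul_one, smul_sub, smul_smul, mul_comm d c]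
    abel
  rw [e]
  refine (norm_add_le _ _).trans ?_
  rw [nl, norm_smul, hd, one_mul]
  linarith

lemma plaq (hN : 2 ≤ N) (V1 V2 V3 V4 : SU N) (c1 c2 c3 c4 ζ : ℂ) (hζ : ‖ζ‖ = 1) (h2 : ‖c2‖ = 1)
    (h4 : ‖c4‖ = 1) {r δ : ℝ}
    (a1 : ‖(V1 : Mt N) - c1 • (1 : Mt N)‖ ≤ r) (a2 : ‖(V2 : Mt N) - c2 • (1 : Mt N)‖ ≤ r)
    (a3 : ‖(V3 : Mt N) - c3 • (1 : Mt N)‖ ≤ r) (a4 : ‖(V4 : Mt N) - c4 • (1 : Mt N)‖ ≤ r)
    (h : ‖(V1 : Mt N) * (V2 : Mt N) - ζ • ((V3 : Mt N) * (V4 : Mt N))‖ ≤ δ) :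
    ‖c1 * c2 - ζ * (c3 * c4)‖ ≤ δ + 4 * r := by
  have b1 := two V1 V2 c1 c2 h2 a1 a2
  have b2 := two V3 V4 c3 c4 h4 a3 a4
  have b3 : ‖ζ • ((V3 : Mt N) * (V4 : Mt N) - (c3 * c4) • (1 : Mt N))‖ ≤ 2 * r := by
    rw [norm_smul, hζ, one_mul]
    exact b2
  have e : (c1 * c2 - ζ * (c3 * c4)) • (1 : Mt N) =
      ((V1 : Mt N) * (V2 : Mt N) - ζ • ((V3 : Mt N) * (V4 : Mt N))) -
      ((V1 : Mt N) * (V2 : Mt N) - (c1 * c2) • (1 : Mt N)) +
      ζ • ((V3 : Mt N) * (V4 : Mt N) - (c3 * c4) • (1 : Mt N)) := by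
    rw [sub_smul, smul_sub, smul_smul]
    abel
  have h5 : ‖(c1 * c2 - ζ * (c3 * c4)) • (1 : Mt N)‖ ≤ δ + 4 * r := by
    rw [e]
    refine (norm_add_le _ _).trans ?_
    have h6 := norm_sub_le ((V1 : Mt N) * (V2 : Mt N) - ζ • ((V3 : Mt N) * (V4 : Mt N)))
      ((V1 : Mt N) * (V2 : Mt N) - (c1 * c2) • (1 : Mt N))
    linarith
  rw [norm_smul] at h5
  have h7 := one_le_norm hN
  have h8 := norm_nonneg (c1 * c2 - ζ * (c3 * c4))
  nlinarith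

/-! ### summation -/

lemma sumz (S : Finset Pl) (z0 z1 : Pl → ℤ) (e0 e1 a : Pl) (n M : ℤ)
    (h0 : ∀ w, w ∉ S → w + e0 ∉ S → z0 w = 0) (h1 : ∀ w, w ∉ S → w + e1 ∉ S → z1 w = 0)
    (h : ∀ w, M ∣ (z0 w + z1 (w + e0)) - ((if w = a then n else 0) + (z1 w + z0 (w + e1)))) :
    M ∣ n := by
  have fin : ∀ (z : Pl → ℤ) (e : Pl), (∀ w, w ∉ S → w + e ∉ S → z w = 0) →
      (Function.support z).Finite := by
    intro z e hz
    refine (S.finite_toSet.union (S.finite_toSet.image (fun w => w - e))).subset ?_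
    intro w hw
    by_contra h3
    simp only [Set.mem_union, Finset.mem_coe, Set.mem_image, not_or, not_exists, not_and] at h3
    exact hw (hz w h3.1 fun h4 => h3.2 _ h4 (by abel))
  have f0 := fin z0 e0 h0
  have f1 := fin z1 e1 h1
  have shf : ∀ (z : Pl → ℤ) (e : Pl), (Function.support z).Finite →
      (Function.support fun w => z (w + e)).Finite := by
    intro z e hz
    exact hz.preimage (f := fun w => w + e) (fun x _ y _ hxy => add_right_cancel hxy)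
  have f0' := shf z0 e1 f0
  have f1' := shf z1 e0 f1
  have fa : (Function.support fun w : Pl => if w = a then n else 0).Finite := by
    refine (Set.finite_singleton a).subset ?_
    intro w hw
    by_contra h3
    exact hw (if_neg h3)
  have s0 : ∑ᶠ w, z0 (w + e1) = ∑ᶠ w, z0 w := finsum_comp_equiv (Equiv.addRight e1)
  have s1 : ∑ᶠ w, z1 (w + e0) = ∑ᶠ w, z1 w := finsum_comp_equiv (Equiv.addRight e0)
  have sa : ∑ᶠ w : Pl, (if w = a then n else 0) = n := by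
    rw [finsum_eq_single _ a (fun w hw => if_neg hw), if_pos rfl]
  have fA : (Function.support fun w => z0 w + z1 (w + e0)).Finite :=
    (f0.union f1').subset (Function.support_add _ _)
  have fB : (Function.support fun w => z1 w + z0 (w + e1)).Finite :=
    (f1.union f0').subset (Function.support_add _ _)
  have fC : (Function.support fun w => (if w = a then n else 0) + (z1 w + z0 (w + e1))).Finite :=
    (fa.union fB).subset (Function.support_add _ _)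
  have key := finsum_induction (f := fun w => (z0 w + z1 (w + e0)) -
    ((if w = a then n else 0) + (z1 w + z0 (w + e1)))) (fun x => M ∣ x) (dvd_zero _)
    (fun _ _ => dvd_add) h
  rw [finsum_sub_distrib fA fC, finsum_add_distrib f0 f1', finsum_add_distrib fa fB,
    finsum_add_distrib f1 f0', s0, s1, sa] at key
  have e : ∑ᶠ w, z0 w + ∑ᶠ w, z1 w - (n + (∑ᶠ w, z1 w + ∑ᶠ w, z0 w)) = -n := by ring
  rw [e] at key
  exact (dvd_neg).1 key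

end T2H01.SE.PkgXB

namespace T2H01.SE

open T2H02.TT T2H02.TT.PkgD T2H02.TT.PkgJ PkgXB

theorem pXB (hA1 : S_A1) (hA2 : S_A2) (hD1 : S_D1) (hJ : S_J) : S_XB := by
  intro N k hN hk
  have hN0 : N ≠ 0 := by omega
  obtain ⟨P₀, Q₀, h₀⟩ := hA1 N k hN hk
  obtain ⟨C₁, hC₁, hfr⟩ := frame hD1 hN hk h₀
  obtain ⟨C₂, hC₂, hlk⟩ := link hJ hN hk h₀
  obtain ⟨ε, hε, hsep⟩ := sep hN0
  set C : ℝ := Real.sqrt (C₂ * (C₁ + 2)) with hC
  have hC0 : 0 ≤ C := Real.sqrt_nonneg _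
  have hCsq : C ^ 2 = C₂ * (C₁ + 2) := Real.sq_sqrt (by positivity)
  refine ⟨ε / (2 * (1 + 4 * C)), by positivity, ?_⟩
  set δ : ℝ := ε / (2 * (1 + 4 * C)) with hδ
  have hδ0 : 0 < δ := by positivity
  have hδε : δ + 4 * (C * δ) < ε := by
    have : δ * (2 * (1 + 4 * C)) = ε := by
      rw [hδ]; field_simp
    nlinarith
  intro P Q hPQ A B U n a K hAB hU hpl hout
  obtain ⟨g₀, hg1, hg2⟩ := hA2 N k hN hk P Q P₀ Q₀ hPQ h₀
  -- frames
  have hfra : ∀ w, ∃ g : SU N, dst (p1 (g * A w * g⁻¹) (g * B w * g⁻¹)) (vac P₀ Q₀) ≤ C₁ * δ ^ 2 ∧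
      (w ∉ Nb K 0 → g = g₀) := by
    intro w
    by_cases hw : w ∈ Nb K 0
    · obtain ⟨g, hg⟩ := hfr (A w) (B w) δ (hAB w)
      exact ⟨g, hg, fun h => absurd hw h⟩
    · refine ⟨g₀, ?_, fun _ => rfl⟩
      obtain ⟨h1, h2, -⟩ := hout w hw
      rw [h1, h2, ← hg1, ← hg2, vac_p1, dst_self]
      positivity
  choose g hgd hg0 using hfra
  -- links
  have hz : ∀ w (m : Fin 4), m = 0 ∨ m = 1 → ∃ z : ℕ,
      ‖((g w * U w m * (g (w + pe m))⁻¹ : SU N) : Mt N) - om N z • (1 : Mt N)‖ ≤ C * δ ∧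
      (w ∉ Nb K 0 → w + pe m ∉ Nb K 0 → z = 0) := by
    intro w m hm
    by_cases hw : w ∉ Nb K 0 ∧ w + pe m ∉ Nb K 0
    · refine ⟨0, ?_, fun _ _ => rfl⟩
      obtain ⟨-, -, h3⟩ := hout w hw.1
      have e1 : (g w * U w m * (g (w + pe m))⁻¹ : SU N) = 1 := by
        rw [h3 m hm, hg0 w hw.1, hg0 _ hw.2]
        group
      have e2 : om N 0 = 1 := by simp [om]
      rw [e1, e2, cone, one_smul, sub_self, norm_zero]
      positivity
    · obtain ⟨h3, h4⟩ := hU w m hm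
      have h5 : ‖(A w : Mt N) * (U w m : Mt N) - (U w m : Mt N) * (A (w + pe m) : Mt N)‖ ^ 2 +
          ‖(B w : Mt N) * (U w m : Mt N) - (U w m : Mt N) * (B (w + pe m) : Mt N)‖ ^ 2 ≤
          (C₁ + 2) * δ ^ 2 := by
        have h6 := pow_le_pow_left₀ (norm_nonneg _) h3 2
        have h7 := pow_le_pow_left₀ (norm_nonneg _) h4 2
        nlinarith [mul_pos hC₁ (pow_pos hδ0 2)]
      have h8 : C₁ * δ ^ 2 ≤ (C₁ + 2) * δ ^ 2 := by
        have := pow_pos hδ0 2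
        nlinarith
      obtain ⟨z, hz⟩ := hlk (g w) (g (w + pe m)) (A w) (B w) (A (w + pe m)) (B (w + pe m)) (U w m)
        ((C₁ + 2) * δ ^ 2) ((hgd w).trans h8) ((hgd _).trans h8) h5
      refine ⟨z, ?_, fun h9 h10 => absurd ⟨h9, h10⟩ hw⟩
      have h11 : C₂ * ((C₁ + 2) * δ ^ 2) = (C * δ) ^ 2 := by
        rw [mul_pow, hCsq]; ring
      rw [h11] at hz
      exact le_of_sq_le_sq hz (by positivity)
  choose z0 hz0 hz0' using fun w => hz w 0 (Or.inl rfl)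
  choose z1 hz1 hz1' using fun w => hz w 1 (Or.inr rfl)
  refine sumz (Nb K 0) (fun w => (z0 w : ℤ)) (fun w => (z1 w : ℤ)) (pe 0) (pe 1) a n N
    (fun w h1 h2 => by exact_mod_cast hz0' w h1 h2) (fun w h1 h2 => by exact_mod_cast hz1' w h1 h2)
    fun w => ?_
  apply hsep
  have hcomm : w + pe 0 + pe 1 = w + pe 1 + pe 0 := by abel
  -- the plaquette
  have hplw : ‖((g w * U w 0 * (g (w + pe 0))⁻¹ : SU N) : Mt N) *
      ((g (w + pe 0) * U (w + pe 0) 1 * (g (w + pe 0 + pe 1))⁻¹ : SU N) : Mt N) -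
      oz N (if w = a then n else 0) • (((g w * U w 1 * (g (w + pe 1))⁻¹ : SU N) : Mt N) *
      ((g (w + pe 1) * U (w + pe 1) 0 * (g (w + pe 1 + pe 0))⁻¹ : SU N) : Mt N))‖ ≤ δ := by
    have e4 : ((g w * U w 0 * (g (w + pe 0))⁻¹ : SU N) : Mt N) *
        ((g (w + pe 0) * U (w + pe 0) 1 * (g (w + pe 0 + pe 1))⁻¹ : SU N) : Mt N) -
        oz N (if w = a then n else 0) • (((g w * U w 1 * (g (w + pe 1))⁻¹ : SU N) : Mt N) *
        ((g (w + pe 1) * U (w + pe 1) 0 * (g (w + pe 1 + pe 0))⁻¹ : SU N) : Mt N)) =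
        (g w : Mt N) * ((U w 0 : Mt N) * (U (w + pe 0) 1 : Mt N) -
          oz N (if w = a then n else 0) • ((U w 1 : Mt N) * (U (w + pe 1) 0 : Mt N))) *
          (((g (w + pe 0 + pe 1))⁻¹ : SU N) : Mt N) := by
      rw [← hcomm, ← cmul, ← cmul]
      have a1 : (g w * U w 0 * (g (w + pe 0))⁻¹ *
          (g (w + pe 0) * U (w + pe 0) 1 * (g (w + pe 0 + pe 1))⁻¹) : SU N) =
          g w * (U w 0 * U (w + pe 0) 1) * (g (w + pe 0 + pe 1))⁻¹ := by group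
      have a2 : (g w * U w 1 * (g (w + pe 1))⁻¹ *
          (g (w + pe 1) * U (w + pe 1) 0 * (g (w + pe 0 + pe 1))⁻¹) : SU N) =
          g w * (U w 1 * U (w + pe 1) 0) * (g (w + pe 0 + pe 1))⁻¹ := by group
      rw [a1, a2]
      simp only [cmul, Matrix.mul_sub, Matrix.sub_mul, Matrix.mul_smul, Matrix.smul_mul]
    rw [e4, nr, nl]
    exact hpl w
  have h1 := plaq hN _ _ _ _ (om N (z0 w)) (om N (z1 (w + pe 0))) (om N (z1 w))
    (om N (z0 (w + pe 1))) (oz N (if w = a then n else 0)) (PkgVA.norm_oz _ _) (om_norm _ _)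
    (om_norm _ _) (hz0 w) (hz1 (w + pe 0)) (hz1 w) (hz0 (w + pe 1)) hplw
  rw [← PkgVA.oz_nat, ← PkgVA.oz_nat, ← PkgVA.oz_nat, ← PkgVA.oz_nat, ← PkgVA.oz_add,
    ← PkgVA.oz_add, ← PkgVA.oz_add] at h1
  have h2 : oz N ((z0 w : ℤ) + (z1 (w + pe 0) : ℤ)) =
      oz N (((z0 w : ℤ) + (z1 (w + pe 0) : ℤ)) -
        ((if w = a then n else 0) + ((z1 w : ℤ) + (z0 (w + pe 1) : ℤ)))) *
      oz N ((if w = a then n else 0) + ((z1 w : ℤ) + (z0 (w + pe 1) : ℤ))) := by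
    rw [← PkgVA.oz_add, sub_add_cancel]
  rw [h2] at h1
  have h3 : ∀ x y : ℂ, ‖y‖ = 1 → ‖x * y - y‖ = ‖x - 1‖ := by
    intro x y hy
    have : x * y - y = (x - 1) * y := by ring
    rw [this, norm_mul, hy, mul_one]
  rw [h3 _ _ (PkgVA.norm_oz _ _)] at h1
  exact lt_of_le_of_lt h1 hδε

end T2H01.SE
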