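import Pool.Agent.T2H01.SE.Stm9

/-!
# Package XC : choice of the coarse lattice by averaging
-/

set_option autoImplicit false

noncomputable section

open MeasureTheory Matrix
open scoped Matrix.Norms.Frobenius

namespace T2H01.SE.PkgXC

open T2H02.TT

/-- energy density of the plaquette at `p` in the directions `d` -/
def ee {N L : ℕ} [NeZero L] (k : ℕ) (n : ℤ) (X : Cf N L) (d : Fin 4 × Fin 4) (p : Pt L) : ℝ :=
  ‖df X (twz N k n d.1 d.2 p) p d.1 d.2‖ ^ 2 / 2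

lemma ee_nonneg {N L : ℕ} [NeZero L] (k : ℕ) (n : ℤ) (X : Cf N L) (d : Fin 4 × Fin 4) (p : Pt L) :
    0 ≤ ee k n X d p := by
  unfold ee; positivity

lemma sum_dirs (f : Fin 4 × Fin 4 → ℝ) : ∑ d ∈ dirs, f d =
    f (2, 3) + (f (0, 2) + (f (0, 3) + (f (1, 2) + (f (1, 3) + f (0, 1))))) := by
  unfold dirs
  rw [Finset.sum_insert (by decide), Finset.sum_insert (by decide), Finset.sum_insert (by decide),
    Finset.sum_insert (by decide), Finset.sum_insert (by decide), Finset.sum_singleton]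

lemma sum_site {N L : ℕ} [NeZero L] (k : ℕ) (n : ℤ) (X : Cf N L) (x : Pl) :
    ∑ y : Tor L, ∑ d ∈ dirs, ee k n X d (x, y) = ∑ i : Fin 4, enf k (dl 0 n) X (x, i) := by
  rw [Fin.sum_univ_four]
  simp only [sum_dirs, Finset.sum_add_distrib]
  have h0 : enf k (dl 0 n) X (x, 0) = ∑ y : Tor L, ee k n X (2, 3) (x, y) := by
    simp [enf, en1, eV, ee, twz]
  have h1 : enf k (dl 0 n) X (x, 1) =
      ∑ y : Tor L, ee k n X (0, 2) (x, y) + ∑ y : Tor L, ee k n X (0, 3) (x, y) := by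
    rw [← Finset.sum_add_distrib]
    simp [enf, en1, eK, ee, twz]
  have h2 : enf k (dl 0 n) X (x, 2) =
      ∑ y : Tor L, ee k n X (1, 2) (x, y) + ∑ y : Tor L, ee k n X (1, 3) (x, y) := by
    rw [← Finset.sum_add_distrib]
    simp [enf, en1, eK, ee, twz]
  have h3 : enf k (dl 0 n) X (x, 3) = ∑ y : Tor L, ee k n X (0, 1) (x, y) := by
    simp [enf, eP, ee, twz]
  rw [h0, h1, h2, h3]
  ring

lemma sum_le {N L : ℕ} [NeZero L] (k : ℕ) (n : ℤ) (X : Cf N L) (E : ℝ)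
    (hE : ∀ T : Finset Tm, ∑ τ ∈ T, enf k (dl 0 n) X τ ≤ E) (V : Finset Pl) :
    ∑ p ∈ V ×ˢ (Finset.univ : Finset (Tor L)), ∑ d ∈ dirs, ee k n X d p ≤ E := by
  rw [Finset.sum_product]
  calc ∑ x ∈ V, ∑ y : Tor L, ∑ d ∈ dirs, ee k n X d (x, y)
      = ∑ x ∈ V, ∑ i : Fin 4, enf k (dl 0 n) X (x, i) :=
        Finset.sum_congr rfl fun x _ => sum_site k n X x
    _ = ∑ τ ∈ V ×ˢ (Finset.univ : Finset (Fin 4)), enf k (dl 0 n) X τ := by
        rw [Finset.sum_product]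
    _ ≤ E := hE _

lemma FF_sq {N L : ℕ} [NeZero L] (k : ℕ) (n : ℤ) (X : Cf N L) (d : Fin 4 × Fin 4) (p : Pt L) :
    FF X (twz N k n d.1 d.2) d.1 d.2 p ^ 2 ≤
      2 * (L : ℝ) ^ 2 * ∑ a ∈ Finset.range L, ∑ b ∈ Finset.range L,
        ee k n X d (mv d.2 b (mv d.1 a p)) := by
  unfold FF
  refine (sq_sum_le_card_mul_sum_sq).trans ?_
  rw [Finset.card_range]
  have h : ∀ a ∈ Finset.range L,
      (∑ b ∈ Finset.range L, ‖df X (twz N k n d.1 d.2 (mv d.2 b (mv d.1 a p)))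
        (mv d.2 b (mv d.1 a p)) d.1 d.2‖) ^ 2 ≤
      (L : ℝ) * ∑ b ∈ Finset.range L, 2 * ee k n X d (mv d.2 b (mv d.1 a p)) := by
    intro a _
    refine (sq_sum_le_card_mul_sum_sq).trans (le_of_eq ?_)
    rw [Finset.card_range]
    congr 1
    refine Finset.sum_congr rfl fun b _ => ?_
    unfold ee; ring
  calc (L : ℝ) * ∑ a ∈ Finset.range L, (∑ b ∈ Finset.range L,
          ‖df X (twz N k n d.1 d.2 (mv d.2 b (mv d.1 a p))) (mv d.2 b (mv d.1 a p)) d.1 d.2‖) ^ 2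
      ≤ (L : ℝ) * ∑ a ∈ Finset.range L,
          ((L : ℝ) * ∑ b ∈ Finset.range L, 2 * ee k n X d (mv d.2 b (mv d.1 a p))) :=
        mul_le_mul_of_nonneg_left (Finset.sum_le_sum h) (Nat.cast_nonneg _)
    _ = 2 * (L : ℝ) ^ 2 * ∑ a ∈ Finset.range L, ∑ b ∈ Finset.range L,
        ee k n X d (mv d.2 b (mv d.1 a p)) := by
        simp only [← Finset.mul_sum]
        ring

lemma nx_inj {L : ℕ} (i : Fin 4) : Function.Injective fun q : Pt L => nx q i := by
  rintro ⟨x, y⟩ ⟨x', y'⟩ h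
  simp only [nx, Prod.mk.injEq] at h
  obtain ⟨h1, h2⟩ := h
  have h1' : x = x' := add_right_cancel h1
  have ts : ∀ j : Fin 2, ∀ u v : Tor L, tsh u j = tsh v j → u = v := by
    rintro j ⟨u1, u2⟩ ⟨v1, v2⟩ huv
    unfold tsh at huv
    split_ifs at huv
    · simp only [Prod.mk.injEq, add_left_inj] at huv
      exact Prod.ext huv.1 huv.2
    · simp only [Prod.mk.injEq, add_left_inj] at huv
      exact Prod.ext huv.1 huv.2
  have h2' : y = y' := by
    split_ifs at h2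
    · exact ts _ _ _ h2
    · exact ts _ _ _ h2
    · exact h2
  rw [h1', h2']

lemma mv_inj {L : ℕ} (i : Fin 4) (a : ℕ) : Function.Injective fun q : Pt L => mv i a q :=
  (nx_inj i).iterate a

/-- the box `[0, L)²` -/
def bx (L : ℕ) : Finset Pl := Finset.Ico 0 (L : ℤ) ×ˢ Finset.Ico 0 (L : ℤ)

lemma bx_card (L : ℕ) : (bx L).card = L * L := by
  unfold bx
  rw [Finset.card_product, Int.card_Ico]
  simp

lemma one_dim {L : ℤ} (a a' w w' : ℤ) (h0 : 0 ≤ a) (h1 : a < L) (h0' : 0 ≤ a') (h1' : a' < L)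
    (h : a + L * w = a' + L * w') : a = a' ∧ w = w' := by
  have hL : 0 < L := lt_of_le_of_lt h0 h1
  have e1 : (a + L * w) / L = w := by
    rw [Int.add_mul_ediv_left _ _ hL.ne', Int.ediv_eq_zero_of_lt h0 h1, zero_add]
  have e2 : (a' + L * w') / L = w' := by
    rw [Int.add_mul_ediv_left _ _ hL.ne', Int.ediv_eq_zero_of_lt h0' h1', zero_add]
  have e3 : w = w' := by rw [← e1, ← e2, h]
  subst e3
  exact ⟨add_right_cancel h, rfl⟩

/-- the map `((x₀, y), w) ↦ (x₀ + L w, y)` -/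
def em (L : ℕ) (q : (Pl × Tor L) × Pl) : Pt L := (q.1.1 + (L : ℤ) • q.2, q.1.2)

lemma em_inj (L : ℕ) [NeZero L] (W : Finset Pl) :
    Set.InjOn (em L) ((bx L ×ˢ (Finset.univ : Finset (Tor L))) ×ˢ W : Finset ((Pl × Tor L) × Pl)) := by
  rintro ⟨⟨⟨a1, a2⟩, y⟩, ⟨w1, w2⟩⟩ h ⟨⟨⟨b1, b2⟩, y'⟩, ⟨v1, v2⟩⟩ h' he
  simp only [Finset.mem_coe, bx, Finset.mem_product, Finset.mem_Ico] at h h'
  simp only [em, Prod.mk.injEq, Prod.smul_mk, Prod.mk_add_mk, smul_eq_mul] at he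
  obtain ⟨⟨e1, e2⟩, e3⟩ := he
  obtain ⟨r1, r2⟩ := one_dim _ _ _ _ h.1.1.1.1 h.1.1.1.2 h'.1.1.1.1 h'.1.1.1.2 e1
  obtain ⟨r3, r4⟩ := one_dim _ _ _ _ h.1.1.2.1 h.1.1.2.2 h'.1.1.2.1 h'.1.1.2.2 e2
  subst r1 r2 r3 r4 e3
  rfl

lemma total {N L : ℕ} [NeZero L] (k : ℕ) (n : ℤ) (X : Cf N L) (E : ℝ)
    (hE : ∀ T : Finset Tm, ∑ τ ∈ T, enf k (dl 0 n) X τ ≤ E) (W : Finset Pl) (a b : ℕ) :
    ∑ q ∈ (bx L ×ˢ (Finset.univ : Finset (Tor L))) ×ˢ W, ∑ d ∈ dirs,
      ee k n X d (mv d.2 b (mv d.1 a (em L q))) ≤ E := by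
  classical
  set Q := (bx L ×ˢ (Finset.univ : Finset (Tor L))) ×ˢ W with hQ
  set V : Finset Pl := dirs.biUnion fun d => Q.image fun q => (mv d.2 b (mv d.1 a (em L q))).1
    with hV
  rw [Finset.sum_comm]
  calc ∑ d ∈ dirs, ∑ q ∈ Q, ee k n X d (mv d.2 b (mv d.1 a (em L q)))
      ≤ ∑ d ∈ dirs, ∑ p ∈ V ×ˢ (Finset.univ : Finset (Tor L)), ee k n X d p := by
        refine Finset.sum_le_sum fun d hd => ?_
        rw [← Finset.sum_image (f := fun p => ee k n X d p)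
          (g := fun q => mv d.2 b (mv d.1 a (em L q)))]
        · refine Finset.sum_le_sum_of_subset_of_nonneg ?_ fun p _ _ => ee_nonneg k n X d p
          intro p hp
          obtain ⟨q, hq, rfl⟩ := Finset.mem_image.1 hp
          refine Finset.mem_product.2 ⟨?_, Finset.mem_univ _⟩
          rw [hV]
          exact Finset.mem_biUnion.2 ⟨d, hd, Finset.mem_image.2 ⟨q, hq, rfl⟩⟩
        · intro q hq q' hq' h
          exact em_inj L W (by simpa [hQ] using hq) (by simpa [hQ] using hq')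
            (mv_inj d.1 a (mv_inj d.2 b h))
    _ = ∑ p ∈ V ×ˢ (Finset.univ : Finset (Tor L)), ∑ d ∈ dirs, ee k n X d p := Finset.sum_comm
    _ ≤ E := sum_le k n X E hE V

end T2H01.SE.PkgXC

namespace T2H01.SE

open T2H02.TT PkgXC

theorem pXC : S_XC := by
  intro N k L _ n X E hE M
  classical
  set B : Finset (Pl × Tor L) := bx L ×ˢ (Finset.univ : Finset (Tor L)) with hB
  have hL : 0 < L := Nat.pos_of_ne_zero (NeZero.ne L)
  have hBc : B.card = L ^ 4 := by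
    rw [hB, Finset.card_product, bx_card, Finset.card_univ, Fintype.card_prod, ZMod.card]
    ring
  have hBn : B.Nonempty := by
    rw [← Finset.card_pos, hBc]; positivity
  -- the total
  have ht : ∑ q ∈ B, ∑ w ∈ Nb M 0, ∑ d ∈ dirs,
      FF X (twz N k n d.1 d.2) d.1 d.2 (em L (q, w)) ^ 2 ≤ ∑ q ∈ B, 2 * E := by
    rw [Finset.sum_const, hBc, nsmul_eq_mul]
    calc ∑ q ∈ B, ∑ w ∈ Nb M 0, ∑ d ∈ dirs,
          FF X (twz N k n d.1 d.2) d.1 d.2 (em L (q, w)) ^ 2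
        = ∑ q ∈ B ×ˢ Nb M 0, ∑ d ∈ dirs, FF X (twz N k n d.1 d.2) d.1 d.2 (em L q) ^ 2 :=
          (Finset.sum_product B (Nb M 0) fun q => ∑ d ∈ dirs,
            FF X (twz N k n d.1 d.2) d.1 d.2 (em L q) ^ 2).symm
      _ ≤ ∑ q ∈ B ×ˢ Nb M 0, ∑ d ∈ dirs, 2 * (L : ℝ) ^ 2 * ∑ a ∈ Finset.range L,
            ∑ b ∈ Finset.range L, ee k n X d (mv d.2 b (mv d.1 a (em L q))) :=
          Finset.sum_le_sum fun q _ => Finset.sum_le_sum fun d _ => FF_sq k n X d _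
      _ = 2 * (L : ℝ) ^ 2 * ∑ a ∈ Finset.range L, ∑ b ∈ Finset.range L,
            ∑ q ∈ B ×ˢ Nb M 0, ∑ d ∈ dirs, ee k n X d (mv d.2 b (mv d.1 a (em L q))) := by
          simp only [← Finset.mul_sum]
          congr 1
          have s1 : ∀ q : (Pl × Tor L) × Pl, ∑ d ∈ dirs, ∑ a ∈ Finset.range L,
              ∑ b ∈ Finset.range L, ee k n X d (mv d.2 b (mv d.1 a (em L q))) =
              ∑ a ∈ Finset.range L, ∑ b ∈ Finset.range L, ∑ d ∈ dirs,
                ee k n X d (mv d.2 b (mv d.1 a (em L q))) := by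
            intro q
            rw [Finset.sum_comm]
            exact Finset.sum_congr rfl fun a _ => Finset.sum_comm
          simp only [s1]
          rw [Finset.sum_comm]
          exact Finset.sum_congr rfl fun a _ => Finset.sum_comm
      _ ≤ 2 * (L : ℝ) ^ 2 * ∑ a ∈ Finset.range L, ∑ b ∈ Finset.range L, E := by
          refine mul_le_mul_of_nonneg_left ?_ (by positivity)
          exact Finset.sum_le_sum fun a _ => Finset.sum_le_sum fun b _ =>
            total k n X E hE (Nb M 0) a b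
      _ = ((L ^ 4 : ℕ) : ℝ) * (2 * E) := by
          simp only [Finset.sum_const, Finset.card_range, nsmul_eq_mul]
          push_cast
          ring
  obtain ⟨⟨x₀, y⟩, hq, hle⟩ := Finset.exists_le_of_sum_le hBn ht
  have hx := (Finset.mem_product.1 (hB ▸ hq)).1
  simp only [bx, Finset.mem_product, Finset.mem_Ico] at hx
  refine ⟨x₀, y, hx.1.1, hx.1.2, hx.2.1, hx.2.2, fun w hw d hd => ?_⟩
  have h1 : FF X (twz N k n d.1 d.2) d.1 d.2 (em L ((x₀, y), w)) ^ 2 ≤ 2 * E := by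
    refine le_trans ?_ hle
    refine le_trans ?_ (Finset.single_le_sum
      (f := fun w => ∑ d ∈ dirs, FF X (twz N k n d.1 d.2) d.1 d.2 (em L ((x₀, y), w)) ^ 2)
      (fun w _ => Finset.sum_nonneg fun d _ => sq_nonneg _) hw)
    exact Finset.single_le_sum
      (f := fun d : Fin 4 × Fin 4 => FF X (twz N k n d.1 d.2) d.1 d.2 (em L ((x₀, y), w)) ^ 2)
      (fun d _ => sq_nonneg _) hd
  exact (le_abs_self _).trans (Real.abs_le_sqrt h1)

end T2H01.SE
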