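import Pool.Agent.T2H01.SE.Stm9
import Pool.Agent.T2H02.TT.E
import Pool.Agent.T2H02.TT.G2

/-!
# Package XD: lower bound of the vortex action, uniform in `L`
-/

set_option autoImplicit false
set_option linter.unusedSectionVars false

noncomputable section

open MeasureTheory Matrix
open scoped Matrix.Norms.Frobenius

namespace T2H01.SE

open T2H02.TT

namespace PkgXD

variable {N L : ℕ} [NeZero L]

/-! ### iterated steps -/

lemma mv_succ (i : Fin 4) (n : ℕ) (p : Pt L) : mv i (n + 1) p = nx (mv i n p) i := by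
  unfold mv
  rw [Function.iterate_succ_apply']

lemma mv_zero (i : Fin 4) (p : Pt L) : mv i 0 p = p := rfl

lemma mv0 (n : ℕ) (x : Pl) (y : Tor L) : mv 0 n (x, y) = (x + ((n : ℤ), 0), y) := by
  induction n with
  | zero => rw [mv_zero]; simp [h00]
  | succ n ih =>
    rw [mv_succ, ih, nx0]
    congr 1
    rw [add_assoc]
    congr 1

lemma mv1 (n : ℕ) (x : Pl) (y : Tor L) : mv 1 n (x, y) = (x + (0, (n : ℤ)), y) := by
  induction n with
  | zero => rw [mv_zero]; simp [h00]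
  | succ n ih =>
    rw [mv_succ, ih, nx1]
    congr 1
    rw [add_assoc]
    congr 1

lemma mv2 (n : ℕ) (x : Pl) (y : Tor L) : mv 2 n (x, y) = (x, (y.1 + (n : ZMod L), y.2)) := by
  induction n with
  | zero => rw [mv_zero]; simp
  | succ n ih =>
    rw [mv_succ, ih, nx2]
    simp only [tsh, if_true]
    push_cast
    rw [add_assoc]

lemma mv3 (n : ℕ) (x : Pl) (y : Tor L) : mv 3 n (x, y) = (x, (y.1, y.2 + (n : ZMod L))) := by
  induction n with
  | zero => rw [mv_zero]; simp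
  | succ n ih =>
    rw [mv_succ, ih, nx3]
    simp only [tsh]
    push_cast
    rw [add_assoc]

lemma mv2L (x : Pl) (y : Tor L) : mv 2 L (x, y) = (x, y) := by
  rw [mv2]; simp

lemma mv3L (x : Pl) (y : Tor L) : mv 3 L (x, y) = (x, y) := by
  rw [mv3]; simp

/-! ### products of the twists -/

lemma prod_sq {f : ℕ → ℕ → ℂ} {c : ℂ} {a₀ b₀ : ℕ} (ha : a₀ < L) (hb : b₀ < L)
    (h : ∀ a < L, ∀ b < L, f a b = if a = a₀ ∧ b = b₀ then c else 1) :
    ∏ a ∈ Finset.range L, ∏ b ∈ Finset.range L, f a b = c := by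
  rw [Finset.prod_eq_single a₀]
  · rw [Finset.prod_eq_single b₀]
    · rw [h a₀ ha b₀ hb, if_pos ⟨rfl, rfl⟩]
    · intro b hb' hne
      rw [h a₀ ha b (Finset.mem_range.1 hb'), if_neg (fun h' => hne h'.2)]
    · intro h'; exact absurd (Finset.mem_range.2 hb) h'
  · intro a ha' hne
    refine Finset.prod_eq_one fun b hb' => ?_
    rw [h a (Finset.mem_range.1 ha') b (Finset.mem_range.1 hb'), if_neg (fun h' => hne h'.1)]
  · intro h'; exact absurd (Finset.mem_range.2 ha) h'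

lemma step_unique (x : ZMod L) {m m' : ℕ} (hm : m < L) (hm' : m' < L)
    (h : x + (m : ZMod L) = -1) (h' : x + (m' : ZMod L) = -1) : m = m' := by
  have h1 : (m : ZMod L) = (m' : ZMod L) := by
    have := h.trans h'.symm
    exact add_left_cancel this
  rw [ZMod.natCast_eq_natCast_iff'] at h1
  rwa [Nat.mod_eq_of_lt hm, Nat.mod_eq_of_lt hm'] at h1

lemma prod_tw (k : ℕ) (n : ℤ) (x : Pl) (y : Tor L) :
    ∏ a ∈ Finset.range L, ∏ b ∈ Finset.range L, twz N k n 2 3 (mv 3 b (mv 2 a (x, y))) =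
      om N k := by
  obtain ⟨a₀, ha₀, ha⟩ := PkgE.exists_step y.1
  obtain ⟨b₀, hb₀, hb⟩ := PkgE.exists_step y.2
  refine prod_sq ha₀ hb₀ fun a haL b hbL => ?_
  rw [mv2, mv3]
  unfold twz tw
  rw [if_pos ⟨rfl, rfl⟩]
  simp only [Prod.mk.injEq]
  congr 1
  rw [eq_iff_iff]
  constructor
  · rintro ⟨h1, h2⟩
    exact ⟨step_unique _ haL ha₀ h1 ha, step_unique _ hbL hb₀ h2 hb⟩
  · rintro ⟨rfl, rfl⟩
    exact ⟨ha, hb⟩

lemma oz_zero (N : ℕ) : oz N 0 = 1 := by simp [oz]

lemma prod_pl (k : ℕ) (n : ℤ) (x : Pl) (y : Tor L) (c : Prop) [Decidable c]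
    (hc : c ↔ (x.1 ≤ 0 ∧ 0 < x.1 + L ∧ x.2 ≤ 0 ∧ 0 < x.2 + L)) :
    ∏ a ∈ Finset.range L, ∏ b ∈ Finset.range L, twz N k n 0 1 (mv 1 b (mv 0 a (x, y))) =
      oz N (if c then n else 0) := by
  have key : ∀ a b : ℕ, twz N k n 0 1 (mv 1 b (mv 0 a (x, y))) =
      if x.1 + a = 0 ∧ x.2 + b = 0 then oz N n else 1 := by
    intro a b
    rw [mv0, mv1]
    unfold twz dl
    rw [if_neg (by decide), if_pos ⟨rfl, rfl⟩]
    have : (x + ((a : ℤ), 0) + (0, (b : ℤ)) = 0) ↔ (x.1 + a = 0 ∧ x.2 + b = 0) := by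
      rw [Prod.ext_iff]
      simp
    simp only [this]
    split_ifs
    · rfl
    · exact oz_zero N
  split_ifs with h
  · obtain ⟨h1, h2, h3, h4⟩ := hc.1 h
    refine prod_sq (a₀ := (-x.1).toNat) (b₀ := (-x.2).toNat) (by omega) (by omega)
      fun a haL b hbL => ?_
    rw [key]
    congr 1
    rw [eq_iff_iff]
    omega
  · rw [oz_zero]
    refine Finset.prod_eq_one fun a ha => Finset.prod_eq_one fun b hb => ?_
    rw [key, if_neg]
    rintro ⟨h1, h2⟩
    apply h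
    rw [hc]
    rw [Finset.mem_range] at ha hb
    omega

/-! ### lines -/

lemma lin_congr (X Y : Cf N L) (i : Fin 4) (n : ℕ) : ∀ p : Pt L,
    (∀ a < n, X (mv i a p, i) = Y (mv i a p, i)) → lin X i n p = lin Y i n p := by
  induction n with
  | zero => intro p _; rfl
  | succ n ih =>
    intro p h
    unfold lin
    have h0 := h 0 (by omega)
    rw [mv_zero] at h0
    rw [h0, ih (nx p i) fun a ha => ?_]
    have h1 := h (a + 1) (by omega)
    have h2 : mv i (a + 1) p = mv i a (nx p i) := by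
      unfold mv
      rw [Function.iterate_succ_apply]
    rwa [h2] at h1

lemma lin_one (X : Cf N L) (i : Fin 4) (n : ℕ) : ∀ p : Pt L,
    (∀ a < n, X (mv i a p, i) = 1) → lin X i n p = 1 := by
  induction n with
  | zero => intro p _; rfl
  | succ n ih =>
    intro p h
    unfold lin
    have h0 := h 0 (by omega)
    rw [mv_zero] at h0
    rw [h0, ih (nx p i) fun a ha => ?_, one_mul]
    have h1 := h (a + 1) (by omega)
    have h2 : mv i (a + 1) p = mv i a (nx p i) := by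
      unfold mv
      rw [Function.iterate_succ_apply]
    rwa [h2] at h1

lemma lin_vc2 (P Q : SU N) (x : Pl) (n : ℕ) : ∀ y : Tor L,
    lin (vc P Q : Cf N L) 2 n (x, y) = hol (vac P Q) 0 n y := by
  induction n with
  | zero => intro y; rfl
  | succ n ih =>
    intro y
    unfold lin hol
    rw [nx2, ih]
    rfl

lemma lin_vc3 (P Q : SU N) (x : Pl) (n : ℕ) : ∀ y : Tor L,
    lin (vc P Q : Cf N L) 3 n (x, y) = hol (vac P Q) 1 n y := by
  induction n with
  | zero => intro y; rfl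
  | succ n ih =>
    intro y
    unfold lin hol
    rw [nx3, ih]
    rfl

lemma twz_norm (k : ℕ) (n : ℤ) (i j : Fin 4) (p : Pt L) : ‖twz N k n i j p‖ = 1 := by
  unfold twz
  split_ifs
  · exact PkgG2.tw_norm N k p.2
  · rw [oz, show 2 * (Real.pi : ℂ) * Complex.I * (dl 0 n p.1 : ℤ) / N =
      ((2 * Real.pi * (dl 0 n p.1 : ℤ) / N : ℝ) : ℂ) * Complex.I by push_cast; ring,
      Complex.norm_exp_ofReal_mul_I]
  · exact norm_one

/-! ### energy outside `U` -/

lemma sum_le (hVL : S_VL) {k : ℕ} (hN : 2 ≤ N) (hk : Nat.Coprime k N) {P Q : SU N} (hPQ : PQ k P Q)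
    (n : ℤ) (U : Finset Pl) (X : Cf N L) (h0 : (0 : Pl) ∈ U)
    (hX : ∀ l, l ∉ Frl L U → X l = vc P Q l) (T : Finset Tm) :
    ∑ τ ∈ T, enf k (dl 0 n) X τ ≤ EE k (dl 0 n) U X := by
  obtain ⟨-, hv, -⟩ := hVL N k L hN hk P Q hPQ
  have hz : ∀ τ, τ ∉ tml U → enf k (dl 0 n) X τ = 0 := by
    intro τ hτ
    rw [mem_tml] at hτ
    push Not at hτ
    have h1 : enf k (dl 0 n) X τ = enf k (dl 0 n) (vc P Q : Cf N L) τ := by
      refine enf_loc k _ _ τ _ _ (fun l hl => hX l fun hlF => ?_) fun _ => rfl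
      rw [mem_Frl] at hlF
      obtain ⟨a, ha, haU⟩ := hlF
      exact hτ a ((cor_iff (L := L) τ a).2 ⟨l, hl, ha⟩) haU
    rw [h1]
    refine hv _ τ fun h3 => ?_
    have hne : τ.1 ≠ 0 := by
      intro h
      apply hτ 0 ?_ h0
      have : τ = (0, 3) := Prod.ext h h3
      rw [this]
      exact (mem_cor3 0 0).2 (Or.inl rfl)
    unfold dl
    rw [if_neg hne]
    exact dvd_zero _
  unfold EE
  calc ∑ τ ∈ T, enf k (dl 0 n) X τ ≤ ∑ τ ∈ T ∪ tml U, enf k (dl 0 n) X τ :=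
        Finset.sum_le_sum_of_subset_of_nonneg Finset.subset_union_left
          fun τ _ _ => enf_nonneg _ _ _ _
    _ = ∑ τ ∈ tml U, enf k (dl 0 n) X τ := by
        symm
        exact Finset.sum_subset Finset.subset_union_right fun τ _ h => hz τ h

lemma coord {L x w : ℤ} (h0 : 0 ≤ x) (h1 : x < L) :
    w = (if x = 0 then 0 else -1) ↔ (x + L * w ≤ 0 ∧ 0 < x + L * w + L) := by
  have hL : 0 < L := by omega
  constructor
  · intro h
    split_ifs at h with hx
    · subst h; subst hx; simp; omega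
    · subst h
      constructor
      · linarith
      · have : 0 < x := by omega
        linarith
  · rintro ⟨h2, h3⟩
    have hw1 : w ≤ 0 := by
      by_contra h
      have : 1 ≤ w := by omega
      nlinarith
    have hw2 : -1 ≤ w := by
      by_contra h
      have : w + 2 ≤ 0 := by omega
      nlinarith
    have hw : w = 0 ∨ w = -1 := by omega
    rcases hw with rfl | rfl
    · rw [if_pos (by linarith)]
    · rw [if_neg (by rintro rfl; linarith)]

lemma notFrl {U : Finset Pl} {x : Pl} {i : Fin 4} (y : Tor L) (h1 : x ∉ U) (h2 : x + pe i ∉ U) :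
    ((x, y), i) ∉ Frl L U := by
  rw [mem_Frl]
  rintro ⟨a, ha, haU⟩
  rw [mem_st] at ha
  rcases ha with rfl | rfl
  · exact h1 haU
  · exact h2 haU

lemma mem_Nb0 (r : ℕ) (w : Pl) : w ∈ Nb r 0 ↔ -(r : ℤ) ≤ w.1 ∧ w.1 ≤ r ∧ -(r : ℤ) ≤ w.2 ∧ w.2 ≤ r := by
  simp [Nb, and_assoc]

lemma pe_cases {m : Fin 4} (hm : m = 0 ∨ m = 1) (w : Pl) (r : ℕ) (h : w ∉ Nb (r + 1) 0) :
    w + pe m ∉ Nb r 0 := by
  rw [mem_Nb0] at h ⊢
  push_cast at h
  rcases hm with rfl | rfl
  · simp only [pe, if_true, Prod.fst_add, Prod.snd_add]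
    omega
  · simp only [pe, Prod.fst_add, Prod.snd_add]
    simp only [show ¬ ((1 : Fin 4) = 0) by decide, if_false, if_true]
    omega

lemma mvL {m : Fin 4} (hm : m = 0 ∨ m = 1) (x₀ w : Pl) (y : Tor L) :
    mv m L (x₀ + (L : ℤ) • w, y) = (x₀ + (L : ℤ) • (w + pe m), y) := by
  rcases hm with rfl | rfl
  · rw [mv0]
    congr 1
    rw [smul_add, add_assoc]
    congr 2
    simp [pe]
  · rw [mv1]
    congr 1
    rw [smul_add, add_assoc]
    congr 2
    simp [pe]

end PkgXD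

open PkgXD in
theorem pXD (hXA : S_XA) (hXB : S_XB) (hXC : S_XC) (hVL : S_VL) : S_XD := by
  intro N k hN hk
  obtain ⟨δ, hδ, hB⟩ := hXB N k hN hk
  refine ⟨δ ^ 2 / 4, by positivity, fun L _ P Q hPQ => ?_⟩
  refine le_csInf ?_ ?_
  · refine ⟨_, 1, {0}, vc P Q, ?_, by simp, fun l _ => rfl, rfl⟩
    intro h
    have := Int.le_of_dvd one_pos h
    omega
  rintro b ⟨n, U, X, hn, h0, hX, rfl⟩
  by_contra hlt
  push Not at hlt
  apply hn
  have hsum := sum_le hVL hN hk hPQ n U X h0 hX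
  have hLpos : (0 : ℤ) < L := by exact_mod_cast Nat.pos_of_ne_zero (NeZero.ne L)
  obtain ⟨R, hR⟩ : ∃ R : ℕ, ∀ u ∈ U, |u.1| ≤ R ∧ |u.2| ≤ R := by
    refine ⟨U.sup fun u => u.1.natAbs + u.2.natAbs, fun u hu => ?_⟩
    have h1 : u.1.natAbs + u.2.natAbs ≤ U.sup fun u => u.1.natAbs + u.2.natAbs :=
      Finset.le_sup (f := fun u : Pl => u.1.natAbs + u.2.natAbs) hu
    rw [Int.abs_eq_natAbs, Int.abs_eq_natAbs]
    omega
  obtain ⟨x₀, y, hx1, hx2, hx3, hx4, hFF⟩ := hXC N k L n X _ hsum (R + 6)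
  have hs : Real.sqrt (2 * EE k (dl 0 n) U X) ≤ δ := by
    rw [Real.sqrt_le_left hδ.le]
    nlinarith
  have hfar : ∀ w, w ∉ Nb (R + 5) 0 → ∀ a b : ℤ, 0 ≤ a → a ≤ L → 0 ≤ b → b ≤ L →
      x₀ + (L : ℤ) • w + (a, b) ∉ U := by
    intro w hw a b ha0 ha1 hb0 hb1 hU
    have h1 := hR _ hU
    simp only [Prod.fst_add, Prod.snd_add, Prod.smul_fst, Prod.smul_snd, smul_eq_mul] at h1
    obtain ⟨h2, h3⟩ := h1
    rw [abs_le] at h2 h3
    apply hw
    rw [mem_Nb0]
    push_cast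
    refine ⟨?_, ?_, ?_, ?_⟩
    · by_contra hc
      have : w.1 + (R + 6) ≤ 0 := by omega
      nlinarith
    · by_contra hc
      have : (R : ℤ) + 6 ≤ w.1 := by omega
      nlinarith
    · by_contra hc
      have : w.2 + (R + 6) ≤ 0 := by omega
      nlinarith
    · by_contra hc
      have : (R : ℤ) + 6 ≤ w.2 := by omega
      nlinarith
  have hfar0 : ∀ w, w ∉ Nb (R + 5) 0 → x₀ + (L : ℤ) • w ∉ U := by
    intro w hw
    have := hfar w hw 0 0 le_rfl hLpos.le le_rfl hLpos.le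
    rwa [h00, add_zero] at this
  have hA : ∀ w, w ∉ Nb (R + 5) 0 → lin X 2 L (x₀ + (L : ℤ) • w, y) = P := by
    intro w hw
    rw [lin_congr X (vc P Q) 2 L _ fun a _ => ?_, lin_vc2, PkgE.hol_vac_L0]
    rw [mv2]
    refine hX _ (notFrl _ (hfar0 w hw) ?_)
    have : pe 2 = 0 := by simp [pe, h00]
    rw [this, add_zero]
    exact hfar0 w hw
  have hBq : ∀ w, w ∉ Nb (R + 5) 0 → lin X 3 L (x₀ + (L : ℤ) • w, y) = Q := by
    intro w hw
    rw [lin_congr X (vc P Q) 3 L _ fun a _ => ?_, lin_vc3, PkgE.hol_vac_L1]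
    rw [mv3]
    refine hX _ (notFrl _ (hfar0 w hw) ?_)
    have : pe 3 = 0 := by simp [pe, h00]
    rw [this, add_zero]
    exact hfar0 w hw
  have hU1 : ∀ w, w ∉ Nb (R + 5) 0 → ∀ m : Fin 4, m = 0 ∨ m = 1 →
      lin X m L (x₀ + (L : ℤ) • w, y) = 1 := by
    intro w hw m hm
    refine lin_one X m L _ fun a ha => ?_
    rcases hm with rfl | rfl
    · rw [mv0, hX _ (notFrl _ ?_ ?_)]
      · simp [vc]
      · exact hfar w hw a 0 (by omega) (by omega) le_rfl hLpos.le
      · have h1 := hfar w hw (a + 1) 0 (by omega) (by omega) le_rfl hLpos.le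
        have h2 : x₀ + (L : ℤ) • w + ((a : ℤ), 0) + pe 0 = x₀ + (L : ℤ) • w + ((a : ℤ) + 1, 0) := by
          rw [add_assoc]
          congr 1
        rwa [h2]
    · rw [mv1, hX _ (notFrl _ ?_ ?_)]
      · simp [vc]
      · exact hfar w hw 0 a le_rfl hLpos.le (by omega) (by omega)
      · have h1 := hfar w hw 0 (a + 1) le_rfl hLpos.le (by omega) (by omega)
        have h2 : x₀ + (L : ℤ) • w + (0, (a : ℤ)) + pe 1 = x₀ + (L : ℤ) • w + (0, (a : ℤ) + 1) := by
          rw [add_assoc]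
          congr 1
        rwa [h2]
  have hout : ∀ w, w ∉ Nb (R + 6) 0 → w ∉ Nb (R + 5) 0 := by
    intro w hw
    rw [mem_Nb0] at hw ⊢
    push_cast at hw ⊢
    omega
  have hXA' : ∀ w ∈ Nb (R + 6) 0, ∀ i j : Fin 4, (i, j) ∈ dirs →
      ‖((lin X i L (x₀ + (L : ℤ) • w, y) * lin X j L (mv i L (x₀ + (L : ℤ) • w, y)) : SU N) : Mt N) -
      (∏ a ∈ Finset.range L, ∏ b ∈ Finset.range L,
        twz N k n i j (mv j b (mv i a (x₀ + (L : ℤ) • w, y)))) •
        ((lin X j L (x₀ + (L : ℤ) • w, y) * lin X i L (mv j L (x₀ + (L : ℤ) • w, y)) : SU N) : Mt N)‖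
        ≤ δ := by
    intro w hw i j hij
    refine (hXA N L X (twz N k n i j) (twz_norm k n i j) i j L L _).trans ?_
    exact (hFF w hw (i, j) hij).trans hs
  refine hB P Q hPQ (fun w => lin X 2 L (x₀ + (L : ℤ) • w, y))
    (fun w => lin X 3 L (x₀ + (L : ℤ) • w, y)) (fun w m => lin X m L (x₀ + (L : ℤ) • w, y)) n
    (if x₀.1 = 0 then 0 else -1, if x₀.2 = 0 then 0 else -1) (R + 5) ?_ ?_ ?_ ?_
  · intro w
    by_cases hw : w ∈ Nb (R + 6) 0
    · have h1 := hXA' w hw 2 3 (by decide)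
      rw [prod_tw, mv2L, mv3L] at h1
      exact h1
    · simp only [hA w (hout w hw), hBq w (hout w hw)]
      have h1 : (P : Mt N) * (Q : Mt N) = om N k • ((Q : Mt N) * (P : Mt N)) := hPQ
      rw [h1, sub_self, norm_zero]
      exact hδ.le
  · intro w m hm
    have hone : ∀ j : Fin 4, j = 2 ∨ j = 3 → (∏ a ∈ Finset.range L, ∏ b ∈ Finset.range L,
        twz N k n m j (mv j b (mv m a (x₀ + (L : ℤ) • w, y)))) = 1 := by
      intro j hj
      refine Finset.prod_eq_one fun a _ => Finset.prod_eq_one fun b _ => ?_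
      unfold twz
      rw [if_neg, if_neg]
      · rintro ⟨-, rfl⟩
        rcases hj with h | h <;> exact absurd h (by decide)
      · rintro ⟨rfl, -⟩
        rcases hm with h | h <;> exact absurd h (by decide)
    by_cases hw : w ∈ Nb (R + 6) 0
    · have hd : ∀ j : Fin 4, j = 2 ∨ j = 3 → (m, j) ∈ dirs := by
        intro j hj
        rcases hm with rfl | rfl <;> rcases hj with rfl | rfl <;> decide
      constructor
      · have h1 := hXA' w hw m 2 (hd 2 (Or.inl rfl))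
        rw [hone 2 (Or.inl rfl), mvL hm, mv2L, one_smul, norm_sub_rev] at h1
        exact h1
      · have h1 := hXA' w hw m 3 (hd 3 (Or.inr rfl))
        rw [hone 3 (Or.inr rfl), mvL hm, mv3L, one_smul, norm_sub_rev] at h1
        exact h1
    · have h2 : w + pe m ∉ Nb (R + 5) 0 := pe_cases hm w (R + 5) hw
      simp only [hA w (hout w hw), hBq w (hout w hw), hU1 w (hout w hw) m hm, hA _ h2, hBq _ h2]
      simp [hδ.le]
  · intro w
    by_cases hw : w ∈ Nb (R + 6) 0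
    · have h1 := hXA' w hw 0 1 (by decide)
      rw [prod_pl k n _ y (w = (if x₀.1 = 0 then 0 else -1, if x₀.2 = 0 then 0 else -1)) ?_,
        mvL (Or.inl rfl), mvL (Or.inr rfl)] at h1
      · exact h1
      · rw [Prod.ext_iff]
        simp only [Prod.fst_add, Prod.snd_add, Prod.smul_fst, Prod.smul_snd, smul_eq_mul]
        rw [coord hx1 hx2, coord hx3 hx4]
        tauto
    · have h2 : ¬ (w = (if x₀.1 = 0 then 0 else -1, if x₀.2 = 0 then 0 else -1)) := by
        rintro rfl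
        apply hw
        rw [mem_Nb0]
        push_cast
        split_ifs <;> omega
      have h3 := pe_cases (Or.inl rfl : (0 : Fin 4) = 0 ∨ (0 : Fin 4) = 1) w (R + 5) hw
      have h4 := pe_cases (Or.inr rfl : (1 : Fin 4) = 0 ∨ (1 : Fin 4) = 1) w (R + 5) hw
      rw [if_neg h2, oz_zero]
      simp only [hU1 w (hout w hw) 0 (Or.inl rfl), hU1 w (hout w hw) 1 (Or.inr rfl),
        hU1 _ h3 1 (Or.inr rfl), hU1 _ h4 0 (Or.inl rfl)]
      simp [hδ.le]
  · intro w hw
    exact ⟨hA w hw, hBq w hw, hU1 w hw⟩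

end T2H01.SE
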