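import Pool.Agent.T2H01.SE.Stm8

/-!
# Package YA : a slowly varying projection field on the twisted torus

`E` = the projection on an eigenvector of `P`; the field is
`a E + b Q E Q* + (u Q E + conj u E Q*)` with `a = cos² (π t / 2)`, `b = sin² (π t / 2)`,
`u = exp (i α s) sin (π t) / 2`, `exp (i α) = om^k`.
-/

set_option autoImplicit false
set_option linter.unusedSectionVars false

noncomputable section

open MeasureTheory Matrix
open scoped Matrix.Norms.Frobenius

namespace T2H01.SE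

open T2H02.TT

namespace PkgYA

variable {N : ℕ}

lemma om_prim {k : ℕ} (hN : 2 ≤ N) (hk : Nat.Coprime k N) : IsPrimitiveRoot (om N k) N := by
  have h := Complex.isPrimitiveRoot_exp_of_coprime k N (by omega) hk
  unfold om
  convert h using 2
  ring

lemma om_ne_one {k : ℕ} (hN : 2 ≤ N) (hk : Nat.Coprime k N) : om N k ≠ 1 :=
  (om_prim hN hk).ne_one (by omega)

lemma om_nrm {k : ℕ} : ‖om N k‖ = 1 := by
  have h : om N k = Complex.exp (((2 * Real.pi * k / N : ℝ) : ℂ) * Complex.I) := by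
    unfold om
    congr 1
    push_cast
    ring
  rw [h, Complex.norm_exp_ofReal_mul_I]

/-- the data -/
structure EP (P Q : Mt N) (z : ℂ) (E : Mt N) : Prop where
  qq : Qᴴ * Q = 1
  h1 : Eᴴ = E
  h2 : E * E = E
  tr : E.trace = 1
  pe : P * E * Pᴴ = E
  px : P * (Q * E) * Pᴴ = z • (Q * E)
  ph : Pᴴ * P = 1
  eqe : E * Q * E = 0

open scoped ComplexOrder in
lemma exists_E {k : ℕ} (hN : 2 ≤ N) (hk : Nat.Coprime k N) (P Q : SU N) (hPQ : PQ k P Q) :
    ∃ E : Mt N, EP (P : Mt N) (Q : Mt N) (om N k) E := by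
  haveI : Nonempty (Fin N) := ⟨⟨0, by omega⟩⟩
  obtain ⟨c, hc⟩ := Module.End.exists_eigenvalue (Matrix.toLin' (P : Mt N))
  obtain ⟨v, hv⟩ := hc.exists_hasEigenvector
  have hPv : (P : Mt N) *ᵥ v = c • v := by
    have := hv.apply_eq_smul
    rwa [Matrix.toLin'_apply] at this
  have hv0 : v ≠ 0 := hv.2
  set r : ℂ := star v ⬝ᵥ v with hr
  have hr0 : r ≠ 0 := by
    rw [hr]
    exact fun h => hv0 (dotProduct_star_self_eq_zero.1 h)
  have hrs : star r = r := by
    rw [hr, dotProduct, star_sum]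
    refine Finset.sum_congr rfl fun i _ => ?_
    rw [star_mul, Pi.star_apply, star_star, mul_comm]
  set E : Mt N := r⁻¹ • vecMulVec v (star v) with hE
  have h1 : Eᴴ = E := by
    rw [hE, conjTranspose_smul, conjTranspose_vecMulVec, star_star, star_inv₀, hrs]
  have h2 : E * E = E := by
    rw [hE, smul_mul_smul_comm, vecMulVec_mul_vecMulVec, ← hr]
    have : vecMulVec v (r • star v) = r • vecMulVec v (star v) := by
      ext i j
      simp only [vecMulVec_apply, Pi.smul_apply, Matrix.smul_apply, smul_eq_mul]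
      ring
    rw [this, smul_smul]
    congr 1
    field_simp
  have htr : E.trace = 1 := by
    rw [hE, trace_smul, trace_vecMulVec, dotProduct_comm, ← hr, smul_eq_mul, inv_mul_cancel₀ hr0]
  have hPE : (P : Mt N) * E = c • E := by
    rw [hE, mul_smul_comm, mul_vecMulVec, hPv, smul_comm]
    congr 1
    ext i j
    simp only [vecMulVec_apply, Pi.smul_apply, Matrix.smul_apply, smul_eq_mul]
    ring
  clear_value E
  have hPP := su_mul P
  have hQQ := su_mul Q
  have hcc : star c * c = 1 := by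
    have h3 : ((P : Mt N) * E)ᴴ * ((P : Mt N) * E) = E := by
      rw [conjTranspose_mul, h1, mul_assoc, ← mul_assoc _ (P : Mt N), hPP, one_mul, h2]
    rw [hPE, conjTranspose_smul, h1, smul_mul_smul_comm, h2] at h3
    have h4 := congrArg Matrix.trace h3
    rwa [trace_smul, htr, smul_eq_mul, mul_one] at h4
  have hcc' : c * star c = 1 := by rw [mul_comm]; exact hcc
  have hEP : E * (P : Mt N)ᴴ = star c • E := by
    have h3 : ((P : Mt N) * E)ᴴ = (c • E)ᴴ := by rw [hPE]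
    rwa [conjTranspose_mul, conjTranspose_smul, h1] at h3
  have hpe : (P : Mt N) * E * (P : Mt N)ᴴ = E := by
    rw [hPE, smul_mul_assoc, hEP, smul_smul, hcc', one_smul]
  have hpx : (P : Mt N) * ((Q : Mt N) * E) * (P : Mt N)ᴴ = om N k • ((Q : Mt N) * E) := by
    have h3 : (P : Mt N) * ((Q : Mt N) * E) = om N k • ((Q : Mt N) * ((P : Mt N) * E)) := by
      rw [← mul_assoc, hPQ, smul_mul_assoc, mul_assoc]
    rw [h3, smul_mul_assoc, mul_assoc, hpe]
  refine ⟨E, hQQ, h1, h2, htr, hpe, hpx, hPP, ?_⟩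
  have h3 : (P : Mt N) * (E * (Q : Mt N) * E) * (P : Mt N)ᴴ = om N k • (E * (Q : Mt N) * E) := by
    calc (P : Mt N) * (E * (Q : Mt N) * E) * (P : Mt N)ᴴ
        = ((P : Mt N) * E * (P : Mt N)ᴴ) * ((P : Mt N) * ((Q : Mt N) * E) * (P : Mt N)ᴴ) := by
          have e : ((P : Mt N) * E * (P : Mt N)ᴴ) * ((P : Mt N) * ((Q : Mt N) * E) * (P : Mt N)ᴴ) =
              (P : Mt N) * E * ((P : Mt N)ᴴ * (P : Mt N)) * ((Q : Mt N) * E) * (P : Mt N)ᴴ := by
            simp only [mul_assoc]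
          rw [e, hPP, mul_one]
          simp only [mul_assoc]
      _ = om N k • (E * (Q : Mt N) * E) := by
          rw [hpe, hpx, mul_smul_comm, mul_assoc]
  have h4 : (P : Mt N) * (E * (Q : Mt N) * E) * (P : Mt N)ᴴ = E * (Q : Mt N) * E := by
    have e : (P : Mt N) * (E * (Q : Mt N) * E) * (P : Mt N)ᴴ =
        ((P : Mt N) * E) * (Q : Mt N) * (E * (P : Mt N)ᴴ) := by
      simp only [mul_assoc]
    rw [e, hPE, hEP, smul_mul_assoc, smul_mul_assoc, mul_smul_comm, smul_smul, hcc', one_smul]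
  have h5 : (1 - om N k) • (E * (Q : Mt N) * E) = 0 := by
    rw [sub_smul, one_smul, ← h3, h4, sub_self]
  exact (smul_eq_zero.1 h5).resolve_left (sub_ne_zero.2 (om_ne_one hN hk).symm)

/-- the projection -/
def Fd (Q E : Mt N) (a b : ℝ) (u : ℂ) : Mt N :=
  (a : ℂ) • E + (b : ℂ) • (Q * E * Qᴴ) + (u • (Q * E) + star u • (E * Qᴴ))

section

variable {P Q E : Mt N} {z : ℂ} (h : EP P Q z E)

include h

lemma eqhe : E * Qᴴ * E = 0 := by
  have := congrArg conjTranspose h.eqe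
  rwa [conjTranspose_mul, conjTranspose_mul, h.h1, conjTranspose_zero, ← mul_assoc] at this

lemma m00 : E * E = E := h.h2
lemma m0x : E * (Q * E) = 0 := by rw [← mul_assoc]; exact h.eqe
lemma m0y : E * (E * Qᴴ) = E * Qᴴ := by rw [← mul_assoc, h.h2]
lemma m0z : E * (Q * E * Qᴴ) = 0 := by rw [← mul_assoc, m0x h, zero_mul]
lemma mx0 : Q * E * E = Q * E := by rw [mul_assoc, h.h2]
lemma mxx : Q * E * (Q * E) = 0 := by rw [mul_assoc, m0x h, mul_zero]
lemma mxy : Q * E * (E * Qᴴ) = Q * E * Qᴴ := by rw [← mul_assoc, mx0 h]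
lemma mxz : Q * E * (Q * E * Qᴴ) = 0 := by rw [← mul_assoc, mxx h, zero_mul]
lemma my0 : E * Qᴴ * E = 0 := eqhe h
lemma myx : E * Qᴴ * (Q * E) = E := by
  rw [mul_assoc, ← mul_assoc Qᴴ, h.qq, one_mul, h.h2]
lemma myy : E * Qᴴ * (E * Qᴴ) = 0 := by rw [← mul_assoc, my0 h, zero_mul]
lemma myz : E * Qᴴ * (Q * E * Qᴴ) = E * Qᴴ := by rw [← mul_assoc, myx h]
lemma mz0 : Q * E * Qᴴ * E = 0 := by rw [mul_assoc Q, mul_assoc Q, my0 h, mul_zero]
lemma mzx : Q * E * Qᴴ * (Q * E) = Q * E := by rw [mul_assoc Q, mul_assoc Q, myx h]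
lemma mzy : Q * E * Qᴴ * (E * Qᴴ) = 0 := by rw [mul_assoc Q, mul_assoc Q, myy h, mul_zero]
lemma mzz : Q * E * Qᴴ * (Q * E * Qᴴ) = Q * E * Qᴴ := by
  rw [mul_assoc Q E Qᴴ, mul_assoc Q, ← mul_assoc Q E Qᴴ, myz h, ← mul_assoc]

lemma hx : (Q * E)ᴴ = E * Qᴴ := by rw [conjTranspose_mul, h.h1]
lemma hy : (E * Qᴴ)ᴴ = Q * E := by rw [conjTranspose_mul, conjTranspose_conjTranspose, h.h1]
lemma hz : (Q * E * Qᴴ)ᴴ = Q * E * Qᴴ := by
  rw [conjTranspose_mul, conjTranspose_conjTranspose, hx h, ← mul_assoc]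

lemma tx : (Q * E).trace = 0 := by
  rw [← mx0 h, trace_mul_comm, m0x h, trace_zero]
lemma ty : (E * Qᴴ).trace = 0 := by
  rw [← m0y h, trace_mul_comm, my0 h, trace_zero]
lemma tz : (Q * E * Qᴴ).trace = 1 := by
  rw [← mxy h, trace_mul_comm, myx h, h.tr]

lemma n0 : ‖E‖ = 1 := by
  have : ‖E‖ ^ 2 = 1 := by rw [← ip_self, ip, h.h1, h.h2, h.tr]; rfl
  exact (pow_eq_one_iff_of_nonneg (norm_nonneg _) two_ne_zero).1 this
lemma nx : ‖Q * E‖ = 1 := by
  have : ‖Q * E‖ ^ 2 = 1 := by rw [← ip_self, ip, hx h, myx h, h.tr]; rfl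
  exact (pow_eq_one_iff_of_nonneg (norm_nonneg _) two_ne_zero).1 this
lemma ny : ‖E * Qᴴ‖ = 1 := by
  have : ‖E * Qᴴ‖ ^ 2 = 1 := by rw [← ip_self, ip, hy h, mxy h, tz h]; rfl
  exact (pow_eq_one_iff_of_nonneg (norm_nonneg _) two_ne_zero).1 this
lemma nz : ‖Q * E * Qᴴ‖ = 1 := by
  have : ‖Q * E * Qᴴ‖ ^ 2 = 1 := by rw [← ip_self, ip, hz h, mzz h, tz h]; rfl
  exact (pow_eq_one_iff_of_nonneg (norm_nonneg _) two_ne_zero).1 this

lemma Fd_prj {a b : ℝ} {u : ℂ} (hab : a + b = 1) (hu : u * star u = ((a * b : ℝ) : ℂ)) :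
    prj (Fd Q E a b u) := by
  refine ⟨?_, ?_, ?_⟩
  · unfold Fd
    simp only [conjTranspose_add, conjTranspose_smul, hx h, hy h, hz h, h.h1, star_star]
    have ha : ∀ r : ℝ, star (r : ℂ) = (r : ℂ) := fun r => Complex.conj_ofReal r
    rw [ha, ha]
    congr 1
    rw [add_comm]
  · have e : Fd Q E a b u * Fd Q E a b u = ((a : ℂ) * a + u * star u) • E +
        ((b : ℂ) * b + u * star u) • (Q * E * Qᴴ) +
        ((a : ℂ) + b) • (u • (Q * E) + star u • (E * Qᴴ)) := by
      unfold Fd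
      simp only [add_mul, mul_add, smul_mul_assoc, mul_smul_comm, m00 h, m0x h, m0y h, m0z h,
        mx0 h, mxx h, mxy h, mxz h, my0 h, myx h, myy h, myz h, mz0 h, mzx h, mzy h, mzz h,
        smul_zero, add_zero, zero_add]
      module
    have hab' : (a : ℂ) + b = 1 := by exact_mod_cast hab
    have e1 : (a : ℂ) * a + u * star u = a := by
      rw [hu]
      push_cast
      calc (a : ℂ) * a + a * b = a * (a + b) := by ring
        _ = a := by rw [hab', mul_one]
    have e2 : (b : ℂ) * b + u * star u = b := by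
      rw [hu]
      push_cast
      calc (b : ℂ) * b + a * b = b * (a + b) := by ring
        _ = b := by rw [hab', mul_one]
    rw [e, e1, e2, hab', one_smul]
    rfl
  · unfold Fd
    simp only [trace_add, trace_smul, tx h, ty h, tz h, h.tr, smul_eq_mul, mul_one, mul_zero,
      add_zero]
    exact_mod_cast hab

lemma Fd_lip (a b a' b' : ℝ) (u u' : ℂ) : ‖Fd Q E a b u - Fd Q E a' b' u'‖ ≤
    |a - a'| + |b - b'| + 2 * ‖u - u'‖ := by
  have e : Fd Q E a b u - Fd Q E a' b' u' = ((a - a' : ℝ) : ℂ) • E +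
      ((b - b' : ℝ) : ℂ) • (Q * E * Qᴴ) + ((u - u') • (Q * E) + star (u - u') • (E * Qᴴ)) := by
    unfold Fd
    push_cast
    rw [star_sub]
    module
  rw [e]
  refine (norm_add_le _ _).trans ?_
  have h1 : ‖((a - a' : ℝ) : ℂ) • E + ((b - b' : ℝ) : ℂ) • (Q * E * Qᴴ)‖ ≤ |a - a'| + |b - b'| := by
    refine (norm_add_le _ _).trans (le_of_eq ?_)
    rw [norm_smul, norm_smul, n0 h, nz h, Complex.norm_real, Complex.norm_real, Real.norm_eq_abs,
      Real.norm_eq_abs, mul_one, mul_one]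
  have h2 : ‖(u - u') • (Q * E) + star (u - u') • (E * Qᴴ)‖ ≤ 2 * ‖u - u'‖ := by
    refine (norm_add_le _ _).trans (le_of_eq ?_)
    rw [norm_smul, norm_smul, nx h, ny h, norm_star]
    ring
  linarith

lemma Fd_P (hz1 : z * star z = 1) (a b : ℝ) (u : ℂ) :
    P * Fd Q E a b u * Pᴴ = Fd Q E a b (z * u) := by
  have e1 : P * (E * Qᴴ) * Pᴴ = star z • (E * Qᴴ) := by
    have := congrArg conjTranspose h.px
    rw [conjTranspose_smul, hx h] at this
    rw [← this, conjTranspose_mul, conjTranspose_mul, conjTranspose_conjTranspose, hx h, mul_assoc]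
  have e2 : P * (Q * E * Qᴴ) * Pᴴ = Q * E * Qᴴ := by
    have e3 : P * (Q * E * Qᴴ) * Pᴴ = (P * (Q * E) * Pᴴ) * (P * (E * Qᴴ) * Pᴴ) := by
      have e4 : (P * (Q * E) * Pᴴ) * (P * (E * Qᴴ) * Pᴴ) = P * (Q * E) * (Pᴴ * P) * (E * Qᴴ) * Pᴴ := by
        simp only [mul_assoc]
      rw [e4, h.ph, mul_one, mul_assoc P (Q * E), mxy h]
    rw [e3, h.px, e1, smul_mul_smul_comm, hz1, one_smul, mxy h]
  unfold Fd
  simp only [mul_add, add_mul, mul_smul_comm, smul_mul_assoc, h.pe, h.px, e1, e2, star_mul]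
  module

lemma Fd_Q : Q * Fd Q E 1 0 0 * Qᴴ = Fd Q E 0 1 0 := by
  unfold Fd
  simp

end

/-- the phase -/
lemma exp_arg (z : ℂ) (hz : ‖z‖ = 1) : Complex.exp (Complex.I * (Complex.arg z : ℝ)) = z := by
  have := Complex.norm_mul_exp_arg_mul_I z
  rw [hz, Complex.ofReal_one, one_mul] at this
  rw [mul_comm]
  exact this

lemma exp_lip (x y : ℝ) : ‖Complex.exp (Complex.I * x) - Complex.exp (Complex.I * y)‖ ≤ |x - y| := by
  have e : Complex.exp (Complex.I * x) - Complex.exp (Complex.I * y) =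
      Complex.exp (Complex.I * y) * (Complex.exp (Complex.I * ((x - y : ℝ) : ℂ)) - 1) := by
    rw [mul_sub, ← Complex.exp_add, mul_one]
    congr 2
    push_cast
    ring
  rw [e, norm_mul]
  have h1 : ‖Complex.exp (Complex.I * y)‖ = 1 := by
    rw [mul_comm]
    exact Complex.norm_exp_ofReal_mul_I y
  rw [h1, one_mul]
  exact Real.norm_exp_I_mul_ofReal_sub_one_le

/-- the field on the continuous torus -/
def Fc (Q E : Mt N) (α s t : ℝ) : Mt N :=
  Fd Q E ((1 + Real.cos (Real.pi * t)) / 2) ((1 - Real.cos (Real.pi * t)) / 2)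
    (((Real.sin (Real.pi * t) / 2 : ℝ) : ℂ) * Complex.exp (Complex.I * ((α * s : ℝ) : ℂ)))

section

variable {P Q E : Mt N} {z : ℂ} (h : EP P Q z E)

include h

lemma Fc_prj (α s t : ℝ) : prj (Fc Q E α s t) := by
  apply Fd_prj h
  · ring
  · have h1 : Complex.exp (Complex.I * ((α * s : ℝ) : ℂ)) *
        star (Complex.exp (Complex.I * ((α * s : ℝ) : ℂ))) = 1 := by
      rw [Complex.star_def, Complex.mul_conj, Complex.normSq_eq_norm_sq, mul_comm Complex.I,
        Complex.norm_exp_ofReal_mul_I]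
      simp
    have hr : ∀ r : ℝ, star (r : ℂ) = (r : ℂ) := fun r => Complex.conj_ofReal r
    rw [star_mul, hr]
    calc _ = ((Real.sin (Real.pi * t) / 2 : ℝ) : ℂ) * ((Real.sin (Real.pi * t) / 2 : ℝ) : ℂ) *
          (Complex.exp (Complex.I * ((α * s : ℝ) : ℂ)) *
          star (Complex.exp (Complex.I * ((α * s : ℝ) : ℂ)))) := by ring
      _ = _ := by
          rw [h1, mul_one, ← Complex.ofReal_mul]
          congr 1
          have := Real.sin_sq_add_cos_sq (Real.pi * t)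
          nlinarith

lemma Fc_s {α : ℝ} (hα : |α| ≤ Real.pi) (s s' t : ℝ) :
    ‖Fc Q E α s t - Fc Q E α s' t‖ ≤ 7 * |s - s'| := by
  unfold Fc
  refine (Fd_lip h _ _ _ _ _ _).trans ?_
  rw [sub_self, sub_self, abs_zero, ← mul_sub, norm_mul, Complex.norm_real, Real.norm_eq_abs,
    abs_div, abs_two]
  have h1 := Real.abs_sin_le_one (Real.pi * t)
  have h2 := exp_lip (α * s) (α * s')
  rw [← mul_sub, abs_mul] at h2
  have h3 : |α| * |s - s'| ≤ Real.pi * |s - s'| := mul_le_mul_of_nonneg_right hα (abs_nonneg _)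
  have h4 := Real.pi_le_four
  have h5 : Real.pi * |s - s'| ≤ 4 * |s - s'| := mul_le_mul_of_nonneg_right h4 (abs_nonneg _)
  have h6 : |Real.sin (Real.pi * t)| / 2 * ‖Complex.exp (Complex.I * ((α * s : ℝ) : ℂ)) -
      Complex.exp (Complex.I * ((α * s' : ℝ) : ℂ))‖ ≤ 1 / 2 * (4 * |s - s'|) :=
    mul_le_mul (by linarith) (by linarith) (norm_nonneg _) (by norm_num)
  have := abs_nonneg (s - s')
  linarith

lemma Fc_t (α s t t' : ℝ) : ‖Fc Q E α s t - Fc Q E α s t'‖ ≤ 7 * |t - t'| := by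
  unfold Fc
  refine (Fd_lip h _ _ _ _ _ _).trans ?_
  have e0 : |Real.pi * t - Real.pi * t'| = Real.pi * |t - t'| := by
    rw [← mul_sub, abs_mul, abs_of_pos Real.pi_pos]
  have h1 := Real.abs_cos_sub_cos_le (Real.pi * t) (Real.pi * t')
  have h2 := Real.abs_sin_sub_sin_le (Real.pi * t) (Real.pi * t')
  rw [e0] at h1 h2
  have e1 : |(1 + Real.cos (Real.pi * t)) / 2 - (1 + Real.cos (Real.pi * t')) / 2| =
      |Real.cos (Real.pi * t) - Real.cos (Real.pi * t')| / 2 := by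
    rw [← abs_two, ← abs_div, abs_two]
    congr 1
    ring
  have e2 : |(1 - Real.cos (Real.pi * t)) / 2 - (1 - Real.cos (Real.pi * t')) / 2| =
      |Real.cos (Real.pi * t) - Real.cos (Real.pi * t')| / 2 := by
    rw [← abs_two, ← abs_div, abs_two, ← abs_neg]
    congr 1
    ring
  have e3 : ‖((Real.sin (Real.pi * t) / 2 : ℝ) : ℂ) * Complex.exp (Complex.I * ((α * s : ℝ) : ℂ)) -
      ((Real.sin (Real.pi * t') / 2 : ℝ) : ℂ) * Complex.exp (Complex.I * ((α * s : ℝ) : ℂ))‖ =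
      |Real.sin (Real.pi * t) - Real.sin (Real.pi * t')| / 2 := by
    rw [← sub_mul, norm_mul, mul_comm Complex.I, Complex.norm_exp_ofReal_mul_I, mul_one,
      ← Complex.ofReal_sub, Complex.norm_real, Real.norm_eq_abs, ← sub_div, abs_div, abs_two]
  rw [e1, e2, e3]
  have h3 : Real.pi < 3.15 := Real.pi_lt_d2
  have := abs_nonneg (t - t')
  nlinarith

lemma Fc_P {α : ℝ} (hz1 : z * star z = 1) (hα : Complex.exp (Complex.I * (α : ℝ)) = z) (t : ℝ) :
    P * Fc Q E α 0 t * Pᴴ = Fc Q E α 1 t := by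
  unfold Fc
  rw [Fd_P h hz1]
  congr 1
  rw [mul_zero, mul_one, hα]
  simp
  ring

lemma Fc_Q (α s : ℝ) : Q * Fc Q E α s 0 * Qᴴ = Fc Q E α s 1 := by
  unfold Fc
  rw [mul_zero, Real.cos_zero, Real.sin_zero, mul_one, Real.cos_pi, Real.sin_pi]
  have e := Fd_Q h
  norm_num
  exact e

end

end PkgYA

open PkgYA in
theorem pYA : S_YA := by
  refine ⟨7, by norm_num, ?_⟩
  intro N k L _ hN hk P Q hPQ
  obtain ⟨E, h⟩ := exists_E hN hk P Q hPQ
  have hL : (0 : ℝ) < L := by
    have := Nat.pos_of_ne_zero (NeZero.ne L)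
    exact_mod_cast this
  set z : ℂ := om N k with hz
  have hzn : ‖z‖ = 1 := om_nrm
  have hz1 : z * star z = 1 := by
    rw [Complex.star_def, Complex.mul_conj, Complex.normSq_eq_norm_sq, hzn]
    simp
  set α : ℝ := Complex.arg z with hα
  have hαe : Complex.exp (Complex.I * (α : ℝ)) = z := exp_arg z hzn
  have hαp : |α| ≤ Real.pi := Complex.abs_arg_le_pi z
  have hval : ∀ a : ZMod L, a ≠ -1 → ((a + 1).val : ℝ) = a.val + 1 := by
    intro a ha
    have hlt : a.val + 1 < L := by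
      have h1 := ZMod.val_lt a
      by_contra hcon
      apply ha
      have h2 : a.val + 1 = L := by omega
      have h3 : ((a.val + 1 : ℕ) : ZMod L) = 0 := by rw [h2]; simp
      rw [Nat.cast_add, ZMod.natCast_val, ZMod.cast_id, Nat.cast_one] at h3
      exact eq_neg_of_add_eq_zero_left h3
    have h3 : (a + 1).val = a.val + 1 := by
      have h4 : a + 1 = ((a.val + 1 : ℕ) : ZMod L) := by
        rw [Nat.cast_add, ZMod.natCast_val, ZMod.cast_id, Nat.cast_one]
      rw [h4, ZMod.val_natCast, Nat.mod_eq_of_lt hlt]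
    rw [h3]
    push_cast
    ring
  have hval1 : (((-1 : ZMod L)).val : ℝ) = L - 1 := by
    obtain ⟨n, rfl⟩ : ∃ n, L = n + 1 := ⟨L - 1, by have := NeZero.ne L; omega⟩
    rw [show n + 1 = n.succ from rfl, ZMod.val_neg_one]
    push_cast
    ring
  have hval0 : (((-1 : ZMod L) + 1).val : ℝ) = 0 := by
    rw [neg_add_cancel]
    simp
  have hAdj : ∀ (g : SU N) (M : Mt N), Adj g M = (g : Mt N) * M * (g : Mt N)ᴴ := fun g M => rfl
  have hone : ∀ M : Mt N, Adj (1 : SU N) M = M := by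
    intro M
    rw [hAdj]
    simp
  refine ⟨fun y => Fc (Q : Mt N) E α (y.1.val / L) (y.2.val / L), fun y => Fc_prj h _ _ _, ?_⟩
  intro y j
  have hd : ∀ a b : ℝ, |a / L - b / L| = |a - b| / L := by
    intro a b
    rw [← sub_div, abs_div, abs_of_pos hL]
  have hj : j = 0 ∨ j = 1 := by
    fin_cases j
    · exact Or.inl rfl
    · exact Or.inr rfl
  rcases hj with rfl | rfl
  · simp only [vac, tsh, if_pos]
    by_cases h1 : y.1 = -1
    · rw [if_pos h1, h1, hAdj, hval1, hval0, zero_div, Fc_P h hz1 hαe]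
      refine (Fc_s h hαp _ _ _).trans ?_
      have e : |((L : ℝ) - 1) / L - 1| = 1 / L := by
        have h2 : ((L : ℝ) - 1) / L - 1 = -(1 / L) := by field_simp; ring
        rw [h2, abs_neg, abs_of_pos (by positivity)]
      rw [e]
      exact le_of_eq (by ring)
    · rw [if_neg h1, hone]
      refine (Fc_s h hαp _ _ _).trans ?_
      rw [hval _ h1, hd, sub_add_cancel_left, abs_neg, abs_one]
      exact le_of_eq (by ring)
  · simp only [vac, tsh, if_neg (by decide : ¬ (1 : Fin 2) = 0)]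
    by_cases h1 : y.2 = -1
    · rw [if_pos h1, h1, hAdj, hval1, hval0, zero_div, Fc_Q h]
      refine (Fc_t h _ _ _ _).trans ?_
      have e : |((L : ℝ) - 1) / L - 1| = 1 / L := by
        have h2 : ((L : ℝ) - 1) / L - 1 = -(1 / L) := by field_simp; ring
        rw [h2, abs_neg, abs_of_pos (by positivity)]
      rw [e]
      exact le_of_eq (by ring)
    · rw [if_neg h1, hone]
      refine (Fc_t h _ _ _ _).trans ?_
      rw [hval _ h1, hd, sub_add_cancel_left, abs_neg, abs_one]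
      exact le_of_eq (by ring)

end T2H01.SE
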