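import Pool.Agent.T2H01.SE.Stm8

/-!
# Package YB : the group elements `eth θ M`
-/

set_option autoImplicit false

noncomputable section

open MeasureTheory Matrix
open scoped Matrix.Norms.Frobenius

namespace T2H01.SE

open T2H02.TT

namespace PkgYB

variable {N : ℕ}

lemma fr_sq (A : Mt N) : ‖A‖ ^ 2 = (trace (Aᴴ * A)).re := by
  rw [Matrix.frobenius_norm_def, ← Real.rpow_natCast, ← Real.rpow_mul (by positivity)]
  norm_num
  rw [Finset.sum_comm]
  unfold trace
  rw [Complex.re_sum]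
  refine Finset.sum_congr rfl fun j _ => ?_
  rw [diag_apply, mul_apply, Complex.re_sum]
  refine Finset.sum_congr rfl fun i _ => ?_
  rw [conjTranspose_apply, ← Complex.normSq_eq_norm_sq]
  rw [Complex.star_def, ← Complex.normSq_eq_conj_mul_self]
  simp

lemma norm_prj {M : Mt N} (hM : prj M) : ‖M‖ = 1 := by
  have h := fr_sq M
  rw [hM.1, hM.2.1, hM.2.2, Complex.one_re] at h
  have h2 : 0 ≤ ‖M‖ := norm_nonneg _
  nlinarith

lemma eig {M : Mt N} (hM : prj M) (hH : M.IsHermitian) (i : Fin N) :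
    hH.eigenvalues i = 0 ∨ hH.eigenvalues i = 1 := by
  set v := (hH.eigenvectorBasis i).ofLp with hv
  have h1 : M *ᵥ v = hH.eigenvalues i • v := hH.mulVec_eigenvectorBasis i
  have h2 : M *ᵥ (M *ᵥ v) = M *ᵥ v := by rw [mulVec_mulVec, hM.2.1]
  rw [h1, mulVec_smul, h1, smul_smul] at h2
  have hv0 : v ≠ 0 := by
    intro h0
    have h3 := hH.eigenvectorBasis.orthonormal.1 i
    have h4 : hH.eigenvectorBasis i = 0 := by
      ext j
      have := congrFun h0 j
      exact this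
    rw [h4, norm_zero] at h3
    exact zero_ne_one h3
  have h5 : (hH.eigenvalues i * hH.eigenvalues i - hH.eigenvalues i) • v = 0 := by
    rw [sub_smul, h2, sub_self]
  rcases smul_eq_zero.1 h5 with h6 | h6
  · have h7 : hH.eigenvalues i * (hH.eigenvalues i - 1) = 0 := by linarith
    rcases mul_eq_zero.1 h7 with h8 | h8
    · exact Or.inl h8
    · exact Or.inr (by linarith)
  · exact absurd h6 hv0

lemma det_prj {M : Mt N} (hM : prj M) (c : ℂ) : (1 + c • M).det = 1 + c := by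
  by_cases hc : c = 0
  · subst hc
    simp
  have hH : M.IsHermitian := hM.1
  have hch := congrArg (Polynomial.eval (-c⁻¹)) hH.charpoly_eq
  rw [eval_charpoly, Polynomial.eval_prod] at hch
  simp only [Polynomial.eval_sub, Polynomial.eval_X, Polynomial.eval_C] at hch
  have h1 : (1 + c • M : Mt N) = (-c) • ((scalar (Fin N)) (-c⁻¹) - M) := by
    rw [smul_sub, neg_smul, neg_smul, sub_neg_eq_add]
    congr 1
    ext i j
    rw [Matrix.neg_apply, Matrix.smul_apply, scalar_apply, smul_eq_mul]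
    by_cases hij : i = j
    · subst hij
      rw [diagonal_apply_eq, one_apply_eq]
      field_simp
    · rw [diagonal_apply_ne _ hij, one_apply_ne hij]
      simp
  rw [h1, det_smul, hch, Fintype.card_fin]
  have h2 : (-c) ^ N * ∏ i, (-c⁻¹ - (hH.eigenvalues i : ℂ)) =
      ∏ i : Fin N, (1 + c * (hH.eigenvalues i : ℂ)) := by
    have h3 : (-c) ^ N = ∏ _i : Fin N, (-c) := by simp
    rw [h3, ← Finset.prod_mul_distrib]
    refine Finset.prod_congr rfl fun i _ => ?_
    field_simp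
    ring
  have h2' : (-c) ^ N * ∏ i, (-c⁻¹ - ((hH.eigenvalues i : ℝ) : ℂ)) =
      ∏ i : Fin N, (1 + c * (hH.eigenvalues i : ℂ)) := h2
  rw [show (∏ x, (-c⁻¹ - ((RCLike.ofReal (hH.eigenvalues x) : ℂ)))) =
    ∏ i, (-c⁻¹ - ((hH.eigenvalues i : ℝ) : ℂ)) from rfl, h2']
  -- the eigenvalues
  have htr := hH.trace_eq_sum_eigenvalues
  rw [hM.2.2] at htr
  have htr2 : ∑ i, hH.eigenvalues i = 1 := by
    have : ((∑ i, hH.eigenvalues i : ℝ) : ℂ) = ((1 : ℝ) : ℂ) := by
      push_cast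
      exact htr.symm
    exact_mod_cast this
  have hpow : ∏ i : Fin N, (1 + c * (hH.eigenvalues i : ℂ)) =
      (1 + c) ^ (Finset.univ.filter fun i => hH.eigenvalues i = 1).card := by
    rw [← Finset.prod_const, Finset.prod_filter]
    refine Finset.prod_congr rfl fun i _ => ?_
    rcases eig hM hH i with h | h
    · rw [h]
      simp
    · rw [h]
      simp
  have hcard : ((Finset.univ.filter fun i => hH.eigenvalues i = 1).card : ℝ) = 1 := by
    refine Eq.trans ?_ htr2
    rw [Finset.card_eq_sum_ones, Finset.sum_filter]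
    push_cast
    refine Finset.sum_congr rfl fun i _ => ?_
    rcases eig hM hH i with h | h
    · simp [h]
    · simp [h]
  have hcard2 : (Finset.univ.filter fun i => hH.eigenvalues i = 1).card = 1 := by
    exact_mod_cast hcard
  rw [hpow, hcard2, pow_one]

/-- the function of `z = exp (-iθ)` -/
def pz (z : ℂ) (M : Mt N) : Mt N := 1 + (z - 1) • M

lemma pz_mul {M : Mt N} (hM : prj M) (z w : ℂ) : pz z M * pz w M = pz (z * w) M := by
  unfold pz
  rw [mul_add, mul_one, add_mul, one_mul, smul_mul_smul_comm, hM.2.1, add_assoc,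
    ← add_smul, ← add_smul]
  congr 2
  ring

lemma pz_star {M : Mt N} (hM : prj M) (z : ℂ) : (pz z M)ᴴ = pz (star z) M := by
  unfold pz
  rw [conjTranspose_add, conjTranspose_one, conjTranspose_smul, hM.1, star_sub, star_one]

lemma eth_eq (θ : ℝ) (M : Mt N) :
    eth N θ M = Complex.exp (θ * Complex.I / N) • pz (Complex.exp (-(θ * Complex.I))) M := rfl

lemma eth_add {M : Mt N} (hM : prj M) (θ θ' : ℝ) :
    eth N (θ + θ') M = eth N θ M * eth N θ' M := by
  rw [eth_eq, eth_eq, eth_eq, smul_mul_smul_comm, pz_mul hM, ← Complex.exp_add, ← Complex.exp_add]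
  congr 2
  · push_cast
    ring
  · congr 1
    push_cast
    ring

lemma eth_zero (M : Mt N) : eth N 0 M = 1 := by
  rw [eth_eq]
  unfold pz
  simp

lemma norm_e (θ : ℝ) : ‖Complex.exp (θ * Complex.I / N)‖ = 1 := by
  have h : (θ * Complex.I / N : ℂ) = ((θ / N : ℝ) : ℂ) * Complex.I := by push_cast; ring
  rw [h, Complex.norm_exp_ofReal_mul_I]

lemma eth_star {M : Mt N} (hM : prj M) (θ : ℝ) : (eth N θ M)ᴴ = eth N (-θ) M := by
  rw [eth_eq, eth_eq, conjTranspose_smul, pz_star hM]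
  congr 1
  · rw [Complex.star_def, ← Complex.exp_conj]
    congr 1
    simp
  · congr 1
    rw [Complex.star_def, ← Complex.exp_conj]
    congr 1
    simp

lemma eth_su (hN : N ≠ 0) {M : Mt N} (hM : prj M) (θ : ℝ) :
    eth N θ M ∈ Matrix.specialUnitaryGroup (Fin N) ℂ := by
  rw [mem_specialUnitaryGroup_iff]
  refine ⟨?_, ?_⟩
  · rw [mem_unitaryGroup_iff, star_eq_conjTranspose, eth_star hM, ← eth_add hM, add_neg_cancel,
      eth_zero]
  · rw [eth_eq, det_smul, pz, det_prj hM, Fintype.card_fin, ← Complex.exp_nat_mul]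
    have hN' : (N : ℂ) ≠ 0 := by exact_mod_cast hN
    have h1 : (N : ℂ) * (θ * Complex.I / N) = θ * Complex.I := by field_simp
    rw [h1, add_sub_cancel, ← Complex.exp_add]
    simp

lemma norm_expI (x y : ℝ) : ‖Complex.exp (x * Complex.I) - Complex.exp (y * Complex.I)‖ ≤ |x - y| := by
  have h1 : Complex.exp (x * Complex.I) - Complex.exp (y * Complex.I) =
      Complex.exp (y * Complex.I) * (Complex.exp (Complex.I * ((x - y : ℝ) : ℂ)) - 1) := by
    rw [mul_sub, ← Complex.exp_add, mul_one]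
    congr 2
    push_cast
    ring
  rw [h1, norm_mul, Complex.norm_exp_ofReal_mul_I, one_mul]
  exact Real.norm_exp_I_mul_ofReal_sub_one_le

lemma eth_form (θ : ℝ) (M : Mt N) :
    eth N θ M = Complex.exp (((θ / N : ℝ) : ℂ) * Complex.I) • (1 - M) +
      Complex.exp (((θ / N - θ : ℝ) : ℂ) * Complex.I) • M := by
  rw [eth_eq, pz, smul_add, smul_smul, smul_sub, sub_add_eq_add_sub, add_sub_assoc]
  have h1 : (θ * Complex.I / N : ℂ) = ((θ / N : ℝ) : ℂ) * Complex.I := by push_cast; ring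
  rw [h1]
  congr 1
  rw [← sub_smul]
  congr 1
  rw [mul_sub, mul_one, ← Complex.exp_add]
  congr 2
  push_cast
  ring

lemma norm_one_le : ‖(1 : Mt N)‖ ≤ Real.sqrt N := by
  have h := fr_sq (1 : Mt N)
  rw [conjTranspose_one, mul_one, trace_one, Fintype.card_fin, Complex.natCast_re] at h
  rw [← h, Real.sqrt_sq (norm_nonneg _)]

lemma eth_lip (hN : N ≠ 0) {M : Mt N} (hM : prj M) (θ θ' : ℝ) :
    ‖eth N θ M - eth N θ' M‖ ≤ (Real.sqrt N + 2) * |θ - θ'| := by
  have hN1 : (1 : ℝ) ≤ N := by exact_mod_cast Nat.one_le_iff_ne_zero.2 hN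
  have h1 : eth N θ M - eth N θ' M =
      (Complex.exp (((θ / N : ℝ) : ℂ) * Complex.I) - Complex.exp (((θ' / N : ℝ) : ℂ) * Complex.I)) •
        (1 - M) + (Complex.exp (((θ / N - θ : ℝ) : ℂ) * Complex.I) -
          Complex.exp (((θ' / N - θ' : ℝ) : ℂ) * Complex.I)) • M := by
    rw [eth_form, eth_form, sub_smul, sub_smul]
    abel
  rw [h1]
  refine (norm_add_le _ _).trans ?_
  rw [norm_smul, norm_smul, norm_prj hM, mul_one]
  have h2 := norm_expI (θ / N) (θ' / N)
  have h3 := norm_expI (θ / N - θ) (θ' / N - θ')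
  have h4 : ‖(1 : Mt N) - M‖ ≤ Real.sqrt N + 1 := by
    refine (norm_sub_le _ _).trans ?_
    rw [norm_prj hM]
    linarith [norm_one_le (N := N)]
  have hN0 : (0 : ℝ) < N := by linarith
  have h5 : |θ / N - θ' / N| ≤ |θ - θ'| := by
    rw [← sub_div, abs_div, abs_of_pos hN0]
    exact div_le_self (abs_nonneg _) hN1
  have h6 : |θ / N - θ - (θ' / N - θ')| ≤ |θ - θ'| := by
    have e : θ / N - θ - (θ' / N - θ') = (1 / N - 1) * (θ - θ') := by ring
    rw [e, abs_mul]
    have h7 : |(1 : ℝ) / N - 1| ≤ 1 := by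
      have h8 : 0 ≤ (1 : ℝ) / N := by positivity
      have h9 : (1 : ℝ) / N ≤ 1 := (div_le_one hN0).2 hN1
      rw [abs_le]
      constructor <;> linarith
    calc _ ≤ 1 * |θ - θ'| := mul_le_mul_of_nonneg_right h7 (abs_nonneg _)
      _ = _ := one_mul _
  have h10 : ‖Complex.exp (((θ / N : ℝ) : ℂ) * Complex.I) - Complex.exp (((θ' / N : ℝ) : ℂ) *
      Complex.I)‖ * ‖(1 : Mt N) - M‖ ≤ |θ - θ'| * (Real.sqrt N + 1) :=
    mul_le_mul (h2.trans h5) h4 (norm_nonneg _) (abs_nonneg _)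
  have h11 := h3.trans h6
  linarith

lemma norm_eth_le {M : Mt N} (hM : prj M) (θ : ℝ) : ‖eth N θ M‖ ≤ Real.sqrt N + 2 := by
  rw [eth_form]
  refine (norm_add_le _ _).trans ?_
  rw [norm_smul, norm_smul, norm_prj hM, Complex.norm_exp_ofReal_mul_I,
    Complex.norm_exp_ofReal_mul_I, one_mul, mul_one]
  have h4 : ‖(1 : Mt N) - M‖ ≤ Real.sqrt N + 1 := by
    refine (norm_sub_le _ _).trans ?_
    rw [norm_prj hM]
    linarith [norm_one_le (N := N)]
  linarith

lemma eth_diff {M M' : Mt N} (hM' : prj M') (θ : ℝ) :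
    ‖eth N θ M * eth N (-θ) M' - 1‖ ≤ 2 * (Real.sqrt N + 2) * ‖M - M'‖ := by
  have h0 : eth N θ M' * eth N (-θ) M' = 1 := by
    rw [← eth_add hM', add_neg_cancel, eth_zero]
  have h1 : eth N θ M * eth N (-θ) M' - 1 = (eth N θ M - eth N θ M') * eth N (-θ) M' := by
    rw [sub_mul, h0]
  rw [h1]
  refine (Matrix.frobenius_norm_mul _ _).trans ?_
  have h2 : eth N θ M - eth N θ M' =
      (Complex.exp (((θ / N - θ : ℝ) : ℂ) * Complex.I) - Complex.exp (((θ / N : ℝ) : ℂ) * Complex.I)) •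
        (M - M') := by
    rw [eth_form, eth_form, smul_sub, smul_sub, smul_sub, sub_smul, sub_smul]
    abel
  have h3 : ‖eth N θ M - eth N θ M'‖ ≤ 2 * ‖M - M'‖ := by
    rw [h2, norm_smul]
    apply mul_le_mul_of_nonneg_right _ (norm_nonneg _)
    refine (norm_sub_le _ _).trans ?_
    rw [Complex.norm_exp_ofReal_mul_I, Complex.norm_exp_ofReal_mul_I]
    norm_num
  have h4 := norm_eth_le hM' (-θ)
  calc ‖eth N θ M - eth N θ M'‖ * ‖eth N (-θ) M'‖ ≤ (2 * ‖M - M'‖) * (Real.sqrt N + 2) :=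
        mul_le_mul h3 h4 (norm_nonneg _) (by positivity)
    _ = _ := by ring

lemma su_inv (g : SU N) : ((g⁻¹ : SU N) : Mt N) = (g : Mt N)ᴴ := rfl

lemma su_mul (g : SU N) : (g : Mt N) * (g : Mt N)ᴴ = 1 :=
  (mem_unitaryGroup_iff.1 (mem_specialUnitaryGroup_iff.1 g.2).1)

lemma su_mul' (g : SU N) : (g : Mt N)ᴴ * (g : Mt N) = 1 :=
  (mem_unitaryGroup_iff'.1 (mem_specialUnitaryGroup_iff.1 g.2).1)

lemma adj_prj {M : Mt N} (hM : prj M) (g : SU N) : prj (Adj g M) := by
  unfold Adj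
  rw [su_inv]
  refine ⟨?_, ?_, ?_⟩
  · rw [conjTranspose_mul, conjTranspose_mul, conjTranspose_conjTranspose, hM.1, mul_assoc]
  · calc (g : Mt N) * M * (g : Mt N)ᴴ * ((g : Mt N) * M * (g : Mt N)ᴴ) =
          (g : Mt N) * M * ((g : Mt N)ᴴ * (g : Mt N)) * (M * (g : Mt N)ᴴ) := by
            simp only [mul_assoc]
      _ = (g : Mt N) * (M * M) * (g : Mt N)ᴴ := by
            rw [su_mul', mul_one]
            simp only [mul_assoc]
      _ = _ := by rw [hM.2.1]
  · rw [trace_mul_comm, ← mul_assoc, su_mul', one_mul, hM.2.2]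

lemma adj_eth (M : Mt N) (g : SU N) (θ : ℝ) : Adj g (eth N θ M) = eth N θ (Adj g M) := by
  unfold Adj eth
  rw [su_inv, mul_smul_comm, smul_mul_assoc, mul_add, mul_one, mul_smul_comm, add_mul,
    smul_mul_assoc, su_mul]

end PkgYB

open PkgYB in
theorem pYB : S_YB := by
  intro N hN
  have hN0 : N ≠ 0 := by omega
  have hs : 0 ≤ Real.sqrt N := Real.sqrt_nonneg _
  refine ⟨2 * (Real.sqrt N + 2), by linarith, ?_⟩
  intro M M' hM hM'
  refine ⟨fun θ => eth_su hN0 hM θ, fun θ θ' => eth_add hM θ θ', fun m => ?_,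
    fun g θ => ⟨adj_prj hM g, adj_eth M g θ⟩, fun θ θ' => ?_, fun θ => eth_diff hM' θ⟩
  · rw [eth_eq, pz]
    have h1 : Complex.exp (-(((2 * Real.pi * m : ℝ) : ℂ) * Complex.I)) = 1 := by
      rw [Complex.exp_eq_one_iff]
      refine ⟨-m, ?_⟩
      push_cast
      ring
    rw [h1, sub_self, zero_smul, add_zero]
    congr 1
    unfold oz
    congr 1
    push_cast
    ring
  · refine (eth_lip hN0 hM θ θ').trans ?_
    apply mul_le_mul_of_nonneg_right _ (abs_nonneg _)
    linarith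

end T2H01.SE
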