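import Pool.Agent.T2H01.SE.Stm8

/-!
# Package YC (project SE, helper74): a polar angle on `ℤ²` (piecewise rational)
-/

set_option autoImplicit false

noncomputable section

namespace T2H01.SE

open T2H02.TT

namespace PkgYC

/-- the angle of the diamond, values in `(-2, 2)` -/
def psi (a b : ℝ) : ℝ :=
  if 0 < a then b / (|a| + |b|) else if 0 < b then 2 - b / (|a| + |b|) else -2 - b / (|a| + |b|)

lemma core1 (u v : ℝ) (hu : 0 < u) (hv : 0 < v) :
    |v / (u + v) - v / (u + 1 + v)| ≤ 1 / (u + v) := by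
  have e : v / (u + v) - v / (u + 1 + v) = v / ((u + v) * (u + 1 + v)) := by
    field_simp
    ring
  rw [e, abs_of_nonneg (by positivity), div_le_div_iff₀ (by positivity) (by positivity)]
  nlinarith [mul_pos (add_pos hu hv) (add_pos hu hv)]

lemma core2 (u v : ℝ) (hu : 0 < u) (hv : 0 < v) :
    |v / (u + v) - (v + 1) / (u + (v + 1))| ≤ 1 / (u + v) := by
  have e : v / (u + v) - (v + 1) / (u + (v + 1)) = -(u / ((u + v) * (u + (v + 1)))) := by
    field_simp
    ring
  rw [e, abs_neg, abs_of_nonneg (by positivity), div_le_div_iff₀ (by positivity) (by positivity)]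
  nlinarith [mul_pos (add_pos hu hv) (add_pos hu hv)]

lemma max_bd (p q D : ℝ) (h1 : 1 + p ≤ 4 * D) (h2 : 1 - p ≤ 4 * D) (h3 : 1 + q ≤ 4 * D)
    (h4 : 1 - q ≤ 4 * D) : 1 + max |p| |q| ≤ 4 * D := by
  rcases max_cases |p| |q| with ⟨h, _⟩ | ⟨h, _⟩ <;> rw [h] <;>
    [rcases abs_cases p with ⟨h, _⟩ | ⟨h, _⟩; rcases abs_cases q with ⟨h, _⟩ | ⟨h, _⟩] <;>
    rw [h] <;> linarith

lemma int_cases (p : ℤ) : (1 : ℝ) ≤ p ∨ p = 0 ∨ (p : ℝ) ≤ -1 := by
  rcases lt_trichotomy p 0 with h | h | h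
  · right; right
    have : p ≤ -1 := by omega
    exact_mod_cast this
  · right; left; exact h
  · left
    have : 1 ≤ p := by omega
    exact_mod_cast this

lemma int_cases2 (p : ℤ) : (1 : ℝ) ≤ p ∨ (p : ℝ) ≤ 0 := by
  rcases int_cases p with h | h | h
  · left; exact h
  · right; rw [h]; norm_num
  · right; linarith

/-- horizontal step -/
lemma hstep (p q : ℤ) : ∃ D : ℝ, 0 < D ∧ 1 + max |(p : ℝ)| |(q : ℝ)| ≤ 4 * D ∧
    |psi (p - 1 / 2) (q - 1 / 2) - psi (p + 1 - 1 / 2) (q - 1 / 2)| ≤ 1 / D := by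
  rcases int_cases p with hp | hp | hp
  · -- both right
    have ha : 0 < (p : ℝ) - 1 / 2 := by linarith
    have ha' : 0 < (p : ℝ) + 1 - 1 / 2 := by linarith
    rcases int_cases2 q with hq | hq
    · have hb : 0 < (q : ℝ) - 1 / 2 := by linarith
      refine ⟨(p - 1 / 2) + (q - 1 / 2), by linarith, max_bd _ _ _ (by linarith) (by linarith)
        (by linarith) (by linarith), ?_⟩
      simp only [psi, if_pos ha, if_pos ha', abs_of_pos ha, abs_of_pos ha', abs_of_pos hb]
      have := core1 (p - 1 / 2) (q - 1 / 2) ha hb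
      rw [show (p : ℝ) + 1 - 1 / 2 = p - 1 / 2 + 1 by ring]
      exact this
    · have hb : (q : ℝ) - 1 / 2 < 0 := by linarith
      refine ⟨(p - 1 / 2) + (-(q - 1 / 2)), by linarith, max_bd _ _ _ (by linarith) (by linarith)
        (by linarith) (by linarith), ?_⟩
      simp only [psi, if_pos ha, if_pos ha', abs_of_pos ha, abs_of_pos ha', abs_of_neg hb]
      have := core1 (p - 1 / 2) (-(q - 1 / 2)) ha (by linarith)
      rw [show (p : ℝ) + 1 - 1 / 2 = p - 1 / 2 + 1 by ring, ← abs_neg]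
      refine le_of_eq_of_le ?_ this
      congr 1
      ring
  · subst hp
    have ha : ¬ 0 < ((0 : ℤ) : ℝ) - 1 / 2 := by norm_num
    have ha' : 0 < ((0 : ℤ) : ℝ) + 1 - 1 / 2 := by norm_num
    have e1 : |((0 : ℤ) : ℝ) - 1 / 2| = 1 / 2 := by norm_num
    have e2 : |((0 : ℤ) : ℝ) + 1 - 1 / 2| = 1 / 2 := by norm_num
    rcases int_cases2 q with hq | hq
    · have hb : 0 < (q : ℝ) - 1 / 2 := by linarith
      refine ⟨1 / 2 + (q - 1 / 2), by linarith, max_bd _ _ _ (by push_cast; linarith)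
        (by push_cast; linarith) (by linarith) (by linarith), ?_⟩
      simp only [psi, if_neg ha, if_pos ha', if_pos hb, e1, e2, abs_of_pos hb]
      have hD : (0 : ℝ) < 1 / 2 + (q - 1 / 2) := by linarith
      have e : 2 - ((q : ℝ) - 1 / 2) / (1 / 2 + (q - 1 / 2)) -
          ((q : ℝ) - 1 / 2) / (1 / 2 + (q - 1 / 2)) = 1 / (1 / 2 + (q - 1 / 2)) := by
        rw [eq_div_iff hD.ne', sub_mul, sub_mul, div_mul_cancel₀ _ hD.ne']
        ring
      rw [e, abs_of_pos (by positivity)]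
    · have hb : (q : ℝ) - 1 / 2 < 0 := by linarith
      refine ⟨1 / 2 + (-(q - 1 / 2)), by linarith, max_bd _ _ _ (by push_cast; linarith)
        (by push_cast; linarith) (by linarith) (by linarith), ?_⟩
      simp only [psi, if_neg ha, if_pos ha', if_neg hb.le.not_gt, e1, e2, abs_of_neg hb]
      have hD : (0 : ℝ) < 1 / 2 + (-(q - 1 / 2)) := by linarith
      have e : -2 - ((q : ℝ) - 1 / 2) / (1 / 2 + (-(q - 1 / 2))) -
          ((q : ℝ) - 1 / 2) / (1 / 2 + (-(q - 1 / 2))) = -(1 / (1 / 2 + (-(q - 1 / 2)))) := by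
        rw [← neg_div, eq_div_iff hD.ne', sub_mul, sub_mul, div_mul_cancel₀ _ hD.ne']
        ring
      rw [e, abs_neg, abs_of_pos (by positivity)]
  · -- both left
    have ha : (p : ℝ) - 1 / 2 < 0 := by linarith
    have ha' : (p : ℝ) + 1 - 1 / 2 < 0 := by linarith
    rcases int_cases2 q with hq | hq
    · have hb : 0 < (q : ℝ) - 1 / 2 := by linarith
      refine ⟨(-(p + 1 - 1 / 2)) + (q - 1 / 2), by linarith, max_bd _ _ _ (by linarith)
        (by linarith) (by linarith) (by linarith), ?_⟩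
      simp only [psi, if_neg ha.le.not_gt, if_neg ha'.le.not_gt, if_pos hb, abs_of_neg ha,
        abs_of_neg ha', abs_of_pos hb]
      have := core1 (-(p + 1 - 1 / 2)) (q - 1 / 2) (by linarith) hb
      refine le_of_eq_of_le ?_ this
      congr 1
      rw [show -((p : ℝ) + 1 - 1 / 2) + 1 = -(p - 1 / 2) by ring]
      ring
    · have hb : (q : ℝ) - 1 / 2 < 0 := by linarith
      refine ⟨(-(p + 1 - 1 / 2)) + (-(q - 1 / 2)), by linarith, max_bd _ _ _ (by linarith)
        (by linarith) (by linarith) (by linarith), ?_⟩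
      simp only [psi, if_neg ha.le.not_gt, if_neg ha'.le.not_gt, if_neg hb.le.not_gt,
        abs_of_neg ha, abs_of_neg ha', abs_of_neg hb]
      have := core1 (-(p + 1 - 1 / 2)) (-(q - 1 / 2)) (by linarith) (by linarith)
      rw [← abs_neg]
      refine le_of_eq_of_le ?_ this
      congr 1
      rw [show -((p : ℝ) + 1 - 1 / 2) + 1 = -(p - 1 / 2) by ring]
      ring

/-- vertical step -/
lemma vstep (p q : ℤ) : ∃ D : ℝ, 0 < D ∧ 1 + max |(p : ℝ)| |(q : ℝ)| ≤ 4 * D ∧
    |psi (p - 1 / 2) (q - 1 / 2) - psi (p - 1 / 2) (q + 1 - 1 / 2) +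
      4 * (if q = 0 ∧ p ≤ 0 then 1 else 0)| ≤ 1 / D := by
  rcases int_cases q with hq | hq | hq
  · have hb : 0 < (q : ℝ) - 1 / 2 := by linarith
    have hb' : 0 < (q : ℝ) + 1 - 1 / 2 := by linarith
    have hn : ¬ (q = 0 ∧ p ≤ 0) := by
      rintro ⟨h, _⟩
      rw [h] at hq
      norm_num at hq
    rw [if_neg hn]
    rcases int_cases2 p with hp | hp
    · have ha : 0 < (p : ℝ) - 1 / 2 := by linarith
      refine ⟨(p - 1 / 2) + (q - 1 / 2), by linarith, max_bd _ _ _ (by linarith) (by linarith)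
        (by linarith) (by linarith), ?_⟩
      simp only [psi, if_pos ha, abs_of_pos ha, abs_of_pos hb, abs_of_pos hb']
      have := core2 (p - 1 / 2) (q - 1 / 2) ha hb
      refine le_of_eq_of_le ?_ this
      congr 1
      rw [show (q : ℝ) - 1 / 2 + 1 = q + 1 - 1 / 2 by ring]
      ring
    · have ha : (p : ℝ) - 1 / 2 < 0 := by linarith
      refine ⟨(-(p - 1 / 2)) + (q - 1 / 2), by linarith, max_bd _ _ _ (by linarith) (by linarith)
        (by linarith) (by linarith), ?_⟩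
      simp only [psi, if_neg ha.le.not_gt, if_pos hb, if_pos hb', abs_of_neg ha, abs_of_pos hb,
        abs_of_pos hb']
      have := core2 (-(p - 1 / 2)) (q - 1 / 2) (by linarith) hb
      rw [← abs_neg]
      refine le_of_eq_of_le ?_ this
      congr 1
      rw [show (q : ℝ) - 1 / 2 + 1 = q + 1 - 1 / 2 by ring]
      ring
  · subst hq
    have hb : ¬ 0 < ((0 : ℤ) : ℝ) - 1 / 2 := by norm_num
    have hb' : 0 < ((0 : ℤ) : ℝ) + 1 - 1 / 2 := by norm_num
    have e1 : |((0 : ℤ) : ℝ) - 1 / 2| = 1 / 2 := by norm_num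
    have e2 : |((0 : ℤ) : ℝ) + 1 - 1 / 2| = 1 / 2 := by norm_num
    rcases int_cases2 p with hp | hp
    · have ha : 0 < (p : ℝ) - 1 / 2 := by linarith
      have hn : ¬ ((0 : ℤ) = 0 ∧ p ≤ 0) := by
        rintro ⟨_, h⟩
        have : (p : ℝ) ≤ 0 := by exact_mod_cast h
        linarith
      rw [if_neg hn]
      refine ⟨(p - 1 / 2) + 1 / 2, by linarith, max_bd _ _ _ (by linarith)
        (by linarith) (by push_cast; linarith) (by push_cast; linarith), ?_⟩
      simp only [psi, if_pos ha, e1, e2, abs_of_pos ha]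
      have hD : (0 : ℝ) < (p - 1 / 2) + 1 / 2 := by linarith
      have e : (((0 : ℤ) : ℝ) - 1 / 2) / (((p : ℝ) - 1 / 2) + 1 / 2) -
          (((0 : ℤ) : ℝ) + 1 - 1 / 2) / (((p : ℝ) - 1 / 2) + 1 / 2) + 4 * 0 =
          -(1 / (((p : ℝ) - 1 / 2) + 1 / 2)) := by
        push_cast
        ring
      rw [e, abs_neg, abs_of_pos (by positivity)]
    · have ha : (p : ℝ) - 1 / 2 < 0 := by linarith
      have hn : ((0 : ℤ) = 0 ∧ p ≤ 0) := ⟨rfl, by exact_mod_cast hp⟩
      rw [if_pos hn]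
      refine ⟨(-(p - 1 / 2)) + 1 / 2, by linarith, max_bd _ _ _ (by linarith)
        (by linarith) (by push_cast; linarith) (by push_cast; linarith), ?_⟩
      simp only [psi, if_neg ha.le.not_gt, if_neg hb, if_pos hb', e1, e2, abs_of_neg ha]
      have hD : (0 : ℝ) < (-(p - 1 / 2)) + 1 / 2 := by linarith
      have e : -2 - (((0 : ℤ) : ℝ) - 1 / 2) / ((-((p : ℝ) - 1 / 2)) + 1 / 2) -
          (2 - (((0 : ℤ) : ℝ) + 1 - 1 / 2) / ((-((p : ℝ) - 1 / 2)) + 1 / 2)) + 4 * 1 =
          1 / ((-((p : ℝ) - 1 / 2)) + 1 / 2) := by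
        push_cast
        ring
      rw [e, abs_of_pos (by positivity)]
  · have hb : (q : ℝ) - 1 / 2 < 0 := by linarith
    have hb' : (q : ℝ) + 1 - 1 / 2 < 0 := by linarith
    have hn : ¬ (q = 0 ∧ p ≤ 0) := by
      rintro ⟨h, _⟩
      rw [h] at hq
      norm_num at hq
    rw [if_neg hn]
    rcases int_cases2 p with hp | hp
    · have ha : 0 < (p : ℝ) - 1 / 2 := by linarith
      refine ⟨(p - 1 / 2) + (-(q + 1 - 1 / 2)), by linarith, max_bd _ _ _ (by linarith)
        (by linarith) (by linarith) (by linarith), ?_⟩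
      simp only [psi, if_pos ha, abs_of_pos ha, abs_of_neg hb, abs_of_neg hb']
      have := core2 (p - 1 / 2) (-(q + 1 - 1 / 2)) ha (by linarith)
      refine le_of_eq_of_le ?_ this
      congr 1
      rw [show -((q : ℝ) + 1 - 1 / 2) + 1 = -(q - 1 / 2) by ring]
      ring
    · have ha : (p : ℝ) - 1 / 2 < 0 := by linarith
      refine ⟨(-(p - 1 / 2)) + (-(q + 1 - 1 / 2)), by linarith, max_bd _ _ _ (by linarith)
        (by linarith) (by linarith) (by linarith), ?_⟩
      simp only [psi, if_neg ha.le.not_gt, if_neg hb.le.not_gt, if_neg hb'.le.not_gt, abs_of_neg ha,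
        abs_of_neg hb, abs_of_neg hb']
      have := core2 (-(p - 1 / 2)) (-(q + 1 - 1 / 2)) (by linarith) (by linarith)
      rw [← abs_neg]
      refine le_of_eq_of_le ?_ this
      congr 1
      rw [show -((q : ℝ) + 1 - 1 / 2) + 1 = -(q - 1 / 2) by ring]
      ring

lemma fin_step (z D M : ℝ) (hD : 0 < D) (hM : 0 ≤ M) (h : 1 + M ≤ 4 * D) (hz : |z| ≤ 1 / D) :
    |Real.pi / 2 * z| ≤ 8 / (1 + M) := by
  have h1 : 1 / D ≤ 4 / (1 + M) := by
    rw [div_le_div_iff₀ hD (by linarith)]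
    linarith
  rw [abs_mul, abs_of_pos (by positivity)]
  have hpi : Real.pi ≤ 4 := Real.pi_le_four
  have h2 : 0 ≤ |z| := abs_nonneg z
  calc Real.pi / 2 * |z| ≤ 2 * (4 / (1 + M)) := by
        apply mul_le_mul (by linarith) (hz.trans h1) h2 (by norm_num)
    _ = 8 / (1 + M) := by ring

end PkgYC

open PkgYC in
theorem pYC : S_YC := by
  refine ⟨8, fun x => Real.pi / 2 * psi (x.1 - 1 / 2) (x.2 - 1 / 2), by norm_num, ?_⟩
  rintro ⟨p, q⟩ m (rfl | rfl)
  · obtain ⟨D, hD, h1, h2⟩ := hstep p q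
    have h3 := fin_step _ D (max |(p : ℝ)| |(q : ℝ)|) hD (le_max_of_le_left (abs_nonneg _)) h1 h2
    refine le_of_eq_of_le ?_ h3
    congr 1
    have e : ((p, q) : Pl) + pe 0 = (p + 1, q) := by
      simp [pe]
    rw [e]
    simp only [Fin.isValue, zero_ne_one, false_and, if_false]
    push_cast
    ring
  · obtain ⟨D, hD, h1, h2⟩ := vstep p q
    have h3 := fin_step _ D (max |(p : ℝ)| |(q : ℝ)|) hD (le_max_of_le_left (abs_nonneg _)) h1 h2
    refine le_of_eq_of_le ?_ h3
    congr 1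
    have e : ((p, q) : Pl) + pe 1 = (p, q + 1) := by
      simp [pe]
    rw [e]
    simp only [true_and]
    push_cast
    ring

end T2H01.SE
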