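import Pool.Agent.T2H01.SE.Stm8
import Pool.Agent.T2H02.TT.LL

/-!
# Package YD: cutting off a configuration of zero energy (helper23)
-/

set_option autoImplicit false
set_option linter.unusedSectionVars false

noncomputable section

open MeasureTheory Matrix
open scoped Matrix.Norms.Frobenius

namespace T2H01.SE

open T2H02.TT

namespace PkgYD

open T2H02.TT.PkgD (nadj nmul nr adj_add adj_sub gi ig gi' ig')
open T2H02.TT.PkgLL (plk flat flat23 flat02 flat03 flat12 flat13 flat01 dl_eq dl_sub df_eq norm_cu)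

variable {N L : ℕ} [NeZero L]

/-- sup norm on the plane -/
def nm (x : Pl) : ℝ := max |(x.1 : ℝ)| |(x.2 : ℝ)|

/-- the cut off -/
def ct (L : ℕ) (x : Pl) : ℝ := max 0 (min 1 (2 - nm x / L))

lemma ct_nonneg (x : Pl) : 0 ≤ ct L x := le_max_left _ _

lemma ct_le (x : Pl) : ct L x ≤ 1 := max_le zero_le_one (min_le_left _ _)

lemma L_pos : (0 : ℝ) < L := by exact_mod_cast Nat.pos_of_ne_zero (NeZero.ne L)

lemma ct_one (x : Pl) (h : nm x ≤ L) : ct L x = 1 := by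
  unfold ct
  have h1 : nm x / L ≤ 1 := by rw [div_le_one (L_pos (L := L))]; exact h
  rw [min_eq_left (by linarith), max_eq_right zero_le_one]

lemma ct_zero (x : Pl) (h : 2 * (L : ℝ) ≤ nm x) : ct L x = 0 := by
  unfold ct
  have h1 : 2 ≤ nm x / L := by rw [le_div_iff₀ (L_pos (L := L))]; exact h
  apply max_eq_left
  exact (min_le_right _ _).trans (by linarith)

lemma nm_sub (x x' : Pl) (h1 : |x'.1 - x.1| ≤ 1) (h2 : |x'.2 - x.2| ≤ 1) : |nm x' - nm x| ≤ 1 := by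
  have e1 : |(x'.1 : ℝ) - x.1| ≤ 1 := by exact_mod_cast h1
  have e2 : |(x'.2 : ℝ) - x.2| ≤ 1 := by exact_mod_cast h2
  unfold nm
  have a1 := abs_sub_abs_le_abs_sub (x'.1 : ℝ) x.1
  have a2 := abs_sub_abs_le_abs_sub (x'.2 : ℝ) x.2
  have a3 := abs_sub_abs_le_abs_sub (x.1 : ℝ) x'.1
  have a4 := abs_sub_abs_le_abs_sub (x.2 : ℝ) x'.2
  rw [abs_sub_comm] at a3 a4
  rw [abs_le]
  constructor
  · have h3 : max |(x.1 : ℝ)| |(x.2 : ℝ)| ≤ max |(x'.1 : ℝ)| |(x'.2 : ℝ)| + 1 := by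
      apply max_le
      · linarith [le_max_left |(x'.1 : ℝ)| |(x'.2 : ℝ)|]
      · linarith [le_max_right |(x'.1 : ℝ)| |(x'.2 : ℝ)|]
    linarith
  · have h3 : max |(x'.1 : ℝ)| |(x'.2 : ℝ)| ≤ max |(x.1 : ℝ)| |(x.2 : ℝ)| + 1 := by
      apply max_le
      · linarith [le_max_left |(x.1 : ℝ)| |(x.2 : ℝ)|]
      · linarith [le_max_right |(x.1 : ℝ)| |(x.2 : ℝ)|]
    linarith

lemma ct_sub (x x' : Pl) (h : |nm x' - nm x| ≤ 1) : |ct L x' - ct L x| ≤ 1 / L := by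
  have hL := L_pos (L := L)
  have h0 : |(2 - nm x' / L) - (2 - nm x / L)| ≤ 1 / L := by
    have : (2 - nm x' / L) - (2 - nm x / L) = -(nm x' - nm x) / L := by ring
    rw [this, abs_div, abs_neg, abs_of_pos hL]
    gcongr
  unfold ct
  have h1 : |min 1 (2 - nm x' / L) - min 1 (2 - nm x / L)| ≤ 1 / L := by
    refine (abs_min_sub_min_le_max _ _ _ _).trans ?_
    rw [sub_self, abs_zero]
    exact max_le (by positivity) h0
  refine (abs_max_sub_max_le_max _ _ _ _).trans ?_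
  rw [sub_self, abs_zero]
  exact max_le (by positivity) h1

lemma nm_pe (x : Pl) (i : Fin 4) : |nm (x + pe i) - nm x| ≤ 1 := by
  apply nm_sub
  · fin_cases i <;> simp [pe]
  · fin_cases i <;> simp [pe]

/-- if one of the corners is outside the square of radius `L`, all are at distance at least `L` -/
lemma nm_int (x x' : Pl) (h : (L : ℝ) < nm x) (h' : |nm x' - nm x| ≤ 1) : (L : ℝ) ≤ nm x' := by
  have hz : ∀ x : Pl, ∃ m : ℤ, nm x = m := by
    intro x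
    refine ⟨max |x.1| |x.2|, ?_⟩
    unfold nm
    push_cast
    rfl
  obtain ⟨m, hm⟩ := hz x
  obtain ⟨m', hm'⟩ := hz x'
  rw [hm] at h h'
  rw [hm'] at h' ⊢
  have h1 : (L : ℤ) < m := by exact_mod_cast h
  have h2 : |m' - m| ≤ 1 := by exact_mod_cast h'
  have h3 : (L : ℤ) ≤ m' := by
    have := (abs_le.mp h2).1
    omega
  exact_mod_cast h3

lemma pr_rsmul (s : ℝ) (M : Mt N) : pr ((s : ℂ) • M) = (s : ℂ) • pr M := by
  unfold pr
  rw [conjTranspose_smul, Complex.star_def, Complex.conj_ofReal, ← smul_sub, trace_smul,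
    smul_comm (1 / 2 : ℂ) (s : ℂ), smul_sub (s : ℂ), smul_smul (s : ℂ) _ (1 : Mt N)]
  congr 2
  rw [smul_eq_mul]
  ring

lemma norm_SU (g : SU N) : ‖(g : Mt N)‖ ≤ Real.sqrt N := by
  have h1 : ‖(g : Mt N)‖ = ‖(1 : Mt N)‖ := by
    have := nr g (1 : Mt N)
    rwa [Matrix.one_mul] at this
  rw [h1]
  apply Real.le_sqrt_of_sq_le
  rw [T2H02.TT.PkgD.fr_sq]
  simp

lemma df_triv (X : Cf N L) {z : ℂ} (hz : ‖z‖ = 1) (p : Pt L) (i j : Fin 4) :
    ‖df X z p i j‖ ≤ 2 * Real.sqrt N := by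
  unfold df
  refine (norm_sub_le _ _).trans ?_
  rw [norm_smul, hz, one_mul]
  have h1 := norm_SU (X (p, i) * X (nx p i, j))
  have h2 := norm_SU (X (p, j) * X (nx p j, i))
  rw [T2H02.TT.PkgD.cmul] at h1 h2
  linarith

/-- the cut off configuration -/
def Xc (P Q : SU N) (X₀ : Cf N L) (E : Mt N → SU N) : Cf N L := by
  classical
  exact fun l => if nm l.1.1 ≤ L then X₀ l
    else E ((ct L l.1.1 : ℂ) • T2H02.TT.PkgLL.dl P Q X₀ l) * vc P Q l

lemma Xc_in (P Q : SU N) (X₀ : Cf N L) (E : Mt N → SU N) (l : Lk L) (h : nm l.1.1 ≤ L) :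
    Xc P Q X₀ E l = X₀ l := by
  unfold Xc
  rw [if_pos h]

lemma Xc_out (P Q : SU N) (X₀ : Cf N L) (E : Mt N → SU N) (l : Lk L) (h : ¬ nm l.1.1 ≤ L) :
    Xc P Q X₀ E l = E ((ct L l.1.1 : ℂ) • T2H02.TT.PkgLL.dl P Q X₀ l) * vc P Q l := by
  unfold Xc
  rw [if_neg h]

lemma nm_plk (p : Pt L) (i j : Fin 4) (l l' : Lk L) (h : l ∈ plk p i j) (h' : l' ∈ plk p i j) :
    |nm l'.1.1 - nm l.1.1| ≤ 1 := by
  simp only [plk, List.mem_cons, List.not_mem_nil, or_false] at h h'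
  have hp : ∀ i : Fin 4, 0 ≤ (pe i).1 ∧ (pe i).1 ≤ 1 ∧ 0 ≤ (pe i).2 ∧ (pe i).2 ≤ 1 := by
    intro i
    fin_cases i <;> simp [pe]
  obtain ⟨i1, i2, i3, i4⟩ := hp i
  obtain ⟨j1, j2, j3, j4⟩ := hp j
  have hn : ∀ m : Fin 4, (nx p m).1 = p.1 + pe m := fun m => rfl
  apply nm_sub
  · rcases h with rfl | rfl | rfl | rfl <;> rcases h' with rfl | rfl | rfl | rfl <;>
      simp only [hn, Prod.fst_add] <;> rw [abs_le] <;> constructor <;> linarith
  · rcases h with rfl | rfl | rfl | rfl <;> rcases h' with rfl | rfl | rfl | rfl <;>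
      simp only [hn, Prod.snd_add] <;> rw [abs_le] <;> constructor <;> linarith

/-- the estimate for one plaquette -/
lemma plq_bd {P Q : SU N} {X₀ : Cf N L} {E : Mt N → SU N} {CE Cg ρ : ℝ} (hCE : 0 ≤ CE)
    (hCg : 0 ≤ Cg) (h0 : 0 ≤ ρ) (h1 : ρ ≤ 1) (hL : 1 / (L : ℝ) ≤ ρ)
    (hg : ∀ g : SU N, ‖((g : Mt N) - 1) - pr ((g : Mt N) - 1)‖ ≤ Cg * ‖(g : Mt N) - 1‖ ^ 2)
    (hE : ∀ M : Mt N, ‖(E M : Mt N) - 1 - pr M‖ ≤ CE * ‖M‖ ^ 2)
    (hX : ∀ l : Lk L, (L : ℝ) ≤ nm l.1.1 → ‖(X₀ l : Mt N) - (vc P Q l : Mt N)‖ ≤ ρ)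
    {z : ℂ} {p : Pt L} {i j : Fin 4}
    (hfl : (∃ l ∈ plk p i j, (L : ℝ) < nm l.1.1) → flat P Q z p i j)
    (hdf : df X₀ z p i j = 0) :
    ‖df (Xc P Q X₀ E) z p i j‖ ≤ (4 + 4 * (CE + Cg) + 2 * (1 + CE + Cg) ^ 2) * ρ ^ 2 := by
  by_cases hc : ∃ l ∈ plk p i j, (L : ℝ) < nm l.1.1
  swap
  · push Not at hc
    have e : df (Xc P Q X₀ E) z p i j = df X₀ z p i j := by
      unfold df
      rw [Xc_in P Q X₀ E (p, i) (hc _ (by simp [plk])),
        Xc_in P Q X₀ E (nx p i, j) (hc _ (by simp [plk])),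
        Xc_in P Q X₀ E (p, j) (hc _ (by simp [plk])),
        Xc_in P Q X₀ E (nx p j, i) (hc _ (by simp [plk]))]
    rw [e, hdf, norm_zero]
    positivity
  have hf := hfl hc
  obtain ⟨l₀, hl₀, hl₀'⟩ := hc
  have hout : ∀ l ∈ plk p i j, (L : ℝ) ≤ nm l.1.1 := fun l hl =>
    nm_int l₀.1.1 l.1.1 hl₀' (nm_plk p i j l₀ l hl₀ hl)
  set af := T2H02.TT.PkgLL.dl P Q X₀ with haf
  set b := T2H02.TT.PkgLL.dl P Q (Xc P Q X₀ E) with hb
  have haf1 : ∀ l ∈ plk p i j, ‖af l‖ ≤ ρ := by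
    intro l hl
    have h2 := dl_sub P Q X₀ l 0
    rw [sub_zero, add_zero, Matrix.one_mul] at h2
    rw [haf, h2]
    exact hX l (hout l hl)
  have hK : 0 ≤ (CE + Cg) * ρ ^ 2 := by positivity
  have hb1 : ∀ l ∈ plk p i j, ‖b l - (ct L l.1.1 : ℂ) • af l‖ ≤ (CE + Cg) * ρ ^ 2 := by
    intro l hl
    have hct0 := ct_nonneg (L := L) l.1.1
    have hct1 := ct_le (L := L) l.1.1
    by_cases hin : nm l.1.1 ≤ L
    · rw [ct_one _ hin, Complex.ofReal_one, one_smul]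
      have e : b l = af l := by
        rw [hb, haf]
        unfold T2H02.TT.PkgLL.dl
        rw [Xc_in P Q X₀ E l hin]
      rw [e, sub_self, norm_zero]
      exact hK
    · set M := (ct L l.1.1 : ℂ) • af l with hM
      have e : b l = (E M : Mt N) - 1 := by
        rw [hb]
        unfold T2H02.TT.PkgLL.dl
        rw [Xc_out P Q X₀ E l hin, T2H02.TT.PkgD.cmul, Matrix.mul_assoc, gi, Matrix.mul_one]
      have hMn : ‖M‖ ≤ ρ := by
        rw [hM, norm_smul, Complex.norm_real, Real.norm_of_nonneg hct0]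
        calc ct L l.1.1 * ‖af l‖ ≤ 1 * ρ :=
              mul_le_mul hct1 (haf1 l hl) (norm_nonneg _) zero_le_one
          _ = ρ := one_mul _
      have h2 : ‖(E M : Mt N) - 1 - pr M‖ ≤ CE * ρ ^ 2 := by
        refine (hE M).trans ?_
        gcongr
      have h3 : ‖pr M - M‖ ≤ Cg * ρ ^ 2 := by
        have e2 : af l = ((X₀ l * (vc P Q l)⁻¹ : SU N) : Mt N) - 1 := rfl
        have h4 := hg (X₀ l * (vc P Q l)⁻¹)
        rw [← e2] at h4
        rw [hM, pr_rsmul, ← smul_sub, norm_smul, Complex.norm_real, Real.norm_of_nonneg hct0,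
          norm_sub_rev]
        calc ct L l.1.1 * ‖af l - pr (af l)‖ ≤ 1 * (Cg * ρ ^ 2) := by
              refine mul_le_mul hct1 (h4.trans ?_) (norm_nonneg _) zero_le_one
              have := haf1 l hl
              gcongr
          _ = Cg * ρ ^ 2 := one_mul _
      rw [e]
      calc ‖(E M : Mt N) - 1 - M‖ = ‖((E M : Mt N) - 1 - pr M) + (pr M - M)‖ := by
            congr 1
            abel
        _ ≤ CE * ρ ^ 2 + Cg * ρ ^ 2 := (norm_add_le _ _).trans (add_le_add h2 h3)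
        _ = (CE + Cg) * ρ ^ 2 := by ring
  have hb2 : ∀ l ∈ plk p i j, ‖b l‖ ≤ (1 + CE + Cg) * ρ := by
    intro l hl
    have hct0 := ct_nonneg (L := L) l.1.1
    have hct1 := ct_le (L := L) l.1.1
    have hMn : ‖(ct L l.1.1 : ℂ) • af l‖ ≤ ρ := by
      rw [norm_smul, Complex.norm_real, Real.norm_of_nonneg hct0]
      calc ct L l.1.1 * ‖af l‖ ≤ 1 * ρ :=
            mul_le_mul hct1 (haf1 l hl) (norm_nonneg _) zero_le_one
        _ = ρ := one_mul _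
    calc ‖b l‖ = ‖(b l - (ct L l.1.1 : ℂ) • af l) + (ct L l.1.1 : ℂ) • af l‖ := by
          rw [sub_add_cancel]
      _ ≤ (CE + Cg) * ρ ^ 2 + ρ := (norm_add_le _ _).trans (add_le_add (hb1 l hl) hMn)
      _ ≤ (1 + CE + Cg) * ρ := by nlinarith [mul_nonneg (add_nonneg hCE hCg) h0]
  have hprod : ∀ (l l' : Lk L) (g : SU N), l ∈ plk p i j → l' ∈ plk p i j →
      ∀ c c' : Lk L → Mt N, ∀ r : ℝ, 0 ≤ r → ‖c l‖ ≤ r → ‖c' l'‖ ≤ r →
      ‖c l * Adj g (c' l')‖ ≤ r ^ 2 := by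
    intro l l' g _ _ c c' r hr h2 h3
    refine (nmul _ _).trans ?_
    rw [nadj]
    calc ‖c l‖ * ‖c' l'‖ ≤ r * r := mul_le_mul h2 h3 (norm_nonneg _) hr
      _ = r ^ 2 := by ring
  have m1 : (p, i) ∈ plk p i j := by simp [plk]
  have m2 : (nx p i, j) ∈ plk p i j := by simp [plk]
  have m3 : (p, j) ∈ plk p i j := by simp [plk]
  have m4 : (nx p j, i) ∈ plk p i j := by simp [plk]
  -- the curl of `af`
  have hcu : ‖cu P Q af p i j‖ ≤ 2 * ρ ^ 2 := by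
    have h2 := df_eq P Q X₀ z p i j hf
    rw [hdf, norm_zero] at h2
    have h3 := norm_eq_zero.1 h2.symm
    have h4 : cu P Q af p i j = af (p, j) * Adj (vc P Q (p, j)) (af (nx p j, i)) -
        af (p, i) * Adj (vc P Q (p, i)) (af (nx p i, j)) := by
      rw [haf]
      have h5 := h3
      rw [sub_eq_zero] at h5
      rw [← h5]
      abel
    rw [h4]
    refine (norm_sub_le _ _).trans ?_
    have q1 := hprod (p, j) (nx p j, i) (vc P Q (p, j)) m3 m4 af af ρ h0 (haf1 _ m3) (haf1 _ m4)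
    have q2 := hprod (p, i) (nx p i, j) (vc P Q (p, i)) m1 m2 af af ρ h0 (haf1 _ m1) (haf1 _ m2)
    linarith
  -- the curl of `s af`
  have hcu2 : ‖cu P Q (fun l => (ct L l.1.1 : ℂ) • af l) p i j‖ ≤ 4 * ρ ^ 2 := by
    have e : cu P Q (fun l => (ct L l.1.1 : ℂ) • af l) p i j =
        (ct L p.1 : ℂ) • cu P Q af p i j +
        ((ct L (p.1 + pe i) - ct L p.1 : ℝ) : ℂ) • Adj (vc P Q (p, i)) (af (nx p i, j)) -
        ((ct L (p.1 + pe j) - ct L p.1 : ℝ) : ℂ) • Adj (vc P Q (p, j)) (af (nx p j, i)) := by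
      have hsm : ∀ (g : SU N) (c : ℂ) (M : Mt N), Adj g (c • M) = c • Adj g M := by
        intro g c M
        unfold Adj
        rw [Matrix.mul_smul, Matrix.smul_mul]
      have hn : ∀ m : Fin 4, (nx p m).1 = p.1 + pe m := fun m => rfl
      unfold cu
      simp only [hsm, hn, smul_sub, smul_add, Complex.ofReal_sub, sub_smul]
      abel
    rw [e]
    have hd : ∀ m : Fin 4, ‖((ct L (p.1 + pe m) - ct L p.1 : ℝ) : ℂ)‖ ≤ ρ := by
      intro m
      rw [Complex.norm_real, Real.norm_eq_abs]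
      exact (ct_sub _ _ (nm_pe _ _)).trans hL
    refine (norm_sub_le _ _).trans ?_
    have q0 := norm_add_le ((ct L p.1 : ℂ) • cu P Q af p i j)
      (((ct L (p.1 + pe i) - ct L p.1 : ℝ) : ℂ) • Adj (vc P Q (p, i)) (af (nx p i, j)))
    have q1 : ‖(ct L p.1 : ℂ) • cu P Q af p i j‖ ≤ 2 * ρ ^ 2 := by
      rw [norm_smul, Complex.norm_real, Real.norm_of_nonneg (ct_nonneg _)]
      calc ct L p.1 * ‖cu P Q af p i j‖ ≤ 1 * (2 * ρ ^ 2) :=
            mul_le_mul (ct_le _) hcu (norm_nonneg _) zero_le_one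
        _ = 2 * ρ ^ 2 := one_mul _
    have q2 : ‖((ct L (p.1 + pe i) - ct L p.1 : ℝ) : ℂ) • Adj (vc P Q (p, i)) (af (nx p i, j))‖ ≤
        ρ ^ 2 := by
      rw [norm_smul, nadj, sq]
      exact mul_le_mul (hd i) (haf1 _ m2) (norm_nonneg _) h0
    have q3 : ‖((ct L (p.1 + pe j) - ct L p.1 : ℝ) : ℂ) • Adj (vc P Q (p, j)) (af (nx p j, i))‖ ≤
        ρ ^ 2 := by
      rw [norm_smul, nadj, sq]
      exact mul_le_mul (hd j) (haf1 _ m4) (norm_nonneg _) h0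
    linarith
  have hcu3 : ‖cu P Q b p i j‖ ≤ 4 * ρ ^ 2 + 4 * ((CE + Cg) * ρ ^ 2) := by
    have e : cu P Q b p i j = cu P Q (fun l => (ct L l.1.1 : ℂ) • af l) p i j +
        cu P Q (fun l => b l - (ct L l.1.1 : ℂ) • af l) p i j := by
      rw [← T2H02.TT.PkgLL.cu_add]
      congr 1
      funext l
      abel
    rw [e]
    refine (norm_add_le _ _).trans (add_le_add hcu2 ?_)
    exact norm_cu P Q _ p i j (hb1 _ m1) (hb1 _ m2) (hb1 _ m3) (hb1 _ m4)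
  rw [df_eq P Q _ z p i j hf]
  have hr : 0 ≤ (1 + CE + Cg) * ρ := by positivity
  have q1 := hprod (p, i) (nx p i, j) (vc P Q (p, i)) m1 m2 b b _ hr (hb2 _ m1) (hb2 _ m2)
  have q2 := hprod (p, j) (nx p j, i) (vc P Q (p, j)) m3 m4 b b _ hr (hb2 _ m3) (hb2 _ m4)
  refine (norm_sub_le _ _).trans ?_
  have q3 := norm_add_le (cu P Q b p i j) (b (p, i) * Adj (vc P Q (p, i)) (b (nx p i, j)))
  nlinarith [q1, q2, q3, hcu3]

lemma sum_zero {f : Tor L → Mt N} (h : ∑ y, ‖f y‖ ^ 2 / 2 = 0) (y : Tor L) : f y = 0 := by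
  have h1 := (Finset.sum_eq_zero_iff_of_nonneg (fun _ _ => by positivity)).1 h y (Finset.mem_univ _)
  have h3 : ‖f y‖ ^ 2 = 0 := by linarith
  exact norm_eq_zero.1 (pow_eq_zero_iff (two_ne_zero) |>.1 h3)

lemma sum_zero2 {f g : Tor L → Mt N} (h : ∑ y, (‖f y‖ ^ 2 / 2 + ‖g y‖ ^ 2 / 2) = 0) (y : Tor L) :
    f y = 0 ∧ g y = 0 := by
  rw [Finset.sum_add_distrib] at h
  have h1 : 0 ≤ ∑ y, ‖f y‖ ^ 2 / 2 := Finset.sum_nonneg fun _ _ => by positivity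
  have h2 : 0 ≤ ∑ y, ‖g y‖ ^ 2 / 2 := Finset.sum_nonneg fun _ _ => by positivity
  exact ⟨sum_zero (by linarith) y, sum_zero (by linarith) y⟩

lemma sum_bd {f : Tor L → Mt N} {B : ℝ} (h : ∀ y, ‖f y‖ ≤ B) :
    ∑ y, ‖f y‖ ^ 2 / 2 ≤ (L : ℝ) ^ 2 * B ^ 2 := by
  calc ∑ y, ‖f y‖ ^ 2 / 2 ≤ ∑ _y : Tor L, B ^ 2 := by
        refine Finset.sum_le_sum fun y _ => ?_
        have h1 : ‖f y‖ ^ 2 ≤ B ^ 2 := pow_le_pow_left₀ (norm_nonneg _) (h y) 2
        have h2 : 0 ≤ ‖f y‖ ^ 2 := by positivity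
        linarith
    _ = _ := by rw [Finset.sum_const, Finset.card_univ, nsmul_eq_mul, T2H02.TT.PkgLL.card_Tor]

lemma sum_bd2 {f g : Tor L → Mt N} {B : ℝ} (h : ∀ y, ‖f y‖ ≤ B) (h' : ∀ y, ‖g y‖ ≤ B) :
    ∑ y, (‖f y‖ ^ 2 / 2 + ‖g y‖ ^ 2 / 2) ≤ (L : ℝ) ^ 2 * B ^ 2 := by
  calc ∑ y, (‖f y‖ ^ 2 / 2 + ‖g y‖ ^ 2 / 2) ≤ ∑ _y : Tor L, B ^ 2 := by
        refine Finset.sum_le_sum fun y _ => ?_
        have h1 : ‖f y‖ ^ 2 ≤ B ^ 2 := pow_le_pow_left₀ (norm_nonneg _) (h y) 2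
        have h2 : ‖g y‖ ^ 2 ≤ B ^ 2 := pow_le_pow_left₀ (norm_nonneg _) (h' y) 2
        linarith
    _ = _ := by rw [Finset.sum_const, Finset.card_univ, nsmul_eq_mul, T2H02.TT.PkgLL.card_Tor]

lemma oz_norm (N : ℕ) (a : ℤ) : ‖oz N a‖ = 1 := by
  rw [oz, show 2 * (Real.pi : ℂ) * Complex.I * a / N = ((2 * Real.pi * a / N : ℝ) : ℂ) * Complex.I by
    push_cast; ring, Complex.norm_exp_ofReal_mul_I]

lemma tw_norm (k : ℕ) (y : Tor L) : ‖tw N k y‖ = 1 := by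
  unfold tw
  split_ifs
  · exact T2H02.TT.PkgLL.norm_om k
  · exact norm_one

/-- all terms -/
lemma term_bd {k : ℕ} {P Q : SU N} (hvac : VV k (vac P Q : Ph N L) = 0) {n : ℤ} {X₀ X : Cf N L}
    {B : ℝ} (h0 : ∀ τ : Tm, enf k (dl 0 n) X₀ τ = 0)
    (key : ∀ (z : ℂ) (p : Pt L) (i j : Fin 4), ‖z‖ = 1 →
      ((∃ l ∈ plk p i j, (L : ℝ) < nm l.1.1) → flat P Q z p i j) → df X₀ z p i j = 0 →
      ‖df X z p i j‖ ≤ B) (τ : Tm) :
    enf k (dl 0 n) X τ ≤ (L : ℝ) ^ 2 * B ^ 2 := by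
  obtain ⟨x, i⟩ := τ
  fin_cases i
  · change eV k X x ≤ _
    have h1 : eV k X₀ x = 0 := h0 (x, 0)
    unfold eV at h1 ⊢
    exact sum_bd fun y => key _ _ _ _ (tw_norm k y) (fun _ => flat23 hvac x y) (sum_zero h1 y)
  · change eK X x 0 ≤ _
    have h1 : eK X₀ x 0 = 0 := h0 (x, 1)
    unfold eK at h1 ⊢
    exact sum_bd2 (fun y => key _ _ _ _ norm_one (fun _ => flat02 P Q x y) (sum_zero2 h1 y).1)
      (fun y => key _ _ _ _ norm_one (fun _ => flat03 P Q x y) (sum_zero2 h1 y).2)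
  · change eK X x 1 ≤ _
    have h1 : eK X₀ x 1 = 0 := h0 (x, 2)
    unfold eK at h1 ⊢
    exact sum_bd2 (fun y => key _ _ _ _ norm_one (fun _ => flat12 P Q x y) (sum_zero2 h1 y).1)
      (fun y => key _ _ _ _ norm_one (fun _ => flat13 P Q x y) (sum_zero2 h1 y).2)
  · change eP X (oz N (dl 0 n x)) x ≤ _
    have h1 : eP X₀ (oz N (dl 0 n x)) x = 0 := h0 (x, 3)
    unfold eP at h1 ⊢
    refine sum_bd fun y => key _ _ _ _ (oz_norm N _) (fun hc => ?_) (sum_zero h1 y)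
    by_cases hx : x = 0
    · exfalso
      obtain ⟨l, hl, hl'⟩ := hc
      have h2 := nm_plk ((x, y) : Pt L) 0 1 ((x, y), 0) l (by simp [plk]) hl
      have h3 : nm x = 0 := by
        rw [hx]
        simp [nm]
      have h4 : (1 : ℝ) ≤ L := by exact_mod_cast Nat.one_le_iff_ne_zero.2 (NeZero.ne L)
      have h5 := (abs_le.1 h2).2
      simp only [h3] at h5
      linarith
    · have h2 : oz N (dl 0 n x) = 1 := by
        unfold dl
        rw [if_neg hx]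
        simp [oz]
      rw [h2]
      exact flat01 P Q x y

/-- the square -/
def Us (L : ℕ) : Finset Pl :=
  Finset.Icc (-(2 * L + 1 : ℤ)) (2 * L + 1) ×ˢ Finset.Icc (-(2 * L + 1 : ℤ)) (2 * L + 1)

lemma card_tml_Us : ((tml (Us L)).card : ℝ) ≤ 784 * (L : ℝ) ^ 2 := by
  have h1 : (tml (Us L)).card ≤ (4 * (Us L).card) * 4 := by
    unfold tml
    refine (Finset.card_filter_le _ _).trans ?_
    rw [Finset.card_product, Finset.card_univ, Fintype.card_fin]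
    refine Nat.mul_le_mul_right 4 ?_
    have a1 := Finset.card_image_le (s := Us L) (f := fun x => x - ((1 : ℤ), (0 : ℤ)))
    have a2 := Finset.card_image_le (s := Us L) (f := fun x => x - ((0 : ℤ), (1 : ℤ)))
    have a3 := Finset.card_image_le (s := Us L) (f := fun x => x - ((1 : ℤ), (1 : ℤ)))
    refine (Finset.card_union_le _ _).trans ?_
    refine (Nat.add_le_add_right (Finset.card_union_le _ _) _).trans ?_
    refine (Nat.add_le_add_right (Nat.add_le_add_right (Finset.card_union_le _ _) _) _).trans ?_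
    omega
  have h2 : (Us L).card = (4 * L + 3) ^ 2 := by
    unfold Us
    rw [Finset.card_product, Int.card_Icc]
    have : ((2 * L + 1 : ℤ) + 1 - -(2 * L + 1 : ℤ)).toNat = 4 * L + 3 := by omega
    rw [this]
    ring
  have hL : 1 ≤ L := Nat.one_le_iff_ne_zero.2 (NeZero.ne L)
  have h3 : (tml (Us L)).card ≤ 784 * L ^ 2 := by
    rw [h2] at h1
    nlinarith
  exact_mod_cast h3

lemma nm_Us (x : Pl) (h : x ∉ Us L) : 2 * (L : ℝ) < nm x := by
  unfold Us at h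
  rw [Finset.mem_product, Finset.mem_Icc, Finset.mem_Icc] at h
  by_contra hc
  push Not at hc
  unfold nm at hc
  apply h
  have h1 : |(x.1 : ℝ)| ≤ 2 * L := (le_max_left _ _).trans hc
  have h2 : |(x.2 : ℝ)| ≤ 2 * L := (le_max_right _ _).trans hc
  have h1' : |x.1| ≤ 2 * (L : ℤ) := by exact_mod_cast h1
  have h2' : |x.2| ≤ 2 * (L : ℤ) := by exact_mod_cast h2
  rw [abs_le] at h1' h2'
  omega

end PkgYD

open PkgYD in
theorem pYD (hB0 : S_B0) (hE4 : S_E4) : S_YD := by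
  intro N hN C₁ hC₁
  obtain ⟨-, -, -, -, -, ⟨Cg, hCg, hg⟩, E, CE, hCE, -, hE0, -, hE⟩ := hE4 N hN
  obtain ⟨K, hK⟩ : ∃ K : ℝ, K = 2 * Real.sqrt N +
    (4 + 4 * (CE + Cg) + 2 * (1 + CE + Cg) ^ 2) := ⟨_, rfl⟩
  have hsq : 0 ≤ Real.sqrt N := Real.sqrt_nonneg _
  have hK0 : 0 ≤ 4 + 4 * (CE + Cg) + 2 * (1 + CE + Cg) ^ 2 := by positivity
  refine ⟨784 * K ^ 2 * C₁ ^ 4, ?_⟩
  intro k L _ hk P Q hPQ n X₀ h0 hX
  have hvac : VV k (vac P Q : Ph N L) = 0 := hB0 N k L hN hk P Q hPQ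
  have hL := L_pos (L := L)
  obtain ⟨ρ, hρ⟩ : ∃ ρ : ℝ, ρ = C₁ / L := ⟨_, rfl⟩
  have hρ0 : 0 ≤ ρ := by rw [hρ]; positivity
  have hρL : 1 / (L : ℝ) ≤ ρ := by rw [hρ]; gcongr
  refine ⟨Us L, Xc P Q X₀ E, ?_, ?_, ?_⟩
  · unfold Us
    rw [Finset.mem_product, Finset.mem_Icc, Finset.mem_Icc]
    simp only [Prod.fst_zero, Prod.snd_zero]
    omega
  · intro l hl
    rw [mem_Frl] at hl
    push Not at hl
    have h1 := nm_Us (L := L) l.1.1 (hl l.1.1 ((mem_st _ _).2 (Or.inl rfl)))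
    rw [Xc_out P Q X₀ E l (by linarith), ct_zero _ h1.le, Complex.ofReal_zero, zero_smul, hE0,
      one_mul]
  · have hterm : ∀ τ : Tm, enf k (dl 0 n) (Xc P Q X₀ E) τ ≤ (L : ℝ) ^ 2 * (K * ρ ^ 2) ^ 2 := by
      refine term_bd hvac h0 fun z p i j hz hfl hdf => ?_
      by_cases h1 : ρ ≤ 1
      · have h2 := plq_bd (L := L) hCE.le hCg.le hρ0 h1 hρL hg hE
          (fun l hl => by rw [hρ]; exact hX l hl) hfl hdf
        refine h2.trans ?_
        rw [hK]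
        nlinarith [mul_nonneg hsq (sq_nonneg ρ)]
      · have h2 := df_triv (Xc P Q X₀ E) hz p i j
        have h3 : 1 ≤ ρ ^ 2 := by nlinarith
        refine h2.trans ?_
        rw [hK]
        nlinarith [mul_nonneg hK0 (sq_nonneg ρ), mul_nonneg hsq (sub_nonneg.2 h3)]
    unfold EE
    calc ∑ τ ∈ tml (Us L), enf k (dl 0 n) (Xc P Q X₀ E) τ
        ≤ ∑ _τ ∈ tml (Us L), (L : ℝ) ^ 2 * (K * ρ ^ 2) ^ 2 := Finset.sum_le_sum fun τ _ => hterm τ
      _ = ((tml (Us L)).card : ℝ) * ((L : ℝ) ^ 2 * (K * ρ ^ 2) ^ 2) := by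
          rw [Finset.sum_const, nsmul_eq_mul]
      _ ≤ (784 * (L : ℝ) ^ 2) * ((L : ℝ) ^ 2 * (K * ρ ^ 2) ^ 2) := by
          gcongr
          exact card_tml_Us
      _ = 784 * K ^ 2 * C₁ ^ 4 := by
          rw [hρ]
          field_simp

end T2H01.SE
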