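import Pool.Agent.T2H01.SE.Stm2
import Pool.Agent.T2H02.TT.Z

/-!
# Package ZD : the hypotheses of the coupling theorem for the frozen system
-/

set_option autoImplicit false
set_option linter.unusedSectionVars false

noncomputable section

open MeasureTheory Matrix Filter
open scoped Matrix.Norms.Frobenius

namespace T2H01.SE

open T2H02.TT

namespace PkgZD

variable {N L : ℕ} [NeZero L]

lemma ker_congr {ι Tm X : Type} [DecidableEq ι] [DecidableEq Tm] [MeasurableSpace X]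
    (S : Sys ι Tm X) (μ : Measure X) (Λ : Finset Pl) (f g : (ι → X) → ℝ) (η : ι → X)
    (h : ∀ ξ, f (glue (S.Fr Λ) ξ η) = g (glue (S.Fr Λ) ξ η)) :
    S.ker μ Λ f η = S.ker μ Λ g η := by
  unfold Sys.ker Sys.num
  simp only [h]

lemma ind_congr {p q : Prop} (h : p ↔ q) : ind p = ind q := by
  rw [propext h]

lemma en_meas (hN : 0 < N) (k : ℕ) (τ : Tm) : Measurable fun X : Cf N L => en k X τ :=
  (en_cont k τ hN).measurable

lemma vac_glue (P Q : SU N) (Ω Λ : Finset Pl) (ξ : Cf N L) (η : Lv L Ω → SU N) :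
    xt P Q Ω (rs Ω (glue (Frl L (Λ ∩ Ω)) ξ (xt P Q Ω η))) =
      glue (Frl L (Λ ∩ Ω)) ξ (xt P Q Ω η) := by
  refine xt_rs P Q Ω _ fun l hl => ?_
  have h : l ∉ Frl L (Λ ∩ Ω) := fun h => by
    obtain ⟨a, h1, h2⟩ := (mem_Frl _ _).1 h
    exact hl ((mem_Frl _ _).2 ⟨a, h1, (Finset.mem_inter.1 h2).2⟩)
  unfold glue
  rw [if_neg h, xt_of_not P Q Ω _ l hl]

lemma bad_iff {k : ℕ} {β : ℝ} (hN : 2 ≤ N) (hβ : 0 ≤ β) (P Q : SU N) (Ω : Finset Pl) (M : ℕ)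
    (hM : 0 < M) (ε : ℝ) (b : Pl) (X : Lv L Ω → SU N) :
    Bad (coa (frz N L k β hN hβ P Q Ω) M hM) (fun τ X => en k (xt P Q Ω X) τ ≤ ε) b X ↔
      ∃ τ : Tm, (∃ a ∈ cor τ, a ∈ Ω) ∧ (∀ a ∈ cor τ, a ∈ Ω → blk M a ∈ Nb 1 b) ∧
          ¬ en k (xt P Q Ω X) τ ≤ ε := by
  constructor
  · rintro ⟨τ, hτ, h1, h2⟩
    obtain ⟨a, ha, -⟩ := (Sys.mem_tms _ _ _).1 hτ
    obtain ⟨c, hc, rfl⟩ := Finset.mem_image.1 ha
    rw [show (frz N L k β hN hβ P Q Ω).bt τ = (cor τ).filter (· ∈ Ω) from rfl,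
      Finset.mem_filter] at hc
    exact ⟨τ, ⟨c, hc.1, hc.2⟩, fun a ha hΩ => h1 _ (Finset.mem_image_of_mem _
      (Finset.mem_filter.2 ⟨ha, hΩ⟩)), h2⟩
  · rintro ⟨τ, ⟨c, hc, hcΩ⟩, h1, h2⟩
    refine ⟨τ, (Sys.mem_tms _ _ _).2 ⟨blk M c, Finset.mem_image_of_mem _
      (Finset.mem_filter.2 ⟨hc, hcΩ⟩), h1 c hc hcΩ⟩, fun a ha => ?_, h2⟩
    obtain ⟨d, hd, rfl⟩ := Finset.mem_image.1 ha
    rw [show (frz N L k β hN hβ P Q Ω).bt τ = (cor τ).filter (· ∈ Ω) from rfl,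
      Finset.mem_filter] at hd
    exact h1 d hd.1 hd.2

lemma bad_meas {k : ℕ} {β : ℝ} (hN : 2 ≤ N) (hβ : 0 ≤ β) (P Q : SU N) (Ω : Finset Pl) (M : ℕ)
    (hM : 0 < M) (ε : ℝ) (b : Pl) :
    Measurable fun X : Lv L Ω → SU N =>
      ind (Bad (coa (frz N L k β hN hβ P Q Ω) M hM) (fun τ X => en k (xt P Q Ω X) τ ≤ ε) b X) := by
  classical
  set S := coa (frz N L k β hN hβ P Q Ω) M hM with hS
  have hms : MeasurableSet {X : Lv L Ω → SU N | Bad S (fun τ X => en k (xt P Q Ω X) τ ≤ ε) b X} := by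
    have h : {X : Lv L Ω → SU N | Bad S (fun τ X => en k (xt P Q Ω X) τ ≤ ε) b X} =
        ⋃ τ ∈ S.tms (Nb 1 b), {X : Lv L Ω → SU N |
          (∀ a ∈ S.bt τ, a ∈ Nb 1 b) ∧ ¬ en k (xt P Q Ω X) τ ≤ ε} := by
      ext X
      simp only [Bad, Set.mem_ofPred_eq, Set.mem_iUnion, exists_prop]
    rw [h]
    refine Finset.measurableSet_biUnion _ fun τ _ => ?_
    by_cases hh : ∀ a ∈ S.bt τ, a ∈ Nb 1 b
    · have : {X : Lv L Ω → SU N | (∀ a ∈ S.bt τ, a ∈ Nb 1 b) ∧ ¬ en k (xt P Q Ω X) τ ≤ ε} =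
          {X : Lv L Ω → SU N | en k (xt P Q Ω X) τ ≤ ε}ᶜ := by
        ext X
        simp only [Set.mem_ofPred_eq, Set.mem_compl_iff]
        exact ⟨fun h => h.2, fun h => ⟨hh, h⟩⟩
      rw [this]
      exact (measurableSet_le (((en_meas (by omega) k τ)).comp (xt_meas P Q Ω))
        measurable_const).compl
    · have : {X : Lv L Ω → SU N | (∀ a ∈ S.bt τ, a ∈ Nb 1 b) ∧ ¬ en k (xt P Q Ω X) τ ≤ ε} = ∅ := by
        ext X
        simp only [Set.mem_ofPred_eq, Set.mem_empty_iff_false, iff_false]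
        exact fun h => hh h.1
      rw [this]
      exact MeasurableSet.empty
  unfold ind
  exact Measurable.ite hms measurable_const measurable_const

end PkgZD

theorem pZD (hZO : S_ZO) : S_ZD := by
  intro N k L _ hN hk P Q hPQ
  obtain ⟨C, θ, D, hC, h0, h1, H⟩ := hZO N k L hN hk P Q hPQ
  obtain ⟨K, β₀, hK, hβ₀, hpar⟩ := T2H02.TT.PkgZ.params D hC h0 h1
  refine ⟨1 / 10, K, β₀, by norm_num, hK, hβ₀, fun β hβ hβ1 => ?_⟩
  obtain ⟨M, b, e1, e2, g1, g2, g3, g4, g5, g6, g7, g8, g9, g10, g11⟩ := hpar β hβ1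
  have hM : 0 < M := by omega
  obtain ⟨r1, r2, r3, r4, r5, r6, r7⟩ := T2H02.TT.PkgZ.core (D := D) (M := M) (T := θ ^ M) hC g2 g3
    g4 g5 g6 g7 g8 (by positivity) g9 g10 g11
  set t := (2 * D + 8 : ℝ) * M ^ 2 * Real.log β / b ^ 200 with ht
  have hβ1' : 1 ≤ β := by linarith
  have HH := H β hβ hβ1' M hM t (C * M ^ 2 * (θ ^ M + t)) (C * M ^ 8 * (θ ^ M + t)) g7 r1
    rfl rfl r5
  rw [← e1] at r6 r7
  refine ⟨M, hM, C * M ^ 2 * (θ ^ M + t), (1 / b ^ 30) ^ 32, (1 / b ^ 30) ^ 2, 1 / b ^ 30, g1,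
    by positivity, by positivity, r2, le_rfl, le_rfl, r3, ?_, fun Ω => ?_⟩
  · rw [e2]
    exact r4
  obtain ⟨H1, H2⟩ := HH Ω
  set ε : ℝ := C * M ^ 2 * (θ ^ M + t) with hε
  refine ⟨?_, ?_⟩
  · intro b' η
    rw [coa_ker, frz_ker k β hN hβ P Q Ω _ _ (PkgZD.bad_meas hN hβ P Q Ω M hM ε b') η]
    rw [PkgZD.ker_congr (sysS N L k β hN hβ) (hm N) (sit M (Nb 2 b') ∩ Ω) _
      (fun X => ind (∃ τ : Tm, (∃ a ∈ cor τ, a ∈ Ω) ∧ (∀ a ∈ cor τ, a ∈ Ω → blk M a ∈ Nb 1 b') ∧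
          ¬ en k X τ ≤ ε)) (xt P Q Ω η) (fun ξ => by
        refine PkgZD.ind_congr ?_
        rw [PkgZD.bad_iff hN hβ P Q Ω M hM ε b']
        have hv := PkgZD.vac_glue P Q Ω (sit M (Nb 2 b')) ξ η
        have hv' : xt P Q Ω (rs Ω (glue ((sysS N L k β hN hβ).Fr (sit M (Nb 2 b') ∩ Ω)) ξ
            (xt P Q Ω η))) = glue ((sysS N L k β hN hβ).Fr (sit M (Nb 2 b') ∩ Ω)) ξ
            (xt P Q Ω η) := hv
        rw [hv'])]
    exact (H1 b' (xt P Q Ω η) fun l hl => xt_of_not P Q Ω _ l hl).trans r6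
  · intro b' Λ hΛ hb' η η' h3 h4 F hF hF1 hdep
    rw [coa_ker, coa_ker, frz_ker k β hN hβ P Q Ω _ F hF η, frz_ker k β hN hβ P Q Ω _ F hF η']
    refine (H2 b' Λ hΛ hb' (xt P Q Ω η) (xt P Q Ω η')
      (fun l hl => ⟨xt_of_not P Q Ω _ l hl, xt_of_not P Q Ω _ l hl⟩) ?_ ?_ (fun X => F (rs Ω X))
      (hF.comp (rs_meas Ω)) (fun X => hF1 _) ?_).trans ?_
    · intro l hl hst
      rw [xt_of_mem P Q Ω _ l hl, xt_of_mem P Q Ω _ l hl]
      refine h3 ⟨l, hl⟩ fun a ha => ?_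
      obtain ⟨c, hc, rfl⟩ := Finset.mem_image.1 ha
      rw [show (frz N L k β hN hβ P Q Ω).bl ⟨l, hl⟩ = (st l).filter (· ∈ Ω) from rfl,
        Finset.mem_filter] at hc
      exact hst c hc.1 hc.2
    · intro τ hne hcor
      refine h4 τ ?_ fun a ha => ?_
      · obtain ⟨c, hc, hcΩ⟩ := hne
        exact (Sys.mem_tms _ _ _).2 ⟨blk M c, Finset.mem_image_of_mem _
          (Finset.mem_filter.2 ⟨hc, hcΩ⟩), (hcor c hc hcΩ).1⟩
      · obtain ⟨c, hc, rfl⟩ := Finset.mem_image.1 ha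
        rw [show (frz N L k β hN hβ P Q Ω).bt τ = (cor τ).filter (· ∈ Ω) from rfl,
          Finset.mem_filter] at hc
        exact hcor c hc.1 hc.2
    · intro X Y hXY
      refine hdep (rs Ω X) (rs Ω Y) fun i hi => hXY i.1 ⟨i.2, fun a ha hΩ => ?_⟩
      exact hi (blk M a) (Finset.mem_image_of_mem _ (Finset.mem_filter.2 ⟨ha, hΩ⟩))
    · gcongr

end T2H01.SE
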