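import Pool.Agent.T2H01.SE.Stm2
import Pool.Agent.T2H02.TT.Z1

/-!
# Package ZO : the hypotheses of the coupling theorem in domains with cold walls
-/

set_option autoImplicit false
set_option linter.unusedSectionVars false
set_option linter.unusedVariables false

noncomputable section

open MeasureTheory Matrix
open scoped Matrix.Norms.Frobenius

namespace T2H01.SE.PkgZO

open T2H02.TT T2H02.TT.PkgZ1

variable {N L : ℕ} [NeZero L]

lemma bal_sub_bal (R : ℕ) {B B' : Finset Pl} (h : B ⊆ B') : bal R B ⊆ bal R B' := fun a ha => by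
  obtain ⟨b, hb, hab⟩ := (PkgZ1.mem_bal _ _ _).1 ha
  exact (PkgZ1.mem_bal _ _ _).2 ⟨b, h hb, hab⟩

/-- terms without a corner in `Ω` have energy zero -/
lemma en_vac {k : ℕ} {P Q : SU N} (hV : ∀ (τ : Tm), en k (vc P Q : Cf N L) τ = 0) {Ω : Finset Pl}
    {η : Cf N L} (hη : ∀ l, l ∉ Frl L Ω → η l = vc P Q l) {τ : Tm} (hτ : ∀ a ∈ cor τ, a ∉ Ω) :
    en k η τ = 0 := by
  rw [← hV τ]
  exact en_loc k τ _ _ fun l hl => hη l (not_Frl fun a ha => hτ a (st_sub_cor hl ha))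

/-- the bad event -/
def bd (k M : ℕ) (Ω : Finset Pl) (b : Pl) (ε : ℝ) (X : Cf N L) : Prop :=
  ∃ τ : Tm, (∃ a ∈ cor τ, a ∈ Ω) ∧ (∀ a ∈ cor τ, a ∈ Ω → blk M a ∈ Nb 1 b) ∧ ¬ en k X τ ≤ ε

lemma bd_meas (hN : 0 < N) (k M : ℕ) (Ω : Finset Pl) (b : Pl) (ε : ℝ) :
    MeasurableSet {X : Cf N L | bd k M Ω b ε X} := by
  have h : {X : Cf N L | bd k M Ω b ε X} =
      ⋃ τ : Tm, {X : Cf N L | ((∃ a ∈ cor τ, a ∈ Ω) ∧ (∀ a ∈ cor τ, a ∈ Ω → blk M a ∈ Nb 1 b)) ∧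
        ¬ en k X τ ≤ ε} := by
    ext X
    simp only [bd, Set.mem_ofPred_eq, Set.mem_iUnion, and_assoc]
  rw [h]
  refine MeasurableSet.iUnion fun τ => ?_
  by_cases hh : (∃ a ∈ cor τ, a ∈ Ω) ∧ (∀ a ∈ cor τ, a ∈ Ω → blk M a ∈ Nb 1 b)
  · have : {X : Cf N L | ((∃ a ∈ cor τ, a ∈ Ω) ∧ (∀ a ∈ cor τ, a ∈ Ω → blk M a ∈ Nb 1 b)) ∧
        ¬ en k X τ ≤ ε} = {X : Cf N L | en k X τ ≤ ε}ᶜ := by
      ext X
      simp only [Set.mem_ofPred_eq, Set.mem_compl_iff]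
      exact ⟨fun h => h.2, fun h => ⟨hh, h⟩⟩
    rw [this]
    exact (measurableSet_le (en_meas hN k τ) measurable_const).compl
  · have : {X : Cf N L | ((∃ a ∈ cor τ, a ∈ Ω) ∧ (∀ a ∈ cor τ, a ∈ Ω → blk M a ∈ Nb 1 b)) ∧
        ¬ en k X τ ≤ ε} = ∅ := by
      ext X
      simp only [Set.mem_ofPred_eq, Set.mem_empty_iff_false, iff_false]
      exact fun h => hh h.1
    rw [this]
    exact MeasurableSet.empty

/-- first part: bad squares are rare -/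
theorem part1 (hF5 : S_F5) {k : ℕ} (hN : 2 ≤ N) {P Q : SU N}
    (hV : ∀ (τ : Tm), en k (vc P Q : Cf N L) τ = 0)
    {CH tH : ℝ} {DH : ℕ} (hCH : 1 ≤ CH) (htH : 0 < tH)
    (htH1 : tH < 1) {β : ℝ} (hβ : 0 ≤ β) (hβ1 : 1 ≤ β)
    (hH : ∀ (Λ B : Finset Pl) (R : ℕ) (e t : ℝ), 0 ≤ e → 0 ≤ t → ∀ η : Cf N L,
      (∀ τ : Tm, (∀ a ∈ cor τ, a ∈ bal (R + 1) B ∧ a ∉ Λ) → en k η τ ≤ e) →
      (sysS N L k β hN hβ).ker (hm N) Λ (fun X =>
        ind (tH ^ R * CH * (bal (R + 1) B).card + CH * (bal (R + 1) B).card * e + CH * t ≤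
          ∑ τ ∈ tml (B ∩ Λ), en k X τ)) η ≤
        (R + 1) * (Real.exp (-β * t) * (CH * β) ^ (DH * (bal (R + 1) B).card)))
    {C θ : ℝ} {D : ℕ} (hC : CH + 25 * CH / tH ≤ C) {tM : ℝ} (hθ : θ = th tH tM) (hD : 25 * DH ≤ D)
    (M : ℕ) (hM : 0 < M) (t : ℝ) (ht : 0 ≤ t) (Ω : Finset Pl) (b : Pl) (η : Cf N L)
    (hη : ∀ l, l ∉ Frl L Ω → η l = vc P Q l) :
    (sysS N L k β hN hβ).ker (hm N) (sit M (Nb 2 b) ∩ Ω)
      (fun X => ind (bd k M Ω b (C * M ^ 2 * (θ ^ M + t)) X)) η ≤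
        M * (Real.exp (-β * t) * (C * β) ^ (D * M ^ 2)) := by
  set S := sysS N L k β hN hβ with hS
  set B : Finset Pl := sit M (Nb 1 b) with hB
  set Λ : Finset Pl := sit M (Nb 2 b) ∩ Ω with hΛ
  have hM1 : M - 1 + 1 = M := Nat.sub_add_cancel hM
  have hbal : bal M B ⊆ sit M (Nb 2 b) := bal_sit hM 1 b
  have hcard : (bal M B).card ≤ 25 * M ^ 2 := by
    have := card_sit_Nb 2 b hbal
    norm_num at this
    exact this
  have hx : (1 : ℝ) ≤ M := by exact_mod_cast hM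
  have hcard' : ((bal M B).card : ℝ) ≤ 25 * (M : ℝ) ^ 2 := by exact_mod_cast hcard
  have hθ0 : 0 ≤ θ := by
    rw [hθ]
    exact (Real.sqrt_nonneg _).trans (le_max_left _ _)
  have hHb := hH Λ B (M - 1) 0 t le_rfl ht η (fun τ hτ => by
    rw [hM1] at hτ
    exact (en_vac hV hη fun a ha hc => (hτ a ha).2 (Finset.mem_inter.2 ⟨hbal (hτ a ha).1, hc⟩)).le)
  rw [hM1] at hHb
  obtain ⟨-, -, hlin, -, -, -, -⟩ := hF5 _ _ _ S (hm N) Λ
  have hthr := thr_meas (L := L) (show 0 < N by omega) k (tml (B ∩ Λ))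
    (tH ^ (M - 1) * CH * (bal M B).card + CH * (bal M B).card * 0 + CH * t)
  have hbm := bd_meas (L := L) (show 0 < N by omega) k M Ω b (C * M ^ 2 * (θ ^ M + t))
  have hmono := (hlin _ _ (ind_meas hbm) ⟨1, fun ω => ind_bdd _⟩ (ind_meas hthr)
    ⟨1, fun ω => ind_bdd _⟩ η).1 (fun ξ => ind_mono (fun hbad => by
      obtain ⟨τ, ⟨a, ha, haΩ⟩, hcor, hgt⟩ := hbad
      have hτ' : τ ∈ tml (B ∩ Λ) := by
        have h1 := hcor a ha haΩ
        refine (mem_tml _ _).2 ⟨a, ha, Finset.mem_inter.2 ⟨(mem_sit M hM _ _).2 h1,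
          Finset.mem_inter.2 ⟨(mem_sit M hM _ _).2 (Nb_mono (by norm_num) h1), haΩ⟩⟩⟩
      have h1 : tH ^ (M - 1) * CH * (bal M B).card + CH * (bal M B).card * 0 + CH * t ≤
          C * M ^ 2 * (θ ^ M + t) := by
        refine num1 hCH htH hC hx ht (pow_nonneg hθ0 _) ?_ (by positivity) (by positivity) hcard'
        rw [hθ]
        exact pow_bound3 htH htH1 hM
      refine h1.trans ((not_le.1 hgt).le.trans ?_)
      exact Finset.single_le_sum (f := fun τ => en k (glue (S.Fr Λ) ξ η) τ)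
        (fun τ _ => en_nonneg _ _ _) hτ'))
  refine hmono.trans (hHb.trans ?_)
  have hcast : (((M - 1 : ℕ) : ℝ) + 1) = M := by exact_mod_cast hM1
  rw [hcast]
  have hCHβ : 1 ≤ CH * β := by nlinarith
  have hCC : CH ≤ C := by
    have : 0 ≤ 25 * CH / tH := by
      have : 0 < CH := by linarith
      positivity
    linarith
  have hpow : (CH * β) ^ (DH * (bal M B).card) ≤ (C * β) ^ (D * M ^ 2) := by
    refine pow_le_aux hCHβ (by gcongr) ?_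
    calc DH * (bal M B).card ≤ DH * (25 * M ^ 2) := Nat.mul_le_mul_left _ hcard
      _ = 25 * DH * M ^ 2 := by ring
      _ ≤ D * M ^ 2 := Nat.mul_le_mul_right _ hD
  have he := Real.exp_pos (-β * t)
  gcongr

/-- replace the variables inside `Nb 2 b` off `Λ` by those of `η` -/
def md' (M : ℕ) (Ω : Finset Pl) (b : Pl) (Λ : Finset Pl) (η X : Cf N L) : Cf N L := fun l =>
  if ∀ a ∈ st l, a ∈ Ω → (blk M a ∈ Nb 2 b ∧ blk M a ∉ Λ) then η l else X l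

lemma md'_meas (M : ℕ) (Ω : Finset Pl) (b : Pl) (Λ : Finset Pl) (η : Cf N L) :
    Measurable fun X : Cf N L => md' M Ω b Λ η X := by
  rw [measurable_pi_iff]
  intro l
  unfold md'
  split_ifs with h
  · exact measurable_const
  · exact measurable_pi_apply l

lemma md'_dep {M : ℕ} (hM : 0 < M) {R : ℕ} (hR : 1 ≤ R) {Ω : Finset Pl} {b : Pl} {Λ : Finset Pl}
    (η : Cf N L) {F : Cf N L → ℝ}
    (hF : Sys.dep {l : Lk L | l ∈ Frl L Ω ∧ ∀ a ∈ st l, a ∈ Ω →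
          (blk M a ∈ Nb 2 b ∧ blk M a ∉ Λ) ∨ blk M a = b} F) :
    Sys.dep {l : Lk L | ∀ a ∈ st l, (a ∈ bal R (sit M {b} ∩ Ω) ∧
      a ∉ sit M Λ ∩ Ω ∩ bal R (sit M {b} ∩ Ω)) ∨
      a ∈ sit M {b} ∩ Ω} (fun X => F (md' M Ω b Λ η X)) := by
  intro ω ω' h
  refine hF _ _ fun i hi => ?_
  unfold md'
  split_ifs with h0
  · rfl
  · refine h i ?_
    push Not at h0
    obtain ⟨a₀, ha₀, haΩ, hb₀⟩ := h0
    have hb0 : blk M a₀ = b := by
      rcases hi.2 a₀ ha₀ haΩ with h1 | h1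
      · exact absurd (hb₀ h1.1) h1.2
      · exact h1
    have ha0 : a₀ ∈ sit M {b} ∩ Ω := by
      rw [Finset.mem_inter, mem_sit M hM, Finset.mem_singleton]
      exact ⟨hb0, haΩ⟩
    intro a ha
    have hn : a ∈ Nb 1 a₀ := by
      rw [PkgZ1.mem_Nb]
      exact diam_st i a ha a₀ ha₀
    have hball : a ∈ bal R (sit M {b} ∩ Ω) := (PkgZ1.mem_bal _ _ _).2 ⟨a₀, ha0, Nb_mono hR hn⟩
    by_cases haO : a ∈ Ω
    · rcases hi.2 a ha haO with h1 | h1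
      · left
        refine ⟨hball, fun hc => ?_⟩
        have := (Finset.mem_inter.1 (Finset.mem_inter.1 hc).1).1
        rw [mem_sit M hM] at this
        exact h1.2 this
      · right
        rw [Finset.mem_inter, mem_sit M hM, Finset.mem_singleton]
        exact ⟨h1, haO⟩
    · left
      exact ⟨hball, fun hc => haO (Finset.mem_inter.1 (Finset.mem_inter.1 hc).1).2⟩

/-- second part: insensitivity -/
theorem part2 (hF3 : S_F3) (hF5 : S_F5) {k : ℕ} (hN : 2 ≤ N) {P Q : SU N}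
    (hV : ∀ (τ : Tm), en k (vc P Q : Cf N L) τ = 0) {CH tH CM tM : ℝ} {DH DM : ℕ}
    (hCH : 1 ≤ CH) (htH : 0 < tH) (htH1 : tH < 1) (hCM : 1 ≤ CM) (htM : 0 < tM) (htM1 : tM < 1)
    {β : ℝ} (hβ : 0 ≤ β) (hβ1 : 1 ≤ β)
    (hH : ∀ (Λ B : Finset Pl) (R : ℕ) (e t : ℝ), 0 ≤ e → 0 ≤ t → ∀ η : Cf N L,
      (∀ τ : Tm, (∀ a ∈ cor τ, a ∈ bal (R + 1) B ∧ a ∉ Λ) → en k η τ ≤ e) →
      (sysS N L k β hN hβ).ker (hm N) Λ (fun X =>
        ind (tH ^ R * CH * (bal (R + 1) B).card + CH * (bal (R + 1) B).card * e + CH * t ≤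
          ∑ τ ∈ tml (B ∩ Λ), en k X τ)) η ≤
        (R + 1) * (Real.exp (-β * t) * (CH * β) ^ (DH * (bal (R + 1) B).card)))
    (hMM : ∀ (Λ B : Finset Pl) (R : ℕ) (e t r : ℝ), 0 ≤ e → 0 ≤ t → B ⊆ Λ → Λ ⊆ bal R B →
      r = CM * Λ.card * (Λ.card * e + t) → r ≤ 1 / CM →
      ∀ η η' : Cf N L, (∀ l, l ∉ Frl L Λ → (∀ a ∈ st l, a ∈ bal R B) → η l = η' l) →
      (∀ τ ∈ rng Λ, en k η τ ≤ e ∧ en k η' τ ≤ e) →
      ∀ F : Cf N L → ℝ, Measurable F → (∀ X, 0 ≤ F X ∧ F X ≤ 1) →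
      Sys.dep {l | ∀ a ∈ st l, (a ∈ bal R B ∧ a ∉ Λ) ∨ a ∈ B} F →
      (sysS N L k β hN hβ).ker (hm N) Λ F η ≤ (sysS N L k β hN hβ).ker (hm N) Λ F η' +
        CM * Λ.card * (β * (r * Real.sqrt r + tM ^ R * r) + Real.exp (-β / CM)) +
        2 * (Real.exp (-β * t) * (CM * β) ^ (DM * Λ.card)))
    {C θ : ℝ} {D : ℕ} (hC : C = Cc CH tH CM tM) (hθ : θ = th tH tM) (hD : D = 25 * (DH + DM))
    (M : ℕ) (hM : 0 < M) (h8 : 8 ≤ M) (t ε r : ℝ) (ht : 0 ≤ t)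
    (hε : ε = C * M ^ 2 * (θ ^ M + t)) (hr : r = C * M ^ 8 * (θ ^ M + t)) (hr1 : r ≤ 1 / C)
    (Ω : Finset Pl) (b : Pl) (Λ : Finset Pl) (hΛ : Λ ⊆ Nb 2 b) (hb : b ∈ Λ) (η η' : Cf N L)
    (hvac : ∀ l, l ∉ Frl L Ω → η l = vc P Q l ∧ η' l = vc P Q l)
    (hag : ∀ l ∈ Frl L Ω, (∀ a ∈ st l, a ∈ Ω → blk M a ∈ Nb 2 b ∧ blk M a ∉ Λ) → η l = η' l)
    (hgd : ∀ τ : Tm, (∃ a ∈ cor τ, a ∈ Ω) →
        (∀ a ∈ cor τ, a ∈ Ω → blk M a ∈ Nb 1 b ∧ blk M a ∉ Λ) → en k η τ ≤ ε)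
    (F : Cf N L → ℝ) (hF : Measurable F) (hF1 : ∀ ω, 0 ≤ F ω ∧ F ω ≤ 1)
    (hFd : Sys.dep {l | l ∈ Frl L Ω ∧ ∀ a ∈ st l, a ∈ Ω →
          (blk M a ∈ Nb 2 b ∧ blk M a ∉ Λ) ∨ blk M a = b} F) :
    (sysS N L k β hN hβ).ker (hm N) (sit M Λ ∩ Ω) F η ≤
      (sysS N L k β hN hβ).ker (hm N) (sit M Λ ∩ Ω) F η' +
        (C * M ^ 2 * (β * (r * Real.sqrt r + θ ^ M * r) + Real.exp (-β / C)) +
          4 * M * (Real.exp (-β * t) * (C * β) ^ (D * M ^ 2))) := by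
  obtain ⟨hC1, hC2, hC3, hC4⟩ := Cc_ge hCH htH hCM htM
  rw [← hC] at hC1 hC2 hC3 hC4
  have hK2 := K2_pos hCH htH hCM
  set S := sysS N L k β hN hβ with hS
  set Λs : Finset Pl := sit M Λ ∩ Ω with hΛs
  set B : Finset Pl := sit M {b} ∩ Ω with hB
  set R₁ : ℕ := M / 2 with hR₁
  set R : ℕ := M - R₁ - 3 with hR
  set Λ2 : Finset Pl := Λs ∩ bal R₁ B with hΛ2
  set B' : Finset Pl := bal (R₁ + 2) B with hB'
  have hR1' : 1 ≤ R₁ := by omega
  have hRR : R + 1 + (R₁ + 2) = M := by omega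
  have hBΛ : B ⊆ Λs := Finset.inter_subset_inter
    (sit_mono hM (Finset.singleton_subset_iff.2 hb)) (Finset.Subset.refl _)
  have hbalM : bal M B ⊆ sit M (Nb 1 b) :=
    (bal_sub_bal M Finset.inter_subset_left).trans (bal_sit1 hM b)
  have hag' : ∀ l : Lk L, (∀ a ∈ st l, a ∈ Ω → blk M a ∈ Nb 2 b ∧ blk M a ∉ Λ) → η l = η' l := by
    intro l hl
    by_cases h : l ∈ Frl L Ω
    · exact hag l h hl
    · rw [(hvac l h).1, (hvac l h).2]
  have hbal' : bal (R + 1) B' ⊆ sit M (Nb 1 b) := by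
    refine (bal_bal _ _ _).trans ?_
    rw [hRR]
    exact hbalM
  have hx : (1 : ℝ) ≤ M := by exact_mod_cast hM
  have hθ0 : 0 ≤ θ := by
    rw [hθ]
    exact (Real.sqrt_nonneg _).trans (le_max_left _ _)
  have hW : 0 ≤ θ ^ M := pow_nonneg hθ0 _
  have hC0 : 1 ≤ C := hCM.trans hC2
  have hε0 : 0 ≤ ε := by rw [hε]; positivity
  have hc9 : (bal (R + 1) B').card ≤ 9 * M ^ 2 := by
    have := card_sit_Nb 1 b hbal'
    norm_num at this
    exact this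
  have hc9' : ((bal (R + 1) B').card : ℝ) ≤ 9 * (M : ℝ) ^ 2 := by exact_mod_cast hc9
  have hL2 : Λ2 ⊆ sit M (Nb 1 b) :=
    Finset.inter_subset_right.trans ((bal_mono (by omega) B).trans hbalM)
  have hc2 : Λ2.card ≤ 9 * M ^ 2 := by
    have := card_sit_Nb 1 b hL2
    norm_num at this
    exact this
  have hc2' : (Λ2.card : ℝ) ≤ 9 * (M : ℝ) ^ 2 := by exact_mod_cast hc2
  -- the modified function
  set F' : Cf N L → ℝ := fun X => F (md' M Ω b Λ η X) with hF'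
  have hF'm : Measurable F' := hF.comp (md'_meas M Ω b Λ η)
  have hF'1 : ∀ ω, 0 ≤ F' ω ∧ F' ω ≤ 1 := fun ω => hF1 _
  have hF'b : ∃ K, ∀ ω, |F' ω| ≤ K := ⟨1, fun ω => by
    rw [abs_of_nonneg (hF'1 ω).1]
    exact (hF'1 ω).2⟩
  have hmod : ∀ X : Cf N L, agr Λs X η ∨ agr Λs X η' → F' X = F X := by
    intro X hX
    change F (md' M Ω b Λ η X) = F X
    congr 1
    funext l
    unfold md'
    split_ifs with h0
    · have hl : l ∉ Frl L Λs := not_Frl fun a ha hc => by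
        rw [hΛs, Finset.mem_inter, mem_sit M hM] at hc
        exact (h0 a ha hc.2).2 hc.1
      rcases hX with h1 | h1
      · exact (h1 l hl).symm
      · rw [hag' l h0]
        exact (h1 l hl).symm
    · rfl
  have hk1 : S.ker (hm N) Λs F η = S.ker (hm N) Λs F' η :=
    ker_congr _ _ _ _ _ _ fun ξ => (hmod _ (Or.inl (agr_glue Λs ξ η))).symm
  have hk2 : S.ker (hm N) Λs F η' = S.ker (hm N) Λs F' η' :=
    ker_congr _ _ _ _ _ _ fun ξ => (hmod _ (Or.inr (agr_glue Λs ξ η'))).symm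
  -- consistency
  set G : Cf N L → ℝ := S.ker (hm N) Λ2 F' with hG
  have hcons : ∀ ζ : Cf N L, S.ker (hm N) Λs F' ζ = S.ker (hm N) Λs G ζ := fun ζ =>
    ker_cons hF3 S (hm N) Finset.inter_subset_left F' hF'm hF'b ζ
  obtain ⟨-, hc0, hlin2, hmeas2, -, -, -⟩ := hF5 _ _ _ S (hm N) Λ2
  have hGm : Measurable G := hmeas2 F' hF'm hF'b
  have hG1 : ∀ ω, 0 ≤ G ω ∧ G ω ≤ 1 := fun ω => by
    constructor
    · have := (hlin2 (fun _ => 0) F' measurable_const ⟨0, fun _ => by simp⟩ hF'm hF'b ω).1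
        (fun ξ => (hF'1 _).1)
      rwa [hc0] at this
    · have := (hlin2 F' (fun _ => 1) hF'm hF'b measurable_const ⟨1, fun _ => by simp⟩ ω).1
        (fun ξ => (hF'1 _).2)
      rwa [hc0] at this
  -- the bad event
  set T : Finset Tm := tml (B' ∩ Λs) with hT
  set thr : ℝ := tH ^ R * CH * (bal (R + 1) B').card + CH * (bal (R + 1) B').card * ε + CH * t
    with hthr
  have hbad := thr_meas (L := L) (show 0 < N by omega) k T thr
  set e₁ : ℝ := thr + ε with he₁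
  have hthr0 : 0 ≤ thr := by
    have : 0 < CH := by linarith
    positivity
  have he₁0 : 0 ≤ e₁ := by linarith
  have he₁b : e₁ ≤ K1c CH tH * (C * M ^ 4 * (θ ^ M + t)) :=
    num2 hCH htH hC0 hx ht hW (by rw [hθ]; exact pow_bound1 htH htH1 (by omega)) (by positivity)
      (by positivity) hc9' hε
  set p₁ : ℝ := M * (Real.exp (-β * t) * (C * β) ^ (D * M ^ 2)) with hp₁
  have hE0 := Real.exp_pos (-β * t)
  have hCCH : CH ≤ C := by
    have : 0 ≤ 25 * CH / tH := by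
      have : 0 < CH := by linarith
      positivity
    linarith
  have hp : ∀ ζ : Cf N L, (∀ τ : Tm, (∀ a ∈ cor τ, a ∈ bal (R + 1) B' ∧ a ∉ Λs) → en k ζ τ ≤ ε) →
      S.ker (hm N) Λs (fun X => ind (thr ≤ ∑ τ ∈ T, en k X τ)) ζ ≤ p₁ := by
    intro ζ hζ
    refine (hH Λs B' R ε t hε0 ht ζ hζ).trans ?_
    have hR' : ((R : ℝ) + 1) ≤ M := by
      have : R + 1 ≤ M := by omega
      exact_mod_cast this
    have hpow : (CH * β) ^ (DH * (bal (R + 1) B').card) ≤ (C * β) ^ (D * M ^ 2) := by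
      refine pow_le_aux (one_le_mul_of_one_le_of_one_le hCH hβ1) (by gcongr) ?_
      calc DH * (bal (R + 1) B').card ≤ DH * (9 * M ^ 2) := Nat.mul_le_mul_left _ hc9
        _ = 9 * DH * M ^ 2 := by ring
        _ ≤ D * M ^ 2 := Nat.mul_le_mul_right _ (by omega)
    have : 0 ≤ (CH * β) ^ (DH * (bal (R + 1) B').card) := by
      have : 0 < CH := by linarith
      positivity
    rw [hp₁]
    gcongr
  have hfix : ∀ τ : Tm, (∀ a ∈ cor τ, a ∈ sit M (Nb 1 b) ∧ a ∉ Λs) →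
      en k η τ ≤ ε ∧ en k η' τ ≤ ε := by
    intro τ hτ
    have h1 : en k η τ ≤ ε := by
      by_cases hO : ∃ a ∈ cor τ, a ∈ Ω
      · refine hgd τ hO fun a ha haO => ⟨?_, fun hc => ?_⟩
        · exact (mem_sit M hM _ _).1 (hτ a ha).1
        · exact (hτ a ha).2 (Finset.mem_inter.2 ⟨(mem_sit M hM _ _).2 hc, haO⟩)
      · push Not at hO
        rw [en_vac hV (fun l hl => (hvac l hl).1) hO]
        exact hε0
    refine ⟨h1, ?_⟩
    have h2 : en k η τ = en k η' τ := en_loc k τ η η' fun l hl => hag' l fun a ha haO => by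
      have h3 := hτ a (st_sub_cor hl ha)
      exact ⟨Nb_mono (by norm_num) ((mem_sit M hM _ _).1 h3.1),
        fun hc => h3.2 (Finset.mem_inter.2 ⟨(mem_sit M hM _ _).2 hc, haO⟩)⟩
    rw [← h2]
    exact h1
  have hp1 := hp η fun τ hτ => (hfix τ fun a ha => ⟨hbal' (hτ a ha).1, (hτ a ha).2⟩).1
  have hp2 := hp η' fun τ hτ => (hfix τ fun a ha => ⟨hbal' (hτ a ha).1, (hτ a ha).2⟩).2
  -- energies around `Λ2`
  have hrng : ∀ X : Cf N L, (agr Λs X η ∨ agr Λs X η') → ¬ (thr ≤ ∑ τ ∈ T, en k X τ) →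
      ∀ τ ∈ rng Λ2, en k X τ ≤ e₁ := by
    intro X hX hnb τ hτ
    rw [rng, Finset.mem_filter] at hτ
    obtain ⟨-, hτ⟩ := hτ
    have hsub : ∀ a ∈ cor τ, a ∈ bal (R₁ + 1) B := fun a ha => by
      obtain ⟨c, hc, hac⟩ := (mem_pls _ _).1 (hτ a ha).1
      obtain ⟨d, hd, hcd⟩ := (mem_bal _ _ _).1 (Finset.mem_inter.1 hc).2
      have := Nb_Nb hac hcd
      rw [add_comm] at this
      exact (mem_bal _ _ _).2 ⟨d, hd, this⟩
    by_cases htouch : ∃ a ∈ cor τ, a ∈ Λs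
    · obtain ⟨a, ha, haΛ⟩ := htouch
      have h1 : τ ∈ T := (mem_tml _ _).2 ⟨a, ha, Finset.mem_inter.2
        ⟨bal_mono (by omega) B (hsub a ha), haΛ⟩⟩
      have h2 := Finset.single_le_sum (f := fun τ => en k X τ) (fun τ _ => en_nonneg _ _ _) h1
      have h3 := not_le.1 hnb
      linarith
    · push Not at htouch
      have h1 : ∀ a ∈ cor τ, a ∈ sit M (Nb 1 b) ∧ a ∉ Λs := fun a ha =>
        ⟨hbalM (bal_mono (by omega) B (hsub a ha)), htouch a ha⟩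
      have h2 := hfix τ h1
      rcases hX with h3 | h3
      · rw [en_agr h3 htouch]
        linarith [h2.1]
      · rw [en_agr h3 htouch]
        linarith [h2.2]
  -- the comparison inside
  set r' : ℝ := CM * Λ2.card * (Λ2.card * e₁ + t) with hr'
  have hr'0 : 0 ≤ r' := by
    have : 0 < CM := by linarith
    positivity
  have hr0 : 0 ≤ r := by rw [hr]; positivity
  have hr'r : r' ≤ K2c CH tH CM * r := by
    rw [hr]
    exact num3 hCH htH hCM hC0 hx (by linarith) ht (by linarith) he₁0 he₁b (by positivity) hc2'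
  have hr'1 : r' ≤ 1 / CM := by
    have h0 : 0 < CM := by linarith
    have h1 : 0 < C := by linarith
    refine hr'r.trans ?_
    calc K2c CH tH CM * r ≤ K2c CH tH CM * (1 / C) := by gcongr
      _ = K2c CH tH CM / C := by ring
      _ ≤ 1 / CM := by
          rw [div_le_div_iff₀ h1 h0]
          linarith
  set δ' : ℝ := CM * Λ2.card * (β * (r' * Real.sqrt r' + tM ^ R₁ * r') + Real.exp (-β / CM)) +
        2 * (Real.exp (-β * t) * (CM * β) ^ (DM * Λ2.card)) with hδ'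
  have hδ'0 : 0 ≤ δ' := by
    have h0 : 0 < CM := by linarith
    positivity
  have hBΛ2 : B ⊆ Λ2 := Finset.subset_inter hBΛ (sub_bal _ _)
  have hloc : ∀ l : Lk L, l ∉ Frl L Λ2 → (∀ a ∈ st l, a ∈ bal R₁ B) →
      (l ∉ Frl L Λs ∧ η l = η' l) := by
    intro l hl hl2
    have h1 : ∀ a ∈ st l, a ∉ Λs := fun a ha hc =>
      hl ((mem_Frl _ _).2 ⟨a, ha, Finset.mem_inter.2 ⟨hc, hl2 a ha⟩⟩)
    refine ⟨not_Frl h1, hag' l fun a ha haO => ⟨?_, fun hc => ?_⟩⟩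
    · refine Nb_mono (r := 1) (by norm_num) ((mem_sit M hM _ _).1 (hbalM ?_))
      exact bal_mono (by omega) B (hl2 a ha)
    · exact h1 a ha (Finset.mem_inter.2 ⟨(mem_sit M hM _ _).2 hc, haO⟩)
  have hFd' := md'_dep hM hR1' η hFd
  have hcmp : ∀ ξ ξ' : Cf N L, ¬ (thr ≤ ∑ τ ∈ T, en k (glue (S.Fr Λs) ξ η) τ) →
      ¬ (thr ≤ ∑ τ ∈ T, en k (glue (S.Fr Λs) ξ' η') τ) →
      G (glue (S.Fr Λs) ξ η) ≤ G (glue (S.Fr Λs) ξ' η') + δ' := by
    intro ξ ξ' h1 h2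
    have := hMM Λ2 B R₁ e₁ t r' he₁0 ht hBΛ2 Finset.inter_subset_right rfl hr'1
      (glue (S.Fr Λs) ξ η) (glue (S.Fr Λs) ξ' η') (fun l hl hl2 => by
        obtain ⟨h3, h4⟩ := hloc l hl hl2
        exact (agr_glue Λs ξ η l h3).trans (h4.trans (agr_glue Λs ξ' η' l h3).symm))
      (fun τ hτ => ⟨hrng _ (Or.inl (agr_glue Λs ξ η)) h1 τ hτ,
        hrng _ (Or.inr (agr_glue Λs ξ' η')) h2 τ hτ⟩) F' hF'm hF'1 hFd'
    rw [hδ', ← add_assoc]
    exact this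
  have hfin := compare hF5 S (hm N) Λs G hGm hG1 (fun X => thr ≤ ∑ τ ∈ T, en k X τ) hbad hδ'0
    η η' hp1 hp2 hcmp
  rw [hk1, hk2, hcons, hcons]
  refine hfin.trans ?_
  have hn4 := num4 (K3 := K3c CH tH CM tM) (sM := Real.sqrt tM) (x := (M : ℝ)) (Q := tM ^ R₁)
    (c := (Λ2.card : ℝ)) hCM hK2 (Real.sqrt_pos.2 htM) rfl hC4 hC2 hβ hr0 hr'0 hr'r hW
    (by positivity) (by rw [hθ]; exact pow_bound2 htM htM1 (by omega)) (by positivity) hc2'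
  have hpow2 : Real.exp (-β * t) * (CM * β) ^ (DM * Λ2.card) ≤ p₁ := by
    have h1 : (CM * β) ^ (DM * Λ2.card) ≤ (C * β) ^ (D * M ^ 2) := by
      refine pow_le_aux (one_le_mul_of_one_le_of_one_le hCM hβ1) (by gcongr) ?_
      calc DM * Λ2.card ≤ DM * (9 * M ^ 2) := Nat.mul_le_mul_left _ hc2
        _ = 9 * DM * M ^ 2 := by ring
        _ ≤ D * M ^ 2 := Nat.mul_le_mul_right _ (by omega)
    have h2 : 0 ≤ Real.exp (-β * t) * (C * β) ^ (D * M ^ 2) := by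
      have : 0 < C := by linarith
      positivity
    calc Real.exp (-β * t) * (CM * β) ^ (DM * Λ2.card) ≤
          Real.exp (-β * t) * (C * β) ^ (D * M ^ 2) := by gcongr
      _ ≤ M * (Real.exp (-β * t) * (C * β) ^ (D * M ^ 2)) := le_mul_of_one_le_left h2 hx
  have h4p : 4 * (M : ℝ) * (Real.exp (-β * t) * (C * β) ^ (D * M ^ 2)) = 4 * p₁ := by
    rw [hp₁]
    ring
  rw [h4p]
  linarith

end T2H01.SE.PkgZO

namespace T2H01.SE

open T2H02.TT T2H02.TT.PkgZ1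

theorem pZO (hF3 : S_F3) (hF5 : S_F5) (hH : S_H) (hM : S_M) (hVL : S_VL) : S_ZO := by
  intro N k L _ hN hk P Q hPQ
  obtain ⟨CH, tH, DH, hCH, htH, htH1, hH⟩ := hH N k L hN hk
  obtain ⟨CM, tM, DM, hCM, htM, htM1, hMM⟩ := hM N k L hN hk
  obtain ⟨-, -, hV⟩ := hVL N k L hN hk P Q hPQ
  obtain ⟨hC1, hC2, hC3, hC4⟩ := Cc_ge hCH htH hCM htM
  refine ⟨Cc CH tH CM tM, th tH tM, 25 * (DH + DM), hCM.trans hC2, ?_, ?_,
    fun β hβ hβ1 M hM t ε r h8 ht hε hr hr1 Ω => ⟨fun b η hη => ?_, ?_⟩⟩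
  · exact lt_of_lt_of_le (Real.sqrt_pos.2 htH) (le_max_left _ _)
  · exact max_lt (sqrt_lt_one' htH1) (sqrt_lt_one' htM1)
  · rw [hε]
    exact PkgZO.part1 hF5 hN hV hCH htH htH1 hβ hβ1 (hH β hβ hβ1) hC1 rfl (by omega) M hM t ht Ω b η hη
  · intro b Λ hΛ hb η η' hvac hag hgd F hF hF1 hFd
    exact PkgZO.part2 hF3 hF5 hN hV hCH htH htH1 hCM htM htM1 hβ hβ1 (hH β hβ hβ1) (hMM β hβ hβ1)
      rfl rfl rfl M hM h8 t ε r ht hε hr hr1 Ω b Λ hΛ hb η η' hvac hag hgd F hF hF1 hFd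

end T2H01.SE
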