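import Pool.Agent.T2H02.TT.All2
import Pool.Agent.T2H01.SE.MA
import Pool.Agent.T2H01.SE.MB
import Pool.Agent.T2H01.SE.PC
import Pool.Agent.T2H01.SE.RA
import Pool.Agent.T2H01.SE.RC
import Pool.Agent.T2H01.SE.RT
import Pool.Agent.T2H01.SE.RX
import Pool.Agent.T2H01.SE.SP
import Pool.Agent.T2H01.SE.TA
import Pool.Agent.T2H01.SE.TB
import Pool.Agent.T2H01.SE.TD
import Pool.Agent.T2H01.SE.TE
import Pool.Agent.T2H01.SE.TP
import Pool.Agent.T2H01.SE.TQ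
import Pool.Agent.T2H01.SE.TU
import Pool.Agent.T2H01.SE.TW
import Pool.Agent.T2H01.SE.TX
import Pool.Agent.T2H01.SE.VA
import Pool.Agent.T2H01.SE.VC
import Pool.Agent.T2H01.SE.VE
import Pool.Agent.T2H01.SE.VF
import Pool.Agent.T2H01.SE.VG
import Pool.Agent.T2H01.SE.VH
import Pool.Agent.T2H01.SE.VI
import Pool.Agent.T2H01.SE.VJ
import Pool.Agent.T2H01.SE.VL
import Pool.Agent.T2H01.SE.VN
import Pool.Agent.T2H01.SE.VP
import Pool.Agent.T2H01.SE.VR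
import Pool.Agent.T2H01.SE.VS
import Pool.Agent.T2H01.SE.WB
import Pool.Agent.T2H01.SE.WD
import Pool.Agent.T2H01.SE.WE
import Pool.Agent.T2H01.SE.WF
import Pool.Agent.T2H01.SE.WH
import Pool.Agent.T2H01.SE.WK
import Pool.Agent.T2H01.SE.WX
import Pool.Agent.T2H01.SE.ZD
import Pool.Agent.T2H01.SE.ZO
import Pool.Agent.T2H01.SE.ZT
import Pool.Agent.T2H01.SE.TS
import Pool.Agent.T2H01.SE.TG
import Pool.Agent.T2H01.SE.UA
import Pool.Agent.T2H01.SE.UB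
import Pool.Agent.T2H01.SE.UC
import Pool.Agent.T2H01.SE.UE
import Pool.Agent.T2H01.SE.UF
import Pool.Agent.T2H01.SE.UG
import Pool.Agent.T2H01.SE.UH
import Pool.Agent.T2H01.SE.UI
import Pool.Agent.T2H01.SE.UJ
import Pool.Agent.T2H01.SE.UK
import Pool.Agent.T2H01.SE.UL
import Pool.Agent.T2H01.SE.UD
import Pool.Agent.T2H01.SE.UM
import Pool.Agent.T2H01.SE.UN
import Pool.Agent.T2H01.SE.DG
import Pool.Agent.T2H01.SE.XD
import Pool.Agent.T2H01.SE.YE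
import Pool.Agent.T2H01.SE.YD
import Pool.Agent.T2H01.SE.YC
import Pool.Agent.T2H01.SE.YB
import Pool.Agent.T2H01.SE.YA
import Pool.Agent.T2H01.SE.XC
import Pool.Agent.T2H01.SE.XB
import Pool.Agent.T2H01.SE.XA

/-!
# All packages together
-/

set_option autoImplicit false

namespace T2H01.SE

open T2H02.TT

theorem aVL : S_VL := pVL pB0
theorem aVA : S_VA := pVA aJI aJM
theorem aVE : S_VE := pVE aVL
theorem aVC : S_VC := pVC aVL
theorem aVI : S_VI := pVI pG2 aVL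
theorem aVS : S_VS := pVS aVA
theorem aVR : S_VR := pVR aVE aVC aVI aVS
theorem aVG : S_VG := pVG aD1 aJ
theorem aVJ : S_VJ := pVJ pF2 aVS
theorem aVF : S_VF := pVF aVA aVR aVG aVJ pEG aVS
theorem aVH : S_VH := pVH aH pF5 aVL
theorem aVN : S_VN := pVN aVL
theorem aVP : S_VP := pVP pF3 pF5 pEG aVJ aVF aVH aVN
theorem aSP : S_SP := pSP aD1 aJ aVA aVL
theorem aWH : S_WH := pWH aH pF5
theorem aWX : S_WX := pWX pF5
theorem aWK : S_WK := pWK pF3 pF4 pF5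
theorem aWB : S_WB := pWB aWX aWH aVJ aVF aVA
theorem aWE : S_WE := pWE pF2 pOA
theorem aWF : S_WF := pWF aWE aWK aWB
theorem aWD : S_WD := pWD aWK aWB aVJ
theorem aZO : S_ZO := pZO pF3 pF5 aH aM aVL
theorem aZD : S_ZD := pZD aZO
theorem aPC : S_PC := pPC pF3 pF5 aX aZD
theorem aMA : S_MA := pMA pF2 pF5 pG3 aVL
theorem aMB : S_MB := pMB pF3 pF5 aMA aPC
theorem aZT : S_ZT := pZT aVA aVS
theorem aRX : S_RX := pRX pRC
theorem aTX : S_TX := pTX aVP aZT aRX pRT aMB pRA aMA aSP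
theorem aTB : S_TB := pTB pTA aVL
theorem aTD : S_TD := pTD aVL
theorem aTE : S_TE := pTE pG3 aVL aTD
theorem aTP : S_TP := pTP pF2 pTW
theorem aTQ : S_TQ := pTQ aTP aZT aVS
theorem aTU : S_TU := pTU aTP aWD aVS

theorem aTG : S_TG := pTG aTB pTS aTD aTE aZT pRT
theorem aUB : S_UB := pUB pUA
theorem aUC : S_UC := pUC pF2
theorem aUI : S_UI := pUI aTB pTS aTD aTE aZT pRT
theorem aUH : S_UH := pUH aVP aZT aRX pRT aMB pRA aMA aSP
theorem aXB : S_XB := pXB pA1 pA2 aD1 aJ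
theorem aXD : S_XD := pXD pXA aXB pXC aVL
theorem aYE : S_YE := pYE pYA pYB pYC (pYD pB0 pE4) aVA aVL
theorem aUD : S_UD := pUD pF2 pG3 aVL
theorem aUE : S_UE := pUE pF5 aUC aUD aPC
theorem aUG : S_UG := pUG aUE pUF aUD
theorem aUN : S_UN := pUN pG3
theorem aDG : S_DG := pDG aSP aTQ aTU aUH pTS aUB aUG aUI pUJ pUK pUL pUM aUN

end T2H01.SE
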