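import Pool.Agent.T2H01.SE.Stm5
import Pool.Agent.T2H01.SE.VS
import Pool.Agent.T2H01.SE.RC

/-!
# Package TQ : charge and flux on the torus
-/

set_option autoImplicit false
set_option linter.unusedSectionVars false

noncomputable section

open MeasureTheory Matrix
open scoped Matrix.Norms.Frobenius

namespace T2H01.SE

open T2H02.TT

namespace PkgTQ

variable {N L : ℕ} [NeZero L]

lemma per_meas (A B : ℕ) [NeZero A] [NeZero B] :
    Measurable (per : TC N A B L → Cf N L) :=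
  measurable_pi_iff.2 fun _ => measurable_pi_apply _

lemma enf_meas (k : ℕ) (s : Pl → ℤ) (τ : Tm) : Measurable fun X : Cf N L => enf k s X τ := by
  unfold enf
  by_cases h : τ.2 = 3
  · simp only [h, if_true]
    exact (eP_cont (oz N (s τ.1)) τ.1).measurable
  · simp only [h, if_false]
    exact (en1_cont k τ).measurable

lemma Zf_meas (k : ℕ) (β : ℝ) (s : Pl → ℤ) (U : Finset Pl) :
    Measurable fun η : Cf N L => Zf k β s U η := by
  have hf : Measurable fun X : Cf N L => Real.exp (-β * EE k s U X) := by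
    have h1 : Measurable fun X : Cf N L => EE k s U X := by
      unfold EE
      exact Finset.measurable_sum _ fun τ _ => enf_meas k s τ
    exact (h1.const_mul (-β)).exp
  exact ((hf.comp (PkgF.meas_glue (Frl L U))).stronglyMeasurable.integral_prod_right'
    (ν := pm N L)).measurable

lemma Zf_nonneg (k : ℕ) (β : ℝ) (s : Pl → ℤ) (U : Finset Pl) (η : Cf N L) : 0 ≤ Zf k β s U η :=
  integral_nonneg fun _ => (Real.exp_pos _).le

lemma enf_nonneg (k : ℕ) (s : Pl → ℤ) (X : Cf N L) (τ : Tm) : 0 ≤ enf k s X τ := by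
  unfold enf
  split_ifs
  · exact eP_nonneg _ _ _
  · exact en1_nonneg k X τ

lemma Zf_le_one (k : ℕ) (β : ℝ) (hβ : 0 ≤ β) (s : Pl → ℤ) (U : Finset Pl) (η : Cf N L) :
    Zf k β s U η ≤ 1 := by
  have h1 : Zf k β s U η ≤ ∫ _ξ : Cf N L, (1 : ℝ) ∂(pm N L) :=
    integral_mono_of_nonneg (Filter.Eventually.of_forall fun ξ => (Real.exp_pos _).le)
      (integrable_const 1) (Filter.Eventually.of_forall fun ξ => by
        show Real.exp (-β * EE k s U (glue (Frl L U) ξ η)) ≤ 1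
        rw [Real.exp_le_one_iff]
        have h0 : 0 ≤ EE k s U (glue (Frl L U) ξ η) :=
          Finset.sum_nonneg fun τ _ => enf_nonneg k s _ τ
        have := mul_nonneg hβ h0
        linarith)
  simpa using h1

end PkgTQ

theorem pTQ (hTP : S_TP) (hZT : S_ZT) (hVS : S_VS) : S_TQ := by
  intro N k L _ hN P Q β hβ c A B _ _ hA hB
  obtain ⟨h1, h2⟩ := hTP N k L hN P Q β hβ A B hA hB
  obtain ⟨hz, -, -⟩ := hZT N k L hN β hβ
  have hA' : (2 : ℤ) ≤ A := by exact_mod_cast hA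
  have hB' : (2 : ℤ) ≤ B := by exact_mod_cast hB
  set Λ := rc (1, 1) ((A : ℤ) - 1, (B : ℤ) - 1) with hΛ
  have hab1 : ((1, 1) : Pl).1 ≤ (((A : ℤ) - 1, (B : ℤ) - 1) : Pl).1 := by
    show (1 : ℤ) ≤ (A : ℤ) - 1
    omega
  have hab2 : ((1, 1) : Pl).2 ≤ (((A : ℤ) - 1, (B : ℤ) - 1) : Pl).2 := by
    show (1 : ℤ) ≤ (B : ℤ) - 1
    omega
  have hmem0 : (0 : Pl) ∈ cl Λ := by
    rw [hΛ, PkgVS.mem_cl_rc hab1 hab2]
    simp
    omega
  have hmem1 : ((1, 1) : Pl) ∈ cl Λ := by
    rw [hΛ, PkgVS.mem_cl_rc hab1 hab2]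
    simp
    omega
  have hvs : ∀ (n : ℤ) (η : Cf N L), Zf k β (dl (1, 1) n) Λ η = Zf k β (dl 0 n) Λ η := by
    intro n η
    refine hVS N k L hN β hβ _ _ hab1 hab2 _ _ η ?_
    have e1 : ∀ a ∈ cl Λ, ∑ x ∈ cl Λ, dl a n x = n := by
      intro a ha
      unfold dl
      rw [Finset.sum_ite_eq' (cl Λ) a (fun _ => n), if_pos ha]
    rw [Finset.sum_sub_distrib, e1 _ hmem1, e1 _ hmem0, sub_self]
    exact dvd_zero _
  set w : TC N A B L → ℝ := fun X => Real.exp (-β * ∑ τ ∈ bdt A B, en1 k (per X) τ) with hw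
  have hwm : Measurable w := by
    have h3 : Measurable fun X : TC N A B L => ∑ τ ∈ bdt A B, en1 k (per X) τ :=
      Finset.measurable_sum _ fun τ _ => (en1_cont k τ).measurable.comp (PkgTQ.per_meas A B)
    exact (h3.const_mul (-β)).exp
  have hw0 : ∀ X, 0 ≤ w X := fun X => (Real.exp_pos _).le
  have hw1 : ∀ X, w X ≤ 1 := by
    intro X
    rw [hw, Real.exp_le_one_iff]
    have : 0 ≤ ∑ τ ∈ bdt A B, en1 k (per X) τ := Finset.sum_nonneg fun τ _ => en1_nonneg k _ τ
    nlinarith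
  have hint : ∀ n : ℤ, Integrable (fun X : TC N A B L =>
      w X * Zf k β (dl 0 n) Λ (per X)) (Measure.infinitePi fun _ => hm N) := by
    intro n
    refine PkgRC.int_bdd (K := 1)
      (hwm.mul ((PkgTQ.Zf_meas k β (dl 0 n) Λ).comp (PkgTQ.per_meas A B))) fun X => ?_
    have h3 := PkgTQ.Zf_nonneg k β (dl 0 n) Λ (per X)
    have h4 := PkgTQ.Zf_le_one k β hβ (dl 0 n) Λ (per X)
    rw [abs_of_nonneg (mul_nonneg (hw0 X) h3)]
    exact mul_le_one₀ (hw1 X) h3 h4
  rw [h2 c, ← integral_const_mul]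
  have e2 : ∀ X : TC N A B L, (N : ℂ) * ((w X : ℂ) * Zc k β c Λ (per X)) =
      ∑ n ∈ Finset.range N, om N (c * n) * ((w X * Zf k β (dl 0 n) Λ (per X) : ℝ) : ℂ) := by
    intro X
    have h3 := hz c (1, 1) ((A : ℤ) - 1, (B : ℤ) - 1) hab1 hab2 (per X)
    rw [← hΛ] at h3
    calc (N : ℂ) * ((w X : ℂ) * Zc k β c Λ (per X)) = (w X : ℂ) * ((N : ℂ) * Zc k β c Λ (per X)) := by
          ring
      _ = (w X : ℂ) * ∑ n ∈ Finset.range N, om N (c * n) * (Zf k β (dl (1, 1) n) Λ (per X) : ℂ) := by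
          rw [h3]
      _ = _ := by
          rw [Finset.mul_sum]
          refine Finset.sum_congr rfl fun n _ => ?_
          rw [hvs]
          push_cast
          ring
  have e3 : ∫ X : TC N A B L, (N : ℂ) * ((w X : ℂ) * Zc k β c Λ (per X))
      ∂(Measure.infinitePi fun _ => hm N) =
      ∫ X : TC N A B L, ∑ n ∈ Finset.range N,
        om N (c * n) * ((w X * Zf k β (dl 0 n) Λ (per X) : ℝ) : ℂ)
          ∂(Measure.infinitePi fun _ => hm N) :=
    integral_congr_ae (Filter.Eventually.of_forall e2)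
  refine e3.trans ?_
  rw [integral_finset_sum]
  · refine Finset.sum_congr rfl fun n _ => ?_
    rw [integral_const_mul, integral_complex_ofReal, h1 (n : ℤ)]
  · intro n _
    exact ((hint n).ofReal).const_mul _

end T2H01.SE
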