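import Pool.Agent.T2H01.SE.Stm8
import Pool.Agent.T2H02.TT.E

/-!
# Package YE : the explicit vortex
-/

set_option autoImplicit false
set_option linter.unusedSectionVars false

noncomputable section

open MeasureTheory Matrix
open scoped Matrix.Norms.Frobenius

namespace T2H01.SE

open T2H02.TT

namespace PkgYE

variable {N L : ℕ} [NeZero L]

/-- the position of the `2 π` jump -/
def zj (x : Pl) (m : Fin 4) : ℕ := if m = 1 ∧ x.2 = 0 ∧ x.1 ≤ 0 then 1 else 0

lemma crz_zj (x : Pl) : dl 0 (-1) x + crz zj x = 0 := by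
  obtain ⟨a, b⟩ := x
  unfold crz dl zj
  simp only [Prod.mk_eq_zero]
  have h01 : ¬ ((0 : Fin 4) = 1) := by decide
  simp only [h01, false_and, if_false, true_and, Prod.fst_add, Prod.snd_add]
  push_cast
  split_ifs <;> omega

/-- the gauge transformation -/
def hg (φ : Pl → ℝ) (Pr : Tor L → Mt N)
    (hm : ∀ θ y, eth N θ (Pr y) ∈ Matrix.specialUnitaryGroup (Fin N) ℂ) (p : Pt L) : SU N :=
  ⟨eth N (φ p.1) (Pr p.2), hm _ _⟩

end PkgYE

open PkgYE in
theorem pYE (hYA : S_YA) (hYB : S_YB) (hYC : S_YC) (hYD : S_YD) (hVA : S_VA) (hVL : S_VL) : S_YE := by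
  intro N hN
  obtain ⟨CA, hCA, hYA⟩ := hYA
  obtain ⟨CB, hCB, hYB⟩ := hYB N hN
  obtain ⟨CC, φ, hCC, hYC⟩ := hYC
  obtain ⟨C2, hYD⟩ := hYD N hN (CB * (CA + CC)) (by nlinarith)
  refine ⟨C2, ?_⟩
  intro k L _ hk P Q hPQ
  obtain ⟨Pr, hprj, hPr⟩ := hYA N k L hN hk P Q hPQ
  have hmem : ∀ θ y, eth N θ (Pr y) ∈ Matrix.specialUnitaryGroup (Fin N) ℂ := fun θ y =>
    (hYB (Pr y) (Pr y) (hprj y) (hprj y)).1 θ
  have hadd : ∀ θ θ' y, eth N (θ + θ') (Pr y) = eth N θ (Pr y) * eth N θ' (Pr y) := fun θ θ' y =>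
    (hYB (Pr y) (Pr y) (hprj y) (hprj y)).2.1 θ θ'
  have hint : ∀ (m : ℤ) y, eth N (2 * Real.pi * m) (Pr y) = oz N m • (1 : Mt N) := fun m y =>
    (hYB (Pr y) (Pr y) (hprj y) (hprj y)).2.2.1 m
  have hlip : ∀ θ θ' y, ‖eth N θ (Pr y) - eth N θ' (Pr y)‖ ≤ CB * |θ - θ'| := fun θ θ' y =>
    (hYB (Pr y) (Pr y) (hprj y) (hprj y)).2.2.2.2.1 θ θ'
  have hz0 : ∀ y, eth N 0 (Pr y) = 1 := by
    intro y
    have h := hint 0 y
    rw [Int.cast_zero, mul_zero] at h
    rw [h]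
    unfold oz
    simp
  have hinv : ∀ θ y, eth N θ (Pr y) * eth N (-θ) (Pr y) = 1 := by
    intro θ y
    rw [← hadd, add_neg_cancel, hz0]
  obtain ⟨-, -, hoz, -, -, hVA, -, -⟩ := hVA N k L hN
  obtain ⟨-, hVL, -⟩ := hVL N k L hN hk P Q hPQ
  set h : Pt L → SU N := hg φ Pr hmem with hh
  have hinvc : ∀ p, (((h p)⁻¹ : SU N) : Mt N) = eth N (-φ p.1) (Pr p.2) := by
    intro p
    have h1 : (h p : Mt N) * eth N (-φ p.1) (Pr p.2) = 1 := hinv _ _
    have h2 : (((h p)⁻¹ : SU N) : Mt N) * (h p : Mt N) = 1 := by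
      rw [← Submonoid.coe_mul, inv_mul_cancel, Submonoid.coe_one]
    calc (((h p)⁻¹ : SU N) : Mt N) = (((h p)⁻¹ : SU N) : Mt N) * ((h p : Mt N) * eth N (-φ p.1) (Pr p.2)) := by
          rw [h1, mul_one]
      _ = _ := by rw [← mul_assoc, h2, one_mul]
  set X₀ : Cf N L := cmv zj (gau h (vc P Q)) with hX₀
  have hen : ∀ τ : Tm, enf k (dl 0 (-1)) X₀ τ = 0 := by
    intro τ
    rw [hX₀, (hVA h zj (dl 0 (-1)) (gau h (vc P Q)) τ).2, (hVA h zj _ (vc P Q) τ).1]
    refine hVL _ τ fun _ => ?_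
    rw [crz_zj]
    exact dvd_zero _
  have hL0 : (0 : ℝ) < L := by exact_mod_cast Nat.pos_of_ne_zero (NeZero.ne L)
  have hnear : ∀ l : Lk L, (L : ℝ) ≤ max |(l.1.1.1 : ℝ)| |(l.1.1.2 : ℝ)| →
      ‖(X₀ l : Mt N) - (vc P Q l : Mt N)‖ ≤ CB * (CA + CC) / L := by
    rintro ⟨⟨x, y⟩, m⟩ hl
    have hplane : (m = 0 ∨ m = 1) → ‖(X₀ ((x, y), m) : Mt N) - (vc P Q ((x, y), m) : Mt N)‖ ≤
        CB * (CA + CC) / L := by
      intro hm
      have hnx : (nx ((x, y) : Pt L) m) = (x + pe m, y) := by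
        rcases hm with rfl | rfl <;> rfl
      have hvc : vc P Q (((x, y), m) : Lk L) = 1 := by
        rcases hm with rfl | rfl <;> rfl
      have e1 : (X₀ ((x, y), m) : Mt N) =
          eth N (φ x - φ (x + pe m) + 2 * Real.pi * (if m = 1 ∧ x.2 = 0 ∧ x.1 ≤ 0 then 1 else 0)) (Pr y) := by
        have e2 : X₀ ((x, y), m) = cen N (zj x m) * (h (x, y) * 1 * (h (x + pe m, y))⁻¹) := by
          rw [hX₀]
          unfold cmv gau
          rw [if_pos hm, hvc]
          simp only [hnx]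
        have e3 : (2 * Real.pi * (if m = 1 ∧ x.2 = 0 ∧ x.1 ≤ 0 then 1 else 0) : ℝ) =
            2 * Real.pi * ((zj x m : ℤ) : ℝ) := by
          unfold zj
          split_ifs <;> simp
        have e4 : φ x - φ (x + pe m) + 2 * Real.pi * ((zj x m : ℤ) : ℝ) =
            2 * Real.pi * ((zj x m : ℤ) : ℝ) + (φ x + -φ (x + pe m)) := by ring
        rw [e2, e3, e4, hadd, hint, hoz, hadd, mul_one, Submonoid.coe_mul,
          Submonoid.coe_mul, hinvc]
        rfl
      rw [e1, hvc]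
      have e4 : ((1 : SU N) : Mt N) = eth N 0 (Pr y) := by rw [hz0]; rfl
      rw [e4]
      refine (hlip _ _ y).trans ?_
      have e5 := hYC x m hm
      rw [sub_zero]
      have e6 : CC / (1 + max |(x.1 : ℝ)| |(x.2 : ℝ)|) ≤ CC / L :=
        div_le_div_of_nonneg_left (by linarith) hL0 (by
          have : (L : ℝ) ≤ max |(x.1 : ℝ)| |(x.2 : ℝ)| := hl
          linarith)
      calc CB * |φ x - φ (x + pe m) + 2 * Real.pi * (if m = 1 ∧ x.2 = 0 ∧ x.1 ≤ 0 then 1 else 0)|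
          ≤ CB * (CC / L) := mul_le_mul_of_nonneg_left (e5.trans e6) (by linarith)
        _ ≤ CB * ((CA + CC) / L) := by
          refine mul_le_mul_of_nonneg_left (div_le_div_of_nonneg_right (by linarith) hL0.le) (by linarith)
        _ = _ := by rw [mul_div_assoc]
    have htor : ∀ j : Fin 2, (nx ((x, y) : Pt L) m) = (x, tsh y j) →
        X₀ ((x, y), m) = h (x, y) * vac P Q y j * (h (x, tsh y j))⁻¹ →
        vc P Q (((x, y), m) : Lk L) = vac P Q y j →
        ‖(X₀ ((x, y), m) : Mt N) - (vc P Q ((x, y), m) : Mt N)‖ ≤ CB * (CA + CC) / L := by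
      intro j _ hX hv
      rw [hX, hv]
      set V : SU N := vac P Q y j with hV
      have hB := hYB (Pr (tsh y j)) (Pr (tsh y j)) (hprj _) (hprj _)
      have hB2 := hB.2.2.2.1 V (-φ x)
      have hB3 := (hYB (Pr y) (Adj V (Pr (tsh y j))) (hprj y) hB2.1).2.2.2.2.2 (φ x)
      have e1 : ((h (x, y) * V * (h (x, tsh y j))⁻¹ : SU N) : Mt N) - (V : Mt N) =
          (eth N (φ x) (Pr y) * eth N (-φ x) (Adj V (Pr (tsh y j))) - 1) * (V : Mt N) := by
        rw [← hB2.2, Submonoid.coe_mul, Submonoid.coe_mul, hinvc, sub_mul, one_mul]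
        unfold Adj
        have e2 : ((V⁻¹ : SU N) : Mt N) * (V : Mt N) = 1 := by
          rw [← Submonoid.coe_mul, inv_mul_cancel, Submonoid.coe_one]
        have e3 : eth N (φ x) (Pr y) * ((V : Mt N) * eth N (-φ x) (Pr (tsh y j)) * ((V⁻¹ : SU N) : Mt N)) *
            (V : Mt N) = eth N (φ x) (Pr y) * (V : Mt N) * eth N (-φ x) (Pr (tsh y j)) := by
          simp only [mul_assoc, e2, mul_one]
        rw [e3]
        rfl
      rw [e1, PkgE.norm_mul_su]
      refine hB3.trans ?_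
      calc CB * ‖Pr y - Adj V (Pr (tsh y j))‖ ≤ CB * (CA / L) :=
            mul_le_mul_of_nonneg_left (hPr y j) (by linarith)
        _ ≤ CB * ((CA + CC) / L) := by
          refine mul_le_mul_of_nonneg_left (div_le_div_of_nonneg_right (by linarith) hL0.le) (by linarith)
        _ = _ := by rw [mul_div_assoc]
    fin_cases m
    · exact hplane (Or.inl rfl)
    · exact hplane (Or.inr rfl)
    · have e0 : x + pe 2 = x := by unfold pe; simp
      refine htor 0 (by unfold nx; simp [e0]) ?_ rfl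
      change gau h (vc P Q) ((x, y), 2) = _
      unfold gau
      have : nx ((x, y) : Pt L) 2 = (x, tsh y 0) := by unfold nx; simp [e0]
      rw [this]
      rfl
    · have e0 : x + pe 3 = x := by unfold pe; simp
      refine htor 1 (by unfold nx; simp [e0]) ?_ rfl
      change gau h (vc P Q) ((x, y), 3) = _
      unfold gau
      have : nx ((x, y) : Pt L) 3 = (x, tsh y 1) := by unfold nx; simp [e0]
      rw [this]
      rfl
  obtain ⟨U, X, hU, hX, hE⟩ := hYD k L hk P Q hPQ (-1) X₀ hen hnear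
  refine le_trans (csInf_le ?_ ?_) hE
  · refine ⟨0, ?_⟩
    rintro e ⟨n, U', X', -, -, -, rfl⟩
    exact Finset.sum_nonneg fun τ _ => enf_nonneg _ _ _ _
  · refine ⟨-1, U, X, ?_, hU, hX, rfl⟩
    intro hd
    have h1 : (N : ℤ) ∣ 1 := (dvd_neg).1 hd
    have h2 := Int.le_of_dvd one_pos h1
    omega

end T2H01.SE
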