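import Pool.Agent.T2H02.TT.A
import Pool.Agent.T2H02.TT.B
import Pool.Agent.T2H02.TT.C
import Pool.Agent.T2H02.TT.D
import Pool.Agent.T2H02.TT.E
import Pool.Agent.T2H02.TT.F
import Pool.Agent.T2H02.TT.J
import Pool.Agent.T2H02.TT.JM
import Pool.Agent.T2H02.TT.G2
import Pool.Agent.T2H02.TT.OA
import Pool.Agent.T2H02.TT.EG
import Pool.Agent.T2H02.TT.AR
import Pool.Agent.T2H02.TT.C1u
import Pool.Agent.T2H02.TT.D1u
import Pool.Agent.T2H02.TT.E3u
import Pool.Agent.T2H02.TT.Ju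
import Pool.Agent.T2H02.TT.Ku
import Pool.Agent.T2H02.TT.G1u
import Pool.Agent.T2H02.TT.G3u
import Pool.Agent.T2H02.TT.Gu
import Pool.Agent.T2H02.TT.Hu
import Pool.Agent.T2H02.TT.I1u
import Pool.Agent.T2H02.TT.Iu
import Pool.Agent.T2H02.TT.LLu
import Pool.Agent.T2H02.TT.M0u
import Pool.Agent.T2H02.TT.M1u
import Pool.Agent.T2H02.TT.Mu
import Pool.Agent.T2H02.TT.Xu
import Pool.Agent.T2H01.SE.VL
import Pool.Agent.T2H01.SE.VA
import Pool.Agent.T2H01.SE.VS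
import Pool.Agent.T2H01.SE.VG
import Pool.Agent.T2H01.SE.VJ
import Pool.Agent.T2H01.SE.VN
import Pool.Agent.T2H01.SE.WX
import Pool.Agent.T2H01.SE.WK
import Pool.Agent.T2H01.SE.WE
import Pool.Agent.T2H01.SE.ZT
import Pool.Agent.T2H01.SE.RX
import Pool.Agent.T2H01.SE.RC
import Pool.Agent.T2H01.SE.RT
import Pool.Agent.T2H01.SE.RA
import Pool.Agent.T2H01.SE.TB
import Pool.Agent.T2H01.SE.TA
import Pool.Agent.T2H01.SE.TD
import Pool.Agent.T2H01.SE.TE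
import Pool.Agent.T2H01.SE.TP
import Pool.Agent.T2H01.SE.TW
import Pool.Agent.T2H01.SE.TQ
import Pool.Agent.T2H01.SE.TS
import Pool.Agent.T2H01.SE.UA
import Pool.Agent.T2H01.SE.UB
import Pool.Agent.T2H01.SE.UC
import Pool.Agent.T2H01.SE.UF
import Pool.Agent.T2H01.SE.UI
import Pool.Agent.T2H01.SE.UJ
import Pool.Agent.T2H01.SE.UK
import Pool.Agent.T2H01.SE.UL
import Pool.Agent.T2H01.SE.UM
import Pool.Agent.T2H01.SE.XA
import Pool.Agent.T2H01.SE.XB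
import Pool.Agent.T2H01.SE.XC
import Pool.Agent.T2H01.SE.XD
import Pool.Agent.T2H01.SE.YA
import Pool.Agent.T2H01.SE.YB
import Pool.Agent.T2H01.SE.YC
import Pool.Agent.T2H01.SE.YD
import Pool.Agent.T2H01.SE.YE

/-!
# The packages which are needed by the uniform ones, together (do not import this file and `All.lean`)
-/

set_option autoImplicit false

namespace T2H01.SE

open T2H02.TT

theorem aB1 : S_B1 := pB1 pA2
theorem aB2 : S_B2 := pB2 pA3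
theorem aB3 : S_B3 := pB3 pA3
theorem aC1 : S_C1 := pC1 aB3
theorem aC2 : S_C2 := pC2 aB3
theorem aD1 : S_D1 := pD1 pB0 aB1 aC1 aC2 pE4
theorem aD2 : S_D2 := pD2 aB2 aC1 pE4
theorem aJ : S_J := pJ aD2
theorem aJI : S_JI := pJI pE2
theorem aJM : S_JM := pJM pF1 pE3
theorem aAR : S_AR := pAR pOA
theorem aC1u : S_C1u := pC1u aB3
theorem aC2u : S_C2u := pC2u aB3
theorem aD1u : S_D1u := pD1u aD1
theorem aD2u : S_D2u := pD2u aD2
theorem aJu : S_Ju := pJu aD2u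
theorem aKu : S_Ku := pKu pE1 pE3u pE4
theorem aG1u : S_G1u := pG1u pA1 pB0 aD1u aJu aJI
theorem aGu : S_Gu := pGu pF5 aG1u pG2 pG3u
theorem aHu : S_Hu := pHu pF3 pF5 aGu pG3u
theorem aI1u : S_I1u := pI1u aC1u aC2u
theorem aIu : S_Iu := pIu aI1u
theorem aM0u : S_M0u := pM0u pE4 aIu aKu (pL1u pB0) pL3u
theorem aM1u : S_M1u := pM1u pB0 aD1u pE4 aGu pG3u aJu aJI aJM pL2u aM0u
theorem aMu : S_Mu := pMu pA1 aD1u aJu aJI aJM aM1u
theorem aXu : S_Xu := pXu pF2 pF3 pF5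

theorem aVL : S_VL := pVL pB0
theorem aVA : S_VA := pVA aJI aJM
theorem aVS : S_VS := pVS aVA
theorem aVG : S_VG := pVG aD1 aJ
theorem aVJ : S_VJ := pVJ pF2 aVS
theorem aVN : S_VN := pVN aVL
theorem aWX : S_WX := pWX pF5
theorem aWK : S_WK := pWK pF3 pF4 pF5
theorem aWE : S_WE := pWE pF2 pOA
theorem aZT : S_ZT := pZT aVA aVS
theorem aRX : S_RX := pRX pRC
theorem aTB : S_TB := pTB pTA aVL
theorem aTD : S_TD := pTD aVL
theorem aTE : S_TE := pTE pG3 aVL aTD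
theorem aTP : S_TP := pTP pF2 pTW
theorem aTQ : S_TQ := pTQ aTP aZT aVS
theorem aUB : S_UB := pUB pUA
theorem aUC : S_UC := pUC pF2
theorem aUI : S_UI := pUI aTB pTS aTD aTE aZT pRT
theorem aXB : S_XB := pXB pA1 pA2 aD1 aJ
theorem aXD : S_XD := pXD pXA aXB pXC aVL
theorem aYE : S_YE := pYE pYA pYB pYC (pYD pB0 pE4) aVA aVL

end T2H01.SE
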