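import Pool.Agent.T2H01.SE.Stm10
import Pool.Agent.T2H01.SE.DG

/-!
# Package DGu : the dilute gas of vortices, uniformly in `L`
-/

set_option autoImplicit false

noncomputable section

open MeasureTheory Matrix Filter
open scoped Matrix.Norms.Frobenius

namespace T2H01.SE.PkgDGu

open T2H02.TT T2H01.SE T2H01.SE.PkgDG

/-! ### the constants -/

lemma numbersU {N : ℕ} (hN : 2 ≤ N) {S₀ ε η : ℝ} (hS₀ : 0 < S₀) (hε : 0 < ε) (hη : 0 < η) :
    ∃ ρ η' κ ℓ : ℝ, 0 < ρ ∧ 0 < η' ∧ η' ≤ 1 ∧ η' ≤ η / (100 * N) ∧ 0 < κ ∧ 0 < ℓ ∧ ρ < ε ∧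
      ∀ S C m M β : ℝ, S₀ ≤ S → 0 < m → 1 ≤ β → 10 ≤ Real.exp (κ * β) → M ≤ Real.exp (κ * β) →
        Real.log (4 * N) + ℓ ≤ κ * ℓ / 2 * β → (C + S + ρ + 1) * β ≤ m * Real.exp (κ * β) →
        2 * (2 * N + 48 / η + 1) ≤ Real.exp (1 * β) → 2 * (8 + 32 / η) ≤ Real.exp (S / 2 * β) →
        Real.log 3 ≤ (ε - ρ) * β → Real.log 2 ≤ (ε - ρ) * β →
      ∃ a₁ K : ℕ, Even a₁ ∧ 10 ≤ a₁ ∧ M ≤ a₁ ∧
        2 * N * (2 * Real.exp (C * β - m * a₁)) ≤ Real.exp (-β * (S + ρ)) ∧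
        2 * N * (Real.exp (-β * (S - ρ)) + 2 * Real.exp (C * β - m * a₁)) ≤
          Real.exp (-β * (S + ρ)) * (1 + η') ^ K ∧
        (Real.exp (-β * (S - ρ)) + 2 * Real.exp (C * β - m * a₁)) *
          (((2 ^ K * a₁ : ℕ) : ℝ) * ((2 ^ K * a₁ : ℕ) : ℝ)) ≤ 1 / 8 ∧
        8 * ((Real.exp (-β * (S - ρ)) + 2 * Real.exp (C * β - m * a₁)) *
          (((2 ^ K * a₁ : ℕ) : ℝ) * ((2 ^ K * a₁ : ℕ) : ℝ))) ≤ η / 4 ∧
        Real.exp (-β * (S + ε)) ≤ Real.exp (-β * (S + ρ)) / 3 ∧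
        Real.exp (-β * (S - ρ)) + 2 * Real.exp (C * β - m * a₁) ≤ Real.exp (-β * (S - ε)) ∧
        ((2 ^ K * a₁ : ℕ) : ℝ) ≤ Real.exp (ε * β) ∧
        2 * (2 * Real.exp (C * β - m * a₁)) ≤ η / 4 * (Real.exp (-β * (S + ρ)) / 3) := by
  have hNr : (0 : ℝ) < N := Nat.cast_pos.2 (by omega)
  set κ : ℝ := min ε (S₀ / 16) / 4 with hκdef
  have hκ : 0 < κ := by positivity
  have hκε : 4 * κ ≤ ε := by
    have := min_le_left ε (S₀ / 16)
    rw [hκdef]; linarith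
  have hκS₀ : 64 * κ ≤ S₀ := by
    have := min_le_right ε (S₀ / 16)
    rw [hκdef]; linarith
  set η' : ℝ := min 1 (η / (100 * N)) with hη'def
  have hη' : 0 < η' := by positivity
  have hη1 : η' ≤ 1 := min_le_left _ _
  set ℓ : ℝ := Real.log (1 + η') with hℓdef
  have hℓ : 0 < ℓ := Real.log_pos (by linarith)
  have hℓ1 : ℓ ≤ 1 := by
    have := Real.log_le_sub_one_of_pos (show 0 < 1 + η' by linarith)
    rw [hℓdef]; linarith
  set ρ : ℝ := κ * ℓ / 4 with hρdef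
  have hρ : 0 < ρ := by positivity
  have hρκ : ρ ≤ κ / 4 := by
    rw [hρdef]; nlinarith
  have hρε : 0 < ε - ρ := by linarith
  refine ⟨ρ, η', κ, ℓ, hρ, hη', hη1, min_le_right _ _, hκ, hℓ, by linarith,
    fun S C m M β hSS hm e1 e10 eM e4 e5 e6 e7 e8 e9 => ?_⟩
  have hS : 0 < S := by linarith
  have hκS : 64 * κ ≤ S := by linarith
  set Mx : ℝ := 2 * N + 48 / η + 1 with hMx
  have hMxpos : 0 < Mx := by positivity
  have hβ : 0 < β := by linarith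
  set E : ℝ := Real.exp (κ * β) with hE
  have hE0 : 0 < E := Real.exp_pos _
  set a₁ : ℕ := 2 * ⌈E⌉₊ with ha₁
  set K : ℕ := ⌊κ * β / Real.log 2⌋₊ with hKdef
  have hlog2 : 0 < Real.log 2 := Real.log_pos (by norm_num)
  have hlog21 : Real.log 2 ≤ 1 := by
    have := Real.log_le_sub_one_of_pos (show (0 : ℝ) < 2 by norm_num)
    linarith
  have ha₁lo : 2 * E ≤ a₁ := by
    rw [ha₁]; push_cast
    linarith [Nat.le_ceil E]
  have ha₁up : (a₁ : ℝ) ≤ 4 * E := by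
    rw [ha₁]; push_cast
    have := (Nat.ceil_lt_add_one hE0.le).le
    linarith
  have hKle : (K : ℝ) ≤ κ * β / Real.log 2 := Nat.floor_le (by positivity)
  have hKge : κ * β / Real.log 2 - 1 ≤ K := by
    have := Nat.lt_floor_add_one (κ * β / Real.log 2)
    rw [hKdef]; linarith
  have h2K : (2 : ℝ) ^ K ≤ E := by
    rw [← Real.exp_log (show (0 : ℝ) < 2 by norm_num), ← Real.exp_nat_mul, hE]
    apply Real.exp_le_exp.2
    rwa [le_div_iff₀ hlog2] at hKle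
  have ha₂ : ((2 ^ K * a₁ : ℕ) : ℝ) ≤ Real.exp (3 * κ * β) := by
    push_cast
    calc (2 : ℝ) ^ K * a₁ ≤ E * (4 * E) :=
          mul_le_mul h2K ha₁up (Nat.cast_nonneg _) hE0.le
      _ ≤ E * (E * E) := by
          apply mul_le_mul_of_nonneg_left _ hE0.le
          nlinarith
      _ = Real.exp (3 * κ * β) := by
          rw [hE, ← Real.exp_add, ← Real.exp_add]; congr 1; ring
  have ha₂sq : ((2 ^ K * a₁ : ℕ) : ℝ) * ((2 ^ K * a₁ : ℕ) : ℝ) ≤ Real.exp (6 * κ * β) := by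
    calc _ ≤ Real.exp (3 * κ * β) * Real.exp (3 * κ * β) :=
          mul_le_mul ha₂ ha₂ (Nat.cast_nonneg _) (Real.exp_pos _).le
      _ = _ := by rw [← Real.exp_add]; congr 1; ring
  set s₁ : ℝ := Real.exp (-β * (S + ρ)) with hs₁
  set s : ℝ := Real.exp (-β * (S - ρ)) with hs
  have hs₁0 : 0 < s₁ := Real.exp_pos _
  have hs0 : 0 < s := Real.exp_pos _
  have hs₁s : s₁ ≤ s := Real.exp_le_exp.2 (by nlinarith)
  -- the error `τ`
  have hτ1 : 2 * Real.exp (C * β - m * a₁) ≤ s₁ / Mx := by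
    have h1 : C * β - m * a₁ ≤ -β * (S + ρ) + -(1 * β) := by
      have : m * (2 * E) ≤ m * a₁ := mul_le_mul_of_nonneg_left ha₁lo hm.le
      have h5 : 0 ≤ m * E := by positivity
      linarith
    have h2 := Real.exp_le_exp.2 h1
    rw [Real.exp_add, Real.exp_neg (1 * β)] at h2
    have h3 : (Real.exp (1 * β))⁻¹ ≤ (2 * Mx)⁻¹ := inv_anti₀ (by positivity) e6
    calc 2 * Real.exp (C * β - m * a₁) ≤ 2 * (s₁ * (Real.exp (1 * β))⁻¹) := by linarith
      _ ≤ 2 * (s₁ * (2 * Mx)⁻¹) := by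
          have := mul_le_mul_of_nonneg_left h3 hs₁0.le
          linarith
      _ = s₁ / Mx := by field_simp
  set τ : ℝ := 2 * Real.exp (C * β - m * a₁) with hτdef
  have hτ0 : 0 < τ := by positivity
  have hτM : τ * Mx ≤ s₁ := by rwa [le_div_iff₀ hMxpos] at hτ1
  have hτN : 2 * N * τ ≤ s₁ := by
    have h1 : 0 ≤ τ * (48 / η + 1) := by positivity
    have h2 : τ * Mx = 2 * N * τ + τ * (48 / η + 1) := by rw [hMx]; ring
    linarith
  have hττ : τ ≤ s₁ := by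
    have h1 : 0 ≤ τ * (2 * N + 48 / η) := by positivity
    have h2 : τ * Mx = τ + τ * (2 * N + 48 / η) := by rw [hMx]; ring
    linarith
  have hτη : 48 * τ ≤ η * s₁ := by
    have h1 : τ * (48 / η) ≤ s₁ := by
      have h1 : 0 ≤ τ * (2 * N + 1) := by positivity
      have h2 : τ * Mx = τ * (48 / η) + τ * (2 * N + 1) := by rw [hMx]; ring
      linarith
    have h2 := mul_le_mul_of_nonneg_left h1 hη.le
    have h3 : η * (τ * (48 / η)) = 48 * τ := by field_simp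
    linarith
  have hsτ : s + τ ≤ 2 * s := by linarith
  have hpw : Real.exp ((κ * β / Real.log 2 - 1) * ℓ) ≤ (1 + η') ^ K := by
    have h1 : (1 + η') ^ K = Real.exp (K * ℓ) := by
      rw [hℓdef, Real.exp_nat_mul, Real.exp_log (by linarith)]
    rw [h1]
    exact Real.exp_le_exp.2 (mul_le_mul_of_nonneg_right hKge hℓ.le)
  have hq8 : (s + τ) * (((2 ^ K * a₁ : ℕ) : ℝ) * ((2 ^ K * a₁ : ℕ) : ℝ)) ≤ (8 + 32 / η)⁻¹ := by
    calc (s + τ) * (((2 ^ K * a₁ : ℕ) : ℝ) * ((2 ^ K * a₁ : ℕ) : ℝ)) ≤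
        (2 * s) * Real.exp (6 * κ * β) :=
          mul_le_mul hsτ ha₂sq (by positivity) (by positivity)
      _ = 2 * Real.exp (-β * (S - ρ) + 6 * κ * β) := by
          rw [hs, mul_assoc, ← Real.exp_add]
      _ ≤ 2 * Real.exp (-(S / 2 * β)) := by
          have : -β * (S - ρ) + 6 * κ * β ≤ -(S / 2 * β) := by
            have h1 : 0 ≤ (S / 2 - ρ - 6 * κ) * β := mul_nonneg (by linarith) hβ.le
            linarith
          linarith [Real.exp_le_exp.2 this]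
      _ ≤ 2 * (2 * (8 + 32 / η))⁻¹ := by
          rw [Real.exp_neg]
          have := inv_anti₀ (show 0 < 2 * (8 + 32 / η) by positivity) e7
          linarith
      _ = (8 + 32 / η)⁻¹ := by field_simp
  have hinv1 : (8 + 32 / η)⁻¹ ≤ 1 / 8 := by
    rw [one_div]
    exact inv_anti₀ (by norm_num) (by have : 0 < 32 / η := by positivity
                                      linarith)
  have hinv2 : (8 + 32 / η)⁻¹ ≤ η / 32 := by
    have h1 : (32 / η)⁻¹ = η / 32 := by rw [inv_div]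
    rw [← h1]
    exact inv_anti₀ (by positivity) (by linarith)
  refine ⟨a₁, K, ⟨⌈E⌉₊, by rw [ha₁]; ring⟩, ?_, ?_, hτN, ?_, hq8.trans hinv1, ?_, ?_, ?_, ?_, ?_⟩
  · have : (10 : ℝ) ≤ a₁ := by linarith
    exact_mod_cast this
  · linarith
  · have h4N : (0 : ℝ) < 4 * N := by positivity
    calc 2 * N * (s + τ) ≤ 4 * N * s := by nlinarith
      _ = Real.exp (Real.log (4 * N) + -β * (S - ρ)) := by
          rw [Real.exp_add, Real.exp_log h4N]
      _ ≤ Real.exp (-β * (S + ρ) + (κ * β / Real.log 2 - 1) * ℓ) := by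
          apply Real.exp_le_exp.2
          have h1 : κ * β * ℓ ≤ κ * β / Real.log 2 * ℓ := by
            apply mul_le_mul_of_nonneg_right _ hℓ.le
            rw [le_div_iff₀ hlog2]
            exact mul_le_of_le_one_right (by positivity) hlog21
          have h2 : ρ * β = κ * ℓ / 4 * β := by rw [hρdef]
          nlinarith
      _ = s₁ * Real.exp ((κ * β / Real.log 2 - 1) * ℓ) := by rw [Real.exp_add]
      _ ≤ s₁ * (1 + η') ^ K := mul_le_mul_of_nonneg_left hpw hs₁0.le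
  · linarith [hq8.trans hinv2]
  · rw [le_div_iff₀ (by norm_num : (0 : ℝ) < 3)]
    calc Real.exp (-β * (S + ε)) * 3 = Real.exp (-β * (S + ε) + Real.log 3) := by
          rw [Real.exp_add, Real.exp_log (by norm_num)]
      _ ≤ s₁ := Real.exp_le_exp.2 (by nlinarith)
  · calc s + τ ≤ 2 * s := hsτ
      _ = Real.exp (Real.log 2 + -β * (S - ρ)) := by
          rw [Real.exp_add, Real.exp_log (by norm_num)]
      _ ≤ Real.exp (-β * (S - ε)) := Real.exp_le_exp.2 (by nlinarith)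
  · refine ha₂.trans (Real.exp_le_exp.2 ?_)
    nlinarith
  · linarith


lemma cst {x C C' : ℝ} {K K' : ℕ} (hx : 1 ≤ x) (hC : C ≤ C') (hC' : 0 ≤ C') (hK : K ≤ K') :
    C * x ^ K ≤ C' * x ^ K' :=
  mul_le_mul hC (pow_le_pow_right₀ hx hK) (by positivity) hC'

lemma cst0 {x C C' : ℝ} {K' : ℕ} (hx : 1 ≤ x) (hC : C ≤ C') (hC' : 0 ≤ C') : C ≤ C' * x ^ K' := by
  have := cst (K := 0) hx hC hC' (Nat.zero_le K')
  rwa [pow_zero, mul_one] at this

lemma bigU {N : ℕ} {S₀ S₁ ε η ρ κ ℓ : ℝ} (hS₀ : 0 < S₀) (hρ : 0 < ρ) (hκ : 0 < κ) (hℓ : 0 < ℓ)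
    (hη : 0 < η) (hρε : ρ < ε) {C₂ c₂ CU : ℝ} {K₂ KU : ℕ} (hC₂ : 0 ≤ C₂) (hc₂ : 0 < c₂)
    (hCU : 0 ≤ CU) : ∃ (D : ℝ) (K : ℕ), 0 ≤ D ∧ ∀ (x S β : ℝ), 1 ≤ x → S₀ ≤ S → S ≤ S₁ →
      D * x ^ K ≤ β → 1 ≤ β ∧ 10 ≤ Real.exp (κ * β) ∧ CU * x ^ KU ≤ Real.exp (κ * β) ∧
        Real.log (4 * N) + ℓ ≤ κ * ℓ / 2 * β ∧
        (C₂ * x ^ K₂ + S + ρ + 1) * β ≤ c₂ / x * Real.exp (κ * β) ∧
        2 * (2 * N + 48 / η + 1) ≤ Real.exp (1 * β) ∧ 2 * (8 + 32 / η) ≤ Real.exp (S / 2 * β) ∧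
        Real.log 3 ≤ (ε - ρ) * β ∧ Real.log 2 ≤ (ε - ρ) * β := by
  have hd : 0 < ε - ρ := by linarith
  set d1 : ℝ := 10 / κ
  set d2 : ℝ := CU / κ
  set d3 : ℝ := |Real.log (4 * N) + ℓ| / (κ * ℓ / 2)
  set d4 : ℝ := 2 * (C₂ + |S₁| + ρ + 1) / (c₂ * κ ^ 2)
  set d5 : ℝ := 2 * (2 * N + 48 / η + 1)
  set d6 : ℝ := 2 * (8 + 32 / η) / (S₀ / 2)
  set d7 : ℝ := Real.log 3 / (ε - ρ)
  have h1 : 0 ≤ d1 := by positivity
  have h2 : 0 ≤ d2 := by positivity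
  have h3 : 0 ≤ d3 := by positivity
  have h4 : 0 ≤ d4 := by positivity
  have h5 : 0 ≤ d5 := by positivity
  have h6 : 0 ≤ d6 := by positivity
  have hl3 : 0 ≤ Real.log 3 := Real.log_nonneg (by norm_num)
  have h7 : 0 ≤ d7 := by positivity
  refine ⟨1 + d1 + d2 + d3 + d4 + d5 + d6 + d7, KU + K₂ + 1, by positivity,
    fun x S β hx hS0 hS1 hβ => ?_⟩
  set D : ℝ := 1 + d1 + d2 + d3 + d4 + d5 + d6 + d7 with hD
  have hD0 : 0 ≤ D := by positivity
  have hx0 : 0 < x := by linarith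
  have b0 : 1 ≤ β := (cst0 hx (by linarith) hD0).trans hβ
  have b1 : d1 ≤ β := (cst0 hx (by linarith) hD0).trans hβ
  have b2 : d2 * x ^ KU ≤ β := (cst hx (by linarith) hD0 (by omega)).trans hβ
  have b3 : d3 ≤ β := (cst0 hx (by linarith) hD0).trans hβ
  have b4 : d4 * x ^ (K₂ + 1) ≤ β := (cst hx (by linarith) hD0 (by omega)).trans hβ
  have b5 : d5 ≤ β := (cst0 hx (by linarith) hD0).trans hβ
  have b6 : d6 ≤ β := (cst0 hx (by linarith) hD0).trans hβ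
  have b7 : d7 ≤ β := (cst0 hx (by linarith) hD0).trans hβ
  have hβ0 : 0 < β := by linarith
  have hk : κ * β ≤ Real.exp (κ * β) := by
    have := Real.add_one_le_exp (κ * β)
    linarith
  have a3 : Real.log 3 ≤ (ε - ρ) * β := by
    have := (div_le_iff₀ hd).1 b7
    linarith
  refine ⟨b0, ?_, ?_, ?_, ?_, ?_, ?_, a3, ?_⟩
  · have := (div_le_iff₀ hκ).1 b1
    linarith
  · have e : CU * x ^ KU = κ * (d2 * x ^ KU) := by
      simp only [d2]; field_simp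
    rw [e]
    exact (mul_le_mul_of_nonneg_left b2 hκ.le).trans hk
  · have := (div_le_iff₀ (by positivity)).1 b3
    have h := le_abs_self (Real.log (4 * N) + ℓ)
    linarith
  · have hq := Real.quadratic_le_exp_of_nonneg (show 0 ≤ κ * β by positivity)
    have h8 : (κ * β) ^ 2 / 2 ≤ Real.exp (κ * β) := by
      have : 0 ≤ κ * β := by positivity
      linarith
    have h9 : (C₂ * x ^ K₂ + S + ρ + 1) ≤ (C₂ + |S₁| + ρ + 1) * x ^ K₂ := by
      have hp : 1 ≤ x ^ K₂ := one_le_pow₀ hx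
      have h10 : (|S₁| + ρ + 1) * 1 ≤ (|S₁| + ρ + 1) * x ^ K₂ :=
        mul_le_mul_of_nonneg_left hp (by positivity)
      have h11 := le_abs_self S₁
      linarith
    have h12 : (C₂ + |S₁| + ρ + 1) * x ^ K₂ * 2 * x ≤ c₂ * κ ^ 2 * β := by
      have e : (C₂ + |S₁| + ρ + 1) * x ^ K₂ * 2 * x = c₂ * κ ^ 2 * (d4 * x ^ (K₂ + 1)) := by
        simp only [d4]
        field_simp
        ring
      rw [e]
      exact mul_le_mul_of_nonneg_left b4 (by positivity)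
    calc (C₂ * x ^ K₂ + S + ρ + 1) * β ≤ (C₂ + |S₁| + ρ + 1) * x ^ K₂ * β :=
          mul_le_mul_of_nonneg_right h9 hβ0.le
      _ = (C₂ + |S₁| + ρ + 1) * x ^ K₂ * 2 * x * (β / (2 * x)) := by field_simp
      _ ≤ c₂ * κ ^ 2 * β * (β / (2 * x)) := mul_le_mul_of_nonneg_right h12 (by positivity)
      _ = c₂ / x * ((κ * β) ^ 2 / 2) := by field_simp
      _ ≤ c₂ / x * Real.exp (κ * β) := mul_le_mul_of_nonneg_left h8 (by positivity)
  · have := Real.add_one_le_exp (1 * β)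
    simp only [d5] at b5
    linarith
  · have h8 := (div_le_iff₀ (by positivity)).1 b6
    have h9 := Real.add_one_le_exp (S / 2 * β)
    have h10 : S₀ / 2 * β ≤ S / 2 * β := mul_le_mul_of_nonneg_right (by linarith) hβ0.le
    linarith
  · have : Real.log 2 ≤ Real.log 3 := Real.log_le_log (by norm_num) (by norm_num)
    linarith

theorem main (hXD : S_XD) (hYE : S_YE) (hTQ : S_TQ) (hTU : S_TUu) (hUH : S_UHu) (hTS : S_TS)
    (hUB : S_UB) (hUG : S_UGu) (hUI : S_UI) (hUJ : S_UJ) (hUK : S_UK) (hUL : S_UL) (hUM : S_UM)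
    (hUN : S_UNu) : S_DGu := by
  intro N k hN hk P Q hPQ ε η hε hη
  have hN0 : N ≠ 0 := by omega
  have hNr : (0 : ℝ) < N := Nat.cast_pos.2 (by omega)
  obtain ⟨S₀, hS₀, hSlo⟩ := hXD N k hN hk
  obtain ⟨S₁, hShi⟩ := hYE N hN
  obtain ⟨ρ, η', κ, ℓ, hρ, hη', hη1, hη2, hκ, hℓ, hρε, hnum⟩ := numbersU hN hS₀ hε hη
  obtain ⟨CN, KN, hCN, hUN₁⟩ := hUN N k hN P Q
  obtain ⟨c₂, C₂', K₂, hc₂, hC₂, hUG₁⟩ := hUG N k hN hk P Q hPQ
  obtain ⟨CU, KU, hCU, hTU₁⟩ := hTU N k hN hk P Q hPQ ρ hρ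
  obtain ⟨CH, KH', hCH, hUH₁⟩ := hUH N k hN hk P Q hPQ ρ hρ
  obtain ⟨D, KD, hD, hbig⟩ := bigU (N := N) (S₁ := S₁) hS₀ hρ hκ hℓ hη hρε (K₂ := K₂) (KU := KU)
    (by linarith : (0 : ℝ) ≤ C₂') hc₂ (by linarith : (0 : ℝ) ≤ CU)
  refine ⟨D + C₂' + CU + CH, KD + K₂ + KU + KH', by linarith, fun L _ β hβ => ?_⟩
  have hx : (1 : ℝ) ≤ L := by exact_mod_cast NeZero.one_le
  have hT0 : 0 ≤ D + C₂' + CU + CH := by linarith
  have hβD : D * (L : ℝ) ^ KD ≤ β := (cst hx (by linarith) hT0 (by omega)).trans hβ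
  have hb2 : C₂' * (L : ℝ) ^ K₂ ≤ β := (cst hx (by linarith) hT0 (by omega)).trans hβ
  have hbU : CU * (L : ℝ) ^ KU ≤ β := (cst hx (by linarith) hT0 (by omega)).trans hβ
  have hbH : CH * (L : ℝ) ^ KH' ≤ β := (cst hx (by linarith) hT0 (by omega)).trans hβ
  have hUN' := hUN₁ L
  have hUG' := hUG₁ L
  have hTU' := hTU₁ L
  have hUH' := hUH₁ L
  set S : ℝ := SS L k P Q with hSdef
  have hSl : S₀ ≤ S := hSlo L P Q hPQ
  have hSh : S ≤ S₁ := hShi k L hk P Q hPQ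
  have hm : 0 < c₂ / L := by positivity
  set m : ℝ := c₂ / L with hmdef
  set C₂ : ℝ := C₂' * (L : ℝ) ^ K₂ with hC₂def
  set C₀ : ℝ := CN * (L : ℝ) ^ KN with hC₀def
  set KH : ℝ := CH * (L : ℝ) ^ KH' with hKHdef
  obtain ⟨hb1, g10, gM, g4, g5, g6, g7, g8, g9⟩ := hbig L S β hx hSl hSh hβD
  obtain ⟨a₁, K, ha₁e, ha10, haM, hc1, hc2, hq1, hq2, hz1, hz2, ha₂ε, hτη⟩ :=
    hnum S C₂ m (CU * (L : ℝ) ^ KU) β hSl hm hb1 g10 gM g4 g5 g6 g7 g8 g9
  have hb0 : 0 ≤ β := by linarith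
  -- symmetry and comparison with the charge zero
  have hx0' : ∀ (a b : ℕ) [NeZero a] [NeZero b],
      ‖TZc N L k β P Q 0 false false a b‖ = TY N L k β P Q ∅ a b := by
    intro a b _ _
    obtain ⟨h1, h2, -, -⟩ := hUN' β hb1 a b
    rw [h1, Complex.norm_real, Real.norm_eq_abs,
      abs_of_pos (lt_of_lt_of_le (Real.exp_pos _) h2)]
  have hsym : ∀ c a b, xx N L k β P Q c a b = xx N L k β P Q c b a := by
    intro c a b
    by_cases h : a ≠ 0 ∧ b ≠ 0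
    · haveI : NeZero a := ⟨h.1⟩
      haveI : NeZero b := ⟨h.2⟩
      rw [xx_eq, xx_eq]
      exact hTS N k L hN P Q β hb0 c false false a b
    · rw [xx_one _ _ _ _ _ _ _ h, xx_one _ _ _ _ _ _ _ (fun h' => h ⟨h'.2, h'.1⟩)]
  have hx0 : ∀ a b, xx N L k β P Q 0 a b = yy N L k β P Q a b := by
    intro a b
    by_cases h : a ≠ 0 ∧ b ≠ 0
    · haveI : NeZero a := ⟨h.1⟩
      haveI : NeZero b := ⟨h.2⟩
      rw [xx_eq, yy_eq, hx0']
    · rw [xx_one _ _ _ _ _ _ _ h, yy_one _ _ _ _ _ _ h]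
  have hy : ∀ a b, 0 < yy N L k β P Q a b ∧ yy N L k β P Q a b = yy N L k β P Q b a ∧
      Real.exp (-(C₀ * β) * (a * b)) ≤ yy N L k β P Q a b ∧ yy N L k β P Q a b ≤ 1 := by
    intro a b
    have hs : yy N L k β P Q a b = yy N L k β P Q b a := by rw [← hx0, ← hx0, hsym]
    by_cases h : a ≠ 0 ∧ b ≠ 0
    · haveI : NeZero a := ⟨h.1⟩
      haveI : NeZero b := ⟨h.2⟩
      obtain ⟨-, h2, h3, -⟩ := hUN' β hb1 a b
      refine ⟨?_, hs, ?_, ?_⟩
      · rw [yy_eq]; exact lt_of_lt_of_le (Real.exp_pos _) h2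
      · rw [yy_eq, neg_mul]; exact h2
      · rw [yy_eq]; exact h3
    · refine ⟨?_, hs, ?_, ?_⟩
      · rw [yy_one _ _ _ _ _ _ h]; exact one_pos
      · rw [yy_one _ _ _ _ _ _ h]
        have : (a : ℝ) * b = 0 := by
          by_cases ha : a = 0
          · rw [ha]; simp
          · have hb : b = 0 := by
              by_contra hb
              exact h ⟨ha, hb⟩
            rw [hb]; simp
        rw [this, mul_zero, Real.exp_zero]
      · rw [yy_one _ _ _ _ _ _ h]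
  have h1 : ∀ c a b j : ℕ, Even a → 2 ≤ a → 2 ≤ b → 1 ≤ j →
      xx N L k β P Q c (a * j) b ≤ xx N L k β P Q c a b ^ j := by
    intro c a b j ha h2a h2b hj
    haveI : NeZero a := ⟨by omega⟩
    haveI : NeZero b := ⟨by omega⟩
    haveI : NeZero (a * j) := ⟨Nat.mul_ne_zero (by omega) (by omega)⟩
    rw [xx_eq, xx_eq]
    exact (hUB N k L hN hk P Q hPQ β hb0 c b h2b).1 a j ha
  have h2 : ∀ c a b : ℕ, Even a → 2 ≤ a → 2 ≤ b → xx N L k β P Q c (a + 2) b ^ 2 ≤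
      xx N L k β P Q c a b * xx N L k β P Q c (a + 4) b := by
    intro c a b ha h2a h2b
    haveI : NeZero a := ⟨by omega⟩
    haveI : NeZero b := ⟨by omega⟩
    haveI : NeZero (a + 2) := ⟨by omega⟩
    haveI : NeZero (a + 4) := ⟨by omega⟩
    rw [xx_eq, xx_eq, xx_eq]
    exact (hUB N k L hN hk P Q hPQ β hb0 c b h2b).2 a (a + 2) (a + 4) ha rfl rfl
  have hdb : ∀ a b : ℕ, 10 ≤ a → 10 ≤ b → yy N L k β P Q a b ^ 2 ≤ yy N L k β P Q (2 * a) b *
      Real.exp (b * Real.exp (C₂ * β - m * (min a b : ℕ))) := by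
    intro a b h10a h10b
    haveI : NeZero a := ⟨by omega⟩
    haveI : NeZero b := ⟨by omega⟩
    haveI : NeZero (2 * a) := ⟨by omega⟩
    rw [yy_eq, yy_eq]
    exact hUG' β hb2 a b h10a h10b
  have hz : ∀ n a b, 0 < PkgDG.zz N L k β n a b := by
    intro n a b
    by_cases h : a ≠ 0 ∧ b ≠ 0
    · haveI : NeZero a := ⟨h.1⟩
      haveI : NeZero b := ⟨h.2⟩
      rw [PkgDG.zz_eq]
      exact (hUN' β hb1 a b).2.2.2 n
    · rw [PkgDG.zz_one _ _ _ _ _ h]; exact one_pos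
  have hTQ' : ∀ c a b : ℕ, Even a → 2 ≤ a → 2 ≤ b →
      (N : ℂ) * (xx N L k β P Q c a b : ℂ) =
        ∑ n ∈ Finset.range N, om N (c * n) * (PkgDG.zz N L k β n a b : ℂ) := by
    intro c a b ha h2a h2b
    haveI : NeZero a := ⟨by omega⟩
    haveI : NeZero b := ⟨by omega⟩
    rw [xx_eq, ← hUM N k L hN hk P Q hPQ β hb0 c a b h2b ha,
      hTQ N k L hN P Q β hb0 c a b h2a h2b]
    exact Finset.sum_congr rfl fun n _ => by rw [PkgDG.zz_eq]
  have hsumz : ∀ (a b : ℕ) [NeZero a] [NeZero b], 2 ≤ a → 2 ≤ b →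
      ∑ n ∈ Finset.range N, TZ N L k β n a b = N * TY N L k β P Q ∅ a b := by
    intro a b _ _ h2a h2b
    have h := hTQ N k L hN P Q β hb0 0 a b h2a h2b
    rw [(hUN' β hb1 a b).1] at h
    have e : ∀ n ∈ Finset.range N, om N (0 * n) * (TZ N L k β n a b : ℂ) =
        (TZ N L k β n a b : ℂ) := fun n _ => by rw [Nat.zero_mul, om_zero, one_mul]
    rw [Finset.sum_congr rfl e] at h
    exact_mod_cast h.symm
  have hup : ∀ a b : ℕ, a₁ ≤ a → a₁ ≤ b → xx N L k β P Q 1 a b ≤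
      Real.exp (-(Real.exp (-β * (S + ρ)) * (a * b))) * yy N L k β P Q a b := by
    intro a b h1a h1b
    haveI : NeZero a := ⟨by omega⟩
    haveI : NeZero b := ⟨by omega⟩
    rw [xx_eq, yy_eq]
    have h3 := hTU' β hbU a b (haM.trans (Nat.cast_le.2 h1a)) (haM.trans (Nat.cast_le.2 h1b))
    have h4 := hTQ N k L hN P Q β hb0 1 a b (by omega) (by omega)
    simp only [Nat.one_mul] at h4
    rw [← h4, hsumz a b (by omega) (by omega), norm_mul, Complex.norm_natCast] at h3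
    have h5 : (N : ℝ) * ‖TZc N L k β P Q 1 false false a b‖ ≤
        N * (Real.exp (-(Real.exp (-β * (S + ρ)) * (a * b))) * TY N L k β P Q ∅ a b) := by
      refine h3.trans (le_of_eq ?_)
      ring
    exact le_of_mul_le_mul_left h5 hNr
  have hlo : ∀ f : ℝ, (∀ a b : ℕ, Even a → Even b → 2 ≤ a → 2 ≤ b →
        Real.exp (-(f * (a * b))) ≤ yy N L k β P Q a b) →
      ∀ c a b : ℕ, Even a → Even b → 2 ≤ a → 2 ≤ b →
        Real.exp (-((Real.exp (-β * (S - ρ)) + f) * (a * b))) ≤ xx N L k β P Q c a b := by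
    intro f hf c a b ha hb h2a h2b
    haveI : NeZero a := ⟨by omega⟩
    haveI : NeZero b := ⟨by omega⟩
    rw [xx_eq]
    refine hUI N k L hN hk P Q hPQ β hb1 (Real.exp (-β * (S - ρ))) f ⌈KH * β⌉₊ c
      (Real.exp_pos _).le ?_ ?_ a b ha hb
    · intro i j hi hj
      exact hUH' β hbH c i j ((Nat.le_ceil _).trans (Nat.cast_le.2 hi))
        ((Nat.le_ceil _).trans (Nat.cast_le.2 hj))
    · intro a' b' _ _ ha' hb'
      have n1 : a' ≠ 0 := NeZero.ne a'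
      have n2 : b' ≠ 0 := NeZero.ne b'
      have m1 : 2 ≤ a' := by
        obtain ⟨r, hr⟩ := ha'
        omega
      have m2 : 2 ≤ b' := by
        obtain ⟨r, hr⟩ := hb'
        omega
      rw [hx0', ← yy_eq]
      exact hf a' b' ha' hb' m1 m2
  obtain ⟨ζ, hζ0, hζ1, hζ2, hζ3⟩ := fixed hUJ hUK hUL hN hm hy h1 h2 hx0 hsym hdb hz hTQ' hup hlo
    ha₁e ha10 le_rfl (Real.exp_pos _) hη' hη1 hc1 hc2 hq1
  refine ⟨ζ, hζ0, hz1.trans hζ1, hζ2.trans hz2, ?_⟩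
  intro c A B _ _ hA hB hεA hεB
  set Z : ℝ := ∑ n ∈ Finset.Ico 1 N, ζ n with hZdef
  have hA2 : 2 ^ K * a₁ ≤ A := by exact_mod_cast ha₂ε.trans hεA
  have hB2 : 2 ^ K * a₁ ≤ B := by exact_mod_cast ha₂ε.trans hεB
  have ha₂ge : a₁ ≤ 2 ^ K * a₁ := Nat.le_mul_of_pos_left _ (by positivity)
  have h2A : 2 ≤ A := by omega
  have h2B : 2 ≤ B := by omega
  have h3 := hζ3 c A B hA hB hA2 hB2
  have hAB : (0 : ℝ) < (A : ℝ) * B := by
    have : (0 : ℝ) < A := Nat.cast_pos.2 (by omega)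
    have : (0 : ℝ) < B := Nat.cast_pos.2 (by omega)
    positivity
  -- the quotient
  have hquot : ‖∑ n ∈ Finset.range N, om N (c * n) * (TZ N L k β n A B : ℂ)‖ /
      ∑ n ∈ Finset.range N, TZ N L k β n A B = xx N L k β P Q c A B / yy N L k β P Q A B := by
    rw [← hTQ N k L hN P Q β hb0 c A B h2A h2B, hsumz A B h2A h2B, norm_mul, Complex.norm_natCast,
      xx_eq, yy_eq, mul_div_mul_left _ _ hNr.ne']
  rw [hquot]
  set G : ℝ := ∑ n ∈ Finset.Ico 1 N, ζ n * (1 - Real.cos (2 * Real.pi * (c * n) / N)) with hG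
  set Lg : ℝ := Real.log (xx N L k β P Q c A B / yy N L k β P Q A B) with hLg
  have hZ0 : 0 ≤ Z := Finset.sum_nonneg fun n _ => (hζ0 n).le
  have hbound : |Lg / (A * B) + G| ≤ η * Z := by
    refine h3.trans ?_
    have q1 : 24 * N * η' ≤ η / 4 := by
      have : η' * (100 * N) ≤ η := by rwa [le_div_iff₀ (by positivity)] at hη2
      linarith
    have q2 := add_le_add q1 hq2
    have q3 := mul_le_mul_of_nonneg_right q2 hZ0
    have q4 := mul_le_mul_of_nonneg_left hζ1 (show 0 ≤ η / 4 by positivity)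
    have q5 : 0 ≤ η * Z := by positivity
    linarith
  have e : Lg + A * B * G = (A * B) * (Lg / (A * B) + G) := by
    field_simp
  rw [e, abs_mul, abs_of_pos hAB]
  have := mul_le_mul_of_nonneg_left hbound hAB.le
  linarith

end T2H01.SE.PkgDGu

namespace T2H01.SE

theorem pDGu : S_DGu' := fun hXD hYE hTQ hTU hUH hTS hUB hUG hUI hUJ hUK hUL hUM hUN =>
  PkgDGu.main hXD hYE hTQ hTU hUH hTS hUB hUG hUI hUJ hUK hUL hUM hUN

end T2H01.SE
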