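import Pool.Agent.T2H01.SE.Stm10
import Pool.Agent.T2H01.SE.MB

/-!
# Package MBu : the growth of the partition function does not depend on the depth, uniform in L
-/

set_option autoImplicit false
set_option linter.unusedSectionVars false

noncomputable section

open MeasureTheory Matrix
open scoped Matrix.Norms.Frobenius

namespace T2H01.SE.PkgMBu

open T2H02.TT
open T2H01.SE T2H01.SE.PkgMB

/-- comparison of the expectations of `kap` for two depths -/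
lemma cmpu (h3 : S_F3) (h5 : S_F5) {N k L : ℕ} [NeZero L] (hN : 2 ≤ N) (P Q : SU N)
    {m κ β C : ℝ} (hβ : 0 ≤ β) (hβ1 : 1 ≤ β) (hκ : 0 ≤ κ) (hmp : 0 < m) (hC : 1 ≤ C)
    (hPC : ∀ (Ω Δ A : Finset Pl) (n : ℕ), Δ ⊆ Ω → (∀ a ∈ A, ∀ b ∈ Nb n a, b ∈ Ω → b ∈ Δ) →
      ∀ f : Cf N L → ℝ, Measurable f → (∀ X, |f X| ≤ 1) →
      Sys.dep {l | ∀ a ∈ st l, a ∈ Ω → a ∈ A} f →
      ∀ η η' : Cf N L, (∀ l, l ∉ Frl L Ω → η l = vc P Q l ∧ η' l = vc P Q l) →
        |(sysS N L k β hN hβ).ker (hm N) Δ f η - (sysS N L k β hN hβ).ker (hm N) Δ f η'| ≤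
        6 * A.card * Real.exp (κ * β) * Real.exp (-m * n))
    (y y' : ℤ) (q q' : ℕ) (hq : 2 ≤ q) (hqq : q ≤ q') (T : Finset Pl) (hT : ∀ a ∈ T, 1 ≤ a.1)
    (a : Pl) (ha : 1 ≤ a.1) (f : Cf N L → ℝ) (hf : Measurable f)
    (hf1 : ∀ X, Real.exp (-C * β) ≤ f X ∧ f X ≤ Real.exp (C * β))
    (hfd : Sys.dep {l | ∀ b ∈ st l, b ∈ Nb 1 a} f) :
    (sysS N L k β hN hβ).ker (hm N) (rc (-q, y) (0, y') ∪ T) f (vc P Q) ≤
      (sysS N L k β hN hβ).ker (hm N) (rc (-q', y) (0, y') ∪ T) f (vc P Q) *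
        Real.exp (Real.exp ((54 + κ + 2 * C + m) * β - m * q)) := by
  obtain ⟨S, hS⟩ : ∃ S, S = sysS N L k β hN hβ := ⟨_, rfl⟩
  obtain ⟨Δ, hΔ⟩ : ∃ Δ, Δ = rc (-q, y) (0, y') ∪ T := ⟨_, rfl⟩
  obtain ⟨Ω, hΩ⟩ : ∃ Ω, Ω = rc (-q', y) (0, y') ∪ T := ⟨_, rfl⟩
  rw [← hΔ, ← hΩ]
  have hqq' : (q : ℤ) ≤ q' := by exact_mod_cast hqq
  have hsub : Δ ⊆ Ω := by
    intro x hx
    rw [hΔ, Finset.mem_union, mem_rc] at hx
    rw [hΩ, Finset.mem_union, mem_rc]
    rcases hx with hx | hx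
    · left
      simp only at hx ⊢
      omega
    · exact Or.inr hx
  have hnb : ∀ c ∈ Nb 1 a, ∀ b ∈ Nb (q - 1) c, b ∈ Ω → b ∈ Δ := by
    intro c hc b hb hbΩ
    rw [PkgMB.mem_Nb] at hc hb
    rw [hΩ, Finset.mem_union, mem_rc] at hbΩ
    rw [hΔ, Finset.mem_union, mem_rc]
    rcases hbΩ with h | h
    · left
      simp only at h ⊢
      have : ((q - 1 : ℕ) : ℤ) = (q : ℤ) - 1 := by push_cast [Nat.cast_sub (by omega : 1 ≤ q)]; ring
      rw [this] at hb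
      push_cast at hc
      omega
    · exact Or.inr h
  have hE : 0 < Real.exp (C * β) := Real.exp_pos _
  -- the bounded function
  have hfK : ∃ K, ∀ X, |f X| ≤ K := ⟨Real.exp (C * β), fun X => by
    rw [abs_le]
    have := (hf1 X).1
    have h0 := Real.exp_pos (-C * β)
    exact ⟨by linarith, (hf1 X).2⟩⟩
  obtain ⟨g, hg⟩ : ∃ g : Cf N L → ℝ, g = fun X => (Real.exp (C * β))⁻¹ * f X := ⟨_, rfl⟩
  have hgm : Measurable g := by rw [hg]; exact measurable_const.mul hf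
  have hg1 : ∀ X, |g X| ≤ 1 := by
    intro X
    rw [hg]
    simp only
    rw [abs_mul, abs_of_pos (inv_pos.2 hE), inv_mul_le_iff₀ hE, mul_one, abs_le]
    have := (hf1 X).1
    have h0 := Real.exp_pos (-C * β)
    exact ⟨by linarith, (hf1 X).2⟩
  have hgd : Sys.dep {l | ∀ b ∈ st l, b ∈ Ω → b ∈ Nb 1 a} g := by
    intro ω ω' h
    rw [hg]
    simp only
    rw [hfd ω ω' fun i hi => h i fun b hb _ => hi b hb]
  obtain ⟨B, hB⟩ : ∃ B : ℝ, B = 54 * Real.exp (κ * β) * Real.exp (-m * (q - 1 : ℕ)) := ⟨_, rfl⟩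
  -- comparison of boundary values
  have key : ∀ ξ, S.ker (hm N) Δ f (vc P Q) - Real.exp (C * β) * B ≤
      S.ker (hm N) Δ f (glue (S.Fr Ω) ξ (vc P Q)) := by
    intro ξ
    have h := hPC Ω Δ (Nb 1 a) (q - 1) hsub hnb g hgm hg1 hgd (vc P Q)
      (glue (S.Fr Ω) ξ (vc P Q)) fun l hl => ⟨rfl, by
        have : l ∉ S.Fr Ω := by rw [hS]; exact hl
        unfold glue
        rw [if_neg this]⟩
    rw [card_Nb1, ← hS] at h
    have hfg : f = fun X => Real.exp (C * β) * g X := by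
      funext X
      rw [hg]
      simp only
      rw [mul_inv_cancel_left₀ hE.ne']
    have hlin : ∀ η, S.ker (hm N) Δ f η = Real.exp (C * β) * S.ker (hm N) Δ g η := by
      intro η
      conv_lhs => rw [hfg]
      exact ((h5 _ _ _ S (hm N) Δ).2.2.1 g g hgm ⟨1, hg1⟩ hgm ⟨1, hg1⟩ η).2.2 _
    rw [hlin, hlin]
    have h' := (abs_le.1 h).2
    have : S.ker (hm N) Δ g (vc P Q) - S.ker (hm N) Δ g (glue (S.Fr Ω) ξ (vc P Q)) ≤ B := by
      rw [hB]
      refine h'.trans (le_of_eq ?_)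
      push_cast
      ring
    nlinarith
  have hmeas : Measurable (S.ker (hm N) Δ f) := (h5 _ _ _ S (hm N) Δ).2.2.2.1 f hf hfK
  obtain ⟨K, hK⟩ := hfK
  have hbd : ∃ K, ∀ ω, |S.ker (hm N) Δ f ω| ≤ K := ⟨K, (h5 _ _ _ S (hm N) Δ).2.2.2.2.1 K f hf hK⟩
  have hF3 : S.ker (hm N) Ω f (vc P Q) = S.ker (hm N) Ω (S.ker (hm N) Δ f) (vc P Q) := by
    have := h3 _ _ _ S (hm N) Δ Ω hsub f hf ⟨K, hK⟩ (fun _ => 1) measurable_const
      ⟨1, fun _ => by simp⟩ (fun _ _ _ => rfl) (vc P Q)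
    simpa only [one_mul] using this
  have hlow : S.ker (hm N) Δ f (vc P Q) - Real.exp (C * β) * B ≤ S.ker (hm N) Ω f (vc P Q) := by
    rw [hF3, ← (h5 _ _ _ S (hm N) Ω).2.1 (S.ker (hm N) Δ f (vc P Q) - Real.exp (C * β) * B)
      (vc P Q)]
    refine ((h5 _ _ _ S (hm N) Ω).2.2.1 _ _ measurable_const ⟨_, fun _ => le_rfl⟩ hmeas hbd
      (vc P Q)).1 fun ξ => ?_
    exact key ξ
  have hpos : Real.exp (-C * β) ≤ S.ker (hm N) Ω f (vc P Q) := by
    rw [← (h5 _ _ _ S (hm N) Ω).2.1 (Real.exp (-C * β)) (vc P Q)]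
    refine ((h5 _ _ _ S (hm N) Ω).2.2.1 _ _ measurable_const ⟨_, fun _ => le_rfl⟩ hf ⟨K, hK⟩
      (vc P Q)).1 fun ξ => ?_
    exact (hf1 _).1
  rw [← hS]
  obtain ⟨x, hx⟩ : ∃ x, x = S.ker (hm N) Δ f (vc P Q) := ⟨_, rfl⟩
  obtain ⟨x', hx'⟩ : ∃ x', x' = S.ker (hm N) Ω f (vc P Q) := ⟨_, rfl⟩
  rw [← hx, ← hx'] at hlow
  rw [← hx'] at hpos
  rw [← hx, ← hx']
  have hx'0 : 0 < x' := lt_of_lt_of_le (Real.exp_pos _) hpos
  have hB0 : 0 ≤ B := by rw [hB]; positivity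
  have h1 : x ≤ x' * (1 + Real.exp (2 * C * β) * B) := by
    have e1 : Real.exp (C * β) = Real.exp (2 * C * β) * Real.exp (-C * β) := by
      rw [← Real.exp_add]; congr 1; ring
    have e2 : Real.exp (C * β) * B ≤ x' * (Real.exp (2 * C * β) * B) := by
      rw [e1]
      have := mul_le_mul_of_nonneg_left hpos (show 0 ≤ Real.exp (2 * C * β) * B by positivity)
      nlinarith
    nlinarith
  have h2 : Real.exp (2 * C * β) * B ≤ Real.exp ((54 + κ + 2 * C + m) * β - m * q) := by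
    have hb0 : 0 < β := by linarith
    have e54 : (54 : ℝ) ≤ Real.exp (54 * β) := by
      have := Real.add_one_le_exp (54 * β)
      nlinarith
    have eq1 : ((q - 1 : ℕ) : ℝ) = (q : ℝ) - 1 := by
      push_cast [Nat.cast_sub (by omega : 1 ≤ q)]; ring
    rw [hB, eq1]
    calc Real.exp (2 * C * β) * (54 * Real.exp (κ * β) * Real.exp (-m * ((q : ℝ) - 1)))
        ≤ Real.exp (2 * C * β) * (Real.exp (54 * β) * Real.exp (κ * β) *
          Real.exp (-m * ((q : ℝ) - 1))) := by gcongr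
      _ = Real.exp (2 * C * β + (54 * β + κ * β + -m * ((q : ℝ) - 1))) := by
          rw [Real.exp_add, Real.exp_add, Real.exp_add]
      _ ≤ _ := by
          refine Real.exp_le_exp.2 ?_
          nlinarith
  calc x ≤ x' * (1 + Real.exp (2 * C * β) * B) := h1
    _ ≤ x' * (1 + Real.exp ((54 + κ + 2 * C + m) * β - m * q)) := by gcongr
    _ ≤ _ := by
        refine mul_le_mul_of_nonneg_left ?_ hx'0.le
        have := Real.add_one_le_exp (Real.exp ((54 + κ + 2 * C + m) * β - m * q))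
        linarith

end T2H01.SE.PkgMBu

namespace T2H01.SE

open T2H02.TT

theorem pMBu (h3 : S_F3) (h5 : S_F5) (hMA : S_MAu) (hPC : S_PCu) : S_MBu := by
  intro N k hN hk P Q hPQ
  obtain ⟨CA, KA, hCA, hA'⟩ := hMA N k hN hk P Q hPQ
  obtain ⟨c, CP, KP, hc, hCP, hP''⟩ := hPC N k hN hk P Q hPQ
  refine ⟨c, 54 + CP + 2 * CA + c, KA + KP, hc, by linarith, ?_⟩
  intro L _ β hβ y y' q q' hy hq hqq
  have hL1 : (1 : ℝ) ≤ L := by exact_mod_cast NeZero.one_le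
  have hL0 : (0 : ℝ) < L := by linarith
  have hPA : (1 : ℝ) ≤ (L : ℝ) ^ KA := one_le_pow₀ hL1
  have hPP : (1 : ℝ) ≤ (L : ℝ) ^ KP := one_le_pow₀ hL1
  have hA := hA' L
  have hP := hP'' L
  obtain ⟨pA, hpA⟩ : ∃ p : ℝ, p = (L : ℝ) ^ KA := ⟨_, rfl⟩
  obtain ⟨pP, hpP⟩ : ∃ p : ℝ, p = (L : ℝ) ^ KP := ⟨_, rfl⟩
  rw [pow_add] at hβ ⊢
  rw [← hpA] at hPA hA
  rw [← hpP] at hPP hP
  rw [← hpA, ← hpP] at hβ ⊢
  have hAP : pA ≤ pA * pP := by nlinarith
  have hPA' : pP ≤ pA * pP := by nlinarith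
  have hAP1 : 1 ≤ pA * pP := by linarith
  obtain ⟨C, hCd⟩ : ∃ C : ℝ, C = CA * pA := ⟨_, rfl⟩
  obtain ⟨κ, hκd⟩ : ∃ κ : ℝ, κ = CP * pP := ⟨_, rfl⟩
  obtain ⟨m, hmd⟩ : ∃ m : ℝ, m = c / L := ⟨_, rfl⟩
  rw [← hCd] at hA
  rw [← hκd] at hP
  have hC : 1 ≤ C := by
    rw [hCd]
    exact one_le_mul_of_one_le_of_one_le hCA hPA
  have hκ1 : 1 ≤ κ := by
    rw [hκd]
    exact one_le_mul_of_one_le_of_one_le hCP hPP
  have hκ : 0 ≤ κ := by linarith
  have hmp : 0 < m := by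
    rw [hmd]
    positivity
  have hmc : m ≤ c := by
    rw [hmd]
    exact div_le_self hc.le hL1
  have hCC : 54 + κ + 2 * C + m ≤ (54 + CP + 2 * CA + c) * (pA * pP) := by
    have e1 : κ ≤ CP * (pA * pP) := by
      rw [hκd]
      exact mul_le_mul_of_nonneg_left hPA' (by linarith)
    have e2 : C ≤ CA * (pA * pP) := by
      rw [hCd]
      exact mul_le_mul_of_nonneg_left hAP (by linarith)
    have e3 : 54 + c ≤ (54 + c) * (pA * pP) := le_mul_of_one_le_right (by linarith) hAP1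
    linarith
  have hβκ : κ ≤ β := by linarith
  have hβ1 : 1 ≤ β := by linarith
  have hβ0 : 0 ≤ β := by linarith
  obtain ⟨kap, k1, k2', k3, k4, k5⟩ := hA β hβ0 hβ1
  have k2 : ∀ Λ a X, Real.exp (-C * β) ≤ kap Λ a X ∧ kap Λ a X ≤ Real.exp (C * β) := by
    intro Λ a X
    rw [neg_mul]
    exact k2' Λ a X
  have hP' : ∀ (Ω Δ A : Finset Pl) (n : ℕ), Δ ⊆ Ω → (∀ a ∈ A, ∀ b ∈ Nb n a, b ∈ Ω → b ∈ Δ) →
      ∀ f : Cf N L → ℝ, Measurable f → (∀ X, |f X| ≤ 1) →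
      Sys.dep {l | ∀ a ∈ st l, a ∈ Ω → a ∈ A} f →
      ∀ η η' : Cf N L, (∀ l, l ∉ Frl L Ω → η l = vc P Q l ∧ η' l = vc P Q l) →
        |(sysS N L k β hN hβ0).ker (hm N) Δ f η - (sysS N L k β hN hβ0).ker (hm N) Δ f η'| ≤
        6 * A.card * Real.exp (κ * β) * Real.exp (-m * n) := by
    intro Ω Δ A n g1 g2 f g3 g4 g5 η η' g6
    refine (hP β hβ0 hβκ Ω Δ A n g1 g2 f g3 g4 g5 η η' g6).trans (le_of_eq ?_)
    rw [mul_assoc (6 * (A.card : ℝ)), ← Real.exp_add]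
    congr 2
    rw [hmd]
    ring
  have hfin : Real.exp ((54 + κ + 2 * C + m) * β - m * q) ≤
      Real.exp ((54 + CP + 2 * CA + c) * (pA * pP) * β - c * q / L) := by
    refine Real.exp_le_exp.2 ?_
    have e1 := mul_le_mul_of_nonneg_right hCC hβ0
    have e2 : m * q = c * q / L := by
      rw [hmd]
      ring
    linarith
  suffices hsuff : ∀ T : Finset Pl, (∀ a ∈ T, 1 ≤ a.1) →
      ZZ k β (L := L) P Q (rc (-q', y) (0, y') ∪ T) * ZZ k β (L := L) P Q (rc (-q, y) (0, y')) ≤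
        ZZ k β (L := L) P Q (rc (-q', y) (0, y')) * ZZ k β (L := L) P Q (rc (-q, y) (0, y') ∪ T) *
          Real.exp (T.card * Real.exp ((54 + κ + 2 * C + m) * β - m * q)) by
    intro T hT
    refine (hsuff T hT).trans ?_
    have hZ0 : ∀ Λ : Finset Pl, Λ.Nonempty → 0 < ZZ k β (L := L) P Q Λ := by
      rintro Λ ⟨a, ha⟩
      exact (k5 Λ a ha).1
    have z1 := hZ0 (rc (-q', y) (0, y')) ⟨(0, y), by
      rw [PkgMB.mem_rc]
      simp only
      omega⟩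
    have z2 := hZ0 (rc (-q, y) (0, y') ∪ T) ⟨(0, y), by
      rw [Finset.mem_union, PkgMB.mem_rc]
      simp only
      omega⟩
    refine mul_le_mul_of_nonneg_left (Real.exp_le_exp.2 ?_) (mul_nonneg z1.le z2.le)
    exact mul_le_mul_of_nonneg_left hfin (Nat.cast_nonneg _)
  obtain ⟨e, he⟩ : ∃ e : ℝ, e = Real.exp ((54 + κ + 2 * C + m) * β - m * q) := ⟨_, rfl⟩
  rw [← he]
  have hZ : ∀ Λ : Finset Pl, Λ.Nonempty → 0 < ZZ k β (L := L) P Q Λ := by
    rintro Λ ⟨a, ha⟩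
    exact (k5 Λ a ha).1
  have hqq' : (q : ℤ) ≤ q' := by exact_mod_cast hqq
  intro T
  induction T using Finset.induction_on with
  | empty =>
    intro _
    simp
  | insert a T haT ih =>
    intro hT
    have ha1 : 1 ≤ a.1 := hT a (Finset.mem_insert_self _ _)
    have hT' : ∀ b ∈ T, 1 ≤ b.1 := fun b hb => hT b (Finset.mem_insert_of_mem hb)
    have ih' := ih hT'
    obtain ⟨R, hR⟩ : ∃ R, R = rc (-q, y) (0, y') := ⟨_, rfl⟩
    obtain ⟨R', hR'⟩ : ∃ R', R' = rc (-q', y) (0, y') := ⟨_, rfl⟩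
    have haR : a ∉ R := by
      rw [hR, PkgMB.mem_rc]
      simp only
      omega
    have haR' : a ∉ R' := by
      rw [hR', PkgMB.mem_rc]
      simp only
      omega
    have c0 := PkgMBu.cmpu h3 h5 hN P Q hβ0 hβ1 hκ hmp hC hP' y y' q q' hq hqq (insert a T) hT a ha1
      (kap (R ∪ insert a T) a) (k1 _ _) (k2 _ _) (k3 _ _)
    rw [← hR, ← hR'] at ih' c0 ⊢
    rw [← he] at c0
    have er : (R ∪ insert a T).erase a = R ∪ T := by
      ext x
      simp only [Finset.mem_erase, Finset.mem_union, Finset.mem_insert]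
      constructor
      · rintro ⟨h1, h2 | h2 | h2⟩
        · exact Or.inl h2
        · exact absurd h2 h1
        · exact Or.inr h2
      · rintro (h | h)
        · exact ⟨fun hx => haR (hx ▸ h), Or.inl h⟩
        · exact ⟨fun hx => haT (hx ▸ h), Or.inr (Or.inr h)⟩
    have er' : (R' ∪ insert a T).erase a = R' ∪ T := by
      ext x
      simp only [Finset.mem_erase, Finset.mem_union, Finset.mem_insert]
      constructor
      · rintro ⟨h1, h2 | h2 | h2⟩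
        · exact Or.inl h2
        · exact absurd h2 h1
        · exact Or.inr h2
      · rintro (h | h)
        · exact ⟨fun hx => haR' (hx ▸ h), Or.inl h⟩
        · exact ⟨fun hx => haT (hx ▸ h), Or.inr (Or.inr h)⟩
    have hkap : kap (R' ∪ insert a T) a = kap (R ∪ insert a T) a := by
      refine k4 _ _ _ fun b hb => ?_
      rw [PkgMB.mem_Nb] at hb
      push_cast at hb
      rw [Finset.mem_union, Finset.mem_union, hR, hR', PkgMB.mem_rc, PkgMB.mem_rc]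
      simp only
      constructor
      · rintro (h | h)
        · left; omega
        · exact Or.inr h
      · rintro (h | h)
        · left; omega
        · exact Or.inr h
    obtain ⟨p1, p2⟩ := k5 (R ∪ insert a T) a (by simp)
    obtain ⟨p1', p2'⟩ := k5 (R' ∪ insert a T) a (by simp)
    rw [er] at p2
    rw [er', hkap] at p2'
    obtain ⟨x, hx⟩ : ∃ x, x = (sysS N L k β hN hβ0).ker (hm N) (R ∪ insert a T)
      (kap (R ∪ insert a T) a) (vc P Q) := ⟨_, rfl⟩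
    obtain ⟨x', hx'⟩ : ∃ x', x' = (sysS N L k β hN hβ0).ker (hm N) (R' ∪ insert a T)
      (kap (R ∪ insert a T) a) (vc P Q) := ⟨_, rfl⟩
    rw [← hx] at p2 c0
    rw [← hx'] at p2' c0
    have hRn : R.Nonempty := ⟨(0, y), by
      rw [hR, PkgMB.mem_rc]
      simp only
      omega⟩
    have hRn' : R'.Nonempty := ⟨(0, y), by
      rw [hR', PkgMB.mem_rc]
      simp only
      omega⟩
    have z0 := hZ R hRn
    have z0' := hZ R' hRn'
    have z1' := hZ (R' ∪ T) (hRn'.mono Finset.subset_union_left)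
    rw [p2'] at z1'
    have hx'0 : 0 < x' := pos_of_mul_pos_right z1' p1'.le
    rw [p2, p2'] at ih'
    have hcard : (((insert a T).card : ℕ) : ℝ) * e = T.card * e + e := by
      rw [Finset.card_insert_of_notMem haT]
      push_cast
      ring
    rw [hcard, Real.exp_add]
    exact PkgMB.fin_alg ih' hx'0 c0 z0'.le p1.le (Real.exp_pos _).le

end T2H01.SE
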