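import Pool.Agent.T2H01.SE.Stm10
import Pool.Agent.T2H01.SE.PC
import Pool.Agent.T2H02.TT.P1u

/-!
# Package PCu : decay in domains with cold walls, uniformly in `L` (helper76)
-/

set_option autoImplicit false
set_option linter.unusedSectionVars false
set_option linter.unusedVariables false

noncomputable section

open MeasureTheory Matrix
open scoped Matrix.Norms.Frobenius

namespace T2H01.SE.PkgPCu

open T2H02.TT

/-- decay for the kernels of an abstract system, from the coupling theorem for its coarse graining -/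
lemma decay (h3 : S_F3) (h5 : S_F5) (hX : S_Xu) {ι Tm X : Type} [DecidableEq ι] [DecidableEq Tm]
    [MeasurableSpace X] (S : Sys ι Tm X) (μ : Measure X) [IsProbabilityMeasure μ]
    (g : Tm → (ι → X) → Prop) (hgm : ∀ τ, MeasurableSet {ω | g τ ω})
    (hgl : ∀ τ ω ω', (∀ i ∈ S.sp τ, ω i = ω' i) → (g τ ω ↔ g τ ω'))
    {β c K : ℝ} {M s : ℕ} (hβ1 : 1 < β) (hc : 0 < c) (hK : 0 < K) (hM : 0 < M) (hs : 1 ≤ s)
    (hMK : (M : ℝ) ≤ K * Real.log β) {p δ q : ℝ} (hp : 0 < p) (hδ : 0 < δ) (hq : 0 < q)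
    (hδq : δ ≤ q ^ 3) (hpq : p ≤ q ^ (3 * (4 * s + 4) ^ 2)) (hq2 : 72 * q ≤ 1 / 2)
    (hqc : 72 * q ≤ β ^ (-c))
    (hbad : ∀ b η, (coa S M hM).ker μ (Nb (2 * s) b) (fun ω => ind (Bads (coa S M hM) g s b ω)) η ≤ p)
    (hins : ∀ b, ∀ Λ : Finset Pl, b ∈ Λ → ∀ η η' : ι → X,
      (∀ i, (∀ a ∈ (coa S M hM).bl i, a ∈ Nb 2 b ∧ a ∉ Λ) → η i = η' i) →
      (∀ τ ∈ (coa S M hM).tms (Nb s b), (∀ a ∈ (coa S M hM).bt τ, a ∈ Nb s b ∧ a ∉ Λ) →
        g τ η ∧ g τ η') →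
      ∀ F : (ι → X) → ℝ, Measurable F → (∀ ω, 0 ≤ F ω ∧ F ω ≤ 1) →
        Sys.dep {i | ∀ a ∈ (coa S M hM).bl i, (a ∈ Nb 2 b ∧ a ∉ Λ) ∨ a = b} F →
        (coa S M hM).ker μ Λ F η ≤ (coa S M hM).ker μ Λ F η' + δ)
    (A Λ : Finset Pl) (n : ℕ) (hA : ∀ a ∈ A, Nb n a ⊆ Λ) (f : (ι → X) → ℝ) (hf : Measurable f)
    (hf1 : ∀ ω, |f ω| ≤ 1) (hfd : Sys.dep {i | ∀ a ∈ S.bl i, a ∈ A} f) (η η' : ι → X) :
    |S.ker μ Λ f η - S.ker μ Λ f η'| ≤
      6 * A.card * β ^ ((2 + s) * c) * Real.exp (-(c / (3 * K)) * n) := by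
  have hβ0 : 0 < β := by linarith
  have hcard : (0 : ℝ) ≤ A.card := Nat.cast_nonneg _
  have hs0 : (0 : ℝ) ≤ s := Nat.cast_nonneg _
  rcases Finset.eq_empty_or_nonempty A with hAe | hAne
  · -- the function is constant
    subst hAe
    have hconst : ∀ ω ω', f ω = f ω' := by
      intro ω ω'
      refine hfd ω ω' fun i hi => ?_
      obtain ⟨a, ha⟩ := S.bl_ne i
      exact absurd (hi a ha) (Finset.notMem_empty _)
    have hfc : f = fun _ => f η := funext fun ω => hconst ω η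
    obtain ⟨-, hcst, -⟩ := h5 ι Tm X S μ Λ
    rw [hfc, hcst, hcst]
    simp
  have hA1 : (1 : ℝ) ≤ A.card := by exact_mod_cast hAne.card_pos
  rcases Nat.lt_or_ge n ((2 * s + 1) * M) with hnM | hnM
  · -- small `n`
    obtain ⟨-, -, -, -, hbd, -⟩ := h5 ι Tm X S μ Λ
    have e1 := hbd 1 f hf hf1 η
    have e2 := hbd 1 f hf hf1 η'
    have e3 : |S.ker μ Λ f η - S.ker μ Λ f η'| ≤ 2 := by
      rw [abs_le] at e1 e2 ⊢
      constructor <;> linarith
    have hl : 0 < Real.log β := Real.log_pos hβ1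
    have hnr : (n : ℝ) ≤ (2 * s + 1) * (K * Real.log β) := by
      have h1 : (n : ℝ) ≤ (2 * s + 1) * M := by exact_mod_cast hnM.le
      have h2 : (2 * (s : ℝ) + 1) * M ≤ (2 * s + 1) * (K * Real.log β) :=
        mul_le_mul_of_nonneg_left hMK (by positivity)
      linarith
    have e4 : 1 ≤ β ^ ((2 + s) * c) * Real.exp (-(c / (3 * K)) * n) := by
      rw [Real.rpow_def_of_pos hβ0, ← Real.exp_add]
      refine Real.one_le_exp ?_
      have h1 : c / (3 * K) * n ≤ c / (3 * K) * ((2 * s + 1) * (K * Real.log β)) :=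
        mul_le_mul_of_nonneg_left hnr (by positivity)
      have e5 : c / (3 * K) * ((2 * s + 1) * (K * Real.log β)) = (2 * s + 1) * (c * Real.log β) / 3 := by
        field_simp
      rw [e5] at h1
      have h2 : 0 < c * Real.log β := by positivity
      nlinarith [mul_nonneg hs0 h2.le]
    calc |S.ker μ Λ f η - S.ker μ Λ f η'| ≤ 2 := e3
      _ ≤ 6 * 1 * 1 := by norm_num
      _ ≤ 6 * A.card * (β ^ ((2 + s) * c) * Real.exp (-(c / (3 * K)) * n)) :=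
          mul_le_mul (by linarith) e4 zero_le_one (by positivity)
      _ = _ := by ring
  -- large `n`
  obtain ⟨n', hn'⟩ : ∃ n', n' = n / M - 1 - 2 * s := ⟨_, rfl⟩
  obtain ⟨A', hA'⟩ : ∃ A', A' = A.image (blk M) := ⟨_, rfl⟩
  obtain ⟨Λ', hΛ'⟩ : ∃ Λ', Λ' = A'.biUnion (Nb (n' + 2 * s)) := ⟨_, rfl⟩
  have hsub : sit M Λ' ⊆ Λ := by
    rw [hΛ', hA', hn']
    exact PkgP1u.sit_sub hM hnM A Λ hA
  have key := hX ι Tm X (coa S M hM) μ g s p δ q hs hgm hgl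
    hbad hins hp hδ hq hδq hpq hq2 A' Λ' n'
    (fun a ha => by
      rw [hΛ']
      exact Finset.subset_biUnion_of_mem (Nb (n' + 2 * s)) ha)
    f hf hf1
    (fun ω ω' h => hfd ω ω' fun i hi => h i (by
      intro a ha
      obtain ⟨b, hb, rfl⟩ := Finset.mem_image.1 ha
      rw [hA']
      exact Finset.mem_image_of_mem _ (hi b hb)))
  obtain ⟨B, hB⟩ : ∃ B : ℝ, B = 6 * A.card * β ^ ((2 + s) * c) *
    Real.exp (-(c / (3 * K)) * n) := ⟨_, rfl⟩
  have hkey : ∀ ω ω', S.ker μ (sit M Λ') f ω ≤ S.ker μ (sit M Λ') f ω' + B := by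
    intro ω ω'
    have h6 := key ω ω'
    rw [coa_ker, coa_ker] at h6
    have h7 : (A'.card : ℝ) ≤ A.card := by
      rw [hA']
      exact_mod_cast Finset.card_image_le
    have h8 := PkgP1u.rate (n := n) (s := s) hβ1 hc hK hM hMK hq hqc
    rw [← hn'] at h8
    have h9 : 6 * (A'.card : ℝ) * (72 * q) ^ (n' / 3) ≤ B := by
      calc 6 * (A'.card : ℝ) * (72 * q) ^ (n' / 3) ≤
            6 * A.card * (β ^ ((2 + s) * c) * Real.exp (-(c / (3 * K)) * n)) :=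
            mul_le_mul (by linarith) h8 (by positivity) (by positivity)
        _ = B := by rw [hB]; ring
    have := (abs_le.1 (h6.trans h9)).2
    linarith
  -- consistency
  have hΔ := h5 ι Tm X S μ (sit M Λ')
  obtain ⟨-, -, -, hmea, hbd, -⟩ := hΔ
  have hgm' : Measurable (S.ker μ (sit M Λ') f) := hmea f hf ⟨1, hf1⟩
  have hgb : ∃ K, ∀ ω, |S.ker μ (sit M Λ') f ω| ≤ K := ⟨1, fun ω => hbd 1 f hf hf1 ω⟩
  have hcons : ∀ ω, S.ker μ Λ f ω = S.ker μ Λ (S.ker μ (sit M Λ') f) ω := by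
    intro ω
    have := h3 ι Tm X S μ (sit M Λ') Λ hsub f hf ⟨1, hf1⟩ (fun _ => 1)
      measurable_const ⟨1, fun _ => by simp⟩ (fun _ _ _ => rfl) ω
    simpa using this
  rw [hcons η, hcons η', ← hB, abs_le]
  have g1 := PkgP1.osc h5 S μ Λ _ hgm' hgb B hkey η η'
  have g2 := PkgP1.osc h5 S μ Λ _ hgm' hgb B hkey η' η
  constructor <;> linarith

theorem main (h3 : S_F3) (h5 : S_F5) (hX : S_Xu) (hZ : S_ZDu) : S_PCu := by
  intro N k hN hk P Q hPQ
  obtain ⟨c, C₀, K₀, hc, hC₀, HZ⟩ := hZ N k hN hk P Q hPQ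
  have hC0 : 0 < C₀ := by linarith
  refine ⟨c / (3 * C₀), 3 * C₀ * (c + 1), K₀, by positivity, by nlinarith, ?_⟩
  intro L _ β hβ hββ Ω Δ A n hΔ hA f hf hf1 hfd η η' hη
  have hL1 : (1 : ℝ) ≤ L := by exact_mod_cast Nat.one_le_iff_ne_zero.2 (NeZero.ne L)
  have hL0 : (0 : ℝ) < L := by linarith
  have hLK : (1 : ℝ) ≤ (L : ℝ) ^ K₀ := one_le_pow₀ hL1
  have hLK0 : (0 : ℝ) < (L : ℝ) ^ K₀ := by positivity
  have hββ' : C₀ * (L : ℝ) ^ K₀ ≤ β := by
    refine le_trans ?_ hββ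
    have : C₀ ≤ 3 * C₀ * (c + 1) := by nlinarith
    exact mul_le_mul_of_nonneg_right this hLK0.le
  have hβ1 : 1 < β := by nlinarith
  have hβ0 : 0 < β := by linarith
  have hN0 : 0 < N := by omega
  obtain ⟨M, s, hM, ε, p, δ, q, hs, hsb, hMK, hp, hδ, hq, hδq, hpq, hq2, hqc, HΩ⟩ := HZ L β hβ hββ'
  obtain ⟨hbad, hins⟩ := HΩ Ω
  obtain ⟨K, hK⟩ : ∃ K : ℝ, K = C₀ * L := ⟨_, rfl⟩
  have hK0 : 0 < K := by rw [hK]; positivity
  rw [← hK] at hMK
  obtain ⟨Λ, hΛ⟩ : ∃ Λ, Λ = Δ ∪ A.biUnion (Nb n) := ⟨_, rfl⟩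
  have hΛΩ : Λ ∩ Ω = Δ := by
    ext a
    rw [hΛ, Finset.mem_inter, Finset.mem_union, Finset.mem_biUnion]
    constructor
    · rintro ⟨h | ⟨b, hb, h⟩, h2⟩
      · exact h
      · exact hA b hb a h h2
    · intro h
      exact ⟨Or.inl h, hΔ h⟩
  have hf'm : Measurable fun X : Lv L Ω → SU N => f (xt P Q Ω X) := hf.comp (xt_meas P Q Ω)
  have hmain := decay h3 h5 hX (frz N L k β hN hβ P Q Ω) (hm N)
    (fun τ X => en k (xt P Q Ω X) τ ≤ ε)
    (fun τ => measurableSet_le ((en_cont k τ hN0).measurable.comp (xt_meas P Q Ω))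
      measurable_const)
    (fun τ ω ω' h => by
      have e : en k (xt P Q Ω ω) τ = en k (xt P Q Ω ω') τ := by
        refine en_loc k τ _ _ fun l hl => ?_
        by_cases hh : l ∈ Frl L Ω
        · rw [xt_of_mem P Q Ω _ l hh, xt_of_mem P Q Ω _ l hh]
          exact h ⟨l, hh⟩ (Finset.mem_filter.2 ⟨Finset.mem_univ _, hl⟩)
        · rw [xt_of_not P Q Ω _ l hh, xt_of_not P Q Ω _ l hh]
      rw [e])
    hβ1 hc hK0 hM hs hMK hp hδ hq hδq hpq hq2 hqc hbad hins A Λ n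
    (fun a ha => by
      rw [hΛ]
      exact (Finset.subset_biUnion_of_mem (Nb n) ha).trans Finset.subset_union_right)
    (fun X => f (xt P Q Ω X)) hf'm (fun X => hf1 _)
    (fun ω ω' h => hfd _ _ fun l hl => by
      by_cases hh : l ∈ Frl L Ω
      · rw [xt_of_mem P Q Ω _ l hh, xt_of_mem P Q Ω _ l hh]
        refine h ⟨l, hh⟩ fun a ha => ?_
        have ha' := Finset.mem_filter.1 (show a ∈ (st l).filter (· ∈ Ω) from ha)
        exact hl a ha'.1 ha'.2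
      · rw [xt_of_not P Q Ω _ l hh, xt_of_not P Q Ω _ l hh])
    (rs Ω η) (rs Ω η')
  have hconv : ∀ ω : Cf N L, (∀ l, l ∉ Frl L Ω → ω l = vc P Q l) →
      (frz N L k β hN hβ P Q Ω).ker (hm N) Λ (fun X => f (xt P Q Ω X)) (rs Ω ω) =
        (sysS N L k β hN hβ).ker (hm N) Δ f ω := by
    intro ω hω
    rw [frz_ker k β hN hβ P Q Ω Λ _ hf'm, hΛΩ, xt_rs P Q Ω ω hω]
    refine PkgPC.ker_congr _ _ _ _ _ _ fun ξ => ?_
    rw [xt_rs]
    intro l hl
    have hl' : l ∉ Frl L Δ := fun h => by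
      obtain ⟨a, h1, h2⟩ := (mem_Frl _ _).1 h
      exact hl ((mem_Frl _ _).2 ⟨a, h1, hΔ h2⟩)
    show glue (Frl L Δ) ξ ω l = _
    unfold glue
    rw [if_neg hl', hω l hl]
  rw [hconv η fun l hl => (hη l hl).1, hconv η' fun l hl => (hη l hl).2] at hmain
  refine hmain.trans ?_
  have hl : 0 < Real.log β := Real.log_pos hβ1
  have hlb : Real.log β ≤ β := (Real.log_le_sub_one_of_pos hβ0).trans (by linarith)
  have hs0 : (0 : ℝ) ≤ s := Nat.cast_nonneg _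
  have e1 : β ^ ((2 + s) * c) * Real.exp (-(c / (3 * K)) * n) ≤
      Real.exp (3 * C₀ * (c + 1) * (L : ℝ) ^ K₀ * β - c / (3 * C₀) * n / L) := by
    rw [Real.rpow_def_of_pos hβ0, ← Real.exp_add]
    refine Real.exp_le_exp.2 ?_
    have h1 : c / (3 * C₀) * n / L = c / (3 * K) * n := by
      rw [hK]
      field_simp
    rw [h1]
    have h2 : Real.log β * ((2 + s) * c) ≤ 3 * C₀ * (c + 1) * (L : ℝ) ^ K₀ * β := by
      have h3 : (2 + (s : ℝ)) ≤ 3 * C₀ * (L : ℝ) ^ K₀ := by nlinarith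
      calc Real.log β * ((2 + s) * c) ≤ β * ((3 * C₀ * (L : ℝ) ^ K₀) * (c + 1)) := by
            refine mul_le_mul hlb ?_ (by positivity) hβ0.le
            exact mul_le_mul h3 (by linarith) hc.le (by positivity)
        _ = _ := by ring
    linarith
  calc 6 * (A.card : ℝ) * β ^ ((2 + s) * c) * Real.exp (-(c / (3 * K)) * n) =
        6 * A.card * (β ^ ((2 + s) * c) * Real.exp (-(c / (3 * K)) * n)) := by ring
    _ ≤ 6 * A.card * Real.exp (3 * C₀ * (c + 1) * (L : ℝ) ^ K₀ * β - c / (3 * C₀) * n / L) :=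
        mul_le_mul_of_nonneg_left e1 (by positivity)

end T2H01.SE.PkgPCu

namespace T2H01.SE

open T2H02.TT

theorem pPCu (h3 : S_F3) (h5 : S_F5) (hX : S_Xu) (hZ : S_ZDu) : S_PCu := PkgPCu.main h3 h5 hX hZ

end T2H01.SE
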