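import Pool.Agent.T2H01.SE.Stm10
import Pool.Agent.T2H01.SE.TQ

/-!
# Package TUu : the torus, upper bound, polynomial thresholds in `L`
-/

set_option autoImplicit false
set_option linter.unusedSectionVars false

noncomputable section

open MeasureTheory Matrix
open scoped Matrix.Norms.Frobenius

namespace T2H01.SE

open T2H02.TT

theorem pTUu (hTP : S_TP) (hWDu : S_WDu) (hVS : S_VS) : S_TUu := by
  intro N k hN hk P Q hPQ ρ hρ
  obtain ⟨C₀, K₀, hC₀, hW⟩ := hWDu N k hN hk P Q hPQ (ρ / 2) (by linarith)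
  refine ⟨max (C₀ + 2) (6 / ρ), K₀, le_trans (by linarith) (le_max_left _ _), ?_⟩
  intro L _ β hβ A B _ _ hA hB
  have hL1 : (1 : ℝ) ≤ (L : ℝ) := by exact_mod_cast NeZero.one_le
  obtain ⟨ℓ, hℓ⟩ : ∃ ℓ : ℝ, ℓ = (L : ℝ) ^ K₀ := ⟨_, rfl⟩
  have hℓ1 : 1 ≤ ℓ := hℓ ▸ one_le_pow₀ hL1
  rw [← hℓ] at hβ hA hB
  have hCm : C₀ * ℓ + 2 ≤ max (C₀ + 2) (6 / ρ) * ℓ := by
    calc C₀ * ℓ + 2 ≤ (C₀ + 2) * ℓ := by nlinarith
      _ ≤ _ := by gcongr; exact le_max_left _ _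
  have hℓ0 : 0 ≤ C₀ * ℓ := by nlinarith
  have hββ₁ : C₀ * ℓ ≤ β := by linarith
  have hββ₂ : 6 / ρ ≤ β := by
    refine le_trans ?_ hβ
    calc 6 / ρ = 6 / ρ * 1 := by ring
      _ ≤ max (C₀ + 2) (6 / ρ) * ℓ := by
        refine mul_le_mul (le_max_right _ _) hℓ1 zero_le_one ?_
        exact le_trans (by positivity) (le_max_right (C₀ + 2) (6 / ρ))
  have hβ0 : 0 ≤ β := by linarith
  have hA2R : (2 : ℝ) ≤ A := by linarith
  have hB2R : (2 : ℝ) ≤ B := by linarith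
  have hA2 : 2 ≤ A := by exact_mod_cast hA2R
  have hB2 : 2 ≤ B := by exact_mod_cast hB2R
  obtain ⟨h1, -⟩ := hTP N k L hN P Q β hβ0 A B hA2 hB2
  set Λ := rc (1, 1) ((A : ℤ) - 1, (B : ℤ) - 1) with hΛ
  have hab1 : ((1, 1) : Pl).1 ≤ (((A : ℤ) - 1, (B : ℤ) - 1) : Pl).1 := by
    show (1 : ℤ) ≤ (A : ℤ) - 1
    omega
  have hab2 : ((1, 1) : Pl).2 ≤ (((A : ℤ) - 1, (B : ℤ) - 1) : Pl).2 := by
    show (1 : ℤ) ≤ (B : ℤ) - 1
    omega
  have hmem0 : (0 : Pl) ∈ cl Λ := by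
    rw [hΛ, PkgVS.mem_cl_rc hab1 hab2]
    simp
    omega
  have hmem1 : ((1, 1) : Pl) ∈ cl Λ := by
    rw [hΛ, PkgVS.mem_cl_rc hab1 hab2]
    simp
    omega
  have hvs : ∀ (n : ℤ) (η : Cf N L), Zf k β (dl (1, 1) n) Λ η = Zf k β (dl 0 n) Λ η := by
    intro n η
    refine hVS N k L hN β hβ0 _ _ hab1 hab2 _ _ η ?_
    have e1 : ∀ a ∈ cl Λ, ∑ x ∈ cl Λ, dl a n x = n := by
      intro a ha
      unfold dl
      rw [Finset.sum_ite_eq' (cl Λ) a (fun _ => n), if_pos ha]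
    rw [Finset.sum_sub_distrib, e1 _ hmem1, e1 _ hmem0, sub_self]
    exact dvd_zero _
  -- the number of sites
  have hcard : (Λ.card : ℝ) = ((A : ℝ) - 1) * ((B : ℝ) - 1) := by
    rw [hΛ]
    unfold rc
    rw [Finset.card_product, Int.card_Icc, Int.card_Icc]
    have e1 : ((A : ℤ) - 1 + 1 - 1).toNat = A - 1 := by omega
    have e2 : ((B : ℤ) - 1 + 1 - 1).toNat = B - 1 := by omega
    show (((((A : ℤ) - 1 + 1 - 1).toNat * ((B : ℤ) - 1 + 1 - 1).toNat : ℕ)) : ℝ) = _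
    rw [e1, e2, Nat.cast_mul, Nat.cast_sub (by omega), Nat.cast_sub (by omega)]
    norm_num
  have hAR : (2 : ℝ) ≤ A := by exact_mod_cast hA2
  have hBR : (2 : ℝ) ≤ B := by exact_mod_cast hB2
  have hcard4 : (A : ℝ) * B / 4 ≤ Λ.card := by
    rw [hcard]
    nlinarith
  have hexp : Real.exp (-β * (SS L k P Q + ρ)) * (A * B) ≤
      Real.exp (-β * (SS L k P Q + ρ / 2)) * Λ.card := by
    have e1 : Real.exp (-β * (SS L k P Q + ρ / 2)) =
        Real.exp (-β * (SS L k P Q + ρ)) * Real.exp (β * (ρ / 2)) := by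
      rw [← Real.exp_add]
      congr 1
      ring
    have e2 : (4 : ℝ) ≤ Real.exp (β * (ρ / 2)) := by
      have e3 : 6 ≤ β * ρ := (div_le_iff₀ hρ).1 hββ₂
      have e4 := Real.add_one_le_exp (β * (ρ / 2))
      linarith
    rw [e1]
    have e5 := Real.exp_pos (-β * (SS L k P Q + ρ))
    have e6 : (0 : ℝ) ≤ A * B / 4 := by positivity
    calc Real.exp (-β * (SS L k P Q + ρ)) * (A * B)
        = Real.exp (-β * (SS L k P Q + ρ)) * 4 * (A * B / 4) := by ring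
      _ ≤ Real.exp (-β * (SS L k P Q + ρ)) * Real.exp (β * (ρ / 2)) * Λ.card := by gcongr
  set κ : ℝ := Real.exp (-(Real.exp (-β * (SS L k P Q + ρ)) * (A * B))) with hκ
  have hκ0 : 0 ≤ κ := (Real.exp_pos _).le
  have hbd : ∀ η : Cf N L, ‖∑ n ∈ Finset.range N, om N n * (Zf k β (dl 0 n) Λ η : ℂ)‖ ≤
      κ * ∑ n ∈ Finset.range N, Zf k β (dl 0 n) Λ η := by
    intro η
    have e1 := hW L β (hℓ ▸ hββ₁) (1, 1) ((A : ℤ) - 1, (B : ℤ) - 1)
      (by
        show (((1 : ℤ)) : ℝ) + C₀ * (L : ℝ) ^ K₀ ≤ (((A : ℤ) - 1 : ℤ) : ℝ)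
        rw [← hℓ]
        push_cast
        linarith)
      (by
        show (((1 : ℤ)) : ℝ) + C₀ * (L : ℝ) ^ K₀ ≤ (((B : ℤ) - 1 : ℤ) : ℝ)
        rw [← hℓ]
        push_cast
        linarith) η
    rw [← hΛ] at e1
    simp only [hvs] at e1
    refine e1.trans ?_
    refine mul_le_mul_of_nonneg_right ?_
      (Finset.sum_nonneg fun n _ => PkgTQ.Zf_nonneg k β (dl 0 n) Λ η)
    rw [hκ]
    exact Real.exp_le_exp.2 (by linarith)
  clear_value κ
  set w : TC N A B L → ℝ := fun X => Real.exp (-β * ∑ τ ∈ bdt A B, en1 k (per X) τ) with hw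
  have hwm : Measurable w := by
    have h3 : Measurable fun X : TC N A B L => ∑ τ ∈ bdt A B, en1 k (per X) τ :=
      Finset.measurable_sum _ fun τ _ => (en1_cont k τ).measurable.comp (PkgTQ.per_meas A B)
    exact (h3.const_mul (-β)).exp
  have hw0 : ∀ X, 0 ≤ w X := fun X => (Real.exp_pos _).le
  have hw1 : ∀ X, w X ≤ 1 := by
    intro X
    rw [hw, Real.exp_le_one_iff]
    have : 0 ≤ ∑ τ ∈ bdt A B, en1 k (per X) τ := Finset.sum_nonneg fun τ _ => en1_nonneg k _ τ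
    nlinarith
  have hint : ∀ n : ℤ, Integrable (fun X : TC N A B L =>
      w X * Zf k β (dl 0 n) Λ (per X)) (Measure.infinitePi fun _ => hm N) := by
    intro n
    refine PkgRC.int_bdd (K := 1)
      (hwm.mul ((PkgTQ.Zf_meas k β (dl 0 n) Λ).comp (PkgTQ.per_meas A B))) fun X => ?_
    have h3 := PkgTQ.Zf_nonneg k β (dl 0 n) Λ (per X)
    have h4 := PkgTQ.Zf_le_one k β hβ0 (dl 0 n) Λ (per X)
    rw [abs_of_nonneg (mul_nonneg (hw0 X) h3)]
    exact mul_le_one₀ (hw1 X) h3 h4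
  have h1' : ∀ n : ℤ, TZ N L k β n A B = ∫ X : TC N A B L, w X * Zf k β (dl 0 n) Λ (per X)
      ∂(Measure.infinitePi fun _ => hm N) := h1
  -- the complex sum
  have e2 : ∑ n ∈ Finset.range N, om N n * (TZ N L k β n A B : ℂ) =
      ∫ X : TC N A B L, ∑ n ∈ Finset.range N,
        om N n * ((w X * Zf k β (dl 0 n) Λ (per X) : ℝ) : ℂ)
          ∂(Measure.infinitePi fun _ => hm N) := by
    rw [integral_finset_sum]
    · refine Finset.sum_congr rfl fun n _ => ?_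
      rw [integral_const_mul, integral_complex_ofReal, h1' (n : ℤ)]
    · intro n _
      exact ((hint n).ofReal).const_mul _
  have e3 : ∑ n ∈ Finset.range N, TZ N L k β n A B =
      ∫ X : TC N A B L, ∑ n ∈ Finset.range N, w X * Zf k β (dl 0 n) Λ (per X)
          ∂(Measure.infinitePi fun _ => hm N) := by
    rw [integral_finset_sum]
    · exact Finset.sum_congr rfl fun n _ => h1' (n : ℤ)
    · intro n _
      exact hint n
  rw [e2, e3, ← integral_const_mul]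
  refine norm_integral_le_of_norm_le ?_ (Filter.Eventually.of_forall fun X => ?_)
  · exact (integrable_finset_sum (Finset.range N) fun n _ => hint (n : ℤ)).const_mul κ
  · show ‖∑ n ∈ Finset.range N, om N n * ((w X * Zf k β (dl 0 n) Λ (per X) : ℝ) : ℂ)‖ ≤
      κ * ∑ n ∈ Finset.range N, w X * Zf k β (dl 0 n) Λ (per X)
    have e4 : ∑ n ∈ Finset.range N, om N n * ((w X * Zf k β (dl 0 n) Λ (per X) : ℝ) : ℂ) =
        (w X : ℂ) * ∑ n ∈ Finset.range N, om N n * (Zf k β (dl 0 n) Λ (per X) : ℂ) := by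
      rw [Finset.mul_sum]
      refine Finset.sum_congr rfl fun n _ => ?_
      push_cast
      ring
    have e5 : κ * ∑ n ∈ Finset.range N, w X * Zf k β (dl 0 n) Λ (per X) =
        w X * (κ * ∑ n ∈ Finset.range N, Zf k β (dl 0 n) Λ (per X)) := by
      rw [← Finset.mul_sum]
      ring
    rw [e4, e5, norm_mul, Complex.norm_real, Real.norm_of_nonneg (hw0 X)]
    exact mul_le_mul_of_nonneg_left (hbd (per X)) (hw0 X)

end T2H01.SE
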