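import Pool.Agent.T2H01.SE.Stm10
import Pool.Agent.T2H01.SE.UD

/-!
# Package UDu : freezing one more site of the torus, uniformly in `L`
-/

set_option autoImplicit false
set_option linter.unusedSectionVars false
set_option linter.unusedVariables false

noncomputable section

open MeasureTheory Matrix
open scoped Matrix.Norms.Frobenius

namespace T2H01.SE

open T2H02.TT

open PkgUD in
theorem pUDu (hF2 : S_F2) (hG3 : S_G3u) (_hVL : S_VL) : S_UDu := by
  intro N k hN _ P Q _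
  obtain ⟨C₀, K, hC₀, hG⟩ := hG3 N k hN
  have hN0 : 0 < N := by omega
  have hN1 : (1 : ℝ) ≤ N := by exact_mod_cast (by omega : 1 ≤ N)
  have hlog : 0 ≤ Real.log N := Real.log_nonneg hN1
  refine ⟨16 * (C₀ + Real.log N) + 1, K, by nlinarith, fun L _ β hβ1 F s hs => ?_⟩
  obtain ⟨-, hen, hwt⟩ := hG L
  have hL1 : (1 : ℝ) ≤ (L : ℝ) ^ K := one_le_pow₀ (by
    exact_mod_cast Nat.one_le_iff_ne_zero.2 (NeZero.ne L))
  obtain ⟨C₁, hC₁⟩ : ∃ C₁ : ℝ, C₁ = C₀ * (L : ℝ) ^ K := ⟨_, rfl⟩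
  rw [← hC₁] at hen
  have hC₁0 : 0 ≤ C₁ := by rw [hC₁]; positivity
  have hβ : 0 ≤ β := by linarith
  have hc : 0 ≤ (C₁ + Real.log N) * β := by positivity
  have hfin : 16 * ((C₁ + Real.log N) * β) ≤ (16 * (C₀ + Real.log N) + 1) * (L : ℝ) ^ K * β := by
    have h1 : C₁ + Real.log N ≤ (C₀ + Real.log N) * (L : ℝ) ^ K := by
      rw [hC₁]
      nlinarith
    have h2 : 16 * (C₁ + Real.log N) ≤ (16 * (C₀ + Real.log N) + 1) * (L : ℝ) ^ K := by
      nlinarith
    calc 16 * ((C₁ + Real.log N) * β) = 16 * (C₁ + Real.log N) * β := by ring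
      _ ≤ _ := mul_le_mul_of_nonneg_right h2 hβ
  have hw : ∀ (τ : Tm) (X : Cf N L), Real.exp (-((C₁ + Real.log N) * β)) ≤ wt k β τ X := by
    intro τ X
    refine le_trans ?_ (hwt β X τ hβ).1
    have e1 : Real.exp (-β * en k X τ) / N = Real.exp (-β * en k X τ - Real.log N) := by
      rw [Real.exp_sub, Real.exp_log (by linarith)]
    rw [e1]
    refine Real.exp_le_exp.2 ?_
    have e2 := mul_le_mul_of_nonneg_left (hen X τ) hβ
    nlinarith
  refine ⟨kpf_meas k β P Q F s, fun X => ?_, kpf_dep k β P Q F s,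
    fun F' h => kpf_congr k β P Q F F' s h, fun A B _ _ hA hB hF => ⟨?_, ?_⟩⟩
  · have h := kpf_bd k β _ hβ hN0 hc hw P Q F s X
    constructor
    · refine le_trans (Real.exp_le_exp.2 ?_) h.1
      linarith
    · refine le_trans h.2 (Real.exp_le_exp.2 ?_)
      linarith
  · exact TY_pos k β _ hβ hN0 hw P Q F
  · exact main_id hF2 hA hB k β _ hβ hN0 hc hw P Q F hF s hs

end T2H01.SE
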