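import Pool.Agent.T2H01.SE.Stm10
import Pool.Agent.T2H01.SE.UE

/-!
# Package UEu : the cost of freezing a site is local, uniformly in `L`
-/

set_option autoImplicit false
set_option linter.unusedSectionVars false

noncomputable section

open MeasureTheory Matrix
open scoped Matrix.Norms.Frobenius

namespace T2H01.SE.PkgUEu

open T2H02.TT T2H01.SE.PkgUE

/-- the kernel is nearly constant -/
lemma near_vc' (h5 : S_F5) {N k L : ℕ} [NeZero L] (hN : 2 ≤ N) (P Q : SU N)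
    {β C : ℝ} {bd : ℕ → ℝ} (hβ : 0 ≤ β)
    (hPC : ∀ (Ω Δ A : Finset Pl) (n : ℕ), Δ ⊆ Ω → (∀ a ∈ A, ∀ b ∈ Nb n a, b ∈ Ω → b ∈ Δ) →
      ∀ f : Cf N L → ℝ, Measurable f → (∀ X, |f X| ≤ 1) →
      Sys.dep {l | ∀ a ∈ st l, a ∈ Ω → a ∈ A} f →
      ∀ η η' : Cf N L, (∀ l, l ∉ Frl L Ω → η l = vc P Q l ∧ η' l = vc P Q l) →
        |(sysS N L k β hN hβ).ker (hm N) Δ f η - (sysS N L k β hN hβ).ker (hm N) Δ f η'| ≤
        6 * A.card * bd n)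
    {F : Set Pl} {s : Pl} {r : ℕ} (hr : 2 ≤ r) (Δ Ω : Finset Pl)
    (hΔ : ∀ a, a ∈ Δ ↔ a ∈ Nb r s ∧ a ∉ F) (hΩ : ∀ a, a ∈ Ω ↔ a ∈ Nb (r + 1) s ∧ a ∉ F)
    (f : Cf N L → ℝ) (hf : Measurable f)
    (hf1 : ∀ X, Real.exp (-(C * β)) ≤ f X ∧ f X ≤ Real.exp (C * β))
    (hfd : Sys.dep {l | ∀ b ∈ st l, b ∈ Nb 1 s} f) (Y : Cf N L) :
    |(sysS N L k β hN hβ).ker (hm N) Δ f (fzF P Q F Y) -
      (sysS N L k β hN hβ).ker (hm N) Δ f (vc P Q)| ≤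
        Real.exp (C * β) * (54 * bd (r - 1)) := by
  classical
  obtain ⟨S, hS⟩ : ∃ S, S = sysS N L k β hN hβ := ⟨_, rfl⟩
  obtain ⟨η, hη⟩ : ∃ η : Cf N L, η = fun l => if l ∈ Frl L Ω then fzF P Q F Y l else vc P Q l :=
    ⟨_, rfl⟩
  have hr1 : ((r + 1 : ℕ) : ℤ) = r + 1 := by push_cast; rfl
  have hr2 : ((r - 1 : ℕ) : ℤ) = r - 1 := by
    push_cast [Nat.cast_sub (by omega : 1 ≤ r)]; ring
  have h1 : (sysS N L k β hN hβ).ker (hm N) Δ f (fzF P Q F Y) =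
      (sysS N L k β hN hβ).ker (hm N) Δ f η := by
    rw [← hS]
    refine (h5 _ _ _ S (hm N) Δ).2.2.2.2.2.2 _ f hfd _ _ fun l hl => ?_
    rw [hη]
    simp only
    by_cases hlΩ : l ∈ Frl L Ω
    · rw [if_pos hlΩ]
    · rw [if_neg hlΩ]
      have hst : ∀ a ∈ st l, a ∈ Nb (r + 1) s := by
        intro a ha
        rcases hl.2 with h2 | ⟨τ, hτ, hlτ⟩
        · have h3 := h2 a ha
          rw [PkgUE.mem_Nb] at h3 ⊢
          rw [hr1]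
          push_cast at h3
          omega
        · rw [hS] at hτ hlτ
          have hτ' : τ ∈ tml Δ := hτ
          have hlτ' : l ∈ (spt τ : Finset (Lk L)) := hlτ
          rw [mem_tml] at hτ'
          obtain ⟨c, hc, hcΔ⟩ := hτ'
          have hca := diam_cor τ a ((cor_iff (L := L) τ a).2 ⟨l, hlτ', ha⟩) c hc
          have h3 := ((hΔ c).1 hcΔ).1
          rw [PkgUE.mem_Nb] at h3 ⊢
          rw [hr1]
          unfold near at hca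
          rw [abs_le, abs_le] at hca
          omega
      unfold fzF
      rw [if_pos]
      intro a ha
      by_contra hna
      apply hlΩ
      rw [mem_Frl]
      exact ⟨a, ha, (hΩ a).2 ⟨hst a ha, hna⟩⟩
  rw [h1]
  have hE : 0 < Real.exp (C * β) := Real.exp_pos _
  obtain ⟨g, hg⟩ : ∃ g : Cf N L → ℝ, g = fun X => (Real.exp (C * β))⁻¹ * f X := ⟨_, rfl⟩
  have hgm : Measurable g := by rw [hg]; exact measurable_const.mul hf
  have hg1 : ∀ X, |g X| ≤ 1 := by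
    intro X
    rw [hg]
    simp only
    rw [abs_mul, abs_of_pos (inv_pos.2 hE), inv_mul_le_iff₀ hE, mul_one, abs_le]
    have := (hf1 X).1
    have h0 := Real.exp_pos (-(C * β))
    exact ⟨by linarith, (hf1 X).2⟩
  have hsub : Δ ⊆ Ω := by
    intro a ha
    rw [hΔ, PkgUE.mem_Nb] at ha
    rw [hΩ, PkgUE.mem_Nb, hr1]
    refine ⟨?_, ha.2⟩
    have := ha.1
    omega
  have hnb : ∀ a ∈ Nb 1 s, ∀ b ∈ Nb (r - 1) a, b ∈ Ω → b ∈ Δ := by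
    intro a ha b hb hbΩ
    rw [hΔ]
    refine ⟨?_, ((hΩ b).1 hbΩ).2⟩
    rw [PkgUE.mem_Nb] at ha hb ⊢
    rw [hr2] at hb
    push_cast at ha
    omega
  have hgd : Sys.dep {l | ∀ b ∈ st l, b ∈ Ω → b ∈ Nb 1 s} g := by
    intro ω ω' h
    rw [hg]
    simp only
    rw [hfd ω ω' fun i hi => h i fun b hb _ => hi b hb]
  have h := hPC Ω Δ (Nb 1 s) (r - 1) hsub hnb g hgm hg1 hgd η (vc P Q) fun l hl => ⟨by
    rw [hη]
    simp only
    rw [if_neg hl], rfl⟩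
  rw [card_Nb1, ← hS] at h
  have hfg : f = fun X => Real.exp (C * β) * g X := by
    funext X
    rw [hg]
    simp only
    rw [mul_inv_cancel_left₀ hE.ne']
  have hlin : ∀ η, S.ker (hm N) Δ f η = Real.exp (C * β) * S.ker (hm N) Δ g η := by
    intro η
    conv_lhs => rw [hfg]
    exact ((h5 _ _ _ S (hm N) Δ).2.2.1 g g hgm ⟨1, hg1⟩ hgm ⟨1, hg1⟩ η).2.2 _
  rw [← hS, hlin, hlin, ← mul_sub, abs_mul, abs_of_pos hE]
  refine mul_le_mul_of_nonneg_left (h.trans (le_of_eq ?_)) hE.le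
  push_cast
  ring

end T2H01.SE.PkgUEu

namespace T2H01.SE

open T2H02.TT PkgUE PkgUEu

theorem pUEu (h5 : S_F5) (hUC : S_UC) (hUD : S_UDu) (hPC : S_PCu) : S_UEu := by
  intro N k hN hk P Q hPQ
  obtain ⟨C₁, K₁, hC₁, hD⟩ := hUD N k hN hk P Q hPQ
  obtain ⟨c, Cp, Kp, hc, hCp, hP⟩ := hPC N k hN hk P Q hPQ
  refine ⟨c, 108 + 2 * C₁ + Cp + c, K₁ + Kp, hc, by linarith, ?_⟩
  intro L _ β hβ A B A' B' _ _ _ _ r hr hA hB hA' hB' F F' s hF hF' hs hFF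
  classical
  have hL1 : (1 : ℝ) ≤ (L : ℝ) := by exact_mod_cast Nat.one_le_iff_ne_zero.2 (NeZero.ne L)
  have hLK : (1 : ℝ) ≤ (L : ℝ) ^ K₁ := one_le_pow₀ hL1
  have hLP : (1 : ℝ) ≤ (L : ℝ) ^ Kp := one_le_pow₀ hL1
  have hLL : (1 : ℝ) ≤ (L : ℝ) ^ (K₁ + Kp) := one_le_pow₀ hL1
  have hK1 : (L : ℝ) ^ K₁ ≤ (L : ℝ) ^ (K₁ + Kp) := pow_le_pow_right₀ hL1 (by omega)
  have hK2 : (L : ℝ) ^ Kp ≤ (L : ℝ) ^ (K₁ + Kp) := pow_le_pow_right₀ hL1 (by omega)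
  have hβ1 : 1 ≤ β := by nlinarith
  have hβp : Cp * (L : ℝ) ^ Kp ≤ β := by
    refine le_trans ?_ hβ
    exact mul_le_mul (by linarith) hK2 (by linarith) (by linarith)
  have hβ0 : 0 ≤ β := by linarith
  obtain ⟨C, hCd⟩ : ∃ C : ℝ, C = C₁ * (L : ℝ) ^ K₁ := ⟨_, rfl⟩
  have hr1 : ((r + 1 : ℕ) : ℤ) = r + 1 := by push_cast; rfl
  have hs' : s ∉ F' := by
    rw [← hFF s (by rw [PkgUE.mem_Nb]; omega)]
    exact hs
  have hP' := hP L β hβ0 hβp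
  obtain ⟨d1, d2, d3, d4, d5⟩ := hD L β hβ1 F s hs
  rw [← hCd] at d2
  obtain ⟨-, -, -, -, d5'⟩ := hD L β hβ1 F' s hs'
  have hkk : (kpf k β P Q F s : Cf N L → ℝ) = kpf k β P Q F' s := d4 F' fun a ha => by
    apply hFF
    rw [PkgUE.mem_Nb] at ha ⊢
    rw [hr1]
    push_cast at ha
    omega
  rw [← hkk] at d5'
  obtain ⟨z0, zx⟩ := d5 A B (by omega) (by omega) hF
  obtain ⟨z0', zx'⟩ := d5' A' B' (by omega) (by omega) hF'
  obtain ⟨f, hf⟩ : ∃ f : Cf N L → ℝ, f = kpf k β P Q F s := ⟨_, rfl⟩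
  rw [← hf] at d1 d2 d3 zx zx'
  obtain ⟨Δ, hΔd⟩ : ∃ Δ : Finset Pl, Δ = (Nb r s).filter fun a => a ∉ F := ⟨_, rfl⟩
  obtain ⟨Ω, hΩd⟩ : ∃ Ω : Finset Pl, Ω = (Nb (r + 1) s).filter fun a => a ∉ F := ⟨_, rfl⟩
  have hΔ : ∀ a, a ∈ Δ ↔ a ∈ Nb r s ∧ a ∉ F := fun a => by rw [hΔd, Finset.mem_filter]
  have hΩ : ∀ a, a ∈ Ω ↔ a ∈ Nb (r + 1) s ∧ a ∉ F := fun a => by rw [hΩd, Finset.mem_filter]
  have hsubNb : ∀ a ∈ Nb r s, a ∈ Nb (r + 1) s := by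
    intro a ha
    rw [PkgUE.mem_Nb] at ha ⊢
    rw [hr1]
    omega
  have hΔ' : ∀ a, a ∈ Δ ↔ a ∈ Nb r s ∧ a ∉ F' := fun a => by
    rw [hΔ]
    refine and_congr_right fun ha => ?_
    rw [hFF a (hsubNb a ha)]
  have hΩ' : ∀ a, a ∈ Ω ↔ a ∈ Nb (r + 1) s ∧ a ∉ F' := fun a => by
    rw [hΩ]
    refine and_congr_right fun ha => ?_
    rw [hFF a ha]
  have hfK : ∀ X, |f X| ≤ Real.exp (C * β) := fun X => by
    rw [abs_le]
    have := (d2 X).1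
    have h0 := Real.exp_pos (-(C * β))
    have h1 := Real.exp_pos (C * β)
    exact ⟨by linarith, (d2 X).2⟩
  have hdep : Sys.dep {l | ∀ a ∈ st l, a ∈ Nb (r + 1) s} f := by
    intro ω ω' h
    refine d3 ω ω' fun l hl => h l fun a ha => ?_
    have := hl a ha
    rw [PkgUE.mem_Nb] at this ⊢
    rw [hr1]
    push_cast at this
    omega
  have u1 := hUC N k L hN P Q β hβ0 A B F hF s r hA hB Δ (fun a ha => (hΔ a).1 ha) f d1
    ⟨_, hfK⟩ hdep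
  have u2 := hUC N k L hN P Q β hβ0 A' B' F' hF' s r hA' hB' Δ (fun a ha => (hΔ' a).1 ha) f d1
    ⟨_, hfK⟩ hdep
  rw [u1] at zx
  rw [u2] at zx'
  obtain ⟨g, hg⟩ : ∃ g : Cf N L → ℝ, g = (sysS N L k β hN hβ0).ker (hm N) Δ f := ⟨_, rfl⟩
  obtain ⟨e, he⟩ : ∃ e : ℝ, e = Real.exp (C * β) * (54 *
      (fun n : ℕ => Real.exp (Cp * (L : ℝ) ^ Kp * β - c * n / L)) (r - 1)) := ⟨_, rfl⟩
  have n1 := fun Y => near_vc' (bd := fun n : ℕ => Real.exp (Cp * (L : ℝ) ^ Kp * β - c * n / L))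
    h5 hN P Q hβ0 hP' hr Δ Ω hΔ hΩ f d1 d2 d3 Y
  have n2 := fun Y => near_vc' (bd := fun n : ℕ => Real.exp (Cp * (L : ℝ) ^ Kp * β - c * n / L))
    h5 hN P Q hβ0 hP' hr Δ Ω hΔ' hΩ' f d1 d2 d3 Y
  rw [← hg] at zx zx'
  simp only [← hg, ← he] at n1 n2
  have hgm : Measurable g := by
    rw [hg]
    exact (h5 _ _ _ (sysS N L k β hN hβ0) (hm N) Δ).2.2.2.1 f d1 ⟨_, hfK⟩
  have hgK : ∀ X, |g X| ≤ Real.exp (C * β) := by
    rw [hg]
    exact (h5 _ _ _ (sysS N L k β hN hβ0) (hm N) Δ).2.2.2.2.1 _ f d1 hfK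
  have hglo : ∀ X, Real.exp (-(C * β)) ≤ g X := by
    intro X
    rw [hg, ← (h5 _ _ _ (sysS N L k β hN hβ0) (hm N) Δ).2.1 (Real.exp (-(C * β))) X]
    exact ((h5 _ _ _ (sysS N L k β hN hβ0) (hm N) Δ).2.2.1 _ _ measurable_const
      ⟨_, fun _ => le_rfl⟩ d1 ⟨_, hfK⟩ X).1 fun ξ => (d2 _).1
  have i1 := (integ (A := A) (B := B) k β hβ0 hN P Q F g hgm _ (g (vc P Q) - e) (g (vc P Q) + e)
    hgK (fun X => by have := (abs_le.1 (n1 X)).1; linarith)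
    (fun X => by have := (abs_le.1 (n1 X)).2; linarith)).2
  have i2 := (integ (A := A') (B := B') k β hβ0 hN P Q F' g hgm _ (g (vc P Q) - e)
    (g (vc P Q) + e) hgK (fun X => by have := (abs_le.1 (n2 X)).1; linarith)
    (fun X => by have := (abs_le.1 (n2 X)).2; linarith)).1
  have i3 := (integ (A := A') (B := B') k β hβ0 hN P Q F' g hgm _ (Real.exp (-(C * β)))
    (Real.exp (C * β)) hgK (fun X => hglo _) (fun X => (le_abs_self _).trans (hgK _))).1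
  rw [← zx] at i1
  rw [← zx'] at i2 i3
  have he0 : 0 ≤ e := by rw [he]; positivity
  refine fin_real z0 z0' i1 i2 i3 (Real.exp_pos _) he0 ?_
  -- the numbers
  have hL0 : (0 : ℝ) < L := by linarith
  have e108 : (108 : ℝ) ≤ Real.exp (108 * β) := by
    have := Real.add_one_le_exp (108 * β)
    nlinarith
  have eq1 : ((r - 1 : ℕ) : ℝ) = (r : ℝ) - 1 := by
    push_cast [Nat.cast_sub (by omega : 1 ≤ r)]; ring
  have hcL : c / L ≤ c * β := by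
    rw [div_le_iff₀ hL0]
    have h1 : c * 1 ≤ c * β := mul_le_mul_of_nonneg_left hβ1 hc.le
    have h2 : c * β * 1 ≤ c * β * L := mul_le_mul_of_nonneg_left hL1 (by positivity)
    linarith
  have hcr : c * ((r : ℝ) - 1) / L = c * r / L - c / L := by ring
  have hcoef : (108 + 2 * C + Cp * (L : ℝ) ^ Kp + c) * β ≤
      (108 + 2 * C₁ + Cp + c) * (L : ℝ) ^ (K₁ + Kp) * β := by
    refine mul_le_mul_of_nonneg_right ?_ hβ0
    rw [hCd]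
    have h1 : C₁ * (L : ℝ) ^ K₁ ≤ C₁ * (L : ℝ) ^ (K₁ + Kp) :=
      mul_le_mul_of_nonneg_left hK1 (by linarith)
    have h2 : Cp * (L : ℝ) ^ Kp ≤ Cp * (L : ℝ) ^ (K₁ + Kp) :=
      mul_le_mul_of_nonneg_left hK2 (by linarith)
    have h3 : c ≤ c * (L : ℝ) ^ (K₁ + Kp) := by nlinarith
    nlinarith
  rw [he]
  simp only
  rw [eq1, hcr]
  calc 2 * (Real.exp (C * β) * (54 * Real.exp (Cp * (L : ℝ) ^ Kp * β - (c * r / L - c / L))))
      = Real.exp (C * β) * (108 * Real.exp (Cp * (L : ℝ) ^ Kp * β - (c * r / L - c / L))) := by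
        ring
    _ ≤ Real.exp (C * β) * (Real.exp (108 * β) *
          Real.exp (Cp * (L : ℝ) ^ Kp * β - (c * r / L - c / L))) := by gcongr
    _ = Real.exp (C * β + (108 * β + (Cp * (L : ℝ) ^ Kp * β - (c * r / L - c / L)))) := by
        rw [Real.exp_add, Real.exp_add]
    _ ≤ Real.exp (-(C * β) + ((108 + 2 * C₁ + Cp + c) * (L : ℝ) ^ (K₁ + Kp) * β - c * r / L)) := by
        refine Real.exp_le_exp.2 ?_
        nlinarith
    _ = Real.exp (-(C * β)) *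
          Real.exp ((108 + 2 * C₁ + Cp + c) * (L : ℝ) ^ (K₁ + Kp) * β - c * r / L) :=
        Real.exp_add _ _

end T2H01.SE
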