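import Pool.Agent.T2H01.SE.Stm10
import Pool.Agent.T2H01.SE.UG

/-!
# Package UGu : the square inequality for the torus, polynomial thresholds in `L`
-/

set_option autoImplicit false

noncomputable section

open MeasureTheory Matrix
open scoped Matrix.Norms.Frobenius

namespace T2H01.SE

open T2H02.TT

open PkgUG

theorem pUGu (hUEu : S_UEu) (hUF : S_UF) (hUDu : S_UDu) : S_UGu := by
  intro N k hN hk P Q hPQ
  obtain ⟨c₁, C₁, K₁, hc₁, hC₁, h1'⟩ := hUEu N k hN hk P Q hPQ
  obtain ⟨C', K', _, h2'⟩ := hUDu N k hN hk P Q hPQ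
  refine ⟨c₁ / 2, C₁ + 1 + 4 * c₁, K₁, by positivity, by linarith, ?_⟩
  intro L _ β hβ' a b _ _ _ ha hb
  have hL1 : (1 : ℝ) ≤ (L : ℝ) := by exact_mod_cast NeZero.one_le
  obtain ⟨ℓ, hℓ⟩ : ∃ ℓ : ℝ, ℓ = (L : ℝ) ^ K₁ := ⟨_, rfl⟩
  have hℓ1 : 1 ≤ ℓ := hℓ ▸ one_le_pow₀ hL1
  have h1 := h1' L
  have h2 := h2' L
  rw [← hℓ] at hβ' h1 ⊢
  obtain ⟨m, hmdef⟩ : ∃ m : ℝ, m = c₁ / L := ⟨_, rfl⟩
  obtain ⟨C, hCdef⟩ : ∃ C : ℝ, C = C₁ * ℓ := ⟨_, rfl⟩
  have hL0 : (0 : ℝ) < L := by linarith
  have hm : 0 < m := by rw [hmdef]; positivity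
  have hmc : m ≤ c₁ := by
    rw [hmdef]
    exact div_le_self hc₁.le hL1
  have hβ : C₁ * ℓ ≤ β := le_trans (by nlinarith) hβ'
  have hβ1 : 1 ≤ β := le_trans (by nlinarith) hβ'
  -- positivity
  have pos : ∀ (F : Set Pl) (A B : ℕ) [NeZero A] [NeZero B], ((1 : ℤ), (0 : ℤ)) ∉ F → 8 ≤ A →
      8 ≤ B → pse A B F → 0 < TY N L k β P Q F A B := by
    intro F A B _ _ hF hA hB hp
    exact ((h2 β hβ1 F _ hF).2.2.2.2 A B hA hB hp).1
  set M : ℕ := min a b with hM
  have hMa : M ≤ a := min_le_left a b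
  have hMb : M ≤ b := min_le_right a b
  have hM10 : 10 ≤ M := le_min ha hb
  obtain ⟨r, hr, hr1, hr2⟩ : ∃ r : ℕ, 2 ≤ r ∧ 2 * r + 4 ≤ M ∧ M ≤ 2 * r + 7 :=
    ⟨M / 2 - 3, by omega, by omega, by omega⟩
  set E : ℝ := Real.exp (Real.exp (C₁ * ℓ * β - c₁ * r / L)) with hE
  have hE0 : 0 < E := Real.exp_pos _
  have hra : (r : ℤ) + 1 < a := by omega
  -- the two stages
  have stage : ∀ (F₀ : Set Pl) (c : ℤ), pse (2 * a) b F₀ → ((1 : ℤ), (0 : ℤ)) ∉ F₀ →
      ¬ (a : ℤ) ∣ 1 - c → (∀ x : Pl, |x.1 - c| < a → x ∉ F₀) →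
      TY N L k β P Q (F₀ ∪ line (2 * a) b c (b : ℤ)) (2 * a) b * TY N L k β P Q ∅ a b ≤
        TY N L k β P Q (line a b c (b : ℤ)) a b * TY N L k β P Q F₀ (2 * a) b * E ^ b := by
    intro F₀ c hp hF₀ hc hx
    have h2c : ¬ ((2 * a : ℕ) : ℤ) ∣ 1 - c := fun h => hc (dvd_trans ⟨2, by push_cast; ring⟩ h)
    have hb0 : 0 < b := by omega
    have := chain (fun t => TY N L k β P Q (F₀ ∪ line (2 * a) b c (t : ℤ)) (2 * a) b)
      (fun t => TY N L k β P Q (∅ ∪ line a b c (t : ℤ)) a b) E b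
      (fun t _ => pos _ _ _ (by
        rintro (h | h)
        · exact hF₀ h
        · exact h2c h.1) (by omega) (by omega) (pse_union hp (line_pse _ _ _ _)))
      (fun t _ => pos _ _ _ (by
        rintro (h | h)
        · exact h
        · exact hc h.1) (by omega) (by omega) (pse_union (pse_empty _ _) (line_pse _ _ _ _)))
      hE0 (fun t ht => by
        have h3 := h1 β hβ (2 * a) b a b r hr (by omega) (by omega) (by omega) (by omega)
          (F₀ ∪ line (2 * a) b c (t : ℤ)) (∅ ∪ line a b c (t : ℤ)) (c, (t : ℤ))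
          (pse_union hp (line_pse _ _ _ _)) (pse_union (pse_empty _ _) (line_pse _ _ _ _))
          (by
            rintro (h | h)
            · exact hx _ (by simp; omega) h
            · have h4 := h.2
              simp only at h4
              rw [Int.emod_eq_of_lt (by positivity) (by exact_mod_cast ht)] at h4
              exact lt_irrefl _ h4)
          (by
            intro x hxN
            rw [PkgUG.mem_Nb] at hxN
            have h5 : |x.1 - c| < (a : ℤ) := by
              rw [abs_lt]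
              obtain ⟨⟨g1, g2⟩, -⟩ := hxN
              simp only at g1 g2
              push_cast at g1 g2
              omega
            have h6 : |x.1 - c| < ((2 * a : ℕ) : ℤ) := by push_cast; omega
            rw [Set.mem_union, Set.mem_union]
            simp only [line, Set.mem_ofPred_eq, Set.mem_empty_iff_false, false_or]
            rw [dvd_small _ _ h5, dvd_small _ _ h6]
            have h7 := hx x h5
            tauto)
        rw [line_succ _ _ _ _ _ ht, line_succ _ _ _ _ _ ht] at h3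
        exact h3)
    simp only [Nat.cast_zero, line_zero _ _ hb0, Set.union_empty, Set.empty_union] at this
    exact this
  have hb0 : 0 < b := by omega
  have n1 : ¬ (a : ℤ) ∣ 1 := fun h => by
    have := Int.le_of_dvd one_pos h
    omega
  have n2 : ¬ ((2 * a : ℕ) : ℤ) ∣ 1 := fun h => by
    have := Int.le_of_dvd one_pos h
    push_cast at this
    omega
  -- first stage
  have s1 := stage ∅ 0 (pse_empty _ _) (by simp) (by simpa using n1) (by simp)
  have s2 := stage (line (2 * a) b 0 (b : ℤ)) a (line_pse _ _ _ _)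
    (fun h => n2 (by simpa using h.1)) (by
      intro h
      have : (a : ℤ) ∣ 1 := by
        have h3 := dvd_add h (dvd_refl (a : ℤ))
        simpa using h3
      exact n1 this) (by
      intro x hx h
      rw [abs_lt] at hx
      obtain ⟨i, hi⟩ := h.1
      push_cast at hi
      have h3 : 0 < 2 * (a : ℤ) * i := by linarith
      have h4 : 2 * (a : ℤ) * i < 2 * a := by linarith
      have h5 : 0 < i := by
        by_contra hc
        push Not at hc
        nlinarith
      nlinarith)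
  -- the sets
  have e1 : line a b 0 (b : ℤ) = {x : Pl | (a : ℤ) ∣ x.1} := by
    rw [line_full a b hb0]
    simp
  have e2 : line a b (a : ℤ) (b : ℤ) = {x : Pl | (a : ℤ) ∣ x.1} := by
    rw [line_full a b hb0]
    ext x
    simp
  have e3 : line (2 * a) b 0 (b : ℤ) ∪ line (2 * a) b (a : ℤ) (b : ℤ) =
      {x : Pl | (a : ℤ) ∣ x.1} := by
    rw [line_full _ b hb0, line_full _ b hb0]
    ext x
    simp only [Set.mem_union, Set.mem_ofPred_eq, sub_zero]
    constructor
    · rintro (h | h)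
      · exact dvd_trans ⟨2, by push_cast; ring⟩ h
      · have h3 : (a : ℤ) ∣ x.1 - a := dvd_trans ⟨2, by push_cast; ring⟩ h
        simpa using h3
    · rintro ⟨i, hi⟩
      rcases Int.even_or_odd' i with ⟨j, hj | hj⟩
      · left
        exact ⟨j, by rw [hi, hj]; push_cast; ring⟩
      · right
        exact ⟨j, by rw [hi, hj]; push_cast; ring⟩
  rw [Set.empty_union, e1] at s1
  rw [e3, e2] at s2
  have hf := hUF N k L hN P Q β (by linarith) a b (by omega) (by omega)
  rw [hf] at s2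
  have hX0 : 0 < TY N L k β P Q ∅ a b :=
    pos _ _ _ (by simp) (by omega) (by omega) (pse_empty _ _)
  have hd0 : 0 < TY N L k β P Q {x : Pl | (a : ℤ) ∣ x.1} a b := by
    refine pos _ _ _ n1 (by omega) (by omega) ?_
    rw [← e1]
    exact line_pse _ _ _ _
  have hY0 : 0 < TY N L k β P Q ∅ (2 * a) b :=
    pos _ _ _ (by simp) (by omega) (by omega) (pse_empty _ _)
  have key := comb hX0 hd0 (pow_pos hE0 b) s1 s2
  have hEe : E = Real.exp (Real.exp (C * β - m * r)) := by
    rw [hE, hCdef, hmdef]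
    congr 2
    ring
  rw [hEe] at key
  refine key.trans (mul_le_mul_of_nonneg_left
    ((fin_exp m C β r M b hm hβ1 hr2).trans ?_) hY0.le)
  refine Real.exp_le_exp.2 (mul_le_mul_of_nonneg_left (Real.exp_le_exp.2 ?_) (Nat.cast_nonneg _))
  have f1 : (C + 1 + 4 * m) * β ≤ (C₁ + 1 + 4 * c₁) * ℓ * β := by
    refine mul_le_mul_of_nonneg_right ?_ (by linarith)
    rw [hCdef]
    nlinarith
  have f2 : c₁ / 2 / (L : ℝ) * (M : ℝ) = m / 2 * M := by
    rw [hmdef]
    ring
  rw [f2]
  linarith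

end T2H01.SE
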