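import Pool.Agent.T2H01.SE.UHb

/-!
# Package UHu : the lower bound in boxes for all charges, uniformly in `L` (port of UH, helper57)
-/

set_option autoImplicit false

noncomputable section

open MeasureTheory Matrix
open scoped Matrix.Norms.Frobenius

namespace T2H01.SE

open T2H02.TT

open PkgUHb in
/-- boxes with cold walls, lower bound for all charges, uniformly in `L` -/
theorem pUHu (hVP : S_VPu) (hZT : S_ZT) (hRX : S_RX) (hRT : S_RT) (hMB : S_MBu) (hRA : S_RA)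
    (hMA : S_MAu) (hXD : S_XD) (hYE : S_YE) : S_UHu := by
  intro N k hN hk P Q hPQ ρ hρ
  obtain ⟨S₀, hS₀, hXD'⟩ := hXD N k hN hk
  obtain ⟨S₂, hYE'⟩ := hYE N hN
  obtain ⟨S₁, hS₁⟩ : ∃ S₁ : ℝ, S₁ = max S₂ 0 := ⟨_, rfl⟩
  have hS₁0 : 0 ≤ S₁ := by rw [hS₁]; exact le_max_right _ _
  have hS₂₁ : S₂ ≤ S₁ := by rw [hS₁]; exact le_max_left _ _
  obtain ⟨r, hrdef⟩ : ∃ r : ℝ, r = min ρ S₀ := ⟨_, rfl⟩
  have hr : 0 < r := by rw [hrdef]; exact lt_min hρ hS₀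
  have hrρ : r ≤ ρ := by rw [hrdef]; exact min_le_left _ _
  have hrS₀ : r ≤ S₀ := by rw [hrdef]; exact min_le_right _ _
  obtain ⟨CV, KV, hCV, hV'⟩ := hVP N k hN hk P Q hPQ (r / 2) (by positivity)
  obtain ⟨m₀, CB, KB, hm₀, hCB, hB'⟩ := hMB N k hN hk P Q hPQ
  obtain ⟨CA, KA, hCA, hA'⟩ := hMA N k hN hk P Q hPQ
  obtain ⟨K₀, hK₀⟩ : ∃ K₀ : ℝ, K₀ = (CB + S₁ + 1) / (4 * m₀) := ⟨_, rfl⟩
  have hK₀pos : 0 < K₀ := by rw [hK₀]; positivity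
  obtain ⟨G₀, hG₀⟩ : ∃ G₀ : ℝ, G₀ = 4 * K₀ + 11 := ⟨_, rfl⟩
  have hG₀1 : 1 ≤ G₀ := by rw [hG₀]; linarith
  obtain ⟨K, hKdef⟩ : ∃ K : ℕ, K = KV + 2 * KB + 2 := ⟨_, rfl⟩
  obtain ⟨CC, hCCdef⟩ : ∃ CC : ℝ, CC = max (max CV CB) (max K₀ (576 * G₀ ^ 2 / r ^ 3)) := ⟨_, rfl⟩
  have hCC1 : CV ≤ CC := by rw [hCCdef]; exact (le_max_left _ _).trans (le_max_left _ _)
  have hCC2 : CB ≤ CC := by rw [hCCdef]; exact (le_max_right _ _).trans (le_max_left _ _)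
  have hCC3 : K₀ ≤ CC := by rw [hCCdef]; exact (le_max_left _ _).trans (le_max_right _ _)
  have hCC4 : 576 * G₀ ^ 2 / r ^ 3 ≤ CC := by rw [hCCdef]; exact (le_max_right _ _).trans (le_max_right _ _)
  refine ⟨CC, K, hCV.trans hCC1, ?_⟩
  intro L _ β hβ c i j hi hj
  have hL1 : (1 : ℝ) ≤ L := by exact_mod_cast Nat.one_le_iff_ne_zero.2 (NeZero.ne L)
  have hL0 : (0 : ℝ) < L := by linarith
  have hpow : ∀ n : ℕ, n ≤ K → (L : ℝ) ^ n ≤ (L : ℝ) ^ K := fun n hn => pow_le_pow_right₀ hL1 hn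
  have hLK1 : (1 : ℝ) ≤ (L : ℝ) ^ K := one_le_pow₀ hL1
  have hLK0 : (0 : ℝ) < (L : ℝ) ^ K := by linarith
  have hSS₀ : S₀ ≤ SS L k P Q := hXD' L P Q hPQ
  have hSS₁ : SS L k P Q ≤ S₁ := (hYE' k L hk P Q hPQ).trans hS₂₁
  obtain ⟨S, hSdef⟩ : ∃ S : ℝ, S = SS L k P Q := ⟨_, rfl⟩
  rw [← hSdef] at hSS₀ hSS₁
  have hS : 0 < S := hS₀.trans_le hSS₀
  have hrS : r ≤ S := hrS₀.trans hSS₀
  have hV := hV' L β ((mul_le_mul hCC1 (hpow KV (by omega)) (by positivity) (by linarith)).trans hβ)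
  rw [← hSdef] at hV ⊢
  have hB := hB' L β ((mul_le_mul hCC2 (hpow KB (by omega)) (by positivity) (by linarith)).trans hβ)
  obtain ⟨C, hCdef⟩ : ∃ C : ℝ, C = CB * (L : ℝ) ^ KB := ⟨_, rfl⟩
  have hC : 1 ≤ C := by
    rw [hCdef]
    exact one_le_mul_of_one_le_of_one_le hCB (one_le_pow₀ hL1)
  obtain ⟨m, hmdef⟩ : ∃ m : ℝ, m = m₀ / L := ⟨_, rfl⟩
  have hm : 0 < m := by rw [hmdef]; positivity
  have hB2 : ∀ (y y' : ℤ) (q q' : ℕ), y ≤ y' → 2 ≤ q → q ≤ q' → ∀ T : Finset Pl, (∀ a ∈ T, 1 ≤ a.1) →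
      ZZ k β (L := L) P Q (rc (-q', y) (0, y') ∪ T) * ZZ k β (L := L) P Q (rc (-q, y) (0, y')) ≤
        ZZ k β (L := L) P Q (rc (-q', y) (0, y')) * ZZ k β (L := L) P Q (rc (-q, y) (0, y') ∪ T) *
          Real.exp (T.card * Real.exp (C * β - m * q)) := by
    intro y y' q q' h1 h2 h3 T h4
    have h5 := hB y y' q q' h1 h2 h3 T h4
    have e : CB * (L : ℝ) ^ KB * β - m₀ * q / L = C * β - m * q := by
      rw [hCdef, hmdef]
      ring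
    rwa [e] at h5
  set K₁ : ℝ := (C + S + 1) / (4 * m) with hK1
  have hK1pos : 0 < K₁ := by positivity
  have hK1le : K₁ ≤ K₀ * (L : ℝ) ^ (KB + 1) := by
    rw [hK1, hK₀, hCdef, hmdef, div_le_iff₀ (by positivity), r13 CB S₁ m₀ L KB hm₀ hL0]
    exact r1 CB S S₁ _ (one_le_pow₀ hL1) hSS₁ hS₁0
  have hK1CC : K₁ ≤ CC * (L : ℝ) ^ K :=
    hK1le.trans (mul_le_mul hCC3 (hpow (KB + 1) (by omega)) (by positivity) (by linarith))
  set G : ℝ := 4 * K₁ + 11 with hG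
  have hG1 : 1 ≤ G := by rw [hG]; linarith
  have hGle : G ≤ G₀ * (L : ℝ) ^ (KB + 1) := by
    rw [hG, hG₀]
    exact r2 _ _ _ (one_le_pow₀ hL1) hK1le
  have hb3 : 576 * G ^ 2 / r ^ 3 ≤ β := by
    refine le_trans ?_ hβ
    refine r12 G₀ G ((L : ℝ) ^ (KB + 1)) r CC _ (zero_le_one.trans hG1) hGle hr hCC4 ?_
      (zero_le_one.trans (hCV.trans hCC1))
    rw [← pow_mul]
    exact hpow _ (by omega)
  have hβ1' : (1 : ℝ) ≤ β := by
    exact (one_le_mul_of_one_le_of_one_le (hCV.trans hCC1) hLK1).trans hβ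
  have hβpos : 0 < β := by linarith
  have hβ0 : (0 : ℝ) ≤ β := hβpos.le
  have hNpos : (0 : ℝ) < N := by
    have : 0 < N := by omega
    exact_mod_cast this
  obtain ⟨kap, -, -, -, -, hkap⟩ := hA' L β hβ0 hβ1'
  have hZpos : ∀ (Λ : Finset Pl) (a : Pl), a ∈ Λ → 0 < ZZ k β (L := L) P Q Λ := fun Λ a ha =>
    (hkap Λ a ha).1
  obtain ⟨hZ1, hZ2, hZ3⟩ := hZT N k L hN β hβ0
  have hRTc := fun (c : ℕ) (a b : Pl) => hRT N k L hN P Q β hβ0 c a b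
  -- nonempty boxes
  have hmem : ∀ (a b : Pl), a.1 ≤ b.1 → a.2 ≤ b.2 → a ∈ rc a b := by
    intro a b h1 h2
    simp only [rc, Finset.mem_product, Finset.mem_Icc]
    omega
  have hZZn : ∀ (a b : Pl), a.1 ≤ b.1 → a.2 ≤ b.2 →
      ‖Zc k β 0 (rc a b) (vc P Q : Cf N L)‖ = ZZ k β (L := L) P Q (rc a b) := by
    intro a b h1 h2
    rw [hZ2 P Q (rc a b), Complex.norm_real, Real.norm_eq_abs,
      abs_of_pos (hZpos _ a (hmem a b h1 h2))]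
  -- constants
  set J : ℕ := ⌈K₁ * β⌉₊ with hJ
  have hJ1 : 1 ≤ J := by
    rw [hJ]
    exact Nat.one_le_ceil_iff.mpr (by positivity)
  have hJup : (J : ℝ) ≤ K₁ * β + 1 := (Nat.ceil_lt_add_one (by positivity)).le
  have hJlo : K₁ * β ≤ J := Nat.le_ceil _
  have hGJ : 4 * (J : ℝ) + 7 ≤ G * β := by
    rw [hG]
    exact r3 _ _ _ hJup hβ1'
  set b : ℝ := Real.exp (-β * (S - r / 2)) with hb
  have hbpos : 0 < b := Real.exp_pos _
  set u : ℝ := 4 * Real.exp (C * β - m * (4 * J + 2)) with hu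
  have hupos : 0 ≤ u := by positivity
  have hub : u ≤ 4 * b := by
    rw [hu, hb]
    have h1 : (C + S + 1) * β ≤ m * (4 * J + 2) := r4 C S m K₁ J β hm hK1 hJlo
    exact mul_le_mul_of_nonneg_left (Real.exp_le_exp.mpr (r5 C S β r _ hβpos hr h1)) (by norm_num)
  have hbig := exp_big G r β hr hβpos hb3
  have hbexp : b * Real.exp (β * r / 2) = Real.exp (-β * (S - r)) := by
    rw [hb, ← Real.exp_add]
    congr 1
    ring
  have hble : b * Real.exp (β * r / 2) ≤ 1 := by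
    rw [hbexp]
    exact Real.exp_le_one_iff.mpr (r6 β S r hβpos hrS)
  have hJ7sq : (4 * (J : ℝ) + 7) ^ 2 ≤ G ^ 2 * β ^ 2 := by
    have h0 : (0 : ℝ) ≤ 4 * (J : ℝ) + 7 := by positivity
    calc (4 * (J : ℝ) + 7) ^ 2 ≤ (G * β) ^ 2 := pow_le_pow_left₀ h0 hGJ 2
      _ = _ := by ring
  have hsmall : 2 * (4 * (J : ℝ) + 7) ^ 2 * b ≤ 1 / 2 := by
    exact r7 G β J b _ hbpos.le hJ7sq hbig hble
  -- the partition functions
  let x : ℕ → ℕ → ℝ := fun i j =>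
    (N : ℝ) * ‖Zc k β c (rc 0 (4 * (i : ℤ) + 2, 4 * (j : ℤ) + 2)) (vc P Q : Cf N L)‖
  let y : ℕ → ℕ → ℝ := fun i j =>
    (N : ℝ) * ZZ k β (L := L) P Q (rc 0 (4 * (i : ℤ) + 2, 4 * (j : ℤ) + 2))
  have hp1 : ∀ i : ℕ, (0 : ℤ) ≤ 4 * (i : ℤ) + 2 := fun i => by omega
  have hyn : ∀ i j, y i j =
      (N : ℝ) * ‖Zc k β 0 (rc 0 (4 * (i : ℤ) + 2, 4 * (j : ℤ) + 2)) (vc P Q : Cf N L)‖ := by
    intro i j
    show (N : ℝ) * _ = _
    rw [hZZn _ _ (hp1 i) (hp1 j)]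
  have H1 : ∀ i j, 0 ≤ x i j ∧ 0 < y i j ∧ x i j ≤ y i j ∧ x i j = x j i ∧ y i j = y j i := by
    intro i j
    refine ⟨by positivity, mul_pos hNpos (hZpos _ _ (hmem 0 _ (hp1 i) (hp1 j))), ?_, ?_, ?_⟩
    · rw [hyn]
      exact mul_le_mul_of_nonneg_left (hZ3 c _ _) hNpos.le
    · have := (hRTc c 0 (4 * (j : ℤ) + 2, 4 * (i : ℤ) + 2)).2
      show (N : ℝ) * _ = (N : ℝ) * _
      rw [← this]
      rfl
    · have := (hRTc 0 0 (4 * (j : ℤ) + 2, 4 * (i : ℤ) + 2)).2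
      rw [hyn, hyn, ← this]
      rfl
  -- translations
  have tr : ∀ (c : ℕ) (p q : ℤ) (j : ℕ),
      ‖Zc k β c (rc (-p, 0) (q, 4 * (j : ℤ) + 2)) (vc P Q : Cf N L)‖ =
        ‖Zc k β c (rc 0 (p + q, 4 * (j : ℤ) + 2)) (vc P Q : Cf N L)‖ := by
    intro c p q j
    have h := (hRTc c (-p, 0) (q, 4 * (j : ℤ) + 2)).1 (p, 0)
    rw [← h]
    have e1 : ((-p, 0) : Pl) + (p, 0) = 0 := by
      ext <;> simp
    have e2 : ((q, 4 * (j : ℤ) + 2) : Pl) + (p, 0) = (p + q, 4 * (j : ℤ) + 2) := by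
      ext
      · simp [add_comm]
      · simp
    rw [e1, e2]
  have H2 : ∀ i j, 1 ≤ i → x i j ^ 2 ≤ x (i - 1) j * x (i + 1) j := by
    intro i j hi
    have h := hRX N k L hN P Q β hβ0 c 0 (4 * (j : ℤ) + 2) (hp1 j) (2 * i - 1) (2 * i + 3)
    rw [tr, tr, tr] at h
    have e1 : ((2 * i - 1 : ℕ) : ℤ) + ((2 * i + 3 : ℕ) : ℤ) = 4 * (i : ℤ) + 2 := by omega
    have e2 : ((2 * i - 1 : ℕ) : ℤ) + ((2 * i - 1 : ℕ) : ℤ) = 4 * ((i - 1 : ℕ) : ℤ) + 2 := by omega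
    have e3 : ((2 * i + 3 : ℕ) : ℤ) + ((2 * i + 3 : ℕ) : ℤ) = 4 * ((i + 1 : ℕ) : ℤ) + 2 := by omega
    rw [e1, e2, e3] at h
    show ((N : ℝ) * _) ^ 2 ≤ ((N : ℝ) * _) * ((N : ℝ) * _)
    rw [mul_pow]
    calc _ ≤ (N : ℝ) ^ 2 * (_ * _) := mul_le_mul_of_nonneg_left h (by positivity)
      _ = _ := by ring
  have H3 : ∀ i i' j, J ≤ i → i ≤ i' →
      y (i' + 1) j * y i j ≤ y i' j * y (i + 1) j * Real.exp (u * (4 * j + 3)) := by
    intro i i' j hJi hii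
    have h := hB2 0 (4 * (j : ℤ) + 2) (4 * i + 2) (4 * i' + 2) (hp1 j) (by omega) (by omega)
      (rc (1, 0) (4, 4 * (j : ℤ) + 2)) (by
        intro a ha
        simp only [rc, Finset.mem_product, Finset.mem_Icc] at ha
        exact ha.1.1)
    rw [rc_union, rc_union, rc_card] at h
    have zt : ∀ (p : ℕ) (q : ℤ), 0 ≤ q → ZZ k β (L := L) P Q (rc (-(p : ℤ), 0) (q, 4 * (j : ℤ) + 2)) =
        ‖Zc k β 0 (rc 0 ((p : ℤ) + q, 4 * (j : ℤ) + 2)) (vc P Q : Cf N L)‖ := by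
      intro p q hq
      rw [← tr, hZZn]
      · show -(p : ℤ) ≤ q
        omega
      · exact hp1 j
    rw [zt _ 4 (by norm_num), zt _ 4 (by norm_num), zt _ 0 le_rfl, zt _ 0 le_rfl] at h
    have e1 : ((4 * i' + 2 : ℕ) : ℤ) + 4 = 4 * ((i' + 1 : ℕ) : ℤ) + 2 := by push_cast; ring
    have e2 : ((4 * i + 2 : ℕ) : ℤ) + 4 = 4 * ((i + 1 : ℕ) : ℤ) + 2 := by push_cast; ring
    have e3 : ((4 * i' + 2 : ℕ) : ℤ) + 0 = 4 * (i' : ℤ) + 2 := by push_cast; ring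
    have e4 : ((4 * i + 2 : ℕ) : ℤ) + 0 = 4 * (i : ℤ) + 2 := by push_cast; ring
    rw [e1, e2, e3, e4] at h
    have hexp : Real.exp (((4 * (4 * j + 3) : ℕ) : ℝ) * Real.exp (C * β - m * ((4 * i + 2 : ℕ) : ℝ))) ≤
        Real.exp (u * (4 * j + 3)) := by
      apply Real.exp_le_exp.mpr
      have h1 : Real.exp (C * β - m * ((4 * i + 2 : ℕ) : ℝ)) ≤
          Real.exp (C * β - m * (4 * J + 2)) := by
        apply Real.exp_le_exp.mpr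
        have : (J : ℝ) ≤ i := by exact_mod_cast hJi
        push_cast
        exact r8 C β m J i hm this
      have h2 : ((4 * (4 * j + 3) : ℕ) : ℝ) = 4 * (4 * (j : ℝ) + 3) := by push_cast; ring
      rw [h2, hu]
      have h3 : (0 : ℝ) ≤ 4 * (4 * (j : ℝ) + 3) := by positivity
      calc _ ≤ 4 * (4 * (j : ℝ) + 3) * Real.exp (C * β - m * (4 * J + 2)) :=
            mul_le_mul_of_nonneg_left h1 h3
        _ = _ := by ring
    rw [hyn, hyn, hyn, hyn]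
    exact r15 _ _ _ _ _ _ _ h hexp (norm_nonneg _) (norm_nonneg _)
  have H4 : ∀ i j, J ≤ i → J ≤ j → i ≤ J + 1 → j ≤ J + 1 →
      (1 - 2 * (4 * J + 7) ^ 2 * b) * y i j ≤ x i j := by
    intro i j _ _ hi hj
    have hv := hV i j
    have e0 := hZ1 0 0 (4 * (i : ℤ) + 2, 4 * (j : ℤ) + 2) (hp1 i) (hp1 j) (vc P Q)
    have e1 := hZ1 c 0 (4 * (i : ℤ) + 2, 4 * (j : ℤ) + 2) (hp1 i) (hp1 j) (vc P Q)
    rw [hZ2 P Q] at e0
    simp only [zero_mul, om_zero', one_mul] at e0 e1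
    set F : ℕ → ℝ := fun n => Zf k β (dl 0 (n : ℤ)) (rc 0 (4 * (i : ℤ) + 2, 4 * (j : ℤ) + 2))
      (vc P Q : Cf N L) with hF
    have hF0 : ∀ n, 0 ≤ F n := fun n => Zf_nonneg _ _ _ _ _
    have hy : y i j = ∑ n ∈ Finset.range N, F n := by
      have : ((y i j : ℝ) : ℂ) = ((∑ n ∈ Finset.range N, F n : ℝ) : ℂ) := by
        show (((N : ℝ) * _ : ℝ) : ℂ) = _
        push_cast
        exact e0
      exact_mod_cast this
    have hxx : x i j = ‖∑ n ∈ Finset.range N, om N (c * n) * (F n : ℂ)‖ := by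
      show (N : ℝ) * _ = _
      rw [← e1, norm_mul, Complex.norm_natCast]
    refine split hN c F hF0 (x i j) (y i j) _ b hxx hy ?_
    have hir : (4 * (i : ℝ) + 3) ≤ 4 * J + 7 := by
      have : (i : ℝ) ≤ J + 1 := by exact_mod_cast hi
      linarith only [this]
    have hjr : (4 * (j : ℝ) + 3) ≤ 4 * J + 7 := by
      have : (j : ℝ) ≤ J + 1 := by exact_mod_cast hj
      linarith only [this]
    have h1 : (4 * (i : ℝ) + 3) * (4 * j + 3) ≤ (4 * (J : ℝ) + 7) ^ 2 := by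
      rw [sq]
      exact mul_le_mul hir hjr (by positivity) (by positivity)
    rw [hy]
    refine hv.trans ?_
    have h2 : 0 ≤ ∑ n ∈ Finset.range N, F n := Finset.sum_nonneg fun n _ => hF0 n
    apply mul_le_mul_of_nonneg_right _ h2
    exact mul_le_mul_of_nonneg_right h1 hbpos.le
  have fin := hRA x y J b u hJ1 hbpos.le hupos H1 H2 H3 H4 hsmall i j
    (Nat.ceil_le.mpr (le_trans (mul_le_mul_of_nonneg_right hK1CC hβ0) hi))
    (Nat.ceil_le.mpr (le_trans (mul_le_mul_of_nonneg_right hK1CC hβ0) hj))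
  have hD : 4 * (4 * (J : ℝ) + 7) ^ 2 * b + 2 * u * (4 * J + 7) ≤ Real.exp (-β * (S - ρ)) := by
    refine le_trans ?_ (Real.exp_le_exp.mpr (r10 β S r ρ hβpos hrρ))
    rw [← hbexp]
    exact r11 G β J b u _ hbpos.le hupos hub (Nat.cast_nonneg _)
      (one_le_mul_of_one_le_of_one_le hG1 hβ1') hGJ hJ7sq hbig
  have hc0 : (0 : ℝ) ≤ (4 * (i : ℝ) + 3) * (4 * j + 3) := by positivity
  have hfin2 : Real.exp (-(Real.exp (-β * (S - ρ)) * ((4 * i + 3) * (4 * j + 3)))) * y i j ≤ x i j := by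
    exact le_trans (r14 _ _ _ _ hD hc0 (H1 i j).2.1.le) fin
  have hfin3 : (N : ℝ) * (Real.exp (-(Real.exp (-β * (S - ρ)) * ((4 * i + 3) * (4 * j + 3)))) *
      ZZ k β (L := L) P Q (rc 0 (4 * (i : ℤ) + 2, 4 * (j : ℤ) + 2))) ≤
      (N : ℝ) * ‖Zc k β c (rc 0 (4 * (i : ℤ) + 2, 4 * (j : ℤ) + 2)) (vc P Q : Cf N L)‖ := by
    calc _ = Real.exp (-(Real.exp (-β * (S - ρ)) * ((4 * i + 3) * (4 * j + 3)))) * y i j := by
          show _ = _ * ((N : ℝ) * _)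
          ring
      _ ≤ x i j := hfin2
  exact le_of_mul_le_mul_left hfin3 hNpos

end T2H01.SE
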