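import Pool.Agent.T2H01.SE.Stm10
import Pool.Agent.T2H01.SE.UN

/-!
# Package UNu : charge zero, bounds, uniformly in `L`
-/

set_option autoImplicit false
set_option linter.unusedSectionVars false

noncomputable section

open MeasureTheory Matrix
open scoped Matrix.Norms.Frobenius

namespace T2H01.SE

open T2H02.TT

namespace PkgUNu

open PkgUN

lemma core (N k L : ℕ) [NeZero L] (hN : 2 ≤ N) (P Q : SU N) (K : ℝ) (hK : 0 ≤ K)
    (hKw : ∀ (β : ℝ), 1 ≤ β → ∀ (τ : Tm) (X : Cf N L), 1 ≤ Real.exp (K * β) * wt k β τ X)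
    (β : ℝ) (hβ : 1 ≤ β) (A B : ℕ) [NeZero A] [NeZero B] :
    TZc N L k β P Q 0 false false A B = (TY N L k β P Q ∅ A B : ℂ) ∧
    Real.exp (-((1 + 4 * K) * β * (A * B))) ≤ TY N L k β P Q ∅ A B ∧ TY N L k β P Q ∅ A B ≤ 1 ∧
    (∀ n : ℤ, 0 < TZ N L k β n A B) := by
  have hN0 : 0 < N := by omega
  have hβ0 : 0 ≤ β := by linarith
  have hTY : TY N L k β P Q ∅ A B =
      ∫ X : TC N A B L, ∏ τ ∈ fdm A B ×ˢ (Finset.univ : Finset (Fin 4)), wt k β τ (per X : Cf N L)
        ∂(Measure.infinitePi fun _ => hm N) := by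
    unfold TY
    refine integral_congr_ae (Filter.Eventually.of_forall fun X => ?_)
    beta_reduce
    rw [fzF_empty, wfd_eq]
  have hmeas : Measurable fun X : TC N A B L =>
      ∏ τ ∈ fdm A B ×ˢ (Finset.univ : Finset (Fin 4)), wt k β τ (per X : Cf N L) :=
    Finset.measurable_prod _ fun τ _ => (wt_cont k β τ).measurable.comp (per_meas A B)
  have h0 : ∀ X : TC N A B L,
      0 ≤ ∏ τ ∈ fdm A B ×ˢ (Finset.univ : Finset (Fin 4)), wt k β τ (per X : Cf N L) := fun X =>
    Finset.prod_nonneg fun τ _ => (wt_pos k β τ _ hN0).le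
  have h1 : ∀ X : TC N A B L,
      ∏ τ ∈ fdm A B ×ˢ (Finset.univ : Finset (Fin 4)), wt k β τ (per X : Cf N L) ≤ 1 := fun X =>
    Finset.prod_le_one (fun τ _ => (wt_pos k β τ _ hN0).le) fun τ _ => wt_le k β hβ0 τ _ hN0
  have hint : Integrable (fun X : TC N A B L =>
      ∏ τ ∈ fdm A B ×ˢ (Finset.univ : Finset (Fin 4)), wt k β τ (per X : Cf N L))
      (Measure.infinitePi fun _ => hm N) := by
    refine Integrable.of_bound hmeas.aestronglyMeasurable 1 (Filter.Eventually.of_forall fun X => ?_)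
    rw [Real.norm_eq_abs, abs_of_nonneg (h0 X)]
    exact h1 X
  refine ⟨?_, ?_, ?_, ?_⟩
  · -- charge zero
    rw [hTY]
    unfold TZc
    rw [← integral_complex_ofReal]
    refine integral_congr_ae (Filter.Eventually.of_forall fun X => ?_)
    beta_reduce
    rw [PkgTE.Wt_zero, PkgTE.fzp_ff]
  · -- lower bound
    rw [hTY]
    have hlow : ∀ X : TC N A B L, Real.exp (-((1 + 4 * K) * β * (A * B))) ≤
        ∏ τ ∈ fdm A B ×ˢ (Finset.univ : Finset (Fin 4)), wt k β τ (per X : Cf N L) := by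
      intro X
      have e1 : ∀ τ ∈ fdm A B ×ˢ (Finset.univ : Finset (Fin 4)),
          Real.exp (-(K * β)) ≤ wt k β τ (per X : Cf N L) := by
        intro τ _
        have := hKw β hβ τ (per X)
        rw [Real.exp_neg, inv_le_iff_one_le_mul₀' (Real.exp_pos _)]
        exact this
      have e2 := Finset.prod_le_prod (fun τ _ => (Real.exp_pos (-(K * β))).le) e1
      refine le_trans ?_ e2
      rw [Finset.prod_const, Finset.card_product, fdm_card, Finset.card_univ, Fintype.card_fin,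
        ← Real.exp_nat_mul]
      refine Real.exp_le_exp.2 ?_
      push_cast
      have h5 : 0 ≤ β * ((A : ℝ) * B) := by positivity
      nlinarith
    calc Real.exp (-((1 + 4 * K) * β * (A * B)))
        = ∫ _X : TC N A B L, Real.exp (-((1 + 4 * K) * β * (A * B)))
            ∂(Measure.infinitePi fun _ => hm N) := by
          rw [integral_const, probReal_univ, one_smul]
      _ ≤ _ := integral_mono (integrable_const _) hint hlow
  · -- upper bound
    rw [hTY]
    calc ∫ X : TC N A B L, ∏ τ ∈ fdm A B ×ˢ (Finset.univ : Finset (Fin 4)), wt k β τ (per X : Cf N L)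
          ∂(Measure.infinitePi fun _ => hm N)
        ≤ ∫ _X : TC N A B L, (1 : ℝ) ∂(Measure.infinitePi fun _ => hm N) :=
          integral_mono hint (integrable_const _) h1
      _ = 1 := by rw [integral_const, probReal_univ, one_smul]
  · -- positivity
    intro n
    unfold TZ
    have hact : ∀ X : TC N A B L, tact k n X =
        ∑ x ∈ fdm A B, ∑ i : Fin 4, enf k (dl 0 n) (per X) (x, i) := fun X =>
      pTW N k L hN n A B X
    simp_rw [hact]
    refine integral_exp_pos ?_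
    have hm2 : Measurable fun X : TC N A B L =>
        ∑ x ∈ fdm A B, ∑ i : Fin 4, enf k (dl 0 n) (per X) (x, i) :=
      Finset.measurable_fun_sum _ fun x _ => Finset.measurable_fun_sum _ fun i _ =>
        (enf_cont k (dl 0 n) (x, i)).measurable.comp (per_meas A B)
    refine Integrable.of_bound (hm2.const_mul (-β)).exp.aestronglyMeasurable 1
      (Filter.Eventually.of_forall fun X => ?_)
    rw [Real.norm_eq_abs, abs_of_pos (Real.exp_pos _)]
    refine Real.exp_le_one_iff.2 ?_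
    have h6 : 0 ≤ ∑ x ∈ fdm A B, ∑ i : Fin 4, enf k (dl 0 n) (per X) (x, i) :=
      Finset.sum_nonneg fun x _ => Finset.sum_nonneg fun i _ => enf_nonneg _ _ _ _
    nlinarith [mul_nonneg hβ0 h6]


lemma wt_lowu (h3 : S_G3u) (N k : ℕ) (hN : 2 ≤ N) :
    ∃ (C : ℝ) (K : ℕ), 1 ≤ C ∧ ∀ (L : ℕ) [NeZero L] (β : ℝ), 1 ≤ β → ∀ (τ : Tm) (X : Cf N L),
      1 ≤ Real.exp ((C * (L : ℝ) ^ K) * β) * wt k β τ X := by
  obtain ⟨C, K, hC, h⟩ := h3 N k hN
  have hlog : 0 ≤ Real.log N := Real.log_natCast_nonneg N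
  refine ⟨C + Real.log N, K, by linarith, ?_⟩
  intro L _ β hβ τ X
  obtain ⟨-, h2, h3⟩ := h L
  have hL1 : (1 : ℝ) ≤ (L : ℝ) ^ K := by
    refine one_le_pow₀ ?_
    exact_mod_cast Nat.one_le_iff_ne_zero.2 (NeZero.ne L)
  have hN0 : (0 : ℝ) < N := by exact_mod_cast (by omega : 0 < N)
  have h4 := (h3 β X τ (by linarith)).1
  have h5 := h2 X τ
  refine le_trans ?_ (mul_le_mul_of_nonneg_left h4 (Real.exp_pos _).le)
  have h7 : (1 : ℝ) / N = Real.exp (-Real.log N) := by
    rw [Real.exp_neg, Real.exp_log hN0, one_div]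
  rw [div_eq_mul_one_div, h7, ← Real.exp_add, ← Real.exp_add]
  refine Real.one_le_exp ?_
  have h8 : 0 ≤ β * (C * (L : ℝ) ^ K - en k X τ) := mul_nonneg (by linarith) (by linarith)
  have h9 : 0 ≤ Real.log N * ((L : ℝ) ^ K * β - 1) := by
    refine mul_nonneg hlog ?_
    nlinarith
  nlinarith

end PkgUNu

open PkgUNu in
theorem pUNu (h3 : S_G3u) : S_UNu := by
  intro N k hN P Q
  obtain ⟨C, K, hC, h⟩ := wt_lowu h3 N k hN
  refine ⟨1 + 4 * C, K, by linarith, ?_⟩
  intro L _ β hβ A B _ _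
  have hL1 : (1 : ℝ) ≤ (L : ℝ) ^ K := by
    refine one_le_pow₀ ?_
    exact_mod_cast Nat.one_le_iff_ne_zero.2 (NeZero.ne L)
  obtain ⟨h1, h2, h3, h4⟩ := core N k L hN P Q (C * (L : ℝ) ^ K) (by positivity)
    (fun β hβ τ X => h L β hβ τ X) β hβ A B
  refine ⟨h1, le_trans (Real.exp_le_exp.2 ?_) h2, h3, h4⟩
  have h5 : 0 ≤ β * ((A : ℝ) * B) := by positivity
  have h6 : (1 + 4 * (C * (L : ℝ) ^ K)) * (β * ((A : ℝ) * B)) ≤
      (1 + 4 * C) * (L : ℝ) ^ K * (β * ((A : ℝ) * B)) := by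
    refine mul_le_mul_of_nonneg_right ?_ h5
    nlinarith
  linarith

end T2H01.SE
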