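import Pool.Agent.T2H01.SE.Stm10
import Pool.Agent.T2H01.SE.VC

/-!
# Package VCu : configurations of small energy, uniformly in `L`
-/

set_option autoImplicit false
set_option linter.unusedSectionVars false

noncomputable section

open MeasureTheory Matrix
open scoped Matrix.Norms.Frobenius

namespace T2H01.SE

open T2H02.TT PkgVC

namespace PkgVCu

variable {N L : ℕ} [NeZero L]

/-- the general transport: a configuration `X₀` equal to the vacuum off `Nb r 0` -/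
lemma transport {k : ℕ} {P Q : SU N} {C₀ : ℝ} (hC₀ : 1 ≤ C₀)
    (hL : ∀ (ρ : ℝ), 0 < ρ → ∀ (s : Pl → ℤ) (τ : Tm) (X Y : Cf N L),
      enf k s Y τ ≤ (1 + ρ) * enf k s X τ +
        (1 + 1 / ρ) * C₀ * ∑ l ∈ (spt τ : Finset (Lk L)), ‖(Y l : Mt N) - (X l : Mt N)‖ ^ 2)
    (hV : ∀ (s : Pl → ℤ) (τ : Tm), (τ.2 = 3 → (N : ℤ) ∣ s τ.1) → enf k s (vc P Q : Cf N L) τ = 0)
    (n : ℤ) (U₀ : Finset Pl) (X₀ : Cf N L) (h0 : (0 : Pl) ∈ U₀)
    (hoff : ∀ l, l ∉ Frl L U₀ → X₀ l = vc P Q l) (r : ℕ) (hK' : U₀ ⊆ Nb r 0)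
    (U : Finset Pl) (c : Pl) (hU : Nb (r + 2) c ⊆ U) (σ : Cf N L) :
    ∃ X : Cf N L, (∀ l, l ∉ Frl L U → X l = σ l) ∧
      EE k (dl c n) U X ≤ EE k (dl 0 n) U₀ X₀ + 32 * C₀ * rD P Q σ U := by
  refine ⟨glue (Frl L U) (shf (-c) X₀) σ, fun l hl => if_neg hl, ?_⟩
  have hin : ∀ (a b : Pl), a ∈ U₀ → near 1 b (a + c) → b ∈ U := by
    intro a b ha hb
    apply hU
    have h1 := hK' ha
    rw [mem_Nb'] at h1 ⊢
    obtain ⟨h1a, h1b⟩ := h1
    obtain ⟨h2a, h2b⟩ := hb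
    rw [abs_le] at h1a h1b h2a h2b
    simp only [Prod.fst_zero, Prod.snd_zero, sub_zero, Prod.fst_add, Prod.snd_add] at *
    push_cast
    rw [abs_le, abs_le]
    refine ⟨⟨?_, ?_⟩, ?_, ?_⟩ <;>
      linarith [h1a.1, h1a.2, h1b.1, h1b.2, h2a.1, h2a.2, h2b.1, h2b.2]
  have hvc : ∀ l : Lk L, (vc P Q : Cf N L) ((l.1.1 + -c, l.1.2), l.2) = vc P Q l := fun _ => rfl
  -- terms not touching `U₀` have no energy
  have hout : ∀ τ : Tm, τ ∉ tml U₀ → enf k (dl 0 n) X₀ τ = 0 := by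
    intro τ hτ
    rw [enf_loc k (dl 0 n) (dl 0 n) τ X₀ (vc P Q) (fun l hl => hoff l fun h => ?_) fun _ => rfl]
    · refine hV _ τ fun h3 => ?_
      have : τ.1 ≠ 0 := by
        intro hx
        apply hτ
        rw [mem_tml]
        refine ⟨0, ?_, h0⟩
        obtain ⟨x, i⟩ := τ
        simp only at hx h3
        subst hx h3
        exact (mem_cor3 _ _).2 (Or.inl rfl)
      rw [dl, if_neg this]
      exact dvd_zero _
    · obtain ⟨a, ha, haU⟩ := (mem_Frl _ _).1 h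
      exact hτ ((mem_tml _ _).2 ⟨a, (cor_iff (L := L) τ a).2 ⟨l, hl, ha⟩, haU⟩)
  have htr : ∀ τ : Tm, enf k (dl c n) (shf (-c) X₀) τ = enf k (dl 0 n) X₀ (τ.1 + -c, τ.2) := by
    rintro ⟨x, i⟩
    refine enf_shf k _ _ (-c) X₀ x i ?_
    unfold dl
    by_cases h : x = c
    · rw [if_pos h, if_pos (by rw [h, add_neg_cancel])]
    · rw [if_neg h, if_neg (fun h' => h (by rw [← sub_eq_zero, sub_eq_add_neg]; exact h'))]
  have hZ : ∀ l, l ∉ Frl L U → shf (-c) X₀ l = vc P Q l := by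
    intro l hl
    rw [← hvc l]
    refine hoff _ fun h => hl ?_
    obtain ⟨a, ha, haU⟩ := (mem_Frl _ _).1 h
    rw [mem_Frl]
    refine ⟨a + c, ?_, hin a _ haU (by unfold near; simp)⟩
    rw [mem_st] at ha ⊢
    rcases ha with h | h
    · left; rw [h]; simp
    · right; rw [h]; simp only; abel
  have h1 := EE_le (P := P) (Q := Q) hC₀ hL (dl c n) U (shf (-c) X₀) σ hZ (by
    rintro τ hτ ⟨l, hl, hlU⟩
    rw [htr]
    refine hout _ fun h => hlU ?_
    obtain ⟨a, ha, haU⟩ := (mem_tml _ _).1 h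
    have ha' : a + c ∈ cor τ := by
      have := (cor_shf c (τ.1 + -c) a τ.2).2 ha
      rw [neg_add_cancel_right] at this
      exact this
    have hb : l.1.1 ∈ st l := (mem_st l _).2 (Or.inl rfl)
    have hb' : l.1.1 ∈ cor τ := (cor_iff (L := L) τ _).2 ⟨l, hl, hb⟩
    exact (mem_Frl _ _).2 ⟨l.1.1, hb, hin a _ haU (diam_cor τ _ hb' _ ha')⟩)
  refine h1.trans ?_
  have h2 : EE k (dl c n) U (shf (-c) X₀) = EE k (dl 0 n) U₀ X₀ := by
    unfold EE
    have hinj : Function.Injective fun τ : Tm => ((τ.1 + c, τ.2) : Tm) := by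
      rintro ⟨x, i⟩ ⟨x', i'⟩ h
      simp only [Prod.mk.injEq, add_left_inj] at h
      exact Prod.ext h.1 h.2
    have hsub : (tml U₀).image (fun τ : Tm => ((τ.1 + c, τ.2) : Tm)) ⊆ tml U := by
      intro τ hτ
      rw [Finset.mem_image] at hτ
      obtain ⟨τ', hτ', rfl⟩ := hτ
      obtain ⟨a, ha, haU⟩ := (mem_tml _ _).1 hτ'
      rw [mem_tml]
      exact ⟨a + c, (cor_shf c τ'.1 a τ'.2).2 ha, hin a _ haU (by unfold near; simp)⟩
    rw [← Finset.sum_subset hsub, Finset.sum_image fun a _ b _ h => hinj h]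
    · refine Finset.sum_congr rfl fun τ _ => ?_
      rw [htr]
      simp only [add_neg_cancel_right]
    · intro τ _ hτ
      rw [htr]
      refine hout _ fun h => hτ ?_
      rw [Finset.mem_image]
      exact ⟨_, h, by simp⟩
  rw [h2]

end PkgVCu

open PkgVCu

theorem pVCu (hVL : S_VL) (hVLu : S_VLu) (hVXu : S_VXu) : S_VCu := by
  intro N k hN hk P Q hPQ
  obtain ⟨C₀, hC₀, hLu⟩ := hVLu N k hN
  refine ⟨32 * C₀, by linarith, ?_, ?_⟩
  · intro L _ U σ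
    obtain ⟨-, hV, -⟩ := hVL N k L hN hk P Q hPQ
    have h1 := EE_le (P := P) (Q := Q) hC₀ (fun ρ hρ => hLu L ρ hρ) (fun _ => 0) U (vc P Q) σ
      (fun _ _ => rfl) (fun τ _ _ => hV _ τ fun _ => dvd_zero _)
    have h2 : EE k (fun _ => 0) U (vc P Q : Cf N L) = 0 :=
      Finset.sum_eq_zero fun τ _ => hV _ τ fun _ => dvd_zero _
    rw [h2, zero_add] at h1
    exact h1
  · intro ρ hρ
    obtain ⟨C, K, hC, hX⟩ := hVXu N k hN hk P Q hPQ ρ hρ
    refine ⟨C + 2, K, by linarith, fun L _ => ?_⟩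
    obtain ⟨r, n, X₀, hr, hn, hoff, hEE⟩ := hX L
    obtain ⟨-, hV, -⟩ := hVL N k L hN hk P Q hPQ
    refine ⟨r + 2, n, ?_, hn, fun U c hU σ => ?_⟩
    · have hL1 : (1 : ℝ) ≤ (L : ℝ) ^ K := by
        apply one_le_pow₀
        exact_mod_cast Nat.one_le_iff_ne_zero.2 (NeZero.ne L)
      push_cast
      nlinarith
    · have h0 : (0 : Pl) ∈ Nb r 0 := by
        rw [mem_Nb']
        simp
      obtain ⟨X, hX1, hX2⟩ := transport (P := P) (Q := Q) hC₀ (fun ρ hρ => hLu L ρ hρ) hV n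
        (Nb r 0) X₀ h0 hoff r (Finset.Subset.refl _) U c hU σ
      exact ⟨X, hX1, by linarith⟩

end T2H01.SE
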