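import Pool.Agent.T2H01.SE.Stm10
import Pool.Agent.T2H01.SE.VE

/-!
# Package VEu: lower bound of the energy in the presence of a flux, constant independent of `L`
-/

set_option autoImplicit false
set_option linter.unusedSectionVars false

noncomputable section

open MeasureTheory Matrix
open scoped Matrix.Norms.Frobenius

namespace T2H01.SE

open T2H02.TT

open PkgVE in
/-- package VEu -/
theorem pVEu (hVLu : S_VLu) (hVL : S_VL) : S_VEu := by
  intro N k hN hk P Q hPQ ρ hρ
  obtain ⟨C₀, hC₀, hLu⟩ := hVLu N k hN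
  have h1ρ : 0 < 1 / ρ := by positivity
  refine ⟨(1 + 1 / ρ) * C₀ * 12, by nlinarith, ?_⟩
  intro L _ U a n X ha hn
  obtain ⟨-, hV, -⟩ := hVL N k L hN hk P Q hPQ
  have hL := hLu L
  set X' : Cf N L := glue (Frl L U) X (vc P Q) with hX'
  have hoff : ∀ l, l ∉ Frl L U → X' l = vc P Q l := by
    intro l hl
    rw [hX']
    unfold glue
    rw [if_neg hl]
  have hon : ∀ l, l ∈ Frl L U → X' l = X l := by
    intro l hl
    rw [hX']
    unfold glue
    rw [if_pos hl]
  -- the translate is in `vset`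
  have h1 : SS L k P Q ≤ EE k (dl a n) U X' := by
    rw [← EE_tr k P Q hV U a n X' ha hoff]
    refine csInf_le ⟨0, ?_⟩ ⟨n, insert 0 (U.image (fun x => x - a)), tX a X', hn,
      Finset.mem_insert_self _ _, ?_, rfl⟩
    · rintro e ⟨m, V, Y, -, -, -, rfl⟩
      exact Finset.sum_nonneg fun τ _ => enf_nonneg _ _ _ _
    · intro l hl
      unfold tX
      rw [hoff]
      · rfl
      · intro hF
        apply hl
        obtain ⟨b, hb, hbU⟩ := (mem_Frl _ _).1 hF
        rw [mem_Frl]
        refine ⟨b - a, ?_, Finset.mem_insert_of_mem ((mem_img U a _).2 (by simpa using hbU))⟩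
        rw [mem_st] at hb ⊢
        rcases hb with rfl | rfl
        · left; simp
        · right; simp only; abel
  -- comparison of the energies
  have h2 : EE k (dl a n) U X' ≤ (1 + ρ) * EE k (dl a n) U X +
      (1 + 1 / ρ) * C₀ * ∑ τ ∈ tml U, ∑ l ∈ (spt τ : Finset (Lk L)),
        ‖(X' l : Mt N) - (X l : Mt N)‖ ^ 2 := by
    unfold EE
    rw [Finset.mul_sum, Finset.mul_sum, ← Finset.sum_add_distrib]
    exact Finset.sum_le_sum fun τ _ => hL ρ hρ (dl a n) τ X X'
  have h3 : ∑ τ ∈ tml U, ∑ l ∈ (spt τ : Finset (Lk L)), ‖(X' l : Mt N) - (X l : Mt N)‖ ^ 2 ≤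
      12 * rD P Q X U := by
    have h4 : ∀ τ ∈ tml U, ∑ l ∈ (spt τ : Finset (Lk L)), ‖(X' l : Mt N) - (X l : Mt N)‖ ^ 2 ≤
        ∑ l ∈ rlk L U, if l ∈ (spt τ : Finset (Lk L)) then
          ‖(X l : Mt N) - (vc P Q l : Mt N)‖ ^ 2 else 0 := by
      intro τ hτ
      rw [← Finset.sum_filter]
      have h5 : ∑ l ∈ (spt τ : Finset (Lk L)), ‖(X' l : Mt N) - (X l : Mt N)‖ ^ 2 =
          ∑ l ∈ (spt τ : Finset (Lk L)).filter (fun l => l ∉ Frl L U),
            ‖(X l : Mt N) - (vc P Q l : Mt N)‖ ^ 2 := by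
        rw [Finset.sum_filter]
        refine Finset.sum_congr rfl fun l _ => ?_
        by_cases h : l ∈ Frl L U
        · rw [hon l h, sub_self, norm_zero, if_neg (not_not.2 h)]
          norm_num
        · rw [hoff l h, norm_sub_rev, if_pos h]
      rw [h5]
      refine Finset.sum_le_sum_of_subset_of_nonneg ?_ fun _ _ _ => by positivity
      intro l hl
      rw [Finset.mem_filter] at hl ⊢
      exact ⟨mem_rlk U τ hτ l hl.1 hl.2, hl.1⟩
    refine (Finset.sum_le_sum h4).trans ?_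
    rw [Finset.sum_comm, rD, Finset.mul_sum]
    refine Finset.sum_le_sum fun l _ => ?_
    rw [← Finset.sum_filter, Finset.sum_const, nsmul_eq_mul]
    refine mul_le_mul_of_nonneg_right ?_ (by positivity)
    exact_mod_cast card_terms (tml U) l
  have h6 : 0 ≤ (1 + 1 / ρ) * C₀ := by positivity
  calc SS L k P Q ≤ EE k (dl a n) U X' := h1
    _ ≤ (1 + ρ) * EE k (dl a n) U X + (1 + 1 / ρ) * C₀ * _ := h2
    _ ≤ (1 + ρ) * EE k (dl a n) U X + (1 + 1 / ρ) * C₀ * (12 * rD P Q X U) := by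
        have := mul_le_mul_of_nonneg_left h3 h6
        linarith
    _ = (1 + ρ) * EE k (dl a n) U X + (1 + 1 / ρ) * C₀ * 12 * rD P Q X U := by ring

end T2H01.SE
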