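import Pool.Agent.T2H01.SE.Stm10
import Pool.Agent.T2H01.SE.VF

/-!
# Package VFu: fluxes and blocks in the joint system, constants polynomial in `L` (port of VF)
-/

set_option autoImplicit false
set_option linter.unusedSectionVars false

noncomputable section

open MeasureTheory Matrix
open scoped Matrix.Norms.Frobenius

namespace T2H01.SE

open T2H02.TT

namespace PkgVFu

lemma const1 {C C₃ C₁ L : ℝ} {K K₃ K₁ : ℕ} (hL : 1 ≤ L) (hC₃ : 1 ≤ C₃) (hC₁ : 1 ≤ C₁)
    (hC : 2 * C₃ * C₁ ≤ C) (hK : K₃ + K₁ ≤ K) :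
    C₃ * L ^ K₃ * (1 / (C * L ^ K) + 1 / (C * L ^ K)) ≤ 1 / (C₁ * L ^ K₁) := by
  have hL0 : 0 < L := by linarith
  have h0 : 0 < C := lt_of_lt_of_le (by positivity) hC
  rw [← add_div, mul_div_assoc', div_le_div_iff₀ (by positivity) (by positivity)]
  have h1 : L ^ (K₃ + K₁) ≤ L ^ K := pow_le_pow_right₀ hL hK
  calc C₃ * L ^ K₃ * (1 + 1) * (C₁ * L ^ K₁) = (2 * C₃ * C₁) * L ^ (K₃ + K₁) := by
        rw [pow_add]; ring
    _ ≤ C * L ^ K := mul_le_mul hC h1 (by positivity) h0.le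
    _ = 1 * (C * L ^ K) := by ring

lemma const2 {C C₁ x : ℝ} {K K₁ : ℕ} (hx : 1 ≤ x) (hC₁ : 1 ≤ C₁) (hC : C₁ ≤ C) (hK : K₁ ≤ K) :
    C₁ * x ^ K₁ ≤ C * x ^ K :=
  mul_le_mul hC (pow_le_pow_right₀ hx hK) (by positivity) (by linarith)

end PkgVFu

open PkgVF PkgVFu in
theorem pVFu (hVA : S_VA) (hVRu : S_VRu) (hVGu : S_VGu) (hVJ : S_VJ) (hEG : S_EG) (hVS : S_VS) :
    S_VFu := by
  intro N k hN hk P Q hPQ ρ hρ
  obtain ⟨C₃, K₃, hC₃, hG0⟩ := hVGu N k hN hk P Q hPQ
  obtain ⟨C₁, K₁, hC₁, hR1⟩ := hVRu N k hN hk P Q hPQ (ρ / 2) (half_pos hρ)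
  obtain ⟨C₂, K₂, hC₂, hR2⟩ := hVRu N k hN hk P Q hPQ ρ hρ
  have hlog : 0 ≤ 2 * Real.log N / ρ := by
    have : 0 ≤ Real.log N := Real.log_natCast_nonneg N
    positivity
  obtain ⟨C, hCdef⟩ : ∃ C, C = 2 * C₃ * (C₁ + C₂) + 2 * Real.log N / ρ := ⟨_, rfl⟩
  obtain ⟨K, hKdef⟩ : ∃ K, K = K₃ + K₁ + K₂ := ⟨_, rfl⟩
  have hC13 : 1 ≤ C₃ * C₁ := one_le_mul_of_one_le_of_one_le hC₃ hC₁
  have hC23 : 1 ≤ C₃ * C₂ := one_le_mul_of_one_le_of_one_le hC₃ hC₂
  have hCa : 2 * C₃ * C₁ ≤ C := by nlinarith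
  have hCb : 2 * C₃ * C₂ ≤ C := by nlinarith
  have hCc : C₁ ≤ C := by nlinarith
  have hCd : C₂ ≤ C := by nlinarith
  have hCe : 2 * Real.log N / ρ ≤ C := by nlinarith
  have hC1 : 1 ≤ C := by linarith
  refine ⟨C, K, hC1, fun L _ => ?_⟩
  have hL : (1 : ℝ) ≤ L := by
    have : 1 ≤ L := Nat.one_le_iff_ne_zero.2 (NeZero.ne L)
    exact_mod_cast this
  have hx : ∀ h : ℕ, (1 : ℝ) ≤ (L : ℝ) * (h + 1) := fun h => by
    have h0 : (0 : ℝ) ≤ h := Nat.cast_nonneg h
    nlinarith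
  have hoz := hVA N k L hN
  constructor
  · intro h β hβ hββ ε hε G hG a b ha hb hKa hKb hcard ω hrE
    have hβ1 : C₁ * ((L : ℝ) * (h + 1)) ^ K₁ ≤ β :=
      (const2 (hx h) hC₁ hCc (by omega)).trans hββ
    have hβ2 : 2 * Real.log N / ρ ≤ β := by
      have h0 : (1 : ℝ) ≤ ((L : ℝ) * (h + 1)) ^ K := one_le_pow₀ (hx h)
      nlinarith
    set X := lk ω with hX
    set z := zr G (rc a b) X with hz
    set σ := gau (gg G (rc a b) X) (cmv z X) with hσ
    set S := ∑ x ∈ cl (rc a b), crz z x with hS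
    have hrD : rD P Q σ (rc a b) ≤ 1 / (C₁ * (L : ℝ) ^ K₁) :=
      (hG0 L ε hε G hG (rc a b) X).trans
        ((mul_le_mul_of_nonneg_left (add_le_add hrE hcard) (by positivity)).trans
          (const1 hL hC₃ hC₁ hCa (by omega)))
    have hn := (hR1 L).1 h β hβ1 a b ha hb hKa hKb σ hrD
    have hker : (sysJ N L k β hβ).ker (mj N) (rc a b)
        (fun ω' => ind (¬ (N : ℤ) ∣ ∑ x ∈ cl (rc a b), fd G ω' x)) ω =
        (sysJ N L k β hβ).ker (mj N) (rc a b)
          (fun ω' => (fun n : ℤ => ind (¬ (N : ℤ) ∣ n - S)) (∑ x ∈ cl (rc a b), fx ω' x)) ω := by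
      refine ker_congr k β hβ (rc a b) _ _ ω fun ξ => ?_
      simp only [fd]
      rw [Finset.sum_sub_distrib, crz_ring G a b ha hb,
        zr_loc G (rc a b) (lk (glue (FrJ L (rc a b)) ξ ω)) X fun l hl => lk_glue _ _ _ l hl]
    rw [hker, (hVJ N k L hN β hβ).2 a b ha hb (fun n : ℤ => ind (¬ (N : ℤ) ∣ n - S)) ?_ ω]
    swap
    · intro n
      have : (N : ℤ) ∣ n + N - S ↔ (N : ℤ) ∣ n - S := by
        rw [show n + N - S = (n - S) + N by ring]
        exact dvd_add_self_right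
      simp only [this]
    have hfr : ∀ n : ℤ, Zf k β (dl a n) (rc a b) X = Zf k β (dl a (n - S)) (rc a b) σ := fun n =>
      Zf_frame hVA hVS k hN β hβ a b ha hb _ z X n
    have hD : ∑ n ∈ Finset.range N, Zf k β (dl a n) (rc a b) X =
        ∑ n ∈ Finset.range N, Zf k β (dl a n) (rc a b) σ := by
      simp only [hfr]
      exact shift_sum N (fun m => Zf k β (dl a m) (rc a b) σ)
        (fun m => Zf_per hVS k hN β hβ a b ha hb σ m) (-S)
    have hD0 : Zf k β (dl a 0) (rc a b) σ ≤ ∑ n ∈ Finset.range N, Zf k β (dl a n) (rc a b) σ := by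
      have := Finset.single_le_sum (f := fun n : ℕ => Zf k β (dl a n) (rc a b) σ)
        (fun n _ => Zf_nonneg k β _ _ _) (Finset.mem_range.2 (by omega : 0 < N))
      simpa using this
    set E := Real.exp (-β * (SS L k P Q - ρ / 2)) with hE
    have hEp : 0 < E := Real.exp_pos _
    have hnum : ∑ n ∈ Finset.range N, ind (¬ (N : ℤ) ∣ (n : ℤ) - S) * Zf k β (dl a n) (rc a b) X ≤
        N * (E * Zf k β (dl a 0) (rc a b) σ) := by
      have : ∀ n ∈ Finset.range N, ind (¬ (N : ℤ) ∣ (n : ℤ) - S) * Zf k β (dl a n) (rc a b) X ≤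
          E * Zf k β (dl a 0) (rc a b) σ := by
        intro n _
        rw [hfr]
        unfold ind
        by_cases hd : (N : ℤ) ∣ (n : ℤ) - S
        · rw [if_neg (not_not.2 hd), zero_mul]
          exact mul_nonneg hEp.le (Zf_nonneg _ _ _ _ _)
        · rw [if_pos hd, one_mul]
          exact hn _ hd
      refine (Finset.sum_le_sum this).trans ?_
      rw [Finset.sum_const, Finset.card_range, nsmul_eq_mul]
    have hD1 : 0 ≤ ∑ n ∈ Finset.range N, Zf k β (dl a n) (rc a b) X :=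
      Finset.sum_nonneg fun n _ => Zf_nonneg _ _ _ _ _
    refine (div_le_of_le_mul₀ hD1 (c := N * E) (by positivity) ?_).trans ?_
    · refine hnum.trans ?_
      rw [hD, mul_assoc]
      exact mul_le_mul_of_nonneg_left (mul_le_mul_of_nonneg_left hD0 hEp.le) (Nat.cast_nonneg _)
    · have hNpos : (0 : ℝ) < N := by
        have : 0 < N := by omega
        exact_mod_cast this
      have h5 : Real.log N ≤ β * (ρ / 2) := by
        rw [div_le_iff₀ hρ] at hβ2
        linarith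
      have h6 : (N : ℝ) ≤ Real.exp (β * (ρ / 2)) := (Real.log_le_iff_le_exp hNpos).1 h5
      calc (N : ℝ) * E ≤ Real.exp (β * (ρ / 2)) * E := mul_le_mul_of_nonneg_right h6 hEp.le
        _ = Real.exp (-β * (SS L k P Q - ρ)) := by
            rw [hE, ← Real.exp_add]
            congr 1
            ring
  · obtain ⟨K₁', hK₁', hR⟩ := (hR2 L).2
    refine ⟨K₁', hK₁'.trans (const2 hL hC₂ hCd (by omega)), ?_⟩
    intro h β hβ hββ a b c ha hb hKa hKb hNb ω hrE
    obtain ⟨e', he'⟩ : ∃ e', e' = 1 / (C * (L : ℝ) ^ K) := ⟨_, rfl⟩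
    rw [← he'] at hrE
    have he'p : 0 < e' := by rw [he']; positivity
    have hcp : (0 : ℝ) < (pls (rc a b)).card + 1 := by positivity
    obtain ⟨G, hG⟩ := hEG N L hN P Q (e' / ((pls (rc a b)).card + 1)) (by positivity)
    set ε := e' / ((pls (rc a b)).card + 1) with hε
    have hεp : 0 ≤ ε := by positivity
    have hcard : (pls (rc a b)).card * ε ≤ e' := by
      rw [hε, mul_div_assoc', div_le_iff₀ hcp]
      nlinarith
    set X := lk ω with hX
    set z := zr G (rc a b) X with hz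
    set σ := gau (gg G (rc a b) X) (cmv z X) with hσ
    set S := ∑ x ∈ cl (rc a b), crz z x with hS
    have hrD : rD P Q σ (rc a b) ≤ 1 / (C₂ * (L : ℝ) ^ K₂) := by
      refine (hG0 L ε hεp G hG (rc a b) X).trans
        ((mul_le_mul_of_nonneg_left (add_le_add hrE hcard) (by positivity)).trans ?_)
      rw [he']
      exact const1 hL hC₃ hC₂ hCb (by omega)
    have hn := hR h β ((const2 (hx h) hC₂ hCd (by omega)).trans hββ) a b c ha hb hKa hKb hNb σ hrD
    have hper : ∀ n : ℤ, oz N (n + N) = oz N n := fun n => hoz.2.2.2.2.1 _ _ (by simp)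
    rw [(hVJ N k L hN β hβ).2 a b ha hb (fun n : ℤ => (oz N n).re) (fun n => by rw [hper]) ω,
      (hVJ N k L hN β hβ).2 a b ha hb (fun n : ℤ => (oz N n).im) (fun n => by rw [hper]) ω]
    have hfr : ∀ n : ℤ, Zf k β (dl a n) (rc a b) X = Zf k β (dl a (n - S)) (rc a b) σ := fun n =>
      Zf_frame hVA hVS k hN β hβ a b ha hb _ z X n
    have hD : ∑ n ∈ Finset.range N, Zf k β (dl a n) (rc a b) X =
        ∑ n ∈ Finset.range N, Zf k β (dl a n) (rc a b) σ := by
      simp only [hfr]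
      exact shift_sum N (fun m => Zf k β (dl a m) (rc a b) σ)
        (fun m => Zf_per hVS k hN β hβ a b ha hb σ m) (-S)
    have hA : ∑ n ∈ Finset.range N, oz N (n : ℤ) * (Zf k β (dl a n) (rc a b) X : ℂ) =
        oz N S * ∑ n ∈ Finset.range N, om N n * (Zf k β (dl a n) (rc a b) σ : ℂ) := by
      have h7 := shift_sum N (fun m : ℤ => oz N m * (Zf k β (dl a m) (rc a b) σ : ℂ))
        (fun m => by
          rw [hper, Zf_per hVS k hN β hβ a b ha hb σ m]) (-S)
      have h8 : ∑ n ∈ Finset.range N, om N n * (Zf k β (dl a n) (rc a b) σ : ℂ) =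
          ∑ n ∈ Finset.range N, oz N (n : ℤ) * (Zf k β (dl a n) (rc a b) σ : ℂ) :=
        Finset.sum_congr rfl fun n _ => by rw [hoz.2.2.1 n]
      rw [h8, ← h7, Finset.mul_sum]
      refine Finset.sum_congr rfl fun n _ => ?_
      rw [hfr, ← mul_assoc, ← hoz.1, ← sub_eq_add_neg, add_sub_cancel]
    set A := ∑ n ∈ Finset.range N, oz N (n : ℤ) * (Zf k β (dl a n) (rc a b) X : ℂ) with hAdef
    have hre : ∑ n ∈ Finset.range N, (oz N (n : ℤ)).re * Zf k β (dl a n) (rc a b) X = A.re := by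
      rw [hAdef, Complex.re_sum]
      refine Finset.sum_congr rfl fun n _ => ?_
      simp
    have him : ∑ n ∈ Finset.range N, (oz N (n : ℤ)).im * Zf k β (dl a n) (rc a b) X = A.im := by
      rw [hAdef, Complex.im_sum]
      refine Finset.sum_congr rfl fun n _ => ?_
      simp
    rw [hre, him]
    set D := ∑ n ∈ Finset.range N, Zf k β (dl a n) (rc a b) X with hDdef
    have hnA : ‖A‖ ≤ (1 - Real.exp (-β * (SS L k P Q + ρ))) * D := by
      rw [hA, norm_mul, hoz.2.2.2.1, one_mul, hD]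
      exact hn
    have hD1 : 0 ≤ D := Finset.sum_nonneg fun n _ => Zf_nonneg _ _ _ _ _
    have h9 : (A.re / D) ^ 2 + (A.im / D) ^ 2 = (‖A‖ / D) ^ 2 := by
      rw [div_pow, div_pow, div_pow, ← add_div, Complex.sq_norm, Complex.normSq_apply]
      ring
    rw [h9]
    rcases hD1.eq_or_lt with h0 | h0
    · rw [← h0, div_zero, zero_pow two_ne_zero]
      exact sq_nonneg _
    · exact pow_le_pow_left₀ (div_nonneg (norm_nonneg A) hD1) ((div_le_iff₀ h0).2 hnA) 2

end T2H01.SE
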