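import Pool.Agent.T2H01.SE.Stm10
import Pool.Agent.T2H01.SE.VG

/-! Package VGu: the gauge near the vacuum on the ring, constants polynomial in `L`. -/

set_option autoImplicit false

noncomputable section

open MeasureTheory Matrix
open scoped Matrix.Norms.Frobenius

namespace T2H01.SE

open T2H02.TT T2H02.TT.PkgD T2H02.TT.PkgJ PkgVG

namespace PkgVGu

theorem core (N k L : ℕ) [NeZero L] (hN : 2 ≤ N) (P Q : SU N) (C1 C2 : ℝ) (hC1 : 0 < C1)
    (hC2 : 0 < C2)
    (h1 : ∀ φ : Ph N L, ∃ g : Tor L → SU N, dst (act g φ) (vac P Q) ≤ C1 * VV k φ)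
    (h2 : ∀ (φ ψ : Ph N L) (U : Tor L → SU N) (e : ℝ), dst φ (vac P Q) ≤ e →
      dst ψ (vac P Q) ≤ e →
      ∑ y, ∑ j, ‖(U y : Mt N) * (ψ y j : Mt N) - (φ y j : Mt N) * (U (tsh y j) : Mt N)‖ ^ 2 ≤ e →
      ∃ m : Fin N, ∑ y, ‖(U y : Mt N) - om N m • (1 : Mt N)‖ ^ 2 ≤ C2 * e)
    (ε : ℝ) (hε : 0 ≤ ε) (G : Ph N L → Tor L → SU N) (hG : GF P Q ε G) (U : Finset Pl)
    (X : Cf N L) :
    rD P Q (gau (gg G U X) (cmv (zr G U X) X)) U ≤
      (1 + C1 + 4 * C1 * C2 + 4 * C2) * (rE k X U + (pls U).card * ε) := by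
  set R := pls U \ U with hR
  have hT : ∀ x, dst (act (G (pt X x)) (pt X x)) (vac P Q) ≤ C1 * eV k X x + ε := by
    intro x
    obtain ⟨g, hg⟩ := h1 (pt X x)
    have := hG.2 (pt X x) g
    rw [PkgG1.eV_eq]
    linarith
  have hL : ∀ (x : Pl) (m : Fin 4), m = 0 ∨ m = 1 →
      ∑ y : Tor L, ‖((cen N (zz G X x m) * PkgDT.gl G X x m y : SU N) : Mt N) - 1‖ ^ 2 ≤
        C2 * (C1 * eV k X x + C1 * eV k X (x + pe m) + 2 * eK X x m + 2 * ε) := by
    intro x m hm
    have a0 := eV_nonneg k X x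
    have a1 := eV_nonneg k X (x + pe m)
    have a2 := eK_nonneg X x m
    have b0 := mul_nonneg hC1.le a0
    have b1 := mul_nonneg hC1.le a1
    obtain ⟨n, hn⟩ := h2 _ _ (PkgDT.gl G X x m)
      (C1 * eV k X x + C1 * eV k X (x + pe m) + 2 * eK X x m + 2 * ε)
      ((hT x).trans (by linarith)) ((hT (x + pe m)).trans (by linarith)) (by
        rw [PkgDT.eK_sum G X x hm]
        linarith)
    exact (near_le hN G X x m n).trans hn
  have hRc : (R.card : ℝ) * ε ≤ (pls U).card * ε :=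
    mul_le_mul_of_nonneg_right (by exact_mod_cast Finset.card_le_card Finset.sdiff_subset) hε
  unfold rD
  refine (sum_split U _ fun l => by positivity).trans ?_
  -- bound of every summand
  have key : ∀ x ∈ R, ((∑ y : Tor L, (‖((gau (gg G U X) (cmv (zr G U X) X) ((x, y), 2) : SU N) : Mt N) -
        ((vc P Q ((x, y), 2) : SU N) : Mt N)‖ ^ 2 +
      ‖((gau (gg G U X) (cmv (zr G U X) X) ((x, y), 3) : SU N) : Mt N) -
        ((vc P Q ((x, y), 3) : SU N) : Mt N)‖ ^ 2)) +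
      (if x + pe 0 ∈ R then ∑ y : Tor L, ‖((gau (gg G U X) (cmv (zr G U X) X) ((x, y), 0) : SU N) : Mt N) -
        ((vc P Q ((x, y), 0) : SU N) : Mt N)‖ ^ 2 else 0) +
      (if x + pe 1 ∈ R then ∑ y : Tor L, ‖((gau (gg G U X) (cmv (zr G U X) X) ((x, y), 1) : SU N) : Mt N) -
        ((vc P Q ((x, y), 1) : SU N) : Mt N)‖ ^ 2 else 0)) ≤
      (C1 * eV k X x + ε) +
      (if x + pe 0 ∈ R then
        C2 * (C1 * eV k X x + C1 * eV k X (x + pe 0) + 2 * eK X x 0 + 2 * ε) else 0) +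
      (if x + pe 1 ∈ R then
        C2 * (C1 * eV k X x + C1 * eV k X (x + pe 1) + 2 * eK X x 1 + 2 * ε) else 0) := by
    intro x hx
    refine add_le_add (add_le_add ?_ ?_) ?_
    · rw [torus P Q G U X x hx]
      exact hT x
    · split_ifs with h
      · simp only [plane P Q G U X x (Or.inl rfl) hx h]
        exact hL x 0 (Or.inl rfl)
      · exact le_rfl
    · split_ifs with h
      · simp only [plane P Q G U X x (Or.inr rfl) hx h]
        exact hL x 1 (Or.inr rfl)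
      · exact le_rfl
  refine (Finset.sum_le_sum key).trans ?_
  rw [Finset.sum_add_distrib, Finset.sum_add_distrib, ← Finset.sum_filter, ← Finset.sum_filter]
  -- the three sums of energies
  have s0 : ∑ x ∈ R, eV k X x ≤ rE k X U := by
    have := sum_le_rE k X U R (fun x => (x, 0)) (fun a b h => (Prod.ext_iff.1 h).1) (by
      intro x hx a ha
      rw [mem_cor0] at ha
      rw [ha]
      exact hx)
    simpa [en] using this
  have s1 : ∀ m : Fin 4, ∑ x ∈ R.filter (fun x => x + pe m ∈ R), eV k X x ≤ rE k X U := fun m =>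
    (Finset.sum_le_sum_of_subset_of_nonneg (Finset.filter_subset _ _)
      fun x _ _ => eV_nonneg _ _ _).trans s0
  have s2 : ∀ m : Fin 4, ∑ x ∈ R.filter (fun x => x + pe m ∈ R), eV k X (x + pe m) ≤ rE k X U := by
    intro m
    have := sum_le_rE k X U (R.filter (fun x => x + pe m ∈ R)) (fun x => (x + pe m, 0))
      (fun a b h => add_right_cancel (Prod.ext_iff.1 h).1) (by
      intro x hx a ha
      rw [mem_cor0] at ha
      rw [ha]
      exact (Finset.mem_filter.1 hx).2)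
    simpa [en] using this
  have s3 : ∑ x ∈ R.filter (fun x => x + pe 0 ∈ R), eK X x 0 ≤ rE k X U := by
    have := sum_le_rE k X U (R.filter (fun x => x + pe 0 ∈ R)) (fun x => (x, 1))
      (fun a b h => (Prod.ext_iff.1 h).1) (by
      intro x hx a ha
      rw [mem_cor1] at ha
      rcases ha with rfl | rfl
      · exact (Finset.mem_filter.1 hx).1
      · have h := (Finset.mem_filter.1 hx).2
        rwa [show (pe 0 : Pl) = (1, 0) by simp [pe]] at h)
    simpa [en] using this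
  have s4 : ∑ x ∈ R.filter (fun x => x + pe 1 ∈ R), eK X x 1 ≤ rE k X U := by
    have := sum_le_rE k X U (R.filter (fun x => x + pe 1 ∈ R)) (fun x => (x, 2))
      (fun a b h => (Prod.ext_iff.1 h).1) (by
      intro x hx a ha
      rw [mem_cor2] at ha
      rcases ha with rfl | rfl
      · exact (Finset.mem_filter.1 hx).1
      · have h := (Finset.mem_filter.1 hx).2
        rwa [show (pe 1 : Pl) = (0, 1) by simp [pe]] at h)
    simpa [en] using this
  have hE0 : 0 ≤ rE k X U := Finset.sum_nonneg fun τ _ => en_nonneg _ _ _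
  have hc : ∀ m : Fin 4, ((R.filter (fun x => x + pe m ∈ R)).card : ℝ) * ε ≤ (pls U).card * ε :=
    fun m => (mul_le_mul_of_nonneg_right
      (by exact_mod_cast Finset.card_le_card (Finset.filter_subset _ _)) hε).trans hRc
  have t0 : ∑ x ∈ R, (C1 * eV k X x + ε) ≤ C1 * rE k X U + (pls U).card * ε := by
    rw [Finset.sum_add_distrib, ← Finset.mul_sum, Finset.sum_const, nsmul_eq_mul]
    exact add_le_add (mul_le_mul_of_nonneg_left s0 hC1.le) hRc
  have t1 : ∀ m : Fin 4, ∑ x ∈ R.filter (fun x => x + pe m ∈ R), eK X x m ≤ rE k X U →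
      ∑ x ∈ R.filter (fun x => x + pe m ∈ R),
        C2 * (C1 * eV k X x + C1 * eV k X (x + pe m) + 2 * eK X x m + 2 * ε) ≤
      C2 * (C1 * rE k X U + C1 * rE k X U + 2 * rE k X U + 2 * ((pls U).card * ε)) := by
    intro m h
    rw [← Finset.mul_sum]
    refine mul_le_mul_of_nonneg_left ?_ hC2.le
    rw [Finset.sum_add_distrib, Finset.sum_add_distrib, Finset.sum_add_distrib, ← Finset.mul_sum,
      ← Finset.mul_sum, ← Finset.mul_sum, Finset.sum_const, nsmul_eq_mul]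
    have u1 := mul_le_mul_of_nonneg_left (s1 m) hC1.le
    have u2 := mul_le_mul_of_nonneg_left (s2 m) hC1.le
    have u3 := hc m
    linarith
  have t2 := t1 0 s3
  have t3 := t1 1 s4
  have hp : 0 ≤ ((pls U).card : ℝ) * ε := by positivity
  have q1 : 0 ≤ C1 * C2 * ((pls U).card * ε) := by positivity
  have q2 : 0 ≤ C1 * ((pls U).card * ε) := by positivity
  nlinarith [t0, t2, t3]


end PkgVGu

theorem pVGu (hD1 : S_D1u) (hJ : S_Ju) : S_VGu := by
  intro N k hN hk P Q hPQ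
  obtain ⟨C1, K1, hC1, h1⟩ := hD1 N k hN hk P Q hPQ
  obtain ⟨C2, K2, hC2, h2⟩ := hJ N k hN hk P Q hPQ
  refine ⟨1 + C1 + 4 * C1 * C2 + 4 * C2, K1 + K2, by nlinarith, fun L _ ε hε G hG U X => ?_⟩
  have hL1 : (1 : ℝ) ≤ L := by
    exact_mod_cast Nat.one_le_iff_ne_zero.2 (NeZero.ne L)
  have p1 : (1 : ℝ) ≤ (L : ℝ) ^ K1 := one_le_pow₀ hL1
  have p2 : (1 : ℝ) ≤ (L : ℝ) ^ K2 := one_le_pow₀ hL1
  have hC1' : 0 < C1 * (L : ℝ) ^ K1 := by nlinarith
  have hC2' : 0 < C2 * (L : ℝ) ^ K2 := by nlinarith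
  refine (PkgVGu.core N k L hN P Q _ _ hC1' hC2' (h1 L) (h2 L) ε hε G hG U X).trans ?_
  have hE0 : 0 ≤ rE k X U := Finset.sum_nonneg fun τ _ => en_nonneg _ _ _
  have h3 : 0 ≤ rE k X U + (pls U).card * ε := by positivity
  refine mul_le_mul_of_nonneg_right ?_ h3
  have e1 : (L : ℝ) ^ (K1 + K2) = (L : ℝ) ^ K1 * (L : ℝ) ^ K2 := pow_add _ _ _
  rw [e1]
  have q1 : 1 ≤ (L : ℝ) ^ K1 * (L : ℝ) ^ K2 := one_le_mul_of_one_le_of_one_le p1 p2
  have q2 : (L : ℝ) ^ K1 ≤ (L : ℝ) ^ K1 * (L : ℝ) ^ K2 := le_mul_of_one_le_right (by linarith) p2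
  have q3 : (L : ℝ) ^ K2 ≤ (L : ℝ) ^ K1 * (L : ℝ) ^ K2 := le_mul_of_one_le_left (by linarith) p1
  have r1 := mul_le_mul_of_nonneg_left q2 (by linarith : 0 ≤ C1)
  have r2 := mul_le_mul_of_nonneg_left q3 (by linarith : 0 ≤ C2)
  nlinarith

end T2H01.SE
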