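import Pool.Agent.T2H01.SE.Stm10
import Pool.Agent.T2H01.SE.VH

/-!
# Package VHu : a good ring exists with large probability, uniform in `L` (helper18, port of VH)
-/

set_option autoImplicit false
set_option linter.unusedSectionVars false
set_option linter.unusedVariables false

noncomputable section

open MeasureTheory Matrix
open scoped Matrix.Norms.Frobenius

namespace T2H01.SE.PkgVHu

open T2H02.TT T2H02.TT.PkgH T2H01.SE.PkgVH

/-- polynomially bounded -/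
def Pol (f : ℕ → ℝ) : Prop := ∃ (C : ℝ) (K : ℕ), 1 ≤ C ∧ ∀ L : ℕ, 1 ≤ L → |f L| ≤ C * (L : ℝ) ^ K

lemma one_le_powL {L : ℕ} (hL : 1 ≤ L) (K : ℕ) : (1 : ℝ) ≤ (L : ℝ) ^ K :=
  one_le_pow₀ (by exact_mod_cast hL)

lemma Pol.const (c : ℝ) : Pol fun _ => c := by
  refine ⟨max 1 |c|, 0, le_max_left _ _, fun L _ => ?_⟩
  rw [pow_zero, mul_one]
  exact le_max_right _ _

lemma Pol.lpow (K : ℕ) : Pol fun L => (L : ℝ) ^ K := by
  refine ⟨1, K, le_rfl, fun L _ => ?_⟩
  rw [one_mul, abs_of_nonneg (by positivity)]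

lemma Pol.add {f g : ℕ → ℝ} (hf : Pol f) (hg : Pol g) : Pol fun L => f L + g L := by
  obtain ⟨C, K, hC, h1⟩ := hf
  obtain ⟨C', K', hC', h2⟩ := hg
  refine ⟨C + C', K + K', by linarith, fun L hL => ?_⟩
  have h3 := h1 L hL
  have h4 := h2 L hL
  have h5 := one_le_powL hL K
  have h6 := one_le_powL hL K'
  have h7 : |f L + g L| ≤ |f L| + |g L| := abs_add_le _ _
  have h8 : C * (L : ℝ) ^ K ≤ C * (L : ℝ) ^ (K + K') := by
    rw [pow_add]
    exact mul_le_mul_of_nonneg_left (le_mul_of_one_le_right (by positivity) h6) (by linarith)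
  have h9 : C' * (L : ℝ) ^ K' ≤ C' * (L : ℝ) ^ (K + K') := by
    rw [pow_add]
    exact mul_le_mul_of_nonneg_left (le_mul_of_one_le_left (by positivity) h5) (by linarith)
  calc |f L + g L| ≤ C * (L : ℝ) ^ (K + K') + C' * (L : ℝ) ^ (K + K') := by linarith
    _ = _ := by ring

lemma Pol.mul {f g : ℕ → ℝ} (hf : Pol f) (hg : Pol g) : Pol fun L => f L * g L := by
  obtain ⟨C, K, hC, h1⟩ := hf
  obtain ⟨C', K', hC', h2⟩ := hg
  refine ⟨C * C', K + K', one_le_mul_of_one_le_of_one_le hC hC', fun L hL => ?_⟩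
  rw [abs_mul, pow_add]
  calc |f L| * |g L| ≤ (C * (L : ℝ) ^ K) * (C' * (L : ℝ) ^ K') :=
        mul_le_mul (h1 L hL) (h2 L hL) (abs_nonneg _) (by positivity)
    _ = _ := by ring

lemma Pol.pow {f : ℕ → ℝ} (hf : Pol f) (n : ℕ) : Pol fun L => f L ^ n := by
  induction n with
  | zero => simpa using Pol.const 1
  | succ n ih => simpa [pow_succ] using ih.mul hf

lemma Pol.ceil {f : ℕ → ℝ} (hf : Pol f) : Pol fun L => ((⌈f L⌉₊ : ℕ) : ℝ) := by
  obtain ⟨C, K, hC, h1⟩ := hf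
  refine ⟨C + 1, K, by linarith, fun L hL => ?_⟩
  have h2 := h1 L hL
  have h3 := one_le_powL hL K
  rw [abs_of_nonneg (by positivity)]
  have h4 : ((⌈f L⌉₊ : ℕ) : ℝ) ≤ |f L| + 1 := by
    rcases le_total 0 (f L) with h | h
    · rw [abs_of_nonneg h]
      exact (Nat.ceil_lt_add_one h).le
    · rw [Nat.ceil_eq_zero.2 h]
      have := abs_nonneg (f L)
      push_cast
      linarith
  calc ((⌈f L⌉₊ : ℕ) : ℝ) ≤ C * (L : ℝ) ^ K + 1 := by linarith
    _ ≤ C * (L : ℝ) ^ K + (L : ℝ) ^ K := by linarith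
    _ = _ := by ring

/-- the choice of the radius -/
lemma choose_R {b : ℝ} (hb : 1 ≤ b) (M R : ℕ) (hM : M ≤ R) (hR : 54 * b ^ 4 ≤ (R : ℝ)) :
    b * (((M + 2 * R : ℕ) : ℝ) ^ 2 * Real.exp (-R / b)) ≤ 1 := by
  have hb0 : 0 < b := by linarith
  have hR0 : 0 < (R : ℝ) := lt_of_lt_of_le (by positivity) hR
  have h1 : ((M + 2 * R : ℕ) : ℝ) ≤ 3 * R := by
    have : (M : ℝ) ≤ R := by exact_mod_cast hM
    push_cast
    linarith
  have h2 : ((M + 2 * R : ℕ) : ℝ) ^ 2 ≤ 9 * (R : ℝ) ^ 2 := by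
    calc ((M + 2 * R : ℕ) : ℝ) ^ 2 ≤ (3 * R) ^ 2 := pow_le_pow_left₀ (by positivity) h1 2
      _ = _ := by ring
  have hx : 0 ≤ (R : ℝ) / b := by positivity
  have h3 : ((R : ℝ) / b) ^ 3 / 6 ≤ Real.exp ((R : ℝ) / b) := by
    have h := Real.pow_div_factorial_le_exp ((R : ℝ) / b) hx 3
    simpa [Nat.factorial] using h
  have h4 : Real.exp (-R / b) ≤ 6 * b ^ 3 / (R : ℝ) ^ 3 := by
    rw [show -(R : ℝ) / b = -((R : ℝ) / b) by ring, Real.exp_neg]
    rw [inv_le_iff_one_le_mul₀ (Real.exp_pos _)]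
    calc (1 : ℝ) = 6 * b ^ 3 / (R : ℝ) ^ 3 * (((R : ℝ) / b) ^ 3 / 6) := by field_simp
      _ ≤ 6 * b ^ 3 / (R : ℝ) ^ 3 * Real.exp ((R : ℝ) / b) :=
        mul_le_mul_of_nonneg_left h3 (by positivity)
  calc b * (((M + 2 * R : ℕ) : ℝ) ^ 2 * Real.exp (-R / b)) ≤
        b * ((9 * (R : ℝ) ^ 2) * (6 * b ^ 3 / (R : ℝ) ^ 3)) := by gcongr
    _ = 54 * b ^ 4 / R := by field_simp; ring
    _ ≤ 1 := (div_le_one hR0).2 hR

/-- the choice of `β` -/
lemma choose_beta {b β : ℝ} (hb : 1 ≤ b) (n R : ℕ) (hβ : 16 * (n : ℝ) ^ 2 * b + 2 * (R + 1) ≤ β) :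
    (R + 1 : ℝ) * (b * β) ^ n * Real.exp (-β) ≤ 1 := by
  have hR0 : (0 : ℝ) ≤ R := Nat.cast_nonneg R
  have hβ0 : 0 < β := lt_of_lt_of_le (by positivity) hβ
  have hb0 : 0 < b := by linarith
  have h1 : (R + 1 : ℝ) ≤ Real.exp (β / 2) := by
    have h2 := Real.add_one_le_exp (β / 2)
    have : 0 ≤ 16 * (n : ℝ) ^ 2 * b := by positivity
    linarith
  have h2 : (b * β) ^ n ≤ Real.exp (β / 2) := by
    have h3 : b * β ≤ Real.exp (2 * Real.sqrt (b * β)) := by
      have h4 := Real.add_one_le_exp (Real.sqrt (b * β))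
      have h5 : Real.sqrt (b * β) ≤ Real.exp (Real.sqrt (b * β)) := by linarith
      have h6 := Real.sq_sqrt (by positivity : 0 ≤ b * β)
      calc b * β = Real.sqrt (b * β) ^ 2 := h6.symm
        _ ≤ Real.exp (Real.sqrt (b * β)) ^ 2 := pow_le_pow_left₀ (Real.sqrt_nonneg _) h5 2
        _ = _ := by rw [← Real.exp_nat_mul]; norm_num
    calc (b * β) ^ n ≤ Real.exp (2 * Real.sqrt (b * β)) ^ n :=
          pow_le_pow_left₀ (by positivity) h3 n
      _ = Real.exp (n * (2 * Real.sqrt (b * β))) := by rw [← Real.exp_nat_mul]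
      _ ≤ Real.exp (β / 2) := by
          refine Real.exp_le_exp.2 ?_
          have h7 : 4 * n * Real.sqrt (b * β) ≤ β := by
            refine abs_le_of_sq_le_sq' ?_ hβ0.le |>.2
            rw [mul_pow, Real.sq_sqrt (by positivity : 0 ≤ b * β)]
            have h8 : 16 * (n : ℝ) ^ 2 * b ≤ β := by linarith
            calc (4 * (n : ℝ)) ^ 2 * (b * β) = (16 * (n : ℝ) ^ 2 * b) * β := by ring
              _ ≤ β * β := mul_le_mul_of_nonneg_right h8 hβ0.le
              _ = β ^ 2 := by ring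
          linarith
  calc (R + 1 : ℝ) * (b * β) ^ n * Real.exp (-β) ≤
        Real.exp (β / 2) * Real.exp (β / 2) * Real.exp (-β) := by gcongr
    _ = 1 := by rw [← Real.exp_add, ← Real.exp_add]; simp

theorem main (hH : S_Hu) (h5 : S_F5) (hV : S_VL) (hYE : S_YE) : S_VHu := by
  intro N k hN hk P Q hPQ C₀ K₀ hC₀
  obtain ⟨C1, K1, D, hC1, hH'⟩ := hH N k hN hk
  obtain ⟨S₀, hS₀⟩ := hYE N hN
  obtain ⟨S₁, hS₁⟩ : ∃ S₁, S₁ = max S₀ 0 := ⟨_, rfl⟩
  have hS₁0 : 0 ≤ S₁ := hS₁ ▸ le_max_right _ _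
  -- the parameters as functions of `L`
  let A : ℕ → ℝ := fun L => C₀ * (L : ℝ) ^ K₀
  let b : ℕ → ℝ := fun L => C1 * (L : ℝ) ^ K1
  let m : ℕ → ℕ := fun L => ⌈A L * (1 + b L * (S₁ + 2))⌉₊ + 1
  let R : ℕ → ℕ := fun L => (8 * m L + 7) + ⌈54 * b L ^ 4⌉₊
  let n : ℕ → ℕ := fun L => D * L ^ 2 * (8 * m L + 7 + 2 * R L) ^ 2
  have pA : Pol A := (Pol.const C₀).mul (Pol.lpow K₀)
  have pb : Pol b := (Pol.const C1).mul (Pol.lpow K1)
  have pm : Pol fun L => (m L : ℝ) := by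
    have h := ((pA.mul ((Pol.const 1).add (pb.mul (Pol.const (S₁ + 2))))).ceil).add (Pol.const 1)
    simpa [m] using h
  have pR : Pol fun L => (R L : ℝ) := by
    have h := (((Pol.const 8).mul pm).add (Pol.const 7)).add
      (((Pol.const 54).mul (pb.pow 4)).ceil)
    simpa [R] using h
  have pn : Pol fun L => (n L : ℝ) := by
    have h := ((Pol.const D).mul (Pol.lpow 2)).mul
      (((((Pol.const 8).mul pm).add (Pol.const 7)).add ((Pol.const 2).mul pR)).pow 2)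
    simpa [n] using h
  obtain ⟨C, K, hC, hfin⟩ := (((((Pol.const 16).mul (pn.pow 2)).mul pb).add
    ((Pol.const 2).mul (pR.add (Pol.const 1)))).add pm)
  refine ⟨C, K, hC, fun L _ => ?_⟩
  have hL : 1 ≤ L := Nat.one_le_iff_ne_zero.2 (NeZero.ne L)
  have hLK := one_le_powL hL K
  have hb1 : 1 ≤ b L := one_le_mul_of_one_le_of_one_le hC1 (one_le_powL hL K1)
  have hA1 : 1 ≤ A L := one_le_mul_of_one_le_of_one_le hC₀ (one_le_powL hL K₀)
  have hb0 : 0 < b L := by linarith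
  have hA0 : 0 < A L := by linarith
  have hfinL := (le_abs_self _).trans (hfin L hL)
  have hRn : (0 : ℝ) ≤ R L := Nat.cast_nonneg _
  have hmn : (0 : ℝ) ≤ m L := Nat.cast_nonneg _
  have hq : 0 ≤ 16 * (n L : ℝ) ^ 2 * b L := by positivity
  refine ⟨m L, by simp [m], by linarith, fun β hβ hββ Λ q => ?_⟩
  have hβ1 : 1 ≤ β := by
    have : 1 ≤ C * (L : ℝ) ^ K := one_le_mul_of_one_le_of_one_le hC hLK
    linarith
  obtain ⟨-, -, hvc⟩ := hV N k L hN hk P Q hPQ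
  have hSS : 0 ≤ SS L k P Q := SS_nonneg k P Q
  have hSS1 : SS L k P Q ≤ S₁ := (hS₀ k L hk P Q hPQ).trans (hS₁ ▸ le_max_left _ _)
  obtain ⟨s, hs⟩ : ∃ s, s = SS L k P Q := ⟨_, rfl⟩
  rw [← hs] at hSS hSS1 ⊢
  obtain ⟨e, he⟩ : ∃ e : ℝ, e = 1 / (C₀ * (L : ℝ) ^ K₀) := ⟨_, rfl⟩
  rw [← he]
  have hme : 1 + b L * (s + 2) ≤ m L * e := by
    have h1 : A L * (1 + b L * (S₁ + 2)) ≤ m L := by
      refine (Nat.le_ceil _).trans ?_
      simp only [m]
      push_cast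
      linarith
    have h2 : m L * e = m L / A L := by rw [he]; simp only [A]; ring
    rw [h2, le_div_iff₀ hA0]
    have h3 : (1 + b L * (s + 2)) ≤ 1 + b L * (S₁ + 2) := by gcongr
    calc (1 + b L * (s + 2)) * A L ≤ (1 + b L * (S₁ + 2)) * A L :=
          mul_le_mul_of_nonneg_right h3 hA0.le
      _ ≤ m L := by rw [mul_comm]; exact h1
  have hR : b L * (((8 * m L + 7 + 2 * R L : ℕ) : ℝ) ^ 2 * Real.exp (-(R L : ℝ) / b L)) ≤ 1 := by
    refine choose_R hb1 (8 * m L + 7) (R L) (by simp only [R]; omega) ?_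
    refine (Nat.le_ceil _).trans ?_
    exact_mod_cast (by simp only [R]; omega : ⌈54 * b L ^ 4⌉₊ ≤ R L)
  have hcard := card_bal_le q (m L) (R L)
  obtain ⟨B, hB⟩ : ∃ B, B = pls (Qs q (m L)) := ⟨_, rfl⟩
  rw [← hB] at hcard
  have hkey := hH' L β hβ hβ1 Λ B (R L) 0 (s + 2) le_rfl (by linarith) (vc P Q)
    fun τ _ => (hvc τ).le
  have hmeas1 : Measurable fun X : Cf N L =>
      ind (∀ j ∈ Finset.Icc 1 (m L), e < rE k X (Qs q j)) := by
    unfold ind
    refine Measurable.ite ?_ measurable_const measurable_const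
    have h1 : {X : Cf N L | ∀ j ∈ Finset.Icc 1 (m L), e < rE k X (Qs q j)} =
        ⋂ j ∈ Finset.Icc 1 (m L), {X : Cf N L | e < rE k X (Qs q j)} := by
      ext X
      simp
    rw [h1]
    exact Finset.measurableSet_biInter _ fun j _ =>
      measurableSet_lt measurable_const (en_meas k hN _)
  have hmono := ((h5 (Lk L) Tm (SU N) (sysS N L k β hN hβ) (hm N) Λ).2.2.1
    (fun X => ind (∀ j ∈ Finset.Icc 1 (m L), e < rE k X (Qs q j)))
    (fun X => ind (C1 * (L : ℝ) ^ K1 * ((bal (R L + 1) B).card *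
        (Real.exp (-(R L : ℝ) / (C1 * (L : ℝ) ^ K1)) + 0) + (s + 2)) ≤
        ∑ τ ∈ tml (B ∩ Λ), en k X τ))
    hmeas1 ⟨1, fun _ => ind_abs _⟩
    (ind_meas _ _ measurable_const (en_meas k hN _)) ⟨1, fun _ => ind_abs _⟩ (vc P Q)).1
  refine (hmono fun ξ => ?_).trans (hkey.trans ?_)
  · obtain ⟨X, hX⟩ : ∃ X : Cf N L, X = glue ((sysS N L k β hN hβ).Fr Λ) ξ (vc P Q) := ⟨_, rfl⟩
    rw [← hX]
    by_cases hall : ∀ j ∈ Finset.Icc 1 (m L), e < rE k X (Qs q j)
    · rw [ind_true hall, ind_true]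
      have hXv : ∀ l, l ∉ Frl L Λ → X l = vc P Q l := by
        intro l hl
        rw [hX]
        unfold glue
        exact if_neg hl
      have h1 := det k P Q hvc Λ q (m L) X hXv
      rw [← hB] at h1
      refine le_trans ?_ h1
      have h2 : (m L : ℝ) * e ≤ ∑ j ∈ Finset.Icc 1 (m L), rE k X (Qs q j) := by
        have h3 := Finset.card_nsmul_le_sum (Finset.Icc 1 (m L)) (fun j => rE k X (Qs q j)) e
          fun j hj => (hall j hj).le
        rw [Nat.card_Icc, nsmul_eq_mul] at h3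
        simpa using h3
      have h4 : b L * (((bal (R L + 1) B).card : ℝ) * Real.exp (-(R L : ℝ) / b L)) ≤ 1 := by
        refine le_trans ?_ hR
        refine mul_le_mul_of_nonneg_left (mul_le_mul_of_nonneg_right ?_ (Real.exp_pos _).le) hb0.le
        exact_mod_cast hcard
      have h6 : C1 * (L : ℝ) ^ K1 * ((bal (R L + 1) B).card *
          (Real.exp (-(R L : ℝ) / (C1 * (L : ℝ) ^ K1)) + 0) + (s + 2)) =
          b L * (((bal (R L + 1) B).card : ℝ) * Real.exp (-(R L : ℝ) / b L)) + b L * (s + 2) := by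
        simp only [b]
        ring
      rw [h6]
      linarith
    · have h1 : ind (∀ j ∈ Finset.Icc 1 (m L), e < rE k X (Qs q j)) = 0 := by
        unfold ind
        rw [if_neg hall]
      rw [h1]
      exact ind_nonneg _
  · have hbβ : 1 ≤ b L * β := one_le_mul_of_one_le_of_one_le hb1 hβ1
    have h1 : (b L * β) ^ (D * L ^ 2 * (bal (R L + 1) B).card) ≤ (b L * β) ^ (n L) := by
      refine pow_le_pow_right₀ hbβ ?_
      exact Nat.mul_le_mul_left _ hcard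
    have hch := choose_beta hb1 (n L) (R L) (β := β) (by linarith)
    calc ((R L : ℝ) + 1) * (Real.exp (-β * (s + 2)) *
          (b L * β) ^ (D * L ^ 2 * (bal (R L + 1) B).card)) ≤
          (R L + 1) * (Real.exp (-β * (s + 2)) * (b L * β) ^ (n L)) := by gcongr
      _ = Real.exp (-β * (s + 1)) * ((R L + 1) * (b L * β) ^ (n L) * Real.exp (-β)) := by
          rw [show -β * (s + 2) = -β * (s + 1) + -β by ring, Real.exp_add]
          ring
      _ ≤ Real.exp (-β * (s + 1)) * 1 :=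
          mul_le_mul_of_nonneg_left hch (Real.exp_pos _).le
      _ = Real.exp (-β * (s + 1)) := mul_one _

end T2H01.SE.PkgVHu

namespace T2H01.SE

open T2H02.TT

/-- package VHu -/
theorem pVHu (hHu : S_Hu) (hF5 : S_F5) (hVL : S_VL) (hYE : S_YE) : S_VHu :=
  PkgVHu.main hHu hF5 hVL hYE

end T2H01.SE
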