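import Pool.Agent.T2H01.SE.Stm10
import Pool.Agent.T2H01.SE.VI

/-!
# Package VIu : lower bound of the partition functions, constants independent of `L`
-/

set_option autoImplicit false
set_option linter.unusedSectionVars false

noncomputable section

open MeasureTheory Matrix
open scoped Matrix.Norms.Frobenius

namespace T2H01.SE.PkgVIu

open T2H02.TT T2H01.SE.PkgVI

theorem pVIu (h2 : S_G2) (hVL : S_VLu) : S_VIu := by
  intro N k hN
  obtain ⟨CL, hCL, HL⟩ := hVL N k hN
  obtain ⟨c, D2, hc0, -, H2⟩ := h2 N hN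
  obtain ⟨K0, hK0⟩ : ∃ K0 : ℝ, K0 = 16 * (2 * CL * 5) := ⟨_, rfl⟩
  have hCL0 : 0 < CL := by linarith
  obtain ⟨C, hCa, hCb, hCc⟩ : ∃ C : ℝ, 1 ≤ C ∧ 1 / c ≤ C ∧ Real.exp K0 ≤ C :=
    ⟨max 1 (max (1 / c) (Real.exp K0)), le_max_left _ _,
      (le_max_left _ _).trans (le_max_right _ _), (le_max_right _ _).trans (le_max_right _ _)⟩
  refine ⟨C, 1 + 12 * (D2 + 1), hCa, fun L _ β hβ1 s U η X0 hX0 => ?_⟩
  obtain ⟨K, hK⟩ : ∃ K : ℝ, K = 16 * (2 * CL * (5 * (L : ℝ) ^ 2)) := ⟨_, rfl⟩
  have hβ0 : 0 < β := by linarith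
  let box : Set (Cf N L) := Set.pi (Frl L U : Set (Lk L)) fun l =>
    {g : SU N | ‖(g : Mt N) - (X0 l : Mt N)‖ ≤ 1 / β}
  have hballm : ∀ l : Lk L, MeasurableSet {g : SU N | ‖(g : Mt N) - (X0 l : Mt N)‖ ≤ 1 / β} := by
    intro l
    refine (isClosed_le ?_ continuous_const).measurableSet
    exact (continuous_subtype_val.sub continuous_const).norm
  have hboxm : MeasurableSet box := MeasurableSet.pi (Finset.countable_toSet _) fun l _ => hballm l
  obtain ⟨w0, hw0d⟩ : ∃ w0 : ℝ, w0 = Real.exp (-(β + 1) * EE k s U X0) *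
    Real.exp (-(K * U.card)) := ⟨_, rfl⟩
  have hw0 : 0 < w0 := by rw [hw0d]; positivity
  have hlow : ∀ ξ ∈ box, w0 ≤ Real.exp (-β * EE k s U (glue (Frl L U) ξ η)) := by
    intro ξ hξ
    have hr : ∀ l, ‖((glue (Frl L U) ξ η l : SU N) : Mt N) - (X0 l : Mt N)‖ ≤ 1 / β := by
      intro l
      unfold glue
      split_ifs with h
      · exact hξ l h
      · rw [hX0 l h, sub_self, norm_zero]
        positivity
    have h4 : ∀ τ, β * enf k s (glue (Frl L U) ξ η) τ ≤ (β + 1) * enf k s X0 τ +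
        2 * CL * (5 * (L : ℝ) ^ 2) := by
      intro τ
      have h5 := HL L (1 / β) (by positivity) s τ X0 (glue (Frl L U) ξ η)
      have h6 : ∑ l ∈ (spt τ : Finset (Lk L)),
          ‖((glue (Frl L U) ξ η l : SU N) : Mt N) - (X0 l : Mt N)‖ ^ 2 ≤
          5 * (L : ℝ) ^ 2 * (1 / β) ^ 2 := by
        calc _ ≤ ∑ l ∈ (spt τ : Finset (Lk L)), (1 / β) ^ 2 := Finset.sum_le_sum fun l _ =>
              pow_le_pow_left₀ (norm_nonneg _) (hr l) 2
          _ = ((spt τ : Finset (Lk L)).card : ℝ) * (1 / β) ^ 2 := by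
              rw [Finset.sum_const, nsmul_eq_mul]
          _ ≤ 5 * (L : ℝ) ^ 2 * (1 / β) ^ 2 := by
              refine mul_le_mul_of_nonneg_right ?_ (by positivity)
              exact_mod_cast card_spt (L := L) τ
      have h7 : (1 + 1 / (1 / β)) * CL * ∑ l ∈ (spt τ : Finset (Lk L)),
          ‖((glue (Frl L U) ξ η l : SU N) : Mt N) - (X0 l : Mt N)‖ ^ 2 ≤
          (1 + β) * CL * (5 * (L : ℝ) ^ 2 * (1 / β) ^ 2) := by
        rw [one_div_one_div]
        exact mul_le_mul_of_nonneg_left h6 (by positivity)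
      have h8 := mul_le_mul_of_nonneg_left (h5.trans (add_le_add_right h7 _)) hβ0.le
      refine h8.trans ?_
      have h9 : β * ((1 + 1 / β) * enf k s X0 τ + (1 + β) * CL * (5 * (L : ℝ) ^ 2 * (1 / β) ^ 2)) =
          (β + 1) * enf k s X0 τ + (1 / β + 1) * (CL * (5 * (L : ℝ) ^ 2)) := by
        field_simp
      rw [h9]
      have h10 : 1 / β + 1 ≤ 2 := by
        have : 1 / β ≤ 1 := (div_le_one hβ0).2 hβ1
        linarith
      have h11 : (1 / β + 1) * (CL * (5 * (L : ℝ) ^ 2)) ≤ 2 * (CL * (5 * (L : ℝ) ^ 2)) :=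
        mul_le_mul_of_nonneg_right h10 (by positivity)
      linarith
    have h12 : β * EE k s U (glue (Frl L U) ξ η) ≤ (β + 1) * EE k s U X0 + K * U.card := by
      unfold EE
      rw [Finset.mul_sum, Finset.mul_sum]
      calc _ ≤ ∑ τ ∈ tml U, ((β + 1) * enf k s X0 τ + 2 * CL * (5 * (L : ℝ) ^ 2)) :=
            Finset.sum_le_sum fun τ _ => h4 τ
        _ = ∑ τ ∈ tml U, (β + 1) * enf k s X0 τ +
            ((tml U).card : ℝ) * (2 * CL * (5 * (L : ℝ) ^ 2)) := by
            rw [Finset.sum_add_distrib, Finset.sum_const, nsmul_eq_mul]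
        _ ≤ _ := by
            have h13 : ((tml U).card : ℝ) ≤ 16 * U.card := by exact_mod_cast card_tml U
            have h14 := mul_le_mul_of_nonneg_right h13
              (by positivity : 0 ≤ 2 * CL * (5 * (L : ℝ) ^ 2))
            rw [hK]
            linarith
    rw [hw0d, ← Real.exp_add]
    refine Real.exp_le_exp.2 ?_
    linarith
  have hmeas : Measurable fun ξ : Cf N L =>
      Real.exp (-β * EE k s U (glue (Frl L U) ξ η)) :=
    (measurable_const.mul ((EE_cont k s U).measurable.comp (glue_meas (Frl L U) η))).exp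
  have hint : Integrable (fun ξ : Cf N L => Real.exp (-β * EE k s U (glue (Frl L U) ξ η)))
      (pm N L) := by
    refine Integrable.of_bound hmeas.aestronglyMeasurable 1 (Filter.Eventually.of_forall fun ξ => ?_)
    rw [Real.norm_eq_abs, abs_of_pos (Real.exp_pos _), Real.exp_le_one_iff]
    have := mul_nonneg hβ0.le (EE_nonneg k s U (glue (Frl L U) ξ η))
    linarith
  have hboxv : (c * (1 / β) ^ D2) ^ (Frl L U).card ≤ (pm N L).real box := by
    have h5 : (pm N L).real box = ∏ l ∈ Frl L U,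
        (hm N).real {g : SU N | ‖(g : Mt N) - (X0 l : Mt N)‖ ≤ 1 / β} := by
      unfold Measure.real
      rw [show pm N L box = _ from Measure.infinitePi_pi (fun _ : Lk L => hm N)
        fun l _ => hballm l, ENNReal.toReal_prod]
    rw [h5, ← Finset.prod_const]
    refine Finset.prod_le_prod (fun l _ => by positivity) fun l _ => ?_
    exact H2 (1 / β) (X0 l) (by positivity) ((div_le_one hβ0).2 hβ1)
  have hden : w0 * (c * (1 / β) ^ D2) ^ (Frl L U).card ≤ Zf k β s U η := by
    unfold Zf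
    calc w0 * (c * (1 / β) ^ D2) ^ (Frl L U).card ≤ w0 * (pm N L).real box :=
          mul_le_mul_of_nonneg_left hboxv hw0.le
      _ = ∫ ξ : Cf N L, box.indicator (fun _ => w0) ξ ∂(pm N L) := by
          rw [integral_indicator_const _ hboxm, smul_eq_mul, mul_comm]
      _ ≤ ∫ ξ : Cf N L, Real.exp (-β * EE k s U (glue (Frl L U) ξ η)) ∂(pm N L) := by
          refine integral_mono_of_nonneg (Filter.Eventually.of_forall fun ξ => ?_) hint
            (Filter.Eventually.of_forall fun ξ => ?_)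
          · exact Set.indicator_nonneg (fun _ _ => hw0.le) ξ
          · by_cases hξ : ξ ∈ box
            · simp only [Set.indicator_of_mem hξ]
              exact hlow ξ hξ
            · simp only [Set.indicator_of_notMem hξ]
              exact (Real.exp_pos _).le
  refine le_trans ?_ hden
  have hc12 : (Frl L U).card ≤ 12 * (L ^ 2 * U.card) := by
    have := card_Frl (L := L) U
    rwa [mul_assoc] at this
  have key := fin_ar (D2 := D2) (M2 := 12) hc0 hCa hCb hCc hβ1 hc12
  have hKe : K0 * ((L ^ 2 * U.card : ℕ) : ℝ) = K * U.card := by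
    rw [hK, hK0]
    push_cast
    ring
  rw [hKe] at key
  have hexp : (1 + 12 * (D2 + 1)) * (L ^ 2 * U.card) = (1 + 12 * (D2 + 1)) * L ^ 2 * U.card := by ring
  rw [hexp] at key
  calc Real.exp (-(β + 1) * EE k s U X0) * ((C * β) ^ ((1 + 12 * (D2 + 1)) * L ^ 2 * U.card))⁻¹
      ≤ Real.exp (-(β + 1) * EE k s U X0) *
        (Real.exp (-(K * U.card)) * (c * (1 / β) ^ D2) ^ (Frl L U).card) :=
        mul_le_mul_of_nonneg_left key (Real.exp_pos _).le
    _ = w0 * (c * (1 / β) ^ D2) ^ (Frl L U).card := by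
        rw [hw0d]
        ring

end T2H01.SE.PkgVIu

namespace T2H01.SE

/-- package VIu -/
theorem pVIu (h2 : T2H02.TT.S_G2) (hVLu : S_VLu) : S_VIu := PkgVIu.pVIu h2 hVLu

end T2H01.SE
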