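import Pool.Agent.T2H01.SE.Stm10
import Pool.Agent.T2H01.SE.VL

/-!
# Package VLu: Lipschitz bound of the energies with a constant independent of `L`
-/

set_option autoImplicit false
set_option linter.unusedSectionVars false

noncomputable section

open MeasureTheory Matrix
open scoped Matrix.Norms.Frobenius

namespace T2H01.SE

open T2H02.TT

namespace PkgVLu

open T2H02.TT.PkgE (norm_mul_sub)

variable {N L : ℕ} [NeZero L]

/-- squared distance of two links -/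
def dl2 (X Y : Cf N L) (l : Lk L) : ℝ := ‖(Y l : Mt N) - (X l : Mt N)‖ ^ 2

lemma dl2_nonneg (X Y : Cf N L) (l : Lk L) : 0 ≤ dl2 X Y l := by
  unfold dl2
  positivity

lemma sq_bd {a b r ρ : ℝ} (hρ : 0 < ρ) (hb : 0 ≤ b) (h : b ≤ a + r) :
    b ^ 2 ≤ (1 + ρ) * a ^ 2 + (1 + 1 / ρ) * r ^ 2 := by
  have h1 : b ^ 2 ≤ (a + r) ^ 2 := pow_le_pow_left₀ hb h 2
  refine h1.trans ?_
  have h2 : (1 + ρ) * a ^ 2 + (1 + 1 / ρ) * r ^ 2 - (a + r) ^ 2 = (ρ * a - r) ^ 2 / ρ := by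
    field_simp
    ring
  have h3 : 0 ≤ (ρ * a - r) ^ 2 / ρ := by positivity
  linarith

lemma df_bd (X Y : Cf N L) {z : ℂ} (hz : ‖z‖ = 1) (p : Pt L) (i j : Fin 4) {ρ : ℝ} (hρ : 0 < ρ) :
    ‖df Y z p i j‖ ^ 2 ≤ (1 + ρ) * ‖df X z p i j‖ ^ 2 + (1 + 1 / ρ) *
      (4 * (dl2 X Y (p, i) + dl2 X Y (nx p i, j) + dl2 X Y (p, j) + dl2 X Y (nx p j, i))) := by
  have h5 : df Y z p i j = df X z p i j +
      ((((Y (p, i) * Y (nx p i, j) : SU N) : Mt N) - ((X (p, i) * X (nx p i, j) : SU N) : Mt N)) -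
        z • (((Y (p, j) * Y (nx p j, i) : SU N) : Mt N) -
          ((X (p, j) * X (nx p j, i) : SU N) : Mt N))) := by
    unfold df
    change _ = _ + (((Y (p, i) : Mt N) * (Y (nx p i, j) : Mt N) -
      (X (p, i) : Mt N) * (X (nx p i, j) : Mt N)) - z • ((Y (p, j) : Mt N) * (Y (nx p j, i) : Mt N) -
      (X (p, j) : Mt N) * (X (nx p j, i) : Mt N)))
    rw [smul_sub]
    abel
  have h6 := norm_mul_sub (Y (p, i)) (X (p, i)) (Y (nx p i, j)) (X (nx p i, j))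
  have h7 := norm_mul_sub (Y (p, j)) (X (p, j)) (Y (nx p j, i)) (X (nx p j, i))
  have h8 : ‖df Y z p i j‖ ≤ ‖df X z p i j‖ + (‖(Y (p, i) : Mt N) - (X (p, i) : Mt N)‖ +
      ‖(Y (nx p i, j) : Mt N) - (X (nx p i, j) : Mt N)‖ +
      (‖(Y (p, j) : Mt N) - (X (p, j) : Mt N)‖ +
      ‖(Y (nx p j, i) : Mt N) - (X (nx p j, i) : Mt N)‖)) := by
    rw [h5]
    refine (norm_add_le _ _).trans ?_
    have h9 := norm_sub_le (((Y (p, i) * Y (nx p i, j) : SU N) : Mt N) -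
      ((X (p, i) * X (nx p i, j) : SU N) : Mt N)) (z • (((Y (p, j) * Y (nx p j, i) : SU N) : Mt N) -
          ((X (p, j) * X (nx p j, i) : SU N) : Mt N)))
    rw [norm_smul, hz, one_mul] at h9
    linarith
  refine (sq_bd hρ (norm_nonneg _) h8).trans ?_
  have hc : 0 < 1 + 1 / ρ := by positivity
  refine add_le_add le_rfl (mul_le_mul_of_nonneg_left ?_ hc.le)
  unfold dl2
  generalize ‖(Y (p, i) : Mt N) - (X (p, i) : Mt N)‖ = a
  generalize ‖(Y (nx p i, j) : Mt N) - (X (nx p i, j) : Mt N)‖ = b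
  generalize ‖(Y (p, j) : Mt N) - (X (p, j) : Mt N)‖ = c
  generalize ‖(Y (nx p j, i) : Mt N) - (X (nx p j, i) : Mt N)‖ = d
  nlinarith [sq_nonneg (a - b), sq_nonneg (a - c), sq_nonneg (a - d), sq_nonneg (b - c),
    sq_nonneg (b - d), sq_nonneg (c - d)]

lemma inj_sum (X Y : Cf N L) (S : Finset (Lk L)) (f : Tor L → Lk L) (hf : Function.Injective f)
    (hm : ∀ y, f y ∈ S) : ∑ y, dl2 X Y (f y) ≤ ∑ l ∈ S, dl2 X Y l := by
  classical
  rw [← Finset.sum_image (s := Finset.univ) (g := f) (f := dl2 X Y) (fun a _ b _ h => hf h)]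
  refine Finset.sum_le_sum_of_subset_of_nonneg ?_ fun l _ _ => dl2_nonneg X Y l
  intro l hl
  obtain ⟨y, _, rfl⟩ := Finset.mem_image.1 hl
  exact hm y

lemma tsh_inj (j : Fin 2) : Function.Injective (fun y : Tor L => tsh y j) := by
  intro a b h
  unfold tsh at h
  split_ifs at h
  · rw [Prod.mk.injEq] at h
    exact Prod.ext (add_right_cancel h.1) h.2
  · rw [Prod.mk.injEq] at h
    exact Prod.ext h.1 (add_right_cancel h.2)

lemma link_inj (x : Pl) (i : Fin 4) : Function.Injective (fun y : Tor L => (((x, y), i) : Lk L)) := by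
  intro a b h
  rw [Prod.mk.injEq, Prod.mk.injEq] at h
  exact h.1.2

lemma link_inj' (x : Pl) (i : Fin 4) (j : Fin 2) :
    Function.Injective (fun y : Tor L => (((x, tsh y j), i) : Lk L)) :=
  (link_inj x i).comp (tsh_inj j)

/-- the sum over the plaquettes over `x` -/
lemma pq_sum (X Y : Cf N L) (S : Finset (Lk L)) {ρ : ℝ} (hρ : 0 < ρ) (x : Pl) (i j : Fin 4)
    (z : Tor L → ℂ) (hz : ∀ y, ‖z y‖ = 1)
    (h1 : ∀ y : Tor L, ((x, y), i) ∈ S) (h3 : ∀ y : Tor L, ((x, y), j) ∈ S)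
    (h2 : Function.Injective (fun y : Tor L => ((nx (x, y) i, j) : Lk L)))
    (h2' : ∀ y : Tor L, (nx (x, y) i, j) ∈ S)
    (h4 : Function.Injective (fun y : Tor L => ((nx (x, y) j, i) : Lk L)))
    (h4' : ∀ y : Tor L, (nx (x, y) j, i) ∈ S) :
    ∑ y : Tor L, ‖df Y (z y) (x, y) i j‖ ^ 2 / 2 ≤
      (1 + ρ) * ∑ y : Tor L, ‖df X (z y) (x, y) i j‖ ^ 2 / 2 +
      (1 + 1 / ρ) * (8 * ∑ l ∈ S, dl2 X Y l) := by
  have k1 := inj_sum X Y S _ (link_inj x i) h1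
  have k3 := inj_sum X Y S _ (link_inj x j) h3
  have k2 := inj_sum X Y S _ h2 h2'
  have k4 := inj_sum X Y S _ h4 h4'
  have hc : 0 < 1 + 1 / ρ := by positivity
  calc ∑ y : Tor L, ‖df Y (z y) (x, y) i j‖ ^ 2 / 2
      ≤ ∑ y : Tor L, ((1 + ρ) * (‖df X (z y) (x, y) i j‖ ^ 2 / 2) + (1 + 1 / ρ) *
      (2 * (dl2 X Y ((x, y), i) + dl2 X Y (nx (x, y) i, j) + dl2 X Y ((x, y), j) +
        dl2 X Y (nx (x, y) j, i)))) := Finset.sum_le_sum fun y _ => by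
          have := df_bd X Y (hz y) (x, y) i j hρ
          linarith
    _ = (1 + ρ) * ∑ y : Tor L, ‖df X (z y) (x, y) i j‖ ^ 2 / 2 + (1 + 1 / ρ) *
      (2 * (∑ y : Tor L, dl2 X Y ((x, y), i) + ∑ y : Tor L, dl2 X Y (nx (x, y) i, j) +
        ∑ y : Tor L, dl2 X Y ((x, y), j) + ∑ y : Tor L, dl2 X Y (nx (x, y) j, i))) := by
        simp only [Finset.sum_add_distrib, ← Finset.mul_sum]
    _ ≤ _ := by
        refine add_le_add le_rfl (mul_le_mul_of_nonneg_left ?_ hc.le)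
        linarith

lemma part1 (k : ℕ) {ρ : ℝ} (hρ : 0 < ρ) (s : Pl → ℤ) (τ : Tm) (X Y : Cf N L) :
    enf k s Y τ ≤ (1 + ρ) * enf k s X τ + (1 + 1 / ρ) * 32 *
      ∑ l ∈ (spt τ : Finset (Lk L)), ‖(Y l : Mt N) - (X l : Mt N)‖ ^ 2 := by
  change enf k s Y τ ≤ (1 + ρ) * enf k s X τ + (1 + 1 / ρ) * 32 *
      ∑ l ∈ (spt τ : Finset (Lk L)), dl2 X Y l
  have hS : 0 ≤ ∑ l ∈ (spt τ : Finset (Lk L)), dl2 X Y l :=
    Finset.sum_nonneg fun l _ => dl2_nonneg X Y l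
  have hc : 0 < 1 + 1 / ρ := by positivity
  have hcS := mul_nonneg hc.le hS
  obtain ⟨x, i⟩ := τ
  fin_cases i
  · change eV k Y x ≤ (1 + ρ) * eV k X x + _
    have hm := fun (l : Lk L) hl => (mem_spt0 x l).2 hl
    have h := pq_sum X Y (spt (x, 0)) hρ x 2 3 _ (PkgG2.tw_norm N k)
      (fun y => hm _ ⟨y, Or.inl rfl⟩) (fun y => hm _ ⟨y, Or.inr rfl⟩)
      (by simp only [nx2]; exact link_inj' x 3 0) (fun y => by rw [nx2]; exact hm _ ⟨_, Or.inr rfl⟩)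
      (by simp only [nx3]; exact link_inj' x 2 1) (fun y => by rw [nx3]; exact hm _ ⟨_, Or.inl rfl⟩)
    change eV k Y x ≤ (1 + ρ) * eV k X x + _ at h
    refine h.trans (add_le_add le_rfl ?_)
    change _ ≤ (1 + 1 / ρ) * 32 * ∑ l ∈ (spt (x, 0) : Finset (Lk L)), dl2 X Y l
    change 0 ≤ (1 + 1 / ρ) * ∑ l ∈ (spt (x, 0) : Finset (Lk L)), dl2 X Y l at hcS
    linarith
  · change eK Y x 0 ≤ (1 + ρ) * eK X x 0 + _
    have hm := fun (l : Lk L) hl => (mem_spt1 x l).2 hl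
    have h1 := pq_sum X Y (spt (x, 1)) hρ x 0 2 (fun _ => 1) (fun _ => norm_one)
      (fun y => hm _ ⟨y, by simp⟩) (fun y => hm _ ⟨y, by simp⟩)
      (by simp only [nx0]; exact link_inj _ 2) (fun y => by rw [nx0]; exact hm _ ⟨y, by simp⟩)
      (by simp only [nx2]; exact link_inj' x 0 0) (fun y => by rw [nx2]; exact hm _ ⟨_, Or.inl rfl⟩)
    have h2 := pq_sum X Y (spt (x, 1)) hρ x 0 3 (fun _ => 1) (fun _ => norm_one)
      (fun y => hm _ ⟨y, by simp⟩) (fun y => hm _ ⟨y, by simp⟩)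
      (by simp only [nx0]; exact link_inj _ 3) (fun y => by rw [nx0]; exact hm _ ⟨y, by simp⟩)
      (by simp only [nx3]; exact link_inj' x 0 1) (fun y => by rw [nx3]; exact hm _ ⟨_, Or.inl rfl⟩)
    have e : ∀ Z : Cf N L, eK Z x 0 = ∑ y : Tor L, ‖df Z 1 (x, y) 0 2‖ ^ 2 / 2 +
        ∑ y : Tor L, ‖df Z 1 (x, y) 0 3‖ ^ 2 / 2 := fun Z => by
      unfold eK
      rw [Finset.sum_add_distrib]
    rw [e Y, e X]
    change _ ≤ _ + (1 + 1 / ρ) * 32 * ∑ l ∈ (spt (x, 1) : Finset (Lk L)), dl2 X Y l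
    change 0 ≤ (1 + 1 / ρ) * ∑ l ∈ (spt (x, 1) : Finset (Lk L)), dl2 X Y l at hcS
    linarith
  · change eK Y x 1 ≤ (1 + ρ) * eK X x 1 + _
    have hm := fun (l : Lk L) hl => (mem_spt2 x l).2 hl
    have h1 := pq_sum X Y (spt (x, 2)) hρ x 1 2 (fun _ => 1) (fun _ => norm_one)
      (fun y => hm _ ⟨y, by simp⟩) (fun y => hm _ ⟨y, by simp⟩)
      (by simp only [nx1]; exact link_inj _ 2) (fun y => by rw [nx1]; exact hm _ ⟨y, by simp⟩)
      (by simp only [nx2]; exact link_inj' x 1 0) (fun y => by rw [nx2]; exact hm _ ⟨_, Or.inl rfl⟩)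
    have h2 := pq_sum X Y (spt (x, 2)) hρ x 1 3 (fun _ => 1) (fun _ => norm_one)
      (fun y => hm _ ⟨y, by simp⟩) (fun y => hm _ ⟨y, by simp⟩)
      (by simp only [nx1]; exact link_inj _ 3) (fun y => by rw [nx1]; exact hm _ ⟨y, by simp⟩)
      (by simp only [nx3]; exact link_inj' x 1 1) (fun y => by rw [nx3]; exact hm _ ⟨_, Or.inl rfl⟩)
    have e : ∀ Z : Cf N L, eK Z x 1 = ∑ y : Tor L, ‖df Z 1 (x, y) 1 2‖ ^ 2 / 2 +
        ∑ y : Tor L, ‖df Z 1 (x, y) 1 3‖ ^ 2 / 2 := fun Z => by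
      unfold eK
      rw [Finset.sum_add_distrib]
    rw [e Y, e X]
    change _ ≤ _ + (1 + 1 / ρ) * 32 * ∑ l ∈ (spt (x, 2) : Finset (Lk L)), dl2 X Y l
    change 0 ≤ (1 + 1 / ρ) * ∑ l ∈ (spt (x, 2) : Finset (Lk L)), dl2 X Y l at hcS
    linarith
  · change eP Y (oz N (s x)) x ≤ (1 + ρ) * eP X (oz N (s x)) x + _
    have hm := fun (l : Lk L) hl => (mem_spt3 x l).2 hl
    have h := pq_sum X Y (spt (x, 3)) hρ x 0 1 (fun _ => oz N (s x)) (fun _ => PkgVL.oz_norm N (s x))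
      (fun y => hm _ ⟨y, by simp⟩) (fun y => hm _ ⟨y, by simp⟩)
      (by simp only [nx0]; exact link_inj _ 1) (fun y => by rw [nx0]; exact hm _ ⟨y, by simp⟩)
      (by simp only [nx1]; exact link_inj _ 0) (fun y => by rw [nx1]; exact hm _ ⟨y, by simp⟩)
    change eP Y (oz N (s x)) x ≤ (1 + ρ) * eP X (oz N (s x)) x + _ at h
    refine h.trans (add_le_add le_rfl ?_)
    change _ ≤ (1 + 1 / ρ) * 32 * ∑ l ∈ (spt (x, 3) : Finset (Lk L)), dl2 X Y l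
    change 0 ≤ (1 + 1 / ρ) * ∑ l ∈ (spt (x, 3) : Finset (Lk L)), dl2 X Y l at hcS
    linarith

end PkgVLu

theorem pVLu : S_VLu := by
  intro N k _
  exact ⟨32, by norm_num, fun L _ ρ hρ s τ X Y => PkgVLu.part1 k hρ s τ X Y⟩

end T2H01.SE
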