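import Pool.Agent.T2H01.SE.Stm10
import Pool.Agent.T2H01.SE.VP

/-!
# Package VPu : vortices in a box with cold walls, uniformly in `L`
-/

set_option autoImplicit false
set_option linter.unusedSectionVars false

noncomputable section

open MeasureTheory Matrix
open scoped Matrix.Norms.Frobenius ENNReal

namespace T2H01.SE.PkgVPu

open T2H02.TT T2H01.SE.PkgVP

/-- the thresholds -/
lemma thr (C₁ C₂ ρ L β m : ℝ) (K₁ K₂ : ℕ) (h1 : 1 ≤ C₁) (h2 : 1 ≤ C₂) (hρ : 0 < ρ) (hL : 1 ≤ L)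
    (hm0 : 1 ≤ m) (hm : m ≤ C₂ * L ^ K₂)
    (hβ : (C₂ + C₁ * (11 * C₂) ^ K₁ + 244 / ρ * C₂ ^ 2) * L ^ ((K₂ + 1) * K₁ + 2 * K₂) ≤ β) :
    C₂ * L ^ K₂ ≤ β ∧ C₁ * (L * (8 * m + 2 + 1)) ^ K₁ ≤ β ∧
      (1 + (8 * m + 3) ^ 2) / (ρ / 2) ≤ β := by
  have hL0 : 0 < L := by linarith
  have hC2 : 0 < C₂ := by linarith
  have hC1 : 0 < C₁ := by linarith
  have hA : 0 ≤ 244 / ρ * C₂ ^ 2 := by positivity
  have hB : 0 ≤ C₁ * (11 * C₂) ^ K₁ := by positivity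
  have p1 : L ^ K₂ ≤ L ^ ((K₂ + 1) * K₁ + 2 * K₂) := pow_le_pow_right₀ hL (by omega)
  have p2 : L ^ ((K₂ + 1) * K₁) ≤ L ^ ((K₂ + 1) * K₁ + 2 * K₂) := pow_le_pow_right₀ hL (by omega)
  have p3 : L ^ (2 * K₂) ≤ L ^ ((K₂ + 1) * K₁ + 2 * K₂) := pow_le_pow_right₀ hL (by omega)
  have hP : 0 < L ^ ((K₂ + 1) * K₁ + 2 * K₂) := by positivity
  have e1 : C₂ * L ^ ((K₂ + 1) * K₁ + 2 * K₂) ≤ β := by
    refine le_trans ?_ hβ
    gcongr
    linarith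
  have e2 : C₁ * (11 * C₂) ^ K₁ * L ^ ((K₂ + 1) * K₁ + 2 * K₂) ≤ β := by
    refine le_trans ?_ hβ
    gcongr
    linarith
  have e3 : 244 / ρ * C₂ ^ 2 * L ^ ((K₂ + 1) * K₁ + 2 * K₂) ≤ β := by
    refine le_trans ?_ hβ
    gcongr
    linarith
  refine ⟨le_trans (by gcongr) e1, ?_, ?_⟩
  · refine le_trans ?_ e2
    rw [mul_assoc]
    refine mul_le_mul_of_nonneg_left ?_ hC1.le
    have h3 : L * (8 * m + 2 + 1) ≤ 11 * C₂ * L ^ (K₂ + 1) := by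
      have h4 : 8 * m + 2 + 1 ≤ 11 * (C₂ * L ^ K₂) := by linarith
      calc L * (8 * m + 2 + 1) ≤ L * (11 * (C₂ * L ^ K₂)) := by gcongr
        _ = 11 * C₂ * L ^ (K₂ + 1) := by ring
    calc (L * (8 * m + 2 + 1)) ^ K₁ ≤ (11 * C₂ * L ^ (K₂ + 1)) ^ K₁ := by gcongr
      _ = (11 * C₂) ^ K₁ * L ^ ((K₂ + 1) * K₁) := by rw [mul_pow, ← pow_mul]
      _ ≤ (11 * C₂) ^ K₁ * L ^ ((K₂ + 1) * K₁ + 2 * K₂) := by gcongr
  · refine le_trans ?_ e3
    rw [div_le_iff₀ (by linarith)]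
    have h4 : 8 * m + 3 ≤ 11 * (C₂ * L ^ K₂) := by linarith
    have h5 : 1 ≤ C₂ * L ^ K₂ := hm0.trans hm
    have h6 : (8 * m + 3) ^ 2 ≤ (11 * (C₂ * L ^ K₂)) ^ 2 := by gcongr
    have h7 : (1 : ℝ) ≤ (C₂ * L ^ K₂) ^ 2 := one_le_pow₀ h5
    have h8 : 244 / ρ * C₂ ^ 2 * L ^ ((K₂ + 1) * K₁ + 2 * K₂) * (ρ / 2) =
        122 * (C₂ ^ 2 * L ^ ((K₂ + 1) * K₁ + 2 * K₂)) := by
      field_simp
      ring
    have h9 : (C₂ * L ^ K₂) ^ 2 ≤ C₂ ^ 2 * L ^ ((K₂ + 1) * K₁ + 2 * K₂) := by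
      rw [mul_pow, ← pow_mul, mul_comm K₂ 2]
      gcongr
    rw [h8]
    nlinarith

theorem main (h3 : S_F3) (h5 : S_F5) (hEG : S_EG) (hJ : S_VJ) (hF : S_VFu) (hH : S_VHu) (hV : S_VN) :
    S_VPu := by
  intro N k hN hk P Q hPQ ρ hρ
  have hN0 : 0 < N := by omega
  have : NeZero N := ⟨hN0.ne'⟩
  have : IsProbabilityMeasure (mj N) := PkgVJ.mj_prob hN0
  obtain ⟨C₁, K₁, hC₁, hFK⟩ := hF N k hN hk P Q hPQ (ρ / 2) (by linarith)
  obtain ⟨C₂, K₂, hC₂, hHK⟩ := hH N k hN hk P Q hPQ (4 * C₁) K₁ (by linarith)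
  refine ⟨C₂ + C₁ * (11 * C₂) ^ K₁ + 244 / ρ * C₂ ^ 2, (K₂ + 1) * K₁ + 2 * K₂, ?_, ?_⟩
  · have h1 : 0 ≤ C₁ * (11 * C₂) ^ K₁ := by positivity
    have h2 : 0 ≤ 244 / ρ * C₂ ^ 2 := by positivity
    linarith
  intro L _ β hβ i j
  obtain ⟨s, hs⟩ : ∃ s, s = SS L k P Q := ⟨_, rfl⟩
  have hL1 : (1 : ℝ) ≤ L := by
    exact_mod_cast Nat.one_le_iff_ne_zero.2 (NeZero.ne L)
  have hL0 : (0 : ℝ) < L := by linarith
  obtain ⟨hF'', -⟩ := hFK L
  obtain ⟨m, hm1, hmL, hH'⟩ := hHK L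
  obtain ⟨e, he'⟩ : ∃ e : ℝ, e = 1 / (C₁ * (L : ℝ) ^ K₁) := ⟨_, rfl⟩
  have he : 0 < e := by rw [he']; positivity
  have he4 : e / 4 = 1 / (4 * C₁ * (L : ℝ) ^ K₁) := by
    rw [he']
    field_simp
  rw [← he'] at hF''
  rw [← he4] at hH'
  have hF' := hF'' (8 * m + 2)
  obtain ⟨G, hG⟩ := hEG N L hN P Q (e / ((8 * m + 5) ^ 2 : ℕ)) (by positivity)
  obtain ⟨hb2, hb1', hb3⟩ := thr C₁ C₂ ρ L β m K₁ K₂ hC₁ hC₂ hρ hL1 (by exact_mod_cast hm1) hmL hβ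
  have hb1 : C₁ * ((L : ℝ) * (((8 * m + 2 : ℕ) : ℝ) + 1)) ^ K₁ ≤ β := by
    refine le_trans (le_of_eq ?_) hb1'
    push_cast
    ring
  -- the counting factor
  have hβ₃ : ∀ β : ℝ, (1 + (8 * m + 3) ^ 2 : ℝ) / (ρ / 2) ≤ β →
      (1 + (8 * m + 3) ^ 2 : ℝ) * Real.exp (-β * (ρ / 2)) ≤ 1 := by
    intro β hβ
    have h1 : (1 + (8 * m + 3) ^ 2 : ℝ) ≤ β * (ρ / 2) := by
      rwa [div_le_iff₀ (by linarith)] at hβ
    have h2 : β * (ρ / 2) ≤ Real.exp (β * (ρ / 2)) := by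
      have := Real.add_one_le_exp (β * (ρ / 2))
      linarith
    have h3 : Real.exp (-β * (ρ / 2)) = (Real.exp (β * (ρ / 2)))⁻¹ := by
      rw [← Real.exp_neg]; congr 1; ring
    rw [h3, ← div_eq_mul_inv, div_le_one (Real.exp_pos _)]
    linarith
  have hβ1 : 1 ≤ β := le_trans (by nlinarith [one_le_pow₀ hL1 (n := K₂)]) hb2
  have hβ0 : 0 ≤ β := by linarith
  obtain ⟨b, hb⟩ : ∃ b : Pl, b = (4 * (i : ℤ) + 2, 4 * (j : ℤ) + 2) := ⟨_, rfl⟩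
  rw [← hb]
  have hbi : b.1 = 4 * (i : ℤ) + 2 := by rw [hb]
  have hbj : b.2 = 4 * (j : ℤ) + 2 := by rw [hb]
  have ha1 : (0 : Pl).1 ≤ b.1 := by rw [hbi, Prod.fst_zero]; omega
  have ha2 : (0 : Pl).2 ≤ b.2 := by rw [hbj, Prod.snd_zero]; omega
  obtain ⟨Λ, hΛ⟩ : ∃ Λ : Finset Pl, Λ = rc 0 b := ⟨_, rfl⟩
  have hcard : (Λ.card : ℝ) = (4 * i + 3) * (4 * j + 3) := by
    rw [hΛ, rc, Finset.card_product, Int.card_Icc, Int.card_Icc, hbi, hbj, Prod.fst_zero, Prod.snd_zero]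
    have e1 : (4 * (i : ℤ) + 2 + 1 - 0).toNat = 4 * i + 3 := by omega
    have e2 : (4 * (j : ℤ) + 2 + 1 - 0).toNat = 4 * j + 3 := by omega
    rw [e1, e2]
    push_cast
    ring
  obtain ⟨ω₀, hω₀⟩ : ∃ ω₀ : Cj N L, ω₀ = jn (vc P Q) fun _ => 0 := ⟨_, rfl⟩
  have hlk0 : lk ω₀ = (vc P Q : Cf N L) := by
    funext l
    rw [hω₀]
    rfl
  obtain ⟨S, hS⟩ : ∃ S, S = sysJ N L k β hβ0 := ⟨_, rfl⟩
  -- the main bound
  have key : S.ker (mj N) Λ (fun ω' => ind (¬ (N : ℤ) ∣ ∑ x ∈ cl Λ, fx ω' x)) ω₀ ≤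
      (4 * i + 3) * (4 * j + 3) * Real.exp (-β * (s - ρ)) := by
    obtain ⟨B, hB⟩ : ∃ B, B = Real.exp (-β * (s - ρ / 2)) := ⟨_, rfl⟩
    have hB0 : 0 < B := by rw [hB]; exact Real.exp_pos _
    -- the events
    obtain ⟨f₁, hf₁⟩ : ∃ f₁ : Pl → Cj N L → ℝ, f₁ = fun y ω =>
      ind (∀ j ∈ Finset.Icc 1 m, e / 4 < rE k (lk ω) (Qs (y.1 / 4, y.2 / 4) j)) := ⟨_, rfl⟩
    obtain ⟨g, hg⟩ : ∃ g : Pl × Pl → Cj N L → ℝ, g = fun p ω =>
      ind (¬ (N : ℤ) ∣ ∑ x ∈ cl (rc p.1 p.2), fd G ω x) := ⟨_, rfl⟩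
    obtain ⟨h, hh⟩ : ∃ h : Pl × Pl → Cj N L → ℝ, h = fun p ω =>
      ind (rE k (lk ω) (rc p.1 p.2) ≤ e) := ⟨_, rfl⟩
    obtain ⟨T, hT⟩ : ∃ T : Finset (Pl × Pl), T = (Λ ×ˢ Λ).filter fun p =>
      p.1.1 ≤ p.2.1 ∧ p.1.2 ≤ p.2.2 ∧ p.2.1 - p.1.1 ≤ 8 * (m : ℤ) + 2 ∧
        p.2.2 - p.1.2 ≤ 8 * (m : ℤ) + 2 := ⟨_, rfl⟩
    have mf₁ : ∀ y, Measurable (f₁ y) := by
      intro y
      rw [hf₁]
      refine ind_meas ?_
      have h1 : {ω : Cj N L | ∀ j ∈ Finset.Icc 1 m, e / 4 < rE k (lk ω) (Qs (y.1 / 4, y.2 / 4) j)} =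
          ⋂ j ∈ Finset.Icc 1 m, {ω : Cj N L | e / 4 < rE k (lk ω) (Qs (y.1 / 4, y.2 / 4) j)} := by
        ext X
        simp
      rw [h1]
      exact Finset.measurableSet_biInter _ fun j _ => measurableSet_lt measurable_const (rE_meas hN _ _)
    have mg : ∀ p, Measurable (g p) := by
      intro p
      rw [hg]
      exact ind_meas (dvd_meas (fun x ω => fd G ω x) (fun x => fd_meas hN G hG.1 x) _)
    have mh : ∀ p, Measurable (h p) := by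
      intro p
      rw [hh]
      exact ind_meas (measurableSet_le (rE_meas hN _ _) measurable_const)
    have bf₁ : ∀ y ω, |f₁ y ω| ≤ 1 := fun y ω => by rw [hf₁]; exact ind_abs _
    have bg : ∀ p ω, |g p ω| ≤ 1 := fun y ω => by rw [hg]; exact ind_abs _
    have bh : ∀ p ω, |h p ω| ≤ 1 := fun y ω => by rw [hh]; exact ind_abs _
    -- their probabilities
    have k1 : ∀ y ∈ Λ, S.ker (mj N) Λ (f₁ y) ω₀ ≤ B := by
      intro y _
      rw [hf₁, hS]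
      refine ((hJ N k L hN β hβ0).1 Λ (fun X => ind (∀ j ∈ Finset.Icc 1 m, e / 4 <
        rE k X (Qs (y.1 / 4, y.2 / 4) j))) ?_ ⟨1, fun X => ind_abs _⟩ ω₀).le.trans ?_
      · refine ind_meas ?_
        have h1 : {X : Cf N L | ∀ j ∈ Finset.Icc 1 m, e / 4 < rE k X (Qs (y.1 / 4, y.2 / 4) j)} =
            ⋂ j ∈ Finset.Icc 1 m, {X : Cf N L | e / 4 < rE k X (Qs (y.1 / 4, y.2 / 4) j)} := by
          ext X
          simp
        rw [h1]
        refine Finset.measurableSet_biInter _ fun j _ => measurableSet_lt measurable_const ?_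
        unfold rE
        exact Finset.measurable_sum _ fun τ _ => (en_cont k τ (by omega)).measurable
      · rw [hlk0]
        refine (hH' β hβ0 hb2 Λ (y.1 / 4, y.2 / 4)).trans ?_
        rw [hB, ← hs]
        apply Real.exp_le_exp.2
        nlinarith
    have k2 : ∀ p ∈ T, S.ker (mj N) Λ (fun ω => h p ω * g p ω) ω₀ ≤ B := by
      intro p hp
      rw [hT, Finset.mem_filter, Finset.mem_product] at hp
      obtain ⟨⟨hp1, hp2⟩, hp3, hp4, hp5, hp6⟩ := hp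
      have hsub : rc p.1 p.2 ⊆ Λ := by
        intro x hx
        rw [PkgVN.mem_rc] at hx
        rw [hΛ, PkgVN.mem_rc] at hp1 hp2 ⊢
        omega
      rw [h3 (Ix L) Tm (Vr N) S (mj N) (rc p.1 p.2) Λ hsub (g p) (mg p) ⟨1, bg p⟩ (h p) (mh p)
        ⟨1, bh p⟩ ?_ ω₀]
      · obtain ⟨-, hc, hlin, hm5, hbd, -⟩ := h5 (Ix L) Tm (Vr N) S (mj N) Λ
        obtain ⟨-, -, -, hm5', hbd', -⟩ := h5 (Ix L) Tm (Vr N) S (mj N) (rc p.1 p.2)
        have hmono := (hlin (fun ω => h p ω * S.ker (mj N) (rc p.1 p.2) (g p) ω) (fun _ => B)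
          ((mh p).mul (hm5' (g p) (mg p) ⟨1, bg p⟩)) ⟨1, fun ω => ?_⟩ measurable_const
          ⟨|B|, fun _ => le_rfl⟩ ω₀).1
        · refine (hmono fun ξ => ?_).trans (hc B ω₀).le
          obtain ⟨ω, hω⟩ : ∃ ω, ω = glue (S.Fr Λ) ξ ω₀ := ⟨_, rfl⟩
          rw [← hω]
          rw [hh]
          simp only
          by_cases hr : rE k (lk ω) (rc p.1 p.2) ≤ e
          · rw [ind_true hr, one_mul, hg, hS, hB, hs]
            refine hF' β hβ0 hb1 _ (by positivity) G hG p.1 p.2 hp3 hp4 ?_ ?_ ?_ ω hr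
            · push_cast; exact hp5
            · push_cast; exact hp6
            · have h7 := card_pls p.1 p.2 m hp3 hp4 hp5 hp6
              have h8 : (0 : ℝ) < ((8 * m + 5) ^ 2 : ℕ) := by positivity
              calc ((pls (rc p.1 p.2)).card : ℝ) * (e / ((8 * m + 5) ^ 2 : ℕ)) ≤
                    ((8 * m + 5) ^ 2 : ℕ) * (e / ((8 * m + 5) ^ 2 : ℕ)) := by gcongr
                _ = e := by field_simp
          · rw [ind_false hr, zero_mul]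
            exact hB0.le
        · rw [abs_mul]
          exact mul_le_one₀ (bh p ω) (abs_nonneg _) (hbd' 1 (g p) (mg p) (bg p) ω)
      · intro ω ω' hω
        rw [hh]
        simp only
        rw [rE_dep k (rc p.1 p.2) ω ω' fun i hi => hω i (by rw [hS]; exact hi)]
    -- the pointwise bound
    have k3 : ∀ ξ, ind (¬ (N : ℤ) ∣ ∑ x ∈ cl Λ, fx (glue (S.Fr Λ) ξ ω₀) x) ≤
        ∑ y ∈ Λ, f₁ y (glue (S.Fr Λ) ξ ω₀) +
          ∑ p ∈ T, h p (glue (S.Fr Λ) ξ ω₀) * g p (glue (S.Fr Λ) ξ ω₀) := by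
      intro ξ
      obtain ⟨ω, hω⟩ : ∃ ω, ω = glue (S.Fr Λ) ξ ω₀ := ⟨_, rfl⟩
      rw [← hω]
      have hX : ∀ l, l ∉ Frl L Λ → lk ω l = vc P Q l := by
        intro l hl
        have h1 : lk ω l = lk ω₀ l := by
          rw [hω, hS]
          unfold lk glue
          rw [if_neg]
          show Sum.inl l ∉ FrJ L Λ
          rw [mem_FrJ]
          intro h2
          exact hl ((mem_Frl _ _).2 h2)
        rw [h1, hlk0]
      have nf₁ : ∀ y, 0 ≤ f₁ y ω := fun y => by rw [hf₁]; exact ind_nonneg _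
      have ng : ∀ y, 0 ≤ g y ω := fun y => by rw [hg]; exact ind_nonneg _
      have nh : ∀ y, 0 ≤ h y ω := fun y => by rw [hh]; exact ind_nonneg _
      have n1 : 0 ≤ ∑ y ∈ Λ, f₁ y ω := Finset.sum_nonneg fun y _ => nf₁ y
      have n2 : 0 ≤ ∑ p ∈ T, h p ω * g p ω := Finset.sum_nonneg fun p _ => mul_nonneg (nh p) (ng p)
      by_cases c1 : (N : ℤ) ∣ ∑ x ∈ cl Λ, fx ω x
      · rw [ind_false (not_not_intro c1)]
        linarith
      by_cases c2 : ∃ y ∈ Λ, ∀ j ∈ Finset.Icc 1 m, e / 4 < rE k (lk ω) (Qs (y.1 / 4, y.2 / 4) j)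
      · obtain ⟨y, hy, c3⟩ := c2
        have h1 : f₁ y ω = 1 := by rw [hf₁]; exact ind_true c3
        have h2 := Finset.single_le_sum (f := fun y => f₁ y ω) (fun y _ => nf₁ y) hy
        rw [h1] at h2
        have := ind_le (¬ (N : ℤ) ∣ ∑ x ∈ cl Λ, fx ω x)
        linarith
      by_cases c3 : ∃ p ∈ T, rE k (lk ω) (rc p.1 p.2) ≤ e ∧ ¬ (N : ℤ) ∣ ∑ x ∈ cl (rc p.1 p.2), fd G ω x
      · obtain ⟨p, hp, c4, c5⟩ := c3
        have h1 : h p ω * g p ω = 1 := by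
          rw [hh, hg]
          simp only
          rw [ind_true c4, ind_true c5, one_mul]
        have h2 := Finset.single_le_sum (f := fun p => h p ω * g p ω)
          (fun p _ => mul_nonneg (nh p) (ng p)) hp
        rw [h1] at h2
        have := ind_le (¬ (N : ℤ) ∣ ∑ x ∈ cl Λ, fx ω x)
        linarith
      exfalso
      apply c1
      rw [hΛ, ← flux_box hN P Q G 0 b ha1 ha2 ω (by rw [← hΛ]; exact hX)]
      refine hV N k L hN hk P Q hPQ m (e / 4) (by linarith) 0 b ha1 ha2 (dvd_zero _) (dvd_zero _) ?_ ?_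
        (lk ω) (fun x => fd G ω x) (by rw [← hΛ]; exact hX) ?_ ?_
      · rw [hbi]; exact ⟨i, by ring⟩
      · rw [hbj]; exact ⟨j, by ring⟩
      · intro y hy
        by_contra hcon
        push Not at hcon
        exact c2 ⟨y, by rw [hΛ]; exact hy, hcon⟩
      · intro a' b' q1 q2 q3 q4 q5 q6 q7
        by_contra hcon
        refine c3 ⟨(a', b'), ?_, ?_, hcon⟩
        · rw [hT, Finset.mem_filter, Finset.mem_product]
          rw [← hΛ] at q3 q4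
          exact ⟨⟨q3, q4⟩, q1, q2, q5, q6⟩
        · linarith
    -- counting
    have hTc : (T.card : ℝ) ≤ Λ.card * (8 * m + 3) ^ 2 := by
      have h1 : T.card ≤ (Λ ×ˢ (Finset.Icc (0 : ℤ) (8 * m + 2) ×ˢ Finset.Icc (0 : ℤ) (8 * m + 2))).card := by
        refine Finset.card_le_card_of_injOn (fun p => (p.1, (p.2.1 - p.1.1, p.2.2 - p.1.2))) ?_ ?_
        · intro p hp
          rw [hT] at hp
          simp only [Finset.coe_filter, Set.mem_ofPred_eq, Finset.mem_product] at hp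
          simp only [Finset.coe_product, Set.mem_prod, Finset.mem_coe, Finset.mem_Icc]
          refine ⟨hp.1.1, ?_, ?_⟩ <;> omega
        · rintro ⟨⟨u1, u2⟩, v1, v2⟩ _ ⟨⟨w1, w2⟩, x1, x2⟩ _ heq
          simp only [Prod.mk.injEq] at heq ⊢
          omega
      rw [Finset.card_product, Finset.card_product, Int.card_Icc] at h1
      have h2 : (8 * (m : ℤ) + 2 + 1 - 0).toNat = 8 * m + 3 := by omega
      rw [h2] at h1
      have h3 : (T.card : ℝ) ≤ ((Λ.card * ((8 * m + 3) * (8 * m + 3)) : ℕ) : ℝ) := by exact_mod_cast h1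
      refine h3.trans (le_of_eq ?_)
      push_cast
      ring
    -- conclusion
    have s1 := ker_sum h5 S (mj N) Λ f₁ mf₁ bf₁ B ω₀ Λ k1
    have s2 := ker_sum h5 S (mj N) Λ (fun p ω => h p ω * g p ω) (fun p => (mh p).mul (mg p))
      (fun p ω => by rw [abs_mul]; exact mul_le_one₀ (bh p ω) (abs_nonneg _) (bg p ω)) B ω₀ T k2
    obtain ⟨-, -, hlin, -⟩ := h5 (Ix L) Tm (Vr N) S (mj N) Λ
    have M1 : Measurable fun ω => ∑ y ∈ Λ, f₁ y ω := Finset.measurable_sum _ fun y _ => mf₁ y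
    have M2 : Measurable fun ω => ∑ p ∈ T, h p ω * g p ω :=
      Finset.measurable_sum _ fun p _ => (mh p).mul (mg p)
    have b1 : ∀ ω, |∑ y ∈ Λ, f₁ y ω| ≤ Λ.card := by
      intro ω
      refine (Finset.abs_sum_le_sum_abs _ _).trans ?_
      have := Finset.sum_le_card_nsmul Λ (fun i' => |f₁ i' ω|) 1 fun i' _ => bf₁ i' ω
      simpa using this
    have b2 : ∀ ω, |∑ p ∈ T, h p ω * g p ω| ≤ T.card := by
      intro ω
      refine (Finset.abs_sum_le_sum_abs _ _).trans ?_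
      have := Finset.sum_le_card_nsmul T (fun i' => |h i' ω * g i' ω|) 1 fun i' _ => by
        rw [abs_mul]; exact mul_le_one₀ (bh i' ω) (abs_nonneg _) (bg i' ω)
      simpa using this
    have s3 := (hlin (fun ω => ∑ y ∈ Λ, f₁ y ω) (fun ω => ∑ p ∈ T, h p ω * g p ω) M1 ⟨_, b1⟩ M2
      ⟨_, b2⟩ ω₀).2.1
    have s4 := (hlin (fun ω' => ind (¬ (N : ℤ) ∣ ∑ x ∈ cl Λ, fx ω' x))
      (fun ω => ∑ y ∈ Λ, f₁ y ω + ∑ p ∈ T, h p ω * g p ω)
      (ind_meas (dvd_meas (fun x ω => fx ω x) (fun x => fx_meas x) _)) ⟨1, fun _ => ind_abs _⟩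
      (M1.add M2) ⟨Λ.card + T.card, fun ω => (abs_add_le _ _).trans (add_le_add (b1 ω) (b2 ω))⟩ ω₀).1 k3
    rw [s3] at s4
    have hBs : (1 + (8 * m + 3) ^ 2 : ℝ) * B ≤ Real.exp (-β * (s - ρ)) := by
      have h1 := hβ₃ β hb3
      have h2 : B = Real.exp (-β * (s - ρ)) * Real.exp (-β * (ρ / 2)) := by
        rw [hB, ← Real.exp_add]; congr 1; ring
      rw [h2, mul_left_comm]
      exact mul_le_of_le_one_right (Real.exp_pos _).le h1
    rw [← hcard]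
    calc S.ker (mj N) Λ (fun ω' => ind (¬ (N : ℤ) ∣ ∑ x ∈ cl Λ, fx ω' x)) ω₀
        ≤ Λ.card * B + T.card * B := s4.trans (add_le_add s1 s2)
      _ ≤ Λ.card * B + (Λ.card * (8 * m + 3) ^ 2) * B := by gcongr
      _ = Λ.card * ((1 + (8 * m + 3) ^ 2 : ℝ) * B) := by ring
      _ ≤ Λ.card * Real.exp (-β * (s - ρ)) := by gcongr
  have h0 := (hJ N k L hN β hβ0).2 0 b ha1 ha2 (fun n => ind (¬ (N : ℤ) ∣ n)) (fun n => by
    have : ((N : ℤ) ∣ n + N) ↔ (N : ℤ) ∣ n := by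
      constructor
      · intro h; exact (Int.dvd_add_left (dvd_refl _)).1 h
      · intro h; exact dvd_add h (dvd_refl _)
    simp only [this]) ω₀
  rw [← hΛ, ← hS, hlk0] at h0
  rw [h0] at key
  have hnum : ∑ n ∈ Finset.range N, ind (¬ (N : ℤ) ∣ (n : ℤ)) * Zf k β (dl 0 (n : ℤ)) Λ (vc P Q : Cf N L) =
      ∑ n ∈ Finset.Ico 1 N, Zf k β (dl 0 (n : ℤ)) Λ (vc P Q : Cf N L) := by
    rw [Finset.range_eq_Ico, ← Finset.sum_Ico_consecutive _ (Nat.zero_le 1) (by omega : 1 ≤ N)]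
    rw [Nat.Ico_succ_singleton, Finset.sum_singleton]
    rw [ind_false (not_not_intro (by simp)), zero_mul, zero_add]
    refine Finset.sum_congr rfl fun n hn => ?_
    rw [Finset.mem_Ico] at hn
    rw [ind_true, one_mul]
    intro hd
    have := Nat.le_of_dvd (by omega) (Int.natCast_dvd_natCast.1 hd)
    omega
  rw [hnum] at key
  have hZ : 0 ≤ ∑ n ∈ Finset.range N, Zf k β (dl 0 (n : ℤ)) Λ (vc P Q : Cf N L) := by
    refine Finset.sum_nonneg fun n _ => ?_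
    unfold Zf
    exact integral_nonneg fun ξ => (Real.exp_pos _).le
  rw [← hΛ, ← hs]
  rcases hZ.lt_or_eq with hZ | hZ
  · rwa [div_le_iff₀ hZ] at key
  · rw [← hZ, mul_zero]
    rw [hZ]
    refine Finset.sum_le_sum_of_subset_of_nonneg ?_ fun n _ _ => ?_
    · intro n hn
      rw [Finset.mem_Ico] at hn
      exact Finset.mem_range.2 hn.2
    · unfold Zf
      exact integral_nonneg fun ξ => (Real.exp_pos _).le

end T2H01.SE.PkgVPu

namespace T2H01.SE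

open T2H02.TT

theorem pVPu (h3 : S_F3) (h5 : S_F5) (hEG : S_EG) (hJ : S_VJ) (hF : S_VFu) (hH : S_VHu) (hV : S_VN) :
    S_VPu := PkgVPu.main h3 h5 hEG hJ hF hH hV

end T2H01.SE
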