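import Pool.Agent.T2H01.SE.Stm1

/-!
# Package VR : ratios of the partition functions
-/

set_option autoImplicit false

noncomputable section

open MeasureTheory Matrix
open scoped Matrix.Norms.Frobenius

namespace T2H01.SE

open T2H02.TT

namespace PkgVR

section

variable {N L : ℕ} [NeZero L]

lemma EE_nonneg (k : ℕ) (s : Pl → ℤ) (U : Finset Pl) (X : Cf N L) : 0 ≤ EE k s U X :=
  Finset.sum_nonneg fun τ _ => enf_nonneg k s X τ

lemma Zf_nonneg (k : ℕ) (β : ℝ) (s : Pl → ℤ) (U : Finset Pl) (η : Cf N L) : 0 ≤ Zf k β s U η :=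
  integral_nonneg fun _ => (Real.exp_pos _).le

lemma Zf_le (k : ℕ) (β : ℝ) (s : Pl → ℤ) (U : Finset Pl) (η : Cf N L) (c : ℝ)
    (h : ∀ ξ : Cf N L, Real.exp (-β * EE k s U (glue (Frl L U) ξ η)) ≤ c) :
    Zf k β s U η ≤ c := by
  have h1 : Zf k β s U η ≤ ∫ _ξ : Cf N L, c ∂(pm N L) :=
    integral_mono_of_nonneg (Filter.Eventually.of_forall fun ξ => (Real.exp_pos _).le)
      (integrable_const c) (Filter.Eventually.of_forall h)
  simpa using h1

lemma Zf_le_one (k : ℕ) (β : ℝ) (hβ : 0 ≤ β) (s : Pl → ℤ) (U : Finset Pl) (η : Cf N L) :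
    Zf k β s U η ≤ 1 := by
  refine Zf_le k β s U η 1 fun ξ => ?_
  rw [Real.exp_le_one_iff]
  have := mul_nonneg hβ (EE_nonneg k s U (glue (Frl L U) ξ η))
  linarith

lemma rD_glue (P Q : SU N) (U : Finset Pl) (ξ σ : Cf N L) :
    rD P Q (glue (Frl L U) ξ σ) U = rD P Q σ U := by
  unfold rD
  refine Finset.sum_congr rfl fun l hl => ?_
  have : l ∉ Frl L U := by
    rw [rlk, Finset.mem_filter] at hl
    rw [mem_Frl]
    rintro ⟨a, ha, hU⟩
    exact (Finset.mem_sdiff.1 (hl.2 a ha)).2 hU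
  simp [glue, this]

lemma mem_rc (a b x : Pl) :
    x ∈ rc a b ↔ (a.1 ≤ x.1 ∧ x.1 ≤ b.1) ∧ (a.2 ≤ x.2 ∧ x.2 ≤ b.2) := by
  rw [rc, Finset.mem_product, Finset.mem_Icc, Finset.mem_Icc]

lemma card_rc (a b : Pl) (K : ℕ) (h1 : b.1 - a.1 ≤ K) (h2 : b.2 - a.2 ≤ K) :
    (rc a b).card ≤ (K + 1) ^ 2 := by
  rw [rc, Finset.card_product, Int.card_Icc, Int.card_Icc, pow_two]
  exact Nat.mul_le_mul (by omega) (by omega)

lemma cl_self (U : Finset Pl) (a : Pl) (h : a ∈ U) : a ∈ cl U :=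
  (mem_cl U a).2 ⟨a, (mem_cor3 a a).2 (Or.inl rfl), h⟩

lemma SS_nonneg (k : ℕ) (P Q : SU N) : 0 ≤ SS L k P Q := by
  refine Real.sInf_nonneg ?_
  rintro e ⟨n, U, X, _, _, _, rfl⟩
  exact EE_nonneg _ _ _ _

lemma dl_zero (a : Pl) : dl a 0 = fun _ => (0 : ℤ) := by
  funext x
  simp [dl]

lemma sum_dl (U : Finset Pl) (a : Pl) (h : a ∈ U) (n : ℤ) : ∑ x ∈ U, dl a n x = n := by
  simp [dl, Finset.sum_ite_eq', h]

end

lemma ev (A M C c : ℝ) (hc : 0 < c) (hC : 0 < C) :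
    ∃ β₀ : ℝ, 1 ≤ β₀ ∧ ∀ β : ℝ, β₀ ≤ β → A + M * Real.log (C * β) ≤ c * β := by
  have h0 : (fun β : ℝ => Real.log (C * β)) =o[Filter.atTop] fun β : ℝ => β := by
    have h1 := Real.isLittleO_log_id_atTop.comp_tendsto
      ((Filter.tendsto_id (α := ℝ) (x := Filter.atTop)).const_mul_atTop hC)
    refine h1.trans_isBigO ?_
    exact (Asymptotics.isBigO_refl (fun β : ℝ => β) Filter.atTop).const_mul_left C
  have h1 : (fun β : ℝ => A + M * Real.log (C * β)) =o[Filter.atTop] fun β : ℝ => β :=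
    (Asymptotics.isLittleO_const_id_atTop A).add (h0.const_mul_left M)
  have h2 := h1.def hc
  obtain ⟨b, hb⟩ := Filter.eventually_atTop.1 h2
  refine ⟨max 1 b, le_max_left _ _, fun β hβ => ?_⟩
  have h3 := hb β (le_trans (le_max_right _ _) hβ)
  have h4 : 0 ≤ β := le_trans zero_le_one (le_trans (le_max_left _ _) hβ)
  rw [Real.norm_eq_abs, Real.norm_eq_abs, abs_of_nonneg h4] at h3
  exact le_trans (le_abs_self _) h3

lemma two (A B : ℝ) (hA : 0 ≤ A) (hA1 : A ≤ 1) (hB : 0 ≤ B) (hB1 : B ≤ 1) (w : ℂ)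
    (hw : ‖w‖ = 1) : ‖(A : ℂ) + w * (B : ℂ)‖ ≤ A + B - A * B * (1 - w.re) / 2 := by
  have hr : |w.re| ≤ 1 := hw ▸ Complex.abs_re_le_norm w
  obtain ⟨hr1, hr2⟩ := abs_le.1 hr
  have hsq : w.re ^ 2 + w.im ^ 2 = 1 := by
    have := Complex.sq_norm w
    rw [hw, Complex.normSq_apply] at this
    nlinarith
  have h1 : ‖(A : ℂ) + w * (B : ℂ)‖ ^ 2 = (A + B) ^ 2 - 2 * (A * B * (1 - w.re)) := by
    rw [Complex.sq_norm, Complex.normSq_apply]
    simp only [Complex.add_re, Complex.ofReal_re, Complex.mul_re, Complex.ofReal_im, mul_zero,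
      sub_zero, Complex.add_im, Complex.mul_im, zero_add]
    have : (A + w.re * B) * (A + w.re * B) + w.im * B * (w.im * B) =
        A ^ 2 + 2 * A * B * w.re + B ^ 2 * (w.re ^ 2 + w.im ^ 2) := by ring
    rw [this, hsq]
    ring
  have hAB : 0 ≤ A * B := mul_nonneg hA hB
  have hAB1 : A * B ≤ A := by nlinarith
  have ht : A * B * (1 - w.re) ≤ 2 * A := by nlinarith
  have ht0 : 0 ≤ A * B * (1 - w.re) := mul_nonneg hAB (by linarith)
  set t := A * B * (1 - w.re) with htd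
  refine abs_le_of_sq_le_sq' ?_ ?_ |>.2
  · rw [h1]
    nlinarith
  · linarith

lemma om_zero (N : ℕ) : om N 0 = 1 := by simp [om]

lemma om_norm (N m : ℕ) : ‖om N m‖ = 1 := by
  rw [om, show 2 * (Real.pi : ℂ) * Complex.I * m / N = ((2 * Real.pi * m / N : ℝ) : ℂ) * Complex.I by
    push_cast; ring, Complex.norm_exp_ofReal_mul_I]

lemma om_ne (N m : ℕ) (h0 : 0 < m) (h1 : m < N) : om N m ≠ 1 := by
  intro h
  rw [om, Complex.exp_eq_one_iff] at h
  obtain ⟨j, hj⟩ := h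
  have hN : (N : ℂ) ≠ 0 := by
    have : N ≠ 0 := by omega
    exact_mod_cast this
  have hpi : (2 * (Real.pi : ℂ) * Complex.I) ≠ 0 := Complex.two_pi_I_ne_zero
  have h2 : (m : ℂ) = j * N := by
    have h3 : 2 * (Real.pi : ℂ) * Complex.I * ((m : ℂ) / N) = 2 * (Real.pi : ℂ) * Complex.I * j := by
      rw [← mul_div_assoc, hj]; ring
    have h4 := mul_left_cancel₀ hpi h3
    field_simp at h4
    rw [h4, mul_comm]
  have h5 : (m : ℤ) = j * N := by exact_mod_cast h2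
  have h6 : (0 : ℤ) < j := by
    by_contra hj0
    rw [not_lt] at hj0
    have : j * (N : ℤ) ≤ 0 := mul_nonpos_of_nonpos_of_nonneg hj0 (by positivity)
    omega
  have h7 : (N : ℤ) ≤ j * N := by nlinarith
  omega

lemma om_re (N m : ℕ) (h0 : 0 < m) (h1 : m < N) : 0 < 1 - (om N m).re := by
  have hn := om_norm N m
  have hr : |(om N m).re| ≤ 1 := hn ▸ Complex.abs_re_le_norm _
  have hsq : (om N m).re ^ 2 + (om N m).im ^ 2 = 1 := by
    have := Complex.sq_norm (om N m)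
    rw [hn, Complex.normSq_apply] at this
    nlinarith
  rcases lt_or_eq_of_le (abs_le.1 hr).2 with h | h
  · linarith
  · exfalso
    refine om_ne N m h0 h1 (Complex.ext (by simpa using h) ?_)
    rw [h] at hsq
    have : (om N m).im ^ 2 = 0 := by linarith
    simpa using pow_eq_zero_iff (two_ne_zero) |>.1 this

end PkgVR

open PkgVR

theorem pVR (hVE : S_VE) (hVC : S_VC) (hVI : S_VI) (hVS : S_VS) : S_VR := by
  intro N k L _ hN hk P Q hPQ ρ hρ
  obtain ⟨Cc, hCc, hc1, hc2⟩ := hVC N k L hN hk P Q hPQ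
  obtain ⟨Ci, D, hCi, hi⟩ := hVI N k L hN hk
  have hS : 0 ≤ SS L k P Q := SS_nonneg k P Q
  set S := SS L k P Q with hSd
  have hCi0 : 0 < Ci := lt_of_lt_of_le one_pos hCi
  have hCc0 : 0 < Cc := lt_of_lt_of_le one_pos hCc
  -- lower bounds of partition functions
  have low : ∀ (K : ℕ) (β : ℝ), 1 ≤ β → ∀ (s : Pl → ℤ) (a b : Pl), b.1 - a.1 ≤ K → b.2 - a.2 ≤ K →
      ∀ (η X : Cf N L), (∀ l, l ∉ Frl L (rc a b) → X l = η l) → ∀ E : ℝ, EE k s (rc a b) X ≤ E →
      Real.exp (-(β + 1) * E - (D * (K + 1) ^ 2 : ℝ) * Real.log (Ci * β)) ≤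
        Zf k β s (rc a b) η := by
    intro K β hβ s a b h1 h2 η X hX E hE
    refine le_trans ?_ (hi β hβ s (rc a b) η X hX)
    have hCb : 1 ≤ Ci * β := by nlinarith
    have hCb0 : 0 < Ci * β := lt_of_lt_of_le one_pos hCb
    rw [sub_eq_add_neg, Real.exp_add]
    refine mul_le_mul ?_ ?_ (Real.exp_pos _).le (Real.exp_pos _).le
    · rw [Real.exp_le_exp]
      nlinarith
    · rw [Real.exp_neg]
      refine inv_anti₀ (by positivity) ?_
      have h3 : ((D * (K + 1) ^ 2 : ℕ) : ℝ) * Real.log (Ci * β) =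
          Real.log ((Ci * β) ^ (D * (K + 1) ^ 2)) := by
        rw [Real.log_pow]
      have h4 : (D * (K + 1) ^ 2 : ℝ) * Real.log (Ci * β) =
          Real.log ((Ci * β) ^ (D * (K + 1) ^ 2)) := by
        rw [← h3]; push_cast; ring
      rw [h4, Real.exp_log (by positivity)]
      exact pow_le_pow_right₀ hCb (Nat.mul_le_mul_left _ (card_rc a b K h1 h2))
  refine ⟨?_, ?_⟩
  · -- first part
    obtain ⟨Ce, hCe, he⟩ := hVE N k L hN hk P Q hPQ (ρ / (4 * (S + 1))) (by positivity)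
    have hCe0 : 0 < Ce := lt_of_lt_of_le one_pos hCe
    refine ⟨ρ / (4 * (Ce + 2 * Cc)), by positivity, fun K => ?_⟩
    obtain ⟨β₀, hβ₀, hev⟩ := ev 0 (D * (K + 1) ^ 2) Ci (ρ / 4) (by positivity) hCi0
    refine ⟨β₀, hβ₀, ?_⟩
    intro β hβ a b hab1 hab2 hK1 hK2 σ hσ n hn
    set e := ρ / (4 * (Ce + 2 * Cc)) with hed
    have he' : (Ce + 2 * Cc) * e = ρ / 4 := by rw [hed]; field_simp
    have he0 : 0 < e := by positivity
    have hβ1 : 1 ≤ β := le_trans hβ₀ hβ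
    have haU : a ∈ rc a b := (mem_rc a b a).2 ⟨⟨le_refl _, hab1⟩, ⟨le_refl _, hab2⟩⟩
    have hr0 : 0 < ρ / (4 * (S + 1)) := by positivity
    have hSr : S * (ρ / (4 * (S + 1))) ≤ ρ / 4 := by
      rw [mul_div_assoc', div_le_div_iff₀ (by positivity) (by positivity)]
      nlinarith
    set r := ρ / (4 * (S + 1)) with hrd
    -- upper bound
    have hup : Zf k β (dl a n) (rc a b) σ ≤ Real.exp (-β * ((S - Ce * e) / (1 + r))) := by
      refine Zf_le k β _ _ _ _ fun ξ => ?_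
      rw [Real.exp_le_exp]
      have h1 := he (rc a b) a n (glue (Frl L (rc a b)) ξ σ) (cl_self _ _ haU) hn
      rw [rD_glue] at h1
      have h2 : (S - Ce * e) / (1 + r) ≤ EE k (dl a n) (rc a b) (glue (Frl L (rc a b)) ξ σ) := by
        rw [div_le_iff₀ (by positivity)]
        have : Ce * rD P Q σ (rc a b) ≤ Ce * e := by gcongr
        nlinarith
      have h3 : 0 ≤ β := by linarith
      nlinarith
    -- lower bound
    have hlo := low K β hβ1 (dl a 0) a b hK1 hK2 σ (glue (Frl L (rc a b)) (vc P Q) σ)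
      (fun l hl => by simp [glue, hl]) (Cc * e) (by
        rw [dl_zero]
        exact le_trans (hc1 (rc a b) σ) (by gcongr))
    refine le_trans hup ?_
    refine le_trans ?_ (mul_le_mul_of_nonneg_left hlo (Real.exp_pos _).le)
    rw [← Real.exp_add, Real.exp_le_exp]
    have h5 := hev β hβ
    rw [zero_add] at h5
    have h6 : S - S * r - Ce * e ≤ (S - Ce * e) / (1 + r) := by
      rw [le_div_iff₀ (by positivity)]
      have : 0 ≤ S * r * r := by positivity
      have h7 : 0 ≤ Ce * e * r := by positivity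
      nlinarith
    have h8 : β * (S - S * r - Ce * e) ≤ β * ((S - Ce * e) / (1 + r)) :=
      mul_le_mul_of_nonneg_left h6 (by linarith)
    have h9 : β * (S * r) ≤ β * (ρ / 4) := mul_le_mul_of_nonneg_left hSr (by linarith)
    have h10 : (β + 1) * (Cc * e) ≤ β * (2 * Cc * e) := by
      have : 0 ≤ Cc * e := by positivity
      nlinarith
    have h11 : β * (Ce * e) + β * (2 * Cc * e) = β * (ρ / 4) := by
      rw [← he']; ring
    nlinarith
  · -- second part
    obtain ⟨K₁, n₀, hn₀, hcc⟩ := hc2 (ρ / 8) (by positivity)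
    refine ⟨K₁, fun K => ?_⟩
    have hN0 : (0 : ℤ) < N := by exact_mod_cast (by omega : 0 < N)
    obtain ⟨m₀, hm⟩ : ∃ m₀ : ℕ, (m₀ : ℤ) = n₀ % N :=
      ⟨(n₀ % N).toNat, Int.toNat_of_nonneg (Int.emod_nonneg _ hN0.ne')⟩
    have hm1 : m₀ < N := by
      have := Int.emod_lt_of_pos n₀ hN0
      omega
    have hm0 : 0 < m₀ := by
      rcases Nat.eq_zero_or_pos m₀ with h | h
      · exfalso
        rw [h] at hm
        exact hn₀ (Int.dvd_of_emod_eq_zero (by exact_mod_cast hm.symm))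
      · exact h
    have hκ := om_re N m₀ hm0 hm1
    set κ := 1 - (om N m₀).re with hκd
    have hNr : (0 : ℝ) < N := by exact_mod_cast (by omega : 0 < N)
    obtain ⟨β₀, hβ₀, hev⟩ := ev (S + ρ / 4 + Real.log (2 * N / κ)) (2 * (D * (K + 1) ^ 2)) Ci (ρ / 2)
      (by positivity) hCi0
    refine ⟨ρ / (16 * Cc), β₀, by positivity, hβ₀, ?_⟩
    intro β hβ a b c hab1 hab2 hK1 hK2 hc σ hσ
    set e := ρ / (16 * Cc) with hed
    have he' : Cc * e = ρ / 16 := by rw [hed]; field_simp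
    have hβ1 : 1 ≤ β := le_trans hβ₀ hβ
    have haU : a ∈ rc a b := (mem_rc a b a).2 ⟨⟨le_refl _, hab1⟩, ⟨le_refl _, hab2⟩⟩
    have hcU : c ∈ rc a b := by
      refine hc ?_
      rw [Nb, Finset.mem_product, Finset.mem_Icc, Finset.mem_Icc]
      have : (0 : ℤ) ≤ K₁ := by positivity
      omega
    obtain ⟨X, hX, hXE⟩ := hcc (rc a b) c hc σ
    have hCr : Cc * rD P Q σ (rc a b) ≤ Cc * e := by gcongr
    have hA := low K β hβ1 (dl a 0) a b hK1 hK2 σ (glue (Frl L (rc a b)) (vc P Q) σ)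
      (fun l hl => by simp [glue, hl]) (ρ / 16) (by
        rw [dl_zero, ← he']
        exact le_trans (hc1 (rc a b) σ) hCr)
    have hB0 := low K β hβ1 (dl c n₀) a b hK1 hK2 σ X hX (S + ρ / 8 + ρ / 16) (by
        rw [← he']
        exact le_trans hXE (by linarith))
    have hBeq : Zf k β (dl c n₀) (rc a b) σ = Zf k β (dl a (m₀ : ℤ)) (rc a b) σ := by
      refine hVS N k L hN β (by linarith) a b hab1 hab2 _ _ σ ?_
      rw [Finset.sum_sub_distrib, sum_dl _ _ (cl_self _ _ hcU), sum_dl _ _ (cl_self _ _ haU), hm]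
      exact Int.dvd_self_sub_emod
    rw [hBeq] at hB0
    have hZ0 : ∀ n : ℤ, 0 ≤ Zf k β (dl a n) (rc a b) σ := fun n => Zf_nonneg _ _ _ _ _
    have hZ1 : ∀ n : ℤ, Zf k β (dl a n) (rc a b) σ ≤ 1 := fun n =>
      Zf_le_one _ _ (by linarith) _ _ _
    set Z : ℕ → ℝ := fun n => Zf k β (dl a n) (rc a b) σ with hZd
    have hZ0' : ∀ n, 0 ≤ Z n := fun n => hZ0 n
    have hZ1' : ∀ n, Z n ≤ 1 := fun n => hZ1 n
    have hAZ : Real.exp (-(β + 1) * (ρ / 16) - (D * (K + 1) ^ 2 : ℝ) * Real.log (Ci * β)) ≤ Z 0 := by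
      simpa [hZd] using hA
    have hBZ : Real.exp (-(β + 1) * (S + ρ / 8 + ρ / 16) -
        (D * (K + 1) ^ 2 : ℝ) * Real.log (Ci * β)) ≤ Z m₀ := hB0
    change ‖∑ n ∈ Finset.range N, om N n * (Z n : ℂ)‖ ≤ (1 - Real.exp (-β * (S + ρ))) *
      ∑ n ∈ Finset.range N, Z n
    have hmem0 : 0 ∈ Finset.range N := Finset.mem_range.2 (by omega)
    have hmem1 : m₀ ∈ (Finset.range N).erase 0 :=
      Finset.mem_erase.2 ⟨by omega, Finset.mem_range.2 hm1⟩
    have hs1 : ∑ n ∈ Finset.range N, om N n * (Z n : ℂ) = ((Z 0 : ℂ) + om N m₀ * (Z m₀ : ℂ)) +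
        ∑ n ∈ ((Finset.range N).erase 0).erase m₀, om N n * (Z n : ℂ) := by
      rw [← Finset.add_sum_erase _ _ hmem0, ← Finset.add_sum_erase _ _ hmem1, om_zero, one_mul,
        add_assoc]
    have hs2 : ∑ n ∈ Finset.range N, Z n = (Z 0 + Z m₀) +
        ∑ n ∈ ((Finset.range N).erase 0).erase m₀, Z n := by
      rw [← Finset.add_sum_erase _ _ hmem0, ← Finset.add_sum_erase _ _ hmem1, add_assoc]
    have hrest : ‖∑ n ∈ ((Finset.range N).erase 0).erase m₀, om N n * (Z n : ℂ)‖ ≤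
        ∑ n ∈ ((Finset.range N).erase 0).erase m₀, Z n := by
      refine norm_sum_le_of_le _ fun n _ => ?_
      rw [norm_mul, om_norm, one_mul, Complex.norm_real, Real.norm_eq_abs, abs_of_nonneg (hZ0' n)]
    have htwo := two (Z 0) (Z m₀) (hZ0' 0) (hZ1' 0) (hZ0' m₀) (hZ1' m₀) (om N m₀) (om_norm N m₀)
    rw [← hκd] at htwo
    have hWN : ∑ n ∈ Finset.range N, Z n ≤ N := by
      have : ∑ n ∈ Finset.range N, Z n ≤ ∑ n ∈ Finset.range N, (1 : ℝ) :=
        Finset.sum_le_sum fun n _ => hZ1' n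
      simpa using this
    have hkey : (N : ℝ) * Real.exp (-β * (S + ρ)) ≤ Z 0 * Z m₀ * κ / 2 := by
      have h1 : Real.exp (-β * (S + ρ) + Real.log (2 * N / κ)) ≤ Z 0 * Z m₀ := by
        refine le_trans ?_ (mul_le_mul hAZ hBZ (Real.exp_pos _).le (hZ0' 0))
        rw [← Real.exp_add, Real.exp_le_exp]
        have h5 := hev β hβ
        nlinarith
      rw [Real.exp_add, Real.exp_log (by positivity)] at h1
      have h2 : Real.exp (-β * (S + ρ)) * (2 * N / κ) * (κ / 2) ≤ Z 0 * Z m₀ * (κ / 2) :=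
        mul_le_mul_of_nonneg_right h1 (by positivity)
      have h3 : Real.exp (-β * (S + ρ)) * (2 * N / κ) * (κ / 2) = N * Real.exp (-β * (S + ρ)) := by
        field_simp
      linarith
    have hW0 : Real.exp (-β * (S + ρ)) * ∑ n ∈ Finset.range N, Z n ≤
        N * Real.exp (-β * (S + ρ)) := by
      have := Real.exp_pos (-β * (S + ρ))
      nlinarith
    have hnorm : ‖∑ n ∈ Finset.range N, om N n * (Z n : ℂ)‖ ≤
        (Z 0 + Z m₀ - Z 0 * Z m₀ * κ / 2) + ∑ n ∈ ((Finset.range N).erase 0).erase m₀, Z n := by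
      rw [hs1]
      exact le_trans (norm_add_le _ _) (add_le_add htwo hrest)
    linarith

end T2H01.SE
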