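import Pool.Agent.T2H01.SE.Stm10
import Pool.Agent.T2H01.SE.VR

/-!
# Package VRu : ratios of the partition functions, uniformly in `L`
-/

set_option autoImplicit false

noncomputable section

open MeasureTheory Matrix
open scoped Matrix.Norms.Frobenius

namespace T2H01.SE

open T2H02.TT

namespace PkgVRu

open PkgVR

lemma log_le_sqrt {x : ℝ} (hx : 0 < x) : Real.log x ≤ 2 * Real.sqrt x := by
  have h1 := Real.log_le_sub_one_of_pos (Real.sqrt_pos.2 hx)
  rw [Real.log_sqrt hx.le] at h1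
  linarith

lemma evu {A B c Ci M β : ℝ} (hA : 0 ≤ A) (hB : 0 ≤ B) (hc : 0 < c) (hCi : 0 < Ci) (hM : 1 ≤ M)
    (hβ : 1 ≤ β) (h : (2 * A / c + 16 * B ^ 2 * Ci / c ^ 2) * M ^ 4 ≤ β) :
    A + B * M ^ 2 * Real.log (Ci * β) ≤ c * β := by
  have hβ0 : 0 < β := by linarith
  have hM4 : 1 ≤ M ^ 4 := one_le_pow₀ hM
  have ha : 0 ≤ 2 * A / c := by positivity
  have hb : 0 ≤ 16 * B ^ 2 * Ci / c ^ 2 := by positivity
  have h1 : 2 * A / c ≤ β := by
    refine le_trans ?_ h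
    have : 2 * A / c * 1 ≤ 2 * A / c * M ^ 4 := mul_le_mul_of_nonneg_left hM4 ha
    have h' := mul_nonneg hb (by positivity : (0 : ℝ) ≤ M ^ 4)
    rw [add_mul]
    linarith
  have h2 : 16 * B ^ 2 * Ci / c ^ 2 * M ^ 4 ≤ β := by
    refine le_trans ?_ h
    have h' := mul_nonneg ha (by positivity : (0 : ℝ) ≤ M ^ 4)
    rw [add_mul]
    linarith
  have h1' : 2 * A ≤ c * β := by
    rw [div_le_iff₀ hc] at h1
    linarith
  have h2' : 16 * B ^ 2 * Ci * M ^ 4 ≤ c ^ 2 * β := by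
    rw [div_mul_eq_mul_div, div_le_iff₀ (by positivity)] at h2
    linarith
  have hs := log_le_sqrt (mul_pos hCi hβ0)
  have hsq : Real.sqrt (Ci * β) ^ 2 = Ci * β := Real.sq_sqrt (by positivity)
  have hs0 := Real.sqrt_nonneg (Ci * β)
  set s := Real.sqrt (Ci * β) with hsd
  have h3 : 4 * B * M ^ 2 * s ≤ c * β := by
    refine le_of_sq_le_sq' ?_ (by positivity)
    calc (4 * B * M ^ 2 * s) ^ 2 = 16 * B ^ 2 * M ^ 4 * s ^ 2 := by ring
      _ = (16 * B ^ 2 * Ci * M ^ 4) * β := by rw [hsq]; ring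
      _ ≤ (c ^ 2 * β) * β := mul_le_mul_of_nonneg_right h2' hβ0.le
      _ = (c * β) ^ 2 := by ring
  have h4 : B * M ^ 2 * Real.log (Ci * β) ≤ B * M ^ 2 * (2 * s) :=
    mul_le_mul_of_nonneg_left hs (by positivity)
  have h5 : B * M ^ 2 * (2 * s) = 4 * B * M ^ 2 * s / 2 := by ring
  linarith
where
  le_of_sq_le_sq' {a b : ℝ} (h : a ^ 2 ≤ b ^ 2) (hb : 0 ≤ b) : a ≤ b :=
    (abs_le_of_sq_le_sq' h hb).2

lemma om_min (N : ℕ) : ∃ κ₀ : ℝ, 0 < κ₀ ∧ ∀ m : ℕ, 0 < m → m < N → κ₀ ≤ 1 - (om N m).re := by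
  classical
  by_cases hne : ((Finset.range N).filter (fun m => 0 < m)).Nonempty
  · obtain ⟨m₁, hm₁, hmin⟩ := Finset.exists_min_image ((Finset.range N).filter (fun m => 0 < m))
      (fun m => 1 - (om N m).re) hne
    rw [Finset.mem_filter, Finset.mem_range] at hm₁
    refine ⟨1 - (om N m₁).re, om_re N m₁ hm₁.2 hm₁.1, fun m h0 h1 => ?_⟩
    exact hmin m (Finset.mem_filter.2 ⟨Finset.mem_range.2 h1, h0⟩)
  · refine ⟨1, one_pos, fun m h0 h1 => ?_⟩
    exact absurd ⟨m, Finset.mem_filter.2 ⟨Finset.mem_range.2 h1, h0⟩⟩ hne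

end PkgVRu

open PkgVR PkgVRu

theorem pVRu (hVE : S_VEu) (hVC : S_VCu) (hVI : S_VIu) (hVS : S_VS) (hYE : S_YE) : S_VRu := by
  intro N k hN hk P Q hPQ ρ hρ
  obtain ⟨Cc, hCc, hc1, hc2⟩ := hVC N k hN hk P Q hPQ
  obtain ⟨Ci, D, hCi, hi⟩ := hVI N k hN
  obtain ⟨CY, hCY⟩ := hYE N hN
  set S₁ : ℝ := max CY 0 with hS₁
  have hS₁0 : 0 ≤ S₁ := le_max_right _ _
  have hSS : ∀ (L : ℕ) [NeZero L], SS L k P Q ≤ S₁ := fun L _ =>
    (hCY k L hk P Q hPQ).trans (le_max_left _ _)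
  have hCi0 : 0 < Ci := lt_of_lt_of_le one_pos hCi
  have hCc0 : 0 < Cc := lt_of_lt_of_le one_pos hCc
  obtain ⟨Ce, hCe, he⟩ := hVE N k hN hk P Q hPQ (ρ / (4 * (S₁ + 1))) (by positivity)
  have hCe0 : 0 < Ce := lt_of_lt_of_le one_pos hCe
  obtain ⟨Cd, Kd, hCd, hcd⟩ := hc2 (ρ / 8) (by positivity)
  obtain ⟨κ₀, hκ₀, hκm⟩ := om_min N
  have hNr : (0 : ℝ) < N := by exact_mod_cast (by omega : 0 < N)
  set A₂ : ℝ := S₁ + ρ / 4 + |Real.log (2 * N / κ₀)| with hA₂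
  have hA₂0 : 0 ≤ A₂ := by positivity
  set X1 : ℝ := 2 * 0 / (ρ / 4) + 16 * (D : ℝ) ^ 2 * Ci / (ρ / 4) ^ 2 with hX1
  set X2 : ℝ := 2 * A₂ / (ρ / 2) + 16 * (2 * D : ℝ) ^ 2 * Ci / (ρ / 2) ^ 2 with hX2
  have hX10 : 0 ≤ X1 := by positivity
  have hX20 : 0 ≤ X2 := by positivity
  set C : ℝ := 1 + 4 * (Ce + 2 * Cc) / ρ + 16 * Cc / ρ + Cd + X1 + X2 with hC
  have hY1 : 0 ≤ 4 * (Ce + 2 * Cc) / ρ := by positivity
  have hY2 : 0 ≤ 16 * Cc / ρ := by positivity
  have hC1 : 1 ≤ C := by rw [hC]; linarith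
  have hC0 : 0 < C := by linarith
  refine ⟨C, 4 + Kd, hC1, ?_⟩
  intro L _
  have hLN : 1 ≤ L := Nat.one_le_iff_ne_zero.2 (NeZero.ne L)
  have hL1 : (1 : ℝ) ≤ L := by exact_mod_cast hLN
  have hS : 0 ≤ SS L k P Q := SS_nonneg k P Q
  have hSle : SS L k P Q ≤ S₁ := hSS L
  set S := SS L k P Q with hSd
  have hLK : (1 : ℝ) ≤ (L : ℝ) ^ (4 + Kd) := one_le_pow₀ hL1
  set e : ℝ := 1 / (C * (L : ℝ) ^ (4 + Kd)) with hed
  have he0 : 0 < e := by positivity
  have heC : e ≤ 1 / C := by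
    rw [hed]
    refine one_div_le_one_div_of_le hC0 ?_
    exact le_mul_of_one_le_right hC0.le hLK
  have he1 : (Ce + 2 * Cc) * e ≤ ρ / 4 := by
    have h1 : (Ce + 2 * Cc) * e ≤ (Ce + 2 * Cc) * (1 / C) :=
      mul_le_mul_of_nonneg_left heC (by positivity)
    have h2 : (Ce + 2 * Cc) * (1 / C) ≤ ρ / 4 := by
      rw [mul_one_div, div_le_iff₀ hC0]
      have h3 : ρ / 4 * (4 * (Ce + 2 * Cc) / ρ) = Ce + 2 * Cc := by field_simp
      have h4 : ρ / 4 * (4 * (Ce + 2 * Cc) / ρ) ≤ ρ / 4 * C :=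
        mul_le_mul_of_nonneg_left (by rw [hC]; linarith) (by positivity)
      linarith
    linarith
  have he2 : Cc * e ≤ ρ / 16 := by
    have h1 : Cc * e ≤ Cc * (1 / C) := mul_le_mul_of_nonneg_left heC (by positivity)
    have h2 : Cc * (1 / C) ≤ ρ / 16 := by
      rw [mul_one_div, div_le_iff₀ hC0]
      have h3 : ρ / 16 * (16 * Cc / ρ) = Cc := by field_simp
      have h4 : ρ / 16 * (16 * Cc / ρ) ≤ ρ / 16 * C :=
        mul_le_mul_of_nonneg_left (by rw [hC]; linarith) (by positivity)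
      linarith
    linarith
  -- the condition on `β`
  have hbig : ∀ (h : ℕ) (β : ℝ), C * ((L : ℝ) * (h + 1)) ^ (4 + Kd) ≤ β → 1 ≤ β ∧
      X1 * ((L : ℝ) * (h + 1)) ^ 4 ≤ β ∧ X2 * ((L : ℝ) * (h + 1)) ^ 4 ≤ β ∧
      1 ≤ (L : ℝ) * (h + 1) := by
    intro h β hβ
    have hM : 1 ≤ (L : ℝ) * (h + 1) := by
      have : (0 : ℝ) ≤ h := Nat.cast_nonneg _
      exact one_le_mul_of_one_le_of_one_le hL1 (by linarith)
    have h4 : ((L : ℝ) * (h + 1)) ^ 4 ≤ ((L : ℝ) * (h + 1)) ^ (4 + Kd) :=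
      pow_le_pow_right₀ hM (by omega)
    have h41 : 1 ≤ ((L : ℝ) * (h + 1)) ^ 4 := one_le_pow₀ hM
    set M4 := ((L : ℝ) * (h + 1)) ^ 4 with hM4
    set MK := ((L : ℝ) * (h + 1)) ^ (4 + Kd) with hMK
    have hCM : C * M4 ≤ C * MK := mul_le_mul_of_nonneg_left h4 hC0.le
    have hX1C : X1 ≤ C := by rw [hC]; linarith
    have hX2C : X2 ≤ C := by rw [hC]; linarith
    have hone : 1 ≤ C * M4 := one_le_mul_of_one_le_of_one_le hC1 h41
    refine ⟨?_, ?_, ?_, hM⟩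
    · linarith
    · have : X1 * M4 ≤ C * M4 := mul_le_mul_of_nonneg_right hX1C (by linarith)
      linarith
    · have : X2 * M4 ≤ C * M4 := mul_le_mul_of_nonneg_right hX2C (by linarith)
      linarith
  -- lower bounds of partition functions
  have low : ∀ (h : ℕ) (β : ℝ), 1 ≤ β → ∀ (s : Pl → ℤ) (a b : Pl), b.1 - a.1 ≤ h →
      b.2 - a.2 ≤ h → ∀ (η X : Cf N L), (∀ l, l ∉ Frl L (rc a b) → X l = η l) → ∀ E : ℝ,
      EE k s (rc a b) X ≤ E →
      Real.exp (-(β + 1) * E - (D * ((L : ℝ) * (h + 1)) ^ 2 : ℝ) * Real.log (Ci * β)) ≤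
        Zf k β s (rc a b) η := by
    intro h β hβ s a b h1 h2 η X hX E hE
    refine le_trans ?_ (hi L β hβ s (rc a b) η X hX)
    have hCb : 1 ≤ Ci * β := one_le_mul_of_one_le_of_one_le hCi hβ
    have hCb0 : 0 < Ci * β := lt_of_lt_of_le one_pos hCb
    rw [sub_eq_add_neg, Real.exp_add]
    refine mul_le_mul ?_ ?_ (Real.exp_pos _).le (Real.exp_pos _).le
    · rw [Real.exp_le_exp]
      have h0 : (β + 1) * EE k s (rc a b) X ≤ (β + 1) * E :=
        mul_le_mul_of_nonneg_left hE (by linarith)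
      linarith
    · rw [Real.exp_neg]
      refine inv_anti₀ (by positivity) ?_
      have h3 : ((D * L ^ 2 * (h + 1) ^ 2 : ℕ) : ℝ) * Real.log (Ci * β) =
          Real.log ((Ci * β) ^ (D * L ^ 2 * (h + 1) ^ 2)) := by
        rw [Real.log_pow]
      have h4 : (D * ((L : ℝ) * (h + 1)) ^ 2 : ℝ) * Real.log (Ci * β) =
          Real.log ((Ci * β) ^ (D * L ^ 2 * (h + 1) ^ 2)) := by
        rw [← h3]; push_cast; ring
      rw [h4, Real.exp_log (by positivity)]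
      exact pow_le_pow_right₀ hCb (Nat.mul_le_mul_left _ (card_rc a b h h1 h2))
  refine ⟨?_, ?_⟩
  · -- first part
    intro h β hβ a b hab1 hab2 hK1 hK2 σ hσ n hn
    obtain ⟨hβ1, hb1, -, hM⟩ := hbig h β hβ
    have hev := evu (A := 0) (B := (D : ℝ)) (c := ρ / 4) (Ci := Ci) le_rfl (Nat.cast_nonneg _)
      (by positivity) hCi0 hM hβ1 hb1
    have haU : a ∈ rc a b := (mem_rc a b a).2 ⟨⟨le_refl _, hab1⟩, ⟨le_refl _, hab2⟩⟩
    have hr0 : 0 < ρ / (4 * (S₁ + 1)) := by positivity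
    have hSr : S * (ρ / (4 * (S₁ + 1))) ≤ ρ / 4 := by
      have h1 : S * (ρ / (4 * (S₁ + 1))) ≤ S₁ * (ρ / (4 * (S₁ + 1))) :=
        mul_le_mul_of_nonneg_right hSle hr0.le
      refine h1.trans ?_
      rw [mul_div_assoc', div_le_div_iff₀ (by positivity) (by positivity)]
      have h2 : S₁ * ρ * 4 ≤ ρ * (4 * (S₁ + 1)) := by
        have h3 : ρ * (4 * (S₁ + 1)) = S₁ * ρ * 4 + 4 * ρ := by ring
        linarith
      exact h2
    set r := ρ / (4 * (S₁ + 1)) with hrd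
    -- upper bound
    have hup : Zf k β (dl a n) (rc a b) σ ≤ Real.exp (-β * ((S - Ce * e) / (1 + r))) := by
      refine Zf_le k β _ _ _ _ fun ξ => ?_
      rw [Real.exp_le_exp]
      have h1 := he L (rc a b) a n (glue (Frl L (rc a b)) ξ σ) (cl_self _ _ haU) hn
      rw [rD_glue] at h1
      have h2 : (S - Ce * e) / (1 + r) ≤ EE k (dl a n) (rc a b) (glue (Frl L (rc a b)) ξ σ) := by
        rw [div_le_iff₀ (by positivity)]
        have : Ce * rD P Q σ (rc a b) ≤ Ce * e := by gcongr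
        linarith
      have h3 : 0 ≤ β := by linarith
      have h4 := mul_le_mul_of_nonneg_left h2 h3
      rw [neg_mul, neg_mul]
      exact neg_le_neg h4
    -- lower bound
    have hlo := low h β hβ1 (dl a 0) a b hK1 hK2 σ (glue (Frl L (rc a b)) (vc P Q) σ)
      (fun l hl => by simp [glue, hl]) (Cc * e) (by
        rw [dl_zero]
        exact le_trans (hc1 L (rc a b) σ) (by gcongr))
    refine le_trans hup ?_
    refine le_trans ?_ (mul_le_mul_of_nonneg_left hlo (Real.exp_pos _).le)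
    rw [← Real.exp_add, Real.exp_le_exp]
    have h5 := hev
    rw [zero_add] at h5
    have h6 : S - S * r - Ce * e ≤ (S - Ce * e) / (1 + r) := by
      rw [le_div_iff₀ (by positivity)]
      have : 0 ≤ S * r * r := by positivity
      have h7 : 0 ≤ Ce * e * r := by positivity
      have h8 : (S - S * r - Ce * e) * (1 + r) = S - Ce * e - S * r * r - Ce * e * r := by ring
      rw [h8]
      linarith
    have h8 : β * (S - S * r - Ce * e) ≤ β * ((S - Ce * e) / (1 + r)) :=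
      mul_le_mul_of_nonneg_left h6 (by linarith)
    have h9 : β * (S * r) ≤ β * (ρ / 4) := mul_le_mul_of_nonneg_left hSr (by linarith)
    have h10 : (β + 1) * (Cc * e) ≤ β * (2 * Cc * e) := by
      have h1 : 0 ≤ (β - 1) * (Cc * e) :=
        mul_nonneg (by linarith) (by positivity)
      have h2 : β * (2 * Cc * e) - (β + 1) * (Cc * e) = (β - 1) * (Cc * e) := by ring
      linarith
    have h11 : β * (Ce * e) + β * (2 * Cc * e) ≤ β * (ρ / 4) := by
      have h1 : β * ((Ce + 2 * Cc) * e) ≤ β * (ρ / 4) := mul_le_mul_of_nonneg_left he1 (by linarith)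
      have h2 : β * (Ce * e) + β * (2 * Cc * e) = β * ((Ce + 2 * Cc) * e) := by ring
      rw [h2]
      exact h1
    generalize (D : ℝ) * ((L : ℝ) * (h + 1)) ^ 2 * Real.log (Ci * β) = q at h5 ⊢
    generalize (S - Ce * e) / (1 + r) = y at h8 ⊢
    have e1 : β * (S - S * r - Ce * e) = β * S - β * (S * r) - β * (Ce * e) := by ring
    have e2 : -β * (S - ρ) + (-(β + 1) * (Cc * e) - q) =
        -(β * S) + β * ρ - (β + 1) * (Cc * e) - q := by ring
    have e3 : β * ρ = β * (ρ / 4) + β * (ρ / 4) + β * (ρ / 4) + β * (ρ / 4) := by ring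
    have e4 : ρ / 4 * β = β * (ρ / 4) := by ring
    rw [e1] at h8
    rw [e2, neg_mul]
    rw [e4] at h5
    have e5 : 0 ≤ β * (ρ / 4) := by positivity
    linarith
  · -- second part
    obtain ⟨K₁, n₀, hK₁, hn₀, hcc⟩ := hcd L
    refine ⟨K₁, ?_, ?_⟩
    · refine hK₁.trans ?_
      have h1 : (L : ℝ) ^ Kd ≤ (L : ℝ) ^ (4 + Kd) := pow_le_pow_right₀ hL1 (by omega)
      have h2 : Cd ≤ C := by rw [hC]; linarith
      exact mul_le_mul h2 h1 (by positivity) hC0.le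
    intro h β hβ a b c hab1 hab2 hK1 hK2 hc σ hσ
    have hN0 : (0 : ℤ) < N := by exact_mod_cast (by omega : 0 < N)
    obtain ⟨m₀, hm⟩ : ∃ m₀ : ℕ, (m₀ : ℤ) = n₀ % N :=
      ⟨(n₀ % N).toNat, Int.toNat_of_nonneg (Int.emod_nonneg _ hN0.ne')⟩
    have hm1 : m₀ < N := by
      have := Int.emod_lt_of_pos n₀ hN0
      omega
    have hm0 : 0 < m₀ := by
      rcases Nat.eq_zero_or_pos m₀ with h | h
      · exfalso
        rw [h] at hm
        exact hn₀ (Int.dvd_of_emod_eq_zero (by exact_mod_cast hm.symm))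
      · exact h
    have hκ := om_re N m₀ hm0 hm1
    have hκκ := hκm m₀ hm0 hm1
    set κ := 1 - (om N m₀).re with hκd
    obtain ⟨hβ1, -, hb2, hM⟩ := hbig h β hβ
    have hev := evu (A := A₂) (B := (2 * D : ℝ)) (c := ρ / 2) (Ci := Ci) hA₂0 (by positivity)
      (by positivity) hCi0 hM hβ1 hb2
    have haU : a ∈ rc a b := (mem_rc a b a).2 ⟨⟨le_refl _, hab1⟩, ⟨le_refl _, hab2⟩⟩
    have hcU : c ∈ rc a b := by
      refine hc ?_
      rw [Nb, Finset.mem_product, Finset.mem_Icc, Finset.mem_Icc]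
      have : (0 : ℤ) ≤ K₁ := by positivity
      omega
    obtain ⟨X, hX, hXE⟩ := hcc (rc a b) c hc σ
    have hCr : Cc * rD P Q σ (rc a b) ≤ Cc * e := by gcongr
    have hA := low h β hβ1 (dl a 0) a b hK1 hK2 σ (glue (Frl L (rc a b)) (vc P Q) σ)
      (fun l hl => by simp [glue, hl]) (ρ / 16) (by
        rw [dl_zero]
        exact le_trans (hc1 L (rc a b) σ) (hCr.trans he2))
    have hB0 := low h β hβ1 (dl c n₀) a b hK1 hK2 σ X hX (S + ρ / 8 + ρ / 16) (by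
        exact le_trans hXE (by linarith))
    have hBeq : Zf k β (dl c n₀) (rc a b) σ = Zf k β (dl a (m₀ : ℤ)) (rc a b) σ := by
      refine hVS N k L hN β (by linarith) a b hab1 hab2 _ _ σ ?_
      rw [Finset.sum_sub_distrib, sum_dl _ _ (cl_self _ _ hcU), sum_dl _ _ (cl_self _ _ haU), hm]
      exact Int.dvd_self_sub_emod
    rw [hBeq] at hB0
    have hZ0 : ∀ n : ℤ, 0 ≤ Zf k β (dl a n) (rc a b) σ := fun n => Zf_nonneg _ _ _ _ _
    have hZ1 : ∀ n : ℤ, Zf k β (dl a n) (rc a b) σ ≤ 1 := fun n =>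
      Zf_le_one _ _ (by linarith) _ _ _
    set Z : ℕ → ℝ := fun n => Zf k β (dl a n) (rc a b) σ with hZd
    have hZ0' : ∀ n, 0 ≤ Z n := fun n => hZ0 n
    have hZ1' : ∀ n, Z n ≤ 1 := fun n => hZ1 n
    set q : ℝ := (D : ℝ) * ((L : ℝ) * (h + 1)) ^ 2 * Real.log (Ci * β) with hq
    have hAZ : Real.exp (-(β + 1) * (ρ / 16) - q) ≤ Z 0 := by
      simpa [hZd] using hA
    have hBZ : Real.exp (-(β + 1) * (S + ρ / 8 + ρ / 16) - q) ≤ Z m₀ := hB0
    change ‖∑ n ∈ Finset.range N, om N n * (Z n : ℂ)‖ ≤ (1 - Real.exp (-β * (S + ρ))) *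
      ∑ n ∈ Finset.range N, Z n
    have hmem0 : 0 ∈ Finset.range N := Finset.mem_range.2 (by omega)
    have hmem1 : m₀ ∈ (Finset.range N).erase 0 :=
      Finset.mem_erase.2 ⟨by omega, Finset.mem_range.2 hm1⟩
    have hs1 : ∑ n ∈ Finset.range N, om N n * (Z n : ℂ) = ((Z 0 : ℂ) + om N m₀ * (Z m₀ : ℂ)) +
        ∑ n ∈ ((Finset.range N).erase 0).erase m₀, om N n * (Z n : ℂ) := by
      rw [← Finset.add_sum_erase _ _ hmem0, ← Finset.add_sum_erase _ _ hmem1, om_zero, one_mul,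
        add_assoc]
    have hs2 : ∑ n ∈ Finset.range N, Z n = (Z 0 + Z m₀) +
        ∑ n ∈ ((Finset.range N).erase 0).erase m₀, Z n := by
      rw [← Finset.add_sum_erase _ _ hmem0, ← Finset.add_sum_erase _ _ hmem1, add_assoc]
    have hrest : ‖∑ n ∈ ((Finset.range N).erase 0).erase m₀, om N n * (Z n : ℂ)‖ ≤
        ∑ n ∈ ((Finset.range N).erase 0).erase m₀, Z n := by
      refine norm_sum_le_of_le _ fun n _ => ?_
      rw [norm_mul, om_norm, one_mul, Complex.norm_real, Real.norm_eq_abs, abs_of_nonneg (hZ0' n)]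
    have htwo := two (Z 0) (Z m₀) (hZ0' 0) (hZ1' 0) (hZ0' m₀) (hZ1' m₀) (om N m₀) (om_norm N m₀)
    rw [← hκd] at htwo
    have hWN : ∑ n ∈ Finset.range N, Z n ≤ N := by
      have : ∑ n ∈ Finset.range N, Z n ≤ ∑ n ∈ Finset.range N, (1 : ℝ) :=
        Finset.sum_le_sum fun n _ => hZ1' n
      simpa using this
    have hlog : Real.log (2 * N / κ₀) ≤ |Real.log (2 * N / κ₀)| := le_abs_self _
    have hkey : (N : ℝ) * Real.exp (-β * (S + ρ)) ≤ Z 0 * Z m₀ * κ / 2 := by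
      have h1 : Real.exp (-β * (S + ρ) + Real.log (2 * N / κ₀)) ≤ Z 0 * Z m₀ := by
        refine le_trans ?_ (mul_le_mul hAZ hBZ (Real.exp_pos _).le (hZ0' 0))
        rw [← Real.exp_add, Real.exp_le_exp]
        have h5 : A₂ + 2 * q ≤ ρ / 2 * β := by
          refine le_trans (le_of_eq ?_) hev
          rw [hq]
          ring
        rw [hA₂] at h5
        have e1 : -(β + 1) * (ρ / 16) - q + (-(β + 1) * (S + ρ / 8 + ρ / 16) - q) =
            -(β * S) - S - β * ρ / 4 - ρ / 4 - 2 * q := by ring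
        have e2 : -β * (S + ρ) = -(β * S) - β * ρ := by ring
        have e3 : ρ / 2 * β = β * ρ / 2 := by ring
        have e4 : 0 ≤ β * ρ := by positivity
        rw [e1, e2]
        rw [e3] at h5
        linarith
      rw [Real.exp_add, Real.exp_log (by positivity)] at h1
      have h2 : Real.exp (-β * (S + ρ)) * (2 * N / κ₀) * (κ₀ / 2) ≤ Z 0 * Z m₀ * (κ₀ / 2) :=
        mul_le_mul_of_nonneg_right h1 (by positivity)
      have h3 : Real.exp (-β * (S + ρ)) * (2 * N / κ₀) * (κ₀ / 2) = N * Real.exp (-β * (S + ρ)) := by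
        field_simp
      have h4 : Z 0 * Z m₀ * (κ₀ / 2) ≤ Z 0 * Z m₀ * (κ / 2) :=
        mul_le_mul_of_nonneg_left (by linarith) (mul_nonneg (hZ0' 0) (hZ0' m₀))
      linarith
    have hW0 : Real.exp (-β * (S + ρ)) * ∑ n ∈ Finset.range N, Z n ≤
        N * Real.exp (-β * (S + ρ)) := by
      rw [mul_comm (N : ℝ)]
      exact mul_le_mul_of_nonneg_left hWN (Real.exp_pos _).le
    have hnorm : ‖∑ n ∈ Finset.range N, om N n * (Z n : ℂ)‖ ≤
        (Z 0 + Z m₀ - Z 0 * Z m₀ * κ / 2) + ∑ n ∈ ((Finset.range N).erase 0).erase m₀, Z n := by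
      rw [hs1]
      exact le_trans (norm_add_le _ _) (add_le_add htwo hrest)
    linarith

end T2H01.SE
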