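import Pool.Agent.T2H01.SE.Stm10
import Pool.Agent.T2H01.SE.VP
import Pool.Agent.T2H01.SE.VE
import Pool.Agent.T2H01.SE.VC
import Pool.Agent.T2H01.SE.VS
import Pool.Agent.T2H01.SE.VF

/-!
# Package VXu : near minimisers of the vortex action with support of polynomial size
-/

set_option autoImplicit false
set_option linter.unusedSectionVars false
set_option linter.unusedVariables false

noncomputable section

open MeasureTheory Matrix
open scoped Matrix.Norms.Frobenius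

namespace T2H01.SE.PkgVXu

open T2H02.TT

variable {N L : ℕ} [NeZero L]

/-- terms which do not touch `U` have no energy -/
lemma out {k : ℕ} {P Q : SU N} (hV : ∀ (s : Pl → ℤ) (τ : Tm), (τ.2 = 3 → (N : ℤ) ∣ s τ.1) →
      enf k s (vc P Q : Cf N L) τ = 0) {U : Finset Pl} (h0 : (0 : Pl) ∈ U) (n : ℤ) {X : Cf N L}
    (hX : ∀ l, l ∉ Frl L U → X l = vc P Q l) {τ : Tm} (hτ : τ ∉ tml U) :
    enf k (dl 0 n) X τ = 0 := by
  rw [enf_loc k (dl 0 n) (dl 0 n) τ X (vc P Q) (fun l hl => hX l fun h => ?_) fun _ => rfl]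
  · refine hV _ τ fun h3 => ?_
    have : τ.1 ≠ 0 := by
      intro hx
      apply hτ
      rw [mem_tml]
      refine ⟨0, ?_, h0⟩
      obtain ⟨x, i⟩ := τ
      simp only at hx h3
      subst hx h3
      exact (mem_cor3 _ _).2 (Or.inl rfl)
    rw [dl, if_neg this]
    exact dvd_zero _
  · obtain ⟨a, ha, haU⟩ := (mem_Frl _ _).1 h
    exact hτ ((mem_tml _ _).2 ⟨a, (cor_iff (L := L) τ a).2 ⟨l, hl, ha⟩, haU⟩)

lemma EE_mono {k : ℕ} {P Q : SU N} (hV : ∀ (s : Pl → ℤ) (τ : Tm), (τ.2 = 3 → (N : ℤ) ∣ s τ.1) →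
      enf k s (vc P Q : Cf N L) τ = 0) {U V : Finset Pl} (h0 : (0 : Pl) ∈ U) (n : ℤ) {X : Cf N L}
    (hX : ∀ l, l ∉ Frl L U → X l = vc P Q l) (hUV : U ⊆ V) :
    EE k (dl 0 n) V X = EE k (dl 0 n) U X := by
  unfold EE
  symm
  refine Finset.sum_subset ?_ fun τ _ hτ => out hV h0 n hX hτ
  intro τ hτ
  obtain ⟨b, hb, hb'⟩ := (mem_tml _ _).1 hτ
  exact (mem_tml _ _).2 ⟨b, hb, hUV hb'⟩

lemma fin_le {k : ℕ} {P Q : SU N} (hV : ∀ (s : Pl → ℤ) (τ : Tm), (τ.2 = 3 → (N : ℤ) ∣ s τ.1) →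
      enf k s (vc P Q : Cf N L) τ = 0)
    (hen : ∀ (s : Pl → ℤ) (X : Cf N L) (τ : Tm), en k X τ ≤ enf k s X τ)
    {U : Finset Pl} (h0 : (0 : Pl) ∈ U) (n : ℤ) {X : Cf N L}
    (hX : ∀ l, l ∉ Frl L U → X l = vc P Q l) (T : Finset Tm) :
    ∑ τ ∈ T, en k X τ ≤ EE k (dl 0 n) U X := by
  classical
  refine (Finset.sum_le_sum fun τ _ => hen (dl 0 n) X τ).trans ?_
  refine (Finset.sum_le_sum_of_subset_of_nonneg (Finset.subset_union_left (s₂ := tml U))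
    fun τ _ _ => enf_nonneg _ _ _ _).trans ?_
  unfold EE
  refine le_of_eq ?_
  symm
  exact Finset.sum_subset Finset.subset_union_right fun τ _ hτ => out hV h0 n hX hτ

/-- the energy after cutting -/
lemma cut {k : ℕ} {P Q : SU N} {C₀ : ℝ} (hC₀ : 1 ≤ C₀) {ρ : ℝ} (hρ : 0 < ρ)
    (hL : ∀ (s : Pl → ℤ) (τ : Tm) (X Y : Cf N L),
      enf k s Y τ ≤ (1 + ρ) * enf k s X τ +
        (1 + 1 / ρ) * C₀ * ∑ l ∈ (spt τ : Finset (Lk L)), ‖(Y l : Mt N) - (X l : Mt N)‖ ^ 2)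
    (s : Pl → ℤ) (U : Finset Pl) (X : Cf N L) :
    EE k s U (glue (Frl L U) X (vc P Q)) ≤ (1 + ρ) * EE k s U X +
      (1 + 1 / ρ) * C₀ * 12 * rD P Q X U := by
  have h1ρ : 0 < 1 / ρ := by positivity
  obtain ⟨X', hX'⟩ : ∃ X' : Cf N L, X' = glue (Frl L U) X (vc P Q) := ⟨_, rfl⟩
  rw [← hX']
  have hoff : ∀ l, l ∉ Frl L U → X' l = vc P Q l := by
    intro l hl
    rw [hX']
    unfold glue
    rw [if_neg hl]
  have hon : ∀ l, l ∈ Frl L U → X' l = X l := by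
    intro l hl
    rw [hX']
    unfold glue
    rw [if_pos hl]
  have h2 : EE k s U X' ≤ (1 + ρ) * EE k s U X +
      (1 + 1 / ρ) * C₀ * ∑ τ ∈ tml U, ∑ l ∈ (spt τ : Finset (Lk L)),
        ‖(X' l : Mt N) - (X l : Mt N)‖ ^ 2 := by
    unfold EE
    rw [Finset.mul_sum, Finset.mul_sum, ← Finset.sum_add_distrib]
    exact Finset.sum_le_sum fun τ _ => hL s τ X X'
  have h3 : ∑ τ ∈ tml U, ∑ l ∈ (spt τ : Finset (Lk L)), ‖(X' l : Mt N) - (X l : Mt N)‖ ^ 2 ≤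
      12 * rD P Q X U := by
    have h4 : ∀ τ ∈ tml U, ∑ l ∈ (spt τ : Finset (Lk L)), ‖(X' l : Mt N) - (X l : Mt N)‖ ^ 2 ≤
        ∑ l ∈ rlk L U, if l ∈ (spt τ : Finset (Lk L)) then
          ‖(X l : Mt N) - (vc P Q l : Mt N)‖ ^ 2 else 0 := by
      intro τ hτ
      rw [← Finset.sum_filter]
      have h5 : ∑ l ∈ (spt τ : Finset (Lk L)), ‖(X' l : Mt N) - (X l : Mt N)‖ ^ 2 =
          ∑ l ∈ (spt τ : Finset (Lk L)).filter (fun l => l ∉ Frl L U),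
            ‖(X l : Mt N) - (vc P Q l : Mt N)‖ ^ 2 := by
        rw [Finset.sum_filter]
        refine Finset.sum_congr rfl fun l _ => ?_
        by_cases h : l ∈ Frl L U
        · rw [hon l h, sub_self, norm_zero, if_neg (not_not.2 h)]
          norm_num
        · rw [hoff l h, norm_sub_rev, if_pos h]
      rw [h5]
      refine Finset.sum_le_sum_of_subset_of_nonneg ?_ fun _ _ _ => by positivity
      intro l hl
      rw [Finset.mem_filter] at hl ⊢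
      exact ⟨PkgVE.mem_rlk U τ hτ l hl.1 hl.2, hl.1⟩
    refine (Finset.sum_le_sum h4).trans ?_
    rw [Finset.sum_comm, rD, Finset.mul_sum]
    refine Finset.sum_le_sum fun l _ => ?_
    rw [← Finset.sum_filter, Finset.sum_const, nsmul_eq_mul]
    refine mul_le_mul_of_nonneg_right ?_ (by positivity)
    exact_mod_cast PkgVE.card_terms (tml U) l
  have h6 : 0 ≤ (1 + 1 / ρ) * C₀ := by positivity
  have := mul_le_mul_of_nonneg_left h3 h6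
  linarith

/-- moving the fluxes -/
lemma move (hVA : S_VA) (k : ℕ) (hN : 2 ≤ N) (P Q : SU N) (a b : Pl) (h1 : a.1 ≤ b.1)
    (h2 : a.2 ≤ b.2) (s : Pl → ℤ) (X : Cf N L) (hX : ∀ l, l ∉ Frl L (rc a b) → X l = vc P Q l) :
    ∃ Y : Cf N L, (∀ l, l ∉ Frl L (rc a b) → Y l = vc P Q l) ∧
      EE k (dl a (∑ x ∈ cl (rc a b), s x)) (rc a b) Y = EE k s (rc a b) X := by
  obtain ⟨-, -, -, -, hoz, hg, -, -⟩ := hVA N k L hN
  obtain ⟨n', hn'⟩ : ∃ n', n' = ∑ x ∈ cl (rc a b), s x := ⟨_, rfl⟩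
  rw [← hn']
  obtain ⟨δ, hδ⟩ : ∃ δ : Pl → ℤ, δ = fun x => s x - dl a n' x := ⟨_, rfl⟩
  have hsum : (N : ℤ) ∣ PkgVS.lf a b δ (b.1 + 1) := by
    rw [← PkgVS.sum_cl h1 h2, hδ, Finset.sum_sub_distrib,
      PkgVF.sum_dl _ _ _ (PkgVF.mem_cl_self a b h1 h2), ← hn', sub_self]
    exact dvd_zero _
  obtain ⟨z, hz⟩ : ∃ z, z = PkgVS.zt N a b δ := ⟨_, rfl⟩
  refine ⟨cmv z X, ?_, ?_⟩
  · intro l hl
    rw [← hX l hl]
    unfold cmv
    split_ifs with h4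
    · have h5 : z l.1.1 l.2 = 0 := by
        rw [hz]
        by_contra hne
        apply hl
        rw [mem_Frl]
        have hrc : ∀ w : Pl, w ∈ rc a b ↔ a.1 ≤ w.1 ∧ w.1 ≤ b.1 ∧ a.2 ≤ w.2 ∧ w.2 ≤ b.2 := by
          intro w
          rw [rc, Finset.mem_product, Finset.mem_Icc, Finset.mem_Icc]
          tauto
        rcases h4 with h4 | h4
        · rw [h4, PkgVS.zt, if_pos rfl] at hne
          have h6 : a.1 - 1 ≤ l.1.1.1 ∧ l.1.1.1 ≤ b.1 ∧ a.2 ≤ l.1.1.2 ∧ l.1.1.2 ≤ b.2 := by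
            by_contra h7
            exact hne (if_neg h7)
          by_cases h7 : a.1 ≤ l.1.1.1
          · exact ⟨l.1.1, (mem_st _ _).2 (Or.inl rfl), (hrc _).2 ⟨h7, h6.2⟩⟩
          · refine ⟨l.1.1 + pe l.2, (mem_st _ _).2 (Or.inr rfl), (hrc _).2 ?_⟩
            rw [h4]
            simp [pe]
            omega
        · rw [h4, PkgVS.zt, if_neg (by decide), if_pos rfl] at hne
          have h6 : l.1.1.2 = a.2 - 1 ∧ a.1 ≤ l.1.1.1 ∧ l.1.1.1 ≤ b.1 := by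
            by_contra h7
            exact hne (if_neg h7)
          refine ⟨l.1.1 + pe l.2, (mem_st _ _).2 (Or.inr rfl), (hrc _).2 ?_⟩
          rw [h4]
          simp [pe]
          omega
      rw [h5, PkgVS.cen_zero, one_mul]
    · rfl
  · unfold EE
    refine Finset.sum_congr rfl fun τ hτ => ?_
    rw [(hg (fun _ => 1) z (dl a n') X τ).2]
    unfold enf
    split_ifs with h4
    · rw [hoz _ _ ?_]
      have hc : τ.1 ∈ cl (rc a b) := by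
        rw [mem_cl]
        obtain ⟨c, hc, hcU⟩ := (mem_tml _ _).1 hτ
        refine ⟨c, ?_, hcU⟩
        rwa [← h4]
      have := PkgVS.crz_zt hN h1 h2 hsum hc
      rw [← hz, hδ] at this
      have e : dl a n' τ.1 + crz z τ.1 - s τ.1 = crz z τ.1 - (s τ.1 - dl a n' τ.1) := by ring
      rw [e]
      exact this
    · rfl

theorem main (hVA : S_VA) (hVL : S_VL) (hVLu : S_VLu) (hVN : S_VN) (hVGu : S_VGu) (hEG : S_EG)
    (hYE : S_YE) : S_VXu := by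
  intro N k hN hk P Q hPQ ρ hρ
  obtain ⟨C₀, hC₀, hL⟩ := hVLu N k hN
  obtain ⟨CG, K, hCG, hG⟩ := hVGu N k hN hk P Q hPQ
  obtain ⟨S₁', hS₁'⟩ := hYE N hN
  obtain ⟨S₁, hS₁⟩ : ∃ S₁, S₁ = max S₁' 0 := ⟨_, rfl⟩
  have hS0 : 0 ≤ S₁ := by rw [hS₁]; exact le_max_right _ _
  obtain ⟨ρ', hρ'⟩ : ∃ ρ', ρ' = ρ / (4 * (S₁ + 2)) := ⟨_, rfl⟩
  have hρ'0 : 0 < ρ' := by rw [hρ']; positivity
  obtain ⟨A, hA⟩ : ∃ A, A = (1 + 1 / ρ') * C₀ * 12 := ⟨_, rfl⟩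
  have hA0 : 0 < A := by
    have : 0 < 1 / ρ' := by positivity
    rw [hA]; nlinarith
  obtain ⟨ρ₁, hρ₁⟩ : ∃ ρ₁, ρ₁ = min 1 (ρ / 4) := ⟨_, rfl⟩
  have hρ₁0 : 0 < ρ₁ := by rw [hρ₁]; exact lt_min one_pos (by linarith)
  have hρ₁1 : ρ₁ ≤ 1 := by rw [hρ₁]; exact min_le_left _ _
  have hρ₁2 : ρ₁ ≤ ρ / 4 := by rw [hρ₁]; exact min_le_right _ _
  obtain ⟨C, hC⟩ : ∃ C, C = 128 * (S₁ + 2) * A * CG / ρ + 10 := ⟨_, rfl⟩
  have hCG0 : 0 < CG := by linarith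
  have hC1 : 1 ≤ C := by
    have : 0 ≤ 128 * (S₁ + 2) * A * CG / ρ := by positivity
    rw [hC]; linarith
  refine ⟨C, K, hC1, ?_⟩
  intro L _
  have hN0 : 0 < N := by omega
  have : NeZero N := ⟨hN0.ne'⟩
  obtain ⟨-, -, -, -, -, hgz, hen, -⟩ := hVA N k L hN
  obtain ⟨-, hV, -⟩ := hVL N k L hN hk P Q hPQ
  have hLpos : (1 : ℝ) ≤ (L : ℝ) := by
    exact_mod_cast Nat.one_le_iff_ne_zero.2 (NeZero.ne L)
  have hLK : (1 : ℝ) ≤ (L : ℝ) ^ K := one_le_pow₀ hLpos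
  have hLK0 : (0 : ℝ) < (L : ℝ) ^ K := by linarith
  have hSS0 : 0 ≤ SS L k P Q := PkgVH.SS_nonneg k P Q
  have hSS1 : SS L k P Q ≤ S₁ := (hS₁' k L hk P Q hPQ).trans (by rw [hS₁]; exact le_max_left _ _)
  obtain ⟨s, hs⟩ : ∃ s, s = SS L k P Q := ⟨_, rfl⟩
  rw [← hs] at hSS0 hSS1 ⊢
  obtain ⟨e, he⟩ : ∃ e, e = ρ / (16 * A * CG * (L : ℝ) ^ K) := ⟨_, rfl⟩
  have he0 : 0 < e := by rw [he]; positivity
  obtain ⟨m, hm⟩ : ∃ m, m = ⌈(S₁ + 2) / e⌉₊ := ⟨_, rfl⟩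
  have hm1 : (S₁ + 2) / e ≤ m := by rw [hm]; exact Nat.le_ceil _
  have hm2 : (m : ℝ) ≤ (S₁ + 2) / e + 1 := by
    rw [hm]; exact (Nat.ceil_lt_add_one (by positivity)).le
  have hme : S₁ + 2 ≤ m * e := by rwa [div_le_iff₀ he0] at hm1
  obtain ⟨G, hGG⟩ := hEG N L hN P Q (4 * e / ((8 * m + 5) ^ 2 : ℕ)) (by positivity)
  -- a near minimiser
  have hne : (vset L k P Q).Nonempty := by
    refine ⟨_, 1, {0}, vc P Q, ?_, Finset.mem_singleton_self _, fun _ _ => rfl, rfl⟩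
    intro h
    have := Int.le_of_dvd one_pos h
    omega
  obtain ⟨e', he', hlt⟩ := exists_lt_of_csInf_lt hne
    (show sInf (vset L k P Q) < s + ρ₁ by rw [hs]; unfold SS; linarith)
  obtain ⟨n₀, U₀, X₀, hn₀, h0, hoff, rfl⟩ := he'
  obtain ⟨K', hK'⟩ := PkgVC.exists_Nb U₀
  -- a good ring
  have hring : ∀ q : Pl, ∃ j ∈ Finset.Icc 1 m, rE k X₀ (Qs q j) ≤ e := by
    intro q
    by_contra hcon
    push Not at hcon
    have hd : Set.PairwiseDisjoint (↑(Finset.Icc 1 m)) (fun j : ℕ => rng (Qs q j)) := by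
      intro i _ j _ hij
      rcases lt_or_gt_of_ne hij with h | h
      · exact PkgVH.rng_disj q h
      · exact (PkgVH.rng_disj q h).symm
    have h1 : ∑ j ∈ Finset.Icc 1 m, rE k X₀ (Qs q j) ≤ EE k (dl 0 n₀) U₀ X₀ := by
      unfold rE
      rw [← Finset.sum_biUnion hd]
      exact fin_le hV hen h0 n₀ hoff _
    have h2 : (m : ℝ) * e ≤ ∑ j ∈ Finset.Icc 1 m, rE k X₀ (Qs q j) := by
      have := Finset.card_nsmul_le_sum (Finset.Icc 1 m) (fun j => rE k X₀ (Qs q j)) e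
        fun j hj => (hcon j hj).le
      rw [Nat.card_Icc, nsmul_eq_mul] at this
      simpa using this
    linarith
  -- the box
  obtain ⟨a, ha⟩ : ∃ a : Pl, a = (-(4 * ((K' : ℤ) + 1)), -(4 * ((K' : ℤ) + 1))) := ⟨_, rfl⟩
  obtain ⟨b, hb⟩ : ∃ b : Pl, b = (4 * ((K' : ℤ) + 1) + 2, 4 * ((K' : ℤ) + 1) + 2) := ⟨_, rfl⟩
  have ha1 : a.1 = -(4 * ((K' : ℤ) + 1)) := by rw [ha]
  have ha2 : a.2 = -(4 * ((K' : ℤ) + 1)) := by rw [ha]
  have hb1 : b.1 = 4 * ((K' : ℤ) + 1) + 2 := by rw [hb]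
  have hb2 : b.2 = 4 * ((K' : ℤ) + 1) + 2 := by rw [hb]
  have hab1 : a.1 ≤ b.1 := by rw [ha1, hb1]; omega
  have hab2 : a.2 ≤ b.2 := by rw [ha2, hb2]; omega
  have hUΛ : U₀ ⊆ rc a b := by
    intro x hx
    have := hK' hx
    rw [PkgVC.mem_Nb', abs_le, abs_le] at this
    rw [PkgVN.mem_rc, ha1, ha2, hb1, hb2]
    simp only [Prod.fst_zero, Prod.snd_zero, sub_zero] at this
    omega
  have hFr : ∀ l, l ∉ Frl L (rc a b) → X₀ l = vc P Q l := by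
    intro l hl
    refine hoff l fun h => hl ?_
    obtain ⟨c, hc, hcU⟩ := (mem_Frl _ _).1 h
    exact (mem_Frl _ _).2 ⟨c, hc, hUΛ hcU⟩
  have h0cl : (0 : Pl) ∈ cl (rc a b) := by
    rw [mem_cl]
    exact ⟨0, (mem_cor3 _ _).2 (Or.inl rfl), hUΛ h0⟩
  have hflux : ∑ x ∈ cl (rc a b), (dl 0 n₀ x - crz (zz G X₀) x) = n₀ := by
    rw [Finset.sum_sub_distrib, PkgVF.sum_dl _ _ _ h0cl]
    have : ∑ x ∈ cl (rc a b), crz (zz G X₀) x = 0 := by
      refine PkgVP.crz_sum _ a b hab1 hab2 N ?_ ?_ ?_ ?_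
      · intro v
        refine PkgVP.zz_vac hN P Q G (rc a b) _ hFr _ 1 (Or.inr rfl) ?_ ?_ <;>
          rw [PkgVN.mem_rc] <;> simp [pe]
      · intro v
        refine PkgVP.zz_vac hN P Q G (rc a b) _ hFr _ 1 (Or.inr rfl) ?_ ?_ <;>
          rw [PkgVN.mem_rc] <;> simp [pe]
      · intro u
        refine PkgVP.zz_vac hN P Q G (rc a b) _ hFr _ 0 (Or.inl rfl) ?_ ?_ <;>
          rw [PkgVN.mem_rc] <;> simp [pe]
      · intro u
        refine PkgVP.zz_vac hN P Q G (rc a b) _ hFr _ 0 (Or.inl rfl) ?_ ?_ <;>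
          rw [PkgVN.mem_rc] <;> simp [pe]
    rw [this, sub_zero]
  -- the small rectangle
  obtain ⟨a', b', q1, q2, q5, q6, q7, q8⟩ : ∃ a' b' : Pl, a'.1 ≤ b'.1 ∧ a'.2 ≤ b'.2 ∧
      b'.1 - a'.1 ≤ 8 * m + 2 ∧ b'.2 - a'.2 ≤ 8 * m + 2 ∧ rE k X₀ (rc a' b') ≤ 4 * e ∧
      ¬ (N : ℤ) ∣ ∑ x ∈ cl (rc a' b'), (dl 0 n₀ x - crz (zz G X₀) x) := by
    by_contra hcon
    push Not at hcon
    apply hn₀
    rw [← hflux]
    refine hVN N k L hN hk P Q hPQ m e he0.le a b hab1 hab2 ?_ ?_ ?_ ?_ X₀ _ hFr ?_ ?_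
    · rw [ha1]; exact ⟨-((K' : ℤ) + 1), by ring⟩
    · rw [ha2]; exact ⟨-((K' : ℤ) + 1), by ring⟩
    · rw [hb1]; exact ⟨(K' : ℤ) + 1, by ring⟩
    · rw [hb2]; exact ⟨(K' : ℤ) + 1, by ring⟩
    · intro y _
      exact hring _
    · intro a' b' q1 q2 _ _ q5 q6 q7
      exact hcon a' b' q1 q2 q5 q6 q7
  -- the configuration in the good gauge
  obtain ⟨z, hz⟩ : ∃ z, z = zr G (rc a' b') X₀ := ⟨_, rfl⟩
  obtain ⟨σ, hσ⟩ : ∃ σ, σ = gau (gg G (rc a' b') X₀) (cmv z X₀) := ⟨_, rfl⟩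
  obtain ⟨s', hs'⟩ : ∃ s' : Pl → ℤ, s' = fun x => dl 0 n₀ x - crz z x := ⟨_, rfl⟩
  have hrD : rD P Q σ (rc a' b') ≤ CG * (L : ℝ) ^ K * (8 * e) := by
    have h1 := hG L (4 * e / ((8 * m + 5) ^ 2 : ℕ)) (by positivity) G hGG (rc a' b') X₀
    rw [← hz, ← hσ] at h1
    refine h1.trans ?_
    refine mul_le_mul_of_nonneg_left ?_ (by positivity)
    have h7 := PkgVP.card_pls a' b' m q1 q2 q5 q6
    have h8 : (0 : ℝ) < ((8 * m + 5) ^ 2 : ℕ) := by positivity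
    have h9 : ((pls (rc a' b')).card : ℝ) * (4 * e / ((8 * m + 5) ^ 2 : ℕ)) ≤ 4 * e := by
      calc ((pls (rc a' b')).card : ℝ) * (4 * e / ((8 * m + 5) ^ 2 : ℕ)) ≤
          ((8 * m + 5) ^ 2 : ℕ) * (4 * e / ((8 * m + 5) ^ 2 : ℕ)) := by gcongr
        _ = 4 * e := by field_simp
    linarith
  have hEσ : EE k s' (rc a' b') σ ≤ s + ρ₁ := by
    have h1 : EE k s' (rc a' b') σ = EE k (dl 0 n₀) (rc a' b') X₀ := by
      unfold EE
      refine Finset.sum_congr rfl fun τ _ => ?_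
      rw [hσ, (hgz _ z s' (cmv z X₀) τ).1, (hgz (fun _ => 1) z s' X₀ τ).2]
      congr 1
      funext x
      rw [hs']
      ring
    have h2 : EE k (dl 0 n₀) (rc a' b') X₀ ≤ EE k (dl 0 n₀) U₀ X₀ := by
      classical
      unfold EE
      refine (Finset.sum_le_sum_of_subset_of_nonneg (Finset.subset_union_left (s₂ := tml U₀))
        fun τ _ _ => enf_nonneg _ _ _ _).trans ?_
      refine le_of_eq ?_
      symm
      exact Finset.sum_subset Finset.subset_union_right fun τ _ hτ => out hV h0 n₀ hoff hτ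
    linarith
  -- cutting
  obtain ⟨X₁, hX₁⟩ : ∃ X₁ : Cf N L, X₁ = glue (Frl L (rc a' b')) σ (vc P Q) := ⟨_, rfl⟩
  have hX₁off : ∀ l, l ∉ Frl L (rc a' b') → X₁ l = vc P Q l := by
    intro l hl
    rw [hX₁]
    unfold glue
    rw [if_neg hl]
  have hE₁ : EE k s' (rc a' b') X₁ ≤ s + ρ := by
    have h1 := cut (k := k) (P := P) (Q := Q) hC₀ hρ'0
      (fun s τ X Y => hL L ρ' hρ'0 s τ X Y) s' (rc a' b') σ
    rw [← hX₁, ← hA] at h1
    have h2 : A * rD P Q σ (rc a' b') ≤ ρ / 2 := by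
      refine (mul_le_mul_of_nonneg_left hrD hA0.le).trans (le_of_eq ?_)
      rw [he]
      field_simp
      ring
    have h3 : (1 + ρ') * EE k s' (rc a' b') σ ≤ (1 + ρ') * (s + ρ₁) :=
      mul_le_mul_of_nonneg_left hEσ (by linarith)
    have h4 : ρ' * (s + ρ₁) ≤ ρ / 4 := by
      have h5 : s + ρ₁ ≤ S₁ + 2 := by linarith
      refine (mul_le_mul_of_nonneg_left h5 hρ'0.le).trans (le_of_eq ?_)
      rw [hρ']
      have : S₁ + 2 ≠ 0 := by linarith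
      field_simp
    nlinarith
  -- moving the fluxes
  obtain ⟨n', hn'⟩ : ∃ n', n' = ∑ x ∈ cl (rc a' b'), s' x := ⟨_, rfl⟩
  obtain ⟨X₂, hX₂off, hE₂⟩ := move hVA k hN P Q a' b' q1 q2 s' X₁ hX₁off
  rw [← hn'] at hE₂
  have hn'N : ¬ (N : ℤ) ∣ n' := by
    intro h
    apply q8
    rw [Finset.sum_sub_distrib, PkgVF.crz_ring G a' b' q1 q2 X₀, ← hz, ← Finset.sum_sub_distrib]
    rw [hn', hs'] at h
    exact h
  -- translation
  have hcl : a' ∈ cl (rc a' b') := PkgVF.mem_cl_self a' b' q1 q2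
  have hE₃ := PkgVE.EE_tr k P Q hV (rc a' b') a' n' X₂ hcl hX₂off
  obtain ⟨V, hVdef⟩ : ∃ V : Finset Pl, V = insert 0 ((rc a' b').image (fun x => x - a')) := ⟨_, rfl⟩
  have hX₃off : ∀ l, l ∉ Frl L V → PkgVE.tX a' X₂ l = vc P Q l := by
    intro l hl
    unfold PkgVE.tX
    rw [hX₂off]
    · rfl
    · intro hF
      apply hl
      obtain ⟨b, hb, hbU⟩ := (mem_Frl _ _).1 hF
      rw [hVdef, mem_Frl]
      refine ⟨b - a', ?_, Finset.mem_insert_of_mem ((PkgVE.mem_img _ a' _).2 (by simpa using hbU))⟩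
      rw [mem_st] at hb ⊢
      rcases hb with rfl | rfl
      · left; simp
      · right; simp only; abel
  have hVN' : V ⊆ Nb (8 * m + 2) 0 := by
    intro x hx
    rw [hVdef, Finset.mem_insert] at hx
    rw [PkgVC.mem_Nb', abs_le, abs_le]
    simp only [Prod.fst_zero, Prod.snd_zero, sub_zero]
    push_cast
    rcases hx with rfl | hx
    · simp only [Prod.fst_zero, Prod.snd_zero]
      omega
    · rw [PkgVE.mem_img, PkgVN.mem_rc] at hx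
      simp only [Prod.fst_add, Prod.snd_add] at hx
      omega
  have hV0 : (0 : Pl) ∈ V := by rw [hVdef]; exact Finset.mem_insert_self _ _
  refine ⟨8 * m + 2, n', PkgVE.tX a' X₂, ?_, hn'N, ?_, ?_⟩
  · push_cast
    have h1 : (S₁ + 2) / e = 16 * (S₁ + 2) * A * CG * (L : ℝ) ^ K / ρ := by
      rw [he]
      field_simp
    have h2 : C * (L : ℝ) ^ K = 8 * ((S₁ + 2) / e) + 10 * (L : ℝ) ^ K := by
      rw [h1, hC]
      field_simp
      ring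
    rw [h2]
    linarith
  · intro l hl
    refine hX₃off l fun h => hl ?_
    obtain ⟨c, hc, hcU⟩ := (mem_Frl _ _).1 h
    exact (mem_Frl _ _).2 ⟨c, hc, hVN' hcU⟩
  · rw [EE_mono hV hV0 n' hX₃off hVN', hVdef, hE₃, hE₂]
    exact hE₁

end T2H01.SE.PkgVXu

namespace T2H01.SE

open T2H02.TT

theorem pVXu (hVA : S_VA) (hVL : S_VL) (hVLu : S_VLu) (hVN : S_VN) (hVGu : S_VGu) (hEG : S_EG)
    (hYE : S_YE) : S_VXu := PkgVXu.main hVA hVL hVLu hVN hVGu hEG hYE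

end T2H01.SE
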