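import Pool.Agent.T2H01.SE.Stm10
import Pool.Agent.T2H01.SE.WB

/-! Package WBu: the blocks, uniformly in `L`. -/

set_option autoImplicit false
set_option linter.unusedSectionVars false
set_option linter.unusedVariables false

noncomputable section

open MeasureTheory

namespace T2H01.SE

open T2H02.TT

namespace PkgWBu

open PkgWB

lemma thr (C₁ C₂ ρ L β t R : ℝ) (K₁ K₂ : ℕ) (h1 : 1 ≤ C₁) (h2 : 1 ≤ C₂) (hρ : 0 < ρ) (hL : 1 ≤ L)
    (ht0 : 0 ≤ t) (ht : t ≤ C₁ * L ^ K₁) (hR : R ≤ C₂ * (L * (t + 1)) ^ K₂)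
    (hβ : (C₁ + C₂ * (2 * C₁) ^ K₂ + 2 + C₁ * (3 * C₁) ^ K₁ + 1 / ρ) *
      L ^ (K₁ + (K₁ + 1) * K₂ + (K₁ + 1) * K₁) ≤ β) :
    t + R + 2 ≤ β ∧ C₁ * (L * (2 * t + 1)) ^ K₁ ≤ β ∧ C₂ * (L * (t + 1)) ^ K₂ ≤ β ∧ 1 / ρ ≤ β := by
  have hL0 : 0 < L := by linarith
  have hC2 : 0 < C₂ := by linarith
  have hC1 : 0 < C₁ := by linarith
  obtain ⟨M, hM⟩ : ∃ M, M = K₁ + (K₁ + 1) * K₂ + (K₁ + 1) * K₁ := ⟨_, rfl⟩
  rw [← hM] at hβ
  have p1 : L ^ K₁ ≤ L ^ M := pow_le_pow_right₀ hL (by rw [hM]; omega)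
  have p2 : L ^ ((K₁ + 1) * K₂) ≤ L ^ M := pow_le_pow_right₀ hL (by rw [hM]; omega)
  have p3 : L ^ ((K₁ + 1) * K₁) ≤ L ^ M := pow_le_pow_right₀ hL (by rw [hM]; omega)
  have p4 : 1 ≤ L ^ M := one_le_pow₀ hL
  have hA : 0 ≤ C₂ * (2 * C₁) ^ K₂ := by positivity
  have hB : 0 ≤ C₁ * (3 * C₁) ^ K₁ := by positivity
  have hD : 0 < 1 / ρ := by positivity
  have q1 : 1 ≤ L ^ K₁ := one_le_pow₀ hL
  have q2 : 1 ≤ C₁ * L ^ K₁ := by nlinarith
  have r1 : (L * (t + 1)) ^ K₂ ≤ (2 * C₁) ^ K₂ * L ^ M := by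
    have h3 : L * (t + 1) ≤ 2 * C₁ * L ^ (K₁ + 1) := by
      calc L * (t + 1) ≤ L * (2 * (C₁ * L ^ K₁)) := by gcongr; linarith
        _ = 2 * C₁ * L ^ (K₁ + 1) := by ring
    calc (L * (t + 1)) ^ K₂ ≤ (2 * C₁ * L ^ (K₁ + 1)) ^ K₂ := by gcongr
      _ = (2 * C₁) ^ K₂ * L ^ ((K₁ + 1) * K₂) := by rw [mul_pow, ← pow_mul]
      _ ≤ (2 * C₁) ^ K₂ * L ^ M := by gcongr
  have r2 : (L * (2 * t + 1)) ^ K₁ ≤ (3 * C₁) ^ K₁ * L ^ M := by
    have h3 : L * (2 * t + 1) ≤ 3 * C₁ * L ^ (K₁ + 1) := by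
      calc L * (2 * t + 1) ≤ L * (3 * (C₁ * L ^ K₁)) := by gcongr; linarith
        _ = 3 * C₁ * L ^ (K₁ + 1) := by ring
    calc (L * (2 * t + 1)) ^ K₁ ≤ (3 * C₁ * L ^ (K₁ + 1)) ^ K₁ := by gcongr
      _ = (3 * C₁) ^ K₁ * L ^ ((K₁ + 1) * K₁) := by rw [mul_pow, ← pow_mul]
      _ ≤ (3 * C₁) ^ K₁ * L ^ M := by gcongr
  have s1 : C₂ * (L * (t + 1)) ^ K₂ ≤ C₂ * (2 * C₁) ^ K₂ * L ^ M := by
    rw [mul_assoc]; gcongr
  have s2 : C₁ * (L * (2 * t + 1)) ^ K₁ ≤ C₁ * (3 * C₁) ^ K₁ * L ^ M := by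
    rw [mul_assoc]; gcongr
  have s3 : t ≤ C₁ * L ^ M := ht.trans (by gcongr)
  have s4 : (2 : ℝ) ≤ 2 * L ^ M := by linarith
  have s5 : 1 / ρ ≤ 1 / ρ * L ^ M := le_mul_of_one_le_right hD.le p4
  have u1 : 0 ≤ C₁ * L ^ M := by positivity
  have u2 : 0 ≤ C₂ * (2 * C₁) ^ K₂ * L ^ M := by positivity
  have u3 : 0 ≤ C₁ * (3 * C₁) ^ K₁ * L ^ M := by positivity
  have u4 : 0 ≤ 1 / ρ * L ^ M := by positivity
  have e : (C₁ + C₂ * (2 * C₁) ^ K₂ + 2 + C₁ * (3 * C₁) ^ K₁ + 1 / ρ) * L ^ M =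
      C₁ * L ^ M + C₂ * (2 * C₁) ^ K₂ * L ^ M + 2 * L ^ M + C₁ * (3 * C₁) ^ K₁ * L ^ M +
        1 / ρ * L ^ M := by ring
  rw [e] at hβ
  refine ⟨?_, ?_, ?_, ?_⟩ <;> linarith

open PkgVJ in
theorem main (hWX : S_WX) (hWH : S_WHu) (hVJ : S_VJ) (hVF : S_VFu) (hVA : S_VA) : S_WBu := by
  intro N k hN hk P Q hPQ ρ hρ
  obtain ⟨C₁, K₁, hC₁, hK'⟩ := hVF N k hN hk P Q hPQ (ρ / 2) (by linarith)
  obtain ⟨C₂, K₂, hC₂, hW'⟩ := hWH N k hN hk C₁ K₁ hC₁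
  refine ⟨C₁ + C₂ * (2 * C₁) ^ K₂ + 2 + C₁ * (3 * C₁) ^ K₁ + 1 / ρ,
    K₁ + (K₁ + 1) * K₂ + (K₁ + 1) * K₁, ?_, ?_⟩
  · have h1 : 0 ≤ C₂ * (2 * C₁) ^ K₂ := by positivity
    have h2 : 0 ≤ C₁ * (3 * C₁) ^ K₁ := by positivity
    have h3 : 0 < 1 / ρ := by positivity
    linarith
  intro L _
  have hL1 : (1 : ℝ) ≤ L := by
    exact_mod_cast Nat.one_le_iff_ne_zero.2 (NeZero.ne L)
  obtain ⟨-, K, hKL, hK⟩ := hK' L
  have h1 := hK (2 * K)
  obtain ⟨R, hRL, h2⟩ := hW' L K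
  obtain ⟨e, he'⟩ : ∃ e : ℝ, e = 1 / (C₁ * (L : ℝ) ^ K₁) := ⟨_, rfl⟩
  have he : 0 < e := by rw [he']; positivity
  rw [← he'] at h1 h2
  obtain ⟨hadd, -, -, hnorm, -⟩ := hVA N k L hN
  refine ⟨K, K + R + 2, ?_, by omega, ?_⟩
  · push_cast
    exact (thr C₁ C₂ ρ L _ K R K₁ K₂ hC₁ hC₂ hρ hL1 (Nat.cast_nonneg _) hKL hRL le_rfl).1
  intro β hβ hββ D E hE I A G hGm hG1 hD hsep hA hGd
  obtain ⟨-, hb1', hb2, hb3⟩ := thr C₁ C₂ ρ L β K R K₁ K₂ hC₁ hC₂ hρ hL1 (Nat.cast_nonneg _) hKL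
    hRL hββ
  have hb1 : C₁ * ((L : ℝ) * (((2 * K : ℕ) : ℝ) + 1)) ^ K₁ ≤ β := by
    refine le_trans (le_of_eq ?_) hb1'
    push_cast
    ring
  have hSS := SS_nonneg (L := L) k P Q
  have hN0 : 0 < N := by omega
  have := mj_prob hN0
  have hβρ : 1 ≤ β * ρ := by
    rw [div_le_iff₀ hρ] at hb3
    exact hb3
  obtain ⟨hVJ1, -⟩ := hVJ N k L hN β hβ
  have hκ0 : 0 ≤ Real.exp (-β * (SS L k P Q + ρ)) := (Real.exp_pos _).le
  have hκ1 : Real.exp (-β * (SS L k P Q + ρ)) ≤ 1 / 2 := by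
    have h3 : Real.exp (-β * (SS L k P Q + ρ)) ≤ Real.exp (-1) := by
      apply Real.exp_le_exp.2
      nlinarith [mul_nonneg hβ hSS]
    have h4 : Real.exp (-1) ≤ 1 / 2 := by
      rw [Real.exp_neg, inv_eq_one_div]
      apply one_div_le_one_div_of_le (by norm_num)
      have := Real.add_one_le_exp (1 : ℝ)
      linarith
    exact h3.trans h4
  set κ := Real.exp (-β * (SS L k P Q + ρ)) with hκ
  set B : Finset Pl := A \ I.biUnion (fun c => cl (Nb K c)) with hB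
  have hsep' : ∀ b ∈ I, ∀ c ∈ I, b ≠ c → ¬ near ((2 * (K + R + 2) : ℕ) : ℤ) b c := by
    intro b hb c hc hne
    have := hsep b hb c hc hne
    push_cast at this ⊢
    exact this
  have hfx : ∀ (U : Finset Pl) (C : Finset Pl), Disjoint C (cl U) → ∀ ω ω' : Cj N L,
      (∀ i ∈ {i | i ∉ FrJ L U}, ω i = ω' i) → oz N (∑ x ∈ C, fx ω x) = oz N (∑ x ∈ C, fx ω' x) := by
    intro U C hUC ω ω' h
    congr 1
    refine Finset.sum_congr rfl fun x hx => ?_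
    unfold fx
    rw [h (Sum.inr x)]
    show Sum.inr x ∉ FrJ L U
    rw [mem_FrJ_inr]
    exact Finset.disjoint_left.1 hUC hx
  have key := hWX (Ix L) Tm (Vr N) (sysJ N L k β hβ) (mj N) D E hE I (fun c => Nb K c)
    (fun c => Nb (K + R) c) (fun ω => G ω * oz N (∑ x ∈ B, fx ω x))
    (fun c ω => oz N (∑ x ∈ cl (Nb K c), fx ω x))
    (fun c ω => e < rE k (lk ω) (Nb K c)) κ hκ0 hκ1
    (fun b hb => ⟨(Nb_mono (by omega) b).trans (hD b hb), (Nb_mono (by omega) b).trans (hD b hb)⟩)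
    (by
      intro b hb c hc hne
      rw [Finset.disjoint_left]
      intro τ h3 h4
      obtain ⟨a, ha, hab⟩ := ((sysJ N L k β hβ).mem_tms _ _).1 h3
      obtain ⟨a', ha', hac⟩ := ((sysJ N L k β hβ).mem_tms _ _).1 h4
      exact hsep' b hb c hc hne (near_of hab hac ((sysJ N L k β hβ).diam_bt τ a ha a' ha')
        (by omega)))
    (hGm.mul (oz_meas B))
    (by
      intro ω
      rw [norm_mul, hnorm, mul_one]
      exact hG1 ω)
    (by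
      intro b hb ω ω' h
      show G ω * _ = G ω' * _
      rw [hGd b hb ω ω' h, hfx (Nb K b) B ?_ ω ω' h]
      rw [Finset.disjoint_left]
      intro x hx hx2
      rw [hB, Finset.mem_sdiff] at hx
      exact hx.2 (Finset.mem_biUnion.2 ⟨b, hb, hx2⟩))
    (by
      intro b hb
      refine ⟨oz_meas _, fun ω => (hnorm _).le, ?_⟩
      intro c hc hne ω ω' h
      exact hfx (Nb K c) _ (cl_disj (hsep' b hb c hc hne) (by omega)) ω ω' h)
    (by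
      intro b hb
      refine ⟨measurableSet_lt measurable_const (rE_meas hN0 k _), ?_, ?_⟩
      · intro c hc hne ω ω' h
        show ind _ = ind _
        rw [rE_dep k (hsep' b hb c hc hne) (by omega) ω ω' h]
      · intro ω
        have h3 := hVJ1 (Nb (K + R) b) (fun X => ind (e < rE k X (Nb K b))) ?_ ?_ ω
        · have h4 := h2 β hβ hb2 b (lk ω)
          calc _ = _ := h3
            _ ≤ 1 / 4 := h4
        · have h5 : MeasurableSet {X : Cf N L | e < rE k X (Nb K b)} := by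
            refine measurableSet_lt measurable_const ?_
            unfold rE
            exact Finset.measurable_sum _ fun τ _ => (en_cont k τ hN0).measurable
          unfold ind
          exact Measurable.ite h5 measurable_const measurable_const
        · refine ⟨1, fun X => ?_⟩
          unfold ind
          split_ifs <;> simp)
    (by
      intro b hb ω hbad
      have h3 := h1 β hβ hb1 (b.1 - K, b.2 - K) (b.1 + K, b.2 + K) b
        (by show b.1 - (K : ℤ) ≤ b.1 + K; omega) (by show b.2 - (K : ℤ) ≤ b.2 + K; omega)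
        (by show b.1 + (K : ℤ) - (b.1 - K) ≤ ((2 * K : ℕ) : ℤ); push_cast; omega)
        (by show b.2 + (K : ℤ) - (b.2 - K) ≤ ((2 * K : ℕ) : ℤ); push_cast; omega)
        (fun a ha => ha) ω (not_lt.1 hbad)
      refine le_trans h3 ?_
      have h4 : κ ≤ Real.exp (-β * (SS L k P Q + ρ / 2)) := by
        rw [hκ]
        apply Real.exp_le_exp.2
        nlinarith [mul_nonneg hβ hρ.le]
      have h5 : Real.exp (-β * (SS L k P Q + ρ / 2)) ≤ 1 := by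
        rw [Real.exp_le_one_iff]
        nlinarith [mul_nonneg hβ hρ.le, mul_nonneg hβ hSS]
      exact pow_le_pow_left₀ (by linarith) (by linarith) 2)
  have hprod : ∀ ω : Cj N L, G ω * oz N (∑ x ∈ B, fx ω x) *
      ∏ b ∈ I, oz N (∑ x ∈ cl (Nb K b), fx ω x) = G ω * oz N (∑ x ∈ A, fx ω x) := by
    intro ω
    have h3 : ∏ b ∈ I, oz N (∑ x ∈ cl (Nb K b), fx ω x) =
        oz N (∑ x ∈ I.biUnion (fun c => cl (Nb K c)), fx ω x) := by
      rw [Finset.sum_biUnion (fun b hb c hc hne => cl_disj (hsep' b hb c hc hne) (by omega))]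
      exact prod_oz hadd I _
    rw [h3, mul_assoc, ← hadd]
    congr 2
    rw [hB, Finset.sum_sdiff]
    intro x hx
    obtain ⟨c, hc, hx2⟩ := Finset.mem_biUnion.1 hx
    exact hA c hc hx2
  simp only [hprod] at key
  refine key.trans (le_of_eq ?_)
  rw [neg_mul]

end PkgWBu

theorem pWBu (hWX : S_WX) (hWH : S_WHu) (hVJ : S_VJ) (hVF : S_VFu) (hVA : S_VA) : S_WBu :=
  PkgWBu.main hWX hWH hVJ hVF hVA

end T2H01.SE
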