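import Pool.Agent.T2H01.SE.Stm3
import Pool.Agent.T2H01.SE.VJ

/-!
# Package WDu, auxiliary lemmas
-/

set_option autoImplicit false

noncomputable section

open MeasureTheory Matrix
open scoped Matrix.Norms.Frobenius

namespace T2H01.SE.PkgWDb

open T2H02.TT

lemma oz_nat (N n : ℕ) : oz N (n : ℤ) = om N n := by
  simp [oz, om]

lemma oz_per (N : ℕ) (hN : 0 < N) (n : ℤ) : oz N (n + N) = oz N n := by
  unfold oz
  have hN' : (N : ℂ) ≠ 0 := by exact_mod_cast hN.ne'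
  have : (2 * Real.pi * Complex.I * ((n + N : ℤ) : ℂ) / N : ℂ) =
      2 * Real.pi * Complex.I * (n : ℂ) / N + 2 * Real.pi * Complex.I := by
    push_cast
    field_simp
  rw [this, Complex.exp_add, Complex.exp_two_pi_mul_I, mul_one]

lemma cl_mono {U V : Finset Pl} (h : U ⊆ V) : cl U ⊆ cl V := by
  intro x hx
  rw [mem_cl] at hx ⊢
  obtain ⟨a, ha, haU⟩ := hx
  exact ⟨a, ha, h haU⟩

lemma Nb_sub {K s : ℕ} (h : K ≤ s) (c : Pl) : Nb K c ⊆ Nb s c := by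
  intro x hx
  simp only [Nb, Finset.mem_product, Finset.mem_Icc] at hx ⊢
  have : (K : ℤ) ≤ s := by exact_mod_cast h
  omega

/-- the centres -/
def ctr (w : ℕ) (a : Pl) (p : ℕ × ℕ) : Pl :=
  (a.1 + (w : ℤ) * ((p.1 : ℤ) + 1), a.2 + (w : ℤ) * ((p.2 : ℤ) + 1))

lemma ctr_inj (w : ℕ) (hw : 0 < w) (a : Pl) : Function.Injective (ctr w a) := by
  intro p q h
  have h1 := congrArg Prod.fst h
  have h2 := congrArg Prod.snd h
  simp only [ctr] at h1 h2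
  have hw' : (w : ℤ) ≠ 0 := by exact_mod_cast hw.ne'
  have e1 : (p.1 : ℤ) + 1 = (q.1 : ℤ) + 1 := by
    apply mul_left_cancel₀ hw'
    linarith
  have e2 : (p.2 : ℤ) + 1 = (q.2 : ℤ) + 1 := by
    apply mul_left_cancel₀ hw'
    linarith
  apply Prod.ext
  · have : (p.1 : ℤ) = q.1 := by linarith
    exact_mod_cast this
  · have : (p.2 : ℤ) = q.2 := by linarith
    exact_mod_cast this

lemma far_of_ne (s : ℕ) (x y : ℤ) (t : ℤ) (h : x ≠ y) :
    ¬ |(t + ((2 * s + 1 : ℕ) : ℤ) * (x + 1)) - (t + ((2 * s + 1 : ℕ) : ℤ) * (y + 1))| ≤ 2 * s := by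
  intro hle
  have e : (t + ((2 * s + 1 : ℕ) : ℤ) * (x + 1)) - (t + ((2 * s + 1 : ℕ) : ℤ) * (y + 1)) =
      (2 * s + 1) * (x - y) := by push_cast; ring
  rw [e, abs_mul] at hle
  have h1 : (1 : ℤ) ≤ |x - y| := Int.one_le_abs (sub_ne_zero.2 h)
  have h2 : |(2 * s + 1 : ℤ)| = 2 * s + 1 := abs_of_nonneg (by positivity)
  rw [h2] at hle
  nlinarith

lemma Z_nonneg {N L : ℕ} [NeZero L] (k : ℕ) (β : ℝ) (s : Pl → ℤ) (U : Finset Pl) (η : Cf N L) :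
    0 ≤ Zf k β s U η := by
  unfold Zf
  exact integral_nonneg fun ξ => (Real.exp_pos _).le

/-- number of steps -/
lemma steps (w A : ℕ) (hw : 0 < w) (hA : 3 * w + 1 ≤ A) :
    ((A : ℝ) + 1) / (3 * w) ≤ ((A / w - 1 : ℕ) : ℝ) := by
  have h1 : 1 ≤ A / w := by
    rw [Nat.le_div_iff_mul_le hw]
    omega
  have h2 : A < (A / w + 1) * w := by
    have := Nat.lt_div_mul_add (a := A) hw
    have h3 : A / w * w + w = (A / w + 1) * w := by ring
    omega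
  rw [Nat.cast_sub h1]
  have hw' : (0 : ℝ) < w := by exact_mod_cast hw
  have h2' : (A : ℝ) < (((A / w : ℕ) : ℝ) + 1) * w := by exact_mod_cast h2
  have hA' : 3 * (w : ℝ) + 1 ≤ A := by exact_mod_cast hA
  rw [div_le_iff₀ (by positivity)]
  push_cast
  nlinarith

lemma inside (s w M n p : ℕ) (hw : w = 2 * s + 1) (hn : n = M / w - 1) (hp : p < n) :
    (w : ℤ) * ((p : ℤ) + 1) + s ≤ M := by
  have hw0 : 0 < w := by omega
  have h1 : p + 2 ≤ M / w := by omega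
  have h2 : (p + 2) * w ≤ M := (Nat.le_div_iff_mul_le hw0).1 h1
  have h3 : ((p : ℤ) + 2) * w ≤ M := by exact_mod_cast h2
  have h4 : (w : ℤ) = 2 * s + 1 := by rw [hw]; push_cast; ring
  nlinarith

/-- the centres of the blocks -/
lemma comb (s w : ℕ) (hw : w = 2 * s + 1) (a b : Pl) (hd1 : 3 * (w : ℤ) + 1 ≤ b.1 - a.1)
    (hd2 : 3 * (w : ℤ) + 1 ≤ b.2 - a.2) :
    ∃ I : Finset Pl, (∀ c ∈ I, Nb s c ⊆ rc a b) ∧
      (∀ c ∈ I, ∀ c' ∈ I, c ≠ c' → ¬ near (2 * s) c c') ∧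
      ((rc a b).card : ℝ) ≤ I.card * (9 * (w : ℝ) ^ 2) := by
  have hw0 : 0 < w := by omega
  have hwR : (0 : ℝ) < w := by exact_mod_cast hw0
  obtain ⟨A, hA⟩ : ∃ A : ℕ, b.1 - a.1 = A := Int.eq_ofNat_of_zero_le (by omega)
  obtain ⟨B, hB⟩ : ∃ B : ℕ, b.2 - a.2 = B := Int.eq_ofNat_of_zero_le (by omega)
  have hA3 : 3 * w + 1 ≤ A := by omega
  have hB3 : 3 * w + 1 ≤ B := by omega
  have hcard : ((rc a b).card : ℝ) = ((A : ℝ) + 1) * ((B : ℝ) + 1) := by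
    unfold rc
    rw [Finset.card_product, Int.card_Icc, Int.card_Icc]
    have e1 : (b.1 + 1 - a.1).toNat = A + 1 := by omega
    have e2 : (b.2 + 1 - a.2).toNat = B + 1 := by omega
    rw [e1, e2]
    push_cast
    ring
  obtain ⟨n₁, hn₁⟩ : ∃ n : ℕ, n = A / w - 1 := ⟨_, rfl⟩
  obtain ⟨n₂, hn₂⟩ : ∃ n : ℕ, n = B / w - 1 := ⟨_, rfl⟩
  obtain ⟨I, hI⟩ : ∃ I : Finset Pl, I = (Finset.range n₁ ×ˢ Finset.range n₂).image (ctr w a) :=
    ⟨_, rfl⟩
  have hIcard : I.card = n₁ * n₂ := by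
    rw [hI, Finset.card_image_of_injective _ (ctr_inj w hw0 a), Finset.card_product,
      Finset.card_range, Finset.card_range]
  have hstep1 := steps w A hw0 hA3
  have hstep2 := steps w B hw0 hB3
  rw [← hn₁, div_le_iff₀ (by positivity)] at hstep1
  rw [← hn₂, div_le_iff₀ (by positivity)] at hstep2
  refine ⟨I, ?_, ?_, ?_⟩
  · intro c hc x hx
    rw [hI, Finset.mem_image] at hc
    obtain ⟨p, hp, rfl⟩ := hc
    rw [Finset.mem_product, Finset.mem_range, Finset.mem_range] at hp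
    have h1 := inside s w A n₁ p.1 hw hn₁ hp.1
    have h2 := inside s w B n₂ p.2 hw hn₂ hp.2
    simp only [Nb, ctr, Finset.mem_product, Finset.mem_Icc] at hx
    simp only [rc, Finset.mem_product, Finset.mem_Icc]
    have h4 : (w : ℤ) = 2 * s + 1 := by rw [hw]; push_cast; ring
    have h5 : (w : ℤ) ≤ (w : ℤ) * ((p.1 : ℤ) + 1) := by nlinarith [Int.natCast_nonneg p.1]
    have h6 : (w : ℤ) ≤ (w : ℤ) * ((p.2 : ℤ) + 1) := by nlinarith [Int.natCast_nonneg p.2]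
    generalize (w : ℤ) * ((p.1 : ℤ) + 1) = u at *
    generalize (w : ℤ) * ((p.2 : ℤ) + 1) = v at *
    omega
  · intro c hc c' hc' hne hnear
    rw [hI, Finset.mem_image] at hc hc'
    obtain ⟨p, -, rfl⟩ := hc
    obtain ⟨q, -, rfl⟩ := hc'
    have hpq : p ≠ q := fun h => hne (by rw [h])
    unfold near at hnear
    simp only [ctr] at hnear
    by_cases h1 : p.1 = q.1
    · have h2 : p.2 ≠ q.2 := fun h2 => hpq (Prod.ext h1 h2)
      exact far_of_ne s p.2 q.2 a.2 (by exact_mod_cast h2) (by rw [← hw]; exact hnear.2)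
    · exact far_of_ne s p.1 q.1 a.1 (by exact_mod_cast h1) (by rw [← hw]; exact hnear.1)
  · rw [hIcard, hcard]
    push_cast
    calc ((A : ℝ) + 1) * ((B : ℝ) + 1) ≤ ((n₁ : ℝ) * (3 * w)) * ((n₂ : ℝ) * (3 * w)) :=
          mul_le_mul hstep1 hstep2 (by positivity) (by positivity)
      _ = (n₁ : ℝ) * n₂ * (9 * (w : ℝ) ^ 2) := by ring

/-- from the expectation to the quotient of the partition functions -/
lemma ratio {N L : ℕ} [NeZero L] (k : ℕ) (β : ℝ) (E : (Cj N L → ℝ) → ℝ) (a b : Pl) (η : Cf N L)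
    (κ : ℝ) (hone : E (fun _ => 1) = 1)
    (hE : ∀ φ : ℤ → ℝ, (∀ n, φ (n + N) = φ n) → E (fun ω => φ (∑ x ∈ cl (rc a b), fx ω x)) =
      (∑ n ∈ Finset.range N, φ n * Zf k β (dl a n) (rc a b) η) /
        ∑ n ∈ Finset.range N, Zf k β (dl a n) (rc a b) η)
    (hN : 0 < N)
    (hκ : (E fun ω => (oz N (∑ x ∈ cl (rc a b), fx ω x)).re) ^ 2 +
        (E fun ω => (oz N (∑ x ∈ cl (rc a b), fx ω x)).im) ^ 2 ≤ κ) :
    0 ≤ ∑ n ∈ Finset.range N, Zf k β (dl a n) (rc a b) η ∧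
    ‖∑ n ∈ Finset.range N, om N n * (Zf k β (dl a n) (rc a b) η : ℂ)‖ ^ 2 ≤
      (∑ n ∈ Finset.range N, Zf k β (dl a n) (rc a b) η) ^ 2 * κ := by
  have hre := hE (fun n => (oz N n).re) (fun n => by rw [oz_per N hN])
  have him := hE (fun n => (oz N n).im) (fun n => by rw [oz_per N hN])
  have h1 := hE (fun _ => 1) (fun n => rfl)
  rw [hone] at h1
  obtain ⟨x, hx⟩ : ∃ x, x = E fun ω => (oz N (∑ x ∈ cl (rc a b), fx ω x)).re := ⟨_, rfl⟩
  obtain ⟨y, hy⟩ : ∃ y, y = E fun ω => (oz N (∑ x ∈ cl (rc a b), fx ω x)).im := ⟨_, rfl⟩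
  rw [← hx, ← hy] at hκ
  rw [← hx] at hre
  rw [← hy] at him
  clear hx hy hone hE
  obtain ⟨Zs, hZs⟩ : ∃ Zs, Zs = ∑ n ∈ Finset.range N, Zf k β (dl a n) (rc a b) η := ⟨_, rfl⟩
  rw [← hZs] at hre him h1 ⊢
  have hZs0 : 0 ≤ Zs := by
    rw [hZs]
    exact Finset.sum_nonneg fun n _ => Z_nonneg _ _ _ _ _
  have hZne : Zs ≠ 0 := by
    intro h0
    rw [h0, div_zero] at h1
    exact one_ne_zero h1
  refine ⟨hZs0, ?_⟩
  have hTre : (∑ n ∈ Finset.range N, om N n * (Zf k β (dl a n) (rc a b) η : ℂ)).re = Zs * x := by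
    rw [hre, mul_div_cancel₀ _ hZne, Complex.re_sum]
    refine Finset.sum_congr rfl fun n _ => ?_
    rw [oz_nat, Complex.re_mul_ofReal]
  have hTim : (∑ n ∈ Finset.range N, om N n * (Zf k β (dl a n) (rc a b) η : ℂ)).im = Zs * y := by
    rw [him, mul_div_cancel₀ _ hZne, Complex.im_sum]
    refine Finset.sum_congr rfl fun n _ => ?_
    rw [oz_nat, Complex.im_mul_ofReal]
  rw [Complex.sq_norm, Complex.normSq_apply, hTre, hTim]
  have h2 := mul_le_mul_of_nonneg_left hκ (sq_nonneg Zs)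
  calc Zs * x * (Zs * x) + Zs * y * (Zs * y) = Zs ^ 2 * (x ^ 2 + y ^ 2) := by ring
    _ ≤ Zs ^ 2 * κ := h2

/-- real analysis at the end -/
lemma fin' (T Zs c i w β ρ S : ℝ) (hZ : 0 ≤ Zs) (hi : 0 ≤ i) (hρ : 0 < ρ)
    (hc : c ≤ i * (9 * w ^ 2)) (hβ : 36 * w ^ 2 / ρ ≤ β)
    (hT : T ^ 2 ≤ Zs ^ 2 * Real.exp (-Real.exp (-β * (S + ρ / 2)) * i)) :
    T ≤ Real.exp (-(Real.exp (-β * (S + ρ)) * c)) * Zs := by
  obtain ⟨κ, hκ⟩ : ∃ κ, κ = Real.exp (-β * (S + ρ)) := ⟨_, rfl⟩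
  have hκ0 : 0 < κ := by rw [hκ]; exact Real.exp_pos _
  have hκ' : Real.exp (-β * (S + ρ / 2)) = κ * Real.exp (β * (ρ / 2)) := by
    rw [hκ, ← Real.exp_add]
    congr 1
    ring
  have hexp : 18 * w ^ 2 ≤ Real.exp (β * (ρ / 2)) := by
    have h1 : 36 * w ^ 2 ≤ β * ρ := (div_le_iff₀ hρ).1 hβ
    have h2 := Real.add_one_le_exp (β * (ρ / 2))
    linarith
  have hkey : 2 * (κ * c) ≤ Real.exp (-β * (S + ρ / 2)) * i := by
    rw [hκ']
    calc 2 * (κ * c) ≤ 2 * (κ * (i * (9 * w ^ 2))) := by gcongr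
      _ = κ * (18 * w ^ 2) * i := by ring
      _ ≤ κ * Real.exp (β * (ρ / 2)) * i := by gcongr
  rw [← hκ]
  have hfin : T ^ 2 ≤ (Real.exp (-(κ * c)) * Zs) ^ 2 := by
    refine hT.trans ?_
    rw [mul_pow, ← Real.exp_nat_mul, mul_comm (Real.exp _) (Zs ^ 2)]
    refine mul_le_mul_of_nonneg_left (Real.exp_le_exp.2 ?_) (sq_nonneg _)
    push_cast
    linarith
  exact le_of_sq_le_sq hfin (mul_nonneg (Real.exp_pos _).le hZ)

end T2H01.SE.PkgWDb
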