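import Pool.Agent.T2H01.SE.Stm10
import Pool.Agent.T2H01.SE.WDb

/-!
# Package WDu : boxes with cold walls, upper bound, polynomial thresholds in `L`
-/

set_option autoImplicit false

noncomputable section

open MeasureTheory Matrix
open scoped Matrix.Norms.Frobenius

namespace T2H01.SE

open T2H02.TT

namespace PkgWDu

lemma consts (C₀ ρ ℓ β w s da db : ℝ) (hC₀ : 1 ≤ C₀) (hρ : 0 < ρ) (hℓ1 : 1 ≤ ℓ) (hw0 : 0 ≤ w)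
    (hw : w = 2 * s + 1) (hs : s ≤ C₀ * ℓ)
    (hβ : max (10 * C₀) (324 * C₀ ^ 2 / ρ) * ℓ ^ 2 ≤ β)
    (ha : max (10 * C₀) (324 * C₀ ^ 2 / ρ) * ℓ ^ 2 ≤ da)
    (hb : max (10 * C₀) (324 * C₀ ^ 2 / ρ) * ℓ ^ 2 ≤ db) :
    3 * w + 1 ≤ da ∧ 3 * w + 1 ≤ db ∧ C₀ * ℓ ≤ β ∧ 36 * w ^ 2 / ρ ≤ β := by
  have hC₀0 : 0 < C₀ := by linarith
  have hCl : 1 ≤ C₀ * ℓ := by nlinarith
  have hw3 : w ≤ 3 * (C₀ * ℓ) := by linarith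
  have hℓ2 : ℓ ≤ ℓ ^ 2 := by nlinarith
  have h1 : 10 * C₀ * ℓ ≤ 10 * C₀ * ℓ ^ 2 := mul_le_mul_of_nonneg_left hℓ2 (by linarith)
  have h2 : 10 * C₀ * ℓ ^ 2 ≤ max (10 * C₀) (324 * C₀ ^ 2 / ρ) * ℓ ^ 2 :=
    mul_le_mul_of_nonneg_right (le_max_left _ _) (sq_nonneg _)
  have h3 : 324 * C₀ ^ 2 / ρ * ℓ ^ 2 ≤ max (10 * C₀) (324 * C₀ ^ 2 / ρ) * ℓ ^ 2 :=
    mul_le_mul_of_nonneg_right (le_max_right _ _) (sq_nonneg _)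
  have h4 : 36 * w ^ 2 / ρ ≤ 324 * C₀ ^ 2 / ρ * ℓ ^ 2 := by
    calc 36 * w ^ 2 / ρ ≤ 36 * (3 * (C₀ * ℓ)) ^ 2 / ρ := by gcongr
      _ = 324 * C₀ ^ 2 / ρ * ℓ ^ 2 := by ring
  refine ⟨by linarith, by linarith, by linarith, by linarith⟩

end PkgWDu

open PkgWDb in
theorem pWDu (hWK : S_WK) (hWBu : S_WBu) (hVJ : S_VJ) : S_WDu := by
  intro N k hN hk P Q hPQ ρ hρ
  obtain ⟨C₀, K₀, hC₀, hW₀⟩ := hWBu N k hN hk P Q hPQ (ρ / 2) (by linarith)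
  have hN0 : 0 < N := by omega
  have := PkgVJ.mj_prob (N := N) hN0
  refine ⟨max (10 * C₀) (324 * C₀ ^ 2 / ρ), 2 * K₀,
    le_trans (by linarith) (le_max_left _ _), ?_⟩
  intro L _ β hβ a b hab1 hab2 η
  obtain ⟨K, s, hs, hKs, hW⟩ := hW₀ L
  obtain ⟨w, hw⟩ : ∃ w : ℕ, w = 2 * s + 1 := ⟨_, rfl⟩
  have hL1 : (1 : ℝ) ≤ (L : ℝ) := by exact_mod_cast NeZero.one_le
  have hℓ2 : (L : ℝ) ^ (2 * K₀) = ((L : ℝ) ^ K₀) ^ 2 := by rw [← pow_mul, mul_comm]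
  rw [hℓ2] at hβ hab1 hab2
  obtain ⟨hda, hdb, hββ₁, hββ₂⟩ := PkgWDu.consts C₀ ρ ((L : ℝ) ^ K₀) β w s (b.1 - a.1) (b.2 - a.2)
    hC₀ hρ (one_le_pow₀ hL1) (Nat.cast_nonneg _) (by rw [hw]; push_cast; ring) hs hβ (by linarith)
    (by linarith)
  have hβ0 : 0 ≤ β := le_trans (by positivity) hββ₁
  have hd1 : 3 * (w : ℤ) + 1 ≤ b.1 - a.1 := by exact_mod_cast hda
  have hd2 : 3 * (w : ℤ) + 1 ≤ b.2 - a.2 := by exact_mod_cast hdb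
  have hab1' : a.1 ≤ b.1 := by omega
  have hab2' : a.2 ≤ b.2 := by omega
  obtain ⟨I, hNbD, hfar, hcard⟩ := comb s w hw a b hd1 hd2
  -- the expectation
  obtain ⟨ω₀, hω₀⟩ : ∃ ω₀ : Cj N L, ω₀ = jn η (fun _ => ⟨0, hN0⟩) := ⟨_, rfl⟩
  have hlk : lk ω₀ = η := by rw [hω₀]; rfl
  have hCns : Cns (sysJ N L k β hβ0) (mj N) (rc a b)
      (fun f => (sysJ N L k β hβ0).ker (mj N) (rc a b) f ω₀) :=
    (hWK (Ix L) Tm (Vr N) (sysJ N L k β hβ0) (mj N)).1 (rc a b) ω₀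
  have hJ := (hVJ N k L hN β hβ0).2 a b hab1' hab2'
  have hmain := hW β hβ0 hββ₁ (rc a b) _ hCns I (cl (rc a b)) (fun _ => 1) measurable_const
    (fun ω => by rw [norm_one]) hNbD hfar
    (fun c hc => cl_mono ((Nb_sub (by omega) c).trans (hNbD c hc)))
    (fun c hc ω ω' _ => rfl)
  simp only [one_mul] at hmain
  obtain ⟨hZ, hT⟩ := ratio k β (fun f => (sysJ N L k β hβ0).ker (mj N) (rc a b) f ω₀) a b η _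
    hCns.1 (fun φ hφ => by rw [← hlk]; exact hJ φ hφ ω₀) hN0 hmain
  exact fin' _ _ _ _ _ _ _ _ hZ (Nat.cast_nonneg _) hρ hcard hββ₂ hT

end T2H01.SE
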