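import Pool.Agent.T2H01.SE.Stm10
import Pool.Agent.T2H01.SE.WF

/-! Package WFu: Wilson loops, uniformly in `L`. -/

set_option autoImplicit false
set_option linter.unusedSectionVars false

noncomputable section

open MeasureTheory Matrix
open scoped Matrix.Norms.Frobenius

namespace T2H01.SE

open T2H02.TT

open PkgWF in
/-- package WFu -/
theorem pWFu (hWE : S_WE) (hWK : S_WK) (hWBu : S_WBu) : S_WFu := by
  intro N k hN hk P Q hPQ ρ hρ
  obtain ⟨C₁, K', hC₁, hBu⟩ := hWBu N k hN hk P Q hPQ (ρ / 2) (by positivity)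
  have h1ρ : 0 < 1 / ρ := by positivity
  refine ⟨324 * C₁ ^ 2 * (1 + 1 / ρ), 2 * K', ?_, ?_⟩
  · nlinarith
  intro L _ β hβ R x y a b ha0 hb0 hR
  obtain ⟨K, s, hsL, hKs, hB⟩ := hBu L
  have hL1 : (1 : ℝ) ≤ L := by
    have : 1 ≤ L := Nat.one_le_iff_ne_zero.2 (NeZero.ne L)
    exact_mod_cast this
  have hLK : (1 : ℝ) ≤ (L : ℝ) ^ K' := one_le_pow₀ hL1
  have hpow : (L : ℝ) ^ (2 * K') = (L : ℝ) ^ K' * (L : ℝ) ^ K' := by
    rw [two_mul, pow_add]
  have hM1 : 1 ≤ C₁ * (L : ℝ) ^ K' := by nlinarith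
  obtain ⟨M, hM⟩ : ∃ M : ℝ, M = C₁ * (L : ℝ) ^ K' := ⟨_, rfl⟩
  have hCM : 324 * C₁ ^ 2 * (1 + 1 / ρ) * (L : ℝ) ^ (2 * K') = 324 * (1 + 1 / ρ) * M ^ 2 := by
    rw [hpow, hM]; ring
  rw [hCM] at hβ ha0 hb0
  rw [← hM] at hM1 hsL
  have hs2 : (2 : ℝ) ≤ s := by
    have : 2 ≤ s := by omega
    exact_mod_cast this
  have hMM : M ≤ M ^ 2 := by nlinarith
  have hq : 0 ≤ 1 / ρ * M ^ 2 := by positivity
  have hbig : 324 * M ^ 2 + 324 * (1 / ρ * M ^ 2) = 324 * (1 + 1 / ρ) * M ^ 2 := by ring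
  have h9 : (9 : ℝ) * (2 * s + 1) ≤ 324 * (1 + 1 / ρ) * M ^ 2 := by
    rw [← hbig]
    nlinarith
  have ha : 9 * (2 * s + 1) ≤ a := by
    have := h9.trans ha0
    exact_mod_cast this
  have hb : 9 * (2 * s + 1) ≤ b := by
    have := h9.trans hb0
    exact_mod_cast this
  obtain ⟨D₀, hD₀⟩ : ∃ D₀ : ℕ, D₀ = (3 * (2 * s + 1)) ^ 2 := ⟨_, rfl⟩
  have hββ₁ : C₁ * (L : ℝ) ^ K' ≤ β := by
    rw [← hM]
    rw [← hbig] at hβ
    nlinarith
  have hβD : 4 * D₀ / ρ ≤ β := by
    refine le_trans ?_ hβ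
    have hD : (D₀ : ℝ) ≤ 81 * M ^ 2 := by
      rw [hD₀]
      push_cast
      have h3 : 3 * (2 * (s : ℝ) + 1) ≤ 9 * M := by linarith
      have h4 : 0 ≤ 3 * (2 * (s : ℝ) + 1) := by linarith
      calc (3 * (2 * (s : ℝ) + 1)) ^ 2 ≤ (9 * M) ^ 2 := pow_le_pow_left₀ h4 h3 2
        _ = 81 * M ^ 2 := by ring
    have h5 : 4 * (D₀ : ℝ) / ρ ≤ 324 * (1 / ρ * M ^ 2) := by
      rw [div_eq_mul_one_div]
      nlinarith
    have h6 : 0 ≤ 324 * M ^ 2 := by positivity
    linarith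
  have hβ0 : 0 ≤ β := by linarith
  have : IsProbabilityMeasure (mj N) := PkgVJ.mj_prob (by omega)
  obtain ⟨I, hIcard, hIin, hInear⟩ := centres s a b x ha hb
  -- the sets
  set D : Finset Pl := Finset.Icc (x.1 + 1) (x.1 + a - 1) ×ˢ Finset.Icc (x.2 + 1) (x.2 + b - 1)
    with hD
  set A : Finset Pl := Finset.Ico x.1 (x.1 + a) ×ˢ Finset.Ico x.2 (x.2 + b) with hA
  have hmA : ∀ v : Pl, v ∈ A ↔ (x.1 ≤ v.1 ∧ v.1 < x.1 + a) ∧ (x.2 ≤ v.2 ∧ v.2 < x.2 + b) := by
    intro v
    rw [hA, Finset.mem_product, Finset.mem_Ico, Finset.mem_Ico]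
  have hmD : ∀ v : Pl, v ∈ D ↔ (x.1 + 1 ≤ v.1 ∧ v.1 ≤ x.1 + a - 1) ∧
      (x.2 + 1 ≤ v.2 ∧ v.2 ≤ x.2 + b - 1) := by
    intro v
    rw [hD, Finset.mem_product, Finset.mem_Icc, Finset.mem_Icc]
  have hKs' : (K : ℤ) + 2 ≤ s := by exact_mod_cast hKs
  -- WE
  have hwe := hWE N k L hN β hβ0 R A (fun X => wlp X x y a b)
    (PkgAR.wlp_cont x y a b).measurable (fun X => PkgAR.wlp_le X x y a b)
    (by
      intro v hv
      rw [hmA] at hv
      rw [mem_tin]
      intro c hc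
      rcases (mem_cor3 _ _).1 hc with rfl | rfl | rfl | rfl
      · exact mem_rect R x a b hR _ (by omega) (by omega) (by omega) (by omega)
      · exact mem_rect R x a b hR _ (by simp only [Prod.fst_add]; omega)
          (by simp only [Prod.fst_add]; omega) (by simp only [Prod.snd_add]; omega)
          (by simp only [Prod.snd_add]; omega)
      · exact mem_rect R x a b hR _ (by simp only [Prod.fst_add]; omega)
          (by simp only [Prod.fst_add]; omega) (by simp only [Prod.snd_add]; omega)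
          (by simp only [Prod.snd_add]; omega)
      · exact mem_rect R x a b hR _ (by simp only [Prod.fst_add]; omega)
          (by simp only [Prod.fst_add]; omega) (by simp only [Prod.snd_add]; omega)
          (by simp only [Prod.snd_add]; omega))
    (by
      intro v n X
      rw [PkgAR.wlp_mvh]
      unfold PkgAR.chg
      simp only [hmA])
  -- WK
  have hcns := (hWK (Ix L) Tm (Vr N) (sysJ N L k β hβ0) (mj N)).2 D (tin R) (by
    intro τ hτ
    have h1 : ∃ v ∈ cor τ, v ∈ D := (mem_tml D τ).1 hτ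
    obtain ⟨v, hv, hvD⟩ := h1
    rw [hmD] at hvD
    rw [mem_tin]
    intro w hw
    have h2 := diam_cor τ v hv w hw
    unfold near at h2
    rw [abs_le, abs_le] at h2
    exact mem_rect R x a b hR w (by omega) (by omega) (by omega) (by omega))
  -- WB
  have hwb := hB β hβ0 hββ₁ D _ hcns I A (fun ω => wlp (lk ω) x y a b)
    ((PkgAR.wlp_cont x y a b).measurable.comp lk_meas) (fun ω => PkgAR.wlp_le _ x y a b)
    (by
      intro c hc v hv
      have h1 := hIin c hc
      rw [PkgWF.mem_Nb, abs_le, abs_le] at hv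
      rw [hmD]
      omega)
    hInear
    (by
      intro c hc v hv
      have h1 := hIin c hc
      rw [mem_cl] at hv
      obtain ⟨u, hu, huN⟩ := hv
      rw [PkgWF.mem_Nb, abs_le, abs_le] at huN
      rw [hmA]
      rcases (mem_cor3 _ _).1 hu with rfl | rfl | rfl | rfl
      · omega
      · simp only [Prod.fst_add, Prod.snd_add] at huN
        omega
      · simp only [Prod.fst_add, Prod.snd_add] at huN
        omega
      · simp only [Prod.fst_add, Prod.snd_add] at huN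
        omega)
    (by
      intro c hc ω ω' hωω'
      have h1 := hIin c hc
      refine wlp_congr x y a b (Nb K c) (fun v hv => ?_) _ _ fun l hl => ?_
      · rw [PkgWF.mem_Nb, abs_le, abs_le] at hv
        omega
      · have h2 : (Sum.inl l : Ix L) ∉ FrJ L (Nb K c) := by
          rw [mem_FrJ]
          intro h3
          exact hl ((mem_Frl _ _).2 h3)
        unfold lk
        rw [hωω' (Sum.inl l) h2])
  -- conclusion
  have hz : ‖wexC N L k β R (fun X => wlp X x y a b)‖ ^ 2 ≤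
      Real.exp (-Real.exp (-β * (SS L k P Q + ρ / 2)) * I.card) := by
    rw [hwe]
    refine le_trans (le_of_eq ?_) hwb
    rw [← Complex.normSq_eq_norm_sq, Complex.normSq_add_mul_I]
  have hfin := last_bound (p := a * b) (c := I.card) (D := D₀) hρ rfl
    (by rw [hD₀]; exact hIcard) hβD hz
  refine hfin.trans (le_of_eq ?_)
  push_cast
  rfl

end T2H01.SE
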