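import Pool.Agent.T2H01.SE.Stm10
import Pool.Agent.T2H01.SE.WH

/-!
# Package WHu : good rings are likely, uniformly in `L` (helper76)
-/

set_option autoImplicit false
set_option linter.unusedSectionVars false
set_option linter.unusedVariables false

noncomputable section

open MeasureTheory Matrix
open scoped Matrix.Norms.Frobenius

namespace T2H01.SE.PkgWHu

open T2H02.TT T2H02.TT.PkgH

lemma arith {a β t W : ℝ} {n r : ℕ} (ha : 1 ≤ a) (ht : 0 < t) (hW : 1 ≤ W) (haW : a ≤ W)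
    (htW : 1 ≤ t * W) (hn : (n : ℝ) ≤ W) (hr : 4 * ((r : ℝ) + 1) ≤ W) (hβ : 16 * W ^ 4 ≤ β) :
    ((r : ℝ) + 1) * (Real.exp (-β * t) * (a * β) ^ n) ≤ 1 / 4 := by
  have hW4 : (1 : ℝ) ≤ W ^ 4 := one_le_pow₀ hW
  have hβ1 : 1 ≤ β := by linarith
  have hβ0 : 0 < β := by linarith
  obtain ⟨u, hu⟩ : ∃ u, u = Real.sqrt β := ⟨_, rfl⟩
  have hu0 : 0 ≤ u := by rw [hu]; exact Real.sqrt_nonneg _
  have hu2 : u ^ 2 = β := by rw [hu]; exact Real.sq_sqrt hβ0.le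
  have hu4 : 4 * W ^ 2 ≤ u := by
    rw [hu]
    refine Real.le_sqrt_of_sq_le ?_
    calc (4 * W ^ 2) ^ 2 = 16 * W ^ 4 := by ring
      _ ≤ β := hβ
  have hu1 : 1 ≤ u := by nlinarith
  have hab : 0 < a * β := by positivity
  have hlog : Real.log (a * β) ≤ W + 2 * u := by
    rw [Real.log_mul (by positivity) hβ0.ne']
    have h1 : Real.log a ≤ a := (Real.log_le_sub_one_of_pos (by linarith)).trans (by linarith)
    have h2 : Real.log β = 2 * Real.log u := by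
      rw [← hu2, Real.log_pow]
      norm_num
    have h3 : Real.log u ≤ u := (Real.log_le_sub_one_of_pos (by linarith)).trans (by linarith)
    linarith
  have hW0 : 0 < W := by linarith
  have hn0 : (0 : ℝ) ≤ n := Nat.cast_nonneg _
  have e1 : (a * β) ^ n = Real.exp (n * Real.log (a * β)) := by
    rw [Real.exp_nat_mul, Real.exp_log hab]
  have e2 : (n : ℝ) * Real.log (a * β) ≤ W * (W + 2 * u) := by
    have : (0 : ℝ) ≤ W + 2 * u := by positivity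
    calc (n : ℝ) * Real.log (a * β) ≤ n * (W + 2 * u) := mul_le_mul_of_nonneg_left hlog hn0
      _ ≤ W * (W + 2 * u) := mul_le_mul_of_nonneg_right hn this
  have e3 : W + W * (W + 2 * u) ≤ β * t := by
    have h1 : 4 * W * u ≤ β * t := by
      have h2 : β * 1 ≤ β * (t * W) := mul_le_mul_of_nonneg_left htW hβ0.le
      have h3 : 4 * W ^ 2 * u ≤ β := by
        rw [← hu2]
        nlinarith
      have h4 : W * (4 * W * u) ≤ W * (β * t) := by nlinarith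
      exact le_of_mul_le_mul_left h4 hW0
    nlinarith [mul_nonneg hW0.le hu0]
  have e4 : 4 * ((r : ℝ) + 1) ≤ Real.exp W := hr.trans (by linarith [Real.add_one_le_exp W])
  have e5 : 4 * ((r : ℝ) + 1) * (Real.exp (-β * t) * (a * β) ^ n) ≤ 1 := by
    rw [e1, ← Real.exp_add]
    calc 4 * ((r : ℝ) + 1) * Real.exp (-β * t + n * Real.log (a * β)) ≤
          Real.exp W * Real.exp (-β * t + n * Real.log (a * β)) :=
          mul_le_mul_of_nonneg_right e4 (Real.exp_pos _).le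
      _ = Real.exp (W + (-β * t + n * Real.log (a * β))) := (Real.exp_add _ _).symm
      _ ≤ Real.exp 0 := Real.exp_le_exp.2 (by linarith)
      _ = 1 := Real.exp_zero
  linarith

/-- the exponential beats the area -/
lemma decay {a E : ℝ} {h R : ℕ} (ha : 1 ≤ a) (hE : 1 ≤ E) (hR1 : 1 ≤ R) (hRh : h ≤ R)
    (hR : 63 * a ^ 3 * E ≤ R) :
    a * (((2 * h + 5 + 2 * R : ℕ) : ℝ) ^ 2 * Real.exp (-(R : ℝ) / a)) ≤ 1 / (2 * E) := by
  have ha0 : 0 < a := by linarith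
  have hE0 : 0 < E := by linarith
  have hR0 : (1 : ℝ) ≤ R := by exact_mod_cast hR1
  have hRp : (0 : ℝ) < R := by linarith
  have hh : (h : ℝ) ≤ R := by exact_mod_cast hRh
  have h1 : ((2 * h + 5 + 2 * R : ℕ) : ℝ) ≤ 9 * R := by push_cast; linarith
  have h2 : Real.exp (-(R : ℝ) / a) ≤ 24 * a ^ 4 / R ^ 4 := by
    have hx : 0 ≤ (R : ℝ) / a := by positivity
    have h3 := Real.pow_div_factorial_le_exp ((R : ℝ) / a) hx 4
    have h4 : ((Nat.factorial 4 : ℕ) : ℝ) = 24 := by norm_num [Nat.factorial]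
    rw [h4] at h3
    have h5 : Real.exp (-(R : ℝ) / a) = (Real.exp ((R : ℝ) / a))⁻¹ := by
      rw [← Real.exp_neg]
      congr 1
      ring
    rw [h5]
    have h6 : 0 < ((R : ℝ) / a) ^ 4 / 24 := by positivity
    calc (Real.exp ((R : ℝ) / a))⁻¹ ≤ (((R : ℝ) / a) ^ 4 / 24)⁻¹ := inv_anti₀ h6 h3
      _ = 24 * a ^ 4 / R ^ 4 := by field_simp
  have h7 : a * (((2 * h + 5 + 2 * R : ℕ) : ℝ) ^ 2 * Real.exp (-(R : ℝ) / a)) ≤
      a * ((9 * R) ^ 2 * (24 * a ^ 4 / R ^ 4)) := by gcongr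
  refine h7.trans ?_
  have h8 : a * ((9 * (R : ℝ)) ^ 2 * (24 * a ^ 4 / R ^ 4)) = 1944 * a ^ 5 / R ^ 2 := by
    field_simp
    ring
  rw [h8, div_le_div_iff₀ (by positivity) (by positivity)]
  have h9 : (63 * a ^ 3 * E) ^ 2 ≤ (R : ℝ) ^ 2 := pow_le_pow_left₀ (by positivity) hR 2
  have h10 : a ^ 5 * E ≤ a ^ 6 * E ^ 2 := by
    have : a ^ 6 * E ^ 2 = a ^ 5 * E * (a * E) := by ring
    rw [this]
    refine le_mul_of_one_le_right (by positivity) ?_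
    nlinarith
  nlinarith

theorem main (hH : S_Hu) (h5 : S_F5) : S_WHu := by
  intro N k hN hk C₀ K₀ hC₀
  obtain ⟨C₁, K₁, D, hC₁, hH'⟩ := hH N k hN hk
  have hC₁0 : 0 < C₁ := by linarith
  have hC₀0 : 0 < C₀ := by linarith
  obtain ⟨Rc, hRc⟩ : ∃ Rc : ℕ, Rc = ⌈63 * C₁ ^ 3 * C₀⌉₊ := ⟨_, rfl⟩
  have hRc1 : 63 * C₁ ^ 3 * C₀ ≤ Rc := by rw [hRc]; exact Nat.le_ceil _
  have hRcp : (1 : ℝ) ≤ Rc := by
    have : (1 : ℝ) ≤ C₁ ^ 3 := one_le_pow₀ hC₁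
    nlinarith
  have hRcn : 1 ≤ Rc := by exact_mod_cast hRcp
  obtain ⟨C₂, hC₂⟩ : ∃ C₂ : ℝ, C₂ = 81 * D * (Rc : ℝ) ^ 2 + C₁ + 2 * C₁ * C₀ + 8 * Rc := ⟨_, rfl⟩
  have hD0 : (0 : ℝ) ≤ D := Nat.cast_nonneg _
  have hC₂1 : 8 ≤ C₂ := by
    rw [hC₂]
    have : (0 : ℝ) ≤ 81 * D * (Rc : ℝ) ^ 2 := by positivity
    nlinarith
  obtain ⟨K₂, hK₂⟩ : ∃ K₂ : ℕ, K₂ = 6 * K₁ + 2 * K₀ + 4 := ⟨_, rfl⟩
  refine ⟨16 * C₂ ^ 4, 4 * K₂, ?_, ?_⟩
  · have : (1 : ℝ) ≤ C₂ ^ 4 := one_le_pow₀ (by linarith)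
    linarith
  intro L _ h
  have hL1 : (1 : ℝ) ≤ L := by exact_mod_cast Nat.one_le_iff_ne_zero.2 (NeZero.ne L)
  have hL0 : (0 : ℝ) < L := by linarith
  have hLn : 1 ≤ L := Nat.one_le_iff_ne_zero.2 (NeZero.ne L)
  obtain ⟨b, hb⟩ : ∃ b : ℝ, b = (L : ℝ) * (h + 1) := ⟨_, rfl⟩
  have hh0 : (0 : ℝ) ≤ h := Nat.cast_nonneg _
  have hbL : (L : ℝ) ≤ b := by rw [hb]; nlinarith
  have hb1 : 1 ≤ b := hL1.trans hbL
  have hb0 : 0 < b := by linarith
  have hbh : (h : ℝ) + 1 ≤ b := by rw [hb]; nlinarith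
  obtain ⟨W, hW⟩ : ∃ W : ℝ, W = C₂ * b ^ K₂ := ⟨_, rfl⟩
  have hW1 : 1 ≤ W := by
    rw [hW]
    have : (1 : ℝ) ≤ b ^ K₂ := one_le_pow₀ hb1
    nlinarith
  have hpow : ∀ {c : ℝ} {j : ℕ}, 0 ≤ c → c ≤ C₂ → j ≤ K₂ → c * b ^ j ≤ W := by
    intro c j hc hcC hj
    rw [hW]
    exact mul_le_mul hcC (pow_le_pow_right₀ hb1 hj) (by positivity) (by linarith)
  obtain ⟨a, ha⟩ : ∃ a : ℝ, a = C₁ * (L : ℝ) ^ K₁ := ⟨_, rfl⟩
  obtain ⟨E, hE⟩ : ∃ E : ℝ, E = C₀ * (L : ℝ) ^ K₀ := ⟨_, rfl⟩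
  have ha1 : 1 ≤ a := by
    rw [ha]
    have : (1 : ℝ) ≤ (L : ℝ) ^ K₁ := one_le_pow₀ hL1
    nlinarith
  have hE1 : 1 ≤ E := by
    rw [hE]
    have : (1 : ℝ) ≤ (L : ℝ) ^ K₀ := one_le_pow₀ hL1
    nlinarith
  have hab : a ≤ C₁ * b ^ K₁ := by
    rw [ha]
    exact mul_le_mul_of_nonneg_left (pow_le_pow_left₀ hL0.le hbL _) hC₁0.le
  have hEb : E ≤ C₀ * b ^ K₀ := by
    rw [hE]
    exact mul_le_mul_of_nonneg_left (pow_le_pow_left₀ hL0.le hbL _) hC₀0.le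
  obtain ⟨R, hR⟩ : ∃ R : ℕ, R = Rc * L ^ (3 * K₁ + K₀) * (h + 1) := ⟨_, rfl⟩
  have hLp : 1 ≤ L ^ (3 * K₁ + K₀) := Nat.one_le_pow _ _ hLn
  have hRh : h + 1 ≤ R := by
    rw [hR]
    have : 1 ≤ Rc * L ^ (3 * K₁ + K₀) := Nat.one_le_iff_ne_zero.2 (by positivity)
    nlinarith
  have hR63 : 63 * a ^ 3 * E ≤ R := by
    have h1 : 63 * a ^ 3 * E = 63 * C₁ ^ 3 * C₀ * (L : ℝ) ^ (3 * K₁ + K₀) := by
      rw [ha, hE, pow_add, pow_mul']
      ring
    rw [h1, hR]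
    push_cast
    have h2 : (0 : ℝ) < (L : ℝ) ^ (3 * K₁ + K₀) := by positivity
    calc 63 * C₁ ^ 3 * C₀ * (L : ℝ) ^ (3 * K₁ + K₀) ≤ Rc * (L : ℝ) ^ (3 * K₁ + K₀) :=
          mul_le_mul_of_nonneg_right hRc1 h2.le
      _ ≤ Rc * (L : ℝ) ^ (3 * K₁ + K₀) * (h + 1) :=
          le_mul_of_one_le_right (by positivity) (by linarith)
  have hRb : (R : ℝ) ≤ Rc * b ^ (3 * K₁ + K₀ + 1) := by
    rw [hR]
    push_cast
    rw [pow_succ, mul_assoc]
    have h1 : (L : ℝ) ^ (3 * K₁ + K₀) ≤ b ^ (3 * K₁ + K₀) := pow_le_pow_left₀ hL0.le hbL _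
    exact mul_le_mul_of_nonneg_left (mul_le_mul h1 hbh (by positivity) (by positivity))
      (by positivity)
  have hRW : 4 * ((R : ℝ) + 1) ≤ W := by
    have h1 : (1 : ℝ) ≤ b ^ (3 * K₁ + K₀ + 1) := one_le_pow₀ hb1
    have h2 : 4 * ((R : ℝ) + 1) ≤ 8 * Rc * b ^ (3 * K₁ + K₀ + 1) := by nlinarith
    refine h2.trans (hpow (by positivity) ?_ (by omega))
    rw [hC₂]
    have : (0 : ℝ) ≤ 81 * D * (Rc : ℝ) ^ 2 + C₁ + 2 * C₁ * C₀ := by positivity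
    linarith
  refine ⟨R + 2, ?_, ?_⟩
  · rw [← hb]
    have h1 : (((R + 2 : ℕ)) : ℝ) ≤ W := by push_cast; linarith
    have h2 : W ≤ 16 * C₂ ^ 4 * b ^ (4 * K₂) := by
      have h3 : 16 * C₂ ^ 4 * b ^ (4 * K₂) = 16 * W ^ 4 := by
        rw [hW, pow_mul']
        ring
      rw [h3]
      have : W ≤ W ^ 4 := le_self_pow₀ hW1 (by norm_num)
      linarith [show (0 : ℝ) ≤ W ^ 4 by positivity]
    exact h1.trans h2
  intro β hβ hββ c η
  rw [← hb] at hββ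
  have hβW : 16 * W ^ 4 ≤ β := by
    have h3 : 16 * C₂ ^ 4 * b ^ (4 * K₂) = 16 * W ^ 4 := by
      rw [hW, pow_mul']
      ring
    rwa [h3] at hββ
  have hβ1 : 1 ≤ β := by
    have : (1 : ℝ) ≤ W ^ 4 := one_le_pow₀ hW1
    linarith
  obtain ⟨t, ht⟩ : ∃ t : ℝ, t = 1 / (2 * a * E) := ⟨_, rfl⟩
  have ha0 : 0 < a := by linarith
  have hE0 : 0 < E := by linarith
  have ht0 : 0 < t := by rw [ht]; positivity
  obtain ⟨Λ, hΛ⟩ : ∃ Λ, Λ = Nb (h + (R + 2)) c := ⟨_, rfl⟩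
  obtain ⟨B, hB⟩ : ∃ B, B = Nb (h + 1) c := ⟨_, rfl⟩
  have hbal : bal (R + 1) B = Λ := by
    rw [hB, PkgWH.bal_Nb, hΛ]
    congr 1
    omega
  have hcard : Λ.card = (2 * h + 5 + 2 * R) ^ 2 := by
    rw [hΛ, PkgWH.card_Nb]
    congr 1
    omega
  have hBΛ : B ∩ Λ = B := by
    rw [Finset.inter_eq_left, ← hbal]
    intro x hx
    exact (mem_bal _ _ _).2 ⟨x, hx, by simp; omega, by simp; omega⟩
  rw [← hΛ, ← hE]
  have hkey := hH' L β hβ hβ1 Λ B R 0 t le_rfl ht0.le η fun τ h => by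
    exfalso
    have h1 := h τ.1 (fst_mem_cor τ)
    rw [hbal] at h1
    exact h1.2 h1.1
  rw [hbal, hBΛ, ← ha] at hkey
  have hmeas1 : Measurable fun X : Cf N L => ind (1 / E < rE k X (Nb h c)) := by
    unfold ind
    exact Measurable.ite (measurableSet_lt measurable_const (en_meas k hN _))
      measurable_const measurable_const
  have hmono := ((h5 (Lk L) Tm (SU N) (sysS N L k β hN hβ) (hm N) Λ).2.2.1
    (fun X => ind (1 / E < rE k X (Nb h c)))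
    (fun X => ind (a * (Λ.card * (Real.exp (-R / a) + 0) + t) ≤ ∑ τ ∈ tml B, en k X τ))
    hmeas1 ⟨1, fun _ => ind_abs _⟩
    (ind_meas _ _ measurable_const (en_meas k hN _)) ⟨1, fun _ => ind_abs _⟩ η).1
  refine (hmono fun ξ => ?_).trans (hkey.trans ?_)
  · obtain ⟨X, hX⟩ : ∃ X : Cf N L, X = glue ((sysS N L k β hN hβ).Fr Λ) ξ η := ⟨_, rfl⟩
    rw [← hX]
    by_cases hall : 1 / E < rE k X (Nb h c)
    · rw [ind_true hall, ind_true]
      have h1 : rE k X (Nb h c) ≤ ∑ τ ∈ tml B, en k X τ := by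
        unfold rE
        refine Finset.sum_le_sum_of_subset_of_nonneg ?_ fun τ _ _ => en_nonneg k X τ
        intro τ hτ
        have := (Finset.mem_filter.1 hτ).1
        rwa [PkgWH.pls_Nb, ← hB] at this
      have h2 := decay (h := h) (R := R) ha1 hE1 (by omega) (by omega) hR63
      have h3 : a * t = 1 / (2 * E) := by
        rw [ht]
        field_simp
      have h4 : a * (Λ.card * (Real.exp (-R / a) + 0) + t) =
          a * (((2 * h + 5 + 2 * R : ℕ) : ℝ) ^ 2 * Real.exp (-(R : ℝ) / a)) + a * t := by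
        rw [hcard]
        push_cast
        ring
      rw [h4, h3]
      have h6 : 1 / (2 * E) + 1 / (2 * E) = 1 / E := by
        field_simp
        norm_num
      linarith
    · have h1 : ind (1 / E < rE k X (Nb h c)) = 0 := by
        unfold ind
        rw [if_neg hall]
      rw [h1]
      exact ind_nonneg _
  · refine arith (W := W) ha1 ht0 hW1 ?_ ?_ ?_ hRW hβW
    · refine hab.trans (hpow hC₁0.le ?_ (by omega))
      rw [hC₂]
      have : (0 : ℝ) ≤ 81 * D * (Rc : ℝ) ^ 2 + 2 * C₁ * C₀ + 8 * Rc := by positivity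
      linarith
    · have h1 : 2 * a * E ≤ W := by
        have h2 : 2 * a * E ≤ 2 * C₁ * C₀ * b ^ (K₁ + K₀) := by
          calc 2 * a * E ≤ 2 * (C₁ * b ^ K₁) * (C₀ * b ^ K₀) := by gcongr
            _ = _ := by rw [pow_add]; ring
        refine h2.trans (hpow (by positivity) ?_ (by omega))
        rw [hC₂]
        have : (0 : ℝ) ≤ 81 * D * (Rc : ℝ) ^ 2 + C₁ + 8 * Rc := by positivity
        linarith
      rw [ht, div_mul_eq_mul_div, one_mul, le_div_iff₀ (by positivity), one_mul]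
      exact h1
    · rw [hcard]
      push_cast
      have h1 : (2 * (h : ℝ) + 5 + 2 * R) ≤ 9 * R := by
        have h2 : (h : ℝ) + 1 ≤ R := by exact_mod_cast hRh
        linarith
      have h3 : (D : ℝ) * L ^ 2 * (2 * (h : ℝ) + 5 + 2 * R) ^ 2 ≤
          81 * D * (Rc : ℝ) ^ 2 * b ^ (2 + 2 * (3 * K₁ + K₀ + 1)) := by
        calc (D : ℝ) * L ^ 2 * (2 * (h : ℝ) + 5 + 2 * R) ^ 2 ≤
              D * b ^ 2 * (9 * (Rc * b ^ (3 * K₁ + K₀ + 1))) ^ 2 := by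
              gcongr
              exact h1.trans (by linarith)
          _ = 81 * D * (Rc : ℝ) ^ 2 * (b ^ 2 * (b ^ (3 * K₁ + K₀ + 1)) ^ 2) := by ring
          _ = _ := by rw [← pow_mul, ← pow_add, mul_comm (3 * K₁ + K₀ + 1) 2]
      refine h3.trans (hpow (by positivity) ?_ (by omega))
      rw [hC₂]
      have : (0 : ℝ) ≤ C₁ + 2 * C₁ * C₀ + 8 * Rc := by positivity
      linarith

end T2H01.SE.PkgWHu

namespace T2H01.SE

open T2H02.TT

theorem pWHu (hH : S_Hu) (h5 : S_F5) : S_WHu := PkgWHu.main hH h5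

end T2H01.SE
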