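import Pool.Agent.T2H01.SE.Stm10
import Pool.Agent.T2H01.SE.ZD
import Pool.Agent.T2H02.TT.Zu

/-!
# Package ZDu : the hypotheses of the coupling theorem for the frozen system, uniform in `L`
-/

set_option autoImplicit false
set_option linter.unusedSectionVars false

noncomputable section

open MeasureTheory Matrix Filter
open scoped Matrix.Norms.Frobenius

namespace T2H01.SE

open T2H02.TT

namespace PkgZDu

variable {N L : ℕ} [NeZero L]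

lemma bads_iff {k : ℕ} {β : ℝ} (hN : 2 ≤ N) (hβ : 0 ≤ β) (P Q : SU N) (Ω : Finset Pl) (M : ℕ)
    (hM : 0 < M) (ε : ℝ) (s : ℕ) (b : Pl) (X : Lv L Ω → SU N) :
    Bads (coa (frz N L k β hN hβ P Q Ω) M hM) (fun τ X => en k (xt P Q Ω X) τ ≤ ε) s b X ↔
      ∃ τ : Tm, (∃ a ∈ cor τ, a ∈ Ω) ∧ (∀ a ∈ cor τ, a ∈ Ω → blk M a ∈ Nb s b) ∧
          ¬ en k (xt P Q Ω X) τ ≤ ε := by
  constructor
  · rintro ⟨τ, hτ, h1, h2⟩
    obtain ⟨a, ha, -⟩ := (Sys.mem_tms _ _ _).1 hτ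
    obtain ⟨c, hc, rfl⟩ := Finset.mem_image.1 ha
    rw [show (frz N L k β hN hβ P Q Ω).bt τ = (cor τ).filter (· ∈ Ω) from rfl,
      Finset.mem_filter] at hc
    exact ⟨τ, ⟨c, hc.1, hc.2⟩, fun a ha hΩ => h1 _ (Finset.mem_image_of_mem _
      (Finset.mem_filter.2 ⟨ha, hΩ⟩)), h2⟩
  · rintro ⟨τ, ⟨c, hc, hcΩ⟩, h1, h2⟩
    refine ⟨τ, (Sys.mem_tms _ _ _).2 ⟨blk M c, Finset.mem_image_of_mem _
      (Finset.mem_filter.2 ⟨hc, hcΩ⟩), h1 c hc hcΩ⟩, fun a ha => ?_, h2⟩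
    obtain ⟨d, hd, rfl⟩ := Finset.mem_image.1 ha
    rw [show (frz N L k β hN hβ P Q Ω).bt τ = (cor τ).filter (· ∈ Ω) from rfl,
      Finset.mem_filter] at hd
    exact h1 d hd.1 hd.2

lemma bads_meas {k : ℕ} {β : ℝ} (hN : 2 ≤ N) (hβ : 0 ≤ β) (P Q : SU N) (Ω : Finset Pl) (M : ℕ)
    (hM : 0 < M) (ε : ℝ) (s : ℕ) (b : Pl) :
    Measurable fun X : Lv L Ω → SU N =>
      ind (Bads (coa (frz N L k β hN hβ P Q Ω) M hM) (fun τ X => en k (xt P Q Ω X) τ ≤ ε) s b X) := by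
  classical
  set S := coa (frz N L k β hN hβ P Q Ω) M hM with hS
  have hms : MeasurableSet {X : Lv L Ω → SU N | Bads S (fun τ X => en k (xt P Q Ω X) τ ≤ ε) s b X} := by
    have h : {X : Lv L Ω → SU N | Bads S (fun τ X => en k (xt P Q Ω X) τ ≤ ε) s b X} =
        ⋃ τ ∈ S.tms (Nb s b), {X : Lv L Ω → SU N |
          (∀ a ∈ S.bt τ, a ∈ Nb s b) ∧ ¬ en k (xt P Q Ω X) τ ≤ ε} := by
      ext X
      simp only [Bads, Set.mem_ofPred_eq, Set.mem_iUnion, exists_prop]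
    rw [h]
    refine Finset.measurableSet_biUnion _ fun τ _ => ?_
    by_cases hh : ∀ a ∈ S.bt τ, a ∈ Nb s b
    · have : {X : Lv L Ω → SU N | (∀ a ∈ S.bt τ, a ∈ Nb s b) ∧ ¬ en k (xt P Q Ω X) τ ≤ ε} =
          {X : Lv L Ω → SU N | en k (xt P Q Ω X) τ ≤ ε}ᶜ := by
        ext X
        simp only [Set.mem_ofPred_eq, Set.mem_compl_iff]
        exact ⟨fun h => h.2, fun h => ⟨hh, h⟩⟩
      rw [this]
      exact (measurableSet_le (((PkgZD.en_meas (by omega) k τ)).comp (xt_meas P Q Ω))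
        measurable_const).compl
    · have : {X : Lv L Ω → SU N | (∀ a ∈ S.bt τ, a ∈ Nb s b) ∧ ¬ en k (xt P Q Ω X) τ ≤ ε} = ∅ := by
        ext X
        simp only [Set.mem_ofPred_eq, Set.mem_empty_iff_false, iff_false]
        exact fun h => hh h.1
      rw [this]
      exact MeasurableSet.empty
  unfold ind
  exact Measurable.ite hms measurable_const measurable_const

end PkgZDu

theorem pZDu (hZO : S_ZOu) : S_ZDu := by
  intro N k hN hk P Q hPQ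
  obtain ⟨C, c, K, D, hC, hc, H⟩ := hZO N k hN hk P Q hPQ
  obtain ⟨C₀, hC₀, hpar⟩ := T2H02.TT.PkgZu.params K D hC hc
  refine ⟨1 / 20, C₀, 200 * (K + 2), by norm_num, hC₀, fun L _ β hβ hβ1 => ?_⟩
  have hL : 1 ≤ L := Nat.one_le_iff_ne_zero.2 (NeZero.ne L)
  have hL1 : (1 : ℝ) ≤ L := by exact_mod_cast hL
  obtain ⟨M, b, e1, e2, gM, g2, g3, g4, g5, g6, gL, gLK, g7, g8, g9, g9', g10, g11⟩ :=
    hpar L hL β hβ1
  have hM : 0 < M := by omega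
  have hs1 : 1 ≤ L ^ K := Nat.one_le_pow _ _ hL
  have hs : ((L ^ K : ℕ) : ℝ) = (L : ℝ) ^ K := by push_cast; rfl
  have hLK1 : (1 : ℝ) ≤ (L : ℝ) ^ K := one_le_pow₀ hL1
  have hLK0 : (0 : ℝ) < (L : ℝ) ^ K := by linarith
  have hT : Real.exp (-((L ^ K : ℕ) * M) / (C * (L : ℝ) ^ K)) ≤ 1 / b ^ 800 := by
    refine le_trans (le_of_eq ?_) g9
    congr 1
    rw [hs]
    have : C ≠ 0 := by linarith
    field_simp
  obtain ⟨r1, r2, r3, r4, r5, r6, r7⟩ := T2H02.TT.PkgZu.core (L := L) (D := D) (M := M) (s := L ^ K)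
    (LK := (L : ℝ) ^ K) (T := Real.exp (-((L ^ K : ℕ) * M) / (C * (L : ℝ) ^ K)))
    (T2 := Real.exp (-c * M / L)) hC g2 g3 g4 g5 g6 hL gL hLK1 gLK hs1 (by rw [hs]; exact gLK)
    g7 g8 (Real.exp_nonneg _) hT (Real.exp_nonneg _) g9' g10 g11
  set t := (2 * D + 64 : ℝ) * L ^ 2 * (((L ^ K : ℕ) : ℝ) * M) ^ 2 * Real.log β / b ^ 200 with ht
  have hLp : (1 : ℝ) ≤ (L : ℝ) ^ (200 * (K + 2)) := one_le_pow₀ hL1
  have hβ1' : 1 ≤ β := by nlinarith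
  have HH := H L β hβ hβ1' M (L ^ K) hM t
    (C * (L : ℝ) ^ K * (((L ^ K : ℕ) : ℝ) * M) ^ 2 *
      (Real.exp (-((L ^ K : ℕ) * M) / (C * (L : ℝ) ^ K)) + t))
    (C * (L : ℝ) ^ K * (((L ^ K : ℕ) : ℝ) * M) ^ 8 *
      (Real.exp (-((L ^ K : ℕ) * M) / (C * (L : ℝ) ^ K)) + t)) g7 hs1 r1 rfl rfl r5
  rw [← e1] at r6 r7
  have hsC : (((L ^ K : ℕ)) : ℝ) ≤ C₀ * (L : ℝ) ^ (200 * (K + 2)) := by
    rw [hs]
    have h1 : (L : ℝ) ^ K ≤ (L : ℝ) ^ (200 * (K + 2)) := pow_le_pow_right₀ hL1 (by omega)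
    nlinarith
  refine ⟨M, L ^ K, hM, C * (L : ℝ) ^ K * (((L ^ K : ℕ) : ℝ) * M) ^ 2 *
      (Real.exp (-((L ^ K : ℕ) * M) / (C * (L : ℝ) ^ K)) + t), (1 / b ^ 18) ^ (3 * (4 * L ^ K + 4) ^ 2),
      (1 / b ^ 18) ^ 3, 1 / b ^ 18,
    hs1, hsC, gM, by positivity, by positivity, r2, le_rfl, le_rfl, r3, ?_, fun Ω => ?_⟩
  · rw [e2]
    exact r4
  obtain ⟨H1, H2⟩ := HH Ω
  set ε : ℝ := C * (L : ℝ) ^ K * (((L ^ K : ℕ) : ℝ) * M) ^ 2 *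
      (Real.exp (-((L ^ K : ℕ) * M) / (C * (L : ℝ) ^ K)) + t) with hε
  refine ⟨?_, ?_⟩
  · intro b' η
    rw [coa_ker, frz_ker k β hN hβ P Q Ω _ _ (PkgZDu.bads_meas hN hβ P Q Ω M hM ε (L ^ K) b') η]
    rw [PkgZD.ker_congr (sysS N L k β hN hβ) (hm N) (sit M (Nb (2 * L ^ K) b') ∩ Ω) _
      (fun X => ind (∃ τ : Tm, (∃ a ∈ cor τ, a ∈ Ω) ∧ (∀ a ∈ cor τ, a ∈ Ω → blk M a ∈ Nb (L ^ K) b') ∧
          ¬ en k X τ ≤ ε)) (xt P Q Ω η) (fun ξ => by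
        refine PkgZD.ind_congr ?_
        rw [PkgZDu.bads_iff hN hβ P Q Ω M hM ε (L ^ K) b']
        have hv := PkgZD.vac_glue P Q Ω (sit M (Nb (2 * L ^ K) b')) ξ η
        have hv' : xt P Q Ω (rs Ω (glue ((sysS N L k β hN hβ).Fr (sit M (Nb (2 * L ^ K) b') ∩ Ω)) ξ
            (xt P Q Ω η))) = glue ((sysS N L k β hN hβ).Fr (sit M (Nb (2 * L ^ K) b') ∩ Ω)) ξ
            (xt P Q Ω η) := hv
        rw [hv'])]
    exact (H1 b' (xt P Q Ω η) fun l hl => xt_of_not P Q Ω _ l hl).trans r6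
  · intro b' Λ hb' η η' h3 h4 F hF hF1 hdep
    rw [coa_ker, coa_ker, frz_ker k β hN hβ P Q Ω _ F hF η, frz_ker k β hN hβ P Q Ω _ F hF η']
    refine (H2 b' Λ hb' (xt P Q Ω η) (xt P Q Ω η')
      (fun l hl => ⟨xt_of_not P Q Ω _ l hl, xt_of_not P Q Ω _ l hl⟩) ?_ ?_ (fun X => F (rs Ω X))
      (hF.comp (rs_meas Ω)) (fun X => hF1 _) ?_).trans ?_
    · intro l hl hst
      rw [xt_of_mem P Q Ω _ l hl, xt_of_mem P Q Ω _ l hl]
      refine h3 ⟨l, hl⟩ fun a ha => ?_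
      obtain ⟨c, hc, rfl⟩ := Finset.mem_image.1 ha
      rw [show (frz N L k β hN hβ P Q Ω).bl ⟨l, hl⟩ = (st l).filter (· ∈ Ω) from rfl,
        Finset.mem_filter] at hc
      exact hst c hc.1 hc.2
    · intro τ hne hcor
      refine h4 τ ?_ fun a ha => ?_
      · obtain ⟨c, hc, hcΩ⟩ := hne
        exact (Sys.mem_tms _ _ _).2 ⟨blk M c, Finset.mem_image_of_mem _
          (Finset.mem_filter.2 ⟨hc, hcΩ⟩), (hcor c hc hcΩ).1⟩
      · obtain ⟨c, hc, rfl⟩ := Finset.mem_image.1 ha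
        rw [show (frz N L k β hN hβ P Q Ω).bt τ = (cor τ).filter (· ∈ Ω) from rfl,
          Finset.mem_filter] at hc
        exact hcor c hc.1 hc.2
    · intro X Y hXY
      refine hdep (rs Ω X) (rs Ω Y) fun i hi => hXY i.1 ⟨i.2, fun a ha hΩ => ?_⟩
      exact hi (blk M a) (Finset.mem_image_of_mem _ (Finset.mem_filter.2 ⟨ha, hΩ⟩))
    · gcongr

end T2H01.SE
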