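import Pool.Agent.T2H01.SE.Stm10
import Pool.Agent.T2H01.SE.ZO
import Pool.Agent.T2H02.TT.Z1u

/-!
# Package ZOu : the hypotheses of the coupling theorem in domains with cold walls, constants polynomial in `L`
-/

set_option autoImplicit false
set_option linter.unusedSectionVars false
set_option linter.unusedVariables false

noncomputable section

open MeasureTheory Matrix
open scoped Matrix.Norms.Frobenius

namespace T2H01.SE.PkgZOu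

open T2H02.TT T2H02.TT.PkgZ1 T2H02.TT.PkgZ1u T2H01.SE.PkgZO

variable {N L : ℕ} [NeZero L]

/-- the bad event -/
def bds (k M s : ℕ) (Ω : Finset Pl) (b : Pl) (ε : ℝ) (X : Cf N L) : Prop :=
  ∃ τ : Tm, (∃ a ∈ cor τ, a ∈ Ω) ∧ (∀ a ∈ cor τ, a ∈ Ω → blk M a ∈ Nb s b) ∧ ¬ en k X τ ≤ ε

lemma bds_meas (hN : 0 < N) (k M s : ℕ) (Ω : Finset Pl) (b : Pl) (ε : ℝ) :
    MeasurableSet {X : Cf N L | bds k M s Ω b ε X} := by
  have h : {X : Cf N L | bds k M s Ω b ε X} =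
      ⋃ τ : Tm, {X : Cf N L | ((∃ a ∈ cor τ, a ∈ Ω) ∧ (∀ a ∈ cor τ, a ∈ Ω → blk M a ∈ Nb s b)) ∧
        ¬ en k X τ ≤ ε} := by
    ext X
    simp only [bds, Set.mem_ofPred_eq, Set.mem_iUnion, and_assoc]
  rw [h]
  refine MeasurableSet.iUnion fun τ => ?_
  by_cases hh : (∃ a ∈ cor τ, a ∈ Ω) ∧ (∀ a ∈ cor τ, a ∈ Ω → blk M a ∈ Nb s b)
  · have : {X : Cf N L | ((∃ a ∈ cor τ, a ∈ Ω) ∧ (∀ a ∈ cor τ, a ∈ Ω → blk M a ∈ Nb s b)) ∧
        ¬ en k X τ ≤ ε} = {X : Cf N L | en k X τ ≤ ε}ᶜ := by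
      ext X
      simp only [Set.mem_ofPred_eq, Set.mem_compl_iff]
      exact ⟨fun h => h.2, fun h => ⟨hh, h⟩⟩
    rw [this]
    exact (measurableSet_le (en_meas hN k τ) measurable_const).compl
  · have : {X : Cf N L | ((∃ a ∈ cor τ, a ∈ Ω) ∧ (∀ a ∈ cor τ, a ∈ Ω → blk M a ∈ Nb s b)) ∧
        ¬ en k X τ ≤ ε} = ∅ := by
      ext X
      simp only [Set.mem_ofPred_eq, Set.mem_empty_iff_false, iff_false]
      exact fun h => hh h.1
    rw [this]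
    exact MeasurableSet.empty

/-- first part: bad squares are rare -/
theorem part1 (hF5 : S_F5) {k : ℕ} (hN : 2 ≤ N) {P Q : SU N}
    (hV : ∀ (τ : Tm), en k (vc P Q : Cf N L) τ = 0) {cH : ℝ} {dH : ℕ} (hcH : 1 ≤ cH)
    {β : ℝ} (hβ : 0 ≤ β) (hβ1 : 1 ≤ β)
    (hH : ∀ (Λ B : Finset Pl) (R : ℕ) (e t : ℝ), 0 ≤ e → 0 ≤ t → ∀ η : Cf N L,
      (∀ τ : Tm, (∀ a ∈ cor τ, a ∈ bal (R + 1) B ∧ a ∉ Λ) → en k η τ ≤ e) →
      (sysS N L k β hN hβ).ker (hm N) Λ (fun X =>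
        ind (cH * ((bal (R + 1) B).card * (Real.exp (-R / cH) + e) + t) ≤
          ∑ τ ∈ tml (B ∩ Λ), en k X τ)) η ≤
        (R + 1) * (Real.exp (-β * t) * (cH * β) ^ (dH * (bal (R + 1) B).card)))
    {E : ℝ} {d : ℕ} (hE : 75 * cH ≤ E) (hd : 25 * dH ≤ d)
    (M s : ℕ) (hM : 0 < M) (hs : 1 ≤ s) (t : ℝ) (ht : 0 ≤ t) (Ω : Finset Pl) (b : Pl) (η : Cf N L)
    (hη : ∀ l, l ∉ Frl L Ω → η l = vc P Q l) :
    (sysS N L k β hN hβ).ker (hm N) (sit M (Nb (2 * s) b) ∩ Ω)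
      (fun X => ind (bds k M s Ω b (E * (s * M : ℝ) ^ 2 * (Real.exp (-(s * M) / E) + t)) X)) η ≤
        s * M * (Real.exp (-β * t) * (E * β) ^ (d * (s * M) ^ 2)) := by
  set S := sysS N L k β hN hβ with hS
  set B : Finset Pl := sit M (Nb s b) with hB
  set Λ : Finset Pl := sit M (Nb (2 * s) b) ∩ Ω with hΛ
  have hsM : 0 < s * M := Nat.mul_pos hs hM
  have hM1 : s * M - 1 + 1 = s * M := Nat.sub_add_cancel hsM
  have hbal : bal (s * M) B ⊆ sit M (Nb (2 * s) b) := by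
    have := bal_sits hM s s b
    rwa [← two_mul] at this
  have hcard : (bal (s * M) B).card ≤ 25 * (s * M) ^ 2 := by
    refine (card_sit_Nb (2 * s) b hbal).trans ?_
    have h1 : 2 * (2 * s) + 1 ≤ 5 * s := by omega
    calc (2 * (2 * s) + 1) ^ 2 * M ^ 2 ≤ (5 * s) ^ 2 * M ^ 2 :=
          Nat.mul_le_mul_right _ (Nat.pow_le_pow_left h1 2)
      _ = 25 * (s * M) ^ 2 := by ring
  have hx : (1 : ℝ) ≤ s * M := by exact_mod_cast hsM
  have hcard' : ((bal (s * M) B).card : ℝ) ≤ 25 * ((s : ℝ) * M) ^ 2 := by exact_mod_cast hcard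
  have hE0 : cH ≤ E := by linarith
  have hHb := hH Λ B (s * M - 1) 0 t le_rfl ht η (fun τ hτ => by
    rw [hM1] at hτ
    exact (en_vac hV hη fun a ha hc => (hτ a ha).2 (Finset.mem_inter.2 ⟨hbal (hτ a ha).1, hc⟩)).le)
  rw [hM1] at hHb
  have hcast1 : ((s * M - 1 : ℕ) : ℝ) = (s : ℝ) * M - 1 := by
    have h := congrArg (fun n : ℕ => (n : ℝ)) hM1
    push_cast at h
    linarith
  rw [hcast1] at hHb
  obtain ⟨-, -, hlin, -, -, -, -⟩ := hF5 _ _ _ S (hm N) Λ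
  have hthr := thr_meas (L := L) (show 0 < N by omega) k (tml (B ∩ Λ))
    (cH * ((bal (s * M) B).card * (Real.exp (-((s : ℝ) * M - 1) / cH) + 0) + t))
  have hbm := bds_meas (L := L) (show 0 < N by omega) k M s Ω b
    (E * (s * M : ℝ) ^ 2 * (Real.exp (-(s * M) / E) + t))
  have hmono := (hlin _ _ (ind_meas hbm) ⟨1, fun ω => ind_bdd _⟩ (ind_meas hthr)
    ⟨1, fun ω => ind_bdd _⟩ η).1 (fun ξ => ind_mono (fun hbad => by
      obtain ⟨τ, ⟨a, ha, haΩ⟩, hcor, hgt⟩ := hbad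
      have hτ' : τ ∈ tml (B ∩ Λ) := by
        have h1 := hcor a ha haΩ
        refine (mem_tml _ _).2 ⟨a, ha, Finset.mem_inter.2 ⟨(mem_sit M hM _ _).2 h1,
          Finset.mem_inter.2 ⟨(mem_sit M hM _ _).2 (PkgZ1.Nb_mono (by omega) h1), haΩ⟩⟩⟩
      have h1 : cH * ((bal (s * M) B).card * (Real.exp (-((s : ℝ) * M - 1) / cH) + 0) + t) ≤
          E * (s * M : ℝ) ^ 2 * (Real.exp (-(s * M) / E) + t) := by
        refine PkgZ1u.num1 hcH hE hx ht (Real.exp_pos _).le ?_ (Real.exp_pos _).le (by positivity)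
          hcard'
        exact exp1 hcH hE0 (by linarith)
      refine h1.trans ((not_le.1 hgt).le.trans ?_)
      exact Finset.single_le_sum (f := fun τ => en k (glue (S.Fr Λ) ξ η) τ)
        (fun τ _ => en_nonneg _ _ _) hτ'))
  refine hmono.trans (hHb.trans ?_)
  have hcast : ((s : ℝ) * M - 1 + 1) = s * M := by ring
  rw [hcast]
  have hCHβ : 1 ≤ cH * β := by nlinarith
  have hpow : (cH * β) ^ (dH * (bal (s * M) B).card) ≤ (E * β) ^ (d * (s * M) ^ 2) := by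
    refine pow_le_aux hCHβ (by gcongr) ?_
    calc dH * (bal (s * M) B).card ≤ dH * (25 * (s * M) ^ 2) := Nat.mul_le_mul_left _ hcard
      _ = 25 * dH * (s * M) ^ 2 := by ring
      _ ≤ d * (s * M) ^ 2 := Nat.mul_le_mul_right _ hd
  have he := Real.exp_pos (-β * t)
  gcongr

/-- second part: insensitivity -/
theorem part2 (hF3 : S_F3) (hF5 : S_F5) {k : ℕ} (hN : 2 ≤ N) {P Q : SU N}
    (hV : ∀ (τ : Tm), en k (vc P Q : Cf N L) τ = 0) {cH cM κ cm : ℝ} {dH dM : ℕ}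
    (hcH : 1 ≤ cH) (hcM : 1 ≤ cM) (hκ : 1 ≤ κ) (hcm : 0 < cm)
    {β : ℝ} (hβ : 0 ≤ β) (hβ1 : 1 ≤ β)
    (hH : ∀ (Λ B : Finset Pl) (R : ℕ) (e t : ℝ), 0 ≤ e → 0 ≤ t → ∀ η : Cf N L,
      (∀ τ : Tm, (∀ a ∈ cor τ, a ∈ bal (R + 1) B ∧ a ∉ Λ) → en k η τ ≤ e) →
      (sysS N L k β hN hβ).ker (hm N) Λ (fun X =>
        ind (cH * ((bal (R + 1) B).card * (Real.exp (-R / cH) + e) + t) ≤
          ∑ τ ∈ tml (B ∩ Λ), en k X τ)) η ≤
        (R + 1) * (Real.exp (-β * t) * (cH * β) ^ (dH * (bal (R + 1) B).card)))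
    (hMM : ∀ (Λ B : Finset Pl) (R : ℕ) (e t r : ℝ), 0 ≤ e → 0 ≤ t → B ⊆ Λ → Λ ⊆ bal R B →
      r = cM * Λ.card * (Λ.card * e + t) → r ≤ 1 / κ →
      ∀ η η' : Cf N L, (∀ l, l ∉ Frl L Λ → (∀ a ∈ st l, a ∈ bal R B) → η l = η' l) →
      (∀ τ ∈ rng Λ, en k η τ ≤ e ∧ en k η' τ ≤ e) →
      ∀ F : Cf N L → ℝ, Measurable F → (∀ X, 0 ≤ F X ∧ F X ≤ 1) →
      Sys.dep {l | ∀ a ∈ st l, (a ∈ bal R B ∧ a ∉ Λ) ∨ a ∈ B} F →
      (sysS N L k β hN hβ).ker (hm N) Λ F η ≤ (sysS N L k β hN hβ).ker (hm N) Λ F η' +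
        cM * Λ.card * (β * (r * Real.sqrt r + Real.exp (-cm * R / L) * r) + Real.exp (-β / κ)) +
        2 * (Real.exp (-β * t) * (cM * β) ^ (dM * Λ.card)))
    {E Cp : ℝ} {d : ℕ} (hE1 : 75 * cH ≤ E) (hE2 : (κ * (2000 * cM * cH)) ^ 2 ≤ E)
    (hE3 : 9 * cM * (2000 * cM * cH) ^ 2 ≤ E) (hCp : κ ≤ Cp) (hd : 25 * (dH + dM) ≤ d)
    (M s : ℕ) (hM : 0 < M) (h8 : 8 ≤ M) (hs : 1 ≤ s) (t ε r : ℝ) (ht : 0 ≤ t)
    (hε : ε = E * (s * M : ℝ) ^ 2 * (Real.exp (-(s * M) / E) + t))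
    (hr : r = E * (s * M : ℝ) ^ 8 * (Real.exp (-(s * M) / E) + t))
    (Ω : Finset Pl) (b : Pl) (Λ : Finset Pl) (hb : b ∈ Λ) (η η' : Cf N L)
    (hvac : ∀ l, l ∉ Frl L Ω → η l = vc P Q l ∧ η' l = vc P Q l)
    (hag : ∀ l ∈ Frl L Ω, (∀ a ∈ st l, a ∈ Ω → blk M a ∈ Nb 2 b ∧ blk M a ∉ Λ) → η l = η' l)
    (hgd : ∀ τ : Tm, (∃ a ∈ cor τ, a ∈ Ω) →
        (∀ a ∈ cor τ, a ∈ Ω → blk M a ∈ Nb s b ∧ blk M a ∉ Λ) → en k η τ ≤ ε ∧ en k η' τ ≤ ε)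
    (F : Cf N L → ℝ) (hF : Measurable F) (hF1 : ∀ ω, 0 ≤ F ω ∧ F ω ≤ 1)
    (hFd : Sys.dep {l | l ∈ Frl L Ω ∧ ∀ a ∈ st l, a ∈ Ω →
          (blk M a ∈ Nb 2 b ∧ blk M a ∉ Λ) ∨ blk M a = b} F) :
    (sysS N L k β hN hβ).ker (hm N) (sit M Λ ∩ Ω) F η ≤
      (sysS N L k β hN hβ).ker (hm N) (sit M Λ ∩ Ω) F η' +
        (E * M ^ 2 * (β * (r * Real.sqrt r + Real.exp (-(cm / 4) * M / L) * r) +
            Real.exp (-β / Cp)) +
          4 * s * M * (Real.exp (-β * t) * (E * β) ^ (d * (s * M) ^ 2))) := by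
  set S := sysS N L k β hN hβ with hS
  set Λs : Finset Pl := sit M Λ ∩ Ω with hΛs
  set B : Finset Pl := sit M {b} ∩ Ω with hB
  set R₁ : ℕ := M / 2 with hR₁
  set R : ℕ := s * M - R₁ - 3 with hR
  set Λ2 : Finset Pl := Λs ∩ bal R₁ B with hΛ2
  set B' : Finset Pl := bal (R₁ + 2) B with hB'
  have hMsM : M ≤ s * M := Nat.le_mul_of_pos_left M hs
  have hR1' : 1 ≤ R₁ := by omega
  have hRR : R + 1 + (R₁ + 2) = s * M := by omega
  have hBΛ : B ⊆ Λs := Finset.inter_subset_inter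
    (sit_mono hM (Finset.singleton_subset_iff.2 hb)) (Finset.Subset.refl _)
  have hbalM : bal M B ⊆ sit M (Nb 1 b) :=
    (bal_sub_bal M Finset.inter_subset_left).trans (bal_sit1 hM b)
  have hbalsM : bal (s * M) B ⊆ sit M (Nb s b) :=
    (bal_sub_bal (s * M) Finset.inter_subset_left).trans (bal_sits1 hM s b)
  have hag' : ∀ l : Lk L, (∀ a ∈ st l, a ∈ Ω → blk M a ∈ Nb 2 b ∧ blk M a ∉ Λ) → η l = η' l := by
    intro l hl
    by_cases h : l ∈ Frl L Ω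
    · exact hag l h hl
    · rw [(hvac l h).1, (hvac l h).2]
  have hbal' : bal (R + 1) B' ⊆ sit M (Nb s b) := by
    refine (bal_bal _ _ _).trans ?_
    rw [hRR]
    exact hbalsM
  have hy : (1 : ℝ) ≤ M := by exact_mod_cast hM
  have hsM : 0 < s * M := Nat.mul_pos hs hM
  have hx : (1 : ℝ) ≤ s * M := by exact_mod_cast hsM
  set W : ℝ := Real.exp (-(s * M) / E) with hWdef
  have hW : 0 ≤ W := (Real.exp_pos _).le
  have hE0 : 1 ≤ E := by linarith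
  have hε0 : 0 ≤ ε := by rw [hε]; positivity
  have hc9 : (bal (R + 1) B').card ≤ 9 * (s * M) ^ 2 := by
    refine (card_sit_Nb s b hbal').trans ?_
    have h1 : 2 * s + 1 ≤ 3 * s := by omega
    calc (2 * s + 1) ^ 2 * M ^ 2 ≤ (3 * s) ^ 2 * M ^ 2 :=
          Nat.mul_le_mul_right _ (Nat.pow_le_pow_left h1 2)
      _ = 9 * (s * M) ^ 2 := by ring
  have hc9' : ((bal (R + 1) B').card : ℝ) ≤ 9 * ((s : ℝ) * M) ^ 2 := by exact_mod_cast hc9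
  have hL2 : Λ2 ⊆ sit M (Nb 1 b) :=
    Finset.inter_subset_right.trans ((bal_mono (by omega) B).trans hbalM)
  have hc2 : Λ2.card ≤ 9 * M ^ 2 := by
    have := card_sit_Nb 1 b hL2
    norm_num at this
    exact this
  have hc2' : (Λ2.card : ℝ) ≤ 9 * (M : ℝ) ^ 2 := by exact_mod_cast hc2
  have hMs2 : M ^ 2 ≤ (s * M) ^ 2 := Nat.pow_le_pow_left hMsM 2
  have hc2s : Λ2.card ≤ 9 * (s * M) ^ 2 := hc2.trans (Nat.mul_le_mul_left _ hMs2)
  have hc2s' : (Λ2.card : ℝ) ≤ 9 * ((s : ℝ) * M) ^ 2 := by exact_mod_cast hc2s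
  -- the modified function
  set F' : Cf N L → ℝ := fun X => F (md' M Ω b Λ η X) with hF'
  have hF'm : Measurable F' := hF.comp (md'_meas M Ω b Λ η)
  have hF'1 : ∀ ω, 0 ≤ F' ω ∧ F' ω ≤ 1 := fun ω => hF1 _
  have hF'b : ∃ K, ∀ ω, |F' ω| ≤ K := ⟨1, fun ω => by
    rw [abs_of_nonneg (hF'1 ω).1]
    exact (hF'1 ω).2⟩
  have hmod : ∀ X : Cf N L, agr Λs X η ∨ agr Λs X η' → F' X = F X := by
    intro X hX
    change F (md' M Ω b Λ η X) = F X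
    congr 1
    funext l
    unfold md'
    split_ifs with h0
    · have hl : l ∉ Frl L Λs := not_Frl fun a ha hc => by
        rw [hΛs, Finset.mem_inter, mem_sit M hM] at hc
        exact (h0 a ha hc.2).2 hc.1
      rcases hX with h1 | h1
      · exact (h1 l hl).symm
      · rw [hag' l h0]
        exact (h1 l hl).symm
    · rfl
  have hk1 : S.ker (hm N) Λs F η = S.ker (hm N) Λs F' η :=
    ker_congr _ _ _ _ _ _ fun ξ => (hmod _ (Or.inl (agr_glue Λs ξ η))).symm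
  have hk2 : S.ker (hm N) Λs F η' = S.ker (hm N) Λs F' η' :=
    ker_congr _ _ _ _ _ _ fun ξ => (hmod _ (Or.inr (agr_glue Λs ξ η'))).symm
  -- consistency
  set G : Cf N L → ℝ := S.ker (hm N) Λ2 F' with hG
  have hcons : ∀ ζ : Cf N L, S.ker (hm N) Λs F' ζ = S.ker (hm N) Λs G ζ := fun ζ =>
    ker_cons hF3 S (hm N) Finset.inter_subset_left F' hF'm hF'b ζ
  have hker01 : ∀ (Δ : Finset Pl) (f : Cf N L → ℝ), Measurable f → (∀ ω, 0 ≤ f ω ∧ f ω ≤ 1) →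
      ∀ ω, 0 ≤ S.ker (hm N) Δ f ω ∧ S.ker (hm N) Δ f ω ≤ 1 := by
    intro Δ f hf hf1 ω
    obtain ⟨-, hc0, hlin2, hmeas2, -, -, -⟩ := hF5 _ _ _ S (hm N) Δ
    have hfb : ∃ K, ∀ ω, |f ω| ≤ K := ⟨1, fun ω => by
      rw [abs_of_nonneg (hf1 ω).1]
      exact (hf1 ω).2⟩
    constructor
    · have := (hlin2 (fun _ => 0) f measurable_const ⟨0, fun _ => by simp⟩ hf hfb ω).1
        (fun ξ => (hf1 _).1)
      rwa [hc0] at this
    · have := (hlin2 f (fun _ => 1) hf hfb measurable_const ⟨1, fun _ => by simp⟩ ω).1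
        (fun ξ => (hf1 _).2)
      rwa [hc0] at this
  obtain ⟨-, hc0, hlin2, hmeas2, -, -, -⟩ := hF5 _ _ _ S (hm N) Λ2
  have hGm : Measurable G := hmeas2 F' hF'm hF'b
  have hG1 : ∀ ω, 0 ≤ G ω ∧ G ω ≤ 1 := hker01 Λ2 F' hF'm hF'1
  -- the bad event
  set T : Finset Tm := tml (B' ∩ Λs) with hT
  set thr : ℝ := cH * ((bal (R + 1) B').card * (Real.exp (-R / cH) + ε) + t) with hthr
  have hbad := thr_meas (L := L) (show 0 < N by omega) k T thr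
  set e₁ : ℝ := thr + ε with he₁
  have hthr0 : 0 ≤ thr := by
    have : 0 < cH := by linarith
    positivity
  have he₁0 : 0 ≤ e₁ := by linarith
  have hRx : (s : ℝ) * M ≤ 8 * R := by
    have h1 : s * M ≤ 8 * R := by omega
    exact_mod_cast h1
  have he₁b : e₁ ≤ 20 * cH * (E * ((s : ℝ) * M) ^ 4 * (W + t)) :=
    PkgZ1u.num2 hcH hE0 hx ht hW (exp2 hcH (by linarith) (by linarith) hRx) (Real.exp_pos _).le
      (by positivity) hc9' hε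
  set p₁ : ℝ := s * M * (Real.exp (-β * t) * (E * β) ^ (d * (s * M) ^ 2)) with hp₁
  have hE00 := Real.exp_pos (-β * t)
  have hcHE : cH ≤ E := by linarith
  have hp : ∀ ζ : Cf N L, (∀ τ : Tm, (∀ a ∈ cor τ, a ∈ bal (R + 1) B' ∧ a ∉ Λs) → en k ζ τ ≤ ε) →
      S.ker (hm N) Λs (fun X => ind (thr ≤ ∑ τ ∈ T, en k X τ)) ζ ≤ p₁ := by
    intro ζ hζ
    refine (hH Λs B' R ε t hε0 ht ζ hζ).trans ?_
    have hR' : ((R : ℝ) + 1) ≤ s * M := by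
      have : R + 1 ≤ s * M := by omega
      exact_mod_cast this
    have hpow : (cH * β) ^ (dH * (bal (R + 1) B').card) ≤ (E * β) ^ (d * (s * M) ^ 2) := by
      refine pow_le_aux (one_le_mul_of_one_le_of_one_le hcH hβ1) (by gcongr) ?_
      calc dH * (bal (R + 1) B').card ≤ dH * (9 * (s * M) ^ 2) := Nat.mul_le_mul_left _ hc9
        _ = 9 * dH * (s * M) ^ 2 := by ring
        _ ≤ d * (s * M) ^ 2 := Nat.mul_le_mul_right _ (by omega)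
    have : 0 ≤ (cH * β) ^ (dH * (bal (R + 1) B').card) := by
      have : 0 < cH := by linarith
      positivity
    rw [hp₁]
    gcongr
  have hfix : ∀ τ : Tm, (∀ a ∈ cor τ, a ∈ sit M (Nb s b) ∧ a ∉ Λs) →
      en k η τ ≤ ε ∧ en k η' τ ≤ ε := by
    intro τ hτ
    by_cases hO : ∃ a ∈ cor τ, a ∈ Ω
    · refine hgd τ hO fun a ha haO => ⟨?_, fun hc => ?_⟩
      · exact (mem_sit M hM _ _).1 (hτ a ha).1
      · exact (hτ a ha).2 (Finset.mem_inter.2 ⟨(mem_sit M hM _ _).2 hc, haO⟩)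
    · push Not at hO
      rw [en_vac hV (fun l hl => (hvac l hl).1) hO, en_vac hV (fun l hl => (hvac l hl).2) hO]
      exact ⟨hε0, hε0⟩
  have hp1 := hp η fun τ hτ => (hfix τ fun a ha => ⟨hbal' (hτ a ha).1, (hτ a ha).2⟩).1
  have hp2 := hp η' fun τ hτ => (hfix τ fun a ha => ⟨hbal' (hτ a ha).1, (hτ a ha).2⟩).2
  -- energies around `Λ2`
  have hrng : ∀ X : Cf N L, (agr Λs X η ∨ agr Λs X η') → ¬ (thr ≤ ∑ τ ∈ T, en k X τ) →
      ∀ τ ∈ rng Λ2, en k X τ ≤ e₁ := by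
    intro X hX hnb τ hτ
    rw [rng, Finset.mem_filter] at hτ
    obtain ⟨-, hτ⟩ := hτ
    have hsub : ∀ a ∈ cor τ, a ∈ bal (R₁ + 1) B := fun a ha => by
      obtain ⟨c, hc, hac⟩ := (mem_pls _ _).1 (hτ a ha).1
      obtain ⟨d, hd, hcd⟩ := (mem_bal _ _ _).1 (Finset.mem_inter.1 hc).2
      have := Nb_Nb hac hcd
      rw [add_comm] at this
      exact (mem_bal _ _ _).2 ⟨d, hd, this⟩
    by_cases htouch : ∃ a ∈ cor τ, a ∈ Λs
    · obtain ⟨a, ha, haΛ⟩ := htouch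
      have h1 : τ ∈ T := (mem_tml _ _).2 ⟨a, ha, Finset.mem_inter.2
        ⟨bal_mono (by omega) B (hsub a ha), haΛ⟩⟩
      have h2 := Finset.single_le_sum (f := fun τ => en k X τ) (fun τ _ => en_nonneg _ _ _) h1
      have h3 := not_le.1 hnb
      linarith
    · push Not at htouch
      have h1 : ∀ a ∈ cor τ, a ∈ sit M (Nb s b) ∧ a ∉ Λs := fun a ha =>
        ⟨hbalsM (bal_mono (by omega) B (hsub a ha)), htouch a ha⟩
      have h2 := hfix τ h1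
      rcases hX with h3 | h3
      · rw [en_agr h3 htouch]
        linarith [h2.1]
      · rw [en_agr h3 htouch]
        linarith [h2.2]
  -- the comparison inside
  set r' : ℝ := cM * Λ2.card * (Λ2.card * e₁ + t) with hr'
  have hr'0 : 0 ≤ r' := by
    have : 0 < cM := by linarith
    positivity
  have hr0 : 0 ≤ r := by rw [hr]; positivity
  have hK2 : 1 ≤ 2000 * cM * cH := by nlinarith [one_le_mul_of_one_le_of_one_le hcM hcH]
  have hr'r : r' ≤ 2000 * cM * cH * r := by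
    rw [hr]
    exact PkgZ1u.num3 hcH hcM hE0 hx (by linarith) ht (by linarith) he₁0 he₁b (by positivity) hc2s'
  have hL0 : (0 : ℝ) < L := by exact_mod_cast Nat.pos_of_ne_zero (NeZero.ne L)
  have hp₁0 : 0 ≤ p₁ := by positivity
  have h4p : 4 * (s : ℝ) * M * (Real.exp (-β * t) * (E * β) ^ (d * (s * M) ^ 2)) = 4 * p₁ := by
    rw [hp₁]
    ring
  rw [h4p]
  by_cases hcase : r' ≤ 1 / κ
  swap
  · -- trivial case
    have h1 := (hker01 Λs F hF hF1 η).2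
    have h2 := (hker01 Λs F hF hF1 η').1
    have h3 := PkgZ1u.num5 (y := (M : ℝ)) (W := Real.exp (-(cm / 4) * M / L)) (Cp := Cp) hK2 hκ hE2 hβ1 hy
      hr0 hr'r (not_le.1 hcase) (Real.exp_pos _).le
    linarith
  set δ' : ℝ := cM * Λ2.card * (β * (r' * Real.sqrt r' + Real.exp (-cm * R₁ / L) * r') +
        Real.exp (-β / κ)) + 2 * (Real.exp (-β * t) * (cM * β) ^ (dM * Λ2.card)) with hδ'
  have hδ'0 : 0 ≤ δ' := by
    have h0 : 0 < cM := by linarith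
    positivity
  have hBΛ2 : B ⊆ Λ2 := Finset.subset_inter hBΛ (sub_bal _ _)
  have hloc : ∀ l : Lk L, l ∉ Frl L Λ2 → (∀ a ∈ st l, a ∈ bal R₁ B) →
      (l ∉ Frl L Λs ∧ η l = η' l) := by
    intro l hl hl2
    have h1 : ∀ a ∈ st l, a ∉ Λs := fun a ha hc =>
      hl ((mem_Frl _ _).2 ⟨a, ha, Finset.mem_inter.2 ⟨hc, hl2 a ha⟩⟩)
    refine ⟨not_Frl h1, hag' l fun a ha haO => ⟨?_, fun hc => ?_⟩⟩
    · refine PkgZ1.Nb_mono (r := 1) (by norm_num) ((mem_sit M hM _ _).1 (hbalM ?_))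
      exact bal_mono (by omega) B (hl2 a ha)
    · exact h1 a ha (Finset.mem_inter.2 ⟨(mem_sit M hM _ _).2 hc, haO⟩)
  have hFd' := md'_dep hM hR1' η hFd
  have hcmp : ∀ ξ ξ' : Cf N L, ¬ (thr ≤ ∑ τ ∈ T, en k (glue (S.Fr Λs) ξ η) τ) →
      ¬ (thr ≤ ∑ τ ∈ T, en k (glue (S.Fr Λs) ξ' η') τ) →
      G (glue (S.Fr Λs) ξ η) ≤ G (glue (S.Fr Λs) ξ' η') + δ' := by
    intro ξ ξ' h1 h2
    have := hMM Λ2 B R₁ e₁ t r' he₁0 ht hBΛ2 Finset.inter_subset_right rfl hcase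
      (glue (S.Fr Λs) ξ η) (glue (S.Fr Λs) ξ' η') (fun l hl hl2 => by
        obtain ⟨h3, h4⟩ := hloc l hl hl2
        exact (agr_glue Λs ξ η l h3).trans (h4.trans (agr_glue Λs ξ' η' l h3).symm))
      (fun τ hτ => ⟨hrng _ (Or.inl (agr_glue Λs ξ η)) h1 τ hτ,
        hrng _ (Or.inr (agr_glue Λs ξ' η')) h2 τ hτ⟩) F' hF'm hF'1 hFd'
    rw [hδ', ← add_assoc]
    exact this
  have hfin := compare hF5 S (hm N) Λs G hGm hG1 (fun X => thr ≤ ∑ τ ∈ T, en k X τ) hbad hδ'0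
    η η' hp1 hp2 hcmp
  rw [hk1, hk2, hcons, hcons]
  refine hfin.trans ?_
  have hR4 : (M : ℝ) ≤ 4 * R₁ := by
    have h1 : M ≤ 4 * R₁ := by omega
    exact_mod_cast h1
  have hn4 := PkgZ1u.num4 (cM := cM) (K2 := 2000 * cM * cH) (κ := κ) (Cp := Cp) (E := E) (y := (M : ℝ))
    (W := Real.exp (-(cm / 4) * M / L)) (Q := Real.exp (-cm * R₁ / L))
    (m := (Λ2.card : ℝ)) hcM hK2 (by linarith) hCp hE3 hβ hr0 hr'0 hr'r (Real.exp_pos _).le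
    (Real.exp_pos _).le (exp3 hcm hL0 hR4) (by positivity) hc2'
  have hcME : cM ≤ E := by
    have h1 : 1 ≤ (2000 * cM * cH) ^ 2 := one_le_pow₀ hK2
    nlinarith
  have hpow2 : Real.exp (-β * t) * (cM * β) ^ (dM * Λ2.card) ≤ p₁ := by
    have h1 : (cM * β) ^ (dM * Λ2.card) ≤ (E * β) ^ (d * (s * M) ^ 2) := by
      refine pow_le_aux (one_le_mul_of_one_le_of_one_le hcM hβ1) (by gcongr) ?_
      calc dM * Λ2.card ≤ dM * (9 * (s * M) ^ 2) := Nat.mul_le_mul_left _ hc2s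
        _ = 9 * dM * (s * M) ^ 2 := by ring
        _ ≤ d * (s * M) ^ 2 := Nat.mul_le_mul_right _ (by omega)
    have h2 : 0 ≤ Real.exp (-β * t) * (E * β) ^ (d * (s * M) ^ 2) := by
      have : 0 < E := by linarith
      positivity
    calc Real.exp (-β * t) * (cM * β) ^ (dM * Λ2.card) ≤
          Real.exp (-β * t) * (E * β) ^ (d * (s * M) ^ 2) := by gcongr
      _ ≤ s * M * (Real.exp (-β * t) * (E * β) ^ (d * (s * M) ^ 2)) := le_mul_of_one_le_left h2 hx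
  linarith

end T2H01.SE.PkgZOu

namespace T2H01.SE

open T2H02.TT T2H02.TT.PkgZ1 T2H02.TT.PkgZ1u

theorem pZOu (hF3 : S_F3) (hF5 : S_F5) (hH : S_Hu) (hM : S_Mu) (hVL : S_VL) : S_ZOu := by
  intro N k hN hk P Q hPQ
  obtain ⟨CH, KH, DH, hCH, hH⟩ := hH N k hN hk
  obtain ⟨CM, cm, KM, DM, hCM, hcm, hMM⟩ := hM N k hN hk
  refine ⟨4 * 10 ^ 7 * CM ^ 4 * CH ^ 2, cm / 4, 3 * KM + 2 * KH, 25 * (DH + DM), ?_,
    by positivity, ?_⟩
  · have h1 : 1 ≤ CM ^ 4 := one_le_pow₀ hCM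
    have h2 : 1 ≤ CH ^ 2 := one_le_pow₀ hCH
    have h3 := one_le_mul_of_one_le_of_one_le h1 h2
    nlinarith
  intro L _ β hβ hβ1 M s hM0 t ε r h8 hs ht hε hr hr1 Ω
  obtain ⟨-, -, hV⟩ := hVL N k L hN hk P Q hPQ
  have hL1 : (1 : ℝ) ≤ L := by exact_mod_cast Nat.pos_of_ne_zero (NeZero.ne L)
  set a : ℝ := (L : ℝ) ^ KH with ha
  set c : ℝ := (L : ℝ) ^ KM with hc
  have ha1 : 1 ≤ a := one_le_pow₀ hL1
  have hc1 : 1 ≤ c := one_le_pow₀ hL1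
  set E : ℝ := 4 * 10 ^ 7 * CM ^ 4 * CH ^ 2 * (L : ℝ) ^ (3 * KM + 2 * KH) with hE
  have hEe : E = 4 * 10 ^ 7 * CM ^ 4 * CH ^ 2 * (c ^ 3 * a ^ 2) := by
    rw [hE, ha, hc]
    ring
  have hcH : 1 ≤ CH * a := one_le_mul_of_one_le_of_one_le hCH ha1
  have hcM : 1 ≤ CM * c := one_le_mul_of_one_le_of_one_le hCM hc1
  have hP : ∀ x y : ℝ, 1 ≤ y → 0 ≤ x → x ≤ x * y := fun x y hy hx => le_mul_of_one_le_right hx hy
  have hE1 : 75 * (CH * a) ≤ E := by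
    have h0 : 0 ≤ CH * a := by linarith
    have h1 : E = CH * a * (4 * 10 ^ 7 * (CM ^ 4 * CH * (c ^ 3 * a))) := by
      rw [hEe]; ring
    have h2 : 1 ≤ CM ^ 4 * CH * (c ^ 3 * a) :=
      one_le_mul_of_one_le_of_one_le (one_le_mul_of_one_le_of_one_le (one_le_pow₀ hCM) hCH)
        (one_le_mul_of_one_le_of_one_le (one_le_pow₀ hc1) ha1)
    rw [h1]
    nlinarith
  have hE2 : (CM * (2000 * (CM * c) * (CH * a))) ^ 2 ≤ E := by
    have h1 : (CM * (2000 * (CM * c) * (CH * a))) ^ 2 =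
        4 * 10 ^ 6 * (CM ^ 4 * CH ^ 2 * (c ^ 2 * a ^ 2)) := by ring
    have h2 : E = 4 * 10 ^ 6 * (CM ^ 4 * CH ^ 2 * (c ^ 2 * a ^ 2)) * (10 * c) := by
      rw [hEe]; ring
    rw [h1, h2]
    refine le_mul_of_one_le_right ?_ (by linarith)
    have : 0 < CM := by linarith
    have : 0 < CH := by linarith
    positivity
  have hE3 : 9 * (CM * c) * (2000 * (CM * c) * (CH * a)) ^ 2 ≤ E := by
    have h1 : 9 * (CM * c) * (2000 * (CM * c) * (CH * a)) ^ 2 =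
        36 * 10 ^ 6 * (CM ^ 3 * CH ^ 2 * (c ^ 3 * a ^ 2)) := by ring
    have h2 : E = 36 * 10 ^ 6 * (CM ^ 3 * CH ^ 2 * (c ^ 3 * a ^ 2)) * (10 / 9 * CM) := by
      rw [hEe]; ring
    rw [h1, h2]
    refine le_mul_of_one_le_right ?_ (by linarith)
    have : 0 < CM := by linarith
    have : 0 < CH := by linarith
    positivity
  have hCp : CM ≤ 4 * 10 ^ 7 * CM ^ 4 * CH ^ 2 := by
    have h1 : 1 ≤ CM ^ 3 * CH ^ 2 :=
      one_le_mul_of_one_le_of_one_le (one_le_pow₀ hCM) (one_le_pow₀ hCH)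
    have h2 : 4 * 10 ^ 7 * CM ^ 4 * CH ^ 2 = CM * (4 * 10 ^ 7 * (CM ^ 3 * CH ^ 2)) := by ring
    rw [h2]
    nlinarith
  have hd : 25 * (DH * L ^ 2 + DM * L ^ 2) ≤ 25 * (DH + DM) * L ^ 2 := by
    apply le_of_eq
    ring
  refine ⟨fun b η hη => ?_, ?_⟩
  · rw [hε]
    exact PkgZOu.part1 hF5 hN hV hcH hβ hβ1 (hH L β hβ hβ1) hE1 (by omega) M s hM0 hs t ht Ω b η hη
  · intro b Λ hb η η' hvac hag hgd F hF hF1 hFd
    exact PkgZOu.part2 hF3 hF5 hN hV hcH hcM hCM hcm hβ hβ1 (hH L β hβ hβ1) (hMM L β hβ hβ1) hE1 hE2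
      hE3 hCp hd M s hM0 h8 hs t ε r ht hε hr Ω b Λ hb η η' hvac hag hgd F hF hF1 hFd

end T2H01.SE
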