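import Pool.Agent.T2H01.SE.All0
import Pool.Agent.T2H01.SE.VLu
import Pool.Agent.T2H01.SE.VEu
import Pool.Agent.T2H01.SE.VGu
import Pool.Agent.T2H01.SE.VXu
import Pool.Agent.T2H01.SE.VCu
import Pool.Agent.T2H01.SE.VIu
import Pool.Agent.T2H01.SE.VRu
import Pool.Agent.T2H01.SE.VFu
import Pool.Agent.T2H01.SE.VHu
import Pool.Agent.T2H01.SE.VPu
import Pool.Agent.T2H01.SE.ZOu
import Pool.Agent.T2H01.SE.ZDu
import Pool.Agent.T2H01.SE.PCu
import Pool.Agent.T2H01.SE.MAu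
import Pool.Agent.T2H01.SE.MBu
import Pool.Agent.T2H01.SE.WHu
import Pool.Agent.T2H01.SE.WBu
import Pool.Agent.T2H01.SE.WFu
import Pool.Agent.T2H01.SE.WDu
import Pool.Agent.T2H01.SE.TUu
import Pool.Agent.T2H01.SE.UHu
import Pool.Agent.T2H01.SE.UDu
import Pool.Agent.T2H01.SE.UEu
import Pool.Agent.T2H01.SE.UGu
import Pool.Agent.T2H01.SE.UNu
import Pool.Agent.T2H01.SE.DGu

/-!
# The packages which are uniform in `L` together
-/

set_option autoImplicit false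

namespace T2H01.SE

open T2H02.TT

theorem aVLu : S_VLu := pVLu
theorem aVEu : S_VEu := pVEu aVLu aVL
theorem aVGu : S_VGu := pVGu aD1u aJu
theorem aVXu : S_VXu := pVXu aVA aVL aVLu aVN aVGu pEG aYE
theorem aVCu : S_VCu := pVCu aVL aVLu aVXu
theorem aVIu : S_VIu := pVIu pG2 aVLu
theorem aVRu : S_VRu := pVRu aVEu aVCu aVIu aVS aYE
theorem aVFu : S_VFu := pVFu aVA aVRu aVGu aVJ pEG aVS
theorem aVHu : S_VHu := pVHu aHu pF5 aVL aYE
theorem aVPu : S_VPu := pVPu pF3 pF5 pEG aVJ aVFu aVHu aVN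
theorem aZOu : S_ZOu := pZOu pF3 pF5 aHu aMu aVL
theorem aZDu : S_ZDu := pZDu aZOu
theorem aPCu : S_PCu := pPCu pF3 pF5 aXu aZDu
theorem aMAu : S_MAu := pMAu pF2 pF5 pG3u aVL
theorem aMBu : S_MBu := pMBu pF3 pF5 aMAu aPCu
theorem aWHu : S_WHu := pWHu aHu pF5
theorem aWBu : S_WBu := pWBu aWX aWHu aVJ aVFu aVA
theorem aWFu : S_WFu := pWFu aWE aWK aWBu
theorem aWDu : S_WDu := pWDu aWK aWBu aVJ
theorem aTUu : S_TUu := pTUu aTP aWDu aVS
theorem aUHu : S_UHu := pUHu aVPu aZT aRX pRT aMBu pRA aMAu aXD aYE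
theorem aUDu : S_UDu := pUDu pF2 pG3u aVL
theorem aUEu : S_UEu := pUEu pF5 aUC aUDu aPCu
theorem aUGu : S_UGu := pUGu aUEu pUF aUDu
theorem aUNu : S_UNu := pUNu pG3u
theorem aDGu : S_DGu := pDGu aXD aYE aTQ aTUu aUHu pTS aUB aUGu aUI pUJ pUK pUL pUM aUNu

end T2H01.SE
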