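import Pool.Agent.T2H01.SE.Stm11

/-!
# Arithmetic of the grids (package BA)
-/

set_option autoImplicit false

noncomputable section

namespace T2H01.SE

namespace PkgBA

/-- the defining inequalities: `L g ≥ c L' - w > L (g - 1)` -/
theorem g_lo (L L' w : ℕ) [NeZero L] (c : ℤ) : c * L' - w ≤ L * gP L L' w c := by
  have hL : (0 : ℤ) < L := by exact_mod_cast Nat.pos_of_ne_zero (NeZero.ne L)
  have h := Int.mul_ediv_self_le (x := (w : ℤ) - c * L') (k := (L : ℤ)) hL.ne'
  unfold gP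
  linarith

theorem g_hi (L L' w : ℕ) [NeZero L] (c : ℤ) : L * gP L L' w c < c * L' - w + L := by
  have hL : (0 : ℤ) < L := by exact_mod_cast Nat.pos_of_ne_zero (NeZero.ne L)
  have h := Int.lt_mul_ediv_self_add (x := (w : ℤ) - c * L') (k := (L : ℤ)) hL
  unfold gP
  linarith

theorem g_unique (L L' w : ℕ) [NeZero L] (c g : ℤ) (h1 : c * L' - w ≤ L * g)
    (h2 : L * g < c * L' - w + L) : gP L L' w c = g := by
  have hL : (0 : ℤ) < L := by exact_mod_cast Nat.pos_of_ne_zero (NeZero.ne L)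
  have h3 := g_lo L L' w c
  have h4 := g_hi L L' w c
  have h5 : (L : ℤ) * (gP L L' w c - g) < L * 1 := by linarith
  have h6 : (L : ℤ) * (g - gP L L' w c) < L * 1 := by linarith
  have h7 := lt_of_mul_lt_mul_left h5 hL.le
  have h8 := lt_of_mul_lt_mul_left h6 hL.le
  omega

theorem g_step_lo (L L' w : ℕ) [NeZero L] (hLL : L ≤ L') (c : ℤ) :
    gP L L' w c + 1 ≤ gP L L' w (c + 1) := by
  have hL : (0 : ℤ) < L := by exact_mod_cast Nat.pos_of_ne_zero (NeZero.ne L)
  have hLL' : (L : ℤ) ≤ L' := by exact_mod_cast hLL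
  have h1 := g_hi L L' w c
  have h2 := g_lo L L' w (c + 1)
  have h3 : (L : ℤ) * gP L L' w c < L * gP L L' w (c + 1) := by nlinarith
  have := lt_of_mul_lt_mul_left h3 hL.le
  omega


theorem g_step_hi (L L' w : ℕ) [NeZero L] (c : ℤ) :
    gP L L' w (c + 1) - gP L L' w c ≤ (((L' + L - 1) / L : ℕ) : ℤ) := by
  have hL0 : 0 < L := Nat.pos_of_ne_zero (NeZero.ne L)
  have hL : (0 : ℤ) < L := by exact_mod_cast hL0
  have h1 := g_lo L L' w c
  have h2 := g_hi L L' w (c + 1)
  have h3 : (L : ℤ) * (gP L L' w (c + 1) - gP L L' w c) < L' + L := by nlinarith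
  rw [Int.natCast_ediv]
  have h4 : ((L' + L - 1 : ℕ) : ℤ) = (L' : ℤ) + L - 1 := by omega
  rw [h4, Int.le_ediv_iff_mul_le hL]
  linarith

theorem g_s (L L' w : ℕ) [NeZero L] (hLL : L ≤ L') (c : ℤ) :
    gP L L' w c + sP L L' w c = gP L L' w (c + 1) := by
  have h1 := g_step_lo L L' w hLL c
  unfold sP
  omega

theorem s_bd (L L' w : ℕ) [NeZero L] (hLL : L ≤ L') (c : ℤ) :
    1 ≤ sP L L' w c ∧ sP L L' w c ≤ (L' + L - 1) / L := by
  have h1 := g_step_lo L L' w hLL c
  have h2 := g_step_hi L L' w c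
  unfold sP
  constructor
  · omega
  · omega

theorem g_mono (L L' w : ℕ) [NeZero L] (hLL : L ≤ L') : StrictMono (gP L L' w) :=
  strictMono_int_of_lt_succ fun c => by
    have := g_step_lo L L' w hLL c
    omega

theorem g_zero (L L' w : ℕ) [NeZero L] : gP L L' w 0 = -((w / L : ℕ) : ℤ) := by
  unfold gP
  rw [zero_mul, sub_zero, Int.natCast_ediv]

theorem g_period (L L' w : ℕ) [NeZero L] (c : ℤ) : gP L L' w (c + L) = gP L L' w c + L' := by
  have h1 := g_lo L L' w c
  have h2 := g_hi L L' w c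
  apply g_unique
  · nlinarith
  · nlinarith

theorem w_div (L L' w : ℕ) [NeZero L] (hw : w < L') : w / L < L' :=
  lt_of_le_of_lt (Nat.div_le_self w L) hw

theorem g_one (L L' w : ℕ) [NeZero L] (hw : w < L') :
    1 ≤ gP L L' w 1 := by
  have hL : (0 : ℤ) < L := by exact_mod_cast Nat.pos_of_ne_zero (NeZero.ne L)
  have h1 := g_lo L L' w 1
  have hw' : (w : ℤ) < L' := by exact_mod_cast hw
  have h3 : (L : ℤ) * 0 < L * gP L L' w 1 := by nlinarith
  have := lt_of_mul_lt_mul_left h3 hL.le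
  omega

theorem g_one_le (L L' w : ℕ) [NeZero L] (hLL : L ≤ L') (hw : w < L') :
    gP L L' w 1 ≤ L' := by
  have h := g_period L L' w 0
  have h2 : gP L L' w 1 ≤ gP L L' w (0 + L) := by
    apply (g_mono L L' w hLL).monotone
    have : 1 ≤ L := Nat.pos_of_ne_zero (NeZero.ne L)
    omega
  have h3 := g_zero L L' w
  have hnn : (0 : ℤ) ≤ ((w / L : ℕ) : ℤ) := Int.natCast_nonneg _
  omega

/-- third part -/
theorem corner (L L' w : ℕ) [NeZero L] (hLL : L ≤ L') (hw : w < L') :
    w / L < sP L L' w 0 ∧ ∀ (c : ℤ) (a : ℕ), a < sP L L' w c →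
    (gP L L' w c + a = 0 ↔ c = 0 ∧ a = w / L) := by
  have h0 := g_zero L L' w
  have h1 := g_one L L' w hw
  have hnn : (0 : ℤ) ≤ ((w / L : ℕ) : ℤ) := Int.natCast_nonneg _
  have hs0 := g_s L L' w hLL 0
  rw [zero_add] at hs0
  refine ⟨by omega, fun c a ha => ⟨fun h => ?_, fun h => ?_⟩⟩
  · have hsc := g_s L L' w hLL c
    have hc : c = 0 := by
      by_contra hne
      rcases lt_or_gt_of_ne hne with hlt | hgt
      · have : gP L L' w (c + 1) ≤ gP L L' w 0 := (g_mono L L' w hLL).monotone (by omega)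
        omega
      · have : gP L L' w 1 ≤ gP L L' w c := (g_mono L L' w hLL).monotone (by omega)
        omega
    subst hc
    refine ⟨rfl, ?_⟩
    omega
  · obtain ⟨rfl, rfl⟩ := h
    omega

theorem g_ge (L L' w : ℕ) [NeZero L] (hLL : L ≤ L') (n : ℕ) :
    (n : ℤ) + gP L L' w 0 ≤ gP L L' w n := by
  induction n with
  | zero => simp
  | succ n ih =>
    have := g_step_lo L L' w hLL n
    push_cast
    omega

theorem g_le (L L' w : ℕ) [NeZero L] (hLL : L ≤ L') (n : ℕ) :
    gP L L' w (-(n : ℤ)) ≤ -(n : ℤ) + gP L L' w 0 := by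
  induction n with
  | zero => simp
  | succ n ih =>
    have h := g_step_lo L L' w hLL (-((n + 1 : ℕ) : ℤ))
    have h2 : -((n + 1 : ℕ) : ℤ) + 1 = -(n : ℤ) := by push_cast; ring
    rw [h2] at h
    push_cast at h ⊢
    omega

theorem abs_bd (L L' w : ℕ) [NeZero L] (hLL : L ≤ L') (hw : w < L') (c : ℤ) :
    |c| ≤ |gP L L' w c| + L' := by
  have h0 := g_zero L L' w
  have hd := w_div L L' w hw
  have hnn : (0 : ℤ) ≤ ((w / L : ℕ) : ℤ) := Int.natCast_nonneg _
  rcases le_total 0 c with hc | hc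
  · obtain ⟨n, rfl⟩ : ∃ n : ℕ, c = n := ⟨c.toNat, by omega⟩
    have h := g_ge L L' w hLL n
    rw [abs_of_nonneg hc]
    have := le_abs_self (gP L L' w n)
    omega
  · obtain ⟨n, hn⟩ := Int.exists_eq_neg_ofNat hc
    subst hn
    have h := g_le L L' w hLL n
    rw [abs_of_nonpos hc]
    have := neg_abs_le (gP L L' w (-(n : ℤ)))
    omega

theorem val_succ {L : ℕ} [NeZero L] (y : ZMod L) (hy : y ≠ -1) : (y + 1).val = y.val + 1 := by
  have h1 : y.val + 1 < L := by
    have := y.val_lt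
    by_contra h
    apply hy
    have h2 : y.val + 1 = L := by omega
    have h3 : ((y.val + 1 : ℕ) : ZMod L) = 0 := by rw [h2]; simp
    push_cast at h3
    rw [ZMod.natCast_zmod_val] at h3
    exact eq_neg_of_add_eq_zero_left h3
  have h2 : y + 1 = ((y.val + 1 : ℕ) : ZMod L) := by
    push_cast
    rw [ZMod.natCast_zmod_val]
  rw [h2, ZMod.val_natCast_of_lt h1]

theorem val_neg_one' {L : ℕ} [NeZero L] : (-1 : ZMod L).val + 1 = L := by
  have h : L = (L - 1) + 1 := by
    have := Nat.pos_of_ne_zero (NeZero.ne L)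
    omega
  obtain ⟨n, rfl⟩ : ∃ n, L = n + 1 := ⟨L - 1, h⟩
  rw [ZMod.val_neg_one]

theorem val_eq {L : ℕ} [NeZero L] (y : ZMod L) (hy : y.val + 1 = L) : y = -1 := by
  have h3 : ((y.val + 1 : ℕ) : ZMod L) = 0 := by rw [hy]; simp
  push_cast at h3
  rw [ZMod.natCast_zmod_val] at h3
  exact eq_neg_of_add_eq_zero_left h3

theorem gT_step (L L' w : ℕ) [NeZero L] [NeZero L'] (hLL : L ≤ L') (y : ZMod L) :
    gT L L' w y + sT L L' w y = gT L L' w (y + 1) := by
  have hs := g_s L L' w hLL ((y.val : ℤ) + 1)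
  have h1 : gT L L' w y + sT L L' w y = ((gP L L' w ((y.val : ℤ) + 1 + 1) - 1 : ℤ) : ZMod L') := by
    unfold gT sT
    rw [← hs]
    push_cast
    ring
  rw [h1]
  unfold gT
  by_cases hy : y = -1
  · have h2 : y + 1 = 0 := by rw [hy]; ring
    have h3 : (y.val : ℤ) + 1 = L := by
      rw [hy]
      exact_mod_cast val_neg_one' (L := L)
    rw [h2, h3, ZMod.val_zero]
    have h4 := g_period L L' w 1
    have h5 : (L : ℤ) + 1 = 1 + L := by ring
    rw [h5, h4]
    push_cast
    simp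
  · rw [val_succ y hy]
    push_cast
    rfl

/-- last part -/
theorem cornerT (L L' w : ℕ) [NeZero L] [NeZero L'] (hLL : L ≤ L') (hw : w < L') :
    w / L < sT L L' w (-1) ∧ ∀ (y : ZMod L) (a : ℕ), a < sT L L' w y →
    (gT L L' w y + a = -1 ↔ y = -1 ∧ a = w / L) := by
  have hLpos : 0 < L := Nat.pos_of_ne_zero (NeZero.ne L)
  have h0 := g_zero L L' w
  have h1 := g_one L L' w hw
  have h1' := g_one_le L L' w hLL hw
  have hd := w_div L L' w hw
  have hnn : (0 : ℤ) ≤ ((w / L : ℕ) : ℤ) := Int.natCast_nonneg _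
  have hp0 := g_period L L' w 0
  have hp1 := g_period L L' w 1
  rw [zero_add] at hp0
  have hm : ((-1 : ZMod L).val : ℤ) + 1 = L := by exact_mod_cast val_neg_one' (L := L)
  have hsm := g_s L L' w hLL ((((-1 : ZMod L).val : ℕ) : ℤ) + 1)
  have e1 : (L : ℤ) + 1 = 1 + L := by ring
  rw [hm, e1, hp1, hp0] at hsm
  refine ⟨?_, fun y a ha => ?_⟩
  · unfold sT
    rw [hm]
    omega
  · have key : gT L L' w y + a = -1 ↔ (L' : ℤ) ∣ gP L L' w ((y.val : ℤ) + 1) + a := by
      rw [← ZMod.intCast_zmod_eq_zero_iff_dvd]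
      unfold gT
      push_cast
      constructor
      · intro h
        linear_combination h
      · intro h
        linear_combination h
    rw [key]
    have hs := g_s L L' w hLL ((y.val : ℤ) + 1)
    have hv := y.val_lt
    have hlo : gP L L' w 1 ≤ gP L L' w ((y.val : ℤ) + 1) := (g_mono L L' w hLL).monotone (by omega)
    have hhi : gP L L' w ((y.val : ℤ) + 1 + 1) ≤ gP L L' w (1 + L) :=
      (g_mono L L' w hLL).monotone (by omega)
    unfold sT at ha
    constructor
    · rintro ⟨t, ht⟩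
      have ht1 : t = 1 := by
        have hpos : (0 : ℤ) < L' * t := by omega
        have hlt : (L' : ℤ) * t < L' * 2 := by omega
        have hL' : (0 : ℤ) < L' := by
          have := Nat.pos_of_ne_zero (NeZero.ne L')
          exact_mod_cast this
        have a1 : 0 < t := by
          by_contra hneg
          push Not at hneg
          have := mul_nonpos_of_nonneg_of_nonpos hL'.le hneg
          omega
        have a2 := lt_of_mul_lt_mul_left hlt hL'.le
        omega
      rw [ht1, mul_one] at ht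
      have hy : (y.val : ℤ) + 1 = L := by
        by_contra hne
        have hle : (y.val : ℤ) + 1 + 1 ≤ L := by omega
        have : gP L L' w ((y.val : ℤ) + 1 + 1) ≤ gP L L' w L := (g_mono L L' w hLL).monotone hle
        omega
      have hy' : y = -1 := val_eq y (by exact_mod_cast hy)
      refine ⟨hy', ?_⟩
      rw [hy] at ht
      omega
    · rintro ⟨rfl, rfl⟩
      rw [hm, hp0, h0]
      exact ⟨1, by push_cast; ring⟩

end PkgBA

open PkgBA in
theorem pBA : S_BA := by
  intro L L' w _ _ hLL hw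
  obtain ⟨c1, c2⟩ := corner L L' w hLL hw
  obtain ⟨d1, d2⟩ := cornerT L L' w hLL hw
  exact ⟨fun c => g_s L L' w hLL c, fun c => s_bd L L' w hLL c, ⟨w / L, c1, c2⟩,
    fun c => abs_bd L L' w hLL hw c, fun y => gT_step L L' w hLL y,
    fun y => s_bd L L' w hLL _, ⟨w / L, d1, d2⟩⟩

end T2H01.SE
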