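import Pool.Agent.T2H01.SE.BA

/-!
# Covering numbers in the plane (package BB)
-/

set_option autoImplicit false

noncomputable section

open scoped ENNReal

namespace T2H01.SE

namespace PkgBB

open PkgBA

theorem inj1 (L L' w : ℕ) [NeZero L] (hLL : L ≤ L') :
    Function.Injective (fun x : Σ c : ℤ, Fin (sP L L' w c) => gP L L' w x.1 + (x.2 : ℕ)) := by
  rintro ⟨c, a⟩ ⟨c', a'⟩ h
  simp only at h
  have h1 := g_s L L' w hLL c
  have h2 := g_s L L' w hLL c'
  have h3 := a.2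
  have h4 := a'.2
  have hc : c = c' := by
    by_contra hne
    rcases lt_or_gt_of_ne hne with hlt | hgt
    · have : gP L L' w (c + 1) ≤ gP L L' w c' := (g_mono L L' w hLL).monotone (by omega)
      omega
    · have : gP L L' w (c' + 1) ≤ gP L L' w c := (g_mono L L' w hLL).monotone (by omega)
      omega
  subst hc
  have ha : a = a' := Fin.ext (by omega)
  rw [ha]

theorem part1 (L L' w : ℕ) [NeZero L] (hLL : L ≤ L') (g : ℤ → ℝ≥0∞) :
    ∑' c : ℤ, ∑ a ∈ Finset.range (sP L L' w c), g (gP L L' w c + a) ≤ ∑' p, g p := by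
  have h1 : ∀ c : ℤ, ∑ a ∈ Finset.range (sP L L' w c), g (gP L L' w c + a) =
      ∑' a : Fin (sP L L' w c), g (gP L L' w c + (a : ℕ)) := by
    intro c
    rw [tsum_fintype, Finset.sum_range]
  simp only [h1]
  rw [← ENNReal.tsum_sigma' (fun x : Σ c : ℤ, Fin (sP L L' w c) => g (gP L L' w x.1 + (x.2 : ℕ)))]
  exact ENNReal.tsum_comp_le_tsum_of_injective (inj1 L L' w hLL) g

/-- the second component -/
theorem res_lt (L L' w : ℕ) [NeZero L] (c : ℤ) : (L * gP L L' w c - (c * L' - w)).toNat < L := by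
  have h1 := g_lo L L' w c
  have h2 := g_hi L L' w c
  omega

def phi (L L' : ℕ) [NeZero L] (x : Fin L' × ℤ) : ℤ × Fin L :=
  (gP L L' x.1 x.2, ⟨(L * gP L L' x.1 x.2 - (x.2 * L' - (x.1 : ℕ))).toNat, res_lt L L' x.1 x.2⟩)

theorem phi_inj (L L' : ℕ) [NeZero L] : Function.Injective (phi L L') := by
  rintro ⟨w, c⟩ ⟨w', c'⟩ h
  unfold phi at h
  simp only [Prod.mk.injEq, Fin.mk.injEq] at h
  obtain ⟨h1, h2⟩ := h
  have a1 := g_lo L L' w c
  have a2 := g_lo L L' w' c'
  rw [h1] at h2 a1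
  have h3 : c * L' - (w : ℕ) = c' * L' - (w' : ℕ) := by omega
  have h4 : (c - c') * L' = (w : ℤ) - (w' : ℕ) := by
    push_cast
    push_cast at h3
    linarith
  have hw := w.2
  have hw' := w'.2
  have hL' : (0 : ℤ) < L' := by omega
  have hc : c = c' := by
    have b1 : (c - c') * L' < 1 * L' := by rw [h4]; omega
    have b2 : (-1) * (L' : ℤ) < (c - c') * L' := by rw [h4]; omega
    have c1 := lt_of_mul_lt_mul_right b1 hL'.le
    have c2 := lt_of_mul_lt_mul_right b2 hL'.le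
    omega
  subst hc
  have : w = w' := Fin.ext (by
    rw [sub_self, zero_mul] at h4
    omega)
  rw [this]

theorem part2 (L L' : ℕ) [NeZero L] (g : ℤ → ℝ≥0∞) :
    ∑ w ∈ Finset.range L', ∑' c : ℤ, g (gP L L' w c) ≤ L * ∑' p, g p := by
  have h1 : ∑ w ∈ Finset.range L', ∑' c : ℤ, g (gP L L' w c) =
      ∑' x : Fin L' × ℤ, (fun y : ℤ × Fin L => g y.1) (phi L L' x) := by
    rw [Finset.sum_range, ENNReal.tsum_prod', tsum_fintype]
    rfl
  rw [h1]
  refine le_trans (ENNReal.tsum_comp_le_tsum_of_injective (phi_inj L L')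
    (fun y : ℤ × Fin L => g y.1)) ?_
  rw [ENNReal.tsum_prod', ← ENNReal.tsum_mul_left]
  refine le_of_eq (tsum_congr fun p => ?_)
  rw [tsum_fintype]
  change ∑ _b : Fin L, g p = _
  rw [Finset.sum_const, Finset.card_univ, Fintype.card_fin, nsmul_eq_mul]

end PkgBB

open PkgBB in
theorem pBB (_hBA : S_BA) : S_BB := by
  intro L L' _ _ hLL g
  refine ⟨?_, part2 L L' g⟩
  refine le_trans (Finset.sum_le_card_nsmul _ _ _ fun w _ => part1 L L' w hLL g) ?_
  rw [Finset.card_range, nsmul_eq_mul]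

end T2H01.SE
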