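import Pool.Agent.T2H01.SE.Stm11

/-! # Package BC : covering numbers in the torus (helper57) -/

set_option autoImplicit false

noncomputable section

open MeasureTheory Matrix
open scoped Matrix.Norms.Frobenius ENNReal

namespace T2H01.SE

open T2H02.TT

namespace PkgBC

theorem gP_add_L (L L' w : ℕ) [NeZero L] (c : ℤ) : gP L L' w (c + L) = gP L L' w c + L' := by
  unfold gP
  have hL : (L : ℤ) ≠ 0 := by exact_mod_cast NeZero.ne L
  have e : (w : ℤ) - (c + L) * L' = (w - c * L') + (-(L' : ℤ)) * L := by ring
  rw [e, Int.add_mul_ediv_right _ _ hL]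
  ring

theorem gP_rem (L L' w : ℕ) (c : ℤ) : (L : ℤ) * gP L L' w c = c * L' - w + ((w : ℤ) - c * L') % L := by
  unfold gP
  have h := Int.emod_add_mul_ediv ((w : ℤ) - c * L') L
  linarith

/-- monotonicity -/
theorem gP_mono {L L' w : ℕ} (h : ∀ c, gP L L' w c + sP L L' w c = gP L L' w (c + 1)) {c c' : ℤ} (hc : c ≤ c') :
    gP L L' w c ≤ gP L L' w c' := by
  obtain ⟨n, rfl⟩ : ∃ n : ℕ, c' = c + n := ⟨(c' - c).toNat, by omega⟩
  induction n with
  | zero => simp
  | succ n ih =>
    have h1 := ih (by omega)
    have h2 := h (c + n)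
    have e : c + ((n + 1 : ℕ) : ℤ) = c + n + 1 := by push_cast; ring
    rw [e]
    omega

/-- the cells are disjoint -/
theorem cell_unique {L L' w : ℕ} (h : ∀ c, gP L L' w c + sP L L' w c = gP L L' w (c + 1)) {c c' : ℤ} {a a' : ℕ}
    (ha : a < sP L L' w c) (ha' : a' < sP L L' w c') (e : gP L L' w c + a = gP L L' w c' + a') : c = c' ∧ a = a' := by
  have h1 := h c
  have h2 := h c'
  have hcc : c = c' := by
    rcases lt_trichotomy c c' with h3 | h3 | h3
    · have := gP_mono h (show c + 1 ≤ c' by omega)
      omega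
    · exact h3
    · have := gP_mono h (show c' + 1 ≤ c by omega)
      omega
  subst hcc
  exact ⟨rfl, by omega⟩

end PkgBC

open PkgBC in
theorem pBC (hBA : S_BA) : S_BC := by
  classical
  intro L L' _ _ hLL g
  have hL0 : 0 < L := Nat.pos_of_ne_zero (NeZero.ne L)
  have hL'0 : 0 < L' := Nat.pos_of_ne_zero (NeZero.ne L')
  constructor
  · -- for every offset
    have key : ∀ w ∈ Finset.range L', ∑ y : ZMod L, ∑ a ∈ Finset.range (sT L L' w y), g (gT L L' w y + a) ≤
        ∑ p, g p := by
      intro w hw
      rw [Finset.mem_range] at hw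
      obtain ⟨h1, h2, -⟩ := hBA L L' w hLL hw
      rw [Finset.sum_sigma']
      set S : Finset ((_ : ZMod L) × ℕ) := (Finset.univ : Finset (ZMod L)).sigma
        (fun y => Finset.range (sT L L' w y)) with hS
      have hinj : Set.InjOn (fun x : (_ : ZMod L) × ℕ => gT L L' w x.1 + (x.2 : ZMod L')) S := by
        rintro ⟨y, a⟩ hx ⟨y', a'⟩ hx' e
        rw [Finset.mem_coe, hS, Finset.mem_sigma, Finset.mem_range] at hx hx'
        obtain ⟨-, hx⟩ := hx
        obtain ⟨-, hx'⟩ := hx'
        simp only at hx hx' e
        unfold sT at hx hx'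
        unfold gT at e
        have hy : y.val < L := ZMod.val_lt y
        have hy' : y'.val < L := ZMod.val_lt y'
        have e1 : ((gP L L' w ((y.val : ℤ) + 1) - 1 + a : ℤ) : ZMod L') =
            ((gP L L' w ((y'.val : ℤ) + 1) - 1 + a' : ℤ) : ZMod L') := by
          push_cast
          push_cast at e
          exact e
        rw [ZMod.intCast_eq_intCast_iff] at e1
        have m1 := gP_mono h1 (show (1 : ℤ) ≤ (y.val : ℤ) + 1 by omega)
        have m2 := gP_mono h1 (show (1 : ℤ) ≤ (y'.val : ℤ) + 1 by omega)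
        have m3 := gP_mono h1 (show (y.val : ℤ) + 1 + 1 ≤ 1 + L by omega)
        have m4 := gP_mono h1 (show (y'.val : ℤ) + 1 + 1 ≤ 1 + L by omega)
        rw [gP_add_L] at m3 m4
        have n1 := h1 ((y.val : ℤ) + 1)
        have n2 := h1 ((y'.val : ℤ) + 1)
        have e2 : gP L L' w ((y.val : ℤ) + 1) - 1 + a = gP L L' w ((y'.val : ℤ) + 1) - 1 + a' := by
          obtain ⟨t, ht⟩ := e1.symm.dvd
          have hL'z : (0 : ℤ) < L' := by exact_mod_cast hL'0
          have t0 : t = 0 := by
            have u1 : (L' : ℤ) * t < L' := by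
              rw [← ht]
              omega
            have u2 : -(L' : ℤ) < L' * t := by
              rw [← ht]
              omega
            have u3 : t < 1 := by nlinarith
            have u4 : -1 < t := by nlinarith
            omega
          rw [t0] at ht
          omega
        obtain ⟨e3, e4⟩ := cell_unique h1 hx hx' (by omega)
        have e5 : y.val = y'.val := by omega
        have e6 : y = y' := ZMod.val_injective L e5
        subst e6
        subst e4
        rfl
      have e := Finset.sum_image (f := g) (s := S) (g := fun x : (_ : ZMod L) × ℕ => gT L L' w x.1 + (x.2 : ZMod L')) hinj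
      rw [← e]
      exact Finset.sum_le_sum_of_subset (Finset.subset_univ _)
    refine (Finset.sum_le_sum key).trans (le_of_eq ?_)
    rw [Finset.sum_const, Finset.card_range, nsmul_eq_mul]
  · rw [← Finset.sum_product']
    set S : Finset (ℕ × ZMod L) := Finset.range L' ×ˢ (Finset.univ : Finset (ZMod L)) with hS
    set φ : ℕ × ZMod L → ZMod L' × ℕ := fun x =>
      (gT L L' x.1 x.2, (((x.1 : ℤ) - ((x.2.val : ℤ) + 1) * L') % L).toNat) with hφ
    have hLz : (0 : ℤ) < L := by exact_mod_cast hL0
    have hL'z : (0 : ℤ) < L' := by exact_mod_cast hL'0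
    have hinj : Set.InjOn φ S := by
      rintro ⟨w, y⟩ hx ⟨w', y'⟩ hx' e
      rw [Finset.mem_coe, hS, Finset.mem_product, Finset.mem_range] at hx hx'
      obtain ⟨hw, -⟩ := hx
      obtain ⟨hw', -⟩ := hx'
      simp only at hw hw'
      rw [hφ] at e
      simp only [Prod.mk.injEq] at e
      obtain ⟨e1, e2⟩ := e
      unfold gT at e1
      rw [ZMod.intCast_eq_intCast_iff] at e1
      obtain ⟨t, ht⟩ := e1.symm.dvd
      have r1 := Int.emod_nonneg ((w : ℤ) - ((y.val : ℤ) + 1) * L') hLz.ne'
      have r2 := Int.emod_nonneg ((w' : ℤ) - ((y'.val : ℤ) + 1) * L') hLz.ne'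
      have g1 := gP_rem L L' w ((y.val : ℤ) + 1)
      have g2 := gP_rem L L' w' ((y'.val : ℤ) + 1)
      have e3 : ((w : ℤ) - ((y.val : ℤ) + 1) * L') % L = ((w' : ℤ) - ((y'.val : ℤ) + 1) * L') % L := by omega
      have hy : y.val < L := ZMod.val_lt y
      have hy' : y'.val < L := ZMod.val_lt y'
      have e4 : (L : ℤ) * (L' * t) = (((y.val : ℤ) + 1) * L' - w) - (((y'.val : ℤ) + 1) * L' - w') := by
        rw [← ht]
        linarith
      -- equal offsets
      have e5 : (w : ℤ) - w' = L' * ((y.val : ℤ) - y'.val - L * t) := by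
        linarith
      have e6 : (y.val : ℤ) - y'.val - L * t = 0 := by
        have u1 : (L' : ℤ) * ((y.val : ℤ) - y'.val - L * t) < L' := by
          rw [← e5]; omega
        have u2 : -(L' : ℤ) < L' * ((y.val : ℤ) - y'.val - L * t) := by
          rw [← e5]; omega
        have u3 : ((y.val : ℤ) - y'.val - L * t) < 1 := by nlinarith
        have u4 : -1 < ((y.val : ℤ) - y'.val - L * t) := by nlinarith
        omega
      rw [e6, mul_zero] at e5
      have e7 : w = w' := by omega
      have t0 : t = 0 := by
        have u1 : (L : ℤ) * t < L := by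
          have : (L : ℤ) * t = (y.val : ℤ) - y'.val := by linarith
          rw [this]; omega
        have u2 : -(L : ℤ) < L * t := by
          have : (L : ℤ) * t = (y.val : ℤ) - y'.val := by linarith
          rw [this]; omega
        have u3 : t < 1 := by nlinarith
        have u4 : -1 < t := by nlinarith
        omega
      rw [t0, mul_zero, sub_zero] at e6
      have e8 : y.val = y'.val := by omega
      have e9 : y = y' := ZMod.val_injective L e8
      rw [e7, e9]
    have e := Finset.sum_image (f := fun x : ZMod L' × ℕ => g x.1) (s := S) (g := φ) hinj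
    have e' : ∑ x ∈ S, g (gT L L' x.1 x.2) = ∑ x ∈ S.image φ, g x.1 := by
      rw [e]
    rw [e']
    have hsub : S.image φ ⊆ (Finset.univ : Finset (ZMod L')) ×ˢ Finset.range L := by
      intro x hx
      rw [Finset.mem_image] at hx
      obtain ⟨⟨w, y⟩, -, rfl⟩ := hx
      rw [Finset.mem_product, Finset.mem_range]
      refine ⟨Finset.mem_univ _, ?_⟩
      simp only [hφ]
      have r1 := Int.emod_nonneg ((w : ℤ) - ((y.val : ℤ) + 1) * L') hLz.ne'
      have r2 := Int.emod_lt_of_pos ((w : ℤ) - ((y.val : ℤ) + 1) * L') hLz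
      omega
    refine (Finset.sum_le_sum_of_subset hsub).trans (le_of_eq ?_)
    rw [Finset.sum_product]
    simp only [Finset.sum_const, Finset.card_range, nsmul_eq_mul]
    rw [← Finset.mul_sum]

end T2H01.SE
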