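import Pool.Agent.T2H01.SE.Stm11
import Pool.Agent.T2H01.SE.XD

/-!
# Package BD : blocked plaquettes
-/

set_option autoImplicit false
set_option linter.unusedVariables false

noncomputable section

open MeasureTheory Matrix
open scoped Matrix.Norms.Frobenius ENNReal

namespace T2H01.SE.PkgBD

open T2H02.TT PkgXD

/-- products of a twist over a rectangle -/
lemma prod_rect {f : ℕ → ℕ → ℂ} {c : ℂ} {m n a₀ b₀ : ℕ} {A B : Prop} [Decidable A] [Decidable B]
    (ha : A → a₀ < m) (hb : B → b₀ < n)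
    (h : ∀ a < m, ∀ b < n, f a b = if (A ∧ a = a₀) ∧ (B ∧ b = b₀) then c else 1) :
    ∏ a ∈ Finset.range m, ∏ b ∈ Finset.range n, f a b = if A ∧ B then c else 1 := by
  by_cases hAB : A ∧ B
  · rw [if_pos hAB, Finset.prod_eq_single a₀]
    · rw [Finset.prod_eq_single b₀]
      · rw [h a₀ (ha hAB.1) b₀ (hb hAB.2), if_pos ⟨⟨hAB.1, rfl⟩, ⟨hAB.2, rfl⟩⟩]
      · intro b hb' hne
        rw [h a₀ (ha hAB.1) b (Finset.mem_range.1 hb'), if_neg (fun h' => hne h'.2.2)]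
      · intro h'; exact absurd (Finset.mem_range.2 (hb hAB.2)) h'
    · intro a ha' hne
      refine Finset.prod_eq_one fun b hb' => ?_
      rw [h a (Finset.mem_range.1 ha') b (Finset.mem_range.1 hb'), if_neg (fun h' => hne h'.1.2)]
    · intro h'; exact absurd (Finset.mem_range.2 (ha hAB.1)) h'
  · rw [if_neg hAB]
    refine Finset.prod_eq_one fun a ha' => Finset.prod_eq_one fun b hb' => ?_
    rw [h a (Finset.mem_range.1 ha') b (Finset.mem_range.1 hb'), if_neg]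
    exact fun h' => hAB ⟨h'.1.1, h'.2.1⟩

variable {L L' : ℕ}

lemma sg0 (w : ℕ × ℕ × ℕ × ℕ) (p : Pt L) : sg L L' w p 0 = sP L L' w.1 p.1.1 := rfl
lemma sg1 (w : ℕ × ℕ × ℕ × ℕ) (p : Pt L) : sg L L' w p 1 = sP L L' w.2.1 p.1.2 := rfl
lemma sg2 (w : ℕ × ℕ × ℕ × ℕ) (p : Pt L) : sg L L' w p 2 = sT L L' w.2.2.1 p.2.1 := rfl
lemma sg3 (w : ℕ × ℕ × ℕ × ℕ) (p : Pt L) : sg L L' w p 3 = sT L L' w.2.2.2 p.2.2 := rfl

lemma twz23 (N k : ℕ) (n : ℤ) (q : Pt L) : twz N k n 2 3 q = tw N k q.2 := by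
  unfold twz
  rw [if_pos ⟨rfl, rfl⟩]

lemma twz01 (N k : ℕ) (n : ℤ) (q : Pt L) : twz N k n 0 1 q = oz N (dl 0 n q.1) := by
  unfold twz
  rw [if_neg (by decide), if_pos ⟨rfl, rfl⟩]

end T2H01.SE.PkgBD

namespace T2H01.SE

open T2H02.TT PkgXD PkgBD

theorem pBD (hBA : S_BA) (hXA : S_XA) : S_BD := by
  intro L L' _ _ hLL w hw
  obtain ⟨w0, w1, w2, w3⟩ := w
  simp only [WW, Finset.mem_product, Finset.mem_range] at hw
  obtain ⟨hw0, hw1, hw2, hw3⟩ := hw
  obtain ⟨a01, a02, a03, -, -, -, -⟩ := hBA L L' w0 hLL hw0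
  obtain ⟨a11, a12, a13, -, -, -, -⟩ := hBA L L' w1 hLL hw1
  obtain ⟨-, -, -, -, a21, a22, a23⟩ := hBA L L' w2 hLL hw2
  obtain ⟨-, -, -, -, a31, a32, a33⟩ := hBA L L' w3 hLL hw3
  have h1 : ∀ (p : Pt L) (i : Fin 4), mv i (sg L L' (w0, w1, w2, w3) p i) (gq L L' (w0, w1, w2, w3) p) =
      gq L L' (w0, w1, w2, w3) (nx p i) := by
    rintro ⟨⟨x1, x2⟩, ⟨y1, y2⟩⟩ i
    fin_cases i
    · change mv 0 (sP L L' w0 x1) ((gP L L' w0 x1, gP L L' w1 x2), (gT L L' w2 y1, gT L L' w3 y2)) =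
        gq L L' (w0, w1, w2, w3) (nx ((x1, x2), (y1, y2)) 0)
      rw [mv0, nx0]
      simp only [gq, Prod.mk_add_mk, add_zero]
      rw [a01]
    · change mv 1 (sP L L' w1 x2) ((gP L L' w0 x1, gP L L' w1 x2), (gT L L' w2 y1, gT L L' w3 y2)) =
        gq L L' (w0, w1, w2, w3) (nx ((x1, x2), (y1, y2)) 1)
      rw [mv1, nx1]
      simp only [gq, Prod.mk_add_mk, add_zero]
      rw [a11]
    · change mv 2 (sT L L' w2 y1) ((gP L L' w0 x1, gP L L' w1 x2), (gT L L' w2 y1, gT L L' w3 y2)) =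
        gq L L' (w0, w1, w2, w3) (nx ((x1, x2), (y1, y2)) 2)
      rw [mv2, nx2]
      simp only [gq, tsh, if_true]
      rw [a21]
    · change mv 3 (sT L L' w3 y2) ((gP L L' w0 x1, gP L L' w1 x2), (gT L L' w2 y1, gT L L' w3 y2)) =
        gq L L' (w0, w1, w2, w3) (nx ((x1, x2), (y1, y2)) 3)
      rw [mv3, nx3]
      simp [gq, tsh, a31]
  have h2 : ∀ (p : Pt L) (i j : Fin 4), i ≠ j →
      sg L L' (w0, w1, w2, w3) (nx p i) j = sg L L' (w0, w1, w2, w3) p j := by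
    rintro ⟨⟨x1, x2⟩, ⟨y1, y2⟩⟩ i j hij
    fin_cases i <;> fin_cases j <;> first
      | exact absurd rfl hij
      | simp [sg, nx, pe, tsh]
  have h3 : ∀ (N k : ℕ) (n : ℤ) (p : Pt L), ∀ d ∈ dirs,
      ∏ a ∈ Finset.range (sg L L' (w0, w1, w2, w3) p d.1),
        ∏ b ∈ Finset.range (sg L L' (w0, w1, w2, w3) p d.2),
        twz N k n d.1 d.2 (mv d.2 b (mv d.1 a (gq L L' (w0, w1, w2, w3) p))) =
          twz N k n d.1 d.2 p := by
    rintro N k n ⟨⟨x1, x2⟩, ⟨y1, y2⟩⟩ d hd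
    simp only [dirs, Finset.mem_insert, Finset.mem_singleton] at hd
    rcases hd with rfl | rfl | rfl | rfl | rfl | rfl
    · obtain ⟨a₀, ha₀, ha⟩ := a23
      obtain ⟨b₀, hb₀, hb⟩ := a33
      change ∏ a ∈ Finset.range (sT L L' w2 y1), ∏ b ∈ Finset.range (sT L L' w3 y2),
        twz N k n 2 3 (mv 3 b (mv 2 a ((gP L L' w0 x1, gP L L' w1 x2),
          (gT L L' w2 y1, gT L L' w3 y2)))) = twz N k n 2 3 ((x1, x2), (y1, y2))
      rw [prod_rect (A := y1 = -1) (B := y2 = -1) (a₀ := a₀) (b₀ := b₀) (c := om N k)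
        (fun h => by rw [h]; exact ha₀) (fun h => by rw [h]; exact hb₀)]
      · rw [twz23]
        unfold tw
        simp only [Prod.mk.injEq]
      · intro a haL b hbL
        rw [mv2, mv3, twz23]
        unfold tw
        simp only [Prod.mk.injEq, ha y1 a haL, hb y2 b hbL]
    · simp [twz]
    · simp [twz]
    · simp [twz]
    · simp [twz]
    · obtain ⟨a₀, ha₀, ha⟩ := a03
      obtain ⟨b₀, hb₀, hb⟩ := a13
      change ∏ a ∈ Finset.range (sP L L' w0 x1), ∏ b ∈ Finset.range (sP L L' w1 x2),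
        twz N k n 0 1 (mv 1 b (mv 0 a ((gP L L' w0 x1, gP L L' w1 x2),
          (gT L L' w2 y1, gT L L' w3 y2)))) = twz N k n 0 1 ((x1, x2), (y1, y2))
      have key : ∀ u v : ℤ, oz N (dl 0 n (u, v)) = if u = 0 ∧ v = 0 then oz N n else 1 := by
        intro u v
        unfold dl
        have : ((u, v) : Pl) = 0 ↔ (u = 0 ∧ v = 0) := by
          rw [Prod.ext_iff]
          simp
        simp only [this]
        split_ifs
        · rfl
        · exact oz_zero N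
      rw [prod_rect (A := x1 = 0) (B := x2 = 0) (a₀ := a₀) (b₀ := b₀) (c := oz N n)
        (fun h => by rw [h]; exact ha₀) (fun h => by rw [h]; exact hb₀)]
      · rw [twz01, key]
      · intro a haL b hbL
        rw [mv0, mv1, twz01]
        simp only [Prod.mk_add_mk, add_zero]
        rw [key]
        simp only [ha x1 a haL, hb x2 b hbL]
  refine ⟨h1, h2, h3, ?_⟩
  intro N k n X p d hd
  obtain ⟨i, j⟩ := d
  have hij : i ≠ j := by
    rintro rfl
    revert hd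
    revert i
    decide
  set w : ℕ × ℕ × ℕ × ℕ := (w0, w1, w2, w3) with hw
  set m := sg L L' w p i with hm
  set m' := sg L L' w p j with hm'
  set q := gq L L' w p with hq
  set σ := (L' + L - 1) / L with hσ
  have hb : ∀ i : Fin 4, sg L L' w p i ≤ σ := by
    intro i
    obtain ⟨⟨x1, x2⟩, ⟨y1, y2⟩⟩ := p
    fin_cases i
    · exact (a02 x1).2
    · exact (a12 x2).2
    · exact (a22 y1).2
    · exact (a32 y2).2
  have hA := hXA N L' X (twz N k n i j) (twz_norm k n i j) i j m m' q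
  have hdf : df (bk L L' w X) (twz N k n i j p) p i j =
      ((lin X i m q * lin X j m' (mv i m q) : SU N) : Mt N) -
      (∏ a ∈ Finset.range m, ∏ b ∈ Finset.range m', twz N k n i j (mv j b (mv i a q))) •
        ((lin X j m' q * lin X i m (mv j m' q) : SU N) : Mt N) := by
    rw [h3 N k n p (i, j) hd, h1 p i, h1 p j]
    unfold df bk
    simp only [h2 p i j hij, h2 p j i hij.symm]
    rfl
  have e1 : PkgXC.ee k n (bk L L' w X) (i, j) p =
      ‖df (bk L L' w X) (twz N k n i j p) p i j‖ ^ 2 / 2 := rfl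
  rw [e1, hdf]
  have e2 : (∑ a ∈ Finset.range m, ∑ b ∈ Finset.range m',
      ‖df X (twz N k n i j (mv j b (mv i a q))) (mv j b (mv i a q)) i j‖) ^ 2 ≤
      (m : ℝ) * m' * (2 * ∑ a ∈ Finset.range m, ∑ b ∈ Finset.range m',
        PkgXC.ee k n X (i, j) (mv j b (mv i a q))) := by
    refine (sq_sum_le_card_mul_sum_sq).trans ?_
    rw [Finset.card_range, mul_assoc]
    refine mul_le_mul_of_nonneg_left ?_ (Nat.cast_nonneg _)
    rw [Finset.mul_sum, Finset.mul_sum]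
    refine Finset.sum_le_sum fun a _ => ?_
    refine (sq_sum_le_card_mul_sum_sq).trans (le_of_eq ?_)
    rw [Finset.card_range]
    congr 1
    rw [Finset.mul_sum]
    refine Finset.sum_congr rfl fun b _ => ?_
    unfold PkgXC.ee
    ring
  have e3 : 0 ≤ ∑ a ∈ Finset.range m, ∑ b ∈ Finset.range m',
      PkgXC.ee k n X (i, j) (mv j b (mv i a q)) :=
    Finset.sum_nonneg fun a _ => Finset.sum_nonneg fun b _ => PkgXC.ee_nonneg _ _ _ _ _
  have e4 : (m : ℝ) * m' ≤ (σ : ℝ) ^ 2 := by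
    rw [sq]
    have h4 : (m : ℝ) ≤ σ := by exact_mod_cast hb i
    have h5 : (m' : ℝ) ≤ σ := by exact_mod_cast hb j
    gcongr
  have e5 := pow_le_pow_left₀ (norm_nonneg _) hA 2
  have e6 := mul_le_mul_of_nonneg_right e4 e3
  change _ ≤ (σ : ℝ) ^ 2 * ∑ a ∈ Finset.range m, ∑ b ∈ Finset.range m',
      PkgXC.ee k n X (i, j) (mv j b (mv i a q))
  linarith

end T2H01.SE
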