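import Pool.Agent.T2H01.SE.Stm11
import Pool.Agent.T2H01.SE.XD

/-!
# Package BE: blocking of the vacuum (helper74)
-/

set_option autoImplicit false
set_option linter.unusedSectionVars false

noncomputable section

open MeasureTheory Matrix
open scoped Matrix.Norms.Frobenius ENNReal

namespace T2H01.SE

open T2H02.TT

namespace PkgBE

open PkgXD

variable {N L : ℕ} [NeZero L]

lemma mv_succ' (i : Fin 4) (a : ℕ) (p : Pt L) : mv i (a + 1) p = mv i a (nx p i) := by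
  unfold mv
  rw [Function.iterate_succ_apply]

lemma lin_single (X : Cf N L) (i : Fin 4) (P : SU N) (n : ℕ) : ∀ (p : Pt L) (a₀ : ℕ), a₀ < n →
    (∀ a < n, X (mv i a p, i) = if a = a₀ then P else 1) → lin X i n p = P := by
  induction n with
  | zero => intro p a₀ h; omega
  | succ n ih =>
    intro p a₀ h0 h
    unfold lin
    have h1 := h 0 (by omega)
    rw [mv_zero] at h1
    rcases Nat.eq_zero_or_pos a₀ with ha | ha
    · subst ha
      rw [h1, if_pos rfl, lin_one X i n (nx p i) fun a ha => ?_, mul_one]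
      have h2 := h (a + 1) (by omega)
      rw [mv_succ', if_neg (by omega)] at h2
      exact h2
    · rw [h1, if_neg (by omega), one_mul]
      refine ih (nx p i) (a₀ - 1) (by omega) fun a ha' => ?_
      have h2 := h (a + 1) (by omega)
      rw [mv_succ'] at h2
      rw [h2]
      by_cases h3 : a = a₀ - 1
      · rw [if_pos h3, if_pos (by omega)]
      · rw [if_neg h3, if_neg (by omega)]

/-- a line in the vacuum which meets the twisted link exactly if `c` -/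
lemma lin_cond (X : Cf N L) (i : Fin 4) (P : SU N) (n : ℕ) (p : Pt L) (c : Prop) [Decidable c]
    (a₀ : ℕ) (h0 : c → a₀ < n)
    (h : ∀ a < n, X (mv i a p, i) = if c ∧ a = a₀ then P else 1) :
    lin X i n p = if c then P else 1 := by
  by_cases hc : c
  · rw [if_pos hc]
    refine lin_single X i P n p a₀ (h0 hc) fun a ha => ?_
    rw [h a ha]
    simp [hc]
  · rw [if_neg hc]
    refine lin_one X i n p fun a ha => ?_
    rw [h a ha, if_neg (fun h' => hc h'.1)]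

lemma far (hBA : S_BA) {L' : ℕ} [NeZero L'] (hL : L ≤ L') {v : ℕ} (hv : v < L') (c : ℤ) :
    (0 < c → c - L' ≤ gP L L' v c) ∧ (c < 0 → gP L L' v c ≤ c + L') ∧
      gP L L' v c + sP L L' v c = gP L L' v (c + 1) := by
  obtain ⟨h1, h2, ⟨a₀, h3, h3'⟩, h4, -⟩ := hBA L L' v hL hv
  have hm : StrictMono (gP L L' v) := by
    refine strictMono_int_of_lt_succ fun c => ?_
    have := h1 c
    have := (h2 c).1
    omega
  have h0 : gP L L' v 0 + a₀ = 0 := (h3' 0 a₀ h3).2 ⟨rfl, rfl⟩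
  have h5 := h1 0
  have h6 := h4 c
  refine ⟨fun hc => ?_, fun hc => ?_, h1 c⟩
  · have h7 : gP L L' v 1 ≤ gP L L' v c := hm.monotone (by omega)
    have h8 : 0 < gP L L' v c := by
      have : (0 : ℤ) + 1 = 1 := rfl
      rw [this] at h5
      omega
    rw [abs_of_pos hc, abs_of_pos h8] at h6
    omega
  · have h7 : gP L L' v c ≤ gP L L' v 0 := hm.monotone (by omega)
    have h8 : gP L L' v c ≤ 0 := by omega
    rw [abs_of_neg hc, abs_of_nonpos h8] at h6
    omega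

/-- far points stay far (one coordinate fixed) -/
lemma arF {x₁ x₂ g₁ g₂ K L' : ℤ} (hL : 0 ≤ L')
    (h1 : ¬ (-(K + L' + 2) ≤ x₁ ∧ x₁ ≤ K + L' + 2 ∧ -(K + L' + 2) ≤ x₂ ∧ x₂ ≤ K + L' + 2))
    (hK : 0 ≤ K) (f1 : 0 < x₁ → x₁ - L' ≤ g₁) (f2 : x₁ < 0 → g₁ ≤ x₁ + L')
    (g1 : 0 < x₂ → x₂ - L' ≤ g₂) (g2 : x₂ < 0 → g₂ ≤ x₂ + L') :
    ¬ (-K ≤ g₁ ∧ g₁ ≤ K ∧ -K ≤ g₂ ∧ g₂ ≤ K) := by
  rintro ⟨k1, k2, k3, k4⟩
  apply h1
  refine ⟨?_, ?_, ?_, ?_⟩
  · by_contra h
    have := f2 (by omega)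
    omega
  · by_contra h
    have := f1 (by omega)
    omega
  · by_contra h
    have := g2 (by omega)
    omega
  · by_contra h
    have := g1 (by omega)
    omega

/-- points of a segment between far points are far -/
lemma arS {x₁ x₂ g₁ g₁' g₂ z K L' : ℤ} (hL : 0 ≤ L')
    (h1 : ¬ (-(K + L' + 2) ≤ x₁ ∧ x₁ ≤ K + L' + 2 ∧ -(K + L' + 2) ≤ x₂ ∧ x₂ ≤ K + L' + 2))
    (h2 : ¬ (-(K + L' + 2) ≤ x₁ + 1 ∧ x₁ + 1 ≤ K + L' + 2 ∧ -(K + L' + 2) ≤ x₂ ∧
      x₂ ≤ K + L' + 2))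
    (hK : 0 ≤ K) (f1 : 0 < x₁ → x₁ - L' ≤ g₁) (f2 : x₁ + 1 < 0 → g₁' ≤ x₁ + 1 + L')
    (g1 : 0 < x₂ → x₂ - L' ≤ g₂) (g2 : x₂ < 0 → g₂ ≤ x₂ + L') (hz : g₁ ≤ z) (hz' : z ≤ g₁') :
    ¬ (-K ≤ z ∧ z ≤ K ∧ -K ≤ g₂ ∧ g₂ ≤ K) := by
  rintro ⟨k1, k2, k3, k4⟩
  have m3 : -(K + L' + 2) ≤ x₂ := by
    by_contra h
    have := g2 (by omega)
    omega
  have m4 : x₂ ≤ K + L' + 2 := by
    by_contra h
    have := g1 (by omega)
    omega
  have m2 : x₁ ≤ K + L' + 2 := by
    by_contra h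
    have := f1 (by omega)
    omega
  have m1 : x₁ < -(K + L' + 2) := by
    by_contra h
    exact h1 ⟨by omega, m2, m3, m4⟩
  have m5 : x₁ + 1 < -(K + L' + 2) := by
    by_contra h
    exact h2 ⟨by omega, by omega, m3, m4⟩
  have := f2 (by omega)
  omega

end PkgBE

open PkgXD PkgBE in
theorem pBE (hBA : S_BA) : S_BE := by
  intro N L L' _ _ hLL w hw P Q K U X hU hX l hl
  simp only [WW, Finset.mem_product, Finset.mem_range] at hw
  obtain ⟨hw0, hw1, hw2, hw3⟩ := hw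
  obtain ⟨⟨x, y⟩, i⟩ := l
  rw [mem_Frl] at hl
  have h1 : x ∉ Nb (K + L' + 2) 0 := fun h => hl ⟨x, (mem_st _ _).2 (Or.inl rfl), h⟩
  have h2 : x + pe i ∉ Nb (K + L' + 2) 0 := fun h => hl ⟨x + pe i, (mem_st _ _).2 (Or.inr rfl), h⟩
  rw [mem_Nb0] at h1 h2
  push_cast at h1 h2
  obtain ⟨f1, f2, f3⟩ := far hBA hLL hw0 x.1
  obtain ⟨-, f2', -⟩ := far hBA hLL hw0 (x.1 + 1)
  obtain ⟨g1, g2, g3⟩ := far hBA hLL hw1 x.2
  obtain ⟨-, g2', -⟩ := far hBA hLL hw1 (x.2 + 1)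
  have hN : ∀ z : Pl, z ∉ Nb K 0 → z ∉ U := fun z hz h => hz (hU h)
  have hi : i = 0 ∨ i = 1 ∨ i = 2 ∨ i = 3 := by
    have := i.isLt
    rcases i with ⟨i, hi⟩
    interval_cases i <;> simp
  rcases hi with rfl | rfl | rfl | rfl
  · -- direction 0
    have e : sg L L' w (x, y) 0 = sP L L' w.1 x.1 := by simp [sg]
    have hc : bk L L' w X ((x, y), 0) =
        lin X 0 (sP L L' w.1 x.1) (gq L L' w (x, y)) := by
      rw [← e]; rfl
    rw [hc, lin_congr X (vc P Q) 0 _ _ fun a ha => ?_, lin_one _ _ _ _ fun a ha => ?_]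
    · simp [vc]
    · simp [vc]
    · rw [gq, mv0]
      refine hX _ (notFrl _ (hN _ ?_) (hN _ ?_))
      · rw [mem_Nb0]
        simp only [pe, if_true, Prod.fst_add, Prod.snd_add, add_zero] at h2 ⊢
        exact arS (by positivity) h1 h2 (by positivity) f1 f2' g1 g2 (by omega) (by omega)
      · rw [mem_Nb0]
        simp only [pe, if_true, Prod.fst_add, Prod.snd_add, add_zero] at h2 ⊢
        exact arS (by positivity) h1 h2 (by positivity) f1 f2' g1 g2 (by omega) (by omega)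
  · -- direction 1
    have e : sg L L' w (x, y) 1 = sP L L' w.2.1 x.2 := by simp [sg]
    have hc : bk L L' w X ((x, y), 1) =
        lin X 1 (sP L L' w.2.1 x.2) (gq L L' w (x, y)) := by
      rw [← e]; rfl
    rw [hc, lin_congr X (vc P Q) 1 _ _ fun a ha => ?_, lin_one _ _ _ _ fun a ha => ?_]
    · simp [vc]
    · simp [vc]
    · rw [gq, mv1]
      simp only [pe, show ¬ ((1 : Fin 4) = 0) by decide, if_false, if_true, Prod.fst_add,
        Prod.snd_add, add_zero] at h2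
      have h1' : ¬ (-((K : ℤ) + L' + 2) ≤ x.2 ∧ x.2 ≤ K + L' + 2 ∧ -((K : ℤ) + L' + 2) ≤ x.1 ∧
          x.1 ≤ K + L' + 2) := fun h => h1 ⟨h.2.2.1, h.2.2.2, h.1, h.2.1⟩
      have h2' : ¬ (-((K : ℤ) + L' + 2) ≤ x.2 + 1 ∧ x.2 + 1 ≤ K + L' + 2 ∧
          -((K : ℤ) + L' + 2) ≤ x.1 ∧ x.1 ≤ K + L' + 2) :=
        fun h => h2 ⟨h.2.2.1, h.2.2.2, h.1, h.2.1⟩
      refine hX _ (notFrl _ (hN _ ?_) (hN _ ?_))
      · rw [mem_Nb0]
        simp only [Prod.fst_add, Prod.snd_add, add_zero]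
        exact fun h => arS (by positivity) h1' h2' (by positivity) g1 g2' f1 f2 (z := gP L L' w.2.1 x.2 + a)
          (by omega) (by omega) ⟨h.2.2.1, h.2.2.2, h.1, h.2.1⟩
      · rw [mem_Nb0]
        simp only [pe, show ¬ ((1 : Fin 4) = 0) by decide, if_false, if_true, Prod.fst_add,
          Prod.snd_add, add_zero]
        exact fun h => arS (by positivity) h1' h2' (by positivity) g1 g2' f1 f2
          (z := gP L L' w.2.1 x.2 + a + 1)
          (by omega) (by omega) ⟨h.2.2.1, h.2.2.2, h.1, h.2.1⟩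
  · -- direction 2
    obtain ⟨-, -, -, -, -, -, a₀, ha₀, hB⟩ := hBA L L' w.2.2.1 hLL hw2
    have e : sg L L' w (x, y) 2 = sT L L' w.2.2.1 y.1 := by simp [sg]
    have hc : bk L L' w X ((x, y), 2) =
        lin X 2 (sT L L' w.2.2.1 y.1) (gq L L' w (x, y)) := by
      rw [← e]; rfl
    rw [hc, lin_congr X (vc P Q) 2 _ _ fun a ha => ?_,
      lin_cond _ _ P _ _ (y.1 = -1) a₀ (fun h => by rw [h]; exact ha₀) fun a ha => ?_]
    · simp [vc, vac]
    · rw [gq, mv2]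
      simp only [vc, vac, if_true]
      simp only [hB y.1 a ha]
    · rw [gq, mv2]
      refine hX _ (notFrl _ (hN _ ?_) (hN _ ?_))
      · rw [mem_Nb0]
        exact arF (by positivity) h1 (by positivity) f1 f2 g1 g2
      · rw [mem_Nb0]
        simp only [pe, show ¬ ((2 : Fin 4) = 0) by decide, show ¬ ((2 : Fin 4) = 1) by decide,
          if_false, Prod.fst_add, Prod.snd_add, add_zero]
        exact arF (by positivity) h1 (by positivity) f1 f2 g1 g2
  · -- direction 3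
    obtain ⟨-, -, -, -, -, -, a₀, ha₀, hB⟩ := hBA L L' w.2.2.2 hLL hw3
    have e : sg L L' w (x, y) 3 = sT L L' w.2.2.2 y.2 := by simp [sg]
    have hc : bk L L' w X ((x, y), 3) =
        lin X 3 (sT L L' w.2.2.2 y.2) (gq L L' w (x, y)) := by
      rw [← e]; rfl
    rw [hc, lin_congr X (vc P Q) 3 _ _ fun a ha => ?_,
      lin_cond _ _ Q _ _ (y.2 = -1) a₀ (fun h => by rw [h]; exact ha₀) fun a ha => ?_]
    · simp [vc, vac]
    · rw [gq, mv3]
      simp only [vc, vac, show ¬ ((3 : Fin 4) = 2) by decide, show ¬ ((1 : Fin 2) = 0) by decide,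
        if_false, if_true]
      simp only [hB y.2 a ha]
    · rw [gq, mv3]
      refine hX _ (notFrl _ (hN _ ?_) (hN _ ?_))
      · rw [mem_Nb0]
        exact arF (by positivity) h1 (by positivity) f1 f2 g1 g2
      · rw [mem_Nb0]
        simp only [pe, show ¬ ((3 : Fin 4) = 0) by decide, show ¬ ((3 : Fin 4) = 1) by decide,
          if_false, Prod.fst_add, Prod.snd_add, add_zero]
        exact arF (by positivity) h1 (by positivity) f1 f2 g1 g2

end T2H01.SE
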