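import Pool.Agent.T2H01.SE.Stm11
import Pool.Agent.T2H01.SE.XD

/-! Package BF: covering numbers in four dimensions. -/

set_option autoImplicit false
set_option linter.unusedSectionVars false

noncomputable section

open MeasureTheory Matrix
open scoped Matrix.Norms.Frobenius ENNReal

namespace T2H01.SE

open T2H02.TT

namespace PkgBF

/-- number of fine links, or `1` -/
def kp (b : Prop) [Decidable b] (n : ℕ) : ℕ := if b then n else 1

/-- push-forward of the counting measure of a grid -/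
def Aop {α β : Type} [Add β] [NatCast β] (s : α → ℕ) (g : α → β) (f : β → ℝ≥0∞) : ℝ≥0∞ :=
  ∑' c, ∑ a ∈ Finset.range (s c), f (g c + (a : β))

lemma swap {α : Type} (T : Finset ℕ) (G : ℕ → α → ℝ≥0∞) :
    ∑ a ∈ T, ∑' x, G a x = ∑' x, ∑ a ∈ T, G a x :=
  (Summable.tsum_finsetSum fun _ _ => ENNReal.summable).symm

lemma Aop_mono {α β : Type} [Add β] [NatCast β] (s : α → ℕ) (g : α → β) {f f' : β → ℝ≥0∞}
    (h : ∀ b, f b ≤ f' b) : Aop s g f ≤ Aop s g f' :=
  ENNReal.tsum_le_tsum fun _ => Finset.sum_le_sum fun _ _ => h _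

lemma Aop_sum {α β ω : Type} [Add β] [NatCast β] (s : α → ℕ) (g : α → β) (T : Finset ω)
    (f : ω → β → ℝ≥0∞) : ∑ v ∈ T, Aop s g (f v) = Aop s g fun b => ∑ v ∈ T, f v b := by
  unfold Aop
  rw [← Summable.tsum_finsetSum fun _ _ => ENNReal.summable]
  refine tsum_congr fun c => ?_
  rw [Finset.sum_comm]

lemma step {α β ω : Type} [Add β] [NatCast β] (R : Finset ℕ) (T : Finset ω)
    (s : ℕ → α → ℕ) (g : ℕ → α → β) (K : ℝ≥0∞)
    (hA : ∀ f : β → ℝ≥0∞, ∑ w ∈ R, Aop (s w) (g w) f ≤ K * ∑' b, f b)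
    (G : ω → β → ℝ≥0∞) (H : β → ℝ≥0∞) (h : ∀ b, ∑ v ∈ T, G v b ≤ H b) :
    ∑ w ∈ R ×ˢ T, Aop (s w.1) (g w.1) (G w.2) ≤ K * ∑' b, H b := by
  rw [Finset.sum_product]
  refine le_trans (Finset.sum_le_sum fun w _ => ?_) (hA H)
  simp only
  rw [Aop_sum]
  exact Aop_mono _ _ h

/-- the covering inequalities of the plane -/
lemma covP (h1 : S_BB) (L L' : ℕ) [NeZero L] [NeZero L'] (hL : L ≤ L') (b : Prop) [Decidable b]
    (f : ℤ → ℝ≥0∞) :
    ∑ w ∈ Finset.range L', Aop (fun c => kp b (sP L L' w c)) (gP L L' w) f ≤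
      (if b then (L' : ℝ≥0∞) else L) * ∑' c, f c := by
  by_cases hb : b
  · simp only [kp, if_pos hb, Aop]
    exact (h1 L L' hL f).1
  · simp only [kp, if_neg hb, Aop, Finset.sum_range_one, Nat.cast_zero, add_zero]
    exact (h1 L L' hL f).2

/-- the covering inequalities of the torus -/
lemma covT (h2 : S_BC) (L L' : ℕ) [NeZero L] [NeZero L'] (hL : L ≤ L') (b : Prop) [Decidable b]
    (f : ZMod L' → ℝ≥0∞) :
    ∑ w ∈ Finset.range L', Aop (fun c => kp b (sT L L' w c)) (gT L L' w) f ≤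
      (if b then (L' : ℝ≥0∞) else L) * ∑' c, f c := by
  by_cases hb : b
  · simp only [kp, if_pos hb, Aop, tsum_fintype]
    exact (h2 L L' hL f).1
  · simp only [kp, if_neg hb, Aop, Finset.sum_range_one, Nat.cast_zero, add_zero, tsum_fintype]
    exact (h2 L L' hL f).2

/-- the covering inequality in four dimensions -/
lemma cov4 (h1 : S_BB) (h2 : S_BC) (L L' : ℕ) [NeZero L] [NeZero L'] (hL : L ≤ L')
    (b : Fin 4 → Prop) [DecidablePred b] (F : Pt L' → ℝ≥0∞) :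
    ∑ w ∈ WW L', Aop (fun c => kp (b 0) (sP L L' w.1 c)) (gP L L' w.1) (fun x0 =>
      Aop (fun c => kp (b 1) (sP L L' w.2.1 c)) (gP L L' w.2.1) (fun x1 =>
        Aop (fun c => kp (b 2) (sT L L' w.2.2.1 c)) (gT L L' w.2.2.1) (fun x2 =>
          Aop (fun c => kp (b 3) (sT L L' w.2.2.2 c)) (gT L L' w.2.2.2) (fun x3 =>
            F ((x0, x1), (x2, x3)))))) ≤
      (if b 0 then (L' : ℝ≥0∞) else L) * ((if b 1 then (L' : ℝ≥0∞) else L) *
        ((if b 2 then (L' : ℝ≥0∞) else L) * ((if b 3 then (L' : ℝ≥0∞) else L) * ∑' p, F p))) := by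
  have key := step (Finset.range L') (Finset.range L' ×ˢ Finset.range L' ×ˢ Finset.range L')
    (fun w c => kp (b 0) (sP L L' w c)) (gP L L') _ (covP h1 L L' hL (b 0))
    (fun (w : ℕ × ℕ × ℕ) x0 => Aop (fun c => kp (b 1) (sP L L' w.1 c)) (gP L L' w.1) (fun x1 =>
        Aop (fun c => kp (b 2) (sT L L' w.2.1 c)) (gT L L' w.2.1) (fun x2 =>
          Aop (fun c => kp (b 3) (sT L L' w.2.2 c)) (gT L L' w.2.2) (fun x3 =>
            F ((x0, x1), (x2, x3)))))) _ (fun x0 =>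
      step (Finset.range L') (Finset.range L' ×ˢ Finset.range L')
        (fun w c => kp (b 1) (sP L L' w c)) (gP L L') _ (covP h1 L L' hL (b 1))
        (fun (w : ℕ × ℕ) x1 => Aop (fun c => kp (b 2) (sT L L' w.1 c)) (gT L L' w.1) (fun x2 =>
          Aop (fun c => kp (b 3) (sT L L' w.2 c)) (gT L L' w.2) (fun x3 =>
            F ((x0, x1), (x2, x3))))) _ (fun x1 =>
          step (Finset.range L') (Finset.range L')
            (fun w c => kp (b 2) (sT L L' w c)) (gT L L') _ (covT h2 L L' hL (b 2))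
            (fun (w : ℕ) x2 => Aop (fun c => kp (b 3) (sT L L' w c)) (gT L L' w) (fun x3 =>
              F ((x0, x1), (x2, x3)))) _ (fun x2 =>
                covT h2 L L' hL (b 3) (fun x3 => F ((x0, x1), (x2, x3))))))
  refine le_trans (le_of_eq ?_) (le_trans key (le_of_eq ?_))
  · rfl
  · rw [ENNReal.tsum_prod']
    simp only [ENNReal.tsum_prod', ENNReal.tsum_mul_left]

/-- the sum over the coarse sites as an iterated sum -/
lemma iter_eq (L L' : ℕ) [NeZero L] [NeZero L'] (w : ℕ × ℕ × ℕ × ℕ) (b : Fin 4 → Prop)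
    [DecidablePred b] (F : Pt L' → ℝ≥0∞) :
    Aop (fun c => kp (b 0) (sP L L' w.1 c)) (gP L L' w.1) (fun x0 =>
      Aop (fun c => kp (b 1) (sP L L' w.2.1 c)) (gP L L' w.2.1) (fun x1 =>
        Aop (fun c => kp (b 2) (sT L L' w.2.2.1 c)) (gT L L' w.2.2.1) (fun x2 =>
          Aop (fun c => kp (b 3) (sT L L' w.2.2.2 c)) (gT L L' w.2.2.2) (fun x3 =>
            F ((x0, x1), (x2, x3)))))) =
    ∑' p : Pt L, ∑ a0 ∈ Finset.range (kp (b 0) (sP L L' w.1 p.1.1)),
      ∑ a1 ∈ Finset.range (kp (b 1) (sP L L' w.2.1 p.1.2)),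
        ∑ a2 ∈ Finset.range (kp (b 2) (sT L L' w.2.2.1 p.2.1)),
          ∑ a3 ∈ Finset.range (kp (b 3) (sT L L' w.2.2.2 p.2.2)),
            F ((gP L L' w.1 p.1.1 + a0, gP L L' w.2.1 p.1.2 + a1),
              (gT L L' w.2.2.1 p.2.1 + a2, gT L L' w.2.2.2 p.2.2 + a3)) := by
  unfold Aop
  simp only [ENNReal.tsum_prod', swap]

end PkgBF

open PkgBF in
theorem pBF (h1 : S_BB) (h2 : S_BC) : S_BF := by
  intro L L' _ _ hL d hd F
  have key := cov4 h1 h2 L L' hL (fun i => i = d.1 ∨ i = d.2) F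
  refine le_trans (le_of_eq ?_) (le_trans key (le_of_eq ?_))
  · refine Finset.sum_congr rfl fun w _ => ?_
    refine Eq.trans (tsum_congr fun p => ?_) (iter_eq L L' w (fun i => i = d.1 ∨ i = d.2) F).symm
    obtain ⟨⟨x0, x1⟩, ⟨x2, x3⟩⟩ := p
    simp only [dirs, Finset.mem_insert, Finset.mem_singleton] at hd
    rcases hd with rfl | rfl | rfl | rfl | rfl | rfl <;>
    simp [sg, gq, kp, PkgXD.mv0, PkgXD.mv1, PkgXD.mv2, PkgXD.mv3]
  · simp only [dirs, Finset.mem_insert, Finset.mem_singleton] at hd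
    rcases hd with rfl | rfl | rfl | rfl | rfl | rfl <;>
    simp <;> ring

end T2H01.SE
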