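import Pool.Agent.T2H01.SE.Stm11
import Pool.Agent.T2H01.SE.XD
import Pool.Agent.T2H01.SE.VC
import Pool.Agent.T2H01.SE.VH

/-!
# Package BG : comparison of the vortex actions for different `L`
-/

set_option autoImplicit false
set_option linter.unusedSectionVars false

noncomputable section

open MeasureTheory Matrix
open scoped Matrix.Norms.Frobenius ENNReal

namespace T2H01.SE.PkgBG

open T2H02.TT

lemma sum_tsum_le {N L : ℕ} [NeZero L] (k : ℕ) (n : ℤ) (X : Cf N L) (E : ℝ)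
    (hE : ∀ T : Finset Tm, ∑ τ ∈ T, enf k (dl 0 n) X τ ≤ E) :
    ∑ d ∈ dirs, ∑' p : Pt L, ENNReal.ofReal (PkgXC.ee k n X d p) ≤ ENNReal.ofReal E := by
  classical
  have h1 : ∑ d ∈ dirs, ∑' p : Pt L, ENNReal.ofReal (PkgXC.ee k n X d p) =
      ∑' p : Pt L, ∑ d ∈ dirs, ENNReal.ofReal (PkgXC.ee k n X d p) := by
    rw [Summable.tsum_finsetSum]
    intro d _
    exact ENNReal.summable
  rw [h1, ENNReal.tsum_eq_iSup_sum]
  refine iSup_le fun s => ?_
  have h2 : ∀ p : Pt L, ∑ d ∈ dirs, ENNReal.ofReal (PkgXC.ee k n X d p) =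
      ENNReal.ofReal (∑ d ∈ dirs, PkgXC.ee k n X d p) := by
    intro p
    rw [ENNReal.ofReal_sum_of_nonneg fun d _ => PkgXC.ee_nonneg k n X d p]
  simp only [h2]
  rw [← ENNReal.ofReal_sum_of_nonneg fun p _ => Finset.sum_nonneg fun d _ =>
    PkgXC.ee_nonneg k n X d p]
  refine ENNReal.ofReal_le_ofReal ?_
  refine le_trans ?_ (PkgXC.sum_le k n X E hE (s.image Prod.fst))
  refine Finset.sum_le_sum_of_subset_of_nonneg ?_ fun p _ _ => Finset.sum_nonneg fun d _ =>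
    PkgXC.ee_nonneg k n X d p
  intro p hp
  exact Finset.mem_product.2 ⟨Finset.mem_image.2 ⟨p, hp, rfl⟩, Finset.mem_univ _⟩

lemma EE_le {N L : ℕ} [NeZero L] (k : ℕ) (n : ℤ) (Y : Cf N L) (V : Finset Pl) (e : ℝ) (he : 0 ≤ e)
    (h : ∑ d ∈ dirs, ∑' p : Pt L, ENNReal.ofReal (PkgXC.ee k n Y d p) ≤ ENNReal.ofReal e) :
    EE k (dl 0 n) V Y ≤ e := by
  classical
  have h1 : EE k (dl 0 n) V Y ≤ ∑ x ∈ (tml V).image Prod.fst, ∑ i : Fin 4, enf k (dl 0 n) Y (x, i) := by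
    unfold EE
    rw [← Finset.sum_product']
    refine Finset.sum_le_sum_of_subset_of_nonneg ?_ fun τ _ _ => enf_nonneg _ _ _ _
    intro τ hτ
    exact Finset.mem_product.2 ⟨Finset.mem_image.2 ⟨τ, hτ, rfl⟩, Finset.mem_univ _⟩
  refine h1.trans ?_
  rw [← ENNReal.ofReal_le_ofReal_iff he]
  refine le_trans ?_ h
  have h2 : ∑ x ∈ (tml V).image Prod.fst, ∑ i : Fin 4, enf k (dl 0 n) Y (x, i) =
      ∑ d ∈ dirs, ∑ p ∈ (tml V).image Prod.fst ×ˢ (Finset.univ : Finset (Tor L)),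
        PkgXC.ee k n Y d p := by
    have h3 : ∑ x ∈ (tml V).image Prod.fst, ∑ i : Fin 4, enf k (dl 0 n) Y (x, i) =
        ∑ p ∈ (tml V).image Prod.fst ×ˢ (Finset.univ : Finset (Tor L)),
          ∑ d ∈ dirs, PkgXC.ee k n Y d p := by
      rw [Finset.sum_product]
      exact Finset.sum_congr rfl fun x _ => (PkgXC.sum_site k n Y x).symm
    rw [h3, Finset.sum_comm]
  rw [h2, ENNReal.ofReal_sum_of_nonneg fun d _ => Finset.sum_nonneg fun p _ =>
    PkgXC.ee_nonneg k n Y d p]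
  refine Finset.sum_le_sum fun d _ => ?_
  rw [ENNReal.ofReal_sum_of_nonneg fun p _ => PkgXC.ee_nonneg k n Y d p]
  exact ENNReal.sum_le_tsum _

theorem main (hBD : S_BD) (hBE : S_BE) (hBF : S_BF) (hVL : S_VL) : S_BG := by
  intro N k hN hk P Q hPQ L L' _ _ hLL
  classical
  have hL : (0 : ℝ) < L := by exact_mod_cast Nat.pos_of_ne_zero (NeZero.ne L)
  have hL' : (0 : ℝ) < L' := by exact_mod_cast Nat.pos_of_ne_zero (NeZero.ne L')
  obtain ⟨σ, hσ⟩ : ∃ σ : ℕ, σ = (L' + L - 1) / L := ⟨_, rfl⟩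
  have hσ1 : 1 ≤ σ := by
    rw [hσ, Nat.le_div_iff_mul_le (Nat.pos_of_ne_zero (NeZero.ne L))]
    have := Nat.pos_of_ne_zero (NeZero.ne L)
    omega
  have hσ0 : (0 : ℝ) < σ := by exact_mod_cast hσ1
  rw [← hσ]
  obtain ⟨κ, hκ⟩ : ∃ κ : ℝ, κ = ((σ : ℝ) * L / L') ^ 2 := ⟨_, rfl⟩
  rw [← hκ]
  have hκ0 : 0 < κ := by rw [hκ]; positivity
  have key : ∀ e ∈ vset L' k P Q, SS L k P Q ≤ κ * e := by
    rintro e ⟨n, U, X, hn, h0, hX, rfl⟩
    obtain ⟨E, hE⟩ : ∃ E, E = EE k (dl 0 n) U X := ⟨_, rfl⟩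
    rw [← hE]
    have hfin : ∀ T : Finset Tm, ∑ τ ∈ T, enf k (dl 0 n) X τ ≤ E := fun T => by
      rw [hE]; exact PkgXD.sum_le hVL hN hk hPQ n U X h0 hX T
    have hE0 : 0 ≤ E := by simpa using hfin ∅
    obtain ⟨K, hK⟩ := PkgVC.exists_Nb U
    have s1 := sum_tsum_le k n X E hfin
    obtain ⟨G, hG⟩ : ∃ G : ℕ × ℕ × ℕ × ℕ → ℝ≥0∞, G = fun w => ∑ d ∈ dirs, ∑' p : Pt L,
      ENNReal.ofReal (PkgXC.ee k n (bk L L' w X) d p) := ⟨_, rfl⟩
    have s2 : ∀ w ∈ WW L', G w ≤ ENNReal.ofReal ((σ : ℝ) ^ 2) * ∑ d ∈ dirs, ∑' p : Pt L,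
        ∑ a ∈ Finset.range (sg L L' w p d.1), ∑ b ∈ Finset.range (sg L L' w p d.2),
          ENNReal.ofReal (PkgXC.ee k n X d (mv d.2 b (mv d.1 a (gq L L' w p)))) := by
      intro w hw
      obtain ⟨-, -, -, h4⟩ := hBD L L' hLL w hw
      rw [hG, Finset.mul_sum]
      refine Finset.sum_le_sum fun d hd => ?_
      rw [← ENNReal.tsum_mul_left]
      refine ENNReal.tsum_le_tsum fun p => ?_
      have h5 := ENNReal.ofReal_le_ofReal (h4 N k n X p d hd)
      rw [ENNReal.ofReal_mul (by positivity), ← hσ] at h5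
      refine h5.trans (le_of_eq ?_)
      congr 1
      rw [ENNReal.ofReal_sum_of_nonneg fun a _ => Finset.sum_nonneg fun b _ =>
        PkgXC.ee_nonneg k n X d _]
      refine Finset.sum_congr rfl fun a _ => ?_
      rw [ENNReal.ofReal_sum_of_nonneg fun b _ => PkgXC.ee_nonneg k n X d _]
    have s3 : ∑ w ∈ WW L', G w ≤ ENNReal.ofReal ((σ : ℝ) ^ 2) *
        ((L : ℝ≥0∞) ^ 2 * (L' : ℝ≥0∞) ^ 2 * ENNReal.ofReal E) := by
      refine (Finset.sum_le_sum s2).trans ?_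
      rw [← Finset.mul_sum, Finset.sum_comm]
      refine mul_le_mul_right ?_ _
      refine (Finset.sum_le_sum fun d hd => hBF L L' hLL d hd
        (fun p => ENNReal.ofReal (PkgXC.ee k n X d p))).trans ?_
      rw [← Finset.mul_sum]
      exact mul_le_mul_right s1 _
    have hWne : (WW L').Nonempty := by
      have h0' : 0 ∈ Finset.range L' := Finset.mem_range.2 (Nat.pos_of_ne_zero (NeZero.ne L'))
      exact ⟨(0, 0, 0, 0), by simp only [WW, Finset.mem_product]; exact ⟨h0', h0', h0', h0'⟩⟩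
    have hWc : (WW L').card = L' ^ 4 := by
      simp only [WW, Finset.card_product, Finset.card_range]
      ring
    obtain ⟨w, hw, hGw⟩ : ∃ w ∈ WW L', G w ≤ ENNReal.ofReal (κ * E) := by
      by_contra hcon
      push Not at hcon
      have h6 := ENNReal.sum_lt_sum_of_nonempty hWne hcon
      rw [Finset.sum_const, hWc, nsmul_eq_mul] at h6
      have h7 := h6.trans_le s3
      refine absurd h7 (not_lt.2 (le_of_eq ?_))
      have e1 : (L : ℝ≥0∞) = ENNReal.ofReal L := (ENNReal.ofReal_natCast L).symm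
      have e2 : (L' : ℝ≥0∞) = ENNReal.ofReal L' := (ENNReal.ofReal_natCast L').symm
      push_cast
      rw [e1, e2, ← ENNReal.ofReal_pow hL.le, ← ENNReal.ofReal_pow hL'.le,
        ← ENNReal.ofReal_pow hL'.le, ← ENNReal.ofReal_mul (by positivity),
        ← ENNReal.ofReal_mul (by positivity), ← ENNReal.ofReal_mul (by positivity),
        ← ENNReal.ofReal_mul (by positivity)]
      congr 1
      rw [hκ]
      field_simp
    have hmem := hBE N L L' hLL w hw P Q K U X hK hX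
    have hEE : EE k (dl 0 n) (Nb (K + L' + 2) 0) (bk L L' w X) ≤ κ * E := by
      refine EE_le k n _ _ _ (by positivity) ?_
      rw [hG] at hGw
      exact hGw
    refine le_trans (csInf_le ⟨0, ?_⟩ ⟨n, Nb (K + L' + 2) 0, bk L L' w X, hn, ?_, hmem, rfl⟩) hEE
    · rintro e ⟨m, V, Y, -, -, -, rfl⟩
      exact Finset.sum_nonneg fun τ _ => enf_nonneg _ _ _ _
    · rw [PkgVC.mem_Nb']
      simp only [Prod.fst_zero, Prod.snd_zero, sub_zero, abs_zero]
      constructor <;> positivity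
  have hne : (vset L' k P Q).Nonempty := by
    refine ⟨_, 1, {0}, vc P Q, ?_, Finset.mem_singleton_self _, fun _ _ => rfl, rfl⟩
    intro h
    have := Int.le_of_dvd one_pos h
    omega
  have h8 : SS L k P Q / κ ≤ SS L' k P Q := by
    unfold SS
    refine le_csInf hne fun e he => ?_
    rw [div_le_iff₀ hκ0, mul_comm]
    exact key e he
  rw [div_le_iff₀ hκ0, mul_comm] at h8
  exact h8

end T2H01.SE.PkgBG

namespace T2H01.SE

open T2H02.TT

theorem pBG (hBD : S_BD) (hBE : S_BE) (hBF : S_BF) (hVL : S_VL) : S_BG :=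
  PkgBG.main hBD hBE hBF hVL

end T2H01.SE
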