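import Pool.Agent.T2H01.SE.Stm11

/-! Package BL: convergence of the vortex action as `L → ∞`. -/

set_option autoImplicit false
set_option linter.unusedSectionVars false

noncomputable section

open MeasureTheory Matrix
open scoped Matrix.Norms.Frobenius ENNReal

namespace T2H01.SE

open T2H02.TT

namespace PkgBL

lemma SS_nonneg {N L : ℕ} [NeZero L] (k : ℕ) (P Q : SU N) : 0 ≤ SS L k P Q := by
  refine Real.sInf_nonneg ?_
  rintro x ⟨n, U, X, -, -, -, rfl⟩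
  exact Finset.sum_nonneg fun τ _ => enf_nonneg _ _ _ _

end PkgBL

theorem pBL (h1 : S_BG) (h2 : S_YE) : S_BL := by
  intro N k hN hk P Q hPQ
  obtain ⟨C, hC⟩ := h2 N hN
  set S : Set ℝ := {x | ∃ (L : ℕ) (hL : NeZero L), x = SS L k P Q} with hS
  have hbdd : BddAbove S := by
    refine ⟨C, ?_⟩
    rintro x ⟨L, hL, rfl⟩
    exact hC k L hk P Q hPQ
  have hne : S.Nonempty := ⟨SS 1 k P Q, 1, inferInstance, rfl⟩
  refine ⟨sSup S, fun L hL => le_csSup hbdd ⟨L, hL, rfl⟩, ?_⟩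
  intro ε hε
  obtain ⟨x, ⟨L₁, hL₁, rfl⟩, hx⟩ := exists_lt_of_lt_csSup hne (show sSup S - ε / 2 < sSup S by linarith)
  have hC0 : 0 ≤ C := le_trans (PkgBL.SS_nonneg (L := 1) k P Q) (hC k 1 hk P Q hPQ)
  obtain ⟨M, hM⟩ := exists_nat_ge (6 * C * L₁ / ε)
  refine ⟨max L₁ M, ?_⟩
  intro L' hL' hle
  have hL₁' : L₁ ≤ L' := le_trans (le_max_left _ _) hle
  have hM' : M ≤ L' := le_trans (le_max_right _ _) hle
  have hb := h1 N k hN hk P Q hPQ L₁ L' hL₁'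
  have hpos₁ : 0 < L₁ := Nat.pos_of_ne_zero hL₁.out
  have hpos' : 0 < L' := Nat.pos_of_ne_zero hL'.out
  have hr₁ : (0 : ℝ) < L₁ := by exact_mod_cast hpos₁
  have hr' : (0 : ℝ) < L' := by exact_mod_cast hpos'
  set δ : ℝ := (L₁ : ℝ) / L' with hδ
  have hδ0 : 0 ≤ δ := by positivity
  have hδ1 : δ ≤ 1 := by
    rw [hδ, div_le_one hr']
    exact_mod_cast hL₁'
  have hσ : ((((L' + L₁ - 1) / L₁ : ℕ) : ℝ) * L₁ / L') ≤ 1 + δ := by
    have h3 : ((L' + L₁ - 1) / L₁) * L₁ ≤ L' + L₁ := by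
      refine le_trans (Nat.div_mul_le_self _ _) (Nat.sub_le _ _)
    have h4 : (((L' + L₁ - 1) / L₁ : ℕ) : ℝ) * L₁ ≤ L' + L₁ := by exact_mod_cast h3
    calc ((((L' + L₁ - 1) / L₁ : ℕ) : ℝ) * L₁ / L') ≤ (L' + L₁) / L' := by gcongr
      _ = 1 + δ := by rw [hδ, add_div, div_self hr'.ne']
  have hσ0 : 0 ≤ ((((L' + L₁ - 1) / L₁ : ℕ) : ℝ) * L₁ / L') := by positivity
  have hsq : ((((L' + L₁ - 1) / L₁ : ℕ) : ℝ) * L₁ / L') ^ 2 ≤ 1 + 3 * δ := by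
    calc ((((L' + L₁ - 1) / L₁ : ℕ) : ℝ) * L₁ / L') ^ 2 ≤ (1 + δ) ^ 2 := by gcongr
      _ ≤ 1 + 3 * δ := by nlinarith
  have hSS0 := PkgBL.SS_nonneg (L := L') k P Q
  have hSSC := hC k L' hk P Q hPQ
  have h5 : SS L₁ k P Q ≤ (1 + 3 * δ) * SS L' k P Q :=
    le_trans hb (mul_le_mul_of_nonneg_right hsq hSS0)
  have h6 : 3 * δ * SS L' k P Q ≤ 3 * δ * C := by gcongr
  have h7 : 3 * δ * C ≤ ε / 2 := by
    have h8 : 6 * C * L₁ / ε ≤ L' := le_trans hM (by exact_mod_cast hM')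
    rw [div_le_iff₀ hε] at h8
    have h9 : 6 * C * δ ≤ ε := by
      rw [hδ, ← mul_div_assoc, div_le_iff₀ hr']
      linarith
    linarith
  linarith

end T2H01.SE
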