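import Pool.Agent.T2H01.SE.Stm11

/-!
# The vortex actions as a sequence
-/

set_option autoImplicit false

noncomputable section

namespace T2H01.SE

open T2H02.TT Filter Topology

/-- the sequence of the vortex actions -/
def SSq {N : ℕ} (k : ℕ) (P Q : SU N) (s : ℝ) (L : ℕ) : ℝ :=
  if h : L = 0 then s else @SS N L ⟨h⟩ k P Q

lemma SSq_eq {N : ℕ} (k : ℕ) (P Q : SU N) (s : ℝ) (L : ℕ) [hL : NeZero L] :
    SSq k P Q s L = SS L k P Q := by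
  unfold SSq
  rw [dif_neg hL.out]

lemma SSq_tendsto {N : ℕ} (k : ℕ) (P Q : SU N) (s : ℝ)
    (h1 : ∀ (L : ℕ) [NeZero L], SS L k P Q ≤ s)
    (h2 : ∀ ε : ℝ, 0 < ε → ∃ L₀ : ℕ, ∀ (L : ℕ) [NeZero L], L₀ ≤ L → s - ε ≤ SS L k P Q) :
    Tendsto (SSq k P Q s) atTop (𝓝 s) := by
  rw [Metric.tendsto_atTop]
  intro ε hε
  obtain ⟨L₀, hL₀⟩ := h2 (ε / 2) (by linarith)
  refine ⟨max L₀ 1, fun L hL => ?_⟩
  have hL1 : 1 ≤ L := le_trans (le_max_right _ _) hL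
  have : NeZero L := ⟨by omega⟩
  rw [SSq_eq, Real.dist_eq, abs_lt]
  have a1 := h1 L
  have a2 := hL₀ L (le_trans (le_max_left _ _) hL)
  constructor <;> linarith

end T2H01.SE
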