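import Pool.Agent.T2H01.SE.All2
import Pool.Agent.T2H01.SE.BA
import Pool.Agent.T2H01.SE.BB
import Pool.Agent.T2H01.SE.BC
import Pool.Agent.T2H01.SE.BD
import Pool.Agent.T2H01.SE.BE
import Pool.Agent.T2H01.SE.BF
import Pool.Agent.T2H01.SE.BG
import Pool.Agent.T2H01.SE.BL
import Pool.Agent.T2H01.SE.Fin2

/-!
# Convergence of the vortex action
-/

set_option autoImplicit false

namespace T2H01.SE

open T2H02.TT

theorem aBA : S_BA := pBA
theorem aBB : S_BB := pBB aBA
theorem aBC : S_BC := pBC aBA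
theorem aBD : S_BD := pBD aBA pXA
theorem aBE : S_BE := pBE aBA
theorem aBF : S_BF := pBF aBB aBC
theorem aBG : S_BG := pBG aBD aBE aBF aVL
theorem aBL : S_BL := pBL aBG aYE

end T2H01.SE
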