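import Pool.Agent.T2H02.TT.Stm3
import Pool.Agent.T2H02.TT.Stm4

/-!
# The string tension of the twisted tube at weak coupling: definitions

Fluxes: an integer `s x` for every cell `x` of the plane; the plaquettes over the cell `x` are
multiplied by `exp (2 π i s x / N)`.
-/

set_option autoImplicit false
set_option linter.unusedSectionVars false

noncomputable section

open MeasureTheory Matrix
open scoped Matrix.Norms.Frobenius ENNReal

namespace T2H01.SE

open T2H02.TT

/-- `exp (2 π i a / N)` -/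
def oz (N : ℕ) (a : ℤ) : ℂ := Complex.exp (2 * Real.pi * Complex.I * a / N)

/-- the rectangle `[a.1, b.1] × [a.2, b.2]` -/
def rc (a b : Pl) : Finset Pl := Finset.Icc a.1 b.1 ×ˢ Finset.Icc a.2 b.2

section

variable {N L : ℕ} [NeZero L]

/-- energy of a term in the presence of the fluxes `s` -/
def enf (k : ℕ) (s : Pl → ℤ) (X : Cf N L) (τ : Tm) : ℝ :=
  if τ.2 = 3 then eP X (oz N (s τ.1)) τ.1 else en1 k X τ

/-- the flux `n` in the cell `a` -/
def dl (a : Pl) (n : ℤ) : Pl → ℤ := fun x => if x = a then n else 0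

/-- change of the fluxes under `cmv z` -/
def crz (z : Pl → Fin 4 → ℕ) (x : Pl) : ℤ :=
  (z x 1 : ℤ) + z (x + (0, 1)) 0 - z x 0 - z (x + (1, 0)) 1

/-- the cells touching `U` (a cell is given by its lower left corner) -/
def cl (U : Finset Pl) : Finset Pl := ((tml U).filter fun τ => τ.2 = 3).image Prod.fst

/-- energy of the ring around `U` -/
def rE (k : ℕ) (X : Cf N L) (U : Finset Pl) : ℝ := ∑ τ ∈ rng U, en k X τ

/-- links of the ring around `U` -/
def rlk (L : ℕ) [NeZero L] (U : Finset Pl) : Finset (Lk L) :=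
  (Frl L (pls U \ U)).filter fun l => ∀ a ∈ st l, a ∈ pls U \ U

/-- squared distance from the vacuum on the ring -/
def rD (P Q : SU N) (X : Cf N L) (U : Finset Pl) : ℝ :=
  ∑ l ∈ rlk L U, ‖(X l : Mt N) - (vc P Q l : Mt N)‖ ^ 2

/-- energy of `X` in `U` in the presence of fluxes -/
def EE (k : ℕ) (s : Pl → ℤ) (U : Finset Pl) (X : Cf N L) : ℝ := ∑ τ ∈ tml U, enf k s X τ

/-- the actions of the configurations which agree with the vacuum outside a finite set, in the
presence of a nonzero flux -/
def vset (L : ℕ) [NeZero L] (k : ℕ) (P Q : SU N) : Set ℝ :=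
  {e | ∃ (n : ℤ) (U : Finset Pl) (X : Cf N L), ¬ (N : ℤ) ∣ n ∧ (0 : Pl) ∈ U ∧
    (∀ l, l ∉ Frl L U → X l = vc P Q l) ∧ e = EE k (dl 0 n) U X}

/-- **the action of the vortex** (fractional instanton) -/
def SS (L : ℕ) [NeZero L] (k : ℕ) (P Q : SU N) : ℝ := sInf (vset L k P Q)

/-- partition function of `U` with the boundary values `η` and the fluxes `s` -/
def Zf (k : ℕ) (β : ℝ) (s : Pl → ℤ) (U : Finset Pl) (η : Cf N L) : ℝ :=
  ∫ ξ, Real.exp (-β * EE k s U (glue (Frl L U) ξ η)) ∂(pm N L)

end

/-! ### the joint system of links and fluxes -/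

/-- values of the variables -/
abbrev Vr (N : ℕ) := SU N × Fin N

/-- index set: links and cells -/
abbrev Ix (L : ℕ) := Lk L ⊕ Pl

/-- joint configurations -/
abbrev Cj (N L : ℕ) := Ix L → Vr N

/-- the uniform probability measure -/
def unif (N : ℕ) : Measure (Fin N) := (N : ℝ≥0∞)⁻¹ • Measure.count

/-- Haar measure times the uniform measure -/
def mj (N : ℕ) : Measure (Vr N) := (hm N).prod (unif N)

section

variable {N L : ℕ} [NeZero L]

/-- the links -/
def lk (ω : Cj N L) : Cf N L := fun l => (ω (Sum.inl l)).1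

/-- the fluxes -/
def fx (ω : Cj N L) : Pl → ℤ := fun x => (((ω (Sum.inr x)).2 : ℕ) : ℤ)

end

/-- a joint configuration -/
def jn {N L : ℕ} (X : Cf N L) (t : Pl → Fin N) : Cj N L := fun i =>
  match i with
  | Sum.inl l => (X l, t 0)
  | Sum.inr x => (1, t x)

end T2H01.SE
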