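import Pool.Agent.T2H01.SE.Defs

/-!
# The frozen system: all links which do not touch `Ω` are fixed as in the vacuum
-/

set_option autoImplicit false
set_option linter.unusedSectionVars false

noncomputable section

open MeasureTheory Matrix
open scoped Matrix.Norms.Frobenius ENNReal

namespace T2H01.SE

open T2H02.TT

/-- live links: those touching `Ω` -/
abbrev Lv (L : ℕ) [NeZero L] (Ω : Finset Pl) : Type := {l : Lk L // l ∈ Frl L Ω}

/-- extension by the vacuum -/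
def xt {N L : ℕ} [NeZero L] (P Q : SU N) (Ω : Finset Pl) (X : Lv L Ω → SU N) : Cf N L := fun l =>
  if h : l ∈ Frl L Ω then X ⟨l, h⟩ else vc P Q l

/-- restriction to the live links -/
def rs {N L : ℕ} [NeZero L] (Ω : Finset Pl) (X : Cf N L) : Lv L Ω → SU N := fun l => X l.1

section

variable {N L : ℕ} [NeZero L]

lemma xt_of_mem (P Q : SU N) (Ω : Finset Pl) (X : Lv L Ω → SU N) (l : Lk L) (h : l ∈ Frl L Ω) :
    xt P Q Ω X l = X ⟨l, h⟩ := dif_pos h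

lemma xt_of_not (P Q : SU N) (Ω : Finset Pl) (X : Lv L Ω → SU N) (l : Lk L) (h : l ∉ Frl L Ω) :
    xt P Q Ω X l = vc P Q l := dif_neg h

lemma rs_xt (P Q : SU N) (Ω : Finset Pl) (X : Lv L Ω → SU N) : rs Ω (xt P Q Ω X) = X := by
  funext l
  exact xt_of_mem P Q Ω X l.1 l.2

lemma xt_rs (P Q : SU N) (Ω : Finset Pl) (X : Cf N L) (h : ∀ l, l ∉ Frl L Ω → X l = vc P Q l) :
    xt P Q Ω (rs Ω X) = X := by
  funext l
  by_cases hl : l ∈ Frl L Ω
  · rw [xt_of_mem P Q Ω _ l hl]; rfl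
  · rw [xt_of_not P Q Ω _ l hl, h l hl]

lemma xt_meas (P Q : SU N) (Ω : Finset Pl) : Measurable (xt P Q Ω : (Lv L Ω → SU N) → Cf N L) := by
  refine measurable_pi_lambda _ fun l => ?_
  by_cases hl : l ∈ Frl L Ω
  · simp only [xt_of_mem P Q Ω _ l hl]
    exact measurable_pi_apply _
  · simp only [xt_of_not P Q Ω _ l hl]
    exact measurable_const

lemma rs_meas (Ω : Finset Pl) : Measurable (rs Ω : Cf N L → (Lv L Ω → SU N)) :=
  measurable_pi_lambda _ fun l => measurable_pi_apply l.1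

end

/-- the frozen system -/
def frz (N L : ℕ) [NeZero L] (k : ℕ) (β : ℝ) (hN : 2 ≤ N) (hβ : 0 ≤ β) (P Q : SU N)
    (Ω : Finset Pl) : Sys (Lv L Ω) Tm (SU N) where
  bl := fun l => (st l.1).filter (· ∈ Ω)
  bt := fun τ => (cor τ).filter (· ∈ Ω)
  sp := fun τ => Finset.univ.filter fun l : Lv L Ω => l.1 ∈ (spt τ : Finset (Lk L))
  w := fun τ X => wt k β τ (xt P Q Ω X)
  Fr := fun Λ => Finset.univ.filter fun l : Lv L Ω => l.1 ∈ Frl L (Λ ∩ Ω)
  tms := fun Λ => tml (Λ ∩ Ω)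
  mem_Fr := fun Λ l => by
    rw [Finset.mem_filter, mem_Frl]
    constructor
    · rintro ⟨-, a, h1, h2⟩
      rw [Finset.mem_inter] at h2
      exact ⟨a, Finset.mem_filter.2 ⟨h1, h2.2⟩, h2.1⟩
    · rintro ⟨a, h1, h2⟩
      rw [Finset.mem_filter] at h1
      exact ⟨Finset.mem_univ _, a, h1.1, Finset.mem_inter.2 ⟨h2, h1.2⟩⟩
  mem_tms := fun Λ τ => by
    rw [mem_tml]
    constructor
    · rintro ⟨a, h1, h2⟩
      rw [Finset.mem_inter] at h2
      exact ⟨a, Finset.mem_filter.2 ⟨h1, h2.2⟩, h2.1⟩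
    · rintro ⟨a, h1, h2⟩
      rw [Finset.mem_filter] at h1
      exact ⟨a, h1.1, Finset.mem_inter.2 ⟨h2, h1.2⟩⟩
  bt_iff := fun τ a => by
    rw [Finset.mem_filter, cor_iff (L := L)]
    constructor
    · rintro ⟨⟨l, h1, h2⟩, h3⟩
      exact ⟨⟨l, (mem_Frl _ _).2 ⟨a, h2, h3⟩⟩, Finset.mem_filter.2 ⟨Finset.mem_univ _, h1⟩,
        Finset.mem_filter.2 ⟨h2, h3⟩⟩
    · rintro ⟨l, h1, h2⟩
      rw [Finset.mem_filter] at h1 h2
      exact ⟨⟨l.1, h1.2, h2.1⟩, h2.2⟩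
  diam_bt := fun τ a ha b hb => diam_cor τ a (Finset.mem_filter.1 ha).1 b (Finset.mem_filter.1 hb).1
  diam_bl := fun l a ha b hb => diam_st l.1 a (Finset.mem_filter.1 ha).1 b (Finset.mem_filter.1 hb).1
  bl_ne := fun l => by
    obtain ⟨a, h1, h2⟩ := (mem_Frl _ _).1 l.2
    exact ⟨a, Finset.mem_filter.2 ⟨h1, h2⟩⟩
  w_pos := fun τ X => wt_pos k β τ _ (by omega)
  w_le := fun τ X => wt_le k β hβ τ _ (by omega)
  w_meas := fun τ => (wt_cont k β τ).measurable.comp (xt_meas P Q Ω)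
  w_loc := fun τ X Y h => by
    refine wt_loc k β τ _ _ fun l hl => ?_
    by_cases hh : l ∈ Frl L Ω
    · rw [xt_of_mem P Q Ω _ l hh, xt_of_mem P Q Ω _ l hh]
      exact h ⟨l, hh⟩ (Finset.mem_filter.2 ⟨Finset.mem_univ _, hl⟩)
    · rw [xt_of_not P Q Ω _ l hh, xt_of_not P Q Ω _ l hh]

section

variable {N L : ℕ} [NeZero L]

lemma xt_glue (P Q : SU N) (Ω Λ : Finset Pl) (J : Finset (Lv L Ω))
    (hJ : ∀ l : Lv L Ω, l ∈ J ↔ l.1 ∈ Frl L (Λ ∩ Ω)) (ζ : Cf N L) (η : Lv L Ω → SU N) :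
    xt P Q Ω (glue J (rs Ω ζ) η) = glue (Frl L (Λ ∩ Ω)) ζ (xt P Q Ω η) := by
  funext l
  by_cases hl : l ∈ Frl L Ω
  · rw [xt_of_mem P Q Ω _ l hl]
    unfold glue
    by_cases h : l ∈ Frl L (Λ ∩ Ω)
    · rw [if_pos h, if_pos ((hJ ⟨l, hl⟩).2 h)]; rfl
    · rw [if_neg h, if_neg fun hh => h ((hJ ⟨l, hl⟩).1 hh), xt_of_mem P Q Ω _ l hl]
  · rw [xt_of_not P Q Ω _ l hl]
    have h : l ∉ Frl L (Λ ∩ Ω) := fun h => by
      obtain ⟨a, h1, h2⟩ := (mem_Frl _ _).1 h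
      exact hl ((mem_Frl _ _).2 ⟨a, h1, (Finset.mem_inter.1 h2).2⟩)
    unfold glue
    rw [if_neg h, xt_of_not P Q Ω _ l hl]

lemma map_rs (Ω : Finset Pl) : (pm N L).map (rs Ω : Cf N L → (Lv L Ω → SU N)) =
    Measure.infinitePi fun _ : Lv L Ω => hm N := by
  exact Measure.infinitePi_map_restrict' (fun _ : Lk L => hm N) (I := {l | l ∈ Frl L Ω})

/-- **kernels of the frozen system** -/
theorem frz_ker (k : ℕ) (β : ℝ) (hN : 2 ≤ N) (hβ : 0 ≤ β) (P Q : SU N) (Ω Λ : Finset Pl)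
    (F : (Lv L Ω → SU N) → ℝ) (hF : Measurable F) (η : Lv L Ω → SU N) :
    (frz N L k β hN hβ P Q Ω).ker (hm N) Λ F η =
      (sysS N L k β hN hβ).ker (hm N) (Λ ∩ Ω) (fun X => F (rs Ω X)) (xt P Q Ω η) := by
  have hJ : ∀ l : Lv L Ω, l ∈ (frz N L k β hN hβ P Q Ω).Fr Λ ↔ l.1 ∈ Frl L (Λ ∩ Ω) := fun l => by
    show l ∈ Finset.univ.filter (fun l : Lv L Ω => l.1 ∈ Frl L (Λ ∩ Ω)) ↔ _
    simp
  have key : ∀ G : (Lv L Ω → SU N) → ℝ, Measurable G →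
      (frz N L k β hN hβ P Q Ω).num (hm N) Λ G η =
      (sysS N L k β hN hβ).num (hm N) (Λ ∩ Ω) (fun X => G (rs Ω X)) (xt P Q Ω η) := by
    intro G hG
    unfold Sys.num
    rw [← map_rs Ω]
    have hgl : Measurable fun ξ : Lv L Ω → SU N => glue ((frz N L k β hN hβ P Q Ω).Fr Λ) ξ η := by
      refine measurable_pi_lambda _ fun l => ?_
      unfold glue
      by_cases h : l ∈ (frz N L k β hN hβ P Q Ω).Fr Λ
      · simp only [if_pos h]; exact measurable_pi_apply l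
      · simp only [if_neg h]; exact measurable_const
    have hW : Measurable fun ω : Lv L Ω → SU N => (frz N L k β hN hβ P Q Ω).W Λ ω := by
      unfold Sys.W
      exact Finset.measurable_prod _ fun τ _ => (frz N L k β hN hβ P Q Ω).w_meas τ
    have hm1 : AEStronglyMeasurable (fun ξ : Lv L Ω → SU N =>
        G (glue ((frz N L k β hN hβ P Q Ω).Fr Λ) ξ η) *
        (frz N L k β hN hβ P Q Ω).W Λ (glue ((frz N L k β hN hβ P Q Ω).Fr Λ) ξ η))
        ((pm N L).map (rs Ω)) :=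
      ((hG.comp hgl).mul (hW.comp hgl)).aestronglyMeasurable
    rw [integral_map (rs_meas Ω).aemeasurable hm1]
    refine integral_congr_ae (Filter.Eventually.of_forall fun ζ => ?_)
    beta_reduce
    have e1 := xt_glue P Q Ω Λ _ hJ ζ η
    have e2 : glue ((frz N L k β hN hβ P Q Ω).Fr Λ) (rs Ω ζ) η =
        rs Ω (glue (Frl L (Λ ∩ Ω)) ζ (xt P Q Ω η)) := by
      rw [← e1, rs_xt]
    have e3 : (frz N L k β hN hβ P Q Ω).W Λ (glue ((frz N L k β hN hβ P Q Ω).Fr Λ) (rs Ω ζ) η) =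
        (sysS N L k β hN hβ).W (Λ ∩ Ω) (glue (Frl L (Λ ∩ Ω)) ζ (xt P Q Ω η)) := by
      show ∏ τ ∈ tml (Λ ∩ Ω), wt k β τ (xt P Q Ω (glue _ (rs Ω ζ) η)) =
        ∏ τ ∈ tml (Λ ∩ Ω), wt k β τ _
      rw [e1]
    show G (glue ((frz N L k β hN hβ P Q Ω).Fr Λ) (rs Ω ζ) η) * _ = _
    rw [e3, e2]
    rfl
  unfold Sys.ker
  rw [key F hF, key (fun _ => 1) measurable_const]

end

end T2H01.SE
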