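import Pool.Agent.T2H01.SE.Stm10
import Pool.Agent.T2H01.SE.MA

/-!
# Package MAu : removal of a site from the domain, uniform in the lattice spacing
-/

set_option autoImplicit false
set_option linter.unusedSectionVars false

noncomputable section

open MeasureTheory Matrix
open scoped Matrix.Norms.Frobenius

namespace T2H01.SE

open T2H02.TT

theorem pMAu (h2 : S_F2) (h5 : S_F5) (h3 : S_G3u) (_hVL : S_VL) : S_MAu := by
  intro N k hN _ P Q _
  obtain ⟨C₀, K, hC₀, h3'⟩ := h3 N k hN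
  have hN0 : 0 < N := by omega
  have hN1 : (1 : ℝ) ≤ N := by exact_mod_cast (by omega : 1 ≤ N)
  have hlog : 0 ≤ Real.log N := Real.log_nonneg hN1
  refine ⟨16 * (C₀ + Real.log N) + 1, K, by nlinarith, fun L _ β hβ hβ1 => ?_⟩
  obtain ⟨-, hen, hwt⟩ := h3' L
  have hL1 : (1 : ℝ) ≤ L := by exact_mod_cast NeZero.one_le
  have hP : (1 : ℝ) ≤ (L : ℝ) ^ K := one_le_pow₀ hL1
  obtain ⟨p, hp⟩ : ∃ p : ℝ, p = (L : ℝ) ^ K := ⟨_, rfl⟩
  rw [← hp] at hP hen ⊢
  have hc : 0 ≤ (C₀ * p + Real.log N) * β := by positivity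
  have hcp : 16 * ((C₀ * p + Real.log N) * β) ≤ (16 * (C₀ + Real.log N) + 1) * p * β := by
    have e1 : Real.log N ≤ Real.log N * p := by nlinarith
    have e2 : 16 * (C₀ * p + Real.log N) ≤ (16 * (C₀ + Real.log N) + 1) * p := by nlinarith
    calc 16 * ((C₀ * p + Real.log N) * β) = 16 * (C₀ * p + Real.log N) * β := by ring
      _ ≤ _ := mul_le_mul_of_nonneg_right e2 hβ
  have hw : ∀ (τ : Tm) (X : Cf N L), Real.exp (-((C₀ * p + Real.log N) * β)) ≤ wt k β τ X := by
    intro τ X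
    refine le_trans ?_ (hwt β X τ hβ).1
    have e1 : Real.exp (-β * en k X τ) / N = Real.exp (-β * en k X τ - Real.log N) := by
      rw [Real.exp_sub, Real.exp_log (by linarith)]
    rw [e1]
    refine Real.exp_le_exp.2 ?_
    have e2 := mul_le_mul_of_nonneg_left (hen X τ) hβ
    nlinarith
  refine ⟨fun Λ a => PkgMA.kap k β P Q Λ a, fun Λ a => PkgMA.kap_meas k β P Q Λ a,
    fun Λ a X => ?_, fun Λ a => PkgMA.kap_dep k β P Q Λ a,
    fun Λ Λ' a h => PkgMA.kap_congr k β P Q Λ Λ' a h, fun Λ a ha => ?_⟩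
  · have h := PkgMA.kap_bd k β _ hβ hN0 hc hw P Q Λ a X
    constructor
    · refine le_trans (Real.exp_le_exp.2 ?_) h.1
      linarith
    · refine le_trans h.2 (Real.exp_le_exp.2 ?_)
      linarith
  · have hnum : ∀ Λ : Finset Pl, ZZ k β (L := L) P Q Λ =
        (sysS N L k β hN hβ).num (hm N) Λ (fun _ => 1) (vc P Q) := by
      intro Λ
      unfold ZZ Sys.num
      refine integral_congr_ae (Filter.Eventually.of_forall fun ξ => ?_)
      show _ = 1 * ∏ τ ∈ tml Λ, wt k β τ _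
      rw [one_mul]
      rfl
    have hpos : 0 < ZZ k β (L := L) P Q Λ := by
      rw [hnum]
      exact (h5 _ _ _ (sysS N L k β hN hβ) (hm N) Λ).1 _
    refine ⟨hpos, ?_⟩
    have e1 : ZZ k β (L := L) P Q (Λ.erase a) =
        (sysS N L k β hN hβ).num (hm N) Λ (PkgMA.kap k β P Q Λ a) (vc P Q) := by
      have := PkgMA.main_id h2 k β _ hβ hN0 hc hw P Q Λ a ha
      exact this.symm
    rw [e1]
    unfold Sys.ker
    rw [← hnum]
    field_simp

end T2H01.SE
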