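import Pool.Agent.T2H01.SE.SysJ

/-!
# Statements of the packages VA VL VE VC VI VS VR VG VJ VF VH VN (project SE)

Package `Y` proves `theorem pY : S_Y` (from other statements as hypotheses, in the order given) in the
file `Pool/Agent/T2H01/SE/Y.lean` which imports this file (auxiliary lemmas in the namespace
`T2H01.SE.PkgY`). Statements must not be changed; if one is false or awkward, tell helper1 at once.
The library of helper2, `Pool/Agent/T2H02/TT`, may be imported (all its statements `S_*` are theorems,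
see `All.lean`), but import only the files you need.

Notation: `SS = SS L k P Q` the vortex action; `EE k s U X` energy of all terms touching `U` with the
fluxes `s`; `Zf` partition functions; `cl U` cells touching `U`; `rE` energy of the ring around `U`
(the terms within distance one which do not touch `U`); `rD` squared distance from the vacuum of the
links of the ring; `dl a n` = flux `n` in the cell `a`.
-/

set_option autoImplicit false

noncomputable section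

open MeasureTheory Matrix
open scoped Matrix.Norms.Frobenius

namespace T2H01.SE

open T2H02.TT

/-! ### package VA : algebra of the fluxes (uses S_JI, S_JM of TT)

`oz N (n : ℕ) = om N n`. `df (cmv z X) ζ (x,y) 0 1 = om N (z x 0 + z (x+e_0) 1) • (X X) - (ζ om N (z x 1 +
z (x + e_1) 0)) • (X X)`; take out the first phase. For `gau` and for the terms of kind `≠ 3` : `S_JI`
(there `en1 = en`); for kind 3 : `df (gau g X) ζ p 0 1 = g p * df X ζ p 0 1 * (g (p+e_0+e_1))⁻¹`, Frobenius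
norms are invariant. `en ≤ enf`: every `oz N a` is some `om N m`, `m : Fin N`. Last part: `S_JM` (first
half) for `J = Frl L U` and `Φ X = exp (-β EE k s U X)` (`0 ≤ Φ ≤ 1`), and the invariances. -/

def S_VA : Prop := ∀ (N k L : ℕ) [NeZero L], 2 ≤ N →
  (∀ a b : ℤ, oz N (a + b) = oz N a * oz N b) ∧ (∀ a : ℤ, oz N a = 1 ↔ (N : ℤ) ∣ a) ∧
  (∀ n : ℕ, oz N (n : ℤ) = om N n) ∧ (∀ a : ℤ, ‖oz N a‖ = 1) ∧
  (∀ a b : ℤ, (N : ℤ) ∣ a - b → oz N a = oz N b) ∧
  (∀ (g : Pt L → SU N) (z : Pl → Fin 4 → ℕ) (s : Pl → ℤ) (X : Cf N L) (τ : Tm),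
    enf k s (gau g X) τ = enf k s X τ ∧ enf k s (cmv z X) τ = enf k (fun x => s x + crz z x) X τ) ∧
  (∀ (s : Pl → ℤ) (X : Cf N L) (τ : Tm), en k X τ ≤ enf k s X τ) ∧
  (∀ (β : ℝ), 0 ≤ β → ∀ (g : Pt L → SU N) (z : Pl → Fin 4 → ℕ) (s : Pl → ℤ) (U : Finset Pl)
    (η : Cf N L), Zf k β s U (gau g (cmv z η)) = Zf k β (fun x => s x + crz z x) U η)

/-! ### package VL : Lipschitz bound, energy of the vacuum (uses S_B0 of TT)

Products of two unitary matrices: `‖A B - A' B'‖ ≤ ‖A - A'‖ + ‖B - B'‖`, so `‖df Y z p i j - df X z p i j‖`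
is at most the sum of `‖Y l - X l‖` over the four links; `‖a + b‖² ≤ (1 + ρ) ‖a‖² + (1 + 1/ρ) ‖b‖²`.
The vacuum: kind 0 is `S_B0`; mixed terms: plane links are `1` and the torus links do not depend on the
site; plane terms: `eP (vc P Q) z x = L² ‖1 - z‖² / 2 ...`, `= 0` for `z = 1`. -/

def S_VL : Prop := ∀ (N k L : ℕ) [NeZero L], 2 ≤ N → Nat.Coprime k N → ∀ P Q : SU N, PQ k P Q →
  (∃ C : ℝ, 1 ≤ C ∧ ∀ (ρ : ℝ), 0 < ρ → ∀ (s : Pl → ℤ) (τ : Tm) (X Y : Cf N L),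
    enf k s Y τ ≤ (1 + ρ) * enf k s X τ +
      (1 + 1 / ρ) * C * ∑ l ∈ (spt τ : Finset (Lk L)), ‖(Y l : Mt N) - (X l : Mt N)‖ ^ 2) ∧
  (∀ (s : Pl → ℤ) (τ : Tm), (τ.2 = 3 → (N : ℤ) ∣ s τ.1) → enf k s (vc P Q : Cf N L) τ = 0) ∧
  (∀ (τ : Tm), en k (vc P Q : Cf N L) τ = 0)

/-! ### package VE : lower bound of the energy in the presence of a flux (uses S_VL)

Let `X' = glue (Frl L U) X (vc P Q)`. A link `l` of a term touching `U` which is not in `Frl L U` is in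
`rlk L U` (its sites are corners of the term, so within distance one of `U`, and not in `U`). So by VL
`EE k (dl a n) U X' ≤ (1 + ρ) EE k (dl a n) U X + (1 + 1/ρ) C C' rD P Q X U` (every link is in at most
`C'` terms). Translate by `-a` (`shf a`; `vc`, `enf`, `tml`, `Frl` are translation invariant): the
translated `X'` agrees with `vc` off `Frl L (U - a) ⊆ Frl L V`, `V = (U - a) ∪ {0}`; the terms of `tml V` not in
`tml (U - a)` have energy zero (all their links are as in `vc`, and they are not the cell `0`, which is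
in `cl (U - a)`). So `EE k (dl 0 n) V ..` is in `vset` and `≥ SS` (`csInf_le`, all elements are `≥ 0`). -/

def S_VE : Prop := ∀ (N k L : ℕ) [NeZero L], 2 ≤ N → Nat.Coprime k N → ∀ P Q : SU N, PQ k P Q →
  ∀ ρ : ℝ, 0 < ρ → ∃ C : ℝ, 1 ≤ C ∧ ∀ (U : Finset Pl) (a : Pl) (n : ℤ) (X : Cf N L), a ∈ cl U →
    ¬ (N : ℤ) ∣ n → SS L k P Q ≤ (1 + ρ) * EE k (dl a n) U X + C * rD P Q X U

/-! ### package VC : configurations of small energy (uses S_VL)

First part: VL with `X = vc`, `Y = glue (Frl L U) vc σ`, `ρ = 1`, all fluxes zero; only the links of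
`rlk L U` differ from `vc` among the links of the terms touching `U`. Second part: let `X₀`, `U₀ ∋ 0`,
`n₀` be an element of `vset` with energy `≤ SS + ρ / 2` (`vset` is not empty: `X = vc`, `U = {0}`,
`n = 1`), `U₀ ⊆ Nb K' 0`, `K = K' + 2`. For `Nb K c ⊆ U` let `X l =` the translate by `c` of `X₀` for
`l ∈ Frl L (Nb K' c)`, `vc l` for the other `l ∈ Frl L U`, `σ l` for `l ∉ Frl L U`. A term which has a link
in `rlk L U` has no link in `Frl L (Nb K' c)`; its energy is bounded by VL by `2 C Σ ‖σ l - vc l‖²`, it is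
not the cell `c`; the other terms have the energy of the translate of `X₀` (zero unless they touch
the translate of `U₀`). -/

def S_VC : Prop := ∀ (N k L : ℕ) [NeZero L], 2 ≤ N → Nat.Coprime k N → ∀ P Q : SU N, PQ k P Q →
  ∃ C : ℝ, 1 ≤ C ∧
  (∀ (U : Finset Pl) (σ : Cf N L),
    EE k (fun _ => 0) U (glue (Frl L U) (vc P Q) σ) ≤ C * rD P Q σ U) ∧
  (∀ ρ : ℝ, 0 < ρ → ∃ (K : ℕ) (n : ℤ), ¬ (N : ℤ) ∣ n ∧ ∀ (U : Finset Pl) (c : Pl), Nb K c ⊆ U →
    ∀ σ : Cf N L, ∃ X : Cf N L, (∀ l, l ∉ Frl L U → X l = σ l) ∧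
      EE k (dl c n) U X ≤ SS L k P Q + ρ + C * rD P Q σ U)

/-! ### package VI : lower bound of the partition functions (uses S_G2 of TT, S_VL)

Integrate only over the balls of radius `r = 1/β` around `X l`, `l ∈ Frl L U` (`#Frl L U ≤ C L² #U`): by
G2 their volume is at least `(c β^(-D'))^(#Frl)`. On it, by VL with `ρ = 1/β`,
`β Σ enf Y ≤ (β + 1) Σ enf X + β (1 + β) C Σ_τ #(spt τ) r² ≤ (β + 1) EE + C'' #U`. -/

def S_VI : Prop := ∀ (N k L : ℕ) [NeZero L], 2 ≤ N → Nat.Coprime k N →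
  ∃ (C : ℝ) (D : ℕ), 1 ≤ C ∧ ∀ β : ℝ, 1 ≤ β → ∀ (s : Pl → ℤ) (U : Finset Pl) (η X : Cf N L),
    (∀ l, l ∉ Frl L U → X l = η l) →
    Real.exp (-(β + 1) * EE k s U X) * ((C * β) ^ (D * U.card))⁻¹ ≤ Zf k β s U η

/-! ### package VS : the partition function depends on the total flux only (uses S_VA)

For `z` supported on links in `Frl L U` (i.e. `z x m ≠ 0` only if `m = 0, 1` and `x ∈ U` or `x + pe m ∈ U`)
`glue (Frl L U) ξ (cmv z η) = glue (Frl L U) ξ η`, so `Zf s U η = Zf (s + crz z) U η` (last part of VA,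
`g = 1`). `cl (rc a b) = rc (a - (1,1)) b`; two neighbouring cells of it share a link in `Frl`: moving
one unit of flux from `x` to `x - e_1` is `z x 0 = 1`, from `x` to `x - e_0`: `z x 1 = N - 1`; `oz` is
`N`-periodic, so `Zf` depends only on the `s x` modulo `N`, `x ∈ cl U`. Move everything to one cell. -/

def S_VS : Prop := ∀ (N k L : ℕ) [NeZero L], 2 ≤ N → ∀ β : ℝ, 0 ≤ β → ∀ (a b : Pl), a.1 ≤ b.1 →
  a.2 ≤ b.2 → ∀ (s s' : Pl → ℤ) (η : Cf N L), (N : ℤ) ∣ ∑ x ∈ cl (rc a b), (s x - s' x) →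
    Zf k β s (rc a b) η = Zf k β s' (rc a b) η

/-! ### package VR : ratios of the partition functions (uses S_VE S_VC S_VI S_VS)

`U = rc a b` has at most `(K+1)²` sites. (i) For `N ∤ n`: by VE with a small `ρ'` (and `Zf` is an integral
of a function `≤ exp (-β inf EE)` over a probability space) `Zf (dl a n) ≤ exp (-β (SS - C e) / (1 + ρ'))`;
by VC and VI `Zf (dl a 0) ≥ exp (-(β+1) C e) (C β)^(-D (K+1)²)`; choose `ρ'`, then `e` (independent of `K`),
then `β₀`.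
(ii) By VC (second part, `K₁`) and VI, VS: `Zf (dl a n₀) ≥ exp (-(β+1)(SS + ρ/8 + C e)) (C β)^(-D ..)`
and all `Zf ≤ 1`, so with `p_n = Zf (dl a n) / Σ_m Zf (dl a m)` (periodic in `n`): `p_0 ≥ exp (-β ρ/4)`,
`p_(n₀) ≥ exp (-β (SS + ρ/4))`, `|Σ p_n om^n|² = 1 - Σ_{n,m} p_n p_m (1 - Re om^(n-m))
≤ 1 - 2 p_0 p_(n₀) (1 - cos (2π/N))`, and `1 - Re oz N n₀ ≥ 1 - cos (2π/N) > 0` for `N ∤ n₀`. -/

def S_VR : Prop := ∀ (N k L : ℕ) [NeZero L], 2 ≤ N → Nat.Coprime k N → ∀ P Q : SU N, PQ k P Q →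
  ∀ ρ : ℝ, 0 < ρ →
  (∃ e : ℝ, 0 < e ∧ ∀ K : ℕ, ∃ β₀ : ℝ, 1 ≤ β₀ ∧ ∀ β : ℝ, β₀ ≤ β → ∀ (a b : Pl), a.1 ≤ b.1 → a.2 ≤ b.2 →
    b.1 - a.1 ≤ K → b.2 - a.2 ≤ K → ∀ σ : Cf N L, rD P Q σ (rc a b) ≤ e → ∀ n : ℤ, ¬ (N : ℤ) ∣ n →
      Zf k β (dl a n) (rc a b) σ ≤ Real.exp (-β * (SS L k P Q - ρ)) * Zf k β (dl a 0) (rc a b) σ) ∧
  (∃ K₁ : ℕ, ∀ K : ℕ, ∃ e β₀ : ℝ, 0 < e ∧ 1 ≤ β₀ ∧ ∀ β : ℝ, β₀ ≤ β → ∀ (a b c : Pl), a.1 ≤ b.1 →
    a.2 ≤ b.2 → b.1 - a.1 ≤ K → b.2 - a.2 ≤ K → Nb K₁ c ⊆ rc a b →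
    ∀ σ : Cf N L, rD P Q σ (rc a b) ≤ e →
      ‖∑ n ∈ Finset.range N, om N n * (Zf k β (dl a n) (rc a b) σ : ℂ)‖ ≤
        (1 - Real.exp (-β * (SS L k P Q + ρ))) *
          ∑ n ∈ Finset.range N, Zf k β (dl a n) (rc a b) σ)

/-! ### package VG : gauge fixing of a ring (uses S_D1, S_J of TT; compare packages M and DT of TT)

`nri N t` is an index `m < N` with the largest `Re (conj (om N m) * t)`, the least one. For `t = Σ_y tr U_y`
it minimises `Σ_y ‖U_y - om N m • 1‖² = 2 N L² - 2 Re (conj (om N m) t)`. By D1 and `GF` the gauge fixed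
torus links at a site `x` of the ring are within `C VV k (pt X x) + ε` of `vac`, `VV k (pt X x) = eV k X x`.
By J, for a link `(x,m)` with both ends in the ring, `Σ_y ‖U_y - om N m' • 1‖² ≤ C e_l` for some `m'`, hence
for the nearest one, `e_l = C (eV x + eV (x + pe m) + 2 eK x m + 2 ε)`; and `om N (N - j) om N j = 1`.
Sum over the links of the ring (all the terms used are in `rng U`; `#ring ≤ #pls U`). -/

/-- index of the nearest root of unity -/
def nri (N : ℕ) (t : ℂ) : ℕ := by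
  classical
  exact if h : ∃ m, m < N ∧ ∀ m' < N, (star (om N m') * t).re ≤ (star (om N m) * t).re then
    Nat.find h else 0

/-- the central element which brings the gauge fixed plane link from `x` in the direction `m` next
to `1` -/
def zz {N L : ℕ} [NeZero L] (G : Ph N L → Tor L → SU N) (X : Cf N L) (x : Pl) (m : Fin 4) : ℕ :=
  N - nri N (∑ y : Tor L,
    ((G (pt X x) y * X ((x, y), m) * (G (pt X (x + pe m)) y)⁻¹ : SU N) : Mt N).trace)

/-- the gauge transformation on the ring around `U` -/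
def gg {N L : ℕ} [NeZero L] (G : Ph N L → Tor L → SU N) (U : Finset Pl) (X : Cf N L) :
    Pt L → SU N := fun p => if p.1 ∈ pls U \ U then G (pt X p.1) p.2 else 1

/-- the centre transformation on the ring around `U` -/
def zr {N L : ℕ} [NeZero L] (G : Ph N L → Tor L → SU N) (U : Finset Pl) (X : Cf N L) :
    Pl → Fin 4 → ℕ := fun x m =>
  if (m = 0 ∨ m = 1) ∧ x ∈ pls U \ U ∧ x + pe m ∈ pls U \ U then zz G X x m else 0

def S_VG : Prop := ∀ (N k L : ℕ) [NeZero L], 2 ≤ N → Nat.Coprime k N → ∀ P Q : SU N, PQ k P Q →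
  ∃ C : ℝ, 1 ≤ C ∧ ∀ (ε : ℝ), 0 ≤ ε → ∀ G : Ph N L → Tor L → SU N, GF P Q ε G →
    (∀ (x : Pl) (m : Fin 4) (n : ℕ), MeasurableSet {X : Cf N L | zz G X x m = n}) ∧
    ∀ (U : Finset Pl) (X : Cf N L),
      rD P Q (gau (gg G U X) (cmv (zr G U X) X)) U ≤ C * (rE k X U + (pls U).card * ε)

/-! ### package VJ : the joint system (uses S_F2 of TT, S_VS)

(i) marginal: the weights depend only on `lk ω` and on the second components of the variables `inr x`;
integrate first over the second components (independent, uniform) of `inr x`, `x ∈ cl Λ`: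
`(1/N) Σ_{m : Fin N} exp (-β eP X (oz N m) x) = wt k β (x,3) X`, and `enf = en` for the other kinds;
`mj N` is a probability measure. (ii) for a rectangle `U` and a function of the total flux: the sum over
the fluxes of the cells of `cl U` of `Zf k β s U (lk ω)`, which depends only on the total flux modulo
`N` (VS); every value modulo `N` is taken `N^(#cl U - 1)` times. -/

def S_VJ : Prop := ∀ (N k L : ℕ) [NeZero L] (hN : 2 ≤ N) (β : ℝ) (hβ : 0 ≤ β),
  (∀ (Λ : Finset Pl) (f : Cf N L → ℝ), Measurable f → (∃ K, ∀ X, |f X| ≤ K) → ∀ ω : Cj N L,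
    (sysJ N L k β hβ).ker (mj N) Λ (fun ω' => f (lk ω')) ω =
      (sysS N L k β hN hβ).ker (hm N) Λ f (lk ω)) ∧
  (∀ (a b : Pl), a.1 ≤ b.1 → a.2 ≤ b.2 → ∀ φ : ℤ → ℝ, (∀ n, φ (n + N) = φ n) → ∀ ω : Cj N L,
    (sysJ N L k β hβ).ker (mj N) (rc a b) (fun ω' => φ (∑ x ∈ cl (rc a b), fx ω' x)) ω =
      (∑ n ∈ Finset.range N, φ n * Zf k β (dl a n) (rc a b) (lk ω)) /
        ∑ n ∈ Finset.range N, Zf k β (dl a n) (rc a b) (lk ω))

/-! ### package VF : fluxes and blocks in the joint system (uses S_VA S_VR S_VG S_VJ, S_EG of TT)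

The flux density of `ω` is `fd G ω x = fx ω x - crz (zz G (lk ω)) x`. For a rectangle `U`, every plane link of
a cell of `cl U` either touches `U`, and then it belongs to two cells of `cl U` which it enters with
opposite signs, or has both ends in the ring; so `Σ_{cl U} fd G ω = Σ_{cl U} fx ω - Σ_{cl U} crz (zr G U (lk ω))`
and the last sum depends only on the links which are not in `Frl L U`. Let `σ = gau (gg ..) (cmv (zr ..) (lk ω))`,
`rD P Q σ U ≤ C (rE + ..)` (VG), and by VA `Zf k β (dl a n) U (lk ω) = Zf k β (dl a n - crz (zr ..)) U σ`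
`= Zf k β (dl a (n - Σ_{cl U} crz (zr ..))) U σ` (VS: it is `S_VS` applied inside `S_VJ`; use it as an
additional hypothesis if you need it). With VJ (ii) both parts follow from VR. In the second part
choose a `GF` by `S_EG` with small `ε`. -/

/-- the flux density -/
def fd {N L : ℕ} [NeZero L] (G : Ph N L → Tor L → SU N) (ω : Cj N L) (x : Pl) : ℤ :=
  fx ω x - crz (zz G (lk ω)) x

def S_VF : Prop := ∀ (N k L : ℕ) [NeZero L], 2 ≤ N → Nat.Coprime k N → ∀ P Q : SU N, PQ k P Q →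
  ∀ ρ : ℝ, 0 < ρ →
  (∃ e : ℝ, 0 < e ∧ ∀ K : ℕ, ∃ β₀ : ℝ, 1 ≤ β₀ ∧ ∀ (β : ℝ) (hβ : 0 ≤ β), β₀ ≤ β →
    ∀ (ε : ℝ), 0 ≤ ε → ∀ G : Ph N L → Tor L → SU N, GF P Q ε G →
    ∀ (a b : Pl), a.1 ≤ b.1 → a.2 ≤ b.2 → b.1 - a.1 ≤ K → b.2 - a.2 ≤ K →
    (pls (rc a b)).card * ε ≤ e → ∀ ω : Cj N L, rE k (lk ω) (rc a b) ≤ e →
      (sysJ N L k β hβ).ker (mj N) (rc a b)
        (fun ω' => ind (¬ (N : ℤ) ∣ ∑ x ∈ cl (rc a b), fd G ω' x)) ω ≤
          Real.exp (-β * (SS L k P Q - ρ))) ∧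
  (∃ K₁ : ℕ, ∀ K : ℕ, ∃ e β₀ : ℝ, 0 < e ∧ 1 ≤ β₀ ∧ ∀ (β : ℝ) (hβ : 0 ≤ β), β₀ ≤ β →
    ∀ (a b c : Pl), a.1 ≤ b.1 → a.2 ≤ b.2 → b.1 - a.1 ≤ K → b.2 - a.2 ≤ K → Nb K₁ c ⊆ rc a b →
    ∀ ω : Cj N L, rE k (lk ω) (rc a b) ≤ e →
      ((sysJ N L k β hβ).ker (mj N) (rc a b)
        (fun ω' => (oz N (∑ x ∈ cl (rc a b), fx ω' x)).re) ω) ^ 2 +
      ((sysJ N L k β hβ).ker (mj N) (rc a b)
        (fun ω' => (oz N (∑ x ∈ cl (rc a b), fx ω' x)).im) ω) ^ 2 ≤
          (1 - Real.exp (-β * (SS L k P Q + ρ))) ^ 2)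

/-! ### package VH : a good ring exists with large probability (uses S_H S_F5 of TT, S_VL)

`Qs q j` are squares around the point `4 q`. The rings of `Qs q j`, `j = 1, ..., m`, are disjoint
sets of terms (`rng`), contained in the terms with corners in `B = pls (Qs q m)`. If all
`rE k X (Qs q j) > e` then `Σ_{τ ∈ tml (B ∩ Λ)} en k X τ > m e` (a term of `rng (Qs q j)` which does not touch
`B ∩ Λ` does not touch `Λ`, so all its links are as in `vc`, energy `0`; `X` agrees with `vc` off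
`Frl L Λ`). Apply `S_H` with `η = vc`, its `e = 0` (the vacuum has no energy: VL), `t = SS + 2`, and `R` with
`θ^R C #(bal (R+1) B) ≤ 1` (`#bal (R+1) B` is at most `(8 m + 10 + 2 R)²`): choose `m` with
`m e ≥ 1 + C (SS + 2)` first, then `R`, then `β₀`. (`SS ≥ 0`: infimum of nonnegative numbers.) -/

/-- squares around the point `4 q` -/
def Qs (q : Pl) (j : ℕ) : Finset Pl :=
  rc (4 * q.1 - 4 * j, 4 * q.2 - 4 * j) (4 * q.1 + 4 * j + 2, 4 * q.2 + 4 * j + 2)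

def S_VH : Prop := ∀ (N k L : ℕ) [NeZero L] (hN : 2 ≤ N), Nat.Coprime k N → ∀ P Q : SU N, PQ k P Q →
  ∀ e : ℝ, 0 < e → ∃ (m : ℕ) (β₀ : ℝ), 1 ≤ m ∧ 1 ≤ β₀ ∧ ∀ (β : ℝ) (hβ : 0 ≤ β), β₀ ≤ β →
    ∀ (Λ : Finset Pl) (q : Pl), (sysS N L k β hN hβ).ker (hm N) Λ
      (fun X => ind (∀ j ∈ Finset.Icc 1 m, e < rE k X (Qs q j))) (vc P Q) ≤
        Real.exp (-β * (SS L k P Q + 1))

/-! ### package VN : no flux inside good rings implies no total flux (uses S_VL; combinatorics)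

A parity rectangle is `rc a b` with `a ≤ b`, `4 ∣ a.i`, `4 ∣ b.i - 2`. The box `Λ = rc a b` and all `Qs q j` are
such. For `y ∈ Λ` let `q = (y.1 / 4, y.2 / 4)` (floor), `1 ≤ j ≤ m` with a good ring (`rE ≤ e`), and
`U_y = Qs q j ∩ Λ` (contains `y`). Let `W` be the intersection of some of the `U_y`. Because of the
parity: the `cl U_y = rc (a_y - (1,1)) b_y` have a common element iff the `U_y` have one, and then
`∩ cl U_y = cl W`, `W` a parity rectangle contained in `Λ` of sides `≤ 8 m + 2`. Each of the four sides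
of `W` is a side of one of the squares `Qs` or of `Λ`; a term of `rng W` (there are no plane terms in the
ring of a rectangle of width and height `≥ 2`) has all its corners beyond the same side of `W`, so it is
in `rng` of that square `Qs q j`, or all its corners are outside `Λ` and its energy is zero (`X = vc` on
all its links). So `rE k X W ≤ 4 e`, and `N ∣ Σ_{cl W} d`. The union of the `cl U_y` is `cl Λ`;
inclusion-exclusion (`Finset.inclusion_exclusion_sum_biUnion` or similar) gives `N ∣ Σ_{cl Λ} d`. -/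

def S_VN : Prop := ∀ (N k L : ℕ) [NeZero L], 2 ≤ N → Nat.Coprime k N → ∀ P Q : SU N, PQ k P Q →
  ∀ (m : ℕ) (e : ℝ), 0 ≤ e → ∀ (a b : Pl), a.1 ≤ b.1 → a.2 ≤ b.2 → (4 : ℤ) ∣ a.1 → (4 : ℤ) ∣ a.2 →
    (4 : ℤ) ∣ b.1 - 2 → (4 : ℤ) ∣ b.2 - 2 → ∀ (X : Cf N L) (d : Pl → ℤ),
    (∀ l, l ∉ Frl L (rc a b) → X l = vc P Q l) →
    (∀ y ∈ rc a b, ∃ j ∈ Finset.Icc 1 m, rE k X (Qs (y.1 / 4, y.2 / 4) j) ≤ e) →
    (∀ a' b' : Pl, a'.1 ≤ b'.1 → a'.2 ≤ b'.2 → a' ∈ rc a b → b' ∈ rc a b →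
      b'.1 - a'.1 ≤ 8 * m + 2 → b'.2 - a'.2 ≤ 8 * m + 2 →
      rE k X (rc a' b') ≤ 4 * e → (N : ℤ) ∣ ∑ x ∈ cl (rc a' b'), d x) →
    (N : ℤ) ∣ ∑ x ∈ cl (rc a b), d x

end T2H01.SE
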