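import Pool.Agent.T2H01.SE.Stm5

/-!
# Statements of the packages UA UB UC UD UE UF UG UH UI UJ UK UL (project SE): the dilute gas of vortices

Same rules as in `Stm1.lean`. The aim: for all charges `c` and all even `A, B ≥ exp (ε β)`
`- log (|Z_c| / Z_0) = A B Σ_n ζ_n (1 - cos (2 π c n / N)) (1 ± η)` with fugacities `ζ_n` independent of `c`, `A`, `B`.
-/

set_option autoImplicit false

noncomputable section

open MeasureTheory Matrix
open scoped Matrix.Norms.Frobenius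

namespace T2H01.SE

open T2H02.TT

/-! ### package UA : two more kernel inequalities (abstract; `TA.lean` has all the tools)

`cyc n = tr K^n`, `K` Hermitian, `‖K‖_HS ≤ 1`. For even `n = 2 h`, `cyc n = ∫∫ |K^(h)|² = |K^(h)|_HS² ≥ 0`.
(i) `|K^(h j)|_HS ≤ |K^(h)|_HS^j` (`j ≥ 1`). (ii) `cyc (2 h) = ⟨K^(h-1), K^(h+1)⟩_HS`, so
`cyc (2 h)² ≤ cyc (2 h - 2) cyc (2 h + 2)`, `h ≥ 2`. -/

/-- cyclic integral -/
def cyc {Y : Type} [MeasurableSpace Y] (ν : Measure Y) (a : Y → ℝ) (b : Y → Y → ℂ) (n : ℕ) [NeZero n] :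
    ℂ :=
  ∫ V : Fin n → Y, (∏ t, ((a (V t) : ℂ) * b (V t) (V (t + 1)))) ∂(Measure.pi fun _ => ν)

def S_UA : Prop := ∀ (Y : Type) [MeasurableSpace Y] (ν : Measure Y) [IsProbabilityMeasure ν]
  (a : Y → ℝ) (b : Y → Y → ℂ), Measurable a → Measurable (Function.uncurry b) →
  (∀ y, 0 ≤ a y ∧ a y ≤ 1) → (∀ y y', ‖b y y'‖ ≤ 1 ∧ b y' y = star (b y y')) →
  (∀ (n j : ℕ) [NeZero n] [NeZero (n * j)], Even n → ‖cyc ν a b (n * j)‖ ≤ ‖cyc ν a b n‖ ^ j) ∧
  (∀ (p q r : ℕ) [NeZero p] [NeZero q] [NeZero r], Even p → q = p + 2 → r = p + 4 →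
    ‖cyc ν a b q‖ ^ 2 ≤ ‖cyc ν a b p‖ * ‖cyc ν a b r‖)

/-! ### package UB : the same for the torus (uses S_UA; `TB.lean` has the layering)

`TZc .. c false v A B = cyc ν a b A` with the `Y, ν, a, b` of package TB, which do not depend on `A`. -/

def S_UB : Prop := ∀ (N k L : ℕ) [NeZero L], 2 ≤ N → Nat.Coprime k N → ∀ P Q : SU N, PQ k P Q →
  ∀ (β : ℝ), 0 ≤ β → ∀ (c B : ℕ) [NeZero B], 2 ≤ B →
  (∀ (A j : ℕ) [NeZero A] [NeZero (A * j)], Even A →
    ‖TZc N L k β P Q c false false (A * j) B‖ ≤ ‖TZc N L k β P Q c false false A B‖ ^ j) ∧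
  (∀ (A A' A'' : ℕ) [NeZero A] [NeZero A'] [NeZero A''], Even A → A' = A + 2 → A'' = A + 4 →
    ‖TZc N L k β P Q c false false A' B‖ ^ 2 ≤
      ‖TZc N L k β P Q c false false A B‖ * ‖TZc N L k β P Q c false false A'' B‖)

/-! ### the torus with any periodic set of frozen sites (charge zero) -/

/-- `F` has the periods `A`, `B` -/
def pse (A B : ℕ) (F : Set Pl) : Prop :=
  ∀ (a : Pl) (i j : ℤ), a + ((A : ℤ) * i, (B : ℤ) * j) ∈ F ↔ a ∈ F

open Classical in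
/-- all links between sites of `F` are as in the vacuum -/
def fzF {N L : ℕ} [NeZero L] (P Q : SU N) (F : Set Pl) (X : Cf N L) : Cf N L := fun l =>
  if ∀ a ∈ st l, a ∈ F then vc P Q l else X l

/-- weight of all terms over the fundamental domain -/
def wfd {N L : ℕ} [NeZero L] (k : ℕ) (β : ℝ) (A B : ℕ) (X : Cf N L) : ℝ :=
  ∏ x ∈ fdm A B, ∏ i : Fin 4, wt k β (x, i) X

/-- partition function of the torus with the frozen sites `F` -/
def TY (N L : ℕ) [NeZero L] (k : ℕ) (β : ℝ) (P Q : SU N) (F : Set Pl) (A B : ℕ) [NeZero A] [NeZero B] :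
    ℝ :=
  ∫ X : TC N A B L, wfd k β A B (fzF P Q F (per X)) ∂(Measure.infinitePi fun _ => hm N)

/-- add the site `s` and its translates -/
def adp (A B : ℕ) (F : Set Pl) (s : Pl) : Set Pl :=
  F ∪ {a | ∃ i j : ℤ, a = s + ((A : ℤ) * i, (B : ℤ) * j)}

/-! ### package UC : conditioning on the torus (uses S_F2 of TT; compare S_TP, S_F3)

`f` depends only on links over `Nb (r+1) s`, whose translates by the periods are all different. Split
`wfd = ∏_{τ ∈ tml Δ} wt * rest`: every term touching `Δ` is equivalent (by a period) to exactly one term over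
`fdm A B`, `wt .. (per X)` and `wt .. (fzF (per X))` are invariant under the periods. The rest does not depend on the
links of the torus which are images of `Frl L Δ`. By F2 for the set of these links of the torus (they are
independent Haar variables, in bijection with `Frl L Δ`; `fzF` does not change a link touching `Δ`, as `Δ ∩ F = ∅`):
`∫ f * W = ∫ rest * (num Δ f) = ∫ rest * (ker Δ f) * num Δ 1 = ∫ (ker Δ f) * W`. -/

def S_UC : Prop := ∀ (N k L : ℕ) [NeZero L] (hN : 2 ≤ N) (P Q : SU N) (β : ℝ) (hβ : 0 ≤ β)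
  (A B : ℕ) [NeZero A] [NeZero B] (F : Set Pl), pse A B F → ∀ (s : Pl) (r : ℕ), 2 * r + 4 ≤ A →
  2 * r + 4 ≤ B → ∀ Δ : Finset Pl, (∀ a ∈ Δ, a ∈ Nb r s ∧ a ∉ F) →
  ∀ f : Cf N L → ℝ, Measurable f → (∃ K, ∀ X, |f X| ≤ K) →
    Sys.dep {l | ∀ a ∈ st l, a ∈ Nb (r + 1) s} f →
    ∫ X : TC N A B L, f (fzF P Q F (per X)) * wfd k β A B (fzF P Q F (per X))
        ∂(Measure.infinitePi fun _ => hm N) =
      ∫ X : TC N A B L, (sysS N L k β hN hβ).ker (hm N) Δ f (fzF P Q F (per X)) *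
        wfd k β A B (fzF P Q F (per X)) ∂(Measure.infinitePi fun _ => hm N)

/-! ### package UD : freezing one more site (uses S_F2 S_G3 of TT, S_VL; compare `MA.lean`)

`kpf F s X` : quotient of the product of the weights of all terms touching `s`, with the links between `s` and
`F ∪ {s}` (and inside `F ∪ {s}`) as in the vacuum, and of the integral of the same product over these links at `s`.
The terms not touching `s` do not contain a link which touches `s`. Only the links which touch `s` (and their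
translates) change when `s` and its translates are frozen (`8 ≤ A, B`: near `s` the sets `adp A B F s` and
`F ∪ {s}` agree). By F2 for the links of the torus which are images of the links `l` with `s ∈ st l`, other end in
`F ∪ {s}`: `TY (adp F s) = ∫ wfd (fzF (adp F s) (per X)) = ∫ kpf (fzF F (per X)) * wfd (fzF F (per X))`. Bounds: G3. -/

open Classical in
/-- the local function -/
def kpf {N L : ℕ} [NeZero L] (k : ℕ) (β : ℝ) (P Q : SU N) (F : Set Pl) (s : Pl) (X : Cf N L) : ℝ :=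
  (∏ τ ∈ tml {s}, wt k β τ (fzF P Q (F ∪ {s}) X)) /
    ∫ ζ, (∏ τ ∈ tml {s}, wt k β τ
      (fun l => if s ∈ st l ∧ ∀ a ∈ st l, a ∈ F ∪ {s} then ζ l else fzF P Q (F ∪ {s}) X l)) ∂(pm N L)

def S_UD : Prop := ∀ (N k L : ℕ) [NeZero L], 2 ≤ N → Nat.Coprime k N → ∀ P Q : SU N, PQ k P Q →
  ∃ C : ℝ, 1 ≤ C ∧ ∀ β : ℝ, 1 ≤ β → ∀ (F : Set Pl) (s : Pl), s ∉ F →
    (Measurable (kpf k β P Q F s : Cf N L → ℝ)) ∧
    (∀ X : Cf N L, Real.exp (-C * β) ≤ kpf k β P Q F s X ∧ kpf k β P Q F s X ≤ Real.exp (C * β)) ∧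
    (Sys.dep {l | ∀ a ∈ st l, a ∈ Nb 1 s} (kpf k β P Q F s : Cf N L → ℝ)) ∧
    (∀ F' : Set Pl, (∀ a ∈ Nb 1 s, a ∈ F ↔ a ∈ F') →
      (kpf k β P Q F s : Cf N L → ℝ) = kpf k β P Q F' s) ∧
    (∀ (A B : ℕ) [NeZero A] [NeZero B], 8 ≤ A → 8 ≤ B → pse A B F →
      0 < TY N L k β P Q F A B ∧
      TY N L k β P Q (adp A B F s) A B = ∫ X : TC N A B L,
        kpf k β P Q F s (fzF P Q F (per X)) * wfd k β A B (fzF P Q F (per X))
          ∂(Measure.infinitePi fun _ => hm N))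

/-! ### package UE : the cost of freezing a site is local (uses S_F5 of TT, S_UC S_UD S_PC)

`Δ = {a ∈ Nb r s | a ∉ F}`, `Ω = {a ∈ Nb (r+1) s | a ∉ F}`, the same for `F'`. By UD and UC each quotient
`TY (adp F s) / TY F` is an average of `(ker Δ κ) (fzF F (per X))`, `κ = kpf F s = kpf F' s`. The kernel depends only on links
over `Nb (r+1) s` (F5), so in its argument we may replace the links which do not touch `Ω` by those of the vacuum
(those over `Nb (r+1) s` not touching `Ω` have both sites in `F`: they are already as in the vacuum). By PC for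
`κ / exp (C β)` (`A = Nb 1 s`, `n = r - 1`) all these values differ by at most `exp (C β) 54 β^κ exp (-m (r-1))`, and they are
`≥ exp (-C β)`. -/

def S_UE : Prop := ∀ (N k L : ℕ) [NeZero L], 2 ≤ N → Nat.Coprime k N → ∀ P Q : SU N, PQ k P Q →
  ∃ m C β₀ : ℝ, 0 < m ∧ 1 ≤ C ∧ 1 ≤ β₀ ∧ ∀ β : ℝ, β₀ ≤ β →
  ∀ (A B A' B' : ℕ) [NeZero A] [NeZero B] [NeZero A'] [NeZero B'] (r : ℕ), 2 ≤ r → 2 * r + 4 ≤ A →
    2 * r + 4 ≤ B → 2 * r + 4 ≤ A' → 2 * r + 4 ≤ B' → ∀ (F F' : Set Pl) (s : Pl), pse A B F →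
    pse A' B' F' → s ∉ F → (∀ a ∈ Nb (r + 1) s, a ∈ F ↔ a ∈ F') →
    TY N L k β P Q (adp A B F s) A B * TY N L k β P Q F' A' B' ≤
      TY N L k β P Q (adp A' B' F' s) A' B' * TY N L k β P Q F A B *
        Real.exp (Real.exp (C * β - m * r))

/-! ### package UF : two frozen columns decouple (compare TD)

With all columns `≡ 0 mod a` frozen, the terms over `[0, a) × [0, b)` and those over `[a, 2 a) × [0, b)` contain no
common link which is not frozen; the product measure factorises and both factors are `TY .. a b`. -/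

def S_UF : Prop := ∀ (N k L : ℕ) [NeZero L], 2 ≤ N → ∀ (P Q : SU N) (β : ℝ), 0 ≤ β →
  ∀ (a b : ℕ) [NeZero a] [NeZero b] [NeZero (2 * a)], 2 ≤ a → 2 ≤ b →
    TY N L k β P Q {x | (a : ℤ) ∣ x.1} (2 * a) b = TY N L k β P Q {x | (a : ℤ) ∣ x.1} a b ^ 2

/-! ### package UG : doubling the torus (uses S_UE S_UF S_UD)

`C₀ n b = TY ∅ n b`. In the torus `a × b` freeze the sites `(0, 0), (0, 1), ..., (0, b-1)` (and their translates) one
after the other, in the torus `2 a × b` first the same sites, then the sites `(a, 0), ..., (a, b-1)` (for the second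
series compare with the torus `a × b` in which the sites `(a, t)`, translates of `(0, t)`, are frozen). By UE with
`r = min a b / 2 - 3` (integer part) each quotient for the big torus is at most `exp (exp (C β - m r))` times the corresponding
one for the small torus, so `TY D (2 a) b / TY ∅ (2 a) b ≤ (TY D a b / TY ∅ a b)² exp (2 b exp (C β - m r))`, `D = {x | a ∣ x.1}`;
then UF. (Periods: a set with the period `a` has the period `2 a`; the frozen sets are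
`{x | a ∣ x.1 and x.2 mod b < t}` for the small torus and similar ones for the big torus.) -/

def S_UG : Prop := ∀ (N k L : ℕ) [NeZero L], 2 ≤ N → Nat.Coprime k N → ∀ P Q : SU N, PQ k P Q →
  ∃ m C β₀ : ℝ, 0 < m ∧ 1 ≤ C ∧ 1 ≤ β₀ ∧ ∀ β : ℝ, β₀ ≤ β →
  ∀ (a b : ℕ) [NeZero a] [NeZero b] [NeZero (2 * a)], 10 ≤ a → 10 ≤ b →
    TY N L k β P Q ∅ a b ^ 2 ≤
      TY N L k β P Q ∅ (2 * a) b * Real.exp (b * Real.exp (C * β - m * (min a b : ℕ)))

/-! ### package UH : the lower bound in boxes for all charges (copy of `TX.lean` with `c` in place of `1`)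

`|Σ_n om^(c n) Zf n| ≥ Zf 0 - Σ_{n ≥ 1} Zf n` for all `c`. -/

def S_UH : Prop := ∀ (N k L : ℕ) [NeZero L], 2 ≤ N → Nat.Coprime k N → ∀ P Q : SU N, PQ k P Q →
  ∀ ρ : ℝ, 0 < ρ → ∃ K β₀ : ℝ, 1 ≤ K ∧ 1 ≤ β₀ ∧ ∀ β : ℝ, β₀ ≤ β → ∀ c i j : ℕ, K * β ≤ i → K * β ≤ j →
    Real.exp (-(Real.exp (-β * (SS L k P Q - ρ)) * ((4 * i + 3) * (4 * j + 3)))) *
      ZZ k β (L := L) P Q (rc 0 (4 * i + 2, 4 * j + 2)) ≤
        ‖Zc k β c (rc 0 (4 * i + 2, 4 * j + 2)) (vc P Q : Cf N L)‖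

/-! ### package UI : lower bound of the charged torus (real analysis; uses S_TB S_TS S_TD S_TE S_ZT S_RT; compare TG)

As in TG: `‖TZc c f f a b‖^(i j) ≥ ‖Zc c (rc (1,1) (a i + 3, b j + 3)) vc‖ ≥ exp (-η (..)) ZZ (..)
≥ exp (-η (a i + 3) (b j + 3) - C β (a i + b j + 8)) ‖TZc 0 f f (a i + 4) (b j + 4)‖` (first part of TE, TD)
`≥ exp (-η (..) - C β (..) - f (a i + 4) (b j + 4))`; power `1 / (i j)`, `i = j → ∞`. -/

def S_UI : Prop := ∀ (N k L : ℕ) [NeZero L], 2 ≤ N → Nat.Coprime k N → ∀ P Q : SU N, PQ k P Q →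
  ∀ β : ℝ, 1 ≤ β → ∀ (η f : ℝ) (J c : ℕ), 0 ≤ η →
    (∀ i j : ℕ, J ≤ i → J ≤ j →
      Real.exp (-(η * ((4 * i + 3) * (4 * j + 3)))) *
        ZZ k β (L := L) P Q (rc 0 (4 * i + 2, 4 * j + 2)) ≤
          ‖Zc k β c (rc 0 (4 * i + 2, 4 * j + 2)) (vc P Q : Cf N L)‖) →
    (∀ (a b : ℕ) [NeZero a] [NeZero b], Even a → Even b →
      Real.exp (-(f * (a * b))) ≤ ‖TZc N L k β P Q 0 false false a b‖) →
    ∀ (a b : ℕ) [NeZero a] [NeZero b], Even a → Even b →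
      Real.exp (-((η + f) * (a * b))) ≤ ‖TZc N L k β P Q c false false a b‖

/-! ### package UJ : free energy (pure real analysis)

`g a b = - log (y a b) / (a b)`, `f = sup g` over the even `a, b ≥ 2` (bounded above: (h0)). For fixed `b` and even
`A ≥ a`: `g A b ≥ g a b` (`-log y` is concave in `A` over the even integers (h2) and `-log y (a j) b ≥ j (-log y a b)` (h1):
interpolate between the multiples of `a`); by symmetry the same in `b`. Doubling (h3), with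
`τ = exp (C - m min a b)`: `- log y (2^i a) b ≤ 2^i (-log y a b) + 2^i b τ`, and then in `b`: for all `i, j`:
`g (2^i a) (2^j b) ≤ g a b + τ / a + τ / b`. So for all even `a', b'` (choose `i`, `j` large):
`g a' b' ≤ g (2^i a) (2^j b) ≤ g a b + 2 τ`: `f ≤ g a b + 2 τ`. -/

def S_UJ : Prop := ∀ (y : ℕ → ℕ → ℝ) (C₀ C m : ℝ), 0 < m →
  (∀ a b, 0 < y a b ∧ y a b = y b a ∧ Real.exp (-C₀ * (a * b)) ≤ y a b ∧ y a b ≤ 1) →
  (∀ a b j : ℕ, Even a → 2 ≤ a → 2 ≤ b → 1 ≤ j → y (a * j) b ≤ y a b ^ j) →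
  (∀ a b : ℕ, Even a → 2 ≤ a → 2 ≤ b → y (a + 2) b ^ 2 ≤ y a b * y (a + 4) b) →
  (∀ a b : ℕ, 10 ≤ a → 10 ≤ b → y a b ^ 2 ≤ y (2 * a) b *
    Real.exp (b * Real.exp (C - m * (min a b : ℕ)))) →
  ∃ f : ℝ, (∀ a b : ℕ, Even a → Even b → 2 ≤ a → 2 ≤ b → Real.exp (-(f * (a * b))) ≤ y a b) ∧
    ∀ a b : ℕ, Even a → Even b → 10 ≤ a → 10 ≤ b →
      y a b ≤ Real.exp (-(f * (a * b)) + 2 * Real.exp (C - m * (min a b : ℕ)) * (a * b))

/-! ### package UK : the area law at all scales (pure real analysis)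

Let `a₁` be even, `τ ≥ 0`, `x c a b` (`c < N`) positive, symmetric, `x ≤ y`, with (h1) `x c (a j) b ≤ (x c a b)^j`, (h2)
log-convexity in `a` over the even integers, (h3) `exp (-f a b) ≤ y a b ≤ exp (-f a b + τ a b)` for even `a, b ≥ a₁`.
`w c a b = - log (x c a b) - f a b`, `W c a b = w c a b / (a b)`: `u - τ a b ≤ w ≤ u`, `u c a b = log (y a b / x c a b)`.
For even `A ≥ 2 a` (`a ≥ a₁` even): `W a b ≤ W A b ≤ 2 W (2 a) b - W a b`: the left one by (h1) and concavity of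
`w` (interpolate between the multiples of `a`), the right one by concavity: `w A b ≤ w (2 a) b + (A - 2 a) / a *
(w (2 a) b - w a b)` and `W (2 a) b ≥ W a b`. By symmetry in both variables, for even `A, B ≥ 2 a`:
`W a a ≤ W A B ≤ W a a + 4 (W (2 a) (2 a) - W a a)`. `V a = Σ_c W c a a` does not decrease from `a` to `2 a`, and
`s₁ - N τ ≤ V a ≤ N s₂` for `a ≥ a₁` (h4: `exp (-s₂ a b) y ≤ x c a b` for all `c`, `x 1 a b ≤ exp (-s₁ a b) y`); as
`2 N τ ≤ s₁` and `2 N s₂ / s₁ ≤ (1 + η)^K`, for one of the `a = 2^i a₁`, `i < K`: `V (2 a) ≤ (1 + η) V a`. So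
`|W c A B - W c a a| ≤ 4 η V a ≤ 4 η N s` for all even `A, B ≥ 2^K a₁`, with `s = W`-sum at `(A, B)`; compare two
pairs: `|W c A B - W c A' B'| ≤ 8 η V a`, `V a ≤ Σ_c W c A' B'`. -/

def S_UK : Prop := ∀ (N K a₁ : ℕ) (x : ℕ → ℕ → ℕ → ℝ) (y : ℕ → ℕ → ℝ) (f τ s₁ s₂ η : ℝ), 2 ≤ N →
  Even a₁ → 2 ≤ a₁ → 0 ≤ τ → 0 < s₁ → 0 < η → η ≤ 1 → 2 * N * τ ≤ s₁ →
  2 * N * s₂ ≤ s₁ * (1 + η) ^ K →
  (∀ c a b : ℕ, Even a → Even b → a₁ ≤ a → a₁ ≤ b → 0 < y a b ∧ 0 < x c a b ∧ x c a b ≤ y a b ∧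
    x c a b = x c b a ∧ y a b = y b a) →
  (∀ c a b j : ℕ, Even a → Even b → a₁ ≤ a → a₁ ≤ b → 1 ≤ j → x c (a * j) b ≤ x c a b ^ j) →
  (∀ c a b : ℕ, Even a → Even b → a₁ ≤ a → a₁ ≤ b → x c (a + 2) b ^ 2 ≤ x c a b * x c (a + 4) b) →
  (∀ a b : ℕ, Even a → Even b → a₁ ≤ a → a₁ ≤ b → Real.exp (-(f * (a * b))) ≤ y a b ∧
    y a b ≤ Real.exp (-(f * (a * b)) + τ * (a * b))) →
  (∀ c a b : ℕ, Even a → Even b → a₁ ≤ a → a₁ ≤ b → Real.exp (-(s₂ * (a * b))) * y a b ≤ x c a b) →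
  (∀ a b : ℕ, Even a → Even b → a₁ ≤ a → a₁ ≤ b → x 1 a b ≤ Real.exp (-(s₁ * (a * b))) * y a b) →
  ∀ A B A' B' : ℕ, Even A → Even B → Even A' → Even B' → 2 ^ K * a₁ ≤ A → 2 ^ K * a₁ ≤ B →
    2 ^ K * a₁ ≤ A' → 2 ^ K * a₁ ≤ B' → ∀ c < N,
    |Real.log (y A B / x c A B) / (A * B) - Real.log (y A' B' / x c A' B') / (A' * B')| ≤
      8 * η * (∑ c' ∈ Finset.range N, Real.log (y A' B' / x c' A' B') / (A' * B')) + 2 * τ

/-! ### package UL : small probabilities (elementary analysis)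

`p n ≥ 0`, `Σ_{n < N} p n = 1`, `q = Σ_{1 ≤ n < N} p n ≤ 1/8`, `z = Σ p n om^(c n) = 1 - Σ_{n ≥ 1} p n (1 - om^(c n))`, so with
`v = Σ_{n ≥ 1} p n (1 - om^(c n))`, `‖v‖ ≤ 2 q`, `re v = Σ p n (1 - cos (2 π c n / N))`: `|log ‖1 - v‖ + re v| ≤ 2 ‖v‖²`. -/

def S_UL : Prop := ∀ (N c : ℕ) (p : ℕ → ℝ), 2 ≤ N → (∀ n, 0 ≤ p n) →
  ∑ n ∈ Finset.range N, p n = 1 → ∑ n ∈ Finset.Ico 1 N, p n ≤ 1 / 8 →
  |Real.log ‖∑ n ∈ Finset.range N, om N (c * n) * (p n : ℂ)‖ +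
    ∑ n ∈ Finset.Ico 1 N, p n * (1 - Real.cos (2 * Real.pi * (c * n) / N))| ≤
      8 * (∑ n ∈ Finset.Ico 1 N, p n) ^ 2

end T2H01.SE
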