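import Pool.Agent.T2H01.SE.Stm6

/-!
# Statements of the last packages UM UN DG (project SE)

Same rules as in `Stm1.lean`.
-/

set_option autoImplicit false

noncomputable section

open MeasureTheory Matrix
open scoped Matrix.Norms.Frobenius

namespace T2H01.SE

open T2H02.TT

/-! ### package UM : the charged partition functions of an even torus are nonnegative (see `UB.lean`, `TA.lean`)

`TZc .. c false false A B = cyc ν a b A = tr K^A = ∫∫ |K^(A/2)|²` for even `A`. -/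

def S_UM : Prop := ∀ (N k L : ℕ) [NeZero L], 2 ≤ N → Nat.Coprime k N → ∀ P Q : SU N, PQ k P Q →
  ∀ (β : ℝ), 0 ≤ β → ∀ (c A B : ℕ) [NeZero A] [NeZero B], 2 ≤ B → Even A →
    TZc N L k β P Q c false false A B = (‖TZc N L k β P Q c false false A B‖ : ℂ)

/-! ### package UN : charge zero (uses S_G3 of TT)

`wch N β 0 x X = wt k β (x, 3) X`, `exp (-β en1) = wt` for the kinds `0, 1, 2`, `fzF ∅ X = X` (`st l` is not empty);
all weights are in `[exp (-C β), 1]` for `β ≥ 1` (G3; `N ≤ exp (C β)`), `4 A B` factors. -/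

def S_UN : Prop := ∀ (N k L : ℕ) [NeZero L], 2 ≤ N → ∀ P Q : SU N, ∃ C : ℝ, 1 ≤ C ∧ ∀ β : ℝ, 1 ≤ β →
  ∀ (A B : ℕ) [NeZero A] [NeZero B],
    TZc N L k β P Q 0 false false A B = (TY N L k β P Q ∅ A B : ℂ) ∧
    Real.exp (-(C * β * (A * B))) ≤ TY N L k β P Q ∅ A B ∧ TY N L k β P Q ∅ A B ≤ 1 ∧
    (∀ n : ℤ, 0 < TZ N L k β n A B)

/-! ### package DG : the dilute gas (final assembly; real analysis; uses the statements in the theorem below)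

`S = SS > 0` (SP). Given `ε, η`: `κ = min ε (S/16) / 4`, `η' = min 1 (η / (100 N))`, `ρ = κ log (1 + η') / 4` (so
`ρ ≤ κ / 4`), `a₁ = 2 ⌈exp (κ β)⌉`, `K = ⌊κ β / log 2⌋`, `a₂ = 2^K a₁ ≤ exp (3 κ β) ≤ exp (ε β)` for large `β`.
`y a b = TY ∅ a b` (`1` if `a = 0` or `b = 0`), `x c a b = ‖TZc c f f a b‖` (`1` if `a = 0` or `b = 0`). `f`, and
`τ = 2 exp (C β - m a₁)`, from UJ (its hypotheses: UN, TS, UB (with UN), UG; constants `C₀ = C β`, `C := C β`).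
`s₁ = exp (-β (S + ρ))` : TU with TQ (`N x c = ‖Σ om^(c n) TZ n‖`, `N y = Σ TZ n`). `s₂ = exp (-β (S - ρ)) + τ` : UH gives the
hypothesis of UI (`J = ⌈K β⌉`), so `x c a b ≥ exp (-(exp (-β (S - ρ)) + f) a b) ≥ exp (-s₂ a b) y a b` and `x c > 0`.
`2 N s₂ ≤ s₁ (1 + η')^K` for large `β`: `log (4 N) + 2 ρ β ≤ (κ β / log 2 - 1) log (1 + η')`. Now UK (for `c < N`; in general
`om N (c n)` and `cos` depend only on `c` modulo `N`) with `A' = B' = a₂`.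
`p n = TZ n a₂ a₂ / Σ TZ`, `ζ n = p n / a₂²`. By UM the numbers `Σ_n p n om^(c n) = x c / y ≥ exp (-s₂ a₂²)` are real, and
`Σ_{c < N} (1 - Σ_n p n om^(c n)) = N q`, `q = Σ_{1 ≤ n < N} p n` (`Σ_{c<N} om^(c n) = 0` for `N ∤ n`), so `q ≤ s₂ a₂²`
(`≤ exp (-β S / 4)`, small). UL: `|log (x c / y) + Σ p n (1 - cos)| ≤ 8 q²`. From `c = 1`: `s₁ a₂² ≤ 2 q + 8 q² ≤ 3 q`. So
`exp (-β (S + ε)) ≤ s₁ / 3 ≤ Σ ζ = q / a₂² ≤ s₂ ≤ exp (-β (S - ε))` (`τ` is tiny). The sum in UK is at most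
`N (2 Σ ζ + 8 q Σ ζ) ≤ 3 N Σ ζ`. Total error `24 N η' Σ ζ + 2 τ + 8 q Σ ζ ≤ η Σ ζ`. First part: WF for `ε`. -/

/-- the conclusion -/
def S_DG : Prop := ∀ (N k L : ℕ) [NeZero L], 2 ≤ N → Nat.Coprime k N → ∀ P Q : SU N, PQ k P Q →
  ∀ ε η : ℝ, 0 < ε → 0 < η → ∃ β₀ : ℝ, ∀ β : ℝ, β₀ ≤ β → ∃ ζ : ℕ → ℝ, (∀ n, 0 < ζ n) ∧
    Real.exp (-β * (SS L k P Q + ε)) ≤ ∑ n ∈ Finset.Ico 1 N, ζ n ∧
    ∑ n ∈ Finset.Ico 1 N, ζ n ≤ Real.exp (-β * (SS L k P Q - ε)) ∧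
    ∀ (c A B : ℕ) [NeZero A] [NeZero B], Even A → Even B → Real.exp (ε * β) ≤ A →
      Real.exp (ε * β) ≤ B →
      |Real.log (‖∑ n ∈ Finset.range N, om N (c * n) * (TZ N L k β n A B : ℂ)‖ /
          ∑ n ∈ Finset.range N, TZ N L k β n A B) +
        A * B * ∑ n ∈ Finset.Ico 1 N, ζ n * (1 - Real.cos (2 * Real.pi * (c * n) / N))| ≤
      η * (A * B * ∑ n ∈ Finset.Ico 1 N, ζ n)

/-- the task: `theorem pDG : S_DG'` in `DG.lean` (it can be split: ask for help if you want) -/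
def S_DG' : Prop := S_SP → S_TQ → S_TU → S_UH → S_TS → S_UB → S_UG → S_UI → S_UJ → S_UK → S_UL → S_UM →
  S_UN → S_DG

end T2H01.SE
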