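import Pool.Agent.T2H01.SE.Stm1

/-!
# Statements of the packages YA YB YC YD YE (project SE): the vortex action is bounded uniformly in `L`

Same rules as in `Stm1.lean`. Result: `∀ N ≥ 2, ∃ C, ∀ L k P Q, SS L k P Q ≤ C`: the action of the fractional
instanton does not grow with the size of the torus (as `L → ∞` it is a finite action solution of the
continuum theory).
-/

set_option autoImplicit false

noncomputable section

open MeasureTheory Matrix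
open scoped Matrix.Norms.Frobenius

namespace T2H01.SE

open T2H02.TT

/-- projection of rank one -/
def prj {N : ℕ} (M : Mt N) : Prop := Mᴴ = M ∧ M * M = M ∧ M.trace = 1

/-- `exp (i θ / N) (1 + (exp (-i θ) - 1) M)` -/
def eth (N : ℕ) (θ : ℝ) (M : Mt N) : Mt N :=
  Complex.exp (θ * Complex.I / N) • (1 + (Complex.exp (-(θ * Complex.I)) - 1) • M)

/-! ### package YA : a slowly varying projection field on the twisted torus

`v₀` = a unit eigenvector of `P`, `P v₀ = c₀ v₀`; `v₁ = Q v₀`, `P v₁ = om^k Q P v₀ = c₀ om^k v₁`, so `v₁` is an eigenvector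
for a different eigenvalue of the unitary matrix `P` (`k` coprime to `N ≥ 2`), orthogonal to `v₀`.
`Pr y` = the projection on `u = cos (π t / 2) v₀ + exp (i α s) sin (π t / 2) v₁`, `s = y.1.val / L`, `t = y.2.val / L`,
`α = 2 π k / N` or any real number with `exp (i α) = om^k`, `|α| ≤ 2 π` (so `P u(0, t)` is a multiple of `u(1, t)`). For
`s ↦ s + 1/L` or `t ↦ t + 1/L` the vector `u` changes by at most `7 / L`. Seams (`vac P Q y j ≠ 1`): `y.1 = -1` (value `L - 1`),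
`j = 0`: `Adj P (Pr (0, t))` is the projection on `P u(0,t) ~ u(1, t)`. `y.2 = -1`, `j = 1`: `Adj Q (Pr (s, 0))` is the
projection on `Q v₀ = v₁ = u(s, 1)`. -/

def S_YA : Prop := ∃ C : ℝ, 1 ≤ C ∧ ∀ (N k L : ℕ) [NeZero L], 2 ≤ N → Nat.Coprime k N → ∀ P Q : SU N,
  PQ k P Q → ∃ Pr : Tor L → Mt N, (∀ y, prj (Pr y)) ∧
    ∀ y j, ‖Pr y - Adj ((vac P Q : Ph N L) y j) (Pr (tsh y j))‖ ≤ C / L

/-! ### package YB : the group elements `eth θ M`

`M` is a projection of rank one: `1 + (z - 1) M` is unitary for `|z| = 1` and has determinant `z` (`det (1 + c u u*) =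
1 + c` for a unit vector; `M = u u*`, or: eigenvalues). `eth` is a homomorphism in `θ`. Bounds: `|exp (i a) - exp (i b)| ≤
|a - b|`, `‖M‖ = 1`, and `eth θ M * eth (-θ) M' - 1 = (eth θ M - eth θ M') * eth (-θ) M'`. -/

def S_YB : Prop := ∀ N : ℕ, 2 ≤ N → ∃ C : ℝ, 1 ≤ C ∧ ∀ M M' : Mt N, prj M → prj M' →
  (∀ θ : ℝ, eth N θ M ∈ Matrix.specialUnitaryGroup (Fin N) ℂ) ∧
  (∀ θ θ' : ℝ, eth N (θ + θ') M = eth N θ M * eth N θ' M) ∧
  (∀ m : ℤ, eth N (2 * Real.pi * m) M = oz N m • (1 : Mt N)) ∧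
  (∀ (g : SU N) (θ : ℝ), prj (Adj g M) ∧ Adj g (eth N θ M) = eth N θ (Adj g M)) ∧
  (∀ θ θ' : ℝ, ‖eth N θ M - eth N θ' M‖ ≤ C * |θ - θ'|) ∧
  (∀ θ : ℝ, ‖eth N θ M * eth N (-θ) M' - 1‖ ≤ C * ‖M - M'‖)

/-! ### package YC : the polar angle (real analysis)

`φ x = arg ((x.1 - 1/2) + i (x.2 - 1/2))`. The only links which cross the negative real axis are `(x, 1)` with
`x.2 = 0`, `x.1 ≤ 0`: there `arg` jumps from near `-π` to near `π`. Otherwise (and after the correction by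
`2 π`) the difference is the angle between two vectors of length `≥ |x| / 2` whose distance is `1`. (`|φ| ≤ π`, so
`C ≥ 20` settles small `x`.) Any other function with these properties will do. -/

def S_YC : Prop := ∃ (C : ℝ) (φ : Pl → ℝ), 1 ≤ C ∧ ∀ (x : Pl) (m : Fin 4), m = 0 ∨ m = 1 →
  |φ x - φ (x + pe m) + 2 * Real.pi * (if m = 1 ∧ x.2 = 0 ∧ x.1 ≤ 0 then 1 else 0)| ≤
    C / (1 + max |(x.1 : ℝ)| |(x.2 : ℝ)|)

/-! ### package YD : cutting off a configuration of zero energy (uses S_B0 S_E4 of TT; compare `LL.lean`)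

Let `|x| = max |x.1| |x.2|`. If `L ≤ C₁ + 1` take `X = vc`, `U = {0}` (energy `≤ 2 N L²`). Otherwise `ρ = C₁ / L ≤ 1`,
`s x = max 0 (min 1 (2 - |x| / L))`, `E` from E4, `af l = X₀ l (vc l)⁻¹ - 1` (`‖af l‖ ≤ C ρ` for `|l.1.1| ≥ L`),
`X l = X₀ l` if `|l.1.1| ≤ L`, `X l = E (s (l.1.1) • af l) * vc l` otherwise (`= vc l` if `|l.1.1| ≥ 2 L`). A plaquette all
whose links have `|l.1.1| ≤ L` has energy `0`. For all others all four links have `|l.1.1| ≥ L` and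
`X l = (1 + a l) vc l + O(ρ²)`, `a l = s (l.1.1) • af l` (E4: `E M = 1 + pr M + O(M²)`, `pr (g - 1) = g - 1 + O((g-1)²)`).
Linearisation: `df X z p i j = cu a p i j * (vc (p,i) * vc (nx p i, j)) + O(ρ²)` (`z` the twist: the vacuum is flat up
to `z`, B0; a lemma of `LL.lean`, package L1). For `X₀` the left side is `0`, so `‖cu af‖ ≤ C ρ²`, and
`cu a = s x • cu af + Σ (s x' - s x) (± af)`, `|s x' - s x| ≤ 1 / L`: `‖cu a‖ ≤ C ρ²`. So every plaquette has energy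
`≤ C ρ⁴`, and there are `≤ C L⁴` of them in the terms of `tml U`, `U` = the square `|x| ≤ 2 L + 1`. -/

def S_YD : Prop := ∀ N : ℕ, 2 ≤ N → ∀ C₁ : ℝ, 1 ≤ C₁ → ∃ C₂ : ℝ, ∀ (k L : ℕ) [NeZero L],
  Nat.Coprime k N → ∀ P Q : SU N, PQ k P Q → ∀ (n : ℤ) (X₀ : Cf N L),
    (∀ τ : Tm, enf k (dl 0 n) X₀ τ = 0) →
    (∀ l : Lk L, (L : ℝ) ≤ max |(l.1.1.1 : ℝ)| |(l.1.1.2 : ℝ)| →
      ‖(X₀ l : Mt N) - (vc P Q l : Mt N)‖ ≤ C₁ / L) →
    ∃ (U : Finset Pl) (X : Cf N L), (0 : Pl) ∈ U ∧ (∀ l, l ∉ Frl L U → X l = vc P Q l) ∧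
      EE k (dl 0 n) U X ≤ C₂

/-! ### package YE : the vortex (uses S_YA S_YB S_YC S_YD S_VA S_VL)

`h (x, y) = eth N (φ x) (Pr y)`, `z x m = 1` if `m = 1`, `x.2 = 0`, `x.1 ≤ 0`, `0` otherwise, `X₀ = cmv z (gau h vc)`. By VA
`enf k (dl 0 (-1)) X₀ = enf k (dl 0 (-1) + crz z) vc`, and `crz z` is `1` at the cell `0` and `0` at all others: by VL
`X₀` has no energy. Plane links: `X₀ ((x,y),m) = om^(z x m) eth (φ x - φ (x + pe m)) (Pr y) =
eth (φ x - φ (x + pe m) + 2 π z x m) (Pr y)`, at distance `≤ C / (1 + |x|)` from `1`. Torus links: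
`h (x,y) vac h (x, y')⁻¹ vac⁻¹ = eth (φ x) (Pr y) * eth (-φ x) (Adj vac (Pr y'))`, at distance `≤ C / L` from `1`. YD gives an
element of `vset` (`¬ N ∣ -1`), `csInf_le`. -/

def S_YE : Prop := ∀ N : ℕ, 2 ≤ N → ∃ C : ℝ, ∀ (k L : ℕ) [NeZero L], Nat.Coprime k N →
  ∀ P Q : SU N, PQ k P Q → SS L k P Q ≤ C

end T2H01.SE
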