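import Pool.Agent.T2H01.SE.Stm1

/-!
# Statements of the packages XA XB XC XD (project SE): lower bound of the vortex action, uniform in `L`

Same rules as in `Stm1.lean`. Result: `∃ c > 0, ∀ L P Q, c ≤ SS L k P Q` (`c` depends on `N`, `k` only).
Idea: look at the configuration on the coarse lattice `x₀ + L ℤ²` at a torus point `y`, both chosen by
averaging such that all the fluxes used are small; the holonomies around the two directions of the torus
are near to the vacuum ones up to conjugation, this fixes the coarse plane links up to the centre,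
which gives a `ℤ/N` gauge field of finite support with the flux `n` in one cell.
-/

set_option autoImplicit false

noncomputable section

open MeasureTheory Matrix
open scoped Matrix.Norms.Frobenius

namespace T2H01.SE

open T2H02.TT

/-- `n` steps in the direction `i` -/
def mv {L : ℕ} (i : Fin 4) (n : ℕ) (p : Pt L) : Pt L := (fun q => nx q i)^[n] p

/-- flux through the square of side `L` with the corner `p` in the directions `i`, `j` -/
def FF {N L : ℕ} [NeZero L] (X : Cf N L) (z : Pt L → ℂ) (i j : Fin 4) (p : Pt L) : ℝ :=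
  ∑ a ∈ Finset.range L, ∑ b ∈ Finset.range L,
    ‖df X (z (mv j b (mv i a p))) (mv j b (mv i a p)) i j‖

/-- the twists of the plaquettes in the directions `i`, `j`: `tw` in the torus, `oz (dl 0 n)` in the plane -/
def twz (N k : ℕ) {L : ℕ} (n : ℤ) (i j : Fin 4) (p : Pt L) : ℂ :=
  if i = 2 ∧ j = 3 then tw N k p.2 else if i = 0 ∧ j = 1 then oz N (dl 0 n p.1) else 1

/-- the six pairs of directions which occur in the energy -/
def dirs : Finset (Fin 4 × Fin 4) := {(2, 3), (0, 2), (0, 3), (1, 2), (1, 3), (0, 1)}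

/-! ### package XA : nonabelian Stokes estimate

Double induction (first `m = 1`, induction on `n`, then induction on `m`); `nx (nx p i) j = nx (nx p j) i`, so
`mv i m (mv j n p) = mv j n (mv i m p)`; multiplication by unitary matrices does not change the norm. -/

def S_XA : Prop := ∀ (N L : ℕ) [NeZero L] (X : Cf N L) (z : Pt L → ℂ), (∀ p, ‖z p‖ = 1) →
  ∀ (i j : Fin 4) (m n : ℕ) (p : Pt L),
    ‖((lin X i m p * lin X j n (mv i m p) : SU N) : Mt N) -
      (∏ a ∈ Finset.range m, ∏ b ∈ Finset.range n, z (mv j b (mv i a p))) •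
        ((lin X j n p * lin X i m (mv j n p) : SU N) : Mt N)‖ ≤
      ∑ a ∈ Finset.range m, ∑ b ∈ Finset.range n,
        ‖df X (z (mv j b (mv i a p))) (mv j b (mv i a p)) i j‖

/-! ### package XB : the coarse lattice (uses S_A1 S_A2 S_D1 S_D2 (or S_J) of TT at `L = 1`)

Fix `P₀`, `Q₀` by A1. By A2 `P = g P₀ g⁻¹`, `Q = g Q₀ g⁻¹`. For `w ∈ Nb K 0` choose `g_w` by D1 for `L = 1` (the torus
with one point, `φ () 0 = A w`, `φ () 1 = B w`, `VV = ‖A B - om B A‖² / 2`) such that `g_w⁻¹ A w g_w`, `g_w⁻¹ B w g_w` are at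
distance `≤ C δ` from `P₀`, `Q₀`; `g_w = g` for the other `w`. `V = g_w⁻¹ U w m g_(w + pe m)` satisfies
`‖P₀ V - V P₀‖, ‖Q₀ V - V Q₀‖ ≤ C δ`, so `‖V - om N (z w m)‖ ≤ C δ` for some `z w m < N` (D2 for `L = 1`: `dst (act V vac)
vac = ‖V P V⁻¹ - P‖² + ...`), and `z w m = 0` if `w`, `w + pe m` are both outside `Nb K 0`. The fourth assumption gives
`‖om N (z w 0 + z (w + pe 0) 1) - oz N (..) om N (z w 1 + z (w + pe 1) 0)‖ ≤ C δ`; different `N`-th roots of unity have
a distance bounded below, so `z w 0 + z (w + pe 0) 1 ≡ (if w = a then n else 0) + z w 1 + z (w + pe 1) 0` modulo `N`;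
sum over `w` in a large square (all the sums of `z` cancel by translation, or telescope). -/

def S_XB : Prop := ∀ N k : ℕ, 2 ≤ N → Nat.Coprime k N → ∃ δ : ℝ, 0 < δ ∧ ∀ P Q : SU N, PQ k P Q →
  ∀ (A B : Pl → SU N) (U : Pl → Fin 4 → SU N) (n : ℤ) (a : Pl) (K : ℕ),
    (∀ w, ‖(A w : Mt N) * (B w : Mt N) - om N k • ((B w : Mt N) * (A w : Mt N))‖ ≤ δ) →
    (∀ w m, m = 0 ∨ m = 1 →
      ‖(A w : Mt N) * (U w m : Mt N) - (U w m : Mt N) * (A (w + pe m) : Mt N)‖ ≤ δ ∧
      ‖(B w : Mt N) * (U w m : Mt N) - (U w m : Mt N) * (B (w + pe m) : Mt N)‖ ≤ δ) →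
    (∀ w, ‖(U w 0 : Mt N) * (U (w + pe 0) 1 : Mt N) -
      oz N (if w = a then n else 0) • ((U w 1 : Mt N) * (U (w + pe 1) 0 : Mt N))‖ ≤ δ) →
    (∀ w, w ∉ Nb K 0 → A w = P ∧ B w = Q ∧ ∀ m, m = 0 ∨ m = 1 → U w m = 1) → (N : ℤ) ∣ n

/-! ### package XC : choice of the coarse lattice by averaging

`e(i,j,p) = ‖df X (twz ..) p i j‖² / 2`. For every finite set `T` of terms `Σ_T enf ≤ E` (assumption), so for every
finite set `V` of points of the plane `Σ_{x ∈ V} Σ_y Σ_{dirs} e(i,j,(x,y)) ≤ E`. Cauchy-Schwarz: `FF² ≤ 2 L² Σ_{a,b < L}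
e(i,j, mv j b (mv i a p))`. Sum over `x₀ ∈ [0, L)²`, `y ∈ Tor L` (`L⁴` choices), `w ∈ Nb M 0`, `p = (x₀ + L w, y)`: for
given `a`, `b` the map `(x₀, w, y) ↦ mv j b (mv i a p)` is injective (`(x₀, w) ↦ x₀ + L w` is, and `mv` is injective), so
`Σ_{x₀,y,w} Σ_{dirs} Σ_{a,b} e ≤ L² E`, and some `(x₀, y)` has `Σ_w Σ_{dirs} FF² ≤ 2 L² L² E / L⁴ = 2 E`. -/

def S_XC : Prop := ∀ (N k L : ℕ) [NeZero L] (n : ℤ) (X : Cf N L) (E : ℝ),
  (∀ T : Finset Tm, ∑ τ ∈ T, enf k (dl 0 n) X τ ≤ E) → ∀ M : ℕ,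
    ∃ (x₀ : Pl) (y : Tor L), 0 ≤ x₀.1 ∧ x₀.1 < L ∧ 0 ≤ x₀.2 ∧ x₀.2 < L ∧
      ∀ w ∈ Nb M 0, ∀ d ∈ dirs,
        FF X (twz N k n d.1 d.2) d.1 d.2 (x₀ + (L : ℤ) • w, y) ≤ Real.sqrt (2 * E)

/-! ### package XD : the lower bound (uses S_A1.. via S_XB, S_XA S_XC S_VL)

`c = δ² / 4`, `δ` from XB. `vset` is not empty (`X = vc`, `U = {0}`, `n = 1`), so by `le_csInf` let `(n, U, X)` give an
element `< c`. Terms which do not touch `U` have energy `0` (their links are as in `vc`, VL; the cell `0` touches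
`U`), so XC applies with `E = EE k (dl 0 n) U X < c`, for every `M`: choose `M` so large that for `w ∉ Nb (M - 1) 0` the squares
of side `2 L` at `x₀ + L w` are far from `U`. There `FF = 0` as well (vacuum). `A w = lin X 2 L p_w`, `B w = lin X 3 L p_w`,
`U w m = lin X m L p_w`, `p_w = (x₀ + L w, y)`; `mv m L p_w = p_(w + pe m)`, `mv 2 L p = p = mv 3 L p`; XA gives the first
three assumptions of XB (products of the twists: the corner `(-1,-1)` is met exactly once; `0` is in exactly one of the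
squares `x₀ + L w + [0, L)²`: `a`). Far away `lin vc 2 L p = P` (`P` is met exactly once), `lin vc 3 L p = Q`, `lin vc m L p = 1`. -/

def S_XD : Prop := ∀ N k : ℕ, 2 ≤ N → Nat.Coprime k N → ∃ c : ℝ, 0 < c ∧
  ∀ (L : ℕ) [NeZero L] (P Q : SU N), PQ k P Q → c ≤ SS L k P Q

end T2H01.SE
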