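import Pool.Agent.T2H02.TT.StmU
import Pool.Agent.T2H01.SE.Stm6
import Pool.Agent.T2H01.SE.Stm7
import Pool.Agent.T2H01.SE.Stm8
import Pool.Agent.T2H01.SE.Stm9

/-!
# Uniform versions (project SE, last wave): all constants are polynomial in `L`

The aim: the dilute gas theorem for all `L` and all `β ≥ C L^K` (`C`, `K` independent of `L`).

Package `Yu` (for instance `VLu`) proves `theorem pYu : S_Yu` in `Pool/Agent/T2H01/SE/Yu.lean` (it imports this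
file; lemmas in the namespace `T2H01.SE.PkgYu`), from other `S_...` as hypotheses. Nearly all packages are
ports: copy the file `Y.lean` (package `Y`, statement `S_Y`), which has the complete proof for fixed `L`, take the
hypotheses with `u` instead of those without (from `T2H02/TT/StmU.lean` or from this file), follow the
constants. You may also import `Y.lean` and use its lemmas (many of them do not contain constants). The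
docstring says only what is different. Powers of `L` and constants can be enlarged at will (`1 ≤ L`).
If a statement is false or awkward, tell helper1 at once.
-/

set_option autoImplicit false

noncomputable section

open MeasureTheory Matrix
open scoped Matrix.Norms.Frobenius

namespace T2H01.SE

open T2H02.TT

/-! ### VLu : Lipschitz bound with a constant independent of `L` (port of the first part of VL)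

Every link is in at most four plaquettes of a term: `C = 16`. (Parts 2 and 3 of `S_VL` have no constants: use
`S_VL` for them.) -/

def S_VLu : Prop := ∀ N k : ℕ, 2 ≤ N → ∃ C : ℝ, 1 ≤ C ∧ ∀ (L : ℕ) [NeZero L] (ρ : ℝ), 0 < ρ →
  ∀ (s : Pl → ℤ) (τ : Tm) (X Y : Cf N L), enf k s Y τ ≤ (1 + ρ) * enf k s X τ +
    (1 + 1 / ρ) * C * ∑ l ∈ (spt τ : Finset (Lk L)), ‖(Y l : Mt N) - (X l : Mt N)‖ ^ 2

/-! ### VEu : port of VE (uses S_VLu S_VL); the constant does not depend on `L` -/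

def S_VEu : Prop := ∀ N k : ℕ, 2 ≤ N → Nat.Coprime k N → ∀ P Q : SU N, PQ k P Q →
  ∀ ρ : ℝ, 0 < ρ → ∃ C : ℝ, 1 ≤ C ∧ ∀ (L : ℕ) [NeZero L] (U : Finset Pl) (a : Pl) (n : ℤ)
    (X : Cf N L), a ∈ cl U → ¬ (N : ℤ) ∣ n →
      SS L k P Q ≤ (1 + ρ) * EE k (dl a n) U X + C * rD P Q X U

/-! ### VGu : port of VG (uses S_D1u S_Ju of TT) -/

def S_VGu : Prop := ∀ N k : ℕ, 2 ≤ N → Nat.Coprime k N → ∀ P Q : SU N, PQ k P Q →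
  ∃ (C : ℝ) (K : ℕ), 1 ≤ C ∧ ∀ (L : ℕ) [NeZero L] (ε : ℝ), 0 ≤ ε →
    ∀ G : Ph N L → Tor L → SU N, GF P Q ε G → ∀ (U : Finset Pl) (X : Cf N L),
      rD P Q (gau (gg G U X) (cmv (zr G U X) X)) U ≤
        C * (L : ℝ) ^ K * (rE k X U + (pls U).card * ε)

/-! ### VXu : near minimisers with support of polynomial size (new; uses S_VA S_VL S_VLu S_VN S_VGu S_EG S_YE)

`S₁` from `S_YE` (`SS ≤ S₁`), `ρ₁ = min 1 (ρ / 4)`, `ρ' = ρ / (4 (S₁ + 2))`. Let `(n₀, U₀, X₀)` give an element of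
`vset` at most `SS + ρ₁` (`vset` is not empty, see `pXD`, `pSP`). Terms which do not touch `U₀` have no energy, so
every finite sum of `en k X₀ τ` is `≤ S₁ + 1`. Let `e = 1 / (C' L^K')` (small with respect to the constants of VGu,
VLu, `ρ'`, `ρ`) and `m = ⌈(S₁ + 2) / e⌉`: the rings of `Qs q j`, `1 ≤ j ≤ m`, are disjoint sets of terms (see `VH.lean`), so
one of them has `rE ≤ e`. Let `G` be given by EG with a small `ε`, and `d x = dl 0 n₀ x - crz (zz G X₀) x`. Let `Λ` be a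
large parity rectangle (see VN) which contains `U₀` and its neighbours: `Σ_{cl Λ} d = n₀` modulo `N` (as in
`VP.lean`: `zz = N` on the links between vacuum sites). By VN some rectangle `W = rc a' b'`, of sides `≤ 8 m + 2`,
has `rE k X₀ W ≤ 4 e` and `¬ N ∣ Σ_{cl W} d`. With `z = zr G W X₀`, `σ = gau (gg G W X₀) (cmv z X₀)`, `s' = dl 0 n₀ - crz z`:
`EE k s' W σ = EE k (dl 0 n₀) W X₀ ≤ SS + ρ₁` (VA), `rD σ W ≤ C L^K (4 e + ..)`; `X₁ = glue (Frl L W) σ vc` has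
`EE k s' W X₁ ≤ (1 + ρ') (SS + ρ₁) + (1 + 1/ρ') C rD ≤ SS + ρ` (as in `VE.lean`), and `Σ_{cl W} s' ≡ Σ_{cl W} d` (see
`VF.lean`). By a centre transformation of the links of `Frl L W` (see `VS.lean`) `s'` becomes `dl a' n'` modulo `N`
on `cl W`, `n' = Σ_{cl W} s'`. Translate by `- a'` (see `VE.lean`); `r = 8 m + 3`. -/

def S_VXu : Prop := ∀ N k : ℕ, 2 ≤ N → Nat.Coprime k N → ∀ P Q : SU N, PQ k P Q →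
  ∀ ρ : ℝ, 0 < ρ → ∃ (C : ℝ) (K : ℕ), 1 ≤ C ∧ ∀ (L : ℕ) [NeZero L],
    ∃ (r : ℕ) (n : ℤ) (X : Cf N L), (r : ℝ) ≤ C * (L : ℝ) ^ K ∧ ¬ (N : ℤ) ∣ n ∧
      (∀ l, l ∉ Frl L (Nb r 0) → X l = vc P Q l) ∧
      EE k (dl 0 n) (Nb r 0) X ≤ SS L k P Q + ρ

/-! ### VCu : port of VC (uses S_VL S_VLu S_VXu)

In the second part take `X₀`, `U₀ = Nb r 0`, `n₀` from VXu, `K₁ = r + 2` (compare the last part of `VC.lean`). -/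

def S_VCu : Prop := ∀ N k : ℕ, 2 ≤ N → Nat.Coprime k N → ∀ P Q : SU N, PQ k P Q →
  ∃ C₀ : ℝ, 1 ≤ C₀ ∧
  (∀ (L : ℕ) [NeZero L] (U : Finset Pl) (σ : Cf N L),
    EE k (fun _ => 0) U (glue (Frl L U) (vc P Q) σ) ≤ C₀ * rD P Q σ U) ∧
  (∀ ρ : ℝ, 0 < ρ → ∃ (C : ℝ) (K : ℕ), 1 ≤ C ∧ ∀ (L : ℕ) [NeZero L], ∃ (K₁ : ℕ) (n : ℤ),
    (K₁ : ℝ) ≤ C * (L : ℝ) ^ K ∧ ¬ (N : ℤ) ∣ n ∧ ∀ (U : Finset Pl) (c : Pl), Nb K₁ c ⊆ U →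
      ∀ σ : Cf N L, ∃ X : Cf N L, (∀ l, l ∉ Frl L U → X l = σ l) ∧
        EE k (dl c n) U X ≤ SS L k P Q + ρ + C₀ * rD P Q σ U)

/-! ### VIu : port of VI (uses S_G2 of TT, S_VLu); `#spt ≤ 5 L²`, `#Frl L U ≤ C L² #U` -/

def S_VIu : Prop := ∀ N k : ℕ, 2 ≤ N → ∃ (C : ℝ) (D : ℕ), 1 ≤ C ∧ ∀ (L : ℕ) [NeZero L] (β : ℝ),
  1 ≤ β → ∀ (s : Pl → ℤ) (U : Finset Pl) (η X : Cf N L), (∀ l, l ∉ Frl L U → X l = η l) →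
    Real.exp (-(β + 1) * EE k s U X) * ((C * β) ^ (D * L ^ 2 * U.card))⁻¹ ≤ Zf k β s U η

/-! ### VRu : port of VR (uses S_VEu S_VCu S_VIu S_VS S_YE)

`SS ≤ S₁` (`S_YE`) makes `ρ'` independent of `L`; `(β + 1) C e + D L² (h+1)² log (C β) ≤ ρ β / 4` for
`β ≥ C' (L (h+1))^K'` (`log (C β) ≤ C'' √β`). -/

def S_VRu : Prop := ∀ N k : ℕ, 2 ≤ N → Nat.Coprime k N → ∀ P Q : SU N, PQ k P Q →
  ∀ ρ : ℝ, 0 < ρ → ∃ (C : ℝ) (K : ℕ), 1 ≤ C ∧ ∀ (L : ℕ) [NeZero L],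
  (∀ (h : ℕ) (β : ℝ), C * ((L : ℝ) * (h + 1)) ^ K ≤ β → ∀ (a b : Pl), a.1 ≤ b.1 → a.2 ≤ b.2 →
    b.1 - a.1 ≤ h → b.2 - a.2 ≤ h → ∀ σ : Cf N L, rD P Q σ (rc a b) ≤ 1 / (C * (L : ℝ) ^ K) →
      ∀ n : ℤ, ¬ (N : ℤ) ∣ n →
        Zf k β (dl a n) (rc a b) σ ≤ Real.exp (-β * (SS L k P Q - ρ)) * Zf k β (dl a 0) (rc a b) σ) ∧
  (∃ K₁ : ℕ, (K₁ : ℝ) ≤ C * (L : ℝ) ^ K ∧ ∀ (h : ℕ) (β : ℝ), C * ((L : ℝ) * (h + 1)) ^ K ≤ β →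
    ∀ (a b c : Pl), a.1 ≤ b.1 → a.2 ≤ b.2 → b.1 - a.1 ≤ h → b.2 - a.2 ≤ h → Nb K₁ c ⊆ rc a b →
    ∀ σ : Cf N L, rD P Q σ (rc a b) ≤ 1 / (C * (L : ℝ) ^ K) →
      ‖∑ n ∈ Finset.range N, om N n * (Zf k β (dl a n) (rc a b) σ : ℂ)‖ ≤
        (1 - Real.exp (-β * (SS L k P Q + ρ))) *
          ∑ n ∈ Finset.range N, Zf k β (dl a n) (rc a b) σ)

/-! ### VFu : port of VF (uses S_VA S_VRu S_VG S_VGu S_VJ S_VS, S_EG of TT); S_VG for the measurability -/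

def S_VFu : Prop := ∀ N k : ℕ, 2 ≤ N → Nat.Coprime k N → ∀ P Q : SU N, PQ k P Q →
  ∀ ρ : ℝ, 0 < ρ → ∃ (C : ℝ) (K : ℕ), 1 ≤ C ∧ ∀ (L : ℕ) [NeZero L],
  (∀ (h : ℕ) (β : ℝ) (hβ : 0 ≤ β), C * ((L : ℝ) * (h + 1)) ^ K ≤ β →
    ∀ (ε : ℝ), 0 ≤ ε → ∀ G : Ph N L → Tor L → SU N, GF P Q ε G →
    ∀ (a b : Pl), a.1 ≤ b.1 → a.2 ≤ b.2 → b.1 - a.1 ≤ h → b.2 - a.2 ≤ h →
    (pls (rc a b)).card * ε ≤ 1 / (C * (L : ℝ) ^ K) → ∀ ω : Cj N L,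
    rE k (lk ω) (rc a b) ≤ 1 / (C * (L : ℝ) ^ K) →
      (sysJ N L k β hβ).ker (mj N) (rc a b)
        (fun ω' => ind (¬ (N : ℤ) ∣ ∑ x ∈ cl (rc a b), fd G ω' x)) ω ≤
          Real.exp (-β * (SS L k P Q - ρ))) ∧
  (∃ K₁ : ℕ, (K₁ : ℝ) ≤ C * (L : ℝ) ^ K ∧ ∀ (h : ℕ) (β : ℝ) (hβ : 0 ≤ β),
    C * ((L : ℝ) * (h + 1)) ^ K ≤ β →
    ∀ (a b c : Pl), a.1 ≤ b.1 → a.2 ≤ b.2 → b.1 - a.1 ≤ h → b.2 - a.2 ≤ h → Nb K₁ c ⊆ rc a b →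
    ∀ ω : Cj N L, rE k (lk ω) (rc a b) ≤ 1 / (C * (L : ℝ) ^ K) →
      ((sysJ N L k β hβ).ker (mj N) (rc a b)
        (fun ω' => (oz N (∑ x ∈ cl (rc a b), fx ω' x)).re) ω) ^ 2 +
      ((sysJ N L k β hβ).ker (mj N) (rc a b)
        (fun ω' => (oz N (∑ x ∈ cl (rc a b), fx ω' x)).im) ω) ^ 2 ≤
          (1 - Real.exp (-β * (SS L k P Q + ρ))) ^ 2)

/-! ### VHu : port of VH (uses S_Hu S_F5 of TT, S_VL S_YE)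

`e = 1 / (C₀ L^K₀)`. Hu with `t = SS + 2 ≤ S₁ + 2`: `m e ≥ 1 + C L^K (S₁ + 2)`, then `R` with
`C L^K #(bal (R+1) B) exp (-R / (C L^K)) ≤ 1` (`R` a power of `L`), then `β ≥ C' L^K'` (with `t = SS + 2`, use half of
it against the factor `(R + 1) (C L^K β)^(D L² #bal)`). -/

def S_VHu : Prop := ∀ (N k : ℕ) (hN : 2 ≤ N), Nat.Coprime k N → ∀ P Q : SU N, PQ k P Q →
  ∀ (C₀ : ℝ) (K₀ : ℕ), 1 ≤ C₀ → ∃ (C : ℝ) (K : ℕ), 1 ≤ C ∧ ∀ (L : ℕ) [NeZero L],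
    ∃ m : ℕ, 1 ≤ m ∧ (m : ℝ) ≤ C * (L : ℝ) ^ K ∧ ∀ (β : ℝ) (hβ : 0 ≤ β), C * (L : ℝ) ^ K ≤ β →
    ∀ (Λ : Finset Pl) (q : Pl), (sysS N L k β hN hβ).ker (hm N) Λ
      (fun X => ind (∀ j ∈ Finset.Icc 1 m, 1 / (C₀ * (L : ℝ) ^ K₀) < rE k X (Qs q j))) (vc P Q) ≤
        Real.exp (-β * (SS L k P Q + 1))

/-! ### VPu : port of VP (uses S_F3 S_F5 S_EG of TT, S_VJ S_VFu S_VHu S_VN); `#Λ (1 + (8 m + 3)²)` events, the factor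
is absorbed by `exp (- ρ β / 2)` -/

def S_VPu : Prop := ∀ N k : ℕ, 2 ≤ N → Nat.Coprime k N → ∀ P Q : SU N, PQ k P Q →
  ∀ ρ : ℝ, 0 < ρ → ∃ (C : ℝ) (K : ℕ), 1 ≤ C ∧ ∀ (L : ℕ) [NeZero L] (β : ℝ), C * (L : ℝ) ^ K ≤ β →
    ∀ i j : ℕ,
    ∑ n ∈ Finset.Ico 1 N, Zf k β (dl 0 n) (rc 0 (4 * i + 2, 4 * j + 2)) (vc P Q : Cf N L) ≤
      (4 * i + 3) * (4 * j + 3) * Real.exp (-β * (SS L k P Q - ρ)) *
        ∑ n ∈ Finset.range N, Zf k β (dl 0 n) (rc 0 (4 * i + 2, 4 * j + 2)) (vc P Q : Cf N L)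

/-! ### ZOu : port of `Z1u` (TT, file `Z1u.lean`) to domains with cold walls (uses S_F3 S_F5 S_Hu S_Mu of TT, S_VL)

The modifications of `Z1u.lean` are the same as those of `Z1.lean` in `ZO.lean` (see there and its docstring):
`sit M Λ` is replaced by `sit M Λ ∩ Ω`, terms without corners in `Ω` have energy `0`. -/

def S_ZOu : Prop := ∀ (N k : ℕ) (hN : 2 ≤ N), Nat.Coprime k N → ∀ P Q : SU N, PQ k P Q →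
  ∃ (C c : ℝ) (K D : ℕ), 1 ≤ C ∧ 0 < c ∧ ∀ (L : ℕ) [NeZero L] (β : ℝ) (hβ : 0 ≤ β), 1 ≤ β →
  ∀ (M s : ℕ), 0 < M → ∀ (t ε r : ℝ), 8 ≤ M → 1 ≤ s → 0 ≤ t →
    ε = C * (L : ℝ) ^ K * (s * M : ℝ) ^ 2 * (Real.exp (-(s * M) / (C * (L : ℝ) ^ K)) + t) →
    r = C * (L : ℝ) ^ K * (s * M : ℝ) ^ 8 * (Real.exp (-(s * M) / (C * (L : ℝ) ^ K)) + t) →
    r ≤ 1 / C → ∀ Ω : Finset Pl,
    (∀ (b : Pl) (η : Cf N L), (∀ l, l ∉ Frl L Ω → η l = vc P Q l) →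
      (sysS N L k β hN hβ).ker (hm N) (sit M (Nb (2 * s) b) ∩ Ω)
        (fun X => ind (∃ τ : Tm, (∃ a ∈ cor τ, a ∈ Ω) ∧ (∀ a ∈ cor τ, a ∈ Ω → blk M a ∈ Nb s b) ∧
          ¬ en k X τ ≤ ε)) η ≤
        s * M * (Real.exp (-β * t) * (C * (L : ℝ) ^ K * β) ^ (D * L ^ 2 * (s * M) ^ 2))) ∧
    (∀ (b : Pl), ∀ Λ : Finset Pl, b ∈ Λ → ∀ η η' : Cf N L,
      (∀ l, l ∉ Frl L Ω → η l = vc P Q l ∧ η' l = vc P Q l) →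
      (∀ l ∈ Frl L Ω, (∀ a ∈ st l, a ∈ Ω → blk M a ∈ Nb 2 b ∧ blk M a ∉ Λ) → η l = η' l) →
      (∀ τ : Tm, (∃ a ∈ cor τ, a ∈ Ω) →
        (∀ a ∈ cor τ, a ∈ Ω → blk M a ∈ Nb s b ∧ blk M a ∉ Λ) → en k η τ ≤ ε ∧ en k η' τ ≤ ε) →
      ∀ F : Cf N L → ℝ, Measurable F → (∀ ω, 0 ≤ F ω ∧ F ω ≤ 1) →
        Sys.dep {l | l ∈ Frl L Ω ∧ ∀ a ∈ st l, a ∈ Ω →
          (blk M a ∈ Nb 2 b ∧ blk M a ∉ Λ) ∨ blk M a = b} F →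
        (sysS N L k β hN hβ).ker (hm N) (sit M Λ ∩ Ω) F η ≤
          (sysS N L k β hN hβ).ker (hm N) (sit M Λ ∩ Ω) F η' +
          (C * (L : ℝ) ^ K * M ^ 2 *
              (β * (r * Real.sqrt r + Real.exp (-c * M / L) * r) + Real.exp (-β / C)) +
            4 * s * M * (Real.exp (-β * t) * (C * (L : ℝ) ^ K * β) ^ (D * L ^ 2 * (s * M) ^ 2))))

/-! ### ZDu : port of ZD (uses S_ZOu); parameters exactly as in `TT/Zu.lean` (`s` is a power of `L` there) -/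

def S_ZDu : Prop := ∀ (N k : ℕ) (hN : 2 ≤ N), Nat.Coprime k N → ∀ P Q : SU N, PQ k P Q →
  ∃ (c C₀ : ℝ) (K₀ : ℕ), 0 < c ∧ 2 ≤ C₀ ∧ ∀ (L : ℕ) [NeZero L] (β : ℝ) (hβ : 0 ≤ β),
  C₀ * (L : ℝ) ^ K₀ ≤ β →
  ∃ (M s : ℕ) (hM : 0 < M) (ε p δ q : ℝ), 1 ≤ s ∧ (s : ℝ) ≤ C₀ * (L : ℝ) ^ K₀ ∧
    (M : ℝ) ≤ C₀ * L * Real.log β ∧
    0 < p ∧ 0 < δ ∧ 0 < q ∧ δ ≤ q ^ 3 ∧ p ≤ q ^ (3 * (4 * s + 4) ^ 2) ∧ 72 * q ≤ 1 / 2 ∧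
    72 * q ≤ β ^ (-c) ∧ ∀ Ω : Finset Pl,
    (∀ b η, (coa (frz N L k β hN hβ P Q Ω) M hM).ker (hm N) (Nb (2 * s) b)
      (fun ω => ind (Bads (coa (frz N L k β hN hβ P Q Ω) M hM)
        (fun τ X => en k (xt P Q Ω X) τ ≤ ε) s b ω)) η ≤ p) ∧
    (∀ b, ∀ Λ : Finset Pl, b ∈ Λ → ∀ η η' : Lv L Ω → SU N,
      (∀ i, (∀ a ∈ (coa (frz N L k β hN hβ P Q Ω) M hM).bl i, a ∈ Nb 2 b ∧ a ∉ Λ) → η i = η' i) →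
      (∀ τ ∈ (coa (frz N L k β hN hβ P Q Ω) M hM).tms (Nb s b),
        (∀ a ∈ (coa (frz N L k β hN hβ P Q Ω) M hM).bt τ, a ∈ Nb s b ∧ a ∉ Λ) →
        en k (xt P Q Ω η) τ ≤ ε ∧ en k (xt P Q Ω η') τ ≤ ε) →
      ∀ F : (Lv L Ω → SU N) → ℝ, Measurable F → (∀ ω, 0 ≤ F ω ∧ F ω ≤ 1) →
        Sys.dep {i | ∀ a ∈ (coa (frz N L k β hN hβ P Q Ω) M hM).bl i,
          (a ∈ Nb 2 b ∧ a ∉ Λ) ∨ a = b} F →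
        (coa (frz N L k β hN hβ P Q Ω) M hM).ker (hm N) Λ F η ≤
          (coa (frz N L k β hN hβ P Q Ω) M hM).ker (hm N) Λ F η' + δ)

/-! ### PCu : port of PC (uses S_F3 S_F5 S_Xu of TT, S_ZDu; see also `TT/P1u.lean`)

Decay `(72 q)^(n' / 3)`, `n' ≥ n / M - 2 s - 2`, `72 q ≤ β^(-c)`, `M ≤ C₀ L log β`, trivial bound for small `n`. -/

def S_PCu : Prop := ∀ (N k : ℕ) (hN : 2 ≤ N), Nat.Coprime k N → ∀ P Q : SU N, PQ k P Q →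
  ∃ (c C : ℝ) (K : ℕ), 0 < c ∧ 1 ≤ C ∧ ∀ (L : ℕ) [NeZero L] (β : ℝ) (hβ : 0 ≤ β),
  C * (L : ℝ) ^ K ≤ β →
  ∀ (Ω Δ A : Finset Pl) (n : ℕ), Δ ⊆ Ω → (∀ a ∈ A, ∀ b ∈ Nb n a, b ∈ Ω → b ∈ Δ) →
    ∀ f : Cf N L → ℝ, Measurable f → (∀ X, |f X| ≤ 1) →
    Sys.dep {l | ∀ a ∈ st l, a ∈ Ω → a ∈ A} f →
    ∀ η η' : Cf N L, (∀ l, l ∉ Frl L Ω → η l = vc P Q l ∧ η' l = vc P Q l) →
      |(sysS N L k β hN hβ).ker (hm N) Δ f η - (sysS N L k β hN hβ).ker (hm N) Δ f η'| ≤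
      6 * A.card * Real.exp (C * (L : ℝ) ^ K * β - c * n / L)

/-! ### MAu, MBu : ports of MA (uses S_F2 S_F5 S_G3u, S_VL) and MB (uses S_F3 S_F5, S_MAu, S_PCu) -/

def S_MAu : Prop := ∀ (N k : ℕ) (hN : 2 ≤ N), Nat.Coprime k N → ∀ P Q : SU N, PQ k P Q →
  ∃ (C : ℝ) (K : ℕ), 1 ≤ C ∧ ∀ (L : ℕ) [NeZero L] (β : ℝ) (hβ : 0 ≤ β), 1 ≤ β →
    ∃ kap : Finset Pl → Pl → Cf N L → ℝ,
      (∀ Λ a, Measurable (kap Λ a)) ∧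
      (∀ Λ a X, Real.exp (-(C * (L : ℝ) ^ K * β)) ≤ kap Λ a X ∧
        kap Λ a X ≤ Real.exp (C * (L : ℝ) ^ K * β)) ∧
      (∀ Λ a, Sys.dep {l | ∀ b ∈ st l, b ∈ Nb 1 a} (kap Λ a)) ∧
      (∀ Λ Λ' a, (∀ b ∈ Nb 1 a, b ∈ Λ ↔ b ∈ Λ') → kap Λ a = kap Λ' a) ∧
      (∀ (Λ : Finset Pl) (a : Pl), a ∈ Λ → 0 < ZZ k β (L := L) P Q Λ ∧
        ZZ k β (L := L) P Q (Λ.erase a) = ZZ k β (L := L) P Q Λ *
          (sysS N L k β hN hβ).ker (hm N) Λ (kap Λ a) (vc P Q))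

def S_MBu : Prop := ∀ N k : ℕ, 2 ≤ N → Nat.Coprime k N → ∀ P Q : SU N, PQ k P Q →
  ∃ (c C : ℝ) (K : ℕ), 0 < c ∧ 1 ≤ C ∧ ∀ (L : ℕ) [NeZero L] (β : ℝ), C * (L : ℝ) ^ K ≤ β →
  ∀ (y y' : ℤ) (q q' : ℕ), y ≤ y' → 2 ≤ q → q ≤ q' → ∀ T : Finset Pl, (∀ a ∈ T, 1 ≤ a.1) →
      ZZ k β (L := L) P Q (rc (-q', y) (0, y') ∪ T) * ZZ k β (L := L) P Q (rc (-q, y) (0, y')) ≤
        ZZ k β (L := L) P Q (rc (-q', y) (0, y')) * ZZ k β (L := L) P Q (rc (-q, y) (0, y') ∪ T) *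
          Real.exp (T.card * Real.exp (C * (L : ℝ) ^ K * β - c * q / L))

/-! ### WHu : port of WH (uses S_Hu S_F5 of TT); `R` is a power of `L (h + 1)` -/

def S_WHu : Prop := ∀ (N k : ℕ) (hN : 2 ≤ N), Nat.Coprime k N → ∀ (C₀ : ℝ) (K₀ : ℕ), 1 ≤ C₀ →
  ∃ (C : ℝ) (K : ℕ), 1 ≤ C ∧ ∀ (L : ℕ) [NeZero L] (h : ℕ), ∃ R : ℕ,
    (R : ℝ) ≤ C * ((L : ℝ) * (h + 1)) ^ K ∧
    ∀ (β : ℝ) (hβ : 0 ≤ β), C * ((L : ℝ) * (h + 1)) ^ K ≤ β → ∀ (c : Pl) (η : Cf N L),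
      (sysS N L k β hN hβ).ker (hm N) (Nb (h + R) c)
        (fun X => ind (1 / (C₀ * (L : ℝ) ^ K₀) < rE k X (Nb h c))) η ≤ 1 / 4

/-! ### WBu : port of WB (uses S_WX S_WHu S_VJ S_VFu S_VA) -/

def S_WBu : Prop := ∀ N k : ℕ, 2 ≤ N → Nat.Coprime k N → ∀ P Q : SU N, PQ k P Q →
  ∀ ρ : ℝ, 0 < ρ → ∃ (C : ℝ) (K : ℕ), 1 ≤ C ∧ ∀ (L : ℕ) [NeZero L], ∃ K₁ s : ℕ,
  (s : ℝ) ≤ C * (L : ℝ) ^ K ∧ K₁ + 2 ≤ s ∧ ∀ (β : ℝ) (hβ : 0 ≤ β), C * (L : ℝ) ^ K ≤ β →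
  ∀ (D : Finset Pl) (E : ((Cj N L) → ℝ) → ℝ), Cns (sysJ N L k β hβ) (mj N) D E →
  ∀ (I A : Finset Pl) (G : Cj N L → ℂ), Measurable G → (∀ ω, ‖G ω‖ ≤ 1) →
    (∀ c ∈ I, Nb s c ⊆ D) → (∀ c ∈ I, ∀ c' ∈ I, c ≠ c' → ¬ near (2 * s) c c') →
    (∀ c ∈ I, cl (Nb K₁ c) ⊆ A) → (∀ c ∈ I, depC {i | i ∉ FrJ L (Nb K₁ c)} G) →
    (E fun ω => (G ω * oz N (∑ x ∈ A, fx ω x)).re) ^ 2 +
      (E fun ω => (G ω * oz N (∑ x ∈ A, fx ω x)).im) ^ 2 ≤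
        Real.exp (-Real.exp (-β * (SS L k P Q + ρ)) * I.card)

/-! ### WFu, WDu : ports of WF (uses S_WE S_WK S_WBu) and WD (uses S_WK S_WBu S_VJ) -/

def S_WFu : Prop := ∀ N k : ℕ, 2 ≤ N → Nat.Coprime k N → ∀ P Q : SU N, PQ k P Q →
  ∀ ρ : ℝ, 0 < ρ → ∃ (C : ℝ) (K : ℕ), 1 ≤ C ∧ ∀ (L : ℕ) [NeZero L] (β : ℝ), C * (L : ℝ) ^ K ≤ β →
  ∀ (R : Finset Pl) (x : Pl) (y : Tor L) (a b : ℕ), C * (L : ℝ) ^ K ≤ a → C * (L : ℝ) ^ K ≤ b →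
    (∀ i j : ℕ, i ≤ a → j ≤ b → x + ((i : ℤ), (j : ℤ)) ∈ R) →
    ‖wexC N L k β R (fun X => wlp X x y a b)‖ ≤
      Real.exp (-(Real.exp (-β * (SS L k P Q + ρ)) * (a * b)))

def S_WDu : Prop := ∀ N k : ℕ, 2 ≤ N → Nat.Coprime k N → ∀ P Q : SU N, PQ k P Q →
  ∀ ρ : ℝ, 0 < ρ → ∃ (C : ℝ) (K : ℕ), 1 ≤ C ∧ ∀ (L : ℕ) [NeZero L] (β : ℝ), C * (L : ℝ) ^ K ≤ β →
  ∀ (a b : Pl), (a.1 : ℝ) + C * (L : ℝ) ^ K ≤ b.1 → (a.2 : ℝ) + C * (L : ℝ) ^ K ≤ b.2 →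
    ∀ η : Cf N L,
    ‖∑ n ∈ Finset.range N, om N n * (Zf k β (dl a n) (rc a b) η : ℂ)‖ ≤
      Real.exp (-(Real.exp (-β * (SS L k P Q + ρ)) * (rc a b).card)) *
        ∑ n ∈ Finset.range N, Zf k β (dl a n) (rc a b) η

/-! ### TUu : port of TU (uses S_TP S_WDu S_VS) -/

def S_TUu : Prop := ∀ N k : ℕ, 2 ≤ N → Nat.Coprime k N → ∀ P Q : SU N, PQ k P Q →
  ∀ ρ : ℝ, 0 < ρ → ∃ (C : ℝ) (K : ℕ), 1 ≤ C ∧ ∀ (L : ℕ) [NeZero L] (β : ℝ), C * (L : ℝ) ^ K ≤ β →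
  ∀ (A B : ℕ) [NeZero A] [NeZero B], C * (L : ℝ) ^ K ≤ A → C * (L : ℝ) ^ K ≤ B →
    ‖∑ n ∈ Finset.range N, om N n * (TZ N L k β n A B : ℂ)‖ ≤
      Real.exp (-(Real.exp (-β * (SS L k P Q + ρ)) * (A * B))) *
        ∑ n ∈ Finset.range N, TZ N L k β n A B

/-! ### UHu : port of UH (and TX) (uses S_VPu S_ZT S_RX S_RT S_MBu S_RA S_MAu S_XD S_YE)

`J = ⌈C L^K β⌉` such that `c (4 J + 2) / L ≥ (C L^K + S₁ + 1) β`; `S₀ ≤ SS ≤ S₁` from `S_XD`, `S_YE`. -/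

def S_UHu : Prop := ∀ N k : ℕ, 2 ≤ N → Nat.Coprime k N → ∀ P Q : SU N, PQ k P Q →
  ∀ ρ : ℝ, 0 < ρ → ∃ (C : ℝ) (K : ℕ), 1 ≤ C ∧ ∀ (L : ℕ) [NeZero L] (β : ℝ), C * (L : ℝ) ^ K ≤ β →
  ∀ c i j : ℕ, C * (L : ℝ) ^ K * β ≤ i → C * (L : ℝ) ^ K * β ≤ j →
    Real.exp (-(Real.exp (-β * (SS L k P Q - ρ)) * ((4 * i + 3) * (4 * j + 3)))) *
      ZZ k β (L := L) P Q (rc 0 (4 * i + 2, 4 * j + 2)) ≤
        ‖Zc k β c (rc 0 (4 * i + 2, 4 * j + 2)) (vc P Q : Cf N L)‖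

/-! ### UDu, UEu, UGu, UNu : ports of UD (uses S_F2 S_G3u of TT, S_VL), UE (uses S_F5 of TT, S_UC S_UDu S_PCu),
UG (uses S_UEu S_UF S_UDu), UN (uses S_G3u of TT) -/

def S_UDu : Prop := ∀ N k : ℕ, 2 ≤ N → Nat.Coprime k N → ∀ P Q : SU N, PQ k P Q →
  ∃ (C : ℝ) (K : ℕ), 1 ≤ C ∧ ∀ (L : ℕ) [NeZero L] (β : ℝ), 1 ≤ β → ∀ (F : Set Pl) (s : Pl), s ∉ F →
    (Measurable (kpf k β P Q F s : Cf N L → ℝ)) ∧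
    (∀ X : Cf N L, Real.exp (-(C * (L : ℝ) ^ K * β)) ≤ kpf k β P Q F s X ∧
      kpf k β P Q F s X ≤ Real.exp (C * (L : ℝ) ^ K * β)) ∧
    (Sys.dep {l | ∀ a ∈ st l, a ∈ Nb 1 s} (kpf k β P Q F s : Cf N L → ℝ)) ∧
    (∀ F' : Set Pl, (∀ a ∈ Nb 1 s, a ∈ F ↔ a ∈ F') →
      (kpf k β P Q F s : Cf N L → ℝ) = kpf k β P Q F' s) ∧
    (∀ (A B : ℕ) [NeZero A] [NeZero B], 8 ≤ A → 8 ≤ B → pse A B F →
      0 < TY N L k β P Q F A B ∧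
      TY N L k β P Q (adp A B F s) A B = ∫ X : TC N A B L,
        kpf k β P Q F s (fzF P Q F (per X)) * wfd k β A B (fzF P Q F (per X))
          ∂(Measure.infinitePi fun _ => hm N))

def S_UEu : Prop := ∀ N k : ℕ, 2 ≤ N → Nat.Coprime k N → ∀ P Q : SU N, PQ k P Q →
  ∃ (c C : ℝ) (K : ℕ), 0 < c ∧ 1 ≤ C ∧ ∀ (L : ℕ) [NeZero L] (β : ℝ), C * (L : ℝ) ^ K ≤ β →
  ∀ (A B A' B' : ℕ) [NeZero A] [NeZero B] [NeZero A'] [NeZero B'] (r : ℕ), 2 ≤ r → 2 * r + 4 ≤ A →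
    2 * r + 4 ≤ B → 2 * r + 4 ≤ A' → 2 * r + 4 ≤ B' → ∀ (F F' : Set Pl) (s : Pl), pse A B F →
    pse A' B' F' → s ∉ F → (∀ a ∈ Nb (r + 1) s, a ∈ F ↔ a ∈ F') →
    TY N L k β P Q (adp A B F s) A B * TY N L k β P Q F' A' B' ≤
      TY N L k β P Q (adp A' B' F' s) A' B' * TY N L k β P Q F A B *
        Real.exp (Real.exp (C * (L : ℝ) ^ K * β - c * r / L))

def S_UGu : Prop := ∀ N k : ℕ, 2 ≤ N → Nat.Coprime k N → ∀ P Q : SU N, PQ k P Q →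
  ∃ (c C : ℝ) (K : ℕ), 0 < c ∧ 1 ≤ C ∧ ∀ (L : ℕ) [NeZero L] (β : ℝ), C * (L : ℝ) ^ K ≤ β →
  ∀ (a b : ℕ) [NeZero a] [NeZero b] [NeZero (2 * a)], 10 ≤ a → 10 ≤ b →
    TY N L k β P Q ∅ a b ^ 2 ≤ TY N L k β P Q ∅ (2 * a) b *
      Real.exp (b * Real.exp (C * (L : ℝ) ^ K * β - c / L * (min a b : ℕ)))

def S_UNu : Prop := ∀ N k : ℕ, 2 ≤ N → ∀ P Q : SU N, ∃ (C : ℝ) (K : ℕ), 1 ≤ C ∧
  ∀ (L : ℕ) [NeZero L] (β : ℝ), 1 ≤ β → ∀ (A B : ℕ) [NeZero A] [NeZero B],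
    TZc N L k β P Q 0 false false A B = (TY N L k β P Q ∅ A B : ℂ) ∧
    Real.exp (-(C * (L : ℝ) ^ K * β * (A * B))) ≤ TY N L k β P Q ∅ A B ∧
    TY N L k β P Q ∅ A B ≤ 1 ∧ (∀ n : ℤ, 0 < TZ N L k β n A B)

/-! ### DGu : port of DG: the dilute gas, uniformly in `L`

`S₀ ≤ SS ≤ S₁` (`S_XD`, `S_YE`): `κ = min ε (S₀ / 16) / 4`, the other choices as in DG; every power of `L` is at most a
small power of `β`. UI, UJ, UK, UL, UM, UB, TS, TQ have no constants and are used as they are (for the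
given `L`, `β`). -/

def S_DGu : Prop := ∀ N k : ℕ, 2 ≤ N → Nat.Coprime k N → ∀ P Q : SU N, PQ k P Q →
  ∀ ε η : ℝ, 0 < ε → 0 < η → ∃ (C : ℝ) (K : ℕ), 1 ≤ C ∧ ∀ (L : ℕ) [NeZero L] (β : ℝ),
  C * (L : ℝ) ^ K ≤ β → ∃ ζ : ℕ → ℝ, (∀ n, 0 < ζ n) ∧
    Real.exp (-β * (SS L k P Q + ε)) ≤ ∑ n ∈ Finset.Ico 1 N, ζ n ∧
    ∑ n ∈ Finset.Ico 1 N, ζ n ≤ Real.exp (-β * (SS L k P Q - ε)) ∧
    ∀ (c A B : ℕ) [NeZero A] [NeZero B], Even A → Even B → Real.exp (ε * β) ≤ A →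
      Real.exp (ε * β) ≤ B →
      |Real.log (‖∑ n ∈ Finset.range N, om N (c * n) * (TZ N L k β n A B : ℂ)‖ /
          ∑ n ∈ Finset.range N, TZ N L k β n A B) +
        A * B * ∑ n ∈ Finset.Ico 1 N, ζ n * (1 - Real.cos (2 * Real.pi * (c * n) / N))| ≤
      η * (A * B * ∑ n ∈ Finset.Ico 1 N, ζ n)

/-- the task: `theorem pDGu : S_DGu'` in `DGu.lean` -/
def S_DGu' : Prop := S_XD → S_YE → S_TQ → S_TUu → S_UHu → S_TS → S_UB → S_UGu → S_UI → S_UJ → S_UK →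
  S_UL → S_UM → S_UNu → S_DGu

/-! ### TEu : not needed (S_UI has no constants) -/

end T2H01.SE
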