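import Pool.Agent.T2H01.SE.XC
import Pool.Agent.T2H01.SE.Stm8

/-!
# The vortex action converges as `L → ∞` (project SE)

Result (package BL): `SS L k P Q` converges to its supremum over `L` (the vortex action of the continuum theory).
Idea: blocking. Given a configuration `X` on `ℤ² × (ℤ/L')²` and `L ≤ L'`, choose in each of the four directions a grid
`⌈(c L' - w) / L⌉`, `c ∈ ℤ` (`w < L'` is the offset), of mesh at most `σ = ⌈L'/L⌉`, and multiply the links between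
neighbouring grid points. Nonabelian Stokes (XA) and Cauchy-Schwarz: the energy of a coarse plaquette is at
most `σ²` times the energy of the fine plaquettes in it. Average over the `L'^4` offsets: every fine plaquette is
used `L'² L²` times. So for some offset the coarse energy is at most `(σ L / L')²` times the fine one.

Same rules as in `Stm1.lean`: package `Y` proves `theorem pY : S_Y` (from the statements named, as hypotheses, in
the order given) in the file `Pool/Agent/T2H01/SE/Y.lean` which imports this file (lemmas in the namespace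
`T2H01.SE.PkgY`). If a statement is false or awkward, tell helper1 at once.
-/

set_option autoImplicit false

noncomputable section

open MeasureTheory Matrix
open scoped Matrix.Norms.Frobenius ENNReal

namespace T2H01.SE

open T2H02.TT

/-- grid points in the directions of the plane: `⌈(c L' - w) / L⌉` (`/` rounds down) -/
def gP (L L' w : ℕ) (c : ℤ) : ℤ := -(((w : ℤ) - c * L') / L)

/-- distance of neighbouring grid points -/
def sP (L L' w : ℕ) (c : ℤ) : ℕ := (gP L L' w (c + 1) - gP L L' w c).toNat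

/-- grid points in the directions of the torus -/
def gT (L L' w : ℕ) (y : ZMod L) : ZMod L' := ((gP L L' w ((y.val : ℤ) + 1) - 1 : ℤ) : ZMod L')

/-- distance of neighbouring grid points in the directions of the torus -/
def sT (L L' w : ℕ) (y : ZMod L) : ℕ := sP L L' w ((y.val : ℤ) + 1)

/-- the fine site of a coarse site -/
def gq (L L' : ℕ) (w : ℕ × ℕ × ℕ × ℕ) (p : Pt L) : Pt L' :=
  ((gP L L' w.1 p.1.1, gP L L' w.2.1 p.1.2), (gT L L' w.2.2.1 p.2.1, gT L L' w.2.2.2 p.2.2))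

/-- the number of fine links of the coarse link `(p, i)` -/
def sg (L L' : ℕ) (w : ℕ × ℕ × ℕ × ℕ) (p : Pt L) (i : Fin 4) : ℕ :=
  if i = 0 then sP L L' w.1 p.1.1 else if i = 1 then sP L L' w.2.1 p.1.2 else
    if i = 2 then sT L L' w.2.2.1 p.2.1 else sT L L' w.2.2.2 p.2.2

/-- blocking -/
def bk {N : ℕ} (L L' : ℕ) [NeZero L'] (w : ℕ × ℕ × ℕ × ℕ) (X : Cf N L') : Cf N L :=
  fun l => lin X l.2 (sg L L' w l.1 l.2) (gq L L' w l.1)

/-- the offsets -/
def WW (L' : ℕ) : Finset (ℕ × ℕ × ℕ × ℕ) :=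
  Finset.range L' ×ˢ Finset.range L' ×ˢ Finset.range L' ×ˢ Finset.range L'

/-! ### package BA : arithmetic of the grids (no hypotheses)

`g c = gP L L' w c = ⌈(c L' - w) / L⌉` satisfies `g (c + L) = g c + L'`, `g (c+1) ≥ g c + 1` (as `L ≤ L'`), `g (c+1) ≤ g c +
⌈L'/L⌉`, `g 0 = -(w / L) ∈ (-L', 0]`, `1 ≤ g 1 ≤ L'`. Third part: `0 ∈ [g c, g (c+1))` iff `c = 0` (monotonicity),
`a₀ = w / L`. Fourth: `g c ≥ c + g 0` for `c ≥ 0`, `g c ≤ c + g 0` for `c ≤ 0`. Torus: `y = -1` iff `y.val = L - 1`; for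
`y ≠ -1` `(y+1).val = y.val + 1`, for `y = -1` use `g (L + 1) = g 1 + L'`. Last part: with `c = y.val + 1 ∈ [1, L]`
`gT y + a = -1` iff `L' ∣ g c + a`, and `1 ≤ g 1 ≤ g c + a < g (L + 1) = g 1 + L' ≤ 2 L'`, so iff `g c + a = L'`, where
`g L = g 0 + L' ≤ L' < g (L+1)`: iff `c = L` and `a = - g 0 = w / L`. -/

def S_BA : Prop := ∀ (L L' w : ℕ) [NeZero L] [NeZero L'], L ≤ L' → w < L' →
  (∀ c, gP L L' w c + sP L L' w c = gP L L' w (c + 1)) ∧
  (∀ c, 1 ≤ sP L L' w c ∧ sP L L' w c ≤ (L' + L - 1) / L) ∧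
  (∃ a₀ : ℕ, a₀ < sP L L' w 0 ∧ ∀ (c : ℤ) (a : ℕ), a < sP L L' w c →
    (gP L L' w c + a = 0 ↔ c = 0 ∧ a = a₀)) ∧
  (∀ c : ℤ, |c| ≤ |gP L L' w c| + L') ∧
  (∀ y : ZMod L, gT L L' w y + sT L L' w y = gT L L' w (y + 1)) ∧
  (∀ y : ZMod L, 1 ≤ sT L L' w y ∧ sT L L' w y ≤ (L' + L - 1) / L) ∧
  (∃ a₀ : ℕ, a₀ < sT L L' w (-1) ∧ ∀ (y : ZMod L) (a : ℕ), a < sT L L' w y →
    (gT L L' w y + a = -1 ↔ y = -1 ∧ a = a₀))

/-! ### package BB : covering numbers in the plane (uses S_BA)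

First part: for given `w` the map `(c, a) ↦ gP c + a`, `a < sP c`, is injective (disjoint intervals), so the inner sums
are at most `Σ' g` (`ENNReal.tsum_comp_le_tsum_of_injective` for the sigma type `Σ c, Fin (sP c)`). Second part: the map
`(w, c) ↦ (gP w c, L gP w c - (c L' - w))` from `Fin L' × ℤ` to `ℤ × [0, L)` is injective: `c L' - w` determines `c` and
`w < L'`. -/

def S_BB : Prop := ∀ (L L' : ℕ) [NeZero L] [NeZero L'], L ≤ L' → ∀ g : ℤ → ℝ≥0∞,
  (∑ w ∈ Finset.range L', ∑' c : ℤ, ∑ a ∈ Finset.range (sP L L' w c), g (gP L L' w c + a) ≤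
    L' * ∑' p, g p) ∧
  (∑ w ∈ Finset.range L', ∑' c : ℤ, g (gP L L' w c) ≤ L * ∑' p, g p)

/-! ### package BC : covering numbers in the torus (uses S_BA)

The same: for given `w` the integers `gP (c) - 1 + a`, `1 ≤ c ≤ L`, `a < sP c`, are different elements of an interval of
length `L'`, so different modulo `L'`. Second part: `(w, y) ↦ (gT w y, L gP w c - (c L' - w))`, `c = y.val + 1`, is
injective: if `gP w c ≡ gP w' c'` modulo `L'` and the second components agree, then `c L' - w ≡ c' L' - w'` modulo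
`L L'`, so `w ≡ w'` modulo `L'`, `w = w'`, and `c ≡ c'` modulo `L`. -/

def S_BC : Prop := ∀ (L L' : ℕ) [NeZero L] [NeZero L'], L ≤ L' → ∀ g : ZMod L' → ℝ≥0∞,
  (∑ w ∈ Finset.range L', ∑ y : ZMod L, ∑ a ∈ Finset.range (sT L L' w y), g (gT L L' w y + a) ≤
    L' * ∑ p, g p) ∧
  (∑ w ∈ Finset.range L', ∑ y : ZMod L, g (gT L L' w y) ≤ L * ∑ p, g p)

/-! ### package BD : blocked plaquettes (uses S_BA S_XA)

Part 1, 2: `PkgXD.mv0`, ..., `mv3` (in `XD.lean`) and BA. Part 3: products of the twists, by BA the corner is met exactly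
once if `p` is at the corner and never otherwise (compare `PkgXD.prod_sq`, `prod_tw`, `prod_pl`). Part 4: XA with
`m = sg p i`, `n = sg p j` and parts 1 - 3 give `‖df (bk X) .. p i j‖ ≤ Σ_{a,b} ‖df X ..‖`; square it by
`sq_sum_le_card_mul_sum_sq` (compare `PkgXC.FF_sq`). -/

def S_BD : Prop := ∀ (L L' : ℕ) [NeZero L] [NeZero L'], L ≤ L' → ∀ w ∈ WW L',
  (∀ (p : Pt L) (i : Fin 4), mv i (sg L L' w p i) (gq L L' w p) = gq L L' w (nx p i)) ∧
  (∀ (p : Pt L) (i j : Fin 4), i ≠ j → sg L L' w (nx p i) j = sg L L' w p j) ∧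
  (∀ (N k : ℕ) (n : ℤ) (p : Pt L), ∀ d ∈ dirs,
    ∏ a ∈ Finset.range (sg L L' w p d.1), ∏ b ∈ Finset.range (sg L L' w p d.2),
      twz N k n d.1 d.2 (mv d.2 b (mv d.1 a (gq L L' w p))) = twz N k n d.1 d.2 p) ∧
  (∀ (N k : ℕ) (n : ℤ) (X : Cf N L') (p : Pt L), ∀ d ∈ dirs,
    PkgXC.ee k n (bk L L' w X) d p ≤ (((L' + L - 1) / L : ℕ) : ℝ) ^ 2 *
      ∑ a ∈ Finset.range (sg L L' w p d.1), ∑ b ∈ Finset.range (sg L L' w p d.2),
        PkgXC.ee k n X d (mv d.2 b (mv d.1 a (gq L L' w p))))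

/-! ### package BE : blocking of the vacuum (uses S_BA)

If `x ∉ Nb (K + L' + 1) 0` and also `x + pe i ∉ ..` then by BA (fourth part; `gP` is increasing) no fine point of the
segment from `gq (x, y)` in the direction `i` is in `Nb K 0 ⊇ U`, so all its links are as in `vc`. Their product: `1` for
`i = 0, 1`; for `i = 2` (`3`): `P` (`Q`) if the segment contains the link from `y.1 = -1`, which is the case iff the coarse
link has `y.1 = -1` (BA, last part), otherwise `1`. (Compare `lin_vc2`, `notFrl` in `XD.lean`; a lemma by induction on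
`n`: `lin (vc P Q) 2 n (x, y) = if ∃ a < n, y.1 + a = -1 then P else 1` for `n ≤ L'`; use `step_unique`.) -/

def S_BE : Prop := ∀ (N L L' : ℕ) [NeZero L] [NeZero L'], L ≤ L' → ∀ w ∈ WW L',
  ∀ (P Q : SU N) (K : ℕ) (U : Finset Pl) (X : Cf N L'), U ⊆ Nb K 0 →
    (∀ l, l ∉ Frl L' U → X l = vc P Q l) →
      ∀ l, l ∉ Frl L (Nb (K + L' + 2) 0) → bk L L' w X l = vc P Q l

/-! ### package BF : covering numbers in four dimensions (uses S_BB S_BC)

For fixed `w` let `A_w g = Σ'_c Σ_{a < sP w c} g (gP w c + a)` or `A_w g = Σ'_c g (gP w c)` (directions of the plane; in the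
torus the same with `gT`, `sT`): monotone, additive (also for `Σ'`), homogeneous. For each of the six `d` the inner
sum over `p` is (with `mv0`, ..., `mv3` of `XD.lean` and `ENNReal.tsum_comm`) the fourfold application `A_(w₀) A_(w₁) A_(w₂)
A_(w₃) F`, the first kind of `A` exactly for the two directions in `d`. Sum over `w₃`, then over `w₂`, ..., with BB and BC:
every direction in `d` gives a factor `L'`, the other two `L`. -/

def S_BF : Prop := ∀ (L L' : ℕ) [NeZero L] [NeZero L'], L ≤ L' → ∀ d ∈ dirs, ∀ F : Pt L' → ℝ≥0∞,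
  ∑ w ∈ WW L', ∑' p : Pt L, ∑ a ∈ Finset.range (sg L L' w p d.1),
    ∑ b ∈ Finset.range (sg L L' w p d.2), F (mv d.2 b (mv d.1 a (gq L L' w p))) ≤
      (L : ℝ≥0∞) ^ 2 * (L' : ℝ≥0∞) ^ 2 * ∑' p, F p

/-! ### package BG : comparison of the vortex actions (uses S_BD S_BE S_BF S_VL)

Let `(n, U, X)` give an element `E` of `vset L' k P Q` (`le_csInf`-like: it suffices `SS L ≤ (σ L / L')² E` for all of them, and
the set is not empty, `mul_csInf`/division by `(σ L / L')² > 0`). By `PkgXD.sum_le` (or `PkgVXu.fin_le`) `Σ_T enf ≤ E` for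
all finite `T`, so `Σ_{p ∈ V} Σ_{dirs} ee ≤ E` for finite `V` (`PkgXC.sum_le`), so `Σ'_p Σ_{dirs} ofReal (ee d p) ≤ ofReal E`.
BD (part 4) and BF: `Σ_{w ∈ WW} Σ_{dirs} Σ'_p ofReal (ee (bk w X) d p) ≤ σ² L² L'² ofReal E`; `#WW = L'^4`, so for some `w` the
inner sum is `≤ ofReal ((σ L / L')² E)`. With `U ⊆ Nb K 0`, `V = Nb (K + L' + 2) 0` and BE `(n, V, bk w X)` is in `vset L`, and
`EE k (dl 0 n) V (bk w X) ≤ Σ_{x} Σ_i enf (x, i) ≤ (σ L / L')² E` (sum over a finite set of `x`; `PkgXC.sum_site`). -/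

def S_BG : Prop := ∀ N k : ℕ, 2 ≤ N → Nat.Coprime k N → ∀ P Q : SU N, PQ k P Q →
  ∀ (L L' : ℕ) [NeZero L] [NeZero L'], L ≤ L' →
    SS L k P Q ≤ ((((L' + L - 1) / L : ℕ) : ℝ) * L / L') ^ 2 * SS L' k P Q

/-! ### package BL : convergence (uses S_BG S_YE)

`s = sup_L SS L ≤ C` (YE), `SS ≥ 0`. Given `ε`, choose `L₁` with `SS L₁ ≥ s - ε / 2`. For `L' ≥ L₁` : `σ L₁ / L' ≤ 1 + L₁ / L'`, so
`SS L' ≥ SS L₁ / (1 + L₁ / L')² ≥ s - ε` for large `L'`. -/

def S_BL : Prop := ∀ N k : ℕ, 2 ≤ N → Nat.Coprime k N → ∀ P Q : SU N, PQ k P Q →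
  ∃ s : ℝ, (∀ (L : ℕ) [NeZero L], SS L k P Q ≤ s) ∧
    ∀ ε : ℝ, 0 < ε → ∃ L₀ : ℕ, ∀ (L : ℕ) [NeZero L], L₀ ≤ L → s - ε ≤ SS L k P Q

end T2H01.SE
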