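import Pool.Agent.T2H01.SE.Frz
import Pool.Agent.T2H01.SE.Stm1

/-!
# Statements of the packages ZO ZD PC MA MB ZT RC RX RT SP WX WH VP (project SE)

Same rules as in `Stm1.lean` : package `Y` proves `theorem pY : S_Y` in `Pool/Agent/T2H01/SE/Y.lean`,
auxiliary lemmas in the namespace `T2H01.SE.PkgY`.
-/

set_option autoImplicit false

noncomputable section

open MeasureTheory Matrix
open scoped Matrix.Norms.Frobenius

namespace T2H01.SE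

open T2H02.TT

/-! ### package ZO : port of `Z1` (TT) to domains with cold walls (uses S_F3 S_F5 S_H S_M of TT, S_VL)

`Ω` is any finite set; all links which do not touch `Ω` are as in the vacuum. Port of the file `Z1.lean`
with `sit M Λ` replaced by `sit M Λ ∩ Ω`. First part: H with `Λ := sit M (Nb 2 b) ∩ Ω`, `B := sit M (Nb 1 b)`,
`R = M - 1`, `e = 0`: `bal M B ⊆ sit M (Nb 2 b)`, so a term with all corners in `bal M B` and not in `Λ` has no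
corner in `Ω`, its links are as in the vacuum and its energy is `0` (S_VL, third part). A bad term is in
`tml (B ∩ Λ)`. Second part: `Λ_s = sit M Λ ∩ Ω`, `B = sit M {b} ∩ Ω`, `Λ'' = Λ_s ∩ bal R₁ B`. The fixed terms
inside `sit M (Nb 1 b)` have no corner in `Ω` (energy `0`), or energy `≤ ε` by hypothesis (for `η`, and for
`η'`, which agrees with `η` on them). `F' X = F (fun l => if l ∈ Frl L Ω` has all its sites in `Ω` in blocks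
of `Nb 2 b \ Λ` or `l ∉ Frl L Ω` then `η l` else `X l)`: it depends only on links `l` which have a site in `B`
and whose other site is in `B` or in `bal 1 B \ Λ_s`. The rest as in `Z1.lean` (if `B = ∅` then `F'` is
constant; nothing changes, `Λ'' = ∅`). -/

def S_ZO : Prop := ∀ (N k L : ℕ) [NeZero L] (hN : 2 ≤ N), Nat.Coprime k N → ∀ P Q : SU N, PQ k P Q →
  ∃ (C θ : ℝ) (D : ℕ), 1 ≤ C ∧ 0 < θ ∧ θ < 1 ∧ ∀ (β : ℝ) (hβ : 0 ≤ β), 1 ≤ β →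
  ∀ (M : ℕ), 0 < M → ∀ (t ε r : ℝ), 8 ≤ M → 0 ≤ t → ε = C * M ^ 2 * (θ ^ M + t) →
    r = C * M ^ 8 * (θ ^ M + t) → r ≤ 1 / C → ∀ Ω : Finset Pl,
    (∀ (b : Pl) (η : Cf N L), (∀ l, l ∉ Frl L Ω → η l = vc P Q l) →
      (sysS N L k β hN hβ).ker (hm N) (sit M (Nb 2 b) ∩ Ω)
        (fun X => ind (∃ τ : Tm, (∃ a ∈ cor τ, a ∈ Ω) ∧ (∀ a ∈ cor τ, a ∈ Ω → blk M a ∈ Nb 1 b) ∧
          ¬ en k X τ ≤ ε)) η ≤
        M * (Real.exp (-β * t) * (C * β) ^ (D * M ^ 2))) ∧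
    (∀ (b : Pl), ∀ Λ ⊆ Nb 2 b, b ∈ Λ → ∀ η η' : Cf N L,
      (∀ l, l ∉ Frl L Ω → η l = vc P Q l ∧ η' l = vc P Q l) →
      (∀ l ∈ Frl L Ω, (∀ a ∈ st l, a ∈ Ω → blk M a ∈ Nb 2 b ∧ blk M a ∉ Λ) → η l = η' l) →
      (∀ τ : Tm, (∃ a ∈ cor τ, a ∈ Ω) →
        (∀ a ∈ cor τ, a ∈ Ω → blk M a ∈ Nb 1 b ∧ blk M a ∉ Λ) → en k η τ ≤ ε) →
      ∀ F : Cf N L → ℝ, Measurable F → (∀ ω, 0 ≤ F ω ∧ F ω ≤ 1) →
        Sys.dep {l | l ∈ Frl L Ω ∧ ∀ a ∈ st l, a ∈ Ω →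
          (blk M a ∈ Nb 2 b ∧ blk M a ∉ Λ) ∨ blk M a = b} F →
        (sysS N L k β hN hβ).ker (hm N) (sit M Λ ∩ Ω) F η ≤
          (sysS N L k β hN hβ).ker (hm N) (sit M Λ ∩ Ω) F η' +
          (C * M ^ 2 * (β * (r * Real.sqrt r + θ ^ M * r) + Real.exp (-β / C)) +
            4 * M * (Real.exp (-β * t) * (C * β) ^ (D * M ^ 2))))

/-! ### package ZD : the hypotheses of the coupling theorem for the frozen system (uses S_ZO)

`frz_ker` in `Frz.lean` and `coa_ker`; parameters exactly as in the proof of `pZ` in `TT/Z.lean` (its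
lemmas `PkgZ.params` and `PkgZ.core` can be cited; `P`, `Q` are fixed before the constants). -/

def S_ZD : Prop := ∀ (N k L : ℕ) [NeZero L] (hN : 2 ≤ N), Nat.Coprime k N → ∀ P Q : SU N, PQ k P Q →
  ∃ c K β₀ : ℝ, 0 < c ∧ 1 ≤ K ∧ 1 < β₀ ∧ ∀ (β : ℝ) (hβ : 0 ≤ β), β₀ ≤ β →
  ∃ (M : ℕ) (hM : 0 < M) (ε p δ q : ℝ), (M : ℝ) ≤ K * Real.log β ∧
    0 < p ∧ 0 < δ ∧ 0 < q ∧ δ ≤ q ^ 2 ∧ p ≤ q ^ 32 ∧ 48 * q ≤ 1 / 2 ∧ 48 * q ≤ β ^ (-c) ∧
    ∀ Ω : Finset Pl,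
    (∀ b η, (coa (frz N L k β hN hβ P Q Ω) M hM).ker (hm N) (Nb 2 b)
      (fun ω => ind (Bad (coa (frz N L k β hN hβ P Q Ω) M hM)
        (fun τ X => en k (xt P Q Ω X) τ ≤ ε) b ω)) η ≤ p) ∧
    (∀ b, ∀ Λ ⊆ Nb 2 b, b ∈ Λ → ∀ η η' : Lv L Ω → SU N,
      (∀ i, (∀ a ∈ (coa (frz N L k β hN hβ P Q Ω) M hM).bl i, a ∈ Nb 2 b ∧ a ∉ Λ) → η i = η' i) →
      (∀ τ ∈ (coa (frz N L k β hN hβ P Q Ω) M hM).tms (Nb 1 b),
        (∀ a ∈ (coa (frz N L k β hN hβ P Q Ω) M hM).bt τ, a ∈ Nb 1 b ∧ a ∉ Λ) →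
        en k (xt P Q Ω η) τ ≤ ε) →
      ∀ F : (Lv L Ω → SU N) → ℝ, Measurable F → (∀ ω, 0 ≤ F ω ∧ F ω ≤ 1) →
        Sys.dep {i | ∀ a ∈ (coa (frz N L k β hN hβ P Q Ω) M hM).bl i,
          (a ∈ Nb 2 b ∧ a ∉ Λ) ∨ a = b} F →
        (coa (frz N L k β hN hβ P Q Ω) M hM).ker (hm N) Λ F η ≤
          (coa (frz N L k β hN hβ P Q Ω) M hM).ker (hm N) Λ F η' + δ)

/-! ### package PC : decay in domains with cold walls (uses S_F3 S_F5 S_X of TT, S_ZD; port of `P1.lean`)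

Let `Λ = Δ ∪ bal n A`, so `Λ ∩ Ω = Δ`; `f' = f ∘ xt P Q Ω` for the frozen system; as in `P1.lean` the kernel of the
frozen system in `Λ` forgets the boundary values, by X for `coa (frz ..)` and F3, F5 for `frz ..`. By
`frz_ker` its kernel in `Λ` is the kernel of `sysS` in `Δ` of `f (xt (rs X))`, and `xt (rs X) = X` for all `X` which are as
in the vacuum off `Frl L Ω` (for instance `glue (Frl L Δ) ξ η`). -/

def S_PC : Prop := ∀ (N k L : ℕ) [NeZero L] (hN : 2 ≤ N), Nat.Coprime k N → ∀ P Q : SU N, PQ k P Q →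
  ∃ m κ β₀ : ℝ, 0 < m ∧ 0 ≤ κ ∧ 1 < β₀ ∧ ∀ (β : ℝ) (hβ : 0 ≤ β), β₀ ≤ β →
  ∀ (Ω Δ A : Finset Pl) (n : ℕ), Δ ⊆ Ω → (∀ a ∈ A, ∀ b ∈ Nb n a, b ∈ Ω → b ∈ Δ) →
    ∀ f : Cf N L → ℝ, Measurable f → (∀ X, |f X| ≤ 1) →
    Sys.dep {l | ∀ a ∈ st l, a ∈ Ω → a ∈ A} f →
    ∀ η η' : Cf N L, (∀ l, l ∉ Frl L Ω → η l = vc P Q l ∧ η' l = vc P Q l) →
      |(sysS N L k β hN hβ).ker (hm N) Δ f η - (sysS N L k β hN hβ).ker (hm N) Δ f η'| ≤
      6 * A.card * β ^ κ * Real.exp (-m * n)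

/-! ### packages MA, MB : the partition function with cold walls, removal of a site

`ZZ Λ = num Λ 1 vc`. MA (uses S_F2 S_F5 S_G3 of TT, S_VL). Let `a ∈ Λ`, `J = Frl L Λ \ Frl L (Λ \ {a})` (the links
which touch `Λ` only in `a`), `T` = the terms of `tml Λ` which contain a link of `J`, `T' = T ∩ tml (Λ \ {a})`
(every term of `tml Λ \ tml (Λ \ {a})` is in `T`). `rx X = X` with the links of `J` replaced by those of `vc`;
`κ X = (∏_{T'} wt (rx X)) / ∫ ∏_T wt (glue J ζ X) dζ`, which does not depend on the links of `J`. By F2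
`ZZ (Λ \ {a}) = ∫ ∏_{tml Λ \ T} wt * ∏_{T'} wt (rx ..) = ∫ ∏_{tml Λ} wt * κ (glue (Frl L Λ) ξ vc) dξ = ZZ Λ * ker Λ κ vc`.
All weights are between `exp (-C β)` (G3, `1 ≤ β`) and `1`, `#T ≤ 36`. The function `κ = kap Λ a` depends on `Λ` only
through `Λ ∩ Nb 1 a` and only on links with both sites in `Nb 1 a`, and not on the links of `J` (which is more
than needed). MB (uses S_F3 S_F5, S_MA, S_PC): induction on `T`: for `a ∈ T` compare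
`κ` for `Λ = rc (-q, y) (0, y') ∪ T` and `Λ' = rc (-q', y) (0, y') ∪ T` (the same function, `q ≥ 2`):
`|ker Λ' κ vc - ker Λ κ vc| ≤ exp (C β) 54 β^κ exp (-m (q - 1))` by `ker Λ' = ker Λ' (ker Λ ·)` (F3) and PC for
`κ / exp (C β)` with `Ω = Λ'`, `Δ = Λ`, `A = Nb 1 a`, `n = q - 1` (F5 for the support of `ker Λ' · vc`); both are
`≥ exp (-C β)`; `x ≤ y (1 + u) ≤ y exp u`. -/

/-- partition function with cold walls -/
def ZZ (k : ℕ) (β : ℝ) {N L : ℕ} [NeZero L] (P Q : SU N) (Λ : Finset Pl) : ℝ :=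
  ∫ ξ, (∏ τ ∈ tml Λ, wt k β τ (glue (Frl L Λ) ξ (vc P Q))) ∂(pm N L)

def S_MA : Prop := ∀ (N k L : ℕ) [NeZero L] (hN : 2 ≤ N), Nat.Coprime k N → ∀ P Q : SU N, PQ k P Q →
  ∃ C : ℝ, 1 ≤ C ∧ ∀ (β : ℝ) (hβ : 0 ≤ β), 1 ≤ β →
    ∃ kap : Finset Pl → Pl → Cf N L → ℝ,
      (∀ Λ a, Measurable (kap Λ a)) ∧
      (∀ Λ a X, Real.exp (-C * β) ≤ kap Λ a X ∧ kap Λ a X ≤ Real.exp (C * β)) ∧
      (∀ Λ a, Sys.dep {l | ∀ b ∈ st l, b ∈ Nb 1 a} (kap Λ a)) ∧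
      (∀ Λ Λ' a, (∀ b ∈ Nb 1 a, b ∈ Λ ↔ b ∈ Λ') → kap Λ a = kap Λ' a) ∧
      (∀ (Λ : Finset Pl) (a : Pl), a ∈ Λ → 0 < ZZ k β (L := L) P Q Λ ∧
        ZZ k β (L := L) P Q (Λ.erase a) = ZZ k β (L := L) P Q Λ *
          (sysS N L k β hN hβ).ker (hm N) Λ (kap Λ a) (vc P Q))

def S_MB : Prop := ∀ (N k L : ℕ) [NeZero L], 2 ≤ N → Nat.Coprime k N → ∀ P Q : SU N, PQ k P Q →
  ∃ m C β₀ : ℝ, 0 < m ∧ 1 ≤ C ∧ 1 ≤ β₀ ∧ ∀ β : ℝ, β₀ ≤ β → ∀ (y y' : ℤ) (q q' : ℕ), y ≤ y' →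
    2 ≤ q → q ≤ q' → ∀ T : Finset Pl, (∀ a ∈ T, 1 ≤ a.1) →
      ZZ k β (L := L) P Q (rc (-q', y) (0, y') ∪ T) * ZZ k β (L := L) P Q (rc (-q, y) (0, y')) ≤
        ZZ k β (L := L) P Q (rc (-q', y) (0, y')) * ZZ k β (L := L) P Q (rc (-q, y) (0, y') ∪ T) *
          Real.exp (T.card * Real.exp (C * β - m * q))

/-! ### package ZT : partition functions with electric charge (uses S_VA S_VS)

First part: `wch N β c x X = (1/N) ∑_m (om N m)^c exp (-β eP X (om N m) x)`; expand the product over the cells of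
`cl U` (`Finset.prod_univ_sum` or `Finset.prod_sum`): `Zc = N^(-#cl) ∑_{s : cl U → Fin N} oz (c ∑ s) Zf s`; by VS `Zf s`
depends only on `∑ s` modulo `N`, and every value modulo `N` is taken `N^(#cl - 1)` times. Second part:
`wch N β 0 x X = wt k β (x, 3) X`, `en1 = en` for the other kinds. Last part: `|wch c| ≤ wch 0`. -/

/-- partition function with electric charge `c` -/
def Zc (k : ℕ) (β : ℝ) {N L : ℕ} [NeZero L] (c : ℕ) (U : Finset Pl) (η : Cf N L) : ℂ :=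
  ∫ ξ, (∏ τ ∈ (tml U).filter (fun τ => τ.2 ≠ 3),
      (Real.exp (-β * en1 k (glue (Frl L U) ξ η) τ) : ℂ)) *
    ∏ τ ∈ (tml U).filter (fun τ => τ.2 = 3), wch N β c τ.1 (glue (Frl L U) ξ η) ∂(pm N L)

def S_ZT : Prop := ∀ (N k L : ℕ) [NeZero L], 2 ≤ N → ∀ β : ℝ, 0 ≤ β →
  (∀ (c : ℕ) (a b : Pl), a.1 ≤ b.1 → a.2 ≤ b.2 → ∀ η : Cf N L,
    (N : ℂ) * Zc k β c (rc a b) η =
      ∑ n ∈ Finset.range N, om N (c * n) * (Zf k β (dl a n) (rc a b) η : ℂ)) ∧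
  (∀ (P Q : SU N) (U : Finset Pl), Zc k β 0 U (vc P Q : Cf N L) = (ZZ k β (L := L) P Q U : ℂ)) ∧
  (∀ (c : ℕ) (U : Finset Pl) (η : Cf N L), ‖Zc k β c U η‖ ≤ ‖Zc k β 0 U η‖)

/-! ### package RC : abstract reflection inequality (uses S_F2 of TT)

By F2 (applied to real and imaginary parts; `glue` over a disjoint union is an iterated `glue`), for
`g = glue J₀ ξ η`: `Z i j = ∫ Φ₀ g * (∫ Φ₁ i (glue (J₁ i) ζ g) dζ) * (∫ Φ₂ j (glue (J₂ j) ζ g) dζ) dξ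
= ∫ Φ₀ g * A i g * star (A j g)`. Cauchy-Schwarz for the weight `Φ₀ ≥ 0`:
`‖Z i j‖² ≤ ∫ Φ₀ ‖A i‖² * ∫ Φ₀ ‖A j‖²`, and `∫ Φ₀ ‖A i‖² = Z i i = ‖Z i i‖`. -/

/-- `f` depends only on the variables in `A` -/
def depC {ι X : Type} (A : Set ι) (f : (ι → X) → ℂ) : Prop :=
  ∀ ω ω' : ι → X, (∀ i ∈ A, ω i = ω' i) → f ω = f ω'

def S_RC : Prop := ∀ (ι X : Type) [DecidableEq ι] [MeasurableSpace X] (μ : Measure X)
  [IsProbabilityMeasure μ] (J₀ : Finset ι) (J₁ J₂ : Fin 2 → Finset ι) (Φ₀ : (ι → X) → ℝ)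
  (Φ₁ Φ₂ : Fin 2 → (ι → X) → ℂ) (η : ι → X),
  Measurable Φ₀ → (∀ ω, 0 ≤ Φ₀ ω ∧ Φ₀ ω ≤ 1) →
  (∀ i, Measurable (Φ₁ i) ∧ Measurable (Φ₂ i) ∧ (∀ ω, ‖Φ₁ i ω‖ ≤ 1) ∧ ∀ ω, ‖Φ₂ i ω‖ ≤ 1) →
  (∀ i j, Disjoint (J₁ i) (J₂ j)) → (∀ i, Disjoint J₀ (J₁ i) ∧ Disjoint J₀ (J₂ i)) →
  (∀ i, Sys.dep {l | l ∉ J₁ i ∧ l ∉ J₂ i} Φ₀) →
  (∀ i j, depC {l | l ∉ J₂ j} (Φ₁ i) ∧ depC {l | l ∉ J₁ i} (Φ₂ j)) →
  (∀ i ξ, ∫ ζ, Φ₂ i (glue (J₂ i) ζ (glue J₀ ξ η)) ∂(Measure.infinitePi fun _ : ι => μ) =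
    star (∫ ζ, Φ₁ i (glue (J₁ i) ζ (glue J₀ ξ η)) ∂(Measure.infinitePi fun _ : ι => μ))) →
  ∀ Z : Fin 2 → Fin 2 → ℂ, (∀ i j, Z i j = ∫ ξ, (Φ₀ (glue (J₀ ∪ J₁ i ∪ J₂ j) ξ η) : ℂ) *
    Φ₁ i (glue (J₀ ∪ J₁ i ∪ J₂ j) ξ η) * Φ₂ j (glue (J₀ ∪ J₁ i ∪ J₂ j) ξ η)
      ∂(Measure.infinitePi fun _ : ι => μ)) →
    ‖Z 0 1‖ ^ 2 ≤ ‖Z 0 0‖ * ‖Z 1 1‖

/-! ### package RX : reflection inequality for the partition functions (uses S_RC; compare `RP.lean` of TT)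

`U = rc (-r, y) (s, y')`. Every term touching `U` has all corners in `x.1 = 0` (kinds `0` and `2`: weights
`exp (-β en1) > 0`, product `Φ₀`), or all corners in `x.1 ≥ 0` (it touches `rc (0, y) (s, y')` : product
`Φ₁ s`), or all in `x.1 ≤ 0` (`Φ₂ r`). `J₀` = the links with both sites in `x.1 = 0` which touch `U`; `J₁ s` = the links with
both sites in `x.1 ≥ 0`, not both in `x.1 = 0`, which touch `rc (0,y) (s,y')`; `J₂ r` : the mirror images. `rf` (from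
`Stm4.lean` of TT) satisfies `rf vc = vc`, preserves the product measure (`RP.lean`, or directly), maps `J₁ s` to
`J₂ s`, does not change the links over `x.1 = 0`; `en1 k (rf X) τ = en1 k X τ'` (`τ'` the mirror image of `τ`) for kinds
`≠ 3` and `wch N β c x (rf X) = star (wch N β c x' X)`, so `Φ₂ r (rf X) = star (Φ₁ r X)`. Use S_RC with the pair `(s, r)`. -/

def S_RX : Prop := ∀ (N k L : ℕ) [NeZero L], 2 ≤ N → ∀ (P Q : SU N) (β : ℝ), 0 ≤ β →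
  ∀ (c : ℕ) (y y' : ℤ), y ≤ y' → ∀ r s : ℕ,
    ‖Zc k β c (rc (-r, y) (s, y')) (vc P Q : Cf N L)‖ ^ 2 ≤
      ‖Zc k β c (rc (-r, y) (r, y')) (vc P Q : Cf N L)‖ *
        ‖Zc k β c (rc (-s, y) (s, y')) (vc P Q : Cf N L)‖

/-! ### package RT : translations, exchange of the directions (compare `SY.lean` of TT)

`shf v vc = vc`, `swp vc = vc`; the product measure is invariant; `wch N β c x (shf v X) = wch N β c (x + v) X`,
`wch N β c x (swp X) = star (wch N β c x.swap X)` (the plaquette is traversed in the opposite direction), kinds `1` and `2`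
are exchanged by `swp`. So the first one is invariant, the second one is complex conjugated. -/

def S_RT : Prop := ∀ (N k L : ℕ) [NeZero L], 2 ≤ N → ∀ (P Q : SU N) (β : ℝ), 0 ≤ β →
  ∀ (c : ℕ) (a b : Pl),
    (∀ v : Pl, ‖Zc k β c (rc (a + v) (b + v)) (vc P Q : Cf N L)‖ =
      ‖Zc k β c (rc a b) (vc P Q : Cf N L)‖) ∧
    ‖Zc k β c (rc a.swap b.swap) (vc P Q : Cf N L)‖ = ‖Zc k β c (rc a b) (vc P Q : Cf N L)‖

/-! ### package SP : the vortex action is positive (uses S_D1 S_J of TT, S_VA S_VL; compare DT of TT)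

Upper bound: `csInf_le` with `U = {0}`, `n = 1`, `X = vc`: only the cell `0` has energy, `L² ‖1 - oz N 1 • 1‖² / 2 ≤ 2 N L²`.
Lower bound: it is enough to find `ε > 0` such that `X = vc` off `Frl L U` and `enf k (dl 0 n) X τ ≤ ε` for all `τ` imply
`N ∣ n` (a term of `tml U` has at most the energy `EE`, the others are `0`). For every site `x` let
`g x` be given by D1 (`g x = 1` if `pt X x = pt vc x`); by J for every plane link `(x,m)`, `m = 0, 1`, there is `j x m` with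
`Σ_y ‖g x y X ((x,y),m) (g (x+e_m) y)⁻¹ - om N (j x m) • 1‖² ≤ C ε`, `j x m = 0` if both ends are vacuum sites and
the links are as in `vc`. From the energy of the cell `x` (in the gauge `g`):
`|om N (j x 0 + j (x+e_0) 1) - oz N (dl 0 n x) om N (j x 1 + j (x + e_1) 0)| ≤ C' √ε`, which is smaller than the distance
of different `N`-th roots of unity: equality. Multiply over all `x` of a large square: the interior
links cancel, those of the boundary are `0`; so `oz N n = 1`. -/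

def S_SP : Prop := ∀ (N k L : ℕ) [NeZero L], 2 ≤ N → Nat.Coprime k N → ∀ P Q : SU N, PQ k P Q →
  0 < SS L k P Q ∧ SS L k P Q ≤ 2 * N * L ^ 2

/-! ### package WX : products of fluxes of many blocks (abstract; uses S_F5 of TT)

`Cns S μ D E` : `E` is an expectation consistent with all kernels of `Δ ⊆ D`. (a) Take the blocks one after
the other: by consistency (for real and imaginary parts; `F_b` complex) each `F_b` may be replaced by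
`ker (Δ b) F_b`, a function which does not depend on the variables in `Fr (Δ c)`, `c ≠ b` (last item of F5: a
variable of a term of `tms (Δ b)` which touches `Δ c` would give a common term), and not on those of `Fr (Δ b)`.
(b) `|E H|² ≤ (E |H|)²` for complex `H` (multiply by a phase and take the real part), so the left side is at
most `(E ∏_b v b)²` with `v b = 1 - κ (1 - ind (bad b))`: `v b ≤ (1 - κ) (1 + 2 κ ind (bad b))`, and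
`∏_b (1 + 2 κ ind (bad b)) = Σ_{J ⊆ I} (2 κ)^#J ∏_{b ∈ J} ind (bad b)`, `E ∏_{b ∈ J} ind (bad b) ≤ (1/4)^#J` by
consistency for the `Λ b` (one after the other). So the total is at most
`((1 - κ) (1 + κ / 2))^#I ≤ exp (- κ #I / 2)`. -/

/-- an expectation consistent with the kernels of all `Δ ⊆ D` -/
def Cns {ι Tm X : Type} [DecidableEq ι] [DecidableEq Tm] [MeasurableSpace X] (S : Sys ι Tm X)
    (μ : Measure X) (D : Finset Pl) (E : ((ι → X) → ℝ) → ℝ) : Prop :=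
  E (fun _ => 1) = 1 ∧
  (∀ f g : (ι → X) → ℝ, Measurable f → (∃ K, ∀ ω, |f ω| ≤ K) → Measurable g →
    (∃ K, ∀ ω, |g ω| ≤ K) → ((∀ ω, f ω ≤ g ω) → E f ≤ E g) ∧
      E (fun ω => f ω + g ω) = E f + E g ∧ ∀ c : ℝ, E (fun ω => c * f ω) = c * E f) ∧
  (∀ Δ : Finset Pl, Δ ⊆ D → ∀ f : (ι → X) → ℝ, Measurable f → (∃ K, ∀ ω, |f ω| ≤ K) →
    ∀ h : (ι → X) → ℝ, Measurable h → (∃ K, ∀ ω, |h ω| ≤ K) → Sys.dep {i | i ∉ S.Fr Δ} h →
      E (fun ω => h ω * f ω) = E (fun ω => h ω * S.ker μ Δ f ω))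

def S_WX : Prop := ∀ (ι Tm X : Type) [DecidableEq ι] [DecidableEq Tm] [MeasurableSpace X]
  (S : Sys ι Tm X) (μ : Measure X) [IsProbabilityMeasure μ] (D : Finset Pl)
  (E : ((ι → X) → ℝ) → ℝ), Cns S μ D E →
  ∀ (I : Finset Pl) (Δ Λ : Pl → Finset Pl) (G : (ι → X) → ℂ) (F : Pl → (ι → X) → ℂ)
    (bad : Pl → (ι → X) → Prop) (κ : ℝ), 0 ≤ κ → κ ≤ 1 / 2 →
    (∀ b ∈ I, Δ b ⊆ D ∧ Λ b ⊆ D) →
    (∀ b ∈ I, ∀ c ∈ I, b ≠ c → Disjoint (S.tms (Δ b)) (S.tms (Δ c))) →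
    Measurable G → (∀ ω, ‖G ω‖ ≤ 1) → (∀ b ∈ I, depC {i | i ∉ S.Fr (Δ b)} G) →
    (∀ b ∈ I, Measurable (F b) ∧ (∀ ω, ‖F b ω‖ ≤ 1) ∧
      ∀ c ∈ I, b ≠ c → depC {i | i ∉ S.Fr (Δ c)} (F b)) →
    (∀ b ∈ I, MeasurableSet {ω | bad b ω} ∧
      (∀ c ∈ I, b ≠ c → Sys.dep {i | i ∉ S.Fr (Λ c)} fun ω => ind (bad b ω)) ∧
      ∀ ω, S.ker μ (Λ b) (fun ω' => ind (bad b ω')) ω ≤ 1 / 4) →
    (∀ b ∈ I, ∀ ω, ¬ bad b ω → (S.ker μ (Δ b) (fun ω' => (F b ω').re) ω) ^ 2 +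
      (S.ker μ (Δ b) (fun ω' => (F b ω').im) ω) ^ 2 ≤ (1 - κ) ^ 2) →
    (E fun ω => (G ω * ∏ b ∈ I, F b ω).re) ^ 2 + (E fun ω => (G ω * ∏ b ∈ I, F b ω).im) ^ 2 ≤
      Real.exp (-κ * I.card)

/-! ### package WH : good rings are likely (uses S_H S_F5 of TT)

H with `Λ = Nb (K + R + 2) c`, `B = Nb (K + 1) c = pls (Nb K c)`, `bal (R + 1) B = Λ` (so there are no fixed terms
inside), `e = 0`, `t = e / (2 C)`: `rE k X (Nb K c) ≤ Σ_{tml B} en`. Choose `R` first with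
`θ^R C #Λ ≤ e / 2`, `#Λ = (2 (K + R + 2) + 1)²`; then `β₀`. -/

def S_WH : Prop := ∀ (N k L : ℕ) [NeZero L] (hN : 2 ≤ N), Nat.Coprime k N → ∀ (K : ℕ) (e : ℝ), 0 < e →
  ∃ (R : ℕ) (β₀ : ℝ), 1 ≤ β₀ ∧ ∀ (β : ℝ) (hβ : 0 ≤ β), β₀ ≤ β → ∀ (c : Pl) (η : Cf N L),
    (sysS N L k β hN hβ).ker (hm N) (Nb (K + R) c) (fun X => ind (e < rE k X (Nb K c))) η ≤ 1 / 4

/-! ### package VP : vortices in a box with cold walls (uses S_F3 S_F5 S_EG of TT, S_VJ S_VF S_VH S_VN)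

`Λ = rc 0 (4 i + 2, 4 j + 2)`, `E = ker Λ · (jn vc 0)` for `sysJ`. By VJ (ii) with `φ n = ind (¬ N ∣ n)` the left side
divided by the sum on the right is `E (ind (¬ N ∣ Σ_{cl Λ} fx))`. Let `e` be given by VF (i), `e' = e / 4`, `m` by VH
for `e'`, then `K = 8 m + 2` and `β₀` from VF (i), `ε` with `#(pls W) ε ≤ e` for sides `≤ K`, `G` from EG.
For `X = lk ω = vc` off `Frl L Λ`: `Σ_{cl Λ} fd G ω - Σ_{cl Λ} fx ω` is the sum of `± zz G X x m` over the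
links around `Λ`, all `= N` (the gauge fixed links are `1`, so `nri = 0`). If `¬ N ∣ Σ_{cl Λ} fd`, then by VN
(with `e'`) some `y ∈ Λ` has only bad rings (probability `≤ exp (-β (SS + 1))` each: VH, VJ (i)) or some
rectangle `W = rc a' b' ⊆ Λ` of sides `≤ 8 m + 2` has `rE ≤ 4 e'` and `¬ N ∣ Σ_{cl W} fd` (probability
`≤ exp (-β (SS - ρ))` each: F3 with `Δ = W`, VF (i)). At most `#Λ (1 + (8 m + 3)²)` events. -/

def S_VP : Prop := ∀ (N k L : ℕ) [NeZero L], 2 ≤ N → Nat.Coprime k N → ∀ P Q : SU N, PQ k P Q →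
  ∀ ρ : ℝ, 0 < ρ → ∃ β₀ : ℝ, 1 ≤ β₀ ∧ ∀ β : ℝ, β₀ ≤ β → ∀ i j : ℕ,
    ∑ n ∈ Finset.Ico 1 N, Zf k β (dl 0 n) (rc 0 (4 * i + 2, 4 * j + 2)) (vc P Q : Cf N L) ≤
      (4 * i + 3) * (4 * j + 3) * Real.exp (-β * (SS L k P Q - ρ)) *
        ∑ n ∈ Finset.range N, Zf k β (dl 0 n) (rc 0 (4 * i + 2, 4 * j + 2)) (vc P Q : Cf N L)

/-! ### package RA : real analysis

`x`, `y` are the partition functions with charge one and zero, `b = exp (-β (S - ρ))`, `g = x / y ≤ 1`.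
(h1) positivity and `x ≤ y`, symmetry; (h2) log-convexity in the first variable; (h3) the growth of `y`;
(h4) Claim A for boxes of sides `J` and `J + 1`, `(4 J + 7)² 2 b ≤ 1/2`. Log-convexity: the ratios
`x (i+1) j / x i j` do not decrease with `i` (first show `x i j > 0` for `i ≥ J`, by induction, from
`x J j > 0`). For `J ≤ j' `: `x (i'+1) j / x i' j ≥ x (J+1) j / x J j ≥ g (J+1) j * y (J+1) j / y J j
≥ g (J+1) j * exp (-u (4 j + 3)) y (i'+1) j / y i' j` (as `g J j ≤ 1`). First `j = J` and `j = J + 1`, where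
`g ≥ 1 - 2 (4J+7)² b ≥ exp (-4 (4J+7)² b)`: `g i J ≥ exp (-(i+1) (4 (4J+7)² b + u (4J+7)))` for `i ≥ J`, the same for
`j = J + 1`; by symmetry for `g J j` and `g (J+1) j`. Then the same argument for all `j ≥ J`:
`g i j ≥ exp (-(i+1) (u (4j+3) + (j+1) (4 (4J+7)² b + u (4J+7))))`, which is more than the claim. -/

def S_RA : Prop := ∀ (x y : ℕ → ℕ → ℝ) (J : ℕ) (b u : ℝ), 1 ≤ J → 0 ≤ b → 0 ≤ u →
  (∀ i j, 0 ≤ x i j ∧ 0 < y i j ∧ x i j ≤ y i j ∧ x i j = x j i ∧ y i j = y j i) →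
  (∀ i j, 1 ≤ i → x i j ^ 2 ≤ x (i - 1) j * x (i + 1) j) →
  (∀ i i' j, J ≤ i → i ≤ i' → y (i' + 1) j * y i j ≤ y i' j * y (i + 1) j * Real.exp (u * (4 * j + 3))) →
  (∀ i j, J ≤ i → J ≤ j → i ≤ J + 1 → j ≤ J + 1 →
    (1 - 2 * (4 * J + 7) ^ 2 * b) * y i j ≤ x i j) → 2 * (4 * J + 7) ^ 2 * b ≤ 1 / 2 →
  ∀ i j, J ≤ i → J ≤ j →
    Real.exp (-((4 * (4 * J + 7) ^ 2 * b + 2 * u * (4 * J + 7)) * ((4 * i + 3) * (4 * j + 3)))) * y i j ≤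
      x i j

end T2H01.SE
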