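import Pool.Agent.T2H01.SE.Stm2

/-!
# Statements of the packages WE WK WB WF WD (project SE)

Same rules as in `Stm1.lean`.
-/

set_option autoImplicit false

noncomputable section

open MeasureTheory Matrix
open scoped Matrix.Norms.Frobenius

namespace T2H01.SE

open T2H02.TT

/-! ### package WE : loops as expectations in the joint system (uses S_F2 S_OA of TT)

`s x = 1` for `x ∈ A`, `0` otherwise, `T = tin R` (`wact_eq`, `exp_wact` in `Fin1.lean`, `Fin2.lean` of TT).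
By OA the numerator of `wexC` is `∫ G * ∏_{kinds ≠ 3} exp (-β en1) * ∏_{kind 3} wch N β (s x) x`, and (as in package VJ:
integrate over the second components of the variables `inr x`, which are independent and uniform)
`wch N β (s x) x X = (1/N) ∑_m (om N m)^(s x) exp (-β eP X (om N m) x)` is the average over the flux in the cell `x`
of `oz N (s x * fx ω x) exp (-β enf (fx ω) X (x, 3))`. The same for the denominator with `G = 1`, `s = 0`. -/

def S_WE : Prop := ∀ (N k L : ℕ) [NeZero L], 2 ≤ N → ∀ (β : ℝ) (hβ : 0 ≤ β) (R A : Finset Pl)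
  (G : Cf N L → ℂ), Measurable G → (∀ X, ‖G X‖ ≤ 1) →
  (∀ x ∈ A, (x, (3 : Fin 4)) ∈ tin R) →
  (∀ (x : Pl) (n : ℕ) (X : Cf N L), G (mvh (x + (0, 1)) n X) =
    om N n ^ (if x ∈ A then 1 else 0) * (star (om N n)) ^ (if x + (0, 1) ∈ A then 1 else 0) * G X) →
  wexC N L k β R G =
    (((sysJ N L k β hβ).ex (mj N) (tin R)
      (fun ω => (G (lk ω) * oz N (∑ x ∈ A, fx ω x)).re) : ℝ) : ℂ) +
    (((sysJ N L k β hβ).ex (mj N) (tin R)
      (fun ω => (G (lk ω) * oz N (∑ x ∈ A, fx ω x)).im) : ℝ) : ℂ) * Complex.I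

/-! ### package WK : consistent expectations (uses S_F3 S_F4 S_F5 of TT)

Elementary: F5 for the kernels (its monotonicity only needs the inequality on the support), F3 and F4
for the consistency; for `ex` linearity and monotonicity of the integral (the denominator is positive:
compare `Fin3.lean` of TT: `Z_pos`, `f_int`). -/

def S_WK : Prop := ∀ (ι Tm X : Type) [DecidableEq ι] [DecidableEq Tm] [MeasurableSpace X]
  (S : Sys ι Tm X) (μ : Measure X) [IsProbabilityMeasure μ],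
  (∀ (Λ : Finset Pl) (η : ι → X), Cns S μ Λ fun f => S.ker μ Λ f η) ∧
  (∀ (D : Finset Pl) (T : Finset Tm), S.tms D ⊆ T → Cns S μ D (S.ex μ T))

/-! ### package WB : the blocks (uses S_WX S_WH S_VJ S_VF S_VA)

Let `K₁` be given by the second part of VF, `K = K₁` (blocks `Nb K c`, `Nb K c = rc (c - K) (c + K)`), `e`, `β₀` by
VF (with `2 K` for its `K`) for `ρ / 2`, `R` by WH for `K`, `e`; `s = K + R + 2`, `κ = exp (-β (SS + ρ))`
(`≤ exp (-β (SS + ρ/2))`, so that `1 - exp (-β (SS + ρ/2)) ≤ 1 - κ`; `SS ≥ 0` and `κ ≤ 1/2` for large `β`). Apply WX with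
`Δ c = Nb K c`, `Λ c = Nb (K + R) c`, `F c ω = oz N (Σ_{cl (Nb K c)} fx ω)`, `bad c ω = (e < rE k (lk ω) (Nb K c))`, and
`G ω * oz N (Σ over A without all the cl (Nb K c))` for `G`. The `cl (Nb K c)`, `c ∈ I`, are disjoint; a term of
`rng (Nb K c)` has its corners in `Nb (K + 1) c`. The probability of `bad` is that of WH by VJ (i). -/

def S_WB : Prop := ∀ (N k L : ℕ) [NeZero L], 2 ≤ N → Nat.Coprime k N → ∀ P Q : SU N, PQ k P Q →
  ∀ ρ : ℝ, 0 < ρ → ∃ (K s : ℕ) (β₀ : ℝ), 1 ≤ β₀ ∧ K + 2 ≤ s ∧ ∀ (β : ℝ) (hβ : 0 ≤ β), β₀ ≤ β →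
  ∀ (D : Finset Pl) (E : ((Cj N L) → ℝ) → ℝ), Cns (sysJ N L k β hβ) (mj N) D E →
  ∀ (I A : Finset Pl) (G : Cj N L → ℂ), Measurable G → (∀ ω, ‖G ω‖ ≤ 1) →
    (∀ c ∈ I, Nb s c ⊆ D) → (∀ c ∈ I, ∀ c' ∈ I, c ≠ c' → ¬ near (2 * s) c c') →
    (∀ c ∈ I, cl (Nb K c) ⊆ A) → (∀ c ∈ I, depC {i | i ∉ FrJ L (Nb K c)} G) →
    (E fun ω => (G ω * oz N (∑ x ∈ A, fx ω x)).re) ^ 2 +
      (E fun ω => (G ω * oz N (∑ x ∈ A, fx ω x)).im) ^ 2 ≤
        Real.exp (-Real.exp (-β * (SS L k P Q + ρ)) * I.card)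

/-! ### package WF : Wilson loops (uses S_WE S_WK S_WB)

WE with `A = [x.1, x.1 + a) × [x.2, x.2 + b)` and `G = wlp` (`wlp_mvh` in `AR.lean` of TT, `wlp_le`, `wlp_cont`). WK for
`T = tin R`, `D` = the sites `u` of `R` with `Nb 1 u ⊆ R`. WB for `ρ / 2` with the centres
`c = x + ((2 s + 1) (i + 1), (2 s + 1) (j + 1))`, `0 ≤ i < a / (2 s + 1) - 2`, `0 ≤ j < b / (2 s + 1) - 2` (integer parts): at least
`a b / (6 s + 3)²` of them if `a, b ≥ 9 (2 s + 1)`; the loop has no link which touches a block `Nb K c`, and `Nb (s+1) c` lies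
in the rectangle. Finally `exp (-β (SS + ρ/2)) / (2 (6 s + 3)²) ≥ exp (-β (SS + ρ))` for `β ≥ β₀`. -/

def S_WF : Prop := ∀ (N k L : ℕ) [NeZero L], 2 ≤ N → Nat.Coprime k N → ∀ P Q : SU N, PQ k P Q →
  ∀ ρ : ℝ, 0 < ρ → ∃ (m : ℕ) (β₀ : ℝ), 1 ≤ β₀ ∧ ∀ β : ℝ, β₀ ≤ β →
  ∀ (R : Finset Pl) (x : Pl) (y : Tor L) (a b : ℕ), m ≤ a → m ≤ b →
    (∀ i j : ℕ, i ≤ a → j ≤ b → x + ((i : ℤ), (j : ℤ)) ∈ R) →
    ‖wexC N L k β R (fun X => wlp X x y a b)‖ ≤
      Real.exp (-(Real.exp (-β * (SS L k P Q + ρ)) * (a * b)))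

/-! ### package WD : boxes with any boundary values, upper bound (uses S_WK S_WB S_VJ)

`E = ker (rc a b) · (jn η 0)` for `sysJ` (`jn η (fun _ => 0)`; `lk` of it is `η`, `0 < N`). By VJ (ii) with
`φ n = (oz N n).re` and `(oz N n).im` the quotient of the two sums is `E (oz N (Σ_{cl (rc a b)} fx))`. WB with
`G = 1`, `A = cl (rc a b)`, `D = rc a b`, centres as in WF. -/

def S_WD : Prop := ∀ (N k L : ℕ) [NeZero L], 2 ≤ N → Nat.Coprime k N → ∀ P Q : SU N, PQ k P Q →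
  ∀ ρ : ℝ, 0 < ρ → ∃ (m : ℕ) (β₀ : ℝ), 1 ≤ β₀ ∧ ∀ β : ℝ, β₀ ≤ β →
  ∀ (a b : Pl), a.1 + m ≤ b.1 → a.2 + m ≤ b.2 → ∀ η : Cf N L,
    ‖∑ n ∈ Finset.range N, om N n * (Zf k β (dl a n) (rc a b) η : ℂ)‖ ≤
      Real.exp (-(Real.exp (-β * (SS L k P Q + ρ)) * (rc a b).card)) *
        ∑ n ∈ Finset.range N, Zf k β (dl a n) (rc a b) η

end T2H01.SE
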