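import Pool.Agent.T2H01.SE.Defs
import Pool.Agent.T2H02.TT.Fin2

/-!
# The four-dimensional torus `(ℤ/A) × (ℤ/B) × (ℤ/L)²`
-/

set_option autoImplicit false
set_option linter.unusedSectionVars false

noncomputable section

open MeasureTheory Matrix
open scoped Matrix.Norms.Frobenius

namespace T2H01.SE

open T2H02.TT

/-- points of the torus `(ℤ/A) × (ℤ/B) × (ℤ/L)²` -/
abbrev TP (A B L : ℕ) := (ZMod A × ZMod B) × Tor L

/-- links -/
abbrev TL (A B L : ℕ) := TP A B L × Fin 4

/-- configurations -/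
abbrev TC (N A B L : ℕ) := TL A B L → SU N

/-- next point in the direction `i` -/
def tnx {A B L : ℕ} (p : TP A B L) (i : Fin 4) : TP A B L :=
  if i = 0 then ((p.1.1 + 1, p.1.2), p.2) else if i = 1 then ((p.1.1, p.1.2 + 1), p.2) else
    if i = 2 then (p.1, tsh p.2 0) else (p.1, tsh p.2 1)

section

variable {N A B L : ℕ} [NeZero A] [NeZero B] [NeZero L]

/-- plaquette variable from `p` in the directions `i`, `j` -/
def tpl (X : TC N A B L) (p : TP A B L) (i j : Fin 4) : SU N :=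
  X (p, i) * X (tnx p i, j) * (X (tnx p j, i))⁻¹ * (X (p, j))⁻¹

/-- 't Hooft twists: `exp (2 π i n / N)` in the plane `0 1`, `exp (2 π i k / N)` in the plane `2 3` -/
def ttw (N k : ℕ) (n : ℤ) (p : TP A B L) (i j : Fin 4) : ℂ :=
  if i = 0 ∧ j = 1 ∧ p.1 = 0 then oz N n else
    if i = 2 ∧ j = 3 ∧ p.2 = (-1, -1) then om N k else 1

/-- Wilson action with the twists -/
def tact (k : ℕ) (n : ℤ) (X : TC N A B L) : ℝ :=
  ∑ p : TP A B L, ∑ i : Fin 4, ∑ j : Fin 4,
    if i < j then (N : ℝ) - (star (ttw N k n p i j) * (tpl X p i j : Mt N).trace).re else 0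

/-- partition function of the twisted torus -/
def TZ (N L : ℕ) [NeZero L] (k : ℕ) (β : ℝ) (n : ℤ) (A B : ℕ) [NeZero A] [NeZero B] : ℝ :=
  ∫ X : TC N A B L, Real.exp (-β * tact k n X) ∂(Measure.infinitePi fun _ => hm N)

/-- periodic configuration of the plane lattice -/
def per (X : TC N A B L) : Cf N L := fun l =>
  X ((((l.1.1.1 : ZMod A), (l.1.1.2 : ZMod B)), l.1.2), l.2)

/-- cells and sites of the fundamental domain -/
def fdm (A B : ℕ) : Finset Pl := Finset.Ico 0 (A : ℤ) ×ˢ Finset.Ico 0 (B : ℤ)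

/-- frozen sites: the column `0` if `u`, the row `0` if `v` (and their translates) -/
def fzs (u v : Bool) (A B : ℕ) (a : Pl) : Prop :=
  (u = true ∧ (A : ℤ) ∣ a.1) ∨ (v = true ∧ (B : ℤ) ∣ a.2)

open Classical in
/-- all links between frozen sites are as in the vacuum -/
def fzp (P Q : SU N) (u v : Bool) (A B : ℕ) (X : Cf N L) : Cf N L := fun l =>
  if ∀ a ∈ st l, fzs u v A B a then vc P Q l else X l

/-- weight of all plaquettes over the fundamental domain, charge `c` -/
def Wt (k : ℕ) (β : ℝ) (c A B : ℕ) (X : Cf N L) : ℂ :=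
  ∏ x ∈ fdm A B, ((∏ i ∈ ({0, 1, 2} : Finset (Fin 4)), (Real.exp (-β * en1 k X (x, i)) : ℂ)) *
    wch N β c x X)

/-- partition function of the torus with electric charge `c` and frozen sites `u`, `v` -/
def TZc (N L : ℕ) [NeZero L] (k : ℕ) (β : ℝ) (P Q : SU N) (c : ℕ) (u v : Bool) (A B : ℕ)
    [NeZero A] [NeZero B] : ℂ :=
  ∫ X : TC N A B L, Wt k β c A B (fzp P Q u v A B (per X)) ∂(Measure.infinitePi fun _ => hm N)

/-- terms over the fundamental domain which do not touch the box `[1, A-1] × [1, B-1]` -/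
def bdt (A B : ℕ) : Finset Tm :=
  (fdm A B ×ˢ Finset.univ).filter fun τ => τ ∉ tml (rc (1, 1) ((A : ℤ) - 1, (B : ℤ) - 1))

end

end T2H01.SE
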