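import Pool.Agent.T2H01.SE.Stm2
import Pool.Agent.T2H01.SE.Tor

/-!
# Statements of the packages TA TB TS TD TW TP TE TG (project SE): the torus, 't Hooft's electric flux

Same rules as in `Stm1.lean`. `TZc .. c u v A B` : partition function of the torus `(ℤ/A) × (ℤ/B) × (ℤ/L)²` with
electric charge `c`; if `u` (resp. `v`) is true then the column `x.1 = 0` (resp. the row `x.2 = 0`) is frozen in the vacuum.
-/

set_option autoImplicit false

noncomputable section

open MeasureTheory Matrix
open scoped Matrix.Norms.Frobenius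

namespace T2H01.SE

open T2H02.TT

/-! ### package TA : a kernel inequality (abstract, pure analysis)

`K V V' = sqrt (a V) * b V V' * sqrt (a V')` is a bounded Hermitian kernel, `‖K‖ ≤ 1`. `T` = the integral operator
on bounded measurable functions, `|f|² = ∫ |f|² dν`. For even `n = 2 h`, `tr n = ∫∫ |K^(h) (V, V')|²` (the iterated
kernel, Hermitian), so `|T^h f|² ≤ tr n * |f|²` (Cauchy-Schwarz), `|T^(h m) f|² ≤ (tr n)^m |f|²`. With
`f V = sqrt (a V) b V v₀` (norm `≤ 1`) the frozen integral with `n j + s` layers, `s ≥ 2`, is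
`⟨f, T^(n j + s - 2) f⟩ = ⟨T^(s-2) f, T^(h (2 j)) f⟩ ≤ |T^(s-2) f| (tr n)^j |f| ≤ (tr n)^j`.
Here `cyc m` is the integral over `V : Fin m → Y` of `∏_t a (V t) b (V t) (V (t+1))`, `t + 1` modulo `m`, and
`fro m` the same with `V 0 = v₀` frozen (`a v₀ = 1`). -/

def S_TA : Prop := ∀ (Y : Type) [MeasurableSpace Y] (ν : Measure Y) [IsProbabilityMeasure ν]
  (a : Y → ℝ) (b : Y → Y → ℂ) (v₀ : Y), Measurable a → Measurable (Function.uncurry b) →
  (∀ y, 0 ≤ a y ∧ a y ≤ 1) → a v₀ = 1 → (∀ y y', ‖b y y'‖ ≤ 1 ∧ b y' y = star (b y y')) →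
  ∀ (n j s : ℕ) [NeZero n] [NeZero (n * j + s)], Even n → 2 ≤ s →
    ‖∫ V : Fin (n * j + s) → Y, (∏ t, ((a (Function.update V 0 v₀ t) : ℂ) *
        b (Function.update V 0 v₀ t) (Function.update V 0 v₀ (t + 1))))
          ∂(Measure.pi fun _ => ν)‖ ≤
      ‖∫ V : Fin n → Y, (∏ t, ((a (V t) : ℂ) * b (V t) (V (t + 1)))) ∂(Measure.pi fun _ => ν)‖ ^ j

/-! ### package TB : transfer matrix in the direction 0 (uses S_TA)

`Y` = the configurations of the links of one column: `(ZMod B × Tor L) × Fin 4 → SU N` (the direction `0` entries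
are not used by `a`), `ν` the product measure. For `V : ZMod A → Y` (`ZMod A` is `Fin A` for `A ≥ 1`): the links
`((x, y), m)` with `m ≠ 0` are `V x.1 ((x.2, y), m)`; the links `((x, y), 0)` between the columns `x.1` and `x.1 + 1` are
further independent variables, integrated inside `b`. `a V` = product of the weights of the kinds `0`, `2`
(positive, `≤ 1`) in the column, `b V V'` = integral over the links in the direction `0` between the columns `V`, `V'` of
the weights of the kinds `1` and `3` (`‖wch‖ ≤ 1`); `b V' V = star (b V V')` by the substitution `U ↦ U⁻¹` (Haar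
measure) : the kind `3` plaquette is reflected, `wch ↦ star wch`, compare `rf` in `RP.lean`, `RX.lean`. Freezing: if `v` is true
apply `fzp` with `u = false`: the links of the row `0` in the columns and between the columns are those of the
vacuum. `u = true`: the column `0` is the vacuum `v₀` (and the links from it to the neighbours are integrated); `a v₀ = 1`
(energies of the vacuum vanish: `S_VL`; kind `2` too). Curry the product measure (`Measure.infinitePi` over
`TL A B L`; finite index sets: `Measure.pi`, `infinitePi_eq_pi`, `infinitePi_map_piCongrLeft`, `infinitePi_map_piCurry`). -/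

def S_TB : Prop := ∀ (N k L : ℕ) [NeZero L], 2 ≤ N → Nat.Coprime k N → ∀ P Q : SU N, PQ k P Q →
  ∀ (β : ℝ), 0 ≤ β → ∀ (c : ℕ) (v : Bool) (B : ℕ) [NeZero B] (a j s : ℕ) [NeZero a]
    [NeZero (a * j + s)], 2 ≤ B → Even a → 2 ≤ s →
    ‖TZc N L k β P Q c true v (a * j + s) B‖ ≤ ‖TZc N L k β P Q c false v a B‖ ^ j

/-! ### package TS : exchange of the directions (compare `RT.lean`, `SY.lean`)

The map `l ↦ ((x.swap, y), swap of 0 and 1)` of the links of the tori; `wch` is complex conjugated, the kinds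
`1` and `2` are exchanged. -/

def S_TS : Prop := ∀ (N k L : ℕ) [NeZero L], 2 ≤ N → ∀ (P Q : SU N) (β : ℝ), 0 ≤ β →
  ∀ (c : ℕ) (u v : Bool) (A B : ℕ) [NeZero A] [NeZero B],
    ‖TZc N L k β P Q c u v A B‖ = ‖TZc N L k β P Q c v u B A‖

/-! ### package TD : the torus with a frozen column and a frozen row is a box with cold walls (uses S_VL)

`Λ = rc (1,1) (A - 1, B - 1)`, `2 ≤ A`, `2 ≤ B`. For `l` with the first site in the fundamental domain (or in its
neighbourhood) `fzp (per X) l = vc l` unless `l` is a translate of a link of `Frl L Λ`; the links of `Frl L Λ` have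
`l.1.1 ∈ fdm A B`, so `l ↦ ((l.1.1 mod), ..)` is injective on them and the values of `per X` on them are independent
Haar variables. Terms `(x, i)`, `x ∈ fdm A B`, `i ≠ 3`, which do not touch `Λ` have only vacuum links: energy `0`. All cells
`x ∈ fdm A B` touch `Λ`. (`en1 = en` for `i ≠ 3`, `S_VL` gives `en vc = 0`.) -/

def S_TD : Prop := ∀ (N k L : ℕ) [NeZero L], 2 ≤ N → Nat.Coprime k N → ∀ P Q : SU N, PQ k P Q →
  ∀ (β : ℝ), 0 ≤ β → ∀ (c A B : ℕ) [NeZero A] [NeZero B], 2 ≤ A → 2 ≤ B →
    TZc N L k β P Q c true true A B =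
      Zc k β c (rc (1, 1) ((A : ℤ) - 1, (B : ℤ) - 1)) (vc P Q : Cf N L)

/-! ### package TW : the Wilson action of the torus (direct computation, compare `wact_eq` in TT/Fin1.lean)

`‖g h - z g' h'‖² / 2 = N - Re (star z tr (g h h'⁻¹ g'⁻¹))` (`df_plq` in `Model.lean`), for `star z * z = 1`; a plaquette of
the torus at `p` is the plaquette of `per X` at the representative of `p.1` in `fdm A B`. -/

def S_TW : Prop := ∀ (N k L : ℕ) [NeZero L], 2 ≤ N → ∀ (n : ℤ) (A B : ℕ) [NeZero A] [NeZero B]
  (X : TC N A B L), tact k n X = ∑ x ∈ fdm A B, ∑ i : Fin 4, enf k (dl 0 n) (per X) (x, i)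

/-! ### package TP : integration over the box (uses S_F2 of TT, S_TW)

`Λ = rc (1,1) (A - 1, B - 1)`. `tml Λ ⊆ fdm A B ×ˢ univ`. Split the sum over `fdm A B × Fin 4` into `tml Λ` and `bdt A B`
(these are never of kind `3`, they do not contain links of `Frl L Λ`, nor translates of such links). By F2 for
the (finite) set of the links of the torus which are images of `Frl L Λ`; as in TD these are independent Haar
variables, in bijection with `Frl L Λ`. The same for the charged weights: `Wt = ∏_{bdt} exp (-β en1) * ∏_{tml Λ} ..`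
(`en1 = enf` for the kinds `≠ 3`). -/

def S_TP : Prop := ∀ (N k L : ℕ) [NeZero L], 2 ≤ N → ∀ (P Q : SU N) (β : ℝ), 0 ≤ β →
  ∀ (A B : ℕ) [NeZero A] [NeZero B], 2 ≤ A → 2 ≤ B →
  (∀ n : ℤ, TZ N L k β n A B = ∫ X : TC N A B L, Real.exp (-β * ∑ τ ∈ bdt A B, en1 k (per X) τ) *
    Zf k β (dl 0 n) (rc (1, 1) ((A : ℤ) - 1, (B : ℤ) - 1)) (per X)
      ∂(Measure.infinitePi fun _ => hm N)) ∧
  (∀ c : ℕ, TZc N L k β P Q c false false A B =
    ∫ X : TC N A B L, (Real.exp (-β * ∑ τ ∈ bdt A B, en1 k (per X) τ) : ℂ) *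
      Zc k β c (rc (1, 1) ((A : ℤ) - 1, (B : ℤ) - 1)) (per X) ∂(Measure.infinitePi fun _ => hm N))

/-! ### package TE : boundary conditions cost at most `exp (C β #boundary)` (uses S_G3 of TT, S_VL, S_TD)

Charge `0`: all weights (`en1 = en`, `wch 0 = wt`) are in `[exp (-C β), 1]` (`β ≥ 1`, G3). First part: a term which
contains a link changed by `fzp` has its corner near the column or the row: at most `16 (A + B)` of them; the
others do not change; so the integrand on the left is at most `exp (C β (A + B))` times that on the right.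
Second part: in the box `rc (1,1) (a i + 3, b j + 3)` freeze all links with both sites in columns `≡ 0 mod a` or
rows `≡ 0 mod b` or in the last columns `x.1 > a i` or rows `x.2 > b j`: the same argument (number of the terms
concerned: `≤ 16 ((a + b) i j + 4 (a i + 4) + 4 (b j + 4))`), and the rest is a product of `i j` independent
translates of the box with `i = j = 1` (or remove the frozen sites from the domain one after the other,
or use induction on `i` and `j`: split off one column of boxes, then one box, each time with the same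
comparison; the constant `C` does not matter). `ZZ (rc (1,1) (a - 1, b - 1))` is translation invariant. -/

def S_TE : Prop := ∀ (N k L : ℕ) [NeZero L], 2 ≤ N → Nat.Coprime k N → ∀ P Q : SU N, PQ k P Q →
  ∃ C : ℝ, 1 ≤ C ∧ ∀ β : ℝ, 1 ≤ β →
  (∀ (A B : ℕ) [NeZero A] [NeZero B], 2 ≤ A → 2 ≤ B →
    ‖TZc N L k β P Q 0 false false A B‖ ≤ Real.exp (C * β * (A + B)) *
      ‖TZc N L k β P Q 0 true true A B‖) ∧
  (∀ a b i j : ℕ, 2 ≤ a → 2 ≤ b → 1 ≤ i → 1 ≤ j →
    ZZ k β (L := L) P Q (rc (1, 1) ((a : ℤ) - 1, (b : ℤ) - 1)) ^ (i * j) ≤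
      Real.exp (C * β * ((a + b) * (i * j) + (a * i + 4) + (b * j + 4))) *
        ZZ k β (L := L) P Q (rc (1, 1) ((a : ℤ) * i + 3, (b : ℤ) * j + 3)))

/-! ### package TG : from boxes to the torus (real analysis; uses S_TB S_TS S_TD S_TE S_ZT S_RT)

For even `a, b ≥ 2` and even `i = j ≥ 2` : by TB and TS (twice), TD:
`‖TZc 1 f f a b‖^(i j) ≥ ‖TZc 1 t t (a i + 4) (b j + 4)‖ = ‖Zc 1 (rc (1,1) (a i + 3, b j + 3)) vc‖` (first TB in the
direction `0` with `v = true`, then TS, TB with `v = false`, TS). The sides are `≡ 3 mod 4`; for large `i` the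
hypothesis (and RT to translate the box) gives the lower bound `exp (-η (a i + 3) (b j + 3)) ZZ (rc ..)`, then TE:
`≥ exp (-η (a i + 3) (b j + 3) - C β ((a + b) i j + ..)) ZZ (rc (1,1) (a-1,b-1))^(i j)`. Take the power `1 / (i j)` and let
`i = j → ∞`: `‖TZc 1 f f a b‖ ≥ exp (-η a b - C β (a + b)) ZZ (..) ≥ exp (-η a b - 2 C β (a + b)) ‖TZc 0 f f a b‖`. -/

def S_TG : Prop := ∀ (N k L : ℕ) [NeZero L], 2 ≤ N → Nat.Coprime k N → ∀ P Q : SU N, PQ k P Q →
  ∃ C : ℝ, 1 ≤ C ∧ ∀ β : ℝ, 1 ≤ β → ∀ (η : ℝ) (J : ℕ), 0 ≤ η →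
    (∀ i j : ℕ, J ≤ i → J ≤ j →
      Real.exp (-(η * ((4 * i + 3) * (4 * j + 3)))) *
        ZZ k β (L := L) P Q (rc 0 (4 * i + 2, 4 * j + 2)) ≤
          ‖Zc k β 1 (rc 0 (4 * i + 2, 4 * j + 2)) (vc P Q : Cf N L)‖) →
    ∀ (a b : ℕ) [NeZero a] [NeZero b], Even a → Even b →
      Real.exp (-(η * (a * b)) - C * β * (a + b)) * ‖TZc N L k β P Q 0 false false a b‖ ≤
        ‖TZc N L k β P Q 1 false false a b‖

end T2H01.SE
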