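import Pool.Agent.T2H01.SE.Stm3
import Pool.Agent.T2H01.SE.Stm4

/-!
# Statements of the packages TQ TU TX (project SE)

Same rules as in `Stm1.lean`.
-/

set_option autoImplicit false

noncomputable section

open MeasureTheory Matrix
open scoped Matrix.Norms.Frobenius

namespace T2H01.SE

open T2H02.TT

/-! ### package TQ : charge and flux on the torus (uses S_TP S_ZT S_VS)

`S_TP` (both parts), and for each boundary value `η = per X` the first part of ZT for the box `Λ = rc (1,1) (A-1,B-1)`: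
`N * Zc c Λ η = Σ_n om N (c n) Zf (dl (1,1) n) Λ η = Σ_n om N (c n) Zf (dl 0 n) Λ η` (VS: the cell `0` is in `cl Λ`). -/

def S_TQ : Prop := ∀ (N k L : ℕ) [NeZero L], 2 ≤ N → ∀ (P Q : SU N) (β : ℝ), 0 ≤ β →
  ∀ (c A B : ℕ) [NeZero A] [NeZero B], 2 ≤ A → 2 ≤ B →
    (N : ℂ) * TZc N L k β P Q c false false A B =
      ∑ n ∈ Finset.range N, om N (c * n) * (TZ N L k β n A B : ℂ)

/-! ### package TU : the torus, upper bound (uses S_TP S_WD S_VS)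

By the first part of TP: `‖Σ_n om^n TZ n‖ ≤ ∫ exp (..) ‖Σ_n om^n Zf (dl 0 n) Λ (per X)‖`, with VS (`dl 0 n` and
`dl (1,1) n`) and WD for `ρ / 2`; `#Λ = (A - 1) (B - 1) ≥ A B / 4`, and
`exp (-β (SS + ρ / 2)) / 4 ≥ exp (-β (SS + ρ))` for `β ≥ β₀`. -/

def S_TU : Prop := ∀ (N k L : ℕ) [NeZero L], 2 ≤ N → Nat.Coprime k N → ∀ P Q : SU N, PQ k P Q →
  ∀ ρ : ℝ, 0 < ρ → ∃ (m : ℕ) (β₀ : ℝ), 1 ≤ β₀ ∧ ∀ β : ℝ, β₀ ≤ β →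
  ∀ (A B : ℕ) [NeZero A] [NeZero B], m ≤ A → m ≤ B →
    ‖∑ n ∈ Finset.range N, om N n * (TZ N L k β n A B : ℂ)‖ ≤
      Real.exp (-(Real.exp (-β * (SS L k P Q + ρ)) * (A * B))) *
        ∑ n ∈ Finset.range N, TZ N L k β n A B

/-! ### package TX : boxes with cold walls, lower bound (uses S_VP S_ZT S_RX S_RT S_MB S_RA; real analysis)

`y i j = N ZZ (rc 0 (4 i + 2, 4 j + 2)) = Σ_n Zf (dl 0 n)` (ZT), `x i j = N ‖Zc 1 (rc 0 (4 i + 2, 4 j + 2))‖`. RA with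
`b = exp (-β (SS - ρ/2))`, `J = ⌈K β⌉` with `m (4 J + 2) ≥ (C + SS + 1) β` (`m`, `C` from MB), `u = 4 exp (C β - m (4 J + 2))
≤ 4 b`. Symmetry: RT. (h2): RX with `r = 2 i - 1`, `s = 2 i + 3` and RT (translate
`rc (-r, 0) (s, 4 j + 2)` by `(r, 0)`; `r + s = 4 i + 2`, `2 r = 4 (i - 1) + 2`, `2 s = 4 (i + 1) + 2`). (h3): MB with
`T = rc (1, 0) (4, 4 j + 2)` (`4 (4 j + 3)` sites), `q = 4 i + 2`, `q' = 4 i' + 2`, `m q ≥ m (4 J + 2)`, and RT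
(through ZT: `‖Zc 0‖ = ZZ > 0`, positivity from MA or from ZT/`integral_exp_pos`). (h4): VP for `ρ / 2`:
`N ‖Zc 1‖ = ‖Σ om^n Zf‖ ≥ Zf 0 - Σ_{n ≥ 1} Zf n ≥ Σ_n Zf n - 2 Σ_{n ≥ 1} Zf n`. Finally
`4 (4 J + 7)² b + 2 u (4 J + 7) ≤ exp (-β (SS - ρ))` for `β ≥ β₀`. -/

def S_TX : Prop := ∀ (N k L : ℕ) [NeZero L], 2 ≤ N → Nat.Coprime k N → ∀ P Q : SU N, PQ k P Q →
  ∀ ρ : ℝ, 0 < ρ → ∃ K β₀ : ℝ, 1 ≤ K ∧ 1 ≤ β₀ ∧ ∀ β : ℝ, β₀ ≤ β → ∀ i j : ℕ, K * β ≤ i → K * β ≤ j →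
    Real.exp (-(Real.exp (-β * (SS L k P Q - ρ)) * ((4 * i + 3) * (4 * j + 3)))) *
      ZZ k β (L := L) P Q (rc 0 (4 * i + 2, 4 * j + 2)) ≤
        ‖Zc k β 1 (rc 0 (4 * i + 2, 4 * j + 2)) (vc P Q : Cf N L)‖

end T2H01.SE
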