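import Pool.Agent.T2H01.SE.Stm10

/-!
# Lemmas for the package UHu (helper57): real-variable computations and small facts (copied from TX)
-/

set_option autoImplicit false

noncomputable section

open MeasureTheory Matrix
open scoped Matrix.Norms.Frobenius

namespace T2H01.SE

open T2H02.TT

namespace PkgUHb

lemma rc_union (q : ℕ) (y y' : ℤ) :
    rc (-(q : ℤ), y) (0, y') ∪ rc (1, y) (4, y') = rc (-(q : ℤ), y) (4, y') := by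
  ext ⟨u, v⟩
  simp only [rc, Finset.mem_union, Finset.mem_product, Finset.mem_Icc]
  omega

lemma rc_card (j : ℕ) : (rc (1, 0) (4, 4 * (j : ℤ) + 2)).card = 4 * (4 * j + 3) := by
  rw [rc, Finset.card_product, Int.card_Icc, Int.card_Icc]
  have h1 : ((4 : ℤ) + 1 - 1).toNat = 4 := by decide
  have h2 : (4 * (j : ℤ) + 2 + 1 - 0).toNat = 4 * j + 3 := by omega
  simp only [h1, h2]

lemma exp_big (G r β : ℝ) (hr : 0 < r) (hβ : 0 < β) (h : 576 * G ^ 2 / r ^ 3 ≤ β) :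
    12 * G ^ 2 * β ^ 2 ≤ Real.exp (β * r / 2) := by
  have h1 := Real.pow_div_factorial_le_exp (β * r / 2) (by positivity) 3
  have h2 : ((Nat.factorial 3 : ℕ) : ℝ) = 6 := by norm_num [Nat.factorial]
  rw [h2] at h1
  refine le_trans ?_ h1
  have h3 : 576 * G ^ 2 ≤ β * r ^ 3 := by
    rwa [div_le_iff₀ (by positivity)] at h
  have h4 : 576 * G ^ 2 * β ^ 2 ≤ β * r ^ 3 * β ^ 2 :=
    mul_le_mul_of_nonneg_right h3 (by positivity)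
  have h5 : (β * r / 2) ^ 3 / 6 = β * r ^ 3 * β ^ 2 / 48 := by ring
  rw [h5]
  linarith

/-! real computations -/

lemma r1 (CB S S₁ x : ℝ) (hx : 1 ≤ x) (hS : S ≤ S₁) (hS₁ : 0 ≤ S₁) :
    CB * x + S + 1 ≤ (CB + S₁ + 1) * x := by
  nlinarith

lemma r2 (K K₀ x : ℝ) (hx : 1 ≤ x) (h : K ≤ K₀ * x) : 4 * K + 11 ≤ (4 * K₀ + 11) * x := by
  linarith

lemma r3 (J K β : ℝ) (hJ : J ≤ K * β + 1) (hβ : 1 ≤ β) : 4 * J + 7 ≤ (4 * K + 11) * β := by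
  linarith

lemma r4 (C S m K J β : ℝ) (hm : 0 < m) (hK : K = (C + S + 1) / (4 * m)) (hJ : K * β ≤ J) :
    (C + S + 1) * β ≤ m * (4 * J + 2) := by
  have h2 : (C + S + 1) = 4 * m * K := by
    rw [hK]
    field_simp
  rw [h2]
  have := mul_le_mul_of_nonneg_left hJ (by positivity : (0 : ℝ) ≤ 4 * m)
  linarith

lemma r5 (C S β r t : ℝ) (hβ : 0 < β) (hr : 0 < r) (h : (C + S + 1) * β ≤ t) :
    C * β - t ≤ -β * (S - r / 2) := by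
  have := mul_pos hβ hr
  linarith

lemma r6 (β S r : ℝ) (hβ : 0 < β) (h : r ≤ S) : -β * (S - r) ≤ 0 := by
  have := mul_nonneg hβ.le (sub_nonneg.mpr h)
  linarith

lemma r7 (G β J b e : ℝ) (hb : 0 ≤ b) (h1 : (4 * J + 7) ^ 2 ≤ G ^ 2 * β ^ 2)
    (h2 : 12 * G ^ 2 * β ^ 2 ≤ e) (h3 : b * e ≤ 1) : 2 * (4 * J + 7) ^ 2 * b ≤ 1 / 2 := by
  have h4 : (12 * G ^ 2 * β ^ 2) * b ≤ 1 := (mul_le_mul_of_nonneg_right h2 hb).trans (by linarith)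
  have h5 : (4 * J + 7) ^ 2 * b ≤ G ^ 2 * β ^ 2 * b := mul_le_mul_of_nonneg_right h1 hb
  have h6 : 2 * (4 * J + 7) ^ 2 * b = 2 * ((4 * J + 7) ^ 2 * b) := by ring
  have h7 : (12 * G ^ 2 * β ^ 2) * b = 12 * (G ^ 2 * β ^ 2 * b) := by ring
  linarith

lemma r8 (C β m J i : ℝ) (hm : 0 < m) (h : J ≤ i) :
    C * β - m * (4 * i + 2) ≤ C * β - m * (4 * J + 2) := by
  have := mul_le_mul_of_nonneg_left h hm.le
  linarith

lemma r9 (A b y x s : ℝ) (h : y - 2 * s ≤ x) (hs : s ≤ A * b * y) : (1 - 2 * A * b) * y ≤ x := by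
  have : (1 - 2 * A * b) * y = y - 2 * (A * b * y) := by ring
  linarith

lemma r10 (β S r ρ : ℝ) (hβ : 0 < β) (h : r ≤ ρ) : -β * (S - r) ≤ -β * (S - ρ) := by
  have := mul_le_mul_of_nonneg_left h hβ.le
  linarith

lemma r11 (G β J b u e : ℝ) (hb : 0 ≤ b) (hu0 : 0 ≤ u) (hu : u ≤ 4 * b) (hJ : 0 ≤ J) (hGβ : 1 ≤ G * β)
    (hGJ : 4 * J + 7 ≤ G * β) (h1 : (4 * J + 7) ^ 2 ≤ G ^ 2 * β ^ 2)
    (h2 : 12 * G ^ 2 * β ^ 2 ≤ e) :
    4 * (4 * J + 7) ^ 2 * b + 2 * u * (4 * J + 7) ≤ b * e := by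
  have h3 : 4 * (4 * J + 7) ^ 2 * b ≤ 4 * (G ^ 2 * β ^ 2) * b :=
    mul_le_mul_of_nonneg_right (by linarith) hb
  have h4 : 2 * u * (4 * J + 7) ≤ (8 * b) * (G * β) :=
    mul_le_mul (by linarith) hGJ (by positivity) (by positivity)
  have h5 : (8 * b) * (G * β) ≤ (8 * b) * (G ^ 2 * β ^ 2) := by
    apply mul_le_mul_of_nonneg_left _ (by positivity)
    calc G * β = (G * β) * 1 := by ring
      _ ≤ (G * β) * (G * β) := mul_le_mul_of_nonneg_left hGβ (by linarith)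
      _ = _ := by ring
  have h6 : b * (12 * G ^ 2 * β ^ 2) ≤ b * e := mul_le_mul_of_nonneg_left h2 hb
  have h7 : b * (12 * G ^ 2 * β ^ 2) = 4 * (G ^ 2 * β ^ 2) * b + (8 * b) * (G ^ 2 * β ^ 2) := by ring
  linarith

lemma r12 (G₀ G x r CC y : ℝ) (hG : 0 ≤ G) (hGx : G ≤ G₀ * x) (hr : 0 < r)
    (hCC : 576 * G₀ ^ 2 / r ^ 3 ≤ CC) (hx : x ^ 2 ≤ y) (hCC0 : 0 ≤ CC) :
    576 * G ^ 2 / r ^ 3 ≤ CC * y := by
  have h1 : G ^ 2 ≤ (G₀ * x) ^ 2 := pow_le_pow_left₀ hG hGx 2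
  calc 576 * G ^ 2 / r ^ 3 ≤ 576 * (G₀ * x) ^ 2 / r ^ 3 := by gcongr
    _ = 576 * G₀ ^ 2 / r ^ 3 * x ^ 2 := by ring
    _ ≤ CC * y := mul_le_mul hCC hx (by positivity) hCC0

lemma r13 (CB S₁ m₀ L : ℝ) (KB : ℕ) (hm : 0 < m₀) (hL : 0 < L) :
    (CB + S₁ + 1) / (4 * m₀) * L ^ (KB + 1) * (4 * (m₀ / L)) = (CB + S₁ + 1) * L ^ KB := by
  rw [pow_succ]
  field_simp

lemma r14 (A x d c : ℝ) (h : A ≤ d) (hc : 0 ≤ c) (hx : 0 ≤ x) :
    Real.exp (-(d * c)) * x ≤ Real.exp (-(A * c)) * x := by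
  refine mul_le_mul_of_nonneg_right (Real.exp_le_exp.mpr ?_) hx
  have := mul_le_mul_of_nonneg_right h hc
  linarith

lemma r15 (n Z1 Z2 Z3 Z4 a e : ℝ) (h : Z1 * Z2 ≤ Z3 * Z4 * a) (ha : a ≤ e) (h3 : 0 ≤ Z3) (h4 : 0 ≤ Z4) :
    n * Z1 * (n * Z2) ≤ n * Z3 * (n * Z4) * e := by
  have h' : Z1 * Z2 ≤ Z3 * Z4 * e := h.trans (mul_le_mul_of_nonneg_left ha (mul_nonneg h3 h4))
  calc n * Z1 * (n * Z2) = n ^ 2 * (Z1 * Z2) := by ring
    _ ≤ n ^ 2 * (Z3 * Z4 * e) := mul_le_mul_of_nonneg_left h' (sq_nonneg _)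
    _ = _ := by ring

variable {N L : ℕ} [NeZero L]

lemma Zf_nonneg (k : ℕ) (β : ℝ) (s : Pl → ℤ) (U : Finset Pl) (η : Cf N L) :
    0 ≤ Zf k β s U η := integral_nonneg fun _ => (Real.exp_pos _).le

lemma om_norm' (n : ℕ) : ‖om N n‖ = 1 := by
  have : om N n = Complex.exp (((2 * Real.pi * n / N : ℝ) : ℂ) * Complex.I) := by
    rw [om]
    congr 1
    push_cast
    ring
  rw [this, Complex.norm_exp_ofReal_mul_I]

lemma om_zero' : om N 0 = 1 := by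
  simp [om]

/-- the sum over the charges -/
lemma split (hN : 2 ≤ N) (c : ℕ) (F : ℕ → ℝ) (hF0 : ∀ n, 0 ≤ F n) (X Y A b : ℝ)
    (hX : X = ‖∑ n ∈ Finset.range N, om N (c * n) * (F n : ℂ)‖)
    (hY : Y = ∑ n ∈ Finset.range N, F n) (hv : ∑ n ∈ Finset.Ico 1 N, F n ≤ A * b * Y) :
    (1 - 2 * A * b) * Y ≤ X := by
  have hsplit : ∑ n ∈ Finset.range N, F n = F 0 + ∑ n ∈ Finset.Ico 1 N, F n := by
    rw [Finset.range_eq_Ico, Finset.sum_eq_sum_Ico_succ_bot (by omega)]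
  have hx : F 0 - ∑ n ∈ Finset.Ico 1 N, F n ≤ X := by
    rw [hX, Finset.range_eq_Ico, Finset.sum_eq_sum_Ico_succ_bot (by omega : 0 < N)]
    have h2 : ‖∑ n ∈ Finset.Ico (0 + 1) N, om N (c * n) * (F n : ℂ)‖ ≤ ∑ n ∈ Finset.Ico 1 N, F n := by
      refine (norm_sum_le _ _).trans (Finset.sum_le_sum fun n _ => ?_)
      rw [norm_mul, om_norm', one_mul, Complex.norm_real, Real.norm_eq_abs, abs_of_nonneg (hF0 n)]
    have h3 : ‖om N (c * 0) * (F 0 : ℂ)‖ = F 0 := by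
      rw [norm_mul, om_norm', one_mul, Complex.norm_real, Real.norm_eq_abs, abs_of_nonneg (hF0 0)]
    have h4 := norm_sub_norm_le (om N (c * 0) * (F 0 : ℂ)) (-∑ n ∈ Finset.Ico (0 + 1) N, om N (c * n) * (F n : ℂ))
    rw [norm_neg, sub_neg_eq_add, h3] at h4
    linarith
  have : F 0 - ∑ n ∈ Finset.Ico 1 N, F n = Y - 2 * ∑ n ∈ Finset.Ico 1 N, F n := by
    rw [hY, hsplit]
    ring
  rw [this] at hx
  exact r9 A b Y X _ hx hv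

end PkgUHb

end T2H01.SE
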